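import Pool.Agent.Lib.LEN.Cls0
import Pool.Agent.Lib.GMV.Compl

/-!
# LEN.Cls: residue classes modulo the primorial (paper e87c7d_LEN.md, 1 and 6)
-/

set_option autoImplicit false

open Finset Filter

namespace Pool.Agent.Lib.LEN

open Pool.Agent.HLB Pool.Agent.HLT Pool.Agent.HLR Pool.Agent.Lib.GMV

theorem PP_pos (w : ℕ) : 0 < PP w := Cls0.PP_pos w

theorem PP_le (w : ℕ) : PP w ≤ 4 ^ w := Cls0.PP_le w

namespace ClsAux

lemma sum_cls (N w : ℕ) (g : ℕ → ℝ) :
    ∑ c ∈ range (PP w), ∑ h ∈ cls N w c, g h = ∑ h ∈ Icc 1 N, g h := by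
  rw [← Finset.sum_fiberwise_of_maps_to (s := Icc 1 N) (t := range (PP w)) (g := fun h => h % PP w)
    (fun h _ => mem_range.2 (Nat.mod_lt _ (PP_pos w)))]
  refine Finset.sum_congr rfl fun c hc => ?_
  unfold cls
  rw [Nat.mod_eq_of_lt (mem_range.1 hc)]

open scoped Classical in
/-- The product of the sieve weights on a tuple. -/
lemma prod_nuz (w : ℕ) {r : ℕ} (a : Fin r → ℕ) (n : ℕ) :
    ∏ i, nuz w (n + a i) = if Good w a n then (DZ w)⁻¹ ^ r else 0 := by
  split_ifs with h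
  · have h1 : ∀ i ∈ (univ : Finset (Fin r)), nuz w (n + a i) = (DZ w)⁻¹ := by
      intro i _
      unfold nuz ic
      rw [if_pos (Cls0.coprime_PP_iff.1 (h i)), mul_one]
    rw [Finset.prod_congr rfl h1, Finset.prod_const, Finset.card_univ, Fintype.card_fin]
  · unfold Good at h
    push Not at h
    obtain ⟨i, hi⟩ := h
    refine Finset.prod_eq_zero (Finset.mem_univ i) ?_
    unfold nuz ic
    rw [if_neg (fun h1 => hi (Cls0.coprime_PP_iff.2 h1)), mul_zero]

/-- The number of the good classes. -/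
lemma nA_eq (w : ℕ) {r : ℕ} (a : Fin r → ℕ) :
    (nA w a : ℝ) * (DZ w)⁻¹ ^ r = PP w * SZ w a := by
  classical
  have hP : 0 < PP w := PP_pos w
  have hPc : (PP w : ℂ) ≠ 0 := by exact_mod_cast hP.ne'
  -- the mean of the weights
  have h1 : (∑ n ∈ range (PP w), ((∏ i, nuz w (n + a i) : ℝ) : ℂ)) / PP w = ((SZ w a : ℝ) : ℂ) := by
    have h2 := ComplAux.av_prod_uc (Nat.primesLE w) (fun p hp => (Nat.mem_primesLE.1 hp).2) 1 le_rfl a
    unfold av at h2
    rw [one_mul] at h2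
    have h3 : ∀ n ∈ range (PP w), ((∏ i, nuz w (n + a i) : ℝ) : ℂ) =
        ∏ p ∈ Nat.primesLE w, ComplAux.uc p a n := by
      intro n _
      rw [← ComplAux.nuz_prod]
      push_cast
      rfl
    rw [Finset.sum_congr rfl h3]
    exact h2
  have h4 : (∑ n ∈ range (PP w), ∏ i, nuz w (n + a i)) = PP w * SZ w a := by
    rw [div_eq_iff hPc] at h1
    have h5 : (((∑ n ∈ range (PP w), ∏ i, nuz w (n + a i)) : ℝ) : ℂ) =
        ((PP w * SZ w a : ℝ) : ℂ) := by
      rw [Complex.ofReal_sum, h1]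
      push_cast
      ring
    exact_mod_cast h5
  rw [← h4, Finset.sum_congr rfl fun n _ => prod_nuz w a n, ← Finset.sum_filter, Finset.sum_const,
    nsmul_eq_mul]
  rfl

lemma locI_nonneg {r : ℕ} (a : Fin r → ℕ) {p : ℕ} (hp : p.Prime) : 0 ≤ locI a p := by
  have hp0 : (0 : ℝ) < p := by exact_mod_cast hp.pos
  have h1 : (nuI a p : ℝ) ≤ p := by exact_mod_cast nuI_le_prime a hp
  have h2 : 0 < 1 - 1 / (p : ℝ) := Pool.Agent.HL.one_sub_inv_pos hp
  unfold locI
  refine mul_nonneg ?_ (by positivity)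
  rw [sub_nonneg, div_le_one hp0]
  exact h1

lemma locI_pos_iff {r : ℕ} (a : Fin r → ℕ) {p : ℕ} (hp : p.Prime) : 0 < locI a p ↔ nuI a p < p := by
  have hp0 : (0 : ℝ) < p := by exact_mod_cast hp.pos
  have h2 : 0 < 1 - 1 / (p : ℝ) := Pool.Agent.HL.one_sub_inv_pos hp
  have h3 : 0 < ((1 - 1 / (p : ℝ))⁻¹) ^ (Fintype.card (Fin r)) := by positivity
  unfold locI
  rw [mul_pos_iff_of_pos_right h3, sub_pos, div_lt_one hp0]
  exact_mod_cast Iff.rfl

lemma primeFactors_PP (w : ℕ) : (PP w).primeFactors = Nat.primesLE w := by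
  ext p
  rw [Nat.mem_primeFactors]
  constructor
  · rintro ⟨hp, hd, -⟩
    by_contra h
    have h1 : w < p := by
      by_contra h2
      exact h (Nat.mem_primesLE.2 ⟨not_lt.1 h2, hp⟩)
    have h3 := Cls0.prime_coprime_PP hp h1
    exact hp.one_lt.ne' ((Nat.coprime_self p).1 (h3.coprime_dvd_right hd))
  · intro hp
    exact ⟨(Nat.mem_primesLE.1 hp).2, Finset.dvd_prod_of_mem (fun q => q) hp, (PP_pos w).ne'⟩

lemma totient_PP (w : ℕ) : (Nat.totient (PP w) : ℝ) = PP w * DZ w := by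
  have h1 := Nat.totient_eq_mul_prod_factors (PP w)
  rw [primeFactors_PP] at h1
  have h2 : ((Nat.totient (PP w) : ℚ) : ℝ) =
      ((PP w * ∏ p ∈ Nat.primesLE w, (1 - (p : ℚ)⁻¹) : ℚ) : ℝ) := by rw [h1]
  push_cast at h2
  unfold DZ
  rw [h2]
  refine congrArg (fun x => (PP w : ℝ) * x) (Finset.prod_congr rfl fun p _ => ?_)
  rw [one_div]

end ClsAux

theorem sum_classes (f : ℕ → ℝ) (N w r : ℕ) (S : Finset (ℕ × ℕ)) :
    ∑ a ∈ Fintype.piFinset (fun _ : Fin r => range (PP w)), ∑ x ∈ S,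
      ∏ i, CC f N w (a i) x.1 x.2 = ∑ x ∈ S, (∑ h ∈ Icc 1 N, f (x.1 + h) * f (x.2 + h)) ^ r := by
  rw [Finset.sum_comm]
  refine Finset.sum_congr rfl fun x _ => ?_
  rw [← Finset.prod_univ_sum (fun _ : Fin r => range (PP w)) fun _ c => CC f N w c x.1 x.2]
  rw [Finset.prod_const, Finset.card_univ, Fintype.card_fin]
  congr 1
  exact ClsAux.sum_cls N w fun h => f (x.1 + h) * f (x.2 + h)

theorem nA_pos (w : ℕ) {r : ℕ} (a : Fin r → ℕ) :
    1 ≤ nA w a ↔ ∀ p ∈ Nat.primesLE w, nuI a p < p := by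
  have hP : (0 : ℝ) < PP w := by exact_mod_cast PP_pos w
  have hD : 0 < (DZ w)⁻¹ ^ r := by
    have := DZ_pos w
    positivity
  have h1 := ClsAux.nA_eq w a
  have h2 : 1 ≤ nA w a ↔ 0 < SZ w a := by
    constructor
    · intro h
      have h3 : (0 : ℝ) < nA w a := by exact_mod_cast h
      have h4 : 0 < (PP w : ℝ) * SZ w a := by
        rw [← h1]
        positivity
      exact (mul_pos_iff_of_pos_left hP).1 h4
    · intro h
      have h4 : 0 < (nA w a : ℝ) * (DZ w)⁻¹ ^ r := by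
        rw [h1]
        positivity
      have h5 : (0 : ℝ) < nA w a := (mul_pos_iff_of_pos_right hD).1 h4
      exact_mod_cast h5
  rw [h2]
  constructor
  · intro h p hp
    rw [← ClsAux.locI_pos_iff a (Nat.mem_primesLE.1 hp).2]
    refine lt_of_le_of_ne (ClsAux.locI_nonneg a (Nat.mem_primesLE.1 hp).2) fun h3 => ?_
    have h4 : SZ w a = 0 := Finset.prod_eq_zero hp h3.symm
    exact absurd h4 h.ne'
  · intro h
    exact Finset.prod_pos fun p hp => (ClsAux.locI_pos_iff a (Nat.mem_primesLE.1 hp).2).2 (h p hp)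

theorem MM_eq (N w : ℕ) {r : ℕ} (a : Fin r → ℕ) : MM N w a = N * SZ w a := by
  have hP : (PP w : ℝ) ≠ 0 := by exact_mod_cast (PP_pos w).ne'
  have h1 := ClsAux.nA_eq w a
  unfold MM
  rw [mul_div_assoc, mul_assoc, div_mul_eq_mul_div, h1]
  field_simp

open scoped Classical in
theorem adm_classes (w r : ℕ) :
    ((PP w : ℝ) * DZ w) ^ r ≤ (((Fintype.piFinset (fun _ : Fin r => range (PP w))).filter
      (fun a => ∀ p ∈ Nat.primesLE w, nuI a p < p)).card : ℝ) := by
  have h1 : Fintype.piFinset (fun _ : Fin r => (range (PP w)).filter (fun c => Nat.Coprime (PP w) c)) ⊆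
      (Fintype.piFinset (fun _ : Fin r => range (PP w))).filter
      (fun a => ∀ p ∈ Nat.primesLE w, nuI a p < p) := by
    intro a ha
    rw [Fintype.mem_piFinset] at ha
    rw [mem_filter, Fintype.mem_piFinset]
    refine ⟨fun i => (mem_filter.1 (ha i)).1, fun p hp => ?_⟩
    have hpp : p.Prime := (Nat.mem_primesLE.1 hp).2
    have : Fact p.Prime := ⟨hpp⟩
    -- the class of zero is missed
    have h2 : (univ.image (fun i => ((a i : ℕ) : ZMod p))) ⊆ univ.erase 0 := by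
      intro x hx
      obtain ⟨i, -, rfl⟩ := Finset.mem_image.1 hx
      rw [Finset.mem_erase]
      refine ⟨fun h => ?_, Finset.mem_univ _⟩
      rw [ZMod.natCast_eq_zero_iff] at h
      exact Cls0.coprime_PP_iff.1 (mem_filter.1 (ha i)).2.symm p hp h
    have h3 := Finset.card_le_card h2
    rw [Finset.card_erase_of_mem (Finset.mem_univ _), Finset.card_univ, ZMod.card] at h3
    have h4 : nuI a p ≤ p - 1 := h3
    have := hpp.pos
    omega
  have h5 := Finset.card_le_card h1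
  rw [Fintype.card_piFinset, Finset.prod_const, Finset.card_univ, Fintype.card_fin] at h5
  rw [← ClsAux.totient_PP]
  have h6 : ((range (PP w)).filter (fun c => Nat.Coprime (PP w) c)).card = Nat.totient (PP w) := rfl
  rw [h6] at h5
  rw [← Nat.cast_pow]
  refine Nat.cast_le.2 (h5.trans (le_of_eq ?_))
  congr!

/-- The tuples of `[1, N]^r` split into the classes. -/
theorem sum_Hc (N w r : ℕ) (g : (Fin r → ℕ) → ℝ) :
    ∑ h ∈ Tup r (Icc 1 N), g h =
      ∑ a ∈ Fintype.piFinset (fun _ : Fin r => range (PP w)), ∑ h ∈ Hc N w a, g h := by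
  rw [← Finset.sum_fiberwise_of_maps_to (s := Tup r (Icc 1 N))
    (t := Fintype.piFinset (fun _ : Fin r => range (PP w))) (g := fun h i => h i % PP w)
    (fun h _ => Fintype.mem_piFinset.2 fun i => mem_range.2 (Nat.mod_lt _ (PP_pos w)))]
  refine Finset.sum_congr rfl fun a ha => ?_
  refine Finset.sum_congr ?_ fun _ _ => rfl
  ext h
  rw [mem_filter, mem_Tup]
  unfold Hc
  rw [Fintype.mem_piFinset] at ha ⊢
  constructor
  · rintro ⟨h1, h2⟩ i
    unfold cls
    rw [mem_filter]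
    refine ⟨h1 i, ?_⟩
    rw [Nat.mod_eq_of_lt (mem_range.1 (ha i))]
    exact congrFun h2 i
  · intro h1
    refine ⟨fun i => (mem_filter.1 (h1 i)).1, funext fun i => ?_⟩
    have h2 := (mem_filter.1 (h1 i)).2
    rwa [Nat.mod_eq_of_lt (mem_range.1 (ha i))] at h2

end Pool.Agent.Lib.LEN
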