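import Pool.Agent.Lib.LEN.Defs

/-!
# LEN.Cls0: counting residue classes and good integers

`PP w ≤ 4 ^ w`; the number of the integers of a window `(u, u + N]` in a residue class; the number of the good ones
in a residue class modulo `t` coprime to `PP w`.
-/

set_option autoImplicit false

open Finset Filter

namespace Pool.Agent.Lib.LEN

open Pool.Agent.HLB Pool.Agent.HLT Pool.Agent.HLR Pool.Agent.Lib.GMV

namespace Cls0

lemma PP_pos (w : ℕ) : 0 < PP w := by
  unfold PP
  exact prod_pos fun p hp => (Nat.mem_primesLE.1 hp).2.pos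

lemma PP_eq_primorial (w : ℕ) : PP w = primorial w := by
  unfold PP primorial
  refine prod_congr ?_ fun _ _ => rfl
  ext p
  rw [mem_filter, mem_range, Nat.mem_primesLE]
  constructor
  · rintro ⟨h, h'⟩
    exact ⟨by omega, h'⟩
  · rintro ⟨h, h'⟩
    exact ⟨by omega, h'⟩

lemma PP_le (w : ℕ) : PP w ≤ 4 ^ w := by
  rw [PP_eq_primorial]
  exact primorial_le_four_pow w

lemma prime_coprime_PP {w p : ℕ} (hp : p.Prime) (hw : w < p) : Nat.Coprime p (PP w) := by
  unfold PP
  refine Nat.Coprime.prod_right fun q hq => ?_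
  rw [Nat.mem_primesLE] at hq
  exact (Nat.coprime_primes hp hq.2).2 (by omega)

lemma coprime_PP_iff {w n : ℕ} : Nat.Coprime n (PP w) ↔ ∀ p ∈ Nat.primesLE w, ¬ p ∣ n := by
  unfold PP
  rw [Nat.coprime_prod_right_iff]
  refine forall₂_congr fun p hp => ?_
  rw [Nat.coprime_comm]
  exact (Nat.mem_primesLE.1 hp).2.coprime_iff_not_dvd

/-- Counting a residue class in an interval `(u, u + N]`. -/
lemma card_class (P : ℕ) (hP : 1 ≤ P) (c u N : ℕ) :
    |((((Ioc u (u + N)).filter fun h => h ≡ c [MOD P]).card : ℕ) : ℝ) - N / P| ≤ 1 := by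
  have hP0 : 0 < P := hP
  have hPr : (0 : ℚ) < P := by exact_mod_cast hP0
  have h1 := Nat.Ioc_filter_modEq_card u (u + N) hP0 c
  have hq : |((((Ioc u (u + N)).filter fun h => h ≡ c [MOD P]).card : ℕ) : ℚ) - N / P| ≤ 1 := by
    set α : ℚ := (((u + N : ℕ) : ℚ) - c) / P with hα
    set β : ℚ := ((u : ℚ) - c) / P with hβ
    have hαβ : α = β + N / P := by
      rw [hα, hβ]
      push_cast
      ring
    have hN : (0 : ℚ) ≤ N / P := by positivity
    have hfl : ⌊β⌋ ≤ ⌊α⌋ := Int.floor_le_floor (by rw [hαβ]; linarith)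
    have h2 : ((((Ioc u (u + N)).filter fun h => h ≡ c [MOD P]).card : ℕ) : ℤ) = ⌊α⌋ - ⌊β⌋ := by
      rw [h1, max_eq_left (by linarith)]
    have h3 : ((((Ioc u (u + N)).filter fun h => h ≡ c [MOD P]).card : ℕ) : ℚ) =
        (⌊α⌋ : ℚ) - ⌊β⌋ := by
      have := congrArg (fun z : ℤ => (z : ℚ)) h2
      push_cast at this
      exact this
    rw [h3, abs_le]
    have a1 := Int.floor_le α
    have a2 := Int.lt_floor_add_one α
    have b1 := Int.floor_le β
    have b2 := Int.lt_floor_add_one β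
    constructor <;> linarith
  have h4 : ((|((((Ioc u (u + N)).filter fun h => h ≡ c [MOD P]).card : ℕ) : ℚ) - N / P| : ℚ) : ℝ) ≤
      ((1 : ℚ) : ℝ) := by exact_mod_cast hq
  push_cast at h4
  exact h4

/-- Counting a residue class in `[1, N]`. -/
lemma card_class' (P : ℕ) (hP : 1 ≤ P) (c N : ℕ) :
    |((((Icc 1 N).filter fun h => h ≡ c [MOD P]).card : ℕ) : ℝ) - N / P| ≤ 1 := by
  have h := card_class P hP c 0 N
  rw [zero_add] at h
  exact h

lemma cls_eq (N w c : ℕ) : cls N w c = (Icc 1 N).filter fun h => h ≡ c [MOD PP w] := rfl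

lemma card_cls_le (N w c : ℕ) : ((cls N w c).card : ℝ) ≤ N / PP w + 1 := by
  have h := (abs_le.1 (card_class' (PP w) (PP_pos w) c N)).2
  rw [cls_eq]
  linarith

lemma card_cls_ge (N w c : ℕ) : (N : ℝ) / PP w - 1 ≤ (cls N w c).card := by
  have h := (abs_le.1 (card_class' (PP w) (PP_pos w) c N)).1
  rw [cls_eq]
  linarith

lemma good_add_mul {r : ℕ} (w : ℕ) (a : Fin r → ℕ) (n k : ℕ) :
    Good w a (n + PP w * k) ↔ Good w a n := by
  unfold Good
  refine forall_congr' fun i => ?_
  rw [show n + PP w * k + a i = n + a i + PP w * k by ring]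
  exact Nat.coprime_add_mul_left_left _ _ _

lemma good_mod {r : ℕ} (w : ℕ) (a : Fin r → ℕ) (n : ℕ) : Good w a (n % PP w) ↔ Good w a n := by
  have h := good_add_mul w a (n % PP w) (n / PP w)
  rw [Nat.mod_add_div] at h
  exact h.symm

open scoped Classical in
/-- Good integers in a residue class. -/
lemma card_good_class {r : ℕ} (w : ℕ) (a : Fin r → ℕ) (t : ℕ) (ht : 1 ≤ t)
    (htP : Nat.Coprime (PP w) t) (m u N : ℕ) :
    ((((Ioc u (u + N)).filter fun n => Good w a n ∧ n ≡ m [MOD t]).card : ℕ) : ℝ) ≤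
      nA w a * (N / (PP w * t) + 1) := by
  set s : Finset ℕ := (Ioc u (u + N)).filter fun n => Good w a n ∧ n ≡ m [MOD t] with hs
  set B : Finset ℕ := (range (PP w)).filter (Good w a) with hB
  have hmaps : ∀ n ∈ s, n % PP w ∈ B := by
    intro n hn
    rw [hs, mem_filter] at hn
    rw [hB, mem_filter, mem_range]
    exact ⟨Nat.mod_lt _ (PP_pos w), (good_mod w a n).2 hn.2.1⟩
  rw [card_eq_sum_card_fiberwise hmaps]
  push_cast
  have hb : ∀ b ∈ B, ((s.filter (fun n => n % PP w = b)).card : ℝ) ≤ N / (PP w * t) + 1 := by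
    intro b hb
    have hbP : b < PP w := mem_range.1 (mem_filter.1 (hB ▸ hb)).1
    obtain ⟨c, hc1, hc2⟩ := Nat.chineseRemainder htP b m
    have hsub : s.filter (fun n => n % PP w = b) ⊆
        (Ioc u (u + N)).filter fun n => n ≡ c [MOD (PP w * t)] := by
      intro n hn
      rw [mem_filter, hs, mem_filter] at hn
      rw [mem_filter]
      refine ⟨hn.1.1, ?_⟩
      rw [← Nat.modEq_and_modEq_iff_modEq_mul htP]
      refine ⟨?_, hn.1.2.2.trans hc2.symm⟩
      have h1 : n ≡ b [MOD PP w] := by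
        unfold Nat.ModEq
        rw [hn.2, Nat.mod_eq_of_lt hbP]
      exact h1.trans hc1.symm
    have h1 : ((s.filter (fun n => n % PP w = b)).card : ℝ) ≤
        (((Ioc u (u + N)).filter fun n => n ≡ c [MOD (PP w * t)]).card : ℝ) := by
      exact_mod_cast card_le_card hsub
    have h2 := (abs_le.1 (card_class (PP w * t) (Nat.mul_pos (PP_pos w) ht) c u N)).2
    push_cast at h2
    linarith
  refine (sum_le_sum hb).trans ?_
  rw [sum_const, nsmul_eq_mul]
  refine le_of_eq ?_
  unfold nA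
  rw [← hB]

open scoped Classical in
lemma card_good {r : ℕ} (w : ℕ) (a : Fin r → ℕ) (u N : ℕ) :
    ((((Ioc u (u + N)).filter (Good w a)).card : ℕ) : ℝ) ≤ nA w a * (N / PP w + 1) := by
  have h := card_good_class w a 1 le_rfl (Nat.coprime_one_right _) 0 u N
  have e : (Ioc u (u + N)).filter (fun n => Good w a n ∧ n ≡ 0 [MOD 1]) =
      (Ioc u (u + N)).filter (Good w a) := by
    refine filter_congr fun n _ => ?_
    simp [Nat.modEq_one]
  rw [e] at h
  simpa using h

open scoped Classical in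
lemma card_good_ge {r : ℕ} (w : ℕ) (a : Fin r → ℕ) (u N : ℕ) :
    nA w a * (N / PP w - 1) ≤ ((((Ioc u (u + N)).filter (Good w a)).card : ℕ) : ℝ) := by
  set s : Finset ℕ := (Ioc u (u + N)).filter (Good w a) with hs
  set B : Finset ℕ := (range (PP w)).filter (Good w a) with hB
  have hmaps : ∀ n ∈ s, n % PP w ∈ B := by
    intro n hn
    rw [hs, mem_filter] at hn
    rw [hB, mem_filter, mem_range]
    exact ⟨Nat.mod_lt _ (PP_pos w), (good_mod w a n).2 hn.2⟩
  rw [card_eq_sum_card_fiberwise hmaps]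
  push_cast
  have hb : ∀ b ∈ B, (N : ℝ) / PP w - 1 ≤ ((s.filter (fun n => n % PP w = b)).card : ℝ) := by
    intro b hb
    have hb' := mem_filter.1 (hB ▸ hb)
    have hbP : b < PP w := mem_range.1 hb'.1
    have hsub : (Ioc u (u + N)).filter (fun n => n ≡ b [MOD PP w]) ⊆
        s.filter (fun n => n % PP w = b) := by
      intro n hn
      rw [mem_filter] at hn
      rw [mem_filter, hs, mem_filter]
      have h1 : n % PP w = b := by
        have := hn.2
        unfold Nat.ModEq at this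
        rw [this, Nat.mod_eq_of_lt hbP]
      exact ⟨⟨hn.1, (good_mod w a n).1 (by rw [h1]; exact hb'.2)⟩, h1⟩
    have h1 : (((Ioc u (u + N)).filter fun n => n ≡ b [MOD PP w]).card : ℝ) ≤
        ((s.filter (fun n => n % PP w = b)).card : ℝ) := by
      exact_mod_cast card_le_card hsub
    have h2 := (abs_le.1 (card_class (PP w) (PP_pos w) b u N)).1
    linarith
  refine le_trans ?_ (sum_le_sum hb)
  rw [sum_const, nsmul_eq_mul]
  refine le_of_eq ?_
  unfold nA
  rw [← hB]

end Cls0

end Pool.Agent.Lib.LEN
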