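import Pool.Agent.Lib.LEN.DefsK

/-!
# LEN.ClsK: the sum over all classes
-/

set_option autoImplicit false

open Finset Filter

namespace Pool.Agent.Lib.LEN

open Pool.Agent.HLB Pool.Agent.HLT Pool.Agent.HLR Pool.Agent.Lib.GMV

namespace ClsKAux

theorem PP_pos (w : ℕ) : 0 < PP w := by
  unfold PP
  exact Finset.prod_pos fun p hp => (Nat.mem_primesLE.1 hp).2.pos

theorem sum_cls (N w : ℕ) (g : ℕ → ℝ) :
    ∑ c ∈ range (PP w), ∑ h ∈ cls N w c, g h = ∑ h ∈ Icc 1 N, g h := by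
  rw [← Finset.sum_fiberwise_of_maps_to (s := Icc 1 N) (t := range (PP w)) (g := fun h => h % PP w)
    (fun h _ => mem_range.2 (Nat.mod_lt _ (PP_pos w)))]
  refine Finset.sum_congr rfl fun c hc => ?_
  unfold cls
  rw [Nat.mod_eq_of_lt (mem_range.1 hc)]

end ClsKAux

/-- Module ClsK: the sum over all classes. -/
theorem sum_classesK (f : ℕ → ℝ) (N w r k : ℕ) (S : Finset (Fin k → ℕ)) :
    ∑ a ∈ Fintype.piFinset (fun _ : Fin r => range (PP w)), ∑ n ∈ S,
      ∏ i, CK f N w (a i) n = ∑ n ∈ S, (∑ h ∈ Icc 1 N, ∏ j, f (n j + h)) ^ r := by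
  rw [Finset.sum_comm]
  refine Finset.sum_congr rfl fun n _ => ?_
  rw [← Finset.prod_univ_sum (fun _ : Fin r => range (PP w)) fun _ c => CK f N w c n]
  rw [Finset.prod_const, Finset.card_univ, Fintype.card_fin]
  congr 1
  exact ClsKAux.sum_cls N w fun h => ∏ j, f (n j + h)

end Pool.Agent.Lib.LEN
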