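import Pool.Agent.Lib.LEN.DefsK

/-!
# LEN: everything analytic, for all `k ≤ k0` at once: the statement
-/

set_option autoImplicit false

open Finset Filter

namespace Pool.Agent.Lib.LEN

open Pool.Agent.HLB Pool.Agent.HLT Pool.Agent.HLR Pool.Agent.Lib.GMV

/-- Everything analytic, for all `k ≤ k0` at once; `C1, cA` are absolute, `cw, d, B'` depend on
`k0` only, and the statement holds for all `C2 ≥ C0` and all `cB > 0` (so that finitely many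
theorems can be used at the same `N`). -/
def LevS (C1 cA : ℝ) : Prop :=
    ∀ k0 : ℕ, ∃ cw d B' : ℝ, 0 < cw ∧ 0 < d ∧ 1 ≤ B' ∧ ∀ K A : ℝ, 1 ≤ K → 1 ≤ A →
    ∃ C0 : ℝ, ∀ C2 cB : ℝ, C0 ≤ C2 → 0 < cB → ∀ u : ℝ, 0 < u → ∀ w1 : ℕ, ∃ N0 : ℕ, ∀ N : ℕ,
    N0 ≤ N → GoodX cA C1 cB C2 N → ∀ w : ℕ, w = ⌊cw * yy N⌋₊ →
    w1 ≤ w ∧ 4 ^ (100 * (k0 + 1) * w) ≤ N ∧ Real.log N ≤ (w : ℝ) ^ 2 ∧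
      yy N ≤ 2 / cw * w ∧ (w : ℝ) ≤ u * Real.log N ∧
    ∃ e1 e2 : ℝ, 0 ≤ e1 ∧ e1 ≤ 1 ∧ 0 ≤ e2 ∧ e2 ≤ 1 ∧ ∀ k : ℕ, 1 ≤ k → k ≤ k0 →
    ∃ (Bd1 Bd2 Bd3 : Finset (Fin k → ℕ)), (Bd3.card : ℝ) ≤ (N : ℝ) ^ ((k : ℝ) - d) ∧
    (∀ r : ℕ, (r : ℝ) ≤ K * yy N → r * e1 ≤ u ∧
      (Bd1.card : ℝ) * 4 ^ (k * w) ≤ u * (N : ℝ) ^ k ∧
      (1 + e2) ^ r * Real.sqrt Bd1.card * 4 ^ (k * w) ≤ u * Real.sqrt ((N : ℝ) ^ k) ∧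
      B' ^ r * Real.sqrt Bd2.card * 4 ^ (k * w) ≤ u * Real.sqrt ((N : ℝ) ^ k) ∧
      A ^ r * Real.sqrt Bd2.card * 4 ^ (k * w) ≤ u * Real.sqrt ((N : ℝ) ^ k)) ∧
    (∀ c, ∀ n ∈ TK N k, n ∉ Bd1 → (∀ j, Nat.Coprime (n j + c) (PP w)) →
      Tm N w k * (1 - e1) ≤ CK lp N w c n ∧ CK lp N w c n ≤ Tm N w k * (sk w n * (1 + e1))) ∧
    (∀ c, ∀ n ∈ TK N k, n ∉ Bd2 → (∀ j, Nat.Coprime (n j + c) (PP w)) →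
      CK lp N w c n ≤ Tm N w k * (sk w n * (1 + e2))) ∧
    (∀ c, ∀ n ∈ TK N k, n ∉ Bd3 → (∀ j, Nat.Coprime (n j + c) (PP w)) →
      CK lp N w c n ≤ Tm N w k * (sk w n * B'))

end Pool.Agent.Lib.LEN
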