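import Pool.Agent.Lib.LEN.Defs

/-!
# LEN: factorial moments of every order: definitions
-/

set_option autoImplicit false

open Finset Filter

namespace Pool.Agent.Lib.LEN

open Pool.Agent.HLB Pool.Agent.HLT Pool.Agent.HLR Pool.Agent.Lib.GMV

/-- The `k`-point correlation in a class. -/
noncomputable def CK (f : ℕ → ℝ) (N w c : ℕ) {k : ℕ} (n : Fin k → ℕ) : ℝ :=
  ∑ h ∈ cls N w c, ∏ j, f (n j + h)

/-- The product of `ss` over the pairs. -/
noncomputable def sk (w : ℕ) {k : ℕ} (n : Fin k → ℕ) : ℝ :=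
  ∏ i, ∏ j ∈ univ.filter (fun j => i < j), ss w (Nat.dist (n i) (n j))

open scoped Classical in
/-- The injective `k`-tuples of `(N, 2N]`. -/
noncomputable def TK (N k : ℕ) : Finset (Fin k → ℕ) :=
  (Tup k (Ioc N (2 * N))).filter Function.Injective

open scoped Classical in
/-- The injective `k`-tuples of good integers. -/
noncomputable def NK (w N k : ℕ) {r : ℕ} (a : Fin r → ℕ) : Finset (Fin k → ℕ) :=
  (Fintype.piFinset fun _ : Fin k => NA w N a).filter Function.Injective

/-- The weighted factorial moment of order `k`. -/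
noncomputable def FK (f : ℕ → ℝ) (N k : ℕ) {r : ℕ} (h : Fin r → ℕ) : ℝ :=
  ∑ n ∈ TK N k, ∏ i, ∏ j, f (n j + h i)

/-- The size of a `k`-point correlation in a class. -/
noncomputable def Tm (N w k : ℕ) : ℝ := (N : ℝ) / PP w * (DZ w)⁻¹ ^ k

/-- The Hardy-Littlewood prediction. -/
noncomputable def pr (N : ℕ) {r : ℕ} (h : Fin r → ℕ) : ℝ := SI h * N / Real.log N ^ r

/-- The expected number in a class. -/
noncomputable def lam (N w : ℕ) {r : ℕ} (a : Fin r → ℕ) : ℝ := MM N w a / Real.log N ^ r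

end Pool.Agent.Lib.LEN
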