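import Pool.Agent.Lib.LEN.Sel
import Pool.Agent.Lib.LEN.DefsK

/-!
# LEN.SelK: crude bound for the correlations of order `k`, without classes

PROOF SKETCH. `tuple_upperI k` (Selberg) and `SI n ≤ SZ z n * exp(4 k^3 log(2N+1)/(z log z))` with
`z = ⌊log N⌋`; `SZ z n ≤ (DZ z)⁻¹ ^ k ≤ (C log z)^k`. Inadmissible tuples: at most `k` integers.
-/

set_option autoImplicit false

open Finset Filter

namespace Pool.Agent.Lib.LEN

open Pool.Agent.HLB Pool.Agent.HLT Pool.Agent.HLR Pool.Agent.Lib.GMV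

namespace SelKAux

open Pool.Agent.Lib.MP Pool.Agent.Lib.MT

theorem locI_le {k : ℕ} {t : Fin k → ℕ} {p : ℕ} (hp : p.Prime) :
    locI t p ≤ ((1 - 1 / (p:ℝ))⁻¹) ^ k := by
  unfold locI
  have hp0 : (0:ℝ) < p := by exact_mod_cast hp.pos
  have h3 := Pool.Agent.HL.one_sub_inv_pos hp
  have h2 : (1:ℝ) - nuI t p / p ≤ 1 := by
    have : (0:ℝ) ≤ nuI t p / p := by positivity
    linarith
  rw [Fintype.card_fin]
  calc (1 - (nuI t p : ℝ) / p) * ((1 - 1 / (p:ℝ))⁻¹) ^ k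
      ≤ 1 * ((1 - 1 / (p:ℝ))⁻¹) ^ k := mul_le_mul_of_nonneg_right h2 (by positivity)
    _ = ((1 - 1 / (p:ℝ))⁻¹) ^ k := one_mul _

theorem SZ_le {k : ℕ} (t : Fin k → ℕ) (z : ℕ) (h0 : ∀ p ∈ Nat.primesLE z, 0 ≤ locI t p) :
    SZ z t ≤ ((DZ z)⁻¹) ^ k := by
  unfold SZ DZ
  rw [← Finset.prod_inv_distrib, ← Finset.prod_pow]
  exact Finset.prod_le_prod h0 fun p hp => locI_le (Nat.prime_of_mem_primesLE hp)

/-- The singular series of a tuple. -/
theorem SI_tuple (k : ℕ) (hk : 1 ≤ k) : ∃ C : ℝ, 0 < C ∧ ∀ᶠ N : ℕ in atTop, ∀ t : Fin k → ℕ,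
    Function.Injective t → (∀ i, t i ≤ 2 * N) → SI t ≤ C * Real.log (Real.log N) ^ k := by
  obtain ⟨cD, hcD, hD⟩ := DZ_lower
  refine ⟨Real.exp (16 * (k:ℝ) ^ 3) / cD ^ k, by positivity, ?_⟩
  filter_upwards [Wtd.log_large 4, eventually_ge_atTop 3] with N hL hN3 t ht htN
  have hNr : (3:ℝ) ≤ N := by exact_mod_cast hN3
  have hN0 : (0:ℝ) < N := by linarith
  set L := Real.log N with hLdef
  set z := ⌊L⌋₊ with hz
  have hz1 : (z:ℝ) ≤ L := Nat.floor_le (by linarith)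
  have hz2 : L - 1 < z := Nat.sub_one_lt_floor _
  have hz3 : 2 ≤ z := Nat.le_floor (by push_cast; linarith)
  have hz3r : (2:ℝ) ≤ z := by exact_mod_cast hz3
  have hlogz : 1/2 ≤ Real.log z := by
    have h1 := Real.log_le_log (by norm_num) hz3r
    have h2 := Real.log_two_gt_d9
    linarith
  have hlogzL : Real.log z ≤ Real.log L := Real.log_le_log (by linarith) hz1
  have h1 := SI_le_SZ t (by rw [Fintype.card_fin]; exact hk) ht (2 * N) z hz3 htN
  rw [Fintype.card_fin] at h1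
  have h2 := SZ_le t z fun p hp => locI_nonneg t (Nat.prime_of_mem_primesLE hp)
  have h3 : (DZ z)⁻¹ ≤ Real.log z / cD := by
    have h4 := hD z hz3
    have h5 : 0 < cD / Real.log z := by positivity
    have h6 := inv_anti₀ h5 h4
    rwa [inv_div] at h6
  have hDpos : 0 < DZ z := lt_of_lt_of_le (by positivity) (hD z hz3)
  have h3' : ((DZ z)⁻¹) ^ k ≤ (Real.log z / cD) ^ k :=
    pow_le_pow_left₀ (by positivity) h3 k
  have h4 : Real.log ((2 * N + 1 : ℕ) : ℝ) ≤ 2 * L := by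
    have e1 : Real.log ((2 * N + 1 : ℕ) : ℝ) ≤ Real.log ((N:ℝ) ^ 2) := by
      apply Real.log_le_log (by positivity)
      push_cast
      nlinarith
    rwa [Real.log_pow, Nat.cast_ofNat] at e1
  have h5 : 2 * (k:ℝ) ^ 3 * Real.log ((2 * N + 1 : ℕ) : ℝ) / (z * Real.log z) ≤
      16 * (k:ℝ) ^ 3 := by
    rw [div_le_iff₀ (by positivity)]
    have e1 : L / 2 ≤ z := by linarith
    have e2 : L / 2 * (1/2) ≤ z * Real.log z := mul_le_mul e1 hlogz (by norm_num) (by linarith)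
    have e3 : (0:ℝ) ≤ (k:ℝ) ^ 3 := by positivity
    calc 2 * (k:ℝ) ^ 3 * Real.log ((2 * N + 1 : ℕ) : ℝ)
        ≤ 2 * (k:ℝ) ^ 3 * (2 * L) := mul_le_mul_of_nonneg_left h4 (by positivity)
      _ = 16 * (k:ℝ) ^ 3 * (L / 2 * (1/2)) := by ring
      _ ≤ 16 * (k:ℝ) ^ 3 * (z * Real.log z) := mul_le_mul_of_nonneg_left e2 (by positivity)
  have hSZ0 : 0 ≤ SZ z t := SZ_nonneg z t
  calc SI t ≤ SZ z t * Real.exp (2 * (k:ℝ) ^ 3 * Real.log ((2 * N + 1 : ℕ) : ℝ) /
        (z * Real.log z)) := h1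
    _ ≤ (Real.log z / cD) ^ k * Real.exp (16 * (k:ℝ) ^ 3) := by
        apply mul_le_mul (h2.trans h3') (Real.exp_le_exp.mpr h5) (Real.exp_pos _).le
        positivity
    _ ≤ (Real.log L / cD) ^ k * Real.exp (16 * (k:ℝ) ^ 3) := by
        apply mul_le_mul_of_nonneg_right _ (Real.exp_pos _).le
        exact pow_le_pow_left₀ (by positivity) (div_le_div_of_nonneg_right hlogzL hcD.le) k
    _ = Real.exp (16 * (k:ℝ) ^ 3) / cD ^ k * Real.log L ^ k := by
        rw [div_pow]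
        ring

theorem main (k : ℕ) (hk : 1 ≤ k) : ∃ C N0 : ℕ, ∀ N : ℕ, N0 ≤ N → ∀ n : Fin k → ℕ,
    Function.Injective n → (∀ i, n i ≤ 2 * N) →
    ∑ h ∈ Icc 1 N, ∏ j, lp (n j + h) ≤ N * Real.log (Real.log N) ^ C := by
  obtain ⟨K, hK, hup⟩ := tuple_upperI k hk
  obtain ⟨C, hC, hSI⟩ := SI_tuple k hk
  have hlog : Tendsto (fun N : ℕ => Real.log (N:ℝ)) atTop atTop :=
    Real.tendsto_log_atTop.comp tendsto_natCast_atTop_atTop
  have hloglog : Tendsto (fun N : ℕ => Real.log (Real.log (N:ℝ))) atTop atTop :=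
    Real.tendsto_log_atTop.comp hlog
  have hev : ∀ᶠ N : ℕ in atTop, (∀ t : Fin k → ℕ, Function.Injective t →
      (∀ i, t i ≤ 2 * N) → SI t ≤ C * Real.log (Real.log N) ^ k) ∧ 3 ≤ N ∧
      1 ≤ Real.log (Real.log N) ∧ 2 ^ k * K * C ≤ Real.log (Real.log N) ∧ 1 ≤ Real.log N ∧
      (k * 2 ^ k) * (Real.log N) ^ k ≤ (N:ℝ) ^ (1:ℝ) := by
    filter_upwards [hSI, eventually_ge_atTop 3, hloglog.eventually_ge_atTop 1,
      hloglog.eventually_ge_atTop (2 ^ k * K * C), Wtd.log_large 1,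
      Wtd.log_pow_small k (k * 2 ^ k) 1 one_pos] with N h1 h3 h4 h5 h6 h7
    exact ⟨h1, h3, h4, h5, h6, h7⟩
  obtain ⟨N0, hN0⟩ := eventually_atTop.1 hev
  refine ⟨k + 1, N0, fun N hN t htinj htN => ?_⟩
  obtain ⟨g1, g3, g4, g5, g6, g7⟩ := hN0 N hN
  rw [Real.rpow_one] at g7
  have hNr : (3:ℝ) ≤ N := by exact_mod_cast g3
  have hNpos : (0:ℝ) < N := by linarith
  set L := Real.log N with hL
  have hLpos : 0 < L := by linarith
  have hlp0 : ∀ m, 0 ≤ lp m := by
    intro m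
    unfold Pool.Agent.HLT.lp
    split_ifs
    · exact Real.log_natCast_nonneg m
    · exact le_rfl
  have hlpm : ∀ m h, m ≤ 2 * N → h ∈ Icc 1 N → lp (m + h) ≤ 2 * L := by
    intro m h hm hh
    rw [mem_Icc] at hh
    unfold Pool.Agent.HLT.lp
    split_ifs with hp
    · have h1 : ((m + h : ℕ) : ℝ) ≤ (N:ℝ) ^ 2 := by
        have h2 : m + h ≤ 3 * N := by omega
        have h3 : ((m + h : ℕ) : ℝ) ≤ 3 * N := by exact_mod_cast h2
        nlinarith
      have h2 := Real.log_le_log (by exact_mod_cast hp.pos) h1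
      rwa [Real.log_pow, Nat.cast_ofNat] at h2
    · linarith
  have hsum : ∑ h ∈ Icc 1 N, ∏ j, lp (t j + h) ≤
      (((Icc 1 N).filter (fun h : ℕ => ∀ i, (h + t i).Prime)).card : ℝ) * (2 * L) ^ k := by
    have e1 : ∑ h ∈ Icc 1 N, ∏ j, lp (t j + h) ≤
        ∑ h ∈ Icc 1 N, if (∀ i, (h + t i).Prime) then (2 * L) ^ k else 0 := by
      refine Finset.sum_le_sum fun h hh => ?_
      split_ifs with hp
      · calc ∏ j, lp (t j + h) ≤ ∏ _j : Fin k, (2 * L) :=
              Finset.prod_le_prod (fun j _ => hlp0 _) fun j _ => hlpm _ h (htN j) hh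
          _ = (2 * L) ^ k := by
              rw [Finset.prod_const, Finset.card_univ, Fintype.card_fin]
      · push Not at hp
        obtain ⟨i, hi⟩ := hp
        refine le_of_eq (Finset.prod_eq_zero (mem_univ i) ?_)
        unfold Pool.Agent.HLT.lp
        rw [if_neg (by rwa [Nat.add_comm])]
    refine e1.trans (le_of_eq ?_)
    rw [← Finset.sum_filter, Finset.sum_const, nsmul_eq_mul]
  refine hsum.trans ?_
  have hl2 : 1 ≤ Real.log L ^ (k + 1) := one_le_pow₀ g4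
  by_cases hadm : ∀ p : ℕ, p.Prime → nuI t p < p
  · have h1 : (((Icc 1 N).filter (fun h : ℕ => ∀ i, (h + t i).Prime)).card : ℝ) ≤
        K * SI t * (N / L ^ k) := by
      convert hup (Fin k) t (by simp) htinj hadm N (by omega)
    have h2 := g1 t htinj htN
    calc (((Icc 1 N).filter (fun h : ℕ => ∀ i, (h + t i).Prime)).card : ℝ) * (2 * L) ^ k
        ≤ (K * SI t * (N / L ^ k)) * (2 * L) ^ k :=
          mul_le_mul_of_nonneg_right h1 (by positivity)
      _ = N * (2 ^ k * K * SI t) := by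
          rw [mul_pow]
          field_simp
      _ ≤ N * (2 ^ k * K * (C * Real.log L ^ k)) := by
          apply mul_le_mul_of_nonneg_left _ hNpos.le
          exact mul_le_mul_of_nonneg_left h2 (by positivity)
      _ = N * ((2 ^ k * K * C) * Real.log L ^ k) := by ring
      _ ≤ N * (Real.log L * Real.log L ^ k) := by
          apply mul_le_mul_of_nonneg_left _ hNpos.le
          exact mul_le_mul_of_nonneg_right g5 (by positivity)
      _ = N * Real.log L ^ (k + 1) := by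
          rw [pow_succ']
  · push Not at hadm
    obtain ⟨p, hp, hpn⟩ := hadm
    have h1 : ((Icc 1 N).filter (fun h : ℕ => ∀ i, (h + t i).Prime)).card ≤ k := by
      have h3 := count_inadm t hp hpn N
      rw [Fintype.card_fin] at h3
      convert h3
    have h2 : (((Icc 1 N).filter (fun h : ℕ => ∀ i, (h + t i).Prime)).card : ℝ) ≤ k := by
      exact_mod_cast h1
    calc (((Icc 1 N).filter (fun h : ℕ => ∀ i, (h + t i).Prime)).card : ℝ) * (2 * L) ^ k
        ≤ k * (2 * L) ^ k := mul_le_mul_of_nonneg_right h2 (by positivity)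
      _ = (k * 2 ^ k) * L ^ k := by
          rw [mul_pow]
          ring
      _ ≤ N * 1 := by rw [mul_one]; exact g7
      _ ≤ N * Real.log L ^ (k + 1) := mul_le_mul_of_nonneg_left hl2 hNpos.le

end SelKAux

/-- Module SelK: crude bound without classes. -/
theorem selK (k : ℕ) : ∃ C N0 : ℕ, ∀ N : ℕ, N0 ≤ N → ∀ n ∈ TK N k,
    ∑ h ∈ Icc 1 N, ∏ j, lp (n j + h) ≤ N * Real.log (Real.log N) ^ C := by
  rcases Nat.eq_zero_or_pos k with hk | hk
  · subst hk
    refine ⟨0, 0, fun N _ n _ => ?_⟩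
    simp
  · obtain ⟨C, N0, h⟩ := SelKAux.main k hk
    refine ⟨C, N0, fun N hN n hn => ?_⟩
    unfold TK at hn
    rw [mem_filter] at hn
    refine h N hN n hn.2 fun i => ?_
    have h1 := Fintype.mem_piFinset.1 hn.1 i
    rw [mem_Ioc] at h1
    exact h1.2

end Pool.Agent.Lib.LEN
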