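import Pool.Agent.Lib.LEN.FacM
import Pool.Agent.Lib.LEN.LevS
import Pool.Agent.Lib.LEN.ClsK
import Pool.Agent.Lib.LEN.SelK
import Pool.Agent.Lib.LEN.Cls
import Pool.Agent.Lib.LEN.Cls0
import Pool.Agent.Lib.HL.Desc
import Pool.Agent.Lib.MP.PDat

/-!
# LEN.CMom: the factorial moments of the count in all but few admissible classes
-/

set_option autoImplicit false

open Finset Filter

namespace Pool.Agent.Lib.LEN

open Pool.Agent.HLB Pool.Agent.HLT Pool.Agent.HLR Pool.Agent.Lib.GMV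

namespace CMomAux

open Pool.Agent.HL

/-- the integers counted by `cnt` -/
def St (N : ℕ) {r : ℕ} (h : Fin r → ℕ) : Finset ℕ :=
  (Ioc N (2 * N)).filter fun n => ∀ i, (n + h i).Prime

lemma FK_eq (N k : ℕ) {r : ℕ} (h : Fin r → ℕ) : FK lp N k h =
    ∑ n ∈ injTuples k (St N h), ∏ i, ∏ j, Real.log ((n j + h i : ℕ) : ℝ) := by
  classical
  unfold FK
  symm
  rw [← Finset.sum_subset (s₁ := injTuples k (St N h)) (s₂ := TK N k)]
  · refine Finset.sum_congr rfl fun n hn => ?_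
    rw [mem_injTuples] at hn
    refine Finset.prod_congr rfl fun i _ => Finset.prod_congr rfl fun j _ => ?_
    have h1 := hn.1 j
    unfold St at h1
    rw [Finset.mem_filter] at h1
    unfold HLT.lp
    rw [if_pos (h1.2 i)]
  · intro n hn
    rw [mem_injTuples] at hn
    unfold TK Tup
    rw [Finset.mem_filter, Fintype.mem_piFinset]
    refine ⟨fun j => ?_, hn.2⟩
    have h1 := hn.1 j
    unfold St at h1
    exact (Finset.mem_filter.1 h1).1
  · intro n hn hn'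
    unfold TK Tup at hn
    rw [Finset.mem_filter, Fintype.mem_piFinset] at hn
    rw [mem_injTuples] at hn'
    have h1 : ¬ ∀ j, n j ∈ St N h := fun h0 => hn' ⟨h0, hn.2⟩
    push Not at h1
    obtain ⟨j, hj⟩ := h1
    have h2 : ¬ ∀ i, (n j + h i).Prime := by
      intro h0
      exact hj (Finset.mem_filter.2 ⟨hn.1 j, h0⟩)
    push Not at h2
    obtain ⟨i, hi⟩ := h2
    refine Finset.prod_eq_zero (Finset.mem_univ i) (Finset.prod_eq_zero (Finset.mem_univ j) ?_)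
    unfold HLT.lp
    rw [if_neg hi]

lemma card_St (N k : ℕ) {r : ℕ} (h : Fin r → ℕ) :
    ((injTuples k (St N h)).card : ℝ) = ((cnt N h).descFactorial k : ℝ) := by
  rw [card_injTuples]
  rfl

lemma mem_Hc {N w r : ℕ} {a h : Fin r → ℕ} (hh : h ∈ Hc N w a) (i : Fin r) :
    1 ≤ h i ∧ h i ≤ N := by
  unfold Hc at hh
  rw [Fintype.mem_piFinset] at hh
  have h1 := hh i
  unfold cls at h1
  rw [Finset.mem_filter, Finset.mem_Icc] at h1
  exact h1.1

lemma FK_le {N k r : ℕ} {h : Fin r → ℕ} (hh : ∀ i, 1 ≤ h i ∧ h i ≤ N) :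
    FK lp N k h ≤ ((cnt N h).descFactorial k : ℝ) * ((Real.log (3 * N)) ^ r) ^ k := by
  rw [FK_eq, ← card_St, ← nsmul_eq_mul]
  refine Finset.sum_le_card_nsmul _ _ _ fun n hn => ?_
  rw [mem_injTuples] at hn
  have h1 : ∀ i j, 0 ≤ Real.log ((n j + h i : ℕ) : ℝ) ∧
      Real.log ((n j + h i : ℕ) : ℝ) ≤ Real.log (3 * N) := by
    intro i j
    have h2 := hn.1 j
    unfold St at h2
    rw [Finset.mem_filter, Finset.mem_Ioc] at h2
    have h3 := hh i
    have h4 : 1 ≤ n j + h i := by omega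
    have h5 : n j + h i ≤ 3 * N := by omega
    refine ⟨Real.log_natCast_nonneg _, Real.log_le_log (by exact_mod_cast h4) ?_⟩
    exact_mod_cast h5
  calc ∏ i, ∏ j, Real.log ((n j + h i : ℕ) : ℝ) ≤ ∏ i : Fin r, ∏ j : Fin k, Real.log (3 * N) :=
        Finset.prod_le_prod (fun i _ => Finset.prod_nonneg fun j _ => (h1 i j).1)
          fun i _ => Finset.prod_le_prod (fun j _ => (h1 i j).1) fun j _ => (h1 i j).2
    _ = ((Real.log (3 * N)) ^ r) ^ k := by
        simp only [Finset.prod_const, Finset.card_univ, Fintype.card_fin]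
        rw [← pow_mul, ← pow_mul, Nat.mul_comm k r]

lemma FK_ge {N k r : ℕ} (hN : 1 ≤ N) {h : Fin r → ℕ} :
    ((cnt N h).descFactorial k : ℝ) * ((Real.log N) ^ r) ^ k ≤ FK lp N k h := by
  rw [FK_eq, ← card_St, ← nsmul_eq_mul]
  refine Finset.card_nsmul_le_sum _ _ _ fun n hn => ?_
  rw [mem_injTuples] at hn
  have h1 : ∀ i j, Real.log N ≤ Real.log ((n j + h i : ℕ) : ℝ) := by
    intro i j
    have h2 := hn.1 j
    unfold St at h2
    rw [Finset.mem_filter, Finset.mem_Ioc] at h2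
    have h4 : N ≤ n j + h i := by omega
    refine Real.log_le_log (by exact_mod_cast hN) ?_
    exact_mod_cast h4
  calc ((Real.log N) ^ r) ^ k = ∏ i : Fin r, ∏ j : Fin k, Real.log N := by
        simp only [Finset.prod_const, Finset.card_univ, Fintype.card_fin]
        rw [← pow_mul, ← pow_mul, Nat.mul_comm k r]
    _ ≤ ∏ i, ∏ j, Real.log ((n j + h i : ℕ) : ℝ) :=
        Finset.prod_le_prod (fun i _ => Finset.prod_nonneg fun j _ => Real.log_natCast_nonneg _)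
          fun i _ => Finset.prod_le_prod (fun j _ => Real.log_natCast_nonneg _) fun j _ => h1 i j

lemma DZ_le_one (w : ℕ) : DZ w ≤ 1 := by
  unfold DZ
  refine Finset.prod_le_one (fun p hp => ?_) (fun p hp => ?_)
  · exact (one_sub_inv_pos (Nat.mem_primesLE.1 hp).2).le
  · have h1 : (0 : ℝ) ≤ 1 / (p : ℝ) := by positivity
    linarith

lemma MM_ge {N w r : ℕ} {a : Fin r → ℕ} (ha : 1 ≤ nA w a) : (N : ℝ) / PP w ≤ MM N w a := by
  unfold MM
  have hP : (0 : ℝ) < PP w := by exact_mod_cast PP_pos w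
  have h1 : (1 : ℝ) ≤ (DZ w)⁻¹ := (one_le_inv₀ (DZ_pos w)).2 (DZ_le_one w)
  have h2 : (1 : ℝ) ≤ (DZ w)⁻¹ ^ r := one_le_pow₀ h1
  have h3 : (1 : ℝ) ≤ nA w a := by exact_mod_cast ha
  have h4 : (N : ℝ) / PP w ≤ (N : ℝ) * nA w a / PP w := by
    rw [div_le_div_iff_of_pos_right hP]
    exact le_mul_of_one_le_right (Nat.cast_nonneg _) h3
  calc (N : ℝ) / PP w ≤ (N : ℝ) * nA w a / PP w * 1 := by rw [mul_one]; exact h4
    _ ≤ _ := by gcongr

lemma Hc_ge {N w r : ℕ} (a : Fin r → ℕ) (hN : 1 ≤ N) (h : 2 * r * PP w ≤ N) :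
    (1 / 2 : ℝ) * ((N : ℝ) / PP w) ^ r ≤ (Hc N w a).card := by
  have hP : (0 : ℝ) < PP w := by exact_mod_cast PP_pos w
  have hN' : (0 : ℝ) < N := by exact_mod_cast hN
  have h' : 2 * (r : ℝ) * PP w ≤ N := by exact_mod_cast h
  rcases Nat.eq_zero_or_pos r with hr | hr
  · subst hr
    have h1 : (Hc N w a).card = 1 := by
      unfold Hc
      rw [Fintype.card_piFinset]
      simp
    rw [h1]
    norm_num
  have hr' : (1 : ℝ) ≤ r := by exact_mod_cast hr
  have hPN : (PP w : ℝ) / N ≤ 1 := by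
    rw [div_le_one hN']
    nlinarith
  have h0 : (0 : ℝ) ≤ (N : ℝ) / PP w - 1 := by
    rw [sub_nonneg, one_le_div hP]
    exact (div_le_one hN').1 hPN
  have h1 : ((N : ℝ) / PP w - 1) ^ r ≤ (Hc N w a).card := by
    unfold Hc
    rw [Fintype.card_piFinset, Nat.cast_prod]
    calc ((N : ℝ) / PP w - 1) ^ r = ∏ _i : Fin r, ((N : ℝ) / PP w - 1) := by
          rw [Finset.prod_const, Finset.card_univ, Fintype.card_fin]
      _ ≤ _ := Finset.prod_le_prod (fun _ _ => h0) fun i _ => Cls0.card_cls_ge N w (a i)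
  refine le_trans ?_ h1
  have h2 : (N : ℝ) / PP w - 1 = ((N : ℝ) / PP w) * (1 + -((PP w : ℝ) / N)) := by
    field_simp
    ring
  rw [h2, mul_pow, mul_comm]
  refine mul_le_mul_of_nonneg_left ?_ (by positivity)
  have h3 := one_add_mul_le_pow (a := -((PP w : ℝ) / N)) (by linarith) r
  refine le_trans ?_ h3
  have h4 : (r : ℝ) * ((PP w : ℝ) / N) ≤ 1 / 2 := by
    rw [← mul_div_assoc, div_le_iff₀ hN']
    linarith
  linarith

lemma loglog_tendsto : Tendsto (fun N : ℕ => Real.log (Real.log N)) atTop atTop :=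
  Real.tendsto_log_atTop.comp (Real.tendsto_log_atTop.comp tendsto_natCast_atTop_atTop)

/-- powers of `log log N` with exponent `≤ 2 y(N)` are small -/
lemma ev_pow (δ c : ℝ) (C : ℕ) (hδ : 0 < δ) (hc : 0 < c) : ∀ᶠ N : ℕ in atTop, ∀ r : ℕ,
    (r : ℝ) ≤ 2 * yy N → ((Real.log (Real.log N) / c) ^ C) ^ r ≤ (N : ℝ) ^ δ := by
  have h1 : ∀ᶠ x : ℝ in atTop, 2 * C * Real.log (x / c) ≤ δ * x := by
    have h2 : (fun x : ℝ => Real.log x) =o[atTop] fun x : ℝ => x := Real.isLittleO_log_id_atTop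
    have h3 : Tendsto (fun x : ℝ => x / c) atTop atTop := tendsto_id.atTop_div_const hc
    have h4 := (h2.comp_tendsto h3).bound (c := δ * c / (2 * C + 1)) (by positivity)
    filter_upwards [h4, h3.eventually_ge_atTop 1, eventually_ge_atTop 0] with x hx hx1 hx0
    simp only [Function.comp_apply] at hx
    have h5 : 0 ≤ Real.log (x / c) := Real.log_nonneg hx1
    rw [Real.norm_of_nonneg h5, Real.norm_of_nonneg (by linarith)] at hx
    calc 2 * C * Real.log (x / c) ≤ (2 * C + 1) * Real.log (x / c) := by nlinarith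
      _ ≤ (2 * C + 1) * (δ * c / (2 * C + 1) * (x / c)) := by gcongr
      _ = δ * x := by field_simp
  filter_upwards [loglog_tendsto.eventually h1, loglog_tendsto.eventually_ge_atTop (max 1 c),
    eventually_ge_atTop 3] with N hN hN1 hN3 r hr
  set l := Real.log (Real.log N) with hl
  have hl1 : 1 ≤ l := (le_max_left _ _).trans hN1
  have hlc : c ≤ l := (le_max_right _ _).trans hN1
  have hN0 : (0 : ℝ) < N := by positivity
  have hlc1 : 1 ≤ l / c := (one_le_div hc).2 hlc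
  have hlog : 0 ≤ Real.log (l / c) := Real.log_nonneg hlc1
  have hL : 0 ≤ Real.log N := Real.log_natCast_nonneg _
  have hpos : 0 < l / c := by linarith
  rw [← pow_mul, ← Real.rpow_natCast, Real.rpow_def_of_pos hpos, Real.rpow_def_of_pos hN0]
  refine Real.exp_le_exp.2 ?_
  have h6 : (r : ℝ) * l ≤ 2 * Real.log N := by
    have h7 : yy N = Real.log N / l := rfl
    rw [h7] at hr
    calc (r : ℝ) * l ≤ (2 * (Real.log N / l)) * l := by gcongr
      _ = 2 * Real.log N := by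
        field_simp
  push_cast
  have h8 : (2 * C * Real.log (l / c)) * r ≤ (δ * l) * r := by gcongr
  have h9 : δ * (l * r) ≤ δ * (2 * Real.log N) := by
    rw [mul_comm l (r : ℝ)]
    gcongr
  nlinarith

lemma lp_nonneg (n : ℕ) : 0 ≤ HLT.lp n := by
  unfold HLT.lp
  split_ifs
  · exact Real.log_natCast_nonneg _
  · exact le_rfl

lemma CK_nonneg (N w c : ℕ) {k : ℕ} (n : Fin k → ℕ) : 0 ≤ CK HLT.lp N w c n :=
  Finset.sum_nonneg fun _ _ => Finset.prod_nonneg fun _ _ => lp_nonneg _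

/-- Markov over the classes -/
lemma markov {N w r k C : ℕ} (hN : 2 ≤ N) (d : ℝ)
    (hC : ∀ n ∈ TK N k, ∑ h ∈ Icc 1 N, ∏ j, HLT.lp (n j + h) ≤
      N * Real.log (Real.log N) ^ C)
    (hl : 0 ≤ Real.log (Real.log N))
    (hlog : (Real.log (Real.log N) ^ C) ^ r ≤ (N : ℝ) ^ (d / 4)) (Bd : Finset (Fin k → ℕ))
    (hBd : (Bd.card : ℝ) ≤ (N : ℝ) ^ ((k : ℝ) - d)) :
    (((Fintype.piFinset (fun _ : Fin r => range (PP w))).filter
      (fun a => (N : ℝ) ^ ((k : ℝ) - d / 4) * ((N : ℝ) / PP w) ^ r <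
        ∑ n ∈ (TK N k).filter (fun n => n ∈ Bd), ∏ i, CK HLT.lp N w (a i) n)).card : ℝ) ≤
      (N : ℝ) ^ (-(d / 2)) * (PP w : ℝ) ^ r := by
  have hP : (0 : ℝ) < PP w := by exact_mod_cast PP_pos w
  have hN0 : (0 : ℝ) < N := by positivity
  set R : (Fin r → ℕ) → ℝ := fun a =>
    ∑ n ∈ (TK N k).filter (fun n => n ∈ Bd), ∏ i, CK HLT.lp N w (a i) n with hR
  have hR0 : ∀ a, 0 ≤ R a := fun a =>
    Finset.sum_nonneg fun n _ => Finset.prod_nonneg fun i _ => CK_nonneg N w (a i) n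
  set θ : ℝ := (N : ℝ) ^ ((k : ℝ) - d / 4) * ((N : ℝ) / PP w) ^ r with hθ
  have hθ0 : 0 < θ := by positivity
  set A := Fintype.piFinset (fun _ : Fin r => range (PP w)) with hA
  have h1 : ∑ a ∈ A, R a ≤ (N : ℝ) ^ ((k : ℝ) - d) * ((N : ℝ) * Real.log (Real.log N) ^ C) ^ r := by
    rw [hA, hR, sum_classesK]
    calc _ ≤ ∑ n ∈ (TK N k).filter (fun n => n ∈ Bd), ((N : ℝ) * Real.log (Real.log N) ^ C) ^ r := by
          refine Finset.sum_le_sum fun n hn => ?_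
          have h2 := hC n (Finset.mem_filter.1 hn).1
          exact pow_le_pow_left₀ (Finset.sum_nonneg fun _ _ =>
            Finset.prod_nonneg fun _ _ => lp_nonneg _) h2 r
      _ = (((TK N k).filter (fun n => n ∈ Bd)).card : ℝ) *
          ((N : ℝ) * Real.log (Real.log N) ^ C) ^ r := by rw [Finset.sum_const, nsmul_eq_mul]
      _ ≤ _ := by
          refine mul_le_mul_of_nonneg_right ?_ (by positivity)
          refine le_trans ?_ hBd
          have h3 : (TK N k).filter (fun n => n ∈ Bd) ⊆ Bd := fun n hn => (Finset.mem_filter.1 hn).2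
          exact_mod_cast Finset.card_le_card h3
  have h2 : ((A.filter (fun a => θ < R a)).card : ℝ) * θ ≤ ∑ a ∈ A, R a := by
    calc ((A.filter (fun a => θ < R a)).card : ℝ) * θ ≤ ∑ a ∈ A.filter (fun a => θ < R a), R a := by
          rw [← nsmul_eq_mul]
          exact Finset.card_nsmul_le_sum _ _ _ fun a ha => (Finset.mem_filter.1 ha).2.le
      _ ≤ ∑ a ∈ A, R a := Finset.sum_le_sum_of_subset_of_nonneg (Finset.filter_subset _ _)
          fun a _ _ => hR0 a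
  have h3 : (N : ℝ) ^ ((k : ℝ) - d) * ((N : ℝ) * Real.log (Real.log N) ^ C) ^ r ≤
      (N : ℝ) ^ (-(d / 2)) * (PP w : ℝ) ^ r * θ := by
    have h4 : (N : ℝ) ^ ((k : ℝ) - d) * (N : ℝ) ^ (d / 4) =
        (N : ℝ) ^ (-(d / 2)) * (N : ℝ) ^ ((k : ℝ) - d / 4) := by
      rw [← Real.rpow_add hN0, ← Real.rpow_add hN0]
      congr 1
      ring
    have h5 : (PP w : ℝ) ^ r * ((N : ℝ) / PP w) ^ r = (N : ℝ) ^ r := by
      rw [← mul_pow, mul_div_cancel₀ _ hP.ne']
    calc _ = (N : ℝ) ^ ((k : ℝ) - d) * (N : ℝ) ^ r * (Real.log (Real.log N) ^ C) ^ r := by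
          rw [mul_pow, mul_assoc]
      _ ≤ (N : ℝ) ^ ((k : ℝ) - d) * (N : ℝ) ^ r * (N : ℝ) ^ (d / 4) := by gcongr
      _ = ((N : ℝ) ^ ((k : ℝ) - d) * (N : ℝ) ^ (d / 4)) * (N : ℝ) ^ r := by ring
      _ = (N : ℝ) ^ (-(d / 2)) * (N : ℝ) ^ ((k : ℝ) - d / 4) *
          ((PP w : ℝ) ^ r * ((N : ℝ) / PP w) ^ r) := by rw [h4, h5]
      _ = _ := by rw [hθ]; ring
  exact le_of_mul_le_mul_right ((h2.trans h1).trans h3) hθ0

/-- from the weighted moment to the count -/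
lemma count_of_weighted {N w r k : ℕ} {a : Fin r → ℕ} {η : ℝ} (hη : 0 ≤ η) (hη1 : 2 * η ≤ 1)
    (hN : 3 ≤ N) (hM : 0 ≤ MM N w a)
    (hS : |∑ h ∈ Hc N w a, FK HLT.lp N k h - MM N w a ^ k * (Hc N w a).card| ≤
      2 * η * (MM N w a ^ k * (Hc N w a).card))
    (hlog : 1 - η ≤ ((Real.log N) ^ r) ^ k / ((Real.log (3 * N)) ^ r) ^ k) :
    |∑ h ∈ Hc N w a, ((cnt N h).descFactorial k : ℝ) - lam N w a ^ k * (Hc N w a).card| ≤
      4 * η * (lam N w a ^ k * (Hc N w a).card) := by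
  have hN1 : (1 : ℝ) < N := by exact_mod_cast (by omega : 1 < N)
  have hL : 0 < Real.log N := Real.log_pos hN1
  have hL3 : 0 < Real.log (3 * N) := Real.log_pos (by linarith)
  set D : ℝ := ∑ h ∈ Hc N w a, ((cnt N h).descFactorial k : ℝ) with hD
  set S : ℝ := ∑ h ∈ Hc N w a, FK HLT.lp N k h with hSdef
  set L1 : ℝ := ((Real.log N) ^ r) ^ k with hL1
  set L2 : ℝ := ((Real.log (3 * N)) ^ r) ^ k with hL2
  have hL1p : 0 < L1 := by positivity
  have hL2p : 0 < L2 := by positivity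
  have hup : D * L1 ≤ S := by
    rw [hD, hSdef, Finset.sum_mul]
    exact Finset.sum_le_sum fun h _ => FK_ge (by omega)
  have hlo : S ≤ D * L2 := by
    rw [hD, hSdef, Finset.sum_mul]
    exact Finset.sum_le_sum fun h hh => FK_le fun i => mem_Hc hh i
  have hlam : lam N w a ^ k * (Hc N w a).card = MM N w a ^ k * (Hc N w a).card / L1 := by
    unfold lam
    rw [div_pow, hL1]
    ring
  rw [hlam]
  set X : ℝ := MM N w a ^ k * (Hc N w a).card with hX
  have hX0 : 0 ≤ X := by positivity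
  rw [abs_le] at hS
  have h1 : D ≤ (1 + 2 * η) * (X / L1) := by
    rw [← mul_div_assoc, le_div_iff₀ hL1p]
    linarith [hS.2]
  have h2 : (1 - 2 * η) * (1 - η) * (X / L1) ≤ D := by
    have h3 : (1 - 2 * η) * X ≤ D * L2 := by linarith [hS.1]
    have h4 : (1 - 2 * η) * (1 - η) ≤ (1 - 2 * η) * (L1 / L2) :=
      mul_le_mul_of_nonneg_left hlog (by linarith)
    have h5 : 0 ≤ X / L1 := div_nonneg hX0 hL1p.le
    calc (1 - 2 * η) * (1 - η) * (X / L1) ≤ (1 - 2 * η) * (L1 / L2) * (X / L1) := by gcongr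
      _ = ((1 - 2 * η) * X) / L2 := by field_simp
      _ ≤ D := by rw [div_le_iff₀ hL2p]; exact h3
  have h6 : 0 ≤ X / L1 := div_nonneg hX0 hL1p.le
  have h7 : 0 ≤ η * (X / L1) := mul_nonneg hη h6
  have h8 : 0 ≤ η ^ 2 * (X / L1) := mul_nonneg (sq_nonneg _) h6
  rw [abs_le]
  constructor
  · nlinarith
  · nlinarith

lemma log_ratio {N r k : ℕ} {η : ℝ} (hN : 3 ≤ N) (hl : 0 < Real.log (Real.log N))
    (hr : (r : ℝ) ≤ 2 * yy N) (hη : 2 * k * Real.log 3 ≤ η * Real.log (Real.log N)) :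
    1 - η ≤ ((Real.log N) ^ r) ^ k / ((Real.log (3 * N)) ^ r) ^ k := by
  have hN1 : (1 : ℝ) < N := by exact_mod_cast (by omega : 1 < N)
  have hL : 0 < Real.log N := Real.log_pos hN1
  have hlog3 : 0 < Real.log 3 := Real.log_pos (by norm_num)
  have e : Real.log (3 * N) = Real.log 3 + Real.log N :=
    Real.log_mul (by norm_num) (by positivity)
  have hL3 : 0 < Real.log (3 * N) := by rw [e]; linarith
  rw [← div_pow, ← div_pow, ← pow_mul]
  have h1 : Real.log N / Real.log (3 * N) = 1 + -(Real.log 3 / Real.log (3 * N)) := by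
    rw [e]
    field_simp
    ring
  have h2 : Real.log 3 / Real.log (3 * N) ≤ 1 := by
    rw [div_le_one hL3, e]
    linarith
  have h3 := one_add_mul_le_pow (a := -(Real.log 3 / Real.log (3 * N))) (by linarith) (r * k)
  rw [h1]
  refine le_trans ?_ h3
  push_cast
  have h4 : Real.log 3 / Real.log (3 * N) ≤ Real.log 3 / Real.log N := by
    refine div_le_div_of_nonneg_left hlog3.le hL ?_
    rw [e]
    linarith
  have h5 : (r : ℝ) * Real.log (Real.log N) ≤ 2 * Real.log N := by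
    have h7 : yy N = Real.log N / Real.log (Real.log N) := rfl
    rw [h7] at hr
    calc (r : ℝ) * Real.log (Real.log N) ≤
        (2 * (Real.log N / Real.log (Real.log N))) * Real.log (Real.log N) := by gcongr
      _ = 2 * Real.log N := by field_simp
  have h6 : (r : ℝ) * k * (Real.log 3 / Real.log (3 * N)) ≤ η := by
    calc (r : ℝ) * k * (Real.log 3 / Real.log (3 * N)) ≤ (r : ℝ) * k * (Real.log 3 / Real.log N) := by
          gcongr
      _ ≤ η := by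
          rw [← mul_div_assoc, div_le_iff₀ hL]
          have h8 : (r : ℝ) * (2 * k * Real.log 3) ≤ r * (η * Real.log (Real.log N)) := by gcongr
          have hη0 : 0 ≤ η := by
            by_contra hneg
            push Not at hneg
            have h9 : η * Real.log (Real.log N) < 0 := mul_neg_of_neg_of_pos hneg hl
            have h10 : 0 ≤ 2 * (k : ℝ) * Real.log 3 := by positivity
            linarith
          have h11 : η * (r * Real.log (Real.log N)) ≤ η * (2 * Real.log N) := by gcongr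
          nlinarith
  linarith

/-- the statement for one `k` -/
def One (K η d : ℝ) (k w0 : ℕ) (u : ℝ) (N0 : ℕ) : Prop :=
  ∀ N w : ℕ, N0 ≤ N → w0 ≤ w → 4 ^ (100 * w) ≤ N → (w : ℝ) ≤ u * Real.log N →
  ∀ r : ℕ, 1 ≤ r → (r : ℝ) ≤ K * w → (r : ℝ) ≤ 2 * yy N →
  ∀ (e1 e2 B' : ℝ) (Bd1 Bd2 Bd3 : Finset (Fin k → ℕ)), 0 ≤ e1 → 0 ≤ e2 → 1 ≤ B' →
    (Bd3.card : ℝ) ≤ (N : ℝ) ^ ((k : ℝ) - d) →
    r * e1 ≤ u → (Bd1.card : ℝ) * 4 ^ (k * w) ≤ u * (N : ℝ) ^ k →
    (1 + e2) ^ r * Real.sqrt Bd1.card * 4 ^ (k * w) ≤ u * Real.sqrt ((N : ℝ) ^ k) →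
    B' ^ r * Real.sqrt Bd2.card * 4 ^ (k * w) ≤ u * Real.sqrt ((N : ℝ) ^ k) →
    (∀ c, ∀ n ∈ TK N k, n ∉ Bd1 → (∀ j, Nat.Coprime (n j + c) (PP w)) →
      Tm N w k * (1 - e1) ≤ CK HLT.lp N w c n ∧
        CK HLT.lp N w c n ≤ Tm N w k * (sk w n * (1 + e1))) →
    (∀ c, ∀ n ∈ TK N k, n ∉ Bd2 → (∀ j, Nat.Coprime (n j + c) (PP w)) →
      CK HLT.lp N w c n ≤ Tm N w k * (sk w n * (1 + e2))) →
    (∀ c, ∀ n ∈ TK N k, n ∉ Bd3 → (∀ j, Nat.Coprime (n j + c) (PP w)) →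
      CK HLT.lp N w c n ≤ Tm N w k * (sk w n * B')) →
    ∃ Bc : Finset (Fin r → ℕ), (Bc.card : ℝ) ≤ (N : ℝ) ^ (-(d / 2)) * (PP w : ℝ) ^ r ∧
      ∀ a ∈ Fintype.piFinset (fun _ : Fin r => range (PP w)), 1 ≤ nA w a → a ∉ Bc →
      |∑ h ∈ Hc N w a, ((cnt N h).descFactorial k : ℝ) - lam N w a ^ k * (Hc N w a).card| ≤
        η * (lam N w a ^ k * (Hc N w a).card)

lemma One.mono {K η d : ℝ} {k w0 w0' : ℕ} {u u' : ℝ} {N0 N0' : ℕ} (h : One K η d k w0 u N0)
    (h1 : w0 ≤ w0') (h2 : u' ≤ u) (h3 : N0 ≤ N0') : One K η d k w0' u' N0' := by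
  intro N w hN hw hw4 hwu r hr1 hrK hry e1 e2 B' Bd1 Bd2 Bd3 he1 he2 hB' hBd3 hu1 hu2 hu3 hu4
  have hL : 0 ≤ Real.log N := Real.log_natCast_nonneg _
  refine h N w (h3.trans hN) (h1.trans hw) hw4 (hwu.trans (by gcongr)) r hr1 hrK hry e1 e2 B'
    Bd1 Bd2 Bd3 he1 he2 hB' hBd3 (hu1.trans h2) (hu2.trans (by gcongr)) (hu3.trans (by gcongr))
    (hu4.trans (by gcongr))

lemma exists_one (K η d : ℝ) (hK : 0 < K) (hη : 0 < η) (hη1 : 2 * η ≤ 1) (hd : 0 < d) (k : ℕ) :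
    ∃ w0 : ℕ, ∃ u : ℝ, ∃ N0 : ℕ, 0 < u ∧ One K (4 * η) d k w0 u N0 := by
  obtain ⟨w0, u0, hu0, hfac⟩ := facM k K η hK hη
  obtain ⟨C, N1, hsel⟩ := selK k
  have hlog4 : 0 < Real.log 4 := Real.log_pos (by norm_num)
  have hu1 : 0 < d / (8 * (k + 1) * Real.log 4) := by positivity
  have hE2 : ∀ᶠ N : ℕ in atTop, 2 / η ≤ (N : ℝ) ^ (d / 8) :=
    ((tendsto_rpow_atTop (by positivity : 0 < d / 8)).comp
      tendsto_natCast_atTop_atTop).eventually_ge_atTop _
  obtain ⟨N0, hN0⟩ := eventually_atTop.1 ((ev_pow (d / 4) 1 C (by positivity) one_pos).and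
    (hE2.and ((loglog_tendsto.eventually_ge_atTop (max 1 (2 * k * Real.log 3 / η))).and
      ((eventually_ge_atTop N1).and (eventually_ge_atTop 3)))))
  refine ⟨max w0 ⌈2 * K⌉₊, min u0 (d / (8 * (k + 1) * Real.log 4)), N0, lt_min hu0 hu1, ?_⟩
  intro N w hN hw hw4 hwu r hr1 hrK hry e1 e2 B' Bd1 Bd2 Bd3 he1 he2 hB' hBd3 hs1 hs2 hs3 hs4
    hA1 hA2 hA3
  obtain ⟨hev, hη2, hll, hNN1, hN3⟩ := hN0 N hN
  have hll1 : 1 ≤ Real.log (Real.log N) := (le_max_left _ _).trans hll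
  have hll2 : 2 * k * Real.log 3 / η ≤ Real.log (Real.log N) := (le_max_right _ _).trans hll
  have hN1 : (1 : ℝ) < N := by exact_mod_cast (by omega : 1 < N)
  have hNpos : (0 : ℝ) < N := by linarith
  have hLpos : 0 < Real.log N := Real.log_pos hN1
  have hP : (0 : ℝ) < PP w := by exact_mod_cast PP_pos w
  have hwN : w < N := by
    calc w < 4 ^ w := Nat.lt_pow_self (by norm_num)
      _ ≤ 4 ^ (100 * w) := Nat.pow_le_pow_right (by norm_num) (by omega)
      _ ≤ N := hw4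
  have h2K : 2 * K ≤ w := by
    have h1 : ⌈2 * K⌉₊ ≤ w := (le_max_right _ _).trans hw
    exact (Nat.le_ceil _).trans (by exact_mod_cast h1)
  have hrP : 2 * r * PP w ≤ N := by
    have h1 : 2 * r ≤ w * w := by
      have h2 : (2 * r : ℝ) ≤ (w : ℝ) * w := by
        have h3 : (0 : ℝ) ≤ w := Nat.cast_nonneg _
        nlinarith
      exact_mod_cast h2
    have h4 : w ≤ 4 ^ w := (Nat.lt_pow_self (by norm_num)).le
    calc 2 * r * PP w ≤ (w * w) * 4 ^ w := Nat.mul_le_mul h1 (PP_le w)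
      _ ≤ (4 ^ w * 4 ^ w) * 4 ^ w := by gcongr
      _ = 4 ^ (3 * w) := by ring
      _ ≤ 4 ^ (100 * w) := Nat.pow_le_pow_right (by norm_num) (by omega)
      _ ≤ N := hw4
  have hev' : (Real.log (Real.log N) ^ C) ^ r ≤ (N : ℝ) ^ (d / 4) := by
    have h1 := hev r hry
    rwa [div_one] at h1
  refine ⟨_, markov (w := w) (by omega) d (hsel N hNN1) (by linarith) hev' Bd3 hBd3, ?_⟩
  intro a haA ha haB
  have hR : ∑ n ∈ (TK N k).filter (fun n => n ∈ Bd3), ∏ i, CK HLT.lp N w (a i) n ≤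
      (N : ℝ) ^ ((k : ℝ) - d / 4) * ((N : ℝ) / PP w) ^ r := by
    by_contra hcon
    push Not at hcon
    exact haB (Finset.mem_filter.2 ⟨haA, hcon⟩)
  have hcop : ∀ m : ℕ, N < m → HLT.lp m ≠ 0 → Nat.Coprime m (PP w) := by
    intro m hm hlp
    unfold HLT.lp at hlp
    have hmp : m.Prime := by
      by_contra h0
      exact hlp (if_neg h0)
    exact Cls0.prime_coprime_PP hmp (by omega)
  have hmain := hfac w ((le_max_left _ _).trans hw) N r hr1 hrK hw4 HLT.lp lp_nonneg hcop e1 e2 B'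
    Bd1 Bd2 Bd3 he1 he2 hB' (hs1.trans (min_le_left _ _))
    (hs2.trans (mul_le_mul_of_nonneg_right (min_le_left _ _) (by positivity)))
    (hs3.trans (mul_le_mul_of_nonneg_right (min_le_left _ _) (Real.sqrt_nonneg _)))
    (hs4.trans (mul_le_mul_of_nonneg_right (min_le_left _ _) (Real.sqrt_nonneg _)))
    hA1 hA2 hA3 a ha
  -- the exceptional part is small
  have hMM := MM_ge (N := N) ha
  have hMM0 : 0 ≤ MM N w a := le_trans (by positivity) hMM
  have hHc := Hc_ge a (by omega) hrP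
  have hPk : (PP w : ℝ) ^ k ≤ (N : ℝ) ^ (d / 8) := by
    have h1 : (PP w : ℝ) ≤ (4 : ℝ) ^ (w : ℝ) := by
      rw [Real.rpow_natCast]
      exact_mod_cast PP_le w
    calc (PP w : ℝ) ^ k ≤ ((4 : ℝ) ^ (w : ℝ)) ^ k := by gcongr
      _ = Real.exp (Real.log 4 * (w * k)) := by
          rw [← Real.rpow_natCast, ← Real.rpow_mul (by norm_num),
            Real.rpow_def_of_pos (by norm_num)]
      _ ≤ Real.exp (Real.log N * (d / 8)) := by
          refine Real.exp_le_exp.2 ?_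
          have h2 : (w : ℝ) ≤ d / (8 * (k + 1) * Real.log 4) * Real.log N :=
            hwu.trans (mul_le_mul_of_nonneg_right (min_le_right _ _) hLpos.le)
          have h3 : (k : ℝ) ≤ k + 1 := by linarith
          have h4 : (0 : ℝ) ≤ w := Nat.cast_nonneg _
          calc Real.log 4 * (w * k) ≤ Real.log 4 * (w * (k + 1)) := by gcongr
            _ ≤ Real.log 4 * ((d / (8 * (k + 1) * Real.log 4) * Real.log N) * (k + 1)) := by gcongr
            _ = Real.log N * (d / 8) := by field_simp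
      _ = (N : ℝ) ^ (d / 8) := (Real.rpow_def_of_pos hNpos _).symm
  have hθ : (N : ℝ) ^ ((k : ℝ) - d / 4) * ((N : ℝ) / PP w) ^ r ≤
      η * (MM N w a ^ k * (Hc N w a).card) := by
    have h1 : (N : ℝ) ^ ((k : ℝ) - d / 4) ≤ η * ((1 / 2) * ((N : ℝ) / PP w) ^ k) := by
      have h2 : (N : ℝ) ^ (d / 4) = (N : ℝ) ^ (d / 8) * (N : ℝ) ^ (d / 8) := by
        rw [← Real.rpow_add hNpos]
        congr 1
        ring
      have h3 : 0 < (N : ℝ) ^ (d / 8) := by positivity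
      have h4 : (PP w : ℝ) ^ k ≤ η / 2 * (N : ℝ) ^ (d / 4) := by
        rw [h2]
        have h5 : 1 ≤ η / 2 * (N : ℝ) ^ (d / 8) := by
          rw [div_le_iff₀ hη] at hη2
          linarith
        calc (PP w : ℝ) ^ k ≤ 1 * (N : ℝ) ^ (d / 8) := by rw [one_mul]; exact hPk
          _ ≤ (η / 2 * (N : ℝ) ^ (d / 8)) * (N : ℝ) ^ (d / 8) := by gcongr
          _ = _ := by ring
      rw [Real.rpow_sub hNpos, Real.rpow_natCast, div_le_iff₀ (by positivity), div_pow]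
      have h6 : 0 < (PP w : ℝ) ^ k := by positivity
      have h7 : (N : ℝ) ^ k = (N : ℝ) ^ k / (PP w : ℝ) ^ k * (PP w : ℝ) ^ k := by field_simp
      calc (N : ℝ) ^ k = (N : ℝ) ^ k / (PP w : ℝ) ^ k * (PP w : ℝ) ^ k := h7
        _ ≤ (N : ℝ) ^ k / (PP w : ℝ) ^ k * (η / 2 * (N : ℝ) ^ (d / 4)) := by gcongr
        _ = _ := by ring
    calc (N : ℝ) ^ ((k : ℝ) - d / 4) * ((N : ℝ) / PP w) ^ r ≤
        (η * ((1 / 2) * ((N : ℝ) / PP w) ^ k)) * ((N : ℝ) / PP w) ^ r := by gcongr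
      _ = η * (((N : ℝ) / PP w) ^ k * ((1 / 2) * ((N : ℝ) / PP w) ^ r)) := by ring
      _ ≤ _ := by gcongr
  refine count_of_weighted hη.le hη1 hN3 hMM0 ?_ ?_
  · refine hmain.trans ?_
    linarith [hR.trans hθ]
  · refine log_ratio hN3 (by linarith) hry ?_
    rw [div_le_iff₀ hη] at hll2
    linarith

lemma exists_all (K η d : ℝ) (hK : 0 < K) (hη : 0 < η) (hη1 : 2 * η ≤ 1) (hd : 0 < d) (k0 : ℕ) :
    ∃ w0 : ℕ, ∃ u : ℝ, ∃ N0 : ℕ, 0 < u ∧ ∀ k ≤ k0, One K (4 * η) d k w0 u N0 := by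
  induction k0 with
  | zero =>
    obtain ⟨w0, u, N0, hu, h⟩ := exists_one K η d hK hη hη1 hd 0
    refine ⟨w0, u, N0, hu, fun k hk => ?_⟩
    obtain rfl : k = 0 := by omega
    exact h
  | succ m ih =>
    obtain ⟨w0, u, N0, hu, h⟩ := exists_one K η d hK hη hη1 hd (m + 1)
    obtain ⟨w1, u1, N1, hu1, h1⟩ := ih
    refine ⟨max w0 w1, min u u1, max N0 N1, lt_min hu hu1, fun k hk => ?_⟩
    rcases Nat.lt_or_ge k (m + 1) with h2 | h2
    · exact (h1 k (by omega)).mono (le_max_right _ _) (min_le_right _ _) (le_max_right _ _)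
    · obtain rfl : k = m + 1 := by omega
      exact h.mono (le_max_left _ _) (min_le_left _ _) (le_max_left _ _)

end CMomAux

open CMomAux in
open scoped Classical in
/-- Module CMom: the factorial moments of the COUNT in all but few admissible classes
(facM with `f = lp`, levelsK, sum_classesK + selK + Markov over the classes, adm_classes, and
`log N ≤ log m ≤ log 3N` for `N < m ≤ 3N`). -/
theorem classK (C1 cA : ℝ) (h1 : 0 < C1) (hA : 0 < cA) (hL : LevS C1 cA) (k0 : ℕ) :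
    ∃ cw C0 d' : ℝ, 0 < cw ∧ 0 < d' ∧ ∀ C2 cB : ℝ, C0 ≤ C2 → 0 < cB →
    ∀ η : ℝ, 0 < η → ∀ w1 : ℕ, ∃ N0 : ℕ, ∀ N : ℕ, N0 ≤ N → GoodX cA C1 cB C2 N →
    ∀ w : ℕ, w = ⌊cw * yy N⌋₊ → w1 ≤ w ∧ 4 ^ (100 * w) ≤ N ∧ Real.log N ≤ (w : ℝ) ^ 2 ∧
      2 * yy N ≤ 4 / cw * w ∧ (w : ℝ) ≤ η * Real.log N ∧
    ∀ r : ℕ, 1 ≤ r → (r : ℝ) ≤ 2 * yy N → ∃ Bc : Finset (Fin r → ℕ),
    (Bc.card : ℝ) ≤ (N : ℝ) ^ (-d') * ((Fintype.piFinset (fun _ : Fin r => range (PP w))).filter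
      (fun a => ∀ p ∈ Nat.primesLE w, nuI a p < p)).card ∧
    ∀ a ∈ Fintype.piFinset (fun _ : Fin r => range (PP w)),
      (∀ p ∈ Nat.primesLE w, nuI a p < p) → a ∉ Bc → ∀ k : ℕ, 1 ≤ k → k ≤ k0 →
      |∑ h ∈ Hc N w a, ((cnt N h).descFactorial k : ℝ) - lam N w a ^ k * (Hc N w a).card| ≤
        η * (lam N w a ^ k * (Hc N w a).card) := by
  obtain ⟨cw, d, B', hcw, hd, hB', hL1⟩ := hL k0
  obtain ⟨C0, hL2⟩ := hL1 2 1 (by norm_num) le_rfl
  refine ⟨cw, C0, d / 4, hcw, by positivity, fun C2 cB hC2 hcB η hη w1 => ?_⟩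
  obtain ⟨w0, u, N1, hu, hall⟩ := exists_all (4 / cw) (min (η / 4) (1 / 2)) d (by positivity)
    (lt_min (by positivity) (by norm_num))
    (by linarith [min_le_right (η / 4) (1 / 2 : ℝ)]) hd k0
  obtain ⟨c, hc, hDZ⟩ := Pool.Agent.Lib.MP.DZ_lower
  obtain ⟨N2, hN2⟩ := hL2 C2 cB hC2 hcB (min (min u η) 1)
    (lt_min (lt_min hu hη) one_pos) (max (max w0 w1) 2)
  have hE3 : ∀ᶠ N : ℕ in atTop, (k0 : ℝ) ≤ (N : ℝ) ^ (d / 8) :=
    ((tendsto_rpow_atTop (by positivity : 0 < d / 8)).comp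
      tendsto_natCast_atTop_atTop).eventually_ge_atTop _
  obtain ⟨N0, hN0⟩ := eventually_atTop.1 ((ev_pow (d / 8) c 1 (by positivity) hc).and
    (hE3.and ((loglog_tendsto.eventually_ge_atTop 1).and
      ((eventually_ge_atTop N1).and ((eventually_ge_atTop N2).and (eventually_ge_atTop 3))))))
  refine ⟨N0, fun N hN hG w hw => ?_⟩
  obtain ⟨hev, hη3, hll, hNN1, hNN2, hN3⟩ := hN0 N hN
  have hN1 : (1 : ℝ) < N := by exact_mod_cast (by omega : 1 < N)
  have hNpos : (0 : ℝ) < N := by linarith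
  have hLpos : 0 < Real.log N := Real.log_pos hN1
  obtain ⟨hw1, hw2, hw3, hw4, hw5, e1, e2, he10, -, he20, -, hk⟩ := hN2 N hNN2 hG w hw
  have hww0 : w0 ≤ w := (le_max_left _ _).trans ((le_max_left _ _).trans hw1)
  have hww1 : w1 ≤ w := (le_max_right _ _).trans ((le_max_left _ _).trans hw1)
  have hw2' : 2 ≤ w := (le_max_right _ _).trans hw1
  have h4w : 4 ^ (100 * w) ≤ N := by
    refine le_trans (Nat.pow_le_pow_right (by norm_num) ?_) hw2
    nlinarith [Nat.zero_le (k0 * w)]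
  have hwu : (w : ℝ) ≤ u * Real.log N := hw5.trans (mul_le_mul_of_nonneg_right
    ((min_le_left _ _).trans (min_le_left _ _)) hLpos.le)
  have hwη : (w : ℝ) ≤ η * Real.log N := hw5.trans (mul_le_mul_of_nonneg_right
    ((min_le_left _ _).trans (min_le_right _ _)) hLpos.le)
  have hwL : (w : ℝ) ≤ Real.log N := by
    refine hw5.trans ((mul_le_mul_of_nonneg_right (min_le_right _ _) hLpos.le).trans ?_)
    rw [one_mul]
  have hyw : 2 * yy N ≤ 4 / cw * w := by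
    calc 2 * yy N ≤ 2 * (2 / cw * w) := by linarith
      _ = 4 / cw * w := by ring
  refine ⟨hww1, h4w, hw3, hyw, hwη, fun r hr1 hry => ?_⟩
  have key : ∀ k : ℕ, ∃ Bc : Finset (Fin r → ℕ), 1 ≤ k → k ≤ k0 →
      (Bc.card : ℝ) ≤ (N : ℝ) ^ (-(d / 2)) * (PP w : ℝ) ^ r ∧
      ∀ a ∈ Fintype.piFinset (fun _ : Fin r => range (PP w)), 1 ≤ nA w a → a ∉ Bc →
      |∑ h ∈ Hc N w a, ((cnt N h).descFactorial k : ℝ) - lam N w a ^ k * (Hc N w a).card| ≤
        (4 * min (η / 4) (1 / 2)) * (lam N w a ^ k * (Hc N w a).card) := by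
    intro k
    by_cases hkk : 1 ≤ k ∧ k ≤ k0
    · obtain ⟨Bd1, Bd2, Bd3, hBd3, hr, hA1, hA2, hA3⟩ := hk k hkk.1 hkk.2
      obtain ⟨hr1', hr2, hr3, hr4, -⟩ := hr r hry
      have hmin : min (min u η) 1 ≤ u := (min_le_left _ _).trans (min_le_left _ _)
      obtain ⟨Bc, hBc, hBc'⟩ := hall k hkk.2 N w hNN1 hww0 h4w hwu r hr1 (hry.trans hyw) hry e1 e2
        B' Bd1 Bd2 Bd3 he10 he20 hB' hBd3 (hr1'.trans hmin)
        (hr2.trans (mul_le_mul_of_nonneg_right hmin (by positivity)))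
        (hr3.trans (mul_le_mul_of_nonneg_right hmin (Real.sqrt_nonneg _)))
        (hr4.trans (mul_le_mul_of_nonneg_right hmin (Real.sqrt_nonneg _))) hA1 hA2 hA3
      exact ⟨Bc, fun _ _ => ⟨hBc, hBc'⟩⟩
    · exact ⟨∅, fun h1 h2 => absurd ⟨h1, h2⟩ hkk⟩
  choose Bck hBck using key
  refine ⟨(Finset.Icc 1 k0).biUnion Bck, ?_, ?_⟩
  · have hP : (0 : ℝ) < PP w := by exact_mod_cast PP_pos w
    have hcard : (((Finset.Icc 1 k0).biUnion Bck).card : ℝ) ≤
        k0 * ((N : ℝ) ^ (-(d / 2)) * (PP w : ℝ) ^ r) := by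
      have h1 : (((Finset.Icc 1 k0).biUnion Bck).card : ℝ) ≤
          ∑ k ∈ Finset.Icc 1 k0, ((Bck k).card : ℝ) := by
        exact_mod_cast Finset.card_biUnion_le
      refine h1.trans ?_
      have h2 : ∑ k ∈ Finset.Icc 1 k0, ((Bck k).card : ℝ) ≤
          ∑ _k ∈ Finset.Icc 1 k0, ((N : ℝ) ^ (-(d / 2)) * (PP w : ℝ) ^ r) := by
        refine Finset.sum_le_sum fun k hk' => ?_
        rw [Finset.mem_Icc] at hk'
        exact (hBck k hk'.1 hk'.2).1
      refine h2.trans (le_of_eq ?_)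
      rw [Finset.sum_const, Nat.card_Icc, nsmul_eq_mul, Nat.add_sub_cancel]
    refine hcard.trans ?_
    refine le_trans ?_ (mul_le_mul_of_nonneg_left (adm_classes w r)
      (by positivity : (0 : ℝ) ≤ (N : ℝ) ^ (-(d / 4))))
    have hlw : 0 < Real.log w := Real.log_pos (by exact_mod_cast (by omega : 1 < w))
    have hlw' : Real.log w ≤ Real.log (Real.log N) :=
      Real.log_le_log (by exact_mod_cast (by omega : 0 < w)) hwL
    have hDZ1 : (DZ w)⁻¹ ≤ Real.log (Real.log N) / c := by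
      rw [inv_le_comm₀ (DZ_pos w) (by positivity), inv_div]
      refine le_trans ?_ (hDZ w hw2')
      exact div_le_div_of_nonneg_left hc.le hlw hlw'
    have hDZ2 : ((DZ w)⁻¹) ^ r ≤ (N : ℝ) ^ (d / 8) := by
      refine le_trans (pow_le_pow_left₀ (inv_nonneg.2 (DZ_pos w).le) hDZ1 r) ?_
      have h1 := hev r hry
      rwa [pow_one] at h1
    have hDZ3 : (N : ℝ) ^ (-(d / 8)) ≤ DZ w ^ r := by
      rw [Real.rpow_neg hNpos.le, inv_le_comm₀ (by positivity) (pow_pos (DZ_pos w) r), ← inv_pow]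
      exact hDZ2
    rw [mul_pow]
    have h4 : (N : ℝ) ^ (d / 8) * (N : ℝ) ^ (-(d / 2)) =
        (N : ℝ) ^ (-(d / 4)) * (N : ℝ) ^ (-(d / 8)) := by
      rw [← Real.rpow_add hNpos, ← Real.rpow_add hNpos]
      congr 1
      ring
    calc (k0 : ℝ) * ((N : ℝ) ^ (-(d / 2)) * (PP w : ℝ) ^ r) ≤
        (N : ℝ) ^ (d / 8) * ((N : ℝ) ^ (-(d / 2)) * (PP w : ℝ) ^ r) := by gcongr
      _ = (PP w : ℝ) ^ r * ((N : ℝ) ^ (d / 8) * (N : ℝ) ^ (-(d / 2))) := by ring
      _ = (N : ℝ) ^ (-(d / 4)) * ((PP w : ℝ) ^ r * (N : ℝ) ^ (-(d / 8))) := by rw [h4]; ring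
      _ ≤ (N : ℝ) ^ (-(d / 4)) * ((PP w : ℝ) ^ r * DZ w ^ r) := by gcongr
  · intro a haA hadm haB k hk1 hk2
    have haB' : a ∉ Bck k := fun h0 =>
      haB (Finset.mem_biUnion.2 ⟨k, Finset.mem_Icc.2 ⟨hk1, hk2⟩, h0⟩)
    refine ((hBck k hk1 hk2).2 a haA ((nA_pos w a).2 hadm) haB').trans ?_
    have hlam0 : 0 ≤ lam N w a := by
      unfold lam
      exact div_nonneg (le_trans (by positivity) (MM_ge (N := N) ((nA_pos w a).2 hadm)))
        (by positivity)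
    have h5 : 4 * min (η / 4) (1 / 2) ≤ η := by linarith [min_le_left (η / 4) (1 / 2 : ℝ)]
    exact mul_le_mul_of_nonneg_right h5 (by positivity)

end Pool.Agent.Lib.LEN
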