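import Pool.Agent.Lib.GMV.SumB
import Pool.Agent.Lib.GMV.MainT
import Pool.Agent.Lib.HLB.SingTail

/-!
# LEN: tuples of growing length: definitions

Paper: /team-store/e87c7d_LEN.md.
-/

set_option autoImplicit false

open Finset Filter

namespace Pool.Agent.Lib.LEN

open Pool.Agent.HLB Pool.Agent.HLT Pool.Agent.HLR Pool.Agent.Lib.GMV

/-- `log X / log log X`. -/
noncomputable def yy (X : ℕ) : ℝ := Real.log X / Real.log (Real.log X)

/-- The level `⌊exp (c log X / log log X)⌋`. -/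
noncomputable def Ql (c : ℝ) (X : ℕ) : ℕ := ⌊Real.exp (c * yy X)⌋₊

/-- The product of the primes `≤ w`. -/
def PP (w : ℕ) : ℕ := ∏ p ∈ Nat.primesLE w, p

/-- The integers of `[1, N]` congruent to `c` modulo `PP w`. -/
def cls (N w c : ℕ) : Finset ℕ := (Icc 1 N).filter fun h => h % PP w = c % PP w

/-- `∏ p/(p-1)` over the primes `p > w` dividing `d`. -/
noncomputable def ss (w d : ℕ) : ℝ :=
  ∏ p ∈ d.primeFactors.filter (fun p => w < p), (1 - 1 / (p : ℝ))⁻¹

/-- All `n + a i` are coprime to the primes `≤ w`. -/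
def Good (w : ℕ) {r : ℕ} (a : Fin r → ℕ) (n : ℕ) : Prop := ∀ i, Nat.Coprime (n + a i) (PP w)

open scoped Classical in
/-- The good integers of `(N, 2N]`. -/
noncomputable def NA (w N : ℕ) {r : ℕ} (a : Fin r → ℕ) : Finset ℕ :=
  (Ioc N (2 * N)).filter (Good w a)

open scoped Classical in
/-- The number of good residue classes modulo `PP w`. -/
noncomputable def nA (w : ℕ) {r : ℕ} (a : Fin r → ℕ) : ℕ :=
  ((range (PP w)).filter (Good w a)).card

/-- First correlation in a class. -/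
noncomputable def AA (f : ℕ → ℝ) (N w c n : ℕ) : ℝ := ∑ h ∈ cls N w c, f (n + h)

/-- Pair correlation in a class. -/
noncomputable def CC (f : ℕ → ℝ) (N w c n n' : ℕ) : ℝ := ∑ h ∈ cls N w c, f (n + h) * f (n' + h)

/-- The weighted number of the `n` in `(N, 2N]`. -/
noncomputable def FF (f : ℕ → ℝ) (N : ℕ) {r : ℕ} (h : Fin r → ℕ) : ℝ :=
  ∑ n ∈ Ioc N (2 * N), ∏ i, f (n + h i)

/-- The tuples of `[1, N]^r` in a class. -/
def Hc (N w : ℕ) {r : ℕ} (a : Fin r → ℕ) : Finset (Fin r → ℕ) :=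
  Fintype.piFinset fun i => cls N w (a i)

/-- The main term of a class. -/
noncomputable def MM (N w : ℕ) {r : ℕ} (a : Fin r → ℕ) : ℝ :=
  (N : ℝ) * nA w a / PP w * (DZ w)⁻¹ ^ r

/-- Admissible tuples. -/
def Adm {r : ℕ} (h : Fin r → ℕ) : Prop := Function.Injective h ∧ ∀ p : ℕ, p.Prime → nuI h p < p

/-- The number of the `n` in `(N, 2N]` with all `n + h i` prime. -/
def cnt (N : ℕ) {r : ℕ} (h : Fin r → ℕ) : ℕ :=
  ((Ioc N (2 * N)).filter fun n => ∀ i, (n + h i).Prime).card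

/-- The complete local mean with a periodic weight `ψ`. -/
noncomputable def TPs {k : ℕ} (Y : ℕ) (ψ : ℕ → ℝ) (x : Fin k → CI) (h : Fin k → ℕ) : ℂ :=
  av (P0 Y x) fun n => (ψ n : ℂ) * ∏ i, ((starRingEnd ℂ) (cv (x i) (n + h i)) * (nuz Y (n + h i) : ℂ))

/-- The mean of the sieve weights with a periodic weight `ψ`. -/
noncomputable def SZs {k : ℕ} (Y : ℕ) (ψ : ℕ → ℝ) (h : Fin k → ℕ) : ℝ :=
  (∑ n ∈ range (PP Y), ψ n * ∏ i, nuz Y (n + h i)) / PP Y

/-- The indicator of a class modulo `PP w`. -/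
noncomputable def psi (w c n : ℕ) : ℝ := if n % PP w = c % PP w then 1 else 0

/-- No exceptional zero at the two levels. -/
def GoodX (cA C1 cB C2 : ℝ) (X : ℕ) : Prop :=
  (∀ x β, ¬ IsExc cA (Ql C1 X) x β) ∧ ∀ x β, ¬ IsExc cB (Ql C2 X) x β

end Pool.Agent.Lib.LEN
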