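import Pool.Agent.Lib.GMV.Tail
import Pool.Agent.Lib.GMV.Compl
import Pool.Agent.Lib.GMV.VarM
import Pool.Agent.Lib.LEN.Defs

/-!
# LEN.ClsA: the tail of the local model with a periodic weight (THR 3.1)

`ψ` is a weight of period `∏ p ∈ B, p`, `B` a set of primes `≤ Y`, `|ψ| ≤ 1`. The primes of `B` are counted
as bad primes in the proof of `GMV.tailA`.
-/

set_option autoImplicit false

open Finset Filter

namespace Pool.Agent.Lib.LEN

open Pool.Agent.HLB Pool.Agent.HLT Pool.Agent.HLR Pool.Agent.Lib.GMV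

/-- The truncated local mean with a periodic weight. -/
noncomputable def TYs {k : ℕ} (Y : ℕ) (ψ : ℕ → ℝ) (x : Fin k → CI) (h : Fin k → ℕ) : ℂ :=
  ∑ S ∈ Fintype.piFinset (fun i => Sm Y (md (x i))), av (P0 Y x) fun n => (ψ n : ℂ) * fS x S h n

/-- Weighted version of `GMV.TP`. -/
noncomputable def TPw {k : ℕ} (ψ : ℕ → ℝ) (Y : ℕ) (x : Fin k → CI) (h : Fin k → ℕ) : ℂ :=
  ∑ S ∈ Fintype.piFinset (fun i => Sa Y (md (x i))),
    av (P0 Y x) (fun n => (ψ n : ℂ) * fS x S h n)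

lemma per_dvd {R : Type*} (f : ℕ → R) (p M : ℕ) (hf : ∀ n, f (n + p) = f n) (hd : p ∣ M) (n : ℕ) :
    f (n + M) = f n := by
  obtain ⟨j, rfl⟩ := hd
  induction j generalizing n with
  | zero => simp
  | succ j ih => rw [Nat.mul_succ, ← add_assoc, hf, ih]

open TailAAux in
/-- The bound for one tuple. -/
lemma term_bdw {k : ℕ} (Y : ℕ) (B : Finset ℕ) (hBY : B ⊆ Nat.primesLE Y) (ψ : ℕ → ℝ)
    (hψ1 : ∀ n, |ψ n| ≤ 1) (hψ2 : ∀ n, ψ (n + ∏ p ∈ B, p) = ψ n)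
    (x : Fin k → CI) (S : Fin k → Finset ℕ) (h : Fin k → ℕ)
    (hS : ∀ i, S i ⊆ Nat.primesLE Y) :
    ‖av (P0 Y x) (fun n => (ψ n : ℂ) * fS x S h n)‖ ≤ (∏ i, rho (x i)) *
      ∏ p ∈ Nat.primesLE Y, bp (Del h * (∏ i, md (x i)) * ∏ p ∈ B, p) h p
        (univ.filter fun i => p ∈ S i) := by
  classical
  set D := Del h * (∏ i, md (x i)) * ∏ p ∈ B, p with hD
  set P := Nat.primesLE Y with hP
  set Rr := ∏ i, md (x i) with hRr
  set I : ℕ → Finset (Fin k) := fun p => univ.filter fun i => p ∈ S i with hI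
  set Bd := P.filter (fun p => p ∣ D) with hBd
  set Gd := P.filter (fun p => ¬ p ∣ D) with hGd
  set M := Rr * ∏ p ∈ Bd, p with hM
  have hprime : ∀ p ∈ P, p.Prime := fun p hp => (Nat.mem_primesLE.mp hp).2
  have hBp : ∀ p ∈ Bd, p.Prime := fun p hp => hprime p (mem_filter.mp hp).1
  have hGp : ∀ p ∈ Gd, p.Prime := fun p hp => hprime p (mem_filter.mp hp).1
  have hBBd : B ⊆ Bd := by
    intro p hp
    exact mem_filter.mpr ⟨hBY hp, Dvd.dvd.mul_left (dvd_prod_of_mem (fun p => p) hp) _⟩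
  have hR1 : 1 ≤ Rr := Finset.one_le_prod' fun i _ => md_pos (x i)
  have hB1 : 1 ≤ ∏ p ∈ Bd, p := Finset.one_le_prod' fun p hp => (hBp p hp).one_lt.le
  have hM1 : 1 ≤ M := Nat.mul_pos hR1 hB1
  have hP0 : P0 Y x = M * ∏ p ∈ Gd, p := by
    unfold P0
    rw [← prod_filter_mul_prod_filter_not P (fun p => p ∣ D) (fun p => p), ← mul_assoc]
  set F : ℕ → ℕ → ℂ := fun p n => ((∏ i ∈ I p, wp p (n + h i) : ℝ) : ℂ) with hF
  set A : ℕ → ℂ := fun n => (ψ n : ℂ) *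
    ∏ i, ((rho (x i) : ℂ) * (starRingEnd ℂ) (cv (x i) (n + h i))) with hA
  set g : ℕ → ℂ := fun n => A n * ∏ p ∈ Bd, F p n with hg
  have hfS : ∀ n, (ψ n : ℂ) * fS x S h n = g n * ∏ p ∈ Gd, F p n := by
    intro n
    have e1 : (ψ n : ℂ) * fS x S h n = A n * ∏ i, ∏ p ∈ S i, ((wp p (n + h i) : ℝ) : ℂ) := by
      unfold fS
      rw [prod_mul_distrib, hA, ← mul_assoc]
      congr 1
      refine prod_congr rfl fun i _ => ?_
      push_cast
      rfl
    have e2 : ∏ i, ∏ p ∈ S i, ((wp p (n + h i) : ℝ) : ℂ) = ∏ p ∈ P, F p n := by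
      rw [swap P S hS (fun p i => ((wp p (n + h i) : ℝ) : ℂ))]
      refine prod_congr rfl fun p _ => ?_
      rw [hF]
      push_cast
      rfl
    rw [e1, e2, ← prod_filter_mul_prod_filter_not P (fun p => p ∣ D) (fun p => F p n), ← mul_assoc]
  have hgper : ∀ n, g (n + M) = g n := by
    intro n
    rw [hg]
    show A (n + M) * ∏ p ∈ Bd, F p (n + M) = A n * ∏ p ∈ Bd, F p n
    congr 1
    · rw [hA]
      show (ψ (n + M) : ℂ) * _ = (ψ n : ℂ) * _
      congr 1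
      · rw [per_dvd ψ _ M hψ2 (Dvd.dvd.mul_left (prod_dvd_prod_of_subset _ _ _ hBBd) _)]
      · refine prod_congr rfl fun i _ => ?_
        rw [cv_per (Dvd.dvd.mul_right (dvd_prod_of_mem (fun i => md (x i)) (mem_univ i)) _)]
    · refine prod_congr rfl fun p hp => ?_
      rw [hF]
      show ((∏ i ∈ I p, wp p (n + M + h i) : ℝ) : ℂ) = ((∏ i ∈ I p, wp p (n + h i) : ℝ) : ℂ)
      congr 1
      refine prod_congr rfl fun i _ => ?_
      rw [wp_per (Dvd.dvd.mul_left (dvd_prod_of_mem (fun p => p) hp) _)]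
  have hcop : ∀ p ∈ Gd, M.Coprime p := by
    intro p hp
    have hpp := hGp p hp
    have hnd : ¬ p ∣ D := (mem_filter.mp hp).2
    rw [Nat.coprime_comm, hpp.coprime_iff_not_dvd]
    intro hdvd
    rcases (hpp.dvd_mul).mp hdvd with h1 | h1
    · exact hnd ((h1.mul_left _).mul_right _)
    · rw [hpp.prime.dvd_finsetProd_iff] at h1
      obtain ⟨q, hq, hpq⟩ := h1
      have : p = q := (Nat.prime_dvd_prime_iff_eq hpp (hBp q hq)).mp hpq
      rw [this] at hnd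
      exact hnd (mem_filter.mp hq).2
  have hFper : ∀ p ∈ Gd, ∀ n, F p (n + p) = F p n := by
    intro p _ n
    rw [hF]
    show ((∏ i ∈ I p, wp p (n + p + h i) : ℝ) : ℂ) = ((∏ i ∈ I p, wp p (n + h i) : ℝ) : ℂ)
    congr 1
    refine prod_congr rfl fun i _ => ?_
    rw [wp_per (dvd_refl p)]
  have hmain : av (P0 Y x) (fun n => (ψ n : ℂ) * fS x S h n) =
      av M g * ∏ p ∈ Gd, av p (F p) := by
    rw [hP0, ← av_prod Gd hGp M hM1 hcop g hgper F hFper]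
    congr 1
    funext n
    exact hfS n
  rw [hmain, norm_mul, norm_prod]
  have hgb : ‖av M g‖ ≤ (∏ i, rho (x i)) * ∏ p ∈ Bd, ((∑ n ∈ range p, ∏ i ∈ I p, |wp p (n + h i)|) / p) := by
    rw [← mean_prod Bd hBp Rr hR1 h I (∏ i, rho (x i))]
    refine norm_av_le M g (fun n => (∏ i, rho (x i)) * ∏ p ∈ Bd, ∏ i ∈ I p, |wp p (n + h i)|) ?_
    intro n
    rw [hg]
    show ‖A n * ∏ p ∈ Bd, F p n‖ ≤ _
    rw [norm_mul]
    refine mul_le_mul ?_ ?_ (norm_nonneg _) (prod_nonneg fun i _ => TailAAux.rho_nonneg _)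
    · rw [hA]
      show ‖(ψ n : ℂ) * ∏ i, ((rho (x i) : ℂ) * (starRingEnd ℂ) (cv (x i) (n + h i)))‖ ≤ _
      rw [norm_mul, norm_prod, Complex.norm_real, Real.norm_eq_abs]
      have h2 : ∏ i, ‖(rho (x i) : ℂ) * (starRingEnd ℂ) (cv (x i) (n + h i))‖ ≤ ∏ i, rho (x i) := by
        refine prod_le_prod (fun i _ => norm_nonneg _) fun i _ => ?_
        rw [norm_mul, RCLike.norm_conj, Complex.norm_real, Real.norm_eq_abs,
          abs_of_nonneg (TailAAux.rho_nonneg _)]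
        exact mul_le_of_le_one_right (TailAAux.rho_nonneg _) (norm_cv_le _ _)
      exact (mul_le_of_le_one_left (prod_nonneg fun i _ => norm_nonneg _) (hψ1 n)).trans h2
    · rw [norm_prod]
      refine le_of_eq (prod_congr rfl fun p _ => ?_)
      rw [hF]
      show ‖((∏ i ∈ I p, wp p (n + h i) : ℝ) : ℂ)‖ = _
      rw [Complex.norm_real, Real.norm_eq_abs, abs_prod]
  have hsplit : ∏ p ∈ P, bp D h p (I p) =
      (∏ p ∈ Bd, ((∑ n ∈ range p, ∏ i ∈ I p, |wp p (n + h i)|) / p)) * ∏ p ∈ Gd, ‖av p (F p)‖ := by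
    rw [← prod_filter_mul_prod_filter_not P (fun p => p ∣ D) (fun p => bp D h p (I p))]
    congr 1
    · refine prod_congr rfl fun p hp => ?_
      unfold bp
      rw [if_pos (mem_filter.mp hp).2]
    · refine prod_congr rfl fun p hp => ?_
      unfold bp
      rw [if_neg (mem_filter.mp hp).2]
  show _ ≤ (∏ i, rho (x i)) * ∏ p ∈ P, bp D h p (I p)
  rw [hsplit, ← mul_assoc]
  exact mul_le_mul_of_nonneg_right hgb (prod_nonneg fun p _ => norm_nonneg _)

open TailAAux in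
theorem tailAw (k : ℕ) (hk : 1 ≤ k) : ∃ C : ℝ, 0 < C ∧ ∀ (Y : ℕ) (B : Finset ℕ),
    B ⊆ Nat.primesLE Y → ∀ ψ : ℕ → ℝ, (∀ n, |ψ n| ≤ 1) → (∀ n, ψ (n + ∏ p ∈ B, p) = ψ n) →
    ∀ (x : Fin k → CI) (h : Fin k → ℕ), 1 ≤ Y →
    ‖TYs Y ψ x h - TPw ψ Y x h‖ ≤ (Y : ℝ) ^ (-(1 / (4 * k : ℝ))) * (∏ i, rho (x i)) *
      ∏ p ∈ Nat.primesLE Y, (if p ∣ Del h * (∏ i, md (x i)) * ∏ p ∈ B, p
        then 1 + C * (p : ℝ) ^ (-(3 / 4 : ℝ)) else 1 + C * (p : ℝ) ^ (-(7 / 4 : ℝ))) := by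
  classical
  obtain ⟨C1, hC1, hgood⟩ := loc_good k hk
  obtain ⟨C2, hC2, hbad⟩ := loc_bad k hk
  refine ⟨C1 + C2, by positivity, fun Y B hBY ψ hψ1 hψ2 x h hY => ?_⟩
  set D := Del h * (∏ i, md (x i)) * ∏ p ∈ B, p with hD
  set P := Nat.primesLE Y with hP
  have hY0 : (0 : ℝ) < Y := by exact_mod_cast hY
  have hk0 : (0 : ℝ) < 4 * k := by
    have : (0 : ℝ) < k := by exact_mod_cast hk
    positivity
  have hprime : ∀ p ∈ P, p.Prime := fun p hp => (Nat.mem_primesLE.mp hp).2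
  have hSub : Fintype.piFinset (fun i => Sm Y (md (x i))) ⊆
      Fintype.piFinset (fun i => Sa Y (md (x i))) := by
    refine Fintype.piFinset_subset _ _ fun i => ?_
    unfold Sm Sa
    exact filter_subset _ _
  have hSaP : ∀ S ∈ Fintype.piFinset (fun i => Sa Y (md (x i))), ∀ i, S i ⊆ P := by
    intro S hS i
    have h1 := Fintype.mem_piFinset.mp hS i
    unfold Sa at h1
    exact (mem_powerset.mp h1).trans (filter_subset _ _)
  -- the difference
  have hdiff : TYs Y ψ x h - TPw ψ Y x h = - ∑ S ∈ Fintype.piFinset (fun i => Sa Y (md (x i))) \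
      Fintype.piFinset (fun i => Sm Y (md (x i))), av (P0 Y x) (fun n => (ψ n : ℂ) * fS x S h n) := by
    unfold TYs TPw
    rw [← sum_sdiff hSub]
    ring
  rw [hdiff, norm_neg]
  refine (norm_sum_le _ _).trans ?_
  -- the weights
  have hw : ∀ S ∈ Fintype.piFinset (fun i => Sa Y (md (x i))) \
      Fintype.piFinset (fun i => Sm Y (md (x i))),
      1 ≤ (Y : ℝ) ^ (-(1 / (4 * k : ℝ))) * ∏ i, ((∏ p ∈ S i, p : ℕ) : ℝ) ^ (1 / (4 * k : ℝ)) := by
    intro S hS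
    rw [Finset.mem_sdiff] at hS
    obtain ⟨hS1, hS2⟩ := hS
    rw [Fintype.mem_piFinset] at hS2
    push Not at hS2
    obtain ⟨i, hi⟩ := hS2
    have hi2 : Y < ∏ p ∈ S i, p := by
      have h1 := Fintype.mem_piFinset.mp hS1 i
      by_contra hcon
      apply hi
      unfold Sm
      unfold Sa at h1
      exact mem_filter.mpr ⟨h1, not_lt.mp hcon⟩
    have hge : ∀ j, (1 : ℝ) ≤ ((∏ p ∈ S j, p : ℕ) : ℝ) ^ (1 / (4 * k : ℝ)) := by
      intro j
      refine Real.one_le_rpow ?_ (by positivity)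
      have : 1 ≤ ∏ p ∈ S j, p :=
        Finset.one_le_prod' fun p hp => (hprime p (hSaP S hS1 j hp)).one_lt.le
      exact_mod_cast this
    have h2 : ((∏ p ∈ S i, p : ℕ) : ℝ) ^ (1 / (4 * k : ℝ)) ≤
        ∏ j, ((∏ p ∈ S j, p : ℕ) : ℝ) ^ (1 / (4 * k : ℝ)) := by
      rw [← mul_prod_erase univ _ (mem_univ i)]
      refine le_mul_of_one_le_right (by positivity) ?_
      have : ∏ j ∈ univ.erase i, (1 : ℝ) ≤
          ∏ j ∈ univ.erase i, ((∏ p ∈ S j, p : ℕ) : ℝ) ^ (1 / (4 * k : ℝ)) :=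
        prod_le_prod (fun _ _ => zero_le_one) fun j _ => hge j
      rwa [prod_const_one] at this
    have h3 : (Y : ℝ) ^ (1 / (4 * k : ℝ)) ≤ ((∏ p ∈ S i, p : ℕ) : ℝ) ^ (1 / (4 * k : ℝ)) :=
      Real.rpow_le_rpow hY0.le (by exact_mod_cast hi2.le) (by positivity)
    have h4 : (1 : ℝ) = (Y : ℝ) ^ (-(1 / (4 * k : ℝ))) * (Y : ℝ) ^ (1 / (4 * k : ℝ)) := by
      rw [← Real.rpow_add hY0, neg_add_cancel, Real.rpow_zero]
    calc (1 : ℝ) = (Y : ℝ) ^ (-(1 / (4 * k : ℝ))) * (Y : ℝ) ^ (1 / (4 * k : ℝ)) := h4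
      _ ≤ _ := mul_le_mul_of_nonneg_left (h3.trans h2) (by positivity)
  set a : ℕ → Finset (Fin k) → ℝ := fun p I => (p : ℝ) ^ ((I.card : ℝ) / (4 * k)) * bp D h p I with ha
  have ha0 : ∀ p I, 0 ≤ a p I := fun p I => mul_nonneg (by positivity) (bp_nonneg _ _ _ _)
  have hrho : 0 ≤ ∏ i, rho (x i) := prod_nonneg fun i _ => TailAAux.rho_nonneg _
  have hstep : ∀ S ∈ Fintype.piFinset (fun i => Sa Y (md (x i))) \
      Fintype.piFinset (fun i => Sm Y (md (x i))),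
      ‖av (P0 Y x) (fun n => (ψ n : ℂ) * fS x S h n)‖ ≤
        (Y : ℝ) ^ (-(1 / (4 * k : ℝ))) * (∏ i, rho (x i)) *
        ∏ p ∈ P, a p (univ.filter fun i => p ∈ S i) := by
    intro S hS
    have hSP := hSaP S (Finset.mem_sdiff.mp hS).1
    have h1 := term_bdw Y B hBY ψ hψ1 hψ2 x S h hSP
    have h2 := hw S hS
    rw [weight P S hSP] at h2
    calc ‖av (P0 Y x) (fun n => (ψ n : ℂ) * fS x S h n)‖ ≤ ((Y : ℝ) ^ (-(1 / (4 * k : ℝ))) *
          ∏ p ∈ P, (p : ℝ) ^ (((univ.filter fun i => p ∈ S i).card : ℝ) / (4 * k))) *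
          ((∏ i, rho (x i)) * ∏ p ∈ P, bp D h p (univ.filter fun i => p ∈ S i)) :=
        h1.trans (le_mul_of_one_le_left
          (mul_nonneg hrho (prod_nonneg fun p _ => bp_nonneg _ _ _ _)) h2)
      _ = _ := by
        rw [ha]
        simp only [prod_mul_distrib]
        ring
  refine (sum_le_sum hstep).trans ?_
  rw [← mul_sum]
  refine mul_le_mul_of_nonneg_left ?_ (mul_nonneg (by positivity) hrho)
  have hsub2 : Fintype.piFinset (fun i => Sa Y (md (x i))) \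
      Fintype.piFinset (fun i => Sm Y (md (x i))) ⊆
      Fintype.piFinset (fun _ : Fin k => P.powerset) := by
    intro S hS
    rw [Fintype.mem_piFinset]
    intro i
    exact mem_powerset.mpr (hSaP S (Finset.mem_sdiff.mp hS).1 i)
  refine (sum_le_sum_of_subset_of_nonneg hsub2 fun S _ _ => prod_nonneg fun p _ => ha0 _ _).trans ?_
  rw [tensor P a]
  refine prod_le_prod (fun p _ => sum_nonneg fun I _ => ha0 _ _) fun p hp => ?_
  have hp0 : (0 : ℝ) ≤ p := Nat.cast_nonneg _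
  split_ifs with hdvd
  · have h1 := hbad p (hprime p hp) h
    have h2 : ∑ I : Finset (Fin k), a p I = ∑ I : Finset (Fin k), (p : ℝ) ^ ((I.card : ℝ) / (4 * k)) *
        ((∑ n ∈ range p, ∏ i ∈ I, |wp p (n + h i)|) / p) := by
      refine sum_congr rfl fun I _ => ?_
      rw [ha]
      show _ * bp D h p I = _
      unfold bp
      rw [if_pos hdvd]
    rw [h2]
    refine h1.trans ?_
    have : 0 ≤ (p : ℝ) ^ (-(3 / 4 : ℝ)) := Real.rpow_nonneg hp0 _
    nlinarith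
  · have hnd : ¬ p ∣ Del h := fun hd => hdvd ((hd.mul_right _).mul_right _)
    have h1 := hgood p (hprime p hp) h hnd
    have h2 : ∑ I : Finset (Fin k), a p I = ∑ I : Finset (Fin k), (p : ℝ) ^ ((I.card : ℝ) / (4 * k)) *
        ‖av p (fun n => ((∏ i ∈ I, wp p (n + h i) : ℝ) : ℂ))‖ := by
      refine sum_congr rfl fun I _ => ?_
      rw [ha]
      show _ * bp D h p I = _
      unfold bp
      rw [if_neg hdvd]
    rw [h2]
    refine h1.trans ?_
    have : 0 ≤ (p : ℝ) ^ (-(7 / 4 : ℝ)) := Real.rpow_nonneg hp0 _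
    nlinarith

end Pool.Agent.Lib.LEN
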