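import Pool.Agent.Lib.LEN.ClsA

/-!
# LEN.ClsT: the tail of the local model with a periodic weight (copy of `GMV.tail`)
-/

set_option autoImplicit false

open Finset Filter

namespace Pool.Agent.Lib.LEN

open Pool.Agent.HLB Pool.Agent.HLT Pool.Agent.HLR Pool.Agent.Lib.GMV

open TailAux in
/-- The tail with a weight of period `∏ p ∈ B, p ≤ Q`. -/
theorem tailB (k : ℕ) (hk : 1 ≤ k) : ∃ X0 : ℕ, ∀ X Q : ℕ, X0 ≤ X → Rg 1 X Q →
    ∀ B : Finset ℕ, B ⊆ Nat.primesLE (Q ^ (8 * k)) → ∏ p ∈ B, p ≤ Q →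
    ∀ ψ : ℕ → ℝ, (∀ n, |ψ n| ≤ 1) → (∀ n, ψ (n + ∏ p ∈ B, p) = ψ n) →
    ∀ (x : Fin k → CI) (h : Fin k → ℕ), (∀ i, x i ∈ Ch Q) → h ∈ Tup k (Icc 1 X) →
    Function.Injective h →
    ‖TYs (Q ^ (8 * k)) ψ x h - TPw ψ (Q ^ (8 * k)) x h‖ ≤ (Q : ℝ) ^ (-(3 / 2 : ℝ)) := by
  obtain ⟨C, hC, hA⟩ := tailAw k hk
  set Zt : ℝ := ∑' n : ℕ, (n : ℝ) ^ (-(7 / 4 : ℝ)) with hZt
  have hZ0 : 0 ≤ Zt := tsum_nonneg fun n => by positivity
  have hk0 : (0 : ℝ) < k := by exact_mod_cast hk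
  have hk1 : (1 : ℝ) ≤ k := by exact_mod_cast hk
  set K1 : ℝ := 16 * k + 8 * C * (k * k + k + 1) with hK1
  have hK10 : 0 < K1 := by positivity
  set u0 : ℝ := 4 * (K1 + C * Zt + 1) with hu0
  have hu0p : 1 ≤ u0 := by
    have : 0 ≤ C * Zt := by positivity
    linarith
  refine ⟨⌈Real.exp (u0 ^ 4)⌉₊, ?_⟩
  intro X Q hX hRg B hBY hBQ ψ hψ1 hψ2 x h hx hh hinj
  have hXe : Real.exp (u0 ^ 4) ≤ (X : ℝ) := Nat.ceil_le.mp hX
  have hX0 : (0 : ℝ) < X := lt_of_lt_of_le (Real.exp_pos _) hXe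
  have hX1 : 1 ≤ X := by exact_mod_cast hX0
  set L : ℝ := Real.log X with hL
  have hLu : u0 ^ 4 ≤ L := by rw [hL, Real.le_log_iff_exp_le hX0]; exact hXe
  have hL0 : 0 < L := lt_of_lt_of_le (by positivity) hLu
  set u : ℝ := L ^ (1 / 4 : ℝ) with hu
  have huu : u0 ≤ u := by
    have : u0 = (u0 ^ 4) ^ (1 / 4 : ℝ) := by
      rw [← Real.rpow_natCast, ← Real.rpow_mul (by linarith)]
      norm_num
    rw [this, hu]
    exact Real.rpow_le_rpow (by positivity) hLu (by norm_num)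
  have husq : u ^ 2 = Real.sqrt L := by
    rw [hu, ← Real.rpow_natCast, ← Real.rpow_mul hL0.le, Real.sqrt_eq_rpow]
    norm_num
  obtain ⟨hR1, hR2⟩ := hRg
  rw [Real.rpow_one] at hR2
  have hQ0 : (0 : ℝ) < Q := lt_of_lt_of_le (Real.exp_pos _) hR1
  have hQ1 : 1 ≤ Q := by exact_mod_cast hQ0
  have hlQ : Real.sqrt L / 2 ≤ Real.log Q := by
    rw [Real.le_log_iff_exp_le hQ0]; exact hR1
  have hlQX : Real.log Q ≤ L := Real.log_le_log hQ0 hR2
  have hQX : Q ≤ X := by exact_mod_cast hR2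
  have hh' : ∀ i, 1 ≤ h i ∧ h i ≤ X := by
    intro i
    have := (Fintype.mem_piFinset.mp hh) i
    rw [mem_Icc] at this
    exact this
  have hmd : ∀ i, md (x i) ≤ Q := fun i => (mem_Ch.mp (hx i)).1
  -- the product of the `rho`
  have hrho : ∏ i, rho (x i) ≤ Real.exp (k * (16 * u)) := by
    calc ∏ i, rho (x i) ≤ ∏ _i : Fin k, Real.exp (16 * u) := by
          refine prod_le_prod (fun i _ => by unfold rho; positivity) (fun i _ => ?_)
          refine (ratio_le (md (x i)) (md_pos _)).trans (Real.exp_le_exp.mpr ?_)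
          have h1 : Real.log (md (x i)) ≤ L := by
            refine Real.log_le_log (by exact_mod_cast md_pos _) ?_
            exact_mod_cast (hmd i).trans hQX
          have h2 : 0 ≤ Real.log (md (x i)) := Real.log_nonneg (by exact_mod_cast md_pos _)
          have h3 : (2 * Real.log (md (x i))) ^ (1 / 4 : ℝ) ≤ 2 * u := by
            calc (2 * Real.log (md (x i))) ^ (1 / 4 : ℝ) ≤ (2 * L) ^ (1 / 4 : ℝ) :=
                  Real.rpow_le_rpow (by positivity) (by linarith) (by norm_num)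
              _ = (2 : ℝ) ^ (1 / 4 : ℝ) * u := by rw [Real.mul_rpow (by norm_num) hL0.le]
              _ ≤ 2 * u := by
                  refine mul_le_mul_of_nonneg_right ?_ (by positivity)
                  calc (2 : ℝ) ^ (1 / 4 : ℝ) ≤ (2 : ℝ) ^ (1 : ℝ) :=
                        Real.rpow_le_rpow_of_exponent_le (by norm_num) (by norm_num)
                    _ = 2 := Real.rpow_one _
          linarith
      _ = Real.exp (k * (16 * u)) := by
          rw [prod_const, card_univ, Fintype.card_fin, ← Real.exp_nat_mul]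
  -- the modulus
  set m : ℕ := Del h * (∏ i, md (x i)) * ∏ p ∈ B, p with hm
  have hm1 : 1 ≤ m := by
    rw [hm]
    refine Nat.mul_pos (Nat.mul_pos (Del_pos h hinj) ?_) ?_
    · exact prod_pos fun i _ => md_pos _
    · exact prod_pos fun p hp => (Nat.prime_of_mem_primesLE (hBY hp)).pos
  have hmX : m ≤ X ^ (k * k + k + 1) := by
    rw [hm, pow_succ, pow_add]
    refine Nat.mul_le_mul (Nat.mul_le_mul (Del_le X h hh' hX1) ?_) (hBQ.trans hQX)
    calc ∏ i, md (x i) ≤ ∏ _i : Fin k, X := prod_le_prod' fun i _ => (hmd i).trans hQX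
      _ = X ^ k := by rw [prod_const, card_univ, Fintype.card_fin]
  have hlm : Real.log m ≤ (k * k + k + 1) * L := by
    have h1 : (m : ℝ) ≤ (X : ℝ) ^ (k * k + k + 1) := by exact_mod_cast hmX
    have h2 := Real.log_le_log (by exact_mod_cast hm1) h1
    rw [Real.log_pow] at h2
    push_cast at h2
    exact h2
  have hlm0 : 0 ≤ Real.log m := Real.log_nonneg (by exact_mod_cast hm1)
  have hP := prod_bd C hC m (Q ^ (8 * k)) hm1
  have hm4 : (2 * Real.log m) ^ (1 / 4 : ℝ) ≤ 2 * (k * k + k + 1) * u := by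
    have hkk : (1 : ℝ) ≤ 2 * (k * k + k + 1) := by nlinarith
    calc (2 * Real.log m) ^ (1 / 4 : ℝ) ≤ ((2 * (k * k + k + 1)) * L) ^ (1 / 4 : ℝ) := by
          refine Real.rpow_le_rpow (by positivity) ?_ (by norm_num)
          linarith
      _ = (2 * (k * k + k + 1) : ℝ) ^ (1 / 4 : ℝ) * u := by
          rw [Real.mul_rpow (by positivity) hL0.le]
      _ ≤ 2 * (k * k + k + 1) * u := by
          refine mul_le_mul_of_nonneg_right ?_ (by positivity)
          calc (2 * (k * k + k + 1) : ℝ) ^ (1 / 4 : ℝ) ≤ (2 * (k * k + k + 1) : ℝ) ^ (1 : ℝ) :=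
                Real.rpow_le_rpow_of_exponent_le hkk (by norm_num)
            _ = _ := Real.rpow_one _
  have hP2 : ∏ p ∈ Nat.primesLE (Q ^ (8 * k)), (if p ∣ m then 1 + C * (p : ℝ) ^ (-(3 / 4 : ℝ))
        else 1 + C * (p : ℝ) ^ (-(7 / 4 : ℝ))) ≤
      Real.exp (8 * C * (k * k + k + 1) * u + C * Zt) := by
    refine hP.trans (Real.exp_le_exp.mpr ?_)
    have := mul_le_mul_of_nonneg_left hm4 (show (0 : ℝ) ≤ 4 * C by positivity)
    linarith
  have hP0 : 0 ≤ ∏ p ∈ Nat.primesLE (Q ^ (8 * k)), (if p ∣ m then 1 + C * (p : ℝ) ^ (-(3 / 4 : ℝ))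
        else 1 + C * (p : ℝ) ^ (-(7 / 4 : ℝ))) := by
    refine prod_nonneg fun p _ => ?_
    split_ifs <;> positivity
  -- the power of `Y`
  have hY : ((Q ^ (8 * k) : ℕ) : ℝ) ^ (-(1 / (4 * k : ℝ))) = Real.exp (-(2 * Real.log Q)) := by
    rw [Real.rpow_def_of_pos (by positivity)]
    congr 1
    push_cast
    rw [Real.log_pow]
    push_cast
    field_simp
    ring
  have hrho0 : 0 ≤ ∏ i, rho (x i) := prod_nonneg fun i _ => by unfold rho; positivity
  have hmain := hA (Q ^ (8 * k)) B hBY ψ hψ1 hψ2 x h (Nat.one_le_pow _ _ hQ1)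
  rw [hY, ← hm] at hmain
  refine hmain.trans ?_
  have h1 : Real.exp (-(2 * Real.log Q)) * (∏ i, rho (x i)) *
      ∏ p ∈ Nat.primesLE (Q ^ (8 * k)), (if p ∣ m then 1 + C * (p : ℝ) ^ (-(3 / 4 : ℝ))
        else 1 + C * (p : ℝ) ^ (-(7 / 4 : ℝ))) ≤
      Real.exp (-(2 * Real.log Q)) * Real.exp (k * (16 * u)) *
        Real.exp (8 * C * (k * k + k + 1) * u + C * Zt) := by
    refine mul_le_mul (mul_le_mul_of_nonneg_left hrho (Real.exp_pos _).le) hP2 hP0 (by positivity)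
  refine h1.trans ?_
  rw [← Real.exp_add, ← Real.exp_add, Real.rpow_def_of_pos hQ0]
  refine Real.exp_le_exp.mpr ?_
  have hu1 : 1 ≤ u := hu0p.trans huu
  have hCZ : 0 ≤ C * Zt := by positivity
  have h2 : K1 * u + C * Zt ≤ u ^ 2 / 4 := by
    have h3 : u * u0 ≤ u * u := mul_le_mul_of_nonneg_left huu (by linarith)
    have h4 : C * Zt ≤ C * Zt * u := le_mul_of_one_le_right hCZ hu1
    rw [hu0] at h3
    nlinarith
  have h5 : u ^ 2 / 4 ≤ Real.log Q / 2 := by rw [husq]; linarith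
  have h6 : (k : ℝ) * (16 * u) + 8 * C * (k * k + k + 1) * u = K1 * u := by rw [hK1]; ring
  linarith

end Pool.Agent.Lib.LEN
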