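import Mathlib

/-!
# LEN.PrS: sums over the primes beyond `w`

`∑_{w < p ≤ z} log p / p ^ 2 ≤ 4 log 4 / w` and `∑_{w < p ≤ z} log p / p ^ 3 ≤ 4 log 4 / w ^ 2` by dyadic induction
and `∏_{p ≤ n} p ≤ 4 ^ n`.
-/

set_option autoImplicit false

open Finset Filter

namespace Pool.Agent.Lib.LEN

namespace PrSAux

lemma theta_le (n : ℕ) : ∑ p ∈ Nat.primesLE n, Real.log p ≤ n * Real.log 4 := by
  have h1 : ∑ p ∈ Nat.primesLE n, Real.log p = Real.log (∏ p ∈ Nat.primesLE n, (p : ℝ)) := by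
    rw [Real.log_prod]
    intro p hp
    have := (Nat.mem_primesLE.1 hp).2.pos
    positivity
  have h2 : (∏ p ∈ Nat.primesLE n, (p : ℝ)) ≤ (4 : ℝ) ^ n := by
    have h3 := primorial_le_four_pow n
    have h4 : primorial n = ∏ p ∈ Nat.primesLE n, p := by
      unfold primorial
      refine prod_congr ?_ fun _ _ => rfl
      ext p
      rw [mem_filter, mem_range, Nat.mem_primesLE]
      constructor
      · rintro ⟨h, h'⟩
        exact ⟨by omega, h'⟩
      · rintro ⟨h, h'⟩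
        exact ⟨by omega, h'⟩
    rw [h4] at h3
    have h5 : ((∏ p ∈ Nat.primesLE n, p : ℕ) : ℝ) ≤ ((4 ^ n : ℕ) : ℝ) := Nat.cast_le.2 h3
    rw [Nat.cast_prod, Nat.cast_pow] at h5
    exact_mod_cast h5
  rw [h1]
  have hpos : (0 : ℝ) < ∏ p ∈ Nat.primesLE n, (p : ℝ) := by
    refine prod_pos fun p hp => ?_
    have := (Nat.mem_primesLE.1 hp).2.pos
    positivity
  calc Real.log (∏ p ∈ Nat.primesLE n, (p : ℝ)) ≤ Real.log ((4 : ℝ) ^ n) := Real.log_le_log hpos h2
    _ = n * Real.log 4 := by rw [Real.log_pow]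

/-- The primes in `(w, z]`. -/
def pr (w z : ℕ) : Finset ℕ := (Nat.primesLE z).filter (fun p => w < p)

lemma mem_pr {w z p : ℕ} : p ∈ pr w z ↔ (p ≤ z ∧ p.Prime) ∧ w < p := by
  unfold pr
  rw [mem_filter, Nat.mem_primesLE]

lemma step {w z : ℕ} (F : ℕ → ℝ) (hF : ∀ p, 0 ≤ F p) :
    ∑ p ∈ pr w z, F p ≤ ∑ p ∈ pr w (2 * w), F p + ∑ p ∈ pr (2 * w) z, F p := by
  have h : pr w z ⊆ pr w (2 * w) ∪ pr (2 * w) z := by
    intro p hp
    rw [mem_union, mem_pr, mem_pr]
    rw [mem_pr] at hp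
    by_cases h2 : p ≤ 2 * w
    · exact Or.inl ⟨⟨h2, hp.1.2⟩, hp.2⟩
    · exact Or.inr ⟨hp.1, by omega⟩
  refine (sum_le_sum_of_subset_of_nonneg h fun _ _ _ => hF _).trans ?_
  exact (sum_union_inter (s₁ := pr w (2 * w)) (s₂ := pr (2 * w) z) (f := F)) ▸
    le_add_of_nonneg_right (sum_nonneg fun _ _ => hF _)

lemma dyad (w : ℕ) (hw : 1 ≤ w) (s : ℕ) :
    ∑ p ∈ pr w (2 * w), Real.log p / (p : ℝ) ^ s ≤ 2 * Real.log 4 * w / (w : ℝ) ^ s := by
  have hw0 : (0 : ℝ) < w := by exact_mod_cast hw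
  have h1 : ∑ p ∈ pr w (2 * w), Real.log p / (p : ℝ) ^ s ≤
      ∑ p ∈ pr w (2 * w), Real.log p / (w : ℝ) ^ s := by
    refine sum_le_sum fun p hp => ?_
    rw [mem_pr] at hp
    have hp1 : (1 : ℝ) ≤ p := by exact_mod_cast hp.1.2.one_lt.le
    have hwp : (w : ℝ) ≤ p := by exact_mod_cast hp.2.le
    exact div_le_div_of_nonneg_left (Real.log_nonneg hp1) (by positivity)
      (pow_le_pow_left₀ hw0.le hwp s)
  refine h1.trans ?_
  rw [← sum_div]
  have h2 : ∑ p ∈ pr w (2 * w), Real.log p ≤ ∑ p ∈ Nat.primesLE (2 * w), Real.log p := by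
    refine sum_le_sum_of_subset_of_nonneg (filter_subset _ _) fun p hp _ => ?_
    have hp1 : (1 : ℝ) ≤ p := by exact_mod_cast (Nat.mem_primesLE.1 hp).2.one_lt.le
    exact Real.log_nonneg hp1
  have h3 := h2.trans (theta_le (2 * w))
  push_cast at h3
  refine div_le_div_of_nonneg_right ?_ (by positivity)
  linarith

lemma sum_log_sq (k : ℕ) : ∀ w z : ℕ, 1 ≤ w → z ≤ 2 ^ k * w →
    ∑ p ∈ pr w z, Real.log p / (p : ℝ) ^ 2 ≤ 4 * Real.log 4 / w := by
  induction k with
  | zero =>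
    intro w z hw hz
    have : pr w z = ∅ := by
      rw [eq_empty_iff_forall_notMem]
      intro p hp
      rw [mem_pr] at hp
      omega
    rw [this, sum_empty]
    have : 0 ≤ Real.log 4 := Real.log_nonneg (by norm_num)
    positivity
  | succ k ih =>
    intro w z hw hz
    have hw0 : (0 : ℝ) < w := by exact_mod_cast hw
    refine (step _ fun p => ?_).trans ?_
    · rcases Nat.eq_zero_or_pos p with h | h
      · subst h; simp
      · have hp1 : (1 : ℝ) ≤ p := by exact_mod_cast h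
        have := Real.log_nonneg hp1
        positivity
    · have h1 := dyad w hw 2
      have h2 := ih (2 * w) z (by omega) (by rw [pow_succ] at hz; linarith)
      push_cast at h2
      have e1 : 2 * Real.log 4 * w / (w : ℝ) ^ 2 = 2 * Real.log 4 / w := by
        field_simp
      have e2 : 4 * Real.log 4 / (2 * (w : ℝ)) = 2 * Real.log 4 / w := by
        field_simp
        norm_num
      have e3 : 4 * Real.log 4 / (w : ℝ) = 2 * Real.log 4 / w + 2 * Real.log 4 / w := by
        field_simp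
        norm_num
      rw [e1] at h1
      rw [e2] at h2
      rw [e3]
      exact add_le_add h1 h2

lemma sum_log_cube (k : ℕ) : ∀ w z : ℕ, 1 ≤ w → z ≤ 2 ^ k * w →
    ∑ p ∈ pr w z, Real.log p / (p : ℝ) ^ 3 ≤ 4 * Real.log 4 / (w : ℝ) ^ 2 := by
  have hl : 0 ≤ Real.log 4 := Real.log_nonneg (by norm_num)
  induction k with
  | zero =>
    intro w z hw hz
    have : pr w z = ∅ := by
      rw [eq_empty_iff_forall_notMem]
      intro p hp
      rw [mem_pr] at hp
      omega
    rw [this, sum_empty]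
    positivity
  | succ k ih =>
    intro w z hw hz
    have hw0 : (0 : ℝ) < w := by exact_mod_cast hw
    refine (step _ fun p => ?_).trans ?_
    · rcases Nat.eq_zero_or_pos p with h | h
      · subst h; simp
      · have hp1 : (1 : ℝ) ≤ p := by exact_mod_cast h
        have := Real.log_nonneg hp1
        positivity
    · have h1 := dyad w hw 3
      have h2 := ih (2 * w) z (by omega) (by rw [pow_succ] at hz; linarith)
      push_cast at h2
      have e1 : 2 * Real.log 4 * w / (w : ℝ) ^ 3 = 2 * Real.log 4 / (w : ℝ) ^ 2 := by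
        field_simp
      have e2 : 4 * Real.log 4 / (2 * (w : ℝ)) ^ 2 = Real.log 4 / (w : ℝ) ^ 2 := by
        field_simp
        norm_num
      have e3 : 4 * Real.log 4 / (w : ℝ) ^ 2 = 2 * Real.log 4 / (w : ℝ) ^ 2 +
          (Real.log 4 / (w : ℝ) ^ 2 + Real.log 4 / (w : ℝ) ^ 2) := by
        field_simp
        norm_num
      rw [e1] at h1
      rw [e2] at h2
      rw [e3]
      have h3 : 0 ≤ Real.log 4 / (w : ℝ) ^ 2 := by positivity
      linarith

lemma le_two_pow_mul (w z : ℕ) (hw : 1 ≤ w) : z ≤ 2 ^ z * w :=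
  (Nat.lt_two_pow_self).le.trans (Nat.le_mul_of_pos_right _ hw)

lemma sum_le (w z s : ℕ) (hw : 2 ≤ w) :
    ∑ p ∈ pr w z, 1 / (p : ℝ) ^ s ≤ (∑ p ∈ pr w z, Real.log p / (p : ℝ) ^ s) / Real.log w := by
  have hw1 : (1 : ℝ) < w := by exact_mod_cast (show 1 < w by omega)
  have hl : 0 < Real.log w := Real.log_pos hw1
  rw [le_div_iff₀ hl, sum_mul]
  refine sum_le_sum fun p hp => ?_
  rw [mem_pr] at hp
  have hwp : (w : ℝ) ≤ p := by exact_mod_cast hp.2.le
  have h1 : Real.log w ≤ Real.log p := Real.log_le_log (by linarith) hwp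
  have hp0 : (0 : ℝ) < p := by linarith
  rw [one_div, div_eq_inv_mul]
  exact mul_le_mul_of_nonneg_left h1 (by positivity)

end PrSAux

open PrSAux

theorem prS : ∃ C : ℝ, 0 < C ∧ ∀ w z : ℕ, 2 ≤ w →
    ∑ p ∈ (Nat.primesLE z).filter (fun p => w < p), 1 / (p : ℝ) ^ 2 ≤ C / (w * Real.log w) ∧
    ∑ p ∈ (Nat.primesLE z).filter (fun p => w < p), 1 / (p : ℝ) ^ 3 ≤ C / ((w : ℝ) ^ 2 * Real.log w) := by
  refine ⟨4 * Real.log 4, by have := Real.log_pos (show (1 : ℝ) < 4 by norm_num); positivity, ?_⟩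
  intro w z hw
  have hw1 : (1 : ℝ) < w := by exact_mod_cast (show 1 < w by omega)
  have hl : 0 < Real.log w := Real.log_pos hw1
  constructor
  · refine (sum_le w z 2 hw).trans ?_
    have h := sum_log_sq z w z (by omega) (le_two_pow_mul w z (by omega))
    calc (∑ p ∈ pr w z, Real.log p / (p : ℝ) ^ 2) / Real.log w ≤ (4 * Real.log 4 / w) / Real.log w :=
          div_le_div_of_nonneg_right h hl.le
      _ = 4 * Real.log 4 / (w * Real.log w) := by rw [div_div]
  · refine (sum_le w z 3 hw).trans ?_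
    have h := sum_log_cube z w z (by omega) (le_two_pow_mul w z (by omega))
    calc (∑ p ∈ pr w z, Real.log p / (p : ℝ) ^ 3) / Real.log w ≤
          (4 * Real.log 4 / (w : ℝ) ^ 2) / Real.log w := div_le_div_of_nonneg_right h hl.le
      _ = 4 * Real.log 4 / ((w : ℝ) ^ 2 * Real.log w) := by rw [div_div]

end Pool.Agent.Lib.LEN
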