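import Pool.Agent.Lib.LEN.Cls0
import Pool.Agent.Lib.LEN.PrS

/-!
# LEN.SMom: moments of the singular series of a pair over the good integers

`ss w d ^ R = ∑_{S} ∏_{p ∈ S} g p` over the sets `S` of primes `> w` dividing `d`. For a fixed `n` and `t = ∏ S` the number
of the good `n'` with `t ∣ n - n'` is at most `nA (N / P) (1 + P / √N) / t + 2 N / √√N / √t`.
-/

set_option autoImplicit false

open Finset Filter

namespace Pool.Agent.Lib.LEN

open Pool.Agent.HLB Pool.Agent.HLT Pool.Agent.HLR Pool.Agent.Lib.GMV PrSAux Cls0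

namespace SMomAux

/-- The local weight. -/
noncomputable def gw (R p : ℕ) : ℝ := ((1 - 1 / (p : ℝ))⁻¹) ^ R - 1

lemma inv_le_exp {p : ℕ} (hp : 2 ≤ p) : (1 - 1 / (p : ℝ))⁻¹ ≤ Real.exp (1 / ((p : ℝ) - 1)) := by
  have h2 : (2 : ℝ) ≤ p := by exact_mod_cast hp
  have h3 : (1 - 1 / (p : ℝ))⁻¹ = 1 + 1 / ((p : ℝ) - 1) := by
    have h4 : (p : ℝ) - 1 ≠ 0 := by linarith
    have h5 : (p : ℝ) ≠ 0 := by linarith
    field_simp
    ring
  rw [h3, add_comm]
  exact Real.add_one_le_exp _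

lemma one_le_inv {p : ℕ} (hp : 2 ≤ p) : 1 ≤ (1 - 1 / (p : ℝ))⁻¹ := by
  have h2 : (2 : ℝ) ≤ p := by exact_mod_cast hp
  have h3 : 0 < 1 - 1 / (p : ℝ) := by
    have : 1 / (p : ℝ) ≤ 1 / 2 := one_div_le_one_div_of_le (by norm_num) h2
    linarith
  refine (one_le_inv₀ h3).2 ?_
  have : 0 ≤ 1 / (p : ℝ) := by positivity
  linarith

lemma gw_nonneg {R p : ℕ} (hp : 2 ≤ p) : 0 ≤ gw R p := by
  unfold gw
  have := one_le_pow₀ (one_le_inv hp) (n := R)
  linarith

lemma exp_sub_one_le (x K : ℝ) (hx : 0 ≤ x) (hK : x ≤ K) : Real.exp x - 1 ≤ x * Real.exp K := by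
  have h1 : Real.exp x - 1 ≤ x * Real.exp x := by
    have h2 := Real.add_one_le_exp (-x)
    have h3 : Real.exp (-x) * Real.exp x = 1 := by rw [← Real.exp_add]; simp
    have h4 := Real.exp_pos x
    nlinarith
  exact h1.trans (mul_le_mul_of_nonneg_left (Real.exp_le_exp.2 hK) hx)

lemma gw_le {K : ℝ} {R w p : ℕ} (hR : (R : ℝ) ≤ K * w) (hw : 1 ≤ w) (hp : w < p) :
    gw R p ≤ 2 * Real.exp K * R / p := by
  have hp2 : 2 ≤ p := by omega
  have hpr : (2 : ℝ) ≤ p := by exact_mod_cast hp2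
  have hw0 : (1 : ℝ) ≤ w := by exact_mod_cast hw
  have hwp : (w : ℝ) ≤ p - 1 := by
    have : ((w + 1 : ℕ) : ℝ) ≤ p := by exact_mod_cast hp
    push_cast at this
    linarith
  have hp1 : (0 : ℝ) < (p : ℝ) - 1 := by linarith
  unfold gw
  have h1 : ((1 - 1 / (p : ℝ))⁻¹) ^ R ≤ Real.exp (R / ((p : ℝ) - 1)) := by
    refine (pow_le_pow_left₀ (by linarith [one_le_inv hp2]) (inv_le_exp hp2) R).trans ?_
    rw [← Real.exp_nat_mul]
    refine le_of_eq ?_
    congr 1
    ring
  have hR0 : (0 : ℝ) ≤ R := Nat.cast_nonneg R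
  have hx : (R : ℝ) / ((p : ℝ) - 1) ≤ K := by
    rw [div_le_iff₀ hp1]
    have hK : 0 ≤ K := by
      by_contra hK
      have : K * w < 0 := mul_neg_of_neg_of_pos (not_le.1 hK) (by linarith)
      linarith
    exact hR.trans (mul_le_mul_of_nonneg_left hwp hK)
  have h2 := exp_sub_one_le (R / ((p : ℝ) - 1)) K (by positivity) hx
  have h3 : (R : ℝ) / ((p : ℝ) - 1) ≤ 2 * R / p := by
    rw [div_le_div_iff₀ hp1 (by linarith)]
    nlinarith
  calc ((1 - 1 / (p : ℝ))⁻¹) ^ R - 1 ≤ Real.exp (R / ((p : ℝ) - 1)) - 1 := by linarith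
    _ ≤ R / ((p : ℝ) - 1) * Real.exp K := h2
    _ ≤ 2 * R / p * Real.exp K := mul_le_mul_of_nonneg_right h3 (Real.exp_pos K).le
    _ = 2 * Real.exp K * R / p := by ring

lemma ss_pow (w d R : ℕ) : ss w d ^ R =
    ∑ S ∈ (d.primeFactors.filter (fun p => w < p)).powerset, ∏ p ∈ S, gw R p := by
  unfold ss
  rw [← prod_pow, ← prod_one_add]
  refine prod_congr rfl fun p _ => ?_
  unfold gw
  ring

/-- Product of a set of primes. -/
def TS (S : Finset ℕ) : ℕ := ∏ p ∈ S, p

lemma TS_dvd_iff {w z d : ℕ} (hd : d ≠ 0) {S : Finset ℕ} (hS : S ⊆ pr w z) :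
    TS S ∣ d ↔ S ⊆ d.primeFactors.filter (fun p => w < p) := by
  have hSp : ∀ p ∈ S, p.Prime := fun p hp => (mem_pr.1 (hS hp)).1.2
  constructor
  · intro h p hp
    rw [mem_filter, Nat.mem_primeFactors]
    exact ⟨⟨hSp p hp, (dvd_prod_of_mem (fun p => p) hp).trans h, hd⟩, (mem_pr.1 (hS hp)).2⟩
  · intro h
    unfold TS
    refine prod_primes_dvd d (fun p hp => (hSp p hp).prime) fun p hp => ?_
    exact (Nat.mem_primeFactors.1 (mem_filter.1 (h hp)).1).2.1

lemma ss_pow' {w d N : ℕ} (R : ℕ) (hd : d ≠ 0) (hdN : d ≤ N) : ss w d ^ R =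
    ∑ S ∈ (pr w N).powerset, if TS S ∣ d then ∏ p ∈ S, gw R p else 0 := by
  rw [ss_pow, ← sum_filter]
  refine sum_congr ?_ fun _ _ => rfl
  ext S
  rw [mem_powerset, mem_filter, mem_powerset]
  constructor
  · intro h
    have h1 : S ⊆ pr w N := by
      intro p hp
      have h2 := h hp
      rw [mem_filter, Nat.mem_primeFactors] at h2
      rw [mem_pr]
      exact ⟨⟨(Nat.le_of_dvd (Nat.pos_of_ne_zero hd) h2.1.2.1).trans hdN, h2.1.1⟩, h2.2⟩
    exact ⟨h1, (TS_dvd_iff hd h1).2 h⟩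
  · rintro ⟨h1, h2⟩
    exact (TS_dvd_iff hd h1).1 h2

lemma dvd_dist_iff (t n m : ℕ) : t ∣ Nat.dist n m ↔ m ≡ n [MOD t] := by
  rcases le_total n m with h | h
  · rw [Nat.dist_eq_sub_of_le h, ← Nat.modEq_iff_dvd' h]
    exact Nat.ModEq.comm
  · rw [Nat.dist_eq_sub_of_le_right h, ← Nat.modEq_iff_dvd' h]

lemma TS_pos {w z : ℕ} {S : Finset ℕ} (hS : S ⊆ pr w z) : 1 ≤ TS S := by
  unfold TS
  exact Nat.succ_le_of_lt (prod_pos fun p hp => (mem_pr.1 (hS hp)).1.2.pos)

lemma TS_coprime {w z : ℕ} {S : Finset ℕ} (hS : S ⊆ pr w z) : Nat.Coprime (PP w) (TS S) := by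
  unfold TS
  refine Nat.Coprime.prod_right fun p hp => ?_
  have := mem_pr.1 (hS hp)
  exact (prime_coprime_PP this.1.2 this.2).symm

open scoped Classical in
/-- The count for one set of primes. -/
lemma count_le {r w N u : ℕ} (a : Fin r → ℕ) (hN : 1 ≤ N) {S : Finset ℕ} (hS : S ⊆ pr w N) (n : ℕ)
    (hn : n ∈ Ioc u (u + N)) :
    (((((Ioc u (u + N)).filter (Good w a)).erase n).filter (fun n' => TS S ∣ Nat.dist n n')).card : ℝ) ≤
      nA w a * (N / PP w) * (1 + PP w / Real.sqrt N) * (1 / (TS S : ℝ)) +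
        2 * N / Real.sqrt (Real.sqrt N) * (1 / Real.sqrt (TS S)) := by
  set t := TS S with ht
  have ht1 : 1 ≤ t := TS_pos hS
  have htr : (1 : ℝ) ≤ t := by exact_mod_cast ht1
  have hNr : (1 : ℝ) ≤ N := by exact_mod_cast hN
  have hsN : 0 < Real.sqrt N := Real.sqrt_pos.2 (by linarith)
  have hP : (0 : ℝ) < PP w := by exact_mod_cast PP_pos w
  have hnn : (0 : ℝ) ≤ nA w a := Nat.cast_nonneg _
  have hA0 : 0 ≤ nA w a * ((N : ℝ) / PP w) * (1 + PP w / Real.sqrt N) * (1 / (t : ℝ)) := by positivity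
  have hB0 : 0 ≤ 2 * (N : ℝ) / Real.sqrt (Real.sqrt N) * (1 / Real.sqrt t) := by positivity
  by_cases hc : (t : ℝ) ≤ Real.sqrt N
  · have hsub : (((Ioc u (u + N)).filter (Good w a)).erase n).filter (fun n' => t ∣ Nat.dist n n') ⊆
        (Ioc u (u + N)).filter (fun n' => Good w a n' ∧ n' ≡ n [MOD t]) := by
      intro n' hn'
      rw [mem_filter, mem_erase, mem_filter, dvd_dist_iff] at hn'
      rw [mem_filter]
      exact ⟨hn'.1.2.1, hn'.1.2.2, hn'.2⟩
    have h1 : (((((Ioc u (u + N)).filter (Good w a)).erase n).filter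
        (fun n' => t ∣ Nat.dist n n')).card : ℝ) ≤
        (((Ioc u (u + N)).filter (fun n' => Good w a n' ∧ n' ≡ n [MOD t])).card : ℝ) := by
      exact_mod_cast card_le_card hsub
    have h2 := card_good_class w a t ht1 (TS_coprime hS) n u N
    have h3 : (nA w a : ℝ) * (N / (PP w * t) + 1) ≤
        nA w a * ((N : ℝ) / PP w) * (1 + PP w / Real.sqrt N) * (1 / (t : ℝ)) := by
      have e : (nA w a : ℝ) * ((N : ℝ) / PP w) * (1 + PP w / Real.sqrt N) * (1 / (t : ℝ)) =
          nA w a * (N / (PP w * t) + N / Real.sqrt N / t) := by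
        have : Real.sqrt N ≠ 0 := hsN.ne'
        field_simp
      rw [e]
      refine mul_le_mul_of_nonneg_left ?_ hnn
      have h4 : (1 : ℝ) ≤ N / Real.sqrt N / t := by
        rw [le_div_iff₀ (by linarith), one_mul, Real.div_sqrt]
        exact hc
      linarith
    linarith
  · have hc' := not_le.1 hc
    have hsub : (((Ioc u (u + N)).filter (Good w a)).erase n).filter (fun n' => t ∣ Nat.dist n n') ⊆
        (Ioc u (u + N)).filter (fun n' => n' ≡ n [MOD t]) := by
      intro n' hn'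
      rw [mem_filter, mem_erase, mem_filter, dvd_dist_iff] at hn'
      rw [mem_filter]
      exact ⟨hn'.1.2.1, hn'.2⟩
    have h5 : (((((Ioc u (u + N)).filter (Good w a)).erase n).filter
        (fun n' => t ∣ Nat.dist n n')).card : ℝ) ≤ 2 * N / t := by
      by_cases htN : t ≤ N
      · have h1 : (((((Ioc u (u + N)).filter (Good w a)).erase n).filter
            (fun n' => t ∣ Nat.dist n n')).card : ℝ) ≤
            (((Ioc u (u + N)).filter (fun n' => n' ≡ n [MOD t])).card : ℝ) := by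
          exact_mod_cast card_le_card hsub
        have h2 := (abs_le.1 (card_class t ht1 n u N)).2
        have h3 : (1 : ℝ) ≤ N / t := by
          rw [le_div_iff₀ (by linarith), one_mul]
          exact_mod_cast htN
        have e : 2 * (N : ℝ) / t = N / t + N / t := by ring
        rw [e]
        linarith
      · have hempty : (((Ioc u (u + N)).filter (Good w a)).erase n).filter
            (fun n' => t ∣ Nat.dist n n') = ∅ := by
          rw [eq_empty_iff_forall_notMem]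
          intro n' hn'
          rw [mem_filter, mem_erase, mem_filter, mem_Ioc] at hn'
          rw [mem_Ioc] at hn
          have hd0 : 0 < Nat.dist n n' := Nat.dist_pos_of_ne (Ne.symm hn'.1.1)
          have h6 := Nat.le_of_dvd hd0 hn'.2
          have h7 : Nat.dist n n' ≤ N := by
            unfold Nat.dist
            omega
          omega
        rw [hempty, card_empty, Nat.cast_zero]
        positivity
    have h6 : 2 * (N : ℝ) / t ≤ 2 * N / Real.sqrt (Real.sqrt N) * (1 / Real.sqrt t) := by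
      have hst : 0 < Real.sqrt t := Real.sqrt_pos.2 (by linarith)
      have hss : 0 < Real.sqrt (Real.sqrt N) := Real.sqrt_pos.2 hsN
      have h7 : Real.sqrt (Real.sqrt N) ≤ Real.sqrt t := Real.sqrt_le_sqrt hc'.le
      have h8 : Real.sqrt t * Real.sqrt t = t := Real.mul_self_sqrt (by linarith)
      rw [div_mul_div_comm, mul_one]
      refine div_le_div_of_nonneg_left (by positivity) (by positivity) ?_
      calc Real.sqrt (Real.sqrt N) * Real.sqrt t ≤ Real.sqrt t * Real.sqrt t :=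
            mul_le_mul_of_nonneg_right h7 hst.le
        _ = t := h8
    linarith

lemma sqrt_prod (S : Finset ℕ) : Real.sqrt (TS S) = ∏ p ∈ S, Real.sqrt p := by
  classical
  unfold TS
  induction S using Finset.induction_on with
  | empty => simp
  | insert a s ha ih =>
    rw [prod_insert ha, prod_insert ha, Nat.cast_mul, Real.sqrt_mul (Nat.cast_nonneg _), ih]

lemma sum_three_half (w z : ℕ) (hw : 1 ≤ w) (hz : w ≤ z) :
    ∑ n ∈ Ioc w z, 1 / ((n : ℝ) * Real.sqrt n) ≤ 2 / Real.sqrt w - 2 / Real.sqrt z := by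
  induction z, hz using Nat.le_induction with
  | base => simp
  | succ z hz ih =>
    rw [Finset.sum_Ioc_succ_top hz]
    have hz0 : (1 : ℝ) ≤ z := by exact_mod_cast hw.trans hz
    set A := Real.sqrt z with hA
    set B := Real.sqrt ((z + 1 : ℕ) : ℝ) with hB
    have hA2 : A * A = z := Real.mul_self_sqrt (by linarith)
    have hB2 : B * B = z + 1 := by
      rw [hB, Real.mul_self_sqrt (Nat.cast_nonneg _)]
      push_cast
      ring
    have hA0 : 0 < A := Real.sqrt_pos.2 (by linarith)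
    have hB0 : 0 < B := Real.sqrt_pos.2 (by push_cast; linarith)
    have hAB : A ≤ B := Real.sqrt_le_sqrt (by push_cast; linarith)
    have h1 : 1 / (((z + 1 : ℕ) : ℝ) * B) ≤ 2 / A - 2 / B := by
      have e1 : 2 / A - 2 / B = 2 * (B - A) / (A * B) := by
        field_simp
      have e2 : ((z + 1 : ℕ) : ℝ) = B * B := by rw [hB2]; push_cast; ring
      rw [e1, e2, div_le_div_iff₀ (by positivity) (by positivity)]
      have h2 : (B - A) * (B + A) = 1 := by nlinarith
      have h3 : 1 ≤ 2 * (B - A) * B := by nlinarith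
      have h4 : A * B ≤ B * B := mul_le_mul_of_nonneg_right hAB hB0.le
      nlinarith [mul_pos hB0 hB0, mul_pos hA0 hB0]
    linarith

/-- The sum over the sets of primes. -/
lemma sum_sets (w z R : ℕ) (f : ℕ → ℝ) (hf : ∀ p ∈ pr w z, 0 ≤ f p) (B : ℝ)
    (hB : ∑ p ∈ pr w z, gw R p * f p ≤ B) :
    ∑ S ∈ (pr w z).powerset, (∏ p ∈ S, gw R p) * ∏ p ∈ S, f p ≤ Real.exp B := by
  have h1 : ∑ S ∈ (pr w z).powerset, (∏ p ∈ S, gw R p) * ∏ p ∈ S, f p =
      ∏ p ∈ pr w z, (1 + gw R p * f p) := by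
    rw [prod_one_add]
    refine sum_congr rfl fun S _ => ?_
    rw [prod_mul_distrib]
  rw [h1]
  have hg : ∀ p ∈ pr w z, 0 ≤ gw R p * f p := fun p hp =>
    mul_nonneg (gw_nonneg (mem_pr.1 hp).1.2.two_le) (hf p hp)
  calc ∏ p ∈ pr w z, (1 + gw R p * f p) ≤ ∏ p ∈ pr w z, Real.exp (gw R p * f p) := by
        refine prod_le_prod (fun p hp => by linarith [hg p hp]) fun p _ => ?_
        rw [add_comm]
        exact Real.add_one_le_exp _
    _ = Real.exp (∑ p ∈ pr w z, gw R p * f p) := by rw [Real.exp_sum]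
    _ ≤ Real.exp B := Real.exp_le_exp.2 hB

open scoped Classical in
/-- The bound before the limit. -/
lemma total {r w N u R : ℕ} (a : Fin r → ℕ) (hN : 1 ≤ N) (hA : 1 ≤ nA w a) (B1 B2 : ℝ)
    (hB1 : ∑ p ∈ pr w N, gw R p * (1 / (p : ℝ)) ≤ B1)
    (hB2 : ∑ p ∈ pr w N, gw R p * (1 / Real.sqrt p) ≤ B2) :
    ∑ n ∈ (Ioc u (u + N)).filter (Good w a), ∑ n' ∈ ((Ioc u (u + N)).filter (Good w a)).erase n,
      ss w (Nat.dist n n') ^ R ≤
      ((N : ℝ) * nA w a / PP w) ^ 2 * ((1 + PP w / N) * ((1 + PP w / Real.sqrt N) * Real.exp B1 +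
        2 * PP w / Real.sqrt (Real.sqrt N) * Real.exp B2)) := by
  set G : Finset ℕ := (Ioc u (u + N)).filter (Good w a) with hG
  set α : ℝ := nA w a * (N / PP w) * (1 + PP w / Real.sqrt N) with hα
  set β : ℝ := 2 * N / Real.sqrt (Real.sqrt N) with hβ
  have hNr : (1 : ℝ) ≤ N := by exact_mod_cast hN
  have hP : (0 : ℝ) < PP w := by exact_mod_cast PP_pos w
  have hAr : (1 : ℝ) ≤ nA w a := by exact_mod_cast hA
  have hsN : 0 < Real.sqrt N := Real.sqrt_pos.2 (by linarith)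
  have hssN : 0 < Real.sqrt (Real.sqrt N) := Real.sqrt_pos.2 hsN
  have hα0 : 0 ≤ α := by positivity
  have hβ0 : 0 ≤ β := by positivity
  have hrow : ∀ n ∈ G, ∑ n' ∈ G.erase n, ss w (Nat.dist n n') ^ R ≤
      α * Real.exp B1 + β * Real.exp B2 := by
    intro n hn
    have hnI : n ∈ Ioc u (u + N) := (mem_filter.1 hn).1
    have h1 : ∑ n' ∈ G.erase n, ss w (Nat.dist n n') ^ R =
        ∑ S ∈ (pr w N).powerset, (∏ p ∈ S, gw R p) *
          (((G.erase n).filter (fun n' => TS S ∣ Nat.dist n n')).card : ℝ) := by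
      have h2 : ∀ n' ∈ G.erase n, ss w (Nat.dist n n') ^ R =
          ∑ S ∈ (pr w N).powerset, if TS S ∣ Nat.dist n n' then ∏ p ∈ S, gw R p else 0 := by
        intro n' hn'
        rw [mem_erase] at hn'
        have hn'I : n' ∈ Ioc u (u + N) := (mem_filter.1 hn'.2).1
        rw [mem_Ioc] at hnI hn'I
        refine ss_pow' R (Nat.dist_pos_of_ne (Ne.symm hn'.1)).ne' ?_
        unfold Nat.dist
        omega
      rw [sum_congr rfl h2, sum_comm]
      refine sum_congr rfl fun S _ => ?_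
      rw [← sum_filter, sum_const, nsmul_eq_mul]
      ring
    rw [h1]
    have h3 : ∀ S ∈ (pr w N).powerset, (∏ p ∈ S, gw R p) *
        (((G.erase n).filter (fun n' => TS S ∣ Nat.dist n n')).card : ℝ) ≤
        α * ((∏ p ∈ S, gw R p) * ∏ p ∈ S, (1 / (p : ℝ))) +
        β * ((∏ p ∈ S, gw R p) * ∏ p ∈ S, (1 / Real.sqrt p)) := by
      intro S hS
      have hS' := mem_powerset.1 hS
      have hg : 0 ≤ ∏ p ∈ S, gw R p :=
        prod_nonneg fun p hp => gw_nonneg (mem_pr.1 (hS' hp)).1.2.two_le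
      have h4 := count_le a hN hS' n hnI
      have e1 : 1 / (TS S : ℝ) = ∏ p ∈ S, (1 / (p : ℝ)) := by
        unfold TS
        rw [Nat.cast_prod, prod_div_distrib, prod_const_one]
      have e2 : 1 / Real.sqrt (TS S) = ∏ p ∈ S, (1 / Real.sqrt p) := by
        rw [sqrt_prod, prod_div_distrib, prod_const_one]
      rw [e1, e2] at h4
      calc (∏ p ∈ S, gw R p) * (((G.erase n).filter (fun n' => TS S ∣ Nat.dist n n')).card : ℝ)
          ≤ (∏ p ∈ S, gw R p) * (α * (∏ p ∈ S, (1 / (p : ℝ))) + β * ∏ p ∈ S, (1 / Real.sqrt p)) :=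
            mul_le_mul_of_nonneg_left h4 hg
        _ = _ := by ring
    refine (sum_le_sum h3).trans ?_
    rw [sum_add_distrib, ← mul_sum, ← mul_sum]
    have h5 := sum_sets w N R (fun p => 1 / (p : ℝ)) (fun p _ => by positivity) B1 hB1
    have h6 := sum_sets w N R (fun p => 1 / Real.sqrt p) (fun p _ => by positivity) B2 hB2
    exact add_le_add (mul_le_mul_of_nonneg_left h5 hα0) (mul_le_mul_of_nonneg_left h6 hβ0)
  refine (sum_le_sum hrow).trans ?_
  rw [sum_const, nsmul_eq_mul]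
  have hcard := card_good w a u N
  rw [← hG] at hcard
  have hE1 := Real.exp_pos B1
  have hE2 := Real.exp_pos B2
  have h7 : 0 ≤ α * Real.exp B1 + β * Real.exp B2 := by positivity
  refine (mul_le_mul_of_nonneg_right hcard h7).trans ?_
  have e3 : (nA w a : ℝ) * (N / PP w + 1) = ((N : ℝ) * nA w a / PP w) * (1 + PP w / N) := by
    have : (N : ℝ) ≠ 0 := by linarith
    field_simp
  have h8 : α * Real.exp B1 + β * Real.exp B2 ≤ ((N : ℝ) * nA w a / PP w) *
      ((1 + PP w / Real.sqrt N) * Real.exp B1 + 2 * PP w / Real.sqrt (Real.sqrt N) * Real.exp B2) := by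
    rw [mul_add]
    refine add_le_add (le_of_eq ?_) ?_
    · rw [hα]
      ring
    · have h9 : β ≤ ((N : ℝ) * nA w a / PP w) * (2 * PP w / Real.sqrt (Real.sqrt N)) := by
        have e4 : ((N : ℝ) * nA w a / PP w) * (2 * PP w / Real.sqrt (Real.sqrt N)) = β * nA w a := by
          rw [hβ]
          field_simp
        rw [e4]
        exact le_mul_of_one_le_right hβ0 hAr
      calc β * Real.exp B2 ≤
            (((N : ℝ) * nA w a / PP w) * (2 * PP w / Real.sqrt (Real.sqrt N))) * Real.exp B2 :=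
            mul_le_mul_of_nonneg_right h9 hE2.le
        _ = _ := by ring
  rw [e3]
  calc ((N : ℝ) * nA w a / PP w) * (1 + PP w / N) * (α * Real.exp B1 + β * Real.exp B2)
      ≤ ((N : ℝ) * nA w a / PP w) * (1 + PP w / N) * (((N : ℝ) * nA w a / PP w) *
      ((1 + PP w / Real.sqrt N) * Real.exp B1 + 2 * PP w / Real.sqrt (Real.sqrt N) * Real.exp B2)) :=
        mul_le_mul_of_nonneg_left h8 (by positivity)
    _ = _ := by ring

lemma bound_one {C K : ℝ} (hC : 0 < C) (hK : 0 < K)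
    (hpr : ∀ w z : ℕ, 2 ≤ w → ∑ p ∈ (Nat.primesLE z).filter (fun p => w < p), 1 / (p : ℝ) ^ 2 ≤
      C / (w * Real.log w)) (w z R : ℕ) (hw : 2 ≤ w) (hR : (R : ℝ) ≤ K * w) :
    ∑ p ∈ pr w z, gw R p * (1 / (p : ℝ)) ≤ 2 * Real.exp K * K * C / Real.log w := by
  have hw1 : (1 : ℝ) < w := by exact_mod_cast (show 1 < w by omega)
  have hl : 0 < Real.log w := Real.log_pos hw1
  have h1 : ∑ p ∈ pr w z, gw R p * (1 / (p : ℝ)) ≤
      ∑ p ∈ pr w z, 2 * Real.exp K * R * (1 / (p : ℝ) ^ 2) := by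
    refine sum_le_sum fun p hp => ?_
    have h2 := gw_le hR (by omega) (mem_pr.1 hp).2
    calc gw R p * (1 / (p : ℝ)) ≤ 2 * Real.exp K * R / p * (1 / (p : ℝ)) :=
          mul_le_mul_of_nonneg_right h2 (by positivity)
      _ = 2 * Real.exp K * R * (1 / (p : ℝ) ^ 2) := by ring
  refine h1.trans ?_
  rw [← mul_sum]
  have h3 := hpr w z hw
  calc 2 * Real.exp K * R * ∑ p ∈ pr w z, 1 / (p : ℝ) ^ 2 ≤
        2 * Real.exp K * (K * w) * (C / (w * Real.log w)) := by
        refine mul_le_mul ?_ h3 (sum_nonneg fun _ _ => by positivity) (by positivity)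
        exact mul_le_mul_of_nonneg_left hR (by positivity)
    _ = 2 * Real.exp K * K * C / Real.log w := by
        field_simp

lemma bound_two {K : ℝ} (hK : 0 < K) (w z R : ℕ) (hw : 1 ≤ w) (hR : (R : ℝ) ≤ K * w) :
    ∑ p ∈ pr w z, gw R p * (1 / Real.sqrt p) ≤ 4 * Real.exp K * K * Real.sqrt w := by
  have hw1 : (1 : ℝ) ≤ w := by exact_mod_cast hw
  have hs : 0 < Real.sqrt w := Real.sqrt_pos.2 (by linarith)
  have h1 : ∑ p ∈ pr w z, gw R p * (1 / Real.sqrt p) ≤
      ∑ p ∈ pr w z, 2 * Real.exp K * R * (1 / ((p : ℝ) * Real.sqrt p)) := by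
    refine sum_le_sum fun p hp => ?_
    have h2 := gw_le hR (by omega) (mem_pr.1 hp).2
    calc gw R p * (1 / Real.sqrt p) ≤ 2 * Real.exp K * R / p * (1 / Real.sqrt p) :=
          mul_le_mul_of_nonneg_right h2 (by positivity)
      _ = 2 * Real.exp K * R * (1 / ((p : ℝ) * Real.sqrt p)) := by
          rw [div_mul_div_comm, mul_one, mul_one_div]
  refine h1.trans ?_
  rw [← mul_sum]
  have h3 : ∑ p ∈ pr w z, 1 / ((p : ℝ) * Real.sqrt p) ≤ 2 / Real.sqrt w := by
    by_cases hwz : w ≤ z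
    · have h4 : ∑ p ∈ pr w z, 1 / ((p : ℝ) * Real.sqrt p) ≤
          ∑ n ∈ Ioc w z, 1 / ((n : ℝ) * Real.sqrt n) := by
        refine sum_le_sum_of_subset_of_nonneg ?_ fun _ _ _ => by positivity
        intro p hp
        rw [mem_pr] at hp
        rw [mem_Ioc]
        exact ⟨hp.2, hp.1.1⟩
      have h5 := sum_three_half w z hw hwz
      have h6 : 0 ≤ 2 / Real.sqrt z := by positivity
      linarith
    · have : pr w z = ∅ := by
        rw [eq_empty_iff_forall_notMem]
        intro p hp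
        rw [mem_pr] at hp
        omega
      rw [this, sum_empty]
      positivity
  calc 2 * Real.exp K * R * ∑ p ∈ pr w z, 1 / ((p : ℝ) * Real.sqrt p) ≤
        2 * Real.exp K * (K * w) * (2 / Real.sqrt w) := by
        refine mul_le_mul ?_ h3 (sum_nonneg fun _ _ => by positivity) (by positivity)
        exact mul_le_mul_of_nonneg_left hR (by positivity)
    _ = 4 * Real.exp K * K * (w / Real.sqrt w) := by ring
    _ = 4 * Real.exp K * K * Real.sqrt w := by rw [Real.div_sqrt]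

lemma tendsto_small (c : ℝ) :
    Tendsto (fun w : ℕ => (1 / 4 : ℝ) ^ w * Real.exp (c * Real.sqrt w)) atTop (nhds 0) := by
  have h1 : ∀ᶠ w : ℕ in atTop, (1 / 4 : ℝ) ^ w * Real.exp (c * Real.sqrt w) ≤ Real.exp (-(w : ℝ)) := by
    have h2 : ∀ᶠ w : ℕ in atTop, |c| / (Real.log 4 - 1) ≤ Real.sqrt w :=
      (Real.tendsto_sqrt_atTop.comp tendsto_natCast_atTop_atTop).eventually_ge_atTop _
    filter_upwards [h2] with w hw
    have h4 : (1 : ℝ) < Real.log 4 := by
      have : Real.log 4 = 2 * Real.log 2 := by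
        rw [show (4 : ℝ) = 2 ^ 2 by norm_num, Real.log_pow]
        norm_num
      rw [this]
      have := Real.log_two_gt_d9
      linarith
    have e1 : (1 / 4 : ℝ) ^ w = Real.exp (-(w * Real.log 4)) := by
      rw [Real.exp_neg, ← Real.log_pow, Real.exp_log (by positivity), one_div, inv_pow]
    rw [e1, ← Real.exp_add]
    refine Real.exp_le_exp.2 ?_
    rw [div_le_iff₀ (by linarith)] at hw
    have hs : 0 ≤ Real.sqrt w := Real.sqrt_nonneg _
    have h5 : Real.sqrt w * Real.sqrt w = w := Real.mul_self_sqrt (Nat.cast_nonneg _)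
    have h6 : c * Real.sqrt w ≤ |c| * Real.sqrt w := mul_le_mul_of_nonneg_right (le_abs_self c) hs
    have h7 : |c| * Real.sqrt w ≤ (Real.sqrt w * (Real.log 4 - 1)) * Real.sqrt w :=
      mul_le_mul_of_nonneg_right hw hs
    nlinarith
  have h3 : Tendsto (fun w : ℕ => Real.exp (-(w : ℝ))) atTop (nhds 0) :=
    Real.tendsto_exp_neg_atTop_nhds_zero.comp tendsto_natCast_atTop_atTop
  exact squeeze_zero' (Eventually.of_forall fun w => by positivity) h1 h3

lemma tendsto_main (b c : ℝ) :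
    Tendsto (fun w : ℕ => (1 + (1 / 4 : ℝ) ^ w) * ((1 + (1 / 4 : ℝ) ^ w) * Real.exp (b / Real.log w) +
      2 * ((1 / 4 : ℝ) ^ w * Real.exp (c * Real.sqrt w)))) atTop (nhds 1) := by
  have h1 : Tendsto (fun w : ℕ => (1 / 4 : ℝ) ^ w) atTop (nhds 0) :=
    tendsto_pow_atTop_nhds_zero_of_lt_one (by norm_num) (by norm_num)
  have h2 : Tendsto (fun w : ℕ => b / Real.log w) atTop (nhds 0) :=
    Tendsto.div_atTop tendsto_const_nhds (Real.tendsto_log_atTop.comp tendsto_natCast_atTop_atTop)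
  have h3 : Tendsto (fun w : ℕ => Real.exp (b / Real.log w)) atTop (nhds (Real.exp 0)) :=
    (Real.continuous_exp.tendsto 0).comp h2
  have h4 := (tendsto_const_nhds (x := (1 : ℝ))).add h1
  have h5 := (h4.mul h3).add ((tendsto_small c).const_mul 2)
  have h6 := h4.mul h5
  simpa using h6

end SMomAux

open SMomAux

open scoped Classical in
/-- Moments of `ss` over the good integers of a window. -/
theorem smom_win (K η : ℝ) (hK : 0 < K) (hη : 0 < η) : ∃ w0 : ℕ, ∀ w : ℕ, w0 ≤ w → ∀ N r R u : ℕ,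
    (R : ℝ) ≤ K * w → 4 ^ (100 * w) ≤ N → ∀ a : Fin r → ℕ, 1 ≤ nA w a →
    ∑ n ∈ (Ioc u (u + N)).filter (Good w a), ∑ n' ∈ ((Ioc u (u + N)).filter (Good w a)).erase n,
      ss w (Nat.dist n n') ^ R ≤ (1 + η) * ((N : ℝ) * nA w a / PP w) ^ 2 := by
  obtain ⟨C, hC, hpr⟩ := prS
  set b : ℝ := 2 * Real.exp K * K * C with hb
  set c : ℝ := 4 * Real.exp K * K with hc
  have h1 := (tendsto_main b c).eventually (gt_mem_nhds (show (1 : ℝ) < 1 + η by linarith))
  obtain ⟨w1, hw1⟩ := eventually_atTop.1 h1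
  refine ⟨max w1 2, ?_⟩
  intro w hw N r R u hR hN a hA
  have hw2 : 2 ≤ w := (le_max_right _ _).trans hw
  have hlim := hw1 w ((le_max_left _ _).trans hw)
  have hN1 : 1 ≤ N := (Nat.one_le_pow _ _ (by norm_num)).trans hN
  have hB1 := bound_one hC hK (fun w z h => (hpr w z h).1) w N R hw2 hR
  have hB2 := bound_two hK w N R (by omega) hR
  have ht := total (u := u) a hN1 hA _ _ hB1 hB2
  refine ht.trans ?_
  rw [mul_comm (1 + η)]
  refine mul_le_mul_of_nonneg_left ?_ (sq_nonneg _)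
  refine le_trans ?_ hlim.le
  have hNr : ((4 : ℝ) ^ w) ^ 100 ≤ N := by
    rw [← pow_mul, mul_comm w]
    exact_mod_cast hN
  have hPr : (PP w : ℝ) ≤ (4 : ℝ) ^ w := by exact_mod_cast PP_le w
  have hP0 : (0 : ℝ) < PP w := by exact_mod_cast PP_pos w
  set q : ℝ := (4 : ℝ) ^ w with hq
  have hq1 : 1 ≤ q := one_le_pow₀ (by norm_num)
  have hq0 : 0 < q := by linarith
  have eq : (1 / 4 : ℝ) ^ w = 1 / q := by rw [one_div, inv_pow, one_div]
  have hs1 : q ^ 50 ≤ Real.sqrt N := by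
    rw [Real.le_sqrt (by positivity) (by positivity)]
    calc (q ^ 50) ^ 2 = q ^ 100 := by ring
      _ ≤ (N : ℝ) := hNr
  have hs2 : q ^ 25 ≤ Real.sqrt (Real.sqrt N) := by
    rw [Real.le_sqrt (by positivity) (by positivity)]
    calc (q ^ 25) ^ 2 = q ^ 50 := by ring
      _ ≤ Real.sqrt N := hs1
  have g1 : (PP w : ℝ) / N ≤ 1 / q := by
    rw [div_le_div_iff₀ (by linarith [pow_pos hq0 100]) hq0, one_mul]
    calc (PP w : ℝ) * q ≤ q * q := mul_le_mul_of_nonneg_right hPr hq0.le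
      _ = q ^ 2 := by ring
      _ ≤ q ^ 100 := pow_le_pow_right₀ hq1 (by norm_num)
      _ ≤ N := hNr
  have g2 : (PP w : ℝ) / Real.sqrt N ≤ 1 / q := by
    rw [div_le_div_iff₀ (by linarith [pow_pos hq0 50]) hq0, one_mul]
    calc (PP w : ℝ) * q ≤ q * q := mul_le_mul_of_nonneg_right hPr hq0.le
      _ = q ^ 2 := by ring
      _ ≤ q ^ 50 := pow_le_pow_right₀ hq1 (by norm_num)
      _ ≤ Real.sqrt N := hs1
  have g3 : (PP w : ℝ) / Real.sqrt (Real.sqrt N) ≤ 1 / q := by
    rw [div_le_div_iff₀ (by linarith [pow_pos hq0 25]) hq0, one_mul]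
    calc (PP w : ℝ) * q ≤ q * q := mul_le_mul_of_nonneg_right hPr hq0.le
      _ = q ^ 2 := by ring
      _ ≤ q ^ 25 := pow_le_pow_right₀ hq1 (by norm_num)
      _ ≤ Real.sqrt (Real.sqrt N) := hs2
  rw [eq]
  have hE1 := Real.exp_pos (b / Real.log w)
  have hE2 := Real.exp_pos (c * Real.sqrt w)
  have hq2 : 0 ≤ 1 / q := by positivity
  have k1 : (1 + (PP w : ℝ) / Real.sqrt N) * Real.exp (b / Real.log w) ≤
      (1 + 1 / q) * Real.exp (b / Real.log w) := mul_le_mul_of_nonneg_right (by linarith) hE1.le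
  have k2 : 2 * (PP w : ℝ) / Real.sqrt (Real.sqrt N) * Real.exp (c * Real.sqrt w) ≤
      2 * (1 / q * Real.exp (c * Real.sqrt w)) := by
    have e5 : 2 * (PP w : ℝ) / Real.sqrt (Real.sqrt N) * Real.exp (c * Real.sqrt w) =
        2 * (PP w / Real.sqrt (Real.sqrt N) * Real.exp (c * Real.sqrt w)) := by ring
    rw [e5]
    exact mul_le_mul_of_nonneg_left (mul_le_mul_of_nonneg_right g3 hE2.le) (by norm_num)
  refine mul_le_mul (by linarith) (add_le_add k1 k2) (by positivity) (by linarith)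

/-- Module SMom. -/
theorem smom (K η : ℝ) (hK : 0 < K) (hη : 0 < η) : ∃ w0 : ℕ, ∀ w : ℕ, w0 ≤ w → ∀ N r R : ℕ,
    (R : ℝ) ≤ K * w → 4 ^ (100 * w) ≤ N → ∀ a : Fin r → ℕ, 1 ≤ nA w a →
    ∑ n ∈ NA w N a, ∑ n' ∈ (NA w N a).erase n, ss w (Nat.dist n n') ^ R ≤
      (1 + η) * ((N : ℝ) * nA w a / PP w) ^ 2 := by
  classical
  obtain ⟨w0, h⟩ := smom_win K η hK hη
  refine ⟨w0, fun w hw N r R hR hN a hA => ?_⟩
  have h1 := h w hw N r R N hR hN a hA
  have e : NA w N a = (Ioc N (N + N)).filter (Good w a) := by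
    unfold NA
    rw [two_mul]
  rw [e]
  exact h1

end Pool.Agent.Lib.LEN
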