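import Pool.Agent.Lib.LEN.DefsK
import Pool.Agent.Lib.LEN.SMom

/-!
# LEN.SMomK: moments over injective tuples of good integers

Arithmetic and geometric mean over the pairs, then `smom`.
-/

set_option autoImplicit false

open Finset Filter

namespace Pool.Agent.Lib.LEN

open Pool.Agent.HLB Pool.Agent.HLT Pool.Agent.HLR Pool.Agent.Lib.GMV Cls0

namespace SMomKAux

lemma ss_nonneg (w d : ℕ) : 0 ≤ ss w d := by
  unfold ss
  refine prod_nonneg fun p hp => ?_
  have hp1 := (Nat.prime_of_mem_primeFactors (mem_filter.1 hp).1).one_lt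
  have : (1 : ℝ) < p := by exact_mod_cast hp1
  rw [inv_nonneg, sub_nonneg, div_le_one (by linarith)]
  exact this.le

/-- The pairs `i < j`. -/
def E2 (k : ℕ) : Finset (Fin k × Fin k) := univ.filter fun e => e.1 < e.2

lemma sk_eq (w : ℕ) {k : ℕ} (n : Fin k → ℕ) :
    sk w n = ∏ e ∈ E2 k, ss w (Nat.dist (n e.1) (n e.2)) := by
  unfold sk E2
  rw [prod_filter, Fintype.prod_prod_type]
  refine prod_congr rfl fun i _ => ?_
  rw [prod_filter]

lemma amgm {ι : Type*} (E : Finset ι) (hE : E.Nonempty) (x : ι → ℝ) (hx : ∀ e ∈ E, 0 ≤ x e) :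
    ∏ e ∈ E, x e ≤ (∑ e ∈ E, x e ^ E.card) / E.card := by
  have hm : E.card ≠ 0 := (card_pos.2 hE).ne'
  have hm' : (E.card : ℝ) ≠ 0 := by exact_mod_cast hm
  have h := Real.geom_mean_le_arith_mean_weighted E (fun _ => ((E.card : ℝ))⁻¹)
    (fun e => x e ^ E.card) (fun _ _ => by positivity)
    (by rw [sum_const, nsmul_eq_mul, mul_inv_cancel₀ hm'])
    (fun e he => pow_nonneg (hx e he) _)
  have e1 : ∏ e ∈ E, (x e ^ E.card) ^ ((E.card : ℝ))⁻¹ = ∏ e ∈ E, x e :=
    prod_congr rfl fun e he => Real.pow_rpow_inv_natCast (hx e he) hm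
  rw [e1, ← mul_sum] at h
  rw [div_eq_inv_mul]
  exact h

open scoped Classical in
lemma card_inj (T : Finset ℕ) (k : ℕ) :
    ((Fintype.piFinset fun _ : Fin k => T).filter Function.Injective).card =
      T.card.descFactorial k := by
  have h : Fintype.card (Fin k ↪ T) = T.card.descFactorial k := by
    rw [Fintype.card_embedding_eq, Fintype.card_fin, Fintype.card_coe]
  rw [← h, ← Finset.card_univ]
  symm
  refine card_bij (fun (f : Fin k ↪ T) _ => fun i => (f i : ℕ)) ?_ ?_ ?_
  · intro f _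
    refine mem_filter.2 ⟨Fintype.mem_piFinset.2 fun i => (f i).2, ?_⟩
    intro i j hij
    exact f.injective (Subtype.ext hij)
  · intro f _ g _ hfg
    ext i
    exact congrFun hfg i
  · intro n hn
    obtain ⟨h1, h2⟩ := mem_filter.1 hn
    rw [Fintype.mem_piFinset] at h1
    exact ⟨⟨fun i => ⟨n i, h1 i⟩, fun i j hij => h2 (congrArg Subtype.val hij)⟩, mem_univ _, rfl⟩

open scoped Classical in
lemma card_fiber_le (T : Finset ℕ) {k : ℕ} (i j : Fin k) (hij : i ≠ j) (u v : ℕ) :
    (((Fintype.piFinset fun _ : Fin k => T).filter Function.Injective).filter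
      (fun n => (n i, n j) = (u, v))).card ≤ T.card ^ (k - 2) := by
  have hsub : ((Fintype.piFinset fun _ : Fin k => T).filter Function.Injective).filter
      (fun n => (n i, n j) = (u, v)) ⊆
      Fintype.piFinset (fun l : Fin k => if l = i then {u} else if l = j then {v} else T) := by
    intro n hn
    obtain ⟨h1, h2⟩ := mem_filter.1 hn
    have h3 := Fintype.mem_piFinset.1 (mem_filter.1 h1).1
    rw [Prod.mk.injEq] at h2
    refine Fintype.mem_piFinset.2 fun l => ?_
    by_cases hl : l = i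
    · rw [if_pos hl, mem_singleton, hl]
      exact h2.1
    · rw [if_neg hl]
      by_cases hl' : l = j
      · rw [if_pos hl', mem_singleton, hl']
        exact h2.2
      · rw [if_neg hl']
        exact h3 l
  refine (card_le_card hsub).trans ?_
  rw [Fintype.card_piFinset]
  have h4 : ∀ l : Fin k, (if l = i then ({u} : Finset ℕ) else if l = j then {v} else T).card =
      if l ∈ ({i, j} : Finset (Fin k)) then 1 else T.card := by
    intro l
    by_cases hl : l = i
    · rw [if_pos hl, if_pos (by rw [hl]; exact mem_insert_self _ _), card_singleton]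
    · rw [if_neg hl]
      by_cases hl' : l = j
      · rw [if_pos hl', if_pos (by rw [hl']; exact mem_insert_of_mem (mem_singleton_self _)),
          card_singleton]
      · rw [if_neg hl', if_neg]
        rw [mem_insert, mem_singleton]
        push Not
        exact ⟨hl, hl'⟩
  rw [prod_congr rfl fun l _ => h4 l, prod_ite, prod_const_one, one_mul, prod_const]
  have h5 : (univ.filter fun l : Fin k => l ∉ ({i, j} : Finset (Fin k))).card = k - 2 := by
    have h6 : (univ.filter fun l : Fin k => l ∉ ({i, j} : Finset (Fin k))) =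
        ({i, j} : Finset (Fin k))ᶜ := by
      ext l
      simp
    rw [h6, card_compl, Fintype.card_fin, card_pair hij]
  rw [h5]

open scoped Classical in
lemma sum_pair_le (T : Finset ℕ) {k : ℕ} (i j : Fin k) (hij : i ≠ j) (F : ℕ → ℕ → ℝ)
    (hF : ∀ u v, 0 ≤ F u v) :
    ∑ n ∈ (Fintype.piFinset fun _ : Fin k => T).filter Function.Injective, F (n i) (n j) ≤
      (T.card : ℝ) ^ (k - 2) * ∑ u ∈ T, ∑ v ∈ T.erase u, F u v := by
  set S := (Fintype.piFinset fun _ : Fin k => T).filter Function.Injective with hS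
  have hmaps : ∀ n ∈ S, (n i, n j) ∈ (T ×ˢ T).filter fun x => x.1 ≠ x.2 := by
    intro n hn
    obtain ⟨h1, h2⟩ := mem_filter.1 hn
    rw [Fintype.mem_piFinset] at h1
    refine mem_filter.2 ⟨mem_product.2 ⟨h1 i, h1 j⟩, fun h => hij (h2 h)⟩
  rw [← sum_fiberwise_of_maps_to hmaps]
  have h1 : ∀ x ∈ (T ×ˢ T).filter fun x => x.1 ≠ x.2,
      ∑ n ∈ S.filter (fun n => (n i, n j) = x), F (n i) (n j) ≤
        (T.card : ℝ) ^ (k - 2) * F x.1 x.2 := by
    intro x _
    have h2 : ∑ n ∈ S.filter (fun n => (n i, n j) = x), F (n i) (n j) =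
        ∑ n ∈ S.filter (fun n => (n i, n j) = x), F x.1 x.2 := by
      refine sum_congr rfl fun n hn => ?_
      have h3 := (mem_filter.1 hn).2
      rw [← h3]
    rw [h2, sum_const, nsmul_eq_mul]
    refine mul_le_mul_of_nonneg_right ?_ (hF _ _)
    exact_mod_cast card_fiber_le T i j hij x.1 x.2
  refine (sum_le_sum h1).trans ?_
  rw [← mul_sum]
  refine le_of_eq ?_
  congr 1
  rw [sum_filter, sum_product]
  refine sum_congr rfl fun u _ => ?_
  rw [← sum_filter]
  refine sum_congr ?_ fun _ _ => rfl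
  ext v
  rw [mem_filter, mem_erase]
  exact ⟨fun h => ⟨fun h' => h.2 h'.symm, h.1⟩, fun h => ⟨h.2, fun h' => h.1 h'.symm⟩⟩

lemma tendsto_q : Tendsto (fun w : ℕ => ((1 : ℝ) / 4) ^ w) atTop (nhds 0) :=
  tendsto_pow_atTop_nhds_zero_of_lt_one (by norm_num) (by norm_num)

lemma exists_w (k : ℕ) (η : ℝ) (hη : 0 < η) : ∃ w0 : ℕ, ∀ w : ℕ, w0 ≤ w →
    (1 + ((1 : ℝ) / 4) ^ w) ^ k * (1 + η / 2) ≤ 1 + η ∧
    1 - η ≤ (1 - (k + 1) * ((1 : ℝ) / 4) ^ w) ^ k ∧ (k + 1) * ((1 : ℝ) / 4) ^ w ≤ 1 := by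
  have t1 : Tendsto (fun w : ℕ => (1 + ((1 : ℝ) / 4) ^ w) ^ k * (1 + η / 2)) atTop
      (nhds ((1 + 0) ^ k * (1 + η / 2))) :=
    ((tendsto_const_nhds.add tendsto_q).pow k).mul tendsto_const_nhds
  have t3 : Tendsto (fun w : ℕ => ((k : ℝ) + 1) * ((1 : ℝ) / 4) ^ w) atTop
      (nhds (((k : ℝ) + 1) * 0)) := tendsto_const_nhds.mul tendsto_q
  have t2 : Tendsto (fun w : ℕ => (1 - ((k : ℝ) + 1) * ((1 : ℝ) / 4) ^ w) ^ k) atTop
      (nhds ((1 - ((k : ℝ) + 1) * 0) ^ k)) := (tendsto_const_nhds.sub t3).pow k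
  rw [add_zero, one_pow, one_mul] at t1
  rw [mul_zero] at t3
  rw [mul_zero, sub_zero, one_pow] at t2
  have e1 := t1.eventually (ge_mem_nhds (show 1 + η / 2 < 1 + η by linarith))
  have e2 := t2.eventually (le_mem_nhds (show 1 - η < 1 by linarith))
  have e3 := t3.eventually (ge_mem_nhds (show (0 : ℝ) < 1 by norm_num))
  obtain ⟨w0, h⟩ := eventually_atTop.1 (e1.and (e2.and e3))
  exact ⟨w0, fun w hw => ⟨(h w hw).1, (h w hw).2.1, (h w hw).2.2⟩⟩

end SMomKAux

open SMomKAux

/-- Module SMomK: moments over injective tuples (AM-GM over the pairs and smom), and their number. -/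
theorem smomK (k : ℕ) (K η : ℝ) (hK : 0 < K) (hη : 0 < η) : ∃ w0 : ℕ, ∀ w : ℕ, w0 ≤ w →
    ∀ N r R : ℕ, (R : ℝ) ≤ K * w → 4 ^ (100 * w) ≤ N → ∀ a : Fin r → ℕ, 1 ≤ nA w a →
    ∑ n ∈ NK w N k a, sk w n ^ R ≤ (1 + η) * ((N : ℝ) * nA w a / PP w) ^ k ∧
    (1 - η) * ((N : ℝ) * nA w a / PP w) ^ k ≤ (NK w N k a).card := by
  classical
  set m : ℕ := (E2 k).card with hm
  have hK' : 0 < K * (m + 1) := by positivity
  obtain ⟨w1, h1⟩ := smom (K * (m + 1)) (η / 2) hK' (by linarith)
  obtain ⟨w2, h2⟩ := exists_w k η hη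
  refine ⟨max w1 w2, fun w hw N r R hR hN a hA => ?_⟩
  have hw1 : w1 ≤ w := (le_max_left _ _).trans hw
  obtain ⟨g1, g2, g3⟩ := h2 w ((le_max_right _ _).trans hw)
  -- sizes
  set q : ℝ := (4 : ℝ) ^ w with hq
  have hq1 : 1 ≤ q := one_le_pow₀ (by norm_num)
  have hq0 : 0 < q := by linarith
  have eq : (1 / 4 : ℝ) ^ w = 1 / q := by rw [one_div, inv_pow, one_div]
  rw [eq] at g1 g2 g3
  have hNr : q ^ 100 ≤ N := by
    rw [hq, ← pow_mul, mul_comm w]
    exact_mod_cast hN
  have hPr : (PP w : ℝ) ≤ q := by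
    rw [hq]
    exact_mod_cast PP_le w
  have hP0 : (0 : ℝ) < PP w := by exact_mod_cast PP_pos w
  have hN0 : (0 : ℝ) < N := lt_of_lt_of_le (by positivity) hNr
  have hA' : (1 : ℝ) ≤ nA w a := by exact_mod_cast hA
  set X : ℝ := (N : ℝ) * nA w a / PP w with hX
  have hPN : (PP w : ℝ) / N ≤ 1 / q := by
    rw [div_le_div_iff₀ hN0 hq0, one_mul]
    calc (PP w : ℝ) * q ≤ q * q := mul_le_mul_of_nonneg_right hPr hq0.le
      _ = q ^ 2 := by ring
      _ ≤ q ^ 100 := pow_le_pow_right₀ hq1 (by norm_num)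
      _ ≤ N := hNr
  have hXq : q ≤ X := by
    rw [hX, le_div_iff₀ hP0]
    calc q * PP w ≤ q * q := mul_le_mul_of_nonneg_left hPr hq0.le
      _ = q ^ 2 := by ring
      _ ≤ q ^ 100 := pow_le_pow_right₀ hq1 (by norm_num)
      _ ≤ N := hNr
      _ = N * 1 := (mul_one _).symm
      _ ≤ N * nA w a := mul_le_mul_of_nonneg_left hA' hN0.le
  have hX0 : 0 < X := lt_of_lt_of_le hq0 hXq
  have hNA : NA w N a = (Ioc N (N + N)).filter (Good w a) := by
    unfold NA
    rw [two_mul]
  have hup : ((NA w N a).card : ℝ) ≤ X * (1 + 1 / q) := by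
    have h := card_good w a N N
    rw [← hNA] at h
    refine h.trans ?_
    have e : (nA w a : ℝ) * (N / PP w + 1) = X * (1 + PP w / N) := by
      rw [hX]
      field_simp
    rw [e]
    exact mul_le_mul_of_nonneg_left (by linarith) hX0.le
  have hlow : X * (1 - 1 / q) ≤ (NA w N a).card := by
    have h := card_good_ge w a N N
    rw [← hNA] at h
    refine le_trans ?_ h
    have e : (nA w a : ℝ) * (N / PP w - 1) = X * (1 - PP w / N) := by
      rw [hX]
      field_simp
    rw [e]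
    exact mul_le_mul_of_nonneg_left (by linarith) hX0.le
  have hcard : (NK w N k a).card = (NA w N a).card.descFactorial k := card_inj _ k
  constructor
  · by_cases hE : (E2 k).Nonempty
    · -- at least two points
      have hk : 2 ≤ k := by
        obtain ⟨e, he⟩ := hE
        have h3 := (mem_filter.1 he).2
        have h4 := e.2.isLt
        have h5 : (e.1 : ℕ) < e.2 := h3
        omega
      have hm1 : 1 ≤ m := card_pos.2 hE
      have hmr : (0 : ℝ) < m := by exact_mod_cast hm1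
      set S : ℝ := ∑ u ∈ NA w N a, ∑ v ∈ (NA w N a).erase u,
        ss w (Nat.dist u v) ^ (R * m) with hS
      have hRm : ((R * m : ℕ) : ℝ) ≤ K * (m + 1) * w := by
        push_cast
        calc (R : ℝ) * m ≤ K * w * m := mul_le_mul_of_nonneg_right hR hmr.le
          _ ≤ K * (m + 1) * w := by nlinarith [mul_nonneg hK.le (Nat.cast_nonneg (α := ℝ) w)]
      have hS1 : S ≤ (1 + η / 2) * X ^ 2 := h1 w hw1 N r (R * m) hRm hN a hA
      have hS0 : 0 ≤ S := sum_nonneg fun _ _ => sum_nonneg fun _ _ => pow_nonneg (ss_nonneg _ _) _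
      have step : ∑ n ∈ NK w N k a, sk w n ^ R ≤ ((NA w N a).card : ℝ) ^ (k - 2) * S := by
        have s1 : ∀ n ∈ NK w N k a, sk w n ^ R ≤
            (∑ e ∈ E2 k, ss w (Nat.dist (n e.1) (n e.2)) ^ (R * m)) / m := by
          intro n _
          rw [sk_eq, ← prod_pow]
          refine (amgm _ hE _ fun e _ => pow_nonneg (ss_nonneg _ _) _).trans (le_of_eq ?_)
          rw [← hm]
          congr 1
          exact sum_congr rfl fun e _ => (pow_mul _ _ _).symm
        refine (sum_le_sum s1).trans ?_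
        rw [← sum_div, sum_comm, div_le_iff₀ hmr]
        have s2 : ∀ e ∈ E2 k, ∑ n ∈ NK w N k a, ss w (Nat.dist (n e.1) (n e.2)) ^ (R * m) ≤
            ((NA w N a).card : ℝ) ^ (k - 2) * S := by
          intro e he
          exact sum_pair_le (NA w N a) e.1 e.2 (mem_filter.1 he).2.ne
            (fun u v => ss w (Nat.dist u v) ^ (R * m)) fun _ _ => pow_nonneg (ss_nonneg _ _) _
        refine (sum_le_sum s2).trans (le_of_eq ?_)
        rw [sum_const, nsmul_eq_mul, ← hm, mul_comm]
      refine step.trans ?_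
      have h6 : ((NA w N a).card : ℝ) ^ (k - 2) ≤ (X * (1 + 1 / q)) ^ (k - 2) :=
        pow_le_pow_left₀ (Nat.cast_nonneg _) hup _
      have h7 : (1 : ℝ) ≤ 1 + 1 / q := by
        have : 0 < 1 / q := by positivity
        linarith
      calc ((NA w N a).card : ℝ) ^ (k - 2) * S
          ≤ (X * (1 + 1 / q)) ^ (k - 2) * ((1 + η / 2) * X ^ 2) :=
            mul_le_mul h6 hS1 hS0 (by positivity)
        _ = (1 + 1 / q) ^ (k - 2) * (1 + η / 2) * (X ^ (k - 2) * X ^ 2) := by
            rw [mul_pow]; ring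
        _ = (1 + 1 / q) ^ (k - 2) * (1 + η / 2) * X ^ k := by
            rw [← pow_add, Nat.sub_add_cancel hk]
        _ ≤ (1 + η) * X ^ k := by
            refine mul_le_mul_of_nonneg_right (le_trans ?_ g1) (by positivity)
            refine mul_le_mul_of_nonneg_right ?_ (by linarith)
            exact pow_le_pow_right₀ h7 (Nat.sub_le _ _)
    · -- no pairs
      have hE' : E2 k = ∅ := not_nonempty_iff_eq_empty.1 hE
      have s1 : ∑ n ∈ NK w N k a, sk w n ^ R = ((NK w N k a).card : ℝ) := by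
        rw [sum_congr rfl fun n _ => by rw [sk_eq, hE', prod_empty, one_pow], sum_const,
          nsmul_eq_mul, mul_one]
      rw [s1, hcard]
      have h8 : (((NA w N a).card.descFactorial k : ℕ) : ℝ) ≤ ((NA w N a).card : ℝ) ^ k := by
        exact_mod_cast Nat.descFactorial_le_pow _ _
      refine h8.trans ?_
      calc ((NA w N a).card : ℝ) ^ k ≤ (X * (1 + 1 / q)) ^ k :=
            pow_le_pow_left₀ (Nat.cast_nonneg _) hup _
        _ = (1 + 1 / q) ^ k * X ^ k := by rw [mul_pow, mul_comm]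
        _ ≤ (1 + η) * X ^ k := by
            refine mul_le_mul_of_nonneg_right (le_trans ?_ g1) (by positivity)
            exact le_mul_of_one_le_right (by positivity) (by linarith)
  · rw [hcard]
    have h9 : (((NA w N a).card + 1 - k : ℕ) : ℝ) ^ k ≤
        (((NA w N a).card.descFactorial k : ℕ) : ℝ) := by
      exact_mod_cast Nat.pow_sub_le_descFactorial _ _
    refine le_trans ?_ h9
    have h10 : X * (1 - (k + 1) * (1 / q)) ≤ (((NA w N a).card + 1 - k : ℕ) : ℝ) := by
      have h11 : ((NA w N a).card : ℝ) - k ≤ (((NA w N a).card + 1 - k : ℕ) : ℝ) := by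
        have h12 : (NA w N a).card ≤ ((NA w N a).card + 1 - k) + k := by omega
        have h13 : ((NA w N a).card : ℝ) ≤ (((NA w N a).card + 1 - k : ℕ) : ℝ) + k := by
          exact_mod_cast h12
        linarith
      refine le_trans ?_ h11
      have h14 : (k : ℝ) ≤ X * (k * (1 / q)) := by
        have h15 : 1 ≤ X * (1 / q) := by
          rw [mul_one_div, one_le_div hq0]
          exact hXq
        calc (k : ℝ) = k * 1 := (mul_one _).symm
          _ ≤ k * (X * (1 / q)) := mul_le_mul_of_nonneg_left h15 (Nat.cast_nonneg _)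
          _ = X * (k * (1 / q)) := by ring
      have h16 : X * (1 - (k + 1) * (1 / q)) = X * (1 - 1 / q) - X * (k * (1 / q)) := by ring
      rw [h16]
      linarith
    calc (1 - η) * X ^ k ≤ (1 - (k + 1) * (1 / q)) ^ k * X ^ k :=
          mul_le_mul_of_nonneg_right g2 (by positivity)
      _ = (X * (1 - (k + 1) * (1 / q))) ^ k := by rw [mul_pow, mul_comm]
      _ ≤ (((NA w N a).card + 1 - k : ℕ) : ℝ) ^ k :=
          pow_le_pow_left₀ (mul_nonneg hX0.le (by linarith)) h10 _

end Pool.Agent.Lib.LEN
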