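import Pool.Agent.Lib.LEN.SecM
import Pool.Agent.Lib.LEN.SMomK

/-!
# LEN.FacM: the factorial moment of order `k` in one class
-/

set_option autoImplicit false

open Finset Filter

namespace Pool.Agent.Lib.LEN

open Pool.Agent.HLB Pool.Agent.HLT Pool.Agent.HLR Pool.Agent.Lib.GMV

namespace FacMAux

open SecMAux (card_cls ss_nonneg coprime_of)

lemma PP_pos (w : ℕ) : 0 < PP w :=
  Finset.prod_pos fun _ hp => (Nat.mem_primesLE.1 hp).2.pos

lemma sum_FK (f : ℕ → ℝ) (N w k : ℕ) {r : ℕ} (a : Fin r → ℕ) :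
    ∑ h ∈ Hc N w a, FK f N k h = ∑ n ∈ TK N k, ∏ i, CK f N w (a i) n := by
  unfold FK Hc CK
  rw [Finset.sum_comm]
  refine Finset.sum_congr rfl fun n _ => ?_
  rw [Finset.prod_univ_sum]

lemma CK_nonneg (f : ℕ → ℝ) (hf : ∀ m, 0 ≤ f m) (N w c : ℕ) {k : ℕ} (n : Fin k → ℕ) :
    0 ≤ CK f N w c n :=
  Finset.sum_nonneg fun _ _ => Finset.prod_nonneg fun _ _ => hf _

lemma sk_nonneg (w : ℕ) {k : ℕ} (n : Fin k → ℕ) : 0 ≤ sk w n :=
  Finset.prod_nonneg fun _ _ => Finset.prod_nonneg fun _ _ => ss_nonneg _ _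

/-- The correlation vanishes outside the good integers. -/
lemma CK_zero (f : ℕ → ℝ) (N w : ℕ) (hfc : ∀ m, N < m → f m ≠ 0 → Nat.Coprime m (PP w))
    (c : ℕ) {k : ℕ} (n : Fin k → ℕ) (hn : ∀ j, n j ∈ Ioc N (2 * N)) (j : Fin k)
    (h : ¬ Nat.Coprime (n j + c) (PP w)) : CK f N w c n = 0 := by
  unfold CK
  refine Finset.sum_eq_zero fun t ht => Finset.prod_eq_zero (Finset.mem_univ j) ?_
  unfold cls at ht
  have ht2 := (Finset.mem_filter.1 ht).2
  by_contra hne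
  have h1 := hfc (n j + t) (by have := hn j; rw [Finset.mem_Ioc] at this; omega) hne
  apply h
  rw [coprime_of w (n j + c) (n j + t)]
  · exact h1
  · rw [Nat.add_mod, ← ht2, ← Nat.add_mod]

lemma mem_TK {N k : ℕ} {n : Fin k → ℕ} : n ∈ TK N k ↔
    (∀ j, n j ∈ Ioc N (2 * N)) ∧ Function.Injective n := by
  unfold TK Tup
  rw [Finset.mem_filter, Fintype.mem_piFinset]

lemma mem_NK {w N k r : ℕ} {a : Fin r → ℕ} {n : Fin k → ℕ} : n ∈ NK w N k a ↔
    ((∀ j, n j ∈ Ioc N (2 * N)) ∧ Function.Injective n) ∧ ∀ j, Good w a (n j) := by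
  classical
  unfold NK NA
  rw [Finset.mem_filter, Fintype.mem_piFinset]
  constructor
  · rintro ⟨h1, h2⟩
    exact ⟨⟨fun j => (Finset.mem_filter.1 (h1 j)).1, h2⟩, fun j => (Finset.mem_filter.1 (h1 j)).2⟩
  · rintro ⟨⟨h1, h2⟩, h3⟩
    exact ⟨fun j => Finset.mem_filter.2 ⟨h1 j, h3 j⟩, h2⟩

lemma card_Hc {N w r : ℕ} (a : Fin r → ℕ) {u : ℝ} (hu1 : u ≤ 1 / 100) (hr : 1 ≤ r)
    (hN : 0 < N) (hPN : r * (PP w : ℝ) ≤ u / 4 * N) :
    ((N : ℝ) / PP w) ^ r * (1 - u) ≤ ((Hc N w a).card : ℝ) ∧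
    ((Hc N w a).card : ℝ) ≤ ((N : ℝ) / PP w) ^ r * (1 + u) := by
  have hP0 : (0 : ℝ) < PP w := by exact_mod_cast PP_pos w
  have hN0 : (0 : ℝ) < N := by exact_mod_cast hN
  have hr1 : (1 : ℝ) ≤ r := by exact_mod_cast hr
  set v : ℝ := (N : ℝ) / PP w with hv
  have hv0 : 0 < v := div_pos hN0 hP0
  set t : ℝ := v ^ r with ht
  have ht0 : 0 < t := pow_pos hv0 r
  have hPv : (PP w : ℝ) / N = v⁻¹ := by rw [hv, inv_div]
  have hδ : r * v⁻¹ ≤ u / 4 := by
    rw [← hPv, mul_div_assoc', div_le_iff₀ hN0]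
    exact hPN
  have hcardH : ((Hc N w a).card : ℝ) = ∏ i, ((cls N w (a i)).card : ℝ) := by
    unfold Hc
    rw [Fintype.card_piFinset]
    push_cast
    rfl
  have hvi : 0 ≤ v⁻¹ := (inv_pos.2 hv0).le
  have hvi1 : v⁻¹ ≤ 1 / 400 := by
    have : v⁻¹ ≤ r * v⁻¹ := le_mul_of_one_le_left hvi hr1
    linarith
  have hv1 : 1 ≤ v := by
    have h1 : v⁻¹ * v = 1 := inv_mul_cancel₀ hv0.ne'
    nlinarith
  constructor
  · rw [hcardH]
    calc t * (1 - u) ≤ t * (1 - v⁻¹) ^ r := by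
          refine mul_le_mul_of_nonneg_left ?_ ht0.le
          have h1 := one_add_mul_le_pow (a := -v⁻¹) (by linarith) r
          have e : 1 + -v⁻¹ = 1 - v⁻¹ := by ring
          rw [e] at h1
          nlinarith
      _ = (v - 1) ^ r := by
          rw [ht, ← mul_pow, mul_sub, mul_one, mul_inv_cancel₀ hv0.ne']
      _ = ∏ _i : Fin r, (v - 1) := by rw [prod_const, card_univ, Fintype.card_fin]
      _ ≤ _ := prod_le_prod (fun _ _ => by linarith) fun i _ => (card_cls N w (a i)).1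
  · rw [hcardH]
    calc ∏ i, ((cls N w (a i)).card : ℝ) ≤ ∏ _i : Fin r, (v + 1) :=
          prod_le_prod (fun _ _ => Nat.cast_nonneg _) fun i _ => (card_cls N w (a i)).2
      _ = (v * (1 + v⁻¹)) ^ r := by
          rw [prod_const, card_univ, Fintype.card_fin, mul_add, mul_one, mul_inv_cancel₀ hv0.ne']
      _ = t * (1 + v⁻¹) ^ r := by rw [mul_pow]
      _ ≤ t * (1 + u) := by
          refine mul_le_mul_of_nonneg_left ?_ ht0.le
          have h1 : (1 + v⁻¹) ^ r ≤ Real.exp (r * v⁻¹) := by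
            rw [Real.exp_nat_mul]
            refine pow_le_pow_left₀ (by linarith) ?_ r
            rw [add_comm]
            exact Real.add_one_le_exp _
          have h2 : Real.exp (r * v⁻¹) ≤ 1 + 2 * (r * v⁻¹) := by
            have h3 := Real.exp_bound_div_one_sub_of_interval (x := r * v⁻¹) (by positivity)
              (by linarith)
            refine h3.trans ?_
            have h0 : 0 ≤ r * v⁻¹ := by positivity
            rw [div_le_iff₀ (by linarith)]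
            nlinarith
          have h5 : 0 ≤ r * v⁻¹ := by positivity
          linarith

end FacMAux

open FacMAux

open scoped Classical in
/-- The factorial moment, with the moments of `sk` as hypotheses. -/
theorem facMA (k : ℕ) (η η' u : ℝ) (hη' : 0 ≤ η') (hη1 : η' ≤ η / 4) (hη'1 : η' ≤ 1) (hu : 0 < u)
    (hu1 : u ≤ 1 / 100) (hu2 : u ≤ η / 100) (w N r : ℕ) (hr : 1 ≤ r)
    (hPN : r * (PP w : ℝ) ≤ u / 4 * N) (hN : 0 < N) (hP4 : (PP w : ℝ) ≤ 4 ^ w)
    (f : ℕ → ℝ) (hf : ∀ m, 0 ≤ f m) (hfc : ∀ m, N < m → f m ≠ 0 → Nat.Coprime m (PP w))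
    (e1 e2 B' : ℝ) (Bd1 Bd2 Bd3 : Finset (Fin k → ℕ)) (he1 : 0 ≤ e1) (he2 : 0 ≤ e2)
    (hB' : 1 ≤ B') (hs1 : r * e1 ≤ u) (hs0 : (Bd1.card : ℝ) * 4 ^ (k * w) ≤ u * (N : ℝ) ^ k)
    (hs2 : (1 + e2) ^ r * Real.sqrt Bd1.card * 4 ^ (k * w) ≤ u * Real.sqrt ((N : ℝ) ^ k))
    (hs3 : B' ^ r * Real.sqrt Bd2.card * 4 ^ (k * w) ≤ u * Real.sqrt ((N : ℝ) ^ k))
    (hC1 : ∀ c, ∀ n ∈ TK N k, n ∉ Bd1 → (∀ j, Nat.Coprime (n j + c) (PP w)) →
      Tm N w k * (1 - e1) ≤ CK f N w c n ∧ CK f N w c n ≤ Tm N w k * (sk w n * (1 + e1)))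
    (hC2 : ∀ c, ∀ n ∈ TK N k, n ∉ Bd2 → (∀ j, Nat.Coprime (n j + c) (PP w)) →
      CK f N w c n ≤ Tm N w k * (sk w n * (1 + e2)))
    (hC3 : ∀ c, ∀ n ∈ TK N k, n ∉ Bd3 → (∀ j, Nat.Coprime (n j + c) (PP w)) →
      CK f N w c n ≤ Tm N w k * (sk w n * B'))
    (a : Fin r → ℕ) (hnA : 1 ≤ nA w a)
    (hmom : ∀ R : ℕ, (R = r ∨ R = 2 * r) → ∑ n ∈ NK w N k a, sk w n ^ R ≤
      (1 + η') * ((N : ℝ) * nA w a / PP w) ^ k)
    (hcard : (1 - η') * ((N : ℝ) * nA w a / PP w) ^ k ≤ (NK w N k a).card) :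
    |∑ h ∈ Hc N w a, FK f N k h - MM N w a ^ k * (Hc N w a).card| ≤
      η * (MM N w a ^ k * (Hc N w a).card) +
      ∑ n ∈ (TK N k).filter (fun n => n ∈ Bd3), ∏ i, CK f N w (a i) n := by
  have hη : 0 < η := by
    by_contra hh
    have : η / 100 ≤ 0 := by linarith [not_lt.1 hh]
    linarith
  have hP0 : (0 : ℝ) < PP w := by exact_mod_cast PP_pos w
  have hN0 : (0 : ℝ) < N := by exact_mod_cast hN
  have hr0 : (0 : ℝ) < r := by exact_mod_cast (show 0 < r by omega)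
  have hr1 : (1 : ℝ) ≤ r := by exact_mod_cast hr
  have hD0 : 0 < DZ w := DZ_pos w
  have hκ : 0 < (DZ w)⁻¹ := inv_pos.2 hD0
  have h4 : (0 : ℝ) < 4 ^ (k * w) := by positivity
  obtain ⟨hHlo, hHup⟩ := card_Hc a hu1 hr hN hPN
  set κ : ℝ := (DZ w)⁻¹ with hκdef
  set v : ℝ := (N : ℝ) / PP w with hv
  have hv0 : 0 < v := div_pos hN0 hP0
  set m : ℝ := (N : ℝ) * nA w a / PP w with hm
  have hnA1 : (1 : ℝ) ≤ nA w a := by exact_mod_cast hnA
  have hmv : m = v * nA w a := by rw [hm, hv]; ring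
  have hvm : v ≤ m := by rw [hmv]; exact le_mul_of_one_le_right hv0.le hnA1
  have hm0 : 0 < m := lt_of_lt_of_le hv0 hvm
  set t : ℝ := v ^ r with ht
  have ht0 : 0 < t := pow_pos hv0 r
  set q : ℝ := κ ^ r with hq
  have hq0 : 0 < q := pow_pos hκ r
  have hMM : MM N w a ^ k = m ^ k * q ^ k := by
    unfold MM
    rw [← mul_pow]
  have he1u : e1 ≤ u := by
    have : e1 ≤ r * e1 := le_mul_of_one_le_left he1 hr1
    linarith
  -- `m^k ≥ N^k / 4^(kw)`
  have hN4 : (N : ℝ) ^ k / 4 ^ (k * w) ≤ m ^ k := by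
    have h1 : (N : ℝ) / 4 ^ w ≤ m := by
      refine le_trans ?_ hvm
      rw [hv]
      exact div_le_div_of_nonneg_left hN0.le hP0 hP4
    calc (N : ℝ) ^ k / 4 ^ (k * w) = ((N : ℝ) / 4 ^ w) ^ k := by
          rw [div_pow, ← pow_mul, Nat.mul_comm]
      _ ≤ m ^ k := pow_le_pow_left₀ (by positivity) h1 k
  set M : ℝ := m ^ k with hM
  have hM0 : 0 < M := pow_pos hm0 k
  set T : (Fin k → ℕ) → ℝ := fun n => ∏ i, CK f N w (a i) n with hT
  set s : (Fin k → ℕ) → ℝ := fun n => sk w n with hs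
  have hT0 : ∀ n, 0 ≤ T n := fun n => prod_nonneg fun i _ => CK_nonneg f hf _ _ _ _
  have hs0' : ∀ n, 0 ≤ s n := fun n => sk_nonneg _ _
  have hTm : Tm N w k = v * κ ^ k := rfl
  have hTmr : (v * κ ^ k) ^ r = t * q ^ k := by
    rw [mul_pow, ← ht, hq, ← pow_mul, ← pow_mul, Nat.mul_comm k r]
  have hsub : NK w N k a ⊆ TK N k := fun n hn => mem_TK.2 (mem_NK.1 hn).1
  -- lower bound
  have hBd1 : (Bd1.card : ℝ) ≤ u * M := by
    have h1 : (Bd1.card : ℝ) ≤ u * (N : ℝ) ^ k / 4 ^ (k * w) := by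
      rw [le_div_iff₀ h4]
      exact hs0
    rw [mul_div_assoc] at h1
    exact h1.trans (mul_le_mul_of_nonneg_left hN4 hu.le)
  have hS1 : M * q ^ k * t * (1 - η' - 2 * u) ≤ ∑ n ∈ TK N k, T n := by
    have h1 : ∀ n ∈ NK w N k a \ Bd1, t * q ^ k * (1 - u) ≤ T n := by
      intro n hn
      rw [Finset.mem_sdiff] at hn
      have hn1 := mem_NK.1 hn.1
      calc t * q ^ k * (1 - u) ≤ (v * κ ^ k * (1 - e1)) ^ r := by
            rw [mul_pow, hTmr]
            refine mul_le_mul_of_nonneg_left ?_ (by positivity)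
            have h2 := one_add_mul_le_pow (a := -e1) (by linarith) r
            have e : 1 + -e1 = 1 - e1 := by ring
            rw [e] at h2
            nlinarith
        _ = ∏ _i : Fin r, (v * κ ^ k * (1 - e1)) := by rw [prod_const, card_univ, Fintype.card_fin]
        _ ≤ _ := by
            refine prod_le_prod (fun _ _ => ?_) fun i _ => ?_
            · have : 0 ≤ 1 - e1 := by linarith
              positivity
            · rw [← hTm]
              exact (hC1 (a i) n (hsub hn.1) hn.2 fun j => hn1.2 j i).1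
    have h2 : ∑ n ∈ NK w N k a \ Bd1, T n ≤ ∑ n ∈ TK N k, T n :=
      sum_le_sum_of_subset_of_nonneg (sdiff_subset.trans hsub) fun n _ _ => hT0 n
    refine le_trans ?_ h2
    refine le_trans ?_ (sum_le_sum h1)
    rw [sum_const, nsmul_eq_mul]
    have h3 : M * (1 - η' - u) ≤ ((NK w N k a \ Bd1).card : ℝ) := by
      have h5 : (NK w N k a).card ≤ (NK w N k a \ Bd1).card + Bd1.card :=
        Finset.card_le_card_sdiff_add_card
      have h6 : ((NK w N k a).card : ℝ) ≤ (NK w N k a \ Bd1).card + Bd1.card := by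
        exact_mod_cast h5
      nlinarith
    have h7 : 0 ≤ t * q ^ k * (1 - u) := by
      have : 0 ≤ 1 - u := by linarith
      positivity
    refine le_trans ?_ (mul_le_mul_of_nonneg_right h3 h7)
    have h8 : 0 ≤ M * q ^ k * t * (u * (η' + u)) := by positivity
    have h9 : M * (1 - η' - u) * (t * q ^ k * (1 - u)) =
        M * q ^ k * t * (1 - η' - 2 * u) + M * q ^ k * t * (u * (η' + u)) := by ring
    linarith
  -- Cauchy-Schwarz
  have hCS : ∀ A : Finset (Fin k → ℕ), ∀ c : ℝ, 0 ≤ c →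
      c * Real.sqrt A.card * 4 ^ (k * w) ≤ u * Real.sqrt ((N : ℝ) ^ k) →
      c * ∑ n ∈ (NK w N k a).filter (fun n => n ∈ A), s n ^ r ≤ 3 / 2 * u * M := by
    intro A c hc hcA
    have h1 : (∑ n ∈ (NK w N k a).filter (fun n => n ∈ A), s n ^ r) ^ 2 ≤ A.card * (2 * M) := by
      refine (sq_sum_le_card_mul_sum_sq).trans ?_
      refine mul_le_mul ?_ ?_ (sum_nonneg fun _ _ => by positivity) (Nat.cast_nonneg _)
      · have : ((NK w N k a).filter (fun n => n ∈ A)).card ≤ A.card :=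
          card_le_card fun x hx => (mem_filter.1 hx).2
        exact_mod_cast this
      · have h2 : ∑ n ∈ (NK w N k a).filter (fun n => n ∈ A), (s n ^ r) ^ 2 ≤
            ∑ n ∈ NK w N k a, s n ^ (2 * r) := by
          refine le_trans (le_of_eq (sum_congr rfl fun x _ => ?_))
            (sum_le_sum_of_subset_of_nonneg (filter_subset _ _) fun x _ _ => pow_nonneg (hs0' x) _)
          rw [← pow_mul, mul_comm]
        refine h2.trans ((hmom _ (Or.inr rfl)).trans ?_)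
        nlinarith
    have h2 : ∑ n ∈ (NK w N k a).filter (fun n => n ∈ A), s n ^ r ≤
        Real.sqrt A.card * (3 / 2 * Real.sqrt M) := by
      refine abs_le_of_sq_le_sq' ?_ (by positivity) |>.2
      rw [mul_pow, Real.sq_sqrt (Nat.cast_nonneg _), mul_pow, Real.sq_sqrt hM0.le]
      refine h1.trans ?_
      refine mul_le_mul_of_nonneg_left ?_ (Nat.cast_nonneg _)
      linarith
    have h3 : c * Real.sqrt A.card ≤ u * Real.sqrt M := by
      have h5 : c * Real.sqrt A.card ≤ u * Real.sqrt ((N : ℝ) ^ k) / 4 ^ (k * w) := by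
        rw [le_div_iff₀ h4]
        exact hcA
      refine h5.trans ?_
      rw [mul_div_assoc]
      refine mul_le_mul_of_nonneg_left ?_ hu.le
      rw [div_le_iff₀ h4]
      have h6 : (N : ℝ) ^ k ≤ M * (4 ^ (k * w)) ^ 2 := by
        rw [div_le_iff₀ h4] at hN4
        have h7 : (1 : ℝ) ≤ 4 ^ (k * w) := one_le_pow₀ (by norm_num)
        calc (N : ℝ) ^ k ≤ M * 4 ^ (k * w) := hN4
          _ ≤ M * (4 ^ (k * w)) ^ 2 := by
            refine mul_le_mul_of_nonneg_left ?_ hM0.le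
            nlinarith
      calc Real.sqrt ((N : ℝ) ^ k) ≤ Real.sqrt (M * (4 ^ (k * w)) ^ 2) := Real.sqrt_le_sqrt h6
        _ = Real.sqrt M * 4 ^ (k * w) := by
          rw [Real.sqrt_mul hM0.le, Real.sqrt_sq h4.le]
    calc c * ∑ n ∈ (NK w N k a).filter (fun n => n ∈ A), s n ^ r ≤
        c * (Real.sqrt A.card * (3 / 2 * Real.sqrt M)) := mul_le_mul_of_nonneg_left h2 hc
      _ = (c * Real.sqrt A.card) * (3 / 2 * Real.sqrt M) := by ring
      _ ≤ (u * Real.sqrt M) * (3 / 2 * Real.sqrt M) :=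
          mul_le_mul_of_nonneg_right h3 (by positivity)
      _ = 3 / 2 * u * (Real.sqrt M * Real.sqrt M) := by ring
      _ = 3 / 2 * u * M := by rw [Real.mul_self_sqrt hM0.le]
  set R : ℝ := ∑ n ∈ (TK N k).filter (fun n => n ∈ Bd3), T n with hRdef
  have hprod : ∀ (n : Fin k → ℕ) (e : ℝ), (∀ i, CK f N w (a i) n ≤ Tm N w k * (s n * e)) →
      T n ≤ t * q ^ k * (e ^ r * s n ^ r) := by
    intro n e he
    calc T n ≤ ∏ _i : Fin r, (v * κ ^ k * (s n * e)) :=
          prod_le_prod (fun i _ => CK_nonneg f hf _ _ _ _) fun i _ => he i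
      _ = (v * κ ^ k) ^ r * (e ^ r * s n ^ r) := by
          rw [prod_const, card_univ, Fintype.card_fin, mul_pow, mul_pow]
          ring
      _ = _ := by rw [hTmr]
  have hS2 : ∑ n ∈ TK N k, T n ≤ R + t * q ^ k * (((1 + 2 * u) * (1 + η') + 3 * u) * M) := by
    have e1' : (1 + e1) ^ r ≤ 1 + 2 * u := by
      have h1 : (1 + e1) ^ r ≤ Real.exp (r * e1) := by
        rw [Real.exp_nat_mul]
        refine pow_le_pow_left₀ (by linarith) ?_ r
        rw [add_comm]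
        exact Real.add_one_le_exp _
      have h2 : Real.exp (r * e1) ≤ Real.exp u := Real.exp_le_exp.2 hs1
      have h3 : Real.exp u ≤ 1 + 2 * u := by
        have h3 := Real.exp_bound_div_one_sub_of_interval (x := u) hu.le (by linarith)
        refine h3.trans ?_
        rw [div_le_iff₀ (by linarith)]
        nlinarith
      linarith
    have h1 : ∑ n ∈ TK N k, T n = ∑ n ∈ NK w N k a, T n := by
      symm
      refine sum_subset hsub fun n hn hn2 => ?_
      have hn' := mem_TK.1 hn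
      have h2 : ¬ ∀ j, Good w a (n j) := fun h0 => hn2 (mem_NK.2 ⟨hn', h0⟩)
      push Not at h2
      obtain ⟨j, hj⟩ := h2
      unfold Good at hj
      push Not at hj
      obtain ⟨i, hi⟩ := hj
      exact prod_eq_zero (mem_univ i) (CK_zero f N w hfc (a i) n hn'.1 j hi)
    rw [h1]
    have h2 : ∀ n ∈ NK w N k a, T n ≤ (if n ∈ Bd3 then T n else 0) +
        t * q ^ k * ((1 + e1) ^ r * s n ^ r +
          ((1 + e2) ^ r * (if n ∈ Bd1 then s n ^ r else 0) +
            B' ^ r * (if n ∈ Bd2 then s n ^ r else 0))) := by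
      intro n hn
      have hn1 := mem_NK.1 hn
      have hnT := hsub hn
      have hsr : 0 ≤ s n ^ r := pow_nonneg (hs0' n) r
      have hb1 : 0 ≤ (1 + e1) ^ r * s n ^ r := mul_nonneg (pow_nonneg (by linarith) r) hsr
      have hb2 : 0 ≤ (1 + e2) ^ r * (if n ∈ Bd1 then s n ^ r else 0) := by
        refine mul_nonneg (pow_nonneg (by linarith) r) ?_
        split_ifs
        · exact hsr
        · exact le_rfl
      have hb3 : 0 ≤ B' ^ r * (if n ∈ Bd2 then s n ^ r else 0) := by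
        refine mul_nonneg (pow_nonneg (by linarith) r) ?_
        split_ifs
        · exact hsr
        · exact le_rfl
      have htq : 0 ≤ t * q ^ k := by positivity
      by_cases h3 : n ∈ Bd3
      · rw [if_pos h3]
        have : 0 ≤ t * q ^ k * ((1 + e1) ^ r * s n ^ r +
          ((1 + e2) ^ r * (if n ∈ Bd1 then s n ^ r else 0) +
            B' ^ r * (if n ∈ Bd2 then s n ^ r else 0))) := mul_nonneg htq (by linarith)
        linarith
      · rw [if_neg h3, zero_add]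
        by_cases h5 : n ∈ Bd1
        · by_cases h6 : n ∈ Bd2
          · have h7 := hprod n B' fun i => hC3 (a i) n hnT h3 fun j => hn1.2 j i
            refine h7.trans (mul_le_mul_of_nonneg_left ?_ htq)
            rw [if_pos h6]
            linarith
          · have h7 := hprod n (1 + e2) fun i => hC2 (a i) n hnT h6 fun j => hn1.2 j i
            refine h7.trans (mul_le_mul_of_nonneg_left ?_ htq)
            rw [if_pos h5]
            linarith
        · have h7 := hprod n (1 + e1) fun i => (hC1 (a i) n hnT h5 fun j => hn1.2 j i).2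
          refine h7.trans (mul_le_mul_of_nonneg_left ?_ htq)
          linarith
    refine (sum_le_sum h2).trans ?_
    rw [sum_add_distrib]
    refine add_le_add ?_ ?_
    · rw [← sum_filter, hRdef]
      exact sum_le_sum_of_subset_of_nonneg (filter_subset_filter _ hsub) fun x _ _ => hT0 x
    · rw [← mul_sum]
      refine mul_le_mul_of_nonneg_left ?_ (by positivity)
      rw [sum_add_distrib, sum_add_distrib, ← mul_sum, ← mul_sum, ← mul_sum,
        ← sum_filter, ← sum_filter]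
      have g1 := hmom r (Or.inl rfl)
      have g2 := hCS Bd1 ((1 + e2) ^ r) (pow_nonneg (by linarith) r) hs2
      have g3 := hCS Bd2 (B' ^ r) (pow_nonneg (by linarith) r) hs3
      have g4 : (1 + e1) ^ r * ∑ n ∈ NK w N k a, s n ^ r ≤ (1 + 2 * u) * ((1 + η') * M) :=
        mul_le_mul e1' g1 (sum_nonneg fun x _ => pow_nonneg (hs0' x) r) (by linarith)
      nlinarith
  -- conclusion
  rw [sum_FK, hMM]
  have Z0 : 0 < M * q ^ k := by positivity
  have hR0 : 0 ≤ R := sum_nonneg fun n _ => hT0 n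
  have k2 : M * q ^ k * ((Hc N w a).card : ℝ) ≤ M * q ^ k * (t * (1 + u)) :=
    mul_le_mul_of_nonneg_left hHup Z0.le
  have k3 : M * q ^ k * (t * (1 - u)) ≤ M * q ^ k * ((Hc N w a).card : ℝ) :=
    mul_le_mul_of_nonneg_left hHlo Z0.le
  have k7 : η * (M * q ^ k * (t * (1 - u))) ≤ η * (M * q ^ k * ((Hc N w a).card : ℝ)) :=
    mul_le_mul_of_nonneg_left k3 hη.le
  have Z1 : 0 < M * q ^ k * t := by positivity
  have k5 : (1 + 2 * u) * (1 + η') + 3 * u - (1 - u) ≤ η * (1 - u) := by nlinarith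
  have k6 : (1 + u) - (1 - η' - 2 * u) ≤ η * (1 - u) := by nlinarith
  have k5' : (M * q ^ k * t) * ((1 + 2 * u) * (1 + η') + 3 * u - (1 - u)) ≤
      (M * q ^ k * t) * (η * (1 - u)) := mul_le_mul_of_nonneg_left k5 Z1.le
  have k6' : (M * q ^ k * t) * ((1 + u) - (1 - η' - 2 * u)) ≤
      (M * q ^ k * t) * (η * (1 - u)) := mul_le_mul_of_nonneg_left k6 Z1.le
  rw [abs_le]
  constructor
  · nlinarith
  · nlinarith

/-- Module FacM: the factorial moment of order `k` in one class; abstract in `f`. -/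
theorem facM (k : ℕ) (K η : ℝ) (hK : 0 < K) (hη : 0 < η) : ∃ w0 : ℕ, ∃ u : ℝ, 0 < u ∧
    ∀ w : ℕ, w0 ≤ w → ∀ N r : ℕ, 1 ≤ r → (r : ℝ) ≤ K * w → 4 ^ (100 * w) ≤ N →
    ∀ f : ℕ → ℝ, (∀ m, 0 ≤ f m) → (∀ m, N < m → f m ≠ 0 → Nat.Coprime m (PP w)) →
    ∀ (e1 e2 B' : ℝ) (Bd1 Bd2 Bd3 : Finset (Fin k → ℕ)), 0 ≤ e1 → 0 ≤ e2 → 1 ≤ B' →
    r * e1 ≤ u → (Bd1.card : ℝ) * 4 ^ (k * w) ≤ u * (N : ℝ) ^ k →
    (1 + e2) ^ r * Real.sqrt Bd1.card * 4 ^ (k * w) ≤ u * Real.sqrt ((N : ℝ) ^ k) →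
    B' ^ r * Real.sqrt Bd2.card * 4 ^ (k * w) ≤ u * Real.sqrt ((N : ℝ) ^ k) →
    (∀ c, ∀ n ∈ TK N k, n ∉ Bd1 → (∀ j, Nat.Coprime (n j + c) (PP w)) →
      Tm N w k * (1 - e1) ≤ CK f N w c n ∧ CK f N w c n ≤ Tm N w k * (sk w n * (1 + e1))) →
    (∀ c, ∀ n ∈ TK N k, n ∉ Bd2 → (∀ j, Nat.Coprime (n j + c) (PP w)) →
      CK f N w c n ≤ Tm N w k * (sk w n * (1 + e2))) →
    (∀ c, ∀ n ∈ TK N k, n ∉ Bd3 → (∀ j, Nat.Coprime (n j + c) (PP w)) →
      CK f N w c n ≤ Tm N w k * (sk w n * B')) →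
    ∀ a : Fin r → ℕ, 1 ≤ nA w a →
    |∑ h ∈ Hc N w a, FK f N k h - MM N w a ^ k * (Hc N w a).card| ≤
      η * (MM N w a ^ k * (Hc N w a).card) +
      ∑ n ∈ (TK N k).filter (fun n => n ∈ Bd3), ∏ i, CK f N w (a i) n := by
  obtain ⟨w0, hmom⟩ := smomK k (2 * K) (min (η / 4) 1) (by positivity) (by positivity)
  obtain ⟨u, hu⟩ : ∃ u : ℝ, u = min (1 / 100) (η / 100) := ⟨_, rfl⟩
  have hu0 : 0 < u := by rw [hu]; positivity
  refine ⟨max w0 ⌈4 * K / u⌉₊, u, hu0, ?_⟩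
  intro w hw N r hr hrK hN f hf hfc e1 e2 B' Bd1 Bd2 Bd3 he1 he2 hB' h1 h2 h3 h4 hC1 hC2 hC3 a ha
  have hw0 : w0 ≤ w := (le_max_left _ _).trans hw
  have hw1 : 4 * K / u ≤ w := Nat.ceil_le.1 ((le_max_right _ _).trans hw)
  have hNpos : 0 < N := lt_of_lt_of_le (by positivity) hN
  have h44 : (w : ℝ) ≤ 4 ^ w := by exact_mod_cast (Nat.lt_pow_self (by norm_num)).le
  have hPP : (PP w : ℝ) ≤ 4 ^ w := by exact_mod_cast SecMAux.PP_le w
  have hP0 : (0 : ℝ) ≤ PP w := Nat.cast_nonneg _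
  have hN' : (4 : ℝ) ^ (100 * w) ≤ N := by exact_mod_cast hN
  have hw2 : (0 : ℝ) ≤ K * w := by positivity
  have hR : ∀ R : ℕ, (R = r ∨ R = 2 * r) → (R : ℝ) ≤ 2 * K * w := by
    intro R hR
    rcases hR with rfl | rfl
    · linarith
    · push_cast
      linarith
  refine facMA k η (min (η / 4) 1) u (by positivity) (min_le_left _ _) (min_le_right _ _) hu0
    (by rw [hu]; exact min_le_left _ _) (by rw [hu]; exact min_le_right _ _) w N r hr ?_ hNpos hPP
    f hf hfc e1 e2 B' Bd1 Bd2 Bd3 he1 he2 hB' h1 h2 h3 h4 hC1 hC2 hC3 a ha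
    (fun R hR' => (hmom w hw0 N r R (hR R hR') hN a ha).1)
    (hmom w hw0 N r r (hR r (Or.inl rfl)) hN a ha).2
  have k1 : (r : ℝ) * PP w ≤ K * w * 4 ^ w :=
    mul_le_mul hrK hPP hP0 (by positivity)
  have k2 : K * w * 4 ^ w ≤ K * 4 ^ w * 4 ^ w := by gcongr
  have k3 : K ≤ u / 4 * w := by
    rw [div_le_iff₀ hu0] at hw1
    linarith
  have k4 : K ≤ u / 4 * 4 ^ w := k3.trans (mul_le_mul_of_nonneg_left h44 (by positivity))
  have k5 : (4 : ℝ) ^ w * 4 ^ w * 4 ^ w ≤ 4 ^ (100 * w) := by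
    rw [← pow_add, ← pow_add]
    exact pow_le_pow_right₀ (by norm_num) (by omega)
  calc (r : ℝ) * PP w ≤ K * 4 ^ w * 4 ^ w := k1.trans k2
    _ ≤ (u / 4 * 4 ^ w) * 4 ^ w * 4 ^ w := by gcongr
    _ = u / 4 * (4 ^ w * 4 ^ w * 4 ^ w) := by ring
    _ ≤ u / 4 * N := mul_le_mul_of_nonneg_left (k5.trans hN') (by positivity)

end Pool.Agent.Lib.LEN
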