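import Pool.Agent.Lib.LEN.Rough
import Pool.Agent.Lib.MT.WeightedAux
import Mathlib.NumberTheory.Chebyshev

/-!
# Beyond the threshold: no prime tuples of length r ≥ (1+ε) log X / log log X

`far`: there is c0 > 0 such that for every ε > 0, X large, Y ≤ X, (1+ε) log X/log log X ≤ r ≤ X^c0, all but
a share ε of the admissible r-tuples h in (Y, Y+X] have no n ≤ X with all n + h_i prime.

PROOF SKETCH. The number of pairs (n, h) with all n + h_i prime is ≤ X π(3X)^r ≤ X (8X/L)^r, L = log X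
(Chebyshev). The injective h with entries free of primes ≤ r are admissible, their number is
≥ (c X/log r)^r (Rough.lean). X (C log r/L)^r ≤ ε: if r ≤ L^2 then log r ≤ 2 log L and the exponent is
r (log L - log log L - C') ≥ (1 + ε/2) L; if r > L^2 then C log r/L ≤ 1/4 by the choice of c0.
-/

set_option autoImplicit false

open Finset Filter

namespace Pool.Agent.Lib.LEN

open Pool.Agent.HLB Pool.Agent.Lib.MP Pool.Agent.Lib.MT

/-- Distinct integers without local obstruction. -/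
def AdmI {r : ℕ} (h : Fin r → ℕ) : Prop :=
  Function.Injective h ∧ ∀ p : ℕ, p.Prime → nuI h p < p

/-- The r-tuples of integers in (Y, Y+X]. -/
def bx (r Y X : ℕ) : Finset (Fin r → ℕ) := Fintype.piFinset (fun _ => Finset.Ioc Y (Y + X))

theorem adm_of_rgh {r Y X : ℕ} {h : Fin r → ℕ} (hi : Function.Injective h)
    (hh : ∀ i, h i ∈ rgh r Y X) : AdmI h := by
  refine ⟨hi, fun p hp => ?_⟩
  have := Fact.mk hp
  unfold nuI
  rcases Nat.lt_or_ge r p with hrp | hrp
  · refine lt_of_le_of_lt Finset.card_image_le ?_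
    rw [Finset.card_univ, Fintype.card_fin]
    exact hrp
  · have h1 : Finset.univ.image (fun i : Fin r => (h i : ZMod p)) ⊆
        (Finset.univ : Finset (ZMod p)).erase 0 := by
      intro x hx
      obtain ⟨i, -, rfl⟩ := Finset.mem_image.mp hx
      refine Finset.mem_erase.mpr ⟨?_, Finset.mem_univ _⟩
      intro h0
      rw [ZMod.natCast_eq_zero_iff] at h0
      exact (Finset.mem_filter.mp (hh i)).2 p (Nat.mem_primesLE.mpr ⟨hrp, hp⟩) h0
    have h2 := Finset.card_le_card h1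
    rw [Finset.card_erase_of_mem (Finset.mem_univ _), Finset.card_univ, ZMod.card] at h2
    have := hp.pos
    omega

open scoped Classical in
theorem card_adm_ge (r Y X : ℕ) :
    (rgh r Y X).card.descFactorial r ≤ ((bx r Y X).filter AdmI).card := by
  have h1 : Fintype.card (Fin r ↪ {x // x ∈ rgh r Y X}) = (rgh r Y X).card.descFactorial r := by
    rw [Fintype.card_embedding_eq, Fintype.card_coe, Fintype.card_fin]
  rw [← h1, ← Finset.card_univ]
  refine Finset.card_le_card_of_injOn (fun e i => (e i : ℕ)) ?_ ?_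
  · intro e _
    rw [Finset.mem_coe, Finset.mem_filter]
    refine ⟨?_, adm_of_rgh (Y := Y) (X := X) ?_ fun i => (e i).2⟩
    · unfold bx
      rw [Fintype.mem_piFinset]
      intro i
      exact (Finset.mem_filter.mp (e i).2).1
    · intro i j hij
      exact e.injective (Subtype.ext hij)
  · intro e _ f _ hef
    ext i
    exact congrFun hef i

theorem card_up (r Y X : ℕ) (hY : Y ≤ X) :
    ((bx r Y X).filter (fun h => ∃ n ∈ Finset.Icc 1 (2 * X), ∀ i, (n + h i).Prime)).card ≤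
      2 * X * (Nat.primeCounting (4 * X)) ^ r := by
  have h1 : (bx r Y X).filter (fun h => ∃ n ∈ Finset.Icc 1 (2 * X), ∀ i, (n + h i).Prime) ⊆
      (Finset.Icc 1 (2 * X)).biUnion (fun n => (bx r Y X).filter (fun h => ∀ i, (n + h i).Prime)) := by
    intro h hh
    obtain ⟨h2, n, hn, h3⟩ := Finset.mem_filter.mp hh
    exact Finset.mem_biUnion.mpr ⟨n, hn, Finset.mem_filter.mpr ⟨h2, h3⟩⟩
  refine (Finset.card_le_card h1).trans (Finset.card_biUnion_le.trans ?_)
  have h2 : ∀ n ∈ Finset.Icc 1 (2 * X), ((bx r Y X).filter (fun h => ∀ i, (n + h i).Prime)).card ≤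
      (Nat.primeCounting (4 * X)) ^ r := by
    intro n hn
    have h3 : (bx r Y X).filter (fun h => ∀ i, (n + h i).Prime) =
        Fintype.piFinset (fun _ : Fin r => (Finset.Ioc Y (Y + X)).filter (fun m => (n + m).Prime)) := by
      ext h
      unfold bx
      simp only [Finset.mem_filter, Fintype.mem_piFinset]
      exact ⟨fun ⟨a, b⟩ i => ⟨a i, b i⟩, fun a => ⟨fun i => (a i).1, fun i => (a i).2⟩⟩
    rw [h3, Fintype.card_piFinset_const]
    refine Nat.pow_le_pow_left ?_ r
    rw [← Nat.primesLE_card_eq_primeCounting]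
    refine Finset.card_le_card_of_injOn (fun m => n + m) ?_ ?_
    · intro m hm
      obtain ⟨h4, h5⟩ := Finset.mem_filter.mp (Finset.mem_coe.mp hm)
      rw [Finset.mem_Ioc] at h4
      rw [Finset.mem_Icc] at hn
      rw [Finset.mem_coe, Nat.mem_primesLE]
      exact ⟨show n + m ≤ 4 * X by omega, h5⟩
    · intro a _ b _ hab
      exact Nat.add_left_cancel hab
  refine (Finset.sum_le_card_nsmul _ _ _ h2).trans ?_
  rw [Nat.card_Icc, smul_eq_mul, Nat.add_sub_cancel]

/-- Chebyshev. -/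
theorem pi_four : ∀ᶠ X : ℕ in atTop, (Nat.primeCounting (4 * X) : ℝ) ≤ 10 * X / Real.log X := by
  have h1 := Chebyshev.eventually_primeCounting_le (ε := 1) one_pos
  have h2 : Tendsto (fun X : ℕ => (4:ℝ) * X) atTop atTop :=
    Tendsto.const_mul_atTop (by norm_num) tendsto_natCast_atTop_atTop
  filter_upwards [h2.eventually h1, eventually_ge_atTop 2] with X hX hX2
  have e1 : ⌊(4:ℝ) * X⌋₊ = 4 * X := by
    have : ((4 * X : ℕ) : ℝ) = (4:ℝ) * X := by push_cast; ring
    rw [← this, Nat.floor_natCast]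
  rw [e1] at hX
  have hX0 : (2:ℝ) ≤ X := by exact_mod_cast hX2
  have hL : 0 < Real.log X := Real.log_pos (by linarith)
  have hL3 : Real.log X ≤ Real.log (4 * X) := Real.log_le_log (by linarith) (by linarith)
  have h4 : Real.log 4 ≤ 1.39 := by
    have : Real.log 4 = 2 * Real.log 2 := by
      rw [show (4:ℝ) = 2 ^ 2 by norm_num, Real.log_pow]; push_cast; ring
    rw [this]
    have := Real.log_two_lt_d9
    linarith
  refine hX.trans ?_
  calc (Real.log 4 + 1) * (4 * X) / Real.log (4 * X)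
      ≤ (Real.log 4 + 1) * (4 * X) / Real.log X := by
        refine div_le_div_of_nonneg_left ?_ hL hL3
        have : 0 ≤ Real.log 4 := Real.log_nonneg (by norm_num)
        positivity
    _ ≤ 10 * X / Real.log X := by
        refine div_le_div_of_nonneg_right ?_ hL.le
        nlinarith

/-- The exponent. -/
theorem expo (A : ℝ) (hA : 1 ≤ A) (ε δ : ℝ) (hε : 0 < ε) : ∃ L0 : ℝ, ∀ L : ℝ, L0 ≤ L → ∀ r : ℝ,
    2 ≤ r → (1 + ε) * (L / Real.log L) ≤ r → Real.log r ≤ L / (4 * A) →
    L + δ ≤ r * Real.log (L / (A * Real.log r)) := by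
  have hκ : 0 < ε / (2 * (1 + ε)) := by positivity
  have h1 : ∀ᶠ L : ℝ in atTop, 1 ≤ Real.log L := Real.tendsto_log_atTop.eventually_ge_atTop 1
  have h2 : ∀ᶠ L : ℝ in atTop, Real.log (2 * A) + Real.log (Real.log L) ≤
      ε / (2 * (1 + ε)) * Real.log L := by
    have e1 : ∀ᶠ M : ℝ in atTop, Real.log (2 * A) + Real.log M ≤ ε / (2 * (1 + ε)) * M := by
      have e2 := Real.isLittleO_log_id_atTop.def (show 0 < ε / (2 * (1 + ε)) / 2 by positivity)
      have e3 : ∀ᶠ M : ℝ in atTop, Real.log (2 * A) ≤ ε / (2 * (1 + ε)) / 2 * M :=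
        (Tendsto.const_mul_atTop (by positivity) tendsto_id).eventually_ge_atTop _
      filter_upwards [e2, e3, eventually_ge_atTop 1] with M h3 h4 h5
      rw [id, Real.norm_of_nonneg (Real.log_nonneg h5), Real.norm_of_nonneg (by linarith)] at h3
      linarith
    exact Real.tendsto_log_atTop.eventually e1
  have h3 : ∀ᶠ L : ℝ in atTop, δ ≤ ε / 2 * L :=
    (Tendsto.const_mul_atTop (by positivity) tendsto_id).eventually_ge_atTop _
  have h4 : ∀ᶠ L : ℝ in atTop, 1 + |δ| ≤ L := eventually_ge_atTop _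
  obtain ⟨L0, hL0⟩ := eventually_atTop.1 (h1.and (h2.and (h3.and (h4.and (eventually_ge_atTop 2)))))
  refine ⟨L0, fun L hL r hr2 hr hlr => ?_⟩
  obtain ⟨g1, g2, g3, g4, g5⟩ := hL0 L hL
  have hL0' : 0 < L := by linarith
  have hA0 : 0 < A := by linarith
  have hlr0 : 0 < Real.log r := Real.log_pos (by linarith)
  have hM0 : 0 < Real.log L := by linarith
  rcases le_total r (L ^ 2) with hc | hc
  · have e1 : Real.log r ≤ 2 * Real.log L := by
      have := Real.log_le_log (by linarith) hc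
      rwa [Real.log_pow, Nat.cast_ofNat] at this
    have e2 : L / (2 * A * Real.log L) ≤ L / (A * Real.log r) := by
      apply div_le_div_of_nonneg_left hL0'.le (by positivity)
      nlinarith
    have e3 : Real.log L - Real.log (2 * A) - Real.log (Real.log L) ≤
        Real.log (L / (A * Real.log r)) := by
      refine le_trans (le_of_eq ?_) (Real.log_le_log (by positivity) e2)
      rw [Real.log_div hL0'.ne' (by positivity),
        Real.log_mul (show 2 * A ≠ 0 by positivity) hM0.ne']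
      ring
    have e4 : (1 - ε / (2 * (1 + ε))) * Real.log L ≤ Real.log (L / (A * Real.log r)) := by
      linarith
    have e5 : 0 ≤ (1 - ε / (2 * (1 + ε))) * Real.log L := by
      have : ε / (2 * (1 + ε)) ≤ 1 := by
        rw [div_le_one (by positivity)]; linarith
      exact mul_nonneg (by linarith) hM0.le
    have e6 : (1 + ε) * (L / Real.log L) * ((1 - ε / (2 * (1 + ε))) * Real.log L) ≤
        r * Real.log (L / (A * Real.log r)) :=
      mul_le_mul hr e4 e5 (by linarith)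
    have e7 : (1 + ε) * (L / Real.log L) * ((1 - ε / (2 * (1 + ε))) * Real.log L) =
        (1 + ε / 2) * L := by
      field_simp
      ring
    rw [e7] at e6
    linarith
  · have e1 : 4 ≤ L / (A * Real.log r) := by
      rw [le_div_iff₀ (by positivity)]
      rw [le_div_iff₀ (by positivity)] at hlr
      linarith
    have e2 : 1 ≤ Real.log (L / (A * Real.log r)) := by
      have h5 : Real.log 4 ≤ Real.log (L / (A * Real.log r)) := Real.log_le_log (by norm_num) e1
      have h6 : Real.log 4 = 2 * Real.log 2 := by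
        rw [show (4:ℝ) = 2 ^ 2 by norm_num, Real.log_pow]; push_cast; ring
      have h7 := Real.log_two_gt_d9
      linarith
    have e3 : L ^ 2 * 1 ≤ r * Real.log (L / (A * Real.log r)) :=
      mul_le_mul hc e2 (by norm_num) (by linarith)
    have e4 : L + δ ≤ L ^ 2 := by
      have h5 : δ ≤ |δ| := le_abs_self δ
      have h6 : 0 ≤ |δ| := abs_nonneg δ
      nlinarith
    linarith

open scoped Classical in
/-- Beyond the threshold. -/
theorem far : ∃ c0 : ℝ, 0 < c0 ∧ ∀ ε : ℝ, 0 < ε → ∃ X0 : ℕ, ∀ X Y r : ℕ, X0 ≤ X → Y ≤ X →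
    (1 + ε) * (Real.log X / Real.log (Real.log X)) ≤ r → (r : ℝ) ≤ (X : ℝ) ^ c0 →
    (((bx r Y X).filter (fun h => AdmI h ∧ ∃ n ∈ Finset.Icc 1 (2 * X), ∀ i, (n + h i).Prime)).card : ℝ) ≤
      ε * (((bx r Y X).filter AdmI).card : ℝ) := by
  obtain ⟨K, hK⟩ := rgh_lower
  obtain ⟨cD, hcD, hD⟩ := DZ_lower
  set A : ℝ := max (80 / cD) 1 with hAdef
  have hA1 : 1 ≤ A := le_max_right _ _
  have hAc : 80 / cD ≤ A := le_max_left _ _
  have hA0 : 0 < A := by linarith
  refine ⟨min (1 / (4 * A)) (1 / (4 * (K + 1))), lt_min (by positivity) (by positivity), ?_⟩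
  intro ε hε
  obtain ⟨L0, hL0⟩ := expo A hA1 ε (Real.log 2 - Real.log ε) hε
  have hK2 : (0:ℝ) < 2 ^ K := by positivity
  have hev : ∀ᶠ X : ℕ in atTop, (Nat.primeCounting (4 * X) : ℝ) ≤ 10 * X / Real.log X ∧
      L0 ≤ Real.log X ∧ 1 ≤ Real.log X ∧ 2 ≤ Real.log X / Real.log (Real.log X) ∧
      (4 * 2 ^ K / cD) * (Real.log X) ^ 1 ≤ (X:ℝ) ^ (3/4 : ℝ) ∧
      (8 / cD) * (Real.log X) ^ 1 ≤ (X:ℝ) ^ (3/4 : ℝ) := by
    have e1 : ∀ᶠ L : ℝ in atTop, 2 ≤ L / Real.log L := by
      have e2 := Real.isLittleO_log_id_atTop.def (show (0:ℝ) < 1/2 by norm_num)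
      filter_upwards [e2, eventually_gt_atTop (1:ℝ)] with L h3 h4
      have h5 : 0 < Real.log L := Real.log_pos h4
      rw [id, Real.norm_of_nonneg h5.le, Real.norm_of_nonneg (by linarith)] at h3
      rw [le_div_iff₀ h5]
      linarith
    have e3 : Tendsto (fun X : ℕ => Real.log (X:ℝ)) atTop atTop :=
      Real.tendsto_log_atTop.comp tendsto_natCast_atTop_atTop
    filter_upwards [pi_four, Wtd.log_large L0, Wtd.log_large 1, e3.eventually e1,
      Wtd.log_pow_small 1 (4 * 2 ^ K / cD) (3/4) (by norm_num),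
      Wtd.log_pow_small 1 (8 / cD) (3/4) (by norm_num)] with X h1 h2 h3 h4 h5 h6
    exact ⟨h1, h2, h3, h4, h5, h6⟩
  obtain ⟨X0, hX0⟩ := eventually_atTop.1 hev
  refine ⟨max X0 3, fun X Y r hX hY hr hrX => ?_⟩
  obtain ⟨g1, g2, g3, g4, g5, g6⟩ := hX0 X ((le_max_left _ _).trans hX)
  have hX3 : 3 ≤ X := (le_max_right _ _).trans hX
  have hXr : (3:ℝ) ≤ X := by exact_mod_cast hX3
  have hXpos : (0:ℝ) < X := by linarith
  set L := Real.log X with hL
  have hLpos : 0 < L := by linarith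
  have hr2 : (2:ℝ) ≤ r := by
    refine le_trans ?_ hr
    have h5 : 0 ≤ ε * (L / Real.log L) := mul_nonneg hε.le (by linarith)
    linarith
  have hr2' : 2 ≤ r := by exact_mod_cast hr2
  have hrpos : (0:ℝ) < r := by linarith
  have hlr0 : 0 < Real.log r := Real.log_pos (by linarith)
  have hlrc : Real.log r ≤ min (1 / (4 * A)) (1 / (4 * ((K:ℝ) + 1))) * L := by
    have := Real.log_le_log hrpos hrX
    rwa [Real.log_rpow hXpos] at this
  have hlrA : Real.log r ≤ L / (4 * A) := by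
    refine hlrc.trans ?_
    calc min (1 / (4 * A)) (1 / (4 * ((K:ℝ) + 1))) * L ≤ 1 / (4 * A) * L :=
          mul_le_mul_of_nonneg_right (min_le_left _ _) hLpos.le
      _ = L / (4 * A) := by ring
  have hX1 : (1:ℝ) ≤ X := by linarith
  have hrX4 : (r:ℝ) ≤ (X:ℝ) ^ (1 / (4 * ((K:ℝ) + 1))) :=
    hrX.trans (Real.rpow_le_rpow_of_exponent_le hX1 (min_le_right _ _))
  have hX34 : (X:ℝ) ^ (1/4 : ℝ) * (X:ℝ) ^ (3/4 : ℝ) = X := by
    rw [← Real.rpow_add hXpos]; norm_num
  have hX14 : 0 < (X:ℝ) ^ (1/4 : ℝ) := by positivity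
  have hrX14 : (r:ℝ) ≤ (X:ℝ) ^ (1/4 : ℝ) := by
    refine hrX4.trans (Real.rpow_le_rpow_of_exponent_le hX1 ?_)
    rw [div_le_div_iff₀ (by positivity) (by norm_num)]
    have : (0:ℝ) ≤ K := Nat.cast_nonneg K
    linarith
  have hlogr : Real.log r ≤ L := by
    refine hlrA.trans ?_
    rw [div_le_iff₀ (by positivity)]
    nlinarith
  -- the number of rough integers
  have ha : cD / 4 * (X / Real.log r) ≤ ((rgh r Y X).card : ℝ) := by
    refine le_trans ?_ (hK r Y X)
    have e1 : (((r + 1) ^ K : ℕ) : ℝ) ≤ 2 ^ K * (X:ℝ) ^ (1/4 : ℝ) := by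
      push_cast
      calc ((r:ℝ) + 1) ^ K ≤ (2 * (X:ℝ) ^ (1 / (4 * ((K:ℝ) + 1)))) ^ K := by
            apply pow_le_pow_left₀ (by positivity)
            linarith
        _ = 2 ^ K * (X:ℝ) ^ (1 / (4 * ((K:ℝ) + 1)) * K) := by
            rw [mul_pow, Real.rpow_mul hXpos.le, Real.rpow_natCast]
        _ ≤ 2 ^ K * (X:ℝ) ^ (1/4 : ℝ) := by
            apply mul_le_mul_of_nonneg_left _ hK2.le
            apply Real.rpow_le_rpow_of_exponent_le hX1
            rw [div_mul_eq_mul_div, div_le_div_iff₀ (by positivity) (by norm_num)]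
            linarith
    have e2 : 2 ^ K * (X:ℝ) ^ (1/4 : ℝ) ≤ cD / 4 * (X / L) := by
      have e3 : (4 * 2 ^ K / cD) * L * (X:ℝ) ^ (1/4 : ℝ) ≤ X := by
        rw [pow_one] at g5
        calc (4 * 2 ^ K / cD) * L * (X:ℝ) ^ (1/4 : ℝ) ≤ (X:ℝ) ^ (3/4 : ℝ) * (X:ℝ) ^ (1/4 : ℝ) :=
              mul_le_mul_of_nonneg_right g5 hX14.le
          _ = X := by rw [mul_comm, hX34]
      have e4 : 2 ^ K * (X:ℝ) ^ (1/4 : ℝ) =
          cD / 4 * (((4 * 2 ^ K / cD) * L * (X:ℝ) ^ (1/4 : ℝ)) / L) := by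
        field_simp
      rw [e4]
      exact mul_le_mul_of_nonneg_left (div_le_div_of_nonneg_right e3 hLpos.le) (by positivity)
    have e5 : cD / 4 * (X / L) ≤ cD / 4 * (X / Real.log r) :=
      mul_le_mul_of_nonneg_left (div_le_div_of_nonneg_left hXpos.le hlr0 hlogr) (by positivity)
    have e6 := hD r hr2'
    have e7 : (1/2 : ℝ) * X * (cD / Real.log r) ≤ (1/2 : ℝ) * X * DZ r :=
      mul_le_mul_of_nonneg_left e6 (by positivity)
    have e8 : (1/2 : ℝ) * X * (cD / Real.log r) = cD / 4 * (X / Real.log r) +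
        cD / 4 * (X / Real.log r) := by ring
    linarith
  have har : 2 * (r:ℝ) ≤ ((rgh r Y X).card : ℝ) := by
    refine le_trans ?_ ha
    have e1 : (8 / cD) * L * (X:ℝ) ^ (1/4 : ℝ) ≤ X := by
      rw [pow_one] at g6
      calc (8 / cD) * L * (X:ℝ) ^ (1/4 : ℝ) ≤ (X:ℝ) ^ (3/4 : ℝ) * (X:ℝ) ^ (1/4 : ℝ) :=
            mul_le_mul_of_nonneg_right g6 hX14.le
        _ = X := by rw [mul_comm, hX34]
    have e2 : 2 * (X:ℝ) ^ (1/4 : ℝ) = cD / 4 * (((8 / cD) * L * (X:ℝ) ^ (1/4 : ℝ)) / L) := by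
      field_simp
      norm_num
    calc 2 * (r:ℝ) ≤ 2 * (X:ℝ) ^ (1/4 : ℝ) := by linarith
      _ = cD / 4 * (((8 / cD) * L * (X:ℝ) ^ (1/4 : ℝ)) / L) := e2
      _ ≤ cD / 4 * (X / L) :=
          mul_le_mul_of_nonneg_left (div_le_div_of_nonneg_right e1 hLpos.le) (by positivity)
      _ ≤ cD / 4 * (X / Real.log r) :=
          mul_le_mul_of_nonneg_left (div_le_div_of_nonneg_left hXpos.le hlr0 hlogr) (by positivity)
  set a := (rgh r Y X).card with hadef
  have hra : r ≤ a := by
    have : (r:ℝ) ≤ a := by linarith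
    exact_mod_cast this
  -- the ratio
  set T : ℝ := L / (A * Real.log r) with hT
  have hT0 : 0 < T := by positivity
  have hexp := hL0 L g2 r hr2 hr hlrA
  have hTr : 2 * (X:ℝ) ≤ ε * T ^ r := by
    have e1 : T ^ r = Real.exp (r * Real.log T) := by
      rw [mul_comm, Real.exp_mul, Real.exp_log hT0, Real.rpow_natCast]
    have e2 : Real.exp (L + (Real.log 2 - Real.log ε)) ≤ T ^ r := by
      rw [e1]
      exact Real.exp_le_exp.mpr hexp
    have e3 : Real.exp (L + (Real.log 2 - Real.log ε)) = X * (2 / ε) := by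
      rw [Real.exp_add, hL, Real.exp_log hXpos, Real.exp_sub, Real.exp_log (by norm_num),
        Real.exp_log hε]
    rw [e3] at e2
    calc 2 * (X:ℝ) = ε * (X * (2 / ε)) := by field_simp
      _ ≤ ε * T ^ r := mul_le_mul_of_nonneg_left e2 hε.le
  have hbase : 10 * X / L * T ≤ (a:ℝ) / 2 := by
    have e1 : 10 * X / L * T = 10 * (X / Real.log r) / A := by
      rw [hT]; field_simp
    rw [e1, div_le_iff₀ hA0]
    have e2 : (80 / cD) * (cD / 4 * (X / Real.log r)) ≤ A * a :=
      mul_le_mul hAc ha (by positivity) hA0.le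
    have e3 : (80 / cD) * (cD / 4 * (X / Real.log r)) = 20 * (X / Real.log r) := by
      field_simp
      norm_num
    rw [e3] at e2
    linarith
  -- conclusion
  have hup := card_up r Y X hY
  have hsub : ((bx r Y X).filter (fun h => AdmI h ∧ ∃ n ∈ Finset.Icc 1 (2 * X),
      ∀ i, (n + h i).Prime)).card ≤
      ((bx r Y X).filter (fun h => ∃ n ∈ Finset.Icc 1 (2 * X), ∀ i, (n + h i).Prime)).card := by
    apply Finset.card_le_card
    intro h hh
    obtain ⟨h1, h2, h3⟩ := Finset.mem_filter.mp hh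
    exact Finset.mem_filter.mpr ⟨h1, h3⟩
  have h1 : (((bx r Y X).filter (fun h => AdmI h ∧ ∃ n ∈ Finset.Icc 1 (2 * X),
      ∀ i, (n + h i).Prime)).card : ℝ) ≤ 2 * X * (10 * X / L) ^ r := by
    calc (((bx r Y X).filter (fun h => AdmI h ∧ ∃ n ∈ Finset.Icc 1 (2 * X),
          ∀ i, (n + h i).Prime)).card : ℝ) ≤
          ((2 * X * (Nat.primeCounting (4 * X)) ^ r : ℕ) : ℝ) := by exact_mod_cast hsub.trans hup
      _ = 2 * X * (Nat.primeCounting (4 * X) : ℝ) ^ r := by push_cast; ring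
      _ ≤ 2 * X * (10 * X / L) ^ r := by
          apply mul_le_mul_of_nonneg_left _ (by positivity)
          exact pow_le_pow_left₀ (Nat.cast_nonneg _) g1 r
  have h2 : ((a:ℝ) / 2) ^ r ≤ (((bx r Y X).filter AdmI).card : ℝ) := by
    have e1 : (a + 1 - r) ^ r ≤ a.descFactorial r := Nat.pow_sub_le_descFactorial a r
    have e2 := e1.trans (card_adm_ge r Y X)
    refine le_trans ?_ (show (((a + 1 - r) ^ r : ℕ) : ℝ) ≤ _ by exact_mod_cast e2)
    push_cast
    apply pow_le_pow_left₀ (by positivity)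
    rw [Nat.cast_sub (by omega)]
    push_cast
    linarith
  calc (((bx r Y X).filter (fun h => AdmI h ∧ ∃ n ∈ Finset.Icc 1 (2 * X),
        ∀ i, (n + h i).Prime)).card : ℝ) ≤ 2 * X * (10 * X / L) ^ r := h1
    _ ≤ ε * T ^ r * (10 * X / L) ^ r :=
        mul_le_mul_of_nonneg_right hTr (by positivity)
    _ = ε * (10 * X / L * T) ^ r := by rw [mul_pow]; ring
    _ ≤ ε * ((a:ℝ) / 2) ^ r := by
        apply mul_le_mul_of_nonneg_left _ hε.le
        exact pow_le_pow_left₀ (by positivity) hbase r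
    _ ≤ ε * (((bx r Y X).filter AdmI).card : ℝ) := mul_le_mul_of_nonneg_left h2 hε.le

end Pool.Agent.Lib.LEN
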