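import Pool.Agent.Lib.LEN.SMom
import Mathlib.NumberTheory.Primorial

/-!
# LEN.SecM: the second moment in one class (paper e87c7d_LEN.md, section 2)
-/

set_option autoImplicit false

open Finset Filter

namespace Pool.Agent.Lib.LEN

open Pool.Agent.HLB Pool.Agent.HLT Pool.Agent.HLR Pool.Agent.Lib.GMV

namespace SecMAux

lemma PP_pos (w : ℕ) : 0 < PP w :=
  Finset.prod_pos fun _ hp => (Nat.mem_primesLE.1 hp).2.pos

lemma PP_le (w : ℕ) : PP w ≤ 4 ^ w := by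
  have h : PP w = primorial w := by
    unfold PP primorial
    refine Finset.prod_congr ?_ fun _ _ => rfl
    ext p
    simp only [Nat.mem_primesLE, mem_filter, mem_range]
    constructor
    · rintro ⟨h1, h2⟩
      exact ⟨by omega, h2⟩
    · rintro ⟨h1, h2⟩
      exact ⟨by omega, h2⟩
  rw [h]
  exact primorial_le_four_pow w

lemma card_mod (u v P c : ℕ) (hP : 0 < P) (huv : u ≤ v) :
    ((v : ℝ) - u) / P - 1 ≤ (((Ioc u v).filter fun h => h % P = c % P).card : ℝ) ∧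
    (((Ioc u v).filter fun h => h % P = c % P).card : ℝ) ≤ ((v : ℝ) - u) / P + 1 := by
  have h := Nat.Ioc_filter_modEq_card u v hP c
  have e : (Ioc u v).filter (fun h => h % P = c % P) = (Ioc u v).filter (fun x => x ≡ c [MOD P]) := rfl
  rw [e]
  have hP0 : (0 : ℚ) < P := by exact_mod_cast hP
  have f1 := Int.floor_le (((v : ℚ) - c) / P)
  have f2 := Int.lt_floor_add_one (((v : ℚ) - c) / P)
  have f3 := Int.floor_le (((u : ℚ) - c) / P)
  have f4 := Int.lt_floor_add_one (((u : ℚ) - c) / P)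
  have huv' : ((u : ℚ) - c) / P ≤ ((v : ℚ) - c) / P := by
    apply div_le_div_of_nonneg_right _ hP0.le
    have : (u : ℚ) ≤ v := by exact_mod_cast huv
    linarith
  have hm : 0 ≤ ⌊((v : ℚ) - c) / P⌋ - ⌊((u : ℚ) - c) / P⌋ := sub_nonneg.2 (Int.floor_le_floor huv')
  rw [max_eq_left hm] at h
  have h' : ((((Ioc u v).filter fun x => x ≡ c [MOD P]).card : ℤ) : ℚ) =
      ((⌊((v : ℚ) - c) / P⌋ - ⌊((u : ℚ) - c) / P⌋ : ℤ) : ℚ) := by rw [h]
  push_cast at h'
  have d : ((v : ℚ) - c) / P - ((u : ℚ) - c) / P = ((v : ℚ) - u) / P := by ring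
  have g1 : ((v : ℚ) - u) / P - 1 ≤ (((Ioc u v).filter fun x => x ≡ c [MOD P]).card : ℚ) := by
    rw [h']; linarith
  have g2 : (((Ioc u v).filter fun x => x ≡ c [MOD P]).card : ℚ) ≤ ((v : ℚ) - u) / P + 1 := by
    rw [h']; linarith
  have g1' := (Rat.cast_le (K := ℝ)).2 g1
  have g2' := (Rat.cast_le (K := ℝ)).2 g2
  push_cast at g1' g2'
  exact ⟨g1', g2'⟩

lemma cls_eq (N w c : ℕ) : cls N w c = (Ioc 0 N).filter fun h => h % PP w = c % PP w := rfl

lemma card_cls (N w c : ℕ) : (N : ℝ) / PP w - 1 ≤ ((cls N w c).card : ℝ) ∧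
    ((cls N w c).card : ℝ) ≤ (N : ℝ) / PP w + 1 := by
  have h := card_mod 0 N (PP w) c (PP_pos w) (Nat.zero_le _)
  rw [cls_eq]
  simpa using h

lemma Good_mod (w : ℕ) {r : ℕ} (a : Fin r → ℕ) (n : ℕ) : Good w a (n % PP w) ↔ Good w a n := by
  unfold Good
  refine forall_congr' fun i => ?_
  have e : Nat.gcd (n % PP w + a i) (PP w) = Nat.gcd (n + a i) (PP w) := by
    have h1 : (n % PP w + a i) % PP w = (n + a i) % PP w := by
      rw [Nat.mod_add_mod]
    rw [Nat.gcd_comm, Nat.gcd_rec (PP w), Nat.gcd_comm (n + a i), Nat.gcd_rec (PP w) (n + a i), h1]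
  unfold Nat.Coprime
  rw [e]

lemma card_NA (N w : ℕ) {r : ℕ} (a : Fin r → ℕ) :
    (nA w a : ℝ) * ((N : ℝ) / PP w - 1) ≤ ((NA w N a).card : ℝ) := by
  classical
  have h1 : ((NA w N a).card : ℝ) = ∑ c ∈ (range (PP w)).filter (Good w a),
      (((Ioc N (2 * N)).filter fun h => h % PP w = c % PP w).card : ℝ) := by
    have h2 : (NA w N a).card = ∑ c ∈ (range (PP w)).filter (Good w a),
        ((NA w N a).filter fun n => n % PP w = c).card := by
      refine Finset.card_eq_sum_card_fiberwise fun n hn => ?_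
      rw [mem_coe, mem_filter, mem_range]
      refine ⟨Nat.mod_lt _ (PP_pos w), ?_⟩
      rw [Good_mod]
      unfold NA at hn
      exact (mem_filter.1 hn).2
    rw [h2]
    push_cast
    refine sum_congr rfl fun c hc => ?_
    rw [mem_filter, mem_range] at hc
    congr 2
    ext n
    unfold NA
    simp only [mem_filter]
    rw [Nat.mod_eq_of_lt hc.1]
    constructor
    · rintro ⟨⟨h3, h4⟩, h5⟩
      exact ⟨h3, h5⟩
    · rintro ⟨h3, h5⟩
      refine ⟨⟨h3, ?_⟩, h5⟩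
      rw [← Good_mod, h5]
      exact hc.2
  rw [h1]
  have h3 : ∀ c ∈ (range (PP w)).filter (Good w a), (N : ℝ) / PP w - 1 ≤
      (((Ioc N (2 * N)).filter fun h => h % PP w = c % PP w).card : ℝ) := by
    intro c _
    have h := (card_mod N (2 * N) (PP w) c (PP_pos w) (by omega)).1
    have e : ((2 * N : ℕ) : ℝ) - N = N := by push_cast; ring
    rw [e] at h
    exact h
  calc (nA w a : ℝ) * ((N : ℝ) / PP w - 1)
      = ∑ _c ∈ (range (PP w)).filter (Good w a), ((N : ℝ) / PP w - 1) := by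
        rw [sum_const, nsmul_eq_mul]
        rfl
    _ ≤ _ := sum_le_sum h3

lemma sum_FF (f : ℕ → ℝ) (N w : ℕ) {r : ℕ} (a : Fin r → ℕ) :
    ∑ h ∈ Hc N w a, FF f N h = ∑ n ∈ Ioc N (2 * N), ∏ i, AA f N w (a i) n := by
  unfold FF Hc AA
  rw [sum_comm]
  refine sum_congr rfl fun n _ => ?_
  rw [Finset.prod_univ_sum]

lemma sum_FF_sq (f : ℕ → ℝ) (N w : ℕ) {r : ℕ} (a : Fin r → ℕ) :
    ∑ h ∈ Hc N w a, FF f N h ^ 2 =
      ∑ x ∈ Ioc N (2 * N) ×ˢ Ioc N (2 * N), ∏ i, CC f N w (a i) x.1 x.2 := by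
  unfold FF Hc CC
  have h1 : ∀ h : Fin r → ℕ, (∑ n ∈ Ioc N (2 * N), ∏ i, f (n + h i)) ^ 2 =
      ∑ x ∈ Ioc N (2 * N) ×ˢ Ioc N (2 * N), ∏ i, (f (x.1 + h i) * f (x.2 + h i)) := by
    intro h
    rw [sq, sum_mul_sum, sum_product]
    refine sum_congr rfl fun n _ => sum_congr rfl fun n' _ => ?_
    rw [prod_mul_distrib]
  simp_rw [h1]
  rw [sum_comm]
  refine sum_congr rfl fun x _ => ?_
  rw [Finset.prod_univ_sum]

lemma CC_nonneg (f : ℕ → ℝ) (hf : ∀ m, 0 ≤ f m) (N w c n n' : ℕ) : 0 ≤ CC f N w c n n' :=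
  sum_nonneg fun _ _ => mul_nonneg (hf _) (hf _)

lemma AA_nonneg (f : ℕ → ℝ) (hf : ∀ m, 0 ≤ f m) (N w c n : ℕ) : 0 ≤ AA f N w c n :=
  sum_nonneg fun _ _ => hf _

lemma ss_nonneg (w d : ℕ) : 0 ≤ ss w d := by
  unfold ss
  refine prod_nonneg fun p hp => ?_
  have hp1 := (Nat.prime_of_mem_primeFactors (mem_filter.1 hp).1).one_lt
  have : (1 : ℝ) < p := by exact_mod_cast hp1
  rw [inv_nonneg, sub_nonneg, div_le_one (by linarith)]
  exact this.le

lemma coprime_of (w m m' : ℕ) (h : m % PP w = m' % PP w) :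
    Nat.Coprime m (PP w) ↔ Nat.Coprime m' (PP w) := by
  have e : Nat.gcd m (PP w) = Nat.gcd m' (PP w) := by
    rw [Nat.gcd_comm m, Nat.gcd_rec (PP w) m, Nat.gcd_comm m', Nat.gcd_rec (PP w) m', h]
  unfold Nat.Coprime
  rw [e]

/-- The correlation vanishes outside the good integers. -/
lemma CC_zero (f : ℕ → ℝ) (N w : ℕ) (hfc : ∀ m, N < m → f m ≠ 0 → Nat.Coprime m (PP w))
    (c n n' : ℕ) (hn : n ∈ Ioc N (2 * N)) (hn' : n' ∈ Ioc N (2 * N))
    (h : ¬ Nat.Coprime (n + c) (PP w) ∨ ¬ Nat.Coprime (n' + c) (PP w)) : CC f N w c n n' = 0 := by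
  unfold CC
  refine sum_eq_zero fun t ht => ?_
  unfold cls at ht
  have ht2 := (mem_filter.1 ht).2
  have key : ∀ m, m ∈ Ioc N (2 * N) → ¬ Nat.Coprime (m + c) (PP w) → f (m + t) = 0 := by
    intro m hm hc
    by_contra hne
    have h1 := hfc (m + t) (by rw [mem_Ioc] at hm; omega) hne
    apply hc
    rw [coprime_of w (m + c) (m + t)]
    · exact h1
    · rw [Nat.add_mod, ← ht2, ← Nat.add_mod]
  rcases h with h | h
  · rw [key n hn h, zero_mul]
  · rw [key n' hn' h, mul_zero]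

end SecMAux

open SecMAux

open scoped Classical in
/-- The second moment, with the moments of `ss` as hypotheses. -/
theorem secMA (η η' u : ℝ) (hη' : 0 ≤ η') (hη1 : η' ≤ η / 4) (hη'1 : η' ≤ 1) (hu : 0 < u)
    (hu1 : u ≤ 1 / 100) (hu2 : u ≤ η / 100) (w N r : ℕ) (hr : 1 ≤ r) (hPN : r * (PP w : ℝ) ≤ u / 4 * N)
    (hN : 0 < N) (f : ℕ → ℝ) (hf : ∀ m, 0 ≤ f m)
    (hfc : ∀ m, N < m → f m ≠ 0 → Nat.Coprime m (PP w))
    (e1 e2 B' : ℝ) (Bd0 : Finset ℕ) (Bd1 Bd2 Bd3 : Finset (ℕ × ℕ)) (he1 : 0 ≤ e1) (he2 : 0 ≤ e2)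
    (hB' : 1 ≤ B') (hs1 : r * e1 ≤ u) (hs0 : (Bd0.card : ℝ) * 4 ^ w ≤ u * N)
    (hs2 : (1 + e2) ^ r * Real.sqrt Bd1.card * 4 ^ w ≤ u * N)
    (hs3 : B' ^ r * Real.sqrt Bd2.card * 4 ^ w ≤ u * N)
    (hA : ∀ c, ∀ n ∈ Ioc N (2 * N), n ∉ Bd0 → Nat.Coprime (n + c) (PP w) →
      (N : ℝ) / PP w * (DZ w)⁻¹ * (1 - e1) ≤ AA f N w c n)
    (hC1 : ∀ c, ∀ n ∈ Ioc N (2 * N), ∀ n' ∈ Ioc N (2 * N), n ≠ n' → (n, n') ∉ Bd1 →
      Nat.Coprime (n + c) (PP w) → Nat.Coprime (n' + c) (PP w) →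
      CC f N w c n n' ≤ (N : ℝ) / PP w * (DZ w)⁻¹ ^ 2 * ss w (Nat.dist n n') * (1 + e1))
    (hC2 : ∀ c, ∀ n ∈ Ioc N (2 * N), ∀ n' ∈ Ioc N (2 * N), n ≠ n' → (n, n') ∉ Bd2 →
      Nat.Coprime (n + c) (PP w) → Nat.Coprime (n' + c) (PP w) →
      CC f N w c n n' ≤ (N : ℝ) / PP w * (DZ w)⁻¹ ^ 2 * ss w (Nat.dist n n') * (1 + e2))
    (hC3 : ∀ c, ∀ n ∈ Ioc N (2 * N), ∀ n' ∈ Ioc N (2 * N), n ≠ n' → (n, n') ∉ Bd3 →
      Nat.Coprime (n + c) (PP w) → Nat.Coprime (n' + c) (PP w) →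
      CC f N w c n n' ≤ (N : ℝ) / PP w * (DZ w)⁻¹ ^ 2 * ss w (Nat.dist n n') * B')
    (a : Fin r → ℕ) (hnA : 1 ≤ nA w a)
    (hmom : ∀ R : ℕ, (R = r ∨ R = 2 * r) → ∑ n ∈ NA w N a, ∑ n' ∈ (NA w N a).erase n,
      ss w (Nat.dist n n') ^ R ≤ (1 + η') * ((N : ℝ) * nA w a / PP w) ^ 2) :
    ∑ h ∈ Hc N w a, (FF f N h - MM N w a) ^ 2 ≤ η * (MM N w a ^ 2 * (Hc N w a).card) +
      ∑ x ∈ (Ioc N (2 * N) ×ˢ Ioc N (2 * N)).filter (fun x => x ∈ Bd3 ∨ x.1 = x.2),
        ∏ i, CC f N w (a i) x.1 x.2 := by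
  have hη : 0 < η := by
    by_contra hh
    have : η / 100 ≤ 0 := by linarith [not_lt.1 hh]
    linarith
  have hP0 : (0 : ℝ) < PP w := by exact_mod_cast PP_pos w
  have hN0 : (0 : ℝ) < N := by exact_mod_cast hN
  have hr0 : (0 : ℝ) < r := by exact_mod_cast (show 0 < r by omega)
  have hr1 : (1 : ℝ) ≤ r := by exact_mod_cast hr
  have hD0 : 0 < DZ w := DZ_pos w
  have hκ : 0 < (DZ w)⁻¹ := inv_pos.2 hD0
  have hP4 : (PP w : ℝ) ≤ 4 ^ w := by exact_mod_cast PP_le w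
  have h4 : (0 : ℝ) < 4 ^ w := by positivity
  set κ : ℝ := (DZ w)⁻¹ with hκdef
  set v : ℝ := (N : ℝ) / PP w with hv
  have hv0 : 0 < v := div_pos hN0 hP0
  set m : ℝ := (N : ℝ) * nA w a / PP w with hm
  have hnA1 : (1 : ℝ) ≤ nA w a := by exact_mod_cast hnA
  have hmv : m = v * nA w a := by rw [hm, hv]; ring
  have hvm : v ≤ m := by rw [hmv]; exact le_mul_of_one_le_right hv0.le hnA1
  have hm0 : 0 < m := lt_of_lt_of_le hv0 hvm
  set t : ℝ := v ^ r with ht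
  have ht0 : 0 < t := pow_pos hv0 r
  set q : ℝ := κ ^ r with hq
  have hq0 : 0 < q := pow_pos hκ r
  have hMM : MM N w a = m * q := by
    unfold MM
    rw [hq, hκdef, hm]
  -- the size of the class
  have hPv : (PP w : ℝ) / N = v⁻¹ := by rw [hv, inv_div]
  have hδ : r * v⁻¹ ≤ u / 4 := by
    rw [← hPv, mul_div_assoc', div_le_iff₀ hN0]
    exact hPN
  have hcardH : ((Hc N w a).card : ℝ) = ∏ i, ((cls N w (a i)).card : ℝ) := by
    unfold Hc
    rw [Fintype.card_piFinset]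
    push_cast
    rfl
  have hvi : 0 ≤ v⁻¹ := (inv_pos.2 hv0).le
  have hvi1 : v⁻¹ ≤ 1 / 400 := by
    have : v⁻¹ ≤ r * v⁻¹ := le_mul_of_one_le_left hvi hr1
    linarith
  have hv1 : 1 ≤ v := by
    have h1 : v⁻¹ * v = 1 := inv_mul_cancel₀ hv0.ne'
    nlinarith
  have hHup : ((Hc N w a).card : ℝ) ≤ t * (1 + u) := by
    rw [hcardH]
    calc ∏ i, ((cls N w (a i)).card : ℝ) ≤ ∏ _i : Fin r, (v + 1) :=
          prod_le_prod (fun _ _ => Nat.cast_nonneg _) fun i _ => (card_cls N w (a i)).2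
      _ = (v * (1 + v⁻¹)) ^ r := by
          rw [prod_const, card_univ, Fintype.card_fin, mul_add, mul_one, mul_inv_cancel₀ hv0.ne']
      _ = t * (1 + v⁻¹) ^ r := by rw [mul_pow]
      _ ≤ t * (1 + u) := by
          refine mul_le_mul_of_nonneg_left ?_ ht0.le
          have h1 : (1 + v⁻¹) ^ r ≤ Real.exp (r * v⁻¹) := by
            rw [Real.exp_nat_mul]
            refine pow_le_pow_left₀ (by linarith) ?_ r
            rw [add_comm]
            exact Real.add_one_le_exp _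
          have h2 : Real.exp (r * v⁻¹) ≤ 1 + 2 * (r * v⁻¹) := by
            have h3 := Real.exp_bound_div_one_sub_of_interval (x := r * v⁻¹) (by positivity)
              (by linarith)
            refine h3.trans ?_
            have h0 : 0 ≤ r * v⁻¹ := by positivity
            rw [div_le_iff₀ (by linarith)]
            nlinarith
          linarith
  have hHlo : t * (1 - u) ≤ ((Hc N w a).card : ℝ) := by
    rw [hcardH]
    calc t * (1 - u) ≤ t * (1 - v⁻¹) ^ r := by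
          refine mul_le_mul_of_nonneg_left ?_ ht0.le
          have h1 := one_add_mul_le_pow (a := -v⁻¹) (by linarith) r
          have e : 1 + -v⁻¹ = 1 - v⁻¹ := by ring
          rw [e] at h1
          nlinarith
      _ = (v - 1) ^ r := by
          rw [ht, ← mul_pow, mul_sub, mul_one, mul_inv_cancel₀ hv0.ne']
      _ = ∏ _i : Fin r, (v - 1) := by rw [prod_const, card_univ, Fintype.card_fin]
      _ ≤ _ := prod_le_prod (fun _ _ => by linarith) fun i _ => (card_cls N w (a i)).1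
  -- first moment
  have he1u : e1 ≤ u := by
    have : e1 ≤ r * e1 := le_mul_of_one_le_left he1 hr1
    linarith
  have hNA : m - u * m ≤ ((NA w N a).card : ℝ) := by
    have h1 := card_NA N w a
    have h2 : (nA w a : ℝ) * (v - 1) = m - nA w a := by rw [hmv]; ring
    have h3 : (nA w a : ℝ) = m * v⁻¹ := by
      rw [hmv, mul_assoc, mul_comm (nA w a : ℝ), ← mul_assoc, mul_inv_cancel₀ hv0.ne', one_mul]
    have h4 : m * v⁻¹ ≤ m * u := by
      refine mul_le_mul_of_nonneg_left ?_ hm0.le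
      have : v⁻¹ ≤ r * v⁻¹ := le_mul_of_one_le_left hvi hr1
      linarith
    rw [← hv] at h1
    linarith
  have hN4 : (N : ℝ) / 4 ^ w ≤ m := by
    refine le_trans ?_ hvm
    rw [hv]
    exact div_le_div_of_nonneg_left hN0.le hP0 hP4
  have hBd0 : (Bd0.card : ℝ) ≤ u * m := by
    have h1 : (Bd0.card : ℝ) ≤ u * N / 4 ^ w := by
      rw [le_div_iff₀ h4]
      exact hs0
    have h2 : u * N / 4 ^ w = u * (N / 4 ^ w) := by ring
    rw [h2] at h1
    exact h1.trans (mul_le_mul_of_nonneg_left hN4 hu.le)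
  have hS1 : m * q * t * (1 - 3 * u) ≤ ∑ h ∈ Hc N w a, FF f N h := by
    rw [sum_FF]
    have h1 : ∀ n ∈ NA w N a \ Bd0, t * q * (1 - u) ≤ ∏ i, AA f N w (a i) n := by
      intro n hn
      rw [Finset.mem_sdiff] at hn
      have hn1 : n ∈ Ioc N (2 * N) ∧ Good w a n := by
        have := hn.1
        unfold NA at this
        exact mem_filter.1 this
      calc t * q * (1 - u) ≤ (v * κ * (1 - e1)) ^ r := by
            rw [mul_pow, mul_pow, ← ht, ← hq]
            refine mul_le_mul_of_nonneg_left ?_ (by positivity)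
            have h2 := one_add_mul_le_pow (a := -e1) (by linarith) r
            have e : 1 + -e1 = 1 - e1 := by ring
            rw [e] at h2
            nlinarith
        _ = ∏ _i : Fin r, (v * κ * (1 - e1)) := by rw [prod_const, card_univ, Fintype.card_fin]
        _ ≤ _ := by
            refine prod_le_prod (fun _ _ => ?_) fun i _ => hA (a i) n hn1.1 hn.2 (hn1.2 i)
            have : 0 ≤ 1 - e1 := by linarith
            positivity
    have h2 : ∑ n ∈ NA w N a \ Bd0, ∏ i, AA f N w (a i) n ≤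
        ∑ n ∈ Ioc N (2 * N), ∏ i, AA f N w (a i) n := by
      refine sum_le_sum_of_subset_of_nonneg ?_ fun n _ _ => prod_nonneg fun i _ => AA_nonneg f hf _ _ _ _
      refine sdiff_subset.trans ?_
      unfold NA
      exact filter_subset _ _
    refine le_trans ?_ h2
    refine le_trans ?_ (sum_le_sum h1)
    rw [sum_const, nsmul_eq_mul]
    have h3 : m * (1 - 2 * u) ≤ ((NA w N a \ Bd0).card : ℝ) := by
      have h5 : (NA w N a).card ≤ (NA w N a \ Bd0).card + Bd0.card := by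
        exact Finset.card_le_card_sdiff_add_card
      have h6 : ((NA w N a).card : ℝ) ≤ (NA w N a \ Bd0).card + Bd0.card := by exact_mod_cast h5
      nlinarith
    have h7 : 0 ≤ t * q * (1 - u) := by
      have : 0 ≤ 1 - u := by linarith
      positivity
    refine le_trans ?_ (mul_le_mul_of_nonneg_right h3 h7)
    have h8 : 0 ≤ m * q * t * (2 * u ^ 2) := by positivity
    have h9 : m * (1 - 2 * u) * (t * q * (1 - u)) =
        m * q * t * (1 - 3 * u) + m * q * t * (2 * u ^ 2) := by ring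
    linarith
  -- second moment
  set G : Finset (ℕ × ℕ) := (NA w N a ×ˢ NA w N a).filter (fun x => x.1 ≠ x.2) with hG
  set T : ℕ × ℕ → ℝ := fun x => ∏ i, CC f N w (a i) x.1 x.2 with hT
  set s : ℕ × ℕ → ℝ := fun x => ss w (Nat.dist x.1 x.2) with hs
  have hT0 : ∀ x, 0 ≤ T x := fun x => prod_nonneg fun i _ => CC_nonneg f hf _ _ _ _ _
  have hs0' : ∀ x, 0 ≤ s x := fun x => ss_nonneg _ _
  have hmomG : ∀ R : ℕ, (R = r ∨ R = 2 * r) → ∑ x ∈ G, s x ^ R ≤ (1 + η') * m ^ 2 := by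
    intro R hR
    refine le_trans (le_of_eq ?_) (hmom R hR)
    rw [hG, sum_filter, sum_product]
    refine sum_congr rfl fun n hn => ?_
    rw [← sum_filter]
    refine sum_congr ?_ fun n' _ => rfl
    ext n'
    simp only [mem_filter, mem_erase]
    constructor
    · rintro ⟨h1, h2⟩
      exact ⟨fun h => h2 h.symm, h1⟩
    · rintro ⟨h1, h2⟩
      exact ⟨h2, fun h => h1 h.symm⟩
  have hCS : ∀ A : Finset (ℕ × ℕ), ∀ c : ℝ, 0 ≤ c → c * Real.sqrt A.card * 4 ^ w ≤ u * N →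
      c * ∑ x ∈ G.filter (fun x => x ∈ A), s x ^ r ≤ 3 / 2 * u * m ^ 2 := by
    intro A c hc hcA
    have h1 : (∑ x ∈ G.filter (fun x => x ∈ A), s x ^ r) ^ 2 ≤ A.card * (2 * m ^ 2) := by
      refine (sq_sum_le_card_mul_sum_sq).trans ?_
      refine mul_le_mul ?_ ?_ (sum_nonneg fun _ _ => by positivity) (Nat.cast_nonneg _)
      · have : (G.filter (fun x => x ∈ A)).card ≤ A.card :=
          card_le_card fun x hx => (mem_filter.1 hx).2
        exact_mod_cast this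
      · have h2 : ∑ x ∈ G.filter (fun x => x ∈ A), (s x ^ r) ^ 2 ≤ ∑ x ∈ G, s x ^ (2 * r) := by
          refine le_trans (le_of_eq (sum_congr rfl fun x _ => ?_))
            (sum_le_sum_of_subset_of_nonneg (filter_subset _ _) fun x _ _ => pow_nonneg (hs0' x) _)
          rw [← pow_mul, mul_comm]
        refine h2.trans ((hmomG _ (Or.inr rfl)).trans ?_)
        nlinarith [sq_nonneg m]
    have h2 : ∑ x ∈ G.filter (fun x => x ∈ A), s x ^ r ≤ Real.sqrt A.card * (3 / 2 * m) := by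
      refine abs_le_of_sq_le_sq' ?_ (by positivity) |>.2
      rw [mul_pow, Real.sq_sqrt (Nat.cast_nonneg _)]
      refine h1.trans ?_
      refine mul_le_mul_of_nonneg_left ?_ (Nat.cast_nonneg _)
      nlinarith [sq_nonneg m]
    have h3 : c * Real.sqrt A.card ≤ u * m := by
      have h5 : c * Real.sqrt A.card ≤ u * N / 4 ^ w := by
        rw [le_div_iff₀ h4]
        exact hcA
      have h6 : u * N / 4 ^ w = u * (N / 4 ^ w) := by ring
      rw [h6] at h5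
      exact h5.trans (mul_le_mul_of_nonneg_left hN4 hu.le)
    calc c * ∑ x ∈ G.filter (fun x => x ∈ A), s x ^ r ≤ c * (Real.sqrt A.card * (3 / 2 * m)) :=
          mul_le_mul_of_nonneg_left h2 hc
      _ = (c * Real.sqrt A.card) * (3 / 2 * m) := by ring
      _ ≤ (u * m) * (3 / 2 * m) := mul_le_mul_of_nonneg_right h3 (by positivity)
      _ = 3 / 2 * u * m ^ 2 := by ring
  set R : ℝ := ∑ x ∈ (Ioc N (2 * N) ×ˢ Ioc N (2 * N)).filter (fun x => x ∈ Bd3 ∨ x.1 = x.2), T x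
    with hRdef
  have hvκ : (v * κ ^ 2) ^ r = t * q ^ 2 := by
    rw [mul_pow, ← ht, hq, ← pow_mul, ← pow_mul, mul_comm 2 r]
  have hprod : ∀ (x : ℕ × ℕ) (e : ℝ), (∀ i, CC f N w (a i) x.1 x.2 ≤ v * κ ^ 2 * s x * e) →
      T x ≤ t * q ^ 2 * (e ^ r * s x ^ r) := by
    intro x e he
    calc T x ≤ ∏ _i : Fin r, (v * κ ^ 2 * s x * e) :=
          prod_le_prod (fun i _ => CC_nonneg f hf _ _ _ _ _) fun i _ => he i
      _ = (v * κ ^ 2) ^ r * (e ^ r * s x ^ r) := by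
          rw [prod_const, card_univ, Fintype.card_fin, mul_pow, mul_pow]
          ring
      _ = _ := by rw [hvκ]
  have hS2 : ∑ h ∈ Hc N w a, FF f N h ^ 2 ≤ R + t * q ^ 2 * (((1 + 2 * u) * (1 + η') + 3 * u) * m ^ 2) := by
    rw [sum_FF_sq]
    have e1' : (1 + e1) ^ r ≤ 1 + 2 * u := by
      have h1 : (1 + e1) ^ r ≤ Real.exp (r * e1) := by
        rw [Real.exp_nat_mul]
        refine pow_le_pow_left₀ (by linarith) ?_ r
        rw [add_comm]
        exact Real.add_one_le_exp _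
      have h2 : Real.exp (r * e1) ≤ Real.exp u := Real.exp_le_exp.2 hs1
      have h3 : Real.exp u ≤ 1 + 2 * u := by
        have h3 := Real.exp_bound_div_one_sub_of_interval (x := u) hu.le (by linarith)
        refine h3.trans ?_
        rw [div_le_iff₀ (by linarith)]
        nlinarith
      linarith
    have hsub : NA w N a ×ˢ NA w N a ⊆ Ioc N (2 * N) ×ˢ Ioc N (2 * N) := by
      refine product_subset_product ?_ ?_ <;>
      · unfold NA
        exact filter_subset _ _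
    have h1 : ∑ x ∈ Ioc N (2 * N) ×ˢ Ioc N (2 * N), T x = ∑ x ∈ NA w N a ×ˢ NA w N a, T x := by
      symm
      refine sum_subset hsub fun x hx hx2 => ?_
      rw [mem_product] at hx hx2
      have h2 : ∃ i, ¬ Nat.Coprime (x.1 + a i) (PP w) ∨ ¬ Nat.Coprime (x.2 + a i) (PP w) := by
        by_contra hcon
        push Not at hcon
        apply hx2
        unfold NA
        rw [mem_filter, mem_filter]
        exact ⟨⟨hx.1, fun i => (hcon i).1⟩, ⟨hx.2, fun i => (hcon i).2⟩⟩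
      obtain ⟨i, hi⟩ := h2
      exact prod_eq_zero (mem_univ i) (CC_zero f N w hfc (a i) x.1 x.2 hx.1 hx.2 hi)
    rw [h1]
    have h2 : ∀ x ∈ NA w N a ×ˢ NA w N a, T x ≤ (if x ∈ Bd3 ∨ x.1 = x.2 then T x else 0) +
        t * q ^ 2 * (if x.1 ≠ x.2 then (1 + e1) ^ r * s x ^ r +
          ((1 + e2) ^ r * (if x ∈ Bd1 then s x ^ r else 0) +
            B' ^ r * (if x ∈ Bd2 then s x ^ r else 0)) else 0) := by
      intro x hx
      have hx' := hx
      rw [mem_product] at hx'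
      unfold NA at hx'
      rw [mem_filter, mem_filter] at hx'
      obtain ⟨⟨hx1, hg1⟩, ⟨hx2, hg2⟩⟩ := hx'
      have hsr : 0 ≤ s x ^ r := pow_nonneg (hs0' x) r
      have hb1 : 0 ≤ (1 + e1) ^ r * s x ^ r := mul_nonneg (pow_nonneg (by linarith) r) hsr
      have hb2 : 0 ≤ (1 + e2) ^ r * (if x ∈ Bd1 then s x ^ r else 0) := by
        refine mul_nonneg (pow_nonneg (by linarith) r) ?_
        split_ifs
        · exact hsr
        · exact le_rfl
      have hb3 : 0 ≤ B' ^ r * (if x ∈ Bd2 then s x ^ r else 0) := by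
        refine mul_nonneg (pow_nonneg (by linarith) r) ?_
        split_ifs
        · exact hsr
        · exact le_rfl
      have htq : 0 ≤ t * q ^ 2 := by positivity
      by_cases h3 : x ∈ Bd3 ∨ x.1 = x.2
      · rw [if_pos h3]
        have : 0 ≤ t * q ^ 2 * (if x.1 ≠ x.2 then (1 + e1) ^ r * s x ^ r +
          ((1 + e2) ^ r * (if x ∈ Bd1 then s x ^ r else 0) +
            B' ^ r * (if x ∈ Bd2 then s x ^ r else 0)) else 0) := by
          refine mul_nonneg htq ?_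
          by_cases h9 : x.1 ≠ x.2
          · rw [if_pos h9]
            linarith
          · rw [if_neg h9]
        linarith
      · rw [if_neg h3, zero_add]
        push Not at h3
        obtain ⟨h3a, h3b⟩ := h3
        rw [if_pos h3b]
        by_cases h5 : x ∈ Bd1
        · by_cases h6 : x ∈ Bd2
          · have h7 := hprod x B' fun i => hC3 (a i) x.1 hx1 x.2 hx2 h3b h3a (hg1 i) (hg2 i)
            refine h7.trans (mul_le_mul_of_nonneg_left ?_ htq)
            rw [if_pos h6]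
            linarith
          · have h7 := hprod x (1 + e2) fun i => hC2 (a i) x.1 hx1 x.2 hx2 h3b h6 (hg1 i) (hg2 i)
            refine h7.trans (mul_le_mul_of_nonneg_left ?_ htq)
            rw [if_pos h5]
            linarith
        · have h7 := hprod x (1 + e1) fun i => hC1 (a i) x.1 hx1 x.2 hx2 h3b h5 (hg1 i) (hg2 i)
          refine h7.trans (mul_le_mul_of_nonneg_left ?_ htq)
          linarith
    refine (sum_le_sum h2).trans ?_
    rw [sum_add_distrib]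
    refine add_le_add ?_ ?_
    · rw [← sum_filter, hRdef]
      refine sum_le_sum_of_subset_of_nonneg (filter_subset_filter _ hsub) fun x _ _ => hT0 x
    · rw [← mul_sum]
      refine mul_le_mul_of_nonneg_left ?_ (by positivity)
      rw [← sum_filter, sum_add_distrib, sum_add_distrib, ← mul_sum, ← mul_sum, ← mul_sum,
        ← sum_filter, ← sum_filter]
      have g1 := hmomG r (Or.inl rfl)
      have g2 := hCS Bd1 ((1 + e2) ^ r) (pow_nonneg (by linarith) r) hs2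
      have g3 := hCS Bd2 (B' ^ r) (pow_nonneg (by linarith) r) hs3
      have g4 : (1 + e1) ^ r * ∑ x ∈ G, s x ^ r ≤ (1 + 2 * u) * ((1 + η') * m ^ 2) :=
        mul_le_mul e1' g1 (sum_nonneg fun x _ => pow_nonneg (hs0' x) r) (by linarith)
      rw [hG] at g2 g3 g4
      nlinarith
  -- conclusion
  have hexp : ∑ h ∈ Hc N w a, (FF f N h - MM N w a) ^ 2 = ∑ h ∈ Hc N w a, FF f N h ^ 2 -
      2 * MM N w a * ∑ h ∈ Hc N w a, FF f N h + MM N w a ^ 2 * (Hc N w a).card := by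
    have : ∀ h : Fin r → ℕ, (FF f N h - MM N w a) ^ 2 =
        FF f N h ^ 2 - 2 * MM N w a * FF f N h + MM N w a ^ 2 := fun h => by ring
    simp_rw [this]
    rw [sum_add_distrib, sum_sub_distrib, ← mul_sum, sum_const, nsmul_eq_mul]
    ring
  rw [hexp, hMM]
  have hmq : 0 < m * q := mul_pos hm0 hq0
  have k1 : m * q * (m * q * t * (1 - 3 * u)) ≤ m * q * ∑ h ∈ Hc N w a, FF f N h :=
    mul_le_mul_of_nonneg_left hS1 hmq.le
  have k2 : (m * q) ^ 2 * ((Hc N w a).card : ℝ) ≤ (m * q) ^ 2 * (t * (1 + u)) :=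
    mul_le_mul_of_nonneg_left hHup (by positivity)
  have k3 : (m * q) ^ 2 * (t * (1 - u)) ≤ (m * q) ^ 2 * ((Hc N w a).card : ℝ) :=
    mul_le_mul_of_nonneg_left hHlo (by positivity)
  have Z0 : 0 < (m * q) ^ 2 * t := by positivity
  have k4 : t * q ^ 2 * (((1 + 2 * u) * (1 + η') + 3 * u) * m ^ 2) =
      ((m * q) ^ 2 * t) * ((1 + 2 * u) * (1 + η') + 3 * u) := by ring
  have k5 : (1 + 2 * u) * (1 + η') + 3 * u - 2 * (1 - 3 * u) + (1 + u) ≤ η * (1 - u) := by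
    nlinarith
  have k6 : ((m * q) ^ 2 * t) * ((1 + 2 * u) * (1 + η') + 3 * u - 2 * (1 - 3 * u) + (1 + u)) ≤
      ((m * q) ^ 2 * t) * (η * (1 - u)) := mul_le_mul_of_nonneg_left k5 Z0.le
  have k7 : η * ((m * q) ^ 2 * (t * (1 - u))) ≤ η * ((m * q) ^ 2 * ((Hc N w a).card : ℝ)) :=
    mul_le_mul_of_nonneg_left k3 hη.le
  rw [k4] at hS2
  nlinarith

theorem secM (K η : ℝ) (hK : 0 < K) (hη : 0 < η) : ∃ w0 : ℕ, ∃ u : ℝ, 0 < u ∧ ∀ w : ℕ, w0 ≤ w →
    ∀ N r : ℕ, 1 ≤ r → (r : ℝ) ≤ K * w → 4 ^ (100 * w) ≤ N →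
    ∀ f : ℕ → ℝ, (∀ m, 0 ≤ f m) → (∀ m, N < m → f m ≠ 0 → Nat.Coprime m (PP w)) →
    ∀ (e1 e2 B' : ℝ) (Bd0 : Finset ℕ) (Bd1 Bd2 Bd3 : Finset (ℕ × ℕ)), 0 ≤ e1 → 0 ≤ e2 → 1 ≤ B' →
    r * e1 ≤ u → (Bd0.card : ℝ) * 4 ^ w ≤ u * N →
    (1 + e2) ^ r * Real.sqrt Bd1.card * 4 ^ w ≤ u * N →
    B' ^ r * Real.sqrt Bd2.card * 4 ^ w ≤ u * N →
    (∀ c, ∀ n ∈ Ioc N (2 * N), n ∉ Bd0 → Nat.Coprime (n + c) (PP w) →
      (N : ℝ) / PP w * (DZ w)⁻¹ * (1 - e1) ≤ AA f N w c n) →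
    (∀ c, ∀ n ∈ Ioc N (2 * N), ∀ n' ∈ Ioc N (2 * N), n ≠ n' → (n, n') ∉ Bd1 →
      Nat.Coprime (n + c) (PP w) → Nat.Coprime (n' + c) (PP w) →
      CC f N w c n n' ≤ (N : ℝ) / PP w * (DZ w)⁻¹ ^ 2 * ss w (Nat.dist n n') * (1 + e1)) →
    (∀ c, ∀ n ∈ Ioc N (2 * N), ∀ n' ∈ Ioc N (2 * N), n ≠ n' → (n, n') ∉ Bd2 →
      Nat.Coprime (n + c) (PP w) → Nat.Coprime (n' + c) (PP w) →
      CC f N w c n n' ≤ (N : ℝ) / PP w * (DZ w)⁻¹ ^ 2 * ss w (Nat.dist n n') * (1 + e2)) →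
    (∀ c, ∀ n ∈ Ioc N (2 * N), ∀ n' ∈ Ioc N (2 * N), n ≠ n' → (n, n') ∉ Bd3 →
      Nat.Coprime (n + c) (PP w) → Nat.Coprime (n' + c) (PP w) →
      CC f N w c n n' ≤ (N : ℝ) / PP w * (DZ w)⁻¹ ^ 2 * ss w (Nat.dist n n') * B') →
    ∀ a : Fin r → ℕ, 1 ≤ nA w a →
    ∑ h ∈ Hc N w a, (FF f N h - MM N w a) ^ 2 ≤ η * (MM N w a ^ 2 * (Hc N w a).card) +
      ∑ x ∈ (Ioc N (2 * N) ×ˢ Ioc N (2 * N)).filter (fun x => x ∈ Bd3 ∨ x.1 = x.2),
        ∏ i, CC f N w (a i) x.1 x.2 := by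
  obtain ⟨w0, hmom⟩ := smom (2 * K) (min (η / 4) 1) (by positivity) (by positivity)
  obtain ⟨u, hu⟩ : ∃ u : ℝ, u = min (1 / 100) (η / 100) := ⟨_, rfl⟩
  have hu0 : 0 < u := by rw [hu]; positivity
  refine ⟨max w0 ⌈4 * K / u⌉₊, u, hu0, ?_⟩
  intro w hw N r hr hrK hN f hf hfc e1 e2 B' Bd0 Bd1 Bd2 Bd3 he1 he2 hB' h1 h2 h3 h4 hA hC1 hC2 hC3
    a ha
  have hw0 : w0 ≤ w := (le_max_left _ _).trans hw
  have hw1 : 4 * K / u ≤ w := Nat.ceil_le.1 ((le_max_right _ _).trans hw)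
  have hNpos : 0 < N := lt_of_lt_of_le (by positivity) hN
  have h44 : (w : ℝ) ≤ 4 ^ w := by exact_mod_cast (Nat.lt_pow_self (by norm_num)).le
  have hPP : (PP w : ℝ) ≤ 4 ^ w := by exact_mod_cast PP_le w
  have hP0 : (0 : ℝ) ≤ PP w := Nat.cast_nonneg _
  have hN' : (4 : ℝ) ^ (100 * w) ≤ N := by exact_mod_cast hN
  have h4w1 : (1 : ℝ) ≤ 4 ^ w := one_le_pow₀ (by norm_num)
  refine secMA η (min (η / 4) 1) u (by positivity) (min_le_left _ _) (min_le_right _ _) hu0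
    (by rw [hu]; exact min_le_left _ _) (by rw [hu]; exact min_le_right _ _) w N r hr ?_ hNpos f hf
    hfc e1 e2 B' Bd0 Bd1 Bd2 Bd3 he1 he2 hB' h1 h2 h3 h4 hA hC1 hC2 hC3 a ha ?_
  · have k1 : (r : ℝ) * PP w ≤ K * w * 4 ^ w :=
      mul_le_mul hrK hPP hP0 (by positivity)
    have k2 : K * w * 4 ^ w ≤ K * 4 ^ w * 4 ^ w := by gcongr
    have k3 : K ≤ u / 4 * w := by
      rw [div_le_iff₀ hu0] at hw1
      linarith
    have k4 : K ≤ u / 4 * 4 ^ w := k3.trans (mul_le_mul_of_nonneg_left h44 (by positivity))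
    have k5 : (4 : ℝ) ^ w * 4 ^ w * 4 ^ w ≤ 4 ^ (100 * w) := by
      rw [← pow_add, ← pow_add]
      exact pow_le_pow_right₀ (by norm_num) (by omega)
    calc (r : ℝ) * PP w ≤ K * 4 ^ w * 4 ^ w := k1.trans k2
      _ ≤ (u / 4 * 4 ^ w) * 4 ^ w * 4 ^ w := by gcongr
      _ = u / 4 * (4 ^ w * 4 ^ w * 4 ^ w) := by ring
      _ ≤ u / 4 * N := mul_le_mul_of_nonneg_left (k5.trans hN') (by positivity)
  · intro R hR
    refine hmom w hw0 N r R ?_ hN a ha
    have hw2 : (0 : ℝ) ≤ K * w := by positivity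
    rcases hR with rfl | rfl
    · linarith
    · push_cast
      linarith

end Pool.Agent.Lib.LEN
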