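import Pool.Agent.Lib.LEN.Far
import Pool.Agent.Lib.HLB.SingTail
import Pool.Agent.Lib.HLT.Defs

/-!
# Crude pair correlations, without classes

PROOF SKETCH. `tuple_upperI 2` (Selberg) and SI (n, n') ≤ SZ z (n, n') exp(16 log(2N+1)/(z log z)) with
z = ⌊log N⌋; SZ z ≤ (DZ z)⁻¹ ≤ C log z. Inadmissible pairs: at most 2 primes. Second moment: Chebyshev.
-/

set_option autoImplicit false

open Finset Filter

namespace Pool.Agent.Lib.LEN

open Pool.Agent.HLB Pool.Agent.HLT Pool.Agent.Lib.MP Pool.Agent.Lib.MT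

theorem locI_pair_le {t : Fin 2 → ℕ} {p : ℕ} (hp : p.Prime) : locI t p ≤ (1 - 1 / (p:ℝ))⁻¹ := by
  unfold locI
  have h1 : (1:ℝ) ≤ nuI t p := by
    have h2 : 0 < nuI t p := by
      unfold nuI
      exact Finset.card_pos.mpr ⟨_, Finset.mem_image_of_mem _ (Finset.mem_univ 0)⟩
    exact_mod_cast h2
  have hp0 : (0:ℝ) < p := by exact_mod_cast hp.pos
  have h3 := Pool.Agent.HL.one_sub_inv_pos hp
  have h2 : (1:ℝ) - nuI t p / p ≤ 1 - 1 / p := by
    have : (1:ℝ) / p ≤ nuI t p / p := div_le_div_of_nonneg_right h1 hp0.le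
    linarith
  rw [Fintype.card_fin]
  calc (1 - (nuI t p : ℝ) / p) * ((1 - 1 / (p:ℝ))⁻¹) ^ 2
      ≤ (1 - 1 / p) * ((1 - 1 / (p:ℝ))⁻¹) ^ 2 :=
        mul_le_mul_of_nonneg_right h2 (by positivity)
    _ = (1 - 1 / (p:ℝ))⁻¹ := by
        rw [pow_two, ← mul_assoc, mul_inv_cancel₀ h3.ne', one_mul]

theorem SZ_pair_le (t : Fin 2 → ℕ) (z : ℕ) (h0 : ∀ p ∈ Nat.primesLE z, 0 ≤ locI t p) :
    SZ z t ≤ (DZ z)⁻¹ := by
  unfold SZ DZ
  rw [← Finset.prod_inv_distrib]
  exact Finset.prod_le_prod h0 fun p hp => locI_pair_le (Nat.prime_of_mem_primesLE hp)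

/-- The singular series of a pair. -/
theorem SI_pair : ∃ C : ℝ, 0 < C ∧ ∀ᶠ N : ℕ in atTop, ∀ t : Fin 2 → ℕ, Function.Injective t →
    (∀ i, t i ≤ 2 * N) → SI t ≤ C * Real.log (Real.log N) := by
  obtain ⟨cD, hcD, hD⟩ := DZ_lower
  refine ⟨Real.exp 128 / cD, by positivity, ?_⟩
  filter_upwards [Wtd.log_large 4, eventually_ge_atTop 3] with N hL hN3 t ht htN
  have hNr : (3:ℝ) ≤ N := by exact_mod_cast hN3
  have hN0 : (0:ℝ) < N := by linarith
  set L := Real.log N with hLdef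
  set z := ⌊L⌋₊ with hz
  have hz1 : (z:ℝ) ≤ L := Nat.floor_le (by linarith)
  have hz2 : L - 1 < z := Nat.sub_one_lt_floor _
  have hz3 : 2 ≤ z := Nat.le_floor (by push_cast; linarith)
  have hz3r : (2:ℝ) ≤ z := by exact_mod_cast hz3
  have hlogz : 1/2 ≤ Real.log z := by
    have h1 := Real.log_le_log (by norm_num) hz3r
    have h2 := Real.log_two_gt_d9
    linarith
  have hlogzL : Real.log z ≤ Real.log L := Real.log_le_log (by linarith) hz1
  have h1 := SI_le_SZ t (by simp) ht (2 * N) z hz3 htN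
  rw [Fintype.card_fin] at h1
  have h2 := SZ_pair_le t z fun p hp => locI_nonneg t (Nat.prime_of_mem_primesLE hp)
  have h3 : (DZ z)⁻¹ ≤ Real.log z / cD := by
    have h4 := hD z hz3
    have h5 : 0 < cD / Real.log z := by positivity
    have h6 := inv_anti₀ h5 h4
    rwa [inv_div] at h6
  have h4 : Real.log ((2 * N + 1 : ℕ) : ℝ) ≤ 2 * L := by
    have e1 : Real.log ((2 * N + 1 : ℕ) : ℝ) ≤ Real.log ((N:ℝ) ^ 2) := by
      apply Real.log_le_log (by positivity)
      push_cast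
      nlinarith
    rwa [Real.log_pow, Nat.cast_ofNat] at e1
  have h5 : 2 * ((2:ℕ):ℝ) ^ 3 * Real.log ((2 * N + 1 : ℕ) : ℝ) / (z * Real.log z) ≤ 128 := by
    rw [div_le_iff₀ (by positivity)]
    have e1 : L / 2 ≤ z := by linarith
    have e2 : L / 2 * (1/2) ≤ z * Real.log z := mul_le_mul e1 hlogz (by norm_num) (by linarith)
    push_cast
    push_cast at h4
    linarith
  have hSZ0 : 0 ≤ SZ z t := SZ_nonneg z t
  calc SI t ≤ SZ z t * Real.exp (2 * ((2:ℕ):ℝ) ^ 3 * Real.log ((2 * N + 1 : ℕ) : ℝ) /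
        (z * Real.log z)) := h1
    _ ≤ (Real.log z / cD) * Real.exp 128 := by
        apply mul_le_mul (h2.trans h3) (Real.exp_le_exp.mpr h5) (Real.exp_pos _).le
        positivity
    _ ≤ (Real.log L / cD) * Real.exp 128 := by
        apply mul_le_mul_of_nonneg_right _ (Real.exp_pos _).le
        exact div_le_div_of_nonneg_right hlogzL hcD.le
    _ = Real.exp 128 / cD * Real.log L := by ring

/-- Crude pair correlations. -/
theorem sel2 : ∃ C N0 : ℕ, ∀ N : ℕ, N0 ≤ N → ∀ n ∈ Icc 1 (2 * N), ∀ n' ∈ Icc 1 (2 * N),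
    (n ≠ n' → ∑ h ∈ Icc 1 N, lp (n + h) * lp (n' + h) ≤ N * Real.log (Real.log N) ^ C) ∧
    ∑ h ∈ Icc 1 N, lp (n + h) ^ 2 ≤ C * (N * Real.log N) := by
  obtain ⟨K, hK, hup⟩ := tuple_upperI 2 (by norm_num)
  obtain ⟨C, hC, hSI⟩ := SI_pair
  have hlog : Tendsto (fun N : ℕ => Real.log (N:ℝ)) atTop atTop :=
    Real.tendsto_log_atTop.comp tendsto_natCast_atTop_atTop
  have hloglog : Tendsto (fun N : ℕ => Real.log (Real.log (N:ℝ))) atTop atTop :=
    Real.tendsto_log_atTop.comp hlog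
  have hev : ∀ᶠ N : ℕ in atTop, (∀ t : Fin 2 → ℕ, Function.Injective t →
      (∀ i, t i ≤ 2 * N) → SI t ≤ C * Real.log (Real.log N)) ∧
      (Nat.primeCounting (4 * N) : ℝ) ≤ 10 * N / Real.log N ∧ 3 ≤ N ∧
      1 ≤ Real.log (Real.log N) ∧ 4 * K * C ≤ Real.log (Real.log N) ∧ 1 ≤ Real.log N ∧
      8 * (Real.log N) ^ 2 ≤ (N:ℝ) ^ (1:ℝ) := by
    filter_upwards [hSI, pi_four, eventually_ge_atTop 3, hloglog.eventually_ge_atTop 1,
      hloglog.eventually_ge_atTop (4 * K * C), Wtd.log_large 1,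
      Wtd.log_pow_small 2 8 1 one_pos] with N h1 h2 h3 h4 h5 h6 h7
    exact ⟨h1, h2, h3, h4, h5, h6, h7⟩
  obtain ⟨N0, hN0⟩ := eventually_atTop.1 hev
  refine ⟨40, N0, fun N hN n hn n' hn' => ?_⟩
  obtain ⟨g1, g2, g3, g4, g5, g6, g7⟩ := hN0 N hN
  rw [Real.rpow_one] at g7
  have hNr : (3:ℝ) ≤ N := by exact_mod_cast g3
  have hNpos : (0:ℝ) < N := by linarith
  set L := Real.log N with hL
  have hLpos : 0 < L := by linarith
  rw [mem_Icc] at hn hn'
  have hlp0 : ∀ m, 0 ≤ lp m := by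
    intro m
    unfold Pool.Agent.HLT.lp
    split_ifs
    · exact Real.log_natCast_nonneg m
    · exact le_rfl
  have hlpm : ∀ m h, m ≤ 2 * N → h ∈ Icc 1 N → lp (m + h) ≤ 2 * L := by
    intro m h hm hh
    rw [mem_Icc] at hh
    unfold Pool.Agent.HLT.lp
    split_ifs with hp
    · have h1 : ((m + h : ℕ) : ℝ) ≤ (N:ℝ) ^ 2 := by
        have h2 : m + h ≤ 3 * N := by omega
        have h3 : ((m + h : ℕ) : ℝ) ≤ 3 * N := by exact_mod_cast h2
        nlinarith
      have h2 := Real.log_le_log (by exact_mod_cast hp.pos) h1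
      rwa [Real.log_pow, Nat.cast_ofNat] at h2
    · linarith
  constructor
  · intro hne
    set t : Fin 2 → ℕ := ![n, n'] with ht
    have htinj : Function.Injective t := by
      intro i j hij
      fin_cases i <;> fin_cases j <;> simp_all
    have htN : ∀ i, t i ≤ 2 * N := by
      intro i
      fin_cases i
      · exact hn.2
      · exact hn'.2
    have hsum : ∑ h ∈ Icc 1 N, lp (n + h) * lp (n' + h) ≤
        (((Icc 1 N).filter (fun h : ℕ => ∀ i, (h + t i).Prime)).card : ℝ) * (2 * L) ^ 2 := by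
      have e1 : ∑ h ∈ Icc 1 N, lp (n + h) * lp (n' + h) ≤
          ∑ h ∈ Icc 1 N, if (∀ i, (h + t i).Prime) then (2 * L) ^ 2 else 0 := by
        refine Finset.sum_le_sum fun h hh => ?_
        split_ifs with hp
        · rw [pow_two]
          exact mul_le_mul (hlpm n h hn.2 hh) (hlpm n' h hn'.2 hh) (hlp0 _) (by linarith)
        · rw [Fin.forall_fin_two] at hp
          simp only [ht, Matrix.cons_val_zero, Matrix.cons_val_one] at hp
          by_cases h1 : (h + n).Prime
          · have h2 : ¬ (h + n').Prime := fun h3 => hp ⟨h1, h3⟩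
            have h3 : lp (n' + h) = 0 := by
              unfold Pool.Agent.HLT.lp
              rw [if_neg (by rwa [Nat.add_comm])]
            rw [h3, mul_zero]
          · have h3 : lp (n + h) = 0 := by
              unfold Pool.Agent.HLT.lp
              rw [if_neg (by rwa [Nat.add_comm])]
            rw [h3, zero_mul]
      refine e1.trans (le_of_eq ?_)
      rw [← Finset.sum_filter, Finset.sum_const, nsmul_eq_mul]
    refine hsum.trans ?_
    have hl2 : 1 ≤ Real.log L ^ 40 := one_le_pow₀ g4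
    by_cases hadm : ∀ p : ℕ, p.Prime → nuI t p < p
    · have h1 : (((Icc 1 N).filter (fun h : ℕ => ∀ i, (h + t i).Prime)).card : ℝ) ≤
          K * SI t * (N / L ^ 2) := by
        convert hup (Fin 2) t (by simp) htinj hadm N (by omega)
      have h2 := g1 t htinj htN
      have hSI0 : 0 ≤ SI t := SI_nonneg t htinj
      calc (((Icc 1 N).filter (fun h : ℕ => ∀ i, (h + t i).Prime)).card : ℝ) * (2 * L) ^ 2
          ≤ (K * SI t * (N / L ^ 2)) * (2 * L) ^ 2 :=
            mul_le_mul_of_nonneg_right h1 (by positivity)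
        _ = N * (4 * K * SI t) := by field_simp; ring
        _ ≤ N * (4 * K * (C * Real.log L)) := by
            apply mul_le_mul_of_nonneg_left _ hNpos.le
            exact mul_le_mul_of_nonneg_left h2 (by positivity)
        _ = N * ((4 * K * C) * Real.log L) := by ring
        _ ≤ N * (Real.log L * Real.log L) := by
            apply mul_le_mul_of_nonneg_left _ hNpos.le
            exact mul_le_mul_of_nonneg_right g5 (by linarith)
        _ = N * Real.log L ^ 2 := by ring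
        _ ≤ N * Real.log L ^ 40 := by
            apply mul_le_mul_of_nonneg_left _ hNpos.le
            exact pow_le_pow_right₀ g4 (by norm_num)
    · push Not at hadm
      obtain ⟨p, hp, hpn⟩ := hadm
      have h1 : ((Icc 1 N).filter (fun h : ℕ => ∀ i, (h + t i).Prime)).card ≤ 2 := by
        have h3 := count_inadm t hp hpn N
        rw [Fintype.card_fin] at h3
        convert h3
      have h2 : (((Icc 1 N).filter (fun h : ℕ => ∀ i, (h + t i).Prime)).card : ℝ) ≤ 2 := by
        exact_mod_cast h1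
      calc (((Icc 1 N).filter (fun h : ℕ => ∀ i, (h + t i).Prime)).card : ℝ) * (2 * L) ^ 2
          ≤ 2 * (2 * L) ^ 2 := mul_le_mul_of_nonneg_right h2 (by positivity)
        _ = 8 * L ^ 2 := by ring
        _ ≤ N * 1 := by rw [mul_one]; exact g7
        _ ≤ N * Real.log L ^ 40 := mul_le_mul_of_nonneg_left hl2 hNpos.le
  · have e1 : ∑ h ∈ Icc 1 N, lp (n + h) ^ 2 ≤
        ∑ h ∈ Icc 1 N, if (n + h).Prime then (2 * L) ^ 2 else 0 := by
      refine Finset.sum_le_sum fun h hh => ?_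
      split_ifs with hp
      · exact pow_le_pow_left₀ (hlp0 _) (hlpm n h hn.2 hh) 2
      · have h3 : lp (n + h) = 0 := by
          unfold Pool.Agent.HLT.lp
          rw [if_neg hp]
        rw [h3]
        norm_num
    rw [← Finset.sum_filter, Finset.sum_const, nsmul_eq_mul] at e1
    have e2 : ((Icc 1 N).filter (fun h => (n + h).Prime)).card ≤ Nat.primeCounting (4 * N) := by
      rw [← Nat.primesLE_card_eq_primeCounting]
      refine Finset.card_le_card_of_injOn (fun m => n + m) ?_ ?_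
      · intro m hm
        obtain ⟨h4, h5⟩ := Finset.mem_filter.mp (Finset.mem_coe.mp hm)
        rw [Finset.mem_Icc] at h4
        rw [Finset.mem_coe, Nat.mem_primesLE]
        exact ⟨show n + m ≤ 4 * N by omega, h5⟩
      · intro a _ b _ hab
        exact Nat.add_left_cancel hab
    have e3 : (((Icc 1 N).filter (fun h => (n + h).Prime)).card : ℝ) ≤ 10 * N / L :=
      le_trans (by exact_mod_cast e2) g2
    calc ∑ h ∈ Icc 1 N, lp (n + h) ^ 2
        ≤ (((Icc 1 N).filter (fun h => (n + h).Prime)).card : ℝ) * (2 * L) ^ 2 := e1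
      _ ≤ 10 * N / L * (2 * L) ^ 2 := mul_le_mul_of_nonneg_right e3 (by positivity)
      _ = 40 * (N * L) := by field_simp; ring
      _ = ((40 : ℕ) : ℝ) * (N * L) := by push_cast; ring

/-- Module Sel. -/
theorem sel : ∃ C N0 : ℕ, ∀ N : ℕ, N0 ≤ N → ∀ n ∈ Ioc N (2 * N), ∀ n' ∈ Ioc N (2 * N),
    (n ≠ n' → ∑ h ∈ Icc 1 N, lp (n + h) * lp (n' + h) ≤ N * Real.log (Real.log N) ^ C) ∧
    ∑ h ∈ Icc 1 N, lp (n + h) ^ 2 ≤ C * (N * Real.log N) := by
  obtain ⟨C, N0, h⟩ := sel2
  refine ⟨C, N0, fun N hN n hn n' hn' => h N hN n ?_ n' ?_⟩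
  · rw [mem_Ioc] at hn
    rw [mem_Icc]
    omega
  · rw [mem_Ioc] at hn'
    rw [mem_Icc]
    omega

end Pool.Agent.Lib.LEN
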