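import Pool.Agent.Lib.LEN.Defs

/-!
# LEN.SingD: from the middle primes to the singular series
-/

set_option autoImplicit false

open Finset Filter

namespace Pool.Agent.Lib.LEN

open Pool.Agent.HLB Pool.Agent.HLT Pool.Agent.HLR Pool.Agent.Lib.GMV

namespace SingDAux

/-- The primes of `(w, w ^ 8]`. -/
def mid (w : ℕ) : Finset ℕ := (Nat.primesLE (w ^ 8)).filter fun p => w < p

lemma dvd_PP {w p : ℕ} (hp : p ∈ Nat.primesLE w) : p ∣ PP w := Finset.dvd_prod_of_mem _ hp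

lemma cast_Hc {N w r : ℕ} {a h : Fin r → ℕ} (hh : h ∈ Hc N w a) {p : ℕ}
    (hp : p ∈ Nat.primesLE w) (i : Fin r) : ((h i : ℕ) : ZMod p) = ((a i : ℕ) : ZMod p) := by
  unfold Hc at hh
  have h1 := Fintype.mem_piFinset.1 hh i
  unfold cls at h1
  have h2 : h i ≡ a i [MOD PP w] := (mem_filter.1 h1).2
  exact (ZMod.natCast_eq_natCast_iff _ _ _).2 (h2.of_dvd (dvd_PP hp))

lemma log_ge {g : ℝ} (hg : -(1 / 2) ≤ g) : g - 2 * g ^ 2 ≤ Real.log (1 + g) := by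
  have h0 : 0 < 1 + g := by linarith
  have h1 := Real.one_sub_inv_le_log_of_pos h0
  refine le_trans ?_ h1
  have h2 : 1 - (1 + g)⁻¹ = g / (1 + g) := by
    field_simp
    ring
  rw [h2, le_div_iff₀ h0]
  nlinarith [sq_nonneg g]

lemma SZ_ge {r : ℕ} (h : Fin r → ℕ) (hinj : Function.Injective h) (z : ℕ) (hz : 1 ≤ z)
    (hrz : r ≤ z) : SZ z h * (1 - (r:ℝ) ^ 2 / z) ≤ SI h := by
  classical
  have hS : HasProd (fun p : Nat.Primes => locI h p) (SI h) := hasProd_SI h hinj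
  have hA : ∀ p ∈ Nat.primesLE z, p.Prime := fun p hp => (Nat.mem_primesLE.1 hp).2
  set F : Finset Nat.Primes := (Nat.primesLE z).attach.map
    ⟨fun p => ⟨p.1, hA p.1 p.2⟩, by
      intro p q h; exact Subtype.ext (congrArg (fun t : Nat.Primes => (t : ℕ)) h)⟩ with hF
  have hFprod : ∏ p ∈ F, locI h (p : ℕ) = SZ z h := by
    rw [hF, Finset.prod_map]
    unfold SZ
    exact Finset.prod_attach (Nat.primesLE z) (fun p => locI h p)
  have hmemF : ∀ p : Nat.Primes, p ∉ F → z < (p:ℕ) := by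
    intro p hp
    by_contra hcon
    apply hp
    rw [hF, Finset.mem_map]
    exact ⟨⟨(p:ℕ), Nat.mem_primesLE.2 ⟨by omega, p.2⟩⟩, mem_attach _ _, rfl⟩
  refine ge_of_tendsto hS ?_
  rw [SummationFilter.unconditional_filter, Filter.eventually_atTop]
  refine ⟨F, fun F' hF' => ?_⟩
  rw [← Finset.prod_sdiff hF', hFprod, mul_comm]
  apply mul_le_mul_of_nonneg_right _ (SZ_nonneg z h)
  have h1 := Pool.Agent.HL.prod_loc_tail_ge (Pool.Agent.HL.shift 0 1 h) z hz hrz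
    ((F' \ F).map ⟨fun p : Nat.Primes => (p : ℕ), Nat.Primes.coe_nat_injective⟩)
    (by
      intro p hp
      rw [Finset.mem_map] at hp
      obtain ⟨q, hq, rfl⟩ := hp
      exact ⟨q.2, hmemF q (Finset.mem_sdiff.mp hq).2⟩)
  rw [Finset.prod_map] at h1
  refine h1.trans (le_of_eq ?_)
  exact Finset.prod_congr rfl fun p _ => locI_fin h p

lemma SZ_split {r : ℕ} (h : Fin r → ℕ) (w : ℕ) :
    SZ (w ^ 8) h = SZ w h * ∏ p ∈ mid w, locI h p := by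
  unfold SZ mid
  rw [mul_comm, ← Finset.prod_filter_mul_prod_filter_not (Nat.primesLE (w ^ 8)) (fun p => w < p)]
  congr 1
  refine Finset.prod_congr ?_ fun _ _ => rfl
  ext p
  rw [mem_filter, Nat.mem_primesLE, Nat.mem_primesLE]
  constructor
  · rintro ⟨⟨_, h2⟩, h3⟩
    exact ⟨by omega, h2⟩
  · rintro ⟨h1, h2⟩
    exact ⟨⟨h1.trans (Nat.le_self_pow (by norm_num) w), h2⟩, by omega⟩

end SingDAux

open SingDAux

theorem nuI_Hc {N w r : ℕ} {a h : Fin r → ℕ} (hh : h ∈ Hc N w a) {p : ℕ}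
    (hp : p ∈ Nat.primesLE w) : nuI h p = nuI a p := by
  unfold nuI
  congr 2
  funext i
  exact cast_Hc hh hp i

theorem SZ_Hc {N w r : ℕ} {a h : Fin r → ℕ} (hh : h ∈ Hc N w a) : SZ w h = SZ w a := by
  unfold SZ
  refine Finset.prod_congr rfl fun p hp => ?_
  unfold locI
  rw [nuI_Hc hh hp]

theorem sing_det (K η : ℝ) (hK : 0 < K) (hη : 0 < η) : ∃ δ : ℝ, 0 < δ ∧ ∃ w0 : ℕ, ∀ w : ℕ,
    w0 ≤ w → ∀ N r : ℕ, 1 ≤ r → (r : ℝ) ≤ K * w → Real.log N ≤ (w : ℝ) ^ 2 →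
    ∀ h : Fin r → ℕ, Function.Injective h → (∀ i, h i ∈ Icc 1 N) →
    (∀ p ∈ Nat.primesLE w, nuI h p < p) →
    |∑ p ∈ (Nat.primesLE (w ^ 8)).filter (fun p => w < p), (locI h p - 1)| ≤ δ →
    ∑ p ∈ (Nat.primesLE (w ^ 8)).filter (fun p => w < p), (locI h p - 1) ^ 2 ≤ δ ^ 2 →
    Adm h ∧ |SI h - SZ w h| ≤ η * SZ w h := by
  set δ : ℝ := min (1 / 4) (η / 4) with hδ
  have hδ0 : 0 < δ := lt_min (by norm_num) (by linarith)
  have hδ1 : δ ≤ 1 / 4 := min_le_left _ _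
  have hδ2 : δ ≤ η / 4 := min_le_right _ _
  refine ⟨δ, hδ0, ⌈K⌉₊ + ⌈4 * K ^ 3 / δ⌉₊ + ⌈K ^ 2 / δ⌉₊ + 3, ?_⟩
  intro w hw N r hr1 hrK hlog h hinj hN hadm hS1 hS2
  have hw1 : (⌈K⌉₊ : ℝ) ≤ w := by exact_mod_cast (by omega : ⌈K⌉₊ ≤ w)
  have hw2 : (⌈4 * K ^ 3 / δ⌉₊ : ℝ) ≤ w := by exact_mod_cast (by omega : ⌈4 * K ^ 3 / δ⌉₊ ≤ w)
  have hw3 : (⌈K ^ 2 / δ⌉₊ : ℝ) ≤ w := by exact_mod_cast (by omega : ⌈K ^ 2 / δ⌉₊ ≤ w)
  have hw4 : 3 ≤ w := by omega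
  have hw4' : (3:ℝ) ≤ w := by exact_mod_cast hw4
  have hwK : K ≤ w := (Nat.le_ceil K).trans hw1
  have hw5 : 4 * K ^ 3 / δ ≤ w := (Nat.le_ceil _).trans hw2
  have hw6 : K ^ 2 / δ ≤ w := (Nat.le_ceil _).trans hw3
  have hw0 : (0:ℝ) < w := by linarith
  have hzc : ((w ^ 8 : ℕ) : ℝ) = (w:ℝ) ^ 8 := by push_cast; ring
  have hrw : (r:ℝ) ≤ (w:ℝ) ^ 2 := by nlinarith
  have hrz : r ≤ w ^ 2 := by exact_mod_cast hrw
  have hrz' : r < w ^ 8 := by
    have h1 : w ^ 2 < w ^ 8 := Nat.pow_lt_pow_right (by omega) (by norm_num)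
    omega
  set g : ℕ → ℝ := fun p => locI h p - 1 with hg
  change |∑ p ∈ mid w, g p| ≤ δ at hS1
  change ∑ p ∈ mid w, g p ^ 2 ≤ δ ^ 2 at hS2
  have hgp : ∀ p ∈ mid w, |g p| ≤ δ := by
    intro p hp
    have h1 : g p ^ 2 ≤ δ ^ 2 :=
      (Finset.single_le_sum (f := fun p => g p ^ 2) (fun _ _ => sq_nonneg _) hp).trans hS2
    exact abs_le_of_sq_le_sq h1 hδ0.le
  have hloc : ∀ p ∈ mid w, 0 < locI h p := by
    intro p hp
    have h1 := (abs_le.1 (hgp p hp)).1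
    simp only [hg] at h1
    linarith
  -- admissibility
  have hA : Adm h := by
    refine ⟨hinj, ?_⟩
    intro p hp
    rcases le_or_gt p w with h1 | h1
    · exact hadm p (Nat.mem_primesLE.2 ⟨h1, hp⟩)
    · rcases le_or_gt p (w ^ 8) with h2 | h2
      · have h3 := hloc p (by
          unfold mid
          exact mem_filter.2 ⟨Nat.mem_primesLE.2 ⟨h2, hp⟩, h1⟩)
        by_contra hcon
        have h4 : nuI h p = p := le_antisymm (nuI_le_prime h hp) (by omega)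
        unfold locI at h3
        rw [h4, div_self (by exact_mod_cast hp.ne_zero), sub_self, zero_mul] at h3
        exact lt_irrefl _ h3
      · have h3 := nuI_le h p
        rw [Fintype.card_fin] at h3
        omega
  refine ⟨hA, ?_⟩
  -- the middle product
  set Q : ℝ := ∏ p ∈ mid w, locI h p with hQ
  have hQ0 : 0 < Q := Finset.prod_pos hloc
  have hlogQ : Real.log Q = ∑ p ∈ mid w, Real.log (1 + g p) := by
    rw [hQ, Real.log_prod fun p hp => (hloc p hp).ne']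
    refine Finset.sum_congr rfl fun p _ => ?_
    simp only [hg]
    congr 1
    ring
  have hup : Real.log Q ≤ δ := by
    rw [hlogQ]
    have h1 : ∀ p ∈ mid w, Real.log (1 + g p) ≤ g p := by
      intro p hp
      have h2 : 0 < 1 + g p := by
        have := hloc p hp
        simp only [hg]
        linarith
      have := Real.log_le_sub_one_of_pos h2
      linarith
    exact (Finset.sum_le_sum h1).trans ((le_abs_self _).trans hS1)
  have hlo : -(2 * δ) ≤ Real.log Q := by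
    rw [hlogQ]
    have h1 : ∀ p ∈ mid w, g p - 2 * g p ^ 2 ≤ Real.log (1 + g p) := by
      intro p hp
      refine log_ge ?_
      have := (abs_le.1 (hgp p hp)).1
      linarith
    have h2 := Finset.sum_le_sum h1
    rw [Finset.sum_sub_distrib, ← Finset.mul_sum] at h2
    have h3 := (abs_le.1 hS1).1
    nlinarith
  have hQup : Q ≤ Real.exp δ := by
    rw [← Real.exp_log hQ0]
    exact Real.exp_le_exp.2 hup
  have hQlo : 1 - 2 * δ ≤ Q := by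
    rw [← Real.exp_log hQ0]
    have h1 := Real.add_one_le_exp (Real.log Q)
    linarith
  -- the tail
  have hz2 : 2 ≤ w ^ 8 := by
    have : w ^ 1 ≤ w ^ 8 := Nat.pow_le_pow_right (by omega) (by norm_num)
    omega
  have hi : ∀ i, h i ≤ N := fun i => (mem_Icc.1 (hN i)).2
  have hN1 : 1 ≤ N := by
    have h1 := mem_Icc.1 (hN ⟨0, hr1⟩)
    omega
  have hT := SI_le_SZ h (by rw [Fintype.card_fin]; exact hr1) hinj N (w ^ 8) hz2 hi
  rw [Fintype.card_fin, SZ_split h w] at hT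
  have hT2 := SZ_ge h hinj (w ^ 8) (by omega) hrz'.le
  rw [SZ_split h w] at hT2
  have hSZ0 := SZ_nonneg w h
  have hlogz : 1 ≤ Real.log ((w ^ 8 : ℕ) : ℝ) := by
    rw [hzc, Real.log_pow]
    have h1 : (1:ℝ) ≤ Real.log w := by
      have h2 := Real.log_le_log (Real.exp_pos 1) (show Real.exp 1 ≤ (w:ℝ) by
        have := Real.exp_one_lt_d9
        linarith)
      rwa [Real.log_exp] at h2
    push_cast
    linarith
  have hlogN : Real.log ((N + 1 : ℕ) : ℝ) ≤ 2 * (w:ℝ) ^ 2 := by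
    have h1 : ((N + 1 : ℕ) : ℝ) ≤ 2 * N := by
      have : (1:ℝ) ≤ N := by exact_mod_cast hN1
      push_cast
      linarith
    have h2 : Real.log ((N + 1 : ℕ) : ℝ) ≤ Real.log (2 * N) :=
      Real.log_le_log (by positivity) h1
    have hN0 : (0:ℝ) < N := by exact_mod_cast hN1
    rw [Real.log_mul (by norm_num) hN0.ne'] at h2
    have h3 : Real.log 2 ≤ 1 := by
      have := Real.log_two_lt_d9
      linarith
    nlinarith
  have hexpo : 2 * (r:ℝ) ^ 3 * Real.log ((N + 1 : ℕ) : ℝ) /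
      (((w ^ 8 : ℕ) : ℝ) * Real.log ((w ^ 8 : ℕ) : ℝ)) ≤ δ := by
    have hl0 : 0 ≤ Real.log ((N + 1 : ℕ) : ℝ) := Real.log_natCast_nonneg _
    have h1 : 2 * (r:ℝ) ^ 3 * Real.log ((N + 1 : ℕ) : ℝ) ≤ 2 * (K * w) ^ 3 * (2 * (w:ℝ) ^ 2) := by
      have h3 : (r:ℝ) ^ 3 ≤ (K * w) ^ 3 := pow_le_pow_left₀ (by positivity) hrK 3
      gcongr
    have h2 : (w:ℝ) ^ 8 ≤ ((w ^ 8 : ℕ) : ℝ) * Real.log ((w ^ 8 : ℕ) : ℝ) := by
      rw [hzc] at hlogz ⊢
      have : 0 < (w:ℝ) ^ 8 := by positivity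
      nlinarith
    rw [div_le_iff₀ (lt_of_lt_of_le (by positivity) h2)]
    refine h1.trans (le_trans ?_ (mul_le_mul_of_nonneg_left h2 hδ0.le))
    rw [div_le_iff₀ hδ0] at hw5
    have h4 : 2 * (K * w) ^ 3 * (2 * (w:ℝ) ^ 2) = 4 * K ^ 3 * (w:ℝ) ^ 5 := by ring
    rw [h4]
    have h5 : (w:ℝ) * (w:ℝ) ^ 5 ≤ (w:ℝ) ^ 8 := by
      have h6 : (w:ℝ) * (w:ℝ) ^ 5 = (w:ℝ) ^ 6 := by ring
      rw [h6]
      exact pow_le_pow_right₀ (by linarith) (by norm_num)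
    calc 4 * K ^ 3 * (w:ℝ) ^ 5 ≤ (w * δ) * (w:ℝ) ^ 5 := by gcongr
      _ = δ * ((w:ℝ) * (w:ℝ) ^ 5) := by ring
      _ ≤ δ * (w:ℝ) ^ 8 := by gcongr
  have hquad : (r:ℝ) ^ 2 / ((w ^ 8 : ℕ) : ℝ) ≤ δ := by
    rw [hzc, div_le_iff₀ (by positivity)]
    rw [div_le_iff₀ hδ0] at hw6
    calc (r:ℝ) ^ 2 ≤ (K * w) ^ 2 := pow_le_pow_left₀ (by positivity) hrK 2
      _ = K ^ 2 * (w:ℝ) ^ 2 := by ring
      _ ≤ (w * δ) * (w:ℝ) ^ 2 := by gcongr
      _ = δ * (w:ℝ) ^ 3 := by ring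
      _ ≤ δ * (w:ℝ) ^ 8 := by
        have : (w:ℝ) ^ 3 ≤ (w:ℝ) ^ 8 := pow_le_pow_right₀ (by linarith) (by norm_num)
        gcongr
  -- upper bound
  have hU : SI h ≤ SZ w h * (1 + η) := by
    refine hT.trans ?_
    rw [mul_assoc]
    refine mul_le_mul_of_nonneg_left ?_ hSZ0
    have h1 : Q * Real.exp (2 * (r:ℝ) ^ 3 * Real.log ((N + 1 : ℕ) : ℝ) /
        (((w ^ 8 : ℕ) : ℝ) * Real.log ((w ^ 8 : ℕ) : ℝ))) ≤ Real.exp δ * Real.exp δ :=
      mul_le_mul hQup (Real.exp_le_exp.2 hexpo) (Real.exp_pos _).le (Real.exp_pos _).le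
    refine h1.trans ?_
    rw [← Real.exp_add]
    have h2 := Real.abs_exp_sub_one_le (x := δ + δ) (by rw [abs_of_pos (by linarith)]; linarith)
    rw [abs_of_pos (show 0 < δ + δ by linarith)] at h2
    have h3 := (abs_le.1 h2).2
    linarith
  have hL : SZ w h * (1 - η) ≤ SI h := by
    refine le_trans ?_ hT2
    rw [mul_assoc]
    refine mul_le_mul_of_nonneg_left ?_ hSZ0
    have h1 : 1 - δ ≤ 1 - (r:ℝ) ^ 2 / ((w ^ 8 : ℕ) : ℝ) := by linarith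
    have h2 : (1 - 2 * δ) * (1 - δ) ≤ Q * (1 - (r:ℝ) ^ 2 / ((w ^ 8 : ℕ) : ℝ)) :=
      mul_le_mul hQlo h1 (by linarith) hQ0.le
    nlinarith
  rw [abs_le]
  constructor <;> nlinarith

end Pool.Agent.Lib.LEN
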