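import Pool.Agent.Lib.LEN.SingB
import Pool.Agent.Lib.LEN.SingD

/-!
# LEN.Sing: the singular series is constant up to a factor close to one on most of a class
-/

set_option autoImplicit false

open Finset Filter

namespace Pool.Agent.Lib.LEN

open Pool.Agent.HLB Pool.Agent.HLT Pool.Agent.HLR Pool.Agent.Lib.GMV Cls0 SingAux

open scoped Classical in
/-- Module Sing. -/
theorem sing (K η : ℝ) (hK : 0 < K) (hη : 0 < η) : ∃ w0 : ℕ, ∀ w : ℕ, w0 ≤ w → ∀ N r : ℕ,
    1 ≤ r → (r : ℝ) ≤ K * w → 4 ^ (100 * w) ≤ N → Real.log N ≤ (w : ℝ) ^ 2 →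
    ∀ a : Fin r → ℕ, (∀ p ∈ Nat.primesLE w, nuI a p < p) →
    (((Hc N w a).filter (fun h => ¬ (Adm h ∧ |SI h - SZ w a| ≤ η * SZ w a))).card : ℝ) ≤
      η * (Hc N w a).card := by
  obtain ⟨δ, hδ, w1, hdet⟩ := sing_det K η hK hη
  obtain ⟨w2, hB⟩ := singB K δ η hK hδ hη
  refine ⟨max w1 w2, ?_⟩
  intro w hw N r hr hR hN hlog a ha
  have h1 := hB w ((le_max_right _ _).trans hw) N r hR hN a
  refine le_trans ?_ h1
  have hsub : (Hc N w a).filter (fun h => ¬ (Adm h ∧ |SI h - SZ w a| ≤ η * SZ w a)) ⊆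
      (Hc N w a).filter (fun h => ¬ (Function.Injective h ∧
      |∑ p ∈ (Nat.primesLE (w ^ 8)).filter (fun p => w < p), (locI h p - 1)| ≤ δ ∧
      ∑ p ∈ (Nat.primesLE (w ^ 8)).filter (fun p => w < p), (locI h p - 1) ^ 2 ≤ δ ^ 2)) := by
    intro h hh
    rw [mem_filter] at hh ⊢
    refine ⟨hh.1, fun hc => hh.2 ?_⟩
    have hIcc : ∀ i, h i ∈ Icc 1 N := by
      intro i
      have h2 := hh.1
      unfold Hc at h2
      rw [Fintype.mem_piFinset] at h2
      have h3 := h2 i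
      unfold cls at h3
      exact (mem_filter.1 h3).1
    have h4 := hdet w ((le_max_left _ _).trans hw) N r hr hR hlog h hc.1 hIcc
      (fun p hp => by rw [nuI_Hc hh.1 hp]; exact ha p hp) hc.2.1 hc.2.2
    rw [SZ_Hc hh.1] at h4
    exact h4
  exact_mod_cast card_le_card hsub

end Pool.Agent.Lib.LEN
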