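import Pool.Agent.Lib.LEN.Fin1A
import Pool.Agent.Lib.LEN.SecM
import Pool.Agent.Lib.LEN.Sing
import Pool.Agent.Lib.LEN.Sel
import Pool.Agent.Lib.LEN.Cls

/-!
# LEN.Fin1: the first half (paper e87c7d_LEN.md, section 6)
-/

set_option autoImplicit false

open Finset Filter

namespace Pool.Agent.Lib.LEN

open Pool.Agent.HLB Pool.Agent.HLT Pool.Agent.HLR Pool.Agent.Lib.GMV

namespace Fin1Aux

open SecMAux

/-- Count and weighted count. -/
lemma cnt_FF (N r : ℕ) (hN : 1 ≤ N) (h : Fin r → ℕ) (hh : ∀ i, h i ≤ N) :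
    Real.log N ^ r * cnt N h ≤ FF lp N h ∧ FF lp N h ≤ Real.log (3 * N) ^ r * cnt N h := by
  classical
  have hN0 : (0 : ℝ) < N := by exact_mod_cast hN
  have hlN : 0 ≤ Real.log (N : ℝ) := Real.log_natCast_nonneg N
  have e : FF lp N h = ∑ n ∈ (Ioc N (2 * N)).filter (fun n => ∀ i, (n + h i).Prime),
      ∏ i, Real.log ((n + h i : ℕ) : ℝ) := by
    unfold FF
    rw [sum_filter]
    refine sum_congr rfl fun n _ => ?_
    split_ifs with hp
    · refine prod_congr rfl fun i _ => ?_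
      unfold Pool.Agent.HLT.lp
      rw [if_pos (hp i)]
    · push Not at hp
      obtain ⟨i, hi⟩ := hp
      refine prod_eq_zero (mem_univ i) ?_
      unfold Pool.Agent.HLT.lp
      rw [if_neg hi]
  have ec : (cnt N h : ℝ) = ∑ _n ∈ (Ioc N (2 * N)).filter (fun n => ∀ i, (n + h i).Prime), (1 : ℝ) := by
    rw [sum_const, nsmul_eq_mul, mul_one]
    rfl
  rw [e, ec, mul_sum, mul_sum]
  constructor
  · refine sum_le_sum fun n hn => ?_
    have hn1 := (mem_Ioc.1 (mem_filter.1 hn).1).1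
    rw [mul_one]
    calc Real.log N ^ r = ∏ _i : Fin r, Real.log N := by rw [prod_const, card_univ, Fintype.card_fin]
      _ ≤ _ := by
          refine prod_le_prod (fun _ _ => hlN) fun i _ => ?_
          refine Real.log_le_log hN0 ?_
          have : N ≤ n + h i := by omega
          exact_mod_cast this
  · refine sum_le_sum fun n hn => ?_
    have hn1 := (mem_Ioc.1 (mem_filter.1 hn).1).2
    rw [mul_one]
    calc ∏ i, Real.log ((n + h i : ℕ) : ℝ) ≤ ∏ _i : Fin r, Real.log (3 * N) := by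
          refine prod_le_prod (fun i _ => Real.log_natCast_nonneg _) fun i _ => ?_
          rcases Nat.eq_zero_or_pos (n + h i) with h0 | h0
          · rw [h0]
            simp only [Nat.cast_zero, Real.log_zero]
            refine Real.log_nonneg ?_
            have : (1 : ℝ) ≤ N := by exact_mod_cast hN
            linarith
          · refine Real.log_le_log (by exact_mod_cast h0) ?_
            have : n + h i ≤ 3 * N := by
              have := hh i
              omega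
            exact_mod_cast this
      _ = _ := by rw [prod_const, card_univ, Fintype.card_fin]

lemma nuI_of_Hc {N w r : ℕ} {a h : Fin r → ℕ} (hh : h ∈ Hc N w a) {p : ℕ}
    (hp : p ∈ Nat.primesLE w) : nuI h p = nuI a p := by
  unfold nuI
  congr 1
  refine Finset.image_congr fun i _ => ?_
  show ((h i : ℕ) : ZMod p) = ((a i : ℕ) : ZMod p)
  rw [ZMod.natCast_eq_natCast_iff]
  have h1 := Fintype.mem_piFinset.1 hh i
  unfold cls at h1
  have h2 : h i ≡ a i [MOD PP w] := (mem_filter.1 h1).2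
  exact h2.of_dvd (dvd_prod_of_mem (fun p => p) hp)

lemma exists_A (w r : ℕ) : ∃ A : Finset (Fin r → ℕ),
    (∀ a, a ∈ A ↔ a ∈ Fintype.piFinset (fun _ : Fin r => range (PP w)) ∧
      ∀ p ∈ Nat.primesLE w, nuI a p < p) ∧ ((PP w : ℝ) * DZ w) ^ r ≤ (A.card : ℝ) := by
  refine ⟨(Fintype.piFinset (fun _ : Fin r => range (PP w))).filter
    (fun a => ∀ p ∈ Nat.primesLE w, nuI a p < p), fun a => mem_filter, ?_⟩
  have h := adm_classes w r
  convert h

/-- The final comparison of the count. -/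
lemma compare {δ ε x F M S SZ L Λ n : ℝ} (hδ : 0 < δ) (hε1 : ε < 1) (hδε : δ = ε / 8)
    (hL : 0 < L) (hx1 : L * x ≤ F) (hx2 : F ≤ Λ * x) (hΛ : Λ ≤ (1 + δ) * L) (hx0 : 0 ≤ x)
    (hM : M = n * SZ) (hn : 0 < n) (hSZ : 0 < SZ) (hF : |F - M| ≤ δ * M) (hS : |S - SZ| ≤ δ * SZ) :
    |x - S * n / L| ≤ ε * (S * n / L) := by
  have hε0 : 0 < ε := by linarith
  have hM0 : 0 < M := by rw [hM]; positivity
  rw [abs_le] at hF hS
  have e : S * n / L = S * (n / L) := by ring
  have hm : 0 < n / L := by positivity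
  set m := n / L with hmdef
  have hML : M = L * (SZ * m) := by
    rw [hM, hmdef]
    field_simp
  have hT0 : 0 < SZ * m := by positivity
  -- bounds of x
  have u1 : x ≤ (1 + δ) * (SZ * m) := by
    have : L * x ≤ L * ((1 + δ) * (SZ * m)) := by
      rw [hML] at hF
      nlinarith
    exact le_of_mul_le_mul_left this hL
  have l1 : (1 - 2 * δ) * (SZ * m) ≤ x := by
    have h1 : (1 - δ) * M ≤ (1 + δ) * L * x := by
      have h2 : Λ * x ≤ (1 + δ) * L * x := mul_le_mul_of_nonneg_right hΛ hx0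
      linarith
    rw [hML] at h1
    have h3 : L * ((1 - δ) * (SZ * m)) ≤ L * ((1 + δ) * x) := by nlinarith
    have h4 := le_of_mul_le_mul_left h3 hL
    by_contra hcon
    rw [not_le] at hcon
    have h5 : (1 + δ) * x < (1 + δ) * ((1 - 2 * δ) * (SZ * m)) := mul_lt_mul_of_pos_left hcon (by linarith)
    have h6 : (1 + δ) * ((1 - 2 * δ) * (SZ * m)) ≤ (1 - δ) * (SZ * m) := by nlinarith [mul_pos hδ hT0, mul_pos (mul_pos hδ hδ) hT0]
    linarith
  have su : S * m ≤ (1 + δ) * (SZ * m) := by nlinarith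
  have sl : (1 - δ) * (SZ * m) ≤ S * m := by nlinarith
  rw [e, abs_le]
  have k : ε * ((1 - δ) * (SZ * m)) ≤ ε * (S * m) := mul_le_mul_of_nonneg_left sl hε0.le
  have k2 : 3 * δ * (SZ * m) ≤ ε * ((1 - δ) * (SZ * m)) := by
    have : 3 * δ ≤ ε * (1 - δ) := by nlinarith
    nlinarith
  constructor <;> nlinarith

end Fin1Aux

open Fin1Aux SecMAux

open scoped Classical in
/-- The first half for one `N`, from the correlation bounds. -/
theorem half_core (ε cw d B' : ℝ) (hε : 0 < ε) (hε1 : ε < 1) (hcw : 0 < cw) (hd : 0 < d)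
    (hB' : 1 ≤ B') : ∃ u : ℝ, 0 < u ∧ ∃ N0 : ℕ, ∀ N : ℕ, N0 ≤ N → ∀ w : ℕ, w = ⌊cw * yy N⌋₊ →
    4 ^ (100 * w) ≤ N → Real.log N ≤ (w : ℝ) ^ 2 → yy N ≤ 2 / cw * w →
    ∀ (e1 e2 : ℝ) (Bd0 : Finset ℕ) (Bd1 Bd2 Bd3 : Finset (ℕ × ℕ)), 0 ≤ e1 → 0 ≤ e2 →
    (Bd3.card : ℝ) ≤ (N : ℝ) ^ (2 - d) →
    (∀ r : ℕ, (r : ℝ) ≤ yy N → r * e1 ≤ u ∧ (Bd0.card : ℝ) * 4 ^ w ≤ u * N ∧
      (1 + e2) ^ r * Real.sqrt Bd1.card * 4 ^ w ≤ u * N ∧
      B' ^ r * Real.sqrt Bd2.card * 4 ^ w ≤ u * N) →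
    (∀ c, ∀ n ∈ Ioc N (2 * N), n ∉ Bd0 → Nat.Coprime (n + c) (PP w) →
      (N : ℝ) / PP w * (DZ w)⁻¹ * (1 - e1) ≤ AA lp N w c n) →
    (∀ c, ∀ n ∈ Ioc N (2 * N), ∀ n' ∈ Ioc N (2 * N), n ≠ n' → (n, n') ∉ Bd1 →
      Nat.Coprime (n + c) (PP w) → Nat.Coprime (n' + c) (PP w) →
      CC lp N w c n n' ≤ (N : ℝ) / PP w * (DZ w)⁻¹ ^ 2 * ss w (Nat.dist n n') * (1 + e1)) →
    (∀ c, ∀ n ∈ Ioc N (2 * N), ∀ n' ∈ Ioc N (2 * N), n ≠ n' → (n, n') ∉ Bd2 →
      Nat.Coprime (n + c) (PP w) → Nat.Coprime (n' + c) (PP w) →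
      CC lp N w c n n' ≤ (N : ℝ) / PP w * (DZ w)⁻¹ ^ 2 * ss w (Nat.dist n n') * (1 + e2)) →
    (∀ c, ∀ n ∈ Ioc N (2 * N), ∀ n' ∈ Ioc N (2 * N), n ≠ n' → (n, n') ∉ Bd3 →
      Nat.Coprime (n + c) (PP w) → Nat.Coprime (n' + c) (PP w) →
      CC lp N w c n n' ≤ (N : ℝ) / PP w * (DZ w)⁻¹ ^ 2 * ss w (Nat.dist n n') * B') →
    ∀ r : ℕ, 1 ≤ r → (r : ℝ) ≤ (1 - ε) * yy N →
    (((Tup r (Icc 1 N)).filter (fun h => Adm h ∧
      ε * (SI h * N / Real.log N ^ r) < |(cnt N h : ℝ) - SI h * N / Real.log N ^ r|)).card : ℝ) ≤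
    ε * ((Tup r (Icc 1 N)).filter (fun h => Adm h)).card := by
  -- the constants
  obtain ⟨δ, hδ⟩ : ∃ δ : ℝ, δ = ε / 8 := ⟨_, rfl⟩
  have hδ0 : 0 < δ := by rw [hδ]; positivity
  obtain ⟨η, hη⟩ : ∃ η : ℝ, η = δ ^ 2 * ε / 16 := ⟨_, rfl⟩
  have hη0 : 0 < η := by rw [hη]; positivity
  have hK : 0 < 2 / cw := by positivity
  obtain ⟨w1, u, hu, hsec⟩ := secM (2 / cw) η hK hη0
  obtain ⟨w2, hsing⟩ := sing (2 / cw) δ hK hδ0
  obtain ⟨C, N1, hsel⟩ := sel
  obtain ⟨N2, hest⟩ := est ε d cw C hε hd hcw (Nat.cast_nonneg C) C (η * ε / 16) (by positivity)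
  obtain ⟨N3, hlr⟩ := log_ratio δ hδ0
  have hlarge : ∀ᶠ N : ℕ in atTop, ((w1 : ℝ) + w2 + 2) ^ 2 ≤ Real.log N ∧ 1 ≤ Real.log (Real.log N) ∧
      (3 : ℝ) ≤ Real.log N :=
    (tl.eventually_ge_atTop _).and ((tll.eventually_ge_atTop 1).and (tl.eventually_ge_atTop 3))
  obtain ⟨N4, hN4⟩ := eventually_atTop.1 hlarge
  refine ⟨u, hu, max (max N1 N2) (max N3 N4), ?_⟩
  intro N hN w hw h100 hlogw hyw e1 e2 Bd0 Bd1 Bd2 Bd3 he1 he2 hBd3 hsm hA hC1 hC2 hC3 r hr hry
  have hN1 : N1 ≤ N := ((le_max_left _ _).trans (le_max_left _ _)).trans hN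
  have hN2 : N2 ≤ N := ((le_max_right _ _).trans (le_max_left _ _)).trans hN
  have hN3 : N3 ≤ N := ((le_max_left _ _).trans (le_max_right _ _)).trans hN
  have hN4' : N4 ≤ N := ((le_max_right _ _).trans (le_max_right _ _)).trans hN
  obtain ⟨hlg, hll1, hl3⟩ := hN4 N hN4'
  -- basic facts
  have hwbig : ((w1 : ℝ) + w2 + 2) ≤ w := by
    have h1 : ((w1 : ℝ) + w2 + 2) ^ 2 ≤ (w : ℝ) ^ 2 := hlg.trans hlogw
    exact (pow_le_pow_iff_left₀ (by positivity) (Nat.cast_nonneg w) two_ne_zero).1 h1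
  have hw1 : w1 ≤ w := by
    have : (w1 : ℝ) ≤ w := by
      have : (0 : ℝ) ≤ w2 := Nat.cast_nonneg _
      linarith
    exact_mod_cast this
  have hw2 : w2 ≤ w := by
    have : (w2 : ℝ) ≤ w := by
      have : (0 : ℝ) ≤ w1 := Nat.cast_nonneg _
      linarith
    exact_mod_cast this
  have hw3 : (2 : ℝ) ≤ w := by
    have : (0 : ℝ) ≤ w1 := Nat.cast_nonneg _
    have : (0 : ℝ) ≤ w2 := Nat.cast_nonneg _
    linarith
  set L := Real.log (N : ℝ) with hL
  have hL0 : 0 < L := by linarith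
  have hNpos : 0 < N := lt_of_lt_of_le (by positivity) h100
  have hN0 : (0 : ℝ) < N := by exact_mod_cast hNpos
  have hy0 : 0 < yy N := by
    show 0 < L / Real.log L
    have : 0 < Real.log L := by linarith
    positivity
  have hry1 : (r : ℝ) ≤ yy N := by
    refine hry.trans ?_
    nlinarith
  have hrK : (r : ℝ) ≤ 2 / cw * w := hry1.trans hyw
  have hwy : (w : ℝ) ≤ cw * yy N := by
    rw [hw]
    exact Nat.floor_le (by positivity)
  have hwN : w < N := by
    have h1 : w < 4 ^ (100 * w) := by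
      calc w < 4 ^ w := Nat.lt_pow_self (by norm_num)
        _ ≤ 4 ^ (100 * w) := Nat.pow_le_pow_right (by norm_num) (by omega)
    omega
  obtain ⟨s1, s2, s3, s4⟩ := hsm r hry1
  have hlpc : ∀ m, N < m → lp m ≠ 0 → Nat.Coprime m (PP w) := by
    intro m hm hne
    have hp : m.Prime := by
      by_contra hcon
      exact hne (by unfold Pool.Agent.HLT.lp; rw [if_neg hcon])
    unfold PP
    rw [Nat.coprime_prod_right_iff]
    intro p hpm
    rw [Nat.coprime_primes hp (Nat.mem_primesLE.1 hpm).2]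
    have := (Nat.mem_primesLE.1 hpm).1
    omega
  -- the classes
  set P := Fintype.piFinset (fun _ : Fin r => range (PP w)) with hP
  obtain ⟨A, hAmem, hAcard⟩ : ∃ A : Finset (Fin r → ℕ),
      (∀ a, a ∈ A ↔ a ∈ P ∧ ∀ p ∈ Nat.primesLE w, nuI a p < p) ∧
      ((PP w : ℝ) * DZ w) ^ r ≤ (A.card : ℝ) := by
    obtain ⟨A, hA1, hA2⟩ := exists_A w r
    refine ⟨A, fun a => ?_, hA2⟩
    rw [hA1]
  have hAP : A ⊆ P := fun a ha => ((hAmem a).1 ha).1
  set R : (Fin r → ℕ) → ℝ := fun a =>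
    ∑ x ∈ (Ioc N (2 * N) ×ˢ Ioc N (2 * N)).filter (fun x => x ∈ Bd3 ∨ x.1 = x.2),
      ∏ i, CC lp N w (a i) x.1 x.2 with hR
  have hR0 : ∀ a, 0 ≤ R a := fun a => sum_nonneg fun x _ => prod_nonneg fun i _ =>
    CC_nonneg lp lp_nonneg _ _ _ _ _
  have hPw0 : (0 : ℝ) < PP w := by exact_mod_cast SecMAux.PP_pos w
  have hD0 : 0 < DZ w := DZ_pos w
  have hDi1 : 1 ≤ (DZ w)⁻¹ := by
    rw [one_le_inv₀ hD0]
    unfold DZ
    refine prod_le_one (fun p hp => ?_) fun p hp => ?_
    · have h2 : (1 : ℝ) ≤ p := by exact_mod_cast (Nat.mem_primesLE.1 hp).2.one_lt.le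
      rw [sub_nonneg, div_le_one (by linarith)]
      exact h2
    · have : 0 ≤ 1 / (p : ℝ) := by positivity
      linarith
  have hMge : ∀ a ∈ A, (N : ℝ) / PP w ≤ MM N w a ∧ 0 < SZ w a ∧ 1 ≤ nA w a := by
    intro a ha
    have h1 : 1 ≤ nA w a := (nA_pos w a).2 ((hAmem a).1 ha).2
    have h2 : (1 : ℝ) ≤ nA w a := by exact_mod_cast h1
    have h3 : (N : ℝ) / PP w ≤ MM N w a := by
      unfold MM
      calc (N : ℝ) / PP w = N * 1 / PP w * 1 := by ring
        _ ≤ _ := by
          refine mul_le_mul ?_ (one_le_pow₀ hDi1) zero_le_one (by positivity)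
          gcongr
    refine ⟨h3, ?_, h1⟩
    have h4 := MM_eq N w a
    have h5 : 0 < (N : ℝ) / PP w := by positivity
    rw [h4] at h3
    by_contra hcon
    have : (N : ℝ) * SZ w a ≤ 0 := mul_nonpos_of_nonneg_of_nonpos hN0.le (not_lt.1 hcon)
    linarith
  -- the exceptional tuples in a class
  obtain ⟨bad, hbad⟩ : ∃ bad : (Fin r → ℕ) → Prop, ∀ h, bad h ↔ (Adm h ∧
    ε * (SI h * N / L ^ r) < |(cnt N h : ℝ) - SI h * N / L ^ r|) := ⟨_, fun h => Iff.rfl⟩
  have hclass : ∀ a ∈ A, (((Hc N w a).filter bad).card : ℝ) ≤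
      ε / 4 * (Hc N w a).card + R a / (δ ^ 2 * ((N : ℝ) / PP w) ^ 2) := by
    intro a ha
    obtain ⟨hMa, hSZ0, hnA⟩ := hMge a ha
    have hM0 : 0 < MM N w a := lt_of_lt_of_le (by positivity) hMa
    have g1 := hsec w hw1 N r hr hrK h100 lp lp_nonneg hlpc e1 e2 B' Bd0 Bd1 Bd2 Bd3 he1 he2 hB' s1 s2
      s3 s4 hA hC1 hC2 hC3 a hnA
    have g2 := hsing w hw2 N r hr hrK h100 hlogw a ((hAmem a).1 ha).2
    set E1 := (Hc N w a).filter (fun h => δ * MM N w a < |FF lp N h - MM N w a|) with hE1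
    set E2 := (Hc N w a).filter (fun h => ¬ (Adm h ∧ |SI h - SZ w a| ≤ δ * SZ w a)) with hE2
    have hsub : (Hc N w a).filter bad ⊆ E1 ∪ E2 := by
      intro h hh
      rw [mem_filter, hbad] at hh
      obtain ⟨hh1, hh2, hh3⟩ := hh
      rw [mem_union, hE1, hE2, mem_filter, mem_filter]
      by_contra hcon
      push Not at hcon
      obtain ⟨c1, c2⟩ := hcon
      have c1' := c1 hh1
      have c2' := (c2 hh1).2
      have hhN : ∀ i, h i ≤ N := by
        intro i
        have := Fintype.mem_piFinset.1 hh1 i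
        unfold cls at this
        exact (mem_Icc.1 (mem_filter.1 this).1).2
      have hcf := cnt_FF N r hNpos h hhN
      have hcmp := compare (δ := δ) (ε := ε) (x := cnt N h) (F := FF lp N h) (M := MM N w a)
        (S := SI h) (SZ := SZ w a) (L := L ^ r) (Λ := Real.log (3 * N) ^ r) (n := N) hδ0 hε1 hδ
        (pow_pos hL0 r) hcf.1 hcf.2 (hlr N hN3 r hry1) (Nat.cast_nonneg _) (MM_eq N w a) hN0 hSZ0
        c1' c2'
      exact absurd hh3 (not_lt.2 hcmp)
    have hcard : (((Hc N w a).filter bad).card : ℝ) ≤ E1.card + E2.card := by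
      have := (card_le_card hsub).trans (card_union_le _ _)
      exact_mod_cast this
    have hE1c : (E1.card : ℝ) * (δ * MM N w a) ^ 2 ≤ η * (MM N w a ^ 2 * (Hc N w a).card) + R a := by
      refine le_trans ?_ g1
      calc (E1.card : ℝ) * (δ * MM N w a) ^ 2 = ∑ _h ∈ E1, (δ * MM N w a) ^ 2 := by
            rw [sum_const, nsmul_eq_mul]
        _ ≤ ∑ h ∈ E1, (FF lp N h - MM N w a) ^ 2 := by
            refine sum_le_sum fun h hh => ?_
            rw [← sq_abs (FF lp N h - MM N w a)]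
            refine pow_le_pow_left₀ (by positivity) ?_ 2
            exact (mem_filter.1 hh).2.le
        _ ≤ _ := sum_le_sum_of_subset_of_nonneg (filter_subset _ _) fun _ _ _ => sq_nonneg _
    have hE1' : (E1.card : ℝ) ≤ η / δ ^ 2 * (Hc N w a).card + R a / (δ ^ 2 * ((N : ℝ) / PP w) ^ 2) := by
      have hpos : 0 < (δ * MM N w a) ^ 2 := by positivity
      have h1 : (E1.card : ℝ) ≤ (η * (MM N w a ^ 2 * (Hc N w a).card) + R a) / (δ * MM N w a) ^ 2 := by
        rw [le_div_iff₀ hpos]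
        exact hE1c
      refine h1.trans ?_
      rw [add_div]
      refine add_le_add (le_of_eq ?_) ?_
      · field_simp
      · rw [mul_pow]
        refine div_le_div_of_nonneg_left (hR0 a) (by positivity) ?_
        refine mul_le_mul_of_nonneg_left ?_ (by positivity)
        exact pow_le_pow_left₀ (by positivity) hMa 2
    have hη1 : η / δ ^ 2 = ε / 16 := by
      rw [hη]
      field_simp
    rw [hη1] at hE1'
    have hδ2 : δ ≤ ε / 8 := hδ.le
    have hHc0 : (0 : ℝ) ≤ (Hc N w a).card := Nat.cast_nonneg _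
    have g3 : (E2.card : ℝ) ≤ ε / 8 * (Hc N w a).card := g2.trans (mul_le_mul_of_nonneg_right hδ2 hHc0)
    nlinarith
  have hclassA : ∀ a ∈ A, 1 / 2 * ((Hc N w a).card : ℝ) ≤
      (((Hc N w a).filter (fun h => Adm h)).card : ℝ) := by
    intro a ha
    have g2 := hsing w hw2 N r hr hrK h100 hlogw a ((hAmem a).1 ha).2
    have h1 : (Hc N w a).card ≤ ((Hc N w a).filter (fun h => Adm h)).card +
        ((Hc N w a).filter (fun h => ¬ (Adm h ∧ |SI h - SZ w a| ≤ δ * SZ w a))).card := by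
      have h2 := card_filter_add_card_filter_not (s := Hc N w a) (fun h => Adm h)
      have h3 : ((Hc N w a).filter (fun h => ¬ Adm h)).card ≤
          ((Hc N w a).filter (fun h => ¬ (Adm h ∧ |SI h - SZ w a| ≤ δ * SZ w a))).card := by
        refine card_le_card fun h hh => ?_
        rw [mem_filter] at hh ⊢
        exact ⟨hh.1, fun hc => hh.2 hc.1⟩
      omega
    have h4 : ((Hc N w a).card : ℝ) ≤ (((Hc N w a).filter (fun h => Adm h)).card : ℝ) +
        (((Hc N w a).filter (fun h => ¬ (Adm h ∧ |SI h - SZ w a| ≤ δ * SZ w a))).card : ℝ) := by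
      exact_mod_cast h1
    have hHc0 : (0 : ℝ) ≤ (Hc N w a).card := Nat.cast_nonneg _
    have hδ2 : δ ≤ 1 / 2 := by linarith
    nlinarith
  -- sum over the classes
  have hsplit : ∀ q : (Fin r → ℕ) → Prop, (∀ h, q h → Adm h) →
      (((Tup r (Icc 1 N)).filter q).card : ℝ) = ∑ a ∈ A, (((Hc N w a).filter q).card : ℝ) := by
    intro q hq
    have h1 : (((Tup r (Icc 1 N)).filter q).card : ℝ) =
        ∑ h ∈ Tup r (Icc 1 N), if q h then (1 : ℝ) else 0 := by
      rw [← sum_filter, sum_const, nsmul_eq_mul, mul_one]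
    rw [h1, sum_Hc N w r]
    have h2 : ∑ a ∈ A, (((Hc N w a).filter q).card : ℝ) = ∑ a ∈ P, (((Hc N w a).filter q).card : ℝ) := by
      refine sum_subset hAP fun a ha hna => ?_
      have h3 : (Hc N w a).filter q = ∅ := by
        rw [filter_eq_empty_iff]
        intro h hh hqh
        apply hna
        rw [hAmem]
        refine ⟨ha, fun p hp => ?_⟩
        rw [← nuI_of_Hc hh hp]
        exact (hq h hqh).2 p (Nat.mem_primesLE.1 hp).2
      rw [h3]
      simp
    rw [h2]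
    refine sum_congr rfl fun a _ => ?_
    rw [← sum_filter, sum_const, nsmul_eq_mul, mul_one]
  have hbadA : ∀ h, bad h → Adm h := fun h hh => ((hbad h).1 hh).1
  have eb := hsplit bad hbadA
  have ea := hsplit (fun h => Adm h) (fun h hh => hh)
  have hgoal : (((Tup r (Icc 1 N)).filter bad).card : ℝ) ≤
      ε * (((Tup r (Icc 1 N)).filter (fun h => Adm h)).card : ℝ) := by
    rw [eb, ea]
    set H := ∑ a ∈ A, ((Hc N w a).card : ℝ) with hH
    have t1 : ∑ a ∈ A, (((Hc N w a).filter bad).card : ℝ) ≤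
        ε / 4 * H + (∑ a ∈ A, R a) / (δ ^ 2 * ((N : ℝ) / PP w) ^ 2) := by
      refine (sum_le_sum hclass).trans (le_of_eq ?_)
      rw [sum_add_distrib, ← mul_sum, sum_div]
    have t2 : 1 / 2 * H ≤ ∑ a ∈ A, (((Hc N w a).filter (fun h => Adm h)).card : ℝ) := by
      rw [hH, mul_sum]
      exact sum_le_sum hclassA
    -- the sum of `R`
    have t3 : ∑ a ∈ A, R a ≤ (N : ℝ) ^ (2 - d) * (N * Real.log L ^ C) ^ r +
        N * (C * (N * L)) ^ r := by
      have h1 : ∑ a ∈ A, R a ≤ ∑ a ∈ P, R a :=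
        sum_le_sum_of_subset_of_nonneg hAP fun a _ _ => hR0 a
      refine h1.trans ?_
      rw [hR, hP, sum_classes lp N w r]
      have hterm : ∀ x ∈ (Ioc N (2 * N) ×ˢ Ioc N (2 * N)).filter (fun x => x ∈ Bd3 ∨ x.1 = x.2),
          (∑ h ∈ Icc 1 N, lp (x.1 + h) * lp (x.2 + h)) ^ r ≤
            (if x ∈ Bd3 then (N * Real.log L ^ C) ^ r else 0) +
              (if x.1 = x.2 then (C * (N * L)) ^ r else 0) := by
        intro x hx
        rw [mem_filter, mem_product] at hx
        obtain ⟨⟨hx1, hx2⟩, hx3⟩ := hx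
        have hs := hsel N hN1 x.1 hx1 x.2 hx2
        have hnn : 0 ≤ ∑ h ∈ Icc 1 N, lp (x.1 + h) * lp (x.2 + h) :=
          sum_nonneg fun _ _ => mul_nonneg (lp_nonneg _) (lp_nonneg _)
        have hll : 0 ≤ Real.log L := by linarith
        have q1 : 0 ≤ (if x ∈ Bd3 then ((N : ℝ) * Real.log L ^ C) ^ r else 0) := by
          split_ifs <;> positivity
        have q2 : 0 ≤ (if x.1 = x.2 then ((C : ℝ) * (N * L)) ^ r else 0) := by
          split_ifs <;> positivity
        by_cases hxe : x.1 = x.2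
        · rw [if_pos hxe]
          have h5 : (∑ h ∈ Icc 1 N, lp (x.1 + h) * lp (x.2 + h)) ≤ C * (N * L) := by
            refine le_trans (le_of_eq ?_) hs.2
            refine sum_congr rfl fun h _ => ?_
            rw [← hxe, sq]
          have := pow_le_pow_left₀ hnn h5 r
          linarith
        · have hxb : x ∈ Bd3 := by
            rcases hx3 with h | h
            · exact h
            · exact absurd h hxe
          rw [if_pos hxb]
          have := pow_le_pow_left₀ hnn (hs.1 hxe) r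
          linarith
      refine (sum_le_sum hterm).trans ?_
      rw [sum_add_distrib]
      have hll : 0 ≤ Real.log L := by linarith
      refine add_le_add ?_ ?_
      · rw [← sum_filter, sum_const, nsmul_eq_mul]
        refine mul_le_mul_of_nonneg_right ?_ (by positivity)
        refine le_trans ?_ hBd3
        have : (((Ioc N (2 * N) ×ˢ Ioc N (2 * N)).filter (fun x => x ∈ Bd3 ∨ x.1 = x.2)).filter
            (fun x => x ∈ Bd3)).card ≤ Bd3.card :=
          card_le_card fun x hx => (mem_filter.1 hx).2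
        exact_mod_cast this
      · rw [← sum_filter, sum_const, nsmul_eq_mul]
        refine mul_le_mul_of_nonneg_right ?_ (by positivity)
        have h6 : (((Ioc N (2 * N) ×ˢ Ioc N (2 * N)).filter (fun x => x ∈ Bd3 ∨ x.1 = x.2)).filter
            (fun x => x.1 = x.2)).card ≤ (Ioc N (2 * N)).card := by
          refine card_le_card_of_injOn (fun x => x.1) ?_ ?_
          · intro x hx
            rw [mem_coe, mem_filter, mem_filter, mem_product] at hx
            exact hx.1.1.1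
          · intro x hx y hy hxy
            rw [mem_coe, mem_filter] at hx hy
            have e1 := hx.2
            have e2 := hy.2
            have e3 : x.1 = y.1 := hxy
            exact Prod.ext e3 (by rw [← e1, ← e2, e3])
        rw [Nat.card_Ioc] at h6
        have h7 : 2 * N - N = N := by omega
        rw [h7] at h6
        exact_mod_cast h6
    -- lower bound of `H`
    have hv : (0 : ℝ) < (N : ℝ) / PP w := by positivity
    have t4 : ((N : ℝ) * DZ w) ^ r / 2 ≤ H := by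
      have h1 : ((PP w : ℝ) * DZ w) ^ r ≤ (A.card : ℝ) := hAcard
      have hPle : (PP w : ℝ) ≤ 4 ^ w := by exact_mod_cast SecMAux.PP_le w
      have h100' : (4 : ℝ) ^ (100 * w) ≤ N := by exact_mod_cast h100
      have hrw : (r : ℝ) * (PP w / N) ≤ 1 / 2 := by
        have a1 : (r : ℝ) ≤ L := by
          refine hry1.trans ?_
          show L / Real.log L ≤ L
          exact div_le_self hL0.le hll1
        have a2 : L ≤ 4 ^ (2 * w) := by
          refine hlogw.trans ?_
          have : (w : ℝ) ≤ 4 ^ w := by exact_mod_cast (Nat.lt_pow_self (by norm_num)).le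
          calc (w : ℝ) ^ 2 ≤ (4 ^ w) ^ 2 := pow_le_pow_left₀ (Nat.cast_nonneg w) this 2
            _ = 4 ^ (2 * w) := by rw [← pow_mul, mul_comm]
        rw [mul_div_assoc', div_le_iff₀ hN0]
        calc (r : ℝ) * PP w ≤ 4 ^ (2 * w) * 4 ^ w := mul_le_mul (a1.trans a2) hPle hPw0.le (by positivity)
          _ = 4 ^ (3 * w) := by rw [← pow_add]; congr 1; ring
          _ ≤ 4 ^ (100 * w - 1) := pow_le_pow_right₀ (by norm_num) (by
              have : 2 ≤ w := by exact_mod_cast hw3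
              omega)
          _ ≤ 1 / 2 * N := by
              have e4 : (4 : ℝ) ^ (100 * w) = 4 ^ (100 * w - 1) * 4 := by
                rw [← pow_succ]
                congr 1
                have : 2 ≤ w := by exact_mod_cast hw3
                omega
              have : (0 : ℝ) < 4 ^ (100 * w - 1) := by positivity
              linarith
      have hv1 : (PP w : ℝ) / N ≤ 1 := by
        have hr1 : (1 : ℝ) ≤ r := by exact_mod_cast hr
        have : (PP w : ℝ) / N ≤ r * (PP w / N) := le_mul_of_one_le_left (by positivity) hr1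
        linarith
      have hcardge : ∀ a ∈ A, ((N : ℝ) / PP w) ^ r / 2 ≤ ((Hc N w a).card : ℝ) := by
        intro a _
        have e5 : ((Hc N w a).card : ℝ) = ∏ i, ((cls N w (a i)).card : ℝ) := by
          unfold Hc
          rw [Fintype.card_piFinset]
          push_cast
          rfl
        rw [e5]
        have hvv : (0 : ℝ) ≤ (N : ℝ) / PP w - 1 := by
          rw [sub_nonneg, le_div_iff₀ hPw0, one_mul]
          rwa [div_le_one hN0] at hv1
        calc ((N : ℝ) / PP w) ^ r / 2 ≤ ((N : ℝ) / PP w) ^ r * (1 - PP w / N) ^ r := by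
              rw [div_eq_mul_inv]
              refine mul_le_mul_of_nonneg_left ?_ (by positivity)
              have h1 := one_add_mul_le_pow (a := -((PP w : ℝ) / N)) (by linarith) r
              have e : 1 + -((PP w : ℝ) / N) = 1 - PP w / N := by ring
              rw [e] at h1
              norm_num
              linarith
          _ = ((N : ℝ) / PP w - 1) ^ r := by
              rw [← mul_pow]
              congr 1
              field_simp
          _ = ∏ _i : Fin r, ((N : ℝ) / PP w - 1) := by rw [prod_const, card_univ, Fintype.card_fin]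
          _ ≤ _ := prod_le_prod (fun _ _ => hvv) fun i _ => (card_cls N w (a i)).1
      calc ((N : ℝ) * DZ w) ^ r / 2 = ((PP w : ℝ) * DZ w) ^ r * (((N : ℝ) / PP w) ^ r / 2) := by
            rw [mul_div_assoc', ← mul_pow]
            congr 2
            field_simp
        _ ≤ A.card * (((N : ℝ) / PP w) ^ r / 2) := mul_le_mul_of_nonneg_right h1 (by positivity)
        _ = ∑ _a ∈ A, (((N : ℝ) / PP w) ^ r / 2) := by rw [sum_const, nsmul_eq_mul]
        _ ≤ H := sum_le_sum hcardge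
    -- conclusion
    have t5 : (∑ a ∈ A, R a) / (δ ^ 2 * ((N : ℝ) / PP w) ^ 2) ≤ ε / 4 * H := by
      have hes := hest N hN2 r w hry hwy
      have hPle : (PP w : ℝ) ^ 2 ≤ 4 ^ (2 * w) := by
        have : (PP w : ℝ) ≤ 4 ^ w := by exact_mod_cast SecMAux.PP_le w
        calc (PP w : ℝ) ^ 2 ≤ (4 ^ w) ^ 2 := pow_le_pow_left₀ hPw0.le this 2
          _ = 4 ^ (2 * w) := by rw [← pow_mul, mul_comm]
      have hll : 0 ≤ Real.log L := by linarith
      have hDr : 0 < DZ w ^ r := pow_pos hD0 r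
      have hNr : (0 : ℝ) < (N : ℝ) ^ r := pow_pos hN0 r
      set Z := (Real.log L ^ C) ^ r * (N : ℝ) ^ (-d) + (C * L) ^ r * (N : ℝ) ^ (-1 : ℝ) with hZ
      have hZ0 : 0 ≤ Z := by positivity
      have e6 : (N : ℝ) ^ (2 - d) * (N * Real.log L ^ C) ^ r + N * (C * (N * L)) ^ r =
          (N : ℝ) ^ 2 * ((N : ℝ) ^ r * Z) := by
        have e7 : (N : ℝ) ^ (2 - d) = (N : ℝ) ^ 2 * (N : ℝ) ^ (-d) := by
          rw [sub_eq_add_neg, Real.rpow_add hN0]
          norm_num
        have e8 : (N : ℝ) ^ (-1 : ℝ) = (N : ℝ)⁻¹ := Real.rpow_neg_one _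
        rw [e7, hZ, e8, mul_pow, show (C : ℝ) * (N * L) = N * (C * L) by ring, mul_pow (N : ℝ) (C * L)]
        field_simp
      have h8 : (∑ a ∈ A, R a) / (δ ^ 2 * ((N : ℝ) / PP w) ^ 2) ≤
          ((N : ℝ) ^ 2 * ((N : ℝ) ^ r * Z)) / (δ ^ 2 * ((N : ℝ) / PP w) ^ 2) := by
        rw [← e6]
        exact div_le_div_of_nonneg_right t3 (by positivity)
      have h9 : ((N : ℝ) ^ 2 * ((N : ℝ) ^ r * Z)) / (δ ^ 2 * ((N : ℝ) / PP w) ^ 2) =
          (PP w : ℝ) ^ 2 * Z * (N : ℝ) ^ r / δ ^ 2 := by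
        field_simp
      have h10 : (PP w : ℝ) ^ 2 * Z * (N : ℝ) ^ r ≤ η * ε / 16 * ((N : ℝ) * DZ w) ^ r := by
        have h11 : (PP w : ℝ) ^ 2 * (DZ w)⁻¹ ^ r * Z ≤ η * ε / 16 := by
          refine le_trans ?_ hes
          refine mul_le_mul_of_nonneg_right ?_ hZ0
          exact mul_le_mul_of_nonneg_right hPle (by positivity)
        have h12 : (PP w : ℝ) ^ 2 * Z * (N : ℝ) ^ r =
            ((PP w : ℝ) ^ 2 * (DZ w)⁻¹ ^ r * Z) * ((N : ℝ) * DZ w) ^ r := by
          rw [mul_pow, inv_pow]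
          field_simp
        rw [h12]
        exact mul_le_mul_of_nonneg_right h11 (by positivity)
      have h13 : η / δ ^ 2 = ε / 16 := by
        rw [hη]
        field_simp
      calc (∑ a ∈ A, R a) / (δ ^ 2 * ((N : ℝ) / PP w) ^ 2)
          ≤ (PP w : ℝ) ^ 2 * Z * (N : ℝ) ^ r / δ ^ 2 := h8.trans h9.le
        _ ≤ (η * ε / 16 * ((N : ℝ) * DZ w) ^ r) / δ ^ 2 :=
            div_le_div_of_nonneg_right h10 (by positivity)
        _ = η / δ ^ 2 * (ε / 8 * (((N : ℝ) * DZ w) ^ r / 2)) := by ring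
        _ = ε / 16 * (ε / 8 * (((N : ℝ) * DZ w) ^ r / 2)) := by rw [h13]
        _ ≤ ε / 4 * (((N : ℝ) * DZ w) ^ r / 2) := by
            have : 0 ≤ ((N : ℝ) * DZ w) ^ r / 2 := by positivity
            nlinarith [mul_nonneg hε.le this, mul_nonneg (mul_nonneg hε.le hε.le) this]
        _ ≤ ε / 4 * H := mul_le_mul_of_nonneg_left t4 (by positivity)
    have hH0 : 0 ≤ H := sum_nonneg fun _ _ => Nat.cast_nonneg _
    nlinarith
  refine le_trans (le_of_eq ?_) hgoal
  congr 2
  refine Finset.filter_congr fun h _ => ?_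
  exact (hbad h).symm

end Pool.Agent.Lib.LEN
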