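import Pool.Agent.Lib.LEN.Defs
import Pool.Agent.Lib.GMV.SPS

/-!
# LEN.Fin1A: real estimates for the first half
-/

set_option autoImplicit false

open Finset Filter

namespace Pool.Agent.Lib.LEN

open Pool.Agent.HLB Pool.Agent.HLT Pool.Agent.HLR Pool.Agent.Lib.GMV

namespace Fin1Aux

lemma tl : Tendsto (fun N : ℕ => Real.log (N : ℝ)) atTop atTop :=
  Real.tendsto_log_atTop.comp tendsto_natCast_atTop_atTop

lemma tll : Tendsto (fun N : ℕ => Real.log (Real.log (N : ℝ))) atTop atTop :=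
  Real.tendsto_log_atTop.comp tl

lemma ev (c C κ : ℝ) (hκ : 0 < κ) : ∀ᶠ N : ℕ in atTop,
    yy N * (c + C * Real.log (Real.log (Real.log N))) ≤ κ * Real.log N := by
  have h0 : Tendsto (fun x : ℝ => Real.log x / x) atTop (nhds 0) := by
    have := Real.isLittleO_log_id_atTop.tendsto_div_nhds_zero
    simpa using this
  have h1 : Tendsto (fun x : ℝ => c / x + C * (Real.log x / x)) atTop (nhds (0 + C * 0)) :=
    (tendsto_const_nhds.div_atTop tendsto_id).add (h0.const_mul C)
  rw [mul_zero, add_zero] at h1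
  have h2 := (h1.comp tll).eventually_le_const hκ
  filter_upwards [h2, tll.eventually_gt_atTop 0, tl.eventually_gt_atTop 0] with N a1 a2 a3
  have a1' : c / Real.log (Real.log N) + C * (Real.log (Real.log (Real.log N)) /
      Real.log (Real.log N)) ≤ κ := a1
  set l := Real.log (Real.log (N : ℝ)) with hl
  set L := Real.log (N : ℝ) with hL
  have e : yy N * (c + C * Real.log l) = L * (c / l + C * (Real.log l / l)) := by
    have hy : yy N = L / l := rfl
    rw [hy]
    have hl0 : l ≠ 0 := a2.ne'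
    field_simp
  rw [e, mul_comm κ]
  exact mul_le_mul_of_nonneg_left a1' a3.le

lemma DZ_le_one (w : ℕ) (hw : w < 2) : (DZ w)⁻¹ = 1 := by
  have : Nat.primesLE w = ∅ := by
    ext p
    simp only [Nat.mem_primesLE, notMem_empty, iff_false, not_and]
    intro h hp
    have := hp.two_le
    omega
  unfold DZ
  rw [this, prod_empty, inv_one]

lemma DZ_inv_le {w : ℕ} {L : ℝ} (hL : Real.exp 1 ≤ L) (hwL : (w : ℝ) ≤ L) :
    (DZ w)⁻¹ ≤ Real.exp (8 + Real.log (Real.log L)) := by
  have hL0 : 0 < L := lt_of_lt_of_le (Real.exp_pos _) hL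
  have hl : 1 ≤ Real.log L := by
    rw [Real.le_log_iff_exp_le hL0]
    exact hL
  have e : Real.exp (8 + Real.log (Real.log L)) = Real.exp 8 * Real.log L := by
    rw [Real.exp_add, Real.exp_log (by linarith)]
  rw [e]
  have h8 : 2 * Real.exp 7 ≤ Real.exp 8 := by
    have : Real.exp 8 = Real.exp 1 * Real.exp 7 := by
      rw [← Real.exp_add]
      norm_num
    rw [this]
    have h2 : (2 : ℝ) ≤ Real.exp 1 := by
      have := Real.add_one_le_exp (1 : ℝ)
      linarith
    exact mul_le_mul_of_nonneg_right h2 (Real.exp_pos _).le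
  by_cases hw : w < 2
  · rw [DZ_le_one w hw]
    have : (1 : ℝ) ≤ Real.exp 8 := Real.one_le_exp (by norm_num)
    nlinarith
  · have hw2 : 2 ≤ w := by omega
    refine (SPSAux.DZ_inv w hw2).trans ?_
    have hw0 : (0 : ℝ) < w := by
      have : 0 < w := by omega
      exact_mod_cast this
    have h1 : Real.log w ≤ Real.log L := Real.log_le_log hw0 hwL
    have h2 : 0 ≤ Real.log w := Real.log_natCast_nonneg w
    exact mul_le_mul h8 h1 h2 (Real.exp_pos _).le

theorem est (ε d cw C : ℝ) (hε : 0 < ε) (hd : 0 < d) (hcw : 0 < cw) (hC : 0 ≤ C) (Cn : ℕ) (η : ℝ)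
    (hη : 0 < η) : ∃ N0 : ℕ, ∀ N : ℕ, N0 ≤ N → ∀ r w : ℕ, (r : ℝ) ≤ (1 - ε) * yy N →
    (w : ℝ) ≤ cw * yy N →
    (4 : ℝ) ^ (2 * w) * (DZ w)⁻¹ ^ r * ((Real.log (Real.log N) ^ Cn) ^ r * (N : ℝ) ^ (-d) +
      (C * Real.log N) ^ r * (N : ℝ) ^ (-1 : ℝ)) ≤ η := by
  have t1 : Tendsto (fun N : ℕ => Real.exp (-(d / 2 * Real.log N)) +
      Real.exp (-(ε / 2 * Real.log N))) atTop (nhds (0 + 0)) := by
    refine Tendsto.add ?_ ?_
    · refine Real.tendsto_exp_neg_atTop_nhds_zero.comp ?_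
      exact tl.const_mul_atTop (by positivity)
    · refine Real.tendsto_exp_neg_atTop_nhds_zero.comp ?_
      exact tl.const_mul_atTop (by positivity)
  rw [add_zero] at t1
  have e1 := ev (3 * cw + 8) (1 + Cn) (d / 2) (by positivity)
  have e2 := ev (3 * cw + 8 + C) 1 (ε / 2) (by positivity)
  have e3 := ev cw 0 1 one_pos
  obtain ⟨N0, h⟩ := eventually_atTop.1 ((t1.eventually_le_const hη).and (e1.and (e2.and (e3.and
    ((tll.eventually_ge_atTop 1).and (tl.eventually_ge_atTop (Real.exp 1)))))))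
  refine ⟨N0, fun N hN r w hr hw => ?_⟩
  obtain ⟨k0, k1, k2, k3, k4, k5⟩ := h N hN
  set L := Real.log (N : ℝ) with hL
  set l := Real.log L with hl
  have hL0 : 0 < L := lt_of_lt_of_le (Real.exp_pos _) k5
  have hl0 : 0 < l := by linarith
  have hll : 0 ≤ Real.log l := Real.log_nonneg k4
  have hN0 : (0 : ℝ) < N := by
    rcases Nat.eq_zero_or_pos N with h0 | h0
    · rw [h0] at hL
      simp at hL
      rw [hL] at hL0
      exact absurd hL0 (lt_irrefl _)
    · exact_mod_cast h0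
  have hy : yy N = L / l := rfl
  have hy0 : 0 < yy N := by rw [hy]; positivity
  have hyl : yy N * l = L := by rw [hy]; field_simp
  have hry : (r : ℝ) ≤ yy N := by
    refine hr.trans ?_
    nlinarith
  have hwL : (w : ℝ) ≤ L := by
    refine hw.trans ?_
    have : yy N * (cw + 0 * Real.log l) = cw * yy N := by ring
    rw [this] at k3
    linarith
  have a1 : (4 : ℝ) ^ (2 * w) ≤ Real.exp (3 * cw * yy N) := by
    have h4 : Real.log 4 ≤ 3 / 2 := by
      have : (4 : ℝ) = 2 ^ 2 := by norm_num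
      rw [this, Real.log_pow]
      have := Real.log_two_lt_d9
      push_cast
      linarith
    rw [← Real.exp_log (show (0 : ℝ) < 4 by norm_num), ← Real.exp_nat_mul]
    refine Real.exp_le_exp.2 ?_
    push_cast
    have hw0 : (0 : ℝ) ≤ w := Nat.cast_nonneg w
    nlinarith
  have a2 : (DZ w)⁻¹ ^ r ≤ Real.exp (yy N * (8 + Real.log l)) := by
    have h1 := DZ_inv_le k5 hwL
    have h0 : 0 ≤ (DZ w)⁻¹ := (inv_pos.2 (DZ_pos w)).le
    refine (pow_le_pow_left₀ h0 h1 r).trans ?_
    rw [← Real.exp_nat_mul]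
    refine Real.exp_le_exp.2 ?_
    exact mul_le_mul_of_nonneg_right hry (by linarith)
  have a3 : (l ^ Cn) ^ r ≤ Real.exp (yy N * (Cn * Real.log l)) := by
    have h1 : l ^ Cn = Real.exp (Cn * Real.log l) := by
      rw [Real.exp_nat_mul, Real.exp_log hl0]
    rw [h1, ← Real.exp_nat_mul]
    refine Real.exp_le_exp.2 ?_
    exact mul_le_mul_of_nonneg_right hry (by positivity)
  have a4 : (C * L) ^ r ≤ Real.exp (yy N * C + (1 - ε) * L) := by
    have h1 : C * L ≤ Real.exp (C + l) := by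
      rw [Real.exp_add, hl, Real.exp_log hL0]
      refine mul_le_mul_of_nonneg_right ?_ hL0.le
      have := Real.add_one_le_exp C
      linarith
    refine (pow_le_pow_left₀ (by positivity) h1 r).trans ?_
    rw [← Real.exp_nat_mul]
    refine Real.exp_le_exp.2 ?_
    have h2 : (r : ℝ) * l ≤ (1 - ε) * L := by
      calc (r : ℝ) * l ≤ ((1 - ε) * yy N) * l := mul_le_mul_of_nonneg_right hr hl0.le
        _ = (1 - ε) * L := by rw [mul_assoc, hyl]
    have h3 : (r : ℝ) * C ≤ yy N * C := mul_le_mul_of_nonneg_right hry hC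
    nlinarith
  have a5 : (N : ℝ) ^ (-d) = Real.exp (-(d * L)) := by
    rw [Real.rpow_def_of_pos hN0]
    congr 1
    ring
  have a6 : (N : ℝ) ^ (-1 : ℝ) = Real.exp (-L) := by
    rw [Real.rpow_def_of_pos hN0]
    congr 1
    ring
  have b0 : 0 ≤ (DZ w)⁻¹ ^ r := pow_nonneg (inv_pos.2 (DZ_pos w)).le r
  have b1 : (4 : ℝ) ^ (2 * w) * (DZ w)⁻¹ ^ r ≤
      Real.exp (3 * cw * yy N) * Real.exp (yy N * (8 + Real.log l)) :=
    mul_le_mul a1 a2 b0 (Real.exp_pos _).le
  have b2 : (l ^ Cn) ^ r * (N : ℝ) ^ (-d) + (C * L) ^ r * (N : ℝ) ^ (-1 : ℝ) ≤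
      Real.exp (yy N * (Cn * Real.log l)) * Real.exp (-(d * L)) +
        Real.exp (yy N * C + (1 - ε) * L) * Real.exp (-L) := by
    rw [a5, a6]
    exact add_le_add (mul_le_mul_of_nonneg_right a3 (Real.exp_pos _).le)
      (mul_le_mul_of_nonneg_right a4 (Real.exp_pos _).le)
  have b3 : 0 ≤ (l ^ Cn) ^ r * (N : ℝ) ^ (-d) + (C * L) ^ r * (N : ℝ) ^ (-1 : ℝ) := by positivity
  refine (mul_le_mul b1 b2 b3 (by positivity)).trans ?_
  rw [← Real.exp_add, ← Real.exp_add, ← Real.exp_add, mul_add, ← Real.exp_add, ← Real.exp_add]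
  refine le_trans (add_le_add ?_ ?_) k0
  · refine Real.exp_le_exp.2 ?_
    nlinarith
  · refine Real.exp_le_exp.2 ?_
    nlinarith

/-- The logarithms of the range `(N, 3N]`. -/
theorem log_ratio (δ : ℝ) (hδ : 0 < δ) : ∃ N0 : ℕ, ∀ N : ℕ, N0 ≤ N → ∀ r : ℕ, (r : ℝ) ≤ yy N →
    Real.log (3 * N) ^ r ≤ (1 + δ) * Real.log N ^ r := by
  have h1 : Tendsto (fun N : ℕ => Real.exp (2 / Real.log (Real.log N))) atTop (nhds (Real.exp 0)) := by
    refine (Real.continuous_exp.tendsto 0).comp ?_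
    exact tendsto_const_nhds.div_atTop tll
  rw [Real.exp_zero] at h1
  obtain ⟨N0, h⟩ := eventually_atTop.1 ((h1.eventually_le_const (show (1 : ℝ) < 1 + δ by linarith)).and
    ((tll.eventually_ge_atTop 1).and (tl.eventually_ge_atTop (Real.exp 1))))
  refine ⟨N0, fun N hN r hr => ?_⟩
  obtain ⟨k0, k1, k2⟩ := h N hN
  set L := Real.log (N : ℝ) with hL
  set l := Real.log L with hl
  have hL0 : 0 < L := lt_of_lt_of_le (Real.exp_pos _) k2
  have hl0 : 0 < l := by linarith
  have hN0 : (0 : ℝ) < N := by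
    rcases Nat.eq_zero_or_pos N with h0 | h0
    · rw [h0] at hL
      simp at hL
      rw [hL] at hL0
      exact absurd hL0 (lt_irrefl _)
    · exact_mod_cast h0
  have h3 : Real.log 3 ≤ 2 := by
    have := Real.log_le_sub_one_of_pos (show (0 : ℝ) < 3 by norm_num)
    linarith
  have e : Real.log (3 * N) = Real.log 3 + L := by
    rw [Real.log_mul (by norm_num) hN0.ne']
  have h4 : Real.log (3 * N) ≤ L * Real.exp (2 / L) := by
    rw [e]
    have := Real.add_one_le_exp (2 / L)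
    have h5 : L * (2 / L + 1) ≤ L * Real.exp (2 / L) := mul_le_mul_of_nonneg_left this hL0.le
    have h6 : L * (2 / L + 1) = 2 + L := by field_simp
    linarith
  have h7 : 0 ≤ Real.log (3 * N) := by
    rw [e]
    have : 0 ≤ Real.log 3 := Real.log_nonneg (by norm_num)
    linarith
  refine (pow_le_pow_left₀ h7 h4 r).trans ?_
  rw [mul_pow, ← Real.exp_nat_mul, mul_comm]
  refine mul_le_mul_of_nonneg_right ?_ (by positivity)
  refine le_trans (Real.exp_le_exp.2 ?_) k0
  have h8 : (r : ℝ) * (2 / L) ≤ yy N * (2 / L) := mul_le_mul_of_nonneg_right hr (by positivity)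
  refine h8.trans (le_of_eq ?_)
  show L / l * (2 / L) = 2 / l
  field_simp

end Fin1Aux

end Pool.Agent.Lib.LEN
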