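import Pool.Agent.Lib.LEN.Slot

/-!
# LEN.FirstL: first correlations in classes, primes against the model

`one_slot` with `g = psi`, Markov, union over the `PP w ≤ Q ^ (1/40)` classes.
-/

set_option autoImplicit false

open Finset Filter

namespace Pool.Agent.Lib.LEN

open Pool.Agent.HLB Pool.Agent.HLT Pool.Agent.HLR Pool.Agent.Lib.GMV

namespace SlotAux

/-- The final computation. -/
lemma final {N Q card m D : ℝ} (k : ℕ) (hN : 0 < N) (hQ : 1 ≤ Q) (hm0 : 0 ≤ m)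
    (hm : m ≤ Q ^ (1 / 40 : ℝ)) (hD0 : 0 ≤ D) (hD : D ≤ Q ^ (13 / 40 : ℝ))
    (h : card * (N * Q ^ (-(1 / 10 : ℝ))) ^ 2 ≤ m * (D * (N ^ (k + 2) * Q ^ (-(4 / 5 : ℝ))))) :
    card ≤ N ^ k * Q ^ (-(1 / 4 : ℝ)) := by
  have hQ0 : 0 < Q := by linarith
  have h1 : m * (D * (N ^ (k + 2) * Q ^ (-(4 / 5 : ℝ)))) ≤
      Q ^ (1 / 40 : ℝ) * (Q ^ (13 / 40 : ℝ) * (N ^ (k + 2) * Q ^ (-(4 / 5 : ℝ)))) := by
    gcongr
  have h2 : Q ^ (1 / 40 : ℝ) * (Q ^ (13 / 40 : ℝ) * (N ^ (k + 2) * Q ^ (-(4 / 5 : ℝ)))) =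
      (N ^ k * Q ^ (-(1 / 4 : ℝ))) * (N * Q ^ (-(1 / 10 : ℝ))) ^ 2 := by
    have e1 : (Q ^ (-(1 / 10 : ℝ))) ^ 2 = Q ^ (-(1 / 5 : ℝ)) := by
      rw [← Real.rpow_natCast, ← Real.rpow_mul hQ0.le]
      norm_num
    have e2 : Q ^ (1 / 40 : ℝ) * (Q ^ (13 / 40 : ℝ) * Q ^ (-(4 / 5 : ℝ))) =
        Q ^ (-(1 / 4 : ℝ)) * Q ^ (-(1 / 5 : ℝ)) := by
      rw [← Real.rpow_add hQ0, ← Real.rpow_add hQ0, ← Real.rpow_add hQ0]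
      norm_num
    calc Q ^ (1 / 40 : ℝ) * (Q ^ (13 / 40 : ℝ) * (N ^ (k + 2) * Q ^ (-(4 / 5 : ℝ)))) =
        N ^ (k + 2) * (Q ^ (1 / 40 : ℝ) * (Q ^ (13 / 40 : ℝ) * Q ^ (-(4 / 5 : ℝ)))) := by ring
      _ = N ^ (k + 2) * (Q ^ (-(1 / 4 : ℝ)) * Q ^ (-(1 / 5 : ℝ))) := by rw [e2]
      _ = (N ^ k * Q ^ (-(1 / 4 : ℝ))) * (N * Q ^ (-(1 / 10 : ℝ))) ^ 2 := by
        rw [mul_pow, e1, pow_add]
        ring
  have h3 : 0 < (N * Q ^ (-(1 / 10 : ℝ))) ^ 2 := by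
    have := Real.rpow_pos_of_pos hQ0 (-(1 / 10 : ℝ))
    positivity
  exact le_of_mul_le_mul_right ((h.trans h1).trans_eq h2) h3

lemma sq_A {N Q : ℝ} (hQ : 0 < Q) :
    (4 * (2 * N) * Q ^ (-(2 / 5 : ℝ))) ^ 2 = 64 * (N ^ 2 * Q ^ (-(4 / 5 : ℝ))) := by
  have e1 : (Q ^ (-(2 / 5 : ℝ))) ^ 2 = Q ^ (-(4 / 5 : ℝ)) := by
    rw [← Real.rpow_natCast, ← Real.rpow_mul hQ.le]
    norm_num
  rw [mul_pow, e1]
  ring

/-- `log X ≥ 4` and hence `Q ≥ 2`. -/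
lemma log_large : ∃ X0 : ℕ, ∀ X Q : ℕ, X0 ≤ X → Real.exp (Real.sqrt (Real.log X) / 2) ≤ Q →
    4 ≤ Real.log X ∧ 1 ≤ X ∧ 2 ≤ Q := by
  have h5 : Tendsto (fun X : ℕ => Real.log X) atTop atTop :=
    Real.tendsto_log_atTop.comp tendsto_natCast_atTop_atTop
  obtain ⟨X0, hX0⟩ := eventually_atTop.1 ((h5.eventually_ge_atTop 4).and (eventually_ge_atTop 1))
  refine ⟨X0, fun X Q hX hQ1 => ?_⟩
  obtain ⟨hlog, hX1⟩ := hX0 X hX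
  refine ⟨hlog, hX1, ?_⟩
  have hsq : 2 ≤ Real.sqrt (Real.log X) := by
    rw [show (2 : ℝ) = Real.sqrt 4 by
      rw [show (4 : ℝ) = 2 ^ 2 by norm_num, Real.sqrt_sq (by norm_num)]]
    exact Real.sqrt_le_sqrt hlog
  have hQ2r : (2 : ℝ) ≤ Q := by
    refine le_trans ?_ hQ1
    have h8 := Real.add_one_le_exp (Real.sqrt (Real.log X) / 2)
    linarith
  exact_mod_cast hQ2r

end SlotAux

open SlotAux

/-- `one_slot` once with `g = psi`, `diffL` (B0 = 8). -/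
theorem firstL (B : ℝ) : ∃ c : ℝ, 0 < c ∧ ∃ X0 : ℕ, ∀ N Q w : ℕ, X0 ≤ N →
    Rg c (2 * N) Q → 4 ^ (40 * w) ≤ Q → ∀ b : CI → ℝ,
    (∀ x ∈ Ch Q, ∀ n, ‖Mc (2 * N) Q x n‖ ≤ b x) → ∑ x ∈ Ch Q, b x ≤ B →
    ∃ Bd : Finset ℕ, (Bd.card : ℝ) ≤ (N : ℝ) * (Q : ℝ) ^ (-(1 / 4 : ℝ)) ∧
    ∀ c', ∀ n ∈ Icc 1 (2 * N), n ∉ Bd →
      ‖(AA (W (2 * N) Q) N w c' n : ℂ) - ∑ h ∈ Icc 1 N, (psi w c' h : ℂ) *
        LL (2 * N) Q (Q ^ 8) (h + n)‖ ≤ N * (Q : ℝ) ^ (-(1 / 10 : ℝ)) := by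
  classical
  obtain ⟨c, hc, -, X1, hft⟩ := ft_WL 8 (by norm_num) B
  obtain ⟨X2, hg⟩ := growth 64 0 (13 / 40) (by norm_num)
  obtain ⟨X3, hlg⟩ := log_large
  refine ⟨c, hc, max (max X1 X2) (max X3 1), ?_⟩
  intro N Q w hN hR hw b hb hbB
  have hN1 : X1 ≤ 2 * N := by
    have := ((le_max_left _ _).trans (le_max_left _ _)).trans hN
    omega
  have hN2 : X2 ≤ 2 * N := by
    have := ((le_max_right _ _).trans (le_max_left _ _)).trans hN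
    omega
  have hN3 : X3 ≤ 2 * N := by
    have := ((le_max_left _ _).trans (le_max_right _ _)).trans hN
    omega
  have hN4 : 1 ≤ N := ((le_max_right _ _).trans (le_max_right _ _)).trans hN
  obtain ⟨-, -, hQ2⟩ := hlg (2 * N) Q hN3 hR.1
  have hg1 := hg (2 * N) Q hN2 hR.1
  rw [pow_zero, mul_one] at hg1
  have hQ1 : (1 : ℝ) ≤ Q := by exact_mod_cast (by omega : 1 ≤ Q)
  have hQ0 : (0 : ℝ) < Q := by linarith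
  have hNr : (0 : ℝ) < N := by exact_mod_cast hN4
  obtain ⟨f, hf⟩ : ∃ f : ℕ → ℂ, f = fun m => (W (2 * N) Q m : ℂ) - LL (2 * N) Q (Q ^ 8) m :=
    ⟨_, rfl⟩
  have hA : ∀ t, ‖ft (4 * (2 * N)) f t‖ ≤ 4 * (2 * N) * (Q : ℝ) ^ (-(2 / 5 : ℝ)) := by
    intro t
    have h := hft (2 * N) Q hN1 hR b hb hbB t
    rw [hf]
    push_cast at h ⊢
    exact h
  obtain ⟨S, hS⟩ : ∃ S : ℕ → ℕ → ℂ, S = fun c' n => ∑ h ∈ Icc 1 N, (psi w c' h : ℂ) * f (h + n) :=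
    ⟨_, rfl⟩
  have hM : ∀ c' < PP w, ∑ n ∈ Icc 1 (2 * N), ‖S c' n‖ ^ 2 ≤
      64 * ((N : ℝ) ^ 3 * (Q : ℝ) ^ (-(4 / 5 : ℝ))) := by
    intro c' _
    have h1 := one_slot (X := 2 * N) (y := N) (by omega) (by omega) f
      (fun h => (psi w c' h : ℂ)) hA
    have h2 : ∑ n ∈ Icc 1 (2 * N), ‖S c' n‖ ^ 2 ≤
        ∑ n ∈ Icc 1 (2 * N), ‖∑ h ∈ Icc 1 N, (psi w c' h : ℂ) * f (h + n)‖ ^ 2 := by
      rw [hS]
    have h3 : ∑ h ∈ Icc 1 N, ‖(psi w c' h : ℂ)‖ ^ 2 ≤ N := by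
      have : ∀ h ∈ Icc 1 N, ‖(psi w c' h : ℂ)‖ ^ 2 ≤ 1 := fun h _ =>
        pow_le_one₀ (norm_nonneg _) (norm_psi_le w c' h)
      refine (Finset.sum_le_sum this).trans ?_
      rw [Finset.sum_const, Nat.card_Icc, Nat.add_sub_cancel, nsmul_eq_mul, mul_one]
    rw [sq_A hQ0] at h1
    refine h2.trans (h1.trans ?_)
    have h4 : 0 ≤ 64 * ((N : ℝ) ^ 2 * (Q : ℝ) ^ (-(4 / 5 : ℝ))) := by positivity
    refine (mul_le_mul_of_nonneg_left h3 h4).trans_eq ?_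
    ring
  have hθ : 0 < (N : ℝ) * (Q : ℝ) ^ (-(1 / 10 : ℝ)) := by positivity
  have hmk := markov_union (Icc 1 (2 * N)) (PP w) S _ _ hθ hM
  refine ⟨(Icc 1 (2 * N)).filter fun n => ∃ c' < PP w, N * (Q : ℝ) ^ (-(1 / 10 : ℝ)) < ‖S c' n‖, ?_, ?_⟩
  · have h5 := final (N := N) (Q := Q) (m := PP w) (D := 64) 1 hNr hQ1 (Nat.cast_nonneg _)
      (PP_le_rpow hw) (by norm_num) hg1 hmk
    rwa [pow_one] at h5
  · intro c' n hn hnB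
    have h6 : ¬ ∃ c' < PP w, N * (Q : ℝ) ^ (-(1 / 10 : ℝ)) < ‖S c' n‖ := fun h7 =>
      hnB (Finset.mem_filter.2 ⟨hn, h7⟩)
    push Not at h6
    have h8 := h6 (c' % PP w) (Nat.mod_lt _ (PP_pos w))
    have h9 : (AA (W (2 * N) Q) N w c' n : ℂ) - ∑ h ∈ Icc 1 N, (psi w c' h : ℂ) *
        LL (2 * N) Q (Q ^ 8) (h + n) = S (c' % PP w) n := by
      unfold AA
      rw [sum_cls, hS, hf]
      push_cast
      rw [← Finset.sum_sub_distrib]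
      refine Finset.sum_congr rfl fun h _ => ?_
      rw [psi_mod, Nat.add_comm n h]
      ring
    rw [h9]
    exact h8

end Pool.Agent.Lib.LEN
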