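import Pool.Agent.Lib.LEN.Defs
import Pool.Agent.Lib.GMV.Compl

/-!
# LEN.Szc: the mean of the sieve weights in a class modulo `PP w`

The mean of `psi w c n * ∏ i, nuz Y (n + h i)` over a period is computed with `GMV.av_prod`: the
primes `> w` give `locI h p`, the primes `≤ w` the constant `(DZ w)⁻¹ ^ k / PP w`.
-/

set_option autoImplicit false

open Finset Filter

namespace Pool.Agent.Lib.LEN

open Pool.Agent.HLB Pool.Agent.HLT Pool.Agent.HLR Pool.Agent.Lib.GMV

theorem szc_PP_pos (w : ℕ) : 0 < PP w :=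
  Finset.prod_pos fun _ hp => (Nat.mem_primesLE.1 hp).2.pos

theorem szc_psi_per (w c n : ℕ) : psi w c (n + PP w) = psi w c n := by
  unfold psi
  rw [Nat.add_mod_right]

theorem szc_split {w Y : ℕ} (hw : w ≤ Y) :
    PP Y = PP w * ∏ p ∈ (Nat.primesLE Y).filter (fun p => w < p), p := by
  unfold PP
  rw [← Finset.prod_filter_not_mul_prod_filter (Nat.primesLE Y) (fun p => w < p)]
  congr 1
  refine Finset.prod_congr ?_ fun _ _ => rfl
  ext p
  rw [Finset.mem_filter, Nat.mem_primesLE, Nat.mem_primesLE, not_lt]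
  constructor
  · rintro ⟨⟨h1, h2⟩, h3⟩
    exact ⟨h3, h2⟩
  · rintro ⟨h1, h2⟩
    exact ⟨⟨h1.trans hw, h2⟩, h1⟩

theorem szc_cop {w Y : ℕ} : ∀ p ∈ (Nat.primesLE Y).filter (fun p => w < p), (PP w).Coprime p := by
  intro p hp
  rw [Finset.mem_filter, Nat.mem_primesLE] at hp
  refine Nat.Coprime.prod_left fun q hq => ?_
  rw [Nat.mem_primesLE] at hq
  exact (Nat.coprime_primes hq.2 hp.1.2).2 (by omega)

/-- the weight at the primes `≤ w` -/
noncomputable def szc_g {k : ℕ} (w c : ℕ) (h : Fin k → ℕ) (n : ℕ) : ℂ :=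
  (psi w c n : ℂ) * ∏ p ∈ Nat.primesLE w, ComplAux.uc p h n

theorem szc_g_per {k : ℕ} (w c : ℕ) (h : Fin k → ℕ) (n : ℕ) :
    szc_g w c h (n + PP w) = szc_g w c h n := by
  unfold szc_g
  rw [szc_psi_per]
  congr 1
  refine Finset.prod_congr rfl fun p hp => ?_
  obtain ⟨t, ht⟩ : p ∣ PP w := Finset.dvd_prod_of_mem (fun q => q) hp
  rw [ht, PerMeanAux.per_mul p (ComplAux.uc p h) (ComplAux.uc_periodic p h)]

theorem szc_g_eq {k : ℕ} (w c : ℕ) (h : Fin k → ℕ)
    (hc : ∀ i, Nat.Coprime (h i + c) (PP w)) (n : ℕ) :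
    szc_g w c h n = (psi w c n : ℂ) * (((DZ w)⁻¹ ^ k : ℝ) : ℂ) := by
  unfold szc_g
  by_cases hn : n % PP w = c % PP w
  · congr 1
    have h1 : ∀ p ∈ Nat.primesLE w, ComplAux.uc p h n =
        ((((1 - 1 / (p : ℝ))⁻¹) ^ k : ℝ) : ℂ) := by
      intro p hp
      unfold ComplAux.uc
      have h2 : ∀ i, ¬ p ∣ n + h i := by
        intro i hd
        have hpP : p ∣ PP w := Finset.dvd_prod_of_mem (fun q => q) hp
        have h3 : (n + h i) % p = (h i + c) % p := by
          have h4 : n % p = c % p := by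
            rw [← Nat.mod_mod_of_dvd n hpP, hn, Nat.mod_mod_of_dvd c hpP]
          rw [add_comm (h i) c, Nat.add_mod n, h4, ← Nat.add_mod]
        have h5 : p ∣ h i + c := Nat.dvd_of_mod_eq_zero (by
          rw [← h3]; exact Nat.mod_eq_zero_of_dvd hd)
        have h6 := Nat.dvd_gcd h5 hpP
        rw [hc i] at h6
        exact (Nat.mem_primesLE.1 hp).2.one_lt.ne' (Nat.dvd_one.1 h6)
      rw [Finset.prod_congr rfl fun i _ => if_neg (h2 i), Finset.prod_const, Finset.card_univ,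
        Fintype.card_fin, Complex.ofReal_pow]
    rw [Finset.prod_congr rfl h1, ← Complex.ofReal_prod, Finset.prod_pow]
    congr 2
    unfold DZ
    rw [Finset.prod_inv_distrib]
  · unfold psi
    rw [if_neg hn]
    simp

theorem szc_av_psi (w c : ℕ) : av (PP w) (fun n => (psi w c n : ℂ)) = 1 / PP w := by
  unfold av
  congr 1
  have h0 := szc_PP_pos w
  rw [Finset.sum_eq_single (c % PP w)]
  · unfold psi
    rw [Nat.mod_mod, if_pos rfl, Complex.ofReal_one]
  · intro n hn hne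
    unfold psi
    rw [if_neg, Complex.ofReal_zero]
    rw [Nat.mod_eq_of_lt (Finset.mem_range.1 hn)]
    exact hne
  · intro hn
    exact absurd (Finset.mem_range.2 (Nat.mod_lt _ h0)) hn

/-- Module SZc. -/
theorem szc {k : ℕ} (Y w c : ℕ) (hw : w ≤ Y) (h : Fin k → ℕ)
    (hc : ∀ i, Nat.Coprime (h i + c) (PP w)) :
    SZs Y (psi w c) h =
      1 / PP w * (DZ w)⁻¹ ^ k * ∏ p ∈ (Nat.primesLE Y).filter (fun p => w < p), locI h p := by
  classical
  set S := (Nat.primesLE Y).filter (fun p => w < p) with hS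
  have hSp : ∀ p ∈ S, p.Prime := fun p hp => (Nat.mem_primesLE.1 (Finset.mem_filter.1 hp).1).2
  have h1 := av_prod S hSp (PP w) (szc_PP_pos w) szc_cop (szc_g w c h) (szc_g_per w c h)
    (fun p => ComplAux.uc p h) (fun p _ => ComplAux.uc_periodic p h)
  have h2 : av (PP w) (szc_g w c h) = 1 / PP w * (((DZ w)⁻¹ ^ k : ℝ) : ℂ) := by
    rw [← szc_av_psi w c]
    unfold av
    rw [div_mul_eq_mul_div, Finset.sum_mul]
    congr 1
    exact Finset.sum_congr rfl fun n _ => szc_g_eq w c h hc n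
  have h3 : ∏ p ∈ S, av p (ComplAux.uc p h) = ((∏ p ∈ S, locI h p : ℝ) : ℂ) := by
    rw [Complex.ofReal_prod]
    exact Finset.prod_congr rfl fun p hp => ComplAux.av_uc (hSp p hp) h
  have h4 : ((SZs Y (psi w c) h : ℝ) : ℂ) =
      av (PP w * ∏ p ∈ S, p) (fun n => szc_g w c h n * ∏ p ∈ S, ComplAux.uc p h n) := by
    unfold SZs av
    rw [← szc_split hw]
    push_cast
    congr 1
    refine Finset.sum_congr rfl fun n _ => ?_
    rw [ComplAux.nuz_prod]
    unfold szc_g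
    rw [mul_assoc]
    congr 1
    rw [hS, ← Finset.prod_filter_not_mul_prod_filter (Nat.primesLE Y) (fun p => w < p)]
    congr 1
    refine Finset.prod_congr ?_ fun _ _ => rfl
    ext p
    rw [Finset.mem_filter, Nat.mem_primesLE, Nat.mem_primesLE, not_lt]
    constructor
    · rintro ⟨⟨h1, h2⟩, h3⟩
      exact ⟨h3, h2⟩
    · rintro ⟨h1, h2⟩
      exact ⟨⟨h1.trans hw, h2⟩, h1⟩
  rw [h1, h2, h3] at h4
  have h5 : ((1 / PP w * (DZ w)⁻¹ ^ k * ∏ p ∈ S, locI h p : ℝ) : ℂ) =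
      1 / PP w * (((DZ w)⁻¹ ^ k : ℝ) : ℂ) * ((∏ p ∈ S, locI h p : ℝ) : ℂ) := by
    push_cast
    ring
  rw [← h5] at h4
  exact_mod_cast h4

theorem szc_one_sub {p : ℕ} (hp : p.Prime) : 0 < 1 - 1 / (p : ℝ) := by
  have h1 : (1 : ℝ) < p := by exact_mod_cast hp.one_lt
  rw [sub_pos, div_lt_one (by linarith)]
  exact h1

/-- One shift. -/
theorem locI_one (Y w n : ℕ) :
    ∏ p ∈ (Nat.primesLE Y).filter (fun p => w < p), locI (![n] : Fin 1 → ℕ) p = 1 := by
  classical
  refine Finset.prod_eq_one fun p hp => ?_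
  have hpr : p.Prime := (Nat.mem_primesLE.1 (Finset.mem_filter.1 hp).1).2
  have h1 : nuI (![n] : Fin 1 → ℕ) p = 1 := by
    unfold nuI
    rw [Finset.card_eq_one]
    refine ⟨((n : ℕ) : ZMod p), ?_⟩
    ext x
    simp [eq_comm]
  unfold locI
  rw [h1, Fintype.card_fin, pow_one, Nat.cast_one]
  exact mul_inv_cancel₀ (szc_one_sub hpr).ne'

/-- Two shifts. -/
theorem locI_two (Y w n n' : ℕ) (hn : n ≠ n') :
    ∏ p ∈ (Nat.primesLE Y).filter (fun p => w < p), locI (![n, n'] : Fin 2 → ℕ) p ≤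
      ss w (Nat.dist n n') := by
  classical
  set S := (Nat.primesLE Y).filter (fun p => w < p) with hS
  have hSp : ∀ p ∈ S, p.Prime := fun p hp => (Nat.mem_primesLE.1 (Finset.mem_filter.1 hp).1).2
  set d := Nat.dist n n' with hd
  have hd0 : d ≠ 0 := by
    rw [hd]
    intro h0
    exact hn (Nat.eq_of_dist_eq_zero h0)
  have hdvd : ∀ p : ℕ, p ∣ d ↔ ((n : ℕ) : ZMod p) = ((n' : ℕ) : ZMod p) := by
    intro p
    rw [ZMod.natCast_eq_natCast_iff]
    rcases le_total n n' with hle | hle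
    · rw [hd, Nat.dist_eq_sub_of_le hle, Nat.modEq_iff_dvd' hle]
    · rw [hd, Nat.dist_eq_sub_of_le_right hle]
      exact ((Nat.modEq_iff_dvd' hle).symm).trans ⟨Nat.ModEq.symm, Nat.ModEq.symm⟩
  have himg : ∀ p, (univ.image fun i : Fin 2 => ((![n, n'] i : ℕ) : ZMod p)) =
      {((n : ℕ) : ZMod p), ((n' : ℕ) : ZMod p)} := by
    intro p
    ext x
    simp [Fin.exists_fin_two, eq_comm]
  have hloc : ∀ p ∈ S, 0 ≤ locI (![n, n'] : Fin 2 → ℕ) p ∧ locI (![n, n'] : Fin 2 → ℕ) p ≤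
      if p ∣ d then (1 - 1 / (p : ℝ))⁻¹ else 1 := by
    intro p hp
    have hpr := hSp p hp
    have h0 := szc_one_sub hpr
    have hp2 : (2 : ℝ) ≤ p := by exact_mod_cast hpr.two_le
    have hppos : (0 : ℝ) < p := by linarith
    unfold locI
    rw [Fintype.card_fin]
    split_ifs with hdv
    · have h1 : nuI (![n, n'] : Fin 2 → ℕ) p = 1 := by
        unfold nuI
        rw [himg, (hdvd p).1 hdv, Finset.pair_eq_singleton, Finset.card_singleton]
      rw [h1, Nat.cast_one]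
      have h2 : (1 - 1 / (p : ℝ)) * ((1 - 1 / (p : ℝ))⁻¹) ^ 2 = (1 - 1 / (p : ℝ))⁻¹ := by
        field_simp
      rw [h2]
      exact ⟨(inv_pos.2 h0).le, le_rfl⟩
    · have h1 : nuI (![n, n'] : Fin 2 → ℕ) p = 2 := by
        unfold nuI
        rw [himg, Finset.card_pair]
        intro he
        exact hdv ((hdvd p).2 he)
      rw [h1]
      have h3 : 0 ≤ 1 - ((2 : ℕ) : ℝ) / p := by
        rw [sub_nonneg, div_le_one hppos]
        exact_mod_cast hpr.two_le
      refine ⟨mul_nonneg h3 (by positivity), ?_⟩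
      rw [inv_pow, ← div_eq_mul_inv, div_le_one (by positivity)]
      have h4 : (1 - 1 / (p : ℝ)) ^ 2 = 1 - 2 / p + (1 / p) ^ 2 := by ring
      rw [h4]
      push_cast
      nlinarith [sq_nonneg (1 / (p : ℝ))]
  refine (Finset.prod_le_prod (fun p hp => (hloc p hp).1) fun p hp => (hloc p hp).2).trans ?_
  rw [← Finset.prod_filter]
  unfold ss
  have hone : ∀ p ∈ d.primeFactors.filter (fun p => w < p), (1 : ℝ) ≤ (1 - 1 / (p : ℝ))⁻¹ := by
    intro p hp
    have hpr : p.Prime := Nat.prime_of_mem_primeFactors (Finset.mem_filter.1 hp).1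
    have h0 := szc_one_sub hpr
    refine (one_le_inv₀ h0).2 ?_
    have : (0 : ℝ) ≤ 1 / (p : ℝ) := by positivity
    linarith
  have hsub : S.filter (fun p => p ∣ d) ⊆ d.primeFactors.filter (fun p => w < p) := by
    intro p hp
    rw [hS] at hp
    simp only [Finset.mem_filter] at hp
    exact Finset.mem_filter.2 ⟨Nat.mem_primeFactors.2
      ⟨(Nat.mem_primesLE.1 hp.1.1).2, hp.2, hd0⟩, hp.1.2⟩
  rw [← Finset.prod_sdiff hsub]
  refine le_mul_of_one_le_left (Finset.prod_nonneg fun p hp => zero_le_one.trans (hone p (hsub hp))) ?_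
  exact Finset.prod_induction _ (fun x => (1 : ℝ) ≤ x)
    (fun a b ha hb => one_le_mul_of_one_le_of_one_le ha hb) le_rfl
    (fun p hp => hone p (Finset.mem_sdiff.1 hp).1)

end Pool.Agent.Lib.LEN
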