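import Pool.Agent.Lib.LEN.Defs
import Pool.Agent.Lib.GMV.Compl

/-!
# LEN.TPs: the complete local mean with a periodic weight

Copies of `TP_eq`, `TP_le`, `TP_one` (GMV/Compl) with a factor `ψ n`.
-/

set_option autoImplicit false

open Finset Filter

namespace Pool.Agent.Lib.LEN

open Pool.Agent.HLB Pool.Agent.HLT Pool.Agent.HLR Pool.Agent.Lib.GMV

namespace TPsAux

/-- The model has the period `PP Y`. -/
lemma nuz_periodic (Y n : ℕ) : nuz Y (n + PP Y) = nuz Y n := by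
  rw [ComplAux.nuz_lw, ComplAux.nuz_lw]
  refine Finset.prod_congr rfl fun p hp => ?_
  have hd : p ∣ PP Y := by
    unfold PP
    exact Finset.dvd_prod_of_mem (fun q => q) hp
  unfold ComplAux.lw
  have e : p ∣ n + PP Y ↔ p ∣ n := (Nat.dvd_add_iff_left hd).symm
  simp only [e]

lemma PP_pos (w : ℕ) : 1 ≤ PP w := by
  unfold PP
  exact Finset.prod_pos fun p hp => (Nat.mem_primesLE.1 hp).2.pos

end TPsAux

open TPsAux

/-- Module TPs (a): copy of GMV.Compl `TP_eq`. -/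
theorem TPs_eq {k : ℕ} (Y : ℕ) (ψ : ℕ → ℝ) (x : Fin k → CI) (hx : ∀ i, md (x i) ≤ Y)
    (h : Fin k → ℕ) :
    ∑ S ∈ Fintype.piFinset (fun i => Sa Y (md (x i))),
      av (P0 Y x) (fun n => (ψ n : ℂ) * fS x S h n) = TPs Y ψ x h := by
  classical
  unfold TPs av
  rw [← Finset.sum_div]
  congr 1
  rw [Finset.sum_comm]
  refine Finset.sum_congr rfl fun n _ => ?_
  rw [← Finset.mul_sum]
  congr 1
  unfold fS
  rw [← Finset.prod_univ_sum (fun i => Sa Y (md (x i)))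
    (fun i S => (rho (x i) : ℂ) * (starRingEnd ℂ) (cv (x i) (n + h i)) *
      ((∏ p ∈ S, wp p (n + h i) : ℝ) : ℂ))]
  refine Finset.prod_congr rfl fun i _ => ?_
  rw [← Finset.mul_sum]
  exact ComplAux.key Y (x i) (hx i) (n + h i)

/-- Module TPs (b): copy of GMV.Compl `TP_le`. -/
theorem TPs_le {k : ℕ} (Y : ℕ) (ψ : ℕ → ℝ) (h0 : ∀ n, 0 ≤ ψ n) (hper : ∀ n, ψ (n + PP Y) = ψ n)
    (x : Fin k → CI) (h : Fin k → ℕ) : ‖TPs Y ψ x h‖ ≤ SZs Y ψ h := by
  classical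
  unfold TPs
  have h1 : ∀ n, ‖(ψ n : ℂ) * ∏ i, ((starRingEnd ℂ) (cv (x i) (n + h i)) *
      (nuz Y (n + h i) : ℂ))‖ ≤ ψ n * ∏ i, nuz Y (n + h i) := by
    intro n
    rw [norm_mul, Complex.norm_real, Real.norm_of_nonneg (h0 n)]
    refine mul_le_mul_of_nonneg_left ?_ (h0 n)
    rw [norm_prod]
    refine Finset.prod_le_prod (fun i _ => norm_nonneg _) fun i _ => ?_
    rw [norm_mul, RCLike.norm_conj, Complex.norm_real, Real.norm_of_nonneg (nuz_nonneg _ _)]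
    exact mul_le_of_le_one_left (nuz_nonneg _ _) (norm_cv_le _ _)
  refine (norm_av_le _ _ _ h1).trans (le_of_eq ?_)
  have hM : 1 ≤ ∏ i, md (x i) := Finset.prod_pos fun i _ => md_pos (x i)
  have hP : P0 Y x = PP Y * ∏ i, md (x i) := by
    unfold P0 PP
    rw [mul_comm]
  have hpf : ∀ n, ((ψ (n + PP Y) * ∏ i, nuz Y (n + PP Y + h i) : ℝ) : ℂ) =
      ((ψ n * ∏ i, nuz Y (n + h i) : ℝ) : ℂ) := by
    intro n
    rw [hper]
    congr 2
    refine Finset.prod_congr rfl fun i _ => ?_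
    rw [show n + PP Y + h i = n + h i + PP Y by ring, nuz_periodic]
  have h5 := av_period (PP Y) (∏ i, md (x i)) (PP_pos Y) hM
    (fun n => ((ψ n * ∏ i, nuz Y (n + h i) : ℝ) : ℂ)) hpf
  rw [← hP] at h5
  unfold av at h5
  rw [← Complex.ofReal_sum, ← Complex.ofReal_sum] at h5
  unfold SZs
  exact_mod_cast h5

/-- Module TPs (c): copy of GMV.Compl `TP_one`. -/
theorem TPs_one {k : ℕ} (Y : ℕ) (ψ : ℕ → ℝ) (h : Fin k → ℕ) :
    TPs Y ψ (fun _ => one) h = (SZs Y ψ h : ℂ) := by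
  classical
  have hP : P0 Y (fun _ : Fin k => one) = PP Y := by
    unfold P0 PP
    have h1 : ∏ _i : Fin k, md one = 1 := Finset.prod_eq_one fun i _ => rfl
    rw [h1, one_mul]
  unfold TPs SZs av
  rw [hP]
  push_cast
  congr 1
  refine Finset.sum_congr rfl fun n _ => ?_
  congr 1
  refine Finset.prod_congr rfl fun i _ => ?_
  rw [ComplAux.cv_one, map_one, one_mul]

end Pool.Agent.Lib.LEN
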