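import Pool.Agent.Lib.LEN.MainP
import Pool.Agent.Lib.LEN.TPs
import Pool.Agent.Lib.LEN.Szc
import Pool.Agent.Lib.LEN.FirstL
import Pool.Agent.Lib.GMV.FreeY

/-!
# LEN.FirstLow: the lower bound for the first correlation in a class (paper 3.3, 3.4)

For `n` outside the set of `firstL` the sum of `W (2 N) Q` over the class is the sum of the model; `mainP` with `k = 1`
and `M = {one}`; all the `m + n` with `m ≤ N < n ≤ 2 N` are in the middle range, so `Mc one` is `1 + O(E)` there.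
-/

set_option autoImplicit false

open Finset Filter

namespace Pool.Agent.Lib.LEN

open Pool.Agent.HLB Pool.Agent.HLT Pool.Agent.HLR Pool.Agent.Lib.GMV

namespace FirstLowAux

lemma PP_pos (w : ℕ) : 0 < PP w :=
  Finset.prod_pos fun _ hp => (Nat.mem_primesLE.1 hp).2.pos

lemma PP_le (w : ℕ) : PP w ≤ 4 ^ w := by
  have h4 : primorial w = PP w := by
    unfold primorial PP
    refine prod_congr ?_ fun _ _ => rfl
    ext p
    rw [mem_filter, mem_range, Nat.mem_primesLE]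
    constructor
    · rintro ⟨h1, h2⟩
      exact ⟨by omega, h2⟩
    · rintro ⟨h1, h2⟩
      exact ⟨by omega, h2⟩
  rw [← h4]
  exact primorial_le_four_pow w

lemma DZ_le_one (w : ℕ) : DZ w ≤ 1 := by
  unfold DZ
  refine Finset.prod_le_one (fun p hp => ?_) fun p hp => ?_
  · have h0 : (1 : ℝ) ≤ p := by exact_mod_cast (Nat.mem_primesLE.1 hp).2.one_lt.le
    have h1 : 1 / (p : ℝ) ≤ 1 := (div_le_one (by linarith)).2 h0
    linarith
  · have h1 : (0 : ℝ) ≤ 1 / (p : ℝ) := by positivity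
    linarith

lemma psi_nonneg (w c n : ℕ) : 0 ≤ psi w c n := by
  unfold psi
  split_ifs <;> norm_num

lemma psi_le_one (w c n : ℕ) : psi w c n ≤ 1 := by
  unfold psi
  split_ifs <;> norm_num

lemma psi_per (w c n : ℕ) : psi w c (n + PP w) = psi w c n := by
  unfold psi
  rw [Nat.add_mod_right]

/-- Growth in `Q`. -/
lemma growth : ∀ᶠ q : ℝ in atTop, 2 * q ^ (-1 : ℝ) + q ^ (-(1 / 10 : ℝ)) ≤ q ^ (-(3 / 40 : ℝ)) := by
  have h1 : ∀ᶠ q : ℝ in atTop, (4 : ℝ) ≤ q ^ (37 / 40 : ℝ) :=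
    (tendsto_rpow_atTop (by norm_num)).eventually_ge_atTop 4
  have h2 : ∀ᶠ q : ℝ in atTop, (2 : ℝ) ≤ q ^ (1 / 40 : ℝ) :=
    (tendsto_rpow_atTop (by norm_num)).eventually_ge_atTop 2
  filter_upwards [h1, h2, eventually_ge_atTop 1] with q g1 g2 hq
  have hq0 : 0 < q := by linarith
  have e1 : q ^ (-(3 / 40 : ℝ)) = q ^ (-1 : ℝ) * q ^ (37 / 40 : ℝ) := by
    rw [← Real.rpow_add hq0]
    norm_num
  have e2 : q ^ (-(3 / 40 : ℝ)) = q ^ (-(1 / 10 : ℝ)) * q ^ (1 / 40 : ℝ) := by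
    rw [← Real.rpow_add hq0]
    norm_num
  have p1 : 0 < q ^ (-1 : ℝ) := Real.rpow_pos_of_pos hq0 _
  have p2 : 0 < q ^ (-(1 / 10 : ℝ)) := Real.rpow_pos_of_pos hq0 _
  have a1 : q ^ (-1 : ℝ) * 4 ≤ q ^ (-(3 / 40 : ℝ)) := by
    rw [e1]
    exact mul_le_mul_of_nonneg_left g1 p1.le
  have a2 : q ^ (-(1 / 10 : ℝ)) * 2 ≤ q ^ (-(3 / 40 : ℝ)) := by
    rw [e2]
    exact mul_le_mul_of_nonneg_left g2 p2.le
  linarith

end FirstLowAux

open FirstLowAux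

theorem firstLow (B : ℝ) : ∃ c C : ℝ, 0 < c ∧ 0 < C ∧ ∃ X0 : ℕ, ∀ N Q w : ℕ, X0 ≤ N →
    Rg c (2 * N) Q → 4 ^ (40 * w) ≤ Q → ∀ b : CI → ℝ,
    (∀ x ∈ Ch Q, ∀ n, ‖Mc (2 * N) Q x n‖ ≤ b x) → ∑ x ∈ Ch Q, b x ≤ B → ∀ E : ℝ,
    ∑ x ∈ Ch Q \ {one}, b x ≤ E →
    (∀ n : ℕ, 3 * (2 * N) ≤ n * Q → n * Q + 2 * N ≤ 2 * (2 * N) * Q →
      ‖Mc (2 * N) Q one n - 1‖ ≤ E) →
    ∃ Bd : Finset ℕ, (Bd.card : ℝ) ≤ (N : ℝ) * (Q : ℝ) ^ (-(1 / 4 : ℝ)) ∧
    ∀ c', ∀ n ∈ Ioc N (2 * N), n ∉ Bd → Nat.Coprime (n + c') (PP w) →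
      (N : ℝ) / PP w * (DZ w)⁻¹ * (1 - (C * E + (Q : ℝ) ^ (-(1 / 20 : ℝ)))) ≤
        AA lp N w c' n := by
  obtain ⟨c1, C1, hc1, hC1, X1, hmain⟩ := mainP 1 le_rfl B
  obtain ⟨c2, hc2, X2, hfir⟩ := firstL B
  obtain ⟨X3, hX3⟩ := FreeYAux.largeQ (fun q => (2 * q ^ (-1 : ℝ) + q ^ (-(1 / 10 : ℝ)) ≤
    q ^ (-(3 / 40 : ℝ))) ∧ 6 ≤ q) (growth.and (eventually_ge_atTop 6))
  refine ⟨min c1 c2, 1 + 2 * C1, lt_min hc1 hc2, by positivity, max (max X1 X2) (max X3 1), ?_⟩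
  intro N Q w hN hR hw b hb hbB E hE hone
  have hX1 : X1 ≤ 2 * N := le_trans (le_max_left _ _)
    (le_trans (le_max_left _ _) (hN.trans (by omega)))
  have hX2 : X2 ≤ N := le_trans (le_max_right _ _) (le_trans (le_max_left _ _) hN)
  have hX3' : X3 ≤ 2 * N := le_trans (le_max_left _ _)
    (le_trans (le_max_right _ _) (hN.trans (by omega)))
  have hN1 : 1 ≤ N := le_trans (le_max_right _ _) (le_trans (le_max_right _ _) hN)
  obtain ⟨hgr, hQ6⟩ := hX3 (2 * N) Q hX3' hR.1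
  have hQn : 6 ≤ Q := by exact_mod_cast hQ6
  have hQ0 : (0 : ℝ) < Q := by linarith
  have hNr : (0 : ℝ) < N := by exact_mod_cast hN1
  have hR1 : Rg c1 (2 * N) Q := FreeYAux.Rg_mono (min_le_left _ _) (by omega) hR
  have hR2 : Rg c2 (2 * N) Q := FreeYAux.Rg_mono (min_le_right _ _) (by omega) hR
  have hb0 : ∀ x ∈ Ch Q, 0 ≤ b x := fun x hx => (norm_nonneg _).trans (hb x hx 0)
  have hE0 : 0 ≤ E := le_trans (Finset.sum_nonneg fun x hx =>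
    hb0 x (Finset.mem_sdiff.1 hx).1) hE
  have hwQ : w ≤ Q ^ (8 * 1) := by
    calc w ≤ 4 ^ w := (Nat.lt_pow_self (by norm_num)).le
      _ ≤ 4 ^ (40 * w) := Nat.pow_le_pow_right (by norm_num) (by omega)
      _ ≤ Q := hw
      _ = Q ^ 1 := (pow_one Q).symm
      _ ≤ Q ^ (8 * 1) := Nat.pow_le_pow_right (by omega) (by omega)
  have hPQ : PP w ≤ Q := by
    calc PP w ≤ 4 ^ w := PP_le w
      _ ≤ 4 ^ (40 * w) := Nat.pow_le_pow_right (by norm_num) (by omega)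
      _ ≤ Q := hw
  obtain ⟨Bd, hBd, hfir'⟩ := hfir N Q w hX2 hR2 hw b hb hbB
  refine ⟨Bd, hBd, ?_⟩
  intro c' n hn hnB hcop
  have hn' := Finset.mem_Ioc.1 hn
  have hF := hfir' c' n (Finset.mem_Icc.2 ⟨by omega, hn'.2⟩) hnB
  have hTup : (![n] : Fin 1 → ℕ) ∈ Tup 1 (Icc 1 (2 * N)) := by
    rw [mem_Tup]
    intro i
    rw [Finset.mem_Icc]
    have : (![n] : Fin 1 → ℕ) i = n := by
      fin_cases i
      rfl
    rw [this]
    omega
  have hM := hmain (2 * N) Q hX1 hR1 w hPQ (psi w c') (psi_nonneg w c') (psi_le_one w c')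
    (psi_per w c') b hb hbB {one} E
    (Finset.singleton_subset_iff.2 (one_mem_Ch (by omega))) hE ![n] hTup
    (Function.injective_of_subsingleton _) N (by omega)
  -- the model mean
  obtain ⟨T, hT⟩ : ∃ T : ℝ, T = 1 / PP w * (DZ w)⁻¹ := ⟨_, rfl⟩
  have hSZ : SZs (Q ^ (8 * 1)) (psi w c') ![n] = T := by
    rw [szc (Q ^ (8 * 1)) w c' hwQ ![n] (by
      intro i
      fin_cases i
      exact hcop), locI_one, pow_one, mul_one, hT]
  have hP0 : (0 : ℝ) < PP w := by exact_mod_cast PP_pos w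
  have hDZ0 := DZ_pos w
  have hT0 : 0 < T := by rw [hT]; positivity
  -- the sum over the one character
  have hpi : Fintype.piFinset (fun _ : Fin 1 => ({one} : Finset CI)) = {fun _ => one} := by
    ext x
    rw [Fintype.mem_piFinset, Finset.mem_singleton]
    constructor
    · intro h
      funext i
      exact Finset.mem_singleton.1 (h i)
    · intro h i
      rw [h]
      exact Finset.mem_singleton_self _
  rw [hpi, Finset.sum_singleton, TPs_one, hSZ] at hM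
  simp only [Finset.univ_unique, Fin.default_eq_zero, Finset.prod_singleton, Fin.isValue,
    Matrix.cons_val_fin_one, mul_one] at hM
  -- the main term
  obtain ⟨G, hG⟩ : ∃ G : ℂ, G = ∑ m ∈ Icc 1 N, Mc (2 * N) Q one (m + n) := ⟨_, rfl⟩
  obtain ⟨L, hL⟩ : ∃ L : ℂ, L = ∑ m ∈ Icc 1 N, (psi w c' m : ℂ) * LL (2 * N) Q (Q ^ 8) (m + n) :=
    ⟨_, rfl⟩
  rw [← hG, ← hL] at hM
  rw [← hL] at hF
  have hGN : ‖G - N‖ ≤ N * E := by
    have e1 : G - N = ∑ m ∈ Icc 1 N, (Mc (2 * N) Q one (m + n) - 1) := by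
      rw [hG, Finset.sum_sub_distrib, Finset.sum_const, Nat.card_Icc, Nat.add_sub_cancel,
        nsmul_eq_mul, mul_one]
    rw [e1]
    refine (norm_sum_le _ _).trans ?_
    have h2 : ∀ m ∈ Icc 1 N, ‖Mc (2 * N) Q one (m + n) - 1‖ ≤ E := by
      intro m hm
      rw [Finset.mem_Icc] at hm
      refine hone (m + n) ?_ ?_
      · calc 3 * (2 * N) = N * 6 := by ring
          _ ≤ (m + n) * Q := Nat.mul_le_mul (by omega) hQn
      · calc (m + n) * Q + 2 * N ≤ 3 * N * Q + 2 * N :=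
              Nat.add_le_add_right (Nat.mul_le_mul_right _ (by omega)) _
          _ ≤ 3 * N * Q + N * Q := Nat.add_le_add_left (by
              calc 2 * N = N * 2 := by ring
                _ ≤ N * Q := Nat.mul_le_mul_left _ (by omega)) _
          _ = 2 * (2 * N) * Q := by ring
    refine (Finset.sum_le_sum h2).trans ?_
    rw [Finset.sum_const, Nat.card_Icc, Nat.add_sub_cancel, nsmul_eq_mul]
  have hTN : ‖(T : ℂ) * G - (T : ℂ) * N‖ ≤ T * (N * E) := by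
    rw [← mul_sub, norm_mul, Complex.norm_real, Real.norm_of_nonneg hT0.le]
    exact mul_le_mul_of_nonneg_left hGN hT0.le
  -- assembly
  obtain ⟨A, hA⟩ : ∃ A : ℝ, A = AA (W (2 * N) Q) N w c' n := ⟨_, rfl⟩
  rw [← hA] at hF
  have htot : ‖((A - T * N : ℝ) : ℂ)‖ ≤ N * (Q : ℝ) ^ (-(1 / 10 : ℝ)) +
      (C1 * T * ((2 * N : ℕ) : ℝ) * E + ((2 * N : ℕ) : ℝ) / Q) + T * (N * E) := by
    have e1 : ((A - T * N : ℝ) : ℂ) = ((A : ℂ) - L) + (L - (T : ℂ) * G) +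
        ((T : ℂ) * G - (T : ℂ) * N) := by
      push_cast
      ring
    rw [e1]
    refine (norm_add_le _ _).trans (add_le_add ?_ hTN)
    exact (norm_add_le _ _).trans (add_le_add hF hM)
  rw [Complex.norm_real, Real.norm_eq_abs] at htot
  have hlow := neg_abs_le (A - T * N)
  have hWl : A ≤ AA lp N w c' n := by
    rw [hA]
    unfold AA
    exact Finset.sum_le_sum fun h _ => W_le _ _ _
  -- the small terms
  have hT1 : (Q : ℝ) ^ (-(1 / 40 : ℝ)) ≤ T := by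
    have h1 : (PP w : ℝ) ≤ (Q : ℝ) ^ (1 / 40 : ℝ) := by
      have h2 : ((4 : ℝ) ^ w) ^ (40 : ℕ) ≤ Q := by
        rw [← pow_mul, mul_comm w 40]
        exact_mod_cast hw
      have h3 : (PP w : ℝ) ≤ (4 : ℝ) ^ w := by exact_mod_cast PP_le w
      refine h3.trans ?_
      calc (4 : ℝ) ^ w = (((4 : ℝ) ^ w) ^ (40 : ℕ)) ^ (1 / 40 : ℝ) := by
            rw [← Real.rpow_natCast ((4 : ℝ) ^ w) 40, ← Real.rpow_mul (by positivity)]
            norm_num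
        _ ≤ (Q : ℝ) ^ (1 / 40 : ℝ) := Real.rpow_le_rpow (by positivity) h2 (by norm_num)
    have h4 : (1 : ℝ) ≤ (DZ w)⁻¹ := (one_le_inv₀ hDZ0).2 (DZ_le_one w)
    rw [Real.rpow_neg hQ0.le, hT]
    calc ((Q : ℝ) ^ (1 / 40 : ℝ))⁻¹ ≤ (PP w : ℝ)⁻¹ := inv_anti₀ hP0 h1
      _ = 1 / PP w * 1 := by rw [mul_one, one_div]
      _ ≤ 1 / PP w * (DZ w)⁻¹ := mul_le_mul_of_nonneg_left h4 (by positivity)
  have hsm : (N : ℝ) * (Q : ℝ) ^ (-(1 / 10 : ℝ)) + ((2 * N : ℕ) : ℝ) / Q ≤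
      T * N * (Q : ℝ) ^ (-(1 / 20 : ℝ)) := by
    have e1 : ((2 * N : ℕ) : ℝ) / Q = N * (2 * (Q : ℝ) ^ (-1 : ℝ)) := by
      rw [Real.rpow_neg_one]
      push_cast
      ring
    have e2 : (Q : ℝ) ^ (-(3 / 40 : ℝ)) = (Q : ℝ) ^ (-(1 / 40 : ℝ)) * (Q : ℝ) ^ (-(1 / 20 : ℝ)) := by
      rw [← Real.rpow_add hQ0]
      norm_num
    rw [e1]
    calc (N : ℝ) * (Q : ℝ) ^ (-(1 / 10 : ℝ)) + N * (2 * (Q : ℝ) ^ (-1 : ℝ)) =
        N * (2 * (Q : ℝ) ^ (-1 : ℝ) + (Q : ℝ) ^ (-(1 / 10 : ℝ))) := by ring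
      _ ≤ N * (Q : ℝ) ^ (-(3 / 40 : ℝ)) := mul_le_mul_of_nonneg_left hgr hNr.le
      _ = N * ((Q : ℝ) ^ (-(1 / 40 : ℝ)) * (Q : ℝ) ^ (-(1 / 20 : ℝ))) := by rw [e2]
      _ ≤ N * (T * (Q : ℝ) ^ (-(1 / 20 : ℝ))) :=
          mul_le_mul_of_nonneg_left (mul_le_mul_of_nonneg_right hT1
            (Real.rpow_nonneg hQ0.le _)) hNr.le
      _ = T * N * (Q : ℝ) ^ (-(1 / 20 : ℝ)) := by ring
  have e9 : (N : ℝ) / PP w * (DZ w)⁻¹ * (1 - ((1 + 2 * C1) * E + (Q : ℝ) ^ (-(1 / 20 : ℝ)))) =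
      T * N - T * N * E - 2 * (C1 * T * N * E) - T * N * (Q : ℝ) ^ (-(1 / 20 : ℝ)) := by
    rw [hT]
    ring
  have e10 : C1 * T * ((2 * N : ℕ) : ℝ) * E = 2 * (C1 * T * N * E) := by
    push_cast
    ring
  have e11 : T * (N * E) = T * N * E := by ring
  rw [e9]
  rw [e10, e11] at htot
  linarith

end Pool.Agent.Lib.LEN
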