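import Pool.Agent.Lib.LEN.GoodX
import Pool.Agent.Lib.GMV.DFin

/-!
# LEN.Levels: everything analytic
-/

set_option autoImplicit false

open Finset Filter

namespace Pool.Agent.Lib.LEN

open Pool.Agent.HLB Pool.Agent.HLT Pool.Agent.HLR Pool.Agent.Lib.GMV

namespace LevelsAux

open GoodXAux

/-- The statement of `pairUp`. -/
def PairUpS : Prop := ∀ B : ℝ, ∃ c C : ℝ, 0 < c ∧ 0 < C ∧ ∃ X0 : ℕ, ∀ N Q w : ℕ, X0 ≤ N →
    Rg c (2 * N) Q → 4 ^ (40 * w) ≤ Q → ∀ b : CI → ℝ,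
    (∀ x ∈ Ch Q, ∀ n, ‖Mc (2 * N) Q x n‖ ≤ b x) → ∑ x ∈ Ch Q, b x ≤ B → ∀ E : ℝ,
    ∑ x ∈ Ch Q \ {one}, b x ≤ E →
    (∀ n : ℕ, 3 * (2 * N) ≤ n * Q → n * Q + 2 * N ≤ 2 * (2 * N) * Q →
      ‖Mc (2 * N) Q one n - 1‖ ≤ E) →
    ∃ Bd : Finset (ℕ × ℕ), (Bd.card : ℝ) ≤ (N : ℝ) ^ 2 * (Q : ℝ) ^ (-(1 / 4 : ℝ)) ∧
    ∀ c', ∀ n ∈ Ioc N (2 * N), ∀ n' ∈ Ioc N (2 * N), n ≠ n' → (n, n') ∉ Bd →
      Nat.Coprime (n + c') (PP w) → Nat.Coprime (n' + c') (PP w) →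
      CC lp N w c' n n' ≤ (N : ℝ) / PP w * (DZ w)⁻¹ ^ 2 * ss w (Nat.dist n n') *
        (1 + (C * E + (Q : ℝ) ^ (-(1 / 20 : ℝ))))

/-- The statement of `firstLow`. -/
def FirstLowS : Prop := ∀ B : ℝ, ∃ c C : ℝ, 0 < c ∧ 0 < C ∧ ∃ X0 : ℕ, ∀ N Q w : ℕ, X0 ≤ N →
    Rg c (2 * N) Q → 4 ^ (40 * w) ≤ Q → ∀ b : CI → ℝ,
    (∀ x ∈ Ch Q, ∀ n, ‖Mc (2 * N) Q x n‖ ≤ b x) → ∑ x ∈ Ch Q, b x ≤ B → ∀ E : ℝ,
    ∑ x ∈ Ch Q \ {one}, b x ≤ E →
    (∀ n : ℕ, 3 * (2 * N) ≤ n * Q → n * Q + 2 * N ≤ 2 * (2 * N) * Q →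
      ‖Mc (2 * N) Q one n - 1‖ ≤ E) →
    ∃ Bd : Finset ℕ, (Bd.card : ℝ) ≤ (N : ℝ) * (Q : ℝ) ^ (-(1 / 4 : ℝ)) ∧
    ∀ c', ∀ n ∈ Ioc N (2 * N), n ∉ Bd → Nat.Coprime (n + c') (PP w) →
      (N : ℝ) / PP w * (DZ w)⁻¹ * (1 - (C * E + (Q : ℝ) ^ (-(1 / 20 : ℝ)))) ≤
        AA lp N w c' n

lemma ss_nonneg (w d : ℕ) : 0 ≤ ss w d := by
  unfold ss
  refine Finset.prod_nonneg fun p hp => ?_
  have h1 : p.Prime := Nat.prime_of_mem_primeFactors (Finset.mem_filter.1 hp).1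
  have h2 : (2 : ℝ) ≤ p := by exact_mod_cast h1.two_le
  have h3 : 1 / (p : ℝ) ≤ 1 / 2 := by
    apply one_div_le_one_div_of_le (by norm_num) h2
  have h4 : 0 ≤ 1 - 1 / (p : ℝ) := by linarith
  positivity

/-- The pair bound at a level. -/
def PB (N Q w : ℕ) (e : ℝ) : Prop :=
  ∃ Bd : Finset (ℕ × ℕ), (Bd.card : ℝ) ≤ (N : ℝ) ^ 2 * (Q : ℝ) ^ (-(1 / 4 : ℝ)) ∧
    ∀ c', ∀ n ∈ Ioc N (2 * N), ∀ n' ∈ Ioc N (2 * N), n ≠ n' → (n, n') ∉ Bd →
      Nat.Coprime (n + c') (PP w) → Nat.Coprime (n' + c') (PP w) →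
      CC lp N w c' n n' ≤ (N : ℝ) / PP w * (DZ w)⁻¹ ^ 2 * ss w (Nat.dist n n') * (1 + e)

/-- The first moment bound at a level. -/
def FB (N Q w : ℕ) (e : ℝ) : Prop :=
  ∃ Bd : Finset ℕ, (Bd.card : ℝ) ≤ (N : ℝ) * (Q : ℝ) ^ (-(1 / 4 : ℝ)) ∧
    ∀ c', ∀ n ∈ Ioc N (2 * N), n ∉ Bd → Nat.Coprime (n + c') (PP w) →
      (N : ℝ) / PP w * (DZ w)⁻¹ * (1 - e) ≤ AA lp N w c' n

lemma PB_mono {N Q w : ℕ} {e e' : ℝ} (h : e ≤ e') (hP : PB N Q w e) : PB N Q w e' := by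
  obtain ⟨Bd, h1, h2⟩ := hP
  refine ⟨Bd, h1, fun c' n hn n' hn' hne hB g g' => (h2 c' n hn n' hn' hne hB g g').trans ?_⟩
  have h3 : 0 ≤ (N : ℝ) / PP w * (DZ w)⁻¹ ^ 2 * ss w (Nat.dist n n') := by
    have := ss_nonneg w (Nat.dist n n')
    positivity
  exact mul_le_mul_of_nonneg_left (by linarith) h3

lemma FB_mono {N Q w : ℕ} {e e' : ℝ} (h : e ≤ e') (hP : FB N Q w e) : FB N Q w e' := by
  obtain ⟨Bd, h1, h2⟩ := hP
  refine ⟨Bd, h1, fun c' n hn hB g => le_trans ?_ (h2 c' n hn hB g)⟩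
  have h3 : 0 ≤ (N : ℝ) / PP w * (DZ w)⁻¹ := by
    have := DZ_pos w
    positivity
  exact mul_le_mul_of_nonneg_left (by linarith) h3

/-- One level. -/
theorem lev (hP : PairUpS) (hF : FirstLowS) (c1 c : ℝ) (hZ : ZFree c1) (hc : 0 < c)
    (hcc : c < c1) : ∃ a K c2 : ℝ, 0 < a ∧ 0 < K ∧ 0 < c2 ∧ ∃ X0 : ℕ,
    ∀ N Q w : ℕ, X0 ≤ N → Rg c2 (2 * N) Q → 4 ^ (40 * w) ≤ Q →
    PB N Q w K ∧ ((∀ x β, ¬ IsExc c Q x β) →
      PB N Q w (K * Er a (2 * N) Q + (Q : ℝ) ^ (-(1 / 20 : ℝ))) ∧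
      FB N Q w (K * Er a (2 * N) Q + (Q : ℝ) ^ (-(1 / 20 : ℝ)))) := by
  classical
  obtain ⟨a, B, cs, ha, hB, hcs, X1, hS⟩ := sumB c1 c hZ hc hcc
  obtain ⟨cp, Cp, hcp, hCp, X2, hPU⟩ := hP B
  obtain ⟨cf, Cf, hcf, hCf, X3, hFL⟩ := hF B
  refine ⟨a, (Cp + Cf) * B + 1, min cs (min cp cf), ha, by positivity,
    lt_min hcs (lt_min hcp hcf), max 1 (max X1 (max X2 X3)), ?_⟩
  intro N Q w hN hR hw
  have hN1 : 1 ≤ N := (le_max_left _ _).trans hN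
  have hNX1 : X1 ≤ N := ((le_max_left _ _).trans (le_max_right _ _)).trans hN
  have hNX2 : X2 ≤ N :=
    (((le_max_left _ _).trans (le_max_right _ _)).trans (le_max_right _ _)).trans hN
  have hNX3 : X3 ≤ N :=
    (((le_max_right _ _).trans (le_max_right _ _)).trans (le_max_right _ _)).trans hN
  have h2N : 1 ≤ 2 * N := by omega
  have hRs : Rg cs (2 * N) Q := FreeYAux.Rg_mono (min_le_left _ _) h2N hR
  have hRp : Rg cp (2 * N) Q :=
    FreeYAux.Rg_mono ((min_le_right _ _).trans (min_le_left _ _)) h2N hR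
  have hRf : Rg cf (2 * N) Q :=
    FreeYAux.Rg_mono ((min_le_right _ _).trans (min_le_right _ _)) h2N hR
  obtain ⟨b, M, q, hb1, hb2, hK, hE, hb3, hb4⟩ := hS (2 * N) Q (by omega) hRs
  have hQ1 : 1 ≤ Q := le_trans (Nat.one_le_pow _ _ (by norm_num)) hw
  have hQr : (1 : ℝ) ≤ Q := by exact_mod_cast hQ1
  have hq20 : (Q : ℝ) ^ (-(1 / 20 : ℝ)) ≤ 1 :=
    Real.rpow_le_one_of_one_le_of_nonpos hQr (by norm_num)
  have hEr0 : 0 < Er a (2 * N) Q := Real.exp_pos _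
  have hEr1 : Er a (2 * N) Q ≤ 1 := by
    unfold Er
    rw [Real.exp_le_one_iff, neg_nonpos]
    have h1 : 0 ≤ Real.log ((2 * N : ℕ) : ℝ) := Real.log_natCast_nonneg _
    have h2 : 0 ≤ Real.log Q := Real.log_natCast_nonneg _
    positivity
  have hb0 : ∀ x ∈ Ch Q, 0 ≤ b x := fun x hx => (norm_nonneg _).trans (hb1 x hx 0)
  constructor
  · -- always
    have h1 : ∑ x ∈ Ch Q \ {one}, b x ≤ B :=
      (Finset.sum_le_sum_of_subset_of_nonneg Finset.sdiff_subset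
        (fun x hx _ => hb0 x hx)).trans hb2
    have h2 := hPU N Q w hNX2 hRp hw b hb1 hb2 B h1 (fun n g1 g2 => (hb4 n g1 g2).trans (by
      have := mul_le_mul_of_nonneg_left hEr1 hB.le
      linarith))
    refine PB_mono ?_ h2
    have : 0 ≤ Cf * B := by positivity
    linarith
  · intro hno
    have hq0 : q = 0 := by
      rcases hE with h | ⟨xe, β, h, -⟩
      · exact h.1
      · exact absurd h (hno xe β)
    have hM : M = {one} := by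
      rcases hK with h | ⟨xe, -, -, -, -, h⟩
      · exact h.1
      · rw [hq0] at h
        unfold md at h
        omega
    subst hM
    have h2 := hPU N Q w hNX2 hRp hw b hb1 hb2 _ hb3 hb4
    have h3 := hFL N Q w hNX3 hRf hw b hb1 hb2 _ hb3 hb4
    have g1 : 0 ≤ Cf * B * Er a (2 * N) Q := by positivity
    have g2 : 0 ≤ Cp * B * Er a (2 * N) Q := by positivity
    refine ⟨PB_mono ?_ h2, FB_mono ?_ h3⟩
    · have e : ((Cp + Cf) * B + 1) * Er a (2 * N) Q = Cp * (B * Er a (2 * N) Q) +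
          Cf * B * Er a (2 * N) Q + Er a (2 * N) Q := by ring
      rw [e]
      linarith
    · have e : ((Cp + Cf) * B + 1) * Er a (2 * N) Q = Cf * (B * Er a (2 * N) Q) +
          Cp * B * Er a (2 * N) Q + Er a (2 * N) Q := by ring
      rw [e]
      linarith

/-- `yy N` is large compared with `√(log N)`. -/
lemma yy_big (K : ℝ) : ∃ N1 : ℕ, ∀ N : ℕ, N1 ≤ N → K * Real.sqrt (Real.log N) ≤ yy N := by
  have h1 : Tendsto (fun N : ℕ => Real.log (N : ℝ)) atTop atTop :=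
    Real.tendsto_log_atTop.comp tendsto_natCast_atTop_atTop
  have h2 := (isLittleO_log_rpow_atTop (show (0 : ℝ) < 1 / 2 by norm_num)).bound
    (c := 1 / (|K| + 1)) (by positivity)
  obtain ⟨N1, hN1⟩ := eventually_atTop.1 ((h1.eventually h2).and
    (h1.eventually_ge_atTop (Real.exp 1)))
  refine ⟨N1, fun N hN => ?_⟩
  obtain ⟨ha, hb⟩ := hN1 N hN
  have hl0 : 0 < Real.log N := (Real.exp_pos 1).trans_le hb
  have hll := loglog_ge hb
  rw [Real.norm_of_nonneg (by linarith), Real.norm_of_nonneg (Real.rpow_nonneg hl0.le _),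
    ← Real.sqrt_eq_rpow] at ha
  have hs : 0 < Real.sqrt (Real.log N) := Real.sqrt_pos.2 hl0
  have h6 : Real.sqrt (Real.log N) * Real.sqrt (Real.log N) = Real.log N :=
    Real.mul_self_sqrt hl0.le
  unfold yy
  rw [le_div_iff₀ (by linarith)]
  have h7 : (|K| + 1) * Real.log (Real.log N) ≤ Real.sqrt (Real.log N) := by
    have := mul_le_mul_of_nonneg_left ha (by positivity : 0 ≤ |K| + 1)
    have e : (|K| + 1) * (1 / (|K| + 1) * Real.sqrt (Real.log N)) = Real.sqrt (Real.log N) := by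
      field_simp
    rwa [e] at this
  have h8 : K * Real.log (Real.log N) ≤ Real.sqrt (Real.log N) := by
    refine le_trans (mul_le_mul_of_nonneg_right ?_ (by linarith)) h7
    have := le_abs_self K
    linarith
  calc K * Real.sqrt (Real.log N) * Real.log (Real.log N)
      = K * Real.log (Real.log N) * Real.sqrt (Real.log N) := by ring
    _ ≤ Real.sqrt (Real.log N) * Real.sqrt (Real.log N) := mul_le_mul_of_nonneg_right h8 hs.le
    _ = _ := h6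

/-- `log log N` is large. -/
lemma ll_big (K : ℝ) : ∃ N1 : ℕ, ∀ N : ℕ, N1 ≤ N → K ≤ Real.log (Real.log N) := by
  have h1 : Tendsto (fun N : ℕ => Real.log (Real.log (N : ℝ))) atTop atTop :=
    Real.tendsto_log_atTop.comp (Real.tendsto_log_atTop.comp tendsto_natCast_atTop_atTop)
  exact eventually_atTop.1 (h1.eventually_ge_atTop K)

/-- Multiples of `yy N` are less than `log N`. -/
lemma yy_le {N : ℕ} (hN : Real.exp 1 ≤ Real.log N) {K : ℝ} (h : K ≤ Real.log (Real.log N)) :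
    K * yy N ≤ Real.log N := by
  have hl0 : 0 < Real.log N := (Real.exp_pos 1).trans_le hN
  have hll := loglog_ge hN
  unfold yy
  rw [mul_div_assoc', div_le_iff₀ (by linarith), mul_comm]
  exact mul_le_mul_of_nonneg_left h hl0.le

lemma yy_pos {N : ℕ} (hN : Real.exp 1 ≤ Real.log N) : 0 < yy N := by
  have hl0 : 0 < Real.log N := (Real.exp_pos 1).trans_le hN
  have hll := loglog_ge hN
  unfold yy
  positivity

/-- The level is in the range. -/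
lemma Rg_Ql (c C : ℝ) (hc : 0 < c) (hC : 0 < C) :
    ∃ N1 : ℕ, ∀ N : ℕ, N1 ≤ N → Rg c (2 * N) (Ql C N) := by
  obtain ⟨N1, h1⟩ := large (1 / C)
  obtain ⟨N2, h2⟩ := yy_big (2 / C)
  obtain ⟨N3, h3⟩ := ll_big (C / c)
  refine ⟨max N1 (max N2 N3), fun N hN => ?_⟩
  obtain ⟨he, hy⟩ := h1 N ((le_max_left _ _).trans hN)
  have hy2 := h2 N (((le_max_left _ _).trans (le_max_right _ _)).trans hN)
  have hl3 := h3 N (((le_max_right _ _).trans (le_max_right _ _)).trans hN)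
  have hl0 : 0 < Real.log N := (Real.exp_pos 1).trans_le he
  have hN0 := pos_of_log he
  have hL1 : 1 ≤ Real.log N := by
    have := Real.add_one_le_exp (1 : ℝ)
    linarith
  have hCy : 1 ≤ C * yy N := by
    rw [div_le_iff₀ hC] at hy
    linarith
  have hs1 : 1 ≤ Real.sqrt (Real.log N) := by
    rw [Real.one_le_sqrt]
    exact hL1
  have h2N : Real.log ((2 * N : ℕ) : ℝ) ≤ 4 * Real.log N := by
    push_cast
    rw [Real.log_mul (by norm_num) hN0.ne']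
    have := Real.log_two_lt_d9
    linarith
  have h2N' : Real.log N ≤ Real.log ((2 * N : ℕ) : ℝ) := by
    apply Real.log_le_log hN0
    push_cast
    linarith
  constructor
  · refine le_trans (Real.exp_le_exp.2 ?_) (Ql_ge hCy)
    have h4 : Real.sqrt (Real.log ((2 * N : ℕ) : ℝ)) ≤ 2 * Real.sqrt (Real.log N) := by
      have e : 2 * Real.sqrt (Real.log N) = Real.sqrt (4 * Real.log N) := by
        rw [Real.sqrt_mul (by norm_num), show (4 : ℝ) = 2 ^ 2 by norm_num,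
          Real.sqrt_sq (by norm_num)]
      rw [e]
      exact Real.sqrt_le_sqrt h2N
    have h5 : 2 * Real.sqrt (Real.log N) ≤ C * yy N := by
      have := mul_le_mul_of_nonneg_left hy2 hC.le
      have e : C * (2 / C * Real.sqrt (Real.log N)) = 2 * Real.sqrt (Real.log N) := by
        field_simp
      rwa [e] at this
    linarith
  · refine (Ql_le C N).trans ?_
    have h2N0 : (0 : ℝ) < ((2 * N : ℕ) : ℝ) := by
      push_cast
      linarith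
    rw [Real.rpow_def_of_pos h2N0]
    refine Real.exp_le_exp.2 ?_
    have h4 := yy_le he hl3
    have h5 := mul_le_mul_of_nonneg_left h4 hc.le
    have e : c * (C / c * yy N) = C * yy N := by field_simp
    rw [e] at h5
    have h6 := mul_le_mul_of_nonneg_left h2N' hc.le
    linarith

/-- The error at a level. -/
lemma Er_Ql {a C : ℝ} {N : ℕ} (ha : 0 < a) (hC : 0 < C) (he : Real.exp 1 ≤ Real.log N)
    (h : 1 ≤ C * yy N) :
    Er a (2 * N) (Ql C N) ≤ Real.exp (-(a / C * Real.log (Real.log N))) := by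
  unfold Er
  refine Real.exp_le_exp.2 (neg_le_neg ?_)
  have hl0 : 0 < Real.log N := (Real.exp_pos 1).trans_le he
  have hll := loglog_ge he
  have hN0 := pos_of_log he
  have hy := yy_pos he
  have h1 := Ql_two h
  have h2 : 0 < Real.log (Ql C N) := Real.log_pos (by
    have : (2 : ℝ) ≤ (Ql C N : ℕ) := by exact_mod_cast h1
    linarith)
  have h3 := log_Ql_le h
  have h2N' : Real.log N ≤ Real.log ((2 * N : ℕ) : ℝ) := by
    apply Real.log_le_log hN0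
    push_cast
    linarith
  rw [le_div_iff₀ h2]
  have h4 : a / C * Real.log (Real.log N) * Real.log (Ql C N) ≤
      a / C * Real.log (Real.log N) * (C * yy N) :=
    mul_le_mul_of_nonneg_left h3 (by positivity)
  have e : a / C * Real.log (Real.log N) * (C * yy N) = a * Real.log N := by
    unfold yy
    field_simp
  rw [e] at h4
  exact h4.trans (mul_le_mul_of_nonneg_left h2N' ha.le)

lemma Ql_rpow {C t : ℝ} {N : ℕ} (h : 1 ≤ C * yy N) (ht : 0 ≤ t) :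
    (Ql C N : ℝ) ^ (-t) ≤ Real.exp (-(t * (C * yy N - 1))) := by
  have h1 : (0 : ℝ) < Ql C N := by
    have := Ql_two h
    have h2 : (2 : ℝ) ≤ Ql C N := by exact_mod_cast this
    linarith
  rw [Real.rpow_def_of_pos h1]
  refine Real.exp_le_exp.2 ?_
  have h2 := le_log_Ql h
  nlinarith

/-- `exp (D - s y)` is small. -/
lemma small1 {s u : ℝ} (D : ℝ) (hs : 0 < s) (hu : 0 < u) :
    ∃ K : ℝ, ∀ y : ℝ, K ≤ y → Real.exp (D - s * y) ≤ u := by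
  refine ⟨(D - Real.log u) / s, fun y hy => ?_⟩
  rw [div_le_iff₀ hs] at hy
  rw [← Real.le_log_iff_exp_le hu]
  linarith

/-- `y exp (D - s y)` is small. -/
lemma small2 {s u : ℝ} (D : ℝ) (hs : 0 < s) (hu : 0 < u) :
    ∃ K : ℝ, ∀ y : ℝ, K ≤ y → y * Real.exp (D - s * y) ≤ u := by
  obtain ⟨K, hK⟩ := small1 (s := s / 2) (u := u * (s / 2)) D (by positivity) (by positivity)
  refine ⟨K, fun y hy => ?_⟩
  have h1 := hK y hy
  have h2 : s / 2 * y ≤ Real.exp (s / 2 * y) := by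
    have := Real.add_one_le_exp (s / 2 * y)
    linarith
  have h3 : Real.exp (D - s * y) = Real.exp (D - s / 2 * y) * Real.exp (-(s / 2 * y)) := by
    rw [← Real.exp_add]
    congr 1
    ring
  have h4 : s / 2 * y * Real.exp (D - s * y) ≤ u * (s / 2) := by
    rw [h3]
    calc s / 2 * y * (Real.exp (D - s / 2 * y) * Real.exp (-(s / 2 * y)))
        = (s / 2 * y * Real.exp (-(s / 2 * y))) * Real.exp (D - s / 2 * y) := by ring
      _ ≤ 1 * Real.exp (D - s / 2 * y) := by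
          refine mul_le_mul_of_nonneg_right ?_ (Real.exp_pos _).le
          rw [Real.exp_neg, ← div_eq_mul_inv, div_le_one (Real.exp_pos _)]
          exact h2
      _ ≤ u * (s / 2) := by rw [one_mul]; exact h1
  have h5 : (y * Real.exp (D - s * y)) * (s / 2) ≤ u * (s / 2) := by
    calc _ = s / 2 * y * Real.exp (D - s * y) := by ring
      _ ≤ _ := h4
  exact le_of_mul_le_mul_right h5 (by positivity)

/-- `4 ^ w` in terms of `y`. -/
lemma four_pow {w : ℕ} {y cw : ℝ} (hw : (w : ℝ) ≤ cw * y) :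
    (4 : ℝ) ^ w ≤ Real.exp (7 / 5 * (cw * y)) := by
  have h4 : Real.log 4 ≤ 7 / 5 := by
    have e : Real.log 4 = 2 * Real.log 2 := by
      rw [show (4 : ℝ) = 2 ^ 2 by norm_num, Real.log_pow]
      norm_num
    have := Real.log_two_lt_d9
    rw [e]
    linarith
  have h40 : 0 ≤ Real.log 4 := Real.log_nonneg (by norm_num)
  have e : (4 : ℝ) ^ w = Real.exp (w * Real.log 4) := by
    rw [Real.exp_nat_mul, Real.exp_log (by norm_num)]
  rw [e]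
  refine Real.exp_le_exp.2 ?_
  have hw0 : (0 : ℝ) ≤ w := Nat.cast_nonneg w
  calc (w : ℝ) * Real.log 4 ≤ w * (7 / 5) := mul_le_mul_of_nonneg_left h4 hw0
    _ ≤ cw * y * (7 / 5) := mul_le_mul_of_nonneg_right hw (by norm_num)
    _ = _ := by ring

lemma four_pow_mul {w k : ℕ} {y cw : ℝ} (hw : (w : ℝ) ≤ cw * y) :
    (4 : ℝ) ^ (k * w) ≤ Real.exp (7 / 5 * (k * (cw * y))) := by
  have h : ((k * w : ℕ) : ℝ) ≤ k * cw * y := by
    push_cast
    rw [mul_assoc]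
    exact mul_le_mul_of_nonneg_left hw (Nat.cast_nonneg k)
  have := four_pow h
  rwa [mul_assoc] at this

/-- The square root of the number of the bad pairs. -/
lemma sqrt_card {m N Q : ℕ} (h : (m : ℝ) ≤ (N : ℝ) ^ 2 * (Q : ℝ) ^ (-(1 / 4 : ℝ))) :
    Real.sqrt m ≤ N * (Q : ℝ) ^ (-(1 / 8 : ℝ)) := by
  have hQ : (0 : ℝ) ≤ (Q : ℝ) := Nat.cast_nonneg Q
  have h1 : (N : ℝ) * (Q : ℝ) ^ (-(1 / 8 : ℝ)) = Real.sqrt (((N : ℝ) * (Q : ℝ) ^ (-(1 / 8 : ℝ))) ^ 2) := by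
    rw [Real.sqrt_sq (by positivity)]
  rw [h1]
  refine Real.sqrt_le_sqrt (h.trans (le_of_eq ?_))
  rw [mul_pow, ← Real.rpow_natCast ((Q : ℝ) ^ (-(1 / 8 : ℝ))) 2, ← Real.rpow_mul hQ]
  norm_num

/-- The levels with a free constant `A`. -/
theorem levels_gen (hP : PairUpS) (hF : FirstLowS) :
    ∃ C1 cA cw d B' : ℝ, 0 < C1 ∧ 0 < cA ∧ 0 < cw ∧ 0 < d ∧ 1 ≤ B' ∧
    ∀ A : ℝ, 1 ≤ A → ∃ C2 cB : ℝ, C1 ≤ C2 ∧ 0 < cB ∧
    (∀ N0 : ℕ, ∃ N : ℕ, N0 ≤ N ∧ GoodX cA C1 cB C2 N) ∧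
    ∀ u : ℝ, 0 < u → ∃ N0 : ℕ, ∀ N : ℕ, N0 ≤ N → GoodX cA C1 cB C2 N →
    ∀ w : ℕ, w = ⌊cw * yy N⌋₊ →
    ∃ (e1 e2 : ℝ) (Bd0 : Finset ℕ) (Bd1 Bd2 Bd3 : Finset (ℕ × ℕ)), 0 ≤ e1 ∧ 0 ≤ e2 ∧
    4 ^ (100 * w) ≤ N ∧ Real.log N ≤ (w : ℝ) ^ 2 ∧ yy N ≤ 2 / cw * w ∧
    (Bd3.card : ℝ) ≤ (N : ℝ) ^ (2 - d) ∧
    (∀ r : ℕ, (r : ℝ) ≤ yy N → r * e1 ≤ u ∧ (Bd0.card : ℝ) * 4 ^ w ≤ u * N ∧
      (1 + e2) ^ r * Real.sqrt Bd1.card * 4 ^ w ≤ u * N ∧
      B' ^ r * Real.sqrt Bd2.card * 4 ^ w ≤ u * N ∧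
      A ^ r * Real.sqrt Bd2.card * 4 ^ w ≤ u * N) ∧
    (∀ c, ∀ n ∈ Ioc N (2 * N), n ∉ Bd0 → Nat.Coprime (n + c) (PP w) →
      (N : ℝ) / PP w * (DZ w)⁻¹ * (1 - e1) ≤ AA lp N w c n) ∧
    (∀ c, ∀ n ∈ Ioc N (2 * N), ∀ n' ∈ Ioc N (2 * N), n ≠ n' → (n, n') ∉ Bd1 →
      Nat.Coprime (n + c) (PP w) → Nat.Coprime (n' + c) (PP w) →
      CC lp N w c n n' ≤ (N : ℝ) / PP w * (DZ w)⁻¹ ^ 2 * ss w (Nat.dist n n') * (1 + e1)) ∧
    (∀ c, ∀ n ∈ Ioc N (2 * N), ∀ n' ∈ Ioc N (2 * N), n ≠ n' → (n, n') ∉ Bd2 →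
      Nat.Coprime (n + c) (PP w) → Nat.Coprime (n' + c) (PP w) →
      CC lp N w c n n' ≤ (N : ℝ) / PP w * (DZ w)⁻¹ ^ 2 * ss w (Nat.dist n n') * (1 + e2)) ∧
    (∀ c, ∀ n ∈ Ioc N (2 * N), ∀ n' ∈ Ioc N (2 * N), n ≠ n' → (n, n') ∉ Bd3 →
      Nat.Coprime (n + c) (PP w) → Nat.Coprime (n' + c) (PP w) →
      CC lp N w c n n' ≤ (N : ℝ) / PP w * (DZ w)⁻¹ ^ 2 * ss w (Nat.dist n n') * B') := by
  classical
  obtain ⟨c1, hc1, hZ⟩ := zero_free
  obtain ⟨c0', c4, h0, h4, hD⟩ := heilbronn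
  have hZ' : ZFree c1 := hZ
  obtain ⟨aA, KA, sA, haA, hKA, hsA, XA, hlA⟩ := lev hP hF c1 (c1 / 2) hZ' (by positivity)
    (by linarith)
  obtain ⟨B', hB'⟩ : ∃ B' : ℝ, B' = 1 + KA := ⟨_, rfl⟩
  have hB1 : 1 ≤ B' := by linarith
  obtain ⟨C1, hC1⟩ : ∃ C1 : ℝ, C1 = 4 * aA / 5 := ⟨_, rfl⟩
  have hC1p : 0 < C1 := by rw [hC1]; positivity
  obtain ⟨cw, hcw⟩ : ∃ cw : ℝ, cw = C1 / 200 := ⟨_, rfl⟩
  have hcwp : 0 < cw := by rw [hcw]; positivity
  obtain ⟨s3, hs3⟩ : ∃ s3 : ℝ, s3 = min sA 1 := ⟨_, rfl⟩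
  have hs3p : 0 < s3 := by rw [hs3]; exact lt_min hsA one_pos
  have hs3A : s3 ≤ sA := by rw [hs3]; exact min_le_left _ _
  refine ⟨C1, c1 / 2, cw, s3 / 8, B', hC1p, by positivity, hcwp, by positivity, hB1, ?_⟩
  intro A hA
  obtain ⟨AB, hAB⟩ : ∃ AB : ℝ, AB = max A B' := ⟨_, rfl⟩
  have hAB1 : 1 ≤ AB := by rw [hAB]; exact hA.trans (le_max_left _ _)
  have hABA : A ≤ AB := by rw [hAB]; exact le_max_left _ _
  have hABB : B' ≤ AB := by rw [hAB]; exact le_max_right _ _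
  have hlB : 0 ≤ Real.log AB := Real.log_nonneg hAB1
  obtain ⟨C2, hC2⟩ : ∃ C2 : ℝ, C2 = C1 + 32 * (1 + Real.log AB) := ⟨_, rfl⟩
  have hC12 : C1 ≤ C2 := by rw [hC2]; linarith
  have hC2p : 0 < C2 := hC1p.trans_le hC12
  obtain ⟨cB, hcB, hcBA, hgood⟩ := goodX c1 c0' c4 (c1 / 2) C1 C2 hZ' h0 h4 hD (by positivity)
    (by linarith) hC1p hC12
  obtain ⟨aB, KB, sB, haB, hKB, hsB, XB, hlB2⟩ := lev hP hF c1 cB hZ' hcB (by linarith)
  refine ⟨C2, cB, hC12, hcB, hgood, ?_⟩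
  intro u hu
  -- the sizes
  obtain ⟨R1, hR1⟩ := Rg_Ql sA C1 hsA hC1p
  obtain ⟨R2, hR2⟩ := Rg_Ql sB C2 hsB hC2p
  obtain ⟨S1, hS1⟩ := small1 (s := 1 / 4) (u := u / 2 / KA) 0 (by norm_num) (by positivity)
  obtain ⟨S2, hS2⟩ := small2 (s := C1 / 20) (u := u / 2) (1 / 20) (by positivity) (by positivity)
  obtain ⟨S3, hS3⟩ := small1 (s := C1 / 5) (u := u) (1 / 4) (by positivity) hu
  obtain ⟨S4, hS4⟩ := small1 (s := C1 / 10) (u := u) (1 / 8) (by positivity) hu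
  obtain ⟨S5, hS5⟩ := small1 (s := 4) (u := u) (1 / 8) (by norm_num) hu
  obtain ⟨S6, hS6⟩ := small1 (s := aB / C2) (u := C1 / 400 / KB) 0 (by positivity)
    (by positivity)
  obtain ⟨S7, hS7⟩ := small1 (s := C2 / 20) (u := C1 / 400) (1 / 20) (by positivity)
    (by positivity)
  obtain ⟨M1, hM1⟩ := large (max (5 / C1) (max (2 / cw) (max S2 (max S3 (max S4 (max S5 S7))))))
  obtain ⟨M2, hM2⟩ := ll_big (max S1 (max S6 (max (2 * C1 / s3) (140 * cw))))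
  obtain ⟨M3, hM3⟩ := yy_big (2 / cw)
  obtain ⟨M4, hM4⟩ := large (2 / s3)
  refine ⟨max XA (max XB (max R1 (max R2 (max M1 (max M2 (max M3 M4)))))), ?_⟩
  intro N hN hG w hw
  simp only [max_le_iff] at hN
  obtain ⟨hNA, hNB, hNR1, hNR2, hNM1, hNM2, hNM3, hNM4⟩ := hN
  obtain ⟨he, hy⟩ := hM1 N hNM1
  have hll := hM2 N hNM2
  have hyb := hM3 N hNM3
  obtain ⟨-, hy4⟩ := hM4 N hNM4
  simp only [max_le_iff] at hy hll
  obtain ⟨hy1, hy2, hyS2, hyS3, hyS4, hyS5, hyS7⟩ := hy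
  obtain ⟨hlS1, hlS6, hlC, hlw⟩ := hll
  have hl0 : 0 < Real.log N := (Real.exp_pos 1).trans_le he
  have hN0 := pos_of_log he
  have hyp := yy_pos he
  have hl1 := loglog_ge he
  obtain ⟨y, hyy⟩ : ∃ y, y = yy N := ⟨_, rfl⟩
  obtain ⟨l, hll⟩ : ∃ l, l = Real.log (Real.log N) := ⟨_, rfl⟩
  rw [← hyy] at hy1 hy2 hyS2 hyS3 hyS4 hyS5 hyS7 hyb hy4 hyp hw ⊢
  rw [← hll] at hlS1 hlS6 hlC hlw hl1
  have hC1y : 5 ≤ C1 * y := by
    rw [div_le_iff₀ hC1p] at hy1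
    linarith
  have hC1y1 : 1 ≤ C1 * yy N := by rw [← hyy]; linarith
  have hC2y1 : 1 ≤ C2 * yy N := by
    rw [← hyy]
    have := mul_le_mul_of_nonneg_right hC12 hyp.le
    linarith
  -- `w`
  have hw1 : (w : ℝ) ≤ cw * y := by
    rw [hw]
    exact Nat.floor_le (by positivity)
  have hw2 : cw * y / 2 ≤ w := by
    have h1 : cw * y < (w : ℝ) + 1 := by
      rw [hw]
      exact Nat.lt_floor_add_one _
    rw [div_le_iff₀ hcwp] at hy2
    linarith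
  have hlN : Real.exp (Real.log N) = N := Real.exp_log hN0
  -- levels
  obtain ⟨Q1, hQ1⟩ : ∃ Q1, Q1 = Ql C1 N := ⟨_, rfl⟩
  obtain ⟨Q2, hQ2⟩ : ∃ Q2, Q2 = Ql C2 N := ⟨_, rfl⟩
  obtain ⟨Q3, hQ3⟩ : ∃ Q3 : ℕ, Q3 = ⌊((2 * N : ℕ) : ℝ) ^ s3⌋₊ := ⟨_, rfl⟩
  have hw40 : 4 ^ (40 * w) ≤ Q1 := by
    have h1 : (4 : ℝ) ^ (40 * w) ≤ Real.exp (7 / 5 * ((40 : ℕ) * (cw * y))) := four_pow_mul hw1
    have h2 : (4 : ℝ) ^ (40 * w) ≤ Q1 := by
      rw [hQ1]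
      refine h1.trans (le_trans (Real.exp_le_exp.2 ?_) (Ql_ge hC1y1))
      rw [← hyy, hcw]
      push_cast
      linarith
    exact_mod_cast h2
  have hQ12 : Q1 ≤ Q2 := by
    rw [hQ1, hQ2]
    apply Ql_mono
    rw [← hyy]
    exact mul_le_mul_of_nonneg_right hC12 hyp.le
  have h2N0 : (0 : ℝ) < ((2 * N : ℕ) : ℝ) := by
    push_cast
    linarith
  -- `Q3`
  have hN1r : (1 : ℝ) ≤ N := by
    have : 0 < N := by exact_mod_cast hN0
    exact_mod_cast this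
  have hNs : (2 : ℝ) ≤ (N : ℝ) ^ (s3 / 2) := by
    rw [Real.rpow_def_of_pos hN0]
    have h1 : Real.exp 1 ≤ Real.exp (Real.log N * (s3 / 2)) := by
      refine Real.exp_le_exp.2 ?_
      have h2 : 2 / s3 ≤ Real.log N := by
        refine hy4.trans ?_
        have := yy_le (K := 1) he (by rw [← hll]; exact hl1)
        rw [hyy]
        linarith
      rw [div_le_iff₀ hs3p] at h2
      linarith
    have := Real.exp_one_gt_d9
    linarith
  have hQ3N : (N : ℝ) ^ (s3 / 2) ≤ Q3 := by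
    have h1 : ((2 * N : ℕ) : ℝ) ^ s3 < (Q3 : ℝ) + 1 := by
      rw [hQ3]
      exact Nat.lt_floor_add_one _
    have h2 : (N : ℝ) ^ s3 ≤ ((2 * N : ℕ) : ℝ) ^ s3 := by
      apply Real.rpow_le_rpow hN0.le _ hs3p.le
      push_cast
      linarith
    have h3 : (N : ℝ) ^ s3 = (N : ℝ) ^ (s3 / 2) * (N : ℝ) ^ (s3 / 2) := by
      rw [← Real.rpow_add hN0]
      congr 1
      ring
    nlinarith
  have hQ13 : (Q1 : ℝ) ≤ Q3 := by
    refine le_trans ?_ hQ3N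
    rw [hQ1]
    refine (Ql_le C1 N).trans ?_
    rw [Real.rpow_def_of_pos hN0]
    refine Real.exp_le_exp.2 ?_
    have h1 := yy_le he (K := 2 * C1 / s3) (by rw [← hll]; exact hlC)
    rw [div_mul_eq_mul_div, div_le_iff₀ hs3p] at h1
    linarith
  have hQ13' : Q1 ≤ Q3 := by exact_mod_cast hQ13
  have hRg1 : Rg sA (2 * N) Q1 := by rw [hQ1]; exact hR1 N hNR1
  have hRg2 : Rg sB (2 * N) Q2 := by rw [hQ2]; exact hR2 N hNR2
  have hRg3 : Rg sA (2 * N) Q3 := by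
    refine ⟨hRg1.1.trans hQ13, ?_⟩
    refine le_trans (b := ((2 * N : ℕ) : ℝ) ^ s3) ?_ ?_
    · rw [hQ3]
      exact Nat.floor_le (by positivity)
    · apply Real.rpow_le_rpow_of_exponent_le _ hs3A
      push_cast
      linarith
  obtain ⟨-, hl1'⟩ := hlA N Q1 w hNA hRg1 hw40
  obtain ⟨⟨Bd1, hBd1, hc1'⟩, ⟨Bd0, hBd0, ha0⟩⟩ := hl1' (by rw [hQ1]; exact hG.1)
  obtain ⟨-, hl2'⟩ := hlB2 N Q2 w hNB hRg2 (hw40.trans hQ12)
  obtain ⟨⟨Bd2, hBd2, hc2'⟩, -⟩ := hl2' (by rw [hQ2]; exact hG.2)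
  obtain ⟨⟨Bd3, hBd3, hc3'⟩, -⟩ := hlA N Q3 w hNA hRg3 (hw40.trans hQ13')
  obtain ⟨e1, he1⟩ : ∃ e1 : ℝ, e1 = KA * Er aA (2 * N) Q1 + (Q1 : ℝ) ^ (-(1 / 20 : ℝ)) :=
    ⟨_, rfl⟩
  obtain ⟨e2, he2⟩ : ∃ e2 : ℝ, e2 = KB * Er aB (2 * N) Q2 + (Q2 : ℝ) ^ (-(1 / 20 : ℝ)) :=
    ⟨_, rfl⟩
  have he10 : 0 ≤ e1 := by
    rw [he1]
    have : 0 < Er aA (2 * N) Q1 := Real.exp_pos _
    positivity
  have he20 : 0 ≤ e2 := by
    rw [he2]
    have : 0 < Er aB (2 * N) Q2 := Real.exp_pos _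
    positivity
  -- the size of `e1`
  have hye1 : y * e1 ≤ u := by
    have h1 : Er aA (2 * N) Q1 ≤ Real.exp (-(5 / 4 * l)) := by
      rw [hQ1]
      refine (Er_Ql haA hC1p he hC1y1).trans (le_of_eq ?_)
      rw [← hll]
      congr 3
      rw [hC1]
      field_simp
    have h2 : y ≤ Real.exp l := by
      have := yy_le (K := 1) he (by rw [← hll]; exact hl1)
      rw [hll, Real.exp_log hl0, hyy]
      linarith
    have h3 : y * Real.exp (-(5 / 4 * l)) ≤ u / 2 / KA := by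
      refine le_trans ?_ (hS1 l hlS1)
      calc y * Real.exp (-(5 / 4 * l)) ≤ Real.exp l * Real.exp (-(5 / 4 * l)) :=
            mul_le_mul_of_nonneg_right h2 (Real.exp_pos _).le
        _ = Real.exp (0 - 1 / 4 * l) := by
            rw [← Real.exp_add]
            congr 1
            ring
    have h4 : y * (KA * Er aA (2 * N) Q1) ≤ u / 2 := by
      calc y * (KA * Er aA (2 * N) Q1) ≤ y * (KA * Real.exp (-(5 / 4 * l))) :=
            mul_le_mul_of_nonneg_left (mul_le_mul_of_nonneg_left h1 hKA.le) hyp.le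
        _ = KA * (y * Real.exp (-(5 / 4 * l))) := by ring
        _ ≤ KA * (u / 2 / KA) := mul_le_mul_of_nonneg_left h3 hKA.le
        _ = u / 2 := by field_simp
    have h5 : y * (Q1 : ℝ) ^ (-(1 / 20 : ℝ)) ≤ u / 2 := by
      refine le_trans ?_ (hS2 y hyS2)
      refine mul_le_mul_of_nonneg_left ?_ hyp.le
      rw [hQ1]
      refine (Ql_rpow hC1y1 (by norm_num)).trans (Real.exp_le_exp.2 (le_of_eq ?_))
      rw [← hyy]
      ring
    rw [he1, mul_add]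
    linarith
  -- the size of `e2`
  have he2s : e2 ≤ C1 / 200 := by
    have h1 : Er aB (2 * N) Q2 ≤ C1 / 400 / KB := by
      rw [hQ2]
      refine (Er_Ql haB hC2p he hC2y1).trans (le_trans (le_of_eq ?_) (hS6 l hlS6))
      rw [← hll]
      congr 1
      ring
    have h2 : KB * Er aB (2 * N) Q2 ≤ C1 / 400 := by
      have := mul_le_mul_of_nonneg_left h1 hKB.le
      have e : KB * (C1 / 400 / KB) = C1 / 400 := by field_simp
      rwa [e] at this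
    have h3 : (Q2 : ℝ) ^ (-(1 / 20 : ℝ)) ≤ C1 / 400 := by
      refine le_trans ?_ (hS7 y hyS7)
      rw [hQ2]
      refine (Ql_rpow hC2y1 (by norm_num)).trans (Real.exp_le_exp.2 (le_of_eq ?_))
      rw [← hyy]
      ring
    rw [he2]
    linarith
  have h4w : (4 : ℝ) ^ w ≤ Real.exp (7 / 5 * (cw * y)) := four_pow hw1
  refine ⟨e1, e2, Bd0, Bd1, Bd2, Bd3, he10, he20, ?_, ?_, ?_, ?_, ?_, ?_, ?_, ?_, ?_⟩
  · -- `4 ^ (100 w) ≤ N`
    have h1 : (4 : ℝ) ^ (100 * w) ≤ Real.exp (7 / 5 * ((100 : ℕ) * (cw * y))) :=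
      four_pow_mul hw1
    have h2 : (4 : ℝ) ^ (100 * w) ≤ N := by
      rw [← hlN]
      refine h1.trans (Real.exp_le_exp.2 ?_)
      have h3 := yy_le he (K := 140 * cw) (by rw [← hll]; exact hlw)
      rw [← hyy] at h3
      push_cast
      linarith
    exact_mod_cast h2
  · -- `log N ≤ w ^ 2`
    have h1 : Real.sqrt (Real.log N) ≤ w := by
      refine le_trans ?_ hw2
      have := mul_le_mul_of_nonneg_left hyb hcwp.le
      have e : cw * (2 / cw * Real.sqrt (Real.log N)) = 2 * Real.sqrt (Real.log N) := by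
        field_simp
      rw [e] at this
      linarith
    have h2 := pow_le_pow_left₀ (Real.sqrt_nonneg _) h1 2
    rwa [Real.sq_sqrt hl0.le] at h2
  · have := mul_le_mul_of_nonneg_left hw2 (by positivity : 0 ≤ 2 / cw)
    have e : 2 / cw * (cw * y / 2) = y := by field_simp
    rwa [e] at this
  · -- the third bad set
    refine hBd3.trans ?_
    have h1 : (Q3 : ℝ) ^ (-(1 / 4 : ℝ)) ≤ ((N : ℝ) ^ (s3 / 2)) ^ (-(1 / 4 : ℝ)) :=
      Real.rpow_le_rpow_of_nonpos (by positivity) hQ3N (by norm_num)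
    have h2 : (N : ℝ) ^ 2 * ((N : ℝ) ^ (s3 / 2)) ^ (-(1 / 4 : ℝ)) = (N : ℝ) ^ (2 - s3 / 8) := by
      rw [← Real.rpow_mul hN0.le, ← Real.rpow_natCast, ← Real.rpow_add hN0]
      congr 1
      push_cast
      ring
    rw [← h2]
    exact mul_le_mul_of_nonneg_left h1 (by positivity)
  · intro r hr
    have hr0 : (0 : ℝ) ≤ r := Nat.cast_nonneg r
    have hQ18 : (Q1 : ℝ) ^ (-(1 / 8 : ℝ)) ≤ Real.exp (-(1 / 8 * (C1 * y - 1))) := by
      rw [hQ1, hyy]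
      exact Ql_rpow hC1y1 (by norm_num)
    have hQ28 : (Q2 : ℝ) ^ (-(1 / 8 : ℝ)) ≤ Real.exp (-(1 / 8 * (C2 * y - 1))) := by
      rw [hQ2, hyy]
      exact Ql_rpow hC2y1 (by norm_num)
    have key : AB ^ r * Real.sqrt Bd2.card * 4 ^ w ≤ u * N := by
      have h1 : AB ^ r ≤ Real.exp (y * Real.log AB) := by
        calc AB ^ r = Real.exp (r * Real.log AB) := by
              rw [Real.exp_nat_mul, Real.exp_log (by linarith)]
          _ ≤ _ := Real.exp_le_exp.2 (mul_le_mul_of_nonneg_right hr hlB)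
      have h2 : Real.sqrt Bd2.card ≤ N * Real.exp (-(1 / 8 * (C2 * y - 1))) :=
        (sqrt_card hBd2).trans (mul_le_mul_of_nonneg_left hQ28 hN0.le)
      calc AB ^ r * Real.sqrt Bd2.card * 4 ^ w
          ≤ Real.exp (y * Real.log AB) * (N * Real.exp (-(1 / 8 * (C2 * y - 1)))) *
            Real.exp (7 / 5 * (cw * y)) := by
            refine mul_le_mul (mul_le_mul h1 h2 (Real.sqrt_nonneg _) (by positivity)) h4w
              (by positivity) (by positivity)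
        _ = N * Real.exp (y * Real.log AB + -(1 / 8 * (C2 * y - 1)) + 7 / 5 * (cw * y)) := by
            rw [Real.exp_add, Real.exp_add]
            ring
        _ ≤ N * Real.exp (1 / 8 - 4 * y) := by
            refine mul_le_mul_of_nonneg_left (Real.exp_le_exp.2 ?_) hN0.le
            have h5 : 0 ≤ y * Real.log AB := by positivity
            have h6 : 0 ≤ C1 * y := by positivity
            rw [hC2, hcw]
            nlinarith
        _ ≤ N * u := mul_le_mul_of_nonneg_left (hS5 y hyS5) hN0.le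
        _ = u * N := by ring
    have hmono : ∀ D : ℝ, 0 ≤ D → D ≤ AB → D ^ r * Real.sqrt Bd2.card * 4 ^ w ≤ u * N := by
      intro D hD0 hD1
      refine le_trans ?_ key
      have := pow_le_pow_left₀ hD0 hD1 r
      gcongr
    refine ⟨?_, ?_, ?_, hmono B' (by linarith) hABB, hmono A (by linarith) hABA⟩
    · exact (mul_le_mul_of_nonneg_right hr he10).trans hye1
    · have h1 : (Q1 : ℝ) ^ (-(1 / 4 : ℝ)) ≤ Real.exp (-(1 / 4 * (C1 * y - 1))) := by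
        rw [hQ1, hyy]
        exact Ql_rpow hC1y1 (by norm_num)
      calc (Bd0.card : ℝ) * 4 ^ w
          ≤ ((N : ℝ) * Real.exp (-(1 / 4 * (C1 * y - 1)))) * Real.exp (7 / 5 * (cw * y)) := by
            refine mul_le_mul (hBd0.trans (mul_le_mul_of_nonneg_left h1 hN0.le)) h4w
              (by positivity) (by positivity)
        _ = N * Real.exp (-(1 / 4 * (C1 * y - 1)) + 7 / 5 * (cw * y)) := by
            rw [Real.exp_add]
            ring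
        _ ≤ N * Real.exp (1 / 4 - C1 / 5 * y) := by
            refine mul_le_mul_of_nonneg_left (Real.exp_le_exp.2 ?_) hN0.le
            rw [hcw]
            nlinarith
        _ ≤ N * u := mul_le_mul_of_nonneg_left (hS3 y hyS3) hN0.le
        _ = u * N := by ring
    · have h1 : (1 + e2) ^ r ≤ Real.exp (C1 / 200 * y) := by
        calc (1 + e2) ^ r ≤ (Real.exp e2) ^ r :=
              pow_le_pow_left₀ (by linarith) (by
                have := Real.add_one_le_exp e2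
                linarith) r
          _ = Real.exp (r * e2) := by rw [Real.exp_nat_mul]
          _ ≤ _ := by
              refine Real.exp_le_exp.2 ?_
              calc (r : ℝ) * e2 ≤ y * e2 := mul_le_mul_of_nonneg_right hr he20
                _ ≤ y * (C1 / 200) := mul_le_mul_of_nonneg_left he2s hyp.le
                _ = _ := by ring
      have h2 : Real.sqrt Bd1.card ≤ N * Real.exp (-(1 / 8 * (C1 * y - 1))) :=
        (sqrt_card hBd1).trans (mul_le_mul_of_nonneg_left hQ18 hN0.le)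
      calc (1 + e2) ^ r * Real.sqrt Bd1.card * 4 ^ w
          ≤ Real.exp (C1 / 200 * y) * (N * Real.exp (-(1 / 8 * (C1 * y - 1)))) *
            Real.exp (7 / 5 * (cw * y)) := by
            refine mul_le_mul (mul_le_mul h1 h2 (Real.sqrt_nonneg _) (by positivity)) h4w
              (by positivity) (by positivity)
        _ = N * Real.exp (C1 / 200 * y + -(1 / 8 * (C1 * y - 1)) + 7 / 5 * (cw * y)) := by
            rw [Real.exp_add, Real.exp_add]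
            ring
        _ ≤ N * Real.exp (1 / 8 - C1 / 10 * y) := by
            refine mul_le_mul_of_nonneg_left (Real.exp_le_exp.2 ?_) hN0.le
            rw [hcw]
            nlinarith
        _ ≤ N * u := mul_le_mul_of_nonneg_left (hS4 y hyS4) hN0.le
        _ = u * N := by ring
  · rw [he1]
    exact ha0
  · rw [he1]
    exact hc1'
  · rw [he2]
    exact hc2'
  · rw [hB']
    exact hc3'

/-- The statement of `levels`. -/
theorem levels_of (hP : PairUpS) (hF : FirstLowS) :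
    ∃ C1 C2 cA cB cw d B' : ℝ, 0 < C1 ∧ 0 < C2 ∧ 0 < cA ∧ 0 < cB ∧ 0 < cw ∧ 0 < d ∧
    1 ≤ B' ∧ (∀ N0 : ℕ, ∃ N : ℕ, N0 ≤ N ∧ GoodX cA C1 cB C2 N) ∧
    ∀ u : ℝ, 0 < u → ∃ N0 : ℕ, ∀ N : ℕ, N0 ≤ N → GoodX cA C1 cB C2 N →
    ∀ w : ℕ, w = ⌊cw * yy N⌋₊ →
    ∃ (e1 e2 : ℝ) (Bd0 : Finset ℕ) (Bd1 Bd2 Bd3 : Finset (ℕ × ℕ)), 0 ≤ e1 ∧ 0 ≤ e2 ∧
    4 ^ (100 * w) ≤ N ∧ Real.log N ≤ (w : ℝ) ^ 2 ∧ yy N ≤ 2 / cw * w ∧
    (Bd3.card : ℝ) ≤ (N : ℝ) ^ (2 - d) ∧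
    (∀ r : ℕ, (r : ℝ) ≤ yy N → r * e1 ≤ u ∧ (Bd0.card : ℝ) * 4 ^ w ≤ u * N ∧
      (1 + e2) ^ r * Real.sqrt Bd1.card * 4 ^ w ≤ u * N ∧
      B' ^ r * Real.sqrt Bd2.card * 4 ^ w ≤ u * N) ∧
    (∀ c, ∀ n ∈ Ioc N (2 * N), n ∉ Bd0 → Nat.Coprime (n + c) (PP w) →
      (N : ℝ) / PP w * (DZ w)⁻¹ * (1 - e1) ≤ AA lp N w c n) ∧
    (∀ c, ∀ n ∈ Ioc N (2 * N), ∀ n' ∈ Ioc N (2 * N), n ≠ n' → (n, n') ∉ Bd1 →
      Nat.Coprime (n + c) (PP w) → Nat.Coprime (n' + c) (PP w) →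
      CC lp N w c n n' ≤ (N : ℝ) / PP w * (DZ w)⁻¹ ^ 2 * ss w (Nat.dist n n') * (1 + e1)) ∧
    (∀ c, ∀ n ∈ Ioc N (2 * N), ∀ n' ∈ Ioc N (2 * N), n ≠ n' → (n, n') ∉ Bd2 →
      Nat.Coprime (n + c) (PP w) → Nat.Coprime (n' + c) (PP w) →
      CC lp N w c n n' ≤ (N : ℝ) / PP w * (DZ w)⁻¹ ^ 2 * ss w (Nat.dist n n') * (1 + e2)) ∧
    (∀ c, ∀ n ∈ Ioc N (2 * N), ∀ n' ∈ Ioc N (2 * N), n ≠ n' → (n, n') ∉ Bd3 →
      Nat.Coprime (n + c) (PP w) → Nat.Coprime (n' + c) (PP w) →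
      CC lp N w c n n' ≤ (N : ℝ) / PP w * (DZ w)⁻¹ ^ 2 * ss w (Nat.dist n n') * B') := by
  obtain ⟨C1, cA, cw, d, B', h1, h2, h3, h4, h5, H⟩ := levels_gen hP hF
  obtain ⟨C2, cB, h6, h7, h8, h9⟩ := H 1 le_rfl
  refine ⟨C1, C2, cA, cB, cw, d, B', h1, h1.trans_le h6, h2, h7, h3, h4, h5, h8, ?_⟩
  intro u hu
  obtain ⟨N0, hN0⟩ := h9 u hu
  refine ⟨N0, fun N hN hG w hw => ?_⟩
  obtain ⟨e1, e2, Bd0, Bd1, Bd2, Bd3, g1, g2, g3, g4, g5, g6, g7, g8⟩ := hN0 N hN hG w hw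
  exact ⟨e1, e2, Bd0, Bd1, Bd2, Bd3, g1, g2, g3, g4, g5, g6,
    fun r hr => ⟨(g7 r hr).1, (g7 r hr).2.1, (g7 r hr).2.2.1, (g7 r hr).2.2.2.1⟩, g8⟩

end LevelsAux

end Pool.Agent.Lib.LEN
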