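import Pool.Agent.Lib.LEN.FirstL

/-!
# LEN.PairL: pair correlations in classes, primes against the model

`one_slot` twice with the weight `psi`, `projW`, `diffL` (B0 = 16), `l2W`, `l2L`, Markov, union over the
`PP w ≤ 4 ^ w ≤ Q ^ (1/40)` classes.
-/

set_option autoImplicit false

open Finset Filter

namespace Pool.Agent.Lib.LEN

open Pool.Agent.HLB Pool.Agent.HLT Pool.Agent.HLR Pool.Agent.Lib.GMV

namespace SlotAux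

/-- One slot with the weight `psi` and a second function `u`, summed over both shifts. -/
lemma two_slot {N Q w : ℕ} (hN : 1 ≤ N) (hQ : (0 : ℝ) < Q) (c' : ℕ) (f u : ℕ → ℂ) (L : ℝ)
    (hA : ∀ t, ‖ft (4 * (2 * N)) f t‖ ≤ 4 * (2 * N) * (Q : ℝ) ^ (-(2 / 5 : ℝ)))
    (hu : ∑ m ∈ range (4 * (2 * N)), ‖u m‖ ^ 2 ≤ 2 * N * L) :
    ∑ n' ∈ Icc 1 (2 * N), ∑ n ∈ Icc 1 (2 * N),
      ‖∑ h ∈ Icc 1 N, (psi w c' h : ℂ) * u (h + n') * f (h + n)‖ ^ 2 ≤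
      256 * L * ((N : ℝ) ^ 4 * (Q : ℝ) ^ (-(4 / 5 : ℝ))) := by
  have h1 : ∀ n' ∈ Icc 1 (2 * N), ∑ n ∈ Icc 1 (2 * N),
      ‖∑ h ∈ Icc 1 N, (psi w c' h : ℂ) * u (h + n') * f (h + n)‖ ^ 2 ≤
      64 * ((N : ℝ) ^ 2 * (Q : ℝ) ^ (-(4 / 5 : ℝ))) * (2 * N * L) := by
    intro n' hn'
    rw [Finset.mem_Icc] at hn'
    have h2 := one_slot (X := 2 * N) (y := N) (by omega) (by omega) f
      (fun h => (psi w c' h : ℂ) * u (h + n')) hA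
    rw [sq_A hQ] at h2
    refine h2.trans ?_
    refine mul_le_mul_of_nonneg_left ?_ (by positivity)
    have h4 : ∑ h ∈ Icc 1 N, ‖(psi w c' h : ℂ) * u (h + n')‖ ^ 2 ≤
        ∑ h ∈ Icc 1 N, ‖u (h + n')‖ ^ 2 := by
      refine Finset.sum_le_sum fun h _ => ?_
      rw [norm_mul]
      refine pow_le_pow_left₀ (by positivity) ?_ 2
      exact mul_le_of_le_one_left (norm_nonneg _) (norm_psi_le w c' h)
    exact (h4.trans (sum_shift (X := 2 * N) le_rfl hn'.2 (fun m => ‖u m‖ ^ 2)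
      fun _ => sq_nonneg _)).trans hu
  refine (Finset.sum_le_sum h1).trans_eq ?_
  rw [Finset.sum_const, Nat.card_Icc, Nat.add_sub_cancel, nsmul_eq_mul]
  push_cast
  ring

end SlotAux

open SlotAux

theorem pairL (B : ℝ) : ∃ c : ℝ, 0 < c ∧ ∃ X0 : ℕ, ∀ N Q w : ℕ, X0 ≤ N →
    Rg c (2 * N) Q → 4 ^ (40 * w) ≤ Q → ∀ b : CI → ℝ,
    (∀ x ∈ Ch Q, ∀ n, ‖Mc (2 * N) Q x n‖ ≤ b x) → ∑ x ∈ Ch Q, b x ≤ B →
    ∃ Bd : Finset (ℕ × ℕ), (Bd.card : ℝ) ≤ (N : ℝ) ^ 2 * (Q : ℝ) ^ (-(1 / 4 : ℝ)) ∧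
    ∀ c', ∀ n ∈ Icc 1 (2 * N), ∀ n' ∈ Icc 1 (2 * N), (n, n') ∉ Bd →
      ‖(CC (W (2 * N) Q) N w c' n n' : ℂ) - ∑ h ∈ Icc 1 N, (psi w c' h : ℂ) *
        (LL (2 * N) Q (Q ^ 16) (h + n) * LL (2 * N) Q (Q ^ 16) (h + n'))‖ ≤
      N * (Q : ℝ) ^ (-(1 / 10 : ℝ)) := by
  classical
  obtain ⟨c, hc, hc20, X1, hft⟩ := ft_WL 16 (by norm_num) B
  obtain ⟨X2, hW⟩ := l2W
  obtain ⟨K, X3, hL⟩ := l2L 16 B
  obtain ⟨K', hK', hK3⟩ : ∃ K' : ℕ, K ≤ K' ∧ 3 ≤ K' := ⟨max K 3, le_max_left _ _, le_max_right _ _⟩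
  obtain ⟨X4, hg⟩ := growth 1024 K' (13 / 40) (by norm_num)
  obtain ⟨X5, hlg⟩ := log_large
  refine ⟨c, hc, max (max X1 X2) (max (max X3 X4) (max X5 1)), ?_⟩
  intro N Q w hN hR hw b hb hbB
  have hN' := hN
  simp only [max_le_iff] at hN'
  obtain ⟨⟨hN1, hN2⟩, ⟨hN3, hN4⟩, hN5, hN6⟩ := hN'
  obtain ⟨hlog, hX1, hQ2⟩ := hlg (2 * N) Q (by omega) hR.1
  have hg1 := hg (2 * N) Q (by omega) hR.1
  have hQ1 : (1 : ℝ) ≤ Q := by exact_mod_cast (by omega : 1 ≤ Q)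
  have hQ0 : (0 : ℝ) < Q := by linarith
  have hNr : (0 : ℝ) < N := by exact_mod_cast hN6
  have hlog1 : 1 ≤ Real.log ((2 * N : ℕ) : ℝ) := by linarith
  obtain ⟨L, hLe⟩ : ∃ L : ℝ, L = Real.log ((2 * N : ℕ) : ℝ) ^ K' := ⟨_, rfl⟩
  have hL0 : 0 ≤ L := by rw [hLe]; exact pow_nonneg (by linarith) _
  have hXr : (1 : ℝ) ≤ ((2 * N : ℕ) : ℝ) := by exact_mod_cast hX1
  have hQ5 : Q ^ 5 ≤ 2 * N := by
    have hR1 := (FreeYAux.Rg_mono hc20 hX1 hR).2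
    have h9 : ((Q : ℝ)) ^ 5 ≤ ((2 * N : ℕ) : ℝ) := by
      calc (Q : ℝ) ^ 5 ≤ (((2 * N : ℕ) : ℝ) ^ (1 / 20 : ℝ)) ^ 5 := pow_le_pow_left₀ hQ0.le hR1 5
        _ = ((2 * N : ℕ) : ℝ) ^ (1 / 4 : ℝ) := by
            rw [← Real.rpow_natCast, ← Real.rpow_mul (by linarith)]
            norm_num
        _ ≤ ((2 * N : ℕ) : ℝ) ^ (1 : ℝ) := Real.rpow_le_rpow_of_exponent_le hXr (by norm_num)
        _ = _ := Real.rpow_one _
    exact_mod_cast h9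
  have hWb : ∑ m ∈ range (4 * (2 * N)), ‖(W (2 * N) Q m : ℂ)‖ ^ 2 ≤ 2 * N * L := by
    have h10 := hW (2 * N) Q (by omega)
    have h11 : ∑ m ∈ range (4 * (2 * N)), ‖(W (2 * N) Q m : ℂ)‖ ^ 2 =
        ∑ m ∈ range (4 * (2 * N)), W (2 * N) Q m ^ 2 := by
      refine Finset.sum_congr rfl fun m _ => ?_
      rw [Complex.norm_real, Real.norm_eq_abs, sq_abs]
    rw [h11]
    refine h10.trans ?_
    rw [hLe, Nat.cast_mul, Nat.cast_two]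
    refine mul_le_mul_of_nonneg_left ?_ (by positivity)
    have := pow_le_pow_right₀ hlog1 hK3
    push_cast at this
    exact this
  have hLb : ∑ m ∈ range (4 * (2 * N)), ‖LL (2 * N) Q (Q ^ 16) m‖ ^ 2 ≤ 2 * N * L := by
    refine (hL (2 * N) Q (by omega) hQ2 hQ5 b hb hbB).trans ?_
    rw [hLe, Nat.cast_mul, Nat.cast_two]
    refine mul_le_mul_of_nonneg_left ?_ (by positivity)
    have := pow_le_pow_right₀ hlog1 hK'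
    push_cast at this
    exact this
  obtain ⟨f, hf⟩ : ∃ f : ℕ → ℂ, f = fun m => (W (2 * N) Q m : ℂ) - LL (2 * N) Q (Q ^ 16) m :=
    ⟨_, rfl⟩
  have hA : ∀ t, ‖ft (4 * (2 * N)) f t‖ ≤ 4 * (2 * N) * (Q : ℝ) ^ (-(2 / 5 : ℝ)) := by
    intro t
    have h := hft (2 * N) Q (by omega) hR b hb hbB t
    rw [hf]
    push_cast at h ⊢
    exact h
  obtain ⟨S, hS⟩ : ∃ S : ℕ → ℕ × ℕ → ℂ, S = fun c' p =>
      ∑ h ∈ Icc 1 N, (psi w c' h : ℂ) * (W (2 * N) Q (h + p.2) : ℂ) * f (h + p.1) +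
      ∑ h ∈ Icc 1 N, (psi w c' h : ℂ) * LL (2 * N) Q (Q ^ 16) (h + p.1) * f (h + p.2) :=
    ⟨_, rfl⟩
  have hM : ∀ c' < PP w, ∑ p ∈ Icc 1 (2 * N) ×ˢ Icc 1 (2 * N), ‖S c' p‖ ^ 2 ≤
      1024 * L * ((N : ℝ) ^ 4 * (Q : ℝ) ^ (-(4 / 5 : ℝ))) := by
    intro c' _
    have h1 := two_slot (w := w) hN6 hQ0 c' f (fun m => (W (2 * N) Q m : ℂ)) L hA hWb
    have h2 := two_slot (w := w) hN6 hQ0 c' f (fun m => LL (2 * N) Q (Q ^ 16) m) L hA hLb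
    have h3 : ∀ p ∈ Icc 1 (2 * N) ×ˢ Icc 1 (2 * N), ‖S c' p‖ ^ 2 ≤
        2 * ‖∑ h ∈ Icc 1 N, (psi w c' h : ℂ) * (W (2 * N) Q (h + p.2) : ℂ) * f (h + p.1)‖ ^ 2 +
        2 * ‖∑ h ∈ Icc 1 N, (psi w c' h : ℂ) * LL (2 * N) Q (Q ^ 16) (h + p.1) *
          f (h + p.2)‖ ^ 2 := by
      intro p _
      rw [hS]
      have h4 := norm_add_le
        (∑ h ∈ Icc 1 N, (psi w c' h : ℂ) * (W (2 * N) Q (h + p.2) : ℂ) * f (h + p.1))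
        (∑ h ∈ Icc 1 N, (psi w c' h : ℂ) * LL (2 * N) Q (Q ^ 16) (h + p.1) * f (h + p.2))
      refine (pow_le_pow_left₀ (norm_nonneg _) h4 2).trans ?_
      exact (add_sq_le).trans_eq (by ring)
    refine (Finset.sum_le_sum h3).trans ?_
    rw [Finset.sum_add_distrib, ← Finset.mul_sum, ← Finset.mul_sum, Finset.sum_product_right,
      Finset.sum_product]
    have h5 : 256 * L * ((N : ℝ) ^ 4 * (Q : ℝ) ^ (-(4 / 5 : ℝ))) * 2 +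
        256 * L * ((N : ℝ) ^ 4 * (Q : ℝ) ^ (-(4 / 5 : ℝ))) * 2 =
        1024 * L * ((N : ℝ) ^ 4 * (Q : ℝ) ^ (-(4 / 5 : ℝ))) := by ring
    rw [← h5]
    linarith
  have hθ : 0 < (N : ℝ) * (Q : ℝ) ^ (-(1 / 10 : ℝ)) := by positivity
  have hmk := markov_union (Icc 1 (2 * N) ×ˢ Icc 1 (2 * N)) (PP w) S _ _ hθ hM
  refine ⟨(Icc 1 (2 * N) ×ˢ Icc 1 (2 * N)).filter fun p => ∃ c' < PP w,
    N * (Q : ℝ) ^ (-(1 / 10 : ℝ)) < ‖S c' p‖, ?_, ?_⟩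
  · exact final (N := N) (Q := Q) (m := PP w) (D := 1024 * L) 2 hNr hQ1 (Nat.cast_nonneg _)
      (PP_le_rpow hw) (by positivity) (by rw [hLe]; exact hg1) hmk
  · intro c' n hn n' hn' hnB
    have h6 : ¬ ∃ c' < PP w, N * (Q : ℝ) ^ (-(1 / 10 : ℝ)) < ‖S c' (n, n')‖ := fun h7 =>
      hnB (Finset.mem_filter.2 ⟨Finset.mem_product.2 ⟨hn, hn'⟩, h7⟩)
    push Not at h6
    have h8 := h6 (c' % PP w) (Nat.mod_lt _ (PP_pos w))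
    have h9 : (CC (W (2 * N) Q) N w c' n n' : ℂ) - ∑ h ∈ Icc 1 N, (psi w c' h : ℂ) *
        (LL (2 * N) Q (Q ^ 16) (h + n) * LL (2 * N) Q (Q ^ 16) (h + n')) =
        S (c' % PP w) (n, n') := by
      unfold CC
      rw [sum_cls, hS, hf]
      push_cast
      rw [← Finset.sum_sub_distrib, ← Finset.sum_add_distrib]
      refine Finset.sum_congr rfl fun h _ => ?_
      simp only [psi_mod, Nat.add_comm n h, Nat.add_comm n' h]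
      ring
    rw [h9]
    exact h8

end Pool.Agent.Lib.LEN
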