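import Pool.Agent.Lib.LEN.MainP
import Pool.Agent.Lib.LEN.TPs
import Pool.Agent.Lib.LEN.Szc
import Pool.Agent.Lib.LEN.PairL

/-!
# LEN.PairUp: pair correlations of the primes in a class, upper bound

PROOF. `pairL` replaces `W` by the model outside few pairs; `mainP` (`k = 2`, `M = {one}`, `X = 2N`,
`y = N`, shifts `![n, n']`) gives the main term `SZs · ∑ Mc one (m+n) Mc one (m+n')`; all `m + n` are in
the middle range, so `Mc one` is near one; `szc`, `locI_two` evaluate `SZs`; `W (2N) Q (m + n) = lp (m+n)`.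
-/

set_option autoImplicit false

open Finset Filter

namespace Pool.Agent.Lib.LEN

open Pool.Agent.HLB Pool.Agent.HLT Pool.Agent.HLR Pool.Agent.Lib.GMV

namespace PairUpAux

/-- The product of the primes up to `w`. -/
lemma PP_le (w : ℕ) : PP w ≤ 4 ^ w := by
  have h := primorial_le_four_pow (n := w)
  unfold primorial at h
  unfold PP
  refine le_trans (le_of_eq ?_) h
  refine Finset.prod_congr ?_ fun _ _ => rfl
  ext p
  simp [Nat.mem_primesLE]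

lemma DZ_le_one (w : ℕ) : DZ w ≤ 1 := by
  unfold DZ
  refine Finset.prod_le_one (fun p hp => ?_) fun p hp => ?_
  · have h1 : (1 : ℝ) < p := by exact_mod_cast (Nat.mem_primesLE.1 hp).2.one_lt
    rw [sub_nonneg, div_le_one (by linarith)]
    exact h1.le
  · have h1 : (0 : ℝ) ≤ 1 / p := by positivity
    linarith

lemma one_le_ss (w d : ℕ) : 1 ≤ ss w d := by
  unfold ss
  have h0 : (1 : ℝ) = ∏ _p ∈ d.primeFactors.filter (fun p => w < p), (1 : ℝ) := by simp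
  refine h0.le.trans ?_
  refine Finset.prod_le_prod (fun _ _ => zero_le_one) fun p hp => ?_
  have hp' := (Finset.mem_filter.1 hp).1
  have h1 : (1 : ℝ) < p := by exact_mod_cast (Nat.prime_of_mem_primeFactors hp').one_lt
  have h2 : 0 < 1 - 1 / (p : ℝ) := by
    rw [sub_pos, div_lt_one (by linarith)]
    exact h1
  have h3 : 1 - 1 / (p : ℝ) ≤ 1 := by
    have : (0 : ℝ) ≤ 1 / p := by positivity
    linarith
  exact (one_le_inv₀ h2).2 h3

/-- In the middle range the weight is `lp`. -/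
lemma W_mid {N Q m : ℕ} (hN : 1 ≤ N) (hQ : 4 ≤ Q) (h1 : N ≤ m) (h2 : m ≤ 3 * N) :
    W (2 * N) Q m = Pool.Agent.HLT.lp m := by
  unfold W vw
  have hNr : (0 : ℝ) < N := by exact_mod_cast hN
  have hQr : (4 : ℝ) ≤ Q := by exact_mod_cast hQ
  have h1r : (N : ℝ) ≤ m := by exact_mod_cast h1
  have h2r : (m : ℝ) ≤ 3 * N := by exact_mod_cast h2
  have e1 : (1 : ℝ) ≤ (m : ℝ) * Q / ((2 * N : ℕ) : ℝ) - 1 := by
    push_cast
    have : (2 : ℝ) ≤ (m : ℝ) * Q / (2 * N) := by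
      rw [le_div_iff₀ (by positivity)]
      nlinarith
    linarith
  have e2 : (1 : ℝ) ≤ 2 * Q + 1 - (m : ℝ) * Q / ((2 * N : ℕ) : ℝ) := by
    push_cast
    have : (m : ℝ) * Q / (2 * N) ≤ 2 * Q := by
      rw [div_le_iff₀ (by positivity)]
      nlinarith
    linarith
  rw [min_eq_left (le_min e1 e2), max_eq_right zero_le_one, one_mul]

lemma psi_periodic (w c n : ℕ) : psi w c (n + PP w) = psi w c n := by
  unfold psi
  rw [Nat.add_mod_right]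

lemma psi_nonneg (w c n : ℕ) : 0 ≤ psi w c n := by
  unfold psi
  split_ifs <;> norm_num

lemma psi_le_one (w c n : ℕ) : psi w c n ≤ 1 := by
  unfold psi
  split_ifs <;> norm_num

/-- Growth. -/
lemma growthP : ∀ᶠ q : ℝ in atTop,
    q ^ (-(1 / 10 : ℝ)) + 2 / q ≤ q ^ (-(1 / 40 : ℝ)) * q ^ (-(1 / 20 : ℝ)) := by
  have h1 : ∀ᶠ q : ℝ in atTop, (3 : ℝ) ≤ q ^ (1 / 40 : ℝ) :=
    (tendsto_rpow_atTop (by norm_num)).eventually_ge_atTop 3
  filter_upwards [h1, eventually_ge_atTop 1] with q g1 hq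
  have hq0 : 0 < q := by linarith
  have e1 : q ^ (-(1 / 40 : ℝ)) * q ^ (-(1 / 20 : ℝ)) = q ^ (-(1 / 10 : ℝ)) * q ^ (1 / 40 : ℝ) := by
    rw [← Real.rpow_add hq0, ← Real.rpow_add hq0]
    norm_num
  have e2 : 1 / q ≤ q ^ (-(1 / 10 : ℝ)) := by
    have e' : 1 / q = q ^ (-1 : ℝ) := by rw [Real.rpow_neg_one, one_div]
    rw [e']
    exact Real.rpow_le_rpow_of_exponent_le hq (by norm_num)
  have e3 : 2 / q = 2 * (1 / q) := by ring
  have e4 : 0 < q ^ (-(1 / 10 : ℝ)) := Real.rpow_pos_of_pos hq0 _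
  rw [e1, e3]
  nlinarith

end PairUpAux

open PairUpAux

/-- Module PairUp. -/
theorem pairUp (B : ℝ) : ∃ c C : ℝ, 0 < c ∧ 0 < C ∧ ∃ X0 : ℕ, ∀ N Q w : ℕ, X0 ≤ N →
    Rg c (2 * N) Q → 4 ^ (40 * w) ≤ Q → ∀ b : CI → ℝ,
    (∀ x ∈ Ch Q, ∀ n, ‖Mc (2 * N) Q x n‖ ≤ b x) → ∑ x ∈ Ch Q, b x ≤ B → ∀ E : ℝ,
    ∑ x ∈ Ch Q \ {one}, b x ≤ E →
    (∀ n : ℕ, 3 * (2 * N) ≤ n * Q → n * Q + 2 * N ≤ 2 * (2 * N) * Q →
      ‖Mc (2 * N) Q one n - 1‖ ≤ E) →
    ∃ Bd : Finset (ℕ × ℕ), (Bd.card : ℝ) ≤ (N : ℝ) ^ 2 * (Q : ℝ) ^ (-(1 / 4 : ℝ)) ∧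
    ∀ c', ∀ n ∈ Ioc N (2 * N), ∀ n' ∈ Ioc N (2 * N), n ≠ n' → (n, n') ∉ Bd →
      Nat.Coprime (n + c') (PP w) → Nat.Coprime (n' + c') (PP w) →
      CC Pool.Agent.HLT.lp N w c' n n' ≤ (N : ℝ) / PP w * (DZ w)⁻¹ ^ 2 * ss w (Nat.dist n n') *
        (1 + (C * E + (Q : ℝ) ^ (-(1 / 20 : ℝ)))) := by
  classical
  obtain ⟨c1, C1, hc1, hC1, X1, hmain⟩ := mainP 2 (by norm_num) B
  obtain ⟨c2, hc2, X2, hpair⟩ := pairL B
  obtain ⟨β, hβ⟩ : ∃ β : ℝ, β = max 1 B := ⟨_, rfl⟩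
  have hβ1 : 1 ≤ β := by rw [hβ]; exact le_max_left _ _
  obtain ⟨X3, hX3⟩ := FreeYAux.largeQ (fun q => q ^ (-(1 / 10 : ℝ)) + 2 / q ≤
    q ^ (-(1 / 40 : ℝ)) * q ^ (-(1 / 20 : ℝ)) ∧ 6 ≤ q) (growthP.and (eventually_ge_atTop 6))
  refine ⟨min c1 c2, 2 * C1 + 2 * β ^ 2, lt_min hc1 hc2, by positivity,
    max (max X1 X2) (max X3 1), ?_⟩
  intro N Q w hN hR hw b hb hbB E hE hone
  have hN1 : X1 ≤ N := le_trans (le_max_left _ _) (le_trans (le_max_left _ _) hN)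
  have hN2 : X2 ≤ N := le_trans (le_max_right _ _) (le_trans (le_max_left _ _) hN)
  have hN3 : X3 ≤ N := le_trans (le_max_left _ _) (le_trans (le_max_right _ _) hN)
  have hN4 : 1 ≤ N := le_trans (le_max_right _ _) (le_trans (le_max_right _ _) hN)
  have hR1 : Rg c1 (2 * N) Q := FreeYAux.Rg_mono (min_le_left _ _) (by omega) hR
  have hR2 : Rg c2 (2 * N) Q := FreeYAux.Rg_mono (min_le_right _ _) (by omega) hR
  obtain ⟨hgr, hQ6⟩ := hX3 (2 * N) Q (by omega) hR.1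
  have hQn : 6 ≤ Q := by exact_mod_cast hQ6
  have hQ0 : (0 : ℝ) < Q := by linarith
  have hNr : (0 : ℝ) < N := by exact_mod_cast hN4
  have hb0 : ∀ x ∈ Ch Q, 0 ≤ b x := fun x hx => (norm_nonneg _).trans (hb x hx 0)
  have honeC : one ∈ Ch Q := one_mem_Ch (by omega)
  have hE0 : 0 ≤ E := le_trans (Finset.sum_nonneg fun x hx =>
    hb0 x (Finset.mem_sdiff.1 hx).1) hE
  have hMcb : ∀ n, ‖Mc (2 * N) Q one n‖ ≤ β := by
    intro n
    refine (hb one honeC n).trans ?_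
    rw [hβ]
    refine le_trans ?_ (hbB.trans (le_max_right _ _))
    exact Finset.single_le_sum hb0 honeC
  -- the modulus
  have hPP1 : 1 ≤ PP w := TPsAux.PP_pos w
  have hPP4 : PP w ^ 40 ≤ Q := by
    calc PP w ^ 40 ≤ (4 ^ w) ^ 40 := Nat.pow_le_pow_left (PP_le w) 40
      _ = 4 ^ (40 * w) := by rw [← pow_mul, mul_comm]
      _ ≤ Q := hw
  have hPPQ : PP w ≤ Q := by
    calc PP w = PP w ^ 1 := (pow_one _).symm
      _ ≤ PP w ^ 40 := Nat.pow_le_pow_right hPP1 (by norm_num)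
      _ ≤ Q := hPP4
  have hwQ : w ≤ Q := by
    calc w ≤ 4 ^ w := (Nat.lt_pow_self (by norm_num)).le
      _ ≤ 4 ^ (40 * w) := Nat.pow_le_pow_right (by norm_num) (by omega)
      _ ≤ Q := hw
  have hPr : (PP w : ℝ) ≤ (Q : ℝ) ^ (1 / 40 : ℝ) := by
    have h1 : ((PP w : ℝ)) ^ (40 : ℕ) ≤ Q := by exact_mod_cast hPP4
    have h2 : (PP w : ℝ) = ((PP w : ℝ) ^ (40 : ℕ)) ^ (1 / 40 : ℝ) := by
      rw [← Real.rpow_natCast, ← Real.rpow_mul (Nat.cast_nonneg _)]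
      norm_num
    rw [h2]
    exact Real.rpow_le_rpow (by positivity) h1 (by norm_num)
  have hP0 : (0 : ℝ) < PP w := by exact_mod_cast hPP1
  have hPinv : (Q : ℝ) ^ (-(1 / 40 : ℝ)) ≤ 1 / PP w := by
    rw [Real.rpow_neg hQ0.le, one_div (PP w : ℝ)]
    exact inv_anti₀ hP0 hPr
  obtain ⟨Bd, hBd1, hBd2⟩ := hpair N Q w hN2 hR2 hw b hb hbB
  refine ⟨Bd, hBd1, ?_⟩
  intro c' n hn n' hn' hne hnB hco hco'
  rw [Finset.mem_Ioc] at hn hn'
  have hp := hBd2 c' n (Finset.mem_Icc.2 ⟨by omega, hn.2⟩) n' (Finset.mem_Icc.2 ⟨by omega, hn'.2⟩) hnB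
  -- the correlation of `lp`
  have hCC : CC Pool.Agent.HLT.lp N w c' n n' = CC (W (2 * N) Q) N w c' n n' := by
    unfold CC
    refine Finset.sum_congr rfl fun h hh => ?_
    have hh1 := Finset.mem_Icc.1 (Finset.mem_filter.1 hh).1
    rw [W_mid hN4 (by omega) (by omega) (by omega), W_mid hN4 (by omega) (by omega) (by omega)]
  rw [hCC]
  -- the model
  have hT : (![n, n'] : Fin 2 → ℕ) ∈ Tup 2 (Icc 1 (2 * N)) := by
    rw [mem_Tup]
    intro i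
    fin_cases i
    · exact Finset.mem_Icc.2 ⟨show 1 ≤ n by omega, hn.2⟩
    · exact Finset.mem_Icc.2 ⟨show 1 ≤ n' by omega, hn'.2⟩
  have hinj : Function.Injective (![n, n'] : Fin 2 → ℕ) := by
    intro i j hij
    fin_cases i <;> fin_cases j
    · rfl
    · exact absurd hij hne
    · exact absurd hij hne.symm
    · rfl
  have hm := hmain (2 * N) Q (by omega) hR1 w hPPQ (psi w c') (psi_nonneg w c') (psi_le_one w c')
    (psi_periodic w c') b hb hbB {one} E (Finset.singleton_subset_iff.2 honeC) hE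
    ![n, n'] hT hinj N (by omega)
  have hsing : Fintype.piFinset (fun _ : Fin 2 => ({one} : Finset CI)) = {fun _ => one} := by
    ext x
    rw [Fintype.mem_piFinset, Finset.mem_singleton]
    constructor
    · intro h
      funext i
      exact Finset.mem_singleton.1 (h i)
    · intro h i
      rw [h]
      exact Finset.mem_singleton_self _
  rw [hsing, Finset.sum_singleton, TPs_one] at hm
  obtain ⟨S, hS⟩ : ∃ S, S = SZs (Q ^ (8 * 2)) (psi w c') ![n, n'] := ⟨_, rfl⟩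
  rw [← hS] at hm
  have hSe : S = 1 / PP w * (DZ w)⁻¹ ^ 2 *
      ∏ p ∈ (Nat.primesLE (Q ^ (8 * 2))).filter (fun p => w < p), locI (![n, n'] : Fin 2 → ℕ) p := by
    rw [hS]
    refine szc (Q ^ (8 * 2)) w c' ?_ ![n, n'] ?_
    · calc w ≤ Q := hwQ
        _ = Q ^ 1 := (pow_one _).symm
        _ ≤ Q ^ (8 * 2) := Nat.pow_le_pow_right (by omega) (by norm_num)
    · intro i
      fin_cases i
      · exact hco
      · exact hco'
  have hDinv : 1 ≤ (DZ w)⁻¹ := (one_le_inv₀ (DZ_pos w)).2 (DZ_le_one w)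
  have hS0 : 0 ≤ S := by
    rw [hS]
    unfold SZs
    refine div_nonneg (Finset.sum_nonneg fun m _ => ?_) (Nat.cast_nonneg _)
    exact mul_nonneg (psi_nonneg _ _ _) (Finset.prod_nonneg fun i _ => nuz_nonneg _ _)
  obtain ⟨M, hM⟩ : ∃ M, M = 1 / (PP w : ℝ) * (DZ w)⁻¹ ^ 2 * ss w (Nat.dist n n') := ⟨_, rfl⟩
  have hSM : S ≤ M := by
    rw [hSe, hM]
    exact mul_le_mul_of_nonneg_left (locI_two _ w n n' hne) (by positivity)
  have hMlow : (Q : ℝ) ^ (-(1 / 40 : ℝ)) ≤ M := by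
    rw [hM]
    have h1 : 1 ≤ (DZ w)⁻¹ ^ 2 * ss w (Nat.dist n n') :=
      one_le_mul_of_one_le_of_one_le (one_le_pow₀ hDinv) (one_le_ss _ _)
    calc (Q : ℝ) ^ (-(1 / 40 : ℝ)) ≤ 1 / PP w := hPinv
      _ = 1 / PP w * 1 := (mul_one _).symm
      _ ≤ 1 / PP w * ((DZ w)⁻¹ ^ 2 * ss w (Nat.dist n n')) :=
          mul_le_mul_of_nonneg_left h1 (by positivity)
      _ = _ := by ring
  -- the main term
  have hA : ‖∑ m ∈ Icc 1 N, ∏ i, Mc (2 * N) Q one (m + (![n, n'] : Fin 2 → ℕ) i) - N‖ ≤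
      N * (2 * β ^ 2 * E) := by
    have e1 : ∑ m ∈ Icc 1 N, ∏ i, Mc (2 * N) Q one (m + (![n, n'] : Fin 2 → ℕ) i) - N =
        ∑ m ∈ Icc 1 N, (∏ i, Mc (2 * N) Q one (m + (![n, n'] : Fin 2 → ℕ) i) - 1) := by
      rw [Finset.sum_sub_distrib, Finset.sum_const, Nat.card_Icc, Nat.add_sub_cancel,
        nsmul_eq_mul, mul_one]
    rw [e1]
    refine (norm_sum_le _ _).trans ?_
    have h2 : ∀ m ∈ Icc 1 N,
        ‖∏ i, Mc (2 * N) Q one (m + (![n, n'] : Fin 2 → ℕ) i) - 1‖ ≤ 2 * β ^ 2 * E := by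
      intro m hm'
      rw [Finset.mem_Icc] at hm'
      have h3 := FreeYAux.prod_near (Finset.univ : Finset (Fin 2))
        (fun i => Mc (2 * N) Q one (m + (![n, n'] : Fin 2 → ℕ) i)) hβ1 hE0
        (fun i _ => hMcb _) (fun i _ => by
          have hi : N < (![n, n'] : Fin 2 → ℕ) i ∧ (![n, n'] : Fin 2 → ℕ) i ≤ 2 * N := by
            fin_cases i
            · exact hn
            · exact hn'
          apply hone
          · calc 3 * (2 * N) = N * 6 := by ring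
              _ ≤ (m + (![n, n'] : Fin 2 → ℕ) i) * Q := Nat.mul_le_mul (by omega) hQn
          · have h4 : (m + (![n, n'] : Fin 2 → ℕ) i) * Q ≤ (3 * N) * Q :=
              Nat.mul_le_mul_right _ (by omega)
            have h5 : 2 * N ≤ N * Q := by nlinarith
            calc (m + (![n, n'] : Fin 2 → ℕ) i) * Q + 2 * N ≤ 3 * N * Q + N * Q :=
                  Nat.add_le_add h4 h5
              _ = 2 * (2 * N) * Q := by ring)
      rw [Finset.card_univ, Fintype.card_fin] at h3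
      exact_mod_cast h3
    refine (Finset.sum_le_sum h2).trans ?_
    rw [Finset.sum_const, Nat.card_Icc, Nat.add_sub_cancel, nsmul_eq_mul]
  -- assembly
  obtain ⟨L, hL⟩ : ∃ L : ℂ, L = ∑ h ∈ Icc 1 N, (psi w c' h : ℂ) *
        (LL (2 * N) Q (Q ^ 16) (h + n) * LL (2 * N) Q (Q ^ 16) (h + n')) := ⟨_, rfl⟩
  obtain ⟨A, hAe⟩ : ∃ A : ℂ, A =
      ∑ m ∈ Icc 1 N, ∏ i, Mc (2 * N) Q one (m + (![n, n'] : Fin 2 → ℕ) i) := ⟨_, rfl⟩
  have hL2 : ∑ m ∈ Icc 1 N, (psi w c' m : ℂ) *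
      ∏ i, LL (2 * N) Q (Q ^ (8 * 2)) (m + (![n, n'] : Fin 2 → ℕ) i) = L := by
    rw [hL]
    refine Finset.sum_congr rfl fun m _ => ?_
    rw [Fin.prod_univ_two]
    rfl
  rw [hL2, ← hAe] at hm
  rw [← hL] at hp
  rw [← hAe] at hA
  have hfin : ‖((CC (W (2 * N) Q) N w c' n n' : ℝ) : ℂ) - ((S * N : ℝ) : ℂ)‖ ≤
      N * (Q : ℝ) ^ (-(1 / 10 : ℝ)) + (C1 * S * (2 * N) * E + 2 * N / Q) +
        S * (N * (2 * β ^ 2 * E)) := by
    have e1 : ((CC (W (2 * N) Q) N w c' n n' : ℝ) : ℂ) - ((S * N : ℝ) : ℂ) =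
        ((CC (W (2 * N) Q) N w c' n n' : ℝ) : ℂ) - L + (L - (S : ℂ) * A) + (S : ℂ) * (A - N) := by
      push_cast
      ring
    rw [e1]
    refine (norm_add_le _ _).trans (add_le_add ?_ ?_)
    · refine (norm_add_le _ _).trans (add_le_add hp ?_)
      refine hm.trans (le_of_eq ?_)
      push_cast
      ring
    · rw [norm_mul, Complex.norm_real, Real.norm_of_nonneg hS0]
      exact mul_le_mul_of_nonneg_left hA hS0
  rw [← Complex.ofReal_sub, Complex.norm_real, Real.norm_eq_abs] at hfin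
  have h1 := (le_abs_self _).trans hfin
  have h2 : CC (W (2 * N) Q) N w c' n n' ≤ S * N + (N * (Q : ℝ) ^ (-(1 / 10 : ℝ)) +
      (C1 * S * (2 * N) * E + 2 * N / Q) + S * (N * (2 * β ^ 2 * E))) := by linarith
  have h3 : S * N + (C1 * S * (2 * N) * E + S * (N * (2 * β ^ 2 * E))) ≤
      M * N * (1 + (2 * C1 + 2 * β ^ 2) * E) := by
    have e : S * N + (C1 * S * (2 * N) * E + S * (N * (2 * β ^ 2 * E))) =
        S * (N * (1 + (2 * C1 + 2 * β ^ 2) * E)) := by ring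
    rw [e]
    calc S * (N * (1 + (2 * C1 + 2 * β ^ 2) * E)) ≤ M * (N * (1 + (2 * C1 + 2 * β ^ 2) * E)) :=
          mul_le_mul_of_nonneg_right hSM (by positivity)
      _ = _ := by ring
  have h4 : N * (Q : ℝ) ^ (-(1 / 10 : ℝ)) + 2 * N / Q ≤ M * N * (Q : ℝ) ^ (-(1 / 20 : ℝ)) := by
    have e : N * (Q : ℝ) ^ (-(1 / 10 : ℝ)) + 2 * N / Q =
        N * ((Q : ℝ) ^ (-(1 / 10 : ℝ)) + 2 / Q) := by ring
    rw [e]
    calc N * ((Q : ℝ) ^ (-(1 / 10 : ℝ)) + 2 / Q) ≤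
        N * ((Q : ℝ) ^ (-(1 / 40 : ℝ)) * (Q : ℝ) ^ (-(1 / 20 : ℝ))) :=
          mul_le_mul_of_nonneg_left hgr hNr.le
      _ ≤ N * (M * (Q : ℝ) ^ (-(1 / 20 : ℝ))) := by
          refine mul_le_mul_of_nonneg_left ?_ hNr.le
          exact mul_le_mul_of_nonneg_right hMlow (Real.rpow_nonneg hQ0.le _)
      _ = _ := by ring
  have h5 : (N : ℝ) / PP w * (DZ w)⁻¹ ^ 2 * ss w (Nat.dist n n') *
        (1 + ((2 * C1 + 2 * β ^ 2) * E + (Q : ℝ) ^ (-(1 / 20 : ℝ)))) =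
      M * N * (1 + (2 * C1 + 2 * β ^ 2) * E) + M * N * (Q : ℝ) ^ (-(1 / 20 : ℝ)) := by
    rw [hM]
    ring
  rw [h5]
  linarith

end Pool.Agent.Lib.LEN
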