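import Pool.Agent.Lib.LEN.Fin1
import Pool.Agent.Lib.LEN.Levels
import Pool.Agent.Lib.LEN.PairUp
import Pool.Agent.Lib.LEN.FirstLow

/-!
# LEN.Fin2: the first half of the base theorem
-/

set_option autoImplicit false

open Finset Filter

namespace Pool.Agent.Lib.LEN

open Pool.Agent.HLB Pool.Agent.HLT Pool.Agent.HLR Pool.Agent.Lib.GMV

open scoped Classical in
/-- The first half: Hardy-Littlewood for almost all admissible tuples of length
`r ≤ (1 - ε) log N / log log N`. -/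
theorem first_half : ∃ C1 C2 cA cB : ℝ, 0 < C1 ∧ 0 < C2 ∧ 0 < cA ∧ 0 < cB ∧
    (∀ N0 : ℕ, ∃ N : ℕ, N0 ≤ N ∧ GoodX cA C1 cB C2 N) ∧
    ∀ ε : ℝ, 0 < ε → ∃ N0 : ℕ, ∀ N : ℕ, N0 ≤ N → GoodX cA C1 cB C2 N → ∀ r : ℕ, 1 ≤ r →
    (r : ℝ) ≤ (1 - ε) * yy N →
    (((Tup r (Icc 1 N)).filter (fun h => Adm h ∧
      ε * (SI h * N / Real.log N ^ r) < |(cnt N h : ℝ) - SI h * N / Real.log N ^ r|)).card : ℝ) ≤
    ε * ((Tup r (Icc 1 N)).filter (fun h => Adm h)).card := by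
  obtain ⟨C1, C2, cA, cB, cw, d, B', h1, h2, h3, h4, h5, h6, h7, hgood, hlev⟩ :=
    LevelsAux.levels_of pairUp firstLow
  refine ⟨C1, C2, cA, cB, h1, h2, h3, h4, hgood, ?_⟩
  intro ε hε
  rcases lt_or_ge ε 1 with hε1 | hε1
  · obtain ⟨u, hu, N1, hcore⟩ := half_core ε cw d B' hε hε1 h5 h6 h7
    obtain ⟨N2, hN2⟩ := hlev u hu
    refine ⟨max N1 N2, fun N hN hG r hr hry => ?_⟩
    obtain ⟨e1, e2, Bd0, Bd1, Bd2, Bd3, g1, g2, g3, g4, g5, g6, g7, g8, g9, g10, g11⟩ :=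
      hN2 N ((le_max_right _ _).trans hN) hG _ rfl
    exact hcore N ((le_max_left _ _).trans hN) _ rfl g3 g4 g5 e1 e2 Bd0 Bd1 Bd2 Bd3 g1 g2 g6 g7 g8
      g9 g10 g11 r hr hry
  · refine ⟨3, fun N hN _ r hr hry => ?_⟩
    exfalso
    have hN3 : (3 : ℝ) ≤ N := by exact_mod_cast hN
    have hL1 : 1 ≤ Real.log N := by
      rw [Real.le_log_iff_exp_le (by linarith)]
      have := Real.exp_one_lt_d9
      linarith
    have hy : 0 ≤ yy N := by
      show 0 ≤ Real.log N / Real.log (Real.log N)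
      exact div_nonneg (by linarith) (Real.log_nonneg hL1)
    have hr1 : (1 : ℝ) ≤ r := by exact_mod_cast hr
    nlinarith

end Pool.Agent.Lib.LEN
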