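import Pool.Agent.Lib.LEN.DefsK
import Pool.Agent.Lib.LEN.Cls
import Pool.Agent.Lib.LEN.Cls0
import Pool.Agent.Lib.LEN.SingD

/-!
# LEN.FinA: summation over the classes

PROOF. `V = (N/P)^r`; `|Hc a| ≤ (N/P+1)^r ≤ (5/4) V`, `|Hc a| ≥ (N/P-1)^r ≥ (3/4) V` as `8 r P ≤ N`. By `sum_Hc` the sum
over the admissible tuples is the sum over the classes; a tuple of an inadmissible class is not `Adm` (`nuI_Hc`).
So `|∑| ≤ ∑_{a ∈ AC \ Bc} η |Hc a| + ∑_{a ∈ AC ∩ Bc} |Hc a| ≤ 2 η |AC| (5/4) V`, and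
`#Adm ≥ ∑_{a ∈ AC} (1-η) |Hc a| ≥ (1/2) (3/4) |AC| V`.
-/

set_option autoImplicit false

open Finset Filter

namespace Pool.Agent.Lib.LEN

open Pool.Agent.HLB Pool.Agent.HLT Pool.Agent.HLR Pool.Agent.Lib.GMV

open scoped Classical in
/-- The admissible classes. -/
noncomputable def AC (w r : ℕ) : Finset (Fin r → ℕ) :=
  (Fintype.piFinset (fun _ : Fin r => range (PP w))).filter
    (fun a => ∀ p ∈ Nat.primesLE w, nuI a p < p)

namespace FinAAux

lemma card_Hc (N w : ℕ) {r : ℕ} (a : Fin r → ℕ) :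
    ((Hc N w a).card : ℝ) = ∏ i, ((cls N w (a i)).card : ℝ) := by
  unfold Hc
  rw [Fintype.card_piFinset]
  push_cast
  rfl

lemma Hc_bounds (N w r : ℕ) (hN : 8 * r * PP w ≤ N) (hr : 1 ≤ r) (a : Fin r → ℕ) :
    3 / 4 * ((N : ℝ) / PP w) ^ r ≤ ((Hc N w a).card : ℝ) ∧
      ((Hc N w a).card : ℝ) ≤ 5 / 4 * ((N : ℝ) / PP w) ^ r := by
  have hP : (0:ℝ) < PP w := by exact_mod_cast Cls0.PP_pos w
  have hr' : (1:ℝ) ≤ r := by exact_mod_cast hr
  have hNr : 8 * (r:ℝ) * PP w ≤ N := by exact_mod_cast hN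
  set x : ℝ := (N : ℝ) / PP w with hx
  have hx8 : 8 * (r:ℝ) ≤ x := by
    rw [hx, le_div_iff₀ hP]
    exact hNr
  have hx0 : 0 < x := by linarith
  have hrx : (r:ℝ) / x ≤ 1 / 8 := by
    rw [div_le_iff₀ hx0]
    linarith
  rw [card_Hc]
  have hle : ∏ i, ((cls N w (a i)).card : ℝ) ≤ (x + 1) ^ r := by
    calc ∏ i, ((cls N w (a i)).card : ℝ) ≤ ∏ _i : Fin r, (x + 1) :=
          prod_le_prod (fun _ _ => by positivity) (fun i _ => Cls0.card_cls_le N w (a i))
      _ = (x + 1) ^ r := by simp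
  have hge : (x - 1) ^ r ≤ ∏ i, ((cls N w (a i)).card : ℝ) := by
    calc (x - 1) ^ r = ∏ _i : Fin r, (x - 1) := by simp
      _ ≤ ∏ i, ((cls N w (a i)).card : ℝ) :=
          prod_le_prod (fun _ _ => by linarith) (fun i _ => Cls0.card_cls_ge N w (a i))
  have hxr : 0 < x ^ r := by positivity
  constructor
  · refine le_trans ?_ hge
    have h1 : (x - 1) ^ r = x ^ r * (1 + (-(1 / x))) ^ r := by
      rw [← mul_pow]
      congr 1
      field_simp
      ring
    have h2 : 1 + (r:ℝ) * (-(1 / x)) ≤ (1 + (-(1 / x))) ^ r := by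
      refine one_add_mul_le_pow ?_ r
      have : 1 / x ≤ 1 := by
        rw [div_le_iff₀ hx0]
        linarith
      linarith
    have h3 : (r:ℝ) * (-(1 / x)) = -((r:ℝ) / x) := by ring
    rw [h1]
    rw [h3] at h2
    have h4 : 3 / 4 ≤ (1 + (-(1 / x))) ^ r := by linarith
    nlinarith
  · refine hle.trans ?_
    have h1 : (x + 1) ^ r = x ^ r * (1 + 1 / x) ^ r := by
      rw [← mul_pow]
      congr 1
      field_simp
    have h2 : (1 + 1 / x) ^ r ≤ Real.exp ((r:ℝ) / x) := by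
      have h3 : 1 + 1 / x ≤ Real.exp (1 / x) := by
        have := Real.add_one_le_exp (1 / x)
        linarith
      calc (1 + 1 / x) ^ r ≤ (Real.exp (1 / x)) ^ r := pow_le_pow_left₀ (by positivity) h3 r
        _ = Real.exp ((r:ℝ) / x) := by
          rw [← Real.exp_nat_mul]
          congr 1
          ring
    have h4 : Real.exp ((r:ℝ) / x) ≤ Real.exp (1 / 8) := Real.exp_le_exp.2 hrx
    have h5 : Real.exp (1 / 8) ≤ 5 / 4 := by
      have h6 := Real.add_one_le_exp (-(1 / 8) : ℝ)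
      have h7 : Real.exp (1 / 8) * Real.exp (-(1 / 8)) = 1 := by
        rw [← Real.exp_add]
        simp
      have h8 := Real.exp_pos (1 / 8)
      nlinarith
    rw [h1]
    have h9 : (1 + 1 / x) ^ r ≤ 5 / 4 := h2.trans (h4.trans h5)
    nlinarith

open scoped Classical in
/-- The sum over the admissible tuples is the sum over the admissible classes. -/
lemma sum_AC (N w r : ℕ) (g : (Fin r → ℕ) → ℝ) :
    ∑ h ∈ (Tup r (Icc 1 N)).filter Adm, g h =
      ∑ a ∈ AC w r, ∑ h ∈ (Hc N w a).filter Adm, g h := by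
  rw [sum_filter, sum_Hc N w r]
  unfold AC
  rw [sum_filter]
  refine sum_congr rfl fun a _ => ?_
  split_ifs with hcase
  · rw [sum_filter]
  · push Not at hcase
    obtain ⟨p, hp, hp2⟩ := hcase
    refine sum_eq_zero fun h hh => ?_
    rw [if_neg]
    rintro ⟨_, hadm⟩
    have h1 := hadm p (Nat.mem_primesLE.1 hp).2
    rw [nuI_Hc hh hp] at h1
    omega

end FinAAux

open FinAAux

open scoped Classical in
theorem class_gen (η : ℝ) (hη : 0 < η) (hη1 : η ≤ 1 / 2) (N w r : ℕ) (hN : 8 * r * PP w ≤ N)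
    (hr : 1 ≤ r) (g : (Fin r → ℕ) → ℝ) (hg : ∀ h, |g h| ≤ 1) (Bc : Finset (Fin r → ℕ))
    (hBc : (Bc.card : ℝ) ≤ η * (AC w r).card)
    (hadm : ∀ a ∈ AC w r, (((Hc N w a).filter (fun h => ¬ Adm h)).card : ℝ) ≤
      η * (Hc N w a).card)
    (hcl : ∀ a ∈ AC w r, a ∉ Bc → |∑ h ∈ (Hc N w a).filter Adm, g h| ≤ η * (Hc N w a).card) :
    |∑ h ∈ (Tup r (Icc 1 N)).filter Adm, g h| ≤
      8 * η * (((Tup r (Icc 1 N)).filter Adm).card : ℝ) := by
  set V : ℝ := ((N : ℝ) / PP w) ^ r with hV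
  have hV0 : 0 ≤ V := by positivity
  have hb := fun a : Fin r → ℕ => Hc_bounds N w r hN hr a
  -- the lower bound for the number of admissible tuples
  have hlow : 3 / 8 * V * (AC w r).card ≤ (((Tup r (Icc 1 N)).filter Adm).card : ℝ) := by
    have h1 : (((Tup r (Icc 1 N)).filter Adm).card : ℝ) =
        ∑ h ∈ (Tup r (Icc 1 N)).filter Adm, (1:ℝ) := by simp
    rw [h1, sum_AC N w r]
    have h2 : ∀ a ∈ AC w r, 3 / 8 * V ≤ ∑ h ∈ (Hc N w a).filter Adm, (1:ℝ) := by
      intro a ha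
      have h3 := hadm a ha
      have h4 : (((Hc N w a).filter Adm).card : ℝ) +
          (((Hc N w a).filter (fun h => ¬ Adm h)).card : ℝ) = (Hc N w a).card := by
        exact_mod_cast card_filter_add_card_filter_not Adm
      have h5 : ∑ h ∈ (Hc N w a).filter Adm, (1:ℝ) = (((Hc N w a).filter Adm).card : ℝ) := by simp
      rw [h5]
      have h6 := (hb a).1
      have h7 : (0:ℝ) ≤ (Hc N w a).card := by positivity
      nlinarith
    calc 3 / 8 * V * (AC w r).card = ∑ _a ∈ AC w r, 3 / 8 * V := by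
          rw [sum_const, nsmul_eq_mul]
          ring
      _ ≤ _ := sum_le_sum h2
  -- the upper bound for the sum
  have hup : |∑ h ∈ (Tup r (Icc 1 N)).filter Adm, g h| ≤ 5 / 2 * η * V * (AC w r).card := by
    rw [sum_AC N w r]
    refine (abs_sum_le_sum_abs _ _).trans ?_
    have h1 : ∀ a ∈ AC w r, |∑ h ∈ (Hc N w a).filter Adm, g h| ≤
        η * (5 / 4 * V) + if a ∈ Bc then 5 / 4 * V else 0 := by
      intro a ha
      have h2 := (hb a).2
      split_ifs with hc
      · have h3 : |∑ h ∈ (Hc N w a).filter Adm, g h| ≤ (Hc N w a).card := by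
          refine (abs_sum_le_sum_abs _ _).trans ?_
          calc ∑ h ∈ (Hc N w a).filter Adm, |g h| ≤ ∑ h ∈ (Hc N w a).filter Adm, (1:ℝ) :=
                sum_le_sum fun h _ => hg h
            _ = (((Hc N w a).filter Adm).card : ℝ) := by simp
            _ ≤ (Hc N w a).card := by exact_mod_cast card_filter_le _ _
        have h4 : 0 ≤ η * (5 / 4 * V) := by positivity
        linarith
      · rw [add_zero]
        exact (hcl a ha hc).trans (mul_le_mul_of_nonneg_left h2 hη.le)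
    refine (sum_le_sum h1).trans ?_
    rw [sum_add_distrib, sum_const, nsmul_eq_mul, ← sum_filter, sum_const, nsmul_eq_mul]
    have h5 : (((AC w r).filter (fun a => a ∈ Bc)).card : ℝ) ≤ η * (AC w r).card := by
      refine le_trans ?_ hBc
      have h6 : (AC w r).filter (fun a => a ∈ Bc) ⊆ Bc := by
        intro a ha
        exact (mem_filter.1 ha).2
      exact_mod_cast card_le_card h6
    have h7 : (((AC w r).filter (fun a => a ∈ Bc)).card : ℝ) * (5 / 4 * V) ≤
        η * (AC w r).card * (5 / 4 * V) := mul_le_mul_of_nonneg_right h5 (by positivity)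
    linarith
  refine hup.trans ?_
  have h8 : 5 / 2 * η * V * (AC w r).card ≤ 8 * η * (3 / 8 * V * (AC w r).card) := by
    have h9 : 0 ≤ η * V * (AC w r).card := by positivity
    linarith
  exact h8.trans (mul_le_mul_of_nonneg_left hlow (by positivity))

end Pool.Agent.Lib.LEN
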