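import Mathlib

/-!
# LEN.PoiA: Poisson probabilities, Chebyshev from the first two factorial moments
-/

set_option autoImplicit false

open Finset Filter

namespace Pool.Agent.Lib.LEN

namespace PoiAAux

lemma pois_le_one (j : ℕ) (x : ℝ) (hx : 0 ≤ x) : Real.exp (-x) * x ^ j / j.factorial ≤ 1 := by
  have h1 := Real.pow_div_factorial_le_exp x hx j
  rw [Real.exp_neg, mul_div_assoc]
  calc (Real.exp x)⁻¹ * (x ^ j / j.factorial) ≤ (Real.exp x)⁻¹ * Real.exp x :=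
        mul_le_mul_of_nonneg_left h1 (inv_nonneg.2 (Real.exp_pos x).le)
    _ = 1 := inv_mul_cancel₀ (Real.exp_pos x).ne'

lemma pois_nonneg (j : ℕ) (x : ℝ) (hx : 0 ≤ x) : 0 ≤ Real.exp (-x) * x ^ j / j.factorial := by
  positivity

lemma hasDeriv (j : ℕ) (x : ℝ) : HasDerivAt (fun x : ℝ => Real.exp (-x) * x ^ j / j.factorial)
    ((-Real.exp (-x) * x ^ j + Real.exp (-x) * (j * x ^ (j - 1))) / j.factorial) x := by
  have h1 : HasDerivAt (fun x : ℝ => Real.exp (-x)) (-Real.exp (-x)) x := by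
    have h2 := (hasDerivAt_neg x).exp
    convert h2 using 1
    ring
  exact (h1.mul (hasDerivAt_pow j x)).div_const _

lemma deriv_le (j : ℕ) (x : ℝ) (hx : 0 ≤ x) :
    |(-Real.exp (-x) * x ^ j + Real.exp (-x) * (j * x ^ (j - 1))) / j.factorial| ≤ 1 := by
  have h1 := pois_le_one j x hx
  have h2 := pois_nonneg j x hx
  have e : (-Real.exp (-x) * x ^ j + Real.exp (-x) * (j * x ^ (j - 1))) / j.factorial =
      Real.exp (-x) * (j * x ^ (j - 1)) / j.factorial - Real.exp (-x) * x ^ j / j.factorial := by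
    ring
  rw [e]
  rcases j with _ | j
  · have e2 : Real.exp (-x) * (((0:ℕ) : ℝ) * x ^ (0 - 1)) / ((0:ℕ).factorial : ℝ) = 0 := by simp
    rw [e2, abs_le]
    constructor <;> linarith
  · have h3 := pois_le_one j x hx
    have h4 := pois_nonneg j x hx
    have e2 : Real.exp (-x) * (((j + 1 : ℕ) : ℝ) * x ^ (j + 1 - 1)) / ((j + 1).factorial : ℝ) =
        Real.exp (-x) * x ^ j / j.factorial := by
      rw [Nat.add_sub_cancel, Nat.factorial_succ]
      have h5 : ((j + 1 : ℕ) : ℝ) ≠ 0 := by positivity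
      have h6 : (j.factorial : ℝ) ≠ 0 := by positivity
      rw [Nat.cast_mul]
      field_simp
    rw [e2, abs_le]
    constructor <;> linarith

lemma desc_two (n : ℕ) : ((n.descFactorial 2 : ℕ) : ℝ) = (n:ℝ) ^ 2 - n := by
  rcases n with _ | n
  · simp
  · rw [Nat.succ_descFactorial_succ, Nat.descFactorial_one]
    push_cast
    ring

end PoiAAux

open PoiAAux

/-- Module PoiA (a): Poisson probabilities are 1-Lipschitz in the mean. -/
theorem pois_lip (j : ℕ) (x y : ℝ) (hx : 0 ≤ x) (hy : 0 ≤ y) :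
    |Real.exp (-x) * x ^ j / j.factorial - Real.exp (-y) * y ^ j / j.factorial| ≤ |x - y| := by
  have h := Convex.norm_image_sub_le_of_norm_hasDerivWithin_le
    (f := fun x : ℝ => Real.exp (-x) * x ^ j / j.factorial)
    (f' := fun x : ℝ => (-Real.exp (-x) * x ^ j + Real.exp (-x) * (j * x ^ (j - 1))) / j.factorial)
    (s := Set.Ici (0:ℝ)) (C := 1) (x := y) (y := x)
    (fun z _ => (hasDeriv j z).hasDerivWithinAt)
    (fun z hz => by rw [Real.norm_eq_abs]; exact deriv_le j z hz) (convex_Ici 0) hy hx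
  rw [Real.norm_eq_abs, Real.norm_eq_abs, one_mul] at h
  exact h

/-- Module PoiA (b): they are small for a large mean. -/
theorem pois_large (J : ℕ) (ε : ℝ) (hε : 0 < ε) : ∃ Λ : ℝ, 0 < Λ ∧ ∀ j : ℕ, j ≤ J → ∀ x : ℝ,
    Λ ≤ x → Real.exp (-x) * x ^ j / j.factorial ≤ ε := by
  refine ⟨(J + 1) / ε, by positivity, ?_⟩
  intro j hj x hx
  have hx0 : 0 < x := lt_of_lt_of_le (by positivity) hx
  have h1 := pois_le_one (j + 1) x hx0.le
  have h2 : Real.exp (-x) * x ^ j / j.factorial =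
      (Real.exp (-x) * x ^ (j + 1) / (j + 1).factorial) * ((j + 1) / x) := by
    rw [Nat.factorial_succ, Nat.cast_mul, pow_succ]
    have h5 : ((j + 1 : ℕ) : ℝ) ≠ 0 := by positivity
    have h6 : (j.factorial : ℝ) ≠ 0 := by positivity
    push_cast at h5 ⊢
    field_simp
  rw [h2]
  have h3 : ((j:ℝ) + 1) / x ≤ ε := by
    rw [div_le_iff₀ hx0]
    rw [div_le_iff₀ hε] at hx
    have : (j:ℝ) ≤ J := by exact_mod_cast hj
    linarith
  calc (Real.exp (-x) * x ^ (j + 1) / (j + 1).factorial) * ((j + 1) / x)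
      ≤ 1 * ((j + 1) / x) := mul_le_mul_of_nonneg_right h1 (by positivity)
    _ ≤ ε := by rw [one_mul]; exact h3

/-- Module PoiA (c): Chebyshev from the first two factorial moments. -/
theorem cheb (η : ℝ) (hη : 0 < η) : ∃ K δ : ℝ, 0 < K ∧ 0 < δ ∧ ∀ (ι : Type) (H : Finset ι)
    (Z : ι → ℕ) (l : ℝ), K ≤ l → (∀ k : ℕ, 1 ≤ k → k ≤ 2 →
      |∑ h ∈ H, ((Z h).descFactorial k : ℝ) - l ^ k * H.card| ≤ δ * (l ^ k * H.card)) →
    ((H.filter (fun h => η * l < |(Z h : ℝ) - l|)).card : ℝ) ≤ η * H.card := by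
  refine ⟨4 / η ^ 3, min 1 (η ^ 3 / 6), by positivity, lt_min one_pos (by positivity), ?_⟩
  intro ι H Z l hl hmom
  set δ : ℝ := min 1 (η ^ 3 / 6) with hδ
  have hδ0 : 0 < δ := lt_min one_pos (by positivity)
  have hδ1 : δ ≤ 1 := min_le_left _ _
  have hδ2 : δ ≤ η ^ 3 / 6 := min_le_right _ _
  have hη3 : 0 < η ^ 3 := by positivity
  have hl0 : 0 < l := lt_of_lt_of_le (by positivity) hl
  have hc0 : (0:ℝ) ≤ H.card := Nat.cast_nonneg _
  have h1 := abs_le.1 (hmom 1 le_rfl (by norm_num))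
  have h2 := abs_le.1 (hmom 2 (by norm_num) le_rfl)
  have e1 : ∑ h ∈ H, ((Z h).descFactorial 1 : ℝ) = ∑ h ∈ H, (Z h : ℝ) :=
    Finset.sum_congr rfl fun h _ => by rw [Nat.descFactorial_one]
  have e2 : ∑ h ∈ H, ((Z h).descFactorial 2 : ℝ) = ∑ h ∈ H, ((Z h : ℝ) ^ 2 - Z h) :=
    Finset.sum_congr rfl fun h _ => desc_two _
  rw [e1] at h1
  rw [e2, Finset.sum_sub_distrib] at h2
  rw [pow_one] at h1
  have hvar : ∑ h ∈ H, ((Z h : ℝ) - l) ^ 2 =
      ∑ h ∈ H, (Z h : ℝ) ^ 2 - 2 * l * ∑ h ∈ H, (Z h : ℝ) + l ^ 2 * H.card := by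
    have : ∀ h ∈ H, ((Z h : ℝ) - l) ^ 2 = (Z h : ℝ) ^ 2 - 2 * l * Z h + l ^ 2 := fun h _ => by ring
    rw [Finset.sum_congr rfl this, Finset.sum_add_distrib, Finset.sum_sub_distrib, ← Finset.mul_sum,
      Finset.sum_const, nsmul_eq_mul]
    ring
  have hK : 4 ≤ l * η ^ 3 := by
    rw [div_le_iff₀ hη3] at hl
    exact hl
  set S1 := ∑ h ∈ H, (Z h : ℝ) with hS1
  set S2 := ∑ h ∈ H, (Z h : ℝ) ^ 2 with hS2
  have hub : ∑ h ∈ H, ((Z h : ℝ) - l) ^ 2 ≤ η ^ 3 * (l ^ 2 * H.card) := by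
    rw [hvar]
    have a1 : S2 ≤ S1 + l ^ 2 * H.card + δ * (l ^ 2 * H.card) := by linarith [h2.2]
    have a2 : l * H.card - δ * (l * H.card) ≤ S1 := by linarith [h1.1]
    have a3 : S1 ≤ l * H.card + δ * (l * H.card) := by linarith [h1.2]
    have a4 : 2 * l * (l * H.card - δ * (l * H.card)) ≤ 2 * l * S1 :=
      mul_le_mul_of_nonneg_left a2 (by linarith)
    have a5 : S2 - 2 * l * S1 + l ^ 2 * H.card ≤ 3 * δ * (l ^ 2 * H.card) + 2 * (l * H.card) := by
      have a6 : δ * (l * H.card) ≤ l * H.card := by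
        have : 0 ≤ l * (H.card : ℝ) := by positivity
        nlinarith
      nlinarith
    have a7 : 3 * δ * (l ^ 2 * H.card) ≤ η ^ 3 / 2 * (l ^ 2 * H.card) :=
      mul_le_mul_of_nonneg_right (by linarith) (by positivity)
    have a8 : 2 * (l * (H.card:ℝ)) ≤ η ^ 3 / 2 * (l ^ 2 * H.card) := by
      have a9 : 0 ≤ l * (H.card : ℝ) := by positivity
      calc 2 * (l * (H.card:ℝ)) = (4 / 2) * (l * H.card) := by ring
        _ ≤ (l * η ^ 3 / 2) * (l * H.card) := by gcongr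
        _ = η ^ 3 / 2 * (l ^ 2 * H.card) := by ring
    linarith
  have hmk : ((H.filter (fun h => η * l < |(Z h : ℝ) - l|)).card : ℝ) * (η * l) ^ 2 ≤
      ∑ h ∈ H, ((Z h : ℝ) - l) ^ 2 := by
    rw [← nsmul_eq_mul, ← Finset.sum_const]
    refine le_trans (Finset.sum_le_sum fun h hh => ?_)
      (Finset.sum_le_sum_of_subset_of_nonneg (Finset.filter_subset _ H) fun _ _ _ => sq_nonneg _)
    have h3 := (mem_filter.1 hh).2
    rw [← sq_abs ((Z h : ℝ) - l)]
    exact pow_le_pow_left₀ (by positivity) h3.le 2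
  have h4 : ((H.filter (fun h => η * l < |(Z h : ℝ) - l|)).card : ℝ) * (η * l) ^ 2 ≤
      (η * H.card) * (η * l) ^ 2 := by
    refine (hmk.trans hub).trans (le_of_eq ?_)
    ring
  exact le_of_mul_le_mul_right h4 (by positivity)

end Pool.Agent.Lib.LEN
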