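import Pool.Agent.Lib.LEN.Pois
import Pool.Agent.Lib.LEN.PoiA

/-!
# LEN.FinB: one class: concentration and the Poisson law from the factorial moments
-/

set_option autoImplicit false

open Finset Filter

namespace Pool.Agent.Lib.LEN

namespace FinBAux

lemma pi_nonneg (x : ℝ) (hx : 0 ≤ x) (j : ℕ) : 0 ≤ Real.exp (-x) * x ^ j / j.factorial := by
  positivity

lemma pi_le_one (x : ℝ) (hx : 0 ≤ x) (j : ℕ) : Real.exp (-x) * x ^ j / j.factorial ≤ 1 := by
  have h1 : x ^ j / j.factorial ≤ Real.exp x := Real.pow_div_factorial_le_exp x hx j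
  have h2 : Real.exp (-x) * Real.exp x = 1 := by rw [← Real.exp_add]; simp
  calc Real.exp (-x) * x ^ j / j.factorial = Real.exp (-x) * (x ^ j / j.factorial) := by ring
    _ ≤ Real.exp (-x) * Real.exp x := mul_le_mul_of_nonneg_left h1 (Real.exp_pos _).le
    _ = 1 := h2

end FinBAux

open FinBAux

open scoped Classical in
theorem one_class (J : ℕ) (Λ ε : ℝ) (hΛ : 1 ≤ Λ) (hε : 0 < ε) (hε1 : ε ≤ 1 / 4) :
    ∃ (k0 : ℕ) (δ K : ℝ),
    2 ≤ k0 ∧ 0 < δ ∧ δ ≤ ε ∧ 1 ≤ K ∧ ∀ (ι : Type) (H : Finset ι) (Z : ι → ℕ) (q : ι → ℝ)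
    (A : ι → Prop) (l : ℝ), 0 ≤ l → (∀ h ∈ H, A h → 0 ≤ q h) →
    (∀ k : ℕ, 1 ≤ k → k ≤ k0 →
      |∑ h ∈ H, ((Z h).descFactorial k : ℝ) - l ^ k * H.card| ≤ δ * (l ^ k * H.card)) →
    ((H.filter (fun h => ¬ (A h ∧ |q h - l| ≤ δ * l))).card : ℝ) ≤ δ * H.card →
    (K ≤ l → ((H.filter (fun h => A h ∧ ε * q h < |(Z h : ℝ) - q h|)).card : ℝ) ≤ ε * H.card) ∧
    (((H.filter (fun h => A h ∧ 2 * K ≤ q h ∧ ε * q h < |(Z h : ℝ) - q h|)).card : ℝ) ≤
      ε * H.card) ∧
    (((H.filter (fun h => A h ∧ q h ≤ 1 / (2 * K) ∧ 1 ≤ Z h)).card : ℝ) ≤ ε * H.card) ∧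
    (l ≤ Λ → ∀ j : ℕ, j ≤ J → |((H.filter (fun h => Z h = j)).card : ℝ) -
      Real.exp (-l) * l ^ j / j.factorial * H.card| ≤ ε * H.card) := by
  obtain ⟨K1, δ1, hK1, hδ1, hcheb⟩ := cheb (ε / 8) (by positivity)
  obtain ⟨k1, δ2, hδ2, hpois⟩ := pois Λ ε J (by linarith) hε
  set k0 : ℕ := max 2 k1 with hk0
  set δ : ℝ := min δ1 (min (δ2 / Λ ^ k0) (ε / 8)) with hδdef
  have hΛk : 0 < Λ ^ k0 := by positivity
  have hd1 : δ ≤ δ1 := min_le_left _ _
  have hd2 : δ ≤ δ2 / Λ ^ k0 := (min_le_right _ _).trans (min_le_left _ _)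
  have hd4 : δ ≤ ε / 8 := (min_le_right _ _).trans (min_le_right _ _)
  have hδ0 : 0 < δ := lt_min hδ1 (lt_min (by positivity) (by positivity))
  set K : ℝ := max K1 (2 / ε) with hKdef
  have hK1' : K1 ≤ K := le_max_left _ _
  have hKε : 2 / ε ≤ K := le_max_right _ _
  have hK1one : 1 ≤ K := by
    refine le_trans ?_ hKε
    rw [le_div_iff₀ hε]
    linarith
  have hKε' : 2 ≤ ε * K := by
    rw [div_le_iff₀ hε] at hKε
    linarith
  refine ⟨k0, δ, K, le_max_left _ _, hδ0, by linarith, hK1one, ?_⟩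
  intro ι H Z q A l hl hq hmom hbad
  set bad := H.filter (fun h => ¬ (A h ∧ |q h - l| ≤ δ * l)) with hbaddef
  have hH0 : (0 : ℝ) ≤ H.card := Nat.cast_nonneg _
  have hδH : δ * H.card ≤ ε / 8 * H.card := mul_le_mul_of_nonneg_right hd4 hH0
  have hεH : 0 ≤ ε * H.card := by positivity
  -- Chebyshev
  have hC : K1 ≤ l → ((H.filter (fun h => ε / 8 * l < |(Z h : ℝ) - l|)).card : ℝ) ≤
      ε / 8 * H.card := by
    intro hKl
    refine hcheb ι H Z l hKl fun k hk1 hk2 => ?_
    refine (hmom k hk1 (hk2.trans (le_max_left _ _))).trans ?_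
    exact mul_le_mul_of_nonneg_right hd1 (by positivity)
  have hc1 : K ≤ l → ((H.filter (fun h => A h ∧ ε * q h < |(Z h : ℝ) - q h|)).card : ℝ) ≤
      ε * H.card := by
    intro hKl
    have hKl1 : K1 ≤ l := hK1'.trans hKl
    have hl1 : 1 ≤ l := hK1one.trans hKl
    have hsub : H.filter (fun h => A h ∧ ε * q h < |(Z h : ℝ) - q h|) ⊆
        H.filter (fun h => ε / 8 * l < |(Z h : ℝ) - l|) ∪ bad := by
      intro h hh
      rw [mem_filter] at hh
      rw [mem_union, mem_filter, hbaddef, mem_filter]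
      by_contra hcon
      rw [not_or, not_and, not_and, not_not, not_lt] at hcon
      obtain ⟨h1, h2⟩ := hcon
      have h1 := h1 hh.1
      have h2 := (h2 hh.1).2
      have h3 : |(Z h : ℝ) - q h| ≤ |(Z h : ℝ) - l| + |q h - l| := by
        have := abs_sub_le (Z h : ℝ) l (q h)
        rwa [abs_sub_comm l (q h)] at this
      have h4 := (abs_le.1 h2).1
      have h5 := hh.2.2
      have h6 : δ * l ≤ ε / 8 * l := mul_le_mul_of_nonneg_right hd4 hl
      have h7 : ε / 8 * l ≤ 1 / 32 * l := mul_le_mul_of_nonneg_right (by linarith) hl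
      have h8 : 31 / 32 * l ≤ q h := by linarith
      have h9 : ε * (31 / 32 * l) ≤ ε * q h := mul_le_mul_of_nonneg_left h8 hε.le
      have h10 : 0 < ε * l := by positivity
      linarith
    have h1 : ((H.filter (fun h => A h ∧ ε * q h < |(Z h : ℝ) - q h|)).card : ℝ) ≤
        (H.filter (fun h => ε / 8 * l < |(Z h : ℝ) - l|)).card + bad.card := by
      exact_mod_cast (card_le_card hsub).trans (card_union_le _ _)
    have h2 := hC hKl1
    linarith
  refine ⟨hc1, ?_, ?_, ?_⟩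
  · by_cases hKl : K ≤ l
    · refine le_trans ?_ (hc1 hKl)
      have : H.filter (fun h => A h ∧ 2 * K ≤ q h ∧ ε * q h < |(Z h : ℝ) - q h|) ⊆
          H.filter (fun h => A h ∧ ε * q h < |(Z h : ℝ) - q h|) := by
        intro h hh
        rw [mem_filter] at hh ⊢
        exact ⟨hh.1, hh.2.1, hh.2.2.2⟩
      exact_mod_cast card_le_card this
    · rw [not_le] at hKl
      have hsub : H.filter (fun h => A h ∧ 2 * K ≤ q h ∧ ε * q h < |(Z h : ℝ) - q h|) ⊆
          bad := by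
        intro h hh
        rw [mem_filter] at hh
        rw [hbaddef, mem_filter]
        refine ⟨hh.1, fun hcon => ?_⟩
        have h2 := (abs_le.1 hcon.2).2
        have h3 := hh.2.2.1
        have h4 : δ * l ≤ 1 * l := mul_le_mul_of_nonneg_right (by linarith) hl
        linarith
      have h1 : ((H.filter (fun h => A h ∧ 2 * K ≤ q h ∧
          ε * q h < |(Z h : ℝ) - q h|)).card : ℝ) ≤ bad.card := by
        exact_mod_cast card_le_card hsub
      linarith
  · have hK0 : 0 < K := by linarith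
    by_cases hlε : l ≤ ε / 2
    · -- first moment
      have h1 := (abs_le.1 (hmom 1 le_rfl (le_trans (by norm_num) (le_max_left 2 k1)))).2
      simp only [Nat.descFactorial_one, pow_one] at h1
      have h2 : ((H.filter (fun h => A h ∧ q h ≤ 1 / (2 * K) ∧ 1 ≤ Z h)).card : ℝ) ≤
          ∑ h ∈ H, (Z h : ℝ) := by
        have h3 : ((H.filter (fun h => A h ∧ q h ≤ 1 / (2 * K) ∧ 1 ≤ Z h)).card : ℝ) =
            ∑ h ∈ H, (if A h ∧ q h ≤ 1 / (2 * K) ∧ 1 ≤ Z h then (1 : ℝ) else 0) := by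
          rw [← sum_filter, sum_const, nsmul_eq_mul, mul_one]
        rw [h3]
        refine sum_le_sum fun h _ => ?_
        split_ifs with hc
        · exact_mod_cast hc.2.2
        · exact Nat.cast_nonneg _
      have h3 : l * H.card ≤ ε / 2 * H.card := mul_le_mul_of_nonneg_right hlε hH0
      have h4 : δ * (l * H.card) ≤ 1 * (l * H.card) :=
        mul_le_mul_of_nonneg_right (by linarith) (by positivity)
      linarith
    · rw [not_le] at hlε
      have hsub : H.filter (fun h => A h ∧ q h ≤ 1 / (2 * K) ∧ 1 ≤ Z h) ⊆ bad := by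
        intro h hh
        rw [mem_filter] at hh
        rw [hbaddef, mem_filter]
        refine ⟨hh.1, fun hcon => ?_⟩
        have h2 := (abs_le.1 hcon.2).1
        have h3 := hh.2.2.1
        have h4 : δ * l ≤ 1 / 32 * l := mul_le_mul_of_nonneg_right (by linarith) hl
        have h5 : 1 / (2 * K) ≤ ε / 4 := by
          rw [div_le_iff₀ (by positivity)]
          linarith
        linarith
      have h1 : ((H.filter (fun h => A h ∧ q h ≤ 1 / (2 * K) ∧ 1 ≤ Z h)).card : ℝ) ≤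
          bad.card := by
        exact_mod_cast card_le_card hsub
      linarith
  · intro hlΛ j hj
    refine hpois ι H Z l hl hlΛ (fun k hk1 hk2 => ?_) j hj
    refine (hmom k hk1 (hk2.trans (le_max_right _ _))).trans ?_
    have h1 : l ^ k ≤ Λ ^ k0 := by
      calc l ^ k ≤ Λ ^ k := pow_le_pow_left₀ hl hlΛ k
        _ ≤ Λ ^ k0 := pow_le_pow_right₀ hΛ (hk2.trans (le_max_right _ _))
    have h2 : δ * l ^ k ≤ δ2 := by
      calc δ * l ^ k ≤ δ * Λ ^ k0 := mul_le_mul_of_nonneg_left h1 hδ0.le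
        _ ≤ δ2 / Λ ^ k0 * Λ ^ k0 := mul_le_mul_of_nonneg_right hd2 hΛk.le
        _ = δ2 := by field_simp
    calc δ * (l ^ k * H.card) = δ * l ^ k * H.card := by ring
      _ ≤ δ2 * H.card := mul_le_mul_of_nonneg_right h2 hH0

end Pool.Agent.Lib.LEN
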