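import Pool.Agent.Lib.LEN.GMertU

/-!
# LEN.GMertL: the lower bound `mert_low` is proved in `Pool.Agent.Lib.LEN.GMertU`
-/

set_option autoImplicit false
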