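import Pool.Agent.Lib.LEN.GDefs
import Pool.Agent.Lib.LEN.GMertL

/-!
# LEN.GLow: the singular series from below, for a tuple with many missed classes

`SZ_le_SI` with `z = 2 r^2`; `Y = ⌊K r⌋`; the primes `p ≤ Y` give `∏ (1 - ν_p/p) * (DZ Y)⁻¹ ^ r`; `p < δ r`:
`1 - ν_p/p ≥ 1/p`, the product is `≥ 4^(-δ r)`; `δ r ≤ p ≤ K r`: `1 - ν_p/p ≥ c1/K`, and there are `O(r / log r)`
such primes; `p > K r`: `locI h p ≥ 1 - (r/p)^2`, the product is `≥ exp (-4 r / K)`; `mert_low`.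
-/

set_option autoImplicit false

open Finset Filter

namespace Pool.Agent.Lib.LEN

open Pool.Agent.HLB Pool.Agent.HLT Pool.Agent.HLR Pool.Agent.Lib.GMV

namespace GLowAux

lemma exp_le {x : ℝ} (h0 : 0 ≤ x) (h1 : x ≤ 1 / 2) : Real.exp (-(2 * x)) ≤ 1 - x := by
  have h2 : 0 < 1 - x := by linarith
  have h3 := Real.one_sub_inv_le_log_of_pos h2
  have h4 : -(2 * x) ≤ Real.log (1 - x) := by
    refine le_trans ?_ h3
    have h5 : (1 - x)⁻¹ ≤ 1 + 2 * x := by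
      rw [inv_le_iff_one_le_mul₀ h2]
      nlinarith
    linarith
  calc Real.exp (-(2 * x)) ≤ Real.exp (Real.log (1 - x)) := Real.exp_le_exp.2 h4
    _ = 1 - x := Real.exp_log h2

/-- the factor of the primes `p ≤ Y` -/
lemma prod_loc {r : ℕ} (h : Fin r → ℕ) (Y : ℕ) : ∏ p ∈ Nat.primesLE Y, locI h p =
    (∏ p ∈ Nat.primesLE Y, (1 - (nuI h p : ℝ) / (p : ℝ))) * (DZ Y)⁻¹ ^ r := by
  unfold locI DZ
  rw [Fintype.card_fin, Finset.prod_mul_distrib, Finset.prod_pow, ← Finset.prod_inv_distrib]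

/-- the primes below `δ r` -/
lemma small {r : ℕ} {h : Fin r → ℕ} (hA : Adm h) {x : ℝ} (hx : 0 ≤ x) (Y : ℕ) :
    Real.exp (-(Real.log 4 * x)) ≤ ∏ p ∈ (Nat.primesLE Y).filter (fun p : ℕ => (p : ℝ) < x),
      (1 - (nuI h p : ℝ) / (p : ℝ)) := by
  have h1 : ∏ p ∈ (Nat.primesLE Y).filter (fun p : ℕ => (p : ℝ) < x), ((p : ℝ))⁻¹ ≤
      ∏ p ∈ (Nat.primesLE Y).filter (fun p : ℕ => (p : ℝ) < x), (1 - (nuI h p : ℝ) / (p : ℝ)) := by
    refine Finset.prod_le_prod (fun p _ => by positivity) fun p hp => ?_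
    rw [Finset.mem_filter, Nat.mem_primesLE] at hp
    have hp0 : (0 : ℝ) < p := by exact_mod_cast hp.1.2.pos
    have h2 : (nuI h p : ℝ) + 1 ≤ p := by exact_mod_cast hA.2 p hp.1.2
    rw [inv_eq_one_div, le_sub_iff_add_le, ← add_div, div_le_one hp0]
    linarith
  refine le_trans ?_ h1
  rw [Finset.prod_inv_distrib, Real.exp_neg]
  have h3 : (0 : ℝ) < ∏ p ∈ (Nat.primesLE Y).filter (fun p : ℕ => (p : ℝ) < x), (p : ℝ) :=
    Finset.prod_pos fun p hp => by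
      rw [Finset.mem_filter, Nat.mem_primesLE] at hp
      exact_mod_cast hp.1.2.pos
  rw [inv_le_inv₀ (Real.exp_pos _) h3]
  have h4 : ∏ p ∈ (Nat.primesLE Y).filter (fun p : ℕ => (p : ℝ) < x), (p : ℝ) ≤ (PP ⌊x⌋₊ : ℝ) := by
    unfold PP
    push_cast
    refine Finset.prod_le_prod_of_subset_of_one_le ?_ (fun p _ => by positivity) ?_
    · intro p hp
      rw [Finset.mem_filter, Nat.mem_primesLE] at hp
      exact Nat.mem_primesLE.2 ⟨Nat.le_floor hp.2.le, hp.1.2⟩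
    · intro p hp _
      exact_mod_cast (Nat.mem_primesLE.1 hp).2.one_le
  refine h4.trans ?_
  have h5 : (PP ⌊x⌋₊ : ℝ) ≤ (4 : ℝ) ^ ⌊x⌋₊ := by exact_mod_cast Cls0.PP_le ⌊x⌋₊
  refine h5.trans ?_
  have h6 : (4 : ℝ) ^ ⌊x⌋₊ = Real.exp (⌊x⌋₊ * Real.log 4) := by
    rw [Real.exp_nat_mul, Real.exp_log (by norm_num)]
  rw [h6]
  refine Real.exp_le_exp.2 ?_
  rw [mul_comm]
  exact mul_le_mul_of_nonneg_left (Nat.floor_le hx) (Real.log_nonneg (by norm_num))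

/-- the primes in `[δ r, K r]` -/
lemma mid {δ K c : ℝ} (hc : 0 < c) (hc1 : c ≤ 1) (hK : 1 ≤ K) {r : ℕ} (hr : 0 < r) {h : Fin r → ℕ}
    (hR : Rich δ K c h) {Y : ℕ} (hY : (Y : ℝ) ≤ K * r) :
    (c / K) ^ (Nat.primeCounting Y) ≤
      ∏ p ∈ (Nat.primesLE Y).filter (fun p : ℕ => ¬ (p : ℝ) < δ * r),
        (1 - (nuI h p : ℝ) / (p : ℝ)) := by
  have hK0 : 0 < K := by linarith
  have hr0 : (0 : ℝ) < r := by exact_mod_cast hr
  have hcK : c / K ≤ 1 := by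
    rw [div_le_one hK0]
    linarith
  have h1 : ((Nat.primesLE Y).filter (fun p : ℕ => ¬ (p : ℝ) < δ * r)).card ≤
      Nat.primeCounting Y := by
    rw [← Nat.primesLE_card_eq_primeCounting]
    exact Finset.card_filter_le _ _
  calc (c / K) ^ (Nat.primeCounting Y) ≤
        (c / K) ^ ((Nat.primesLE Y).filter (fun p : ℕ => ¬ (p : ℝ) < δ * r)).card :=
        pow_le_pow_of_le_one (by positivity) hcK h1
    _ = ∏ _p ∈ (Nat.primesLE Y).filter (fun p : ℕ => ¬ (p : ℝ) < δ * r), c / K := by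
        rw [Finset.prod_const]
    _ ≤ _ := by
        refine Finset.prod_le_prod (fun p _ => by positivity) fun p hp => ?_
        rw [Finset.mem_filter, Nat.mem_primesLE, not_lt] at hp
        have hp0 : (0 : ℝ) < p := by exact_mod_cast hp.1.2.pos
        have hpY : (p : ℝ) ≤ K * r := le_trans (by exact_mod_cast hp.1.1) hY
        have h2 := hR p hp.1.2 hp.2 hpY
        have h3 : 1 - (nuI h p : ℝ) / (p : ℝ) = ((p : ℝ) - nuI h p) / p := by
          field_simp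
        rw [h3, div_le_div_iff₀ hK0 hp0]
        calc c * p ≤ c * (K * r) := mul_le_mul_of_nonneg_left hpY hc.le
          _ = c * r * K := by ring
          _ ≤ _ := mul_le_mul_of_nonneg_right h2 hK0.le

/-- the large primes -/
lemma large {r : ℕ} (h : Fin r → ℕ) {Y : ℕ} (hY1 : 1 ≤ Y) (hY : 2 * r ≤ Y) (S : Finset ℕ)
    (hS : ∀ p ∈ S, p.Prime ∧ Y < p) :
    Real.exp (-(2 * (r : ℝ) ^ 2 / Y)) ≤ ∏ p ∈ S, locI h p := by
  have h1 : ∀ p ∈ S, Real.exp (-(2 * ((r : ℝ) ^ 2 * ((p : ℝ) ^ 2)⁻¹))) ≤ locI h p := by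
    intro p hp
    obtain ⟨hp1, hp2⟩ := hS p hp
    have hp0 : (0 : ℝ) < p := by exact_mod_cast hp1.pos
    have h2 := Pool.Agent.HLT.locI_ge h hp1 (by rw [Fintype.card_fin]; omega)
    rw [Fintype.card_fin] at h2
    refine (exp_le (by positivity) ?_).trans h2
    have h3 : 2 * (r : ℝ) ≤ p := by exact_mod_cast (by omega : 2 * r ≤ p)
    rw [← div_eq_mul_inv, div_le_div_iff₀ (by positivity) two_pos]
    have hr0 : (0 : ℝ) ≤ r := Nat.cast_nonneg r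
    nlinarith
  calc Real.exp (-(2 * (r : ℝ) ^ 2 / Y))
      ≤ Real.exp (∑ p ∈ S, -(2 * ((r : ℝ) ^ 2 * ((p : ℝ) ^ 2)⁻¹))) := by
        refine Real.exp_le_exp.2 ?_
        rw [Finset.sum_neg_distrib, neg_le_neg_iff]
        have h2 := sum_inv_sq_le S Y hY1 fun p hp => (hS p hp).2
        calc ∑ p ∈ S, 2 * ((r : ℝ) ^ 2 * ((p : ℝ) ^ 2)⁻¹) =
              2 * (r : ℝ) ^ 2 * ∑ p ∈ S, ((p : ℝ) ^ 2)⁻¹ := by
              rw [Finset.mul_sum]
              exact Finset.sum_congr rfl fun p _ => by ring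
          _ ≤ 2 * (r : ℝ) ^ 2 * (Y : ℝ)⁻¹ := mul_le_mul_of_nonneg_left h2 (by positivity)
          _ = 2 * (r : ℝ) ^ 2 / Y := by rw [div_eq_mul_inv]
    _ = ∏ p ∈ S, Real.exp (-(2 * ((r : ℝ) ^ 2 * ((p : ℝ) ^ 2)⁻¹))) := Real.exp_sum _ _
    _ ≤ _ := Finset.prod_le_prod (fun p _ => (Real.exp_pos _).le) h1

end GLowAux

open GLowAux

/-- Module GLow. -/
theorem si_lower (ε : ℝ) (hε : 0 < ε) (hε1 : ε < eg) : ∃ δ K : ℝ, 0 < δ ∧ 1 ≤ K ∧
    ∀ c1 : ℝ, 0 < c1 → ∃ r0 : ℕ, ∀ r : ℕ, r0 ≤ r → ∀ h : Fin r → ℕ, Adm h → Rich δ K c1 h →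
    ((eg - ε) * Real.log r) ^ r ≤ SI h := by
  have hb : 0 < eg - ε := by linarith
  obtain ⟨ρ, hρ⟩ : ∃ ρ : ℝ, ρ = (eg - ε / 2) / (eg - ε) := ⟨_, rfl⟩
  have hρ1 : 1 < ρ := by
    rw [hρ, one_lt_div hb]
    linarith
  obtain ⟨τ, hτd⟩ : ∃ τ : ℝ, τ = Real.log ρ / 4 := ⟨_, rfl⟩
  have hτ : 0 < τ := by
    rw [hτd]
    have := Real.log_pos hρ1
    positivity
  have hl4 : 0 < Real.log 4 := Real.log_pos (by norm_num)
  obtain ⟨z0, hz0⟩ := mert_low (ε / 2) (half_pos hε)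
  refine ⟨τ / Real.log 4, max 2 (4 / τ), by positivity, (by norm_num : (1 : ℝ) ≤ 2).trans
    (le_max_left _ _), ?_⟩
  obtain ⟨δ, hδ⟩ : ∃ δ : ℝ, δ = τ / Real.log 4 := ⟨_, rfl⟩
  obtain ⟨K, hK⟩ : ∃ K : ℝ, K = max 2 (4 / τ) := ⟨_, rfl⟩
  rw [← hδ, ← hK]
  intro c1 hc1
  obtain ⟨c, hc⟩ : ∃ c : ℝ, c = min c1 1 := ⟨_, rfl⟩
  have hc0 : 0 < c := by rw [hc]; exact lt_min hc1 one_pos
  have hc1' : c ≤ 1 := by rw [hc]; exact min_le_right _ _
  have hK2 : 2 ≤ K := by rw [hK]; exact le_max_left _ _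
  have hKτ : 4 / τ ≤ K := by rw [hK]; exact le_max_right _ _
  have hK0 : 0 < K := by linarith
  have hδ0 : 0 < δ := by rw [hδ]; positivity
  obtain ⟨Λ, hΛ⟩ : ∃ Λ : ℝ, Λ = Real.log (K / c) := ⟨_, rfl⟩
  have hΛ0 : 0 < Λ := by
    rw [hΛ]
    refine Real.log_pos ?_
    rw [one_lt_div hc0]
    linarith
  -- the number of primes
  have hKr : Tendsto (fun r : ℕ => K * (r : ℝ)) atTop atTop :=
    Tendsto.const_mul_atTop hK0 tendsto_natCast_atTop_atTop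
  have hlogKr : Tendsto (fun r : ℕ => Real.log (K * (r : ℝ))) atTop atTop :=
    Real.tendsto_log_atTop.comp hKr
  have hev := (((hKr.eventually (Chebyshev.eventually_primeCounting_le (ε := 1) one_pos)).and
    (hlogKr.eventually_ge_atTop ((Real.log 4 + 1) * K * Λ / τ))).and
    ((hlogKr.eventually_ge_atTop 1).and (eventually_ge_atTop (max z0 (⌈K⌉₊ + 1)))))
  obtain ⟨r1, hr1⟩ := eventually_atTop.1 hev
  obtain ⟨r2, hr2⟩ : ∃ r2 : ℕ, r2 = ⌈Real.log 2 / τ⌉₊ := ⟨_, rfl⟩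
  refine ⟨max r1 r2, ?_⟩
  intro r hr h hA hR
  obtain ⟨⟨e1, e2⟩, e3, e4⟩ := hr1 r ((le_max_left _ _).trans hr)
  have hrz : z0 ≤ r := (le_max_left _ _).trans e4
  have hrK : ⌈K⌉₊ + 1 ≤ r := (le_max_right _ _).trans e4
  have hrK' : K ≤ r := (Nat.le_ceil K).trans (by exact_mod_cast (by omega : ⌈K⌉₊ ≤ r))
  have hr0 : 0 < r := by omega
  have hr0' : (0 : ℝ) < r := by exact_mod_cast hr0
  have hr2' : Real.log 2 / τ ≤ r := (Nat.le_ceil _).trans (by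
    rw [← hr2]
    exact_mod_cast (le_max_right _ _).trans hr)
  obtain ⟨Y, hYd⟩ : ∃ Y : ℕ, Y = ⌊K * r⌋₊ := ⟨_, rfl⟩
  have hYle : (Y : ℝ) ≤ K * r := by rw [hYd]; exact Nat.floor_le (by positivity)
  have hY2 : 2 * r ≤ Y := by
    rw [hYd]
    refine Nat.le_floor ?_
    push_cast
    exact mul_le_mul_of_nonneg_right hK2 hr0'.le
  have hYge : K * r / 2 ≤ Y := by
    have h1 : K * r < (Y : ℝ) + 1 := by rw [hYd]; exact Nat.lt_floor_add_one _
    have h2 : (2 : ℝ) * 1 ≤ K * r := mul_le_mul hK2 (by exact_mod_cast hr0) (by norm_num) hK0.le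
    linarith
  have hY0 : 0 < Y := by omega
  have hY0' : (0 : ℝ) < Y := by exact_mod_cast hY0
  obtain ⟨z, hz⟩ : ∃ z : ℕ, z = 2 * r ^ 2 := ⟨_, rfl⟩
  have hYz : Y ≤ z := by
    have h1 : (Y : ℝ) ≤ (z : ℝ) := by
      rw [hz]
      push_cast
      nlinarith
    exact_mod_cast h1
  have hzr : r ≤ z := by omega
  have hz1 : 1 ≤ z := by omega
  have h1 := SZ_le_SI h hA.1 z hz1 (by rw [Fintype.card_fin]; exact hzr)
  rw [Fintype.card_fin] at h1
  have h2 : 1 - (r : ℝ) ^ 2 / z = 1 / 2 := by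
    rw [hz]
    push_cast
    field_simp
    norm_num
  rw [h2] at h1
  refine le_trans ?_ h1
  -- the splitting
  have h3 : SZ z h = (∏ p ∈ Nat.primesLE Y, locI h p) *
      ∏ p ∈ (Nat.primesLE z).filter (fun p => ¬ p ≤ Y), locI h p := by
    unfold SZ
    rw [← Finset.prod_filter_mul_prod_filter_not (Nat.primesLE z) (fun p => p ≤ Y)]
    congr 1
    refine Finset.prod_congr ?_ fun _ _ => rfl
    ext p
    rw [Finset.mem_filter, Nat.mem_primesLE, Nat.mem_primesLE]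
    constructor
    · rintro ⟨⟨_, h4⟩, h5⟩
      exact ⟨h5, h4⟩
    · rintro ⟨h4, h5⟩
      exact ⟨⟨h4.trans hYz, h5⟩, h4⟩
  have h4 := large h hY0 hY2 ((Nat.primesLE z).filter (fun p => ¬ p ≤ Y)) (by
    intro p hp
    rw [Finset.mem_filter, Nat.mem_primesLE, not_le] at hp
    exact ⟨hp.1.2, hp.2⟩)
  have h5 := small hA (x := δ * r) (by positivity) Y
  have h6 := mid hc0 hc1' (by linarith : 1 ≤ K) hr0 (h := h) (fun p hp hp1 hp2 => by
    refine le_trans ?_ (hR p hp hp1 hp2)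
    refine mul_le_mul_of_nonneg_right ?_ hr0'.le
    rw [hc]
    exact min_le_left _ _) hYle
  have h7 := hz0 Y (by omega)
  -- the four losses
  have g1 : Real.exp (-(τ * r)) ≤ 1 / 2 := by
    rw [div_le_iff₀ hτ] at hr2'
    calc Real.exp (-(τ * r)) ≤ Real.exp (-Real.log 2) := Real.exp_le_exp.2 (by linarith)
      _ = 1 / 2 := by rw [Real.exp_neg, Real.exp_log two_pos, one_div]
  have g2 : Real.exp (-(τ * r)) ≤ Real.exp (-(Real.log 4 * (δ * r))) := by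
    refine Real.exp_le_exp.2 (le_of_eq ?_)
    rw [hδ]
    field_simp
  have g3 : Real.exp (-(τ * r)) ≤ Real.exp (-(2 * (r : ℝ) ^ 2 / Y)) := by
    refine Real.exp_le_exp.2 (neg_le_neg ?_)
    rw [div_le_iff₀ hY0']
    rw [div_le_iff₀ hτ] at hKτ
    have h8 : τ * r * (K * r / 2) ≤ τ * r * Y := mul_le_mul_of_nonneg_left hYge (by positivity)
    have h9 : 4 * (r : ℝ) ^ 2 ≤ K * τ * (r : ℝ) ^ 2 := mul_le_mul_of_nonneg_right hKτ (by positivity)
    nlinarith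
  have g4 : Real.exp (-(τ * r)) ≤ (c / K) ^ (Nat.primeCounting Y) := by
    have h8 : (c / K) ^ (Nat.primeCounting Y) = Real.exp (-(Nat.primeCounting Y * Λ)) := by
      rw [← mul_neg, Real.exp_nat_mul, hΛ, ← Real.log_inv, inv_div, Real.exp_log (by positivity)]
    rw [h8]
    refine Real.exp_le_exp.2 (neg_le_neg ?_)
    have h9 : (Nat.primeCounting Y : ℝ) ≤ (Real.log 4 + 1) * (K * r) / Real.log (K * r) := by
      rw [hYd]
      exact e1
    have hL : 0 < Real.log (K * r) := by linarith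
    have h10 : (Real.log 4 + 1) * (K * r) / Real.log (K * r) * Λ ≤ τ * r := by
      rw [div_mul_eq_mul_div, div_le_iff₀ hL]
      rw [div_le_iff₀ hτ] at e2
      calc (Real.log 4 + 1) * (K * r) * Λ = (Real.log 4 + 1) * K * Λ * r := by ring
        _ ≤ Real.log (K * r) * τ * r := mul_le_mul_of_nonneg_right e2 hr0'.le
        _ = _ := by ring
    exact (mul_le_mul_of_nonneg_right h9 hΛ0.le).trans h10
  -- the main factor
  have g5 : ((eg - ε / 2) * Real.log r) ^ r ≤ (DZ Y)⁻¹ ^ r := by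
    have h8 : 0 ≤ Real.log r := Real.log_natCast_nonneg r
    refine pow_le_pow_left₀ (mul_nonneg (by linarith) h8) (le_trans ?_ h7) r
    refine mul_le_mul_of_nonneg_left ?_ (by linarith)
    exact Real.log_le_log hr0' (by exact_mod_cast (by omega : r ≤ Y))
  have g6 : ((eg - ε) * Real.log r) ^ r =
      ((eg - ε / 2) * Real.log r) ^ r * Real.exp (-(4 * (τ * r))) := by
    have h8 : Real.exp (-(4 * (τ * r))) = (ρ⁻¹) ^ r := by
      have h9 : -(4 * (τ * r)) = r * Real.log ρ⁻¹ := by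
        rw [hτd, Real.log_inv]
        ring
      rw [h9, Real.exp_nat_mul, Real.exp_log (by positivity)]
    rw [h8, ← mul_pow]
    congr 1
    rw [hρ]
    have h10 : eg - ε / 2 ≠ 0 := by
      have : 0 < eg - ε / 2 := by linarith
      exact this.ne'
    calc (eg - ε) * Real.log r = (eg - ε) / (eg - ε / 2) * (eg - ε / 2) * Real.log r := by
          rw [div_mul_cancel₀ _ h10]
      _ = _ := by
          rw [inv_div]
          ring
  have g7 : Real.exp (-(4 * (τ * r))) = Real.exp (-(τ * r)) * Real.exp (-(τ * r)) *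
      Real.exp (-(τ * r)) * Real.exp (-(τ * r)) := by
    rw [← Real.exp_add, ← Real.exp_add, ← Real.exp_add]
    congr 1
    ring
  have hM0 : 0 ≤ ((eg - ε / 2) * Real.log r) ^ r :=
    pow_nonneg (mul_nonneg (by linarith) (Real.log_natCast_nonneg r)) r
  have hE0 := (Real.exp_pos (-(τ * r))).le
  rw [g6, g7, h3, prod_loc, ← Finset.prod_filter_mul_prod_filter_not (Nat.primesLE Y)
    (fun p : ℕ => (p : ℝ) < δ * r)]
  set a1 := ∏ p ∈ (Nat.primesLE Y).filter (fun p : ℕ => (p : ℝ) < δ * r),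
    (1 - (nuI h p : ℝ) / (p : ℝ))
  set a2 := ∏ p ∈ (Nat.primesLE Y).filter (fun p : ℕ => ¬ (p : ℝ) < δ * r),
    (1 - (nuI h p : ℝ) / (p : ℝ))
  set a3 := ∏ p ∈ (Nat.primesLE z).filter (fun p => ¬ p ≤ Y), locI h p
  have k1 : Real.exp (-(τ * r)) ≤ a1 := g2.trans h5
  have k2 : Real.exp (-(τ * r)) ≤ a2 := g4.trans h6
  have k3 : Real.exp (-(τ * r)) ≤ a3 := g3.trans h4
  have k4 : Real.exp (-(τ * r)) * Real.exp (-(τ * r)) ≤ a1 * a2 := mul_le_mul k1 k2 hE0 (hE0.trans k1)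
  calc ((eg - ε / 2) * Real.log r) ^ r * (Real.exp (-(τ * r)) * Real.exp (-(τ * r)) *
        Real.exp (-(τ * r)) * Real.exp (-(τ * r)))
      = (Real.exp (-(τ * r)) * Real.exp (-(τ * r))) * ((eg - ε / 2) * Real.log r) ^ r *
        Real.exp (-(τ * r)) * Real.exp (-(τ * r)) := by ring
    _ ≤ (a1 * a2) * (DZ Y)⁻¹ ^ r * a3 * (1 / 2) := by
        have m1 : (Real.exp (-(τ * r)) * Real.exp (-(τ * r))) * ((eg - ε / 2) * Real.log r) ^ r ≤
            (a1 * a2) * (DZ Y)⁻¹ ^ r :=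
          mul_le_mul k4 g5 hM0 ((mul_nonneg hE0 hE0).trans k4)
        have m0 : 0 ≤ (a1 * a2) * (DZ Y)⁻¹ ^ r := (mul_nonneg (mul_nonneg hE0 hE0) hM0).trans m1
        have m2 := mul_le_mul m1 k3 hE0 m0
        exact mul_le_mul m2 g1 hE0 (mul_nonneg m0 (hE0.trans k3))

end Pool.Agent.Lib.LEN
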