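import Pool.Agent.Lib.LEN.GShare
import Pool.Agent.Lib.LEN.GLow

/-!
# LEN.GBig: the prediction exceeds `N` for almost all admissible tuples longer than `N ^ (e ^ -γ + ε)`
-/

set_option autoImplicit false

open Finset Filter

namespace Pool.Agent.Lib.LEN

open Pool.Agent.HLB Pool.Agent.HLT Pool.Agent.HLR Pool.Agent.Lib.GMV

lemma eg_pos : 0 < eg := Real.exp_pos _

open scoped Classical in
/-- Module GBig. -/
theorem pr_big (ε : ℝ) (hε : 0 < ε) : ∃ N0 : ℕ, ∀ N : ℕ, N0 ≤ N → ∀ r : ℕ,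
    (N : ℝ) ^ (eg⁻¹ + ε) ≤ r → (r : ℝ) ≤ (N : ℝ) ^ (1 - ε) →
    (((Tup r (Icc 1 N)).filter (fun h => Adm h ∧ ¬ (N : ℝ) < pr N h)).card : ℝ) ≤
    ε * ((Tup r (Icc 1 N)).filter (fun h => Adm h)).card := by
  have hg := eg_pos
  have hgi : 0 < eg⁻¹ := inv_pos.2 hg
  have hc : 0 < eg⁻¹ + ε := by linarith
  obtain ⟨e, he⟩ : ∃ e : ℝ, e = min (eg / 2) (eg * ε / (2 * (eg⁻¹ + ε))) := ⟨_, rfl⟩
  have he0 : 0 < e := by rw [he]; positivity
  have he1 : e < eg := by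
    rw [he]
    exact lt_of_le_of_lt (min_le_left _ _) (by linarith)
  have he2 : e * (eg⁻¹ + ε) ≤ eg * ε / 2 := by
    have h1 : e ≤ eg * ε / (2 * (eg⁻¹ + ε)) := by rw [he]; exact min_le_right _ _
    refine (mul_le_mul_of_nonneg_right h1 hc.le).trans (le_of_eq ?_)
    field_simp
  have hbase : 1 + eg * ε / 2 ≤ (eg - e) * (eg⁻¹ + ε) := by
    have h1 : eg * eg⁻¹ = 1 := mul_inv_cancel₀ hg.ne'
    have h2 : (eg - e) * (eg⁻¹ + ε) = eg * eg⁻¹ + eg * ε - e * (eg⁻¹ + ε) := by ring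
    rw [h2, h1]
    linarith
  obtain ⟨δ, K, hδ, hK, hlow⟩ := si_lower e he0 he1
  obtain ⟨c1, hc1, N1, hshare⟩ := rich_share δ K hδ hK (eg⁻¹ + ε) ε hc hε
  obtain ⟨r0, hr0⟩ := hlow c1 hc1
  have hev : ∀ᶠ N : ℕ in atTop, (max r0 1 : ℕ) ≤ (N : ℝ) ^ (eg⁻¹ + ε) ∧ (1 : ℝ) < N ∧
      0 < Real.log N := by
    have h1 := ((tendsto_rpow_atTop hc).comp
      (tendsto_natCast_atTop_atTop (R := ℝ))).eventually_ge_atTop (((max r0 1 : ℕ) : ℝ))
    filter_upwards [h1, eventually_gt_atTop 1] with N h2 h3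
    have h4 : (1 : ℝ) < N := by exact_mod_cast h3
    exact ⟨h2, h4, Real.log_pos h4⟩
  obtain ⟨N2, hN2⟩ := eventually_atTop.1 hev
  refine ⟨max N1 N2, fun N hN r hr1 hr2 => ?_⟩
  obtain ⟨g1, g2, g3⟩ := hN2 N ((le_max_right _ _).trans hN)
  refine le_trans ?_ (hshare N ((le_max_left _ _).trans hN) r hr1 hr2)
  refine Nat.cast_le.2 (card_le_card fun h hh => ?_)
  rw [mem_filter] at hh ⊢
  obtain ⟨hT, hA, hnot⟩ := hh
  refine ⟨hT, hA, fun hR => hnot ?_⟩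
  have hrr : (max r0 1 : ℕ) ≤ r := by exact_mod_cast g1.trans hr1
  have hrr0 : r0 ≤ r := (le_max_left _ _).trans hrr
  have hrr1 : 1 ≤ r := (le_max_right _ _).trans hrr
  have hNpos : (0 : ℝ) < N := by linarith
  have hlogr : (eg⁻¹ + ε) * Real.log N ≤ Real.log r := by
    rw [← Real.log_rpow hNpos]
    exact Real.log_le_log (by positivity) hr1
  have h1 := hr0 r hrr0 h hA hR
  have hL : 0 < Real.log N ^ r := by positivity
  have h2 : ((1 + eg * ε / 2) * Real.log N) ^ r ≤ SI h := by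
    refine le_trans (pow_le_pow_left₀ (by positivity) ?_ r) h1
    calc (1 + eg * ε / 2) * Real.log N ≤ (eg - e) * (eg⁻¹ + ε) * Real.log N :=
          mul_le_mul_of_nonneg_right hbase g3.le
      _ = (eg - e) * ((eg⁻¹ + ε) * Real.log N) := by ring
      _ ≤ (eg - e) * Real.log r := mul_le_mul_of_nonneg_left hlogr (by linarith)
  have h3 : (1 : ℝ) < (1 + eg * ε / 2) ^ r := one_lt_pow₀ (by
    have : 0 < eg * ε / 2 := by positivity
    linarith) (by omega)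
  unfold pr
  rw [lt_div_iff₀ hL]
  calc (N : ℝ) * Real.log N ^ r = 1 * (Real.log N ^ r * N) := by ring
    _ < (1 + eg * ε / 2) ^ r * (Real.log N ^ r * N) := mul_lt_mul_of_pos_right h3 (by positivity)
    _ = ((1 + eg * ε / 2) * Real.log N) ^ r * N := by rw [mul_pow]; ring
    _ ≤ SI h * N := mul_le_mul_of_nonneg_right h2 hNpos.le

end Pool.Agent.Lib.LEN
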