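import Pool.Agent.Lib.LEN.DefsK
import Pool.Agent.Lib.LEN.SelK
import Pool.Agent.Lib.HLR.SingQ

/-!
# LEN.GUpA: the singular series from above, for every injective tuple

`SI h ≤ SZ z h * exp (2 r^3 log (N+1) / (z log z))` with `z = r ^ 3`; the primes `p ≤ T`, `T = ⌈r^(1+δ)⌉`, give at most
`(DZ T)⁻¹ ^ r`; for `T < p ≤ z` the local factor is at most `exp (2 (r - ν_p) / p)`, `r - ν_p` is at most the number
of the pairs `j < i` with `p ∣ h i - h j`, and a difference has at most `log N / log T` prime divisors `> T`.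
-/

set_option autoImplicit false

open Finset Filter

namespace Pool.Agent.Lib.LEN

open Pool.Agent.HLB Pool.Agent.HLT Pool.Agent.HLR Pool.Agent.Lib.GMV

namespace GUpAux

/-- The colliding pairs. -/
def pairs {r : ℕ} (h : Fin r → ℕ) (p : ℕ) : Finset (Fin r × Fin r) :=
  univ.filter fun x => x.1 < x.2 ∧ (h x.1 : ZMod p) = (h x.2 : ZMod p)

lemma card_le_pairs {r : ℕ} (h : Fin r → ℕ) (p : ℕ) : r ≤ nuI h p + (pairs h p).card := by
  classical
  set F : Finset (Fin r) := univ.filter fun i => ∀ j, j < i → (h j : ZMod p) ≠ (h i : ZMod p) with hF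
  have h1 : F.card ≤ nuI h p := by
    unfold nuI
    have : F.card = (F.image fun i => (h i : ZMod p)).card := by
      rw [Finset.card_image_of_injOn]
      intro i hi j hj hij
      rw [hF, mem_coe, mem_filter] at hi hj
      rcases lt_trichotomy i j with hlt | heq | hgt
      · exact absurd hij (hj.2 i hlt)
      · exact heq
      · exact absurd hij.symm (hi.2 j hgt)
    rw [this]
    exact Finset.card_le_card (Finset.image_subset_image (Finset.subset_univ _))
  have h2 : (univ \ F).card ≤ (pairs h p).card := by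
    have : univ \ F ⊆ (pairs h p).image Prod.snd := by
      intro i hi
      rw [Finset.mem_sdiff, hF, mem_filter] at hi
      have h3 : ¬ ∀ j, j < i → (h j : ZMod p) ≠ (h i : ZMod p) := fun h4 => hi.2 ⟨mem_univ _, h4⟩
      push Not at h3
      obtain ⟨j, hj, hji⟩ := h3
      exact mem_image.2 ⟨(j, i), by
        unfold pairs
        exact mem_filter.2 ⟨mem_univ _, hj, hji⟩, rfl⟩
    exact (Finset.card_le_card this).trans Finset.card_image_le
  have h3 : (univ \ F).card + F.card = r := by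
    have := Finset.card_sdiff_add_card_eq_card (Finset.subset_univ F)
    rw [this, Finset.card_univ, Fintype.card_fin]
  omega

lemma loc_le {r : ℕ} (h : Fin r → ℕ) {p : ℕ} (hp : p.Prime) :
    locI h p ≤ Real.exp (2 * (pairs h p).card / p) := by
  have hp2 : (2 : ℝ) ≤ p := by exact_mod_cast hp.two_le
  have hp0 : (0 : ℝ) < p := by linarith
  have hq0 : 0 < 1 - 1 / (p : ℝ) := by
    rw [sub_pos, div_lt_one hp0]
    linarith
  have hnu : nuI h p ≤ r := by
    unfold nuI
    have := Finset.card_image_le (s := (univ : Finset (Fin r))) (f := fun i => (h i : ZMod p))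
    rwa [Finset.card_univ, Fintype.card_fin] at this
  have hb : 1 - (nuI h p : ℝ) / p ≤ (1 - 1 / (p : ℝ)) ^ nuI h p := by
    have h1 : (-2 : ℝ) ≤ -(1 / (p : ℝ)) := by
      have : 1 / (p : ℝ) ≤ 1 := by
        rw [div_le_one hp0]
        linarith
      linarith
    have h2 := one_add_mul_le_pow h1 (nuI h p)
    calc 1 - (nuI h p : ℝ) / p = 1 + (nuI h p : ℝ) * -(1 / (p : ℝ)) := by ring
      _ ≤ (1 + -(1 / (p : ℝ))) ^ nuI h p := h2
      _ = _ := by rw [← sub_eq_add_neg]
  have hinv : (1 - 1 / (p : ℝ))⁻¹ ≤ Real.exp (2 / p) := by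
    have h1 : (1 - 1 / (p : ℝ))⁻¹ = 1 + 1 / ((p : ℝ) - 1) := by
      have : (p : ℝ) - 1 ≠ 0 := by
        have : 0 < (p : ℝ) - 1 := by linarith
        exact this.ne'
      field_simp
      ring
    have h2 : 1 / ((p : ℝ) - 1) ≤ 2 / p := by
      rw [div_le_div_iff₀ (by linarith) hp0]
      linarith
    calc (1 - 1 / (p : ℝ))⁻¹ = 1 / ((p : ℝ) - 1) + 1 := by rw [h1]; ring
      _ ≤ 2 / p + 1 := by linarith
      _ ≤ Real.exp (2 / p) := Real.add_one_le_exp _
  have hinv1 : 1 ≤ (1 - 1 / (p : ℝ))⁻¹ := by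
    rw [one_le_inv₀ hq0]
    have : 0 < 1 / (p : ℝ) := by positivity
    linarith
  unfold locI
  rw [Fintype.card_fin]
  have h3 : ((1 - 1 / (p : ℝ))⁻¹) ^ r =
      ((1 - 1 / (p : ℝ))⁻¹) ^ nuI h p * ((1 - 1 / (p : ℝ))⁻¹) ^ (r - nuI h p) := by
    rw [← pow_add, Nat.add_sub_cancel' hnu]
  have h4 : (1 - 1 / (p : ℝ)) ^ nuI h p * ((1 - 1 / (p : ℝ))⁻¹) ^ nuI h p = 1 := by
    rw [← mul_pow, mul_inv_cancel₀ hq0.ne', one_pow]
  calc (1 - (nuI h p : ℝ) / p) * ((1 - 1 / (p : ℝ))⁻¹) ^ r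
      ≤ (1 - 1 / (p : ℝ)) ^ nuI h p * ((1 - 1 / (p : ℝ))⁻¹) ^ r :=
        mul_le_mul_of_nonneg_right hb (by positivity)
    _ = ((1 - 1 / (p : ℝ))⁻¹) ^ (r - nuI h p) := by
        rw [h3, ← mul_assoc, h4, one_mul]
    _ ≤ ((1 - 1 / (p : ℝ))⁻¹) ^ (pairs h p).card := by
        apply pow_le_pow_right₀ hinv1
        have := card_le_pairs h p
        omega
    _ ≤ (Real.exp (2 / p)) ^ (pairs h p).card :=
        pow_le_pow_left₀ (by linarith) hinv _
    _ = Real.exp (2 * (pairs h p).card / p) := by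
        rw [← Real.exp_nat_mul]
        congr 1
        ring

/-- A positive integer `≤ N` has at most `log N / log T` prime divisors `> T`. -/
lemma card_big {d N T z : ℕ} (hd : 1 ≤ d) (hdN : d ≤ N) (hT : 2 ≤ T) :
    (((Nat.primesLE z).filter fun p => T < p ∧ p ∣ d).card : ℝ) ≤ Real.log N / Real.log T := by
  set S := (Nat.primesLE z).filter fun p => T < p ∧ p ∣ d with hS
  have hT2 : (2 : ℝ) ≤ T := by exact_mod_cast hT
  have hlT : 0 < Real.log T := Real.log_pos (by linarith)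
  have h1 : ∏ p ∈ S, p ∣ d := by
    apply Finset.prod_primes_dvd
    · intro p hp
      rw [hS, mem_filter] at hp
      exact (Nat.mem_primesLE.1 hp.1).2.prime
    · intro p hp
      rw [hS, mem_filter] at hp
      exact hp.2.2
  have h2 : T ^ S.card ≤ ∏ p ∈ S, p := by
    apply Finset.pow_card_le_prod
    intro p hp
    rw [hS, mem_filter] at hp
    exact hp.2.1.le
  have h3 : T ^ S.card ≤ N := h2.trans ((Nat.le_of_dvd hd h1).trans hdN)
  have h4 : (T : ℝ) ^ S.card ≤ N := by exact_mod_cast h3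
  rw [le_div_iff₀ hlT, ← Real.log_pow]
  exact Real.log_le_log (by positivity) h4

lemma sum_pairs {r N T z : ℕ} (h : Fin r → ℕ) (hinj : Function.Injective h)
    (hN : ∀ i, h i ≤ N) (hT : 2 ≤ T) :
    ∑ p ∈ (Nat.primesLE z).filter (fun p => T < p), ((pairs h p).card : ℝ) ≤
      (r : ℝ) ^ 2 * (Real.log N / Real.log T) := by
  classical
  have h1 : ∀ p, ((pairs h p).card : ℝ) =
      ∑ x : Fin r × Fin r, if x.1 < x.2 ∧ (h x.1 : ZMod p) = (h x.2 : ZMod p) then (1 : ℝ) else 0 := by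
    intro p
    unfold pairs
    rw [Finset.card_filter]
    push_cast
    rfl
  simp_rw [h1]
  rw [Finset.sum_comm]
  have h2 : ∀ x : Fin r × Fin r, ∑ p ∈ (Nat.primesLE z).filter (fun p => T < p),
      (if x.1 < x.2 ∧ (h x.1 : ZMod p) = (h x.2 : ZMod p) then (1 : ℝ) else 0) ≤
      Real.log N / Real.log T := by
    intro x
    have hlT : 0 < Real.log T := Real.log_pos (by
      have : (2 : ℝ) ≤ T := by exact_mod_cast hT
      linarith)
    by_cases hx : x.1 < x.2
    · set d := ((h x.2 : ℤ) - h x.1).natAbs with hd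
      have hne : h x.1 ≠ h x.2 := fun he => hx.ne (hinj he)
      have hd1 : 1 ≤ d := by
        rw [hd]
        omega
      have hdN : d ≤ N := by
        have e1 := hN x.1
        have e2 := hN x.2
        rw [hd]
        omega
      have h3 : ∑ p ∈ (Nat.primesLE z).filter (fun p => T < p),
          (if x.1 < x.2 ∧ (h x.1 : ZMod p) = (h x.2 : ZMod p) then (1 : ℝ) else 0) =
          (((Nat.primesLE z).filter fun p => T < p ∧ p ∣ d).card : ℝ) := by
        rw [Finset.sum_boole, Finset.filter_filter]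
        congr 2
        apply Finset.filter_congr
        intro p _
        apply and_congr_right
        intro _
        rw [ZMod.natCast_eq_natCast_iff, Nat.modEq_iff_dvd, Int.natCast_dvd]
        constructor
        · exact fun h => h.2
        · exact fun h => ⟨hx, h⟩
      rw [h3]
      exact card_big hd1 hdN hT
    · have h3 : ∑ p ∈ (Nat.primesLE z).filter (fun p => T < p),
          (if x.1 < x.2 ∧ (h x.1 : ZMod p) = (h x.2 : ZMod p) then (1 : ℝ) else 0) = 0 := by
        apply Finset.sum_eq_zero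
        intro p _
        rw [if_neg]
        exact fun h => hx h.1
      rw [h3]
      apply div_nonneg _ hlT.le
      rcases Nat.eq_zero_or_pos N with h0 | h0
      · rw [h0]
        simp
      · exact Real.log_nonneg (by exact_mod_cast h0)
  calc ∑ x : Fin r × Fin r, ∑ p ∈ (Nat.primesLE z).filter (fun p => T < p),
        (if x.1 < x.2 ∧ (h x.1 : ZMod p) = (h x.2 : ZMod p) then (1 : ℝ) else 0)
      ≤ ∑ _x : Fin r × Fin r, Real.log N / Real.log T := Finset.sum_le_sum fun x _ => h2 x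
    _ = (r : ℝ) ^ 2 * (Real.log N / Real.log T) := by
        rw [Finset.sum_const, Finset.card_univ, Fintype.card_prod, Fintype.card_fin, nsmul_eq_mul]
        push_cast
        ring

/-- The partial product with the large primes estimated by the collisions. -/
lemma SZ_le {r N T z : ℕ} (h : Fin r → ℕ) (hinj : Function.Injective h)
    (hN : ∀ i, h i ≤ N) (hT : 2 ≤ T) :
    SZ z h ≤ (DZ T)⁻¹ ^ r * Real.exp (2 / T * ((r : ℝ) ^ 2 * (Real.log N / Real.log T))) := by
  classical
  have hT0 : (0 : ℝ) < T := by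
    have : 0 < T := by omega
    exact_mod_cast this
  have hq : ∀ p : ℕ, p.Prime → 1 ≤ (1 - 1 / (p : ℝ))⁻¹ := by
    intro p hp
    have hp2 : (2 : ℝ) ≤ p := by exact_mod_cast hp.two_le
    have hq0 : 0 < 1 - 1 / (p : ℝ) := by
      rw [sub_pos, div_lt_one (by linarith)]
      linarith
    rw [one_le_inv₀ hq0]
    have : 0 < 1 / (p : ℝ) := by positivity
    linarith
  have hA : ∏ p ∈ (Nat.primesLE z).filter (fun p => ¬ T < p), locI h p ≤ (DZ T)⁻¹ ^ r := by
    have h1 : ∏ p ∈ (Nat.primesLE z).filter (fun p => ¬ T < p), locI h p ≤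
        ∏ p ∈ (Nat.primesLE z).filter (fun p => ¬ T < p), ((1 - 1 / (p : ℝ))⁻¹) ^ r := by
      apply Finset.prod_le_prod
      · intro p hp
        exact locI_nonneg h (Nat.mem_primesLE.1 (mem_filter.1 hp).1).2
      · intro p hp
        have hpp := (Nat.mem_primesLE.1 (mem_filter.1 hp).1).2
        unfold locI
        rw [Fintype.card_fin]
        have h1 : 0 ≤ (nuI h p : ℝ) / p := by positivity
        have h2 : 0 ≤ ((1 - 1 / (p : ℝ))⁻¹) ^ r := by
          have := hq p hpp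
          positivity
        nlinarith
    have h2 : ∏ p ∈ (Nat.primesLE z).filter (fun p => ¬ T < p), ((1 - 1 / (p : ℝ))⁻¹) ^ r ≤
        ∏ p ∈ Nat.primesLE T, ((1 - 1 / (p : ℝ))⁻¹) ^ r := by
      have hsub : (Nat.primesLE z).filter (fun p => ¬ T < p) ⊆ Nat.primesLE T := by
        intro p hp
        rw [mem_filter, Nat.mem_primesLE] at hp
        rw [Nat.mem_primesLE]
        exact ⟨by omega, hp.1.2⟩
      rw [← Finset.prod_sdiff hsub]
      have h3 : 1 ≤ ∏ p ∈ Nat.primesLE T \ (Nat.primesLE z).filter (fun p => ¬ T < p),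
          ((1 - 1 / (p : ℝ))⁻¹) ^ r := by
        calc (1 : ℝ) = ∏ _p ∈ Nat.primesLE T \ (Nat.primesLE z).filter (fun p => ¬ T < p), (1 : ℝ) := by
              rw [Finset.prod_const_one]
          _ ≤ _ := by
              apply Finset.prod_le_prod
              · intro p _
                norm_num
              · intro p hp
                exact one_le_pow₀ (hq p (Nat.mem_primesLE.1 (Finset.mem_sdiff.1 hp).1).2)
      have h4 : 0 ≤ ∏ p ∈ (Nat.primesLE z).filter (fun p => ¬ T < p), ((1 - 1 / (p : ℝ))⁻¹) ^ r := by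
        apply Finset.prod_nonneg
        intro p hp
        have := hq p (Nat.mem_primesLE.1 (mem_filter.1 hp).1).2
        positivity
      exact le_mul_of_one_le_left h4 h3
    refine h1.trans (h2.trans (le_of_eq ?_))
    unfold DZ
    rw [← Finset.prod_inv_distrib, ← Finset.prod_pow]
  have hB : ∏ p ∈ (Nat.primesLE z).filter (fun p => T < p), locI h p ≤
      Real.exp (2 / T * ((r : ℝ) ^ 2 * (Real.log N / Real.log T))) := by
    have h1 : ∏ p ∈ (Nat.primesLE z).filter (fun p => T < p), locI h p ≤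
        ∏ p ∈ (Nat.primesLE z).filter (fun p => T < p), Real.exp (2 / T * (pairs h p).card) := by
      apply Finset.prod_le_prod
      · intro p hp
        exact locI_nonneg h (Nat.mem_primesLE.1 (mem_filter.1 hp).1).2
      · intro p hp
        have hpp := (Nat.mem_primesLE.1 (mem_filter.1 hp).1).2
        have hTp : (T : ℝ) ≤ p := by exact_mod_cast (mem_filter.1 hp).2.le
        refine (loc_le h hpp).trans (Real.exp_le_exp.2 ?_)
        rw [mul_div_right_comm]
        apply mul_le_mul_of_nonneg_right _ (Nat.cast_nonneg _)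
        exact div_le_div_of_nonneg_left (by norm_num) hT0 hTp
    refine h1.trans ?_
    rw [← Real.exp_sum, ← Finset.mul_sum]
    apply Real.exp_le_exp.2
    exact mul_le_mul_of_nonneg_left (sum_pairs h hinj hN hT) (by positivity)
  have hsplit : SZ z h = (∏ p ∈ (Nat.primesLE z).filter (fun p => T < p), locI h p) *
      ∏ p ∈ (Nat.primesLE z).filter (fun p => ¬ T < p), locI h p := by
    unfold SZ
    rw [Finset.prod_filter_mul_prod_filter_not]
  rw [hsplit, mul_comm]
  apply mul_le_mul hA hB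
  · apply Finset.prod_nonneg
    intro p hp
    exact locI_nonneg h (Nat.mem_primesLE.1 (mem_filter.1 hp).1).2
  · have := DZ_pos T
    positivity

/-- The bound from Mertens' third theorem with any constant `A`. -/
theorem si_upper_of (A : ℝ) (hA : 0 < A)
    (hm : ∀ ε : ℝ, 0 < ε → ∃ z0 : ℕ, ∀ z : ℕ, z0 ≤ z → (DZ z)⁻¹ ≤ (A + ε) * Real.log z)
    (c ε : ℝ) (hc : 0 < c) (hε : 0 < ε) : ∃ N0 : ℕ, ∀ N r : ℕ, N0 ≤ N →
    (N : ℝ) ^ c ≤ r → ∀ h : Fin r → ℕ, (∀ i, h i ≤ N) → Function.Injective h →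
    SI h ≤ ((A + ε) * Real.log r) ^ r := by
  obtain ⟨z0, hz0⟩ := hm (ε / 2) (by positivity)
  obtain ⟨lam, hlam⟩ : ∃ lam : ℝ, lam = Real.log ((A + ε) / (A + ε / 2)) := ⟨_, rfl⟩
  have hρ : 1 < (A + ε) / (A + ε / 2) := by
    rw [one_lt_div (by positivity)]
    linarith
  have hlam0 : 0 < lam := by
    rw [hlam]
    exact Real.log_pos hρ
  obtain ⟨δ, hδ⟩ : ∃ δ : ℝ, δ = lam / 4 := ⟨_, rfl⟩
  obtain ⟨η, hη⟩ : ∃ η : ℝ, η = lam / 2 := ⟨_, rfl⟩
  have hδ0 : 0 < δ := by rw [hδ]; positivity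
  have hη0 : 0 < η := by rw [hη]; positivity
  have hconst : (A + ε / 2) * (1 + 2 * δ) * Real.exp η ≤ A + ε := by
    have h1 : 1 + 2 * δ ≤ Real.exp (2 * δ) := by
      have := Real.add_one_le_exp (2 * δ)
      linarith
    calc (A + ε / 2) * (1 + 2 * δ) * Real.exp η
        ≤ (A + ε / 2) * Real.exp (2 * δ) * Real.exp η := by gcongr
      _ = (A + ε / 2) * Real.exp lam := by
          rw [mul_assoc, ← Real.exp_add]
          congr 2
          rw [hδ, hη]
          ring
      _ = A + ε := by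
          rw [hlam, Real.exp_log (by positivity)]
          field_simp
  have hlog : Tendsto (fun r : ℕ => Real.log (r : ℝ)) atTop atTop :=
    Real.tendsto_log_atTop.comp tendsto_natCast_atTop_atTop
  have hrp : Tendsto (fun r : ℕ => (r : ℝ) ^ δ) atTop atTop :=
    (tendsto_rpow_atTop hδ0).comp tendsto_natCast_atTop_atTop
  obtain ⟨r0, hr0⟩ := eventually_atTop.1 (((hlog.eventually_ge_atTop (Real.log 2 / δ)).and
    ((tendsto_natCast_atTop_atTop (R := ℝ)).eventually_ge_atTop (8 / (3 * c * η)))).and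
    ((hrp.eventually_ge_atTop (4 / (c * η))).and
    ((eventually_ge_atTop z0).and (eventually_ge_atTop 2))))
  have hNc : Tendsto (fun N : ℕ => (N : ℝ) ^ c) atTop atTop :=
    (tendsto_rpow_atTop hc).comp tendsto_natCast_atTop_atTop
  obtain ⟨N0, hN0⟩ := eventually_atTop.1 ((hNc.eventually_ge_atTop (r0 : ℝ)).and
    (eventually_ge_atTop 2))
  refine ⟨N0, ?_⟩
  intro N r hN hNr h hh hinj
  obtain ⟨hN1, hN2⟩ := hN0 N hN
  have hr : r0 ≤ r := by exact_mod_cast hN1.trans hNr
  obtain ⟨⟨e1, e2⟩, e3, e4, e5⟩ := hr0 r hr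
  have hr2 : (2 : ℝ) ≤ r := by exact_mod_cast e5
  have hrpos : (0 : ℝ) < r := by linarith
  have hlr : 0 < Real.log r := Real.log_pos (by linarith)
  have hNpos : (0 : ℝ) < N := by
    have : 0 < N := by omega
    exact_mod_cast this
  have hlN : 0 < Real.log N := Real.log_pos (by exact_mod_cast hN2)
  -- `log N ≤ (1/c) log r`
  have hcN : c * Real.log N ≤ Real.log r := by
    have h1 := Real.log_le_log (by positivity) hNr
    rwa [Real.log_rpow hNpos] at h1
  -- `T`
  obtain ⟨T, hT⟩ : ∃ T : ℕ, T = ⌈(r : ℝ) ^ (1 + δ)⌉₊ := ⟨_, rfl⟩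
  have hT1 : (r : ℝ) ^ (1 + δ) ≤ T := by rw [hT]; exact Nat.le_ceil _
  have hrT : (r : ℝ) ≤ (r : ℝ) ^ (1 + δ) := by
    calc (r : ℝ) = (r : ℝ) ^ (1 : ℝ) := (Real.rpow_one _).symm
      _ ≤ _ := Real.rpow_le_rpow_of_exponent_le (by linarith) (by linarith)
  have hT2 : (T : ℝ) ≤ 2 * (r : ℝ) ^ (1 + δ) := by
    have h1 : (T : ℝ) < (r : ℝ) ^ (1 + δ) + 1 := by
      rw [hT]
      exact Nat.ceil_lt_add_one (by positivity)
    linarith
  have hrT' : (r : ℝ) ≤ T := hrT.trans hT1
  have hrTn : r ≤ T := by exact_mod_cast hrT'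
  have hTpos : (0 : ℝ) < T := by linarith
  have hlT : Real.log r ≤ Real.log T := Real.log_le_log hrpos hrT'
  have hlT0 : 0 < Real.log T := by linarith
  have hlT2 : Real.log T ≤ (1 + 2 * δ) * Real.log r := by
    have h1 := Real.log_le_log hTpos hT2
    rw [Real.log_mul (by norm_num) (by positivity), Real.log_rpow hrpos] at h1
    have h2 : Real.log 2 ≤ δ * Real.log r := by
      rwa [div_le_iff₀ hδ0, mul_comm] at e1
    linarith
  have hDZ : (DZ T)⁻¹ ≤ (A + ε / 2) * (1 + 2 * δ) * Real.log r := by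
    refine (hz0 T (e4.trans hrTn)).trans ?_
    rw [mul_assoc]
    exact mul_le_mul_of_nonneg_left hlT2 (by positivity)
  have hDZ0 : 0 ≤ (DZ T)⁻¹ := (inv_pos.2 (DZ_pos T)).le
  -- `z`
  have h1 := SI_le_SZ h (by rw [Fintype.card_fin]; omega) hinj N (r ^ 3)
    (by
      calc 2 ≤ r := e5
        _ = r ^ 1 := (pow_one r).symm
        _ ≤ r ^ 3 := Nat.pow_le_pow_right (by omega) (by norm_num)) hh
  rw [Fintype.card_fin] at h1
  have h2 := SZ_le (T := T) (z := r ^ 3) h hinj hh (by omega)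
  have hC : 2 * (r : ℝ) ^ 3 * Real.log ((N + 1 : ℕ) : ℝ) / (((r ^ 3 : ℕ) : ℝ) * Real.log ((r ^ 3 : ℕ) : ℝ)) ≤
      η / 2 * r := by
    have h5 : Real.log ((N + 1 : ℕ) : ℝ) ≤ 2 * Real.log N := by
      have h6 : N + 1 ≤ N ^ 2 := by nlinarith
      have h7 : ((N + 1 : ℕ) : ℝ) ≤ (N : ℝ) ^ 2 := by exact_mod_cast h6
      calc Real.log ((N + 1 : ℕ) : ℝ) ≤ Real.log ((N : ℝ) ^ 2) :=
            Real.log_le_log (by positivity) h7
        _ = 2 * Real.log N := by rw [Real.log_pow]; norm_num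
    have h8 : ((r ^ 3 : ℕ) : ℝ) = (r : ℝ) ^ 3 := by push_cast; rfl
    rw [h8, Real.log_pow]
    have h9 : 2 * (r : ℝ) ^ 3 * Real.log ((N + 1 : ℕ) : ℝ) / ((r : ℝ) ^ 3 * (((3 : ℕ) : ℝ) * Real.log r)) =
        2 * Real.log ((N + 1 : ℕ) : ℝ) / (3 * Real.log r) := by
      have : (r : ℝ) ^ 3 ≠ 0 := by positivity
      push_cast
      field_simp
    rw [h9, div_le_iff₀ (by positivity)]
    rw [div_le_iff₀ (by positivity)] at e2
    have h10 : 4 * Real.log N ≤ 4 / c * Real.log r := by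
      rw [div_mul_eq_mul_div, le_div_iff₀ hc]
      linarith
    have h11 : 4 / c ≤ 3 / 2 * (η * r) := by
      rw [div_le_iff₀ hc]
      linarith
    have h12 : 4 / c * Real.log r ≤ 3 / 2 * (η * r) * Real.log r :=
      mul_le_mul_of_nonneg_right h11 hlr.le
    calc 2 * Real.log ((N + 1 : ℕ) : ℝ) ≤ 4 * Real.log N := by linarith
      _ ≤ 3 / 2 * (η * r) * Real.log r := h10.trans h12
      _ = η / 2 * r * (3 * Real.log r) := by ring
  have hD : 2 / (T : ℝ) * ((r : ℝ) ^ 2 * (Real.log N / Real.log T)) ≤ η / 2 * r := by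
    have h5 : Real.log N / Real.log T ≤ 1 / c := by
      rw [div_le_div_iff₀ hlT0 hc]
      linarith
    have h6 : (r : ℝ) ^ (1 + δ) = r * (r : ℝ) ^ δ := by
      rw [Real.rpow_add hrpos, Real.rpow_one]
    have h7 : 4 / (c * η) * r ≤ T := by
      calc 4 / (c * η) * r ≤ (r : ℝ) ^ δ * r := mul_le_mul_of_nonneg_right e3 hrpos.le
        _ = (r : ℝ) ^ (1 + δ) := by rw [h6, mul_comm]
        _ ≤ T := hT1
    calc 2 / (T : ℝ) * ((r : ℝ) ^ 2 * (Real.log N / Real.log T))
        ≤ 2 / (T : ℝ) * ((r : ℝ) ^ 2 * (1 / c)) := by gcongr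
      _ ≤ η / 2 * r := by
          rw [div_mul_eq_mul_div, div_le_iff₀ hTpos]
          have h8 : 4 * r ≤ T * (c * η) := by
            rw [div_mul_eq_mul_div, div_le_iff₀ (by positivity)] at h7
            exact h7
          have h9 : 2 * ((r : ℝ) ^ 2 * (1 / c)) = (4 * r) * (r / (2 * c)) := by
            field_simp
            ring
          have h10 : η / 2 * r * T = (T * (c * η)) * (r / (2 * c)) := by
            field_simp
          rw [h9, h10]
          exact mul_le_mul_of_nonneg_right h8 (by positivity)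
  have hexp : Real.exp (η * r) = Real.exp η ^ r := by
    rw [← Real.exp_nat_mul, mul_comm]
  calc SI h ≤ SZ (r ^ 3) h * Real.exp (2 * (r : ℝ) ^ 3 * Real.log ((N + 1 : ℕ) : ℝ) /
        (((r ^ 3 : ℕ) : ℝ) * Real.log ((r ^ 3 : ℕ) : ℝ))) := h1
    _ ≤ ((DZ T)⁻¹ ^ r * Real.exp (2 / T * ((r : ℝ) ^ 2 * (Real.log N / Real.log T)))) *
        Real.exp (η / 2 * r) :=
        mul_le_mul h2 (Real.exp_le_exp.2 hC) (Real.exp_pos _).le (by positivity)
    _ ≤ (((A + ε / 2) * (1 + 2 * δ) * Real.log r) ^ r * Real.exp (η / 2 * r)) *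
        Real.exp (η / 2 * r) := by
        apply mul_le_mul_of_nonneg_right _ (Real.exp_pos _).le
        exact mul_le_mul (pow_le_pow_left₀ hDZ0 hDZ r) (Real.exp_le_exp.2 hD) (Real.exp_pos _).le
          (by positivity)
    _ = ((A + ε / 2) * (1 + 2 * δ) * Real.log r) ^ r * Real.exp (η * r) := by
        rw [mul_assoc, ← Real.exp_add]
        congr 2
        ring
    _ = ((A + ε / 2) * (1 + 2 * δ) * Real.exp η * Real.log r) ^ r := by
        rw [hexp, ← mul_pow]
        congr 1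
        ring
    _ ≤ ((A + ε) * Real.log r) ^ r := by
        apply pow_le_pow_left₀ (by positivity)
        exact mul_le_mul_of_nonneg_right hconst hlr.le

/-- The prediction is below one for `r ≤ N ^ (A⁻¹ - ε)`. -/
theorem pr_less_of (A : ℝ) (hA : 0 < A)
    (hm : ∀ ε : ℝ, 0 < ε → ∃ z0 : ℕ, ∀ z : ℕ, z0 ≤ z → (DZ z)⁻¹ ≤ (A + ε) * Real.log z)
    (c ε : ℝ) (hc : 0 < c) (hε : 0 < ε) : ∃ N0 : ℕ, ∀ N : ℕ, N0 ≤ N → ∀ r : ℕ,
    (N : ℝ) ^ c ≤ r → (r : ℝ) ≤ (N : ℝ) ^ (A⁻¹ - ε) → ∀ h : Fin r → ℕ, (∀ i, h i ≤ N) →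
    Function.Injective h → pr N h < 1 := by
  obtain ⟨κ, hκ⟩ : ∃ κ : ℝ, κ = A * ε / 2 := ⟨_, rfl⟩
  have hκ0 : 0 < κ := by rw [hκ]; positivity
  obtain ⟨N1, hN1⟩ := si_upper_of A hA hm c (A ^ 2 * ε / 2) hc (by positivity)
  have hl : ∀ᶠ N : ℕ in atTop, Real.log (N : ℝ) < κ * (N : ℝ) ^ c := by
    have h1 := (isLittleO_log_rpow_atTop hc).bound (half_pos hκ0)
    have h2 := tendsto_natCast_atTop_atTop (R := ℝ) |>.eventually h1
    filter_upwards [h2, eventually_ge_atTop 2] with N h3 h4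
    have hN : (2 : ℝ) ≤ N := by exact_mod_cast h4
    rw [Real.norm_of_nonneg (Real.log_nonneg (by linarith)),
      Real.norm_of_nonneg (by positivity)] at h3
    have h5 : 0 < κ * (N : ℝ) ^ c := by positivity
    linarith
  obtain ⟨N0, hN0⟩ := eventually_atTop.1 ((hl.and (eventually_ge_atTop N1)).and
    (eventually_ge_atTop 2))
  refine ⟨N0, ?_⟩
  intro N hN r hr1 hr2 h hh hinj
  obtain ⟨⟨e1, e2⟩, e3⟩ := hN0 N hN
  have hN2 : (2 : ℝ) ≤ N := by exact_mod_cast e3
  have hNpos : (0 : ℝ) < N := by linarith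
  have hlN : 0 < Real.log N := Real.log_pos (by linarith)
  have hSI := hN1 N r e2 hr1 h hh hinj
  have hr1' : 1 ≤ (r : ℝ) := (Real.one_le_rpow (by linarith) hc.le).trans hr1
  have hrpos : (0 : ℝ) < r := by linarith
  have hlr : 0 ≤ Real.log r := Real.log_nonneg hr1'
  have hlr2 : Real.log r ≤ (A⁻¹ - ε) * Real.log N := by
    have h1 := Real.log_le_log hrpos hr2
    rwa [Real.log_rpow hNpos] at h1
  have hbase : (A + A ^ 2 * ε / 2) * Real.log r ≤ (1 - κ) * Real.log N := by
    have h1 : (A + A ^ 2 * ε / 2) * (A⁻¹ - ε) ≤ 1 - κ := by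
      have h2 : (A + A ^ 2 * ε / 2) * (A⁻¹ - ε) = 1 - A * ε / 2 - A ^ 2 * ε ^ 2 / 2 := by
        field_simp
        ring
      have h3 : 0 ≤ A ^ 2 * ε ^ 2 / 2 := by positivity
      rw [h2, hκ]
      linarith
    calc (A + A ^ 2 * ε / 2) * Real.log r
        ≤ (A + A ^ 2 * ε / 2) * ((A⁻¹ - ε) * Real.log N) :=
          mul_le_mul_of_nonneg_left hlr2 (by positivity)
      _ = (A + A ^ 2 * ε / 2) * (A⁻¹ - ε) * Real.log N := by ring
      _ ≤ (1 - κ) * Real.log N := mul_le_mul_of_nonneg_right h1 hlN.le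
  have hpr : pr N h ≤ N * Real.exp (-(κ * r)) := by
    have h1 : (A + A ^ 2 * ε / 2) * Real.log r / Real.log N ≤ Real.exp (-κ) := by
      rw [div_le_iff₀ hlN]
      refine hbase.trans (mul_le_mul_of_nonneg_right ?_ hlN.le)
      have := Real.add_one_le_exp (-κ)
      linarith
    have h2 : ((A + A ^ 2 * ε / 2) * Real.log r / Real.log N) ^ r ≤ Real.exp (-(κ * r)) := by
      have h3 : Real.exp (-(κ * r)) = Real.exp (-κ) ^ r := by
        rw [← Real.exp_nat_mul]
        congr 1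
        ring
      rw [h3]
      exact pow_le_pow_left₀ (by positivity) h1 r
    calc pr N h ≤ N * ((A + A ^ 2 * ε / 2) * Real.log r / Real.log N) ^ r := by
          unfold pr
          rw [div_pow, mul_div_assoc', mul_comm (N : ℝ)]
          gcongr
      _ ≤ _ := mul_le_mul_of_nonneg_left h2 hNpos.le
  refine hpr.trans_lt ?_
  have h1 : Real.log N < κ * r := e1.trans_le (mul_le_mul_of_nonneg_left hr1 hκ0.le)
  calc (N : ℝ) * Real.exp (-(κ * r)) = Real.exp (Real.log N + -(κ * r)) := by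
        rw [Real.exp_add, Real.exp_log hNpos]
    _ < Real.exp 0 := Real.exp_lt_exp.2 (by linarith)
    _ = 1 := Real.exp_zero

end GUpAux

end Pool.Agent.Lib.LEN
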