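import Pool.Agent.Lib.LEN.GMertU
import Pool.Agent.Lib.LEN.GUpA

/-!
# LEN.GUp: the singular series from above, for every injective tuple
-/

set_option autoImplicit false

open Finset Filter

namespace Pool.Agent.Lib.LEN

open Pool.Agent.HLB Pool.Agent.HLT Pool.Agent.HLR Pool.Agent.Lib.GMV

/-- Module GUp. -/
theorem si_upper (c ε : ℝ) (hc : 0 < c) (hε : 0 < ε) : ∃ N0 : ℕ, ∀ N r : ℕ, N0 ≤ N →
    (N : ℝ) ^ c ≤ r → r ≤ N → ∀ h ∈ Tup r (Icc 1 N), Function.Injective h →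
    SI h ≤ ((eg + ε) * Real.log r) ^ r := by
  obtain ⟨N0, hN0⟩ := GUpAux.si_upper_of eg (Real.exp_pos _) mert_up c ε hc hε
  exact ⟨N0, fun N r hN hr _ h hh hinj =>
    hN0 N r hN hr h (fun i => (Finset.mem_Icc.1 (mem_Tup.1 hh i)).2) hinj⟩

/-- Module GLess. -/
theorem pr_less (c ε : ℝ) (hc : 0 < c) (hε : 0 < ε) : ∃ N0 : ℕ, ∀ N : ℕ, N0 ≤ N → ∀ r : ℕ,
    (N : ℝ) ^ c ≤ r → (r : ℝ) ≤ (N : ℝ) ^ (eg⁻¹ - ε) → ∀ h ∈ Tup r (Icc 1 N),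
    Function.Injective h → pr N h < 1 := by
  obtain ⟨N0, hN0⟩ := GUpAux.pr_less_of eg (Real.exp_pos _) mert_up c ε hc hε
  exact ⟨N0, fun N hN r hr1 hr2 h hh hinj =>
    hN0 N hN r hr1 hr2 h (fun i => (Finset.mem_Icc.1 (mem_Tup.1 hh i)).2) hinj⟩

end Pool.Agent.Lib.LEN
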