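import Pool.Agent.Lib.LEN.GAll
import Pool.Agent.Lib.LEN.GBig
import Pool.Agent.Lib.LEN.GUp

/-!
# LEN.FinG: the exact range in which the prediction decides
-/

set_option autoImplicit false

open Finset Filter

namespace Pool.Agent.Lib.LEN

open Pool.Agent.HLB Pool.Agent.HLT Pool.Agent.HLR Pool.Agent.Lib.GMV

open scoped Classical in
/-- The assertions for one tuple, with the range `r ≤ N ^ (e ^ -γ - ε)` for the prediction, its failure for
`r ≥ N ^ (e ^ -γ + ε)`, and no tuple of primes for all `r ≥ (1 + ε) y`. -/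
def NiceG (ε : ℝ) (N : ℕ) {r : ℕ} (h : Fin r → ℕ) : Prop :=
  ((r : ℝ) ≤ (1 - ε) * yy N → |(cnt N h : ℝ) - pr N h| ≤ ε * pr N h) ∧
  (∀ w : ℕ, WR ε N w → ∀ D : ℕ, (r : ℝ) + D / Real.log N ≤ (1 - ε) * yy N →
    (((Tup D (Icc 1 N)).filter (fun s => ε * pr N h < DJ N w h s)).card : ℝ) ≤
      ε * (N : ℝ) ^ D) ∧
  ((r : ℝ) ≤ (1 - ε) * yy N → ∀ w : ℕ, WR ε N w → ∀ D : ℕ,
    (1 + ε) * yy N ≤ (r : ℝ) + D / Real.log N →
    (((Tup D (Icc 1 N)).filter (fun s => DJ N w h s < (2 - ε) * pr N h)).card : ℝ) ≤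
      ε * (N : ℝ) ^ D) ∧
  ((1 + ε) * yy N ≤ r → ¬ ∃ n ∈ Icc 1 (2 * N), ∀ i, (n + h i).Prime) ∧
  ((r : ℝ) ≤ (N : ℝ) ^ (eg⁻¹ - ε) → (1 ≤ pr N h → |(cnt N h : ℝ) - pr N h| ≤ ε * pr N h) ∧
    (pr N h ≤ 1 → cnt N h = 0)) ∧
  ((N : ℝ) ^ (eg⁻¹ + ε) ≤ r → (N : ℝ) < pr N h ∧ cnt N h = 0)

open scoped Classical in
/-- For every length `r ≤ N ^ (1 - ε)` all but a share `ε` of the admissible tuples are nice. -/
def ConcG (ε : ℝ) (N : ℕ) : Prop :=
  ∀ r : ℕ, (r : ℝ) ≤ (N : ℝ) ^ (1 - ε) →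
    (((Tup r (Icc 1 N)).filter (fun h => Adm h ∧ ¬ NiceG ε N h)).card : ℝ) ≤
      ε * ((Tup r (Icc 1 N)).filter (fun h => Adm h)).card

theorem every_pattern_gamma : ∀ ε : ℝ, 0 < ε → ∃ C : ℝ, 0 < C ∧
    (∃ N0 : ℕ, ∀ N : ℕ, N0 ≤ N → RZ C N ∨ ConcG ε N) ∧
    ∀ N0 : ℕ, ∃ N : ℕ, N0 ≤ N ∧ ConcG ε N := by
  classical
  obtain ⟨c0, hc0, hall⟩ := every_pattern_one
  intro ε hε
  have hg := eg_pos
  have hgi : 0 < eg⁻¹ := inv_pos.2 hg
  obtain ⟨c, hcd⟩ : ∃ c : ℝ, c = min c0 (eg⁻¹ / 2) := ⟨_, rfl⟩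
  have hc : 0 < c := by rw [hcd]; positivity
  have hcc0 : c ≤ c0 := by rw [hcd]; exact min_le_left _ _
  have hcg : c < eg⁻¹ + ε := by
    have : c ≤ eg⁻¹ / 2 := by rw [hcd]; exact min_le_right _ _
    linarith
  obtain ⟨C, hC, ⟨N0, h1⟩, h2⟩ := hall ε hε
  obtain ⟨M1, hM1⟩ := far_all c (ε / 2) hc (by positivity)
  obtain ⟨M2, hM2⟩ := pr_less c ε hc hε
  obtain ⟨M3, hM3⟩ := pr_big (ε / 2) (by positivity)
  have hev : ∀ᶠ N : ℕ in atTop, 1 * (Real.log N) ^ 1 ≤ (N : ℝ) ^ c ∧ 3 ≤ Real.log N := by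
    filter_upwards [Pool.Agent.Lib.MT.Wtd.log_pow_small 1 1 c hc,
      Pool.Agent.Lib.MT.Wtd.log_large 3] with N a b
    exact ⟨a, b⟩
  obtain ⟨M4, hM4⟩ := eventually_atTop.1 hev
  have key : ∀ N : ℕ, max (max M1 M2) (max M3 (max M4 2)) ≤ N → ConcW c0 ε 1 N → ConcG ε N := by
    intro N hN hc1 r hr
    have g1 : M1 ≤ N := ((le_max_left _ _).trans (le_max_left _ _)).trans hN
    have g2 : M2 ≤ N := ((le_max_right _ _).trans (le_max_left _ _)).trans hN
    have g3 : M3 ≤ N := ((le_max_left _ _).trans (le_max_right _ _)).trans hN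
    have g4 : M4 ≤ N :=
      ((le_max_left _ _).trans ((le_max_right _ _).trans (le_max_right _ _))).trans hN
    have g5 : 2 ≤ N :=
      ((le_max_right _ _).trans ((le_max_right _ _).trans (le_max_right _ _))).trans hN
    obtain ⟨k1, k2⟩ := hM4 N g4
    have hN2 : (2 : ℝ) ≤ N := by exact_mod_cast g5
    have hN1 : (1 : ℝ) < N := by linarith
    have hNpos : (0 : ℝ) < N := by linarith
    rcases le_or_gt (r : ℝ) ((N : ℝ) ^ c) with hrc | hrc
    · -- short tuples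
      have hrc0 : (r : ℝ) ≤ (N : ℝ) ^ c0 :=
        hrc.trans (Real.rpow_le_rpow_of_exponent_le hN1.le hcc0)
      refine le_trans (Nat.cast_le.2 (card_le_card fun h hh => ?_)) (hc1 r hrc0)
      rw [mem_filter] at hh ⊢
      obtain ⟨hT, hA, hnot⟩ := hh
      refine ⟨hT, hA, fun hNice => hnot ?_⟩
      obtain ⟨n1, n2, n3, n4, n5, n6⟩ := hNice
      refine ⟨n1, n2, n3, n4, fun _ => ⟨n5, fun a => n6 (by rwa [div_one])⟩, fun a => ?_⟩
      exfalso
      have h3 : (N : ℝ) ^ c < (N : ℝ) ^ (eg⁻¹ + ε) := Real.rpow_lt_rpow_of_exponent_lt hN1 hcg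
      linarith
    · -- long tuples
      have hL : 0 < Real.log N := by linarith
      have hyy : yy N < r := by
        have h3 : yy N ≤ Real.log N := by
          unfold yy
          have h4 : 1 ≤ Real.log (Real.log N) := by
            rw [Real.le_log_iff_exp_le hL]
            have := Real.exp_one_lt_d9
            linarith
          exact div_le_self hL.le h4
        rw [one_mul, pow_one] at k1
        linarith
      have hyy0 : 0 ≤ yy N := by
        unfold yy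
        exact div_nonneg hL.le (Real.log_nonneg (by linarith))
      have hyy1 : (1 - ε) * yy N < r := by
        have : (1 - ε) * yy N ≤ 1 * yy N := mul_le_mul_of_nonneg_right (by linarith) hyy0
        linarith
      have hsub : (Tup r (Icc 1 N)).filter (fun h => Adm h ∧ ¬ NiceG ε N h) ⊆
          (Tup r (Icc 1 N)).filter (fun h => Adm h ∧ ∃ n ∈ Icc 1 (2 * N), ∀ i, (n + h i).Prime) ∪
          (Tup r (Icc 1 N)).filter (fun h => Adm h ∧ (N : ℝ) ^ (eg⁻¹ + ε) ≤ r ∧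
            ¬ (N : ℝ) < pr N h) := by
        intro h hh
        rw [mem_filter] at hh
        obtain ⟨hT, hA, hnot⟩ := hh
        rw [mem_union, mem_filter, mem_filter]
        by_contra hcon
        rw [not_or] at hcon
        obtain ⟨q1, q2⟩ := hcon
        have q3 : ¬ ∃ n ∈ Icc 1 (2 * N), ∀ i, (n + h i).Prime := fun hn => q1 ⟨hT, hA, hn⟩
        have q4 : cnt N h = 0 := by
          unfold cnt
          rw [card_eq_zero, filter_eq_empty_iff]
          intro n hn hp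
          rw [mem_Ioc] at hn
          exact q3 ⟨n, mem_Icc.2 ⟨by omega, hn.2⟩, hp⟩
        apply hnot
        refine ⟨fun a => absurd a (not_le.2 hyy1), fun w _ D hD => ?_,
          fun a => absurd a (not_le.2 hyy1), fun _ => q3, fun a => ⟨fun b => ?_,
          fun _ => q4⟩, fun a => ⟨?_, q4⟩⟩
        · exfalso
          have h3 : (0 : ℝ) ≤ D / Real.log N := by positivity
          linarith
        · exact absurd (hM2 N g2 r hrc.le a h hT hA.1) (not_lt.2 b)
        · by_contra hlt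
          exact q2 ⟨hT, hA, a, hlt⟩
      have hA0 : (0 : ℝ) ≤ ((Tup r (Icc 1 N)).filter (fun h => Adm h)).card := Nat.cast_nonneg _
      have b1 := hM1 N g1 r hrc.le
        (hr.trans (Real.rpow_le_rpow_of_exponent_le hN1.le (by linarith)))
      have b2 : (((Tup r (Icc 1 N)).filter (fun h => Adm h ∧ (N : ℝ) ^ (eg⁻¹ + ε) ≤ r ∧
            ¬ (N : ℝ) < pr N h)).card : ℝ) ≤
          ε / 2 * ((Tup r (Icc 1 N)).filter (fun h => Adm h)).card := by
        by_cases hcase : (N : ℝ) ^ (eg⁻¹ + ε) ≤ r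
        · have h3 : (N : ℝ) ^ (eg⁻¹ + ε / 2) ≤ r :=
            (Real.rpow_le_rpow_of_exponent_le hN1.le (by linarith)).trans hcase
          have h4 : (r : ℝ) ≤ (N : ℝ) ^ (1 - ε / 2) :=
            hr.trans (Real.rpow_le_rpow_of_exponent_le hN1.le (by linarith))
          refine le_trans (Nat.cast_le.2 (card_le_card fun h hh => ?_)) (hM3 N g3 r h3 h4)
          rw [mem_filter] at hh ⊢
          exact ⟨hh.1, hh.2.1, hh.2.2.2⟩
        · rw [filter_false_of_mem (fun h _ hh => hcase hh.2.1), card_empty, Nat.cast_zero]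
          positivity
      have hcard := (card_le_card hsub).trans (card_union_le _ _)
      have hcard' : (((Tup r (Icc 1 N)).filter (fun h => Adm h ∧ ¬ NiceG ε N h)).card : ℝ) ≤
          (((Tup r (Icc 1 N)).filter (fun h => Adm h ∧
            ∃ n ∈ Icc 1 (2 * N), ∀ i, (n + h i).Prime)).card : ℝ) +
          (((Tup r (Icc 1 N)).filter (fun h => Adm h ∧ (N : ℝ) ^ (eg⁻¹ + ε) ≤ r ∧
            ¬ (N : ℝ) < pr N h)).card : ℝ) := by exact_mod_cast hcard
      linarith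
  refine ⟨C, hC, ⟨max N0 (max (max M1 M2) (max M3 (max M4 2))), fun N hN => ?_⟩, fun N1 => ?_⟩
  · rcases h1 N ((le_max_left _ _).trans hN) with h3 | h3
    · exact Or.inl h3
    · exact Or.inr (key N ((le_max_right _ _).trans hN) h3)
  · obtain ⟨N, hN, h3⟩ := h2 (max N1 (max (max M1 M2) (max M3 (max M4 2))))
    exact ⟨N, (le_max_left _ _).trans hN, key N ((le_max_right _ _).trans hN) h3⟩

end Pool.Agent.Lib.LEN
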