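import Pool.Agent.Lib.LEN.FinG

/-!
# LEN.FinH: beyond the threshold, for ALL large `N`
-/

set_option autoImplicit false

open Finset Filter

namespace Pool.Agent.Lib.LEN

open Pool.Agent.HLB Pool.Agent.HLT Pool.Agent.HLR Pool.Agent.Lib.GMV

open scoped Classical in
/-- No prime tuples beyond the threshold: all lengths `(1 + ε) y ≤ r ≤ N ^ (1 - ε)`, all large `N`. -/
theorem far_every (ε : ℝ) (hε : 0 < ε) : ∃ N0 : ℕ, ∀ N : ℕ, N0 ≤ N → ∀ r : ℕ,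
    (1 + ε) * yy N ≤ r → (r : ℝ) ≤ (N : ℝ) ^ (1 - ε) →
    (((Tup r (Icc 1 N)).filter (fun h => Adm h ∧
      ∃ n ∈ Icc 1 (2 * N), ∀ i, (n + h i).Prime)).card : ℝ) ≤
    ε * ((Tup r (Icc 1 N)).filter (fun h => Adm h)).card := by
  obtain ⟨c0, hc0, hup⟩ := upper'
  obtain ⟨N1, h1⟩ := hup ε hε
  obtain ⟨N2, h2⟩ := far_all c0 ε hc0 hε
  refine ⟨max N1 N2, fun N hN r hr hrN => ?_⟩
  rcases le_total (r : ℝ) ((N : ℝ) ^ c0) with h3 | h3
  · exact h1 N ((le_max_left _ _).trans hN) r hr h3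
  · exact h2 N ((le_max_right _ _).trans hN) r h3 hrN

/-- The prediction is below one for EVERY tuple of distinct numbers: all lengths
`(1 + ε) y ≤ r ≤ N ^ (e ^ -γ - ε)`, all large `N`. -/
theorem pr_below (ε : ℝ) (hε : 0 < ε) : ∃ N0 : ℕ, ∀ N : ℕ, N0 ≤ N → ∀ r : ℕ,
    (1 + ε) * yy N ≤ r → (r : ℝ) ≤ (N : ℝ) ^ (eg⁻¹ - ε) → ∀ h ∈ Tup r (Icc 1 N),
    Function.Injective h → pr N h < 1 := by
  obtain ⟨c0, hc0, hsm⟩ := pr_small
  obtain ⟨N1, h1⟩ := hsm ε 2 hε (by norm_num)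
  obtain ⟨N2, h2⟩ := pr_less c0 ε hc0 hε
  refine ⟨max N1 N2, fun N hN r hr hrN h hh hi => ?_⟩
  rcases le_total (r : ℝ) ((N : ℝ) ^ c0) with h3 | h3
  · have := h1 N r ((le_max_left _ _).trans hN) hr h3 h hh hi
    linarith
  · exact h2 N ((le_max_right _ _).trans hN) r h3 hrN h hh hi

open scoped Classical in
/-- Beyond the threshold: no prime tuples; the prediction is below one up to `N ^ (e ^ -γ - ε)` and above `N` from
`N ^ (e ^ -γ + ε)` on. -/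
def ConcF (ε : ℝ) (N : ℕ) : Prop :=
  ∀ r : ℕ, (1 + ε) * yy N ≤ r → (r : ℝ) ≤ (N : ℝ) ^ (1 - ε) →
    ((r : ℝ) ≤ (N : ℝ) ^ (eg⁻¹ - ε) → ∀ h ∈ Tup r (Icc 1 N), Function.Injective h → pr N h < 1) ∧
    (((Tup r (Icc 1 N)).filter (fun h => Adm h ∧
      ¬ ((¬ ∃ n ∈ Icc 1 (2 * N), ∀ i, (n + h i).Prime) ∧
        ((N : ℝ) ^ (eg⁻¹ + ε) ≤ r → (N : ℝ) < pr N h)))).card : ℝ) ≤
      ε * ((Tup r (Icc 1 N)).filter (fun h => Adm h)).card

theorem conc_far (ε : ℝ) (hε : 0 < ε) : ∃ N0 : ℕ, ∀ N : ℕ, N0 ≤ N → ConcF ε N := by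
  classical
  obtain ⟨N1, h1⟩ := far_every (ε / 2) (by positivity)
  obtain ⟨N2, h2⟩ := pr_below ε hε
  obtain ⟨N3, h3⟩ := pr_big (ε / 2) (by positivity)
  have hev : ∀ᶠ N : ℕ in atTop, 1 ≤ Real.log N := Pool.Agent.Lib.MT.Wtd.log_large 1
  obtain ⟨N4, h4⟩ := eventually_atTop.1 hev
  refine ⟨max (max N1 N2) (max N3 (max N4 2)), fun N hN r hr hrN => ?_⟩
  have g1 : N1 ≤ N := ((le_max_left _ _).trans (le_max_left _ _)).trans hN
  have g2 : N2 ≤ N := ((le_max_right _ _).trans (le_max_left _ _)).trans hN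
  have g3 : N3 ≤ N := ((le_max_left _ _).trans (le_max_right _ _)).trans hN
  have g4 : N4 ≤ N :=
    ((le_max_left _ _).trans ((le_max_right _ _).trans (le_max_right _ _))).trans hN
  have g5 : 2 ≤ N :=
    ((le_max_right _ _).trans ((le_max_right _ _).trans (le_max_right _ _))).trans hN
  have hN1 : (1 : ℝ) ≤ N := by exact_mod_cast (by omega : 1 ≤ N)
  have hyy0 : 0 ≤ yy N := by
    unfold yy
    have := h4 N g4
    exact div_nonneg (by linarith) (Real.log_nonneg this)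
  refine ⟨fun hrg => h2 N g2 r hr hrg, ?_⟩
  have hr' : (1 + ε / 2) * yy N ≤ r := by
    refine le_trans (mul_le_mul_of_nonneg_right ?_ hyy0) hr
    linarith
  have hrN' : (r : ℝ) ≤ (N : ℝ) ^ (1 - ε / 2) :=
    hrN.trans (Real.rpow_le_rpow_of_exponent_le hN1 (by linarith))
  have b1 := h1 N g1 r hr' hrN'
  have hA0 : (0 : ℝ) ≤ ((Tup r (Icc 1 N)).filter (fun h => Adm h)).card := Nat.cast_nonneg _
  have b2 : (((Tup r (Icc 1 N)).filter (fun h => Adm h ∧ (N : ℝ) ^ (eg⁻¹ + ε) ≤ r ∧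
        ¬ (N : ℝ) < pr N h)).card : ℝ) ≤
      ε / 2 * ((Tup r (Icc 1 N)).filter (fun h => Adm h)).card := by
    by_cases hcase : (N : ℝ) ^ (eg⁻¹ + ε) ≤ r
    · have h5 : (N : ℝ) ^ (eg⁻¹ + ε / 2) ≤ r :=
        (Real.rpow_le_rpow_of_exponent_le hN1 (by linarith)).trans hcase
      refine le_trans (Nat.cast_le.2 (card_le_card fun h hh => ?_)) (h3 N g3 r h5 hrN')
      rw [mem_filter] at hh ⊢
      exact ⟨hh.1, hh.2.1, hh.2.2.2⟩
    · rw [filter_false_of_mem (fun h _ hh => hcase hh.2.1), card_empty, Nat.cast_zero]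
      positivity
  have hsub : (Tup r (Icc 1 N)).filter (fun h => Adm h ∧
      ¬ ((¬ ∃ n ∈ Icc 1 (2 * N), ∀ i, (n + h i).Prime) ∧
        ((N : ℝ) ^ (eg⁻¹ + ε) ≤ r → (N : ℝ) < pr N h))) ⊆
      (Tup r (Icc 1 N)).filter (fun h => Adm h ∧ ∃ n ∈ Icc 1 (2 * N), ∀ i, (n + h i).Prime) ∪
      (Tup r (Icc 1 N)).filter (fun h => Adm h ∧ (N : ℝ) ^ (eg⁻¹ + ε) ≤ r ∧
        ¬ (N : ℝ) < pr N h) := by
    intro h hh
    rw [mem_filter] at hh
    obtain ⟨hT, hA, hnot⟩ := hh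
    rw [mem_union, mem_filter, mem_filter]
    by_contra hcon
    rw [not_or] at hcon
    obtain ⟨q1, q2⟩ := hcon
    refine hnot ⟨fun hn => q1 ⟨hT, hA, hn⟩, fun a => ?_⟩
    by_contra hlt
    exact q2 ⟨hT, hA, a, hlt⟩
  have hcard : (((Tup r (Icc 1 N)).filter (fun h => Adm h ∧
      ¬ ((¬ ∃ n ∈ Icc 1 (2 * N), ∀ i, (n + h i).Prime) ∧
        ((N : ℝ) ^ (eg⁻¹ + ε) ≤ r → (N : ℝ) < pr N h)))).card : ℝ) ≤
      (((Tup r (Icc 1 N)).filter (fun h => Adm h ∧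
        ∃ n ∈ Icc 1 (2 * N), ∀ i, (n + h i).Prime)).card : ℝ) +
      (((Tup r (Icc 1 N)).filter (fun h => Adm h ∧ (N : ℝ) ^ (eg⁻¹ + ε) ≤ r ∧
        ¬ (N : ℝ) < pr N h)).card : ℝ) := by
    exact_mod_cast (card_le_card hsub).trans (card_union_le _ _)
  linarith

end Pool.Agent.Lib.LEN
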