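import Pool.Agent.Lib.LEN.FirstL
import Pool.Agent.Lib.LEN.DefsK

/-!
# LEN.KL: correlations of every order in classes, primes against the model

`GMV.TeleSq` with the weight `psi`, telescoping, Markov, union over the `PP w ≤ 4 ^ w ≤ Q ^ (1/40)` classes.
-/

set_option autoImplicit false

open Finset Filter

namespace Pool.Agent.Lib.LEN

open Pool.Agent.HLB Pool.Agent.HLT Pool.Agent.HLR Pool.Agent.Lib.GMV

namespace SlotAux

/-- Splitting off one coordinate of a tuple. -/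
lemma sum_Tup {m : ℕ} (B : Finset ℕ) (j : Fin (m + 1)) (u : (Fin (m + 1) → ℕ) → ℝ) :
    ∑ h ∈ Tup (m + 1) B, u h = ∑ h' ∈ Tup m B, ∑ t ∈ B, u (j.insertNth t h') := by
  rw [← Finset.sum_product']
  symm
  refine Finset.sum_bij' (fun p _ => j.insertNth p.2 p.1)
    (fun h _ => (fun i => h (j.succAbove i), h j)) ?_ ?_ ?_ ?_ ?_
  · rintro ⟨h', t⟩ hp
    rw [Finset.mem_product] at hp
    rw [mem_Tup]
    intro i
    simp only
    rcases Fin.eq_self_or_eq_succAbove j i with rfl | ⟨i', rfl⟩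
    · rw [Fin.insertNth_apply_same]
      exact hp.2
    · rw [Fin.insertNth_apply_succAbove]
      exact mem_Tup.1 hp.1 i'
  · intro h hh
    rw [mem_Tup] at hh
    rw [Finset.mem_product]
    exact ⟨mem_Tup.2 fun i => hh _, hh _⟩
  · rintro ⟨h', t⟩ _
    simp only [Fin.insertNth_apply_succAbove, Fin.insertNth_apply_same]
  · intro h _
    simp only
    exact Fin.insertNth_self_removeNth j h
  · rintro ⟨h', t⟩ _
    rfl

/-- `GMV.tele_sq` with a bounded weight. -/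
theorem tele_sq_psi (k X y : ℕ) (hX : 1 ≤ X) (hy : y ≤ X) (ψ : ℕ → ℂ) (hψ : ∀ n, ‖ψ n‖ ≤ 1)
    (f : Fin k → ℕ → ℂ) (j : Fin k) (A B : ℝ)
    (hA : ∀ t, ‖ft (4 * X) (f j) t‖ ≤ A)
    (hB : ∀ i, i ≠ j → ∑ m ∈ range (4 * X), ‖f i m‖ ^ 2 ≤ B) :
    ∑ h ∈ Tup k (Icc 1 X), ‖∑ n ∈ Icc 1 y, ψ n * ∏ i, f i (n + h i)‖ ^ 2 ≤
      A ^ 2 * y * B ^ (k - 1) := by
  obtain ⟨m, rfl⟩ : ∃ m, k = m + 1 := ⟨k - 1, by have := j.2; omega⟩
  rw [sum_Tup (Icc 1 X) j]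
  have h1 : ∀ h' ∈ Tup m (Icc 1 X), ∑ t ∈ Icc 1 X,
      ‖∑ n ∈ Icc 1 y, ψ n * ∏ i, f i (n + (j.insertNth t h' : Fin (m + 1) → ℕ) i)‖ ^ 2 ≤
      A ^ 2 * ∑ n ∈ Icc 1 y, ∏ i : Fin m, ‖f (j.succAbove i) (n + h' i)‖ ^ 2 := by
    intro h' _
    have h2 := one_slot hX hy (f j) (fun n => ψ n * ∏ i : Fin m, f (j.succAbove i) (n + h' i)) hA
    refine (le_of_eq ?_).trans (h2.trans ?_)
    · refine Finset.sum_congr rfl fun t _ => ?_
      congr 2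
      refine Finset.sum_congr rfl fun n _ => ?_
      rw [Fin.prod_univ_succAbove _ j, Fin.insertNth_apply_same, mul_comm (f j (n + t)),
        ← mul_assoc]
      congr 2
      refine Finset.prod_congr rfl fun i _ => ?_
      rw [Fin.insertNth_apply_succAbove]
    · refine mul_le_mul_of_nonneg_left (Finset.sum_le_sum fun n _ => ?_) (sq_nonneg _)
      rw [norm_mul, mul_pow, norm_prod, Finset.prod_pow]
      exact mul_le_of_le_one_left (by positivity) (pow_le_one₀ (norm_nonneg _) (hψ n))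
  refine (Finset.sum_le_sum h1).trans ?_
  rw [← Finset.mul_sum, Finset.sum_comm, mul_assoc]
  refine mul_le_mul_of_nonneg_left ?_ (sq_nonneg _)
  have h3 : ∀ n ∈ Icc 1 y, ∑ h' ∈ Tup m (Icc 1 X),
      ∏ i : Fin m, ‖f (j.succAbove i) (n + h' i)‖ ^ 2 ≤ B ^ m := by
    intro n hn
    rw [Finset.mem_Icc] at hn
    unfold Tup
    rw [← Finset.prod_univ_sum (fun _ : Fin m => Icc 1 X)
      (fun i t => ‖f (j.succAbove i) (n + t)‖ ^ 2)]
    have h4 : ∀ i : Fin m, ∑ t ∈ Icc 1 X, ‖f (j.succAbove i) (n + t)‖ ^ 2 ≤ B := by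
      intro i
      refine le_trans ?_ (hB (j.succAbove i) (Fin.succAbove_ne j i))
      have h5 : ∑ t ∈ Icc 1 X, ‖f (j.succAbove i) (n + t)‖ ^ 2 =
          ∑ s ∈ (Icc 1 X).map (addLeftEmbedding n), ‖f (j.succAbove i) s‖ ^ 2 := by
        rw [Finset.sum_map]
        rfl
      rw [h5]
      refine Finset.sum_le_sum_of_subset_of_nonneg ?_ (fun _ _ _ => sq_nonneg _)
      intro s hs
      rw [Finset.mem_map] at hs
      obtain ⟨t, ht, rfl⟩ := hs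
      rw [Finset.mem_Icc] at ht
      rw [Finset.mem_range, addLeftEmbedding_apply]
      omega
    refine (Finset.prod_le_prod (fun i _ => Finset.sum_nonneg fun _ _ => sq_nonneg _)
      (fun i _ => h4 i)).trans_eq ?_
    rw [Finset.prod_const, Finset.card_univ, Fintype.card_fin]
  refine (Finset.sum_le_sum h3).trans_eq ?_
  rw [Finset.sum_const, Nat.card_Icc, Nat.add_sub_cancel, nsmul_eq_mul, Nat.add_sub_cancel]

/-- The telescoping terms. -/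
theorem tele {k : ℕ} (a b : Fin k → ℂ) :
    ∏ i, a i - ∏ i, b i =
      ∑ j, ∏ i, (if i < j then b i else if i = j then a i - b i else a i) := by
  have h := Finset.prod_sub_ordered (Finset.univ : Finset (Fin k)) a (fun i => a i - b i)
  have e1 : ∏ i, (a i - (a i - b i)) = ∏ i, b i := Finset.prod_congr rfl fun i _ => by ring
  rw [e1] at h
  have e2 : ∀ j : Fin k, ∏ i, (if i < j then b i else if i = j then a i - b i else a i) =
      (a j - b j) * (∏ i with i < j, (a i - (a i - b i))) * ∏ i with j < i, a i := by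
    intro j
    have h1 : ∀ i : Fin k, (if i < j then b i else if i = j then a i - b i else a i) =
        (if i = j then a i - b i else 1) * (if i < j then (a i - (a i - b i)) else 1) *
          (if j < i then a i else 1) := by
      intro i
      rcases lt_trichotomy i j with h2 | h2 | h2
      · rw [if_pos h2, if_neg h2.ne, if_pos h2, if_neg (not_lt.mpr h2.le)]
        ring
      · subst h2
        rw [if_neg (lt_irrefl _), if_pos rfl, if_pos rfl, if_neg (lt_irrefl _),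
          if_neg (lt_irrefl _)]
        ring
      · rw [if_neg (not_lt.mpr h2.le), if_neg h2.ne', if_neg h2.ne', if_neg (not_lt.mpr h2.le),
          if_pos h2]
        ring
    rw [Finset.prod_congr rfl fun i _ => h1 i, Finset.prod_mul_distrib, Finset.prod_mul_distrib,
      Finset.prod_ite_eq' Finset.univ j, if_pos (Finset.mem_univ j), Finset.prod_filter,
      Finset.prod_filter]
  rw [Finset.sum_congr rfl fun j _ => e2 j, h]
  ring

/-- The square of a norm of a sum of `k` terms. -/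
lemma norm_sum_sq {k : ℕ} (z : Fin k → ℂ) : ‖∑ j, z j‖ ^ 2 ≤ k * ∑ j, ‖z j‖ ^ 2 := by
  have h3 := sq_sum_le_card_mul_sum_sq (s := (Finset.univ : Finset (Fin k)))
    (f := fun j => ‖z j‖)
  rw [Finset.card_univ, Fintype.card_fin] at h3
  exact (pow_le_pow_left₀ (norm_nonneg _) (norm_sum_le _ _) 2).trans h3

end SlotAux

open SlotAux

/-- Correlations of order `k` in classes: all but `N ^ k Q ^ (-1/4)` tuples, uniformly in the class. -/
theorem kL0 (k : ℕ) (hk : 1 ≤ k) (B : ℝ) : ∃ c : ℝ, 0 < c ∧ ∃ X0 : ℕ, ∀ N Q w : ℕ, X0 ≤ N →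
    Rg c (2 * N) Q → 4 ^ (40 * w) ≤ Q → ∀ b : CI → ℝ,
    (∀ x ∈ Ch Q, ∀ n, ‖Mc (2 * N) Q x n‖ ≤ b x) → ∑ x ∈ Ch Q, b x ≤ B →
    ∃ Bd : Finset (Fin k → ℕ), (Bd.card : ℝ) ≤ (N : ℝ) ^ k * (Q : ℝ) ^ (-(1 / 4 : ℝ)) ∧
    ∀ c', ∀ n ∈ Tup k (Icc 1 (2 * N)), n ∉ Bd →
      ‖((∑ h ∈ cls N w c', ∏ j, W (2 * N) Q (n j + h) : ℝ) : ℂ) - ∑ h ∈ Icc 1 N, (psi w c' h : ℂ) *
        ∏ j, LL (2 * N) Q (Q ^ (8 * k)) (h + n j)‖ ≤
      N * (Q : ℝ) ^ (-(1 / 10 : ℝ)) := by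
  classical
  obtain ⟨c, hc, hc20, X1, hft⟩ := ft_WL (8 * k) (by omega) B
  obtain ⟨X2, hW⟩ := l2W
  obtain ⟨K, X3, hL⟩ := l2L (8 * k) B
  obtain ⟨K', hK', hK3⟩ : ∃ K' : ℕ, K ≤ K' ∧ 3 ≤ K' := ⟨max K 3, le_max_left _ _, le_max_right _ _⟩
  obtain ⟨X4, hg⟩ := growth ((k : ℝ) ^ 2 * 64 * 2 ^ (k - 1)) (K' * (k - 1)) (13 / 40) (by norm_num)
  obtain ⟨X5, hlg⟩ := log_large
  refine ⟨c, hc, max (max X1 X2) (max (max X3 X4) (max X5 1)), ?_⟩
  intro N Q w hN hR hw b hb hbB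
  have hN' := hN
  simp only [max_le_iff] at hN'
  obtain ⟨⟨hN1, hN2⟩, ⟨hN3, hN4⟩, hN5, hN6⟩ := hN'
  obtain ⟨hlog, hX1, hQ2⟩ := hlg (2 * N) Q (by omega) hR.1
  have hg1 := hg (2 * N) Q (by omega) hR.1
  have hQ1 : (1 : ℝ) ≤ Q := by exact_mod_cast (by omega : 1 ≤ Q)
  have hQ0 : (0 : ℝ) < Q := by linarith
  have hNr : (0 : ℝ) < N := by exact_mod_cast hN6
  have hlog1 : 1 ≤ Real.log ((2 * N : ℕ) : ℝ) := by linarith
  obtain ⟨L, hLe⟩ : ∃ L : ℝ, L = Real.log ((2 * N : ℕ) : ℝ) ^ K' := ⟨_, rfl⟩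
  have hL0 : 0 ≤ L := by rw [hLe]; exact pow_nonneg (by linarith) _
  have hXr : (1 : ℝ) ≤ ((2 * N : ℕ) : ℝ) := by exact_mod_cast hX1
  have hQ5 : Q ^ 5 ≤ 2 * N := by
    have hR1 := (FreeYAux.Rg_mono hc20 hX1 hR).2
    have h9 : ((Q : ℝ)) ^ 5 ≤ ((2 * N : ℕ) : ℝ) := by
      calc (Q : ℝ) ^ 5 ≤ (((2 * N : ℕ) : ℝ) ^ (1 / 20 : ℝ)) ^ 5 := pow_le_pow_left₀ hQ0.le hR1 5
        _ = ((2 * N : ℕ) : ℝ) ^ (1 / 4 : ℝ) := by
            rw [← Real.rpow_natCast, ← Real.rpow_mul (by linarith)]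
            norm_num
        _ ≤ ((2 * N : ℕ) : ℝ) ^ (1 : ℝ) := Real.rpow_le_rpow_of_exponent_le hXr (by norm_num)
        _ = _ := Real.rpow_one _
    exact_mod_cast h9
  have hWb : ∑ m ∈ range (4 * (2 * N)), ‖(W (2 * N) Q m : ℂ)‖ ^ 2 ≤ 2 * N * L := by
    have h10 := hW (2 * N) Q (by omega)
    have h11 : ∑ m ∈ range (4 * (2 * N)), ‖(W (2 * N) Q m : ℂ)‖ ^ 2 =
        ∑ m ∈ range (4 * (2 * N)), W (2 * N) Q m ^ 2 := by
      refine Finset.sum_congr rfl fun m _ => ?_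
      rw [Complex.norm_real, Real.norm_eq_abs, sq_abs]
    rw [h11]
    refine h10.trans ?_
    rw [hLe, Nat.cast_mul, Nat.cast_two]
    refine mul_le_mul_of_nonneg_left ?_ (by positivity)
    have := pow_le_pow_right₀ hlog1 hK3
    push_cast at this
    exact this
  have hLb : ∑ m ∈ range (4 * (2 * N)), ‖LL (2 * N) Q (Q ^ (8 * k)) m‖ ^ 2 ≤ 2 * N * L := by
    refine (hL (2 * N) Q (by omega) hQ2 hQ5 b hb hbB).trans ?_
    rw [hLe, Nat.cast_mul, Nat.cast_two]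
    refine mul_le_mul_of_nonneg_left ?_ (by positivity)
    have := pow_le_pow_right₀ hlog1 hK'
    push_cast at this
    exact this
  obtain ⟨f, hf⟩ : ∃ f : ℕ → ℂ, f = fun m =>
      (W (2 * N) Q m : ℂ) - LL (2 * N) Q (Q ^ (8 * k)) m := ⟨_, rfl⟩
  have hA : ∀ t, ‖ft (4 * (2 * N)) f t‖ ≤ 4 * (2 * N) * (Q : ℝ) ^ (-(2 / 5 : ℝ)) := by
    intro t
    have h := hft (2 * N) Q (by omega) hR b hb hbB t
    rw [hf]
    push_cast at h ⊢
    exact h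
  obtain ⟨Ff, hFf⟩ : ∃ Ff : Fin k → Fin k → ℕ → ℂ, Ff = fun j i m =>
      if i < j then LL (2 * N) Q (Q ^ (8 * k)) m
      else if i = j then (W (2 * N) Q m : ℂ) - LL (2 * N) Q (Q ^ (8 * k)) m
        else (W (2 * N) Q m : ℂ) := ⟨_, rfl⟩
  obtain ⟨S, hS⟩ : ∃ S : ℕ → (Fin k → ℕ) → ℂ, S = fun c' n =>
      ∑ j, ∑ h ∈ Icc 1 N, (psi w c' h : ℂ) * ∏ i, Ff j i (h + n i) := ⟨_, rfl⟩
  have hMj : ∀ c', ∀ j : Fin k, ∑ n ∈ Tup k (Icc 1 (2 * N)),
      ‖∑ h ∈ Icc 1 N, (psi w c' h : ℂ) * ∏ i, Ff j i (h + n i)‖ ^ 2 ≤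
      64 * ((N : ℝ) ^ 2 * (Q : ℝ) ^ (-(4 / 5 : ℝ))) * N * (2 * N * L) ^ (k - 1) := by
    intro c' j
    have h14 := tele_sq_psi k (2 * N) N (by omega) (by omega) (fun h => (psi w c' h : ℂ))
      (norm_psi_le w c') (Ff j) j _ (2 * N * L) (by
      intro t
      have e2 : Ff j j = f := by
        funext m
        rw [hFf, hf]
        simp
      rw [e2]
      exact hA t) (by
      intro i hij
      rcases lt_or_gt_of_ne hij with h15 | h15
      · have e2 : Ff j i = fun m => LL (2 * N) Q (Q ^ (8 * k)) m := by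
          funext m
          rw [hFf]
          simp [h15]
        rw [e2]
        exact hLb
      · have e2 : Ff j i = fun m => (W (2 * N) Q m : ℂ) := by
          funext m
          rw [hFf]
          simp [not_lt.mpr h15.le, hij]
        rw [e2]
        exact hWb)
    rw [sq_A hQ0] at h14
    exact h14
  have hM : ∀ c' < PP w, ∑ n ∈ Tup k (Icc 1 (2 * N)), ‖S c' n‖ ^ 2 ≤
      (k : ℝ) ^ 2 * 64 * 2 ^ (k - 1) * L ^ (k - 1) *
        ((N : ℝ) ^ (k + 2) * (Q : ℝ) ^ (-(4 / 5 : ℝ))) := by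
    intro c' _
    have h3 : ∀ n ∈ Tup k (Icc 1 (2 * N)), ‖S c' n‖ ^ 2 ≤
        k * ∑ j, ‖∑ h ∈ Icc 1 N, (psi w c' h : ℂ) * ∏ i, Ff j i (h + n i)‖ ^ 2 := by
      intro n _
      rw [hS]
      exact norm_sum_sq _
    refine (Finset.sum_le_sum h3).trans ?_
    rw [← Finset.mul_sum, Finset.sum_comm]
    refine (mul_le_mul_of_nonneg_left (Finset.sum_le_sum fun j _ => hMj c' j)
      (Nat.cast_nonneg k)).trans_eq ?_
    rw [Finset.sum_const, Finset.card_univ, Fintype.card_fin, nsmul_eq_mul]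
    obtain ⟨m, rfl⟩ : ∃ m, k = m + 1 := ⟨k - 1, by omega⟩
    rw [Nat.add_sub_cancel]
    push_cast
    ring
  have hθ : 0 < (N : ℝ) * (Q : ℝ) ^ (-(1 / 10 : ℝ)) := by positivity
  have hmk := markov_union (Tup k (Icc 1 (2 * N))) (PP w) S _ _ hθ hM
  refine ⟨(Tup k (Icc 1 (2 * N))).filter fun p => ∃ c' < PP w,
    N * (Q : ℝ) ^ (-(1 / 10 : ℝ)) < ‖S c' p‖, ?_, ?_⟩
  · refine final (N := N) (Q := Q) (m := PP w)
      (D := (k : ℝ) ^ 2 * 64 * 2 ^ (k - 1) * L ^ (k - 1)) k hNr hQ1 (Nat.cast_nonneg _)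
      (PP_le_rpow hw) (by positivity) ?_ hmk
    rw [hLe, ← pow_mul]
    exact hg1
  · intro c' n hn hnB
    have h6 : ¬ ∃ c' < PP w, N * (Q : ℝ) ^ (-(1 / 10 : ℝ)) < ‖S c' n‖ := fun h7 =>
      hnB (Finset.mem_filter.2 ⟨hn, h7⟩)
    push Not at h6
    have h8 := h6 (c' % PP w) (Nat.mod_lt _ (PP_pos w))
    have h9 : ((∑ h ∈ cls N w c', ∏ j, W (2 * N) Q (n j + h) : ℝ) : ℂ) -
        ∑ h ∈ Icc 1 N, (psi w c' h : ℂ) * ∏ j, LL (2 * N) Q (Q ^ (8 * k)) (h + n j) =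
        S (c' % PP w) n := by
      rw [sum_cls, hS]
      push_cast
      beta_reduce
      rw [← Finset.sum_sub_distrib, Finset.sum_comm]
      refine Finset.sum_congr rfl fun h _ => ?_
      rw [← Finset.mul_sum, psi_mod, ← mul_sub]
      congr 1
      have h10 := tele (fun i => (W (2 * N) Q (h + n i) : ℂ))
        (fun i => LL (2 * N) Q (Q ^ (8 * k)) (h + n i))
      rw [hFf]
      simp only at h10 ⊢
      rw [← h10]
      congr 1
      refine Finset.prod_congr rfl fun i _ => ?_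
      rw [Nat.add_comm]
    rw [h9]
    exact h8

theorem kL (k : ℕ) (hk : 1 ≤ k) (B : ℝ) : ∃ c : ℝ, 0 < c ∧ ∃ X0 : ℕ, ∀ N Q w : ℕ, X0 ≤ N →
    Rg c (2 * N) Q → 4 ^ (40 * w) ≤ Q → ∀ b : CI → ℝ,
    (∀ x ∈ Ch Q, ∀ n, ‖Mc (2 * N) Q x n‖ ≤ b x) → ∑ x ∈ Ch Q, b x ≤ B →
    ∃ Bd : Finset (Fin k → ℕ), (Bd.card : ℝ) ≤ (N : ℝ) ^ k * (Q : ℝ) ^ (-(1 / 4 : ℝ)) ∧
    ∀ c', ∀ n ∈ Tup k (Icc 1 (2 * N)), n ∉ Bd →
      ‖(CK (W (2 * N) Q) N w c' n : ℂ) - ∑ h ∈ Icc 1 N, (psi w c' h : ℂ) *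
        ∏ j, LL (2 * N) Q (Q ^ (8 * k)) (h + n j)‖ ≤ N * (Q : ℝ) ^ (-(1 / 10 : ℝ)) :=
  kL0 k hk B

end Pool.Agent.Lib.LEN
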