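import Pool.Agent.Lib.LEN.DefsK
import Pool.Agent.Lib.LEN.Szc
import Pool.Agent.Lib.LEN.PrS

/-!
# LEN.LocK: the local factors above `w` of a `k`-tuple
-/

set_option autoImplicit false

open Finset Filter

namespace Pool.Agent.Lib.LEN

open Pool.Agent.HLB Pool.Agent.HLT Pool.Agent.HLR Pool.Agent.Lib.GMV

namespace LocKAux

/-- The pairs with the same value. -/
def prs {k : ℕ} {α : Type} [DecidableEq α] (g : Fin k → α) (i : Fin k) : Finset (Fin k) :=
  univ.filter fun j => i < j ∧ g i = g j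

/-- The number of values plus the number of coinciding pairs is at least `k`. -/
lemma card_le {k : ℕ} {α : Type} [DecidableEq α] (g : Fin k → α) :
    k ≤ (univ.image g).card + ∑ i, (prs g i).card := by
  classical
  -- `T` : the indices with a later index of the same value
  set T : Finset (Fin k) := univ.filter fun i => ∃ j, i < j ∧ g i = g j with hT
  have h1 : T.card ≤ ∑ i, (prs g i).card := by
    have h2 : T.card = ∑ i ∈ T, 1 := by simp
    rw [h2]
    calc ∑ i ∈ T, 1 ≤ ∑ i ∈ T, (prs g i).card := by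
          refine Finset.sum_le_sum fun i hi => ?_
          rw [hT, Finset.mem_filter] at hi
          obtain ⟨-, j, hj⟩ := hi
          exact Finset.card_pos.2 ⟨j, Finset.mem_filter.2 ⟨Finset.mem_univ _, hj⟩⟩
      _ ≤ ∑ i, (prs g i).card :=
          Finset.sum_le_sum_of_subset_of_nonneg (Finset.subset_univ _) fun _ _ _ => Nat.zero_le _
  have h3 : Tᶜ.card ≤ (univ.image g).card := by
    refine Finset.card_le_card_of_injOn g (fun i _ => Finset.mem_coe.2
      (Finset.mem_image_of_mem g (Finset.mem_univ i))) ?_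
    intro i hi j hj hij
    by_contra hne
    rcases lt_or_gt_of_ne hne with h4 | h4
    · exact (Finset.mem_compl.1 (Finset.mem_coe.1 hi)) (Finset.mem_filter.2
        ⟨Finset.mem_univ _, j, h4, hij⟩)
    · exact (Finset.mem_compl.1 (Finset.mem_coe.1 hj)) (Finset.mem_filter.2
        ⟨Finset.mem_univ _, i, h4, hij.symm⟩)
  have h5 : T.card + Tᶜ.card = k := by
    rw [Finset.card_add_card_compl, Fintype.card_fin]
  omega

lemma dvd_dist (p n n' : ℕ) : p ∣ Nat.dist n n' ↔ ((n : ℕ) : ZMod p) = ((n' : ℕ) : ZMod p) := by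
  rw [ZMod.natCast_eq_natCast_iff]
  rcases le_total n n' with hle | hle
  · rw [Nat.dist_eq_sub_of_le hle, Nat.modEq_iff_dvd' hle]
  · rw [Nat.dist_eq_sub_of_le_right hle]
    exact ((Nat.modEq_iff_dvd' hle).symm).trans ⟨Nat.ModEq.symm, Nat.ModEq.symm⟩

lemma one_le_inv {p : ℕ} (hp : p.Prime) : 1 ≤ (1 - 1 / (p : ℝ))⁻¹ := by
  refine (one_le_inv₀ (szc_one_sub hp)).2 ?_
  have : (0 : ℝ) ≤ 1 / (p : ℝ) := by positivity
  linarith

/-- One local factor. -/
lemma locI_le {k : ℕ} (n : Fin k → ℕ) {p : ℕ} (hp : p.Prime) :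
    locI n p ≤ ∏ i, ∏ j ∈ univ.filter (fun j => i < j),
      if p ∣ Nat.dist (n i) (n j) then (1 - 1 / (p : ℝ))⁻¹ else 1 := by
  classical
  have hp2 : (2 : ℝ) ≤ p := by exact_mod_cast hp.two_le
  obtain ⟨q, hq⟩ : ∃ q : ℝ, q = 1 - 1 / (p : ℝ) := ⟨_, rfl⟩
  have h0 : 0 < q := by rw [hq]; exact szc_one_sub hp
  rw [← hq]
  have e1 : ∀ i : Fin k, ∏ j ∈ univ.filter (fun j => i < j),
      (if p ∣ Nat.dist (n i) (n j) then q⁻¹ else 1) =
      q⁻¹ ^ (prs (fun i => ((n i : ℕ) : ZMod p)) i).card := by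
    intro i
    rw [← Finset.prod_filter, Finset.prod_const, Finset.filter_filter]
    congr 2
    ext j
    simp only [prs, Finset.mem_filter, Finset.mem_univ, true_and, dvd_dist]
  rw [Finset.prod_congr rfl fun i _ => e1 i, Finset.prod_pow_eq_pow_sum]
  obtain ⟨ν, hν⟩ : ∃ ν, ν = nuI n p := ⟨_, rfl⟩
  have h2 : k ≤ ν + ∑ i, (prs (fun i => ((n i : ℕ) : ZMod p)) i).card := by
    rw [hν]
    unfold nuI
    convert card_le (fun i => ((n i : ℕ) : ZMod p))
  have hνk : ν ≤ k := by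
    have := nuI_le n p
    rw [Fintype.card_fin] at this
    omega
  unfold locI
  rw [Fintype.card_fin, ← hν, ← hq]
  have h3 : 1 - (ν : ℝ) / p ≤ q ^ ν := by
    have h4 := one_add_mul_le_pow (a := -(1 / (p : ℝ))) (by
      have : 1 / (p : ℝ) ≤ 1 := by
        rw [div_le_one (by linarith)]
        linarith
      linarith) ν
    have e2 : 1 + (ν : ℝ) * -(1 / (p : ℝ)) = 1 - ν / p := by ring
    have e3 : 1 + -(1 / (p : ℝ)) = q := by rw [hq]; ring
    rwa [e2, e3] at h4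
  have hqi : 1 ≤ q⁻¹ := by rw [hq]; exact one_le_inv hp
  calc (1 - (ν : ℝ) / p) * q⁻¹ ^ k ≤ q ^ ν * q⁻¹ ^ k :=
        mul_le_mul_of_nonneg_right h3 (by positivity)
    _ = q⁻¹ ^ (k - ν) := by
        obtain ⟨m, rfl⟩ : ∃ m, k = ν + m := ⟨k - ν, by omega⟩
        rw [pow_add, ← mul_assoc, ← mul_pow, mul_inv_cancel₀ h0.ne', one_pow, one_mul,
          Nat.add_sub_cancel_left]
    _ ≤ q⁻¹ ^ ∑ i, (prs (fun i => ((n i : ℕ) : ZMod p)) i).card :=
        pow_le_pow_right₀ hqi (by omega)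

/-- Product over the primes of one pair. -/
lemma prod_pair (Y w d : ℕ) (hd : d ≠ 0) :
    ∏ p ∈ (Nat.primesLE Y).filter (fun p => w < p), (if p ∣ d then (1 - 1 / (p : ℝ))⁻¹ else 1) ≤
      ss w d := by
  classical
  rw [← Finset.prod_filter]
  unfold ss
  have hone : ∀ p ∈ d.primeFactors.filter (fun p => w < p), (1 : ℝ) ≤ (1 - 1 / (p : ℝ))⁻¹ :=
    fun p hp => one_le_inv (Nat.prime_of_mem_primeFactors (Finset.mem_filter.1 hp).1)
  have hsub : ((Nat.primesLE Y).filter (fun p => w < p)).filter (fun p => p ∣ d) ⊆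
      d.primeFactors.filter (fun p => w < p) := by
    intro p hp
    simp only [Finset.mem_filter] at hp
    exact Finset.mem_filter.2 ⟨Nat.mem_primeFactors.2
      ⟨(Nat.mem_primesLE.1 hp.1.1).2, hp.2, hd⟩, hp.1.2⟩
  rw [← Finset.prod_sdiff hsub]
  refine le_mul_of_one_le_left (Finset.prod_nonneg fun p hp =>
    zero_le_one.trans (hone p (hsub hp))) ?_
  exact Finset.prod_induction _ (fun x => (1 : ℝ) ≤ x)
    (fun a b ha hb => one_le_mul_of_one_le_of_one_le ha hb) le_rfl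
    (fun p hp => hone p (Finset.mem_sdiff.1 hp).1)

/-- `1 - ∑ a ≤ ∏ (1 - a)`. -/
lemma one_sub_sum_le {ι : Type} (s : Finset ι) (a : ι → ℝ) (h0 : ∀ i ∈ s, 0 ≤ a i)
    (h1 : ∀ i ∈ s, a i ≤ 1) : 1 - ∑ i ∈ s, a i ≤ ∏ i ∈ s, (1 - a i) := by
  classical
  induction s using Finset.induction_on with
  | empty => simp
  | insert i s hi ih =>
    rw [Finset.sum_insert hi, Finset.prod_insert hi]
    have h2 := ih (fun j hj => h0 j (Finset.mem_insert_of_mem hj))
      (fun j hj => h1 j (Finset.mem_insert_of_mem hj))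
    have h3 := h0 i (Finset.mem_insert_self _ _)
    have h4 := h1 i (Finset.mem_insert_self _ _)
    have h5 : 0 ≤ ∑ j ∈ s, a j := Finset.sum_nonneg fun j hj =>
      h0 j (Finset.mem_insert_of_mem hj)
    have h6 : (1 - a i) * (1 - ∑ j ∈ s, a j) ≤ (1 - a i) * ∏ j ∈ s, (1 - a j) :=
      mul_le_mul_of_nonneg_left h2 (by linarith)
    nlinarith

end LocKAux

open LocKAux

/-- Local factors above `w`, upper bound. -/
theorem locI_le_sk (Y w : ℕ) {k : ℕ} (n : Fin k → ℕ) (hn : Function.Injective n) :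
    ∏ p ∈ (Nat.primesLE Y).filter (fun p => w < p), locI n p ≤ sk w n := by
  classical
  set S := (Nat.primesLE Y).filter (fun p => w < p) with hS
  have hSp : ∀ p ∈ S, p.Prime := fun p hp => (Nat.mem_primesLE.1 (Finset.mem_filter.1 hp).1).2
  have h1 : ∏ p ∈ S, locI n p ≤ ∏ p ∈ S, ∏ i, ∏ j ∈ univ.filter (fun j => i < j),
      (if p ∣ Nat.dist (n i) (n j) then (1 - 1 / (p : ℝ))⁻¹ else 1) :=
    Finset.prod_le_prod (fun p hp => locI_nonneg n (hSp p hp)) fun p hp => locI_le n (hSp p hp)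
  refine h1.trans ?_
  rw [Finset.prod_comm]
  unfold sk
  have hpos : ∀ (i j : Fin k), ∀ p ∈ S, (0 : ℝ) ≤
      (if p ∣ Nat.dist (n i) (n j) then (1 - 1 / (p : ℝ))⁻¹ else 1) := by
    intro i j p hp
    split_ifs
    · exact (inv_pos.2 (szc_one_sub (hSp p hp))).le
    · norm_num
  refine Finset.prod_le_prod (fun i _ => Finset.prod_nonneg fun p hp =>
    Finset.prod_nonneg fun j _ => hpos i j p hp) fun i _ => ?_
  rw [Finset.prod_comm]
  refine Finset.prod_le_prod (fun j _ => Finset.prod_nonneg fun p hp => hpos i j p hp)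
    fun j hj => ?_
  refine prod_pair Y w _ ?_
  intro h0
  have h2 := hn (Nat.eq_of_dist_eq_zero h0)
  exact absurd h2 (ne_of_lt (Finset.mem_filter.1 hj).2)

/-- Local factors above `w`, lower bound. -/
theorem locI_ge (k : ℕ) : ∃ C : ℝ, 0 < C ∧ ∃ w0 : ℕ, ∀ w : ℕ, w0 ≤ w → ∀ (Y : ℕ) (n : Fin k → ℕ),
    1 - C / (w * Real.log w) ≤ ∏ p ∈ (Nat.primesLE Y).filter (fun p => w < p), locI n p := by
  classical
  obtain ⟨C0, hC0, hpr⟩ := prS
  refine ⟨(k : ℝ) ^ 2 * C0 + 1, by positivity, max 2 k, fun w hw Y n => ?_⟩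
  have hw2 : 2 ≤ w := (le_max_left _ _).trans hw
  have hwk : k ≤ w := (le_max_right _ _).trans hw
  set S := (Nat.primesLE Y).filter (fun p => w < p) with hS
  have hSp : ∀ p ∈ S, p.Prime := fun p hp => (Nat.mem_primesLE.1 (Finset.mem_filter.1 hp).1).2
  have hSw : ∀ p ∈ S, w < p := fun p hp => (Finset.mem_filter.1 hp).2
  have hwr : (2 : ℝ) ≤ w := by exact_mod_cast hw2
  have hlog : 0 < Real.log w := Real.log_pos (by linarith)
  have h1 : ∀ p ∈ S, 1 - (k : ℝ) ^ 2 / (p : ℝ) ^ 2 ≤ locI n p := by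
    intro p hp
    have hpp := hSp p hp
    have h0 := szc_one_sub hpp
    have hp0 : (0 : ℝ) < p := by exact_mod_cast hpp.pos
    have hkp : (k : ℝ) < p := by exact_mod_cast lt_of_le_of_lt hwk (hSw p hp)
    unfold locI
    rw [Fintype.card_fin]
    have h2 : 1 + (k : ℝ) / p ≤ (1 - 1 / (p : ℝ))⁻¹ ^ k := by
      have h3 : 1 + 1 / (p : ℝ) ≤ (1 - 1 / (p : ℝ))⁻¹ := by
        rw [← one_div (1 - 1 / (p : ℝ)), le_div_iff₀ h0]
        nlinarith [sq_nonneg (1 / (p : ℝ))]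
      have h4 := one_add_mul_le_pow (a := 1 / (p : ℝ)) (by
        have : (0 : ℝ) ≤ 1 / (p : ℝ) := by positivity
        linarith) k
      have e1 : 1 + (k : ℝ) * (1 / (p : ℝ)) = 1 + k / p := by ring
      rw [e1] at h4
      exact h4.trans (pow_le_pow_left₀ (by positivity) h3 k)
    have h5 : 1 - (k : ℝ) / p ≤ 1 - (nuI n p : ℝ) / p := by
      have h6 : (nuI n p : ℝ) ≤ k := by
        have := nuI_le n p
        rw [Fintype.card_fin] at this
        exact_mod_cast this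
      have := div_le_div_of_nonneg_right h6 hp0.le
      linarith
    have h7 : 0 ≤ 1 - (k : ℝ) / p := by
      rw [sub_nonneg, div_le_one hp0]
      exact hkp.le
    calc 1 - (k : ℝ) ^ 2 / (p : ℝ) ^ 2 = (1 - (k : ℝ) / p) * (1 + k / p) := by
          field_simp
          ring
      _ ≤ (1 - (nuI n p : ℝ) / p) * (1 - 1 / (p : ℝ))⁻¹ ^ k :=
          mul_le_mul h5 h2 (by positivity) (h7.trans h5)
  have h8 : ∀ p ∈ S, (k : ℝ) ^ 2 / (p : ℝ) ^ 2 ≤ 1 := by
    intro p hp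
    have hkp : (k : ℝ) < p := by exact_mod_cast lt_of_le_of_lt hwk (hSw p hp)
    have hp0 : (0 : ℝ) < p := by exact_mod_cast (hSp p hp).pos
    rw [div_le_one (by positivity)]
    exact pow_le_pow_left₀ (Nat.cast_nonneg k) hkp.le 2
  have h9 := one_sub_sum_le S (fun p => (k : ℝ) ^ 2 / (p : ℝ) ^ 2) (fun p _ => by positivity) h8
  have h10 : ∏ p ∈ S, (1 - (k : ℝ) ^ 2 / (p : ℝ) ^ 2) ≤ ∏ p ∈ S, locI n p :=
    Finset.prod_le_prod (fun p hp => by linarith [h8 p hp]) h1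
  have h11 : ∑ p ∈ S, (k : ℝ) ^ 2 / (p : ℝ) ^ 2 ≤ ((k : ℝ) ^ 2 * C0 + 1) / (w * Real.log w) := by
    have h12 := (hpr w Y hw2).1
    have e2 : ∑ p ∈ S, (k : ℝ) ^ 2 / (p : ℝ) ^ 2 = (k : ℝ) ^ 2 * ∑ p ∈ S, 1 / (p : ℝ) ^ 2 := by
      rw [Finset.mul_sum]
      exact Finset.sum_congr rfl fun p _ => by ring
    rw [e2]
    calc (k : ℝ) ^ 2 * ∑ p ∈ S, 1 / (p : ℝ) ^ 2 ≤ (k : ℝ) ^ 2 * (C0 / (w * Real.log w)) :=
          mul_le_mul_of_nonneg_left h12 (by positivity)
      _ = (k : ℝ) ^ 2 * C0 / (w * Real.log w) := by ring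
      _ ≤ _ := by
          refine div_le_div_of_nonneg_right ?_ (by positivity)
          linarith
  linarith

end Pool.Agent.Lib.LEN
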