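import Pool.Agent.Lib.LEN.DefsK
import Pool.Agent.Lib.LEN.MainP
import Pool.Agent.Lib.LEN.TPs
import Pool.Agent.Lib.LEN.Szc
import Pool.Agent.Lib.LEN.KL
import Pool.Agent.Lib.LEN.LocK
import Pool.Agent.Lib.GMV.FreeY

/-!
# LEN.KMain: the `k`-point correlations in a class

For `n` outside the set of `kL` the sum of the products of `W (2 N) Q` over the class is the sum of the products of the
models; `mainP` with `M = {one}`; all the `m + n j` with `m ≤ N < n j ≤ 2 N` are in the middle range, so `Mc one` is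
`1 + O(E)` there and `W (2 N) Q` is the weight `lp`. The mean of the sieve weights is `szc`, with `locI_le_sk` and
`locI_ge`.
-/

set_option autoImplicit false

open Finset Filter

namespace Pool.Agent.Lib.LEN

open Pool.Agent.HLB Pool.Agent.HLT Pool.Agent.HLR Pool.Agent.Lib.GMV

namespace KMainAux

lemma PP_pos (w : ℕ) : 0 < PP w :=
  Finset.prod_pos fun _ hp => (Nat.mem_primesLE.1 hp).2.pos

lemma PP_le (w : ℕ) : PP w ≤ 4 ^ w := by
  have h4 : primorial w = PP w := by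
    unfold primorial PP
    refine prod_congr ?_ fun _ _ => rfl
    ext p
    rw [mem_filter, mem_range, Nat.mem_primesLE]
    constructor
    · rintro ⟨h1, h2⟩
      exact ⟨by omega, h2⟩
    · rintro ⟨h1, h2⟩
      exact ⟨by omega, h2⟩
  rw [← h4]
  exact primorial_le_four_pow w

lemma DZ_le_one (w : ℕ) : DZ w ≤ 1 := by
  unfold DZ
  refine Finset.prod_le_one (fun p hp => ?_) fun p hp => ?_
  · have h0 : (1 : ℝ) ≤ p := by exact_mod_cast (Nat.mem_primesLE.1 hp).2.one_lt.le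
    have h1 : 1 / (p : ℝ) ≤ 1 := (div_le_one (by linarith)).2 h0
    linarith
  · have h1 : (0 : ℝ) ≤ 1 / (p : ℝ) := by positivity
    linarith

lemma psi_nonneg (w c n : ℕ) : 0 ≤ psi w c n := by
  unfold psi
  split_ifs <;> norm_num

lemma psi_le_one (w c n : ℕ) : psi w c n ≤ 1 := by
  unfold psi
  split_ifs <;> norm_num

lemma psi_per (w c n : ℕ) : psi w c (n + PP w) = psi w c n := by
  unfold psi
  rw [Nat.add_mod_right]

/-- Growth in `Q`. -/
lemma growth : ∀ᶠ q : ℝ in atTop, 2 * q ^ (-1 : ℝ) + q ^ (-(1 / 10 : ℝ)) ≤ q ^ (-(3 / 40 : ℝ)) := by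
  have h1 : ∀ᶠ q : ℝ in atTop, (4 : ℝ) ≤ q ^ (37 / 40 : ℝ) :=
    (tendsto_rpow_atTop (by norm_num)).eventually_ge_atTop 4
  have h2 : ∀ᶠ q : ℝ in atTop, (2 : ℝ) ≤ q ^ (1 / 40 : ℝ) :=
    (tendsto_rpow_atTop (by norm_num)).eventually_ge_atTop 2
  filter_upwards [h1, h2, eventually_ge_atTop 1] with q g1 g2 hq
  have hq0 : 0 < q := by linarith
  have e1 : q ^ (-(3 / 40 : ℝ)) = q ^ (-1 : ℝ) * q ^ (37 / 40 : ℝ) := by
    rw [← Real.rpow_add hq0]
    norm_num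
  have e2 : q ^ (-(3 / 40 : ℝ)) = q ^ (-(1 / 10 : ℝ)) * q ^ (1 / 40 : ℝ) := by
    rw [← Real.rpow_add hq0]
    norm_num
  have p1 : 0 < q ^ (-1 : ℝ) := Real.rpow_pos_of_pos hq0 _
  have p2 : 0 < q ^ (-(1 / 10 : ℝ)) := Real.rpow_pos_of_pos hq0 _
  have a1 : q ^ (-1 : ℝ) * 4 ≤ q ^ (-(3 / 40 : ℝ)) := by
    rw [e1]
    exact mul_le_mul_of_nonneg_left g1 p1.le
  have a2 : q ^ (-(1 / 10 : ℝ)) * 2 ≤ q ^ (-(3 / 40 : ℝ)) := by
    rw [e2]
    exact mul_le_mul_of_nonneg_left g2 p2.le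
  linarith

/-- The weight in the middle range. -/
lemma W_mid {N Q m : ℕ} (hQ : 4 ≤ Q) (h1 : N < m) (h2 : m ≤ 3 * N) :
    W (2 * N) Q m = lp m := by
  have hN : 1 ≤ N := by omega
  have hNr : (1 : ℝ) ≤ N := by exact_mod_cast hN
  have hQr : (4 : ℝ) ≤ Q := by exact_mod_cast hQ
  have h1r : (N : ℝ) < m := by exact_mod_cast h1
  have h2r : (m : ℝ) ≤ 3 * N := by exact_mod_cast h2
  have hX0 : (0 : ℝ) < ((2 * N : ℕ) : ℝ) := by
    push_cast
    linarith
  have hv : vw (2 * N) Q m = 1 := by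
    unfold vw
    have a1 : (1 : ℝ) ≤ (m : ℝ) * Q / ((2 * N : ℕ) : ℝ) - 1 := by
      have : (2 : ℝ) ≤ (m : ℝ) * Q / ((2 * N : ℕ) : ℝ) := by
        rw [le_div_iff₀ hX0]
        push_cast
        nlinarith
      linarith
    have a2 : (1 : ℝ) ≤ 2 * (Q : ℝ) + 1 - (m : ℝ) * Q / ((2 * N : ℕ) : ℝ) := by
      have : (m : ℝ) * Q / ((2 * N : ℕ) : ℝ) ≤ 2 * Q := by
        rw [div_le_iff₀ hX0]
        push_cast
        nlinarith
      linarith
    rw [min_eq_left (le_min a1 a2)]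
    exact max_eq_right zero_le_one
  unfold W
  rw [hv, one_mul]

lemma one_le_ss (w d : ℕ) : 1 ≤ ss w d := by
  unfold ss
  refine Finset.prod_induction _ (fun x : ℝ => 1 ≤ x)
    (fun a b ha hb => one_le_mul_of_one_le_of_one_le ha hb) le_rfl ?_
  intro p hp
  have hp1 := Nat.prime_of_mem_primeFactors (Finset.mem_filter.1 hp).1
  have h0 : (1 : ℝ) < p := by exact_mod_cast hp1.one_lt
  have h1 : 1 / (p : ℝ) < 1 := (div_lt_one (by linarith)).2 h0
  have h2 : (0 : ℝ) ≤ 1 / (p : ℝ) := by positivity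
  exact (one_le_inv₀ (by linarith)).2 (by linarith)

lemma one_le_sk (w : ℕ) {k : ℕ} (n : Fin k → ℕ) : 1 ≤ sk w n := by
  unfold sk
  exact Finset.prod_induction _ (fun x : ℝ => 1 ≤ x)
    (fun a b ha hb => one_le_mul_of_one_le_of_one_le ha hb) le_rfl fun _ _ =>
    Finset.prod_induction _ (fun x : ℝ => 1 ≤ x)
      (fun a b ha hb => one_le_mul_of_one_le_of_one_le ha hb) le_rfl fun _ _ => one_le_ss _ _

end KMainAux

open KMainAux

theorem kMain (k : ℕ) (hk : 1 ≤ k) (B : ℝ) : ∃ c C : ℝ, 0 < c ∧ 0 < C ∧ ∃ X0 : ℕ,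
    ∀ N Q w : ℕ, X0 ≤ N → X0 ≤ w → Rg c (2 * N) Q → 4 ^ (40 * w) ≤ Q → ∀ b : CI → ℝ,
    (∀ x ∈ Ch Q, ∀ n, ‖Mc (2 * N) Q x n‖ ≤ b x) → ∑ x ∈ Ch Q, b x ≤ B → ∀ E : ℝ,
    ∑ x ∈ Ch Q \ {one}, b x ≤ E →
    (∀ n : ℕ, 3 * (2 * N) ≤ n * Q → n * Q + 2 * N ≤ 2 * (2 * N) * Q →
      ‖Mc (2 * N) Q one n - 1‖ ≤ E) →
    ∃ Bd : Finset (Fin k → ℕ), (Bd.card : ℝ) ≤ (N : ℝ) ^ k * (Q : ℝ) ^ (-(1 / 4 : ℝ)) ∧
    ∀ c', ∀ n ∈ TK N k, n ∉ Bd → (∀ j, Nat.Coprime (n j + c') (PP w)) →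
      CK lp N w c' n ≤ Tm N w k * (sk w n * (1 + (C * E + (Q : ℝ) ^ (-(1 / 20 : ℝ))))) ∧
      Tm N w k * (1 - (C * E + C / (w * Real.log w) + (Q : ℝ) ^ (-(1 / 20 : ℝ)))) ≤
        CK lp N w c' n := by
  obtain ⟨c1, C1, hc1, hC1, X1, hmain⟩ := mainP k hk B
  obtain ⟨c2, hc2, X2, hkl⟩ := kL k hk B
  obtain ⟨C4, hC4, w0, hge⟩ := locI_ge k
  obtain ⟨X3, hX3⟩ := FreeYAux.largeQ (fun q => (2 * q ^ (-1 : ℝ) + q ^ (-(1 / 10 : ℝ)) ≤
    q ^ (-(3 / 40 : ℝ))) ∧ 6 ≤ q) (growth.and (eventually_ge_atTop 6))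
  obtain ⟨K, hK⟩ : ∃ K : ℝ, K = k * (max 1 B) ^ k := ⟨_, rfl⟩
  have hβ1 : (1 : ℝ) ≤ max 1 B := le_max_left _ _
  have hK0 : 0 ≤ K := by rw [hK]; positivity
  refine ⟨min c1 c2, 2 * C1 + K + C4, lt_min hc1 hc2, by positivity,
    max (max X1 X2) (max (max X3 1) (max w0 2)), ?_⟩
  intro N Q w hN hw0 hR hw b hb hbB E hE hone
  have hX1 : X1 ≤ 2 * N := le_trans (le_max_left _ _)
    (le_trans (le_max_left _ _) (hN.trans (by omega)))
  have hX2 : X2 ≤ N := le_trans (le_max_right _ _) (le_trans (le_max_left _ _) hN)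
  have hX3' : X3 ≤ 2 * N := le_trans (le_max_left _ _) (le_trans (le_max_left _ _)
    (le_trans (le_max_right _ _) (hN.trans (by omega))))
  have hN1 : 1 ≤ N := le_trans (le_max_right _ _) (le_trans (le_max_left _ _)
    (le_trans (le_max_right _ _) hN))
  have hww : w0 ≤ w := le_trans (le_max_left _ _) (le_trans (le_max_right _ _)
    (le_trans (le_max_right _ _) hw0))
  have hw2 : 2 ≤ w := le_trans (le_max_right _ _) (le_trans (le_max_right _ _)
    (le_trans (le_max_right _ _) hw0))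
  obtain ⟨hgr, hQ6⟩ := hX3 (2 * N) Q hX3' hR.1
  have hQn : 6 ≤ Q := by exact_mod_cast hQ6
  have hQ0 : (0 : ℝ) < Q := by linarith
  have hNr : (0 : ℝ) < N := by exact_mod_cast hN1
  have hR1 : Rg c1 (2 * N) Q := FreeYAux.Rg_mono (min_le_left _ _) (by omega) hR
  have hR2 : Rg c2 (2 * N) Q := FreeYAux.Rg_mono (min_le_right _ _) (by omega) hR
  have hb0 : ∀ x ∈ Ch Q, 0 ≤ b x := fun x hx => (norm_nonneg _).trans (hb x hx 0)
  have hE0 : 0 ≤ E := le_trans (Finset.sum_nonneg fun x hx =>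
    hb0 x (Finset.mem_sdiff.1 hx).1) hE
  have honeC : one ∈ Ch Q := one_mem_Ch (by omega)
  have hMcb : ∀ m, ‖Mc (2 * N) Q one m‖ ≤ max 1 B := by
    intro m
    refine (hb one honeC m).trans ?_
    refine le_trans ?_ (hbB.trans (le_max_right _ _))
    exact Finset.single_le_sum hb0 honeC
  have hwQ : w ≤ Q ^ (8 * k) := by
    calc w ≤ 4 ^ w := (Nat.lt_pow_self (by norm_num)).le
      _ ≤ 4 ^ (40 * w) := Nat.pow_le_pow_right (by norm_num) (by omega)
      _ ≤ Q := hw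
      _ = Q ^ 1 := (pow_one Q).symm
      _ ≤ Q ^ (8 * k) := Nat.pow_le_pow_right (by omega) (by omega)
  have hPQ : PP w ≤ Q := by
    calc PP w ≤ 4 ^ w := PP_le w
      _ ≤ 4 ^ (40 * w) := Nat.pow_le_pow_right (by norm_num) (by omega)
      _ ≤ Q := hw
  have hwr : (0 : ℝ) < w * Real.log w := by
    have h1 : (1 : ℝ) < w := by exact_mod_cast (by omega : 1 < w)
    exact mul_pos (by linarith) (Real.log_pos h1)
  obtain ⟨Bd, hBd, hkl'⟩ := hkl N Q w hX2 hR2 hw b hb hbB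
  refine ⟨Bd, hBd, ?_⟩
  intro c' n hn hnB hcop
  unfold TK at hn
  rw [Finset.mem_filter, mem_Tup] at hn
  obtain ⟨hnI, hinj⟩ := hn
  have hnI' : ∀ j, N < n j ∧ n j ≤ 2 * N := fun j => Finset.mem_Ioc.1 (hnI j)
  have hTup : n ∈ Tup k (Icc 1 (2 * N)) := by
    rw [mem_Tup]
    intro i
    have := hnI' i
    rw [Finset.mem_Icc]
    omega
  have hF := hkl' c' n hTup hnB
  have hM := hmain (2 * N) Q hX1 hR1 w hPQ (psi w c') (psi_nonneg w c') (psi_le_one w c')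
    (psi_per w c') b hb hbB {one} E (Finset.singleton_subset_iff.2 honeC) hE n hTup
    hinj N (by omega)
  -- the model mean
  obtain ⟨T, hT⟩ : ∃ T : ℝ, T = 1 / PP w * (DZ w)⁻¹ ^ k := ⟨_, rfl⟩
  obtain ⟨g, hg⟩ : ∃ g : ℝ, g = ∏ p ∈ (Nat.primesLE (Q ^ (8 * k))).filter (fun p => w < p),
    locI n p := ⟨_, rfl⟩
  have hSZ : SZs (Q ^ (8 * k)) (psi w c') n = T * g := by
    rw [szc (Q ^ (8 * k)) w c' hwQ n hcop, hT, hg]
  have hgs : g ≤ sk w n := by rw [hg]; exact locI_le_sk _ w n hinj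
  have hgl : 1 - C4 / (w * Real.log w) ≤ g := by rw [hg]; exact hge w hww _ n
  have hP0 : (0 : ℝ) < PP w := by exact_mod_cast PP_pos w
  have hDZ0 := DZ_pos w
  have hT0 : 0 < T := by rw [hT]; positivity
  have hg0 : 0 ≤ g := by
    have h1 : 0 ≤ SZs (Q ^ (8 * k)) (psi w c') n := by
      unfold SZs
      refine div_nonneg (Finset.sum_nonneg fun m _ => mul_nonneg (psi_nonneg _ _ _)
        (Finset.prod_nonneg fun i _ => nuz_nonneg _ _)) (Nat.cast_nonneg _)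
    rw [hSZ] at h1
    exact nonneg_of_mul_nonneg_right h1 hT0
  -- the sum over the one character
  have hpi : Fintype.piFinset (fun _ : Fin k => ({one} : Finset CI)) = {fun _ => one} := by
    ext x
    rw [Fintype.mem_piFinset, Finset.mem_singleton]
    constructor
    · intro h
      funext i
      exact Finset.mem_singleton.1 (h i)
    · intro h i
      rw [h]
      exact Finset.mem_singleton_self _
  rw [hpi, Finset.sum_singleton, TPs_one, hSZ] at hM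
  -- the main term
  obtain ⟨G, hG⟩ : ∃ G : ℂ, G = ∑ m ∈ Icc 1 N, ∏ i, Mc (2 * N) Q one (m + n i) := ⟨_, rfl⟩
  obtain ⟨L, hL⟩ : ∃ L : ℂ, L = ∑ m ∈ Icc 1 N, (psi w c' m : ℂ) *
    ∏ i, LL (2 * N) Q (Q ^ (8 * k)) (m + n i) := ⟨_, rfl⟩
  rw [← hG, ← hL] at hM
  rw [← hL] at hF
  have hGN : ‖G - N‖ ≤ N * (K * E) := by
    have e1 : G - N = ∑ m ∈ Icc 1 N, (∏ i, Mc (2 * N) Q one (m + n i) - 1) := by
      rw [hG, Finset.sum_sub_distrib, Finset.sum_const, Nat.card_Icc, Nat.add_sub_cancel,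
        nsmul_eq_mul, mul_one]
    rw [e1]
    refine (norm_sum_le _ _).trans ?_
    have h2 : ∀ m ∈ Icc 1 N, ‖∏ i, Mc (2 * N) Q one (m + n i) - 1‖ ≤ K * E := by
      intro m hm
      rw [Finset.mem_Icc] at hm
      have h3 := FreeYAux.prod_near (Finset.univ : Finset (Fin k))
        (fun i => Mc (2 * N) Q one (m + n i)) hβ1 hE0 (fun i _ => hMcb _) (fun i _ => by
          have hi := hnI' i
          apply hone
          · calc 3 * (2 * N) = N * 6 := by ring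
              _ ≤ (m + n i) * Q := Nat.mul_le_mul (by omega) hQn
          · calc (m + n i) * Q + 2 * N ≤ 3 * N * Q + 2 * N :=
                  Nat.add_le_add_right (Nat.mul_le_mul_right _ (by omega)) _
              _ ≤ 3 * N * Q + N * Q := Nat.add_le_add_left (by
                  calc 2 * N = N * 2 := by ring
                    _ ≤ N * Q := Nat.mul_le_mul_left _ (by omega)) _
              _ = 2 * (2 * N) * Q := by ring)
      rw [Finset.card_univ, Fintype.card_fin, ← hK] at h3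
      exact h3
    refine (Finset.sum_le_sum h2).trans ?_
    rw [Finset.sum_const, Nat.card_Icc, Nat.add_sub_cancel, nsmul_eq_mul]
  have hTN : ‖((T * g : ℝ) : ℂ) * G - ((T * g : ℝ) : ℂ) * N‖ ≤ T * g * (N * (K * E)) := by
    rw [← mul_sub, norm_mul, Complex.norm_real, Real.norm_of_nonneg (mul_nonneg hT0.le hg0)]
    exact mul_le_mul_of_nonneg_left hGN (mul_nonneg hT0.le hg0)
  -- assembly
  obtain ⟨A, hA⟩ : ∃ A : ℝ, A = CK (W (2 * N) Q) N w c' n := ⟨_, rfl⟩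
  rw [← hA] at hF
  have hAlp : CK lp N w c' n = A := by
    rw [hA]
    unfold CK
    refine Finset.sum_congr rfl fun m hm => Finset.prod_congr rfl fun j _ => ?_
    have hm' := Finset.mem_Icc.1 (Finset.mem_filter.1 hm).1
    have hj := hnI' j
    exact (W_mid (by omega) (by omega) (by omega)).symm
  have htot : ‖((A - T * g * N : ℝ) : ℂ)‖ ≤ N * (Q : ℝ) ^ (-(1 / 10 : ℝ)) +
      (C1 * (T * g) * ((2 * N : ℕ) : ℝ) * E + ((2 * N : ℕ) : ℝ) / Q) +
      T * g * (N * (K * E)) := by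
    have e1 : ((A - T * g * N : ℝ) : ℂ) = ((A : ℂ) - L) + (L - ((T * g : ℝ) : ℂ) * G) +
        (((T * g : ℝ) : ℂ) * G - ((T * g : ℝ) : ℂ) * N) := by
      push_cast
      ring
    rw [e1]
    refine (norm_add_le _ _).trans (add_le_add ?_ hTN)
    exact (norm_add_le _ _).trans (add_le_add hF hM)
  rw [Complex.norm_real, Real.norm_eq_abs] at htot
  have hlow := neg_abs_le (A - T * g * N)
  have hupp := le_abs_self (A - T * g * N)
  have hCK0 : 0 ≤ CK lp N w c' n := by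
    unfold CK
    exact Finset.sum_nonneg fun m _ => Finset.prod_nonneg fun j _ => lp_nonneg _
  -- the small terms
  have hT1 : (Q : ℝ) ^ (-(1 / 40 : ℝ)) ≤ T := by
    have h1 : (PP w : ℝ) ≤ (Q : ℝ) ^ (1 / 40 : ℝ) := by
      have h2 : ((4 : ℝ) ^ w) ^ (40 : ℕ) ≤ Q := by
        rw [← pow_mul, mul_comm w 40]
        exact_mod_cast hw
      have h3 : (PP w : ℝ) ≤ (4 : ℝ) ^ w := by exact_mod_cast PP_le w
      refine h3.trans ?_
      calc (4 : ℝ) ^ w = (((4 : ℝ) ^ w) ^ (40 : ℕ)) ^ (1 / 40 : ℝ) := by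
            rw [← Real.rpow_natCast ((4 : ℝ) ^ w) 40, ← Real.rpow_mul (by positivity)]
            norm_num
        _ ≤ (Q : ℝ) ^ (1 / 40 : ℝ) := Real.rpow_le_rpow (by positivity) h2 (by norm_num)
    have h4 : (1 : ℝ) ≤ (DZ w)⁻¹ ^ k :=
      one_le_pow₀ ((one_le_inv₀ hDZ0).2 (DZ_le_one w))
    rw [Real.rpow_neg hQ0.le, hT]
    calc ((Q : ℝ) ^ (1 / 40 : ℝ))⁻¹ ≤ (PP w : ℝ)⁻¹ := inv_anti₀ hP0 h1
      _ = 1 / PP w * 1 := by rw [mul_one, one_div]
      _ ≤ 1 / PP w * (DZ w)⁻¹ ^ k := mul_le_mul_of_nonneg_left h4 (by positivity)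
  have hsm : (N : ℝ) * (Q : ℝ) ^ (-(1 / 10 : ℝ)) + ((2 * N : ℕ) : ℝ) / Q ≤
      T * N * (Q : ℝ) ^ (-(1 / 20 : ℝ)) := by
    have e1 : ((2 * N : ℕ) : ℝ) / Q = N * (2 * (Q : ℝ) ^ (-1 : ℝ)) := by
      rw [Real.rpow_neg_one]
      push_cast
      ring
    have e2 : (Q : ℝ) ^ (-(3 / 40 : ℝ)) = (Q : ℝ) ^ (-(1 / 40 : ℝ)) * (Q : ℝ) ^ (-(1 / 20 : ℝ)) := by
      rw [← Real.rpow_add hQ0]
      norm_num
    rw [e1]
    calc (N : ℝ) * (Q : ℝ) ^ (-(1 / 10 : ℝ)) + N * (2 * (Q : ℝ) ^ (-1 : ℝ)) =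
        N * (2 * (Q : ℝ) ^ (-1 : ℝ) + (Q : ℝ) ^ (-(1 / 10 : ℝ))) := by ring
      _ ≤ N * (Q : ℝ) ^ (-(3 / 40 : ℝ)) := mul_le_mul_of_nonneg_left hgr hNr.le
      _ = N * ((Q : ℝ) ^ (-(1 / 40 : ℝ)) * (Q : ℝ) ^ (-(1 / 20 : ℝ))) := by rw [e2]
      _ ≤ N * (T * (Q : ℝ) ^ (-(1 / 20 : ℝ))) :=
          mul_le_mul_of_nonneg_left (mul_le_mul_of_nonneg_right hT1
            (Real.rpow_nonneg hQ0.le _)) hNr.le
      _ = T * N * (Q : ℝ) ^ (-(1 / 20 : ℝ)) := by ring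
  obtain ⟨δ, hδ⟩ : ∃ δ : ℝ, δ = (Q : ℝ) ^ (-(1 / 20 : ℝ)) := ⟨_, rfl⟩
  have hδ0 : 0 ≤ δ := by rw [hδ]; exact Real.rpow_nonneg hQ0.le _
  rw [← hδ] at hsm
  rw [← hδ]
  have hTm : Tm N w k = T * N := by
    unfold Tm
    rw [hT]
    ring
  obtain ⟨D, hD⟩ : ∃ D : ℝ, D = 2 * C1 + K := ⟨_, rfl⟩
  have hD0 : 0 ≤ D := by rw [hD]; positivity
  have htot2 : |A - T * g * N| ≤ T * N * δ + T * N * (g * (D * E)) := by
    have e10 : C1 * (T * g) * ((2 * N : ℕ) : ℝ) * E + T * g * (N * (K * E)) =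
        T * N * (g * (D * E)) := by
      rw [hD]
      push_cast
      ring
    linarith
  have hTNp : 0 ≤ T * N := by positivity
  rw [hAlp, hTm] at *
  obtain ⟨s, hs⟩ : ∃ s : ℝ, s = sk w n := ⟨_, rfl⟩
  have hs1 : 1 ≤ s := by rw [hs]; exact one_le_sk w n
  rw [← hs] at hgs ⊢
  rw [← hD]
  constructor
  · -- upper bound
    have h1 : A ≤ T * N * (g + δ + g * (D * E)) := by
      have : T * N * (g + δ + g * (D * E)) = T * g * N + (T * N * δ + T * N * (g * (D * E))) := by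
        ring
      rw [this]
      linarith
    refine h1.trans (mul_le_mul_of_nonneg_left ?_ hTNp)
    have h2 : g * (D * E) ≤ s * (D * E) := mul_le_mul_of_nonneg_right hgs (by positivity)
    have h3 : δ ≤ s * δ := le_mul_of_one_le_left hδ0 hs1
    have h4 : 0 ≤ s * (C4 * E) := by positivity
    have e2 : s * (1 + ((D + C4) * E + δ)) = s + s * (D * E) + s * (C4 * E) + s * δ := by ring
    rw [e2]
    linarith
  · -- lower bound
    by_cases hDE : D * E ≤ 1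
    · have h1 : T * N * (g - δ - g * (D * E)) ≤ A := by
        have : T * N * (g - δ - g * (D * E)) =
            T * g * N - (T * N * δ + T * N * (g * (D * E))) := by
          ring
        rw [this]
        linarith
      refine le_trans (mul_le_mul_of_nonneg_left ?_ hTNp) h1
      have h2 : (1 - C4 / (w * Real.log w)) * (1 - D * E) ≤ g * (1 - D * E) :=
        mul_le_mul_of_nonneg_right hgl (by linarith)
      have h3 : 0 ≤ C4 / (w * Real.log w) * (D * E) := by positivity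
      have h4 : C4 / (w * Real.log w) ≤ (D + C4) / (w * Real.log w) :=
        div_le_div_of_nonneg_right (by linarith) hwr.le
      have h5 : D * E ≤ (D + C4) * E := mul_le_mul_of_nonneg_right (by linarith) hE0
      have e3 : (1 - C4 / (w * Real.log w)) * (1 - D * E) =
          1 - C4 / (w * Real.log w) - D * E + C4 / (w * Real.log w) * (D * E) := by ring
      have e4 : g * (1 - D * E) = g - g * (D * E) := by ring
      rw [e3, e4] at h2
      linarith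
    · push Not at hDE
      have h5 : D * E ≤ (D + C4) * E := mul_le_mul_of_nonneg_right (by linarith) hE0
      have h6 : 0 ≤ (D + C4) / (w * Real.log w) := by positivity
      have h7 : T * N * (1 - ((D + C4) * E + (D + C4) / (w * Real.log w) + δ)) ≤ 0 :=
        mul_nonpos_of_nonneg_of_nonpos hTNp (by linarith)
      exact h7.trans hCK0

end Pool.Agent.Lib.LEN
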