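import Pool.Agent.Lib.LEN.LevKA
import Pool.Agent.Lib.LEN.KMain

/-!
# LEN.LevK: everything analytic for all `k ≤ k0`
-/

set_option autoImplicit false

open Finset Filter

namespace Pool.Agent.Lib.LEN

open Pool.Agent.HLB Pool.Agent.HLT Pool.Agent.HLR Pool.Agent.Lib.GMV

/-- Module LevK (Levels for all `k ≤ k0`, from sumB, goodX, zero_free, heilbronn, kMain). -/
theorem levelsK : ∃ C1 cA : ℝ, 0 < C1 ∧ 0 < cA ∧
    (∀ C2 : ℝ, C1 ≤ C2 → ∃ cB : ℝ, 0 < cB ∧ ∀ N0 : ℕ, ∃ N : ℕ, N0 ≤ N ∧ GoodX cA C1 cB C2 N) ∧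
    LevS C1 cA :=
  LevKAux.levelsK_of kMain

end Pool.Agent.Lib.LEN
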