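import Pool.Agent.Lib.LEN.Defs

/-!
# LEN.GoodX: arbitrarily large `X` without exceptional zeros at two levels

PROOF. Case 1: exceptional zeros at level 1 exist for arbitrarily large `X`. Take `(x, β)` exceptional at level 1 at `X0`
and let `X1` be the first `X ≥ X0` with `1 - β > cA / log Q1(X)`. A zero exceptional at level 1 at `X1` is equal to
`(x, β)` by `ZFree` (contradiction); if `(x', β')` is exceptional at level 2 (with the tiny constant `cB`) then the
Deuring-Heilbronn phenomenon for `β'` gives `1 - β ≥ c4 log (1/cB) / log Q2(X1)`, against `1 - β ≤ 2 cA / log Q1(X1)`.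
Case 2: otherwise a zero exceptional at level 2 at `N` would be exceptional at level 1 at some `X'` with
`C1 yy X' ≈ C2 yy N`.
-/

set_option autoImplicit false

open Finset Filter

namespace Pool.Agent.Lib.LEN

open Pool.Agent.HLB Pool.Agent.HLT Pool.Agent.HLR Pool.Agent.Lib.GMV

namespace GoodXAux

/-- `t / log t` is monotone from `e` on. -/
lemma mono_div {s t : ℝ} (hs : Real.exp 1 ≤ s) (hst : s ≤ t) :
    s / Real.log s ≤ t / Real.log t := by
  have h1 : Real.log t / t ≤ Real.log s / s :=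
    Real.log_div_self_antitoneOn hs (hs.trans hst) hst
  have ht : Real.exp 1 ≤ t := hs.trans hst
  have ht0 : 0 < t := (Real.exp_pos 1).trans_le ht
  have hlt : 0 < Real.log t := by
    have := Real.log_le_log (Real.exp_pos 1) ht
    rw [Real.log_exp] at this
    linarith
  have e1 : s / Real.log s = (Real.log s / s)⁻¹ := by rw [inv_div]
  have e2 : t / Real.log t = (Real.log t / t)⁻¹ := by rw [inv_div]
  rw [e1, e2]
  exact inv_anti₀ (by positivity) h1

lemma pos_of_log {N : ℕ} (h : Real.exp 1 ≤ Real.log N) : 0 < (N : ℝ) := by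
  rcases Nat.eq_zero_or_pos N with h0 | h0
  · subst h0
    have := Real.exp_pos 1
    simp at h
    linarith
  · exact_mod_cast h0

lemma yy_mono {M N : ℕ} (hM : Real.exp 1 ≤ Real.log M) (hMN : M ≤ N) : yy M ≤ yy N := by
  unfold yy
  exact mono_div hM (Real.log_le_log (pos_of_log hM) (by exact_mod_cast hMN))

lemma loglog_ge {N : ℕ} (hN : Real.exp 1 ≤ Real.log N) : 1 ≤ Real.log (Real.log N) := by
  have := Real.log_le_log (Real.exp_pos 1) hN
  rwa [Real.log_exp] at this

lemma yy_succ {N : ℕ} (hN : Real.exp 1 ≤ Real.log N) : yy (N + 1) ≤ yy N + 1 := by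
  have h0 := pos_of_log hN
  have h1 : (1 : ℝ) ≤ N := by
    have : 0 < N := by exact_mod_cast h0
    exact_mod_cast this
  have h2 : Real.log ((N + 1 : ℕ) : ℝ) ≤ Real.log N + 1 := by
    have h3 : ((N + 1 : ℕ) : ℝ) ≤ 2 * N := by push_cast; linarith
    have h4 := Real.log_le_log (by positivity) h3
    rw [Real.log_mul (by norm_num) h0.ne'] at h4
    have := Real.log_two_lt_d9
    linarith
  have h3 : Real.log N ≤ Real.log ((N + 1 : ℕ) : ℝ) :=
    Real.log_le_log h0 (by push_cast; linarith)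
  have h4 := loglog_ge hN
  have hl0 : 0 < Real.log N := (Real.exp_pos 1).trans_le hN
  have h5 : Real.log (Real.log N) ≤ Real.log (Real.log ((N + 1 : ℕ) : ℝ)) :=
    Real.log_le_log hl0 h3
  unfold yy
  calc Real.log ((N + 1 : ℕ) : ℝ) / Real.log (Real.log ((N + 1 : ℕ) : ℝ))
      ≤ (Real.log N + 1) / Real.log (Real.log N) :=
        div_le_div₀ (by linarith) h2 (by linarith) h5
    _ = Real.log N / Real.log (Real.log N) + 1 / Real.log (Real.log N) := by rw [add_div]
    _ ≤ Real.log N / Real.log (Real.log N) + 1 := by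
        have : 1 / Real.log (Real.log N) ≤ 1 := by
          rw [div_le_one (by linarith)]
          exact h4
        linarith

/-- `yy N ≥ √(log N) / 2`. -/
lemma yy_ge {N : ℕ} (h : Real.exp 1 ≤ Real.log N) : Real.sqrt (Real.log N) / 2 ≤ yy N := by
  have hl0 : 0 < Real.log N := (Real.exp_pos 1).trans_le h
  have h4 := loglog_ge h
  have hs : 0 < Real.sqrt (Real.log N) := Real.sqrt_pos.2 hl0
  have h5 : Real.log (Real.log N) ≤ 2 * Real.sqrt (Real.log N) := by
    have e : Real.log (Real.log N) = 2 * Real.log (Real.sqrt (Real.log N)) := by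
      rw [Real.log_sqrt hl0.le]
      ring
    rw [e]
    have := Real.log_le_sub_one_of_pos hs
    linarith
  unfold yy
  rw [le_div_iff₀ (by linarith)]
  have h6 : Real.sqrt (Real.log N) * Real.sqrt (Real.log N) = Real.log N :=
    Real.mul_self_sqrt hl0.le
  nlinarith

/-- From some point on `log N` and `yy N` are large. -/
lemma large (K : ℝ) : ∃ N1 : ℕ, ∀ N : ℕ, N1 ≤ N → Real.exp 1 ≤ Real.log N ∧ K ≤ yy N := by
  have h1 : Tendsto (fun N : ℕ => Real.log (N : ℝ)) atTop atTop :=
    Real.tendsto_log_atTop.comp tendsto_natCast_atTop_atTop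
  have h2 := h1.eventually_ge_atTop (Real.exp 1)
  have h3 := h1.eventually_ge_atTop ((2 * |K|) ^ 2)
  obtain ⟨N1, hN1⟩ := eventually_atTop.1 (h2.and h3)
  refine ⟨N1, fun N hN => ?_⟩
  obtain ⟨ha, hb⟩ := hN1 N hN
  refine ⟨ha, le_trans ?_ (yy_ge ha)⟩
  have h4 : 2 * |K| ≤ Real.sqrt (Real.log N) := Real.le_sqrt_of_sq_le hb
  have := le_abs_self K
  linarith

lemma Ql_le (c : ℝ) (N : ℕ) : (Ql c N : ℝ) ≤ Real.exp (c * yy N) :=
  Nat.floor_le (Real.exp_pos _).le

lemma Ql_mono {c c' : ℝ} {N N' : ℕ} (h : c * yy N ≤ c' * yy N') : Ql c N ≤ Ql c' N' :=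
  Nat.floor_mono (Real.exp_le_exp.2 h)

lemma Ql_ge {c : ℝ} {N : ℕ} (h : 1 ≤ c * yy N) : Real.exp (c * yy N - 1) ≤ Ql c N := by
  have h1 : Real.exp (c * yy N) < (Ql c N : ℝ) + 1 := Nat.lt_floor_add_one _
  have h2 : Real.exp 1 ≤ Real.exp (c * yy N) := Real.exp_le_exp.2 h
  have h3 : Real.exp (c * yy N - 1) = Real.exp (c * yy N) / Real.exp 1 := by
    rw [Real.exp_sub]
  have h4 := Real.exp_one_gt_d9
  have h5 : Real.exp (c * yy N) / Real.exp 1 ≤ Real.exp (c * yy N) / 2 := by
    apply div_le_div_of_nonneg_left (Real.exp_pos _).le (by norm_num) (by linarith)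
  rw [h3]
  linarith

lemma Ql_two {c : ℝ} {N : ℕ} (h : 1 ≤ c * yy N) : 2 ≤ Ql c N := by
  apply Nat.le_floor
  have h2 : Real.exp 1 ≤ Real.exp (c * yy N) := Real.exp_le_exp.2 h
  have h4 := Real.exp_one_gt_d9
  push_cast
  linarith

lemma log_Ql_le {c : ℝ} {N : ℕ} (h : 1 ≤ c * yy N) : Real.log (Ql c N) ≤ c * yy N := by
  have h1 := Ql_two h
  have h2 : (0 : ℝ) < Ql c N := by
    have : 0 < Ql c N := by omega
    exact_mod_cast this
  have h3 := Real.log_le_log h2 (Ql_le c N)
  rwa [Real.log_exp] at h3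

lemma le_log_Ql {c : ℝ} {N : ℕ} (h : 1 ≤ c * yy N) : c * yy N - 1 ≤ Real.log (Ql c N) := by
  have h3 := Real.log_le_log (Real.exp_pos _) (Ql_ge h)
  rwa [Real.log_exp] at h3

end GoodXAux

open GoodXAux

/-- Module GoodX. -/
theorem goodX (c1 c0 c4 cA C1 C2 : ℝ) (hZ : ZFree c1) (h0 : 0 < c0) (h4 : 0 < c4)
    (hD : ∀ (Q : ℕ) (x : CI) (β : ℝ), 2 ≤ Q → IsExc c0 Q x β → ∀ (x' : CI) (ρ : ℂ), x' ∈ Ch Q →
      ρ ∈ Z x'.2 ((Q : ℝ) ^ 30) → (x' ≠ x ∨ ρ ≠ (β : ℂ)) →
      ρ.re ≤ 1 - c4 * Real.log (1 / ((1 - β) * Real.log Q)) / Real.log Q)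
    (hA : 0 < cA) (hA1 : 2 * cA ≤ c1) (hC1 : 0 < C1) (hC2 : C1 ≤ C2) :
    ∃ cB : ℝ, 0 < cB ∧ cB ≤ cA ∧ ∀ N0 : ℕ, ∃ N : ℕ, N0 ≤ N ∧ GoodX cA C1 cB C2 N := by
  set R : ℝ := (2 * cA * C2 / C1 + 1) / c4 with hR
  set cB : ℝ := min (cA / 2) (min c0 (Real.exp (-R))) with hcB
  have hcB0 : 0 < cB := by
    rw [hcB]
    exact lt_min (by linarith) (lt_min h0 (Real.exp_pos _))
  have hcBA : cB ≤ cA / 2 := min_le_left _ _
  have hcBc : cB ≤ c0 := (min_le_right _ _).trans (min_le_left _ _)
  have hcBe : cB ≤ Real.exp (-R) := (min_le_right _ _).trans (min_le_right _ _)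
  have hlog : 2 * cA * C2 / C1 + 1 ≤ c4 * Real.log (1 / cB) := by
    have h1 : R ≤ Real.log (1 / cB) := by
      rw [one_div, Real.log_inv]
      have := Real.log_le_log hcB0 hcBe
      rw [Real.log_exp] at this
      linarith
    calc 2 * cA * C2 / C1 + 1 = c4 * R := by
          rw [hR]
          field_simp
      _ ≤ c4 * Real.log (1 / cB) := by gcongr
  have hC20 : 0 < C2 := hC1.trans_le hC2
  refine ⟨cB, hcB0, by linarith, ?_⟩
  obtain ⟨N1, hN1⟩ := large ((4 * (1 + C1) + 20 * cA + 20) / C1)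
  have hlarge : ∀ N : ℕ, N1 ≤ N → Real.exp 1 ≤ Real.log N ∧
      4 * (1 + C1) + 20 * cA + 20 ≤ C1 * yy N := by
    intro N hN
    obtain ⟨ha, hb⟩ := hN1 N hN
    refine ⟨ha, ?_⟩
    rw [div_le_iff₀ hC1] at hb
    linarith
  by_cases hcase : ∀ N : ℕ, ∃ X : ℕ, N ≤ X ∧ ∃ x β, IsExc cA (Ql C1 X) x β
  · -- exceptional zeros at level 1 for arbitrarily large X
    intro N0
    obtain ⟨X0, hX0, xA, βA, hAexc⟩ := hcase (max N0 N1)
    have hX0N0 : N0 ≤ X0 := (le_max_left _ _).trans hX0
    have hX0N1 : N1 ≤ X0 := (le_max_right _ _).trans hX0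
    have hβ1 : βA < 1 := hAexc.2.2.2.2.2
    -- the first X with the zero cured
    have hex : ∃ X : ℕ, X0 ≤ X ∧ cA / Real.log (Ql C1 X) < 1 - βA := by
      obtain ⟨N2, hN2⟩ := large ((cA / (1 - βA) + 2) / C1)
      refine ⟨max X0 N2, le_max_left _ _, ?_⟩
      obtain ⟨-, hb⟩ := hN2 _ (le_max_right X0 N2)
      rw [div_le_iff₀ hC1] at hb
      have hy : 1 ≤ C1 * yy (max X0 N2) := by
        have := (hlarge (max X0 N2) (hX0N1.trans (le_max_left _ _))).2
        linarith
      have hl := le_log_Ql hy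
      have h1 : 0 < 1 - βA := by linarith
      have h2 : cA / (1 - βA) < Real.log (Ql C1 (max X0 N2)) := by linarith
      have h3 : 0 < cA / (1 - βA) := div_pos hA h1
      rw [div_lt_iff₀ h1] at h2
      rw [div_lt_iff₀ (by linarith)]
      linarith
    classical
    obtain ⟨hX1a, hX1b⟩ := Nat.find_spec hex
    set X1 := Nat.find hex with hX1
    have hne : X1 ≠ X0 := by
      intro h
      rw [h] at hX1b
      have := hAexc.2.2.2.2.1
      linarith
    have hlt : X0 < X1 := lt_of_le_of_ne hX1a (Ne.symm hne)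
    obtain ⟨M, hM⟩ : ∃ M, X1 = M + 1 := ⟨X1 - 1, by omega⟩
    have hMX0 : X0 ≤ M := by omega
    have hMnot := Nat.find_min hex (m := M) (by rw [← hX1]; omega)
    have hMle : 1 - βA ≤ cA / Real.log (Ql C1 M) := by
      by_contra hh
      push Not at hh
      exact hMnot ⟨hMX0, hh⟩
    obtain ⟨hlogM, hyM⟩ := hlarge M (hX0N1.trans hMX0)
    obtain ⟨hlogX1, hyX1⟩ := hlarge X1 (hX0N1.trans hX1a)
    obtain ⟨hlogX0, hyX0⟩ := hlarge X0 hX0N1
    have hyM1 : 1 ≤ C1 * yy M := by linarith
    have hyX11 : 1 ≤ C1 * yy X1 := by linarith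
    have hlM := le_log_Ql hyM1
    have hlX1 := le_log_Ql hyX11
    have huX1 := log_Ql_le hyX11
    have hsucc : yy X1 ≤ yy M + 1 := by
      rw [hM]
      exact yy_succ hlogM
    have hC1s : C1 * yy X1 ≤ C1 * yy M + C1 := by nlinarith
    -- the logarithms of the levels
    set l1 := Real.log (Ql C1 X1) with hl1
    set lM := Real.log (Ql C1 M) with hlMdef
    have hlM0 : 0 < lM := by linarith
    have hl10 : 0 < l1 := by linarith
    have hratio : l1 ≤ 3 / 2 * lM := by linarith
    have hd1 : 1 - βA ≤ 3 / 2 * cA / l1 := by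
      refine hMle.trans ?_
      rw [div_le_div_iff₀ hlM0 hl10]
      nlinarith
    have hdpos : 0 < 1 - βA := by linarith
    have hmono01 : Ql C1 X0 ≤ Ql C1 X1 :=
      Ql_mono (mul_le_mul_of_nonneg_left (yy_mono hlogX0 hX1a) hC1.le)
    have hyX1pos : 0 < yy X1 := by
      by_contra hh
      push Not at hh
      have : C1 * yy X1 ≤ 0 := mul_nonpos_of_nonneg_of_nonpos hC1.le hh
      linarith
    have hmono12 : Ql C1 X1 ≤ Ql C2 X1 :=
      Ql_mono (mul_le_mul_of_nonneg_right hC2 hyX1pos.le)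
    have hC2y : C1 * yy X1 ≤ C2 * yy X1 := mul_le_mul_of_nonneg_right hC2 hyX1pos.le
    have hAch : md xA ≤ Ql C1 X0 ∧ xA.2.IsPrimitive := mem_Ch.1 hAexc.1
    have hl1ten : 10 * cA * (3 / 2) ≤ l1 := by linarith
    have hA910 : (9 : ℝ) / 10 ≤ βA := by
      have h1 : 3 / 2 * cA / l1 ≤ 1 / 10 := by
        rw [div_le_iff₀ hl10]
        linarith
      linarith
    refine ⟨X1, hX0N0.trans hX1a, ?_, ?_⟩
    · -- level 1
      intro xB βB hB
      have hBβ1 : βB < 1 := hB.2.2.2.2.2
      have hQ2 : 2 ≤ Ql C1 X1 := Ql_two hyX11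
      have hBch : md xB ≤ Ql C1 X1 ∧ xB.2.IsPrimitive := mem_Ch.1 hB.1
      have hBle : 1 - βB ≤ cA / l1 := by
        have := hB.2.2.2.2.1
        linarith
      have hB910 : (9 : ℝ) / 10 ≤ βB := by
        have h1 : cA / l1 ≤ 1 / 10 := by
          rw [div_le_iff₀ hl10]
          linarith
        linarith
      have hZu := (hZ (Ql C1 X1) hQ2).2 xA.1 (by
        have := hAch.1
        unfold md at this
        omega) xB.1 (by
        have := hBch.1
        unfold md at this
        omega) xA.2 xB.2 hAch.2 hBch.2 (βA : ℂ) (by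
          rw [mem_Z]
          refine ⟨by simpa using hA910, by simp, hAexc.2.2.2.1⟩) (βB : ℂ) (by
          rw [mem_Z]
          refine ⟨by simpa using hB910, by simp, hB.2.2.2.1⟩) (by
          rw [Complex.ofReal_re, ← hl1]
          have h1 : 3 / 2 * cA / l1 < c1 / l1 := by
            rw [div_lt_div_iff_of_pos_right hl10]
            linarith
          linarith) (by
          rw [Complex.ofReal_re, ← hl1]
          have h1 : cA / l1 < c1 / l1 := by
            rw [div_lt_div_iff_of_pos_right hl10]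
            linarith
          linarith)
      have hβ : βA = βB := by
        have h1 : (βA : ℂ) = (βB : ℂ) := by
          have h2 := congrArg (fun z : (q : ℕ) × (DirichletCharacter ℂ (q + 1) × ℂ) => z.2.2) hZu
          simpa using h2
        exact_mod_cast h1
      rw [← hβ] at hBle
      linarith
    · -- level 2
      intro xB βB hB
      have hyC2 : 1 ≤ C2 * yy X1 := by linarith
      have hQ2 : 2 ≤ Ql C2 X1 := Ql_two hyC2
      have hl2u := log_Ql_le hyC2
      have hl2l := le_log_Ql hyC2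
      set l2 := Real.log (Ql C2 X1) with hl2
      have hl20 : 0 < l2 := by linarith
      have hl12 : l1 ≤ l2 := by
        rw [hl1, hl2]
        apply Real.log_le_log
        · have := Ql_two hyX11
          have h1 : 0 < Ql C1 X1 := by omega
          exact_mod_cast h1
        · exact_mod_cast hmono12
      have hBβ1 : βB < 1 := hB.2.2.2.2.2
      have hBle : 1 - βB ≤ cB / l2 := by
        have := hB.2.2.2.2.1
        linarith
      have hBexc0 : IsExc c0 (Ql C2 X1) xB βB := by
        refine ⟨hB.1, hB.2.1, hB.2.2.1, hB.2.2.2.1, ?_, hBβ1⟩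
        rw [← hl2]
        have h1 : cB / l2 ≤ c0 / l2 := by gcongr
        linarith
      have hneAB : xA ≠ xB ∨ (βA : ℂ) ≠ (βB : ℂ) := by
        right
        intro h
        have h1 : βA = βB := by exact_mod_cast h
        rw [← h1] at hBle
        have h2 : cB / l2 ≤ cA / l1 := by
          apply div_le_div₀ hA.le (by linarith) hl10 hl12
        linarith
      have hdh := hD (Ql C2 X1) xB βB hQ2 hBexc0 xA (βA : ℂ) (by
          rw [mem_Ch]
          exact ⟨hAch.1.trans (hmono01.trans hmono12), hAch.2⟩) (by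
          rw [mem_Z]
          refine ⟨by simpa using hA910, by simp, hAexc.2.2.2.1⟩) hneAB
      rw [Complex.ofReal_re, ← hl2] at hdh
      have hBpos : 0 < 1 - βB := by linarith
      have h5 : Real.log (1 / cB) ≤ Real.log (1 / ((1 - βB) * l2)) := by
        apply Real.log_le_log (by positivity)
        apply one_div_le_one_div_of_le (by positivity)
        rw [le_div_iff₀ hl20] at hBle
        exact hBle
      have h6 : (2 * cA * C2 / C1 + 1) / l2 ≤ 1 - βA := by
        have h7 : c4 * Real.log (1 / cB) / l2 ≤ c4 * Real.log (1 / ((1 - βB) * l2)) / l2 := by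
          gcongr
        have h8 : (2 * cA * C2 / C1 + 1) / l2 ≤ c4 * Real.log (1 / cB) / l2 := by
          gcongr
        linarith
      have h9 : (2 * cA * C2 / C1 + 1) / l2 ≤ 3 / 2 * cA / l1 := h6.trans hd1
      rw [div_le_div_iff₀ hl20 hl10] at h9
      -- l1 ≥ (3/4) C1 yy X1, l2 ≤ C2 yy X1
      have h10 : 3 / 4 * (C1 * yy X1) ≤ l1 := by linarith
      have h11 : 3 / 2 * cA * l2 ≤ 3 / 2 * cA * (C2 * yy X1) := by gcongr
      have h12 : 3 / 2 * cA * (C2 * yy X1) < (2 * cA * C2 / C1 + 1) * l1 := by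
        have h13 : (2 * cA * C2 / C1) * (3 / 4 * (C1 * yy X1)) = 3 / 2 * cA * (C2 * yy X1) := by
          field_simp
          ring
        have h14 : (2 * cA * C2 / C1) * (3 / 4 * (C1 * yy X1)) ≤ (2 * cA * C2 / C1) * l1 := by
          gcongr
        nlinarith
      linarith
  · -- no exceptional zeros at level 1 from some point on
    push Not at hcase
    obtain ⟨N2, hN2⟩ := hcase
    intro N0
    set N := max N0 (max N1 N2) with hN
    have hNN0 : N0 ≤ N := le_max_left _ _
    have hNN1 : N1 ≤ N := (le_max_left _ _).trans (le_max_right _ _)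
    have hNN2 : N2 ≤ N := (le_max_right _ _).trans (le_max_right _ _)
    obtain ⟨hlogN, hyN⟩ := hlarge N hNN1
    have hyNpos : 0 < yy N := by
      by_contra hh
      push Not at hh
      have : C1 * yy N ≤ 0 := mul_nonpos_of_nonneg_of_nonpos hC1.le hh
      linarith
    have hC2y : C1 * yy N ≤ C2 * yy N := mul_le_mul_of_nonneg_right hC2 hyNpos.le
    refine ⟨N, hNN0, hN2 N hNN2, ?_⟩
    intro xB βB hB
    -- the first X with C1 yy X ≥ C2 yy N
    have hex : ∃ X : ℕ, N ≤ X ∧ C2 * yy N ≤ C1 * yy X := by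
      obtain ⟨N3, hN3⟩ := large (C2 * yy N / C1)
      refine ⟨max N N3, le_max_left _ _, ?_⟩
      obtain ⟨-, hb⟩ := hN3 _ (le_max_right N N3)
      rw [div_le_iff₀ hC1] at hb
      linarith
    classical
    obtain ⟨hX1a, hX1b⟩ := Nat.find_spec hex
    set X1 := Nat.find hex with hX1
    have hup : C1 * yy X1 ≤ C2 * yy N + C1 := by
      rcases eq_or_lt_of_le hX1a with h | h
      · rw [← h]
        linarith
      · obtain ⟨M, hM⟩ : ∃ M, X1 = M + 1 := ⟨X1 - 1, by omega⟩
        have hMN : N ≤ M := by omega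
        have hMnot := Nat.find_min hex (m := M) (by rw [← hX1]; omega)
        have h1 : C1 * yy M ≤ C2 * yy N := by
          by_contra hh
          push Not at hh
          exact hMnot ⟨hMN, hh.le⟩
        have h2 : yy X1 ≤ yy M + 1 := by
          rw [hM]
          exact yy_succ (hlarge M (hNN1.trans hMN)).1
        nlinarith
    have hmono : Ql C2 N ≤ Ql C1 X1 := Ql_mono hX1b
    have hy1 : 1 ≤ C1 * yy X1 := by linarith
    have hy2 : 1 ≤ C2 * yy N := by linarith
    have hu := log_Ql_le hy1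
    have hl := le_log_Ql hy1
    have hl2 := le_log_Ql hy2
    have hch := mem_Ch.1 hB.1
    apply hN2 X1 (hNN2.trans hX1a) xB βB
    refine ⟨mem_Ch.2 ⟨hch.1.trans hmono, hch.2⟩, hB.2.1, hB.2.2.1, hB.2.2.2.1, ?_, hB.2.2.2.2.2⟩
    have h1 := hB.2.2.2.2.1
    have h2 : cB / Real.log (Ql C2 N) ≤ cA / Real.log (Ql C1 X1) := by
      rw [div_le_div_iff₀ (by linarith) (by linarith)]
      have h3 : Real.log (Ql C1 X1) ≤ 2 * Real.log (Ql C2 N) := by linarith
      have h4 : 0 < Real.log (Ql C2 N) := by linarith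
      calc cB * Real.log (Ql C1 X1) ≤ cA / 2 * (2 * Real.log (Ql C2 N)) := by
            gcongr
        _ = cA * Real.log (Ql C2 N) := by ring
    linarith

end Pool.Agent.Lib.LEN
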