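import Pool.Agent.Lib.LEN.DefsK
import Pool.Agent.Lib.LEN.GoodX
import Pool.Agent.Lib.LEN.SelK
import Pool.Agent.Lib.GMV.SPS

/-!
# LEN.SingUp: the prediction is tiny beyond the threshold, for every injective tuple

`SI h ≤ SZ z h * exp (2 r^3 log (N+1) / (z log z))` (`HLB.SI_le_SZ`) with `z = r ^ 3`, `SZ z h ≤ (DZ z)⁻¹ ^ r`,
`(DZ z)⁻¹ ≤ 2 e^7 log z` and `log (N+1) / log r ≤ C yy N ≤ C r`: `SI h ≤ (A log r)^r`, `A` absolute.
`r ≤ (log N)^2`: `N (2 A log log N / log N)^((1+ε) yy N) ≤ N^(-ε/2)`. `r > (log N)^2`: `N e^(-r)`.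
-/

set_option autoImplicit false

open Finset Filter

namespace Pool.Agent.Lib.LEN

open Pool.Agent.HLB Pool.Agent.HLT Pool.Agent.HLR Pool.Agent.Lib.GMV

namespace SingUpAux

/-- `SI h ≤ (A log r)^r` for every injective tuple. -/
lemma SI_le {N r : ℕ} (hN : Real.exp 1 ≤ Real.log N) (hLL : 4 ≤ Real.log (Real.log N))
    (h16 : 16 ≤ Real.log N) (hr : yy N ≤ r) (h : Fin r → ℕ) (hh : ∀ i, h i ≤ N)
    (hinj : Function.Injective h) :
    SI h ≤ (6 * Real.exp 13 * Real.log r) ^ r := by
  have hl0 : 0 < Real.log N := (Real.exp_pos 1).trans_le hN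
  have hN1 : (1 : ℝ) < N := by
    by_contra hcon
    push Not at hcon
    have := Real.log_nonpos (Nat.cast_nonneg N) hcon
    linarith
  have hN0 : (0 : ℝ) < N := by linarith
  have hyy := GoodXAux.yy_ge hN
  have hs4 : 4 ≤ Real.sqrt (Real.log N) := by
    apply Real.le_sqrt_of_sq_le
    linarith
  have hr2 : (2 : ℝ) ≤ r := by linarith
  have hr2' : 2 ≤ r := by exact_mod_cast hr2
  have hr0 : (0 : ℝ) < r := by linarith
  -- `log r ≥ (1/4) log log N`
  have hlr : Real.log (Real.log N) / 4 ≤ Real.log r := by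
    have h1 : Real.sqrt (Real.log N) / 2 ≤ r := hyy.trans hr
    have h2 : Real.log (Real.sqrt (Real.log N) / 2) ≤ Real.log r :=
      Real.log_le_log (by positivity) h1
    rw [Real.log_div (by positivity) (by norm_num), Real.log_sqrt hl0.le] at h2
    have h3 := Real.log_two_lt_d9
    linarith
  have hlr0 : 0 < Real.log r := by linarith
  set z : ℕ := r ^ 3 with hz
  have hz2 : 2 ≤ z := by
    rw [hz]
    calc 2 ≤ r := hr2'
      _ = r ^ 1 := (pow_one r).symm
      _ ≤ r ^ 3 := Nat.pow_le_pow_right (by omega) (by norm_num)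
  have hzc : (z : ℝ) = (r : ℝ) ^ 3 := by rw [hz]; push_cast; rfl
  have hlz : Real.log z = 3 * Real.log r := by rw [hzc, Real.log_pow]; norm_num
  have h1 := SI_le_SZ h (by rw [Fintype.card_fin]; omega) hinj N z hz2 hh
  rw [Fintype.card_fin] at h1
  have h2 : SZ z h ≤ ((DZ z)⁻¹) ^ r :=
    SelKAux.SZ_le h z fun p hp => locI_nonneg h (Nat.prime_of_mem_primesLE hp)
  have h3 : (DZ z)⁻¹ ≤ 6 * Real.exp 7 * Real.log r := by
    have := SPSAux.DZ_inv z hz2
    rw [hlz] at this
    linarith
  have h3' : 0 ≤ (DZ z)⁻¹ := (inv_pos.2 (DZ_pos z)).le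
  have h4 : 2 * (r : ℝ) ^ 3 * Real.log ((N + 1 : ℕ) : ℝ) / (z * Real.log z) ≤ 6 * r := by
    have hlogN : Real.log ((N + 1 : ℕ) : ℝ) ≤ 2 * Real.log N := by
      have h5 : ((N + 1 : ℕ) : ℝ) ≤ (N : ℝ) ^ 2 := by
        have h6 : 2 ≤ N := by
          by_contra hcon
          have h7 : (N : ℝ) ≤ 1 := by exact_mod_cast (by omega : N ≤ 1)
          linarith
        have h8 : N + 1 ≤ N ^ 2 := by nlinarith
        exact_mod_cast h8
      calc Real.log ((N + 1 : ℕ) : ℝ) ≤ Real.log ((N : ℝ) ^ 2) :=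
            Real.log_le_log (by positivity) h5
        _ = 2 * Real.log N := by rw [Real.log_pow]; norm_num
    have hLL0 : 0 < Real.log (Real.log N) := by linarith
    have hy : Real.log N ≤ r * Real.log (Real.log N) := by
      unfold yy at hr
      rwa [div_le_iff₀ hLL0] at hr
    rw [hlz, hzc, div_le_iff₀ (by positivity)]
    have h9 : Real.log (Real.log N) ≤ 4 * Real.log r := by linarith
    have h10 : Real.log N ≤ r * (4 * Real.log r) :=
      hy.trans (mul_le_mul_of_nonneg_left h9 hr0.le)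
    have h11 : Real.log ((N + 1 : ℕ) : ℝ) ≤ 8 * (r * Real.log r) := by linarith
    have h12 : 2 * (r : ℝ) ^ 3 * Real.log ((N + 1 : ℕ) : ℝ) ≤
        2 * (r : ℝ) ^ 3 * (8 * (r * Real.log r)) :=
      mul_le_mul_of_nonneg_left h11 (by positivity)
    have h13 : 0 ≤ (r : ℝ) ^ 3 * (r * Real.log r) := by positivity
    calc 2 * (r : ℝ) ^ 3 * Real.log ((N + 1 : ℕ) : ℝ)
        ≤ 2 * (r : ℝ) ^ 3 * (8 * (r * Real.log r)) := h12
      _ = 16 * ((r : ℝ) ^ 3 * (r * Real.log r)) := by ring
      _ ≤ 18 * ((r : ℝ) ^ 3 * (r * Real.log r)) := by linarith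
      _ = 6 * r * ((r : ℝ) ^ 3 * (3 * Real.log r)) := by ring
  have h5 : SZ z h ≤ (6 * Real.exp 7 * Real.log r) ^ r :=
    h2.trans (pow_le_pow_left₀ h3' h3 r)
  have h6 : Real.exp (6 * (r : ℝ)) = (Real.exp 6) ^ r := by
    rw [← Real.exp_nat_mul, mul_comm]
  calc SI h ≤ SZ z h * Real.exp (2 * (r : ℝ) ^ 3 * Real.log ((N + 1 : ℕ) : ℝ) /
        (z * Real.log z)) := h1
    _ ≤ (6 * Real.exp 7 * Real.log r) ^ r * Real.exp (6 * r) :=
        mul_le_mul h5 (Real.exp_le_exp.2 h4) (Real.exp_pos _).le (by positivity)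
    _ = (6 * Real.exp 7 * Real.log r * Real.exp 6) ^ r := by
        rw [h6, ← mul_pow]
    _ = (6 * Real.exp 13 * Real.log r) ^ r := by
        congr 1
        have : Real.exp 13 = Real.exp 7 * Real.exp 6 := by rw [← Real.exp_add]; norm_num
        rw [this]
        ring

lemma ev_loglog (A δ : ℝ) (hA : 0 < A) (hδ : 0 < δ) : ∃ x0 : ℝ, ∀ x : ℝ, x0 ≤ x →
    Real.log (A * x) ≤ δ * x := by
  have h1 := Real.isLittleO_log_id_atTop.bound (half_pos hδ)
  have h2 : ∀ᶠ x : ℝ in atTop, Real.log A ≤ δ / 2 * x := by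
    filter_upwards [eventually_ge_atTop (Real.log A / (δ / 2))] with x hx
    rwa [div_le_iff₀ (by positivity), mul_comm] at hx
  have h3 := (h1.and h2).and (eventually_ge_atTop (1 : ℝ))
  obtain ⟨x0, hx0⟩ := eventually_atTop.1 h3
  refine ⟨x0, fun x hx => ?_⟩
  obtain ⟨⟨h4, h5⟩, h6⟩ := hx0 x hx
  have hx0' : (0 : ℝ) < x := by linarith
  rw [Real.norm_of_nonneg (Real.log_nonneg h6), id, Real.norm_of_nonneg hx0'.le] at h4
  rw [Real.log_mul hA.ne' hx0'.ne']
  linarith

end SingUpAux

open SingUpAux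

/-- Module SingUp. -/
theorem pr_small : ∃ c0 : ℝ, 0 < c0 ∧ ∀ ε K : ℝ, 0 < ε → 0 < K → ∃ N0 : ℕ, ∀ N r : ℕ, N0 ≤ N →
    (1 + ε) * yy N ≤ r → (r : ℝ) ≤ (N : ℝ) ^ c0 → ∀ h ∈ Tup r (Icc 1 N),
    Function.Injective h → pr N h ≤ 1 / K := by
  obtain ⟨A, hA⟩ : ∃ A : ℝ, A = 6 * Real.exp 13 := ⟨_, rfl⟩
  have hA0 : 0 < A := by rw [hA]; positivity
  refine ⟨1 / (A * Real.exp 1), by positivity, ?_⟩
  intro ε K hε hK
  obtain ⟨x0, hx0⟩ := ev_loglog (2 * A) (ε / (2 * (1 + ε))) (by positivity) (by positivity)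
  have hlim : Tendsto (fun N : ℕ => Real.log (N : ℝ)) atTop atTop :=
    Real.tendsto_log_atTop.comp tendsto_natCast_atTop_atTop
  have hlim2 : Tendsto (fun N : ℕ => Real.log (Real.log (N : ℝ))) atTop atTop :=
    Real.tendsto_log_atTop.comp hlim
  have hev := (((hlim.eventually_ge_atTop (Real.exp 1)).and (hlim.eventually_ge_atTop 16)).and
    ((hlim2.eventually_ge_atTop 4).and (hlim2.eventually_ge_atTop x0))).and
    ((hlim.eventually_ge_atTop (2 * Real.log K / ε)).and (hlim.eventually_ge_atTop (Real.log K)))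
  obtain ⟨N0, hN0⟩ := eventually_atTop.1 hev
  refine ⟨N0, ?_⟩
  intro N r hN hr hrc h hmem hinj
  obtain ⟨⟨⟨e1, e2⟩, e3, e4⟩, e5, e6⟩ := hN0 N hN
  have hh : ∀ i, h i ≤ N := fun i => (Finset.mem_Icc.1 (mem_Tup.1 hmem i)).2
  have hl0 : 0 < Real.log N := (Real.exp_pos 1).trans_le e1
  have hN1 : (1 : ℝ) < N := by
    by_contra hcon
    push Not at hcon
    have := Real.log_nonpos (Nat.cast_nonneg N) hcon
    linarith
  have hNpos : (0 : ℝ) < N := by linarith
  have hLL0 : 0 < Real.log (Real.log N) := by linarith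
  have hyy0 : 0 < yy N := by
    unfold yy
    positivity
  have hryy : yy N ≤ r := by
    have : 0 < ε * yy N := by positivity
    linarith
  have hSI := SI_le e1 e3 e2 hryy h hh hinj
  rw [← hA] at hSI
  have hr0 : (0 : ℝ) < r := by linarith
  have hyg := GoodXAux.yy_ge e1
  have hs4 : 4 ≤ Real.sqrt (Real.log N) := by
    apply Real.le_sqrt_of_sq_le
    linarith
  have hr2 : (2 : ℝ) ≤ r := by linarith
  have hlr0 : 0 < Real.log r := Real.log_pos (by linarith)
  have hpr : pr N h ≤ N * (A * Real.log r / Real.log N) ^ r := by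
    unfold pr
    rw [div_pow, mul_div_assoc', mul_comm (N : ℝ)]
    gcongr
  refine hpr.trans ?_
  have hKe : 1 / K = Real.exp (-Real.log K) := by
    rw [Real.exp_neg, Real.exp_log hK, one_div]
  have hNe : (N : ℝ) = Real.exp (Real.log N) := (Real.exp_log hNpos).symm
  rcases le_or_gt (Real.log r) (2 * Real.log (Real.log N)) with hcase | hcase
  · -- `r ≤ (log N)^2`
    have h1 : A * Real.log r / Real.log N ≤ 2 * A * Real.log (Real.log N) / Real.log N := by
      apply div_le_div_of_nonneg_right _ hl0.le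
      calc A * Real.log r ≤ A * (2 * Real.log (Real.log N)) :=
            mul_le_mul_of_nonneg_left hcase hA0.le
        _ = 2 * A * Real.log (Real.log N) := by ring
    have h2 : 2 * A * Real.log (Real.log N) / Real.log N =
        Real.exp (Real.log (2 * A * Real.log (Real.log N)) - Real.log (Real.log N)) := by
      rw [Real.exp_sub, Real.exp_log (by positivity), Real.exp_log hl0]
    have h3 : (A * Real.log r / Real.log N) ^ r ≤
        Real.exp (r * (Real.log (2 * A * Real.log (Real.log N)) - Real.log (Real.log N))) := by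
      rw [Real.exp_nat_mul, ← h2]
      exact pow_le_pow_left₀ (by positivity) h1 r
    have h4 := hx0 _ e4
    have h5 : Real.log (2 * A * Real.log (Real.log N)) - Real.log (Real.log N) ≤
        -((1 + ε / 2) / (1 + ε)) * Real.log (Real.log N) := by
      have h6 : (ε / (2 * (1 + ε)) - 1) * Real.log (Real.log N) =
          -((1 + ε / 2) / (1 + ε)) * Real.log (Real.log N) := by
        congr 1
        field_simp
        ring
      linarith
    have h7 : (r : ℝ) * (Real.log (2 * A * Real.log (Real.log N)) - Real.log (Real.log N)) ≤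
        -(1 + ε / 2) * Real.log N := by
      have h8 : (1 + ε) * yy N * Real.log (Real.log N) = (1 + ε) * Real.log N := by
        unfold yy
        field_simp
      have h9 : (1 + ε) * Real.log N ≤ r * Real.log (Real.log N) := by
        rw [← h8]
        exact mul_le_mul_of_nonneg_right hr hLL0.le
      have h10 : 0 ≤ (1 + ε / 2) / (1 + ε) := by positivity
      calc (r : ℝ) * (Real.log (2 * A * Real.log (Real.log N)) - Real.log (Real.log N))
          ≤ r * (-((1 + ε / 2) / (1 + ε)) * Real.log (Real.log N)) :=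
            mul_le_mul_of_nonneg_left h5 hr0.le
        _ = -(((1 + ε / 2) / (1 + ε)) * (r * Real.log (Real.log N))) := by ring
        _ ≤ -(((1 + ε / 2) / (1 + ε)) * ((1 + ε) * Real.log N)) :=
            neg_le_neg (mul_le_mul_of_nonneg_left h9 h10)
        _ = -(1 + ε / 2) * Real.log N := by
            field_simp
    have h11 : 2 * Real.log K ≤ ε * Real.log N := by
      rw [div_le_iff₀ hε] at e5
      linarith
    calc (N : ℝ) * (A * Real.log r / Real.log N) ^ r
        ≤ Real.exp (Real.log N) * Real.exp (-(1 + ε / 2) * Real.log N) := by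
          rw [← hNe]
          exact mul_le_mul_of_nonneg_left (h3.trans (Real.exp_le_exp.2 h7)) hNpos.le
      _ = Real.exp (Real.log N + -(1 + ε / 2) * Real.log N) := by rw [Real.exp_add]
      _ ≤ Real.exp (-Real.log K) := Real.exp_le_exp.2 (by linarith)
      _ = 1 / K := hKe.symm
  · -- `r > (log N)^2`
    have h1 : Real.log r ≤ 1 / (A * Real.exp 1) * Real.log N := by
      have h2 := Real.log_le_log hr0 hrc
      rwa [Real.log_rpow hNpos] at h2
    have h2 : A * Real.log r / Real.log N ≤ Real.exp (-1) := by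
      rw [div_le_iff₀ hl0]
      calc A * Real.log r ≤ A * (1 / (A * Real.exp 1) * Real.log N) :=
            mul_le_mul_of_nonneg_left h1 hA0.le
        _ = Real.exp (-1) * Real.log N := by
            rw [Real.exp_neg]
            field_simp
    have h3 : (A * Real.log r / Real.log N) ^ r ≤ Real.exp (-(r : ℝ)) := by
      have h4 : Real.exp (-(r : ℝ)) = (Real.exp (-1)) ^ r := by
        rw [← Real.exp_nat_mul]
        congr 1
        ring
      rw [h4]
      exact pow_le_pow_left₀ (by positivity) h2 r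
    have h5 : Real.log N ^ 2 ≤ r := by
      have h6 : Real.log (Real.log N ^ 2) < Real.log r := by
        rw [Real.log_pow]
        exact_mod_cast hcase
      exact ((Real.log_lt_log_iff (by positivity) hr0).1 h6).le
    have h7 : Real.log N + Real.log K ≤ Real.log N ^ 2 := by nlinarith
    calc (N : ℝ) * (A * Real.log r / Real.log N) ^ r
        ≤ Real.exp (Real.log N) * Real.exp (-(r : ℝ)) := by
          rw [← hNe]
          exact mul_le_mul_of_nonneg_left h3 hNpos.le
      _ = Real.exp (Real.log N + -(r : ℝ)) := by rw [Real.exp_add]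
      _ ≤ Real.exp (-Real.log K) := Real.exp_le_exp.2 (by linarith)
      _ = 1 / K := hKe.symm

end Pool.Agent.Lib.LEN
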