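import Pool.Agent.Lib.LEN.Far
import Pool.Agent.Lib.LEN.Defs

/-!
# Beyond the threshold, in the form of the final theorem
-/

set_option autoImplicit false

open Finset Filter

namespace Pool.Agent.Lib.LEN

open Pool.Agent.HLB Pool.Agent.HLT Pool.Agent.HLR Pool.Agent.Lib.GMV

open scoped Classical in
/-- Module Upper: beyond the threshold, for all `r ≤ N ^ c0` and all `n ≤ 2N`. -/
theorem upper' : ∃ c0 : ℝ, 0 < c0 ∧ ∀ ε : ℝ, 0 < ε → ∃ N0 : ℕ, ∀ N : ℕ, N0 ≤ N → ∀ r : ℕ,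
    (1 + ε) * yy N ≤ r → (r : ℝ) ≤ (N : ℝ) ^ c0 →
    (((Tup r (Icc 1 N)).filter (fun h => Adm h ∧
      ∃ n ∈ Icc 1 (2 * N), ∀ i, (n + h i).Prime)).card : ℝ) ≤
    ε * ((Tup r (Icc 1 N)).filter (fun h => Adm h)).card := by
  obtain ⟨c0, hc0, h⟩ := far
  refine ⟨c0, hc0, fun ε hε => ?_⟩
  obtain ⟨X0, h1⟩ := h ε hε
  refine ⟨X0, fun N hN r hr hrN => ?_⟩
  have h2 := h1 N 0 r hN (Nat.zero_le _) hr hrN
  have h3 : bx r 0 N = Tup r (Icc 1 N) := by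
    unfold bx Tup
    rw [Nat.zero_add]
    rfl
  rw [h3] at h2
  exact h2

open scoped Classical in
/-- Module Upper: beyond the threshold (all `n ≤ 2N`). -/
theorem upper (ε : ℝ) (hε : 0 < ε) : ∃ N0 : ℕ, ∀ N : ℕ, N0 ≤ N → ∀ r : ℕ,
    (1 + ε) * yy N ≤ r → (r : ℝ) ≤ Real.log N / 4 →
    (((Tup r (Icc 1 N)).filter (fun h => Adm h ∧
      ∃ n ∈ Icc 1 (2 * N), ∀ i, (n + h i).Prime)).card : ℝ) ≤
    ε * ((Tup r (Icc 1 N)).filter (fun h => Adm h)).card := by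
  obtain ⟨c0, hc0, h⟩ := upper'
  obtain ⟨N0, h1⟩ := h ε hε
  have h2 := Pool.Agent.Lib.MT.Wtd.log_pow_small 1 1 c0 hc0
  obtain ⟨N1, h3⟩ := eventually_atTop.1 h2
  refine ⟨max N0 N1, fun N hN r hr hrN => h1 N ((le_max_left _ _).trans hN) r hr ?_⟩
  have h4 := h3 N ((le_max_right _ _).trans hN)
  rw [pow_one, one_mul] at h4
  have h5 : 0 ≤ Real.log (N:ℝ) := Real.log_natCast_nonneg N
  linarith

end Pool.Agent.Lib.LEN
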