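import Pool.Agent.Lib.LEN.FinK
import Pool.Agent.Lib.LEN.LevK
import Pool.Agent.Lib.LEN.SingUp
import Pool.Agent.Lib.LEN.Upper

/-!
# LEN.FinL: prime tuples of every length
-/

set_option autoImplicit false

open Finset Filter

namespace Pool.Agent.Lib.LEN

open Pool.Agent.HLB Pool.Agent.HLT Pool.Agent.HLR Pool.Agent.Lib.GMV

/-- Some real primitive character modulo `q ≤ exp (C log N / log log N)` has a real zero in
`[1 - C log log N / log N, 1)`. -/
def RZ (C : ℝ) (N : ℕ) : Prop :=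
  ∃ (q : ℕ) (χ : DirichletCharacter ℂ q) (β : ℝ), (q : ℝ) ≤ Real.exp (C * yy N) ∧
    χ.IsPrimitive ∧ χ ≠ 1 ∧ χ ^ 2 = 1 ∧
    (∃ _ : NeZero q, DirichletCharacter.LFunction χ (β : ℂ) = 0) ∧ 1 - C / yy N ≤ β ∧ β < 1

lemma rz_of_exc {c C : ℝ} (hc : 0 < c) (hC : 0 < C) {N : ℕ} (hN : 2 ≤ C * yy N) {D : ℝ}
    (hD1 : C ≤ D) (hD2 : 2 * c / C ≤ D) {x : CI} {β : ℝ} (h : IsExc c (Ql C N) x β) : RZ D N := by
  obtain ⟨h1, h2, h3, h4, h5, h6⟩ := h
  have hyy : 0 < yy N := by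
    by_contra hcon
    rw [not_lt] at hcon
    nlinarith
  have hx := mem_Ch.1 h1
  refine ⟨x.1 + 1, x.2, β, ?_, hx.2, h2, h3, ⟨inferInstance, ?_⟩, ?_, h6⟩
  · have h7 : ((x.1 + 1 : ℕ) : ℝ) ≤ Ql C N := by exact_mod_cast hx.1
    refine h7.trans ((GoodXAux.Ql_le C N).trans (Real.exp_le_exp.2 ?_))
    exact mul_le_mul_of_nonneg_right hD1 hyy.le
  · rwa [Lf_of_ne h2] at h4
  · refine le_trans ?_ h5
    have h7 := GoodXAux.le_log_Ql (c := C) (N := N) (by linarith)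
    have h8 : C * yy N / 2 ≤ Real.log (Ql C N) := by linarith
    have h9 : c / Real.log (Ql C N) ≤ c / (C * yy N / 2) :=
      div_le_div_of_nonneg_left hc.le (by positivity) h8
    have h10 : c / (C * yy N / 2) = 2 * c / C / yy N := by
      field_simp
    have h11 : 2 * c / C / yy N ≤ D / yy N := div_le_div_of_nonneg_right hD2 hyy.le
    linarith

/-- Without such a zero `N` is good. -/
lemma goodX_of (cA C1 cB C2 : ℝ) (h1 : 0 < cA) (h2 : 0 < C1) (h3 : 0 < cB) (h4 : 0 < C2) :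
    ∃ C : ℝ, 0 < C ∧ ∃ N0 : ℕ, ∀ N : ℕ, N0 ≤ N → ¬ RZ C N → GoodX cA C1 cB C2 N := by
  obtain ⟨N1, hN1⟩ := GoodXAux.large (max (2 / C1) (2 / C2))
  refine ⟨max (max C1 C2) (max (2 * cA / C1) (2 * cB / C2)), ?_, N1, fun N hN hnot => ?_⟩
  · exact lt_of_lt_of_le h2 ((le_max_left _ _).trans (le_max_left _ _))
  · obtain ⟨_, hy⟩ := hN1 N hN
    have hy1 : 2 ≤ C1 * yy N := by
      have := (le_max_left _ _).trans hy
      rw [div_le_iff₀ h2] at this
      linarith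
    have hy2 : 2 ≤ C2 * yy N := by
      have := (le_max_right _ _).trans hy
      rw [div_le_iff₀ h4] at this
      linarith
    refine ⟨fun x β hx => hnot ?_, fun x β hx => hnot ?_⟩
    · exact rz_of_exc h1 h2 hy1 ((le_max_left _ _).trans (le_max_left _ _))
        ((le_max_left _ _).trans (le_max_right _ _)) hx
    · exact rz_of_exc h3 h4 hy2 ((le_max_right _ _).trans (le_max_left _ _))
        ((le_max_right _ _).trans (le_max_right _ _)) hx

open scoped Classical in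
/-- Hardy-Littlewood below, nothing beyond, the prediction decides, and the Poisson law in classes. -/
def Conc (c0 ε K cw d : ℝ) (N : ℕ) : Prop :=
    (∀ r : ℕ, 1 ≤ r → (r : ℝ) ≤ (1 - ε) * yy N →
      (((Tup r (Icc 1 N)).filter (fun h => Adm h ∧
        ε * pr N h < |(cnt N h : ℝ) - pr N h|)).card : ℝ) ≤
      ε * ((Tup r (Icc 1 N)).filter (fun h => Adm h)).card) ∧
    (∀ r : ℕ, (1 + ε) * yy N ≤ r → (r : ℝ) ≤ (N : ℝ) ^ c0 →
      (((Tup r (Icc 1 N)).filter (fun h => Adm h ∧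
        ∃ n ∈ Icc 1 (2 * N), ∀ i, (n + h i).Prime)).card : ℝ) ≤
      ε * ((Tup r (Icc 1 N)).filter (fun h => Adm h)).card) ∧
    (∀ r : ℕ, 1 ≤ r → (r : ℝ) ≤ (N : ℝ) ^ c0 →
      (((Tup r (Icc 1 N)).filter (fun h => Adm h ∧
        ¬ ((K ≤ pr N h → |(cnt N h : ℝ) - pr N h| ≤ ε * pr N h) ∧
          (pr N h ≤ 1 / K → cnt N h = 0)))).card : ℝ) ≤
      ε * ((Tup r (Icc 1 N)).filter (fun h => Adm h)).card) ∧
    (∀ r : ℕ, 1 ≤ r → (r : ℝ) ≤ 2 * yy N → ∀ w : ℕ, w = ⌊cw * yy N⌋₊ →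
      (((AC w r).filter (fun a => lam N w a ≤ 1 / ε ∧ ∃ j : ℕ, (j : ℝ) ≤ 1 / ε ∧
        ε * (Hc N w a).card < |(((Hc N w a).filter (fun h => cnt N h = j)).card : ℝ) -
          Real.exp (-lam N w a) * lam N w a ^ j / j.factorial * (Hc N w a).card|)).card : ℝ) ≤
        (N : ℝ) ^ (-d) * (AC w r).card ∧ ∀ a ∈ AC w r, 0 < (Hc N w a).card ∧
          (((Hc N w a).filter (fun h =>
            ¬ (Adm h ∧ |pr N h - lam N w a| ≤ ε * lam N w a))).card : ℝ) ≤
              ε * (Hc N w a).card)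

theorem every_length : ∃ c0 : ℝ, 0 < c0 ∧ ∀ ε : ℝ, 0 < ε → ∃ K cw d C : ℝ, 1 ≤ K ∧ 0 < cw ∧
    0 < d ∧ 0 < C ∧ (∃ N0 : ℕ, ∀ N : ℕ, N0 ≤ N → RZ C N ∨ Conc c0 ε K cw d N) ∧
    ∀ N0 : ℕ, ∃ N : ℕ, N0 ≤ N ∧ Conc c0 ε K cw d N := by
  classical
  obtain ⟨c1, hc1, hup⟩ := upper'
  obtain ⟨c2, hc2, hsm⟩ := pr_small
  obtain ⟨C1, cA, hC1, hcA, hG, hL⟩ := levelsK
  refine ⟨min c1 c2, lt_min hc1 hc2, fun ε hε => ?_⟩
  have hε2 : 0 < ε / 2 := by positivity
  obtain ⟨K1, cw1, d1, C01, hK1, hcw1, hd1, hmain1⟩ := full_half C1 cA hC1 hcA hL (ε / 2) hε2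
  obtain ⟨K, cw, d, C0, hK, hcw, hd, hmain⟩ := full_half C1 cA hC1 hcA hL ε hε
  obtain ⟨cB, hcB, hGN⟩ := hG (max C1 (max C0 C01)) (le_max_left _ _)
  obtain ⟨M1, hM1⟩ := hmain (max C1 (max C0 C01)) cB
    ((le_max_left _ _).trans (le_max_right _ _)) hcB
  obtain ⟨M2, hM2⟩ := hmain1 (max C1 (max C0 C01)) cB
    ((le_max_right _ _).trans (le_max_right _ _)) hcB
  obtain ⟨M3, hM3⟩ := hup ε hε
  obtain ⟨M4, hM4⟩ := hup 1 one_pos
  obtain ⟨M5, hM5⟩ := hup (min ε 1) (lt_min hε one_pos)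
  have hKK : 1 ≤ max K K1 := hK.trans (le_max_left _ _)
  obtain ⟨M6, hM6⟩ := hsm 1 (2 * max K K1) one_pos (by positivity)
  obtain ⟨CR, hCR, M7, hM7⟩ := goodX_of cA C1 cB (max C1 (max C0 C01)) hcA hC1 hcB
    (lt_of_lt_of_le hC1 (le_max_left _ _))
  have hmain2 : ∀ N : ℕ, max (max (max 0 M1) (max M2 M3)) (max (max M4 M5)
      (max M6 ⌈Real.exp (Real.exp 1)⌉₊)) ≤ N → GoodX cA C1 cB (max C1 (max C0 C01)) N →
      Conc (min c1 c2) ε (max K K1) cw d N := ?_
  · refine ⟨max K K1, cw, d, CR, hKK, hcw, hd, hCR, ⟨max M7 (max (max (max 0 M1) (max M2 M3))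
      (max (max M4 M5) (max M6 ⌈Real.exp (Real.exp 1)⌉₊))), fun N hN => ?_⟩, fun N0 => ?_⟩
    · by_cases hR : RZ CR N
      · exact Or.inl hR
      · exact Or.inr (hmain2 N ((le_max_right _ _).trans hN)
          (hM7 N ((le_max_left _ _).trans hN) hR))
    · obtain ⟨N, hN, hGood⟩ := hGN (max N0 (max (max (max 0 M1) (max M2 M3)) (max (max M4 M5)
        (max M6 ⌈Real.exp (Real.exp 1)⌉₊))))
      exact ⟨N, (le_max_left _ _).trans hN, hmain2 N ((le_max_right _ _).trans hN) hGood⟩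
  intro N hN hGood
  have e1 : M1 ≤ N := (((le_max_right _ _).trans (le_max_left _ _)).trans (le_max_left _ _)).trans hN
  have e2 : M2 ≤ N := (((le_max_left _ _).trans (le_max_right _ _)).trans (le_max_left _ _)).trans hN
  have e3 : M3 ≤ N := (((le_max_right _ _).trans (le_max_right _ _)).trans (le_max_left _ _)).trans hN
  have e5 : M5 ≤ N := (((le_max_right _ _).trans (le_max_left _ _)).trans (le_max_right _ _)).trans hN
  have e6 : M6 ≤ N := (((le_max_left _ _).trans (le_max_right _ _)).trans (le_max_right _ _)).trans hN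
  have e7 : ⌈Real.exp (Real.exp 1)⌉₊ ≤ N :=
    (((le_max_right _ _).trans (le_max_right _ _)).trans (le_max_right _ _)).trans hN
  have hNe : Real.exp (Real.exp 1) ≤ N := Nat.ceil_le.1 e7
  have hNpos : (0 : ℝ) < N := lt_of_lt_of_le (Real.exp_pos _) hNe
  have hN1 : (1 : ℝ) ≤ N := by
    have : 0 < N := by exact_mod_cast hNpos
    exact_mod_cast this
  have hL1 : Real.exp 1 ≤ Real.log N := by
    rw [Real.le_log_iff_exp_le hNpos]
    exact hNe
  have hLpos : 0 < Real.log N := lt_of_lt_of_le (Real.exp_pos _) hL1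
  have hLL : 1 ≤ Real.log (Real.log N) := by
    rw [Real.le_log_iff_exp_le hLpos]
    exact hL1
  have hyy : 0 ≤ yy N := by
    unfold yy
    positivity
  have hpow : ∀ c : ℝ, min c1 c2 ≤ c → ∀ r : ℕ, (r : ℝ) ≤ (N : ℝ) ^ (min c1 c2) →
      (r : ℝ) ≤ (N : ℝ) ^ c := fun c hc r hr =>
    hr.trans (Real.rpow_le_rpow_of_exponent_le hN1 hc)
  refine ⟨fun r hr1 hr => ?_, fun r hr hrN => ?_, fun r hr1 hrN => ?_,
    fun r hr1 hr w hw => ?_⟩
  · refine (hM1 N e1 hGood r hr1 ?_).1 hr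
    have : (1 - ε) * yy N ≤ 2 * yy N := mul_le_mul_of_nonneg_right (by linarith) hyy
    linarith
  · exact hM3 N e3 r hr (hpow c1 (min_le_left _ _) r hrN)
  · by_cases hr2 : (r : ℝ) ≤ 2 * yy N
    · -- `r ≤ 2 y`
      obtain ⟨_, b1, b2, _⟩ := hM2 N e2 hGood r hr1 hr2
      have hprn : ∀ h : Fin r → ℕ, Adm h → 0 ≤ pr N h := by
        intro h hh
        unfold pr
        have := SI_nonneg h hh.1
        positivity
      have hsub : (Tup r (Icc 1 N)).filter (fun h => Adm h ∧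
          ¬ ((max K K1 ≤ pr N h → |(cnt N h : ℝ) - pr N h| ≤ ε * pr N h) ∧
          (pr N h ≤ 1 / max K K1 → cnt N h = 0))) ⊆
          (Tup r (Icc 1 N)).filter (fun h => Adm h ∧ K1 ≤ pr N h ∧
            ε / 2 * pr N h < |(cnt N h : ℝ) - pr N h|) ∪
          (Tup r (Icc 1 N)).filter (fun h => Adm h ∧ pr N h ≤ 1 / K1 ∧ 1 ≤ cnt N h) := by
        intro h hh
        rw [mem_filter] at hh
        obtain ⟨hT, hA, hnot⟩ := hh
        rw [mem_union, mem_filter, mem_filter]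
        by_contra hcon
        rw [not_or] at hcon
        obtain ⟨g1, g2⟩ := hcon
        refine hnot ⟨fun hk => ?_, fun hk => ?_⟩
        · by_contra hbig
          rw [not_le] at hbig
          refine g1 ⟨hT, hA, (le_max_right _ _).trans hk, lt_of_le_of_lt ?_ hbig⟩
          exact mul_le_mul_of_nonneg_right (by linarith) (hprn h hA)
        · by_contra hbig
          refine g2 ⟨hT, hA, hk.trans ?_, Nat.one_le_iff_ne_zero.2 hbig⟩
          exact one_div_le_one_div_of_le (by linarith) (le_max_right _ _)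
      have h3 : (((Tup r (Icc 1 N)).filter (fun h => Adm h ∧
          ¬ ((max K K1 ≤ pr N h → |(cnt N h : ℝ) - pr N h| ≤ ε * pr N h) ∧
          (pr N h ≤ 1 / max K K1 → cnt N h = 0)))).card : ℝ) ≤
          (((Tup r (Icc 1 N)).filter (fun h => Adm h ∧ K1 ≤ pr N h ∧
            ε / 2 * pr N h < |(cnt N h : ℝ) - pr N h|)).card : ℝ) +
          (((Tup r (Icc 1 N)).filter (fun h => Adm h ∧ pr N h ≤ 1 / K1 ∧
            1 ≤ cnt N h)).card : ℝ) := by
        exact_mod_cast (card_le_card hsub).trans (card_union_le _ _)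
      linarith
    · -- `r > 2 y`
      rw [not_le] at hr2
      have hr3 : (1 + 1 : ℝ) * yy N ≤ r := by linarith
      have hr4 : (1 + min ε 1) * yy N ≤ r :=
        (mul_le_mul_of_nonneg_right (by linarith [min_le_right ε 1]) hyy).trans hr3
      have h5 := hM5 N e5 r hr4 (hpow c1 (min_le_left _ _) r hrN)
      have hA0 : (0 : ℝ) ≤ ((Tup r (Icc 1 N)).filter (fun h => Adm h)).card := Nat.cast_nonneg _
      have h6 := mul_le_mul_of_nonneg_right (min_le_left ε 1) hA0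
      refine le_trans ?_ (h5.trans h6)
      have hsub : (Tup r (Icc 1 N)).filter (fun h => Adm h ∧
          ¬ ((max K K1 ≤ pr N h → |(cnt N h : ℝ) - pr N h| ≤ ε * pr N h) ∧
          (pr N h ≤ 1 / max K K1 → cnt N h = 0))) ⊆
          (Tup r (Icc 1 N)).filter (fun h => Adm h ∧
            ∃ n ∈ Icc 1 (2 * N), ∀ i, (n + h i).Prime) := by
        intro h hh
        rw [mem_filter] at hh ⊢
        obtain ⟨hT, hA, hnot⟩ := hh
        refine ⟨hT, hA, ?_⟩
        have h7 := hM6 N r e6 hr3 (hpow c2 (min_le_right _ _) r hrN) h hT hA.1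
        have h8 : 1 / (2 * max K K1) < max K K1 := by
          rw [div_lt_iff₀ (by positivity)]
          nlinarith
        by_contra hno
        refine hnot ⟨fun hk => absurd (hk.trans h7) (not_le.2 h8), fun _ => ?_⟩
        unfold cnt
        rw [card_eq_zero, filter_eq_empty_iff]
        intro n hn hp
        rw [mem_Ioc] at hn
        exact hno ⟨n, mem_Icc.2 ⟨by omega, hn.2⟩, hp⟩
      exact_mod_cast card_le_card hsub
  · exact (hM1 N e1 hGood r hr1 hr).2.2.2 w hw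

end Pool.Agent.Lib.LEN
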