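import Pool.Agent.Lib.LEN.JFar
import Pool.Agent.Lib.LEN.FinL

/-!
# LEN.FinJ: prime tuples of every length and the primes around them
-/

set_option autoImplicit false

open Finset Filter

namespace Pool.Agent.Lib.LEN

open Pool.Agent.HLB Pool.Agent.HLT Pool.Agent.HLR Pool.Agent.Lib.GMV

namespace FinJAux

lemma pr_zero (N : ℕ) (h : Fin 0 → ℕ) : pr N h = N := by
  have h1 : SI h = 1 := by
    unfold SI
    have h2 : ∀ p : Nat.Primes, locI h p = 1 := by
      intro p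
      unfold locI nuI
      simp
    simp only [h2]
    exact tprod_one
  unfold pr
  rw [h1]
  simp

lemma cnt_zero (N : ℕ) (h : Fin 0 → ℕ) : (cnt N h : ℝ) = N := by
  unfold cnt
  rw [filter_true_of_mem (fun n _ i => i.elim0), Nat.card_Ioc]
  have : 2 * N - N = N := by omega
  rw [this]

end FinJAux

open scoped Classical in
/-- The joint law below the line `r + D / log N = yy N`, its converse, nothing for `r` beyond `yy N`, and the
prediction decides. -/
def ConcJ (c0 ε K cw : ℝ) (N : ℕ) : Prop :=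
    (∀ r D : ℕ, (r : ℝ) + D / Real.log N ≤ (1 - ε) * yy N →
      (((Tup r (Icc 1 N)).filter (fun h => Adm h ∧ ε * (N : ℝ) ^ D <
        (((Tup D (Icc 1 N)).filter (fun s =>
          ε * pr N h < DJ N ⌊cw * yy N⌋₊ h s)).card : ℝ))).card : ℝ) ≤
      ε * ((Tup r (Icc 1 N)).filter (fun h => Adm h)).card) ∧
    (∀ r D : ℕ, (r : ℝ) ≤ (1 - ε) * yy N → (1 + ε) * yy N ≤ (r : ℝ) + D / Real.log N →
      (((Tup r (Icc 1 N)).filter (fun h => Adm h ∧ ε * (N : ℝ) ^ D <
        (((Tup D (Icc 1 N)).filter (fun s =>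
          DJ N ⌊cw * yy N⌋₊ h s < (2 - ε) * pr N h)).card : ℝ))).card : ℝ) ≤
      ε * ((Tup r (Icc 1 N)).filter (fun h => Adm h)).card) ∧
    (∀ r : ℕ, (1 + ε) * yy N ≤ r → (r : ℝ) ≤ (N : ℝ) ^ c0 →
      (((Tup r (Icc 1 N)).filter (fun h => Adm h ∧
        ∃ n ∈ Icc 1 (2 * N), ∀ i, (n + h i).Prime)).card : ℝ) ≤
      ε * ((Tup r (Icc 1 N)).filter (fun h => Adm h)).card) ∧
    (∀ r : ℕ, (r : ℝ) ≤ (N : ℝ) ^ c0 →
      (((Tup r (Icc 1 N)).filter (fun h => Adm h ∧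
        ¬ ((K ≤ pr N h → |(cnt N h : ℝ) - pr N h| ≤ ε * pr N h) ∧
          (pr N h ≤ 1 / K → cnt N h = 0)))).card : ℝ) ≤
      ε * ((Tup r (Icc 1 N)).filter (fun h => Adm h)).card)

theorem every_pattern : ∃ c0 : ℝ, 0 < c0 ∧ ∃ cw : ℝ, 0 < cw ∧ ∀ ε : ℝ, 0 < ε → ∃ K C : ℝ, 1 ≤ K ∧
    0 < C ∧ (∃ N0 : ℕ, ∀ N : ℕ, N0 ≤ N → RZ C N ∨ ConcJ c0 ε K cw N) ∧
    ∀ N0 : ℕ, ∃ N : ℕ, N0 ≤ N ∧ ConcJ c0 ε K cw N := by
  classical
  obtain ⟨c1, hc1, hup⟩ := upper'
  obtain ⟨c2, hc2, hsm⟩ := pr_small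
  obtain ⟨C1, cA, hC1, hcA, hG, hL⟩ := levelsK
  obtain ⟨cw, d, B', hcw, hd, hB', hI⟩ := (LevS_LevI C1 cA).1 hL 2
  obtain ⟨C3, hJ⟩ := j_half C1 cA hC1 hcA cw d B' hcw hd hB' hI
  obtain ⟨C4, hF⟩ := j_far C1 cA hC1 hcA cw d B' hcw hd hB' hI
  refine ⟨min c1 c2, lt_min hc1 hc2, cw, hcw, fun ε hε => ?_⟩
  have hε2 : 0 < ε / 2 := by positivity
  obtain ⟨K1, cw1, d1, C01, hK1, hcw1, hd1, hmain1⟩ := full_half C1 cA hC1 hcA hL (ε / 2) hε2
  set C2 : ℝ := max C1 (max C01 (max C3 C4)) with hC2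
  have hC2a : C1 ≤ C2 := le_max_left _ _
  have hC2b : C01 ≤ C2 := (le_max_left _ _).trans (le_max_right _ _)
  have hC2c : C3 ≤ C2 := (le_max_left _ _).trans ((le_max_right _ _).trans (le_max_right _ _))
  have hC2d : C4 ≤ C2 := (le_max_right _ _).trans ((le_max_right _ _).trans (le_max_right _ _))
  obtain ⟨cB, hcB, hGN⟩ := hG C2 hC2a
  obtain ⟨M1, hM1⟩ := hJ C2 cB hC2c hcB ε hε
  obtain ⟨M2, hM2⟩ := hmain1 C2 cB hC2b hcB
  obtain ⟨M3, hM3⟩ := hup ε hε
  obtain ⟨M4, hM4⟩ := hF C2 cB hC2d hcB ε hε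
  obtain ⟨M5, hM5⟩ := hup (min ε 1) (lt_min hε one_pos)
  obtain ⟨M6, hM6⟩ := hsm 1 (2 * K1) one_pos (by positivity)
  obtain ⟨CR, hCR, M7, hM7⟩ := goodX_of cA C1 cB C2 hcA hC1 hcB (lt_of_lt_of_le hC1 hC2a)
  have hmain2 : ∀ N : ℕ, max (max (max 0 M1) (max M2 M3)) (max (max M4 M5)
      (max M6 ⌈Real.exp (Real.exp 1)⌉₊)) ≤ N → GoodX cA C1 cB C2 N →
      ConcJ (min c1 c2) ε K1 cw N := ?_
  · refine ⟨K1, CR, hK1, hCR, ⟨max M7 (max (max (max 0 M1) (max M2 M3))
      (max (max M4 M5) (max M6 ⌈Real.exp (Real.exp 1)⌉₊))), fun N hN => ?_⟩, fun N0 => ?_⟩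
    · by_cases hR : RZ CR N
      · exact Or.inl hR
      · exact Or.inr (hmain2 N ((le_max_right _ _).trans hN)
          (hM7 N ((le_max_left _ _).trans hN) hR))
    · obtain ⟨N, hN, hGood⟩ := hGN (max N0 (max (max (max 0 M1) (max M2 M3)) (max (max M4 M5)
        (max M6 ⌈Real.exp (Real.exp 1)⌉₊))))
      exact ⟨N, (le_max_left _ _).trans hN, hmain2 N ((le_max_right _ _).trans hN) hGood⟩
  intro N hN hGood
  have e1 : M1 ≤ N := (((le_max_right _ _).trans (le_max_left _ _)).trans (le_max_left _ _)).trans hN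
  have e2 : M2 ≤ N := (((le_max_left _ _).trans (le_max_right _ _)).trans (le_max_left _ _)).trans hN
  have e3 : M3 ≤ N := (((le_max_right _ _).trans (le_max_right _ _)).trans (le_max_left _ _)).trans hN
  have e4 : M4 ≤ N := (((le_max_left _ _).trans (le_max_left _ _)).trans (le_max_right _ _)).trans hN
  have e5 : M5 ≤ N := (((le_max_right _ _).trans (le_max_left _ _)).trans (le_max_right _ _)).trans hN
  have e6 : M6 ≤ N := (((le_max_left _ _).trans (le_max_right _ _)).trans (le_max_right _ _)).trans hN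
  have e7 : ⌈Real.exp (Real.exp 1)⌉₊ ≤ N :=
    (((le_max_right _ _).trans (le_max_right _ _)).trans (le_max_right _ _)).trans hN
  have hNe : Real.exp (Real.exp 1) ≤ N := Nat.ceil_le.1 e7
  have hNpos : (0 : ℝ) < N := lt_of_lt_of_le (Real.exp_pos _) hNe
  have hN1 : (1 : ℝ) ≤ N := by
    have : 0 < N := by exact_mod_cast hNpos
    exact_mod_cast this
  have hL1 : Real.exp 1 ≤ Real.log N := by
    rw [Real.le_log_iff_exp_le hNpos]
    exact hNe
  have hLpos : 0 < Real.log N := lt_of_lt_of_le (Real.exp_pos _) hL1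
  have hLL : 1 ≤ Real.log (Real.log N) := by
    rw [Real.le_log_iff_exp_le hLpos]
    exact hL1
  have hyy : 0 ≤ yy N := by
    unfold yy
    positivity
  have hpow : ∀ c : ℝ, min c1 c2 ≤ c → ∀ r : ℕ, (r : ℝ) ≤ (N : ℝ) ^ (min c1 c2) →
      (r : ℝ) ≤ (N : ℝ) ^ c := fun c hc r hr =>
    hr.trans (Real.rpow_le_rpow_of_exponent_le hN1 hc)
  refine ⟨hM1 N e1 hGood, hM4 N e4 hGood, fun r hr hrN => ?_, fun r hrN => ?_⟩
  · exact hM3 N e3 r hr (hpow c1 (min_le_left _ _) r hrN)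
  rcases Nat.eq_zero_or_pos r with hr0 | hr1
  · subst hr0
    have h1 : (Tup 0 (Icc 1 N)).filter (fun h => Adm h ∧
        ¬ ((K1 ≤ pr N h → |(cnt N h : ℝ) - pr N h| ≤ ε * pr N h) ∧
          (pr N h ≤ 1 / K1 → cnt N h = 0))) = ∅ := by
      rw [filter_eq_empty_iff]
      rintro h _ ⟨_, hnot⟩
      have h2 : pr N h = N := FinJAux.pr_zero N h
      have h3 : (cnt N h : ℝ) = N := FinJAux.cnt_zero N h
      rw [h2, h3] at hnot
      refine hnot ⟨fun _ => ?_, fun hk => ?_⟩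
      · rw [sub_self, abs_zero]
        positivity
      · exfalso
        have h4 : (1 : ℝ) / K1 ≤ 1 := by
          rw [div_le_one (by linarith)]
          exact hK1
        have h5 : (1 : ℝ) < N := lt_of_lt_of_le (by
          have := Real.add_one_le_exp (Real.exp 1)
          have h6 := Real.exp_pos 1
          linarith) hNe
        linarith
    rw [h1, card_empty, Nat.cast_zero]
    positivity
  · by_cases hr2 : (r : ℝ) ≤ 2 * yy N
    · -- `r ≤ 2 y`
      obtain ⟨_, b1, b2, _⟩ := hM2 N e2 hGood r hr1 hr2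
      have hprn : ∀ h : Fin r → ℕ, Adm h → 0 ≤ pr N h := by
        intro h hh
        unfold pr
        have := SI_nonneg h hh.1
        positivity
      have hsub : (Tup r (Icc 1 N)).filter (fun h => Adm h ∧
          ¬ ((K1 ≤ pr N h → |(cnt N h : ℝ) - pr N h| ≤ ε * pr N h) ∧
          (pr N h ≤ 1 / K1 → cnt N h = 0))) ⊆
          (Tup r (Icc 1 N)).filter (fun h => Adm h ∧ K1 ≤ pr N h ∧
            ε / 2 * pr N h < |(cnt N h : ℝ) - pr N h|) ∪
          (Tup r (Icc 1 N)).filter (fun h => Adm h ∧ pr N h ≤ 1 / K1 ∧ 1 ≤ cnt N h) := by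
        intro h hh
        rw [mem_filter] at hh
        obtain ⟨hT, hA, hnot⟩ := hh
        rw [mem_union, mem_filter, mem_filter]
        by_contra hcon
        rw [not_or] at hcon
        obtain ⟨g1, g2⟩ := hcon
        refine hnot ⟨fun hk => ?_, fun hk => ?_⟩
        · by_contra hbig
          rw [not_le] at hbig
          refine g1 ⟨hT, hA, hk, lt_of_le_of_lt ?_ hbig⟩
          exact mul_le_mul_of_nonneg_right (by linarith) (hprn h hA)
        · by_contra hbig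
          exact g2 ⟨hT, hA, hk, Nat.one_le_iff_ne_zero.2 hbig⟩
      have h3 : (((Tup r (Icc 1 N)).filter (fun h => Adm h ∧
          ¬ ((K1 ≤ pr N h → |(cnt N h : ℝ) - pr N h| ≤ ε * pr N h) ∧
          (pr N h ≤ 1 / K1 → cnt N h = 0)))).card : ℝ) ≤
          (((Tup r (Icc 1 N)).filter (fun h => Adm h ∧ K1 ≤ pr N h ∧
            ε / 2 * pr N h < |(cnt N h : ℝ) - pr N h|)).card : ℝ) +
          (((Tup r (Icc 1 N)).filter (fun h => Adm h ∧ pr N h ≤ 1 / K1 ∧
            1 ≤ cnt N h)).card : ℝ) := by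
        exact_mod_cast (card_le_card hsub).trans (card_union_le _ _)
      linarith
    · -- `r > 2 y`
      rw [not_le] at hr2
      have hr3 : (1 + 1 : ℝ) * yy N ≤ r := by linarith
      have hr4 : (1 + min ε 1) * yy N ≤ r :=
        (mul_le_mul_of_nonneg_right (by linarith [min_le_right ε 1]) hyy).trans hr3
      have h5 := hM5 N e5 r hr4 (hpow c1 (min_le_left _ _) r hrN)
      have hA0 : (0 : ℝ) ≤ ((Tup r (Icc 1 N)).filter (fun h => Adm h)).card := Nat.cast_nonneg _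
      have h6 := mul_le_mul_of_nonneg_right (min_le_left ε 1) hA0
      refine le_trans ?_ (h5.trans h6)
      have hsub : (Tup r (Icc 1 N)).filter (fun h => Adm h ∧
          ¬ ((K1 ≤ pr N h → |(cnt N h : ℝ) - pr N h| ≤ ε * pr N h) ∧
          (pr N h ≤ 1 / K1 → cnt N h = 0))) ⊆
          (Tup r (Icc 1 N)).filter (fun h => Adm h ∧
            ∃ n ∈ Icc 1 (2 * N), ∀ i, (n + h i).Prime) := by
        intro h hh
        rw [mem_filter] at hh ⊢
        obtain ⟨hT, hA, hnot⟩ := hh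
        refine ⟨hT, hA, ?_⟩
        have h7 := hM6 N r e6 hr3 (hpow c2 (min_le_right _ _) r hrN) h hT hA.1
        have h8 : 1 / (2 * K1) < K1 := by
          rw [div_lt_iff₀ (by positivity)]
          nlinarith
        by_contra hno
        refine hnot ⟨fun hk => absurd (hk.trans h7) (not_le.2 h8), fun _ => ?_⟩
        unfold cnt
        rw [card_eq_zero, filter_eq_empty_iff]
        intro n hn hp
        rw [mem_Ioc] at hn
        exact hno ⟨n, mem_Icc.2 ⟨by omega, hn.2⟩, hp⟩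
      exact_mod_cast card_le_card hsub

end Pool.Agent.Lib.LEN
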