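import Pool.Agent.Lib.LEN.FinA
import Pool.Agent.Lib.LEN.FinB
import Pool.Agent.Lib.LEN.CMom
import Pool.Agent.Lib.LEN.Cls
import Pool.Agent.Lib.LEN.Sing

/-!
# LEN.FinK: Hardy-Littlewood and the Poisson law for almost all admissible tuples
-/

set_option autoImplicit false

open Finset Filter

namespace Pool.Agent.Lib.LEN

open Pool.Agent.HLB Pool.Agent.HLT Pool.Agent.HLR Pool.Agent.Lib.GMV

namespace FinKAux

lemma mem_AC {w r : ℕ} {a : Fin r → ℕ} (ha : a ∈ AC w r) :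
    a ∈ Fintype.piFinset (fun _ : Fin r => range (PP w)) ∧ ∀ p ∈ Nat.primesLE w, nuI a p < p := by
  unfold AC at ha
  rw [mem_filter] at ha
  exact ha

lemma DZ_le_one (w : ℕ) : DZ w ≤ 1 := by
  unfold DZ
  refine prod_le_one (fun p hp => ?_) (fun p hp => ?_)
  · have h3 : (1 : ℝ) ≤ p := by exact_mod_cast (Nat.prime_of_mem_primesLE hp).one_lt.le
    have h4 : 1 / (p : ℝ) ≤ 1 := by rw [div_le_one (by linarith)]; exact h3
    linarith
  · have : 0 ≤ 1 / (p : ℝ) := by positivity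
    linarith

lemma one_le_inv_DZ (w : ℕ) : 1 ≤ (DZ w)⁻¹ := (one_le_inv₀ (DZ_pos w)).2 (DZ_le_one w)

lemma lam_nonneg (N w : ℕ) (hN : 1 ≤ N) {r : ℕ} (a : Fin r → ℕ) : 0 ≤ lam N w a := by
  unfold lam MM
  have h1 : 0 ≤ Real.log N := Real.log_nonneg (by exact_mod_cast hN)
  have h2 : 0 ≤ (DZ w)⁻¹ := by linarith [one_le_inv_DZ w]
  positivity

/-- The prediction in an admissible class is large below the threshold. -/
lemma lam_large (ε K : ℝ) (hε : 0 < ε) (hε1 : ε ≤ 1 / 4) (hK : 1 ≤ K) : ∃ N0 : ℕ, ∀ N w r : ℕ,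
    N0 ≤ N → (w : ℝ) ≤ ε / 4 * Real.log N → (r : ℝ) ≤ (1 - ε) * yy N → ∀ a : Fin r → ℕ,
    1 ≤ nA w a → K ≤ lam N w a := by
  refine ⟨⌈Real.exp (Real.exp 1 + 2 * Real.log K / ε)⌉₊, ?_⟩
  intro N w r hN hw hr a ha
  have hNe : Real.exp (Real.exp 1 + 2 * Real.log K / ε) ≤ N := Nat.ceil_le.1 hN
  have hN0 : (0 : ℝ) < N := lt_of_lt_of_le (Real.exp_pos _) hNe
  have hL : Real.exp 1 + 2 * Real.log K / ε ≤ Real.log N := by
    rw [Real.le_log_iff_exp_le hN0]
    exact hNe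
  have hlK : 0 ≤ Real.log K := Real.log_nonneg hK
  have hL1 : Real.exp 1 ≤ Real.log N := by
    have : 0 ≤ 2 * Real.log K / ε := by positivity
    linarith
  have hL2 : 2 * Real.log K ≤ ε * Real.log N := by
    have h1 : 2 * Real.log K / ε ≤ Real.log N := by linarith [Real.exp_pos 1]
    rw [div_le_iff₀ hε] at h1
    linarith
  have hLpos : 0 < Real.log N := lt_of_lt_of_le (Real.exp_pos _) hL1
  have hLL : 1 ≤ Real.log (Real.log N) := by
    rw [Real.le_log_iff_exp_le hLpos]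
    exact hL1
  -- `(log N)^r ≤ N^(1-ε)`
  have h1 : Real.log N ^ r ≤ Real.exp ((1 - ε) * Real.log N) := by
    rw [← Real.exp_log hLpos, ← Real.exp_nat_mul]
    refine Real.exp_le_exp.2 ?_
    rw [Real.exp_log hLpos]
    have h2 : (r : ℝ) * Real.log (Real.log N) ≤ (1 - ε) * yy N * Real.log (Real.log N) :=
      mul_le_mul_of_nonneg_right hr (by linarith)
    refine h2.trans (le_of_eq ?_)
    unfold yy
    have : Real.log (Real.log N) ≠ 0 := by linarith
    field_simp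
  have h2 : (PP w : ℝ) ≤ Real.exp (ε / 2 * Real.log N) := by
    have h3 : (PP w : ℝ) ≤ (4 : ℝ) ^ w := by exact_mod_cast Cls0.PP_le w
    refine h3.trans ?_
    have h4 : (4 : ℝ) ^ w = Real.exp (w * Real.log 4) := by
      rw [mul_comm, Real.exp_mul, Real.exp_log (by norm_num), Real.rpow_natCast]
    rw [h4]
    refine Real.exp_le_exp.2 ?_
    have h5 : Real.log 4 ≤ 2 := by
      have h6 : Real.log 4 = 2 * Real.log 2 := by
        rw [show (4 : ℝ) = 2 ^ 2 by norm_num, Real.log_pow]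
        norm_num
      have h7 := Real.log_two_lt_d9
      linarith
    have h6 : (0 : ℝ) ≤ w := Nat.cast_nonneg _
    have h7 : (w : ℝ) * Real.log 4 ≤ w * 2 := mul_le_mul_of_nonneg_left h5 h6
    linarith
  have hP0 : (0 : ℝ) < PP w := by exact_mod_cast Cls0.PP_pos w
  have hLr : 0 < Real.log N ^ r := by positivity
  -- the lower bound
  have h3 : (N : ℝ) / PP w / Real.log N ^ r ≤ lam N w a := by
    unfold lam MM
    refine div_le_div_of_nonneg_right ?_ hLr.le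
    have h4 : (1 : ℝ) ≤ nA w a := by exact_mod_cast ha
    have h5 : (1 : ℝ) ≤ (DZ w)⁻¹ ^ r := one_le_pow₀ (one_le_inv_DZ w)
    calc (N : ℝ) / PP w = N * 1 / PP w * 1 := by ring
      _ ≤ (N : ℝ) * nA w a / PP w * (DZ w)⁻¹ ^ r := by gcongr
  refine le_trans ?_ h3
  rw [div_div, le_div_iff₀ (by positivity)]
  have h6 : (PP w : ℝ) * Real.log N ^ r ≤
      Real.exp (ε / 2 * Real.log N) * Real.exp ((1 - ε) * Real.log N) :=
    mul_le_mul h2 h1 hLr.le (Real.exp_pos _).le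
  rw [← Real.exp_add] at h6
  have h7 : K * (PP w * Real.log N ^ r) ≤ Real.exp (Real.log K) *
      Real.exp (ε / 2 * Real.log N + (1 - ε) * Real.log N) := by
    rw [Real.exp_log (by linarith)]
    exact mul_le_mul_of_nonneg_left h6 (by linarith)
  rw [← Real.exp_add] at h7
  refine h7.trans ?_
  calc Real.exp (Real.log K + (ε / 2 * Real.log N + (1 - ε) * Real.log N))
      ≤ Real.exp (Real.log N) := Real.exp_le_exp.2 (by linarith)
    _ = N := Real.exp_log hN0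

lemma size (cw : ℝ) (hcw : 0 < cw) : ∃ w0 : ℕ, ∀ w N r : ℕ, w0 ≤ w → 4 ^ (100 * w) ≤ N →
    (r : ℝ) ≤ 4 / cw * w → 8 * r * PP w ≤ N := by
  refine ⟨max 1 ⌈32 / cw⌉₊, ?_⟩
  intro w N r hw hN hr
  have hw1 : 1 ≤ w := (le_max_left _ _).trans hw
  have hw2 : 32 / cw ≤ w := Nat.ceil_le.1 ((le_max_right _ _).trans hw)
  have h1 : 8 * (r : ℝ) ≤ (w : ℝ) ^ 2 := by
    have h2 : (0 : ℝ) ≤ w := Nat.cast_nonneg _
    calc 8 * (r : ℝ) ≤ 8 * (4 / cw * w) := by linarith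
      _ = 32 / cw * w := by ring
      _ ≤ w * w := mul_le_mul_of_nonneg_right hw2 h2
      _ = (w : ℝ) ^ 2 := by ring
  have h2 : 8 * r ≤ w ^ 2 := by exact_mod_cast h1
  have h3 : w ^ 2 ≤ 4 ^ w := by
    have h4 : w < 2 ^ w := Nat.lt_two_pow_self
    calc w ^ 2 ≤ (2 ^ w) ^ 2 := Nat.pow_le_pow_left h4.le 2
      _ = 4 ^ w := by rw [← pow_mul, mul_comm, pow_mul]; norm_num
  calc 8 * r * PP w ≤ 4 ^ w * 4 ^ w := Nat.mul_le_mul (h2.trans h3) (Cls0.PP_le w)
    _ = 4 ^ (w + w) := by rw [pow_add]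
    _ ≤ 4 ^ (100 * w) := Nat.pow_le_pow_right (by norm_num) (by omega)
    _ ≤ N := hN

lemma pow_small (d ε : ℝ) (hd : 0 < d) (hε : 0 < ε) : ∃ N0 : ℕ, ∀ N : ℕ, N0 ≤ N →
    (N : ℝ) ^ (-d) ≤ ε := by
  have h1 : Tendsto (fun N : ℕ => (N : ℝ) ^ (-d)) atTop (nhds 0) :=
    (tendsto_rpow_neg_atTop hd).comp tendsto_natCast_atTop_atTop
  have h2 := h1.eventually_le_const hε
  rw [eventually_atTop] at h2
  exact h2

lemma Hc_pos (N w r : ℕ) (hN : 8 * r * PP w ≤ N) (hr : 1 ≤ r) (a : Fin r → ℕ) :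
    0 < (Hc N w a).card := by
  unfold Hc
  rw [Fintype.card_piFinset]
  refine prod_pos fun i _ => ?_
  have h1 := Cls0.card_cls_ge N w (a i)
  have hP0 : (0 : ℝ) < PP w := by exact_mod_cast Cls0.PP_pos w
  have h2 : (8 : ℝ) * PP w ≤ N := by
    have h3 : 8 * PP w ≤ N := by
      refine le_trans ?_ hN
      calc 8 * PP w = 8 * 1 * PP w := by ring
        _ ≤ 8 * r * PP w := by gcongr
    exact_mod_cast h3
  have h4 : (8 : ℝ) ≤ N / PP w := by
    rw [le_div_iff₀ hP0]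
    exact h2
  have h5 : (0 : ℝ) < ((cls N w (a i)).card : ℝ) := by linarith
  exact_mod_cast h5

end FinKAux

open FinKAux

open scoped Classical in
/-- The full theorem at good `N`, for small `ε`. -/
theorem full_half_aux (C1 cA : ℝ) (h1 : 0 < C1) (hA : 0 < cA) (hL : LevS C1 cA) (ε : ℝ)
    (hε : 0 < ε) (hε1 : ε ≤ 1 / 4) (J : ℕ) (Λ : ℝ) (hΛ : 1 ≤ Λ) :
    ∃ K cw d C0 : ℝ, 1 ≤ K ∧ 0 < cw ∧ 0 < d ∧ ∀ C2 cB : ℝ, C0 ≤ C2 → 0 < cB →
    ∃ N0 : ℕ, ∀ N : ℕ, N0 ≤ N → GoodX cA C1 cB C2 N → ∀ r : ℕ, 1 ≤ r → (r : ℝ) ≤ 2 * yy N →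
    ((r : ℝ) ≤ (1 - ε) * yy N →
      (((Tup r (Icc 1 N)).filter (fun h => Adm h ∧
        ε * pr N h < |(cnt N h : ℝ) - pr N h|)).card : ℝ) ≤
      ε * ((Tup r (Icc 1 N)).filter (fun h => Adm h)).card) ∧
    (((Tup r (Icc 1 N)).filter (fun h => Adm h ∧ K ≤ pr N h ∧
      ε * pr N h < |(cnt N h : ℝ) - pr N h|)).card : ℝ) ≤
      ε * ((Tup r (Icc 1 N)).filter (fun h => Adm h)).card ∧
    (((Tup r (Icc 1 N)).filter (fun h => Adm h ∧ pr N h ≤ 1 / K ∧ 1 ≤ cnt N h)).card : ℝ) ≤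
      ε * ((Tup r (Icc 1 N)).filter (fun h => Adm h)).card ∧
    ∀ w : ℕ, w = ⌊cw * yy N⌋₊ → (((AC w r).filter (fun a => lam N w a ≤ Λ ∧ ∃ j : ℕ, j ≤ J ∧
      ε * (Hc N w a).card < |(((Hc N w a).filter (fun h => cnt N h = j)).card : ℝ) -
        Real.exp (-lam N w a) * lam N w a ^ j / j.factorial * (Hc N w a).card|)).card : ℝ) ≤
      (N : ℝ) ^ (-d) * (AC w r).card ∧ ∀ a ∈ AC w r, 0 < (Hc N w a).card ∧
        (((Hc N w a).filter (fun h =>
          ¬ (Adm h ∧ |pr N h - lam N w a| ≤ ε * lam N w a))).card : ℝ) ≤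
            ε * (Hc N w a).card := by
  have hε8 : 0 < ε / 8 := by positivity
  obtain ⟨k0, δ, K, hk0, hδ, hδε, hK, hone⟩ := one_class J Λ (ε / 8) hΛ hε8 (by linarith)
  obtain ⟨cw, C0, d, hcw, hd, hcl⟩ := classK C1 cA h1 hA hL k0
  obtain ⟨ws, hsing⟩ := sing (4 / cw) δ (by positivity) hδ
  obtain ⟨wz, hsize⟩ := size cw hcw
  obtain ⟨Nl, hlam⟩ := lam_large ε K hε hε1 hK
  obtain ⟨Nd, hNd⟩ := pow_small d (ε / 8) hd hε8
  refine ⟨2 * K, cw, d, C0, by linarith, hcw, hd, fun C2 cB hC2 hcB => ?_⟩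
  obtain ⟨N0, hN0⟩ := hcl C2 cB hC2 hcB (min δ (ε / 8)) (lt_min hδ hε8) (max ws wz)
  refine ⟨max N0 (max Nl (max Nd 1)), fun N hN hG r hr1 hr => ?_⟩
  have hN1 : N0 ≤ N := (le_max_left _ _).trans hN
  have hN2 : Nl ≤ N := ((le_max_left _ _).trans (le_max_right _ _)).trans hN
  have hN4 : Nd ≤ N := (((le_max_left _ _).trans (le_max_right _ _)).trans
    (le_max_right _ _)).trans hN
  have hN3 : 1 ≤ N := (((le_max_right _ _).trans (le_max_right _ _)).trans
    (le_max_right _ _)).trans hN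
  set w : ℕ := ⌊cw * yy N⌋₊ with hwdef
  obtain ⟨hw, h4N, hlog, hyy, hwl, hall⟩ := hN0 N hN1 hG w hwdef
  obtain ⟨Bc, hBc, hmom⟩ := hall r hr1 hr
  have hwr : (r : ℝ) ≤ 4 / cw * w := hr.trans hyy
  have hsz : 8 * r * PP w ≤ N := hsize w N r ((le_max_right _ _).trans hw) h4N hwr
  have hBc' : (Bc.card : ℝ) ≤ ε / 8 * (AC w r).card := by
    have hBc1 : (Bc.card : ℝ) ≤ (N : ℝ) ^ (-d) * ((AC w r).card : ℝ) := by
      unfold AC
      convert hBc
    exact hBc1.trans (mul_le_mul_of_nonneg_right (hNd N hN4) (Nat.cast_nonneg _))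
  have hlogN : 0 ≤ Real.log N := Real.log_nonneg (by exact_mod_cast hN3)
  have hLr : 0 ≤ Real.log N ^ r := by positivity
  -- comparison of the predictions
  have hpr : ∀ a ∈ AC w r, ∀ h : Fin r → ℕ, |SI h - SZ w a| ≤ δ * SZ w a →
      |pr N h - lam N w a| ≤ δ * lam N w a := by
    intro a _ h hh
    have e1 : lam N w a = SZ w a * N / Real.log N ^ r := by
      unfold lam
      rw [MM_eq]
      ring
    rw [e1]
    unfold pr
    have e2 : SI h * N / Real.log N ^ r - SZ w a * N / Real.log N ^ r =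
        (SI h - SZ w a) * (N / Real.log N ^ r) := by ring
    have h3 : 0 ≤ (N : ℝ) / Real.log N ^ r := by positivity
    rw [e2, abs_mul, abs_of_nonneg h3]
    calc |SI h - SZ w a| * (N / Real.log N ^ r) ≤ δ * SZ w a * (N / Real.log N ^ r) :=
          mul_le_mul_of_nonneg_right hh h3
      _ = δ * (SZ w a * N / Real.log N ^ r) := by ring
  have hbad : ∀ a ∈ AC w r, (((Hc N w a).filter (fun h =>
      ¬ (Adm h ∧ |pr N h - lam N w a| ≤ δ * lam N w a))).card : ℝ) ≤ δ * (Hc N w a).card := by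
    intro a ha
    have h3 := hsing w ((le_max_left _ _).trans hw) N r hr1 hwr h4N hlog a (mem_AC ha).2
    refine le_trans ?_ h3
    have hsub : (Hc N w a).filter (fun h => ¬ (Adm h ∧ |pr N h - lam N w a| ≤ δ * lam N w a)) ⊆
        (Hc N w a).filter (fun h => ¬ (Adm h ∧ |SI h - SZ w a| ≤ δ * SZ w a)) := by
      intro h hh
      rw [mem_filter] at hh ⊢
      exact ⟨hh.1, fun hc => hh.2 ⟨hc.1, hpr a ha h hc.2⟩⟩
    exact_mod_cast card_le_card hsub
  have hadm : ∀ a ∈ AC w r, (((Hc N w a).filter (fun h => ¬ Adm h)).card : ℝ) ≤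
      ε / 8 * (Hc N w a).card := by
    intro a ha
    have h3 := hbad a ha
    have hsub : (Hc N w a).filter (fun h => ¬ Adm h) ⊆ (Hc N w a).filter (fun h =>
      ¬ (Adm h ∧ |pr N h - lam N w a| ≤ δ * lam N w a)) := by
      intro h hh
      rw [mem_filter] at hh ⊢
      exact ⟨hh.1, fun hc => hh.2 hc.1⟩
    have h4 : (((Hc N w a).filter (fun h => ¬ Adm h)).card : ℝ) ≤ (((Hc N w a).filter (fun h =>
      ¬ (Adm h ∧ |pr N h - lam N w a| ≤ δ * lam N w a))).card : ℝ) := by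
      exact_mod_cast card_le_card hsub
    exact h4.trans (h3.trans (mul_le_mul_of_nonneg_right hδε (Nat.cast_nonneg _)))
  have hprn : ∀ h : Fin r → ℕ, Adm h → 0 ≤ pr N h := by
    intro h hh
    unfold pr
    have := SI_nonneg h hh.1
    positivity
  -- one class
  have hcls : ∀ a ∈ AC w r, a ∉ Bc → _ := fun a ha hB =>
    hone (Fin r → ℕ) (Hc N w a) (fun h => cnt N h) (fun h => pr N h) (fun h => Adm h)
      (lam N w a) (lam_nonneg N w hN3 a) (fun h _ hh => hprn h hh)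
      (fun k hk1 hk2 => by
        refine (hmom a (mem_AC ha).1 (mem_AC ha).2 hB k hk1 hk2).trans ?_
        have h3 : 0 ≤ lam N w a := lam_nonneg N w hN3 a
        exact mul_le_mul_of_nonneg_right (min_le_left _ _) (by positivity))
      (hbad a ha)
  have key : ∀ g : (Fin r → ℕ) → ℝ, (∀ h, |g h| ≤ 1) →
      (∀ a ∈ AC w r, a ∉ Bc → |∑ h ∈ (Hc N w a).filter Adm, g h| ≤ ε / 8 * (Hc N w a).card) →
      |∑ h ∈ (Tup r (Icc 1 N)).filter Adm, g h| ≤
        ε * (((Tup r (Icc 1 N)).filter Adm).card : ℝ) := by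
    intro g hg hga
    have h3 := class_gen (ε / 8) hε8 (by linarith) N w r hsz hr1 g hg Bc hBc' hadm hga
    refine h3.trans (le_of_eq ?_)
    ring
  -- from a property to the indicator
  have keyP : ∀ R : (Fin r → ℕ) → Prop,
      (∀ a ∈ AC w r, a ∉ Bc → (((Hc N w a).filter (fun h => Adm h ∧ R h)).card : ℝ) ≤
        ε / 8 * (Hc N w a).card) →
      (((Tup r (Icc 1 N)).filter (fun h => Adm h ∧ R h)).card : ℝ) ≤
        ε * (((Tup r (Icc 1 N)).filter Adm).card : ℝ) := by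
    intro R hR
    have e1 : ∀ S : Finset (Fin r → ℕ), ∑ h ∈ S.filter Adm, (if R h then (1 : ℝ) else 0) =
        (S.filter (fun h => Adm h ∧ R h)).card := by
      intro S
      rw [← sum_filter, filter_filter, sum_const, nsmul_eq_mul, mul_one]
    have h3 := key (fun h => if R h then 1 else 0) (fun h => by split_ifs <;> simp) (by
      intro a ha hB
      rw [e1, abs_of_nonneg (Nat.cast_nonneg _)]
      exact hR a ha hB)
    rw [e1, abs_of_nonneg (Nat.cast_nonneg _)] at h3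
    exact h3
  refine ⟨fun hrε => ?_, ?_, ?_, ?_⟩
  · have hfin := keyP (fun h => ε * pr N h < |(cnt N h : ℝ) - pr N h|) (fun a ha hB => ?_)
    · convert hfin
    have h3 := (hcls a ha hB).1 (hlam N w r hN2 (by
      refine hwl.trans (mul_le_mul_of_nonneg_right ?_ hlogN)
      exact (min_le_right _ _).trans (by linarith)) hrε a
        ((nA_pos w a).2 (mem_AC ha).2))
    refine le_trans ?_ h3
    have hsub : (Hc N w a).filter (fun h => Adm h ∧ ε * pr N h < |(cnt N h : ℝ) - pr N h|) ⊆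
        (Hc N w a).filter (fun h => Adm h ∧ ε / 8 * pr N h < |(cnt N h : ℝ) - pr N h|) := by
      intro h hh
      rw [mem_filter] at hh ⊢
      refine ⟨hh.1, hh.2.1, lt_of_le_of_lt ?_ hh.2.2⟩
      exact mul_le_mul_of_nonneg_right (by linarith) (hprn h hh.2.1)
    exact_mod_cast card_le_card hsub
  · have hfin := keyP (fun h => 2 * K ≤ pr N h ∧ ε * pr N h < |(cnt N h : ℝ) - pr N h|)
      (fun a ha hB => ?_)
    · convert hfin
    refine le_trans ?_ (hcls a ha hB).2.1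
    have hsub : (Hc N w a).filter (fun h => Adm h ∧ 2 * K ≤ pr N h ∧
          ε * pr N h < |(cnt N h : ℝ) - pr N h|) ⊆
        (Hc N w a).filter (fun h => Adm h ∧ 2 * K ≤ pr N h ∧
          ε / 8 * pr N h < |(cnt N h : ℝ) - pr N h|) := by
      intro h hh
      rw [mem_filter] at hh ⊢
      refine ⟨hh.1, hh.2.1, hh.2.2.1, lt_of_le_of_lt ?_ hh.2.2.2⟩
      exact mul_le_mul_of_nonneg_right (by linarith) (hprn h hh.2.1)
    exact_mod_cast card_le_card hsub
  · have hfin := keyP (fun h => pr N h ≤ 1 / (2 * K) ∧ 1 ≤ cnt N h)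
      (fun a ha hB => by
        have h3 := (hcls a ha hB).2.2.1
        convert h3)
    convert hfin
  · -- Poisson
    intro w' hw'
    rw [hw']
    have hBc1 : (Bc.card : ℝ) ≤ (N : ℝ) ^ (-d) * ((AC w r).card : ℝ) := by
      unfold AC
      convert hBc
    refine ⟨le_trans ?_ hBc1, fun a ha => ⟨?_, ?_⟩⟩
    rotate_left
    · exact Hc_pos N w r hsz hr1 a
    · have h3 := hbad a ha
      have h4 : (0 : ℝ) ≤ (Hc N w a).card := Nat.cast_nonneg _
      have h5 : δ * ((Hc N w a).card : ℝ) ≤ ε * (Hc N w a).card :=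
        mul_le_mul_of_nonneg_right (by linarith) h4
      refine le_trans ?_ (h3.trans h5)
      have hsub : (Hc N w a).filter (fun h => ¬ (Adm h ∧ |pr N h - lam N w a| ≤ ε * lam N w a)) ⊆
          (Hc N w a).filter (fun h => ¬ (Adm h ∧ |pr N h - lam N w a| ≤ δ * lam N w a)) := by
        intro h hh
        rw [mem_filter] at hh ⊢
        refine ⟨hh.1, fun hc => hh.2 ⟨hc.1, hc.2.trans ?_⟩⟩
        exact mul_le_mul_of_nonneg_right (by linarith) (lam_nonneg N w hN3 a)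
      exact_mod_cast card_le_card hsub
    have hsub : (AC w r).filter (fun a => lam N w a ≤ Λ ∧ ∃ j : ℕ, j ≤ J ∧
      ε * (Hc N w a).card < |(((Hc N w a).filter (fun h => cnt N h = j)).card : ℝ) -
        Real.exp (-lam N w a) * lam N w a ^ j / j.factorial * (Hc N w a).card|) ⊆ Bc := by
      intro a ha
      rw [mem_filter] at ha
      obtain ⟨haA, hal, j, hj, hbig⟩ := ha
      by_contra hB
      have h3 := (hcls a haA hB).2.2.2 hal j hj
      have h4 : (0 : ℝ) ≤ (Hc N w a).card := Nat.cast_nonneg _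
      have h5 : ε / 8 * ((Hc N w a).card : ℝ) ≤ ε * (Hc N w a).card :=
        mul_le_mul_of_nonneg_right (by linarith) h4
      exact absurd (h3.trans h5) (not_le.2 hbig)
    exact_mod_cast card_le_card hsub

open scoped Classical in
/-- The full theorem at good `N`. -/
theorem full_half (C1 cA : ℝ) (h1 : 0 < C1) (hA : 0 < cA) (hL : LevS C1 cA) (ε : ℝ) (hε : 0 < ε) :
    ∃ K cw d C0 : ℝ, 1 ≤ K ∧ 0 < cw ∧ 0 < d ∧ ∀ C2 cB : ℝ, C0 ≤ C2 → 0 < cB →
    ∃ N0 : ℕ, ∀ N : ℕ, N0 ≤ N → GoodX cA C1 cB C2 N → ∀ r : ℕ, 1 ≤ r → (r : ℝ) ≤ 2 * yy N →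
    ((r : ℝ) ≤ (1 - ε) * yy N →
      (((Tup r (Icc 1 N)).filter (fun h => Adm h ∧
        ε * pr N h < |(cnt N h : ℝ) - pr N h|)).card : ℝ) ≤
      ε * ((Tup r (Icc 1 N)).filter (fun h => Adm h)).card) ∧
    (((Tup r (Icc 1 N)).filter (fun h => Adm h ∧ K ≤ pr N h ∧
      ε * pr N h < |(cnt N h : ℝ) - pr N h|)).card : ℝ) ≤
      ε * ((Tup r (Icc 1 N)).filter (fun h => Adm h)).card ∧
    (((Tup r (Icc 1 N)).filter (fun h => Adm h ∧ pr N h ≤ 1 / K ∧ 1 ≤ cnt N h)).card : ℝ) ≤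
      ε * ((Tup r (Icc 1 N)).filter (fun h => Adm h)).card ∧
    ∀ w : ℕ, w = ⌊cw * yy N⌋₊ → (((AC w r).filter (fun a => lam N w a ≤ 1 / ε ∧
      ∃ j : ℕ, (j : ℝ) ≤ 1 / ε ∧
      ε * (Hc N w a).card < |(((Hc N w a).filter (fun h => cnt N h = j)).card : ℝ) -
        Real.exp (-lam N w a) * lam N w a ^ j / j.factorial * (Hc N w a).card|)).card : ℝ) ≤
      (N : ℝ) ^ (-d) * (AC w r).card ∧ ∀ a ∈ AC w r, 0 < (Hc N w a).card ∧
        (((Hc N w a).filter (fun h =>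
          ¬ (Adm h ∧ |pr N h - lam N w a| ≤ ε * lam N w a))).card : ℝ) ≤
            ε * (Hc N w a).card := by
  set ε' : ℝ := min ε (1 / 4) with hε'
  have hε0 : 0 < ε' := lt_min hε (by norm_num)
  have hεε : ε' ≤ ε := min_le_left _ _
  obtain ⟨K, cw, d, C0, hK, hcw, hd, hmain⟩ := full_half_aux C1 cA h1 hA hL ε' hε0
    (min_le_right _ _) ⌈1 / ε⌉₊ (max 1 (1 / ε)) (le_max_left _ _)
  refine ⟨K, cw, d, C0, hK, hcw, hd, fun C2 cB hC2 hcB => ?_⟩
  obtain ⟨N0, hN0⟩ := hmain C2 cB hC2 hcB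
  refine ⟨max N0 ⌈Real.exp (Real.exp 1)⌉₊, fun N hN hG r hr1 hr => ?_⟩
  obtain ⟨c1, c2, c3, c4⟩ := hN0 N ((le_max_left _ _).trans hN) hG r hr1 hr
  have hNe : Real.exp (Real.exp 1) ≤ N := Nat.ceil_le.1 ((le_max_right _ _).trans hN)
  have hN0' : (0 : ℝ) < N := lt_of_lt_of_le (Real.exp_pos _) hNe
  have hL1 : Real.exp 1 ≤ Real.log N := by
    rw [Real.le_log_iff_exp_le hN0']
    exact hNe
  have hLpos : 0 < Real.log N := lt_of_lt_of_le (Real.exp_pos _) hL1
  have hLL : 1 ≤ Real.log (Real.log N) := by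
    rw [Real.le_log_iff_exp_le hLpos]
    exact hL1
  have hyy : 0 ≤ yy N := by
    unfold yy
    positivity
  have hprn : ∀ h : Fin r → ℕ, Adm h → 0 ≤ pr N h := by
    intro h hh
    unfold pr
    have := SI_nonneg h hh.1
    positivity
  have hA0 : (0 : ℝ) ≤ ((Tup r (Icc 1 N)).filter (fun h => Adm h)).card := Nat.cast_nonneg _
  have hAε := mul_le_mul_of_nonneg_right hεε hA0
  refine ⟨fun hrε => ?_, ?_, c3.trans hAε, fun w hw => ?_⟩
  · refine le_trans ?_ ((c1 (hrε.trans (mul_le_mul_of_nonneg_right (by linarith) hyy))).trans hAε)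
    have hsub : (Tup r (Icc 1 N)).filter (fun h => Adm h ∧
          ε * pr N h < |(cnt N h : ℝ) - pr N h|) ⊆
        (Tup r (Icc 1 N)).filter (fun h => Adm h ∧
          ε' * pr N h < |(cnt N h : ℝ) - pr N h|) := by
      intro h hh
      rw [mem_filter] at hh ⊢
      refine ⟨hh.1, hh.2.1, lt_of_le_of_lt ?_ hh.2.2⟩
      exact mul_le_mul_of_nonneg_right hεε (hprn h hh.2.1)
    exact_mod_cast card_le_card hsub
  · refine le_trans ?_ (c2.trans hAε)
    have hsub : (Tup r (Icc 1 N)).filter (fun h => Adm h ∧ K ≤ pr N h ∧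
          ε * pr N h < |(cnt N h : ℝ) - pr N h|) ⊆
        (Tup r (Icc 1 N)).filter (fun h => Adm h ∧ K ≤ pr N h ∧
          ε' * pr N h < |(cnt N h : ℝ) - pr N h|) := by
      intro h hh
      rw [mem_filter] at hh ⊢
      refine ⟨hh.1, hh.2.1, hh.2.2.1, lt_of_le_of_lt ?_ hh.2.2.2⟩
      exact mul_le_mul_of_nonneg_right hεε (hprn h hh.2.1)
    exact_mod_cast card_le_card hsub
  · obtain ⟨c4a, c4b⟩ := c4 w hw
    refine ⟨le_trans ?_ c4a, fun a ha => ⟨(c4b a ha).1, ?_⟩⟩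
    rotate_left
    · have h4 : (0 : ℝ) ≤ (Hc N w a).card := Nat.cast_nonneg _
      have h5 : ε' * ((Hc N w a).card : ℝ) ≤ ε * (Hc N w a).card :=
        mul_le_mul_of_nonneg_right hεε h4
      refine le_trans ?_ ((c4b a ha).2.trans h5)
      have hN3 : 1 ≤ N := by
        have : 0 < N := by exact_mod_cast hN0'
        exact this
      have hsub : (Hc N w a).filter (fun h => ¬ (Adm h ∧ |pr N h - lam N w a| ≤ ε * lam N w a)) ⊆
          (Hc N w a).filter (fun h => ¬ (Adm h ∧ |pr N h - lam N w a| ≤ ε' * lam N w a)) := by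
        intro h hh
        rw [mem_filter] at hh ⊢
        refine ⟨hh.1, fun hc => hh.2 ⟨hc.1, hc.2.trans ?_⟩⟩
        exact mul_le_mul_of_nonneg_right hεε (lam_nonneg N w hN3 a)
      exact_mod_cast card_le_card hsub
    have hsub : (AC w r).filter (fun a => lam N w a ≤ 1 / ε ∧ ∃ j : ℕ, (j : ℝ) ≤ 1 / ε ∧
      ε * (Hc N w a).card < |(((Hc N w a).filter (fun h => cnt N h = j)).card : ℝ) -
        Real.exp (-lam N w a) * lam N w a ^ j / j.factorial * (Hc N w a).card|) ⊆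
      (AC w r).filter (fun a => lam N w a ≤ max 1 (1 / ε) ∧ ∃ j : ℕ, j ≤ ⌈1 / ε⌉₊ ∧
      ε' * (Hc N w a).card < |(((Hc N w a).filter (fun h => cnt N h = j)).card : ℝ) -
        Real.exp (-lam N w a) * lam N w a ^ j / j.factorial * (Hc N w a).card|) := by
      intro a ha
      rw [mem_filter] at ha ⊢
      obtain ⟨haA, hal, j, hj, hbig⟩ := ha
      refine ⟨haA, hal.trans (le_max_right _ _), j, ?_, lt_of_le_of_lt ?_ hbig⟩
      · have : (j : ℝ) ≤ (⌈1 / ε⌉₊ : ℕ) := hj.trans (Nat.le_ceil _)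
        exact_mod_cast this
      · exact mul_le_mul_of_nonneg_right hεε (Nat.cast_nonneg _)
    exact_mod_cast card_le_card hsub

end Pool.Agent.Lib.LEN
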