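import Pool.Agent.Lib.LEN.JMonB
import Pool.Agent.Lib.LEN.Cls

/-!
# LEN.JUni: one exceptional set of tuples for all numbers of shifts
-/

set_option autoImplicit false

open Finset Filter

namespace Pool.Agent.Lib.LEN

open Pool.Agent.HLB Pool.Agent.HLT Pool.Agent.HLR Pool.Agent.Lib.GMV

open scoped Classical in
/-- The assertions for one tuple `h`: Hardy-Littlewood below the threshold, the joint law for all `D`
below the line, its converse for all `D` beyond the line (both for all `w` with `W w`), nothing beyond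
the threshold, and the prediction decides. -/
def Nice (ε K : ℝ) (N : ℕ) (W : ℕ → Prop) {r : ℕ} (h : Fin r → ℕ) : Prop :=
  ((r : ℝ) ≤ (1 - ε) * yy N → |(cnt N h : ℝ) - pr N h| ≤ ε * pr N h) ∧
  (∀ w : ℕ, W w → ∀ D : ℕ, (r : ℝ) + D / Real.log N ≤ (1 - ε) * yy N →
    (((Tup D (Icc 1 N)).filter (fun s => ε * pr N h < DJ N w h s)).card : ℝ) ≤
      ε * (N : ℝ) ^ D) ∧
  ((r : ℝ) ≤ (1 - ε) * yy N → ∀ w : ℕ, W w → ∀ D : ℕ, (1 + ε) * yy N ≤ (r : ℝ) + D / Real.log N →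
    (((Tup D (Icc 1 N)).filter (fun s => DJ N w h s < (2 - ε) * pr N h)).card : ℝ) ≤
      ε * (N : ℝ) ^ D) ∧
  ((1 + ε) * yy N ≤ r → ¬ ∃ n ∈ Icc 1 (2 * N), ∀ i, (n + h i).Prime) ∧
  (K ≤ pr N h → |(cnt N h : ℝ) - pr N h| ≤ ε * pr N h) ∧
  (pr N h ≤ 1 / K → cnt N h = 0)

namespace JUniAux

open JMonBAux

open scoped Classical in
/-- The law for `D` shifts gives the law for `D' ≤ D` shifts. -/
lemma down {ε : ℝ} (hε : 0 < ε) {N w r : ℕ} (hN : 1 ≤ N) (h : Fin r → ℕ) (hp : 0 ≤ pr N h)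
    {D' D : ℕ} (hD : D' ≤ D)
    (H : (((Tup D (Icc 1 N)).filter (fun s => ε / 4 * pr N h < DJ N w h s)).card : ℝ) ≤
      ε / 4 * (N : ℝ) ^ D) :
    (((Tup D' (Icc 1 N)).filter (fun s => ε * pr N h < DJ N w h s)).card : ℝ) ≤
      ε * (N : ℝ) ^ D' := by
  obtain ⟨m, rfl⟩ := Nat.exists_eq_add_of_le hD
  have hN0 : (0 : ℝ) < N := by exact_mod_cast hN
  have h1 := share_up (D' := D') (m := m) (Icc 1 N) (fun s => ε * pr N h < DJ N w h s)
    (fun s => ε / 4 * pr N h < DJ N w h s) (fun s hs => by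
      refine lt_of_lt_of_le (lt_of_le_of_lt ?_ hs)
        (dj_mono (Fin.castAdd m) (Fin.castAdd_injective D' m) h s)
      exact mul_le_mul_of_nonneg_right (by linarith) hp)
  rw [Nat.card_Icc, Nat.add_sub_cancel] at h1
  have h2 : (((Tup D' (Icc 1 N)).filter (fun s => ε * pr N h < DJ N w h s)).card : ℝ) *
      (N : ℝ) ^ m ≤ ε / 4 * (N : ℝ) ^ (D' + m) := by
    refine le_trans ?_ H
    exact_mod_cast h1
  have h3 : (0 : ℝ) < (N : ℝ) ^ m := pow_pos hN0 m
  have h4 : (0 : ℝ) < (N : ℝ) ^ D' := pow_pos hN0 D'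
  refine le_of_mul_le_mul_right (h2.trans ?_) h3
  rw [pow_add]
  nlinarith [mul_pos (mul_pos hε h4) h3]

open scoped Classical in
/-- The converse for `D'` shifts gives the converse for `D ≥ D'` shifts. -/
lemma up {ε : ℝ} (hε : 0 < ε) {N w r : ℕ} (hN : 1 ≤ N) (h : Fin r → ℕ) (hp : 0 ≤ pr N h)
    {D' D : ℕ} (hD : D' ≤ D)
    (H : (((Tup D' (Icc 1 N)).filter (fun s => DJ N w h s < (2 - ε / 4) * pr N h)).card : ℝ) ≤
      ε / 4 * (N : ℝ) ^ D') :
    (((Tup D (Icc 1 N)).filter (fun s => DJ N w h s < (2 - ε) * pr N h)).card : ℝ) ≤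
      ε * (N : ℝ) ^ D := by
  obtain ⟨m, rfl⟩ := Nat.exists_eq_add_of_le hD
  have hN0 : (0 : ℝ) < N := by exact_mod_cast hN
  have h1 := share_down (D' := D') (m := m) (Icc 1 N)
    (fun s => DJ N w h s < (2 - ε / 4) * pr N h) (fun s => DJ N w h s < (2 - ε) * pr N h)
    (fun s hs => by
      refine lt_of_le_of_lt (dj_mono (Fin.castAdd m) (Fin.castAdd_injective D' m) h s)
        (lt_of_lt_of_le hs ?_)
      exact mul_le_mul_of_nonneg_right (by linarith) hp)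
  rw [Nat.card_Icc, Nat.add_sub_cancel] at h1
  have h3 : (0 : ℝ) < (N : ℝ) ^ m := pow_pos hN0 m
  have h4 : (0 : ℝ) < (N : ℝ) ^ D' := pow_pos hN0 D'
  have h2 : (((Tup (D' + m) (Icc 1 N)).filter
      (fun s => DJ N w h s < (2 - ε) * pr N h)).card : ℝ) ≤
      (((Tup D' (Icc 1 N)).filter (fun s => DJ N w h s < (2 - ε / 4) * pr N h)).card : ℝ) *
        (N : ℝ) ^ m := by exact_mod_cast h1
  refine h2.trans ((mul_le_mul_of_nonneg_right H h3.le).trans ?_)
  rw [pow_add]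
  nlinarith [mul_pos (mul_pos hε h4) h3]

/-- For `D = 0` the distance is the error of the Hardy-Littlewood prediction. -/
lemma DJ_zero (N w : ℕ) {r : ℕ} {h : Fin r → ℕ} (hA : Adm h) (s : Fin 0 → ℕ) :
    DJ N w h s = |(cnt N h : ℝ) - pr N h| := by
  classical
  have h1 : 1 ≤ nA w h := (nA_pos w h).2 fun p hp => hA.2 p (Nat.mem_primesLE.1 hp).2
  have h2 : (nA w h : ℝ) ≠ 0 := by
    have : (1 : ℝ) ≤ nA w h := by exact_mod_cast h1
    linarith
  have h3 : QH N w h s ∅ = 1 := by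
    unfold QH
    have h4 : ∀ b ∈ (range (PP w)).filter (Good w h), QB N w s b ∅ = 1 := by
      intro b _
      unfold QB
      exact Fintype.prod_empty _
    rw [sum_congr rfl h4, sum_const, nsmul_eq_mul, mul_one]
    unfold nA
    unfold nA at h2
    rw [div_self]
    exact h2
  have h5 : cntP N h s ∅ = cnt N h := by
    unfold cntP cnt
    congr 1
    refine filter_congr fun n _ => ?_
    exact ⟨fun g => g.1, fun g => ⟨g, by
      unfold pat
      exact filter_eq_empty_iff.2 fun i => i.elim0⟩⟩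
  unfold DJ
  rw [Fintype.sum_subsingleton _ ∅, h3, h5, mul_one]

lemma pr_zero (N : ℕ) (h : Fin 0 → ℕ) : pr N h = N := by
  have h1 : SI h = 1 := by
    unfold SI
    have h2 : ∀ p : Nat.Primes, locI h p = 1 := by
      intro p
      unfold locI nuI
      simp
    simp only [h2]
    exact tprod_one
  unfold pr
  rw [h1]
  simp

lemma cnt_zero (N : ℕ) (h : Fin 0 → ℕ) : (cnt N h : ℝ) = N := by
  unfold cnt
  rw [filter_true_of_mem (fun n _ i => i.elim0), Nat.card_Ioc]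
  have : 2 * N - N = N := by omega
  rw [this]

open scoped Classical in
/-- The law for `D = 0` is Hardy-Littlewood. -/
lemma hl_of {ε : ℝ} (hε : 0 < ε) {N w r : ℕ} {h : Fin r → ℕ} (hA : Adm h)
    (hr : (r : ℝ) ≤ (1 - ε) * yy N) (hy : 0 ≤ yy N)
    (H : (((Tup 0 (Icc 1 N)).filter (fun s => ε * pr N h < DJ N w h s)).card : ℝ) ≤
      ε * (N : ℝ) ^ 0) : |(cnt N h : ℝ) - pr N h| ≤ ε * pr N h := by
  classical
  rcases lt_or_ge ε 1 with hε1 | hε1
  · by_contra hcon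
    rw [not_le] at hcon
    have h1 : (Tup 0 (Icc 1 N)).filter (fun s => ε * pr N h < DJ N w h s) = Tup 0 (Icc 1 N) := by
      refine filter_true_of_mem fun s _ => ?_
      rw [DJ_zero N w hA s]
      exact hcon
    have h2 : (Tup 0 (Icc 1 N)).card = 1 := by
      unfold Tup
      rw [Fintype.card_piFinset]
      simp
    rw [h1, h2] at H
    norm_num at H
    linarith
  · have h0 : (r : ℝ) ≤ 0 := hr.trans (mul_nonpos_of_nonpos_of_nonneg (by linarith) hy)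
    have h1 : r = 0 := by
      have : (0 : ℝ) ≤ r := Nat.cast_nonneg r
      exact_mod_cast le_antisymm h0 this
    subst h1
    rw [pr_zero, cnt_zero, sub_self, abs_zero]
    positivity

end JUniAux

open JUniAux

open scoped Classical in
/-- One exceptional set of tuples for all numbers of shifts and all assertions. -/
theorem nice_of (ε K c : ℝ) (hε : 0 < ε) (N : ℕ) (W : ℕ → Prop) (hW : ∃ w, W w) (hN : 3 ≤ N)
    (H1 : ∀ r D : ℕ, (r : ℝ) + D / Real.log N ≤ (1 - ε / 4) * yy N →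
      (((Tup r (Icc 1 N)).filter (fun h => Adm h ∧ ∃ w : ℕ, W w ∧ ε / 4 * (N : ℝ) ^ D <
        (((Tup D (Icc 1 N)).filter (fun s =>
          ε / 4 * pr N h < DJ N w h s)).card : ℝ))).card : ℝ) ≤
      ε / 4 * ((Tup r (Icc 1 N)).filter (fun h => Adm h)).card)
    (H2 : ∀ r D : ℕ, (r : ℝ) ≤ (1 - ε / 4) * yy N →
      (1 + ε / 4) * yy N ≤ (r : ℝ) + D / Real.log N →
      (((Tup r (Icc 1 N)).filter (fun h => Adm h ∧ ∃ w : ℕ, W w ∧ ε / 4 * (N : ℝ) ^ D <
        (((Tup D (Icc 1 N)).filter (fun s =>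
          DJ N w h s < (2 - ε / 4) * pr N h)).card : ℝ))).card : ℝ) ≤
      ε / 4 * ((Tup r (Icc 1 N)).filter (fun h => Adm h)).card)
    (H3 : ∀ r : ℕ, (1 + ε / 4) * yy N ≤ r → (r : ℝ) ≤ (N : ℝ) ^ c →
      (((Tup r (Icc 1 N)).filter (fun h => Adm h ∧
        ∃ n ∈ Icc 1 (2 * N), ∀ i, (n + h i).Prime)).card : ℝ) ≤
      ε / 4 * ((Tup r (Icc 1 N)).filter (fun h => Adm h)).card)
    (H4 : ∀ r : ℕ, (r : ℝ) ≤ (N : ℝ) ^ c →
      (((Tup r (Icc 1 N)).filter (fun h => Adm h ∧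
        ¬ ((K ≤ pr N h → |(cnt N h : ℝ) - pr N h| ≤ ε / 4 * pr N h) ∧
          (pr N h ≤ 1 / K → cnt N h = 0)))).card : ℝ) ≤
      ε / 4 * ((Tup r (Icc 1 N)).filter (fun h => Adm h)).card) :
    ∀ r : ℕ, (r : ℝ) ≤ (N : ℝ) ^ c →
      (((Tup r (Icc 1 N)).filter (fun h => Adm h ∧ ¬ Nice ε K N W h)).card : ℝ) ≤
      ε * ((Tup r (Icc 1 N)).filter (fun h => Adm h)).card := by
  intro r hr
  have hN1 : 1 ≤ N := by omega
  have hL1 : 1 ≤ Real.log N := by
    rw [Real.le_log_iff_exp_le (by positivity)]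
    have h3 : (3 : ℝ) ≤ N := by exact_mod_cast hN
    have := Real.exp_one_lt_d9
    linarith
  have hL0 : 0 < Real.log N := by linarith
  have hy : 0 ≤ yy N := by
    unfold yy
    exact div_nonneg hL0.le (Real.log_nonneg hL1)
  have hp : ∀ h : Fin r → ℕ, Adm h → 0 ≤ pr N h := by
    intro h hh
    unfold pr
    have := SI_nonneg h hh.1
    positivity
  set M : ℝ := (((Tup r (Icc 1 N)).filter (fun h => Adm h)).card : ℝ) with hM
  have hM0 : 0 ≤ M := Nat.cast_nonneg _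
  have hεM : 0 ≤ ε / 4 * M := by positivity
  obtain ⟨D1, hD1⟩ : ∃ D1 : ℕ, D1 = ⌊((1 - ε) * yy N - r) * Real.log N⌋₊ := ⟨_, rfl⟩
  obtain ⟨D2, hD2⟩ : ∃ D2 : ℕ, D2 = ⌈((1 + ε) * yy N - r) * Real.log N⌉₊ := ⟨_, rfl⟩
  have b1 : (((Tup r (Icc 1 N)).filter (fun h => Adm h ∧ (r : ℝ) ≤ (1 - ε) * yy N ∧
      ∃ w : ℕ, W w ∧ ε / 4 * (N : ℝ) ^ D1 < (((Tup D1 (Icc 1 N)).filter (fun s =>
          ε / 4 * pr N h < DJ N w h s)).card : ℝ))).card : ℝ) ≤ ε / 4 * M := by
    by_cases hrr : (r : ℝ) ≤ (1 - ε) * yy N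
    · have h1 : (r : ℝ) + D1 / Real.log N ≤ (1 - ε / 4) * yy N := by
        have h2 : (D1 : ℝ) ≤ ((1 - ε) * yy N - r) * Real.log N := by
          rw [hD1]
          exact Nat.floor_le (mul_nonneg (by linarith) hL0.le)
        have h3 : (D1 : ℝ) / Real.log N ≤ (1 - ε) * yy N - r := by
          rw [div_le_iff₀ hL0]
          exact h2
        have h4 : (1 - ε) * yy N ≤ (1 - ε / 4) * yy N :=
          mul_le_mul_of_nonneg_right (by linarith) hy
        linarith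
      refine le_trans ?_ (H1 r D1 h1)
      have : ((Tup r (Icc 1 N)).filter (fun h => Adm h ∧ (r : ℝ) ≤ (1 - ε) * yy N ∧
        ∃ w : ℕ, W w ∧ ε / 4 * (N : ℝ) ^ D1 < (((Tup D1 (Icc 1 N)).filter (fun s =>
          ε / 4 * pr N h < DJ N w h s)).card : ℝ))).card ≤
        ((Tup r (Icc 1 N)).filter (fun h => Adm h ∧ ∃ w : ℕ, W w ∧ ε / 4 * (N : ℝ) ^ D1 <
        (((Tup D1 (Icc 1 N)).filter (fun s =>
          ε / 4 * pr N h < DJ N w h s)).card : ℝ))).card := by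
        refine card_le_card fun h hh => ?_
        rw [mem_filter] at hh ⊢
        exact ⟨hh.1, hh.2.1, hh.2.2.2⟩
      exact_mod_cast this
    · rw [filter_false_of_mem (fun h _ hh => hrr hh.2.1)]
      simpa using hεM
  have b2 : (((Tup r (Icc 1 N)).filter (fun h => Adm h ∧ (r : ℝ) ≤ (1 - ε) * yy N ∧
      ∃ w : ℕ, W w ∧ ε / 4 * (N : ℝ) ^ D2 < (((Tup D2 (Icc 1 N)).filter (fun s =>
          DJ N w h s < (2 - ε / 4) * pr N h)).card : ℝ))).card : ℝ) ≤ ε / 4 * M := by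
    by_cases hrr : (r : ℝ) ≤ (1 - ε) * yy N
    · have h0 : (r : ℝ) ≤ (1 - ε / 4) * yy N :=
        hrr.trans (mul_le_mul_of_nonneg_right (by linarith) hy)
      have h1 : (1 + ε / 4) * yy N ≤ (r : ℝ) + D2 / Real.log N := by
        have h2 : ((1 + ε) * yy N - r) * Real.log N ≤ (D2 : ℝ) := by
          rw [hD2]
          exact Nat.le_ceil _
        have h3 : (1 + ε) * yy N - r ≤ (D2 : ℝ) / Real.log N := by
          rw [le_div_iff₀ hL0]
          exact h2
        have h4 : (1 + ε / 4) * yy N ≤ (1 + ε) * yy N :=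
          mul_le_mul_of_nonneg_right (by linarith) hy
        linarith
      refine le_trans ?_ (H2 r D2 h0 h1)
      have : ((Tup r (Icc 1 N)).filter (fun h => Adm h ∧ (r : ℝ) ≤ (1 - ε) * yy N ∧
        ∃ w : ℕ, W w ∧ ε / 4 * (N : ℝ) ^ D2 < (((Tup D2 (Icc 1 N)).filter (fun s =>
          DJ N w h s < (2 - ε / 4) * pr N h)).card : ℝ))).card ≤
        ((Tup r (Icc 1 N)).filter (fun h => Adm h ∧ ∃ w : ℕ, W w ∧ ε / 4 * (N : ℝ) ^ D2 <
        (((Tup D2 (Icc 1 N)).filter (fun s =>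
          DJ N w h s < (2 - ε / 4) * pr N h)).card : ℝ))).card := by
        refine card_le_card fun h hh => ?_
        rw [mem_filter] at hh ⊢
        exact ⟨hh.1, hh.2.1, hh.2.2.2⟩
      exact_mod_cast this
    · rw [filter_false_of_mem (fun h _ hh => hrr hh.2.1)]
      simpa using hεM
  have b3 : (((Tup r (Icc 1 N)).filter (fun h => Adm h ∧ (1 + ε) * yy N ≤ r ∧
      ∃ n ∈ Icc 1 (2 * N), ∀ i, (n + h i).Prime)).card : ℝ) ≤ ε / 4 * M := by
    by_cases hrr : (1 + ε) * yy N ≤ r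
    · have h0 : (1 + ε / 4) * yy N ≤ r :=
        (mul_le_mul_of_nonneg_right (by linarith) hy).trans hrr
      refine le_trans ?_ (H3 r h0 hr)
      have : ((Tup r (Icc 1 N)).filter (fun h => Adm h ∧ (1 + ε) * yy N ≤ r ∧
        ∃ n ∈ Icc 1 (2 * N), ∀ i, (n + h i).Prime)).card ≤
        ((Tup r (Icc 1 N)).filter (fun h => Adm h ∧
        ∃ n ∈ Icc 1 (2 * N), ∀ i, (n + h i).Prime)).card := by
        refine card_le_card fun h hh => ?_
        rw [mem_filter] at hh ⊢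
        exact ⟨hh.1, hh.2.1, hh.2.2.2⟩
      exact_mod_cast this
    · rw [filter_false_of_mem (fun h _ hh => hrr hh.2.1)]
      simpa using hεM
  have b4 := H4 r hr
  have hsub : (Tup r (Icc 1 N)).filter (fun h => Adm h ∧ ¬ Nice ε K N W h) ⊆
      (((Tup r (Icc 1 N)).filter (fun h => Adm h ∧ (r : ℝ) ≤ (1 - ε) * yy N ∧
        ∃ w : ℕ, W w ∧ ε / 4 * (N : ℝ) ^ D1 < (((Tup D1 (Icc 1 N)).filter (fun s =>
          ε / 4 * pr N h < DJ N w h s)).card : ℝ))) ∪
      ((Tup r (Icc 1 N)).filter (fun h => Adm h ∧ (r : ℝ) ≤ (1 - ε) * yy N ∧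
        ∃ w : ℕ, W w ∧ ε / 4 * (N : ℝ) ^ D2 < (((Tup D2 (Icc 1 N)).filter (fun s =>
          DJ N w h s < (2 - ε / 4) * pr N h)).card : ℝ)))) ∪
      (((Tup r (Icc 1 N)).filter (fun h => Adm h ∧ (1 + ε) * yy N ≤ r ∧
        ∃ n ∈ Icc 1 (2 * N), ∀ i, (n + h i).Prime)) ∪
      ((Tup r (Icc 1 N)).filter (fun h => Adm h ∧
        ¬ ((K ≤ pr N h → |(cnt N h : ℝ) - pr N h| ≤ ε / 4 * pr N h) ∧
          (pr N h ≤ 1 / K → cnt N h = 0))))) := by
    intro h hh
    rw [mem_filter] at hh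
    obtain ⟨hT, hA, hnot⟩ := hh
    by_contra hcon
    rw [mem_union, mem_union, mem_union, mem_filter, mem_filter, mem_filter, mem_filter] at hcon
    push Not at hcon
    obtain ⟨⟨g1, g2⟩, g3, g4⟩ := hcon
    have hp0 := hp h hA
    apply hnot
    refine ⟨fun hrr => ?_, fun w hw D hD => ?_, fun hrr w hw D hD => ?_, fun hrr => ?_,
      fun hk => ?_, fun hk => ?_⟩
    · obtain ⟨w, hw⟩ := hW
      exact hl_of hε hA hrr hy (down hε hN1 h hp0 (Nat.zero_le D1) (g1 hT hA hrr w hw))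
    · have hDL : 0 ≤ (D : ℝ) / Real.log N := div_nonneg (Nat.cast_nonneg _) hL0.le
      have hrr : (r : ℝ) ≤ (1 - ε) * yy N := by linarith
      have hDD : D ≤ D1 := by
        rw [hD1]
        refine Nat.le_floor ?_
        have : (D : ℝ) / Real.log N ≤ (1 - ε) * yy N - r := by linarith
        rwa [div_le_iff₀ hL0] at this
      exact down hε hN1 h hp0 hDD (g1 hT hA hrr w hw)
    · have hDD : D2 ≤ D := by
        rw [hD2]
        refine Nat.ceil_le.2 ?_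
        have : (1 + ε) * yy N - r ≤ (D : ℝ) / Real.log N := by linarith
        rwa [le_div_iff₀ hL0] at this
      exact up hε hN1 h hp0 hDD (g2 hT hA hrr w hw)
    · rintro ⟨n, hn, hpn⟩
      obtain ⟨i, hi⟩ := g3 hT hA hrr n hn
      exact hi (hpn i)
    · have := (g4 hT hA).1 hk
      exact this.trans (mul_le_mul_of_nonneg_right (by linarith) hp0)
    · exact (g4 hT hA).2 hk
  have hcard := (card_le_card hsub).trans ((card_union_le _ _).trans
    (add_le_add (card_union_le _ _) (card_union_le _ _)))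
  have hcard' : (((Tup r (Icc 1 N)).filter (fun h => Adm h ∧ ¬ Nice ε K N W h)).card : ℝ) ≤
      ((((Tup r (Icc 1 N)).filter (fun h => Adm h ∧ (r : ℝ) ≤ (1 - ε) * yy N ∧
        ∃ w : ℕ, W w ∧ ε / 4 * (N : ℝ) ^ D1 < (((Tup D1 (Icc 1 N)).filter (fun s =>
          ε / 4 * pr N h < DJ N w h s)).card : ℝ))).card : ℝ) +
      ((Tup r (Icc 1 N)).filter (fun h => Adm h ∧ (r : ℝ) ≤ (1 - ε) * yy N ∧
        ∃ w : ℕ, W w ∧ ε / 4 * (N : ℝ) ^ D2 < (((Tup D2 (Icc 1 N)).filter (fun s =>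
          DJ N w h s < (2 - ε / 4) * pr N h)).card : ℝ))).card) +
      ((((Tup r (Icc 1 N)).filter (fun h => Adm h ∧ (1 + ε) * yy N ≤ r ∧
        ∃ n ∈ Icc 1 (2 * N), ∀ i, (n + h i).Prime)).card : ℝ) +
      ((Tup r (Icc 1 N)).filter (fun h => Adm h ∧
        ¬ ((K ≤ pr N h → |(cnt N h : ℝ) - pr N h| ≤ ε / 4 * pr N h) ∧
          (pr N h ≤ 1 / K → cnt N h = 0)))).card) := by
    exact_mod_cast hcard
  linarith

end Pool.Agent.Lib.LEN
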