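import Pool.Agent.Lib.LEN.FinJ
import Pool.Agent.Lib.LEN.JUni

/-!
# LEN.FinU: one exceptional set of tuples for all numbers of shifts and all assertions
-/

set_option autoImplicit false

open Finset Filter

namespace Pool.Agent.Lib.LEN

open Pool.Agent.HLB Pool.Agent.HLT Pool.Agent.HLR Pool.Agent.Lib.GMV

open scoped Classical in
/-- For every length `r ≤ N ^ c0` all but a share `ε` of the admissible tuples are nice. -/
def ConcU (c0 ε K : ℝ) (N : ℕ) (W : ℕ → Prop) : Prop :=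
  ∀ r : ℕ, (r : ℝ) ≤ (N : ℝ) ^ c0 →
    (((Tup r (Icc 1 N)).filter (fun h => Adm h ∧ ¬ Nice ε K N W h)).card : ℝ) ≤
      ε * ((Tup r (Icc 1 N)).filter (fun h => Adm h)).card

theorem every_pattern_uni : ∃ c0 : ℝ, 0 < c0 ∧ ∃ cw : ℝ, 0 < cw ∧ ∀ ε : ℝ, 0 < ε → ∃ K C : ℝ,
    1 ≤ K ∧ 0 < C ∧
    (∃ N0 : ℕ, ∀ N : ℕ, N0 ≤ N → RZ C N ∨ ConcU c0 ε K N (fun w => w = ⌊cw * yy N⌋₊)) ∧
    ∀ N0 : ℕ, ∃ N : ℕ, N0 ≤ N ∧ ConcU c0 ε K N (fun w => w = ⌊cw * yy N⌋₊) := by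
  classical
  obtain ⟨c0, hc0, cw, hcw, hall⟩ := every_pattern
  refine ⟨c0, hc0, cw, hcw, fun ε hε => ?_⟩
  obtain ⟨K, C, hK, hC, ⟨N0, h1⟩, h2⟩ := hall (ε / 4) (by positivity)
  have key : ∀ N : ℕ, 3 ≤ N → ConcJ c0 (ε / 4) K cw N →
      ConcU c0 ε K N (fun w => w = ⌊cw * yy N⌋₊) := by
    intro N hN hc
    obtain ⟨g1, g2, g3, g4⟩ := hc
    refine nice_of ε K c0 hε N _ ⟨_, rfl⟩ hN (fun r D hr => ?_) (fun r D hr hrD => ?_) g3 g4
    · refine le_trans (le_of_eq ?_) (g1 r D hr)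
      congr 2
      refine Finset.filter_congr fun h _ => and_congr_right fun _ => ?_
      exact ⟨fun ⟨w, hw, hb⟩ => by rw [hw] at hb; exact hb, fun hb => ⟨_, rfl, hb⟩⟩
    · refine le_trans (le_of_eq ?_) (g2 r D hr hrD)
      congr 2
      refine Finset.filter_congr fun h _ => and_congr_right fun _ => ?_
      exact ⟨fun ⟨w, hw, hb⟩ => by rw [hw] at hb; exact hb, fun hb => ⟨_, rfl, hb⟩⟩
  refine ⟨K, C, hK, hC, ⟨max N0 3, fun N hN => ?_⟩, fun N1 => ?_⟩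
  · rcases h1 N ((le_max_left _ _).trans hN) with h3 | h3
    · exact Or.inl h3
    · exact Or.inr (key N ((le_max_right _ _).trans hN) h3)
  · obtain ⟨N, hN, h3⟩ := h2 (max N1 3)
    exact ⟨N, (le_max_left _ _).trans hN, key N ((le_max_right _ _).trans hN) h3⟩

end Pool.Agent.Lib.LEN
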