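import Pool.Agent.Lib.LEN.JFar

/-!
# LEN.JFarW: beyond the line, for every level `w ≤ (log N) / 200` of the model
-/

set_option autoImplicit false

open Finset Filter

namespace Pool.Agent.Lib.LEN

open Pool.Agent.HLB Pool.Agent.HLT Pool.Agent.HLR Pool.Agent.Lib.GMV

namespace JFarAux

open GoodXAux LevelsAux TVCntAux TVFarAux

/-- The size of `log q` for every level `w ≤ (log N) / 200`. -/
lemma logqW (δ : ℝ) (hδ : 0 < δ) (hδ1 : δ ≤ 1 / 2) : ∃ N0 : ℕ, ∀ N : ℕ,
    N0 ≤ N → ∀ w : ℕ, 2 ≤ w → (w : ℝ) ≤ Real.log N / 200 →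
    0 < (DZ w)⁻¹ / Real.log N ∧ (DZ w)⁻¹ / Real.log N ≤ 1 ∧
    Real.log ((DZ w)⁻¹ / Real.log N) ≤ -((1 - δ) * Real.log (Real.log N)) ∧
    (PP w : ℝ) / N ≤ δ := by
  have hlog : Tendsto (fun N : ℕ => Real.log (N : ℝ)) atTop atTop :=
    Real.tendsto_log_atTop.comp tendsto_natCast_atTop_atTop
  have hll : Tendsto (fun N : ℕ => Real.log (Real.log (N : ℝ))) atTop atTop :=
    Real.tendsto_log_atTop.comp hlog
  have hG : ∀ᶠ l : ℝ in atTop, Real.log l + 8 ≤ δ * l := by
    have h1 := (Real.isLittleO_log_id_atTop).bound (c := δ / 2) (by positivity)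
    filter_upwards [h1, eventually_ge_atTop 1, eventually_ge_atTop (16 / δ)] with l h2 h3 h4
    rw [Real.norm_of_nonneg (Real.log_nonneg h3), id, Real.norm_of_nonneg (by linarith)] at h2
    rw [div_le_iff₀ hδ] at h4
    linarith
  obtain ⟨N1, hN1⟩ := eventually_atTop.1 (hll.eventually hG)
  obtain ⟨N2, hN2⟩ := ll_big 1
  obtain ⟨S3, hS3⟩ := small1 (s := 1 / 2) (u := δ) 0 (by norm_num) hδ
  obtain ⟨N3, hN3⟩ := large S3
  refine ⟨max N1 (max N2 N3), fun N hN w hw2 hw => ?_⟩
  have hNN1 : N1 ≤ N := (le_max_left _ _).trans hN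
  have hNN2 : N2 ≤ N := ((le_max_left _ _).trans (le_max_right _ _)).trans hN
  have hNN3 : N3 ≤ N := ((le_max_right _ _).trans (le_max_right _ _)).trans hN
  have hGl := hN1 N hNN1
  have hlo := hN2 N hNN2
  obtain ⟨he, hyS3⟩ := hN3 N hNN3
  have hl0 : 0 < Real.log N := (Real.exp_pos 1).trans_le he
  have hN0 := pos_of_log he
  have hlN : Real.exp (Real.log N) = N := Real.exp_log hN0
  have hyL : yy N ≤ Real.log N := by
    have := yy_le (K := 1) he hlo
    linarith
  have hwL : (w : ℝ) ≤ Real.log N := by linarith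
  have hDZ := DZ_pos w
  obtain ⟨q, hq⟩ : ∃ q : ℝ, q = (DZ w)⁻¹ / Real.log N := ⟨_, rfl⟩
  have hq0 : 0 < q := by rw [hq]; positivity
  have hlq : Real.log q ≤ -((1 - δ) * Real.log (Real.log N)) := by
    have h1 := SPSAux.DZ_inv w hw2
    have hw2r : (2 : ℝ) ≤ w := by exact_mod_cast hw2
    have h2 : 0 < Real.log w := Real.log_pos (by linarith)
    have h3 : Real.log w ≤ Real.log (Real.log N) := Real.log_le_log (by linarith) hwL
    have h4 : q ≤ 2 * Real.exp 7 * Real.log (Real.log N) / Real.log N := by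
      rw [hq]
      refine div_le_div_of_nonneg_right (h1.trans ?_) hl0.le
      exact mul_le_mul_of_nonneg_left h3 (by positivity)
    have h5 := Real.log_le_log hq0 h4
    have h6 : 0 < Real.log (Real.log N) := by linarith
    rw [Real.log_div (by positivity) hl0.ne', Real.log_mul (by positivity) h6.ne',
      Real.log_mul (by norm_num) (by positivity), Real.log_exp] at h5
    have h7 := Real.log_two_lt_d9
    linarith
  have hq1 : q ≤ 1 := by
    have h1 : Real.log q ≤ 0 := by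
      refine hlq.trans ?_
      have : 0 ≤ (1 - δ) * Real.log (Real.log N) := by
        apply mul_nonneg <;> linarith
      linarith
    rw [← Real.exp_log hq0]
    exact Real.exp_le_one_iff.2 h1
  rw [← hq]
  refine ⟨hq0, hq1, hlq, ?_⟩
  rw [div_le_iff₀ hN0]
  have h1 : (PP w : ℝ) ≤ 4 ^ w := by exact_mod_cast Cls0.PP_le w
  have h2 := four_pow (w := w) (y := Real.log N) (cw := 1 / 200) (by linarith)
  have h3 : Real.exp (7 / 5 * (1 / 200 * Real.log N)) ≤ Real.exp (Real.log N / 2) := by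
    refine Real.exp_le_exp.2 ?_
    linarith
  have h4 := hS3 (Real.log N) (hyS3.trans hyL)
  calc (PP w : ℝ) ≤ Real.exp (Real.log N / 2) := h1.trans (h2.trans h3)
    _ = Real.exp (0 - 1 / 2 * Real.log N) * Real.exp (Real.log N) := by
        rw [← Real.exp_add]
        congr 1
        ring
    _ ≤ δ * Real.exp (Real.log N) := mul_le_mul_of_nonneg_right h4 (Real.exp_pos _).le
    _ = δ * N := by rw [hlN]

/-- The sizes for every level in the range. -/
lemma sizesW (κ : ℝ) (hκ : 0 < κ) (w0 : ℕ) : ∃ N0 : ℕ, ∀ N : ℕ, N0 ≤ N → 3 ≤ N ∧ 2 ≤ yy N ∧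
    yy N ≤ Real.log N ∧ ∀ w : ℕ,
    κ * yy N ≤ w → w0 ≤ w ∧ ((w : ℝ) ≤ Real.log N / 200 → 4 ^ (100 * w) ≤ N) ∧
    Real.log N ≤ (w : ℝ) ^ 2 := by
  obtain ⟨N1, hN1⟩ := yy_big (1 / κ)
  obtain ⟨N2, hN2⟩ := large (max 2 (w0 / κ))
  obtain ⟨N3, hN3⟩ := ll_big 1
  refine ⟨max (max N1 N2) (max N3 3), fun N hN => ?_⟩
  have g1 : N1 ≤ N := ((le_max_left _ _).trans (le_max_left _ _)).trans hN
  have g2 : N2 ≤ N := ((le_max_right _ _).trans (le_max_left _ _)).trans hN
  have g4 : N3 ≤ N := ((le_max_left _ _).trans (le_max_right _ _)).trans hN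
  have g3 : 3 ≤ N := ((le_max_right _ _).trans (le_max_right _ _)).trans hN
  obtain ⟨he, hy⟩ := hN2 N g2
  have h1 := hN1 N g1
  have hy2 : 2 ≤ yy N := (le_max_left _ _).trans hy
  have hy3 : w0 / κ ≤ yy N := (le_max_right _ _).trans hy
  have hl0 : 0 < Real.log N := (Real.exp_pos 1).trans_le he
  have hyL : yy N ≤ Real.log N := by
    have := yy_le (K := 1) he (hN3 N g4)
    linarith
  refine ⟨g3, hy2, hyL, fun w hw => ?_⟩
  have hw0 : (w0 : ℝ) ≤ w := by
    rw [div_le_iff₀ hκ] at hy3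
    linarith
  refine ⟨by exact_mod_cast hw0, fun hw2 => ?_, ?_⟩
  · have h2 := four_pow_mul (w := w) (k := 100) (y := Real.log N) (cw := 1 / 200) (by linarith)
    have h3 : Real.exp (7 / 5 * ((100 : ℕ) * (1 / 200 * Real.log N))) ≤ N := by
      refine (Real.exp_le_exp.2 (?_ : _ ≤ Real.log N)).trans (Real.exp_log (pos_of_log he)).le
      push_cast
      linarith
    exact_mod_cast h2.trans h3
  · have hs : Real.sqrt (Real.log N) ≤ w := by
      have h4 : κ * (1 / κ * Real.sqrt (Real.log N)) ≤ κ * yy N :=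
        mul_le_mul_of_nonneg_left h1 hκ.le
      have e : κ * (1 / κ * Real.sqrt (Real.log N)) = Real.sqrt (Real.log N) := by
        field_simp
      linarith
    have h5 : Real.sqrt (Real.log N) ^ 2 ≤ (w : ℝ) ^ 2 :=
      pow_le_pow_left₀ (Real.sqrt_nonneg _) hs 2
    rwa [Real.sq_sqrt hl0.le] at h5

end JFarAux

open TVFarAux TVCntAux GoodXAux LevelsAux JFarAux in
open scoped Classical in
/-- `j_far_core` for every level `w ≤ (log N) / 200`. -/
theorem j_far_coreW (ε : ℝ) (hε : 0 < ε) : ∃ N0 : ℕ, ∀ N : ℕ, N0 ≤ N →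
    ∀ r D : ℕ, (r : ℝ) ≤ yy N → (1 + ε) * yy N ≤ r + D / Real.log N →
    ∀ w : ℕ, 2 ≤ w → (w : ℝ) ≤ Real.log N / 200 → ∀ (G S : Finset ℕ), 0 < G.card → ∀ p : ℝ, 0 < p →
    |(S.card : ℝ) - p| ≤ ε / 4 * p → p ≤ 2 * N * ((DZ w)⁻¹ / Real.log N) ^ r →
    (((Tup D (Icc 1 N)).filter (fun s => ∑ T : Finset (Fin D),
      |((S.filter (fun n => pat s n = T)).card : ℝ) -
      p * ((∑ b ∈ G, QB N w s b T) / G.card)| < (2 - ε) * p)).card : ℝ) ≤
      ε * (N : ℝ) ^ D := by
  obtain ⟨δ, hδ⟩ : ∃ δ : ℝ, δ = ε / (8 * (1 + ε)) := ⟨_, rfl⟩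
  have hδp : 0 < δ := by rw [hδ]; positivity
  have hδe : (1 + ε) * δ = ε / 8 := by
    rw [hδ]
    field_simp
  have hδ1 : δ ≤ 1 / 8 := by nlinarith
  obtain ⟨t, ht⟩ : ∃ t : ℝ, t = δ / 4 := ⟨_, rfl⟩
  have htp : 0 < t := by rw [ht]; positivity
  obtain ⟨N1, hN1⟩ := logqW t htp (by linarith)
  obtain ⟨N4, hN4⟩ := logqW δ hδp (by linarith)
  obtain ⟨S1, hS1⟩ := small1 (s := t * (δ / 2) * ε) (u := ε / 8 * ε) 0 (by positivity)
    (by positivity)
  obtain ⟨S2, hS2⟩ := small1 (s := ε / 2) (u := ε / 8 / (2 * (1 + ε / 4))) 0 (by positivity)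
    (by positivity)
  obtain ⟨N2, hN2⟩ := ll_big 1
  obtain ⟨N3, hN3⟩ := large (max S1 S2)
  refine ⟨max (max N1 N4) (max N2 N3), fun N hN r D hr hD w hw2 hw G S hG p hp hSp hpq => ?_⟩
  have hNN1 : N1 ≤ N := ((le_max_left _ _).trans (le_max_left _ _)).trans hN
  have hNN4 : N4 ≤ N := ((le_max_right _ _).trans (le_max_left _ _)).trans hN
  have hNN2 : N2 ≤ N := ((le_max_left _ _).trans (le_max_right _ _)).trans hN
  have hNN3 : N3 ≤ N := ((le_max_right _ _).trans (le_max_right _ _)).trans hN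
  obtain ⟨hq0, hq1, -, hPN⟩ := hN1 N hNN1 w hw2 hw
  obtain ⟨-, -, hlq, -⟩ := hN4 N hNN4 w hw2 hw
  have hlo := hN2 N hNN2
  obtain ⟨he, hy⟩ := hN3 N hNN3
  obtain ⟨hyS1, hyS2⟩ := max_le_iff.1 hy
  have hl0 : 0 < Real.log N := (Real.exp_pos 1).trans_le he
  have hN0 := pos_of_log he
  have hNn : 1 ≤ N := by
    have : 0 < N := by exact_mod_cast hN0
    exact this
  have hyp := yy_pos he
  have hlN : Real.exp (Real.log N) = N := Real.exp_log hN0
  have hyL : yy N ≤ Real.log N := by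
    have := yy_le (K := 1) he hlo
    linarith
  have hLl : yy N * Real.log (Real.log N) = Real.log N := by
    unfold yy
    have : Real.log (Real.log N) ≠ 0 := by linarith
    field_simp
  have hGr : (0 : ℝ) < G.card := by exact_mod_cast hG
  obtain ⟨q, hq⟩ : ∃ q : ℝ, q = (DZ w)⁻¹ / Real.log N := ⟨_, rfl⟩
  rw [← hq] at hq0 hq1 hlq hpq
  obtain ⟨A, hA⟩ : ∃ A : ℝ, A = D / Real.log N := ⟨_, rfl⟩
  rw [← hA] at hD
  have hA1 : ε * yy N ≤ A := by linarith
  have hA0 : 0 ≤ A := le_trans (by positivity) hA1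
  obtain ⟨R, hR⟩ : ∃ R : ℝ, R = (1 - δ) * A := ⟨_, rfl⟩
  have hR0 : 0 ≤ R := by
    rw [hR]
    apply mul_nonneg _ hA0
    linarith
  -- many primes
  have hSle : (S.card : ℝ) ≤ (1 + ε / 4) * p := by
    have := (abs_le.1 hSp).2
    linarith
  have hhigh : S.card * Real.exp (R * Real.log q) ≤ ε / 8 := by
    have h1 : (r + R) * Real.log q ≤ - ((1 + ε / 2) * Real.log N) := by
      have g1 : (1 - δ) * ((1 + ε) * yy N) ≤ r + R := by
        rw [hR]
        have : (1 - δ) * ((1 + ε) * yy N) ≤ (1 - δ) * (r + A) :=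
          mul_le_mul_of_nonneg_left hD (by linarith)
        have g2 : (1 - δ) * (r : ℝ) ≤ 1 * r :=
          mul_le_mul_of_nonneg_right (by linarith) (Nat.cast_nonneg r)
        linarith
      have g3 : 0 ≤ (r : ℝ) + R := by positivity
      have g4 := mul_le_mul_of_nonneg_left hlq g3
      have g5 : (1 - δ) * ((1 + ε) * yy N) * ((1 - δ) * Real.log (Real.log N)) ≤
          (r + R) * ((1 - δ) * Real.log (Real.log N)) := by
        refine mul_le_mul_of_nonneg_right g1 ?_
        apply mul_nonneg <;> linarith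
      have g6 : (1 - δ) * ((1 + ε) * yy N) * ((1 - δ) * Real.log (Real.log N)) =
          (1 + ε) * (1 - δ) * (1 - δ) * (yy N * Real.log (Real.log N)) := by ring
      rw [g6, hLl] at g5
      have g7 : 1 + ε / 2 ≤ (1 + ε) * (1 - δ) * (1 - δ) := by
        have e : (1 + ε) * (1 - δ) * (1 - δ) = (1 + ε) - 2 * ((1 + ε) * δ) +
          (1 + ε) * δ * δ := by ring
        rw [e, hδe]
        have : 0 ≤ ε / 8 * δ := by positivity
        linarith
      have g8 := mul_le_mul_of_nonneg_right g7 hl0.le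
      linarith
    have h2 : q ^ r * Real.exp (R * Real.log q) = Real.exp ((r + R) * Real.log q) := by
      rw [add_mul, Real.exp_add, Real.exp_nat_mul, Real.exp_log hq0]
    calc S.card * Real.exp (R * Real.log q)
        ≤ ((1 + ε / 4) * (2 * N * q ^ r)) * Real.exp (R * Real.log q) := by
          refine mul_le_mul_of_nonneg_right (hSle.trans ?_) (Real.exp_pos _).le
          exact mul_le_mul_of_nonneg_left hpq (by positivity)
      _ = 2 * (1 + ε / 4) * (N * (q ^ r * Real.exp (R * Real.log q))) := by ring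
      _ = 2 * (1 + ε / 4) * (Real.exp (Real.log N) * Real.exp ((r + R) * Real.log q)) := by
          rw [h2, hlN]
      _ ≤ 2 * (1 + ε / 4) * (Real.exp (Real.log N) *
            Real.exp (- ((1 + ε / 2) * Real.log N))) := by
          refine mul_le_mul_of_nonneg_left ?_ (by positivity)
          exact mul_le_mul_of_nonneg_left (Real.exp_le_exp.2 h1) (Real.exp_pos _).le
      _ = 2 * (1 + ε / 4) * Real.exp (0 - ε / 2 * Real.log N) := by
          rw [← Real.exp_add]
          congr 2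
          ring
      _ ≤ 2 * (1 + ε / 4) * (ε / 8 / (2 * (1 + ε / 4))) :=
          mul_le_mul_of_nonneg_left (hS2 (Real.log N) (hyS2.trans hyL)) (by positivity)
      _ = ε / 8 := by field_simp
  -- the mean
  have hμ0 : 0 ≤ 1 - Real.exp (-t) := by
    have : Real.exp (-t) ≤ 1 := Real.exp_le_one_iff.2 (by linarith)
    linarith
  have hμ1 : 1 - Real.exp (-t) ≤ 1 := by
    have := Real.exp_pos (-t)
    linarith
  have hμt : t * (1 - t) ≤ 1 - Real.exp (-t) := by
    have h := Real.abs_exp_sub_one_sub_id_le (x := -t) (by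
      rw [abs_neg, abs_of_pos htp]
      linarith)
    have := le_abs_self (Real.exp (-t) - 1 - -t)
    nlinarith
  have hmean := fun b => mean_one (D := D) (w := w) hNn hμ0 hμ1 hl0 (by rw [← hq]; exact hq1)
    (le_refl _) b
  -- Markov
  refine markov (Tup D (Icc 1 N)) _ (fun s => (Real.exp (t * R) * ∑ b ∈ G,
      ∏ i, (1 - (1 - Real.exp (-t)) * qq N w b (s i))) / G.card) (a := ε / 8)
      (by positivity) ?_ ?_ ?_
  · intro s _
    refine div_nonneg (mul_nonneg (Real.exp_pos _).le (Finset.sum_nonneg fun b _ =>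
      Finset.prod_nonneg fun i _ => ?_)) hGr.le
    have g1 := qq_nonneg (N := N) (w := w) b (s i) (by rw [← hq]; exact hq0.le)
    have g2 := qq_le (N := N) (w := w) b (s i) (by rw [← hq]; exact hq0.le)
    rw [← hq] at g2
    nlinarith
  · intro s _ hs
    have h1 := dist_ge' (N := N) (w := w) s G S hG (t := t) (R := R) (p := p) htp.le hp.le
      (by rw [← hq]; exact hq0) (by rw [← hq]; exact hq1)
    rw [← hq] at h1
    have h2 := (abs_le.1 hSp).1
    by_contra hcon
    rw [not_le] at hcon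
    have h3 : 2 * p * ((Real.exp (t * R) * ∑ b ∈ G,
        ∏ i, (1 - (1 - Real.exp (-t)) * qq N w b (s i))) / G.card +
        S.card * Real.exp (R * Real.log q)) ≤ 2 * p * (ε / 8 + ε / 8) :=
      mul_le_mul_of_nonneg_left (add_le_add hcon.le hhigh) (by positivity)
    have h4 : 0 < ε * p := by positivity
    linarith
  · have h1 : ∀ s : Fin D → ℕ, (Real.exp (t * R) * ∑ b ∈ G,
        ∏ i, (1 - (1 - Real.exp (-t)) * qq N w b (s i))) / G.card =
        Real.exp (t * R) / G.card * (∑ b ∈ G,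
        ∏ i, (1 - (1 - Real.exp (-t)) * qq N w b (s i))) := fun s => by ring
    rw [Finset.sum_congr rfl fun s _ => h1 s, ← Finset.mul_sum, Finset.sum_comm]
    have h2 : ∑ b ∈ G, ∑ s ∈ Tup D (Icc 1 N),
        ∏ i, (1 - (1 - Real.exp (-t)) * qq N w b (s i)) ≤ G.card * ((N : ℝ) ^ D *
        Real.exp (-(D * ((1 - Real.exp (-t)) / Real.log N * (1 - PP w / N))))) := by
      refine (Finset.sum_le_sum fun b _ => hmean b).trans (le_of_eq ?_)
      rw [Finset.sum_const, nsmul_eq_mul]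
    have h3 : t * R + -(D * ((1 - Real.exp (-t)) / Real.log N * (1 - PP w / N))) ≤
        -(t * (δ / 2) * ε * yy N) := by
      have g2 : 1 - t ≤ 1 - (PP w : ℝ) / N := by linarith
      have g3 : t * (1 - t) * (1 - t) ≤ (1 - Real.exp (-t)) * (1 - PP w / N) :=
        mul_le_mul hμt g2 (by linarith) hμ0
      have g4 : t * (1 - 2 * t) ≤ t * (1 - t) * (1 - t) := by
        have e : t * (1 - t) * (1 - t) = t * (1 - 2 * t) + t ^ 3 := by ring
        rw [e]
        have : 0 ≤ t ^ 3 := by positivity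
        linarith
      have g5 : A * (t * (1 - 2 * t)) ≤
          A * ((1 - Real.exp (-t)) * (1 - PP w / N)) :=
        mul_le_mul_of_nonneg_left (g4.trans g3) hA0
      have g6 : (D : ℝ) * ((1 - Real.exp (-t)) / Real.log N * (1 - PP w / N)) =
          A * ((1 - Real.exp (-t)) * (1 - PP w / N)) := by
        rw [hA]
        ring
      rw [g6, hR]
      have g7 : t * ((1 - δ) * A) - A * (t * (1 - 2 * t)) = -(t * (δ / 2) * A) := by
        have : δ = 4 * t := by rw [ht]; ring
        rw [this]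
        ring
      have g8 : t * (δ / 2) * (ε * yy N) ≤ t * (δ / 2) * A :=
        mul_le_mul_of_nonneg_left hA1 (by positivity)
      have g9 : t * (δ / 2) * (ε * yy N) = t * (δ / 2) * ε * yy N := by ring
      linarith
    calc Real.exp (t * R) / G.card * ∑ b ∈ G, ∑ s ∈ Tup D (Icc 1 N),
          ∏ i, (1 - (1 - Real.exp (-t)) * qq N w b (s i))
        ≤ Real.exp (t * R) / G.card * (G.card * ((N : ℝ) ^ D *
          Real.exp (-(D * ((1 - Real.exp (-t)) / Real.log N * (1 - PP w / N)))))) :=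
          mul_le_mul_of_nonneg_left h2 (by positivity)
      _ = (N : ℝ) ^ D *
          Real.exp (t * R + -(D * ((1 - Real.exp (-t)) / Real.log N * (1 - PP w / N)))) := by
          rw [Real.exp_add]
          field_simp
      _ ≤ (N : ℝ) ^ D * Real.exp (0 - t * (δ / 2) * ε * yy N) := by
          refine mul_le_mul_of_nonneg_left (Real.exp_le_exp.2 ?_) (by positivity)
          linarith
      _ ≤ (N : ℝ) ^ D * (ε / 8 * ε) :=
          mul_le_mul_of_nonneg_left (hS1 (yy N) hyS1) (by positivity)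
      _ = ε / 8 * (ε * (N : ℝ) ^ D) := by ring

end Pool.Agent.Lib.LEN
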