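import Pool.Agent.Lib.LEN.JMod

/-!
# LEN.JModB: two levels of Granville's model are close in total variation: the main inequality
-/

set_option autoImplicit false

open Finset Filter

namespace Pool.Agent.Lib.LEN

open Pool.Agent.HLB Pool.Agent.HLT Pool.Agent.HLR Pool.Agent.Lib.GMV

namespace JModAux

open JBoxAux JCrtAux TVFarAux

open scoped Classical in
/-- The good lifts of a class. -/
noncomputable def LLm {r : ℕ} (w1 w2 : ℕ) (a : Fin r → ℕ) (b : ℕ) : Finset ℕ :=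
  (range (PP w2)).filter (fun b' => Good w2 a b' ∧ b' % PP w1 = b % PP w1)

/-- The number of the good lifts. -/
noncomputable def ggm {r : ℕ} (w1 w2 : ℕ) (a : Fin r → ℕ) : ℝ :=
  ∏ p ∈ JJ w1 w2, ((p : ℝ) - nuI a p)

lemma card_LL {r : ℕ} {w1 w2 : ℕ} (h : w1 ≤ w2) (a : Fin r → ℕ) (b : ℕ) (hb : Good w1 a b) :
    ((LLm w1 w2 a b).card : ℝ) = ggm w1 w2 a := by
  have h1 := lifts w1 w2 h a 0 b hb
  simp only [zero_mul, add_zero, prod_const_one] at h1
  rw [sum_const, nsmul_eq_mul, mul_one] at h1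
  unfold ggm LLm
  exact h1

lemma good_mono {r : ℕ} {w1 w2 : ℕ} (h : w1 ≤ w2) {a : Fin r → ℕ} {b : ℕ} (hb : Good w2 a b) :
    Good w1 a b := fun i => cop_mono h (hb i)

lemma good_congr {r : ℕ} {w : ℕ} {a : Fin r → ℕ} {b b' : ℕ} (h : b' % PP w = b % PP w) :
    Good w a b' ↔ Good w a b := by
  unfold Good
  exact forall_congr' fun i => cop_congr h (a i)

open scoped Classical in
/-- The good classes of the higher level as lifts. -/
lemma sum_lifts {r : ℕ} {w1 w2 : ℕ} (h : w1 ≤ w2) (a : Fin r → ℕ) (F : ℕ → ℝ) :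
    ∑ b ∈ (range (PP w2)).filter (Good w2 a), F b =
      ∑ b1 ∈ (range (PP w1)).filter (Good w1 a), ∑ b ∈ LLm w1 w2 a b1, F b := by
  rw [← Finset.sum_fiberwise_of_maps_to (s := (range (PP w2)).filter (Good w2 a))
    (t := (range (PP w1)).filter (Good w1 a)) (g := fun b => b % PP w1)]
  · refine sum_congr rfl fun b1 hb1 => ?_
    rw [mem_filter, mem_range] at hb1
    refine sum_congr ?_ fun _ _ => rfl
    unfold LLm
    ext b
    rw [mem_filter, mem_filter, mem_filter, Nat.mod_eq_of_lt hb1.1]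
    tauto
  · intro b hb
    rw [mem_filter] at hb ⊢
    refine ⟨mem_range.2 (Nat.mod_lt _ (Cls0.PP_pos w1)), ?_⟩
    rw [good_congr (Nat.mod_mod _ _)]
    exact good_mono h hb.2

open scoped Classical in
lemma nA_mul {r : ℕ} {w1 w2 : ℕ} (h : w1 ≤ w2) (a : Fin r → ℕ) :
    (nA w2 a : ℝ) = nA w1 a * ggm w1 w2 a := by
  have h1 := sum_lifts h a fun _ => (1 : ℝ)
  rw [sum_const, nsmul_eq_mul, mul_one] at h1
  unfold nA
  rw [h1]
  have h2 : ∀ b1 ∈ (range (PP w1)).filter (Good w1 a), ∑ b ∈ LLm w1 w2 a b1, (1 : ℝ) =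
      ggm w1 w2 a := by
    intro b1 hb1
    rw [sum_const, nsmul_eq_mul, mul_one]
    exact card_LL h a b1 (mem_filter.1 hb1).2
  rw [sum_congr rfl h2, sum_const, nsmul_eq_mul]

/-- The mean over the lifts. -/
noncomputable def AA2 (N w1 w2 : ℕ) {r D : ℕ} (a : Fin r → ℕ) (s : Fin D → ℕ) (b : ℕ)
    (T : Finset (Fin D)) : ℝ := (∑ b' ∈ LLm w1 w2 a b, QB N w2 s b' T) / ggm w1 w2 a

open scoped Classical in
lemma QH_lifts (N : ℕ) {w1 w2 : ℕ} (h : w1 ≤ w2) {r D : ℕ} (a : Fin r → ℕ) (s : Fin D → ℕ)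
    (T : Finset (Fin D)) : QH N w2 a s T =
      (∑ b ∈ (range (PP w1)).filter (Good w1 a), AA2 N w1 w2 a s b T) / nA w1 a := by
  unfold QH AA2
  rw [sum_lifts h a, nA_mul h a, ← sum_div, div_div, mul_comm (ggm w1 w2 a)]

/-- The likelihood ratio of a class. -/
noncomputable def X2 (N w1 w2 : ℕ) {r D : ℕ} (a : Fin r → ℕ) (s : Fin D → ℕ) : ℝ :=
  (∑ b ∈ (range (PP w1)).filter (fun b => ∀ i, Nat.Coprime (b + a i) (PP w1)),
    ∑ b' ∈ LLm w1 w2 a b, ∑ b'' ∈ LLm w1 w2 a b, ∏ i, ff N w1 w2 b' b'' (s i)) /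
      (nA w1 a * ggm w1 w2 a ^ 2)

lemma qq_congr {N w b b' : ℕ} (h : b' % PP w = b % PP w) (m : ℕ) : qq N w b' m = qq N w b m := by
  unfold qq
  simp only [cop_congr h m]

/-- The sum over the patterns. -/
lemma sum_ratio {N w1 w2 D : ℕ} (s : Fin D → ℕ) {b1 b b' : ℕ} (hb : b % PP w1 = b1 % PP w1) :
    ∑ T : Finset (Fin D), QB N w2 s b T * QB N w2 s b' T / QB N w1 s b1 T =
      ∏ i, ff N w1 w2 b b' (s i) := by
  unfold ff
  rw [← sum_patterns]
  refine sum_congr rfl fun T _ => ?_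
  unfold QB
  rw [← prod_mul_distrib, ← prod_div_distrib]
  refine prod_congr rfl fun i _ => ?_
  rw [qq_congr hb (s i)]
  split_ifs <;> rfl

end JModAux

open JModAux TVFarAux

open scoped Classical in
/-- One set of translates: the distance of the two levels. -/
theorem j_mod_dist (N w1 w2 : ℕ) (h : w1 ≤ w2) {r D : ℕ} (a : Fin r → ℕ) (ha : 1 ≤ nA w2 a)
    (hL : 0 < Real.log N) (hq1 : (DZ w1)⁻¹ / Real.log N < 1) (hq2 : (DZ w2)⁻¹ / Real.log N ≤ 1)
    (s : Fin D → ℕ) :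
    0 ≤ X2 N w1 w2 a s - 1 ∧
    ∑ T : Finset (Fin D), |QH N w1 a s T - QH N w2 a s T| ≤
      2 * Real.sqrt (X2 N w1 w2 a s - 1) := by
  have hqn : ∀ w, 0 ≤ (DZ w)⁻¹ / Real.log N := fun w =>
    div_nonneg (inv_nonneg.2 (DZ_pos w).le) hL.le
  have hnA := nA_mul h a
  have ha0 : (0 : ℝ) < nA w2 a := by exact_mod_cast (by omega : 0 < nA w2 a)
  have hn0 : (0 : ℝ) ≤ nA w1 a := Nat.cast_nonneg _
  have hn1 : (0 : ℝ) < nA w1 a := by
    refine lt_of_le_of_ne hn0 fun h0 => ?_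
    rw [hnA, ← h0, zero_mul] at ha0
    exact lt_irrefl _ ha0
  have hg0 : 0 < ggm w1 w2 a := by
    rw [hnA] at ha0
    exact (mul_pos_iff_of_pos_left hn1).1 ha0
  set G1 := (range (PP w1)).filter (Good w1 a) with hG1
  have hG1c : (G1.card : ℝ) = nA w1 a := rfl
  set P : ℕ × Finset (Fin D) → ℝ := fun x => AA2 N w1 w2 a s x.1 x.2 / nA w1 a with hP
  set Q : ℕ × Finset (Fin D) → ℝ := fun x => QB N w1 s x.1 x.2 / nA w1 a with hQ
  have hA0 : ∀ b T, 0 ≤ AA2 N w1 w2 a s b T := by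
    intro b T
    unfold AA2
    exact div_nonneg (sum_nonneg fun b' _ => QB_nonneg s b' T (hqn w2) hq2) hg0.le
  have hP0 : ∀ x ∈ G1 ×ˢ (univ : Finset (Finset (Fin D))), 0 ≤ P x := fun x _ =>
    div_nonneg (hA0 _ _) hn0
  have hQ0 : ∀ x ∈ G1 ×ˢ (univ : Finset (Finset (Fin D))), 0 ≤ Q x := fun x _ =>
    div_nonneg (QB_nonneg s x.1 x.2 (hqn w1) hq1.le) hn0
  have hAC : ∀ x ∈ G1 ×ˢ (univ : Finset (Finset (Fin D))), Q x = 0 → P x = 0 := by
    intro x _ hx
    have h1 : QB N w1 s x.1 x.2 = 0 := by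
      rcases div_eq_zero_iff.1 hx with h2 | h2
      · exact h2
      · exact absurd h2 hn1.ne'
    have h2 : AA2 N w1 w2 a s x.1 x.2 = 0 := by
      unfold AA2
      rw [sum_eq_zero, zero_div]
      intro b' hb'
      unfold LLm at hb'
      rw [mem_filter] at hb'
      unfold QB at h1 ⊢
      obtain ⟨i, -, hi⟩ := prod_eq_zero_iff.1 h1
      refine prod_eq_zero (mem_univ i) ?_
      by_cases hT : i ∈ x.2
      · rw [if_pos hT] at hi ⊢
        rw [← qq_congr hb'.2.2 (s i)] at hi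
        unfold qq at hi ⊢
        by_cases hc : Nat.Coprime (b' + s i) (PP w1)
        · rw [if_pos hc] at hi
          have := div_pos (inv_pos.2 (DZ_pos w1)) hL
          linarith
        · rw [if_neg fun h3 => hc (cop_mono h h3)]
      · rw [if_neg hT] at hi
        have := qq_le (N := N) x.1 (s i) (hqn w1)
        linarith
    rw [hP]
    simp only
    rw [h2, zero_div]
  obtain ⟨h1, h2⟩ := j_abs (G1 ×ˢ (univ : Finset (Finset (Fin D)))) _ (subset_refl _) P Q hP0 hQ0 hAC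
  have hsP : ∑ x ∈ G1 ×ˢ (univ : Finset (Finset (Fin D))), P x = 1 := by
    rw [sum_product]
    rw [hP]
    simp only
    have h3 : ∀ b ∈ G1, ∑ T : Finset (Fin D), AA2 N w1 w2 a s b T / nA w1 a = 1 / nA w1 a := by
      intro b hb
      rw [← sum_div]
      congr 1
      unfold AA2
      rw [← sum_div, sum_comm, sum_congr rfl fun b' _ => TVFarAux.sum_QB s b', sum_const,
        nsmul_eq_mul, mul_one, card_LL h a b (mem_filter.1 hb).2]
      exact div_self hg0.ne'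
    rw [sum_congr rfl h3, sum_const, nsmul_eq_mul, hG1c]
    field_simp
  have hsQ : ∑ x ∈ G1 ×ˢ (univ : Finset (Finset (Fin D))), Q x = 1 := by
    rw [sum_product]
    rw [hQ]
    simp only
    have h3 : ∀ b ∈ G1, ∑ T : Finset (Fin D), QB N w1 s b T / nA w1 a = 1 / nA w1 a := by
      intro b _
      rw [← sum_div, TVFarAux.sum_QB s b]
    rw [sum_congr rfl h3, sum_const, nsmul_eq_mul, hG1c]
    field_simp
  have hX : ∑ x ∈ G1 ×ˢ (univ : Finset (Finset (Fin D))), P x ^ 2 / Q x = X2 N w1 w2 a s := by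
    rw [sum_product]
    unfold X2
    have hGe : (range (PP w1)).filter (fun b => ∀ i, Nat.Coprime (b + a i) (PP w1)) = G1 := by
      rw [hG1]
      refine filter_congr fun b _ => ?_
      rfl
    rw [hGe, sum_div]
    refine sum_congr rfl fun b _ => ?_
    rw [hP, hQ]
    simp only
    have h3 : ∀ T : Finset (Fin D), (AA2 N w1 w2 a s b T / nA w1 a) ^ 2 /
        (QB N w1 s b T / nA w1 a) =
        (∑ b' ∈ LLm w1 w2 a b, ∑ b'' ∈ LLm w1 w2 a b,
          QB N w2 s b' T * QB N w2 s b'' T / QB N w1 s b T) / (nA w1 a * ggm w1 w2 a ^ 2) := by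
      intro T
      have e : ∑ b' ∈ LLm w1 w2 a b, ∑ b'' ∈ LLm w1 w2 a b,
          QB N w2 s b' T * QB N w2 s b'' T / QB N w1 s b T =
          (∑ b' ∈ LLm w1 w2 a b, QB N w2 s b' T) ^ 2 / QB N w1 s b T := by
        rw [sq, sum_mul_sum, sum_div]
        refine sum_congr rfl fun b' _ => ?_
        rw [sum_div]
      rw [e]
      unfold AA2
      by_cases h0 : QB N w1 s b T = 0
      · rw [h0]
        simp
      · have := hg0.ne'
        have := hn1.ne'
        field_simp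
    rw [sum_congr rfl fun T _ => h3 T, ← sum_div]
    congr 1
    rw [sum_comm]
    refine sum_congr rfl fun b' hb' => ?_
    rw [sum_comm]
    refine sum_congr rfl fun b'' _ => ?_
    unfold LLm at hb'
    rw [mem_filter] at hb'
    exact sum_ratio s hb'.2.2
  rw [hX, hsP, hsQ] at h1 h2
  have e1 : X2 N w1 w2 a s - 2 * 1 + 1 = X2 N w1 w2 a s - 1 := by ring
  rw [e1] at h1 h2
  refine ⟨h1, ?_⟩
  rw [one_mul, sub_self, mul_zero, add_zero, add_zero] at h2
  refine le_trans ?_ h2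
  rw [sum_product, sum_comm]
  refine sum_le_sum fun T _ => ?_
  have e2 : QH N w1 a s T - QH N w2 a s T = ∑ b ∈ G1, (Q (b, T) - P (b, T)) := by
    rw [QH_lifts N h a s T]
    unfold QH
    rw [hP, hQ]
    simp only
    rw [sum_sub_distrib, ← sum_div, ← sum_div]
  rw [e2]
  refine (abs_sum_le_sum_abs _ _).trans (le_of_eq ?_)
  exact sum_congr rfl fun b _ => abs_sub_comm _ _

open scoped Classical in
/-- The mean of the likelihood ratio. -/
theorem j_mod_X2 (N w1 w2 : ℕ) (hN : 2 ≤ N) (h : w1 ≤ w2) (hw1 : 1 ≤ w1) {r : ℕ} (D : ℕ)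
    (a : Fin r → ℕ) (ha : 1 ≤ nA w2 a) (hq1 : (DZ w1)⁻¹ / Real.log N ≤ 1 / 2)
    (hq2 : (DZ w2)⁻¹ / Real.log N ≤ 1) {Y η : ℝ} (hY : D / Real.log N ≤ Y)
    (hJ : ∑ p ∈ JJ w1 w2, 1 / ((p : ℝ) - 1) ≤ 1)
    (hη : ∑ p ∈ JJ w1 w2, 1 / ((p : ℝ) - nuI a p) ≤ η) :
    ∑ s ∈ Tup D (Icc 1 N), X2 N w1 w2 a s ≤
      Real.exp (D * PP w2 / N + Real.exp (4 * Y / w1) * η) * (N : ℝ) ^ D := by
  have hNr : (2 : ℝ) ≤ N := by exact_mod_cast hN
  have hN0 : (0 : ℝ) < N := by linarith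
  have hL : 0 < Real.log N := Real.log_pos (by linarith)
  have hY0 : 0 ≤ Y := le_trans (by positivity) hY
  have hnA := nA_mul h a
  have ha0 : (0 : ℝ) < nA w2 a := by exact_mod_cast (by omega : 0 < nA w2 a)
  have hn0 : (0 : ℝ) ≤ nA w1 a := Nat.cast_nonneg _
  have hn1 : (0 : ℝ) < nA w1 a := by
    refine lt_of_le_of_ne hn0 fun h0 => ?_
    rw [hnA, ← h0, zero_mul] at ha0
    exact lt_irrefl _ ha0
  have hg0 : 0 < ggm w1 w2 a := by
    rw [hnA] at ha0
    exact (mul_pos_iff_of_pos_left hn1).1 ha0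
  have hnu : ∀ p ∈ JJ w1 w2, 0 < (p : ℝ) - nuI a p := by
    intro p hp
    rw [mem_JJ] at hp
    have h1 := (nA_pos w2 a).1 ha p (Nat.mem_primesLE.2 hp.1)
    have h2 : ((nuI a p : ℕ) : ℝ) < p := by exact_mod_cast h1
    linarith
  obtain ⟨C, hC⟩ : ∃ C : ℝ, C = Real.exp (4 * Y / w1) - 1 := ⟨_, rfl⟩
  have hC0 : 0 ≤ C := by
    rw [hC]
    have : 0 ≤ 4 * Y / (w1 : ℝ) := by positivity
    have := Real.one_le_exp this
    linarith
  unfold X2
  rw [← sum_div, sum_comm]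
  -- interchange of the sums
  have h1 : ∀ b ∈ (range (PP w1)).filter (fun b => ∀ i, Nat.Coprime (b + a i) (PP w1)),
      ∑ s ∈ Tup D (Icc 1 N), ∑ b' ∈ LLm w1 w2 a b, ∑ b'' ∈ LLm w1 w2 a b,
        ∏ i, ff N w1 w2 b' b'' (s i) ≤
      ggm w1 w2 a * ((N : ℝ) ^ D * (Real.exp (D * PP w2 / N) *
        ∏ p ∈ JJ w1 w2, (((p : ℝ) - nuI a p) + C))) := by
    intro b hb
    have hbg : Good w1 a b := (mem_filter.1 hb).2
    rw [sum_comm]
    rw [← card_LL h a b hbg, ← nsmul_eq_mul, ← sum_const]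
    refine sum_le_sum fun b' hb' => ?_
    have hb'1 := hb'
    unfold LLm at hb'1
    rw [mem_filter] at hb'1
    rw [sum_comm]
    have hLb : LLm w1 w2 a b = LLm w1 w2 a b' := by
      unfold LLm
      rw [hb'1.2.2]
    rw [hLb]
    have h3 : ∀ b'' ∈ LLm w1 w2 a b', ∑ s ∈ Tup D (Icc 1 N), ∏ i, ff N w1 w2 b' b'' (s i) ≤
        (N : ℝ) ^ D * (Real.exp (D * PP w2 / N) *
        ∏ p ∈ JJ w1 w2, (1 + C * (if b'' % p = b' % p then 1 else 0))) := by
      intro b'' hb''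
      unfold LLm at hb''
      rw [mem_filter] at hb''
      rw [TVCntAux.sum_prod D (Icc 1 N) (fun m => ff N w1 w2 b' b'' m), hC]
      exact ff_pow hN h hw1 b' b'' hb''.2.2 hq1 hq2 hY hJ
    refine (sum_le_sum h3).trans ?_
    rw [← mul_sum, ← mul_sum]
    refine mul_le_mul_of_nonneg_left ?_ (by positivity)
    refine mul_le_mul_of_nonneg_left ?_ (Real.exp_pos _).le
    have h4 := lifts w1 w2 h a C b' (good_mono h hb'1.2.1)
    unfold LLm
    rw [h4]
    refine prod_le_prod (fun p hp => ?_) fun p hp => ?_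
    · have := hnu p hp
      have := mul_nonneg hC0 (ee_nonneg p a b')
      linarith
    · have := mul_le_mul_of_nonneg_left (ee_le_one p a b') hC0
      linarith
  have hG1c : ((((range (PP w1)).filter
      (fun b => ∀ i, Nat.Coprime (b + a i) (PP w1))).card : ℕ) : ℝ) = nA w1 a := by
    unfold nA
    congr 2
    refine filter_congr fun b _ => ?_
    rfl
  have h2 := sum_le_sum h1
  rw [sum_const, nsmul_eq_mul, hG1c] at h2
  refine (div_le_div_of_nonneg_right h2 (by positivity)).trans ?_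
  have h5 : ∏ p ∈ JJ w1 w2, (((p : ℝ) - nuI a p) + C) ≤ ggm w1 w2 a * Real.exp (C * η) := by
    have h6 : ∏ p ∈ JJ w1 w2, (((p : ℝ) - nuI a p) + C) =
        ggm w1 w2 a * ∏ p ∈ JJ w1 w2, (1 + C * (1 / ((p : ℝ) - nuI a p))) := by
      unfold ggm
      rw [← prod_mul_distrib]
      refine prod_congr rfl fun p hp => ?_
      have := (hnu p hp).ne'
      field_simp
    rw [h6]
    refine mul_le_mul_of_nonneg_left ?_ hg0.le
    calc ∏ p ∈ JJ w1 w2, (1 + C * (1 / ((p : ℝ) - nuI a p))) ≤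
          ∏ p ∈ JJ w1 w2, Real.exp (C * (1 / ((p : ℝ) - nuI a p))) := by
          refine prod_le_prod (fun p hp => ?_) fun p _ => ?_
          · have := hnu p hp
            positivity
          · rw [add_comm]
            exact Real.add_one_le_exp _
      _ = Real.exp (C * ∑ p ∈ JJ w1 w2, 1 / ((p : ℝ) - nuI a p)) := by
          rw [← Real.exp_sum, mul_sum]
      _ ≤ Real.exp (C * η) := Real.exp_le_exp.2 (mul_le_mul_of_nonneg_left hη hC0)
  have hη0 : 0 ≤ η := le_trans (sum_nonneg fun p hp => by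
    have := hnu p hp
    positivity) hη
  have e1 : (nA w1 a : ℝ) * (ggm w1 w2 a * ((N : ℝ) ^ D * (Real.exp (D * PP w2 / N) *
      ∏ p ∈ JJ w1 w2, (((p : ℝ) - nuI a p) + C)))) / (nA w1 a * ggm w1 w2 a ^ 2) =
      (N : ℝ) ^ D * (Real.exp (D * PP w2 / N) *
      ((∏ p ∈ JJ w1 w2, (((p : ℝ) - nuI a p) + C)) / ggm w1 w2 a)) := by
    have := hg0.ne'
    have := hn1.ne'
    field_simp
  rw [e1]
  have h7 : (∏ p ∈ JJ w1 w2, (((p : ℝ) - nuI a p) + C)) / ggm w1 w2 a ≤ Real.exp (C * η) := by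
    rw [div_le_iff₀ hg0, mul_comm]
    exact h5
  calc (N : ℝ) ^ D * (Real.exp (D * PP w2 / N) *
      ((∏ p ∈ JJ w1 w2, (((p : ℝ) - nuI a p) + C)) / ggm w1 w2 a)) ≤
      (N : ℝ) ^ D * (Real.exp (D * PP w2 / N) * Real.exp (C * η)) := by
        refine mul_le_mul_of_nonneg_left ?_ (by positivity)
        exact mul_le_mul_of_nonneg_left h7 (Real.exp_pos _).le
    _ = Real.exp (D * PP w2 / N + C * η) * (N : ℝ) ^ D := by
        rw [← Real.exp_add]
        ring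
    _ ≤ _ := by
        refine mul_le_mul_of_nonneg_right (Real.exp_le_exp.2 ?_) (by positivity)
        have : C * η ≤ Real.exp (4 * Y / w1) * η := by
          refine mul_le_mul_of_nonneg_right ?_ hη0
          rw [hC]
          linarith
        linarith

open scoped Classical in
/-- Module JMod: the mean distance of two levels of the model. -/
theorem j_mod_one (N w1 w2 : ℕ) (hN : 2 ≤ N) (h : w1 ≤ w2) (hw1 : 1 ≤ w1) {r : ℕ} (D : ℕ)
    (a : Fin r → ℕ) (ha : 1 ≤ nA w2 a) (hq1 : (DZ w1)⁻¹ / Real.log N ≤ 1 / 2)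
    (hq2 : (DZ w2)⁻¹ / Real.log N ≤ 1) {Y η : ℝ} (hY : D / Real.log N ≤ Y)
    (hJ : ∑ p ∈ JJ w1 w2, 1 / ((p : ℝ) - 1) ≤ 1)
    (hη : ∑ p ∈ JJ w1 w2, 1 / ((p : ℝ) - nuI a p) ≤ η) :
    ∑ s ∈ Tup D (Icc 1 N), ∑ T : Finset (Fin D), |QH N w1 a s T - QH N w2 a s T| ≤
      2 * Real.sqrt (Real.exp (D * PP w2 / N + Real.exp (4 * Y / w1) * η) - 1) *
        (N : ℝ) ^ D := by
  have hNr : (2 : ℝ) ≤ N := by exact_mod_cast hN
  have hL : 0 < Real.log N := Real.log_pos (by linarith)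
  have hX := j_mod_X2 N w1 w2 hN h hw1 D a ha hq1 hq2 hY hJ hη
  have hd := fun s : Fin D → ℕ => j_mod_dist N w1 w2 h a ha hL (by linarith) hq2 s
  set H := Tup D (Icc 1 N) with hH
  have hHc : (H.card : ℝ) = (N : ℝ) ^ D := by
    rw [hH, card_Tup, Nat.card_Icc, Nat.add_sub_cancel]
    push_cast
    rfl
  have h1 : ∑ s ∈ H, ∑ T : Finset (Fin D), |QH N w1 a s T - QH N w2 a s T| ≤
      2 * ∑ s ∈ H, Real.sqrt (X2 N w1 w2 a s - 1) := by
    rw [mul_sum]
    exact sum_le_sum fun s _ => (hd s).2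
  refine h1.trans ?_
  have h2 := sum_mul_sq_le_sq_mul_sq H (fun _ => (1 : ℝ))
    (fun s => Real.sqrt (X2 N w1 w2 a s - 1))
  simp only [one_mul, one_pow] at h2
  rw [sum_const, nsmul_eq_mul, mul_one] at h2
  have h3 : ∑ s ∈ H, Real.sqrt (X2 N w1 w2 a s - 1) ^ 2 = ∑ s ∈ H, (X2 N w1 w2 a s - 1) :=
    sum_congr rfl fun s _ => Real.sq_sqrt (hd s).1
  rw [h3, sum_sub_distrib, sum_const, nsmul_eq_mul, mul_one, hHc] at h2
  set V : ℝ := Real.exp (D * PP w2 / N + Real.exp (4 * Y / w1) * η) with hV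
  have h4 : (∑ s ∈ H, Real.sqrt (X2 N w1 w2 a s - 1)) ^ 2 ≤ (V - 1) * ((N : ℝ) ^ D) ^ 2 := by
    refine h2.trans ?_
    have h5 : (N : ℝ) ^ D * (∑ s ∈ H, X2 N w1 w2 a s - (N : ℝ) ^ D) ≤
        (N : ℝ) ^ D * (V * (N : ℝ) ^ D - (N : ℝ) ^ D) :=
      mul_le_mul_of_nonneg_left (by linarith) (by positivity)
    refine h5.trans (le_of_eq ?_)
    ring
  have h6 := Real.le_sqrt_of_sq_le h4
  rw [Real.sqrt_mul' _ (by positivity), Real.sqrt_sq (by positivity)] at h6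
  rw [mul_assoc]
  exact mul_le_mul_of_nonneg_left h6 (by norm_num)

end Pool.Agent.Lib.LEN
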