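import Pool.Agent.Lib.LEN.JBoxS
import Pool.Agent.Lib.LEN.JModB
import Pool.Agent.Lib.LEN.JFarW

/-!
# LEN.JModel: all levels of Granville's model agree for almost all admissible tuples
-/

set_option autoImplicit false

open Finset Filter

namespace Pool.Agent.Lib.LEN

open Pool.Agent.HLB Pool.Agent.HLT Pool.Agent.HLR Pool.Agent.Lib.GMV

open JFinAux JFarFAux JModAux GoodXAux LevelsAux

open scoped Classical in
/-- From the classes to the admissible tuples. -/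
theorem j_gen (ε : ℝ) (hε : 0 < ε) (hε1 : ε ≤ 1) (N w r : ℕ) (hsz : 8 * r * PP w ≤ N) (hr1 : 1 ≤ r)
    (hadm : ∀ a ∈ AC w r, (((Hc N w a).filter (fun h => ¬ Adm h)).card : ℝ) ≤
      ε / 8 * (Hc N w a).card) (Bc : Finset (Fin r → ℕ))
    (hBc : (Bc.card : ℝ) ≤ ε / 8 * (AC w r).card) (R : (Fin r → ℕ) → Prop)
    (hR : ∀ a ∈ AC w r, a ∉ Bc → (((Hc N w a).filter (fun h => Adm h ∧ R h)).card : ℝ) ≤
      ε / 8 * (Hc N w a).card) :
    (((Tup r (Icc 1 N)).filter (fun h => Adm h ∧ R h)).card : ℝ) ≤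
      ε * ((Tup r (Icc 1 N)).filter (fun h => Adm h)).card := by
  have e1 : ∀ S : Finset (Fin r → ℕ), ∑ h ∈ S.filter Adm, (if R h then (1 : ℝ) else 0) =
      (S.filter (fun h => Adm h ∧ R h)).card := by
    intro S
    rw [← sum_filter, filter_filter, sum_const, nsmul_eq_mul, mul_one]
  have h3 := class_gen (ε / 8) (by positivity) (by linarith) N w r hsz hr1
    (fun h => if R h then 1 else 0) (fun h => by split_ifs <;> simp) Bc hBc hadm (by
    intro a ha hB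
    rw [e1, abs_of_nonneg (Nat.cast_nonneg _)]
    exact hR a ha hB)
  rw [e1, abs_of_nonneg (Nat.cast_nonneg _)] at h3
  refine (h3.trans (le_of_eq ?_))
  ring

open scoped Classical in
/-- `j_size` for every level in the range. -/
theorem j_sizeW (κ ε : ℝ) (hκ : 0 < κ) (hε : 0 < ε) (hε1 : ε ≤ 1) : ∃ N0 : ℕ, ∀ N : ℕ, N0 ≤ N →
    ∀ w : ℕ, κ * yy N ≤ w → (w : ℝ) ≤ Real.log N / 200 → ∀ r : ℕ, (r : ℝ) ≤ 2 * yy N →
      (((Tup r (Icc 1 N)).filter (fun h => Adm h ∧ ¬ (0 < pr N h ∧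
        pr N h ≤ 2 * N * ((DZ w)⁻¹ / Real.log N) ^ r))).card : ℝ) ≤
      ε * ((Tup r (Icc 1 N)).filter (fun h => Adm h)).card := by
  obtain ⟨δ, hδd⟩ : ∃ δ : ℝ, δ = ε / 8 := ⟨_, rfl⟩
  have hδ : 0 < δ := by rw [hδd]; positivity
  have hδ1 : δ ≤ 1 / 8 := by rw [hδd]; linarith
  obtain ⟨ws, hsing⟩ := sing (2 / κ) δ (by positivity) hδ
  obtain ⟨wz, hsize⟩ := JFinAux.size (2 * κ)
  obtain ⟨N2, hN2⟩ := JFarAux.sizesW κ hκ (max ws wz)
  refine ⟨N2, ?_⟩
  intro N hN w hw hw2 r hrD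
  obtain ⟨g3, hy2, -, hall⟩ := hN2 N hN
  obtain ⟨l1, l2, l3⟩ := hall w hw
  have h4N := l2 hw2
  have hNr : (3 : ℝ) ≤ N := by exact_mod_cast g3
  have hN0 : (0 : ℝ) < N := by linarith
  have hlogN : 0 < Real.log N := Real.log_pos (by linarith)
  have hLr : 0 < Real.log N ^ r := by positivity
  have hwr : (r : ℝ) ≤ 2 / κ * w := by
    have h1 : 2 / κ * (κ * yy N) ≤ 2 / κ * w := mul_le_mul_of_nonneg_left hw (by positivity)
    have e : 2 / κ * (κ * yy N) = 2 * yy N := by field_simp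
    linarith
  have hwr' : (r : ℝ) ≤ 4 / (2 * κ) * w := by
    refine hwr.trans (le_of_eq ?_)
    field_simp
    ring
  have hsz : 8 * r * PP w ≤ N := hsize w N r ((le_max_right _ _).trans l1) h4N hwr'
  obtain ⟨R, hRd⟩ : ∃ R : (Fin r → ℕ) → Prop, ∀ h, R h ↔ ¬ (0 < pr N h ∧
    pr N h ≤ 2 * N * ((DZ w)⁻¹ / Real.log N) ^ r) := ⟨_, fun _ => Iff.rfl⟩
  have hRf : (Tup r (Icc 1 N)).filter (fun h => Adm h ∧ ¬ (0 < pr N h ∧
      pr N h ≤ 2 * N * ((DZ w)⁻¹ / Real.log N) ^ r)) =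
      (Tup r (Icc 1 N)).filter (fun h => Adm h ∧ R h) := by
    refine filter_congr fun h _ => ?_
    rw [hRd]
  rw [hRf]
  rcases Nat.eq_zero_or_pos r with hr0 | hr1
  · -- `r = 0`
    subst hr0
    have hempty : (Tup 0 (Icc 1 N)).filter (fun h => Adm h ∧ R h) = ∅ := by
      rw [filter_eq_empty_iff]
      intro h _ hc
      refine (hRd h).1 hc.2 ⟨?_, ?_⟩
      · rw [pr_zero]; exact hN0
      · rw [pr_zero, pow_zero]; linarith
    rw [hempty, card_empty]
    push_cast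
    positivity
  · -- `r ≥ 1`
    have hgood : ∀ a ∈ AC w r, ∀ h : Fin r → ℕ, |SI h - SZ w a| ≤ δ * SZ w a → ¬ R h := by
      intro a ha h hh
      rw [hRd, not_not]
      have hSZ : 0 < SZ w a := by
        have hna : 1 ≤ nA w a := (nA_pos w a).2 (JFinAux.mem_AC ha).2
        have h2 := JFinAux.lam_pos N w (by omega) a hna
        unfold lam at h2
        rw [MM_eq] at h2
        have h3 : 0 < (N : ℝ) * SZ w a := by
          by_contra hneg
          push Not at hneg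
          have := div_nonpos_of_nonpos_of_nonneg hneg hLr.le
          linarith
        exact pos_of_mul_pos_right h3 hN0.le
      have hab := abs_le.1 hh
      have hSI : 0 < SI h := by nlinarith
      have hSI2 : SI h ≤ 2 * SZ w a := by nlinarith
      refine ⟨?_, ?_⟩
      · unfold pr
        positivity
      · unfold pr
        have h4 := SZ_le_DZ w a
        calc SI h * N / Real.log N ^ r ≤ 2 * (DZ w)⁻¹ ^ r * N / Real.log N ^ r := by
              refine div_le_div_of_nonneg_right ?_ hLr.le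
              refine mul_le_mul_of_nonneg_right ?_ hN0.le
              linarith
          _ = 2 * N * ((DZ w)⁻¹ / Real.log N) ^ r := by
              rw [div_pow]
              ring
    have hbad : ∀ a ∈ AC w r, (((Hc N w a).filter (fun h =>
        ¬ (Adm h ∧ |SI h - SZ w a| ≤ δ * SZ w a))).card : ℝ) ≤ δ * (Hc N w a).card :=
      fun a ha => hsing w ((le_max_left _ _).trans l1) N r hr1 hwr h4N l3 a (JFinAux.mem_AC ha).2
    have hadm : ∀ a ∈ AC w r, (((Hc N w a).filter (fun h => ¬ Adm h)).card : ℝ) ≤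
        ε / 8 * (Hc N w a).card := by
      intro a ha
      rw [← hδd]
      refine le_trans ?_ (hbad a ha)
      have hsub : (Hc N w a).filter (fun h => ¬ Adm h) ⊆ (Hc N w a).filter (fun h =>
        ¬ (Adm h ∧ |SI h - SZ w a| ≤ δ * SZ w a)) := by
        intro h hh
        rw [mem_filter] at hh ⊢
        exact ⟨hh.1, fun hc => hh.2 hc.1⟩
      exact_mod_cast card_le_card hsub
    exact j_gen ε hε hε1 N w r hsz hr1 hadm ∅
      (by simp only [card_empty, Nat.cast_zero]; positivity) R (by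
      intro a ha _
      rw [← hδd]
      refine le_trans (Nat.cast_le.2 (card_le_card fun h hh => ?_)) (hbad a ha)
      rw [mem_filter] at hh ⊢
      exact ⟨hh.1, fun h6 => hgood a ha h h6.2 hh.2.2⟩)

open scoped Classical in
/-- Almost all admissible tuples miss enough classes modulo all primes in the range. -/
theorem j_miss (κ ε η : ℝ) (hκ : 0 < κ) (hε : 0 < ε) (hε1 : ε ≤ 1) (hη : 0 < η) :
    ∃ N0 : ℕ, ∀ N : ℕ, N0 ≤ N → ∀ w1 w2 : ℕ, w1 ≤ w2 →
    κ * yy N ≤ w1 → (w2 : ℝ) ≤ Real.log N / 200 → ∀ r : ℕ, (r : ℝ) ≤ yy N →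
      (((Tup r (Icc 1 N)).filter (fun h => Adm h ∧
        η < ∑ p ∈ JJ w1 w2, 1 / ((p : ℝ) - nuI h p))).card : ℝ) ≤
      ε * ((Tup r (Icc 1 N)).filter (fun h => Adm h)).card := by
  obtain ⟨η', hη'⟩ : ∃ η' : ℝ, η' = min η (ε / 8) := ⟨_, rfl⟩
  have hη'0 : 0 < η' := by rw [hη']; positivity
  have hη'1 : η' ≤ η := by rw [hη']; exact min_le_left _ _
  have hη'2 : η' ≤ ε / 8 := by rw [hη']; exact min_le_right _ _
  obtain ⟨N1, hN1⟩ := j_boxsum κ η' hκ hη'0
  obtain ⟨ws, hsing⟩ := sing (2 / κ) (ε / 8) (by positivity) (by positivity)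
  obtain ⟨wz, hsize⟩ := JFinAux.size (2 * κ)
  obtain ⟨N2, hN2⟩ := JFarAux.sizesW κ hκ (max ws wz)
  refine ⟨max N1 N2, ?_⟩
  intro N hN w1 w2 h12 hw1 hw2 r hr
  have g1 : N1 ≤ N := (le_max_left _ _).trans hN
  have g2 : N2 ≤ N := (le_max_right _ _).trans hN
  obtain ⟨g3, hy2, -, hall⟩ := hN2 N g2
  have hw12 : (w1 : ℝ) ≤ w2 := by exact_mod_cast h12
  obtain ⟨l1, l2, l3⟩ := hall w2 (hw1.trans hw12)
  have h4N := l2 hw2
  have hNr : (3 : ℝ) ≤ N := by exact_mod_cast g3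
  have hlogN : 0 < Real.log N := Real.log_pos (by linarith)
  have hwr : (r : ℝ) ≤ 2 / κ * w2 := by
    have h1 : 2 / κ * (κ * yy N) ≤ 2 / κ * w2 :=
      mul_le_mul_of_nonneg_left (hw1.trans hw12) (by positivity)
    have e : 2 / κ * (κ * yy N) = 2 * yy N := by field_simp
    linarith
  have hwr' : (r : ℝ) ≤ 4 / (2 * κ) * w2 := by
    refine hwr.trans (le_of_eq ?_)
    field_simp
    ring
  have hsz : 8 * r * PP w2 ≤ N := hsize w2 N r ((le_max_right _ _).trans l1) h4N hwr'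
  have hbox := hN1 N g1 w1 w2 h12 hw1 (by linarith) r hr
  set R : (Fin r → ℕ) → Prop := fun h => η < ∑ p ∈ JJ w1 w2, 1 / ((p : ℝ) - nuI h p) with hRd
  set Bc := (AC w2 r).filter (fun a => η' < ∑ p ∈ (Nat.primesLE w2).filter (fun p => w1 < p),
      1 / ((p : ℝ) - nuI a p)) with hBc
  have hRB : ∀ a ∈ AC w2 r, ∀ h ∈ Hc N w2 a, R h → a ∈ Bc := by
    intro a ha h hh hR
    rw [hBc, mem_filter]
    refine ⟨ha, lt_of_le_of_lt hη'1 (lt_of_lt_of_eq hR ?_)⟩
    unfold JJ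
    refine sum_congr rfl fun p hp => ?_
    rw [nuI_Hc hh (mem_filter.1 hp).1]
  rcases Nat.eq_zero_or_pos r with hr0 | hr1
  · -- `r = 0`
    subst hr0
    have hAC : ∀ h : Fin 0 → ℕ, h ∈ AC w2 0 := by
      intro h
      unfold AC
      rw [mem_filter]
      refine ⟨?_, fun p hp => (Adm_zero h).2 p (Nat.mem_primesLE.1 hp).2⟩
      rw [Fintype.mem_piFinset]
      exact fun i => i.elim0
    have hACc : (AC w2 0).card ≤ 1 := by
      rw [card_le_one]
      intro a _ b _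
      exact Subsingleton.elim a b
    have hBc0 : Bc = ∅ := by
      rw [← card_eq_zero]
      by_contra hne
      have h2 : (1 : ℝ) ≤ Bc.card := by exact_mod_cast Nat.one_le_iff_ne_zero.2 hne
      have h3 : ((AC w2 0).card : ℝ) ≤ 1 := by exact_mod_cast hACc
      have h4 : η' < 1 := by linarith
      nlinarith
    have hempty : (Tup 0 (Icc 1 N)).filter (fun h => Adm h ∧ R h) = ∅ := by
      rw [filter_eq_empty_iff]
      intro h _ hc
      have hh : h ∈ Hc N w2 h := by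
        unfold Hc
        rw [Fintype.mem_piFinset]
        exact fun i => i.elim0
      have h5 := hRB h (hAC h) h hh hc.2
      rw [hBc0] at h5
      simp at h5
    rw [hempty, card_empty]
    push_cast
    positivity
  · refine j_gen ε hε hε1 N w2 r hsz hr1 ?_ Bc ?_ R ?_
    · intro a ha
      have h5 := hsing w2 ((le_max_left _ _).trans l1) N r hr1 hwr h4N l3 a (JFinAux.mem_AC ha).2
      refine le_trans ?_ h5
      have hsub : (Hc N w2 a).filter (fun h => ¬ Adm h) ⊆ (Hc N w2 a).filter (fun h =>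
        ¬ (Adm h ∧ |SI h - SZ w2 a| ≤ ε / 8 * SZ w2 a)) := by
        intro h hh
        rw [mem_filter] at hh ⊢
        exact ⟨hh.1, fun hc => hh.2 hc.1⟩
      exact_mod_cast card_le_card hsub
    · exact hbox.trans (mul_le_mul_of_nonneg_right hη'2 (Nat.cast_nonneg _))
    · intro a ha hB
      have hempty : (Hc N w2 a).filter (fun h => Adm h ∧ R h) = ∅ := by
        rw [filter_eq_empty_iff]
        intro h hh hc
        exact hB (hRB a ha h hh hc.2)
      rw [hempty, card_empty]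
      push_cast
      positivity

open scoped Classical in
/-- All levels of the model agree, with one exceptional set. -/
theorem j_model (κ ε η : ℝ) (hκ : 0 < κ) (hε : 0 < ε) (hε1 : ε ≤ 1) (hη : 0 < η) :
    ∃ N0 : ℕ, ∀ N : ℕ, N0 ≤ N → ∀ r : ℕ, (r : ℝ) ≤ yy N →
      (((Tup r (Icc 1 N)).filter (fun h => Adm h ∧ ¬ (∀ w1 w2 : ℕ, κ * yy N ≤ w1 → w1 ≤ w2 →
        (w2 : ℝ) ≤ Real.log N / 200 → ∀ D : ℕ, (D : ℝ) ≤ yy N * Real.log N →
          ∑ s ∈ Tup D (Icc 1 N), ∑ T : Finset (Fin D), |QH N w1 h s T - QH N w2 h s T| ≤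
            η * (N : ℝ) ^ D))).card : ℝ) ≤
      ε * ((Tup r (Icc 1 N)).filter (fun h => Adm h)).card := by
  obtain ⟨x, hx⟩ : ∃ x : ℝ, x = min 1 (η ^ 2 / 8) := ⟨_, rfl⟩
  have hx0 : 0 < x := by rw [hx]; positivity
  have hx1 : x ≤ 1 := by rw [hx]; exact min_le_left _ _
  have hx2 : x ≤ η ^ 2 / 8 := by rw [hx]; exact min_le_right _ _
  obtain ⟨C, hC⟩ : ∃ C : ℝ, C = Real.exp (4 / κ) := ⟨_, rfl⟩
  have hC0 : 0 < C := by rw [hC]; positivity
  obtain ⟨η', hη'⟩ : ∃ η' : ℝ, η' = min (1 / 2) (x / (2 * C)) := ⟨_, rfl⟩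
  have hη'0 : 0 < η' := by rw [hη']; positivity
  have hη'1 : η' ≤ 1 / 2 := by rw [hη']; exact min_le_left _ _
  have hη'2 : C * η' ≤ x / 2 := by
    have h1 : η' ≤ x / (2 * C) := by rw [hη']; exact min_le_right _ _
    calc C * η' ≤ C * (x / (2 * C)) := mul_le_mul_of_nonneg_left h1 hC0.le
      _ = x / 2 := by field_simp
  obtain ⟨N1, hN1⟩ := j_miss κ ε η' hκ hε hε1 hη'0
  obtain ⟨N2, hN2⟩ := JFarAux.sizesW κ hκ 2
  obtain ⟨N3, hN3⟩ := JFarAux.logqW (1 / 2) (by norm_num) le_rfl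
  obtain ⟨N4, hN4⟩ := eventually_atTop.1
    (Pool.Agent.Lib.MT.Wtd.log_pow_small 2 (2 / x) (1 / 2) (by norm_num))
  obtain ⟨N5, hN5⟩ := ll_big 2
  refine ⟨max (max N1 N2) (max N3 (max N4 N5)), ?_⟩
  intro N hN r hr
  have g1 : N1 ≤ N := ((le_max_left _ _).trans (le_max_left _ _)).trans hN
  have g2 : N2 ≤ N := ((le_max_right _ _).trans (le_max_left _ _)).trans hN
  have g3 : N3 ≤ N := ((le_max_left _ _).trans (le_max_right _ _)).trans hN
  have g4 : N4 ≤ N := ((le_max_left _ _).trans ((le_max_right _ _).trans (le_max_right _ _))).trans hN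
  have g5 : N5 ≤ N := ((le_max_right _ _).trans ((le_max_right _ _).trans (le_max_right _ _))).trans hN
  obtain ⟨gN, hy2, hyL, hall⟩ := hN2 N g2
  have hpow := hN4 N g4
  have hll := hN5 N g5
  have hNr : (3 : ℝ) ≤ N := by exact_mod_cast gN
  have hN0 : (0 : ℝ) < N := by linarith
  have hL : 0 < Real.log N := Real.log_pos (by linarith)
  set L := Real.log N with hLd
  set w1' : ℕ := ⌈κ * yy N⌉₊ with hw1'
  set w2' : ℕ := ⌊L / 200⌋₊ with hw2'
  have hw1a : κ * yy N ≤ w1' := Nat.le_ceil _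
  have hw2a : (w2' : ℝ) ≤ L / 200 := Nat.floor_le (by positivity)
  by_cases hle : w1' ≤ w2'
  swap
  · -- the range is empty
    have hempty : (Tup r (Icc 1 N)).filter (fun h => Adm h ∧ ¬ (∀ w1 w2 : ℕ, κ * yy N ≤ w1 →
        w1 ≤ w2 → (w2 : ℝ) ≤ L / 200 → ∀ D : ℕ, (D : ℝ) ≤ yy N * L →
          ∑ s ∈ Tup D (Icc 1 N), ∑ T : Finset (Fin D), |QH N w1 h s T - QH N w2 h s T| ≤
            η * (N : ℝ) ^ D)) = ∅ := by
      rw [filter_eq_empty_iff]
      intro h _ hc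
      refine hc.2 fun w1 w2 hw1 h12 hw2 => ?_
      exfalso
      have h3 : w1' ≤ w1 := Nat.ceil_le.2 hw1
      have h4 : w2 ≤ w2' := Nat.le_floor hw2
      omega
    rw [hempty, card_empty]
    push_cast
    positivity
  refine le_trans ?_ (hN1 N g1 w1' w2' hle hw1a hw2a r hr)
  have hsub : (Tup r (Icc 1 N)).filter (fun h => Adm h ∧ ¬ (∀ w1 w2 : ℕ, κ * yy N ≤ w1 →
      w1 ≤ w2 → (w2 : ℝ) ≤ L / 200 → ∀ D : ℕ, (D : ℝ) ≤ yy N * L →
        ∑ s ∈ Tup D (Icc 1 N), ∑ T : Finset (Fin D), |QH N w1 h s T - QH N w2 h s T| ≤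
          η * (N : ℝ) ^ D)) ⊆
      (Tup r (Icc 1 N)).filter (fun h => Adm h ∧
        η' < ∑ p ∈ JJ w1' w2', 1 / ((p : ℝ) - nuI h p)) := by
    intro h hh
    rw [mem_filter] at hh ⊢
    refine ⟨hh.1, hh.2.1, ?_⟩
    by_contra hcon
    push Not at hcon
    refine hh.2.2 fun w1 w2 hw1 h12 hw2 D hD => ?_
    have hadm := hh.2.1
    have hw12 : (w1 : ℝ) ≤ w2 := by exact_mod_cast h12
    have hw1L : (w1 : ℝ) ≤ L / 200 := hw12.trans hw2
    obtain ⟨m1, -, -⟩ := hall w1 hw1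
    obtain ⟨m2, -, -⟩ := hall w2 (hw1.trans hw12)
    obtain ⟨-, -, b3, -⟩ := hN3 N g3 w1 m1 hw1L
    obtain ⟨b1', b2', -, -⟩ := hN3 N g3 w2 m2 hw2
    obtain ⟨b1, -, -, -⟩ := hN3 N g3 w1 m1 hw1L
    have hq1 : (DZ w1)⁻¹ / L ≤ 1 / 2 := by
      have h5 : Real.log ((DZ w1)⁻¹ / L) ≤ -1 := by linarith
      have h6 : (DZ w1)⁻¹ / L ≤ Real.exp (-1) := by
        rw [← Real.log_le_iff_le_exp b1]
        exact h5
      refine h6.trans ?_
      rw [Real.exp_neg, inv_le_comm₀ (Real.exp_pos _) (by norm_num)]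
      have := Real.exp_one_gt_d9
      linarith
    have hJsub : JJ w1 w2 ⊆ JJ w1' w2' := by
      intro p hp
      rw [mem_JJ] at hp ⊢
      have h3 : w1' ≤ w1 := Nat.ceil_le.2 hw1
      have h4 : w2 ≤ w2' := Nat.le_floor hw2
      exact ⟨⟨by omega, hp.1.2⟩, by omega⟩
    have hnu : ∀ p ∈ JJ w1' w2', 0 < (p : ℝ) - nuI h p := by
      intro p hp
      rw [mem_JJ] at hp
      have h2 : ((nuI h p : ℕ) : ℝ) < p := by exact_mod_cast hadm.2 p hp.1.2
      linarith
    have hS : ∑ p ∈ JJ w1 w2, 1 / ((p : ℝ) - nuI h p) ≤ η' := by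
      refine (sum_le_sum_of_subset_of_nonneg hJsub fun p hp _ => ?_).trans hcon
      have := hnu p hp
      positivity
    have hJ : ∑ p ∈ JJ w1 w2, 1 / ((p : ℝ) - 1) ≤ 1 := by
      have h5 : ∑ p ∈ JJ w1 w2, 1 / ((p : ℝ) - 1) ≤
          ∑ p ∈ JJ w1 w2, 2 * (1 / ((p : ℝ) - nuI h p)) := by
        refine sum_le_sum fun p hp => ?_
        have h6 := hnu p (hJsub hp)
        have h7 := two_le_JJ hp
        have h8 : (0 : ℝ) ≤ nuI h p := Nat.cast_nonneg _
        rw [mul_one_div, div_le_div_iff₀ (by linarith) h6]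
        linarith
      rw [← mul_sum] at h5
      linarith
    have hw1pos : (0 : ℝ) < w1 := by
      have : 0 < κ * yy N := by positivity
      linarith
    have hm := j_mod_one N w1 w2 (by omega) h12 (by omega) D h (nA_ge_one w2 h hadm) hq1 b2'
      (Y := yy N) (η := η') (by rw [div_le_iff₀ hL]; exact hD) hJ hS
    refine hm.trans (mul_le_mul_of_nonneg_right ?_ (by positivity))
    have h9 : Real.exp (4 * yy N / w1) ≤ C := by
      rw [hC]
      refine Real.exp_le_exp.2 ?_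
      rw [div_le_div_iff₀ hw1pos hκ]
      nlinarith
    have h10 : (D : ℝ) * PP w2 / N ≤ x / 2 := by
      have h11 : (PP w2 : ℝ) ≤ (N : ℝ) ^ (1 / 2 : ℝ) := by
        have c1 : (PP w2 : ℝ) ≤ 4 ^ w2 := by exact_mod_cast Cls0.PP_le w2
        have c2 := four_pow (w := w2) (y := L) (cw := 1 / 200) (by linarith)
        refine (c1.trans c2).trans ?_
        rw [Real.rpow_def_of_pos hN0]
        refine Real.exp_le_exp.2 ?_
        rw [← hLd]
        linarith
      have h12 : (D : ℝ) ≤ L ^ 2 := by nlinarith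
      have h13 : (N : ℝ) ^ (1 / 2 : ℝ) * (N : ℝ) ^ (1 / 2 : ℝ) = N := by
        rw [← Real.rpow_add hN0]
        norm_num
      have h14 : 0 < (N : ℝ) ^ (1 / 2 : ℝ) := Real.rpow_pos_of_pos hN0 _
      have h15 : 2 / x * L ^ 2 ≤ (N : ℝ) ^ (1 / 2 : ℝ) := hpow
      rw [div_le_iff₀ hN0]
      have h16 : L ^ 2 ≤ x / 2 * (N : ℝ) ^ (1 / 2 : ℝ) := by
        have e : L ^ 2 = x / 2 * (2 / x * L ^ 2) := by field_simp
        rw [e]
        exact mul_le_mul_of_nonneg_left h15 (by positivity)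
      calc (D : ℝ) * PP w2 ≤ L ^ 2 * (N : ℝ) ^ (1 / 2 : ℝ) :=
            mul_le_mul h12 h11 (Nat.cast_nonneg _) (by positivity)
        _ ≤ x / 2 * (N : ℝ) ^ (1 / 2 : ℝ) * (N : ℝ) ^ (1 / 2 : ℝ) :=
            mul_le_mul_of_nonneg_right h16 h14.le
        _ = x / 2 * N := by rw [mul_assoc, h13]
    have h17 : (D : ℝ) * PP w2 / N + Real.exp (4 * yy N / w1) * η' ≤ x := by
      have : Real.exp (4 * yy N / w1) * η' ≤ C * η' := mul_le_mul_of_nonneg_right h9 hη'0.le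
      linarith
    have h18 : Real.exp ((D : ℝ) * PP w2 / N + Real.exp (4 * yy N / w1) * η') - 1 ≤
        (η / 2) ^ 2 := by
      have h19 := Real.exp_le_exp.2 h17
      have h20 := exp_sub_one_le hx0.le hx1
      have : (η / 2) ^ 2 = 2 * (η ^ 2 / 8) := by ring
      linarith
    have h21 := Real.sqrt_le_sqrt h18
    rw [Real.sqrt_sq (by positivity)] at h21
    linarith
  exact_mod_cast card_le_card hsub

end Pool.Agent.Lib.LEN
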