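import Pool.Agent.Lib.LEN.ZAnti
import Pool.Agent.Lib.LEN.JFarW
import Pool.Agent.Lib.LEN.Sing
import Pool.Agent.Lib.LEN.FinK

/-!
# LEN.ZWin: almost no admissible tuple has its prediction near 1
-/

set_option autoImplicit false

open Finset Filter

namespace Pool.Agent.Lib.LEN

open Pool.Agent.HLB Pool.Agent.HLT Pool.Agent.HLR Pool.Agent.Lib.GMV

namespace ZWinAux

open GoodXAux LevelsAux

/-- The level `w = ⌊yy N⌋` for large `N`. -/
lemma sizes (w0 : ℕ) : ∃ N0 : ℕ, ∀ N : ℕ, N0 ≤ N → 3 ≤ N ∧ 2 ≤ yy N ∧ ∀ w : ℕ, w = ⌊yy N⌋₊ →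
    w0 ≤ w ∧ 4 ^ (100 * w) ≤ N ∧ Real.log N ≤ (w : ℝ) ^ 2 ∧ yy N ≤ 2 * w := by
  obtain ⟨N1, hN1⟩ := JFarAux.sizesW (1 / 2) (by norm_num) w0
  obtain ⟨N2, hN2⟩ := ll_big 200
  obtain ⟨N3, hN3⟩ := large 2
  refine ⟨max N1 (max N2 N3), fun N hN => ?_⟩
  have g1 : N1 ≤ N := (le_max_left _ _).trans hN
  have g2 : N2 ≤ N := ((le_max_left _ _).trans (le_max_right _ _)).trans hN
  have g3 : N3 ≤ N := ((le_max_right _ _).trans (le_max_right _ _)).trans hN
  obtain ⟨h1, h2, h3, h4⟩ := hN1 N g1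
  obtain ⟨he, _⟩ := hN3 N g3
  refine ⟨h1, h2, fun w hw => ?_⟩
  have h5 : yy N < w + 1 := by
    rw [hw]
    exact Nat.lt_floor_add_one _
  have h6 : (w : ℝ) ≤ yy N := by
    rw [hw]
    exact Nat.floor_le (by linarith)
  have h7 : 1 / 2 * yy N ≤ w := by linarith
  have h8 := yy_le (K := 200) he (hN2 N g2)
  obtain ⟨k1, k2, k3⟩ := h4 w h7
  exact ⟨k1, k2 (by linarith), k3, by linarith⟩

end ZWinAux

open ZWinAux FinKAux

open scoped Classical in
/-- Almost no admissible tuple has its prediction in `[1/K, K]`. -/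
theorem z_win (K ε η : ℝ) (hK : 1 ≤ K) (hε : 0 < ε) (hη : 0 < η) : ∃ N0 : ℕ,
    ∀ N : ℕ, N0 ≤ N → ∀ r : ℕ, ε * yy N ≤ r → (r : ℝ) ≤ 2 * yy N →
    (((Tup r (Icc 1 N)).filter (fun h => Adm h ∧ 1 / K ≤ pr N h ∧ pr N h ≤ K)).card : ℝ) ≤
      η * ((Tup r (Icc 1 N)).filter (fun h => Adm h)).card := by
  obtain ⟨δ, hδ⟩ : ∃ δ : ℝ, δ = min (1 / 2) (η / 8) := ⟨_, rfl⟩
  have hδ0 : 0 < δ := by rw [hδ]; positivity
  have hδ1 : δ ≤ 1 / 2 := by rw [hδ]; exact min_le_left _ _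
  have hδ2 : δ ≤ η / 8 := by rw [hδ]; exact min_le_right _ _
  have hK4 : 1 ≤ 4 * K ^ 2 := by nlinarith
  obtain ⟨r0, hanti⟩ := z_anti (4 * K ^ 2) δ hK4 hδ0
  obtain ⟨ws, hsing⟩ := sing 4 δ (by norm_num) hδ0
  obtain ⟨wz, hsize⟩ := size 1 one_pos
  obtain ⟨N1, hN1⟩ := sizes (max (max ws wz) ⌈Real.exp 8⌉₊)
  obtain ⟨N2, hN2⟩ := GoodXAux.large ((r0 + 1) / ε)
  refine ⟨max N1 N2, fun N hN r hr1 hr2 => ?_⟩
  obtain ⟨hN3, hy2, hw⟩ := hN1 N ((le_max_left _ _).trans hN)
  obtain ⟨_, hyr⟩ := hN2 N ((le_max_right _ _).trans hN)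
  obtain ⟨w, hwdef⟩ : ∃ w : ℕ, w = ⌊yy N⌋₊ := ⟨_, rfl⟩
  obtain ⟨hw0, h4w, hlw, hyw⟩ := hw w hwdef
  have hws : ws ≤ w := ((le_max_left _ _).trans (le_max_left _ _)).trans hw0
  have hwz : wz ≤ w := ((le_max_right _ _).trans (le_max_left _ _)).trans hw0
  have hwe : Real.exp 8 ≤ w := by
    have h1 : ⌈Real.exp 8⌉₊ ≤ w := (le_max_right _ _).trans hw0
    exact Nat.ceil_le.1 h1
  -- the length
  have hrr : ((r0 : ℝ) + 1) ≤ r := by
    rw [div_le_iff₀ hε] at hyr
    linarith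
  have hr0 : r0 ≤ r := by
    have : (r0 : ℝ) ≤ r := by linarith
    exact_mod_cast this
  have hr1' : 1 ≤ r := by
    have h1 : (0 : ℝ) ≤ r0 := Nat.cast_nonneg _
    have : (1 : ℝ) ≤ r := by linarith
    exact_mod_cast this
  have hrw : (r : ℝ) ≤ 4 * w := by linarith
  have hsz : 8 * r * PP w ≤ N := hsize w N r hwz h4w (by rw [div_one]; exact hrw)
  -- the constant
  have hN0 : (0 : ℝ) < N := by
    have : 0 < N := by omega
    exact_mod_cast this
  have hL : 0 < Real.log N := Real.log_pos (by exact_mod_cast (by omega : 1 < N))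
  have hP0 : (0 : ℝ) < PP w := by exact_mod_cast Cls0.PP_pos w
  have hD0 : 0 < (DZ w)⁻¹ := inv_pos.2 (DZ_pos w)
  obtain ⟨c, hc⟩ : ∃ c : ℝ, c = (N : ℝ) / PP w * (DZ w)⁻¹ ^ r / Real.log N ^ r := ⟨_, rfl⟩
  have hc0 : 0 < c := by rw [hc]; positivity
  have hlam : ∀ a : Fin r → ℕ, lam N w a = c * nA w a := by
    intro a
    rw [hc]
    unfold lam MM
    field_simp
  have hx : 0 < 1 / (2 * K) / c := by positivity
  have hpc : ∀ p : ℕ, (p : ℝ) * Real.log p ≤ 2 * r → p ≤ w := by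
    intro p hp
    by_contra hcon
    rw [not_le] at hcon
    have h1 : (w : ℝ) < p := by exact_mod_cast hcon
    have h2 : 0 < Real.exp 8 := Real.exp_pos 8
    have h3 : 8 < Real.log p := by
      rw [Real.lt_log_iff_exp_lt (by linarith)]
      linarith
    have h4 : (w : ℝ) * 8 < p * Real.log p :=
      mul_lt_mul'' h1 h3 (by linarith) (by norm_num)
    linarith
  have hA := hanti r w hr0 hpc _ hx
  -- the classes
  have key := class_gen δ hδ0 hδ1 N w r hsz hr1'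
    (fun h => if 1 / K ≤ pr N h ∧ pr N h ≤ K then (1 : ℝ) else 0)
    (fun h => by
      split_ifs
      · rw [abs_one]
      · rw [abs_zero]; norm_num)
    ((AC w r).filter (fun a => 1 / (2 * K) / c ≤ (nA w a : ℝ) ∧
      (nA w a : ℝ) ≤ 4 * K ^ 2 * (1 / (2 * K) / c))) hA
    (fun a ha => by
      refine le_trans ?_ (hsing w hws N r hr1' hrw h4w hlw a (mem_AC ha).2)
      exact_mod_cast card_le_card (fun h hh => by
        rw [mem_filter] at hh ⊢
        exact ⟨hh.1, fun hcon => hh.2 hcon.1⟩))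
    (fun a ha hna => by
      have hs := hsing w hws N r hr1' hrw h4w hlw a (mem_AC ha).2
      have h1 : ∑ h ∈ (Hc N w a).filter (fun h => Adm h),
          (if 1 / K ≤ pr N h ∧ pr N h ≤ K then (1 : ℝ) else 0) =
          ((((Hc N w a).filter (fun h => Adm h)).filter
            (fun h => 1 / K ≤ pr N h ∧ pr N h ≤ K)).card : ℝ) := by
        rw [← sum_filter, sum_const, nsmul_eq_mul, mul_one]
      rw [h1, abs_of_nonneg (Nat.cast_nonneg _)]
      refine le_trans ?_ hs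
      have h2 : ((Hc N w a).filter (fun h => Adm h)).filter
          (fun h => 1 / K ≤ pr N h ∧ pr N h ≤ K) ⊆
          (Hc N w a).filter (fun h => ¬ (Adm h ∧ |SI h - SZ w a| ≤ δ * SZ w a)) := by
        intro h hh
        rw [mem_filter, mem_filter] at hh
        obtain ⟨⟨hm, hadm⟩, hlo, hhi⟩ := hh
        rw [mem_filter]
        refine ⟨hm, fun hcon => hna ?_⟩
        have hSI := hcon.2
        -- `|pr - lam| ≤ δ lam`
        have e1 : pr N h = SI h * (N / Real.log N ^ r) := by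
          unfold pr
          ring
        have e2 : lam N w a = SZ w a * (N / Real.log N ^ r) := by
          unfold lam
          rw [MM_eq]
          ring
        have hq0 : 0 < (N : ℝ) / Real.log N ^ r := by positivity
        have e3 : |pr N h - lam N w a| ≤ δ * lam N w a := by
          rw [e1, e2, ← sub_mul, abs_mul, abs_of_pos hq0, ← mul_assoc]
          exact mul_le_mul_of_nonneg_right hSI hq0.le
        have e4 : 0 ≤ lam N w a := lam_nonneg N w (by omega) a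
        rw [abs_le] at e3
        obtain ⟨e5, e6⟩ := e3
        have e7 : δ * lam N w a ≤ 1 / 2 * lam N w a := mul_le_mul_of_nonneg_right hδ1 e4
        have e8 : 1 / (2 * K) ≤ lam N w a := by
          have : 1 / (2 * K) = 1 / K / 2 := by field_simp
          rw [this]
          linarith
        have e9 : lam N w a ≤ 2 * K := by linarith
        rw [mem_filter]
        refine ⟨ha, ?_, ?_⟩
        · rw [div_le_iff₀ hc0, mul_comm (nA w a : ℝ) c, ← hlam a]
          exact e8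
        · have e10 : 4 * K ^ 2 * (1 / (2 * K) / c) = 2 * K / c := by
            field_simp
            norm_num
          rw [e10, le_div_iff₀ hc0, mul_comm (nA w a : ℝ) c, ← hlam a]
          exact e9
      exact_mod_cast card_le_card h2)
  have h1 : ∑ h ∈ (Tup r (Icc 1 N)).filter (fun h => Adm h),
      (if 1 / K ≤ pr N h ∧ pr N h ≤ K then (1 : ℝ) else 0) =
      (((Tup r (Icc 1 N)).filter (fun h => Adm h ∧ 1 / K ≤ pr N h ∧ pr N h ≤ K)).card : ℝ) := by
    rw [← sum_filter, sum_const, nsmul_eq_mul, mul_one, filter_filter]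
  rw [h1, abs_of_nonneg (Nat.cast_nonneg _)] at key
  refine key.trans (mul_le_mul_of_nonneg_right ?_ (Nat.cast_nonneg _))
  linarith

end Pool.Agent.Lib.LEN
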