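import Pool.Agent.Lib.LEN.FinW
import Pool.Agent.Lib.LEN.JModel
import Pool.Agent.Lib.LEN.ZWin

/-!
# LEN.FinZ: the prediction decides, with the cutoff exactly one
-/

set_option autoImplicit false

open Finset Filter

namespace Pool.Agent.Lib.LEN

open Pool.Agent.HLB Pool.Agent.HLT Pool.Agent.HLR Pool.Agent.Lib.GMV

namespace FinZAux

lemma ceil_yy : ∃ N0 : ℕ, ∀ N : ℕ, N0 ≤ N → (⌈yy N⌉₊ : ℝ) ≤ Real.log N / 200 := by
  have h1 : Tendsto (fun N : ℕ => Real.log (N : ℝ)) atTop atTop :=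
    Real.tendsto_log_atTop.comp tendsto_natCast_atTop_atTop
  have h2 : Tendsto (fun N : ℕ => Real.log (Real.log (N : ℝ))) atTop atTop :=
    Real.tendsto_log_atTop.comp h1
  obtain ⟨N0, hN0⟩ := eventually_atTop.1 ((h1.eventually_ge_atTop 400).and
    (h2.eventually_ge_atTop 400))
  refine ⟨N0, fun N hN => ?_⟩
  obtain ⟨ha, hb⟩ := hN0 N hN
  have h3 : 0 ≤ yy N := by
    unfold yy
    exact div_nonneg (by linarith) (by linarith)
  have h4 : yy N ≤ Real.log N / 400 := by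
    unfold yy
    exact div_le_div_of_nonneg_left (by linarith) (by norm_num) hb
  have h5 := Nat.ceil_lt_add_one h3
  linarith

end FinZAux

open FinZAux

open scoped Classical in
/-- Almost all admissible tuples of length `r ≤ y / 2` have a large prediction. -/
theorem pr_large (K ε : ℝ) (hK : 1 ≤ K) (hε : 0 < ε) (hε1 : ε ≤ 1) : ∃ N0 : ℕ, ∀ N : ℕ, N0 ≤ N →
    ∀ r : ℕ, (r : ℝ) ≤ 1 / 2 * yy N →
      (((Tup r (Icc 1 N)).filter (fun h => Adm h ∧ ¬ K < pr N h)).card : ℝ) ≤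
      ε * ((Tup r (Icc 1 N)).filter (fun h => Adm h)).card := by
  obtain ⟨δ, hδd⟩ : ∃ δ : ℝ, δ = ε / 8 := ⟨_, rfl⟩
  have hδ : 0 < δ := by rw [hδd]; positivity
  have hδ1 : δ ≤ 1 / 8 := by rw [hδd]; linarith
  obtain ⟨ws, hsing⟩ := sing 2 δ (by norm_num) hδ
  obtain ⟨wz, hsize⟩ := JFinAux.size 2
  obtain ⟨N1, hN1⟩ := ceil_yy
  obtain ⟨N2, hN2⟩ := JFarAux.sizesW 1 one_pos (max ws wz)
  obtain ⟨N3, hN3⟩ := FinKAux.lam_large (1 / 4) (4 * K) (by norm_num) le_rfl (by linarith)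
  refine ⟨max (max N1 N2) (max N3 (⌈K⌉₊ + 1)), ?_⟩
  intro N hN r hr
  have g1 : N1 ≤ N := ((le_max_left _ _).trans (le_max_left _ _)).trans hN
  have g2 : N2 ≤ N := ((le_max_right _ _).trans (le_max_left _ _)).trans hN
  have g4 : N3 ≤ N := ((le_max_left _ _).trans (le_max_right _ _)).trans hN
  have g5 : ⌈K⌉₊ + 1 ≤ N := ((le_max_right _ _).trans (le_max_right _ _)).trans hN
  obtain ⟨g3, hy2, -, hall⟩ := hN2 N g2
  obtain ⟨w, hwd⟩ : ∃ w : ℕ, w = ⌈yy N⌉₊ := ⟨_, rfl⟩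
  have hw : 1 * yy N ≤ w := by rw [hwd, one_mul]; exact Nat.le_ceil _
  have hw2 : (w : ℝ) ≤ Real.log N / 200 := by rw [hwd]; exact hN1 N g1
  obtain ⟨l1, l2, l3⟩ := hall w hw
  have h4N := l2 hw2
  have hNr : (3 : ℝ) ≤ N := by exact_mod_cast g3
  have hN0 : (0 : ℝ) < N := by linarith
  have hlogN : 0 < Real.log N := Real.log_pos (by linarith)
  have hLr : 0 < Real.log N ^ r := by positivity
  have hwr : (r : ℝ) ≤ 2 * w := by linarith
  have hwr' : (r : ℝ) ≤ 4 / 2 * w := by linarith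
  have hsz : 8 * r * PP w ≤ N := hsize w N r ((le_max_right _ _).trans l1) h4N hwr'
  rcases Nat.eq_zero_or_pos r with hr0 | hr1
  · -- `r = 0`
    subst hr0
    have hempty : (Tup 0 (Icc 1 N)).filter (fun h => Adm h ∧ ¬ K < pr N h) = ∅ := by
      rw [filter_eq_empty_iff]
      intro h _ hc
      refine hc.2 ?_
      rw [JUniAux.pr_zero]
      have h1 : ((⌈K⌉₊ + 1 : ℕ) : ℝ) ≤ N := by exact_mod_cast g5
      push_cast at h1
      have h2 := Nat.le_ceil K
      linarith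
    rw [hempty, card_empty]
    push_cast
    positivity
  · -- `r ≥ 1`
    have hgood : ∀ a ∈ AC w r, ∀ h : Fin r → ℕ, |SI h - SZ w a| ≤ δ * SZ w a → K < pr N h := by
      intro a ha h hh
      have hna : 1 ≤ nA w a := (nA_pos w a).2 (JFinAux.mem_AC ha).2
      have hlam : 4 * K ≤ lam N w a := hN3 N w r g4 (by linarith) (by linarith) a hna
      have e1 : lam N w a = SZ w a * N / Real.log N ^ r := by
        unfold lam
        rw [MM_eq]
        ring
      have hab := abs_le.1 hh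
      have h3 : 0 ≤ (N : ℝ) / Real.log N ^ r := by positivity
      have h4 : (1 - δ) * SZ w a ≤ SI h := by linarith
      have h5 : (1 - δ) * lam N w a ≤ pr N h := by
        rw [e1]
        unfold pr
        have h6 := mul_le_mul_of_nonneg_right h4 h3
        calc (1 - δ) * (SZ w a * N / Real.log N ^ r) = (1 - δ) * SZ w a * (N / Real.log N ^ r) := by
              ring
          _ ≤ SI h * (N / Real.log N ^ r) := h6
          _ = SI h * N / Real.log N ^ r := by ring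
      have h7 : 7 / 8 * (4 * K) ≤ (1 - δ) * lam N w a :=
        mul_le_mul (by linarith) hlam (by positivity) (by linarith)
      linarith
    have hbad : ∀ a ∈ AC w r, (((Hc N w a).filter (fun h =>
        ¬ (Adm h ∧ |SI h - SZ w a| ≤ δ * SZ w a))).card : ℝ) ≤ δ * (Hc N w a).card :=
      fun a ha => hsing w ((le_max_left _ _).trans l1) N r hr1 hwr h4N l3 a (JFinAux.mem_AC ha).2
    have hadm : ∀ a ∈ AC w r, (((Hc N w a).filter (fun h => ¬ Adm h)).card : ℝ) ≤
        ε / 8 * (Hc N w a).card := by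
      intro a ha
      rw [← hδd]
      refine le_trans ?_ (hbad a ha)
      have hsub : (Hc N w a).filter (fun h => ¬ Adm h) ⊆ (Hc N w a).filter (fun h =>
        ¬ (Adm h ∧ |SI h - SZ w a| ≤ δ * SZ w a)) := by
        intro h hh
        rw [mem_filter] at hh ⊢
        exact ⟨hh.1, fun hc => hh.2 hc.1⟩
      exact_mod_cast card_le_card hsub
    obtain ⟨R, hRd⟩ : ∃ R : (Fin r → ℕ) → Prop, ∀ h, R h ↔ ¬ K < pr N h := ⟨_, fun _ => Iff.rfl⟩
    have hRf : (Tup r (Icc 1 N)).filter (fun h => Adm h ∧ ¬ K < pr N h) =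
        (Tup r (Icc 1 N)).filter (fun h => Adm h ∧ R h) := by
      refine filter_congr fun h _ => ?_
      rw [hRd]
    rw [hRf]
    exact j_gen ε hε hε1 N w r hsz hr1 hadm ∅
      (by simp only [card_empty, Nat.cast_zero]; positivity) R (by
      intro a ha _
      rw [← hδd]
      refine le_trans (Nat.cast_le.2 (card_le_card fun h hh => ?_)) (hbad a ha)
      rw [mem_filter] at hh ⊢
      exact ⟨hh.1, fun h6 => (hRd h).1 hh.2.2 (hgood a ha h h6.2)⟩)

open scoped Classical in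
/-- For every length almost no admissible tuple has its prediction in `[1 / K, K]`. -/
theorem pr_mid : ∃ c0 : ℝ, 0 < c0 ∧ ∀ K η : ℝ, 1 ≤ K → 0 < η → ∃ N0 : ℕ, ∀ N : ℕ, N0 ≤ N →
    ∀ r : ℕ, (r : ℝ) ≤ (N : ℝ) ^ c0 →
      (((Tup r (Icc 1 N)).filter (fun h => Adm h ∧ 1 / K ≤ pr N h ∧ pr N h ≤ K)).card : ℝ) ≤
      η * ((Tup r (Icc 1 N)).filter (fun h => Adm h)).card := by
  obtain ⟨c2, hc2, hsm⟩ := pr_small
  refine ⟨c2, hc2, fun K η hK hη => ?_⟩
  obtain ⟨N1, hN1⟩ := pr_large K (min η 1) hK (lt_min hη one_pos) (min_le_right _ _)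
  obtain ⟨N2, hN2⟩ := z_win K (1 / 2) η hK (by norm_num) hη
  obtain ⟨N3, hN3⟩ := hsm 1 (2 * K) one_pos (by positivity)
  refine ⟨max N1 (max N2 N3), fun N hN r hr => ?_⟩
  have g1 : N1 ≤ N := (le_max_left _ _).trans hN
  have g2 : N2 ≤ N := ((le_max_left _ _).trans (le_max_right _ _)).trans hN
  have g3 : N3 ≤ N := ((le_max_right _ _).trans (le_max_right _ _)).trans hN
  rcases le_or_gt (r : ℝ) (1 / 2 * yy N) with h1 | h1
  · have h2 := hN1 N g1 r h1
    have h3 := mul_le_mul_of_nonneg_right (min_le_left η 1)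
      (Nat.cast_nonneg (α := ℝ) ((Tup r (Icc 1 N)).filter (fun h => Adm h)).card)
    refine le_trans (Nat.cast_le.2 (card_le_card fun h hh => ?_)) (h2.trans h3)
    rw [mem_filter] at hh ⊢
    exact ⟨hh.1, hh.2.1, not_lt.2 hh.2.2.2⟩
  rcases le_or_gt (r : ℝ) (2 * yy N) with h2 | h2
  · exact hN2 N g2 r h1.le h2
  · have hempty : (Tup r (Icc 1 N)).filter (fun h => Adm h ∧ 1 / K ≤ pr N h ∧ pr N h ≤ K) = ∅ := by
      rw [filter_eq_empty_iff]
      intro h hT hc
      have h3 := hN3 N r g3 (by linarith) hr h hT hc.1.1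
      have h4 : 1 / (2 * K) < 1 / K := one_div_lt_one_div_of_lt (by linarith) (by linarith)
      linarith [hc.2.1]
    rw [hempty, card_empty]
    push_cast
    positivity

/-- The assertions with the constant `K` give the assertions with the constant 1 outside the window. -/
lemma nice_one {ε K : ℝ} (hε : 0 < ε) (hK : 1 ≤ K) {N : ℕ} (hy : 0 ≤ yy N) {r : ℕ}
    {h : Fin r → ℕ} (hp : 0 ≤ pr N h) (H : Nice (ε / 2) K N (WR (ε / 2) N) h)
    (hmid : ¬ (1 / K ≤ pr N h ∧ pr N h ≤ K)) : Nice ε 1 N (WR ε N) h := by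
  classical
  obtain ⟨h1, h2, h3, h4, h5, h6⟩ := H
  have hy1 : (1 - ε) * yy N ≤ (1 - ε / 2) * yy N := mul_le_mul_of_nonneg_right (by linarith) hy
  have hy2 : (1 + ε / 2) * yy N ≤ (1 + ε) * yy N := mul_le_mul_of_nonneg_right (by linarith) hy
  have hy3 : ε / 2 * yy N ≤ ε * yy N := mul_le_mul_of_nonneg_right (by linarith) hy
  have hpε : ε / 2 * pr N h ≤ ε * pr N h := mul_le_mul_of_nonneg_right (by linarith) hp
  have hpε2 : (2 - ε) * pr N h ≤ (2 - ε / 2) * pr N h := mul_le_mul_of_nonneg_right (by linarith) hp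
  have hN : ∀ D : ℕ, ε / 2 * (N : ℝ) ^ D ≤ ε * (N : ℝ) ^ D := fun D =>
    mul_le_mul_of_nonneg_right (by linarith) (by positivity)
  refine ⟨fun hr => (h1 (hr.trans hy1)).trans hpε, fun w hw D hD => ?_, fun hr w hw D hD => ?_,
    fun hr => h4 (hy2.trans hr), fun hk => ?_, fun hk => ?_⟩
  · refine le_trans (Nat.cast_le.2 (card_le_card fun s hs => ?_))
      ((h2 w ⟨hy3.trans hw.1, hw.2⟩ D (hD.trans hy1)).trans (hN D))
    rw [mem_filter] at hs ⊢
    exact ⟨hs.1, lt_of_le_of_lt hpε hs.2⟩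
  · refine le_trans (Nat.cast_le.2 (card_le_card fun s hs => ?_))
      ((h3 (hr.trans hy1) w ⟨hy3.trans hw.1, hw.2⟩ D (hy2.trans hD)).trans (hN D))
    rw [mem_filter] at hs ⊢
    exact ⟨hs.1, lt_of_lt_of_le hs.2 hpε2⟩
  · have h7 : 1 / K ≤ 1 := by
      rw [div_le_one (by linarith)]
      exact hK
    have h8 : K ≤ pr N h := by
      by_contra hcon
      rw [not_le] at hcon
      exact hmid ⟨h7.trans hk, hcon.le⟩
    exact (h5 h8).trans hpε
  · have h8 : pr N h ≤ 1 / K := by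
      by_contra hcon
      rw [not_le] at hcon
      refine hmid ⟨hcon.le, hk.trans ?_⟩
      rw [div_one]
      exact hK
    exact h6 h8

/-- The joint law, and the prediction decides with the cutoff exactly one. -/
theorem every_pattern_one : ∃ c0 : ℝ, 0 < c0 ∧ ∀ ε : ℝ, 0 < ε → ∃ C : ℝ, 0 < C ∧
    (∃ N0 : ℕ, ∀ N : ℕ, N0 ≤ N → RZ C N ∨ ConcW c0 ε 1 N) ∧
    ∀ N0 : ℕ, ∃ N : ℕ, N0 ≤ N ∧ ConcW c0 ε 1 N := by
  classical
  obtain ⟨c1, hc1, hall⟩ := every_pattern_w
  obtain ⟨c2, hc2, hmid⟩ := pr_mid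
  refine ⟨min c1 c2, lt_min hc1 hc2, fun ε hε => ?_⟩
  obtain ⟨K, C, hK, hC, ⟨N0, h1⟩, h2⟩ := hall (ε / 2) (by positivity)
  obtain ⟨M, hM⟩ := hmid K (ε / 2) hK (by positivity)
  have key : ∀ N : ℕ, max 3 M ≤ N → ConcW c1 (ε / 2) K N → ConcW (min c1 c2) ε 1 N := by
    intro N hN hc r hr
    have hN3 : 3 ≤ N := (le_max_left _ _).trans hN
    have hNr : (3 : ℝ) ≤ N := by exact_mod_cast hN3
    have hy : 0 ≤ yy N := by
      have hL1 : 1 ≤ Real.log N := by
        rw [Real.le_log_iff_exp_le (by linarith)]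
        have := Real.exp_one_lt_d9
        linarith
      unfold yy
      exact div_nonneg (by linarith) (Real.log_nonneg hL1)
    have hr1 : (r : ℝ) ≤ (N : ℝ) ^ c1 :=
      hr.trans (Real.rpow_le_rpow_of_exponent_le (by linarith) (min_le_left _ _))
    have hr2 : (r : ℝ) ≤ (N : ℝ) ^ c2 :=
      hr.trans (Real.rpow_le_rpow_of_exponent_le (by linarith) (min_le_right _ _))
    have k1 := hc r hr1
    have k2 := hM N ((le_max_right _ _).trans hN) r hr2
    have hsub : (Tup r (Icc 1 N)).filter (fun h => Adm h ∧ ¬ Nice ε 1 N (WR ε N) h) ⊆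
        (Tup r (Icc 1 N)).filter (fun h => Adm h ∧ ¬ Nice (ε / 2) K N (WR (ε / 2) N) h) ∪
        (Tup r (Icc 1 N)).filter (fun h => Adm h ∧ 1 / K ≤ pr N h ∧ pr N h ≤ K) := by
      intro h hh
      rw [mem_filter] at hh
      obtain ⟨hT, hA, hnot⟩ := hh
      rw [mem_union, mem_filter, mem_filter]
      by_contra hcon
      rw [not_or] at hcon
      obtain ⟨g1, g2⟩ := hcon
      have hp : 0 ≤ pr N h := JFinAux.pr_nonneg N h hA
      refine hnot (nice_one hε hK hy hp ?_ fun hc2 => g2 ⟨hT, hA, hc2⟩)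
      by_contra hcon2
      exact g1 ⟨hT, hA, hcon2⟩
    have k3 : (((Tup r (Icc 1 N)).filter (fun h => Adm h ∧ ¬ Nice ε 1 N (WR ε N) h)).card : ℝ) ≤
        (((Tup r (Icc 1 N)).filter (fun h => Adm h ∧
          ¬ Nice (ε / 2) K N (WR (ε / 2) N) h)).card : ℝ) +
        (((Tup r (Icc 1 N)).filter (fun h => Adm h ∧ 1 / K ≤ pr N h ∧ pr N h ≤ K)).card : ℝ) := by
      exact_mod_cast (card_le_card hsub).trans (card_union_le _ _)
    linarith
  refine ⟨C, hC, ⟨max N0 (max 3 M), fun N hN => ?_⟩, fun N1 => ?_⟩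
  · rcases h1 N ((le_max_left _ _).trans hN) with h3 | h3
    · exact Or.inl h3
    · exact Or.inr (key N ((le_max_right _ _).trans hN) h3)
  · obtain ⟨N, hN, h3⟩ := h2 (max N1 (max 3 M))
    exact ⟨N, (le_max_left _ _).trans hN, key N ((le_max_right _ _).trans hN) h3⟩

end Pool.Agent.Lib.LEN
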