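import Pool.Agent.Lib.SW.Main
import Pool.Agent.Lib.MT.WeightedAux

/-!
# LEN.GPnt: the number of primes in `(n, n + N]`, `n ≤ 2N`, from above
-/

set_option autoImplicit false

open Finset Filter

namespace Pool.Agent.Lib.LEN

open Pool.Agent.Lib.SW Pool.Agent.Lib.MT

namespace GPntAux

/-- The Chebyshev function of a natural number. -/
noncomputable def th (t : ℕ) : ℝ := ∑ p ∈ (Icc 1 t).filter Nat.Prime, Real.log p

lemma th_eq (t : ℕ) : thetaAP (t : ℝ) 1 1 = th t := by
  unfold thetaAP th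
  rw [Nat.floor_natCast]
  refine sum_congr (filter_congr fun p _ => ?_) fun _ _ => rfl
  exact ⟨fun h => h.1, fun h => ⟨h, Nat.modEq_one⟩⟩

lemma th_nonneg (t : ℕ) : 0 ≤ th t :=
  sum_nonneg fun p hp => Real.log_natCast_nonneg p

/-- The prime number theorem. -/
lemma th_bound : ∃ C : ℝ, 0 < C ∧ ∀ t : ℕ, 2 ≤ t → |th t - t| ≤ C * t / Real.log t := by
  obtain ⟨C, hC, h⟩ := siegel_walfisz_theta_nat 1
  refine ⟨C, hC, fun t ht => ?_⟩
  have ht2 : (2 : ℝ) ≤ t := by exact_mod_cast ht
  rcases Nat.lt_or_ge t 3 with h3 | h3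
  · -- `t = 2`
    have ht' : t = 2 := by omega
    subst ht'
    have h1 : th 2 = Real.log 2 := by
      unfold th
      have : (Icc 1 2).filter Nat.Prime = {2} := by decide
      rw [this, sum_singleton]
      norm_num
    have h2 := Real.log_two_lt_d9
    have h3 := Real.log_two_gt_d9
    have h4 := h 4 (by norm_num) 1 1 le_rfl (by
      have h5 : Real.log 4 = 2 * Real.log 2 := by
        rw [show (4 : ℝ) = 2 ^ 2 by norm_num, Real.log_pow]
        norm_num
      rw [pow_one, h5]
      push_cast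
      linarith) (Nat.coprime_one_right 1)
    have h5 : (4 : ℝ) = ((4 : ℕ) : ℝ) := by norm_num
    rw [h5, th_eq] at h4
    have h6 : th 4 = Real.log 6 := by
      unfold th
      have : (Icc 1 4).filter Nat.Prime = {2, 3} := by decide
      rw [this, sum_pair (by norm_num), ← Real.log_mul (by norm_num) (by norm_num)]
      norm_num
    rw [h6] at h4
    have h7 : Real.log 6 ≤ 2 := by
      rw [Real.log_le_iff_le_exp (by norm_num)]
      have h8 := Real.exp_one_gt_d9
      have h9 : Real.exp 2 = Real.exp 1 * Real.exp 1 := by rw [← Real.exp_add]; norm_num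
      rw [h9]
      nlinarith
    have h8 : (2 : ℝ) ≤ C * 4 / Real.log 4 := by
      have h9 := (abs_le.1 h4).1
      have h10 : ((Nat.totient 1 : ℕ) : ℝ) = 1 := by norm_num
      rw [h10, pow_one] at h9
      push_cast at h9
      linarith
    have h9 : Real.log 4 = 2 * Real.log 2 := by
      rw [show (4 : ℝ) = 2 ^ 2 by norm_num, Real.log_pow]
      norm_num
    rw [h1]
    push_cast
    have h10 : C * 4 / Real.log 4 = C * 2 / Real.log 2 := by
      rw [h9]
      have : Real.log 2 ≠ 0 := by linarith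
      field_simp
      norm_num
    rw [h10] at h8
    rw [abs_le]
    constructor <;> linarith
  · have ht3 : (3 : ℝ) ≤ t := by exact_mod_cast h3
    have hl : 1 ≤ Real.log t := by
      rw [Real.le_log_iff_exp_le (by linarith)]
      have := Real.exp_one_lt_d9
      linarith
    have h1 := h t ht2 1 1 le_rfl (by rw [pow_one]; exact_mod_cast hl) (Nat.coprime_one_right 1)
    rw [th_eq, pow_one, Nat.totient_one, Nat.cast_one, div_one] at h1
    exact h1

/-- The primes of `(n, n + N]`. -/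
lemma th_window (n N : ℕ) : ∑ m ∈ (Icc 1 N).filter (fun m => (n + m).Prime), Real.log ((n + m : ℕ) : ℝ) =
    th (n + N) - th n := by
  have h1 : (Icc 1 (n + N)).filter Nat.Prime = (Icc 1 n).filter Nat.Prime ∪
      (Ioc n (n + N)).filter Nat.Prime := by
    ext p
    simp only [mem_filter, mem_union, mem_Icc, mem_Ioc]
    constructor
    · rintro ⟨h, hp⟩
      rcases Nat.lt_or_ge n p with h2 | h2
      · exact Or.inr ⟨⟨h2, h.2⟩, hp⟩
      · exact Or.inl ⟨⟨h.1, h2⟩, hp⟩
    · rintro (⟨h, hp⟩ | ⟨h, hp⟩)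
      · exact ⟨⟨h.1, by omega⟩, hp⟩
      · exact ⟨⟨by omega, h.2⟩, hp⟩
  have h2 : Disjoint ((Icc 1 n).filter Nat.Prime) ((Ioc n (n + N)).filter Nat.Prime) := by
    rw [disjoint_left]
    intro p hp hp'
    rw [mem_filter, mem_Icc] at hp
    rw [mem_filter, mem_Ioc] at hp'
    omega
  unfold th
  rw [h1, sum_union h2, add_sub_cancel_left]
  refine sum_bij (fun m _ => n + m) ?_ ?_ ?_ ?_
  · intro m hm
    rw [mem_filter, mem_Icc] at hm
    rw [mem_filter, mem_Ioc]
    exact ⟨⟨by omega, by omega⟩, hm.2⟩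
  · intro a _ b _ hab
    omega
  · intro p hp
    rw [mem_filter, mem_Ioc] at hp
    refine ⟨p - n, ?_, by omega⟩
    rw [mem_filter, mem_Icc]
    refine ⟨⟨by omega, by omega⟩, ?_⟩
    have : n + (p - n) = p := by omega
    rw [this]
    exact hp.2
  · intro m _
    rfl

end GPntAux

open GPntAux

/-- Module GPnt: the primes of `(n, n + N]`, `n ≤ 2N`. -/
theorem pi_window (δ : ℝ) (hδ : 0 < δ) : ∃ N0 : ℕ, ∀ N : ℕ, N0 ≤ N → ∀ n ∈ Icc 1 (2 * N),
    (((Icc 1 N).filter (fun m => (n + m).Prime)).card : ℝ) ≤ (1 + δ) * N / Real.log N := by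
  obtain ⟨C, hC, hth⟩ := th_bound
  obtain ⟨η, hη⟩ : ∃ η : ℝ, η = min δ 1 / 4 := ⟨_, rfl⟩
  have hη0 : 0 < η := by rw [hη]; positivity
  have hη1 : η ≤ 1 / 4 := by
    rw [hη]
    linarith [min_le_right δ 1]
  have hηδ : 4 * η ≤ δ := by
    rw [hη]
    linarith [min_le_left δ 1]
  obtain ⟨N0, hN0⟩ := eventually_atTop.1 ((Wtd.log_large (28 * C / η)).and
    ((Wtd.log_large (2 * -Real.log (η / 4))).and ((Wtd.log_large 2).and
    (Wtd.log_pow_small 1 (2 / η) η hη0))))
  refine ⟨max N0 ⌈8 / η⌉₊, fun N hN n hn => ?_⟩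
  obtain ⟨g1, g2, g3, g4⟩ := hN0 N ((le_max_left _ _).trans hN)
  have g5 : 8 / η ≤ N := Nat.ceil_le.1 ((le_max_right _ _).trans hN)
  rw [mem_Icc] at hn
  set L := Real.log N with hL
  have hL0 : 0 < L := by linarith
  have hN8 : 8 ≤ η * N := by
    rw [div_le_iff₀ hη0] at g5
    linarith
  have hNpos : (0 : ℝ) < N := by
    by_contra hcon
    rw [not_lt] at hcon
    nlinarith
  have hN32 : (32 : ℝ) ≤ N := by nlinarith
  have hN32' : 32 ≤ N := by exact_mod_cast hN32
  have hn1 : (1 : ℝ) ≤ n := by exact_mod_cast hn.1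
  have hn2 : (n : ℝ) ≤ 2 * N := by exact_mod_cast hn.2
  -- the weighted number
  have h1 : th (n + N) ≤ n + N + 3 * C * N / L := by
    have h2 := (abs_le.1 (hth (n + N) (by omega))).2
    have h3 : C * ((n + N : ℕ) : ℝ) / Real.log ((n + N : ℕ) : ℝ) ≤ 3 * C * N / L := by
      have h4 : L ≤ Real.log ((n + N : ℕ) : ℝ) := by
        rw [hL]
        refine Real.log_le_log hNpos ?_
        push_cast
        linarith
      have h5 : C * ((n + N : ℕ) : ℝ) ≤ 3 * C * N := by
        push_cast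
        nlinarith
      exact div_le_div₀ (by positivity) h5 hL0 h4
    push_cast at h2 h3 ⊢
    linarith
  have h2 : (n : ℝ) - η * N / 4 - 4 * C * N / L ≤ th n := by
    have h0 : 0 ≤ 4 * C * N / L := by positivity
    rcases le_or_gt (n : ℝ) (η / 4 * N) with h3 | h3
    · have := th_nonneg n
      have h4 : η * N / 4 = η / 4 * N := by ring
      linarith
    · have hn2' : 2 ≤ n := by
        have : (2 : ℝ) ≤ n := by linarith
        exact_mod_cast this
      have h4 := (abs_le.1 (hth n hn2')).1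
      have h5 : L / 2 ≤ Real.log n := by
        have h6 : Real.log (η / 4 * N) ≤ Real.log n := Real.log_le_log (by positivity) h3.le
        rw [Real.log_mul (by positivity) (by positivity)] at h6
        linarith
      have h6 : C * n / Real.log n ≤ 4 * C * N / L := by
        have h7 : C * n / Real.log n ≤ C * (2 * N) / (L / 2) :=
          div_le_div₀ (by positivity) (mul_le_mul_of_nonneg_left hn2 hC.le) (by positivity) h5
        refine h7.trans (le_of_eq ?_)
        field_simp
        norm_num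
      have h7 : 0 ≤ η * N / 4 := by positivity
      linarith
  have h3 : th (n + N) - th n ≤ (1 + η / 2) * N := by
    have h4 : 7 * C * N / L ≤ η / 4 * N := by
      rw [div_le_iff₀ hL0]
      have h5 : 28 * C ≤ η * L := by
        rw [div_le_iff₀ hη0] at g1
        linarith
      nlinarith
    have h5 : 7 * C * N / L = 3 * C * N / L + 4 * C * N / L := by ring
    linarith
  -- the two parts
  set S := (Icc 1 N).filter (fun m => (n + m).Prime) with hS
  have hpow : (0 : ℝ) < (N : ℝ) ^ η := by positivity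
  obtain ⟨U, hU⟩ : ∃ U : ℝ, U = (N : ℝ) / (N : ℝ) ^ η := ⟨_, rfl⟩
  have hU0 : 0 < U := by rw [hU]; positivity
  have hlogU : Real.log U = (1 - η) * L := by
    rw [hU, Real.log_div hNpos.ne' hpow.ne', Real.log_rpow hNpos]
    ring
  have h4 : ((S.filter fun m => ((n + m : ℕ) : ℝ) ≤ U).card : ℝ) ≤ U := by
    have h5 : S.filter (fun m => ((n + m : ℕ) : ℝ) ≤ U) ⊆ Icc 1 ⌊U⌋₊ := by
      intro m hm
      rw [mem_filter, hS, mem_filter, mem_Icc] at hm
      rw [mem_Icc]
      refine ⟨hm.1.1.1, Nat.le_floor ?_⟩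
      have := hm.2
      push_cast at this
      linarith
    have h6 := card_le_card h5
    rw [Nat.card_Icc, Nat.add_sub_cancel] at h6
    have h7 : ((S.filter fun m => ((n + m : ℕ) : ℝ) ≤ U).card : ℝ) ≤ ⌊U⌋₊ := by exact_mod_cast h6
    exact h7.trans (Nat.floor_le hU0.le)
  have h5 : (1 - η) * L * ((S.filter fun m => ¬ ((n + m : ℕ) : ℝ) ≤ U).card : ℝ) ≤
      (1 + η / 2) * N := by
    refine le_trans ?_ h3
    rw [← th_window]
    have h6 : ∑ _m ∈ S.filter (fun m => ¬ ((n + m : ℕ) : ℝ) ≤ U), (1 - η) * L ≤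
        ∑ m ∈ S.filter (fun m => ¬ ((n + m : ℕ) : ℝ) ≤ U), Real.log ((n + m : ℕ) : ℝ) := by
      refine sum_le_sum fun m hm => ?_
      rw [← hlogU]
      have := (mem_filter.1 hm).2
      rw [not_le] at this
      exact Real.log_le_log hU0 this.le
    rw [sum_const, nsmul_eq_mul, mul_comm] at h6
    refine h6.trans ?_
    exact sum_le_sum_of_subset_of_nonneg (filter_subset _ _)
      fun m _ _ => Real.log_natCast_nonneg _
  have h6 : (S.card : ℝ) = (S.filter fun m => ((n + m : ℕ) : ℝ) ≤ U).card +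
      (S.filter fun m => ¬ ((n + m : ℕ) : ℝ) ≤ U).card := by
    have := card_filter_add_card_filter_not (s := S) (fun m => ((n + m : ℕ) : ℝ) ≤ U)
    exact_mod_cast this.symm
  have h7 : U ≤ η / 2 * N / L := by
    rw [hU, div_le_div_iff₀ hpow hL0]
    rw [pow_one, div_mul_eq_mul_div, div_le_iff₀ hη0] at g4
    nlinarith
  have h8 : ((S.filter fun m => ¬ ((n + m : ℕ) : ℝ) ≤ U).card : ℝ) ≤
      (1 + 3 * η) * N / L := by
    rw [le_div_iff₀ hL0]
    have h9 : (1 + η / 2) ≤ (1 - η) * (1 + 3 * η) := by nlinarith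
    have h10 : (1 - η) * (((S.filter fun m => ¬ ((n + m : ℕ) : ℝ) ≤ U).card : ℝ) * L) ≤
        (1 - η) * ((1 + 3 * η) * N) := by
      have h11 := mul_le_mul_of_nonneg_right h9 hNpos.le
      calc (1 - η) * (((S.filter fun m => ¬ ((n + m : ℕ) : ℝ) ≤ U).card : ℝ) * L) =
            (1 - η) * L * ((S.filter fun m => ¬ ((n + m : ℕ) : ℝ) ≤ U).card : ℝ) := by ring
        _ ≤ (1 + η / 2) * N := h5
        _ ≤ (1 - η) * (1 + 3 * η) * N := h11
        _ = (1 - η) * ((1 + 3 * η) * N) := by ring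
    exact le_of_mul_le_mul_left h10 (by linarith)
  rw [h6]
  calc ((S.filter fun m => ((n + m : ℕ) : ℝ) ≤ U).card : ℝ) +
        (S.filter fun m => ¬ ((n + m : ℕ) : ℝ) ≤ U).card ≤
        η / 2 * N / L + (1 + 3 * η) * N / L := by linarith
    _ = (1 + 7 / 2 * η) * N / L := by ring
    _ ≤ (1 + δ) * N / L := by
        refine div_le_div_of_nonneg_right (mul_le_mul_of_nonneg_right ?_ hNpos.le) hL0.le
        linarith

end Pool.Agent.Lib.LEN
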