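import Pool.Agent.Lib.LEN.GFarA
import Pool.Agent.Lib.LEN.GPnt

/-!
# LEN.GAll: no prime tuples beyond the threshold, for all `r ≤ N ^ (1 - ε)`

The primes of `(n, n + N]` are fewer by `c N / log² N` than the primes `c0 ± p`, `r < p < c0 = N / 2`: the second order
term of the prime number theorem.
-/

set_option autoImplicit false

open Finset Filter

namespace Pool.Agent.Lib.LEN

open Pool.Agent.HLB Pool.Agent.HLT Pool.Agent.HLR Pool.Agent.Lib.GMV Pool.Agent.Lib.SW Pool.Agent.Lib.MT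

namespace GAllAux

/-- The number of primes in `[a, b)`. -/
def cp (a b : ℕ) : ℕ := ((Ico a b).filter Nat.Prime).card

/-- The sum of `1 / log m` over `[a, b)`. -/
noncomputable def sl (a b : ℕ) : ℝ := ∑ m ∈ Ico a b, 1 / Real.log m

/-- The Chebyshev function. -/
noncomputable def tt (m : ℕ) : ℝ := ∑ p ∈ (range m).filter Nat.Prime, Real.log p

lemma tt_succ (m : ℕ) : tt (m + 1) - tt m = if m.Prime then Real.log m else 0 := by
  unfold tt
  rw [range_add_one, filter_insert]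
  split_ifs with h
  · rw [sum_insert (by simp)]
    ring
  · ring

/-- Summation by parts. -/
lemma abel (f e : ℕ → ℝ) (a b : ℕ) (hab : a ≤ b) :
    ∑ m ∈ Ico a b, f m * (e (m + 1) - e m) =
      f b * e b - f a * e a - ∑ m ∈ Ico a b, (f (m + 1) - f m) * e (m + 1) := by
  induction b, hab using Nat.le_induction with
  | base => simp
  | succ b hb ih =>
    rw [sum_Ico_succ_top hb, sum_Ico_succ_top hb, ih]
    ring

lemma abel_bound (f e : ℕ → ℝ) (K : ℝ) (a b : ℕ) (hab : a ≤ b)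
    (hf : ∀ m, a ≤ m → m < b → f (m + 1) ≤ f m) (hfb : 0 ≤ f b)
    (he : ∀ m, a ≤ m → m ≤ b → |e m| ≤ K) :
    |∑ m ∈ Ico a b, f m * (e (m + 1) - e m)| ≤ 2 * K * f a := by
  rw [abel f e a b hab]
  have hfa : f b ≤ f a := by
    have : ∀ c, a ≤ c → c ≤ b → f c ≤ f a := by
      intro c hac
      induction c, hac using Nat.le_induction with
      | base => intro _; exact le_rfl
      | succ c hc ih => intro h; exact (hf c hc (by omega)).trans (ih (by omega))
    exact this b hab le_rfl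
  have h1 : |∑ m ∈ Ico a b, (f (m + 1) - f m) * e (m + 1)| ≤ K * (f a - f b) := by
    refine (abs_sum_le_sum_abs _ _).trans ?_
    have h2 : ∑ m ∈ Ico a b, |(f (m + 1) - f m) * e (m + 1)| ≤
        ∑ m ∈ Ico a b, K * (f m - f (m + 1)) := by
      refine sum_le_sum fun m hm => ?_
      rw [mem_Ico] at hm
      have h3 := hf m hm.1 hm.2
      rw [abs_mul, abs_sub_comm, abs_of_nonneg (by linarith), mul_comm]
      exact mul_le_mul_of_nonneg_right (he _ (by omega) (by omega)) (by linarith)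
    refine h2.trans (le_of_eq ?_)
    rw [← mul_sum]
    congr 1
    have h3 := sum_Ico_sub f hab
    have h4 : ∑ m ∈ Ico a b, (f m - f (m + 1)) = - ∑ m ∈ Ico a b, (f (m + 1) - f m) := by
      rw [← sum_neg_distrib]
      exact sum_congr rfl fun _ _ => by ring
    rw [h4, h3]
    ring
  have h2 : |f b * e b| ≤ K * f b := by
    rw [abs_mul, abs_of_nonneg hfb, mul_comm]
    exact mul_le_mul_of_nonneg_right (he b hab le_rfl) hfb
  have h3 : |f a * e a| ≤ K * f a := by
    rw [abs_mul, abs_of_nonneg (hfb.trans hfa), mul_comm]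
    exact mul_le_mul_of_nonneg_right (he a le_rfl hab) (hfb.trans hfa)
  rw [abs_le] at h1 h2 h3 ⊢
  constructor <;> linarith [h1.1, h1.2, h2.1, h2.2, h3.1, h3.2]

/-- The primes against `1 / log`. -/
lemma cp_sub_sl (K : ℝ) (a b : ℕ) (ha : 2 ≤ a) (hab : a ≤ b)
    (he : ∀ m, a ≤ m → m ≤ b → |tt m - m| ≤ K) :
    |(cp a b : ℝ) - sl a b| ≤ 2 * K * (1 / Real.log a) := by
  have h1 : (cp a b : ℝ) - sl a b =
      ∑ m ∈ Ico a b, (1 / Real.log m) * ((tt (m + 1) - ((m + 1 : ℕ) : ℝ)) - (tt m - (m : ℝ))) := by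
    unfold cp sl
    rw [card_filter, Nat.cast_sum, ← sum_sub_distrib]
    refine sum_congr rfl fun m hm => ?_
    rw [mem_Ico] at hm
    have h2 : 0 < Real.log (m : ℝ) := Real.log_pos (by exact_mod_cast (by omega : 1 < m))
    have h3 : (tt (m + 1) - ((m + 1 : ℕ) : ℝ)) - (tt m - (m : ℝ)) = (tt (m + 1) - tt m) - 1 := by
      push_cast
      ring
    rw [h3, tt_succ]
    split_ifs with h
    · push_cast
      rw [mul_sub, one_div_mul_cancel h2.ne', mul_one]
    · push_cast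
      ring
  rw [h1]
  refine abel_bound (fun m => 1 / Real.log m) (fun m => tt m - (m : ℝ)) K a b hab ?_ ?_ he
  · intro m hm _
    have h2 : 0 < Real.log (m : ℝ) := Real.log_pos (by exact_mod_cast (by omega : 1 < m))
    refine one_div_le_one_div_of_le h2 (Real.log_le_log (by exact_mod_cast (by omega : 0 < m)) ?_)
    push_cast
    linarith
  · exact one_div_nonneg.2 (Real.log_natCast_nonneg b)

/-- The prime number theorem. -/
lemma tt_bound : ∃ C : ℝ, 0 < C ∧ ∀ m : ℕ, 4 ≤ m →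
    |tt m - m| ≤ C * m / Real.log ((m - 1 : ℕ) : ℝ) ^ 2 + 1 := by
  obtain ⟨C, hC, h⟩ := siegel_walfisz_theta_nat 2
  refine ⟨C, hC, fun m hm => ?_⟩
  obtain ⟨k, rfl⟩ : ∃ k, m = k + 1 := ⟨m - 1, by omega⟩
  rw [Nat.add_sub_cancel]
  have hk3 : (3 : ℝ) ≤ k := by exact_mod_cast (by omega : 3 ≤ k)
  have hl : 1 ≤ Real.log k := by
    rw [Real.le_log_iff_exp_le (by linarith)]
    have := Real.exp_one_lt_d9
    linarith
  have h1 := h k (by linarith) 1 1 le_rfl (by
    push_cast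
    nlinarith) (Nat.coprime_one_right 1)
  have h2 : Pool.Agent.Lib.SW.thetaAP (k : ℝ) 1 1 = tt (k + 1) := by
    rw [GPntAux.th_eq]
    unfold GPntAux.th tt
    refine sum_congr ?_ fun _ _ => rfl
    ext p
    simp only [mem_filter, mem_Icc, mem_range]
    constructor
    · rintro ⟨h, hp⟩
      exact ⟨by omega, hp⟩
    · rintro ⟨h, hp⟩
      exact ⟨⟨hp.one_lt.le, by omega⟩, hp⟩
  rw [h2, Nat.totient_one, Nat.cast_one, div_one] at h1
  have h3 : C * k / Real.log k ^ 2 ≤ C * ((k + 1 : ℕ) : ℝ) / Real.log k ^ 2 := by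
    have : 0 < Real.log (k : ℝ) := by linarith
    gcongr
    linarith
  push_cast at h3 ⊢
  rw [abs_le] at h1 ⊢
  constructor <;> linarith [h1.1, h1.2]

/-- The primes against `1 / log`, up to `η N / log² N`. -/
lemma cp_near (η : ℝ) (hη : 0 < η) : ∃ N0 : ℕ, ∀ N : ℕ, N0 ≤ N → ∀ a b : ℕ,
    Real.sqrt N + 1 ≤ a → a ≤ b → b ≤ 4 * N →
    |(cp a b : ℝ) - sl a b| ≤ η * (N / Real.log N ^ 2) := by
  obtain ⟨C, hC, hth⟩ := tt_bound
  obtain ⟨N0, hN0⟩ := eventually_atTop.1 ((Wtd.log_large (128 * C / η)).and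
    ((Wtd.log_large 2).and (Wtd.log_pow_small 1 (8 / η) 1 one_pos)))
  refine ⟨max N0 16, fun N hN a b ha hab hb => ?_⟩
  obtain ⟨g1, g2, g3⟩ := hN0 N ((le_max_left _ _).trans hN)
  have hN16 : 16 ≤ N := (le_max_right _ _).trans hN
  have hNR : (16 : ℝ) ≤ N := by exact_mod_cast hN16
  rw [pow_one, Real.rpow_one] at g3
  set L := Real.log N with hL
  have hL0 : 0 < L := by linarith
  have hs4 : (4 : ℝ) ≤ Real.sqrt N := by
    rw [Real.le_sqrt' (by norm_num)]
    linarith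
  have hN0' : (0 : ℝ) ≤ N := Nat.cast_nonneg N
  have hlogs : Real.log (Real.sqrt N) = L / 2 := Real.log_sqrt hN0'
  have ha5 : (5 : ℝ) ≤ a := by linarith
  have ha5' : 5 ≤ a := by exact_mod_cast ha5
  have hK : ∀ m, a ≤ m → m ≤ b → |tt m - m| ≤ η / 4 * N / L := by
    intro m hm1 hm2
    refine (hth m (by omega)).trans ?_
    have h1 : L / 2 ≤ Real.log ((m - 1 : ℕ) : ℝ) := by
      rw [← hlogs]
      refine Real.log_le_log (by linarith) ?_
      rw [Nat.cast_sub (by omega)]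
      have : (a : ℝ) ≤ m := by exact_mod_cast hm1
      push_cast
      linarith
    have h2 : (L / 2) ^ 2 ≤ Real.log ((m - 1 : ℕ) : ℝ) ^ 2 := by
      gcongr
    have h3 : (m : ℝ) ≤ 4 * N := by exact_mod_cast hm2.trans hb
    have h4 : C * m / Real.log ((m - 1 : ℕ) : ℝ) ^ 2 ≤ C * (4 * N) / (L / 2) ^ 2 := by
      gcongr
    have h5 : C * (4 * N) / (L / 2) ^ 2 ≤ η / 8 * N / L := by
      rw [div_le_iff₀ hη] at g1
      rw [div_le_div_iff₀ (by positivity) hL0]
      have h6 : 0 ≤ (N : ℝ) * L := by positivity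
      have h7 := mul_le_mul_of_nonneg_left g1 h6
      nlinarith
    have h6 : (1 : ℝ) ≤ η / 8 * N / L := by
      rw [le_div_iff₀ hL0]
      rw [div_mul_eq_mul_div, div_le_iff₀ hη] at g3
      linarith
    have h7 : η / 4 * N / L = η / 8 * N / L + η / 8 * N / L := by ring
    rw [h7]
    linarith
  have h1 := cp_sub_sl (η / 4 * N / L) a b (by omega) hab hK
  refine h1.trans ?_
  have h2 : L / 2 ≤ Real.log a := by
    rw [← hlogs]
    exact Real.log_le_log (by linarith) (by linarith)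
  calc 2 * (η / 4 * N / L) * (1 / Real.log a) ≤ 2 * (η / 4 * N / L) * (1 / (L / 2)) := by
        gcongr
    _ = η * (N / L ^ 2) := by
        field_simp
        ring

lemma sl_split (a b c : ℕ) (hab : a ≤ b) (hbc : b ≤ c) : sl a c = sl a b + sl b c := by
  unfold sl
  exact (sum_Ico_consecutive _ hab hbc).symm

lemma sl_le (a b : ℕ) (ha : 2 ≤ a) (hab : a ≤ b) : sl a b ≤ ((b : ℝ) - a) / Real.log a := by
  unfold sl
  have h0 : 0 < Real.log (a : ℝ) := Real.log_pos (by exact_mod_cast (by omega : 1 < a))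
  have h1 : ∑ m ∈ Ico a b, 1 / Real.log (m : ℝ) ≤ ∑ m ∈ Ico a b, 1 / Real.log (a : ℝ) := by
    refine sum_le_sum fun m hm => ?_
    rw [mem_Ico] at hm
    refine one_div_le_one_div_of_le h0 (Real.log_le_log ?_ ?_)
    · exact_mod_cast (by omega : 0 < a)
    · exact_mod_cast hm.1
  refine h1.trans (le_of_eq ?_)
  rw [sum_const, Nat.card_Ico, nsmul_eq_mul, Nat.cast_sub hab]
  ring

lemma le_sl (a b : ℕ) (ha : 2 ≤ a) (hab : a ≤ b) : ((b : ℝ) - a) / Real.log b ≤ sl a b := by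
  unfold sl
  have h1 : ∑ m ∈ Ico a b, 1 / Real.log (b : ℝ) ≤ ∑ m ∈ Ico a b, 1 / Real.log (m : ℝ) := by
    refine sum_le_sum fun m hm => ?_
    rw [mem_Ico] at hm
    have h0 : 0 < Real.log (m : ℝ) := Real.log_pos (by exact_mod_cast (by omega : 1 < m))
    refine one_div_le_one_div_of_le h0 (Real.log_le_log ?_ ?_)
    · exact_mod_cast (by omega : 0 < m)
    · exact_mod_cast hm.2.le
  refine le_trans (le_of_eq ?_) h1
  rw [sum_const, Nat.card_Ico, nsmul_eq_mul, Nat.cast_sub hab]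
  ring

/-- The sum over a window decreases. -/
lemma sl_window (s a b N : ℕ) (hs : 2 ≤ s) (hsa : s ≤ a) (hb : b ≤ a + N) :
    sl a b ≤ sl s (s + N) := by
  have h1 : sl a b ≤ sl a (a + N) := by
    unfold sl
    refine sum_le_sum_of_subset_of_nonneg (Ico_subset_Ico le_rfl hb) fun m _ _ => ?_
    exact one_div_nonneg.2 (Real.log_natCast_nonneg m)
  refine h1.trans ?_
  unfold sl
  rw [sum_Ico_eq_sum_range, sum_Ico_eq_sum_range, Nat.add_sub_cancel_left, Nat.add_sub_cancel_left]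
  refine sum_le_sum fun j _ => ?_
  have h0 : 0 < Real.log ((s + j : ℕ) : ℝ) := Real.log_pos (by exact_mod_cast (by omega : 1 < s + j))
  refine one_div_le_one_div_of_le h0 (Real.log_le_log ?_ ?_)
  · exact_mod_cast (by omega : 0 < s + j)
  · exact_mod_cast (by omega : s + j ≤ a + j)

/-- Two halves against the whole. -/
lemma two_halves (N s : ℕ) (hs : 2 ≤ s) (hsN : s ≤ N / 4) :
    ((N / 4 : ℕ) : ℝ) * Real.log 2 / Real.log N ^ 2 - 2 * s / Real.log 2 ≤
      2 * sl s ((N + 1) / 2) - sl s (s + N) := by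
  set Q := N / 4 with hQ
  set H := (N + 1) / 2 with hH
  have hQ2 : 2 ≤ Q := by omega
  have hQH : 2 * Q ≤ H := by omega
  have hHN : H ≤ N := by omega
  have hQR : (2 : ℝ) ≤ Q := by exact_mod_cast hQ2
  have hQHR : 2 * (Q : ℝ) ≤ H := by exact_mod_cast hQH
  have hHNR : (H : ℝ) ≤ N := by exact_mod_cast hHN
  have h2H : (N : ℝ) ≤ 2 * H := by exact_mod_cast (by omega : N ≤ 2 * H)
  have hs0 : (0 : ℝ) ≤ s := Nat.cast_nonneg s
  have h1 := sl_split s Q H hsN (by omega)
  have h2 := sl_split s H (s + N) (by omega) (by omega)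
  have h3 := le_sl s Q hs hsN
  have h4 := le_sl Q H hQ2 (by omega)
  have h5 := sl_le H (s + N) (by omega) (by omega)
  have l2 : 0 < Real.log 2 := Real.log_pos (by norm_num)
  have lQ : Real.log 2 ≤ Real.log Q := Real.log_le_log (by norm_num) hQR
  have lQ0 : 0 < Real.log (Q : ℝ) := by linarith
  have lH : Real.log 2 + Real.log Q ≤ Real.log H := by
    rw [← Real.log_mul (by norm_num) (by linarith)]
    exact Real.log_le_log (by linarith) hQHR
  have lH0 : 0 < Real.log (H : ℝ) := by linarith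
  have lHN : Real.log (H : ℝ) ≤ Real.log N := Real.log_le_log (by linarith) hHNR
  have h6 : (Q : ℝ) * Real.log 2 / Real.log N ^ 2 ≤ Q / Real.log Q - Q / Real.log H := by
    have h7 : (Q : ℝ) / Real.log Q - Q / Real.log H =
        Q * (Real.log H - Real.log Q) / (Real.log Q * Real.log H) := by
      field_simp
    rw [h7]
    refine div_le_div₀ ?_ ?_ (by positivity) ?_
    · exact mul_nonneg (by linarith) (by linarith)
    · exact mul_le_mul_of_nonneg_left (by linarith) (by linarith)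
    · rw [pow_two]
      exact mul_le_mul (by linarith) lHN lH0.le (by linarith)
  have h8 : (s : ℝ) / Real.log Q ≤ s / Real.log 2 := by
    gcongr
  have h9 : (s : ℝ) / Real.log H ≤ s / Real.log 2 := by
    refine div_le_div_of_nonneg_left hs0 l2 (by linarith)
  have h10 : ((Q : ℝ) - s) / Real.log Q = Q / Real.log Q - s / Real.log Q := by ring
  have h11 : ((H : ℝ) - Q) / Real.log H = H / Real.log H - Q / Real.log H := by ring
  have h12 : (((s + N : ℕ) : ℝ) - H) / Real.log H ≤ H / Real.log H + s / Real.log H := by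
    rw [← add_div]
    refine div_le_div_of_nonneg_right ?_ lH0.le
    push_cast
    linarith
  have h13 : 2 * (s : ℝ) / Real.log 2 = s / Real.log 2 + s / Real.log 2 := by ring
  rw [h13, h2, h1]
  rw [h10] at h3
  rw [h11] at h4
  linarith

lemma cp_window (N s n : ℕ) : cp (n + 1) (n + N + 1) ≤ s + cp (max (n + 1) s) (n + N + 1) := by
  unfold cp
  have h1 : (Ico (n + 1) (n + N + 1)).filter Nat.Prime ⊆
      range s ∪ (Ico (max (n + 1) s) (n + N + 1)).filter Nat.Prime := by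
    intro p hp
    rw [mem_filter, mem_Ico] at hp
    rw [mem_union, mem_range, mem_filter, mem_Ico]
    rcases Nat.lt_or_ge p s with h | h
    · exact Or.inl h
    · exact Or.inr ⟨⟨max_le hp.1.1 h, hp.1.2⟩, hp.2⟩
  have h2 := (card_le_card h1).trans (card_union_le _ _)
  rwa [card_range] at h2

lemma cp_cut (s r H : ℕ) : cp s H ≤ cp (r + 1) H + (r + 1) := by
  unfold cp
  have h1 : (Ico s H).filter Nat.Prime ⊆ (Ico (r + 1) H).filter Nat.Prime ∪ range (r + 1) := by
    intro p hp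
    rw [mem_filter, mem_Ico] at hp
    rw [mem_union, mem_range, mem_filter, mem_Ico]
    rcases Nat.lt_or_ge p (r + 1) with h | h
    · exact Or.inr h
    · exact Or.inl ⟨⟨h, hp.1.2⟩, hp.2⟩
  have h2 := (card_le_card h1).trans (card_union_le _ _)
  rwa [card_range] at h2

lemma window_card (n N : ℕ) : ((Icc 1 N).filter (fun m => (n + m).Prime)).card =
    cp (n + 1) (n + N + 1) := by
  unfold cp
  refine card_bij (fun m _ => n + m) ?_ ?_ ?_
  · intro m hm
    rw [mem_filter, mem_Icc] at hm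
    rw [mem_filter, mem_Ico]
    exact ⟨⟨by omega, by omega⟩, hm.2⟩
  · intro a _ b _ hab
    omega
  · intro p hp
    rw [mem_filter, mem_Ico] at hp
    refine ⟨p - n, ?_, by omega⟩
    rw [mem_filter, mem_Icc]
    refine ⟨⟨by omega, by omega⟩, ?_⟩
    have : n + (p - n) = p := by omega
    rw [this]
    exact hp.2

/-- The set `c0 ± p`. -/
def BB (r c0 : ℕ) : Finset ℕ :=
  ((Ico (r + 1) c0).filter Nat.Prime).image (fun p => c0 + p) ∪
    ((Ico (r + 1) c0).filter Nat.Prime).image (fun p => c0 - p)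

lemma BB_card (r c0 : ℕ) : (BB r c0).card = 2 * cp (r + 1) c0 := by
  unfold BB cp
  rw [card_union_of_disjoint, card_image_of_injOn, card_image_of_injOn]
  · ring
  · intro p hp q hq hpq
    rw [mem_coe, mem_filter, mem_Ico] at hp hq
    simp only at hpq
    omega
  · intro p _ q _ hpq
    simp only at hpq
    omega
  · rw [disjoint_left]
    intro x hx hx'
    rw [mem_image] at hx hx'
    obtain ⟨p, hp, rfl⟩ := hx
    obtain ⟨q, hq, h⟩ := hx'
    rw [mem_filter, mem_Ico] at hp hq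
    omega

lemma BB_sub (r N : ℕ) : BB r ((N + 1) / 2) ⊆ Icc 1 N := by
  intro x hx
  unfold BB at hx
  rw [mem_union, mem_image, mem_image] at hx
  rw [mem_Icc]
  rcases hx with ⟨p, hp, rfl⟩ | ⟨p, hp, rfl⟩
  · rw [mem_filter, mem_Ico] at hp
    omega
  · rw [mem_filter, mem_Ico] at hp
    omega

lemma BB_miss (r c0 : ℕ) (q : ℕ) (hq : q.Prime) (hqr : q ≤ r) :
    ∃ c : ℕ, ∀ b ∈ BB r c0, ¬ b ≡ c [MOD q] := by
  refine ⟨c0, fun b hb hcon => ?_⟩
  unfold BB at hb
  rw [mem_union, mem_image, mem_image] at hb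
  have hnd : ∀ p, p ∈ (Ico (r + 1) c0).filter Nat.Prime → ¬ q ∣ p := by
    intro p hp hdvd
    rw [mem_filter, mem_Ico] at hp
    have := (Nat.prime_dvd_prime_iff_eq hq hp.2).1 hdvd
    omega
  rcases hb with ⟨p, hp, rfl⟩ | ⟨p, hp, rfl⟩
  · refine hnd p hp ?_
    have h1 : c0 + p ≡ c0 + 0 [MOD q] := by simpa using hcon
    exact (Nat.modEq_zero_iff_dvd).1 (Nat.ModEq.add_left_cancel' c0 h1)
  · refine hnd p hp ?_
    have hpc : p ≤ c0 := by
      rw [mem_filter, mem_Ico] at hp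
      omega
    have h1 := (Nat.modEq_iff_dvd' (Nat.sub_le c0 p)).1 hcon
    have h2 : c0 - (c0 - p) = p := by omega
    rwa [h2] at h1

/-- The primes of the windows against the set `c0 ± p`. -/
lemma window_gap (ε : ℝ) (hε : 0 < ε) : ∃ N0 : ℕ, ∀ N : ℕ, N0 ≤ N → ∀ r : ℕ,
    (r : ℝ) ≤ (N : ℝ) ^ (1 - ε) → ∀ n ∈ Icc 1 (2 * N),
    (((Icc 1 N).filter (fun m => (n + m).Prime)).card : ℝ) ≤
      (BB r ((N + 1) / 2)).card - r - (1 / 32) * (N / Real.log N ^ 2) := by
  obtain ⟨N0, h0⟩ := cp_near (1 / 128) (by norm_num)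
  obtain ⟨N1, hN1⟩ := eventually_atTop.1 ((Wtd.log_large 2).and
    ((Wtd.log_pow_small 2 1024 (1 / 2) (by norm_num)).and ((Wtd.log_pow_small 2 1024 ε hε).and
    (Wtd.log_pow_small 2 1024 1 one_pos))))
  refine ⟨max (max N0 N1) 1000, fun N hN r hr n hn => ?_⟩
  have hN0 : N0 ≤ N := (le_max_left _ _).trans ((le_max_left _ _).trans hN)
  obtain ⟨g1, g2, g3, g4⟩ := hN1 N ((le_max_right _ _).trans ((le_max_left _ _).trans hN))
  have hN3 : 1000 ≤ N := (le_max_right _ _).trans hN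
  have h0 := h0 N hN0
  have hNR : (1000 : ℝ) ≤ N := by exact_mod_cast hN3
  have hNpos : (0 : ℝ) < N := by linarith
  rw [mem_Icc] at hn
  rw [Real.rpow_one] at g4
  set L := Real.log N with hL
  have hL0 : 0 < L := by linarith
  set U : ℝ := N / L ^ 2 with hU
  have hU0 : 0 < U := by positivity
  -- the small quantities
  have hsq : Real.sqrt N ≤ U / 1024 := by
    have h1 : Real.sqrt N * Real.sqrt N = N := Real.mul_self_sqrt hNpos.le
    rw [← Real.sqrt_eq_rpow] at g2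
    rw [hU, div_div, le_div_iff₀ (by positivity)]
    have h2 : 0 ≤ Real.sqrt N := Real.sqrt_nonneg _
    nlinarith
  have hrU : (r : ℝ) ≤ U / 1024 := by
    refine hr.trans ?_
    have h1 : (N : ℝ) ^ (1 - ε) * (N : ℝ) ^ ε = N := by
      rw [← Real.rpow_add hNpos, sub_add_cancel, Real.rpow_one]
    have h2 : 0 < (N : ℝ) ^ (1 - ε) := by positivity
    rw [hU, div_div, le_div_iff₀ (by positivity)]
    nlinarith
  have hU1 : 1 ≤ U / 1024 := by
    rw [hU, div_div, le_div_iff₀ (by positivity)]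
    linarith
  -- the cut
  obtain ⟨s, hs⟩ : ∃ s : ℕ, s = ⌈Real.sqrt N⌉₊ + 1 := ⟨_, rfl⟩
  have hs1 : Real.sqrt N + 1 ≤ s := by
    rw [hs]
    push_cast
    linarith [Nat.le_ceil (Real.sqrt N)]
  have hs2 : (s : ℝ) ≤ Real.sqrt N + 2 := by
    rw [hs]
    push_cast
    linarith [Nat.ceil_lt_add_one (Real.sqrt_nonneg (N : ℝ))]
  have hs3 : 2 ≤ s := by
    have : 1 ≤ ⌈Real.sqrt N⌉₊ := Nat.one_le_iff_ne_zero.2 (by
      rw [Ne, Nat.ceil_eq_zero, not_le]
      exact Real.sqrt_pos.2 hNpos)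
    omega
  have hsU : (s : ℝ) ≤ 3 * (U / 1024) := by linarith
  have hs4 : s ≤ N / 4 := by
    have h1 : Real.sqrt N ≤ N / 31 := by
      rw [Real.sqrt_le_left (by positivity)]
      nlinarith
    have h2 : (s : ℝ) ≤ N / 8 := by linarith
    have h3 : 8 * s ≤ N := by
      have : (8 : ℝ) * s ≤ N := by linarith
      exact_mod_cast this
    omega
  -- the window
  have hw := cp_window N s n
  obtain ⟨a, ha⟩ : ∃ a, a = max (n + 1) s := ⟨_, rfl⟩
  rw [← ha] at hw
  have ha1 : s ≤ a := ha ▸ le_max_right _ _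
  have ha2 : n + 1 ≤ a := ha ▸ le_max_left _ _
  have ha3 : a ≤ n + N + 1 := by
    rw [ha]
    exact max_le (by omega) (by omega)
  have h1 := h0 a (n + N + 1) (hs1.trans (by exact_mod_cast ha1)) ha3 (by omega)
  have h2 := sl_window s a (n + N + 1) N hs3 ha1 (by omega)
  have h3 := h0 s ((N + 1) / 2) hs1 (by omega) (by omega)
  have h4 := two_halves N s hs3 hs4
  have h5 := cp_cut s r ((N + 1) / 2)
  have h6 : ((cp (n + 1) (n + N + 1) : ℕ) : ℝ) ≤ s + cp a (n + N + 1) := by exact_mod_cast hw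
  have h7 : ((cp s ((N + 1) / 2) : ℕ) : ℝ) ≤ cp (r + 1) ((N + 1) / 2) + (r + 1) := by
    exact_mod_cast h5
  rw [window_card, BB_card]
  push_cast
  have l2 : (0.69 : ℝ) < Real.log 2 := by
    have := Real.log_two_gt_d9
    linarith
  have h8 : 2 * (s : ℝ) / Real.log 2 ≤ 3 * s := by
    rw [div_le_iff₀ (by linarith)]
    have : (0 : ℝ) ≤ s := Nat.cast_nonneg s
    nlinarith
  have h9 : U / 8 ≤ ((N / 4 : ℕ) : ℝ) * Real.log 2 / L ^ 2 := by
    have h10 : (N : ℝ) / 5 ≤ ((N / 4 : ℕ) : ℝ) := by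
      have : (N : ℝ) ≤ 4 * ((N / 4 : ℕ) : ℝ) + 3 := by exact_mod_cast (by omega : N ≤ 4 * (N / 4) + 3)
      linarith
    have h11 : (N : ℝ) / 8 ≤ ((N / 4 : ℕ) : ℝ) * Real.log 2 := by nlinarith
    calc U / 8 = (N / 8) / L ^ 2 := by rw [hU]; ring
      _ ≤ _ := by gcongr
  have h1 := (abs_le.1 h1).2
  have h3 := (abs_le.1 h3).1
  linarith

end GAllAux

open GAllAux

/-- `2 N exp (- c N ^ c' / log² N)` tends to `0`. -/
lemma decay_log (c η ε : ℝ) (hc : 0 < c) (hη : 0 < η) (hε : 0 < ε) :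
    ∀ᶠ N : ℕ in atTop, ∀ r : ℕ, (N : ℝ) ^ c ≤ r →
      2 * (N : ℝ) * Real.exp (- (η / Real.log N ^ 2 * r)) ≤ ε := by
  have h1 := Wtd.log_pow_small 3 (2 / η) c hc
  filter_upwards [h1, Wtd.log_large 1, eventually_ge_atTop ⌈2 / ε⌉₊] with N hN h2 h3 r hr
  have h3' : 2 / ε ≤ N := Nat.ceil_le.1 h3
  have hL0 : 0 < Real.log (N : ℝ) := by linarith
  have hN0 : (0 : ℝ) < N := by
    by_contra hcon
    rw [not_lt] at hcon
    have : (N : ℝ) = 0 := le_antisymm hcon (Nat.cast_nonneg N)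
    rw [this, Real.log_zero] at hL0
    exact lt_irrefl _ hL0
  have h4 : 2 * Real.log N ≤ η / Real.log N ^ 2 * r := by
    have h5 := hN.trans hr
    rw [div_mul_eq_mul_div, div_le_iff₀ hη] at h5
    rw [div_mul_eq_mul_div, le_div_iff₀ (by positivity)]
    nlinarith
  have h5 : Real.exp (- (η / Real.log N ^ 2 * r)) ≤ 1 / (N : ℝ) ^ 2 := by
    have h6 : Real.exp (- (η / Real.log N ^ 2 * r)) ≤ Real.exp (-(2 * Real.log N)) :=
      Real.exp_le_exp.2 (by linarith)
    refine h6.trans (le_of_eq ?_)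
    rw [Real.exp_neg, mul_comm, Real.exp_mul, Real.exp_log hN0, one_div]
    norm_num
  calc 2 * (N : ℝ) * Real.exp (- (η / Real.log N ^ 2 * r)) ≤ 2 * N * (1 / (N : ℝ) ^ 2) := by
        gcongr
    _ = 2 / N := by
        field_simp
    _ ≤ ε := by
        rw [div_le_iff₀ hN0]
        rw [div_le_iff₀ hε] at h3'
        linarith

open scoped Classical in
/-- Module GAll: almost no admissible tuple of length `r ∈ [N ^ c, N ^ (1 - ε)]` has a place of primes. -/
theorem far_all (c ε : ℝ) (hc : 0 < c) (hε : 0 < ε) : ∃ N0 : ℕ, ∀ N : ℕ, N0 ≤ N → ∀ r : ℕ,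
    (N : ℝ) ^ c ≤ r → (r : ℝ) ≤ (N : ℝ) ^ (1 - ε) →
    (((Tup r (Icc 1 N)).filter (fun h => Adm h ∧
      ∃ n ∈ Icc 1 (2 * N), ∀ i, (n + h i).Prime)).card : ℝ) ≤
    ε * ((Tup r (Icc 1 N)).filter (fun h => Adm h)).card := by
  obtain ⟨N1, h1⟩ := window_gap ε hε
  obtain ⟨N2, h2⟩ := eventually_atTop.1 ((decay_log c (1 / 32) ε hc (by norm_num) hε).and
    (Wtd.log_large 1))
  refine ⟨max (max N1 N2) 3, fun N hN r hr1 hr2 => ?_⟩
  have hN1 : N1 ≤ N := (le_max_left _ _).trans ((le_max_left _ _).trans hN)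
  obtain ⟨g1, g2⟩ := h2 N ((le_max_right _ _).trans ((le_max_left _ _).trans hN))
  have hN3 : 3 ≤ N := (le_max_right _ _).trans hN
  have g1 := g1 r hr1
  have hNpos : (0 : ℝ) < N := by exact_mod_cast (by omega : 0 < N)
  set L := Real.log N with hL
  have hL0 : 0 < L := by linarith
  have hgap := h1 N hN1 r hr2
  obtain ⟨B, hB⟩ : ∃ B, B = BB r ((N + 1) / 2) := ⟨_, rfl⟩
  have hBN : B ⊆ Icc 1 N := hB ▸ BB_sub r N
  have hadm := adm_lower N r B hBN fun p hp hpr => hB ▸ BB_miss r ((N + 1) / 2) p hp hpr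
  rw [← hB] at hgap
  set Y : ℝ := (B.card : ℝ) - r with hY
  set W : ℝ := Y - 1 / 32 * (N / L ^ 2) with hW
  have hYN : Y ≤ N := by
    have h3 := card_le_card hBN
    rw [Nat.card_Icc, Nat.add_sub_cancel] at h3
    have h4 : (B.card : ℝ) ≤ N := by exact_mod_cast h3
    have h5 : (0 : ℝ) ≤ r := Nat.cast_nonneg r
    linarith
  have hW0 : 0 ≤ W := by
    have := hgap 1 (mem_Icc.2 ⟨le_rfl, by omega⟩)
    exact (Nat.cast_nonneg _).trans this
  have hU0 : 0 < 1 / 32 * ((N : ℝ) / L ^ 2) := by positivity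
  have hY0 : 0 < Y := by linarith
  have hWY : W ≤ Real.exp (- (1 / 32 / L ^ 2)) * Y := by
    have h3 : 1 - 1 / 32 / L ^ 2 ≤ Real.exp (- (1 / 32 / L ^ 2)) := by
      have := Real.add_one_le_exp (- (1 / 32 / L ^ 2))
      linarith
    have h4 : W ≤ (1 - 1 / 32 / L ^ 2) * Y := by
      have h5 : 1 / 32 / L ^ 2 * Y ≤ 1 / 32 / L ^ 2 * N :=
        mul_le_mul_of_nonneg_left hYN (by positivity)
      have h6 : 1 / 32 / L ^ 2 * (N : ℝ) = 1 / 32 * (N / L ^ 2) := by ring
      rw [hW, sub_mul, one_mul]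
      linarith
    exact h4.trans (mul_le_mul_of_nonneg_right h3 hY0.le)
  have hYB : Y ≤ ((B.card + 1 - r : ℕ) : ℝ) := by
    have h3 : B.card ≤ (B.card + 1 - r) + r := by omega
    have h4 : (B.card : ℝ) ≤ ((B.card + 1 - r : ℕ) : ℝ) + r := by exact_mod_cast h3
    linarith
  have hpairs := pairs_up N r W hgap
  have hsub : (((Tup r (Icc 1 N)).filter (fun h => Adm h ∧
      ∃ n ∈ Icc 1 (2 * N), ∀ i, (n + h i).Prime)).card : ℝ) ≤
      ((Tup r (Icc 1 N)).filter (fun h => ∃ n ∈ Icc 1 (2 * N), ∀ i, (n + h i).Prime)).card := by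
    have : ((Tup r (Icc 1 N)).filter (fun h => Adm h ∧
      ∃ n ∈ Icc 1 (2 * N), ∀ i, (n + h i).Prime)).card ≤
      ((Tup r (Icc 1 N)).filter (fun h => ∃ n ∈ Icc 1 (2 * N), ∀ i, (n + h i).Prime)).card := by
      refine card_le_card fun h hh => ?_
      rw [mem_filter] at hh ⊢
      exact ⟨hh.1, hh.2.2⟩
    exact_mod_cast this
  calc _ ≤ _ := hsub
    _ ≤ 2 * N * W ^ r := hpairs
    _ ≤ 2 * N * (Real.exp (- (1 / 32 / L ^ 2)) * Y) ^ r := by gcongr
    _ = (2 * N * Real.exp (- (1 / 32 / L ^ 2 * r))) * Y ^ r := by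
        rw [mul_pow, ← Real.exp_nat_mul]
        ring_nf
    _ ≤ ε * Y ^ r := by gcongr
    _ ≤ ε * ((B.card + 1 - r : ℕ) : ℝ) ^ r := by gcongr
    _ ≤ _ := mul_le_mul_of_nonneg_left hadm hε.le

end Pool.Agent.Lib.LEN
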