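import Pool.Agent.Lib.LEN.FinZ

/-!
# LEN.GDefs: the exact range of the prediction: definitions
-/

set_option autoImplicit false

open Finset Filter

namespace Pool.Agent.Lib.LEN

open Pool.Agent.HLB Pool.Agent.HLT Pool.Agent.HLR Pool.Agent.Lib.GMV

/-- `e ^ γ`. -/
noncomputable def eg : ℝ := Real.exp Real.eulerMascheroniConstant

/-- Many missed classes for all primes `p ∈ [δ r, K r]`. -/
def Rich (δ K c1 : ℝ) {r : ℕ} (h : Fin r → ℕ) : Prop :=
  ∀ p : ℕ, p.Prime → δ * r ≤ p → (p : ℝ) ≤ K * r → c1 * r ≤ (p : ℝ) - nuI h p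

end Pool.Agent.Lib.LEN
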