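import Pool.Agent.Lib.LEN.Defs
import Pool.Agent.Lib.HLR.Defs

/-!
# Many admissible tuples: greedy choice of the missed classes
-/

set_option autoImplicit false

open Finset Filter

namespace Pool.Agent.Lib.LEN

open Pool.Agent.HLB Pool.Agent.HLT Pool.Agent.HLR Pool.Agent.Lib.GMV

/-- For every prime some class contains at most `|A| / p` elements; induction over `P`. -/
theorem greedy (A P : Finset ℕ) (hP : ∀ p ∈ P, p.Prime) : ∃ B : Finset ℕ, B ⊆ A ∧
    (∀ p ∈ P, ∃ c : ℕ, ∀ b ∈ B, ¬ b ≡ c [MOD p]) ∧
    (A.card : ℝ) * ∏ p ∈ P, (1 - 1 / (p : ℝ)) ≤ B.card := by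
  classical
  induction P using Finset.induction_on with
  | empty =>
    refine ⟨A, Subset.rfl, ?_, ?_⟩
    · intro p hp
      exact absurd hp (Finset.notMem_empty _)
    · rw [Finset.prod_empty, mul_one]
  | insert p P hpP ih =>
    obtain ⟨B, hBA, hB, hcard⟩ := ih fun q hq => hP q (Finset.mem_insert_of_mem hq)
    have hp := hP p (Finset.mem_insert_self _ _)
    have hp0 : (0 : ℝ) < p := by exact_mod_cast hp.pos
    obtain ⟨c, hc, hle⟩ : ∃ c ∈ Finset.range p,
        ((B.filter fun b => b % p = c).card : ℝ) ≤ (B.card : ℝ) / p := by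
      by_contra hcon
      push Not at hcon
      have h1 : B.card = ∑ c ∈ Finset.range p, (B.filter fun b => b % p = c).card :=
        Finset.card_eq_sum_card_fiberwise fun b _ =>
          Finset.mem_coe.2 (Finset.mem_range.2 (Nat.mod_lt _ hp.pos))
      have h2 : ∑ c ∈ Finset.range p, (B.card : ℝ) / p <
          ∑ c ∈ Finset.range p, ((B.filter fun b => b % p = c).card : ℝ) :=
        Finset.sum_lt_sum_of_nonempty (Finset.nonempty_range_iff.2 hp.ne_zero) hcon
      rw [Finset.sum_const, Finset.card_range, nsmul_eq_mul, mul_div_cancel₀ _ hp0.ne'] at h2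
      have h3 : (B.card : ℝ) = ∑ c ∈ Finset.range p, ((B.filter fun b => b % p = c).card : ℝ) := by
        exact_mod_cast h1
      linarith
    refine ⟨B.filter fun b => ¬ b % p = c, (Finset.filter_subset _ _).trans hBA, ?_, ?_⟩
    · intro q hq
      rcases Finset.mem_insert.1 hq with rfl | hq
      · refine ⟨c, fun b hb hbc => (Finset.mem_filter.1 hb).2 ?_⟩
        have h4 : b % q = c % q := hbc
        rw [h4, Nat.mod_eq_of_lt (Finset.mem_range.1 hc)]
      · obtain ⟨c', hc'⟩ := hB q hq
        exact ⟨c', fun b hb => hc' b (Finset.mem_filter.1 hb).1⟩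
    · rw [Finset.prod_insert hpP]
      have h5 : (B.card : ℝ) = (B.filter fun b => b % p = c).card +
          (B.filter fun b => ¬ b % p = c).card := by
        exact_mod_cast (Finset.card_filter_add_card_filter_not _).symm
      have h6 : (0 : ℝ) ≤ 1 - 1 / (p : ℝ) := by
        have : 1 / (p : ℝ) ≤ 1 := by
          rw [div_le_one hp0]
          exact_mod_cast hp.one_lt.le
        linarith
      calc (A.card : ℝ) * ((1 - 1 / (p : ℝ)) * ∏ q ∈ P, (1 - 1 / (q : ℝ)))
          = (1 - 1 / (p : ℝ)) * ((A.card : ℝ) * ∏ q ∈ P, (1 - 1 / (q : ℝ))) := by ring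
        _ ≤ (1 - 1 / (p : ℝ)) * B.card := mul_le_mul_of_nonneg_left hcard h6
        _ = B.card - (B.card : ℝ) / p := by ring
        _ ≤ _ := by linarith

open scoped Classical in
/-- Tuples of distinct elements of a set which misses a class modulo every `p ≤ r` are admissible. -/
theorem adm_lower (N r : ℕ) (B : Finset ℕ) (hB : B ⊆ Icc 1 N)
    (h : ∀ p : ℕ, p.Prime → p ≤ r → ∃ c : ℕ, ∀ b ∈ B, ¬ b ≡ c [MOD p]) :
    ((B.card + 1 - r : ℕ) : ℝ) ^ r ≤ (((Tup r (Icc 1 N)).filter (fun h => Adm h)).card : ℝ) := by
  have h1 : Fintype.card (Fin r ↪ {x // x ∈ B}) = B.card.descFactorial r := by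
    rw [Fintype.card_embedding_eq, Fintype.card_coe, Fintype.card_fin]
  have h2 : B.card.descFactorial r ≤ ((Tup r (Icc 1 N)).filter (fun h => Adm h)).card := by
    rw [← h1, ← Finset.card_univ]
    refine Finset.card_le_card_of_injOn (fun e i => (e i : ℕ)) ?_ ?_
    · intro e _
      rw [Finset.mem_coe, Finset.mem_filter]
      refine ⟨?_, ?_, ?_⟩
      · unfold Tup
        rw [Fintype.mem_piFinset]
        intro i
        exact hB (e i).2
      · intro i j hij
        exact e.injective (Subtype.ext hij)
      · intro p hp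
        have := Fact.mk hp
        unfold nuI
        rcases Nat.lt_or_ge r p with hrp | hrp
        · refine lt_of_le_of_lt Finset.card_image_le ?_
          rw [Finset.card_univ, Fintype.card_fin]
          exact hrp
        · obtain ⟨c, hc⟩ := h p hp hrp
          have h3 : Finset.univ.image (fun i : Fin r => (((e i : ℕ) : ℕ) : ZMod p)) ⊆
              (Finset.univ : Finset (ZMod p)).erase (c : ZMod p) := by
            intro x hx
            obtain ⟨i, -, rfl⟩ := Finset.mem_image.mp hx
            refine Finset.mem_erase.mpr ⟨?_, Finset.mem_univ _⟩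
            intro h0
            exact hc _ (e i).2 ((ZMod.natCast_eq_natCast_iff _ _ _).1 h0)
          have h4 := Finset.card_le_card h3
          rw [Finset.card_erase_of_mem (Finset.mem_univ _), Finset.card_univ, ZMod.card] at h4
          have h4' : (Finset.univ.image (fun i : Fin r => (((e i : ℕ) : ℕ) : ZMod p))).card < p := by
            have := hp.pos
            omega
          exact h4'
    · intro e _ f _ hef
      ext i
      exact congrFun hef i
  have h5 := (Nat.pow_sub_le_descFactorial B.card r).trans h2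
  exact_mod_cast h5

end Pool.Agent.Lib.LEN
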