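import Pool.Agent.Lib.LEN.GDefs
import Pool.Agent.Lib.LEN.GGreedy

/-!
# LEN.GFarA: no prime tuples beyond the threshold, up to `r = N ^ (e ^ -γ - ε)`
-/

set_option autoImplicit false

open Finset Filter Topology

namespace Pool.Agent.Lib.LEN

open Pool.Agent.HLB Pool.Agent.HLT Pool.Agent.HLR Pool.Agent.Lib.GMV

/-- The number of the pairs. -/
theorem pairs_up (N r : ℕ) (W : ℝ) (hW : ∀ n ∈ Icc 1 (2 * N),
    (((Icc 1 N).filter (fun m => (n + m).Prime)).card : ℝ) ≤ W)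
    [DecidablePred fun h : Fin r → ℕ => ∃ n ∈ Icc 1 (2 * N), ∀ i, (n + h i).Prime] :
    (((Tup r (Icc 1 N)).filter (fun h => ∃ n ∈ Icc 1 (2 * N), ∀ i, (n + h i).Prime)).card : ℝ) ≤
      2 * N * W ^ r := by
  classical
  have h1 : (Tup r (Icc 1 N)).filter (fun h => ∃ n ∈ Icc 1 (2 * N), ∀ i, (n + h i).Prime) ⊆
      (Icc 1 (2 * N)).biUnion (fun n => (Tup r (Icc 1 N)).filter (fun h => ∀ i, (n + h i).Prime)) := by
    intro h hh
    obtain ⟨h2, n, hn, h3⟩ := mem_filter.mp hh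
    exact mem_biUnion.mpr ⟨n, hn, mem_filter.mpr ⟨h2, h3⟩⟩
  have h2 : ∀ n ∈ Icc 1 (2 * N),
      (((Tup r (Icc 1 N)).filter (fun h => ∀ i, (n + h i).Prime)).card : ℝ) ≤ W ^ r := by
    intro n hn
    have h3 : (Tup r (Icc 1 N)).filter (fun h => ∀ i, (n + h i).Prime) =
        Fintype.piFinset (fun _ : Fin r => (Icc 1 N).filter (fun m => (n + m).Prime)) := by
      ext h
      unfold Tup
      simp only [mem_filter, Fintype.mem_piFinset]
      exact ⟨fun ⟨a, b⟩ i => ⟨a i, b i⟩, fun a => ⟨fun i => (a i).1, fun i => (a i).2⟩⟩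
    rw [h3, Fintype.card_piFinset_const]
    push_cast
    exact pow_le_pow_left₀ (Nat.cast_nonneg _) (hW n hn) r
  have h4 : (((Tup r (Icc 1 N)).filter
      (fun h => ∃ n ∈ Icc 1 (2 * N), ∀ i, (n + h i).Prime)).card : ℝ) ≤
      ∑ n ∈ Icc 1 (2 * N), (((Tup r (Icc 1 N)).filter (fun h => ∀ i, (n + h i).Prime)).card : ℝ) := by
    exact_mod_cast (card_le_card h1).trans card_biUnion_le
  refine h4.trans ((sum_le_sum h2).trans ?_)
  rw [sum_const, Nat.card_Icc, nsmul_eq_mul, Nat.add_sub_cancel]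
  push_cast
  exact le_rfl

/-- The choice of the small parameter. -/
theorem choose_delta (E g θ : ℝ) (h : E * g < θ) :
    ∃ δ : ℝ, 0 < δ ∧ δ < 1 / 2 ∧ (1 + δ) * (E + δ) * g ≤ θ * (1 - δ) := by
  have hc : Tendsto (fun δ : ℝ => θ * (1 - δ) - (1 + δ) * (E + δ) * g) (𝓝[>] 0)
      (𝓝 (θ * (1 - 0) - (1 + 0) * (E + 0) * g)) := by
    apply Tendsto.mono_left _ nhdsWithin_le_nhds
    apply Continuous.tendsto
    fun_prop
  have h1 : 0 < θ * (1 - 0) - (1 + 0) * (E + 0) * g := by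
    simp only [sub_zero, mul_one, add_zero, one_mul]
    linarith
  have h2 := hc.eventually (lt_mem_nhds h1)
  have h3 : ∀ᶠ δ : ℝ in 𝓝[>] (0 : ℝ), 0 < δ := eventually_mem_nhdsWithin
  have h4 : ∀ᶠ δ : ℝ in 𝓝[>] (0 : ℝ), δ < 1 / 2 :=
    (gt_mem_nhds (show (0 : ℝ) < 1 / 2 by norm_num)).filter_mono nhdsWithin_le_nhds
  obtain ⟨δ, ha, hb, hd⟩ := (h2.and (h3.and h4)).exists
  exact ⟨δ, hb, hd, by linarith⟩

/-- `2 N θ ^ (N ^ c)` tends to `0`. -/
theorem decay (c θ ε : ℝ) (hc : 0 < c) (hθ0 : 0 < θ) (hθ : θ < 1) (hε : 0 < ε) :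
    ∀ᶠ N : ℕ in atTop, ∀ r : ℕ, (N : ℝ) ^ c ≤ r → 2 * (N : ℝ) * θ ^ r ≤ ε := by
  have hb : 0 < -Real.log θ := by
    have := Real.log_neg hθ0 hθ
    linarith
  have h1 := tendsto_rpow_mul_exp_neg_mul_atTop_nhds_zero (1 / c) (-Real.log θ) hb
  have h2 : Tendsto (fun N : ℕ => (N : ℝ) ^ c) atTop atTop :=
    (tendsto_rpow_atTop hc).comp tendsto_natCast_atTop_atTop
  have h3 := (h1.comp h2).eventually (gt_mem_nhds (show (0 : ℝ) < ε / 2 by positivity))
  filter_upwards [h3, eventually_ge_atTop 1] with N hN hN1 r hr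
  have hN0 : (0 : ℝ) < N := by exact_mod_cast hN1
  simp only [Function.comp_def] at hN
  rw [← Real.rpow_mul hN0.le, mul_one_div_cancel hc.ne', Real.rpow_one] at hN
  have h4 : θ ^ r ≤ Real.exp (-(-Real.log θ) * (N : ℝ) ^ c) := by
    rw [← Real.rpow_natCast, Real.rpow_def_of_pos hθ0]
    apply Real.exp_le_exp.2
    rw [neg_neg]
    exact mul_le_mul_of_nonpos_left hr (by linarith)
  have h5 := mul_le_mul_of_nonneg_left h4 hN0.le
  linarith

open scoped Classical in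
/-- Module GFar. -/
theorem far_gamma_of
    (mert : ∀ ε : ℝ, 0 < ε → ∃ z0 : ℕ, ∀ z : ℕ, z0 ≤ z → (DZ z)⁻¹ ≤ (eg + ε) * Real.log z)
    (pw : ∀ δ : ℝ, 0 < δ → ∃ N0 : ℕ, ∀ N : ℕ, N0 ≤ N → ∀ n ∈ Icc 1 (2 * N),
      (((Icc 1 N).filter (fun m => (n + m).Prime)).card : ℝ) ≤ (1 + δ) * N / Real.log N)
    (c ε : ℝ) (hc : 0 < c) (hε : 0 < ε) : ∃ N0 : ℕ, ∀ N : ℕ, N0 ≤ N → ∀ r : ℕ,
    (N : ℝ) ^ c ≤ r → (r : ℝ) ≤ (N : ℝ) ^ (eg⁻¹ - ε) →
    (((Tup r (Icc 1 N)).filter (fun h => Adm h ∧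
      ∃ n ∈ Icc 1 (2 * N), ∀ i, (n + h i).Prime)).card : ℝ) ≤
    ε * ((Tup r (Icc 1 N)).filter (fun h => Adm h)).card := by
  have heg0 : 0 < eg := Real.exp_pos _
  have heg1 : eg⁻¹ < 1 := by
    have h1 : 1 < eg := by
      unfold eg
      have := Real.one_half_lt_eulerMascheroniConstant
      exact Real.one_lt_exp_iff.2 (by linarith)
    exact inv_lt_one_of_one_lt₀ h1
  set g : ℝ := eg⁻¹ - ε with hg
  have hg1 : g < 1 := by linarith
  have hEg : eg * g < 1 := by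
    rw [hg, mul_sub, mul_inv_cancel₀ heg0.ne']
    have : 0 < eg * ε := by positivity
    linarith
  set θ : ℝ := max (1 / 2) ((1 + eg * g) / 2) with hθ
  have hθ0 : 0 < θ := lt_max_of_lt_left (by norm_num)
  have hθ1 : θ < 1 := max_lt (by norm_num) (by linarith)
  have hθ2 : eg * g < θ := lt_max_of_lt_right (by linarith)
  obtain ⟨δ, hδ0, hδ1, hδ⟩ := choose_delta eg g θ hθ2
  obtain ⟨z0, hm⟩ := mert δ hδ0
  obtain ⟨N1, hp⟩ := pw δ hδ0
  -- the eventual conditions on `N`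
  have hev1 : ∀ᶠ N : ℕ in atTop, (N : ℝ) ^ g * ((eg + δ) * Real.log N) ≤ δ * N := by
    have h1 : Tendsto (fun x : ℝ => x ^ (1 - g) / Real.log x) atTop atTop := by
      have h2 := (isLittleO_log_rpow_atTop (show 0 < 1 - g by linarith))
      have h3 := h2.tendsto_div_nhds_zero
      have h4 : Tendsto (fun x : ℝ => (Real.log x / x ^ (1 - g))⁻¹) atTop atTop := by
        apply Tendsto.inv_tendsto_nhdsGT_zero
        rw [tendsto_nhdsWithin_iff]
        refine ⟨h3, ?_⟩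
        filter_upwards [eventually_gt_atTop 1] with x hx
        have : 0 < Real.log x := Real.log_pos hx
        have : 0 < x ^ (1 - g) := Real.rpow_pos_of_pos (by linarith) _
        exact Set.mem_Ioi.2 (by positivity)
      refine h4.congr fun x => ?_
      rw [inv_div]
    have h5 := (h1.comp tendsto_natCast_atTop_atTop).eventually_ge_atTop ((eg + δ) / δ)
    filter_upwards [h5, eventually_gt_atTop 1] with N hN hN1
    have hN0 : (0 : ℝ) < N := by exact_mod_cast (by omega : 0 < N)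
    have hl : 0 < Real.log (N : ℝ) := Real.log_pos (by exact_mod_cast hN1)
    simp only [Function.comp_def] at hN
    rw [div_le_div_iff₀ hδ0 hl] at hN
    have h6 : (N : ℝ) ^ g * (N : ℝ) ^ (1 - g) = N := by
      rw [← Real.rpow_add hN0]
      ring_nf
      rw [Real.rpow_one]
    calc (N : ℝ) ^ g * ((eg + δ) * Real.log N) ≤ (N : ℝ) ^ g * ((N : ℝ) ^ (1 - g) * δ) := by
          gcongr
      _ = δ * ((N : ℝ) ^ g * (N : ℝ) ^ (1 - g)) := by ring
      _ = δ * N := by rw [h6]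
  have hev2 : ∀ᶠ N : ℕ in atTop, (max z0 2 : ℝ) ≤ (N : ℝ) ^ c :=
    ((tendsto_rpow_atTop hc).comp tendsto_natCast_atTop_atTop).eventually_ge_atTop _
  obtain ⟨N2, hN2⟩ := eventually_atTop.1 (hev1.and (hev2.and (decay c θ ε hc hθ0 hθ1 hε)))
  refine ⟨max (max N1 N2) 2, ?_⟩
  intro N hN r hr1 hr2
  have hN1' : N1 ≤ N := (le_max_left _ _).trans ((le_max_left _ _).trans hN)
  have hN2' : N2 ≤ N := (le_max_right _ _).trans ((le_max_left _ _).trans hN)
  have hNge2 : 2 ≤ N := (le_max_right _ _).trans hN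
  obtain ⟨e1, e2, e3⟩ := hN2 N hN2'
  have e3 := e3 r hr1
  have hN0 : (0 : ℝ) < N := by exact_mod_cast (by omega : 0 < N)
  have hNR1 : (1 : ℝ) < N := by exact_mod_cast (by omega : 1 < N)
  have hlN : 0 < Real.log (N : ℝ) := Real.log_pos hNR1
  have hr2' : (2 : ℝ) ≤ r := ((le_max_right _ _).trans e2).trans hr1
  have hrz : z0 ≤ r := by
    have : (z0 : ℝ) ≤ r := ((le_max_left _ _).trans e2).trans hr1
    exact_mod_cast this
  have hlr : 0 < Real.log (r : ℝ) := Real.log_pos (by linarith)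
  have hlrg : Real.log (r : ℝ) ≤ g * Real.log N := by
    have h1 := Real.log_le_log (by linarith) hr2
    rwa [Real.log_rpow hN0] at h1
  have hlrN : Real.log (r : ℝ) ≤ Real.log N := by
    calc Real.log (r : ℝ) ≤ g * Real.log N := hlrg
      _ ≤ 1 * Real.log N := by gcongr
      _ = _ := one_mul _
  -- the greedy set
  obtain ⟨B, hBA, hB, hBc⟩ := greedy (Icc 1 N) (Nat.primesLE r) fun p hp =>
    (Nat.mem_primesLE.1 hp).2
  rw [Nat.card_Icc, Nat.add_sub_cancel] at hBc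
  have hDZ : ∏ p ∈ Nat.primesLE r, (1 - 1 / (p : ℝ)) = DZ r := rfl
  rw [hDZ] at hBc
  have hDZ0 : 0 < DZ r := by
    refine prod_pos fun p hp => ?_
    have h1 : (2 : ℝ) ≤ p := by exact_mod_cast (Nat.mem_primesLE.1 hp).2.two_le
    have h2 : 1 / (p : ℝ) ≤ 1 / 2 := by
      rw [div_le_div_iff₀ (by linarith) (by norm_num)]
      linarith
    linarith
  have hDZ1 : 1 / ((eg + δ) * Real.log r) ≤ DZ r := by
    rw [div_le_iff₀ (by positivity)]
    have h1 := mul_le_mul_of_nonneg_left (hm r hrz) hDZ0.le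
    rwa [mul_inv_cancel₀ hDZ0.ne'] at h1
  have hadm := adm_lower N r B hBA fun p hp hpr => hB p (Nat.mem_primesLE.2 ⟨hpr, hp⟩)
  set y : ℝ := (1 - δ) * N / ((eg + δ) * Real.log r) with hy
  have hD0 : 0 < (eg + δ) * Real.log r := by positivity
  have hy0 : 0 ≤ y := by
    have : 0 ≤ 1 - δ := by linarith
    positivity
  have hyB : y ≤ ((B.card + 1 - r : ℕ) : ℝ) := by
    have h1 : (B.card : ℝ) - r ≤ ((B.card + 1 - r : ℕ) : ℝ) := by
      have : (B.card : ℤ) - r ≤ ((B.card + 1 - r : ℕ) : ℤ) := by omega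
      exact_mod_cast this
    have h2 : (N : ℝ) / ((eg + δ) * Real.log r) ≤ B.card := by
      refine le_trans ?_ hBc
      calc (N : ℝ) / ((eg + δ) * Real.log r) = N * (1 / ((eg + δ) * Real.log r)) := by ring
        _ ≤ _ := by gcongr
    have h3 : (r : ℝ) ≤ δ * N / ((eg + δ) * Real.log r) := by
      rw [le_div_iff₀ hD0]
      calc (r : ℝ) * ((eg + δ) * Real.log r) ≤ (N : ℝ) ^ g * ((eg + δ) * Real.log N) := by gcongr
        _ ≤ _ := e1
    have h4 : y = (N : ℝ) / ((eg + δ) * Real.log r) - δ * N / ((eg + δ) * Real.log r) := by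
      rw [hy]
      ring
    linarith
  set x : ℝ := (1 + δ) * N / Real.log N with hx
  have hxy : x ≤ θ * y := by
    rw [hx, hy, ← mul_div_assoc, div_le_div_iff₀ hlN hD0]
    have h1 : (1 + δ) * (eg + δ) * Real.log r ≤ θ * (1 - δ) * Real.log N := by
      calc (1 + δ) * (eg + δ) * Real.log r ≤ (1 + δ) * (eg + δ) * (g * Real.log N) := by gcongr
        _ = (1 + δ) * (eg + δ) * g * Real.log N := by ring
        _ ≤ _ := by gcongr
    calc (1 + δ) * (N : ℝ) * ((eg + δ) * Real.log r) =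
          N * ((1 + δ) * (eg + δ) * Real.log r) := by ring
      _ ≤ N * (θ * (1 - δ) * Real.log N) := by gcongr
      _ = _ := by ring
  have hx0 : 0 ≤ x := by positivity
  have hpairs := pairs_up N r x (hp N hN1')
  have hsub : (((Tup r (Icc 1 N)).filter (fun h => Adm h ∧
      ∃ n ∈ Icc 1 (2 * N), ∀ i, (n + h i).Prime)).card : ℝ) ≤
      ((Tup r (Icc 1 N)).filter (fun h => ∃ n ∈ Icc 1 (2 * N), ∀ i, (n + h i).Prime)).card := by
    have : ((Tup r (Icc 1 N)).filter (fun h => Adm h ∧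
      ∃ n ∈ Icc 1 (2 * N), ∀ i, (n + h i).Prime)).card ≤
      ((Tup r (Icc 1 N)).filter (fun h => ∃ n ∈ Icc 1 (2 * N), ∀ i, (n + h i).Prime)).card := by
      refine card_le_card fun h hh => ?_
      rw [mem_filter] at hh ⊢
      exact ⟨hh.1, hh.2.2⟩
    exact_mod_cast this
  calc _ ≤ _ := hsub
    _ ≤ 2 * N * x ^ r := hpairs
    _ ≤ 2 * N * (θ * y) ^ r := by gcongr
    _ = (2 * N * θ ^ r) * y ^ r := by rw [mul_pow]; ring
    _ ≤ ε * y ^ r := by gcongr
    _ ≤ ε * ((B.card + 1 - r : ℕ) : ℝ) ^ r := by gcongr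
    _ ≤ _ := mul_le_mul_of_nonneg_left hadm hε.le

end Pool.Agent.Lib.LEN
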