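import Mathlib
import Pool.Agent.Lib.LEN.GDefs
import Pool.Agent.Lib.HLB.Defs
import Pool.Agent.Lib.P07318m.DSum
import Pool.Agent.Lib.P4a7640L.MertensB

/-!
# LEN: Mertens' third theorem (modules GMertU and GMertL)

`log (DZ N)⁻¹ - log log N → γ`. With `L = log N`, `s = n/L`, `u = log p / L`:
upper bound: `-log (1 - 1/p) ≤ -log (1 - p^(-1-s)) + (1/p) (1 - (1-u)^n) + O(s log p/p^2)`, the Euler product is
at most `ζ(1+s)`, `s ζ(1+s) → 1`, and `∑_{p ≤ N} (1/p) (1 - (1-u)^n) → H_n` by the moments of the primes;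
lower bound: `n = k^2`, `e^(-nu) ≤ (1-u)^(k^2-k) + k e^(-k) u`, the primes beyond `N` contribute at most
`C e^(-(n-1))` to `log ζ(1+s)`.
-/

set_option autoImplicit false

open Finset Filter Topology

namespace Pool.Agent.Lib.LEN

namespace GMertAux

/-- the norm of `ζ (1 + s)` -/
noncomputable def zt (s : ℝ) : ℝ := ‖riemannZeta (1 + (s : ℂ))‖

/-- `p ^ (-(1 + s))` -/
noncomputable def bp (s : ℝ) (p : ℕ) : ℝ := (p : ℝ) ^ (-(1 + s))

/-- the logarithm of the partial Euler product -/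
noncomputable def EE (s : ℝ) (N : ℕ) : ℝ := ∑ p ∈ Nat.primesLE N, -Real.log (1 - bp s p)

lemma bp_pos (s : ℝ) {p : ℕ} (hp : p.Prime) : 0 < bp s p :=
  Real.rpow_pos_of_pos (by exact_mod_cast hp.pos) _

lemma bp_eq (s : ℝ) {p : ℕ} (hp : p.Prime) : bp s p = 1 / p * Real.exp (-(s * Real.log p)) := by
  have hp0 : (0 : ℝ) < p := by exact_mod_cast hp.pos
  unfold bp
  rw [Real.rpow_def_of_pos hp0, show Real.log p * -(1 + s) = -Real.log p + -(s * Real.log p) by ring,
    Real.exp_add, Real.exp_neg, Real.exp_log hp0, one_div]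

lemma bp_le (s : ℝ) (hs : 0 ≤ s) {p : ℕ} (hp : p.Prime) : bp s p ≤ 1 / p := by
  have hp0 : (0 : ℝ) < p := by exact_mod_cast hp.pos
  rw [bp_eq s hp]
  have h1 : Real.exp (-(s * Real.log p)) ≤ 1 := by
    rw [Real.exp_le_one_iff]
    have := mul_nonneg hs (Real.log_natCast_nonneg p)
    linarith
  have h2 : (0 : ℝ) ≤ 1 / p := by positivity
  nlinarith

lemma inv_le_half {p : ℕ} (hp : p.Prime) : (1 : ℝ) / p ≤ 1 / 2 := by
  have : (2 : ℝ) ≤ p := by exact_mod_cast hp.two_le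
  exact one_div_le_one_div_of_le (by norm_num) this

lemma bp_le_half (s : ℝ) (hs : 0 ≤ s) {p : ℕ} (hp : p.Prime) : bp s p ≤ 1 / 2 :=
  (bp_le s hs hp).trans (inv_le_half hp)

lemma term_ge (s : ℝ) (hs : 0 ≤ s) {p : ℕ} (hp : p.Prime) : bp s p ≤ -Real.log (1 - bp s p) := by
  have h1 := bp_le_half s hs hp
  have h2 := Real.log_le_sub_one_of_pos (show 0 < 1 - bp s p by linarith)
  linarith

lemma term_le (s : ℝ) (hs : 0 ≤ s) {p : ℕ} (hp : p.Prime) :
    -Real.log (1 - bp s p) ≤ bp s p + 2 * (1 / (p : ℝ)) ^ 2 := by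
  have h1 := bp_le_half s hs hp
  have h0 := bp_pos s hp
  have h3 := bp_le s hs hp
  have hpos : 0 < 1 - bp s p := by linarith
  have h2 := Real.one_sub_inv_le_log_of_pos hpos
  have h4 : (1 - bp s p)⁻¹ ≤ 1 + bp s p + 2 * bp s p ^ 2 := by
    rw [inv_le_iff_one_le_mul₀ hpos]
    nlinarith [mul_nonneg h0.le (sq_nonneg (bp s p)), mul_nonneg h0.le (show (0:ℝ) ≤ 1 / 2 - bp s p by linarith),
      mul_nonneg (mul_nonneg h0.le h0.le) (show (0:ℝ) ≤ 1 / 2 - bp s p by linarith)]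
  have h5 : bp s p ^ 2 ≤ (1 / (p : ℝ)) ^ 2 := pow_le_pow_left₀ h0.le h3 2
  linarith

lemma EE_mono (s : ℝ) (hs : 0 ≤ s) : Monotone (EE s) := by
  intro a b hab
  unfold EE
  apply Finset.sum_le_sum_of_subset_of_nonneg
  · intro p hp
    rw [Nat.mem_primesLE] at hp ⊢
    exact ⟨hp.1.trans hab, hp.2⟩
  · intro p hp _
    have hp' := (Nat.mem_primesLE.1 hp).2
    exact (bp_pos s hp').le.trans (term_ge s hs hp')

lemma EE_tendsto (s : ℝ) (hs : 0 < s) : Tendsto (EE s) atTop (𝓝 (Real.log (zt s))) := by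
  have hre : 1 < (1 + (s : ℂ)).re := by simp [hs]
  have h1 := (riemannZeta_eulerProduct hre).norm
  have h2 : Tendsto (fun n : ℕ => ‖∏ p ∈ Nat.primesBelow (n + 1), (1 - (p : ℂ) ^ (-(1 + (s : ℂ))))⁻¹‖) atTop
      (𝓝 (zt s)) := h1.comp (tendsto_add_atTop_nat 1)
  have hz : zt s ≠ 0 := by
    unfold zt
    rw [Ne, norm_eq_zero]
    exact riemannZeta_ne_zero_of_one_lt_re hre
  have h3 := h2.log hz
  refine h3.congr fun n => ?_
  rw [norm_prod, Real.log_prod]
  · unfold EE Nat.primesLE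
    refine Finset.sum_congr rfl fun p hp => ?_
    have hp' : p.Prime := (Nat.mem_primesBelow.1 hp).2
    have hp0 : (0 : ℝ) ≤ p := by positivity
    have e : (p : ℂ) ^ (-(1 + (s : ℂ))) = ((bp s p : ℝ) : ℂ) := by
      unfold bp
      rw [Complex.ofReal_cpow hp0]
      push_cast
      rfl
    rw [e, ← Complex.ofReal_one, ← Complex.ofReal_sub, norm_inv, Complex.norm_real, Real.log_inv,
      Real.norm_of_nonneg (by have := bp_le_half s hs.le hp'; linarith)]
  · intro p hp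
    have hp' : p.Prime := (Nat.mem_primesBelow.1 hp).2
    have hp0 : (0 : ℝ) ≤ p := by positivity
    have e : (p : ℂ) ^ (-(1 + (s : ℂ))) = ((bp s p : ℝ) : ℂ) := by
      unfold bp
      rw [Complex.ofReal_cpow hp0]
      push_cast
      rfl
    rw [e, ← Complex.ofReal_one, ← Complex.ofReal_sub, norm_inv, Complex.norm_real]
    have := bp_le_half s hs.le hp'
    have h4 : (0:ℝ) < ‖(1 - bp s p : ℝ)‖ := by
      rw [Real.norm_of_nonneg (by linarith)]
      linarith
    exact (inv_pos.2 h4).ne'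

lemma zt_pos (s : ℝ) (hs : 0 < s) : 0 < zt s := by
  unfold zt
  rw [norm_pos_iff]
  exact riemannZeta_ne_zero_of_one_lt_re (by simp [hs])

lemma EE_le (s : ℝ) (hs : 0 < s) (N : ℕ) : EE s N ≤ Real.log (zt s) :=
  (EE_mono s hs.le).ge_of_tendsto (EE_tendsto s hs) N

lemma zt_lim : Tendsto (fun s : ℝ => s * zt s) (𝓝[>] 0) (𝓝 1) := by
  have h1 := riemannZeta_residue_one.norm
  have h2 : Tendsto (fun s : ℝ => (1 + (s : ℂ))) (𝓝[>] 0) (𝓝[≠] 1) := by
    apply tendsto_nhdsWithin_of_tendsto_nhds_of_eventually_within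
    · have : Tendsto (fun s : ℝ => (1 + (s : ℂ))) (𝓝 0) (𝓝 (1 + ((0 : ℝ) : ℂ))) :=
        (tendsto_const_nhds.add (Complex.continuous_ofReal.tendsto 0))
      simp only [Complex.ofReal_zero, add_zero] at this
      exact this.mono_left nhdsWithin_le_nhds
    · filter_upwards [self_mem_nhdsWithin] with s hs
      have hs' : (0 : ℝ) < s := hs
      simp only [Set.mem_compl_iff, Set.mem_singleton_iff, add_eq_left, Complex.ofReal_eq_zero]
      exact hs'.ne'
  have h3 := h1.comp h2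
  rw [norm_one] at h3
  refine h3.congr' ?_
  filter_upwards [self_mem_nhdsWithin] with s hs
  have hs' : (0 : ℝ) < s := hs
  simp only [Function.comp, add_sub_cancel_left, norm_mul, Complex.norm_real,
    Real.norm_of_nonneg hs'.le, zt]

lemma logN : Tendsto (fun N : ℕ => Real.log N) atTop atTop :=
  Real.tendsto_log_atTop.comp tendsto_natCast_atTop_atTop

/-- the zeta function at `1 + n / log N` -/
lemma zt_log (n : ℕ) (hn : 0 < n) : Tendsto (fun N : ℕ => Real.log (zt (n / Real.log N)) -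
    Real.log (Real.log N)) atTop (𝓝 (-Real.log n)) := by
  have hn0 : (0 : ℝ) < n := by exact_mod_cast hn
  have h1 : Tendsto (fun N : ℕ => (n : ℝ) / Real.log N) atTop (𝓝[>] 0) := by
    apply tendsto_nhdsWithin_of_tendsto_nhds_of_eventually_within
    · exact logN.const_div_atTop _
    · filter_upwards [logN.eventually_gt_atTop 0] with N hN
      exact div_pos hn0 hN
  have h2 := (zt_lim.comp h1).log one_ne_zero
  rw [Real.log_one] at h2
  have h3 := h2.sub_const (Real.log n)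
  rw [zero_sub] at h3
  refine h3.congr' ?_
  filter_upwards [logN.eventually_gt_atTop 0] with N hN
  have hs : (0 : ℝ) < (n : ℝ) / Real.log N := div_pos hn0 hN
  have hz : zt ((n : ℝ) / Real.log N) ≠ 0 := (zt_pos _ hs).ne'
  simp only [Function.comp]
  rw [Real.log_mul hs.ne' hz, Real.log_div hn0.ne' hN.ne']
  ring

/-- `∑_{p ≤ N} (1/p) (log p / log N) ^ (k+1) (1 - log p / log N) ^ i` -/
noncomputable def Bs (k i N : ℕ) : ℝ := ∑ p ∈ Nat.primesLE N,
  (1 : ℝ) / p * ((Real.log p / Real.log N) ^ (k + 1) * (1 - Real.log p / Real.log N) ^ i)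

lemma Bs_zero (k : ℕ) : Tendsto (Bs k 0) atTop (𝓝 (1 / ((k : ℝ) + 1))) := by
  have h1 := (Pool.Agent.P07318m.DSumAux.cj_lim k).comp tendsto_natCast_atTop_atTop
  refine h1.congr' ?_
  filter_upwards [logN.eventually_gt_atTop 0] with N hN
  simp only [Function.comp, Pool.Agent.P07318m.DSumAux.Cj, Nat.floor_natCast, Bs, pow_zero, mul_one]
  rw [Finset.sum_div]
  have e : Nat.primesLE N = (Finset.Icc 1 N).filter Nat.Prime := by
    ext p
    simp only [Nat.mem_primesLE, Finset.mem_filter, Finset.mem_Icc]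
    constructor
    · rintro ⟨h, h'⟩
      exact ⟨⟨h'.one_lt.le, h⟩, h'⟩
    · rintro ⟨⟨_, h⟩, h'⟩
      exact ⟨h, h'⟩
  rw [e, Finset.sum_filter]
  refine Finset.sum_congr rfl fun p _ => ?_
  unfold Pool.Agent.P07318m.DSumAux.c1
  split_ifs with hp
  · rw [div_pow]
    field_simp
    try ring
  · simp

lemma Bs_lim (i : ℕ) : ∀ k : ℕ, Tendsto (Bs k i) atTop
    (𝓝 ((k.factorial : ℝ) * i.factorial / ((k + i + 1).factorial : ℝ))) := by
  induction i with
  | zero =>
    intro k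
    have h := Bs_zero k
    have e : ((k.factorial : ℝ) * (0 : ℕ).factorial / ((k + 0 + 1).factorial : ℝ)) = 1 / ((k : ℝ) + 1) := by
      rw [add_zero, Nat.factorial_succ, Nat.factorial_zero]
      have : (k.factorial : ℝ) ≠ 0 := by exact_mod_cast k.factorial_ne_zero
      push_cast
      field_simp
    rw [e]
    exact h
  | succ i ih =>
    intro k
    have h := (ih k).sub (ih (k + 1))
    have e : ((k.factorial : ℝ) * i.factorial / ((k + i + 1).factorial : ℝ)) -
        (((k + 1).factorial : ℝ) * i.factorial / ((k + 1 + i + 1).factorial : ℝ)) =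
        (k.factorial : ℝ) * (i + 1).factorial / ((k + (i + 1) + 1).factorial : ℝ) := by
      have h1 : ((k + i + 1).factorial : ℝ) ≠ 0 := by exact_mod_cast (k + i + 1).factorial_ne_zero
      rw [show k + 1 + i + 1 = (k + i + 1) + 1 by ring, show k + (i + 1) + 1 = (k + i + 1) + 1 by ring,
        Nat.factorial_succ (k + i + 1), Nat.factorial_succ k, Nat.factorial_succ i]
      have h2 : ((k : ℝ) + i + 1 + 1) ≠ 0 := by positivity
      push_cast
      field_simp
      ring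
    rw [e] at h
    refine h.congr fun N => ?_
    unfold Bs
    rw [← Finset.sum_sub_distrib]
    refine Finset.sum_congr rfl fun p _ => ?_
    ring

/-- `∑_{p ≤ N} (1/p) (1 - (1 - log p / log N) ^ n)` -/
noncomputable def Ws (n N : ℕ) : ℝ := ∑ p ∈ Nat.primesLE N,
  (1 : ℝ) / p * (1 - (1 - Real.log p / Real.log N) ^ n)

lemma Ws_lim (n : ℕ) : Tendsto (Ws n) atTop (𝓝 ((harmonic n : ℚ) : ℝ)) := by
  have h : Tendsto (fun N : ℕ => ∑ i ∈ Finset.range n, Bs 0 i N) atTop
      (𝓝 (∑ i ∈ Finset.range n, (((0 : ℕ).factorial : ℝ) * i.factorial / ((0 + i + 1).factorial : ℝ)))) :=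
    tendsto_finsetSum _ fun i _ => Bs_lim i 0
  have e : (∑ i ∈ Finset.range n, (((0 : ℕ).factorial : ℝ) * i.factorial / ((0 + i + 1).factorial : ℝ))) =
      ((harmonic n : ℚ) : ℝ) := by
    unfold harmonic
    push_cast
    refine Finset.sum_congr rfl fun i _ => ?_
    rw [Nat.factorial_zero, zero_add, Nat.factorial_succ]
    have h1 : (i.factorial : ℝ) ≠ 0 := by exact_mod_cast i.factorial_ne_zero
    push_cast
    field_simp
  rw [e] at h
  refine h.congr fun N => ?_
  unfold Bs Ws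
  rw [Finset.sum_comm]
  refine Finset.sum_congr rfl fun p _ => ?_
  rw [← Finset.mul_sum]
  congr 1
  have h2 := mul_neg_geom_sum (1 - Real.log p / Real.log N) n
  rw [← h2, Finset.mul_sum]
  refine Finset.sum_congr rfl fun i _ => ?_
  ring

/-- the sum of `log p / p ^ 2` -/
lemma sum_log_sq : ∃ C : ℝ, 0 ≤ C ∧ ∀ N : ℕ,
    ∑ p ∈ Nat.primesLE N, Real.log p * (1 / (p : ℝ)) ^ 2 ≤ C := by
  have hs : Summable (fun n : ℕ => 2 * (1 / (n : ℝ) ^ (3 / 2 : ℝ))) :=
    (Real.summable_one_div_nat_rpow.2 (by norm_num)).mul_left 2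
  refine ⟨∑' n : ℕ, 2 * (1 / (n : ℝ) ^ (3 / 2 : ℝ)), tsum_nonneg fun n => by positivity, fun N => ?_⟩
  refine le_trans (Finset.sum_le_sum fun p hp => ?_) (hs.sum_le_tsum _ fun n _ => by positivity)
  have hp' : p.Prime := (Nat.mem_primesLE.1 hp).2
  have hp0 : (0 : ℝ) < p := by exact_mod_cast hp'.pos
  have h1 : Real.log p ≤ 2 * (p : ℝ) ^ (1 / 2 : ℝ) := by
    have h := Real.log_le_sub_one_of_pos (Real.rpow_pos_of_pos hp0 (1 / 2 : ℝ))
    rw [Real.log_rpow hp0] at h
    linarith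
  have h2 : (1 / (p : ℝ)) ^ 2 = (p : ℝ) ^ (-2 : ℝ) := by
    rw [Real.rpow_neg hp0.le, one_div, inv_pow]
    norm_num
  have h3 : (1 : ℝ) / (p : ℝ) ^ (3 / 2 : ℝ) = (p : ℝ) ^ (1 / 2 : ℝ) * (p : ℝ) ^ (-2 : ℝ) := by
    rw [← Real.rpow_add hp0, one_div, ← Real.rpow_neg hp0.le]
    norm_num
  rw [h3, h2, ← mul_assoc]
  exact mul_le_mul_of_nonneg_right h1 (by positivity)

lemma exp_pow_le {n : ℕ} {u : ℝ} (h1 : u ≤ 1) : (1 - u) ^ n ≤ Real.exp (-(n * u)) := by
  have h := pow_le_pow_left₀ (show 0 ≤ 1 - u by linarith) (Real.one_sub_le_exp_neg u) n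
  rw [← Real.exp_nat_mul] at h
  refine h.trans (le_of_eq ?_)
  congr 1
  ring

lemma up_term {N n p : ℕ} (hN : 0 < Real.log N) (hp : p ∈ Nat.primesLE N) :
    -Real.log (1 - 1 / (p : ℝ)) ≤ -Real.log (1 - bp (n / Real.log N) p) +
      1 / p * (1 - (1 - Real.log p / Real.log N) ^ n) +
      2 * (n / Real.log N) * (Real.log p * (1 / (p : ℝ)) ^ 2) := by
  have hp' : p.Prime := (Nat.mem_primesLE.1 hp).2
  have hp0 : (0 : ℝ) < p := by exact_mod_cast hp'.pos
  have hpN : (p : ℝ) ≤ N := by exact_mod_cast (Nat.mem_primesLE.1 hp).1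
  set L := Real.log N with hL
  set s : ℝ := n / L with hs
  have hs0 : 0 ≤ s := by positivity
  set a : ℝ := 1 / p with ha
  have ha0 : 0 < a := by positivity
  have ha2 : a ≤ 1 / 2 := inv_le_half hp'
  have hb := bp_eq s hp'
  rw [← ha] at hb
  set b := bp s p with hbdef
  have hba : b ≤ a := bp_le s hs0 hp'
  have hb0 : 0 < b := bp_pos s hp'
  have hlog0 : 0 ≤ Real.log p := Real.log_natCast_nonneg p
  have hu0 : 0 ≤ Real.log p / L := by positivity
  have hu1 : Real.log p / L ≤ 1 := by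
    rw [div_le_one hN]
    exact Real.log_le_log hp0 hpN
  have e1 : s * Real.log p = n * (Real.log p / L) := by
    rw [hs]
    ring
  have h1 : Real.log ((1 - b) / (1 - a)) ≤ (1 - b) / (1 - a) - 1 :=
    Real.log_le_sub_one_of_pos (div_pos (by linarith) (by linarith))
  rw [Real.log_div (by linarith) (by linarith)] at h1
  have h2 : (1 - b) / (1 - a) - 1 ≤ (a - b) + 2 * a * (a - b) := by
    rw [sub_le_iff_le_add, div_le_iff₀ (by linarith)]
    nlinarith [mul_nonneg ha0.le (mul_nonneg (show (0:ℝ) ≤ 1 / 2 - a by linarith) (show 0 ≤ a - b by linarith)), mul_nonneg ha0.le (show 0 ≤ a - b by linarith)]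
  have h3 : a - b ≤ a * (1 - (1 - Real.log p / L) ^ n) := by
    have h := exp_pow_le (n := n) hu1
    rw [hb, e1]
    nlinarith
  have h4 : a - b ≤ a * (s * Real.log p) := by
    have h := Real.one_sub_le_exp_neg (s * Real.log p)
    rw [hb]
    nlinarith
  have h5 : 2 * a * (a - b) ≤ 2 * s * (Real.log p * a ^ 2) := by
    have h := mul_le_mul_of_nonneg_left h4 (show 0 ≤ 2 * a by linarith)
    refine h.trans (le_of_eq ?_)
    ring
  linarith

lemma log_DZ (N : ℕ) : Real.log ((Pool.Agent.HLB.DZ N)⁻¹) = ∑ p ∈ Nat.primesLE N, -Real.log (1 - 1 / (p : ℝ)) := by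
  rw [Real.log_inv, Pool.Agent.HLB.DZ, Real.log_prod, Finset.sum_neg_distrib]
  intro p hp
  have h := inv_le_half (Nat.mem_primesLE.1 hp).2
  have : (0 : ℝ) < 1 - 1 / (p : ℝ) := by linarith
  exact this.ne'

lemma mup : ∃ C : ℝ, 0 ≤ C ∧ ∀ n N : ℕ, 0 < n → 0 < Real.log N → Real.log ((Pool.Agent.HLB.DZ N)⁻¹) ≤
    Real.log (zt (n / Real.log N)) + Ws n N + n / Real.log N * C := by
  obtain ⟨C, hC0, hC⟩ := sum_log_sq
  refine ⟨2 * C, by linarith, fun n N hn hN => ?_⟩
  have hn0 : (0 : ℝ) < n := by exact_mod_cast hn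
  rw [log_DZ]
  have h1 := Finset.sum_le_sum fun p (hp : p ∈ Nat.primesLE N) => up_term (n := n) hN hp
  rw [Finset.sum_add_distrib, Finset.sum_add_distrib, ← Finset.mul_sum] at h1
  have h2 := EE_le (n / Real.log N) (div_pos hn0 hN) N
  have h3 := mul_le_mul_of_nonneg_left (hC N) (show 0 ≤ 2 * (n / Real.log N) by positivity)
  unfold EE at h2
  unfold Ws
  linarith

lemma low_term {N n p : ℕ} (hN : 0 < Real.log N) (hp : p ∈ Nat.primesLE N) :
    -Real.log (1 - bp (n / Real.log N) p) +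
      1 / p * (1 - Real.exp (-(n * (Real.log p / Real.log N)))) ≤ -Real.log (1 - 1 / (p : ℝ)) := by
  have hp' : p.Prime := (Nat.mem_primesLE.1 hp).2
  have hp0 : (0 : ℝ) < p := by exact_mod_cast hp'.pos
  set L := Real.log N with hL
  set s : ℝ := n / L with hs
  have hs0 : 0 ≤ s := by positivity
  set a : ℝ := 1 / p with ha
  have ha0 : 0 < a := by positivity
  have ha2 : a ≤ 1 / 2 := inv_le_half hp'
  have hb := bp_eq s hp'
  rw [← ha] at hb
  set b := bp s p with hbdef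
  have hba : b ≤ a := bp_le s hs0 hp'
  have hb0 : 0 < b := bp_pos s hp'
  have e1 : s * Real.log p = n * (Real.log p / L) := by
    rw [hs]
    ring
  have h1 : 1 - ((1 - b) / (1 - a))⁻¹ ≤ Real.log ((1 - b) / (1 - a)) :=
    Real.one_sub_inv_le_log_of_pos (div_pos (by linarith) (by linarith))
  rw [Real.log_div (by linarith) (by linarith), inv_div] at h1
  have h2 : a - b ≤ 1 - (1 - a) / (1 - b) := by
    rw [le_sub_iff_add_le, ← le_sub_iff_add_le', div_le_iff₀ (by linarith)]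
    nlinarith [mul_nonneg hb0.le (show 0 ≤ a - b by linarith)]
  have h3 : a - b = a * (1 - Real.exp (-(n * (Real.log p / L)))) := by
    rw [hb, e1]
    ring
  linarith

lemma two_term (s : ℝ) (hs : 0 ≤ s) {p : ℕ} (hp : p.Prime) : -Real.log (1 - bp s p) ≤ 2 * bp s p := by
  have h1 := bp_le_half s hs hp
  have h0 := bp_pos s hp
  have hpos : 0 < 1 - bp s p := by linarith
  have h2 := Real.one_sub_inv_le_log_of_pos hpos
  have h4 : (1 - bp s p)⁻¹ ≤ 1 + 2 * bp s p := by
    rw [inv_le_iff_one_le_mul₀ hpos]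
    nlinarith [mul_nonneg h0.le (show (0:ℝ) ≤ 1 / 2 - bp s p by linarith)]
  linarith

/-- the contribution of the primes beyond `N` -/
lemma tail : ∃ C : ℝ, 0 ≤ C ∧ ∀ᶠ N : ℕ in atTop, ∀ n : ℕ, 1 ≤ n →
    Real.log (zt (n / Real.log N)) ≤ EE (n / Real.log N) N + Real.exp (-((n : ℝ) - 1)) * C := by
  obtain ⟨C, hC0, hC⟩ := Pool.Agent.Lib.P4a7640L.MertensBAux.mertens_nat
  set C1 : ℝ := -(Pool.Agent.Lib.P4a7640L.MertensBAux.T 2) + Pool.Agent.Lib.P4a7640L.ll 2 + C / Real.log 2 with hC1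
  refine ⟨2 * max (C1 + 3) 0, by positivity, ?_⟩
  have hz := zt_log 1 one_pos
  rw [Nat.cast_one, Real.log_one, neg_zero] at hz
  have hB := Bs_lim 0 0
  filter_upwards [logN.eventually_gt_atTop 0, eventually_ge_atTop 2, hz.eventually (eventually_lt_nhds zero_lt_one),
    hB.eventually (eventually_lt_nhds (show ((0 : ℕ).factorial : ℝ) * (0 : ℕ).factorial / ((0 + 0 + 1).factorial : ℝ) < 2 by norm_num))]
    with N hN hN2 hz1 hB1 n hn
  set L := Real.log N with hL
  have hn0 : (0 : ℝ) < n := by exact_mod_cast hn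
  have hn1 : (1 : ℝ) ≤ n := by exact_mod_cast hn
  have hs0 : 0 < (n : ℝ) / L := by positivity
  have hs1 : 0 < (1 : ℝ) / L := by positivity
  have hN0 : (0 : ℝ) < N := by exact_mod_cast (by omega : 0 < N)
  -- the small primes
  have h1 : Pool.Agent.Lib.P4a7640L.MertensBAux.T N - Bs 0 0 N ≤ ∑ p ∈ Nat.primesLE N, bp (1 / L) p := by
    unfold Pool.Agent.Lib.P4a7640L.MertensBAux.T Bs
    rw [← Finset.sum_sub_distrib]
    refine Finset.sum_le_sum fun p hp => ?_
    have hp' : p.Prime := (Nat.mem_primesLE.1 hp).2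
    have hp0 : (0 : ℝ) < p := by exact_mod_cast hp'.pos
    rw [bp_eq _ hp']
    have h := Real.one_sub_le_exp_neg (1 / L * Real.log p)
    have h2 : (0 : ℝ) < 1 / p := by positivity
    have h3 := mul_le_mul_of_nonneg_left h h2.le
    refine le_trans (le_of_eq ?_) h3
    ring
  have h2 := (abs_le.1 (hC 2 N le_rfl hN2)).1
  have hlow : Real.log L - C1 - 2 ≤ ∑ p ∈ Nat.primesLE N, bp (1 / L) p := by
    have e : Pool.Agent.Lib.P4a7640L.ll (N : ℝ) = Real.log L := rfl
    rw [e] at h2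
    push_cast at h2
    linarith
  have hbig : ∀ y : ℕ, N ≤ y → EE (n / L) y ≤ EE (n / L) N + Real.exp (-((n : ℝ) - 1)) * (2 * max (C1 + 3) 0) := by
    intro y hy
    have hsub : Nat.primesLE N ⊆ Nat.primesLE y := by
      intro p hp
      rw [Nat.mem_primesLE] at hp ⊢
      exact ⟨hp.1.trans hy, hp.2⟩
    have e1 : EE (n / L) y = EE (n / L) N + ∑ p ∈ Nat.primesLE y \ Nat.primesLE N, -Real.log (1 - bp (n / L) p) := by
      unfold EE
      rw [add_comm, Finset.sum_sdiff hsub]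
    have h3 : ∑ p ∈ Nat.primesLE y \ Nat.primesLE N, -Real.log (1 - bp (n / L) p) ≤
        ∑ p ∈ Nat.primesLE y \ Nat.primesLE N, Real.exp (-((n : ℝ) - 1)) * (2 * bp (1 / L) p) := by
      refine Finset.sum_le_sum fun p hp => ?_
      rw [Finset.mem_sdiff, Nat.mem_primesLE, Nat.mem_primesLE] at hp
      have hp' : p.Prime := hp.1.2
      have hp0 : (0 : ℝ) < p := by exact_mod_cast hp'.pos
      have hNp : N < p := by
        by_contra h
        exact hp.2 ⟨not_lt.1 h, hp'⟩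
      have hlogp : L ≤ Real.log p := Real.log_le_log hN0 (by exact_mod_cast hNp.le)
      refine (two_term _ hs0.le hp').trans ?_
      rw [bp_eq _ hp', bp_eq _ hp']
      have h4 : Real.exp (-(n / L * Real.log p)) ≤ Real.exp (-((n : ℝ) - 1)) * Real.exp (-(1 / L * Real.log p)) := by
        rw [← Real.exp_add]
        apply Real.exp_le_exp.2
        have h5 : 1 ≤ Real.log p / L := by rwa [one_le_div hN]
        have e2 : -(n / L * Real.log p) = -(n * (Real.log p / L)) := by ring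
        have e3 : -(1 / L * Real.log p) = -(Real.log p / L) := by ring
        rw [e2, e3]
        nlinarith
      have h6 : (0 : ℝ) < 1 / p := by positivity
      nlinarith [mul_le_mul_of_nonneg_left h4 h6.le]
    have h4 : ∑ p ∈ Nat.primesLE y \ Nat.primesLE N, bp (1 / L) p ≤ max (C1 + 3) 0 := by
      have h5 : ∑ p ∈ Nat.primesLE y, bp (1 / L) p ≤ EE (1 / L) y := by
        unfold EE
        exact Finset.sum_le_sum fun p hp => term_ge _ hs1.le (Nat.mem_primesLE.1 hp).2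
      have h6 := EE_le (1 / L) hs1 y
      have h7 := Finset.sum_sdiff (f := fun p => bp (1 / L) p) hsub
      refine le_trans ?_ (le_max_left _ _)
      linarith
    rw [e1]
    rw [← Finset.mul_sum, ← Finset.mul_sum] at h3
    have h5 : 0 < Real.exp (-((n : ℝ) - 1)) := Real.exp_pos _
    have h6 := mul_le_mul_of_nonneg_left (mul_le_mul_of_nonneg_left h4 (show (0:ℝ) ≤ 2 by norm_num)) h5.le
    linarith
  exact le_of_tendsto (EE_tendsto _ hs0) (by
    filter_upwards [eventually_ge_atTop N] with y hy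
    exact hbig y hy)

/-- the exponential against the polynomial -/
lemma exp_le_pow {k : ℕ} (hk : 2 ≤ k) {u : ℝ} (h0 : 0 ≤ u) (h1 : u ≤ 1) :
    Real.exp (-(((k ^ 2 : ℕ) : ℝ) * u)) ≤ (1 - u) ^ (k ^ 2 - k) + k * Real.exp (-(k : ℝ)) * u := by
  have hk0 : (0 : ℝ) < k := by exact_mod_cast (by omega : 0 < k)
  have hk2 : (2 : ℝ) ≤ k := by exact_mod_cast hk
  have hkk : k ≤ k ^ 2 := by nlinarith
  rcases le_or_gt u (1 / k) with hu | hu
  · have h2 : (1 : ℝ) / k ≤ 1 / 2 := one_div_le_one_div_of_le (by norm_num) hk2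
    have h3 : 0 < 1 - u := by linarith
    have h4 : -(u / (1 - 1 / k)) ≤ Real.log (1 - u) := by
      have h := Real.one_sub_inv_le_log_of_pos h3
      refine le_trans ?_ h
      have e : 1 - (1 - u)⁻¹ = -(u / (1 - u)) := by
        field_simp
        ring
      rw [e]
      apply neg_le_neg
      exact div_le_div_of_nonneg_left h0 (by linarith) (by linarith)
    have h5 : Real.exp (-(((k ^ 2 : ℕ) : ℝ) * u)) ≤ (1 - u) ^ (k ^ 2 - k) := by
      rw [← Real.exp_log (pow_pos h3 _), Real.log_pow]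
      apply Real.exp_le_exp.2
      rw [Nat.cast_sub hkk]
      have h6 : (0 : ℝ) ≤ ((k ^ 2 : ℕ) : ℝ) - k := by
        rw [sub_nonneg]
        exact_mod_cast hkk
      refine le_trans (le_of_eq ?_) (mul_le_mul_of_nonneg_left h4 h6)
      have h7 : (1 : ℝ) - 1 / k ≠ 0 := by linarith
      have h8 : ((k : ℝ) - 1) ≠ 0 := by linarith
      push_cast
      field_simp
    have h6 : 0 ≤ k * Real.exp (-(k : ℝ)) * u := by positivity
    linarith
  · have h2 : Real.exp (-(((k ^ 2 : ℕ) : ℝ) * u)) ≤ Real.exp (-(k : ℝ)) := by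
      apply Real.exp_le_exp.2
      push_cast
      have h3 : 1 ≤ k * u := by
        rw [div_lt_iff₀ hk0] at hu
        linarith
      nlinarith
    have h3 : Real.exp (-(k : ℝ)) ≤ k * Real.exp (-(k : ℝ)) * u := by
      have h3 : 1 ≤ k * u := by
        rw [div_lt_iff₀ hk0] at hu
        linarith
      have h4 := Real.exp_pos (-(k : ℝ))
      nlinarith
    have h4 : 0 ≤ (1 - u) ^ (k ^ 2 - k) := pow_nonneg (by linarith) _
    linarith

lemma mlow : ∃ C : ℝ, 0 ≤ C ∧ ∀ᶠ N : ℕ in atTop, ∀ k : ℕ, 2 ≤ k →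
    Real.log (zt (((k ^ 2 : ℕ) : ℝ) / Real.log N)) - Real.exp (-(((k ^ 2 : ℕ) : ℝ) - 1)) * C +
      Ws (k ^ 2 - k) N - k * Real.exp (-(k : ℝ)) * Bs 0 0 N ≤ Real.log ((Pool.Agent.HLB.DZ N)⁻¹) := by
  obtain ⟨C, hC0, hC⟩ := tail
  refine ⟨C, hC0, ?_⟩
  filter_upwards [hC, logN.eventually_gt_atTop 0] with N h1 hN k hk
  have hk1 : 1 ≤ k ^ 2 := Nat.one_le_pow _ _ (by omega)
  have h2 := h1 (k ^ 2) hk1
  rw [log_DZ]
  have h3 := Finset.sum_le_sum fun p (hp : p ∈ Nat.primesLE N) => low_term (n := k ^ 2) hN hp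
  rw [Finset.sum_add_distrib] at h3
  have h4 : Ws (k ^ 2 - k) N - k * Real.exp (-(k : ℝ)) * Bs 0 0 N ≤
      ∑ p ∈ Nat.primesLE N, 1 / p * (1 - Real.exp (-(((k ^ 2 : ℕ) : ℝ) * (Real.log p / Real.log N)))) := by
    unfold Ws Bs
    rw [Finset.mul_sum, ← Finset.sum_sub_distrib]
    refine Finset.sum_le_sum fun p hp => ?_
    have hp' : p.Prime := (Nat.mem_primesLE.1 hp).2
    have hp0 : (0 : ℝ) < p := by exact_mod_cast hp'.pos
    have hpN : (p : ℝ) ≤ N := by exact_mod_cast (Nat.mem_primesLE.1 hp).1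
    have hlog0 : 0 ≤ Real.log p := Real.log_natCast_nonneg p
    have hu0 : 0 ≤ Real.log p / Real.log N := by positivity
    have hu1 : Real.log p / Real.log N ≤ 1 := by
      rw [div_le_one hN]
      exact Real.log_le_log hp0 hpN
    have h := exp_le_pow hk hu0 hu1
    have h5 : (0 : ℝ) < 1 / p := by positivity
    have h6 := mul_le_mul_of_nonneg_left h h5.le
    simp only [zero_add, pow_one, pow_zero, mul_one]
    linarith
  unfold EE at h2
  linarith

lemma zt_log_sq : ∀ k : ℕ, 2 ≤ k → Tendsto (fun N : ℕ => Real.log (zt (((k ^ 2 : ℕ) : ℝ) / Real.log N)) -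
    Real.log (Real.log N)) atTop (𝓝 (-Real.log ((k ^ 2 : ℕ) : ℝ))) := fun k hk =>
  zt_log (k ^ 2) (Nat.pos_of_ne_zero (pow_ne_zero _ (by omega)))

lemma Bs00 : Tendsto (Bs 0 0) atTop (𝓝 1) := by
  have h := Bs_lim 0 0
  norm_num at h
  exact h

lemma low_seq (C : ℝ) : Tendsto (fun k : ℕ => -Real.log ((k ^ 2 : ℕ) : ℝ) - Real.exp (-(((k ^ 2 : ℕ) : ℝ) - 1)) * C +
      ((harmonic (k ^ 2 - k) : ℚ) : ℝ) - k * Real.exp (-(k : ℝ)) * 1) atTop
    (𝓝 Real.eulerMascheroniConstant) := by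
  have hsq : Tendsto (fun k : ℕ => k ^ 2 - k) atTop atTop := by
    apply tendsto_atTop_mono' _ _ tendsto_id
    filter_upwards [eventually_ge_atTop 2] with k hk
    simp only [id]
    have : k * 2 ≤ k ^ 2 := by nlinarith
    omega
  have h1 := Real.tendsto_harmonic_sub_log.comp hsq
  have h2 : Tendsto (fun k : ℕ => Real.log (1 - 1 / (k : ℝ))) atTop (𝓝 0) := by
    have h : Tendsto (fun k : ℕ => 1 - 1 / (k : ℝ)) atTop (𝓝 (1 - 0)) :=
      tendsto_const_nhds.sub tendsto_one_div_atTop_nhds_zero_nat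
    rw [sub_zero] at h
    have h' := h.log one_ne_zero
    rwa [Real.log_one] at h'
  have hk : Tendsto (fun k : ℕ => (k : ℝ)) atTop atTop := tendsto_natCast_atTop_atTop
  have h3 : Tendsto (fun k : ℕ => Real.exp (-(((k ^ 2 : ℕ) : ℝ) - 1)) * C) atTop (𝓝 0) := by
    have h : Tendsto (fun k : ℕ => Real.exp (-(((k ^ 2 : ℕ) : ℝ) - 1))) atTop (𝓝 0) := by
      refine Real.tendsto_exp_neg_atTop_nhds_zero.comp ?_
      apply tendsto_atTop_add_const_right
      refine tendsto_natCast_atTop_atTop.comp (tendsto_pow_atTop (by norm_num))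
    have h' := h.mul_const C
    rwa [zero_mul] at h'
  have h4 : Tendsto (fun k : ℕ => (k : ℝ) * Real.exp (-(k : ℝ)) * 1) atTop (𝓝 0) := by
    have h := (Real.tendsto_pow_mul_exp_neg_atTop_nhds_zero 1).comp hk
    refine h.congr fun k => ?_
    simp
  have h5 := ((h1.add h2).sub h3).sub h4
  rw [add_zero, sub_zero, sub_zero] at h5
  refine h5.congr' ?_
  filter_upwards [eventually_ge_atTop 2] with k hk2
  have hk0 : (0 : ℝ) < k := by exact_mod_cast (by omega : 0 < k)
  have hk2' : (2 : ℝ) ≤ k := by exact_mod_cast hk2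
  have hkk : k ≤ k ^ 2 := by nlinarith
  have e : (((k ^ 2 - k : ℕ) : ℕ) : ℝ) = (k : ℝ) ^ 2 * (1 - 1 / k) := by
    rw [Nat.cast_sub hkk]
    push_cast
    field_simp
  have h6 : (0 : ℝ) < 1 - 1 / k := by
    have : (1 : ℝ) / k ≤ 1 / 2 := one_div_le_one_div_of_le (by norm_num) hk2'
    linarith
  simp only [Function.comp]
  rw [e, Real.log_mul (by positivity) h6.ne']
  push_cast
  ring

end GMertAux

open GMertAux in
/-- Mertens' third theorem. -/
theorem mertens3 : Tendsto (fun N : ℕ => Real.log ((Pool.Agent.HLB.DZ N)⁻¹) - Real.log (Real.log N)) atTop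
    (𝓝 Real.eulerMascheroniConstant) := by
  rw [tendsto_order]
  constructor
  · intro a ha
    obtain ⟨C, hC0, hC⟩ := mlow
    obtain ⟨k, hk1, hk2⟩ := (((low_seq C).eventually (eventually_gt_nhds ha)).and (eventually_ge_atTop 2)).exists
    have h1 := (((zt_log_sq k hk2).sub_const (Real.exp (-(((k ^ 2 : ℕ) : ℝ) - 1)) * C)).add
      (Ws_lim (k ^ 2 - k))).sub (Bs00.const_mul (k * Real.exp (-(k : ℝ))))
    filter_upwards [hC, h1.eventually (eventually_gt_nhds hk1)] with N h2 h3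
    have h4 := h2 k hk2
    linarith
  · intro b hb
    obtain ⟨C, hC0, hC⟩ := mup
    obtain ⟨n, hn1, hn2⟩ := ((Real.tendsto_harmonic_sub_log.eventually (eventually_lt_nhds hb)).and
      (eventually_ge_atTop 1)).exists
    have h0 : Tendsto (fun N : ℕ => (n : ℝ) / Real.log N * C) atTop (𝓝 0) := by
      have h := (logN.const_div_atTop (n : ℝ)).mul_const C
      rwa [zero_mul] at h
    have h1 := ((zt_log n (by omega)).add (Ws_lim n)).add h0
    have h5 : -Real.log n + ((harmonic n : ℚ) : ℝ) + 0 < b := by linarith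
    filter_upwards [logN.eventually_gt_atTop 0, h1.eventually (eventually_lt_nhds h5)] with N hN h3
    have h4 := hC n N (by omega) hN
    linarith

namespace GMertAux

lemma mert_exp : Tendsto (fun N : ℕ => (Pool.Agent.HLB.DZ N)⁻¹ / Real.log N) atTop (𝓝 eg) := by
  have h := (Real.continuous_exp.tendsto _).comp mertens3
  refine h.congr' ?_
  filter_upwards [logN.eventually_gt_atTop 0] with N hN
  have hD : 0 < (Pool.Agent.HLB.DZ N)⁻¹ := inv_pos.2 (Pool.Agent.HLB.DZ_pos N)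
  simp only [Function.comp]
  rw [Real.exp_sub, Real.exp_log hD, Real.exp_log hN]

end GMertAux

/-- Mertens' third theorem, upper bound. -/
theorem mert_up (ε : ℝ) (hε : 0 < ε) : ∃ z0 : ℕ, ∀ z : ℕ, z0 ≤ z →
    (Pool.Agent.HLB.DZ z)⁻¹ ≤ (eg + ε) * Real.log z := by
  have h := (GMertAux.mert_exp.eventually (eventually_lt_nhds (show eg < eg + ε by linarith))).and
    (GMertAux.logN.eventually_gt_atTop 0)
  obtain ⟨z0, hz0⟩ := eventually_atTop.1 h
  refine ⟨z0, fun z hz => ?_⟩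
  obtain ⟨h1, h2⟩ := hz0 z hz
  rw [div_lt_iff₀ h2] at h1
  exact h1.le

/-- Mertens' third theorem, lower bound. -/
theorem mert_low (ε : ℝ) (hε : 0 < ε) : ∃ z0 : ℕ, ∀ z : ℕ, z0 ≤ z →
    (eg - ε) * Real.log z ≤ (Pool.Agent.HLB.DZ z)⁻¹ := by
  have h := (GMertAux.mert_exp.eventually (eventually_gt_nhds (show eg - ε < eg by linarith))).and
    (GMertAux.logN.eventually_gt_atTop 0)
  obtain ⟨z0, hz0⟩ := eventually_atTop.1 h
  refine ⟨z0, fun z hz => ?_⟩
  obtain ⟨h1, h2⟩ := hz0 z hz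
  rw [lt_div_iff₀ h2] at h1
  exact h1.le

end Pool.Agent.Lib.LEN
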