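import Pool.Agent.Lib.LEN.Cls

/-!
# LEN.GMiss: almost all tuples miss many residue classes

The number `Z h` of the residue classes modulo `p` missed by `h ∈ A ^ r` is 1-Lipschitz in each coordinate; its mean is
`∑_j (1 - q_j)^r ≥ p (1 - 1/p)^r`. Finite form of the bounded differences inequality, by induction on `r`.
-/

set_option autoImplicit false

open Finset Filter

namespace Pool.Agent.Lib.LEN

open Pool.Agent.HLB Pool.Agent.HLT Pool.Agent.HLR Pool.Agent.Lib.GMV

namespace GMissAux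

lemma sum_cons_nat {j : ℕ} (s : Finset ℕ) (F : (Fin (j + 1) → ℕ) → ℝ) :
    ∑ h ∈ Fintype.piFinset (fun _ : Fin (j + 1) => s), F h =
      ∑ a ∈ s, ∑ h ∈ Fintype.piFinset (fun _ : Fin j => s), F (Fin.cons a h) := by
  rw [← Finset.sum_product']
  refine Finset.sum_bij' (fun h _ => (h 0, Fin.tail h)) (fun p _ => Fin.cons p.1 p.2) ?_ ?_ ?_ ?_ ?_
  · intro h hh
    rw [Fintype.mem_piFinset] at hh
    rw [Finset.mem_product, Fintype.mem_piFinset]
    exact ⟨hh 0, fun i => hh i.succ⟩
  · intro p hp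
    rw [Finset.mem_product, Fintype.mem_piFinset] at hp
    rw [Fintype.mem_piFinset]
    intro i
    refine Fin.cases ?_ (fun k => ?_) i
    · simpa using hp.1
    · simpa using hp.2 k
  · intro h _
    exact Fin.cons_self_tail h
  · intro p _
    simp [Fin.tail_cons]
  · intro h _
    rw [Fin.cons_self_tail h]

/-- Hoeffding's lemma for a finite average. -/
lemma hoeffding (A : Finset ℕ) (hA : A.Nonempty) (g : ℕ → ℝ) (hg : ∀ x ∈ A, ∀ y ∈ A, |g x - g y| ≤ 1)
    (s : ℝ) : ∑ x ∈ A, Real.exp (s * (g x - (∑ y ∈ A, g y) / A.card)) ≤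
      A.card * Real.exp (s ^ 2 / 2) := by
  have hc : (0 : ℝ) < A.card := by exact_mod_cast hA.card_pos
  -- Jensen
  have h1 : Real.exp (-(s * ((∑ y ∈ A, g y) / A.card))) ≤ (∑ y ∈ A, Real.exp (-(s * g y))) / A.card := by
    have h2 := (convexOn_exp).map_sum_le (t := A) (w := fun _ => (1 : ℝ) / A.card)
      (p := fun y => -(s * g y)) (fun _ _ => by positivity)
      (by rw [sum_const, nsmul_eq_mul, mul_one_div, div_self hc.ne']) (fun _ _ => Set.mem_univ _)
    simp only [smul_eq_mul] at h2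
    rw [← mul_sum, ← mul_sum] at h2
    have h3 : (1 : ℝ) / A.card * ∑ i ∈ A, -(s * g i) = -(s * ((∑ y ∈ A, g y) / A.card)) := by
      rw [sum_neg_distrib, ← mul_sum]
      ring
    rw [h3] at h2
    refine h2.trans (le_of_eq ?_)
    ring
  have h2 : ∑ x ∈ A, Real.exp (s * (g x - (∑ y ∈ A, g y) / A.card)) =
      (∑ x ∈ A, Real.exp (s * g x)) * Real.exp (-(s * ((∑ y ∈ A, g y) / A.card))) := by
    rw [sum_mul]
    refine sum_congr rfl fun x _ => ?_
    rw [← Real.exp_add]
    congr 1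
    ring
  have h3 : (∑ x ∈ A, Real.exp (s * g x)) * (∑ y ∈ A, Real.exp (-(s * g y))) =
      ∑ x ∈ A, ∑ y ∈ A, Real.cosh (s * (g x - g y)) := by
    have e1 : (∑ x ∈ A, Real.exp (s * g x)) * (∑ y ∈ A, Real.exp (-(s * g y))) =
        ∑ x ∈ A, ∑ y ∈ A, Real.exp (s * (g x - g y)) := by
      rw [sum_mul_sum]
      refine sum_congr rfl fun x _ => sum_congr rfl fun y _ => ?_
      rw [← Real.exp_add]
      congr 1
      ring
    have e2 : ∑ x ∈ A, ∑ y ∈ A, Real.exp (s * (g x - g y)) =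
        ∑ x ∈ A, ∑ y ∈ A, Real.exp (-(s * (g x - g y))) := by
      rw [sum_comm]
      refine sum_congr rfl fun x _ => sum_congr rfl fun y _ => ?_
      congr 1
      ring
    have e3 : ∑ x ∈ A, ∑ y ∈ A, Real.cosh (s * (g x - g y)) =
        (∑ x ∈ A, ∑ y ∈ A, Real.exp (s * (g x - g y)) +
          ∑ x ∈ A, ∑ y ∈ A, Real.exp (-(s * (g x - g y)))) / 2 := by
      rw [← sum_add_distrib, sum_div]
      refine sum_congr rfl fun x _ => ?_
      rw [← sum_add_distrib, sum_div]
      refine sum_congr rfl fun y _ => ?_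
      rw [Real.cosh_eq]
    rw [e1, e3, ← e2]
    ring
  have h4 : ∑ x ∈ A, ∑ y ∈ A, Real.cosh (s * (g x - g y)) ≤
      ∑ _x ∈ A, ∑ _y ∈ A, Real.exp (s ^ 2 / 2) := by
    refine sum_le_sum fun x hx => sum_le_sum fun y hy => ?_
    refine (Real.cosh_le_exp_half_sq _).trans (Real.exp_le_exp.2 ?_)
    have h5 : (g x - g y) ^ 2 ≤ 1 := by
      have := hg x hx y hy
      rw [← sq_abs]
      exact pow_le_one₀ (abs_nonneg _) this
    have h6 : (s * (g x - g y)) ^ 2 = s ^ 2 * (g x - g y) ^ 2 := by ring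
    rw [h6]
    have h7 := mul_le_mul_of_nonneg_left h5 (sq_nonneg s)
    linarith
  rw [h2]
  have h5 : 0 ≤ ∑ x ∈ A, Real.exp (s * g x) := sum_nonneg fun _ _ => (Real.exp_pos _).le
  refine (mul_le_mul_of_nonneg_left h1 h5).trans ?_
  rw [mul_div_assoc', h3, div_le_iff₀ hc]
  refine h4.trans (le_of_eq ?_)
  rw [sum_const, sum_const, nsmul_eq_mul, nsmul_eq_mul]
  ring

/-- Bounded differences. -/
def Lip {r : ℕ} (f : (Fin r → ℕ) → ℝ) : Prop :=
  ∀ (h : Fin r → ℕ) (i : Fin r) (x : ℕ), |f (Function.update h i x) - f h| ≤ 1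

lemma Lip.cons {r : ℕ} {f : (Fin (r + 1) → ℕ) → ℝ} (hf : Lip f) (a : ℕ) :
    Lip (fun t : Fin r → ℕ => f (Fin.cons a t)) := by
  intro h i x
  have h1 := hf (Fin.cons a h) i.succ x
  rwa [← Fin.cons_update] at h1

lemma Lip.head {r : ℕ} {f : (Fin (r + 1) → ℕ) → ℝ} (hf : Lip f) (a b : ℕ) (t : Fin r → ℕ) :
    |f (Fin.cons a t) - f (Fin.cons b t)| ≤ 1 := by
  have h1 := hf (Fin.cons b t) 0 a
  rwa [Fin.update_cons_zero] at h1

/-- The bounded differences inequality, exponential moment. -/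
lemma expmom (A : Finset ℕ) (hA : A.Nonempty) (s : ℝ) : ∀ (r : ℕ) (f : (Fin r → ℕ) → ℝ), Lip f →
    ∑ h ∈ Fintype.piFinset (fun _ : Fin r => A), Real.exp (s * (f h -
      (∑ t ∈ Fintype.piFinset (fun _ : Fin r => A), f t) / (A.card : ℝ) ^ r)) ≤
      (A.card : ℝ) ^ r * Real.exp (r * (s ^ 2 / 2)) := by
  have hc : (0 : ℝ) < A.card := by exact_mod_cast hA.card_pos
  intro r
  induction r with
  | zero =>
    intro f _
    have h1 : Fintype.piFinset (fun _ : Fin 0 => A) = {fun i => i.elim0} := by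
      ext x
      rw [Fintype.mem_piFinset, mem_singleton]
      exact ⟨fun _ => Subsingleton.elim _ _, fun _ i => i.elim0⟩
    rw [h1, sum_singleton, sum_singleton]
    simp
  | succ r ih =>
    intro f hf
    set V : ℝ := (A.card : ℝ) ^ r with hV
    have hV0 : 0 < V := by positivity
    set g : ℕ → ℝ := fun a => (∑ t ∈ Fintype.piFinset (fun _ : Fin r => A), f (Fin.cons a t)) / V with hg
    have hcardpi : ((Fintype.piFinset (fun _ : Fin r => A)).card : ℝ) = V := by
      rw [Fintype.card_piFinset_const]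
      push_cast
      rfl
    have hglip : ∀ x ∈ A, ∀ y ∈ A, |g x - g y| ≤ 1 := by
      intro x _ y _
      rw [hg]
      simp only
      rw [← sub_div, ← sum_sub_distrib, abs_div, abs_of_pos hV0, div_le_one hV0]
      refine (abs_sum_le_sum_abs _ _).trans ?_
      refine (sum_le_sum fun t _ => hf.head x y t).trans (le_of_eq ?_)
      rw [sum_const, nsmul_eq_mul, mul_one, hcardpi]
    have hmean : (∑ t ∈ Fintype.piFinset (fun _ : Fin (r + 1) => A), f t) / (A.card : ℝ) ^ (r + 1) =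
        (∑ y ∈ A, g y) / A.card := by
      rw [sum_cons_nat, hg]
      simp only
      rw [← sum_div, div_div, pow_succ]
    rw [hmean, sum_cons_nat]
    set μ : ℝ := (∑ y ∈ A, g y) / A.card with hμ
    have h1 : ∀ a ∈ A, ∑ h ∈ Fintype.piFinset (fun _ : Fin r => A),
        Real.exp (s * (f (Fin.cons a h) - μ)) ≤
        V * Real.exp (r * (s ^ 2 / 2)) * Real.exp (s * (g a - μ)) := by
      intro a _
      have h2 := ih (fun t => f (Fin.cons a t)) (hf.cons a)
      have h3 : ∑ h ∈ Fintype.piFinset (fun _ : Fin r => A), Real.exp (s * (f (Fin.cons a h) - μ)) =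
          (∑ h ∈ Fintype.piFinset (fun _ : Fin r => A), Real.exp (s * (f (Fin.cons a h) - g a))) *
            Real.exp (s * (g a - μ)) := by
        rw [sum_mul]
        refine sum_congr rfl fun t _ => ?_
        rw [← Real.exp_add]
        congr 1
        ring
      rw [h3]
      exact mul_le_mul_of_nonneg_right h2 (Real.exp_pos _).le
    refine (sum_le_sum h1).trans ?_
    rw [← mul_sum]
    have h2 := hoeffding A hA g hglip s
    refine (mul_le_mul_of_nonneg_left h2 (by positivity)).trans (le_of_eq ?_)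
    rw [hV, pow_succ, Nat.cast_succ, add_mul, Real.exp_add, one_mul]
    ring

/-- The number of the missed classes. -/
noncomputable def ZZ (p : ℕ) {r : ℕ} (h : Fin r → ℕ) : ℝ := (p : ℝ) - nuI h p

lemma lip_ZZ (p r : ℕ) : Lip (fun h : Fin r → ℕ => ZZ p h) := by
  classical
  intro h i x
  have key : ∀ (h : Fin r → ℕ) (y : ℕ), nuI (Function.update h i y) p ≤
      (univ.erase i |>.image fun j => ((h j : ℕ) : ZMod p)).card + 1 := by
    intro h y
    unfold nuI
    have h1 : univ.image (fun j => ((Function.update h i y j : ℕ) : ZMod p)) ⊆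
        insert ((y : ℕ) : ZMod p) ((univ.erase i).image fun j => ((h j : ℕ) : ZMod p)) := by
      intro c hc
      obtain ⟨j, -, rfl⟩ := mem_image.1 hc
      by_cases hj : j = i
      · subst hj
        rw [Function.update_self]
        exact mem_insert_self _ _
      · rw [Function.update_of_ne hj]
        exact mem_insert_of_mem (mem_image_of_mem _ (mem_erase.2 ⟨hj, mem_univ _⟩))
    exact (card_le_card h1).trans (card_insert_le _ _)
  have key2 : ∀ (h : Fin r → ℕ) (y : ℕ),
      (univ.erase i |>.image fun j => ((h j : ℕ) : ZMod p)).card ≤ nuI (Function.update h i y) p := by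
    intro h y
    unfold nuI
    refine card_le_card fun c hc => ?_
    obtain ⟨j, hj, rfl⟩ := mem_image.1 hc
    refine mem_image.2 ⟨j, mem_univ _, ?_⟩
    rw [Function.update_of_ne (mem_erase.1 hj).1]
  have h1 := key h x
  have h2 := key2 h x
  have h3 := key h (h i)
  have h4 := key2 h (h i)
  rw [Function.update_eq_self] at h3 h4
  have e1 : (nuI (Function.update h i x) p : ℝ) ≤ nuI h p + 1 := by
    have : nuI (Function.update h i x) p ≤ nuI h p + 1 := by omega
    exact_mod_cast this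
  have e2 : (nuI h p : ℝ) ≤ nuI (Function.update h i x) p + 1 := by
    have : nuI h p ≤ nuI (Function.update h i x) p + 1 := by omega
    exact_mod_cast this
  simp only [ZZ]
  rw [abs_le]
  constructor <;> linarith

/-- The mean number of missed classes. -/
lemma mean_ZZ (p r : ℕ) (hp : p.Prime) (A : Finset ℕ) :
    (p : ℝ) * (1 - 1 / (p : ℝ)) ^ r * (A.card : ℝ) ^ r ≤
      ∑ h ∈ Fintype.piFinset (fun _ : Fin r => A), ZZ p h := by
  classical
  have hpf : Fact p.Prime := ⟨hp⟩
  have hp0 : (0 : ℝ) < p := by exact_mod_cast hp.pos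
  have h1 : ∀ h : Fin r → ℕ, ZZ p h =
      ∑ j : ZMod p, if ∀ i, ((h i : ℕ) : ZMod p) ≠ j then (1 : ℝ) else 0 := by
    intro h
    unfold ZZ nuI
    rw [← sum_filter, sum_const, nsmul_eq_mul, mul_one]
    have h2 : univ.filter (fun j : ZMod p => ∀ i, ((h i : ℕ) : ZMod p) ≠ j) =
        (univ.image fun i => ((h i : ℕ) : ZMod p))ᶜ := by
      ext j
      rw [mem_filter, mem_compl, mem_image]
      constructor
      · rintro ⟨-, h3⟩ ⟨i, -, h4⟩
        exact h3 i h4
      · intro h3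
        exact ⟨mem_univ _, fun i h4 => h3 ⟨i, mem_univ _, h4⟩⟩
    rw [h2, card_compl, ZMod.card, Nat.cast_sub]
    exact (card_le_univ _).trans (by rw [ZMod.card])
  rw [sum_congr rfl fun h _ => h1 h, sum_comm]
  have h2 : ∀ j : ZMod p, ∑ h ∈ Fintype.piFinset (fun _ : Fin r => A),
      (if ∀ i, ((h i : ℕ) : ZMod p) ≠ j then (1 : ℝ) else 0) =
      ((A.filter fun a => ((a : ℕ) : ZMod p) ≠ j).card : ℝ) ^ r := by
    intro j
    rw [← sum_filter, sum_const, nsmul_eq_mul, mul_one]
    have h3 : (Fintype.piFinset fun _ : Fin r => A).filter (fun h => ∀ i, ((h i : ℕ) : ZMod p) ≠ j) =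
        Fintype.piFinset fun _ : Fin r => A.filter fun a => ((a : ℕ) : ZMod p) ≠ j := by
      ext h
      rw [mem_filter, Fintype.mem_piFinset, Fintype.mem_piFinset]
      simp only [mem_filter]
      exact ⟨fun h => fun i => ⟨h.1 i, h.2 i⟩, fun h => ⟨fun i => (h i).1, fun i => (h i).2⟩⟩
    rw [h3, Fintype.card_piFinset_const]
    push_cast
    rfl
  rw [sum_congr rfl fun j _ => h2 j]
  -- the sum of the sizes
  have h3 : ∑ j : ZMod p, ((A.filter fun a => ((a : ℕ) : ZMod p) ≠ j).card : ℝ) =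
      (p - 1) * A.card := by
    have h4 : ∀ j : ZMod p, ((A.filter fun a => ((a : ℕ) : ZMod p) ≠ j).card : ℝ) =
        A.card - (A.filter fun a => ((a : ℕ) : ZMod p) = j).card := by
      intro j
      have h5 := card_filter_add_card_filter_not (s := A) (fun a => ((a : ℕ) : ZMod p) = j)
      rw [← h5]
      push_cast
      ring
    rw [sum_congr rfl fun j _ => h4 j, sum_sub_distrib, sum_const, card_univ, ZMod.card,
      nsmul_eq_mul]
    have h6 : ∑ j : ZMod p, ((A.filter fun a => ((a : ℕ) : ZMod p) = j).card : ℝ) = A.card := by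
      have h7 := card_eq_sum_card_fiberwise (s := A) (t := (univ : Finset (ZMod p)))
        (f := fun a => ((a : ℕ) : ZMod p)) (fun _ _ => mem_coe.2 (mem_univ _))
      rw [h7]
      push_cast
      rfl
    rw [h6]
    ring
  -- the power mean inequality
  have h4 := Real.pow_arith_mean_le_arith_mean_pow (s := (univ : Finset (ZMod p)))
    (w := fun _ => (1 : ℝ) / p) (z := fun j => ((A.filter fun a => ((a : ℕ) : ZMod p) ≠ j).card : ℝ))
    (fun _ _ => by positivity)
    (by rw [sum_const, card_univ, ZMod.card, nsmul_eq_mul, mul_one_div, div_self hp0.ne'])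
    (fun _ _ => Nat.cast_nonneg _) r
  rw [← mul_sum, ← mul_sum, h3] at h4
  have h5 := mul_le_mul_of_nonneg_left h4 hp0.le
  have h6 : (p : ℝ) * (1 / p * ∑ j : ZMod p,
      ((A.filter fun a => ((a : ℕ) : ZMod p) ≠ j).card : ℝ) ^ r) =
      ∑ j : ZMod p, ((A.filter fun a => ((a : ℕ) : ZMod p) ≠ j).card : ℝ) ^ r := by
    field_simp
  rw [h6] at h5
  refine le_trans (le_of_eq ?_) h5
  rw [mul_assoc, ← mul_pow]
  congr 2
  field_simp

end GMissAux

open GMissAux

open scoped Classical in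
/-- Module GMiss: almost all tuples miss many residue classes. -/
theorem missed (δ K : ℝ) (hδ : 0 < δ) (hK : 1 ≤ K) : ∃ c1 c2 : ℝ, 0 < c1 ∧ 0 < c2 ∧ ∃ r0 : ℕ,
    ∀ r : ℕ, r0 ≤ r → ∀ p : ℕ, p.Prime → δ * r ≤ p → (p : ℝ) ≤ K * r → ∀ A : Finset ℕ,
    (((Fintype.piFinset fun _ : Fin r => A).filter
      (fun h => (p : ℝ) - nuI h p < c1 * r)).card : ℝ) ≤ Real.exp (-(c2 * r)) * (A.card : ℝ) ^ r := by
  obtain ⟨c1, hc1⟩ : ∃ c1 : ℝ, c1 = δ * Real.exp (-(2 / δ)) / 2 := ⟨_, rfl⟩
  have hc10 : 0 < c1 := by rw [hc1]; positivity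
  refine ⟨c1, c1 ^ 2 / 2, hc10, by positivity, 1, ?_⟩
  intro r hr p hp hpr _ A
  have hr1 : (1 : ℝ) ≤ r := by exact_mod_cast hr
  have hr0 : (0 : ℝ) < r := by linarith
  have hp2 : (2 : ℝ) ≤ p := by exact_mod_cast hp.two_le
  have hp0 : (0 : ℝ) < p := by linarith
  rcases A.eq_empty_or_nonempty with hA | hA
  · subst hA
    have h1 : (Fintype.piFinset fun _ : Fin r => (∅ : Finset ℕ)) = ∅ := by
      rw [← card_eq_zero, Fintype.card_piFinset_const, card_empty, zero_pow (by omega)]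
    rw [h1, filter_empty, card_empty, Nat.cast_zero]
    positivity
  have hc : (0 : ℝ) < A.card := by exact_mod_cast hA.card_pos
  set V : ℝ := (A.card : ℝ) ^ r with hV
  have hV0 : 0 < V := by positivity
  set S : ℝ := ∑ h ∈ Fintype.piFinset (fun _ : Fin r => A), ZZ p h with hS
  have hmean : 2 * c1 * r ≤ S / V := by
    rw [le_div_iff₀ hV0]
    refine le_trans ?_ (mean_ZZ p r hp A)
    refine mul_le_mul_of_nonneg_right ?_ hV0.le
    have h1 : Real.exp (-(2 / p)) ≤ 1 - 1 / (p : ℝ) := by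
      -- `exp (-2x) ≤ 1 - x` for `x ≤ 1/2`
      have h2 := Real.add_one_le_exp (2 / (p : ℝ))
      have h3 : (0 : ℝ) < 1 - 1 / p := by
        have : 1 / (p : ℝ) ≤ 1 / 2 := one_div_le_one_div_of_le (by norm_num) hp2
        linarith
      rw [Real.exp_neg, inv_le_comm₀ (Real.exp_pos _) h3]
      refine le_trans ?_ h2
      rw [inv_le_iff_one_le_mul₀ h3]
      have h4 : (0 : ℝ) < 1 / p := by positivity
      have h5 : 1 / (p : ℝ) ≤ 1 / 2 := one_div_le_one_div_of_le (by norm_num) hp2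
      have h6 : (2 : ℝ) / p = 2 * (1 / p) := by ring
      rw [h6]
      nlinarith
    have h2 : Real.exp (-(2 / δ)) ≤ (1 - 1 / (p : ℝ)) ^ r := by
      have h3 := pow_le_pow_left₀ (Real.exp_pos _).le h1 r
      refine le_trans ?_ h3
      rw [← Real.exp_nat_mul]
      refine Real.exp_le_exp.2 ?_
      have h4 : (r : ℝ) * (2 / p) ≤ 2 / δ := by
        rw [mul_div_assoc', div_le_div_iff₀ hp0 hδ]
        nlinarith
      linarith
    calc 2 * c1 * r = δ * r * Real.exp (-(2 / δ)) := by rw [hc1]; ring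
      _ ≤ p * (1 - 1 / (p : ℝ)) ^ r := mul_le_mul hpr h2 (Real.exp_pos _).le hp0.le
  have hexp := expmom A hA (-c1) r (fun h => ZZ p h) (lip_ZZ p r)
  have h1 : ∀ h ∈ (Fintype.piFinset fun _ : Fin r => A).filter
      (fun h => (p : ℝ) - nuI h p < c1 * r),
      Real.exp (c1 ^ 2 * r) ≤ Real.exp (-c1 * (ZZ p h - S / V)) := by
    intro h hh
    have h2 : ZZ p h < c1 * r := (mem_filter.1 hh).2
    refine Real.exp_le_exp.2 ?_
    nlinarith
  have h2 := sum_le_sum h1
  rw [sum_const, nsmul_eq_mul] at h2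
  have h3 : ∑ h ∈ (Fintype.piFinset fun _ : Fin r => A).filter
      (fun h => (p : ℝ) - nuI h p < c1 * r), Real.exp (-c1 * (ZZ p h - S / V)) ≤
      V * Real.exp (r * ((-c1) ^ 2 / 2)) := by
    refine (sum_le_sum_of_subset_of_nonneg (filter_subset _ _)
      fun _ _ _ => (Real.exp_pos _).le).trans ?_
    exact hexp
  have h4 := h2.trans h3
  rw [← le_div_iff₀ (Real.exp_pos _)] at h4
  refine h4.trans (le_of_eq ?_)
  rw [mul_div_assoc, ← Real.exp_sub, mul_comm V]
  congr 2
  ring

end Pool.Agent.Lib.LEN
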