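import Pool.Agent.Lib.LEN.GDefs
import Pool.Agent.Lib.LEN.GMiss
import Pool.Agent.Lib.LEN.GGreedy
import Pool.Agent.Lib.LEN.LocK

/-!
# LEN.GShare: almost all admissible tuples miss many classes modulo every prime of size r (helper3)
-/

set_option autoImplicit false

open Finset Filter

namespace Pool.Agent.Lib.LEN

open Pool.Agent.HLB Pool.Agent.HLT Pool.Agent.HLR Pool.Agent.Lib.GMV

namespace GShareAux

/-- The integers of `[1, N]` coprime to the primes `≤ T` after the shift by `c`. -/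
def sc (N T c : ℕ) : Finset ℕ := (Icc 1 N).filter fun m => Nat.Coprime (c + m) (PP T)

lemma mem_sc {N T r : ℕ} {h : Fin r → ℕ} (hh : h ∈ Tup r (Icc 1 N)) (ha : Adm h) :
    ∃ c ∈ range (PP T), h ∈ Fintype.piFinset (fun _ : Fin r => sc N T c) := by
  classical
  have h1 : 1 ≤ nA T h := (nA_pos T h).2 fun p hp => ha.2 p (Nat.mem_primesLE.1 hp).2
  unfold nA at h1
  obtain ⟨n, hn⟩ := Finset.card_pos.1 (show 0 < _ from h1)
  obtain ⟨hn1, hn2⟩ := Finset.mem_filter.1 hn
  exact ⟨n, hn1, Fintype.mem_piFinset.2 fun i =>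
    Finset.mem_filter.2 ⟨Fintype.mem_piFinset.1 hh i, hn2 i⟩⟩

/-- A class modulo every prime `≤ T` is missed. -/
lemma sc_miss {N T c p : ℕ} (hp : p.Prime) (hpT : p ≤ T) :
    ∃ d : ℕ, ∀ b ∈ sc N T c, ¬ b ≡ d [MOD p] := by
  refine ⟨p - c % p, fun b hb h => ?_⟩
  have h1 := (Finset.mem_filter.1 hb).2
  have h2 : p ∣ PP T := Finset.dvd_prod_of_mem (fun q => q) (Nat.mem_primesLE.2 ⟨hpT, hp⟩)
  have h3 : Nat.Coprime (c + b) p := Nat.Coprime.coprime_dvd_right h2 h1
  have h4 : c + b ≡ 0 [MOD p] := by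
    have e1 : c + b ≡ c % p + (p - c % p) [MOD p] := Nat.ModEq.add (Nat.mod_modEq c p).symm h
    have e2 : c % p + (p - c % p) = p := by
      have := Nat.mod_lt c hp.pos
      omega
    rw [e2] at e1
    exact e1.trans (by simp [Nat.ModEq])
  have h5 : p ∣ c + b := (Nat.modEq_zero_iff_dvd).1 h4
  exact (Nat.Prime.coprime_iff_not_dvd hp).1 h3.symm h5

/-- The primes above `T`. -/
lemma sc_zero (N T : ℕ) : (Nat.primeCounting N : ℝ) - T ≤ (sc N T 0).card := by
  have h1 : (Nat.primesLE N).filter (fun p => T < p) ⊆ sc N T 0 := by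
    intro p hp
    obtain ⟨h2, h3⟩ := Finset.mem_filter.1 hp
    obtain ⟨h4, h5⟩ := Nat.mem_primesLE.1 h2
    refine Finset.mem_filter.2 ⟨Finset.mem_Icc.2 ⟨h5.one_lt.le, h4⟩, ?_⟩
    rw [zero_add, Nat.Prime.coprime_iff_not_dvd h5]
    intro h6
    obtain ⟨q, hq, hpq⟩ := (Prime.dvd_finset_prod_iff h5.prime _).1 h6
    obtain ⟨h7, h8⟩ := Nat.mem_primesLE.1 hq
    have h9 := (Nat.prime_dvd_prime_iff_eq h5 h8).1 hpq
    omega
  have h2 : (Nat.primesLE N).card ≤ ((Nat.primesLE N).filter (fun p => T < p)).card + T := by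
    have h3 : (Nat.primesLE N).filter (fun p => ¬ T < p) ⊆ Icc 1 T := by
      intro p hp
      obtain ⟨h2, h3⟩ := Finset.mem_filter.1 hp
      exact Finset.mem_Icc.2 ⟨(Nat.mem_primesLE.1 h2).2.one_lt.le, not_lt.1 h3⟩
    have h4 := Finset.card_le_card h3
    rw [Nat.card_Icc, Nat.add_sub_cancel] at h4
    have h5 := Finset.card_filter_add_card_filter_not (s := Nat.primesLE N) (fun p => T < p)
    omega
  have h3 := Finset.card_le_card h1
  rw [Nat.primesLE_card_eq_primeCounting] at h2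
  have h4 : Nat.primeCounting N ≤ (sc N T 0).card + T := h2.trans (Nat.add_le_add_right h3 T)
  have h5 : (Nat.primeCounting N : ℝ) ≤ (sc N T 0).card + T := by exact_mod_cast h4
  linarith

/-- The product over the primes of `(η r, r]` tends to one. -/
lemma prod_ge (η δ1 : ℝ) (hη : 0 < η) (hδ : 0 < δ1) : ∃ r0 : ℕ, ∀ r : ℕ, r0 ≤ r →
    1 - δ1 ≤ ∏ p ∈ (Nat.primesLE r).filter (fun p => ⌊η * r⌋₊ < p), (1 - 1 / (p : ℝ)) := by
  have h1 := (Chebyshev.eventually_primeCounting_le (ε := 1) one_pos).and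
    ((Real.tendsto_log_atTop.eventually_ge_atTop (3 / (η * δ1))).and (eventually_ge_atTop (2 : ℝ)))
  obtain ⟨x0, hx0⟩ := eventually_atTop.1 (tendsto_natCast_atTop_atTop.eventually h1)
  refine ⟨x0, fun r hr => ?_⟩
  obtain ⟨h2, h3, h4⟩ := hx0 r hr
  rw [Nat.floor_natCast] at h2
  have hr0 : (0 : ℝ) < r := by linarith
  have hl : 0 < Real.log r := lt_of_lt_of_le (by positivity) h3
  have hP : ∀ p ∈ (Nat.primesLE r).filter (fun p => ⌊η * r⌋₊ < p), 1 / (p : ℝ) ≤ 1 / (η * r) := by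
    intro p hp
    have h5 : η * r < p := by
      have h6 := Nat.lt_floor_add_one (η * r)
      have h7 : (⌊η * r⌋₊ : ℝ) + 1 ≤ p := by exact_mod_cast (Finset.mem_filter.1 hp).2
      linarith
    exact one_div_le_one_div_of_le (by positivity) h5.le
  have h5 := LocKAux.one_sub_sum_le ((Nat.primesLE r).filter (fun p => ⌊η * r⌋₊ < p))
    (fun p => 1 / (p : ℝ)) (fun p _ => by positivity) (fun p hp => by
      have h6 := (Nat.mem_primesLE.1 (Finset.mem_filter.1 hp).1).2.one_lt.le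
      have h7 : (1 : ℝ) ≤ p := by exact_mod_cast h6
      rw [div_le_one (by linarith)]
      exact h7)
  refine le_trans ?_ h5
  have h6 : ∑ p ∈ (Nat.primesLE r).filter (fun p => ⌊η * r⌋₊ < p), 1 / (p : ℝ) ≤
      (Nat.primeCounting r : ℝ) * (1 / (η * r)) := by
    refine (Finset.sum_le_card_nsmul _ _ _ hP).trans ?_
    rw [nsmul_eq_mul]
    refine mul_le_mul_of_nonneg_right ?_ (by positivity)
    rw [← Nat.primesLE_card_eq_primeCounting]
    exact_mod_cast Finset.card_filter_le _ _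
  have h7 : Real.log 4 ≤ 2 := by
    have e1 : Real.log 4 = 2 * Real.log 2 := by
      rw [show (4 : ℝ) = 2 ^ 2 by norm_num, Real.log_pow]
      norm_num
    have e2 := Real.log_two_lt_d9
    linarith
  have h8 : (Nat.primeCounting r : ℝ) * (1 / (η * r)) ≤ δ1 := by
    calc (Nat.primeCounting r : ℝ) * (1 / (η * r)) ≤ ((Real.log 4 + 1) * r / Real.log r) *
        (1 / (η * r)) := mul_le_mul_of_nonneg_right h2 (by positivity)
      _ = (Real.log 4 + 1) / η / Real.log r := by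
        field_simp
      _ ≤ 3 / η / Real.log r := by
        refine div_le_div_of_nonneg_right ?_ hl.le
        exact div_le_div_of_nonneg_right (by linarith) hη.le
      _ ≤ δ1 := by
        rw [div_le_iff₀ hl]
        rw [div_le_iff₀ (by positivity)] at h3
        rw [div_le_iff₀ hη]
        nlinarith
  linarith

/-- Many primes. -/
lemma many (B ε : ℝ) (hB : 0 < B) (hε : 0 < ε) : ∃ N0 : ℕ, ∀ N : ℕ, N0 ≤ N →
    B * (N : ℝ) ^ (1 - ε) ≤ Nat.primeCounting N := by
  have h1 : ∀ᶠ N : ℕ in atTop, Real.log (N : ℝ) ≤ 1 / (4 * B) * (N : ℝ) ^ ε :=  by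
    have := (isLittleO_log_rpow_atTop hε).bound (show 0 < 1 / (4 * B) by positivity)
    filter_upwards [tendsto_natCast_atTop_atTop.eventually this, eventually_ge_atTop 1] with N hN h1N
    have h2 : 0 ≤ Real.log (N : ℝ) := Real.log_natCast_nonneg N
    have h3 : (0 : ℝ) ≤ (N : ℝ) ^ ε := by positivity
    rw [Real.norm_of_nonneg h2, Real.norm_of_nonneg h3] at hN
    exact hN
  have h2 : ∀ᶠ N : ℕ in atTop, Real.log (N : ℝ) ≤ 1 / 8 * (N : ℝ) := by
    have := Real.isLittleO_log_id_atTop.bound (show (0 : ℝ) < 1 / 8 by norm_num)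
    filter_upwards [tendsto_natCast_atTop_atTop.eventually this] with N hN
    have h2 : 0 ≤ Real.log (N : ℝ) := Real.log_natCast_nonneg N
    rw [Real.norm_of_nonneg h2, id, Real.norm_of_nonneg (by positivity)] at hN
    exact hN
  obtain ⟨N0, hN0⟩ := eventually_atTop.1 (h1.and (h2.and (eventually_ge_atTop 16)))
  refine ⟨N0, fun N hN => ?_⟩
  obtain ⟨h3, h4, h5⟩ := hN0 N hN
  have hN1 : (16 : ℝ) ≤ N := by exact_mod_cast h5
  have hl : 0 < Real.log (N : ℝ) := Real.log_pos (by linarith)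
  have h6 := Chebyshev.pi_ge N
  refine le_trans ?_ h6
  rw [le_div_iff₀ hl]
  have h7 : Real.log ((N : ℝ) + 1) ≤ Real.log N + 1 := by
    have e1 : Real.log ((N : ℝ) + 1) ≤ Real.log (2 * N) := Real.log_le_log (by linarith) (by linarith)
    rw [Real.log_mul (by norm_num) (by linarith)] at e1
    have e2 := Real.log_two_lt_d9
    linarith
  have h8 : (1 : ℝ) / 2 ≤ Real.log 2 := by
    have := Real.log_two_gt_d9
    linarith
  have h9 : B * (N : ℝ) ^ (1 - ε) * Real.log N ≤ N / 4 := by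
    calc B * (N : ℝ) ^ (1 - ε) * Real.log N ≤ B * (N : ℝ) ^ (1 - ε) * (1 / (4 * B) * (N : ℝ) ^ ε) :=
        mul_le_mul_of_nonneg_left h3 (by positivity)
      _ = ((N : ℝ) ^ (1 - ε) * (N : ℝ) ^ ε) / 4 := by
        field_simp
      _ = N / 4 := by
        rw [← Real.rpow_add (by linarith)]
        norm_num
  nlinarith

/-- The exponential beats the linear factor. -/
lemma expo_small (K c2 ε : ℝ) (hc2 : 0 < c2) (hε : 0 < ε) : ∃ r0 : ℕ, ∀ r : ℕ, r0 ≤ r →
    (K * r + 1) * Real.exp (-(c2 * r)) ≤ ε := by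
  have h1 : Tendsto (fun x : ℝ => (K * x + 1) * Real.exp (-(c2 * x))) atTop (nhds 0) := by
    have e1 := (Real.tendsto_pow_mul_exp_neg_atTop_nhds_zero 1)
    have e2 := (Real.tendsto_pow_mul_exp_neg_atTop_nhds_zero 0)
    have e3 : Tendsto (fun x : ℝ => c2 * x) atTop atTop := Tendsto.const_mul_atTop hc2 tendsto_id
    have e4 := (((e1.comp e3).const_mul (K / c2)).add (e2.comp e3))
    simp only [mul_zero, add_zero] at e4
    refine e4.congr fun x => ?_
    simp only [Function.comp_apply, pow_one, pow_zero, one_mul]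
    field_simp
  obtain ⟨r0, hr0⟩ := eventually_atTop.1 (tendsto_natCast_atTop_atTop.eventually
    (h1.eventually (ge_mem_nhds hε)))
  exact ⟨r0, fun r hr => hr0 r hr⟩

end GShareAux

open GShareAux

open scoped Classical in
/-- Almost all admissible tuples miss at least `c1 r` classes modulo every prime `p ∈ [δ r, K r]`. -/
theorem rich_share (δ K : ℝ) (hδ : 0 < δ) (hK : 1 ≤ K) (c ε : ℝ) (hc : 0 < c) (hε : 0 < ε) :
    ∃ c1 : ℝ, 0 < c1 ∧ ∃ N0 : ℕ, ∀ N : ℕ, N0 ≤ N → ∀ r : ℕ,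
    (N : ℝ) ^ c ≤ r → (r : ℝ) ≤ (N : ℝ) ^ (1 - ε) →
    (((Tup r (Icc 1 N)).filter (fun h => Adm h ∧ ¬ Rich δ K c1 h)).card : ℝ) ≤
    ε * ((Tup r (Icc 1 N)).filter (fun h => Adm h)).card := by
  obtain ⟨c1, c2', hc1, hc2', r0, hmiss⟩ := missed δ K hδ hK
  refine ⟨c1, hc1, ?_⟩
  obtain ⟨c2, hc2d⟩ : ∃ c2 : ℝ, c2 = min c2' 1 := ⟨_, rfl⟩
  have hc2 : 0 < c2 := by rw [hc2d]; exact lt_min hc2' one_pos
  have hc2l : c2 ≤ c2' := by rw [hc2d]; exact min_le_left _ _
  have hc21 : c2 ≤ 1 := by rw [hc2d]; exact min_le_right _ _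
  obtain ⟨η, hηd⟩ : ∃ η : ℝ, η = c2 / 8 := ⟨_, rfl⟩
  have hη : 0 < η := by rw [hηd]; positivity
  have hη1 : η ≤ 1 := by rw [hηd]; linarith
  obtain ⟨D, hDd⟩ : ∃ D : ℝ, D = 1 - Real.exp (-(c2 / 4)) := ⟨_, rfl⟩
  have hD : 0 < D := by
    rw [hDd]
    have := Real.exp_lt_one_iff.2 (show -(c2 / 4) < 0 by linarith)
    linarith
  have hD1 : D < 1 := by
    rw [hDd]
    have := Real.exp_pos (-(c2 / 4))
    linarith
  obtain ⟨r1, hr1⟩ := prod_ge η (D / 2) hη (by positivity)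
  obtain ⟨N1, hN1⟩ := many (1 + 2 / D) ε (by positivity) hε
  obtain ⟨r2, hr2⟩ := expo_small K (c2 / 2) ε (by positivity) hε
  obtain ⟨N2, hN2⟩ := eventually_atTop.1 (((tendsto_rpow_atTop hc).comp
    tendsto_natCast_atTop_atTop).eventually_ge_atTop ((max (max r0 r1) (max r2 1) : ℕ) : ℝ))
  refine ⟨max N1 N2, fun N hN r hr hr' => ?_⟩
  have g1 := hN1 N ((le_max_left _ _).trans hN)
  have g2 : max (max r0 r1) (max r2 1) ≤ r := by
    have := (hN2 N ((le_max_right _ _).trans hN)).trans hr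
    exact_mod_cast this
  have gr0 : r0 ≤ r := ((le_max_left _ _).trans (le_max_left _ _)).trans g2
  have gr1 : r1 ≤ r := ((le_max_right _ _).trans (le_max_left _ _)).trans g2
  have gr2 : r2 ≤ r := ((le_max_left _ _).trans (le_max_right _ _)).trans g2
  have g1r : 1 ≤ r := ((le_max_right _ _).trans (le_max_right _ _)).trans g2
  have hrpos : (1 : ℝ) ≤ r := by exact_mod_cast g1r
  obtain ⟨T, hT⟩ : ∃ T : ℕ, T = ⌊η * r⌋₊ := ⟨_, rfl⟩
  have hTr : (T : ℝ) ≤ η * r := by
    rw [hT]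
    exact Nat.floor_le (by positivity)
  -- the best class
  obtain ⟨cs, hcs, hmax⟩ := Finset.exists_max_image (range (PP T)) (fun c => (sc N T c).card)
    ⟨0, Finset.mem_range.2 (PP_pos T)⟩
  obtain ⟨M, hM⟩ : ∃ M : ℝ, M = (sc N T cs).card := ⟨_, rfl⟩
  have hMr : (r : ℝ) ≤ D / 2 * M := by
    have e1 := sc_zero N T
    have e2 : ((sc N T 0).card : ℝ) ≤ M := by
      rw [hM]
      exact_mod_cast hmax 0 (Finset.mem_range.2 (PP_pos T))
    have e3 : (1 + 2 / D) * (r : ℝ) ≤ (1 + 2 / D) * (N : ℝ) ^ (1 - ε) :=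
      mul_le_mul_of_nonneg_left hr' (by positivity)
    have e4 : (T : ℝ) ≤ r := hTr.trans (by nlinarith)
    have e5 : 2 / D * (r : ℝ) ≤ M := by linarith
    have e6 : D / 2 * (2 / D * (r : ℝ)) = r := by field_simp
    rw [← e6]
    exact mul_le_mul_of_nonneg_left e5 (by positivity)
  have hM0 : 0 ≤ M := by rw [hM]; positivity
  -- many admissible tuples
  have hadm : (Real.exp (-(c2 / 4)) * M) ^ r ≤
      (((Tup r (Icc 1 N)).filter (fun h => Adm h)).card : ℝ) := by
    obtain ⟨B, hB, hB1, hB2⟩ := greedy (sc N T cs) ((Nat.primesLE r).filter (fun p => ⌊η * r⌋₊ < p))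
      (fun p hp => (Nat.mem_primesLE.1 (Finset.mem_filter.1 hp).1).2)
    have e1 := adm_lower N r B (hB.trans (Finset.filter_subset _ _)) (fun p hp hpr => by
      by_cases hpT : p ≤ T
      · obtain ⟨d, hd⟩ := sc_miss (N := N) (c := cs) hp hpT
        exact ⟨d, fun b hb => hd b (hB hb)⟩
      · refine hB1 p (Finset.mem_filter.2 ⟨Nat.mem_primesLE.2 ⟨hpr, hp⟩, ?_⟩)
        rw [← hT]
        exact not_le.1 hpT)
    refine le_trans (pow_le_pow_left₀ (by positivity) ?_ r) e1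
    have e2 : (1 - D / 2) * M ≤ B.card := by
      refine le_trans ?_ hB2
      rw [← hM, mul_comm]
      exact mul_le_mul_of_nonneg_left (hr1 r gr1) hM0
    have e3 : Real.exp (-(c2 / 4)) = 1 - D := by rw [hDd]; ring
    have e4 : ((B.card : ℝ) + 1 - r) ≤ ((B.card + 1 - r : ℕ) : ℝ) := by
      rw [sub_le_iff_le_add]
      exact_mod_cast (show B.card + 1 ≤ (B.card + 1 - r) + r by omega)
    rw [e3]
    nlinarith
  -- the bad tuples
  have hbad : (((Tup r (Icc 1 N)).filter (fun h => Adm h ∧ ¬ Rich δ K c1 h)).card : ℝ) ≤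
      4 ^ T * ((K * r + 1) * (Real.exp (-(c2 * r)) * M ^ r)) := by
    obtain ⟨Q, hQ⟩ : ∃ Q : Finset ℕ, Q = (Nat.primesLE ⌊K * r⌋₊).filter (fun p : ℕ => δ * r ≤ (p : ℝ)) := ⟨_, rfl⟩
    have e1 : (Tup r (Icc 1 N)).filter (fun h => Adm h ∧ ¬ Rich δ K c1 h) ⊆
        (range (PP T)).biUnion fun c => Q.biUnion fun p =>
          (Fintype.piFinset fun _ : Fin r => sc N T c).filter
            (fun h => (p : ℝ) - nuI h p < c1 * r) := by
      intro h hh
      obtain ⟨h1, h2, h3⟩ := Finset.mem_filter.1 hh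
      unfold Rich at h3
      push Not at h3
      obtain ⟨p, hp, hp1, hp2, hp3⟩ := h3
      obtain ⟨c, hc, hcm⟩ := mem_sc (T := T) h1 h2
      refine Finset.mem_biUnion.2 ⟨c, hc, Finset.mem_biUnion.2 ⟨p, ?_, Finset.mem_filter.2
        ⟨hcm, hp3⟩⟩⟩
      rw [hQ]
      exact Finset.mem_filter.2 ⟨Nat.mem_primesLE.2 ⟨Nat.le_floor hp2, hp⟩, hp1⟩
    have hexp : Real.exp (-(c2' * r)) ≤ Real.exp (-(c2 * r)) := by
      refine Real.exp_le_exp.2 ?_
      have := mul_le_mul_of_nonneg_right hc2l (show (0 : ℝ) ≤ r by positivity)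
      linarith
    have e2 : ∀ c ∈ range (PP T), ((Q.biUnion fun p =>
          (Fintype.piFinset fun _ : Fin r => sc N T c).filter
            (fun h => (p : ℝ) - nuI h p < c1 * r)).card : ℝ) ≤
        (K * r + 1) * (Real.exp (-(c2 * r)) * M ^ r) := by
      intro c hc
      have f1 : ((Q.biUnion fun p => (Fintype.piFinset fun _ : Fin r => sc N T c).filter
            (fun h => (p : ℝ) - nuI h p < c1 * r)).card : ℝ) ≤
          ∑ p ∈ Q, (((Fintype.piFinset fun _ : Fin r => sc N T c).filter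
            (fun h => (p : ℝ) - nuI h p < c1 * r)).card : ℝ) := by
        exact_mod_cast Finset.card_biUnion_le
      refine f1.trans ?_
      have f2 : ∀ p ∈ Q, (((Fintype.piFinset fun _ : Fin r => sc N T c).filter
            (fun h => (p : ℝ) - nuI h p < c1 * r)).card : ℝ) ≤ Real.exp (-(c2 * r)) * M ^ r := by
        intro p hp
        rw [hQ] at hp
        obtain ⟨hp1, hp2⟩ := Finset.mem_filter.1 hp
        obtain ⟨hp3, hp4⟩ := Nat.mem_primesLE.1 hp1
        have hp5 : (p : ℝ) ≤ K * r := (Nat.le_floor_iff (by positivity)).1 hp3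
        refine (hmiss r gr0 p hp4 hp2 hp5 (sc N T c)).trans ?_
        refine mul_le_mul hexp (pow_le_pow_left₀ (by positivity) ?_ r) (by positivity)
          (Real.exp_nonneg _)
        rw [hM]
        exact_mod_cast hmax c hc
      refine (Finset.sum_le_card_nsmul _ _ _ f2).trans ?_
      rw [nsmul_eq_mul]
      refine mul_le_mul_of_nonneg_right ?_ (by positivity)
      have f3 : Q.card ≤ ⌊K * r⌋₊ + 1 := by
        have f4 : Q ⊆ range (⌊K * r⌋₊ + 1) := by
          intro p hp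
          rw [hQ] at hp
          have := (Nat.mem_primesLE.1 (Finset.mem_filter.1 hp).1).1
          exact Finset.mem_range.2 (by omega)
        have := Finset.card_le_card f4
        rwa [Finset.card_range] at this
      have f5 : (⌊K * r⌋₊ : ℝ) ≤ K * r := Nat.floor_le (by positivity)
      have f6 : (Q.card : ℝ) ≤ (⌊K * r⌋₊ : ℝ) + 1 := by exact_mod_cast f3
      linarith
    have e3 : (((Tup r (Icc 1 N)).filter (fun h => Adm h ∧ ¬ Rich δ K c1 h)).card : ℝ) ≤
        ∑ c ∈ range (PP T), ((Q.biUnion fun p =>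
          (Fintype.piFinset fun _ : Fin r => sc N T c).filter
            (fun h => (p : ℝ) - nuI h p < c1 * r)).card : ℝ) := by
      exact_mod_cast (Finset.card_le_card e1).trans Finset.card_biUnion_le
    refine e3.trans ((Finset.sum_le_card_nsmul _ _ _ e2).trans ?_)
    rw [nsmul_eq_mul, Finset.card_range]
    refine mul_le_mul_of_nonneg_right ?_ (by positivity)
    exact_mod_cast PP_le T
  -- comparison
  have h4T : (4 : ℝ) ^ T ≤ Real.exp (c2 / 4 * r) := by
    have e1 : (4 : ℝ) ≤ Real.exp 2 := by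
      have := Real.add_one_le_exp (1 : ℝ)
      have h2 : Real.exp 2 = Real.exp 1 * Real.exp 1 := by rw [← Real.exp_add]; norm_num
      rw [h2]
      nlinarith
    calc (4 : ℝ) ^ T ≤ Real.exp 2 ^ T := pow_le_pow_left₀ (by norm_num) e1 T
      _ = Real.exp (T * 2) := by rw [← Real.exp_nat_mul]
      _ ≤ Real.exp (c2 / 4 * r) := Real.exp_le_exp.2 (by rw [hηd] at hTr; linarith)
  have hfin := hr2 r gr2
  have hsplit : Real.exp (c2 / 4 * r) * Real.exp (-(c2 * r)) =
      Real.exp (-(c2 / 2 * r)) * Real.exp (-(c2 / 4)) ^ r := by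
    rw [← Real.exp_nat_mul, ← Real.exp_add, ← Real.exp_add]
    congr 1
    ring
  calc (((Tup r (Icc 1 N)).filter (fun h => Adm h ∧ ¬ Rich δ K c1 h)).card : ℝ) ≤
      4 ^ T * ((K * r + 1) * (Real.exp (-(c2 * r)) * M ^ r)) := hbad
    _ ≤ Real.exp (c2 / 4 * r) * ((K * r + 1) * (Real.exp (-(c2 * r)) * M ^ r)) :=
      mul_le_mul_of_nonneg_right h4T (by positivity)
    _ = (K * r + 1) * (Real.exp (c2 / 4 * r) * Real.exp (-(c2 * r))) * M ^ r := by ring
    _ = ((K * r + 1) * Real.exp (-(c2 / 2 * r))) * (Real.exp (-(c2 / 4)) * M) ^ r := by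
      rw [hsplit, mul_pow]
      ring
    _ ≤ ε * (Real.exp (-(c2 / 4)) * M) ^ r := mul_le_mul_of_nonneg_right hfin (by positivity)
    _ ≤ ε * ((Tup r (Icc 1 N)).filter (fun h => Adm h)).card :=
      mul_le_mul_of_nonneg_left hadm hε.le

end Pool.Agent.Lib.LEN
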