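import Mathlib

/-!
# LEN.JAbs: distance of two measures from a truncated second moment
-/

set_option autoImplicit false

open Finset

namespace Pool.Agent.Lib.LEN

/-- `∑_S |P - Q| ≤ √(∑_T P²/Q - 2 P(T) + Q(T)) √(Q(T)) + P(S - T) + Q(S - T)`, for all
`P, Q ≥ 0` on `S`. -/
theorem JAbsAux.abs_le {α : Type*} [DecidableEq α] (S T : Finset α) (hTS : T ⊆ S) (P Q : α → ℝ)
    (hP : ∀ x ∈ S, 0 ≤ P x) (hQ : ∀ x ∈ S, 0 ≤ Q x) (h0 : ∀ x ∈ T, Q x = 0 → P x = 0) :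
    0 ≤ ∑ x ∈ T, P x ^ 2 / Q x - 2 * ∑ x ∈ T, P x + ∑ x ∈ T, Q x ∧
    ∑ x ∈ S, |P x - Q x| ≤
      Real.sqrt (∑ x ∈ T, P x ^ 2 / Q x - 2 * ∑ x ∈ T, P x + ∑ x ∈ T, Q x) *
        Real.sqrt (∑ x ∈ T, Q x) +
      ((∑ x ∈ S, P x - ∑ x ∈ T, P x) + (∑ x ∈ S, Q x - ∑ x ∈ T, Q x)) := by
  have hpt : ∀ x ∈ T, (P x - Q x) ^ 2 / Q x = P x ^ 2 / Q x - 2 * P x + Q x := by
    intro x hx
    by_cases h : Q x = 0
    · rw [h0 x hx h, h]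
      norm_num
    · field_simp
      ring
  have hX : ∑ x ∈ T, (P x - Q x) ^ 2 / Q x =
      ∑ x ∈ T, P x ^ 2 / Q x - 2 * ∑ x ∈ T, P x + ∑ x ∈ T, Q x := by
    rw [sum_congr rfl hpt, sum_add_distrib, sum_sub_distrib, mul_sum]
  have hX0 : 0 ≤ ∑ x ∈ T, (P x - Q x) ^ 2 / Q x :=
    sum_nonneg fun x hx => div_nonneg (sq_nonneg _) (hQ x (hTS hx))
  refine ⟨hX ▸ hX0, ?_⟩
  have hCS : ∑ x ∈ T, |P x - Q x| ≤
      Real.sqrt (∑ x ∈ T, (P x - Q x) ^ 2 / Q x) * Real.sqrt (∑ x ∈ T, Q x) := by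
    have h1 : ∀ x ∈ T, |P x - Q x| = Real.sqrt ((P x - Q x) ^ 2 / Q x) * Real.sqrt (Q x) := by
      intro x hx
      have hq := hQ x (hTS hx)
      by_cases h : Q x = 0
      · rw [h0 x hx h, h]
        norm_num
      · have hq' : 0 < Q x := lt_of_le_of_ne hq (Ne.symm h)
        rw [Real.sqrt_div (sq_nonneg _), Real.sqrt_sq_eq_abs,
          div_mul_cancel₀ _ (Real.sqrt_pos.2 hq').ne']
    rw [sum_congr rfl h1]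
    have h2 := sum_mul_sq_le_sq_mul_sq T (fun x => Real.sqrt ((P x - Q x) ^ 2 / Q x))
      (fun x => Real.sqrt (Q x))
    have h3 : ∑ x ∈ T, Real.sqrt ((P x - Q x) ^ 2 / Q x) ^ 2 = ∑ x ∈ T, (P x - Q x) ^ 2 / Q x :=
      sum_congr rfl fun x hx => Real.sq_sqrt (div_nonneg (sq_nonneg _) (hQ x (hTS hx)))
    have h4 : ∑ x ∈ T, Real.sqrt (Q x) ^ 2 = ∑ x ∈ T, Q x :=
      sum_congr rfl fun x hx => Real.sq_sqrt (hQ x (hTS hx))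
    rw [h3, h4] at h2
    rw [← Real.sqrt_mul hX0]
    exact Real.le_sqrt_of_sq_le h2
  have hsplit : ∀ F : α → ℝ, ∑ x ∈ S, F x = ∑ x ∈ T, F x + ∑ x ∈ S \ T, F x := by
    intro F
    rw [add_comm]
    exact (sum_sdiff hTS).symm
  have h5 : ∑ x ∈ S \ T, |P x - Q x| ≤ ∑ x ∈ S \ T, P x + ∑ x ∈ S \ T, Q x := by
    rw [← sum_add_distrib]
    refine sum_le_sum fun x hx => ?_
    have hxS := (mem_sdiff.1 hx).1
    have := hP x hxS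
    have := hQ x hxS
    rw [_root_.abs_le]
    constructor <;> linarith
  have h6 := hsplit P
  have h7 := hsplit Q
  have h9 := hsplit fun x => |P x - Q x|
  rw [← hX]
  linarith

/-- Module JAbs: `tv_abs` without normalisation. -/
theorem j_abs {α : Type*} [DecidableEq α] (S T : Finset α) (hTS : T ⊆ S) (P Q : α → ℝ)
    (hP : ∀ x ∈ S, 0 ≤ P x) (hQ : ∀ x ∈ S, 0 ≤ Q x) (h0 : ∀ x ∈ T, Q x = 0 → P x = 0) :
    0 ≤ ∑ x ∈ T, P x ^ 2 / Q x - 2 * ∑ x ∈ T, P x + ∑ x ∈ S, Q x ∧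
    ∑ x ∈ S, |P x - Q x| ≤
      2 * Real.sqrt ((∑ x ∈ S, Q x) * (∑ x ∈ T, P x ^ 2 / Q x - 2 * ∑ x ∈ T, P x + ∑ x ∈ S, Q x)) +
      2 * (∑ x ∈ S, P x - ∑ x ∈ T, P x) + (∑ x ∈ S, Q x - ∑ x ∈ S, P x) := by
  have hQT : ∑ x ∈ T, Q x ≤ ∑ x ∈ S, Q x :=
    sum_le_sum_of_subset_of_nonneg hTS fun x hx _ => hQ x hx
  have hQS : 0 ≤ ∑ x ∈ S, Q x := sum_nonneg hQ
  obtain ⟨h1, h2⟩ := JAbsAux.abs_le S T hTS P Q hP hQ h0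
  have h3 : ∑ x ∈ T, P x ^ 2 / Q x - 2 * ∑ x ∈ T, P x + ∑ x ∈ T, Q x ≤
      ∑ x ∈ T, P x ^ 2 / Q x - 2 * ∑ x ∈ T, P x + ∑ x ∈ S, Q x := by linarith
  refine ⟨h1.trans h3, ?_⟩
  have h4 := Real.sqrt_le_sqrt h3
  have h5 := Real.sqrt_le_sqrt hQT
  have h6 : Real.sqrt (∑ x ∈ T, P x ^ 2 / Q x - 2 * ∑ x ∈ T, P x + ∑ x ∈ T, Q x) *
        Real.sqrt (∑ x ∈ T, Q x) ≤
      Real.sqrt ((∑ x ∈ S, Q x) *
        (∑ x ∈ T, P x ^ 2 / Q x - 2 * ∑ x ∈ T, P x + ∑ x ∈ S, Q x)) := by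
    rw [Real.sqrt_mul hQS, mul_comm (Real.sqrt (∑ x ∈ S, Q x))]
    exact mul_le_mul h4 h5 (Real.sqrt_nonneg _) (Real.sqrt_nonneg _)
  obtain ⟨-, h8⟩ := JAbsAux.abs_le T T (subset_refl T) P Q (fun x hx => hP x (hTS hx))
    (fun x hx => hQ x (hTS hx)) h0
  have h9 : ∑ x ∈ T, P x - ∑ x ∈ T, Q x ≤ ∑ x ∈ T, |P x - Q x| := by
    rw [← sum_sub_distrib]
    exact sum_le_sum fun x _ => le_abs_self _
  linarith

/-- `|P(E) - Q(E)| ≤ ∑_S |P - Q|`. -/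
theorem JAbsAux.abs_ge {α : Type*} [DecidableEq α] (S E : Finset α) (hES : E ⊆ S) (P Q : α → ℝ) :
    |∑ x ∈ E, P x - ∑ x ∈ E, Q x| ≤ ∑ x ∈ S, |P x - Q x| := by
  rw [← sum_sub_distrib]
  refine (abs_sum_le_sum_abs _ _).trans ?_
  exact sum_le_sum_of_subset_of_nonneg hES fun x _ _ => abs_nonneg _

end Pool.Agent.Lib.LEN
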