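import Pool.Agent.Lib.LEN.JModel

/-!
# LEN.JAll: the joint law for all levels `w ∈ [ε y, (log N) / 200]` of the model at once
-/

set_option autoImplicit false

open Finset Filter

namespace Pool.Agent.Lib.LEN

open Pool.Agent.HLB Pool.Agent.HLT Pool.Agent.HLR Pool.Agent.Lib.GMV

open JFinAux JFarFAux JModAux GoodXAux LevelsAux

namespace JAllAux

/-- Changing the level of the model. -/
lemma DJ_change (N w w' : ℕ) {r D : ℕ} (h : Fin r → ℕ) (hp : 0 ≤ pr N h) (s : Fin D → ℕ) :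
    DJ N w h s ≤ DJ N w' h s + pr N h * ∑ T : Finset (Fin D), |QH N w h s T - QH N w' h s T| := by
  unfold DJ
  rw [mul_sum, ← sum_add_distrib]
  refine sum_le_sum fun T _ => ?_
  have e : (cntP N h s T : ℝ) - pr N h * QH N w h s T =
      ((cntP N h s T : ℝ) - pr N h * QH N w' h s T) -
        pr N h * (QH N w h s T - QH N w' h s T) := by ring
  rw [e]
  refine (abs_sub _ _).trans (add_le_add le_rfl ?_)
  rw [abs_mul, abs_of_nonneg hp]

lemma card_Tup_real (N D : ℕ) : ((Tup D (Icc 1 N)).card : ℝ) = (N : ℝ) ^ D := by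
  rw [card_Tup, Nat.card_Icc, Nat.add_sub_cancel]
  push_cast
  rfl

end JAllAux

open JAllAux

open scoped Classical in
/-- The joint law below the line, for all levels of the model at once. -/
theorem j_half_all (C1 cA : ℝ) (h1 : 0 < C1) (hA : 0 < cA) (cw d B' : ℝ) (hcw : 0 < cw)
    (hd : 0 < d) (hB' : 1 ≤ B') (hI : LevI C1 cA 2 cw d B') : ∃ C0 : ℝ,
    ∀ C2 cB : ℝ, C0 ≤ C2 → 0 < cB → ∀ ε : ℝ, 0 < ε → ∃ N0 : ℕ, ∀ N : ℕ, N0 ≤ N →
    GoodX cA C1 cB C2 N → ∀ r D : ℕ, (r : ℝ) + D / Real.log N ≤ (1 - ε) * yy N →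
      (((Tup r (Icc 1 N)).filter (fun h => Adm h ∧ ∃ w : ℕ, ε * yy N ≤ w ∧
        (w : ℝ) ≤ Real.log N / 200 ∧ ε * (N : ℝ) ^ D <
        (((Tup D (Icc 1 N)).filter (fun s => ε * pr N h < DJ N w h s)).card : ℝ))).card : ℝ) ≤
      ε * ((Tup r (Icc 1 N)).filter (fun h => Adm h)).card := by
  obtain ⟨C0, hhalf⟩ := j_half C1 cA h1 hA cw d B' hcw hd hB' hI
  refine ⟨C0, fun C2 cB hC2 hcB ε hε => ?_⟩
  obtain ⟨e, he⟩ : ∃ e : ℝ, e = min (ε / 4) (1 / 4) := ⟨_, rfl⟩
  have he0 : 0 < e := by rw [he]; positivity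
  have heε : e ≤ ε / 4 := by rw [he]; exact min_le_left _ _
  have he4 : e ≤ 1 / 4 := by rw [he]; exact min_le_right _ _
  obtain ⟨κ, hκd⟩ : ∃ κ : ℝ, κ = min ε (cw / 2) := ⟨_, rfl⟩
  have hκ : 0 < κ := by rw [hκd]; positivity
  have hκ1 : κ ≤ ε := by rw [hκd]; exact min_le_left _ _
  have hκ2 : κ ≤ cw / 2 := by rw [hκd]; exact min_le_right _ _
  obtain ⟨N1, hN1⟩ := hhalf C2 cB hC2 hcB e he0
  obtain ⟨N2, hN2⟩ := j_model κ e (e ^ 2) hκ he0 (by linarith) (by positivity)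
  obtain ⟨N3, hN3⟩ := JFarAux.sizesW 1 one_pos 2
  obtain ⟨N4, hN4⟩ := large (2 / cw)
  obtain ⟨N5, hN5⟩ := ll_big (200 * cw)
  refine ⟨max (max N1 N2) (max N3 (max N4 N5)), ?_⟩
  intro N hN hG r D hrD
  have g1 : N1 ≤ N := ((le_max_left _ _).trans (le_max_left _ _)).trans hN
  have g2 : N2 ≤ N := ((le_max_right _ _).trans (le_max_left _ _)).trans hN
  have g3 : N3 ≤ N := ((le_max_left _ _).trans (le_max_right _ _)).trans hN
  have g4 : N4 ≤ N := ((le_max_left _ _).trans ((le_max_right _ _).trans (le_max_right _ _))).trans hN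
  have g5 : N5 ≤ N := ((le_max_right _ _).trans ((le_max_right _ _).trans (le_max_right _ _))).trans hN
  obtain ⟨gN, hy2, hyL, -⟩ := hN3 N g3
  obtain ⟨hLe, hyc⟩ := hN4 N g4
  have hNr : (3 : ℝ) ≤ N := by exact_mod_cast gN
  have hN0 : (0 : ℝ) < N := by linarith
  have hL : 0 < Real.log N := Real.log_pos (by linarith)
  have hND : (0 : ℝ) < (N : ℝ) ^ D := by positivity
  have hD0 : (0 : ℝ) ≤ D / Real.log N := by positivity
  have hr0 : (0 : ℝ) ≤ r := Nat.cast_nonneg r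
  have hy1 : (1 - ε) * yy N ≤ yy N := by nlinarith
  have hr : (r : ℝ) ≤ yy N := by linarith
  have hD : (D : ℝ) ≤ yy N * Real.log N := by
    rw [← div_le_iff₀ hL]
    linarith
  have hrD' : (r : ℝ) + D / Real.log N ≤ (1 - e) * yy N := by
    refine hrD.trans (mul_le_mul_of_nonneg_right ?_ (by linarith))
    linarith
  have hA1 := hN1 N g1 hG r D hrD'
  have hA2 := hN2 N g2 r hr
  set w0 : ℕ := ⌊cw * yy N⌋₊ with hw0
  have hw0a : κ * yy N ≤ w0 := by
    have h2 : cw * yy N < w0 + 1 := Nat.lt_floor_add_one _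
    rw [div_le_iff₀ hcw] at hyc
    have h3 : κ * yy N ≤ cw / 2 * yy N := mul_le_mul_of_nonneg_right hκ2 (by linarith)
    linarith
  have hw0b : (w0 : ℝ) ≤ Real.log N / 200 := by
    have h2 : (w0 : ℝ) ≤ cw * yy N := Nat.floor_le (by positivity)
    have h3 := yy_le (K := 200 * cw) hLe (hN5 N g5)
    linarith
  have hH0 : (0 : ℝ) ≤ (((Tup r (Icc 1 N)).filter (fun h => Adm h)).card : ℝ) :=
    Nat.cast_nonneg _
  have hsub : (Tup r (Icc 1 N)).filter (fun h => Adm h ∧ ∃ w : ℕ, ε * yy N ≤ w ∧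
        (w : ℝ) ≤ Real.log N / 200 ∧ ε * (N : ℝ) ^ D <
        (((Tup D (Icc 1 N)).filter (fun s => ε * pr N h < DJ N w h s)).card : ℝ)) ⊆
      ((Tup r (Icc 1 N)).filter (fun h => Adm h ∧ e * (N : ℝ) ^ D <
        (((Tup D (Icc 1 N)).filter (fun s => e * pr N h < DJ N w0 h s)).card : ℝ))) ∪
      ((Tup r (Icc 1 N)).filter (fun h => Adm h ∧ ¬ (∀ w1 w2 : ℕ, κ * yy N ≤ w1 → w1 ≤ w2 →
        (w2 : ℝ) ≤ Real.log N / 200 → ∀ D : ℕ, (D : ℝ) ≤ yy N * Real.log N →
          ∑ s ∈ Tup D (Icc 1 N), ∑ T : Finset (Fin D), |QH N w1 h s T - QH N w2 h s T| ≤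
            e ^ 2 * (N : ℝ) ^ D))) := by
    intro h hh
    rw [mem_filter] at hh
    obtain ⟨hhT, hadm, w, hw1, hw2, hbig⟩ := hh
    rw [mem_union, mem_filter, mem_filter]
    by_contra hcon
    push Not at hcon
    obtain ⟨c1, c2⟩ := hcon
    have c1 := c1 hhT hadm
    have c2 := c2 hhT hadm
    have hp := pr_nonneg N h hadm
    -- the comparison of the levels
    have hcmp : ∑ s ∈ Tup D (Icc 1 N), ∑ T : Finset (Fin D),
        |QH N w h s T - QH N w0 h s T| ≤ e ^ 2 * (N : ℝ) ^ D := by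
      have hwκ : κ * yy N ≤ w := le_trans (mul_le_mul_of_nonneg_right hκ1 (by linarith)) hw1
      rcases le_total w w0 with hle | hle
      · exact c2 w w0 hwκ hle hw0b D hD
      · have h3 := c2 w0 w hw0a hle hw2 D hD
        refine le_trans (le_of_eq ?_) h3
        refine sum_congr rfl fun s _ => sum_congr rfl fun T _ => ?_
        rw [abs_sub_comm]
    set TV : (Fin D → ℕ) → ℝ := fun s => ∑ T : Finset (Fin D),
      |QH N w h s T - QH N w0 h s T| with hTV
    have hTV0 : ∀ s, 0 ≤ TV s := fun s => sum_nonneg fun T _ => abs_nonneg _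
    have hM : (((Tup D (Icc 1 N)).filter (fun s => e < TV s)).card : ℝ) ≤ e * (N : ℝ) ^ D := by
      have h4 : (((Tup D (Icc 1 N)).filter (fun s => e < TV s)).card : ℝ) * e ≤
          e ^ 2 * (N : ℝ) ^ D := by
        refine le_trans ?_ hcmp
        rw [← nsmul_eq_mul, ← sum_const]
        refine (sum_le_sum (f := fun _ => e) (g := fun s => TV s)
          fun s hs => (mem_filter.1 hs).2.le).trans ?_
        exact sum_le_sum_of_subset_of_nonneg (filter_subset _ _) fun s _ _ => hTV0 s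
      refine le_of_mul_le_mul_right (h4.trans (le_of_eq ?_)) he0
      ring
    have hsub2 : (Tup D (Icc 1 N)).filter (fun s => ε * pr N h < DJ N w h s) ⊆
        ((Tup D (Icc 1 N)).filter (fun s => e * pr N h < DJ N w0 h s)) ∪
        ((Tup D (Icc 1 N)).filter (fun s => e < TV s)) := by
      intro s hs
      rw [mem_filter] at hs
      rw [mem_union, mem_filter, mem_filter]
      by_contra hcon2
      push Not at hcon2
      have d1 := hcon2.1 hs.1
      have d2 := hcon2.2 hs.1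
      have d3 := DJ_change N w w0 h hp s
      have d4 : pr N h * TV s ≤ pr N h * e := mul_le_mul_of_nonneg_left d2 hp
      have d5 : e * pr N h ≤ ε / 4 * pr N h := mul_le_mul_of_nonneg_right heε hp
      have d6 := hs.2
      have d7 : 0 ≤ ε * pr N h := by positivity
      have d8 : DJ N w h s ≤ DJ N w0 h s + pr N h * TV s := d3
      linarith
    have h5 : (((Tup D (Icc 1 N)).filter (fun s => ε * pr N h < DJ N w h s)).card : ℝ) ≤
        (((Tup D (Icc 1 N)).filter (fun s => e * pr N h < DJ N w0 h s)).card : ℝ) +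
        (((Tup D (Icc 1 N)).filter (fun s => e < TV s)).card : ℝ) := by
      exact_mod_cast (card_le_card hsub2).trans (card_union_le _ _)
    have h6 : e * (N : ℝ) ^ D ≤ ε / 4 * (N : ℝ) ^ D := mul_le_mul_of_nonneg_right heε hND.le
    have h7 : 0 < ε * (N : ℝ) ^ D := by positivity
    linarith
  refine le_trans (Nat.cast_le.2 ((card_le_card hsub).trans (card_union_le _ _))) ?_
  push_cast
  refine (add_le_add hA1 hA2).trans ?_
  have h8 : e * (((Tup r (Icc 1 N)).filter (fun h => Adm h)).card : ℝ) ≤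
      ε / 4 * (((Tup r (Icc 1 N)).filter (fun h => Adm h)).card : ℝ) :=
    mul_le_mul_of_nonneg_right heε hH0
  have h9 : 0 ≤ ε * (((Tup r (Icc 1 N)).filter (fun h => Adm h)).card : ℝ) := by positivity
  linarith

open scoped Classical in
/-- The converse beyond the line, for all levels of the model at once. -/
theorem j_far_all (C1 cA : ℝ) (h1 : 0 < C1) (hA : 0 < cA) (cw d B' : ℝ) (hcw : 0 < cw)
    (hd : 0 < d) (hB' : 1 ≤ B') (hI : LevI C1 cA 2 cw d B') : ∃ C0 : ℝ,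
    ∀ C2 cB : ℝ, C0 ≤ C2 → 0 < cB → ∀ ε : ℝ, 0 < ε → ∃ N0 : ℕ, ∀ N : ℕ, N0 ≤ N →
    GoodX cA C1 cB C2 N → ∀ r D : ℕ, (r : ℝ) ≤ (1 - ε) * yy N →
    (1 + ε) * yy N ≤ (r : ℝ) + D / Real.log N →
      (((Tup r (Icc 1 N)).filter (fun h => Adm h ∧ ∃ w : ℕ, ε * yy N ≤ w ∧
        (w : ℝ) ≤ Real.log N / 200 ∧ ε * (N : ℝ) ^ D <
        (((Tup D (Icc 1 N)).filter (fun s => DJ N w h s < (2 - ε) * pr N h)).card : ℝ))).card : ℝ) ≤
      ε * ((Tup r (Icc 1 N)).filter (fun h => Adm h)).card := by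
  obtain ⟨C0, hhalf⟩ := j_half C1 cA h1 hA cw d B' hcw hd hB' hI
  refine ⟨C0, fun C2 cB hC2 hcB ε hε => ?_⟩
  obtain ⟨e, he⟩ : ∃ e : ℝ, e = min (ε / 4) (1 / 4) := ⟨_, rfl⟩
  have he0 : 0 < e := by rw [he]; positivity
  have heε : e ≤ ε / 4 := by rw [he]; exact min_le_left _ _
  have he4 : e ≤ 1 / 4 := by rw [he]; exact min_le_right _ _
  obtain ⟨N1, hN1⟩ := hhalf C2 cB hC2 hcB e he0
  obtain ⟨N2, hN2⟩ := j_sizeW ε e hε he0 (by linarith)
  obtain ⟨N3, hN3⟩ := JFarAux.sizesW ε hε 2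
  obtain ⟨N4, hN4⟩ := j_far_coreW ε hε
  refine ⟨max (max N1 N2) (max N3 N4), ?_⟩
  intro N hN hG r D hr hrD
  have g1 : N1 ≤ N := ((le_max_left _ _).trans (le_max_left _ _)).trans hN
  have g2 : N2 ≤ N := ((le_max_right _ _).trans (le_max_left _ _)).trans hN
  have g3 : N3 ≤ N := ((le_max_left _ _).trans (le_max_right _ _)).trans hN
  have g4 : N4 ≤ N := ((le_max_right _ _).trans (le_max_right _ _)).trans hN
  obtain ⟨gN, hy2, hyL, hall⟩ := hN3 N g3
  have hNr : (3 : ℝ) ≤ N := by exact_mod_cast gN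
  have hN0 : (0 : ℝ) < N := by linarith
  have hL : 0 < Real.log N := Real.log_pos (by linarith)
  have hr1 : (r : ℝ) ≤ yy N := by nlinarith
  have hH0 : (0 : ℝ) ≤ (((Tup r (Icc 1 N)).filter (fun h => Adm h)).card : ℝ) :=
    Nat.cast_nonneg _
  have hrε : (r : ℝ) + (0 : ℕ) / Real.log N ≤ (1 - e) * yy N := by
    rw [Nat.cast_zero, zero_div, add_zero]
    nlinarith
  have hA1 := hN1 N g1 hG r 0 hrε
  set w1 : ℕ := ⌈ε * yy N⌉₊ with hw1
  have hw1a : ε * yy N ≤ w1 := Nat.le_ceil _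
  by_cases hle : (w1 : ℝ) ≤ Real.log N / 200
  swap
  · -- the range is empty
    have hempty : (Tup r (Icc 1 N)).filter (fun h => Adm h ∧ ∃ w : ℕ, ε * yy N ≤ w ∧
        (w : ℝ) ≤ Real.log N / 200 ∧ ε * (N : ℝ) ^ D <
        (((Tup D (Icc 1 N)).filter (fun s => DJ N w h s < (2 - ε) * pr N h)).card : ℝ)) = ∅ := by
      rw [filter_eq_empty_iff]
      rintro h _ ⟨_, w, hw, hw', _⟩
      apply hle
      refine le_trans ?_ hw'
      exact_mod_cast Nat.ceil_le.2 hw
    rw [hempty, card_empty]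
    push_cast
    positivity
  have hA2 := hN2 N g2 w1 hw1a hle r (by linarith)
  have hsub : (Tup r (Icc 1 N)).filter (fun h => Adm h ∧ ∃ w : ℕ, ε * yy N ≤ w ∧
        (w : ℝ) ≤ Real.log N / 200 ∧ ε * (N : ℝ) ^ D <
        (((Tup D (Icc 1 N)).filter (fun s => DJ N w h s < (2 - ε) * pr N h)).card : ℝ)) ⊆
      ((Tup r (Icc 1 N)).filter (fun h => Adm h ∧ e * (N : ℝ) ^ 0 <
        (((Tup 0 (Icc 1 N)).filter (fun s =>
          e * pr N h < DJ N ⌊cw * yy N⌋₊ h s)).card : ℝ))) ∪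
      ((Tup r (Icc 1 N)).filter (fun h => Adm h ∧ ¬ (0 < pr N h ∧
        pr N h ≤ 2 * N * ((DZ w1)⁻¹ / Real.log N) ^ r))) := by
    intro h hh
    rw [mem_filter] at hh
    obtain ⟨hhT, hadm, w, hw, hw', hbig⟩ := hh
    rw [mem_union, mem_filter, mem_filter]
    by_contra hcon
    push Not at hcon
    obtain ⟨c1, c2⟩ := hcon
    have c1 := c1 hhT hadm
    have c2 := c2 hhT hadm
    have hna : 1 ≤ nA w h := nA_ge_one w h hadm
    have hclose : |(cnt N h : ℝ) - pr N h| ≤ e * pr N h := by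
      by_contra hneg
      push Not at hneg
      have h5 : (Tup 0 (Icc 1 N)).filter (fun s => e * pr N h < DJ N ⌊cw * yy N⌋₊ h s) =
          Tup 0 (Icc 1 N) := by
        refine filter_true_of_mem fun s _ => ?_
        rw [DJ_zero N ⌊cw * yy N⌋₊ h (nA_ge_one _ h hadm) s]
        exact hneg
      rw [h5, card_Tup, pow_zero, pow_zero] at c1
      push_cast at c1
      linarith
    have hw1w : w1 ≤ w := Nat.ceil_le.2 hw
    obtain ⟨m1, -, -⟩ := hall w hw
    have hDZ : (DZ w1)⁻¹ ≤ (DZ w)⁻¹ := by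
      refine inv_anti₀ (DZ_pos w) ?_
      unfold DZ
      rw [split w1 w hw1w]
      refine mul_le_of_le_one_right (prod_nonneg fun p hp =>
        (Pool.Agent.HL.one_sub_inv_pos (Nat.mem_primesLE.1 hp).2).le) ?_
      refine prod_le_one (fun p hp => (Pool.Agent.HL.one_sub_inv_pos (mem_JJ.1 hp).1.2).le)
        fun p _ => ?_
      have : 0 ≤ 1 / (p : ℝ) := by positivity
      linarith
    have hprw : pr N h ≤ 2 * N * ((DZ w)⁻¹ / Real.log N) ^ r := by
      refine c2.2.trans (mul_le_mul_of_nonneg_left ?_ (by positivity))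
      refine pow_le_pow_left₀ (div_nonneg (inv_nonneg.2 (DZ_pos w1).le) hL.le) ?_ r
      exact div_le_div_of_nonneg_right hDZ hL.le
    have h6 := hN4 N g4 r D hr1 hrD w m1 hw' ((range (PP w)).filter (Good w h)) (Sh N h)
      hna (pr N h) c2.1 (by
        rw [card_Sh]
        exact hclose.trans (mul_le_mul_of_nonneg_right heε c2.1.le)) hprw
    have h7 : (Tup D (Icc 1 N)).filter (fun s => DJ N w h s < (2 - ε) * pr N h) =
        (Tup D (Icc 1 N)).filter (fun s => ∑ T : Finset (Fin D),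
          |(((Sh N h).filter (fun n => pat s n = T)).card : ℝ) -
          pr N h * ((∑ b ∈ (range (PP w)).filter (Good w h), QB N w s b T) /
            (((range (PP w)).filter (Good w h)).card : ℝ))| < (2 - ε) * pr N h) := by
      refine filter_congr fun s _ => ?_
      rw [DJ_eq]
    rw [h7] at hbig
    exact absurd h6 (not_le.2 hbig)
  refine le_trans (Nat.cast_le.2 ((card_le_card hsub).trans (card_union_le _ _))) ?_
  push_cast
  refine (add_le_add hA1 hA2).trans ?_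
  have h8 : e * (((Tup r (Icc 1 N)).filter (fun h => Adm h)).card : ℝ) ≤
      ε / 4 * (((Tup r (Icc 1 N)).filter (fun h => Adm h)).card : ℝ) :=
    mul_le_mul_of_nonneg_right heε hH0
  have h9 : 0 ≤ ε * (((Tup r (Icc 1 N)).filter (fun h => Adm h)).card : ℝ) := by positivity
  linarith

end Pool.Agent.Lib.LEN
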