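import Pool.Agent.Lib.LEN.Cls

/-!
# LEN.JBox: the number of the residue classes modulo `p` missed by a random tuple

`X a = p - nuI a p` is the number of empty boxes. `∑ X = p (p-1)^r`, `∑ X^2 = p (p-1)^r + p (p-1) (p-2)^r`; with the
mean `μ = p (1-1/p)^r` the variance is at most `μ`, `1/X ≤ 2/μ + 4 (X-μ)^2/μ^2` for `X ≥ 1`.
-/

set_option autoImplicit false

open Finset Filter

namespace Pool.Agent.Lib.LEN

open Pool.Agent.HLB Pool.Agent.HLT Pool.Agent.HLR Pool.Agent.Lib.GMV

namespace JBoxAux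

/-- The indicator that the class `n` is good for the tuple. -/
noncomputable def ee {r : ℕ} (p : ℕ) (a : Fin r → ℕ) (n : ℕ) : ℝ :=
  ∏ i, (if p ∣ n + a i then (0 : ℝ) else 1)

lemma sum_ee {r : ℕ} {p : ℕ} (hp : p.Prime) (a : Fin r → ℕ) :
    ∑ n ∈ range p, ee p a n = (p : ℝ) - nuI a p := by
  classical
  have h1 : ∀ n ∈ range p, ee p a n = if n ∈ exres a p then 0 else 1 := by
    intro n hn
    have hnp : n % p = n := Nat.mod_eq_of_lt (Finset.mem_range.1 hn)
    unfold ee
    split_ifs with hm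
    · obtain ⟨i, -, hi⟩ := Finset.mem_image.1 hm
      refine Finset.prod_eq_zero (Finset.mem_univ i) ?_
      rw [if_pos]
      rw [dvd_add_iff_negres hp.pos, hnp, hi]
    · refine Finset.prod_eq_one fun i _ => ?_
      rw [if_neg]
      intro hd
      rw [dvd_add_iff_negres hp.pos, hnp] at hd
      exact hm (Finset.mem_image.2 ⟨i, Finset.mem_univ i, hd.symm⟩)
  rw [Finset.sum_congr rfl h1]
  have h2 : ∑ n ∈ range p, (if n ∈ exres a p then (0 : ℝ) else 1) =
      ∑ n ∈ range p \ exres a p, (1 : ℝ) := by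
    rw [Finset.sdiff_eq_filter, Finset.sum_filter]
    refine Finset.sum_congr rfl fun n _ => ?_
    by_cases hn : n ∈ exres a p <;> simp [hn]
  rw [h2, Finset.sum_const, Finset.card_sdiff_of_subset (exres_subset a hp.pos),
    Finset.card_range, card_exres a hp.pos, nsmul_eq_mul, mul_one]
  have h3 : nuI a p ≤ p := nuI_le_prime a hp
  rw [Nat.cast_sub h3]

lemma sum_prod_pi {r p : ℕ} (f : ℕ → ℝ) :
    ∑ a ∈ Fintype.piFinset (fun _ : Fin r => range p), ∏ i, f (a i) =
      (∑ c ∈ range p, f c) ^ r := by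
  rw [← Finset.prod_univ_sum (fun _ : Fin r => range p) fun _ c => f c]
  rw [Finset.prod_const, Finset.card_univ, Fintype.card_fin]

/-- The classes `c` with `p ∤ n + c`. -/
lemma sum_one {p : ℕ} (hp : p.Prime) (n : ℕ) :
    ∑ c ∈ range p, (if p ∣ n + c then (0 : ℝ) else 1) = p - 1 := by
  have h := sum_ee (r := 1) hp (fun _ => n)
  have h1 : nuI (fun _ : Fin 1 => n) p = 1 := by
    unfold nuI
    simp
  rw [h1] at h
  rw [Nat.cast_one] at h
  rw [← h]
  refine sum_congr rfl fun c _ => ?_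
  unfold ee
  simp [add_comm]

lemma sum_two {p : ℕ} (hp : p.Prime) (n n' : ℕ) (hn : n < p) (hn' : n' < p) (hne : n ≠ n') :
    ∑ c ∈ range p, (if p ∣ n + c then (0 : ℝ) else 1) * (if p ∣ n' + c then (0 : ℝ) else 1) =
      p - 2 := by
  have h := sum_ee (r := 2) hp ![n, n']
  have h1 : nuI ![n, n'] p = 2 := by
    unfold nuI
    have e : (univ : Finset (Fin 2)) = {0, 1} := by decide
    rw [e, image_insert, image_singleton]
    rw [card_pair]
    simp only [Matrix.cons_val_zero, Matrix.cons_val_one]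
    intro heq
    rw [ZMod.natCast_eq_natCast_iff'] at heq
    rw [Nat.mod_eq_of_lt hn, Nat.mod_eq_of_lt hn'] at heq
    exact hne heq
  rw [h1] at h
  push_cast at h
  rw [← h]
  refine sum_congr rfl fun c _ => ?_
  unfold ee
  rw [Fin.prod_univ_two]
  simp only [Matrix.cons_val_zero, Matrix.cons_val_one, add_comm c]

/-- First moment. -/
lemma mom1 {r p : ℕ} (hp : p.Prime) :
    ∑ a ∈ Fintype.piFinset (fun _ : Fin r => range p), ((p : ℝ) - nuI a p) =
      p * ((p : ℝ) - 1) ^ r := by
  have h1 : ∀ a : Fin r → ℕ, ((p : ℝ) - nuI a p) = ∑ n ∈ range p, ee p a n :=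
    fun a => (sum_ee hp a).symm
  rw [sum_congr rfl fun a _ => h1 a, sum_comm]
  have h2 : ∀ n ∈ range p, ∑ a ∈ Fintype.piFinset (fun _ : Fin r => range p), ee p a n =
      ((p : ℝ) - 1) ^ r := by
    intro n _
    unfold ee
    rw [sum_prod_pi (fun c => if p ∣ n + c then (0 : ℝ) else 1), sum_one hp n]
  rw [sum_congr rfl h2, sum_const, card_range, nsmul_eq_mul]

/-- Second moment. -/
lemma mom2 {r p : ℕ} (hp : p.Prime) :
    ∑ a ∈ Fintype.piFinset (fun _ : Fin r => range p), ((p : ℝ) - nuI a p) ^ 2 =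
      p * ((p : ℝ) - 1) ^ r + p * ((p : ℝ) - 1) * ((p : ℝ) - 2) ^ r := by
  have h1 : ∀ a : Fin r → ℕ, ((p : ℝ) - nuI a p) ^ 2 =
      ∑ n ∈ range p, ∑ n' ∈ range p, ee p a n * ee p a n' := by
    intro a
    rw [← sum_ee hp a, sq, sum_mul_sum]
  rw [sum_congr rfl fun a _ => h1 a, sum_comm]
  have h2 : ∀ n ∈ range p, ∑ a ∈ Fintype.piFinset (fun _ : Fin r => range p),
      ∑ n' ∈ range p, ee p a n * ee p a n' =
      ((p : ℝ) - 1) ^ r + ((p : ℝ) - 1) * ((p : ℝ) - 2) ^ r := by
    intro n hn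
    rw [sum_comm, ← add_sum_erase _ _ hn]
    congr 1
    · have h3 : ∀ a : Fin r → ℕ, ee p a n * ee p a n = ee p a n := by
        intro a
        unfold ee
        rw [← prod_mul_distrib]
        refine prod_congr rfl fun i _ => ?_
        split_ifs <;> simp
      rw [sum_congr rfl fun a _ => h3 a]
      unfold ee
      rw [sum_prod_pi (fun c => if p ∣ n + c then (0 : ℝ) else 1), sum_one hp n]
    · have h3 : ∀ n' ∈ (range p).erase n,
          ∑ a ∈ Fintype.piFinset (fun _ : Fin r => range p), ee p a n * ee p a n' =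
          ((p : ℝ) - 2) ^ r := by
        intro n' hn'
        rw [mem_erase, mem_range] at hn'
        unfold ee
        simp only [← prod_mul_distrib]
        rw [sum_prod_pi (fun c => (if p ∣ n + c then (0 : ℝ) else 1) *
          (if p ∣ n' + c then (0 : ℝ) else 1)),
          sum_two hp n n' (mem_range.1 hn) hn'.2 (Ne.symm hn'.1)]
      rw [sum_congr rfl h3, sum_const, card_erase_of_mem hn, card_range, nsmul_eq_mul,
        Nat.cast_sub hp.one_lt.le]
      push_cast
      ring
  rw [sum_congr rfl h2, sum_const, card_range, nsmul_eq_mul]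
  ring

end JBoxAux

open JBoxAux

open scoped Classical in
/-- Module JBox: the inverse number of the missed classes is of order `1/p` on average. -/
theorem j_box (K : ℝ) : ∃ C : ℝ, 0 < C ∧ ∃ p0 : ℕ, ∀ p : ℕ, p.Prime → p0 ≤ p →
    ∀ r : ℕ, (r : ℝ) ≤ K * p →
    ∑ a ∈ (Fintype.piFinset (fun _ : Fin r => range p)).filter (fun a => nuI a p < p),
      1 / ((p : ℝ) - nuI a p) ≤
    C / p * (((Fintype.piFinset (fun _ : Fin r => range p)).filter
      (fun a => nuI a p < p)).card : ℝ) := by
  refine ⟨12 * Real.exp (2 * K), by positivity, max 3 ⌈2 * Real.exp (2 * K)⌉₊, ?_⟩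
  intro p hp hp0 r hr
  have hp3 : 3 ≤ p := (le_max_left _ _).trans hp0
  have hpe : 2 * Real.exp (2 * K) ≤ p := Nat.ceil_le.1 ((le_max_right _ _).trans hp0)
  have hpr : (3 : ℝ) ≤ p := by exact_mod_cast hp3
  have hpp : (0 : ℝ) < p := by linarith
  set T := Fintype.piFinset (fun _ : Fin r => range p) with hT
  set X : (Fin r → ℕ) → ℝ := fun a => (p : ℝ) - nuI a p with hX
  set A : ℝ := (p : ℝ) ^ r with hA
  have hA0 : 0 < A := by positivity
  have hcardT : (T.card : ℝ) = A := by
    rw [hT, Fintype.card_piFinset_const, card_range, hA]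
    push_cast
    rfl
  set μ : ℝ := p * (((p : ℝ) - 1) / p) ^ r with hμ
  have hbase : 0 < ((p : ℝ) - 1) / p := div_pos (by linarith) hpp
  have hμ0 : 0 < μ := by positivity
  have hm1 : ∑ a ∈ T, X a = A * μ := by
    rw [hX]
    simp only
    rw [mom1 hp, hA, hμ, div_pow]
    field_simp
  have hm2 : ∑ a ∈ T, X a ^ 2 ≤ A * μ + A * μ ^ 2 := by
    rw [hX]
    simp only
    rw [mom2 hp]
    have e1 : p * ((p : ℝ) - 1) ^ r = A * μ := by
      rw [hA, hμ, div_pow]
      field_simp
    rw [e1]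
    refine add_le_add le_rfl ?_
    have e2 : A * μ ^ 2 = (p : ℝ) ^ 2 * ((((p : ℝ) - 1) ^ 2) / p) ^ r := by
      rw [hA, hμ]
      rw [mul_pow, ← pow_mul, mul_comm r 2, pow_mul, div_pow, div_pow]
      rw [div_pow, ← pow_mul, ← pow_mul]
      have : (p : ℝ) ^ (2 * r) = (p : ℝ) ^ r * (p : ℝ) ^ r := by rw [two_mul, pow_add]
      rw [this]
      field_simp
    rw [e2]
    refine mul_le_mul ?_ ?_ (pow_nonneg (by linarith) _) (by positivity)
    · nlinarith
    · refine pow_le_pow_left₀ (by linarith) ?_ r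
      rw [le_div_iff₀ hpp]
      nlinarith
  have hvar : ∑ a ∈ T, (X a - μ) ^ 2 ≤ A * μ := by
    have e1 : ∀ a ∈ T, (X a - μ) ^ 2 = X a ^ 2 - 2 * μ * X a + μ ^ 2 := fun a _ => by ring
    rw [sum_congr rfl e1, sum_add_distrib, sum_sub_distrib, ← mul_sum, hm1, sum_const,
      nsmul_eq_mul, hcardT]
    nlinarith
  -- lower bound for `μ`
  have hμ1 : p / Real.exp (2 * K) ≤ μ := by
    have h1 : Real.exp (-(2 * K)) ≤ (((p : ℝ) - 1) / p) ^ r := by
      have h2 : -(2 / (p : ℝ)) ≤ Real.log (((p : ℝ) - 1) / p) := by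
        have h3 := Real.one_sub_inv_le_log_of_pos hbase
        refine le_trans ?_ h3
        rw [inv_div]
        have h4 : (0 : ℝ) < (p : ℝ) - 1 := by linarith
        have h5 : (p : ℝ) / ((p : ℝ) - 1) ≤ 1 + 2 / p := by
          rw [div_le_iff₀ h4]
          have : (1 + 2 / (p : ℝ)) * ((p : ℝ) - 1) = p + 1 - 2 / p := by
            field_simp
            ring
          rw [this]
          have : 2 / (p : ℝ) ≤ 1 := by
            rw [div_le_one hpp]
            linarith
          linarith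
        linarith
      have h6 : -(2 * K) ≤ r * Real.log (((p : ℝ) - 1) / p) := by
        have h7 : (r : ℝ) * (2 / p) ≤ 2 * K := by
          calc (r : ℝ) * (2 / p) ≤ K * p * (2 / p) :=
                mul_le_mul_of_nonneg_right hr (by positivity)
            _ = 2 * K := by field_simp
        have h8 : (r : ℝ) * (-(2 / p)) ≤ r * Real.log (((p : ℝ) - 1) / p) :=
          mul_le_mul_of_nonneg_left h2 (Nat.cast_nonneg _)
        linarith
      calc Real.exp (-(2 * K)) ≤ Real.exp (r * Real.log (((p : ℝ) - 1) / p)) :=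
            Real.exp_le_exp.2 h6
        _ = (((p : ℝ) - 1) / p) ^ r := by rw [Real.exp_nat_mul, Real.exp_log hbase]
    rw [div_eq_mul_inv, ← Real.exp_neg, hμ]
    exact mul_le_mul_of_nonneg_left h1 hpp.le
  have hμ2 : 2 ≤ μ := by
    refine le_trans ?_ hμ1
    rw [le_div_iff₀ (Real.exp_pos _)]
    exact hpe
  -- the number of tuples with a missed class
  set G := T.filter (fun a => nuI a p < p) with hG
  have hXG : ∀ a ∈ G, 1 ≤ X a := by
    intro a ha
    have h1 := (mem_filter.1 ha).2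
    rw [hX]
    simp only
    have h2 : ((nuI a p + 1 : ℕ) : ℝ) ≤ p := by exact_mod_cast h1
    push_cast at h2
    linarith
  have hGc : A / 2 ≤ G.card := by
    have h1 : ((T.filter (fun a => ¬ nuI a p < p)).card : ℝ) ≤ A / μ := by
      have h2 : ((T.filter (fun a => ¬ nuI a p < p)).card : ℝ) * μ ^ 2 ≤ A * μ := by
        refine le_trans ?_ hvar
        rw [← nsmul_eq_mul, ← sum_const]
        refine (sum_le_sum (f := fun _ => μ ^ 2) (g := fun a => (X a - μ) ^ 2)
          fun a ha => ?_).trans ?_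
        · have h3 := (mem_filter.1 ha).2
          have h4 : nuI a p = p := le_antisymm (nuI_le_prime a hp) (not_lt.1 h3)
          have h5 : X a = 0 := by
            rw [hX]
            simp only
            rw [h4, sub_self]
          rw [h5]
          simp
        · exact sum_le_sum_of_subset_of_nonneg (filter_subset _ _) fun a _ _ => sq_nonneg _
      rw [le_div_iff₀ hμ0]
      have h3 : 0 < μ := hμ0
      nlinarith
    have h2 : A / μ ≤ A / 2 := div_le_div_of_nonneg_left hA0.le (by norm_num) hμ2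
    have h3 : (G.card : ℝ) + ((T.filter (fun a => ¬ nuI a p < p)).card : ℝ) = A := by
      rw [← hcardT]
      exact_mod_cast card_filter_add_card_filter_not (s := T) (fun a => nuI a p < p)
    linarith
  have hsum : ∑ a ∈ G, 1 / X a ≤ 6 * A / μ := by
    have h1 : ∀ a ∈ G, 1 / X a ≤ 2 / μ + 4 * (X a - μ) ^ 2 / μ ^ 2 := by
      intro a ha
      have h2 := hXG a ha
      by_cases hc : μ / 2 ≤ X a
      · have h3 : 1 / X a ≤ 2 / μ := by
          rw [div_le_div_iff₀ (by linarith) hμ0]
          linarith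
        have : 0 ≤ 4 * (X a - μ) ^ 2 / μ ^ 2 := by positivity
        linarith
      · push Not at hc
        have h3 : 1 / X a ≤ 1 := by
          rw [div_le_one (by linarith)]
          exact h2
        have h4 : 1 ≤ 4 * (X a - μ) ^ 2 / μ ^ 2 := by
          rw [le_div_iff₀ (by positivity)]
          nlinarith
        have : 0 ≤ 2 / μ := by positivity
        linarith
    refine (sum_le_sum h1).trans ?_
    refine (sum_le_sum_of_subset_of_nonneg (filter_subset _ _) fun a _ _ => by positivity).trans ?_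
    rw [sum_add_distrib, sum_const, nsmul_eq_mul, hcardT, ← sum_div, ← mul_sum]
    have h5 : 4 * ∑ a ∈ T, (X a - μ) ^ 2 ≤ 4 * (A * μ) := by linarith
    have h6 : (4 * ∑ a ∈ T, (X a - μ) ^ 2) / μ ^ 2 ≤ 4 * (A * μ) / μ ^ 2 :=
      div_le_div_of_nonneg_right h5 (by positivity)
    have h7 : 4 * (A * μ) / μ ^ 2 = 4 * A / μ := by
      field_simp
    have h8 : A * (2 / μ) + 4 * A / μ = 6 * A / μ := by ring
    linarith
  refine hsum.trans ?_
  have h9 : 6 * A / μ ≤ 12 / μ * G.card := by
    have : 12 / μ * (A / 2) ≤ 12 / μ * G.card := mul_le_mul_of_nonneg_left hGc (by positivity)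
    calc 6 * A / μ = 12 / μ * (A / 2) := by ring
      _ ≤ _ := this
  refine h9.trans (mul_le_mul_of_nonneg_right ?_ (Nat.cast_nonneg _))
  rw [div_le_div_iff₀ hμ0 hpp]
  rw [div_le_iff₀ (Real.exp_pos _)] at hμ1
  nlinarith

end Pool.Agent.Lib.LEN
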