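import Mathlib

/-!
# LEN.JCrt: sums of products of periodic functions of several variables
-/

set_option autoImplicit false

open Finset

namespace Pool.Agent.Lib.LEN

namespace JCrtAux

/-- Two coprime periods, functions of a tuple. -/
lemma crt_sum {r : ℕ} (a b : ℕ) (ha : 0 < a) (hb : 0 < b) (hab : a.Coprime b)
    (u v : (Fin r → ℕ) → ℝ) (hu : ∀ x, u (fun i => x i % a) = u x)
    (hv : ∀ x, v (fun i => x i % b) = v x) :
    ∑ x ∈ Fintype.piFinset (fun _ : Fin r => range (a * b)), u x * v x =
      (∑ x ∈ Fintype.piFinset (fun _ : Fin r => range a), u x) *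
        ∑ x ∈ Fintype.piFinset (fun _ : Fin r => range b), v x := by
  rw [Finset.sum_mul_sum, ← Finset.sum_product']
  refine Finset.sum_nbij (fun x => ((fun i => x i % a), (fun i => x i % b))) ?_ ?_ ?_ ?_
  · intro x _
    rw [Finset.mem_product, Fintype.mem_piFinset, Fintype.mem_piFinset]
    exact ⟨fun i => Finset.mem_range.2 (Nat.mod_lt _ ha),
      fun i => Finset.mem_range.2 (Nat.mod_lt _ hb)⟩
  · intro x hx y hy h
    rw [Finset.mem_coe, Fintype.mem_piFinset] at hx hy
    simp only [Prod.mk.injEq] at h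
    funext i
    have h1 : x i ≡ y i [MOD a * b] :=
      (Nat.modEq_and_modEq_iff_modEq_mul hab).mp ⟨congrFun h.1 i, congrFun h.2 i⟩
    exact Nat.ModEq.eq_of_lt_of_lt h1 (Finset.mem_range.1 (hx i)) (Finset.mem_range.1 (hy i))
  · rintro ⟨x, z⟩ h
    rw [Finset.mem_coe, Finset.mem_product, Fintype.mem_piFinset, Fintype.mem_piFinset] at h
    refine ⟨fun i => (Nat.chineseRemainder hab (x i) (z i) : ℕ), ?_, ?_⟩
    · rw [Finset.mem_coe, Fintype.mem_piFinset]
      intro i
      exact Finset.mem_range.2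
        (Nat.chineseRemainder_lt_mul hab (x i) (z i) ha.ne' hb.ne')
    · simp only [Prod.mk.injEq]
      refine ⟨?_, ?_⟩
      · funext i
        have h2 : (Nat.chineseRemainder hab (x i) (z i) : ℕ) % a = x i % a :=
          (Nat.chineseRemainder hab (x i) (z i)).2.1
        rw [h2, Nat.mod_eq_of_lt (Finset.mem_range.1 (h.1 i))]
      · funext i
        have h3 : (Nat.chineseRemainder hab (x i) (z i) : ℕ) % b = z i % b :=
          (Nat.chineseRemainder hab (x i) (z i)).2.2
        rw [h3, Nat.mod_eq_of_lt (Finset.mem_range.1 (h.2 i))]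
  · intro x _
    simp only
    rw [hu, hv]

/-- Products of local functions of a tuple. -/
theorem crt_prod {r : ℕ} (S : Finset ℕ) (hS : ∀ p ∈ S, p.Prime) (u : ℕ → (Fin r → ℕ) → ℝ)
    (hu : ∀ p ∈ S, ∀ x, u p (fun i => x i % p) = u p x) :
    ∑ x ∈ Fintype.piFinset (fun _ : Fin r => range (∏ p ∈ S, p)), ∏ p ∈ S, u p x =
      ∏ p ∈ S, ∑ x ∈ Fintype.piFinset (fun _ : Fin r => range p), u p x := by
  classical
  induction S using Finset.induction_on with
  | empty =>
    have h : Fintype.piFinset (fun _ : Fin r => range 1) = {fun _ => 0} := by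
      ext x
      rw [Fintype.mem_piFinset, mem_singleton]
      simp only [range_one, mem_singleton]
      exact ⟨fun h => funext h, fun h i => congrFun h i⟩
    rw [prod_empty, prod_empty, h, sum_singleton, prod_empty]
  | insert p S hp ih =>
    have hS' : ∀ q ∈ S, q.Prime := fun q hq => hS q (mem_insert_of_mem hq)
    have hu' : ∀ q ∈ S, ∀ x, u q (fun i => x i % q) = u q x :=
      fun q hq => hu q (mem_insert_of_mem hq)
    have hpp : p.Prime := hS p (mem_insert_self _ _)
    have hpos : 0 < ∏ q ∈ S, q := prod_pos fun q hq => (hS' q hq).pos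
    have hcop : p.Coprime (∏ q ∈ S, q) := by
      refine Nat.Coprime.prod_right fun q hq => ?_
      refine (Nat.coprime_primes hpp (hS' q hq)).mpr ?_
      rintro rfl
      exact hp hq
    have hper : ∀ x : Fin r → ℕ, (fun x => ∏ q ∈ S, u q x) (fun i => x i % ∏ q ∈ S, q) =
        (fun x => ∏ q ∈ S, u q x) x := by
      intro x
      simp only
      refine prod_congr rfl fun q hq => ?_
      rw [← hu' q hq, ← hu' q hq x]
      congr 1
      funext i
      exact Nat.mod_mod_of_dvd _ (dvd_prod_of_mem (fun q => q) hq)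
    rw [prod_insert hp, prod_insert hp, ← ih hS' hu',
      ← crt_sum p (∏ q ∈ S, q) hpp.pos hpos hcop (u p) (fun x => ∏ q ∈ S, u q x)
      (hu p (mem_insert_self _ _)) hper]
    refine sum_congr rfl fun x _ => ?_
    rw [prod_insert hp]

/-- Two coprime periods, functions of one variable. -/
lemma crt_sum1 (a b : ℕ) (ha : 0 < a) (hb : 0 < b) (hab : a.Coprime b)
    (u v : ℕ → ℝ) (hu : ∀ x, u (x % a) = u x) (hv : ∀ x, v (x % b) = v x) :
    ∑ x ∈ range (a * b), u x * v x = (∑ x ∈ range a, u x) * ∑ x ∈ range b, v x := by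
  rw [Finset.sum_mul_sum, ← Finset.sum_product']
  refine Finset.sum_nbij (fun x => (x % a, x % b)) ?_ ?_ ?_ ?_
  · intro x _
    rw [Finset.mem_product]
    exact ⟨Finset.mem_range.2 (Nat.mod_lt _ ha), Finset.mem_range.2 (Nat.mod_lt _ hb)⟩
  · intro x hx y hy h
    rw [Finset.mem_coe, Finset.mem_range] at hx hy
    simp only [Prod.mk.injEq] at h
    have h1 : x ≡ y [MOD a * b] := (Nat.modEq_and_modEq_iff_modEq_mul hab).mp h
    exact Nat.ModEq.eq_of_lt_of_lt h1 hx hy
  · rintro ⟨x, z⟩ h
    rw [Finset.mem_coe, Finset.mem_product, Finset.mem_range, Finset.mem_range] at h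
    refine ⟨(Nat.chineseRemainder hab x z : ℕ), ?_, ?_⟩
    · rw [Finset.mem_coe]
      exact Finset.mem_range.2 (Nat.chineseRemainder_lt_mul hab x z ha.ne' hb.ne')
    · simp only [Prod.mk.injEq]
      refine ⟨?_, ?_⟩
      · have h2 : (Nat.chineseRemainder hab x z : ℕ) % a = x % a :=
          (Nat.chineseRemainder hab x z).2.1
        rw [h2, Nat.mod_eq_of_lt h.1]
      · have h3 : (Nat.chineseRemainder hab x z : ℕ) % b = z % b :=
          (Nat.chineseRemainder hab x z).2.2
        rw [h3, Nat.mod_eq_of_lt h.2]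
  · intro x _
    simp only
    rw [hu, hv]

/-- Products of local functions of one variable. -/
theorem crt_prod1 (S : Finset ℕ) (hS : ∀ p ∈ S, p.Prime) (u : ℕ → ℕ → ℝ)
    (hu : ∀ p ∈ S, ∀ x, u p (x % p) = u p x) :
    ∑ x ∈ range (∏ p ∈ S, p), ∏ p ∈ S, u p x = ∏ p ∈ S, ∑ x ∈ range p, u p x := by
  classical
  induction S using Finset.induction_on with
  | empty => simp
  | insert p S hp ih =>
    have hS' : ∀ q ∈ S, q.Prime := fun q hq => hS q (mem_insert_of_mem hq)
    have hu' : ∀ q ∈ S, ∀ x, u q (x % q) = u q x := fun q hq => hu q (mem_insert_of_mem hq)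
    have hpp : p.Prime := hS p (mem_insert_self _ _)
    have hpos : 0 < ∏ q ∈ S, q := prod_pos fun q hq => (hS' q hq).pos
    have hcop : p.Coprime (∏ q ∈ S, q) := by
      refine Nat.Coprime.prod_right fun q hq => ?_
      refine (Nat.coprime_primes hpp (hS' q hq)).mpr ?_
      rintro rfl
      exact hp hq
    have hper : ∀ x : ℕ, (fun x => ∏ q ∈ S, u q x) (x % ∏ q ∈ S, q) =
        (fun x => ∏ q ∈ S, u q x) x := by
      intro x
      simp only
      refine prod_congr rfl fun q hq => ?_
      rw [← hu' q hq, ← hu' q hq x]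
      congr 1
      exact Nat.mod_mod_of_dvd _ (dvd_prod_of_mem (fun q => q) hq)
    rw [prod_insert hp, prod_insert hp, ← ih hS' hu',
      ← crt_sum1 p (∏ q ∈ S, q) hpp.pos hpos hcop (u p) (fun x => ∏ q ∈ S, u q x)
      (hu p (mem_insert_self _ _)) hper]
    refine sum_congr rfl fun x _ => ?_
    rw [prod_insert hp]

end JCrtAux

end Pool.Agent.Lib.LEN
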