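import Pool.Agent.Lib.LEN.JBox
import Pool.Agent.Lib.LEN.JCrt
import Pool.Agent.Lib.LEN.FinA
import Pool.Agent.Lib.LEN.GoodX

/-!
# LEN.JBoxS: the sum of the inverse numbers of the missed classes

For a prime `p ∈ (w1, w2]`, `r ≤ yy N ≤ w1 / ε`, `j_box` and `crt_prod` give
`∑_(a ∈ AC w2 r) 1/(p - nuI a p) ≤ (C/p) |AC w2 r|`; the sum of `1/p` over the `p ∈ (ε yy N, log N]` is small
(dyadic blocks, `∏_(n < p ≤ 2n) p ≤ 4^(2n)`).
-/

set_option autoImplicit false

open Finset Filter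

namespace Pool.Agent.Lib.LEN

open Pool.Agent.HLB Pool.Agent.HLT Pool.Agent.HLR Pool.Agent.Lib.GMV

namespace JBoxSAux

lemma nuI_mod {r : ℕ} (p : ℕ) (x : Fin r → ℕ) : nuI (fun i => x i % p) p = nuI x p := by
  unfold nuI
  simp only [ZMod.natCast_mod]

/-- one dyadic block -/
lemma block (n : ℕ) (hn : 2 ≤ n) :
    ∑ p ∈ (Nat.primesLE (2 * n)).filter (fun p => n < p), 1 / (p : ℝ) ≤
      2 * Real.log 4 / Real.log n := by
  obtain ⟨S, hS⟩ : ∃ S : Finset ℕ, S = (Nat.primesLE (2 * n)).filter (fun p => n < p) := ⟨_, rfl⟩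
  rw [← hS]
  have hnr : (2 : ℝ) ≤ n := by exact_mod_cast hn
  have hn0 : (0 : ℝ) < n := by linarith
  have hln : 0 < Real.log n := Real.log_pos (by linarith)
  have h1 : n ^ S.card ≤ 4 ^ (2 * n) := by
    calc n ^ S.card ≤ ∏ p ∈ S, p := by
          refine Finset.pow_card_le_prod S _ n fun p hp => ?_
          rw [hS, mem_filter] at hp
          exact hp.2.le
      _ ≤ ∏ p ∈ Nat.primesLE (2 * n), p := by
          refine prod_le_prod_of_subset_of_one_le' ?_ fun p hp _ => ?_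
          · rw [hS]
            exact filter_subset _ _
          · exact (Nat.mem_primesLE.1 hp).2.one_lt.le
      _ ≤ 4 ^ (2 * n) := Cls0.PP_le (2 * n)
  have h2 : (S.card : ℝ) * Real.log n ≤ (2 * n : ℝ) * Real.log 4 := by
    have h3 : (n : ℝ) ^ S.card ≤ (4 : ℝ) ^ (2 * n) := by exact_mod_cast h1
    have h4 := Real.log_le_log (by positivity) h3
    rw [Real.log_pow, Real.log_pow] at h4
    push_cast at h4
    exact h4
  have h3 : ∑ p ∈ S, 1 / (p : ℝ) ≤ S.card * (1 / (n : ℝ)) := by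
    rw [← nsmul_eq_mul, ← sum_const]
    refine sum_le_sum fun p hp => ?_
    rw [hS, mem_filter] at hp
    refine one_div_le_one_div_of_le hn0 ?_
    exact_mod_cast hp.2.le
  refine h3.trans ?_
  rw [mul_one_div, div_le_div_iff₀ hn0 hln]
  linarith

/-- several dyadic blocks -/
lemma blocks (n : ℕ) (hn : 2 ≤ n) (J : ℕ) :
    ∑ p ∈ (Nat.primesLE (2 ^ J * n)).filter (fun p => n < p), 1 / (p : ℝ) ≤
      J * (2 * Real.log 4 / Real.log n) := by
  have hnr : (2 : ℝ) ≤ n := by exact_mod_cast hn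
  have hln : 0 < Real.log n := Real.log_pos (by linarith)
  induction J with
  | zero =>
    have : (Nat.primesLE (2 ^ 0 * n)).filter (fun p => n < p) = ∅ := by
      rw [filter_eq_empty_iff]
      intro p hp
      have := (Nat.mem_primesLE.1 hp).1
      rw [pow_zero, one_mul] at this
      omega
    rw [this, sum_empty]
    simp
  | succ J ih =>
    obtain ⟨m, hm⟩ : ∃ m : ℕ, m = 2 ^ J * n := ⟨_, rfl⟩
    have hmn : n ≤ m := by
      rw [hm]
      exact Nat.le_mul_of_pos_left n (by positivity)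
    have e1 : 2 ^ (J + 1) * n = 2 * m := by
      rw [hm]
      ring
    rw [← hm] at ih
    rw [e1]
    have hsub : (Nat.primesLE (2 * m)).filter (fun p => n < p) ⊆
        (Nat.primesLE m).filter (fun p => n < p) ∪ (Nat.primesLE (2 * m)).filter (fun p => m < p) := by
      intro p hp
      rw [mem_filter, Nat.mem_primesLE] at hp
      rw [mem_union, mem_filter, mem_filter, Nat.mem_primesLE, Nat.mem_primesLE]
      rcases Nat.lt_or_ge m p with h | h
      · exact Or.inr ⟨hp.1, h⟩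
      · exact Or.inl ⟨⟨h, hp.1.2⟩, hp.2⟩
    have h1 : ∑ p ∈ (Nat.primesLE (2 * m)).filter (fun p => n < p), 1 / (p : ℝ) ≤
        ∑ p ∈ (Nat.primesLE m).filter (fun p => n < p), 1 / (p : ℝ) +
        ∑ p ∈ (Nat.primesLE (2 * m)).filter (fun p => m < p), 1 / (p : ℝ) := by
      refine (sum_le_sum_of_subset_of_nonneg hsub fun p _ _ => by positivity).trans ?_
      rw [← sum_union_inter]
      have : 0 ≤ ∑ p ∈ (Nat.primesLE m).filter (fun p => n < p) ∩
          (Nat.primesLE (2 * m)).filter (fun p => m < p), 1 / (p : ℝ) :=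
        sum_nonneg fun p _ => by positivity
      linarith
    have h2 := block m (hn.trans hmn)
    have h3 : 2 * Real.log 4 / Real.log m ≤ 2 * Real.log 4 / Real.log n := by
      refine div_le_div_of_nonneg_left (by positivity) hln ?_
      refine Real.log_le_log (by linarith) ?_
      exact_mod_cast hmn
    push_cast
    linarith

/-- the sum of `1/p` over `(ε yy N, log N]` is small -/
lemma recip_small (ε δ : ℝ) (hε : 0 < ε) (hδ : 0 < δ) : ∃ N0 : ℕ, ∀ N : ℕ, N0 ≤ N →
    ∀ w1 w2 : ℕ, ε * yy N ≤ w1 → (w2 : ℝ) ≤ Real.log N →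
    ∑ p ∈ (Nat.primesLE w2).filter (fun p => w1 < p), 1 / (p : ℝ) ≤ δ := by
  have hlog : Tendsto (fun N : ℕ => Real.log (N:ℝ)) atTop atTop :=
    Real.tendsto_log_atTop.comp tendsto_natCast_atTop_atTop
  have hloglog : Tendsto (fun N : ℕ => Real.log (Real.log (N:ℝ))) atTop atTop :=
    Real.tendsto_log_atTop.comp hlog
  -- `log L / L → 0`
  have hll : Tendsto (fun N : ℕ => Real.log (Real.log (Real.log (N:ℝ))) /
      Real.log (Real.log (N:ℝ))) atTop (nhds 0) := by
    have h0 : Tendsto (fun x : ℝ => Real.log x / x) atTop (nhds 0) := by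
      have := Real.tendsto_pow_log_div_mul_add_atTop 1 0 1 one_ne_zero
      simpa using this
    exact h0.comp hloglog
  obtain ⟨κ, hκ⟩ : ∃ κ : ℝ, κ = min (1 / 8) (δ / 64) := ⟨_, rfl⟩
  have hκ0 : 0 < κ := by rw [hκ]; positivity
  have hκ1 : κ ≤ 1 / 8 := by rw [hκ]; exact min_le_left _ _
  have hκ2 : κ ≤ δ / 64 := by rw [hκ]; exact min_le_right _ _
  obtain ⟨N1, hN1⟩ := eventually_atTop.1 ((hll.eventually (gt_mem_nhds hκ0)).and
    ((hloglog.eventually_ge_atTop (max 4 (|Real.log ε| / κ))).and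
      ((hloglog.eventually_ge_atTop (2 / κ)).and (hlog.eventually_ge_atTop 3))))
  refine ⟨N1, ?_⟩
  intro N hN w1 w2 hw1 hw2
  obtain ⟨a1, a2, a3, a4⟩ := hN1 N hN
  obtain ⟨T, hT⟩ : ∃ T : ℝ, T = Real.log N := ⟨_, rfl⟩
  obtain ⟨L, hL⟩ : ∃ L : ℝ, L = Real.log T := ⟨_, rfl⟩
  rw [← hT] at a1 a2 a3 a4 hw2
  rw [← hL] at a1 a2 a3
  have hT0 : 0 < T := by linarith
  have hL4 : 4 ≤ L := (le_max_left _ _).trans a2
  have hL0 : 0 < L := by linarith
  have hlε : |Real.log ε| ≤ κ * L := by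
    have := (le_max_right _ _).trans a2
    rw [div_le_iff₀ hκ0] at this
    linarith
  have hlL : Real.log L ≤ κ * L := by
    rw [div_lt_iff₀ hL0] at a1
    exact a1.le
  have hκL : 2 ≤ κ * L := by
    rw [div_le_iff₀ hκ0] at a3
    linarith
  have hyy : yy N = T / L := by
    unfold yy
    rw [← hT, ← hL]
  have hy0 : 0 < ε * yy N := by rw [hyy]; positivity
  have hw1r : (0 : ℝ) < w1 := lt_of_lt_of_le hy0 hw1
  -- `log w1 ≥ L / 2`
  have hlw : L / 2 ≤ Real.log w1 := by
    have h1 : Real.log (ε * yy N) = Real.log ε + (L - Real.log L) := by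
      rw [Real.log_mul hε.ne' (by rw [hyy]; positivity), hyy, Real.log_div hT0.ne' hL0.ne', hL]
    have h2 : Real.log (ε * yy N) ≤ Real.log w1 := Real.log_le_log hy0 hw1
    have h3 := neg_abs_le (Real.log ε)
    have h4 : κ * L ≤ 1 / 8 * L := mul_le_mul_of_nonneg_right hκ1 hL0.le
    linarith
  have hw12 : 2 ≤ w1 := by
    by_contra hcon
    have h1 : w1 ≤ 1 := by omega
    have h2 : (w1 : ℝ) ≤ 1 := by exact_mod_cast h1
    have h3 : Real.log w1 ≤ 0 := Real.log_nonpos hw1r.le h2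
    linarith
  -- the number of the blocks
  obtain ⟨J, hJ⟩ : ∃ J : ℕ, J = ⌈Real.logb 2 (L / ε)⌉₊ := ⟨_, rfl⟩
  have hLε : 0 < L / ε := by positivity
  have hJ1 : L / ε ≤ (2 : ℝ) ^ J := by
    have h1 : Real.logb 2 (L / ε) ≤ J := by
      rw [hJ]
      exact Nat.le_ceil _
    calc L / ε = (2 : ℝ) ^ (Real.logb 2 (L / ε)) := (Real.rpow_logb (by norm_num) (by norm_num) hLε).symm
      _ ≤ (2 : ℝ) ^ (J : ℝ) := Real.rpow_le_rpow_of_exponent_le (by norm_num) h1
      _ = (2 : ℝ) ^ J := Real.rpow_natCast _ _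
  have hw2' : w2 ≤ 2 ^ J * w1 := by
    have h1 : (w2 : ℝ) ≤ (2 : ℝ) ^ J * w1 := by
      calc (w2 : ℝ) ≤ T := hw2
        _ = L / ε * (ε * yy N) := by
            rw [hyy]
            field_simp
        _ ≤ (2 : ℝ) ^ J * w1 := mul_le_mul hJ1 hw1 hy0.le (by positivity)
    exact_mod_cast h1
  have hJ2 : (J : ℝ) ≤ 5 * (κ * L) := by
    have hl2 : (1 / 2 : ℝ) ≤ Real.log 2 := by
      have := Real.log_two_gt_d9
      linarith
    have h1 : Real.logb 2 (L / ε) ≤ 2 * (2 * (κ * L)) := by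
      unfold Real.logb
      rw [Real.log_div hL0.ne' hε.ne', div_le_iff₀ (by linarith)]
      have h2 := neg_abs_le (Real.log ε)
      have h3 : Real.log L - Real.log ε ≤ 2 * (κ * L) := by linarith
      have h4 : 0 ≤ κ * L := by positivity
      nlinarith
    have h5 : (J : ℝ) ≤ 2 * (2 * (κ * L)) + 1 := by
      rcases le_or_gt (Real.logb 2 (L / ε)) 0 with h6 | h6
      · have : J = 0 := by
          rw [hJ]
          exact Nat.ceil_eq_zero.2 h6
        rw [this]
        push_cast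
        positivity
      · rw [hJ]
        have := (Nat.ceil_lt_add_one h6.le).le
        linarith
    linarith
  have hl4 : Real.log 4 ≤ 1.4 := by
    have h6 : Real.log 4 = 2 * Real.log 2 := by
      rw [show (4 : ℝ) = 2 ^ 2 by norm_num, Real.log_pow]
      norm_num
    have h7 := Real.log_two_lt_d9
    rw [h6]
    linarith
  have hl40 : 0 < Real.log 4 := Real.log_pos (by norm_num)
  have hsub : (Nat.primesLE w2).filter (fun p => w1 < p) ⊆
      (Nat.primesLE (2 ^ J * w1)).filter (fun p => w1 < p) := by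
    intro p hp
    rw [mem_filter, Nat.mem_primesLE] at hp ⊢
    exact ⟨⟨hp.1.1.trans hw2', hp.1.2⟩, hp.2⟩
  calc ∑ p ∈ (Nat.primesLE w2).filter (fun p => w1 < p), 1 / (p : ℝ) ≤
        ∑ p ∈ (Nat.primesLE (2 ^ J * w1)).filter (fun p => w1 < p), 1 / (p : ℝ) :=
        sum_le_sum_of_subset_of_nonneg hsub fun p _ _ => by positivity
    _ ≤ J * (2 * Real.log 4 / Real.log w1) := blocks w1 hw12 J
    _ ≤ 5 * (κ * L) * (2 * 1.4 / (L / 2)) := by
        refine mul_le_mul hJ2 ?_ (by positivity) (by positivity)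
        exact div_le_div₀ (by norm_num) (by linarith) (by positivity) hlw
    _ = 28 * κ := by
        field_simp
        norm_num
    _ ≤ δ := by linarith

/-- one prime -/
lemma one_prime (w r p : ℕ) (hp : p ∈ Nat.primesLE w) (C : ℝ) (hC : 0 ≤ C)
    (hbox : ∑ a ∈ (Fintype.piFinset (fun _ : Fin r => range p)).filter (fun a => nuI a p < p),
      1 / ((p : ℝ) - nuI a p) ≤
      C / p * (((Fintype.piFinset (fun _ : Fin r => range p)).filter
        (fun a => nuI a p < p)).card : ℝ)) :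
    ∑ a ∈ AC w r, 1 / ((p : ℝ) - nuI a p) ≤ C / p * (AC w r).card := by
  classical
  obtain ⟨u, hu⟩ : ∃ u : ℕ → (Fin r → ℕ) → ℝ, u = fun q a =>
    (if nuI a q < q then (1 : ℝ) else 0) * (if q = p then 1 / ((p : ℝ) - nuI a p) else 1) := ⟨_, rfl⟩
  obtain ⟨v, hv⟩ : ∃ v : ℕ → (Fin r → ℕ) → ℝ, v = fun q a =>
    (if nuI a q < q then (1 : ℝ) else 0) := ⟨_, rfl⟩
  have hS : ∀ q ∈ Nat.primesLE w, q.Prime := fun q hq => (Nat.mem_primesLE.1 hq).2
  have hu1 : ∀ q ∈ Nat.primesLE w, ∀ x, u q (fun i => x i % q) = u q x := by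
    intro q _ x
    rw [hu]
    simp only [nuI_mod]
    by_cases hqp : q = p
    · rw [hqp, if_pos rfl, if_pos rfl, nuI_mod]
    · rw [if_neg hqp, if_neg hqp]
  have hv1 : ∀ q ∈ Nat.primesLE w, ∀ x, v q (fun i => x i % q) = v q x := by
    intro q _ x
    rw [hv]
    simp only [nuI_mod]
  have hcu := JCrtAux.crt_prod (r := r) (Nat.primesLE w) hS u hu1
  have hcv := JCrtAux.crt_prod (r := r) (Nat.primesLE w) hS v hv1
  have hPP : ∏ q ∈ Nat.primesLE w, q = PP w := rfl
  rw [hPP] at hcu hcv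
  have hprod : ∀ x : Fin r → ℕ, ∏ q ∈ Nat.primesLE w, v q x =
      if ∀ q ∈ Nat.primesLE w, nuI x q < q then 1 else 0 := by
    intro x
    rw [hv]
    exact Finset.prod_boole
  have e1 : ((AC w r).card : ℝ) =
      ∑ x ∈ Fintype.piFinset (fun _ : Fin r => range (PP w)), ∏ q ∈ Nat.primesLE w, v q x := by
    simp only [hprod]
    rw [sum_boole]
    congr 2
  have e2 : ∑ a ∈ AC w r, 1 / ((p : ℝ) - nuI a p) =
      ∑ x ∈ Fintype.piFinset (fun _ : Fin r => range (PP w)), ∏ q ∈ Nat.primesLE w, u q x := by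
    have h1 : ∀ x : Fin r → ℕ, ∏ q ∈ Nat.primesLE w, u q x =
        if ∀ q ∈ Nat.primesLE w, nuI x q < q then 1 / ((p : ℝ) - nuI x p) else 0 := by
      intro x
      have h2 : ∏ q ∈ Nat.primesLE w, u q x = (∏ q ∈ Nat.primesLE w, v q x) *
          ∏ q ∈ Nat.primesLE w, (if q = p then 1 / ((p : ℝ) - nuI x p) else 1) := by
        rw [hu, hv, ← prod_mul_distrib]
      rw [h2, hprod, prod_ite_eq', if_pos hp]
      split_ifs <;> simp
    simp only [h1]
    rw [← sum_filter]
    refine sum_congr ?_ fun _ _ => rfl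
    unfold AC
    congr!
  rw [e2, hcu, e1, hcv, ← mul_prod_erase _ _ hp, ← mul_prod_erase _ _ hp]
  have e3 : ∀ q ∈ (Nat.primesLE w).erase p,
      ∑ x ∈ Fintype.piFinset (fun _ : Fin r => range q), u q x =
      ∑ x ∈ Fintype.piFinset (fun _ : Fin r => range q), v q x := by
    intro q hq
    have hqp : q ≠ p := (mem_erase.1 hq).1
    refine sum_congr rfl fun x _ => ?_
    rw [hu, hv]
    simp only [if_neg hqp, mul_one]
  rw [prod_congr rfl e3, ← mul_assoc]
  refine mul_le_mul_of_nonneg_right ?_ ?_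
  · have e4 : ∑ x ∈ Fintype.piFinset (fun _ : Fin r => range p), u p x =
        ∑ a ∈ (Fintype.piFinset (fun _ : Fin r => range p)).filter (fun a => nuI a p < p),
          1 / ((p : ℝ) - nuI a p) := by
      rw [sum_filter]
      refine sum_congr rfl fun x _ => ?_
      rw [hu]
      simp only [if_true]
      split_ifs <;> simp
    have e5 : ∑ x ∈ Fintype.piFinset (fun _ : Fin r => range p), v p x =
        (((Fintype.piFinset (fun _ : Fin r => range p)).filter (fun a => nuI a p < p)).card : ℝ) := by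
      rw [hv]
      simp only
      rw [sum_boole]
    rw [e4, e5]
    exact hbox
  · refine prod_nonneg fun q _ => sum_nonneg fun x _ => ?_
    rw [hv]
    simp only
    split_ifs <;> norm_num

end JBoxSAux

open JBoxSAux

open scoped Classical in
/-- The sum of the inverse numbers of the missed classes is small in almost all admissible classes. -/
theorem j_boxsum (ε η : ℝ) (hε : 0 < ε) (hη : 0 < η) : ∃ N0 : ℕ, ∀ N : ℕ, N0 ≤ N →
    ∀ w1 w2 : ℕ, w1 ≤ w2 → ε * yy N ≤ w1 → (w2 : ℝ) ≤ Real.log N → ∀ r : ℕ, (r : ℝ) ≤ yy N →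
    (((AC w2 r).filter (fun a => η < ∑ p ∈ (Nat.primesLE w2).filter (fun p => w1 < p),
      1 / ((p : ℝ) - nuI a p))).card : ℝ) ≤ η * (AC w2 r).card := by
  obtain ⟨C, hC, p0, hbox⟩ := j_box (1 / ε)
  obtain ⟨N1, hN1⟩ := recip_small ε (η ^ 2 / C) hε (by positivity)
  obtain ⟨N2, hN2⟩ := GoodXAux.large (p0 / ε)
  refine ⟨max N1 N2, ?_⟩
  intro N hN w1 w2 hw12 hw1 hw2 r hr
  have g1 : N1 ≤ N := (le_max_left _ _).trans hN
  have g2 : N2 ≤ N := (le_max_right _ _).trans hN
  have hy := (hN2 N g2).2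
  have hp0w : (p0 : ℝ) ≤ w1 := by
    refine le_trans ?_ hw1
    rw [div_le_iff₀ hε] at hy
    linarith
  -- one prime
  have hone : ∀ p ∈ (Nat.primesLE w2).filter (fun p => w1 < p),
      ∑ a ∈ AC w2 r, 1 / ((p : ℝ) - nuI a p) ≤ C / p * (AC w2 r).card := by
    intro p hp
    rw [mem_filter] at hp
    have hpp : p.Prime := (Nat.mem_primesLE.1 hp.1).2
    have hwp : (w1 : ℝ) < p := by exact_mod_cast hp.2
    refine one_prime w2 r p hp.1 C hC.le ?_
    have h1 : p0 ≤ p := by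
      have : (p0 : ℝ) ≤ p := by linarith
      exact_mod_cast this
    have h2 : (r : ℝ) ≤ 1 / ε * p := by
      rw [div_mul_eq_mul_div, one_mul, le_div_iff₀ hε]
      calc (r : ℝ) * ε ≤ yy N * ε := mul_le_mul_of_nonneg_right hr hε.le
        _ = ε * yy N := mul_comm _ _
        _ ≤ p := by linarith
    have h3 := hbox p hpp h1 r h2
    convert h3
  have hsum : ∑ a ∈ AC w2 r, ∑ p ∈ (Nat.primesLE w2).filter (fun p => w1 < p),
      1 / ((p : ℝ) - nuI a p) ≤ η ^ 2 * (AC w2 r).card := by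
    rw [sum_comm]
    refine (sum_le_sum hone).trans ?_
    rw [← sum_mul]
    refine mul_le_mul_of_nonneg_right ?_ (Nat.cast_nonneg _)
    have h1 : ∀ p ∈ (Nat.primesLE w2).filter (fun p => w1 < p), C / (p : ℝ) = C * (1 / p) :=
      fun p _ => by ring
    rw [sum_congr rfl h1, ← mul_sum]
    have h2 := hN1 N g1 w1 w2 hw1 hw2
    calc C * ∑ p ∈ (Nat.primesLE w2).filter (fun p => w1 < p), 1 / (p : ℝ) ≤ C * (η ^ 2 / C) :=
          mul_le_mul_of_nonneg_left h2 hC.le
      _ = η ^ 2 := by field_simp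
  have hnn : ∀ a ∈ AC w2 r, 0 ≤ ∑ p ∈ (Nat.primesLE w2).filter (fun p => w1 < p),
      1 / ((p : ℝ) - nuI a p) := by
    intro a ha
    unfold AC at ha
    rw [mem_filter] at ha
    refine sum_nonneg fun p hp => ?_
    have h1 := ha.2 p (mem_filter.1 hp).1
    have h2 : (nuI a p : ℝ) < p := by exact_mod_cast h1
    have : 0 < (p : ℝ) - nuI a p := by linarith
    positivity
  -- Markov
  have hM : (((AC w2 r).filter (fun a => η < ∑ p ∈ (Nat.primesLE w2).filter (fun p => w1 < p),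
      1 / ((p : ℝ) - nuI a p))).card : ℝ) * η ≤ η ^ 2 * (AC w2 r).card := by
    refine le_trans ?_ hsum
    rw [← nsmul_eq_mul, ← sum_const]
    refine (sum_le_sum (f := fun _ => η) (g := fun a =>
      ∑ p ∈ (Nat.primesLE w2).filter (fun p => w1 < p), 1 / ((p : ℝ) - nuI a p))
      fun a ha => (mem_filter.1 ha).2.le).trans ?_
    exact sum_le_sum_of_subset_of_nonneg (filter_subset _ _) fun a ha _ => hnn a ha
  refine le_of_mul_le_mul_right (hM.trans (le_of_eq ?_)) hη
  ring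

end Pool.Agent.Lib.LEN
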