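import Pool.Agent.Lib.LEN.TVDefs
import Pool.Agent.Lib.LEN.LevS

/-!
# LEN.JDefs: Hardy-Littlewood and Granville's model together: definitions
-/

set_option autoImplicit false

open Finset Filter

namespace Pool.Agent.Lib.LEN

open Pool.Agent.HLB Pool.Agent.HLT Pool.Agent.HLR Pool.Agent.Lib.GMV

/-- The inner part of `LevS` (for one triple `cw, d, B'`). -/
def LevI (C1 cA : ℝ) (k0 : ℕ) (cw d B' : ℝ) : Prop := ∀ K A : ℝ, 1 ≤ K → 1 ≤ A →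
    ∃ C0 : ℝ, ∀ C2 cB : ℝ, C0 ≤ C2 → 0 < cB → ∀ u : ℝ, 0 < u → ∀ w1 : ℕ, ∃ N0 : ℕ, ∀ N : ℕ,
    N0 ≤ N → GoodX cA C1 cB C2 N → ∀ w : ℕ, w = ⌊cw * yy N⌋₊ →
    w1 ≤ w ∧ 4 ^ (100 * (k0 + 1) * w) ≤ N ∧ Real.log N ≤ (w : ℝ) ^ 2 ∧
      yy N ≤ 2 / cw * w ∧ (w : ℝ) ≤ u * Real.log N ∧
    ∃ e1 e2 : ℝ, 0 ≤ e1 ∧ e1 ≤ 1 ∧ 0 ≤ e2 ∧ e2 ≤ 1 ∧ ∀ k : ℕ, 1 ≤ k → k ≤ k0 →
    ∃ (Bd1 Bd2 Bd3 : Finset (Fin k → ℕ)), (Bd3.card : ℝ) ≤ (N : ℝ) ^ ((k : ℝ) - d) ∧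
    (∀ r : ℕ, (r : ℝ) ≤ K * yy N → r * e1 ≤ u ∧
      (Bd1.card : ℝ) * 4 ^ (k * w) ≤ u * (N : ℝ) ^ k ∧
      (1 + e2) ^ r * Real.sqrt Bd1.card * 4 ^ (k * w) ≤ u * Real.sqrt ((N : ℝ) ^ k) ∧
      B' ^ r * Real.sqrt Bd2.card * 4 ^ (k * w) ≤ u * Real.sqrt ((N : ℝ) ^ k) ∧
      A ^ r * Real.sqrt Bd2.card * 4 ^ (k * w) ≤ u * Real.sqrt ((N : ℝ) ^ k)) ∧
    (∀ c, ∀ n ∈ TK N k, n ∉ Bd1 → (∀ j, Nat.Coprime (n j + c) (PP w)) →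
      Tm N w k * (1 - e1) ≤ CK lp N w c n ∧ CK lp N w c n ≤ Tm N w k * (sk w n * (1 + e1))) ∧
    (∀ c, ∀ n ∈ TK N k, n ∉ Bd2 → (∀ j, Nat.Coprime (n j + c) (PP w)) →
      CK lp N w c n ≤ Tm N w k * (sk w n * (1 + e2))) ∧
    (∀ c, ∀ n ∈ TK N k, n ∉ Bd3 → (∀ j, Nat.Coprime (n j + c) (PP w)) →
      CK lp N w c n ≤ Tm N w k * (sk w n * B'))

lemma LevS_LevI (C1 cA : ℝ) : LevS C1 cA ↔ ∀ k0 : ℕ, ∃ cw d B' : ℝ, 0 < cw ∧ 0 < d ∧ 1 ≤ B' ∧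
    LevI C1 cA k0 cw d B' := Iff.rfl

/-- The `n ∈ (N, 2N]` with all `n + h i` prime (`cnt N h` of them). -/
def Sh (N : ℕ) {r : ℕ} (h : Fin r → ℕ) : Finset ℕ :=
  (Ioc N (2 * N)).filter fun n => ∀ i, (n + h i).Prime

/-- The number of the `n ∈ S` in the class `b` modulo `PP w` with the pattern `T`. -/
def kc (w : ℕ) (S : Finset ℕ) {D : ℕ} (s : Fin D → ℕ) (b : ℕ) (T : Finset (Fin D)) : ℕ :=
  (S.filter fun n => n % PP w = b ∧ pat s n = T).card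

/-- The number of the `n ∈ (N, 2N]` with all `n + h i` prime and `{j : n + s j prime} = T`. -/
def cntP (N : ℕ) {r D : ℕ} (h : Fin r → ℕ) (s : Fin D → ℕ) (T : Finset (Fin D)) : ℕ :=
  ((Ioc N (2 * N)).filter fun n => (∀ i, (n + h i).Prime) ∧ pat s n = T).card

open scoped Classical in
/-- Granville's model: the probability of the pattern `T`, given that all `n + h i` are coprime to
`PP w`. -/
noncomputable def QH (N w : ℕ) {r D : ℕ} (h : Fin r → ℕ) (s : Fin D → ℕ) (T : Finset (Fin D)) : ℝ :=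
  (∑ b ∈ (range (PP w)).filter (Good w h), QB N w s b T) / nA w h

/-- The distance between the primes and the model (normalised by the Hardy-Littlewood prediction). -/
noncomputable def DJ (N w : ℕ) {r D : ℕ} (h : Fin r → ℕ) (s : Fin D → ℕ) : ℝ :=
  ∑ T : Finset (Fin D), |(cntP N h s T : ℝ) - pr N h * QH N w h s T|

open scoped Classical in
/-- The prediction for a class and a pattern. -/
noncomputable def nuJ (N w : ℕ) {r D : ℕ} (h : Fin r → ℕ) (s : Fin D → ℕ)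
    (x : ℕ × Finset (Fin D)) : ℝ :=
  if Good w h x.1 then (N : ℝ) / PP w * ((DZ w)⁻¹ / Real.log N) ^ r * QB N w s x.1 x.2 else 0

/-- The distance with the classes. -/
noncomputable def DC (N w : ℕ) {r D : ℕ} (h : Fin r → ℕ) (s : Fin D → ℕ) : ℝ :=
  ∑ x ∈ range (PP w) ×ˢ (univ : Finset (Finset (Fin D))),
    |(kc w (Sh N h) s x.1 x.2 : ℝ) - nuJ N w h s x|

/-- Bound for the number of primes of a typical pattern, given `r` primes. -/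
noncomputable def MJ (ε : ℝ) (N r : ℕ) : ℕ := ⌊(1 - ε / 2) * yy N - r⌋₊

end Pool.Agent.Lib.LEN
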