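import Pool.Agent.Lib.LEN.TVChi
import Pool.Agent.Lib.LEN.JDefs

/-!
# LEN.JChi: the second moment of the likelihood ratio for a subset of `(N, 2N]`

The same as `TVChi` for the `n` of a set `S ⊆ (N, 2N]`.
-/

set_option autoImplicit false

open Finset Filter

namespace Pool.Agent.Lib.LEN

open Pool.Agent.HLB Pool.Agent.HLT Pool.Agent.HLR Pool.Agent.Lib.GMV TVChiAux

namespace JChiAux

open scoped Classical in
/-- The sum over the typical keys as a sum over pairs. -/
lemma pairs (N w M A : ℕ) {D : ℕ} (S : Finset ℕ) (s : Fin D → ℕ) :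
    ∑ x ∈ Ty w M A s, ((S.filter fun n => n % PP w = x.1 ∧ pat s n = x.2).card : ℝ) ^ 2 /
      QB N w s x.1 x.2 =
      ∑ n ∈ S, ∑ n' ∈ S,
        if key w s n' = key w s n ∧ key w s n ∈ Ty w M A s then
          (QB N w s (n % PP w) (pat s n))⁻¹ else 0 := by
  have h1 : ∀ x : ℕ × Finset (Fin D),
      ((S.filter fun n => n % PP w = x.1 ∧ pat s n = x.2).card : ℝ) ^ 2 / QB N w s x.1 x.2 =
      ∑ n ∈ S, ∑ n' ∈ S,
        if key w s n = x ∧ key w s n' = x then (QB N w s x.1 x.2)⁻¹ else 0 := by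
    intro x
    have h2 : ((S.filter fun n => n % PP w = x.1 ∧ pat s n = x.2).card : ℝ) =
        ∑ n ∈ S, if key w s n = x then (1 : ℝ) else 0 := by
      rw [← sum_filter, sum_const, nsmul_eq_mul, mul_one]
      congr 2
      refine filter_congr fun n _ => ?_
      unfold key
      rw [Prod.ext_iff]
    have h3 : ∑ n ∈ S, ∑ n' ∈ S,
        (if key w s n = x ∧ key w s n' = x then (QB N w s x.1 x.2)⁻¹ else 0) =
        (∑ n ∈ S, if key w s n = x then (1 : ℝ) else 0) ^ 2 * (QB N w s x.1 x.2)⁻¹ := by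
      rw [sq, sum_mul_sum, sum_mul]
      refine sum_congr rfl fun n _ => ?_
      rw [sum_mul]
      refine sum_congr rfl fun n' _ => ?_
      by_cases c1 : key w s n = x
      · by_cases c2 : key w s n' = x
        · rw [if_pos ⟨c1, c2⟩, if_pos c1, if_pos c2, one_mul, one_mul]
        · rw [if_neg (fun h => c2 h.2), if_neg c2, mul_zero, zero_mul]
      · rw [if_neg (fun h => c1 h.1), if_neg c1, zero_mul, zero_mul]
    rw [h3, h2, div_eq_mul_inv]
  rw [sum_congr rfl fun x _ => h1 x]
  rw [sum_comm]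
  refine sum_congr rfl fun n _ => ?_
  rw [sum_comm]
  refine sum_congr rfl fun n' _ => ?_
  by_cases hk : key w s n' = key w s n
  · by_cases ht : key w s n ∈ Ty w M A s
    · rw [if_pos ⟨hk, ht⟩, sum_eq_single (key w s n)]
      · rw [if_pos ⟨rfl, hk⟩]
        rfl
      · intro x _ hx
        rw [if_neg]
        exact fun h => hx h.1.symm
      · intro h
        exact absurd ht h
    · rw [if_neg (fun h => ht h.2)]
      refine sum_eq_zero fun x hx => ?_
      rw [if_neg]
      rintro ⟨h, _⟩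
      rw [h] at ht
      exact ht hx
  · rw [if_neg (fun h => hk h.1)]
    refine sum_eq_zero fun x _ => ?_
    rw [if_neg]
    rintro ⟨h, h'⟩
    exact hk (h'.trans h.symm)

end JChiAux

open scoped Classical in
/-- Module JChi. -/
theorem j_chi (N w D M A : ℕ) (_hN : 2 ≤ N) (hw : w ≤ N) (hq0 : 0 < (DZ w)⁻¹ / Real.log N)
    (hq1 : (DZ w)⁻¹ / Real.log N < 1) (S : Finset ℕ) (hS : S ⊆ Ioc N (2 * N)) :
    ∑ s ∈ Tup D (Icc 1 N), ∑ x ∈ Ty w M A s, (kc w S s x.1 x.2 : ℝ) ^ 2 / QB N w s x.1 x.2 ≤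
      ∑ x ∈ (CP N N w).filter (fun x => x.1 ∈ S ∧ x.2 ∈ S),
        (∑ m ∈ Icc 1 N, ph N w x.1 x.2 m) ^ D +
      S.card * ((N : ℝ) ^ D /
        (((DZ w)⁻¹ / Real.log N) ^ M * (1 - (DZ w)⁻¹ / Real.log N) ^ A)) := by
  unfold kc
  set q : ℝ := (DZ w)⁻¹ / Real.log N with hq
  set Z : ℝ := q ^ M * (1 - q) ^ A with hZ
  have hZ0 : 0 < Z := mul_pos (pow_pos hq0 _) (pow_pos (by linarith) _)
  have hs : ∀ s ∈ Tup D (Icc 1 N), ∑ x ∈ Ty w M A s,
      ((S.filter fun n => n % PP w = x.1 ∧ pat s n = x.2).card : ℝ) ^ 2 / QB N w s x.1 x.2 ≤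
      S.card / Z + ∑ x ∈ (CP N N w).filter (fun x => x.1 ∈ S ∧ x.2 ∈ S),
        ∏ i, ph N w x.1 x.2 (s i) := by
    intro s _
    rw [JChiAux.pairs]
    have h1 : ∀ n ∈ S, ∑ n' ∈ S,
        (if key w s n' = key w s n ∧ key w s n ∈ Ty w M A s then
          (QB N w s (n % PP w) (pat s n))⁻¹ else 0) ≤
        1 / Z + ∑ n' ∈ S.filter (fun n' => n ≠ n' ∧ n' % PP w = n % PP w),
          ∏ i, ph N w n n' (s i) := by
      intro n hn
      rw [← add_sum_erase _ _ hn]
      refine add_le_add ?_ ?_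
      · split_ifs with hc
        · have ht := hc.2
          unfold Ty key at ht
          rw [mem_filter] at ht
          rw [← one_div]
          exact one_div_le_one_div_of_le hZ0
            (QB_ge N w M A n s hw (mem_Ioc.1 (hS hn)).1 hq0 hq1 ht.2.1 ht.2.2)
        · positivity
      · have hph : ∀ n', 0 ≤ ∏ i, ph N w n n' (s i) := fun n' =>
          prod_nonneg fun i _ => ph_nonneg N w n n' (s i) hq0 hq1
        rw [sum_filter]
        refine (sum_le_sum fun n' hn' => ?_).trans (sum_le_sum_of_subset_of_nonneg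
          (erase_subset n S) fun n' _ _ => ?_)
        · rw [mem_erase] at hn'
          split_ifs with c1 c2 c2
          · have hk := c1.1
            unfold key at hk
            rw [Prod.mk.injEq] at hk
            exact (inv_QB N w n n' s hk.2).le
          · exfalso
            apply c2
            have hk := c1.1
            unfold key at hk
            rw [Prod.mk.injEq] at hk
            exact ⟨Ne.symm hn'.1, hk.1⟩
          · exact hph n'
          · exact le_rfl
        · split_ifs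
          · exact hph n'
          · exact le_rfl
    refine (sum_le_sum h1).trans (le_of_eq ?_)
    rw [sum_add_distrib, sum_const, nsmul_eq_mul]
    congr 1
    · ring
    · have e : (CP N N w).filter (fun x => x.1 ∈ S ∧ x.2 ∈ S) =
          (S ×ˢ S).filter (fun x => x.1 ≠ x.2 ∧ x.2 % PP w = x.1 % PP w) := by
        ext x
        unfold CP
        rw [mem_filter, mem_filter, mem_filter, mem_product, mem_product, ← two_mul]
        constructor
        · rintro ⟨⟨_, h2⟩, h3⟩
          exact ⟨h3, h2⟩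
        · rintro ⟨h3, h2⟩
          exact ⟨⟨⟨hS h3.1, hS h3.2⟩, h2⟩, h3⟩
      rw [e, sum_filter, sum_product]
      refine sum_congr rfl fun n _ => ?_
      rw [sum_filter]
  refine (sum_le_sum hs).trans (le_of_eq ?_)
  rw [sum_add_distrib, sum_const, sum_comm]
  have hT : ∀ x ∈ (CP N N w).filter (fun x => x.1 ∈ S ∧ x.2 ∈ S),
      ∑ s ∈ Tup D (Icc 1 N), ∏ i, ph N w x.1 x.2 (s i) =
      (∑ m ∈ Icc 1 N, ph N w x.1 x.2 m) ^ D := by
    intro x _
    unfold Tup
    rw [← Finset.prod_univ_sum (t := fun _ : Fin D => Icc 1 N) (f := fun _ m => ph N w x.1 x.2 m),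
      prod_const, card_univ, Fintype.card_fin]
  rw [sum_congr rfl hT]
  have hcard : ((Tup D (Icc 1 N)).card : ℝ) = (N : ℝ) ^ D := by
    unfold Tup
    rw [Fintype.card_piFinset_const, Nat.card_Icc, Nat.add_sub_cancel]
    push_cast
    ring
  rw [nsmul_eq_mul, hcard]
  ring

end Pool.Agent.Lib.LEN
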