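import Pool.Agent.Lib.LEN.CMom
import Pool.Agent.Lib.LEN.JDefs
import Pool.Agent.Lib.LEN.FinA

/-!
# LEN.JOne: the mean of the count in all but few admissible classes
-/

set_option autoImplicit false

open Finset Filter

namespace Pool.Agent.Lib.LEN

open Pool.Agent.HLB Pool.Agent.HLT Pool.Agent.HLR Pool.Agent.Lib.GMV

open CMomAux in
open scoped Classical in
/-- `classK` with the inner part of `LevS` as hypothesis. -/
theorem classK_of (C1 cA : ℝ) (k0 : ℕ) (cw d B' : ℝ) (hcw : 0 < cw) (hd : 0 < d) (hB' : 1 ≤ B')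
    (hI : LevI C1 cA k0 cw d B') :
    ∃ C0 : ℝ, ∀ C2 cB : ℝ, C0 ≤ C2 → 0 < cB →
    ∀ η : ℝ, 0 < η → ∀ w1 : ℕ, ∃ N0 : ℕ, ∀ N : ℕ, N0 ≤ N → GoodX cA C1 cB C2 N →
    ∀ w : ℕ, w = ⌊cw * yy N⌋₊ → w1 ≤ w ∧ 4 ^ (100 * w) ≤ N ∧ Real.log N ≤ (w : ℝ) ^ 2 ∧
      2 * yy N ≤ 4 / cw * w ∧ (w : ℝ) ≤ η * Real.log N ∧
    ∀ r : ℕ, 1 ≤ r → (r : ℝ) ≤ 2 * yy N → ∃ Bc : Finset (Fin r → ℕ),
    (Bc.card : ℝ) ≤ (N : ℝ) ^ (-(d / 4)) * ((Fintype.piFinset (fun _ : Fin r => range (PP w))).filter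
      (fun a => ∀ p ∈ Nat.primesLE w, nuI a p < p)).card ∧
    ∀ a ∈ Fintype.piFinset (fun _ : Fin r => range (PP w)),
      (∀ p ∈ Nat.primesLE w, nuI a p < p) → a ∉ Bc → ∀ k : ℕ, 1 ≤ k → k ≤ k0 →
      |∑ h ∈ Hc N w a, ((cnt N h).descFactorial k : ℝ) - lam N w a ^ k * (Hc N w a).card| ≤
        η * (lam N w a ^ k * (Hc N w a).card) := by
  obtain ⟨C0, hL2⟩ := hI 2 1 (by norm_num) le_rfl
  refine ⟨C0, fun C2 cB hC2 hcB η hη w1 => ?_⟩
  obtain ⟨w0, u, N1, hu, hall⟩ := exists_all (4 / cw) (min (η / 4) (1 / 2)) d (by positivity)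
    (lt_min (by positivity) (by norm_num))
    (by linarith [min_le_right (η / 4) (1 / 2 : ℝ)]) hd k0
  obtain ⟨c, hc, hDZ⟩ := Pool.Agent.Lib.MP.DZ_lower
  obtain ⟨N2, hN2⟩ := hL2 C2 cB hC2 hcB (min (min u η) 1)
    (lt_min (lt_min hu hη) one_pos) (max (max w0 w1) 2)
  have hE3 : ∀ᶠ N : ℕ in atTop, (k0 : ℝ) ≤ (N : ℝ) ^ (d / 8) :=
    ((tendsto_rpow_atTop (by positivity : 0 < d / 8)).comp
      tendsto_natCast_atTop_atTop).eventually_ge_atTop _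
  obtain ⟨N0, hN0⟩ := eventually_atTop.1 ((ev_pow (d / 8) c 1 (by positivity) hc).and
    (hE3.and ((loglog_tendsto.eventually_ge_atTop 1).and
      ((eventually_ge_atTop N1).and ((eventually_ge_atTop N2).and (eventually_ge_atTop 3))))))
  refine ⟨N0, fun N hN hG w hw => ?_⟩
  obtain ⟨hev, hη3, hll, hNN1, hNN2, hN3⟩ := hN0 N hN
  have hN1 : (1 : ℝ) < N := by exact_mod_cast (by omega : 1 < N)
  have hNpos : (0 : ℝ) < N := by linarith
  have hLpos : 0 < Real.log N := Real.log_pos hN1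
  obtain ⟨hw1, hw2, hw3, hw4, hw5, e1, e2, he10, -, he20, -, hk⟩ := hN2 N hNN2 hG w hw
  have hww0 : w0 ≤ w := (le_max_left _ _).trans ((le_max_left _ _).trans hw1)
  have hww1 : w1 ≤ w := (le_max_right _ _).trans ((le_max_left _ _).trans hw1)
  have hw2' : 2 ≤ w := (le_max_right _ _).trans hw1
  have h4w : 4 ^ (100 * w) ≤ N := by
    refine le_trans (Nat.pow_le_pow_right (by norm_num) ?_) hw2
    nlinarith [Nat.zero_le (k0 * w)]
  have hwu : (w : ℝ) ≤ u * Real.log N := hw5.trans (mul_le_mul_of_nonneg_right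
    ((min_le_left _ _).trans (min_le_left _ _)) hLpos.le)
  have hwη : (w : ℝ) ≤ η * Real.log N := hw5.trans (mul_le_mul_of_nonneg_right
    ((min_le_left _ _).trans (min_le_right _ _)) hLpos.le)
  have hwL : (w : ℝ) ≤ Real.log N := by
    refine hw5.trans ((mul_le_mul_of_nonneg_right (min_le_right _ _) hLpos.le).trans ?_)
    rw [one_mul]
  have hyw : 2 * yy N ≤ 4 / cw * w := by
    calc 2 * yy N ≤ 2 * (2 / cw * w) := by linarith
      _ = 4 / cw * w := by ring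
  refine ⟨hww1, h4w, hw3, hyw, hwη, fun r hr1 hry => ?_⟩
  have key : ∀ k : ℕ, ∃ Bc : Finset (Fin r → ℕ), 1 ≤ k → k ≤ k0 →
      (Bc.card : ℝ) ≤ (N : ℝ) ^ (-(d / 2)) * (PP w : ℝ) ^ r ∧
      ∀ a ∈ Fintype.piFinset (fun _ : Fin r => range (PP w)), 1 ≤ nA w a → a ∉ Bc →
      |∑ h ∈ Hc N w a, ((cnt N h).descFactorial k : ℝ) - lam N w a ^ k * (Hc N w a).card| ≤
        (4 * min (η / 4) (1 / 2)) * (lam N w a ^ k * (Hc N w a).card) := by
    intro k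
    by_cases hkk : 1 ≤ k ∧ k ≤ k0
    · obtain ⟨Bd1, Bd2, Bd3, hBd3, hr, hA1, hA2, hA3⟩ := hk k hkk.1 hkk.2
      obtain ⟨hr1', hr2, hr3, hr4, -⟩ := hr r hry
      have hmin : min (min u η) 1 ≤ u := (min_le_left _ _).trans (min_le_left _ _)
      obtain ⟨Bc, hBc, hBc'⟩ := hall k hkk.2 N w hNN1 hww0 h4w hwu r hr1 (hry.trans hyw) hry e1 e2
        B' Bd1 Bd2 Bd3 he10 he20 hB' hBd3 (hr1'.trans hmin)
        (hr2.trans (mul_le_mul_of_nonneg_right hmin (by positivity)))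
        (hr3.trans (mul_le_mul_of_nonneg_right hmin (Real.sqrt_nonneg _)))
        (hr4.trans (mul_le_mul_of_nonneg_right hmin (Real.sqrt_nonneg _))) hA1 hA2 hA3
      exact ⟨Bc, fun _ _ => ⟨hBc, hBc'⟩⟩
    · exact ⟨∅, fun h1 h2 => absurd ⟨h1, h2⟩ hkk⟩
  choose Bck hBck using key
  refine ⟨(Finset.Icc 1 k0).biUnion Bck, ?_, ?_⟩
  · have hP : (0 : ℝ) < PP w := by exact_mod_cast PP_pos w
    have hcard : (((Finset.Icc 1 k0).biUnion Bck).card : ℝ) ≤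
        k0 * ((N : ℝ) ^ (-(d / 2)) * (PP w : ℝ) ^ r) := by
      have h1 : (((Finset.Icc 1 k0).biUnion Bck).card : ℝ) ≤
          ∑ k ∈ Finset.Icc 1 k0, ((Bck k).card : ℝ) := by
        exact_mod_cast Finset.card_biUnion_le
      refine h1.trans ?_
      have h2 : ∑ k ∈ Finset.Icc 1 k0, ((Bck k).card : ℝ) ≤
          ∑ _k ∈ Finset.Icc 1 k0, ((N : ℝ) ^ (-(d / 2)) * (PP w : ℝ) ^ r) := by
        refine Finset.sum_le_sum fun k hk' => ?_
        rw [Finset.mem_Icc] at hk'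
        exact (hBck k hk'.1 hk'.2).1
      refine h2.trans (le_of_eq ?_)
      rw [Finset.sum_const, Nat.card_Icc, nsmul_eq_mul, Nat.add_sub_cancel]
    refine hcard.trans ?_
    refine le_trans ?_ (mul_le_mul_of_nonneg_left (adm_classes w r)
      (by positivity : (0 : ℝ) ≤ (N : ℝ) ^ (-(d / 4))))
    have hlw : 0 < Real.log w := Real.log_pos (by exact_mod_cast (by omega : 1 < w))
    have hlw' : Real.log w ≤ Real.log (Real.log N) :=
      Real.log_le_log (by exact_mod_cast (by omega : 0 < w)) hwL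
    have hDZ1 : (DZ w)⁻¹ ≤ Real.log (Real.log N) / c := by
      rw [inv_le_comm₀ (DZ_pos w) (by positivity), inv_div]
      refine le_trans ?_ (hDZ w hw2')
      exact div_le_div_of_nonneg_left hc.le hlw hlw'
    have hDZ2 : ((DZ w)⁻¹) ^ r ≤ (N : ℝ) ^ (d / 8) := by
      refine le_trans (pow_le_pow_left₀ (inv_nonneg.2 (DZ_pos w).le) hDZ1 r) ?_
      have h1 := hev r hry
      rwa [pow_one] at h1
    have hDZ3 : (N : ℝ) ^ (-(d / 8)) ≤ DZ w ^ r := by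
      rw [Real.rpow_neg hNpos.le, inv_le_comm₀ (by positivity) (pow_pos (DZ_pos w) r), ← inv_pow]
      exact hDZ2
    rw [mul_pow]
    have h4 : (N : ℝ) ^ (d / 8) * (N : ℝ) ^ (-(d / 2)) =
        (N : ℝ) ^ (-(d / 4)) * (N : ℝ) ^ (-(d / 8)) := by
      rw [← Real.rpow_add hNpos, ← Real.rpow_add hNpos]
      congr 1
      ring
    calc (k0 : ℝ) * ((N : ℝ) ^ (-(d / 2)) * (PP w : ℝ) ^ r) ≤
        (N : ℝ) ^ (d / 8) * ((N : ℝ) ^ (-(d / 2)) * (PP w : ℝ) ^ r) := by gcongr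
      _ = (PP w : ℝ) ^ r * ((N : ℝ) ^ (d / 8) * (N : ℝ) ^ (-(d / 2))) := by ring
      _ = (N : ℝ) ^ (-(d / 4)) * ((PP w : ℝ) ^ r * (N : ℝ) ^ (-(d / 8))) := by rw [h4]; ring
      _ ≤ (N : ℝ) ^ (-(d / 4)) * ((PP w : ℝ) ^ r * DZ w ^ r) := by gcongr
  · intro a haA hadm haB k hk1 hk2
    have haB' : a ∉ Bck k := fun h0 =>
      haB (Finset.mem_biUnion.2 ⟨k, Finset.mem_Icc.2 ⟨hk1, hk2⟩, h0⟩)
    refine ((hBck k hk1 hk2).2 a haA ((nA_pos w a).2 hadm) haB').trans ?_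
    have hlam0 : 0 ≤ lam N w a := by
      unfold lam
      exact div_nonneg (le_trans (by positivity) (MM_ge (N := N) ((nA_pos w a).2 hadm)))
        (by positivity)
    have h5 : 4 * min (η / 4) (1 / 2) ≤ η := by linarith [min_le_left (η / 4) (1 / 2 : ℝ)]
    exact mul_le_mul_of_nonneg_right h5 (by positivity)

open scoped Classical in
/-- Module JOne: the mean of the count in all but few admissible classes. -/
theorem j_one (C1 cA : ℝ) (h1 : 0 < C1) (hA : 0 < cA) (cw d B' : ℝ) (hcw : 0 < cw) (hd : 0 < d)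
    (hB' : 1 ≤ B') (hI : LevI C1 cA 2 cw d B') : ∃ C0 : ℝ, ∀ C2 cB : ℝ, C0 ≤ C2 → 0 < cB →
    ∀ η : ℝ, 0 < η → ∃ N0 : ℕ, ∀ N : ℕ, N0 ≤ N → GoodX cA C1 cB C2 N →
    ∀ w : ℕ, w = ⌊cw * yy N⌋₊ → ∀ r : ℕ, 1 ≤ r → (r : ℝ) ≤ 2 * yy N → ∃ Bc : Finset (Fin r → ℕ),
    (Bc.card : ℝ) ≤ η * (AC w r).card ∧ ∀ a ∈ AC w r, a ∉ Bc →
      |∑ h ∈ Hc N w a, (cnt N h : ℝ) - lam N w a * (Hc N w a).card| ≤
        η * (lam N w a * (Hc N w a).card) := by
  obtain ⟨C0, hC0⟩ := classK_of C1 cA 2 cw d B' hcw hd hB' hI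
  refine ⟨C0, fun C2 cB hC2 hcB η hη => ?_⟩
  obtain ⟨N1, hN1⟩ := hC0 C2 cB hC2 hcB η hη 0
  have hE : ∀ᶠ N : ℕ in atTop, 1 / η ≤ (N : ℝ) ^ (d / 4) :=
    ((tendsto_rpow_atTop (by positivity : 0 < d / 4)).comp
      tendsto_natCast_atTop_atTop).eventually_ge_atTop _
  obtain ⟨N2, hN2⟩ := eventually_atTop.1 (hE.and (eventually_ge_atTop 1))
  refine ⟨max N1 N2, fun N hN hG w hw r hr1 hr => ?_⟩
  obtain ⟨hE1, hN3⟩ := hN2 N ((le_max_right _ _).trans hN)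
  obtain ⟨-, -, -, -, -, hall⟩ := hN1 N ((le_max_left _ _).trans hN) hG w hw
  obtain ⟨Bc, hBc, hBc'⟩ := hall r hr1 hr
  have hNpos : (0 : ℝ) < N := by exact_mod_cast (by omega : 0 < N)
  refine ⟨Bc, ?_, fun a ha haB => ?_⟩
  · refine hBc.trans (mul_le_mul ?_ (le_of_eq (by unfold AC; congr)) (Nat.cast_nonneg _) hη.le)
    rw [Real.rpow_neg hNpos.le, inv_le_comm₀ (by positivity) hη, ← one_div]
    exact hE1
  · have ha' := Finset.mem_filter.1 ha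
    have h2 := hBc' a ha'.1 ha'.2 haB 1 le_rfl (by norm_num)
    simpa only [Nat.descFactorial_one, pow_one] using h2

end Pool.Agent.Lib.LEN
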