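import Pool.Agent.Lib.LEN.JPairA

/-!
# LEN.JPair: the congruent pairs in the classes of the `r`-tuples
-/

set_option autoImplicit false

open Finset Filter

namespace Pool.Agent.Lib.LEN

open Pool.Agent.HLB Pool.Agent.HLT Pool.Agent.HLR Pool.Agent.Lib.GMV

namespace JPairAux

open TVPairAux TVPhiAux

open scoped Classical in
/-- The sum over the pairs, for a good class. -/
lemma sum_bound {N w r R1 : ℕ} {a : Fin r → ℕ} {Wr ND F1 F2 F3 E3 u : ℝ}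
    {Bd1 Bd2 Bd3 : Finset (Fin 2 → ℕ)} (H G : ℕ × ℕ → ℝ)
    (hWr : 0 < Wr) (hND : 0 < ND) (hF10 : 0 ≤ F1) (hF20 : 0 ≤ F2) (hF30 : 0 ≤ F3)
    (hu0 : 0 < u) (hu1 : u ≤ 1) (hN0 : (0 : ℝ) < N) (hPN : (PP w : ℝ) / N ≤ u / 2)
    (hrow1 : ∀ n ∈ Ioc N (N + N),
      ∑ n' ∈ ((Ioc N (N + N)).erase n).filter (fun n' => n' % PP w = n % PP w),
        ss w (Nat.dist n n') ^ R1 ≤ (N : ℝ) / PP w * (1 + u))
    (hrow2 : ∀ n ∈ Ioc N (N + N),
      ∑ n' ∈ ((Ioc N (N + N)).erase n).filter (fun n' => n' % PP w = n % PP w),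
        ss w (Nat.dist n n') ^ (2 * R1) ≤ (N : ℝ) / PP w * (1 + u))
    (hpt : ∀ x ∈ CP N N w, H x ≤
      Wr * ND * ((if Good w a x.1 then F1 * ss w (Nat.dist x.1 x.2) ^ R1 else 0) +
        (if (![x.1, x.2] : Fin 2 → ℕ) ∈ Bd1 then F2 * ss w (Nat.dist x.1 x.2) ^ R1 else 0) +
        (if (![x.1, x.2] : Fin 2 → ℕ) ∈ Bd2 then F3 else 0)) +
      ND * E3 * (if (![x.1, x.2] : Fin 2 → ℕ) ∈ Bd3 then G x else 0))
    (hYa : E3 * ∑ x ∈ CP N N w, (if (![x.1, x.2] : Fin 2 → ℕ) ∈ Bd3 then G x else 0) ≤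
      u * (Wr * ((N : ℝ) / PP w) ^ 2))
    (hnA : (1 : ℝ) ≤ nA w a)
    (t1 : F1 * (nA w a * ((N : ℝ) / PP w) ^ 2 * ((1 + u) * (1 + u / 2))) ≤
      nA w a * ((N : ℝ) / PP w) ^ 2 * (1 + 10 * u))
    (t2 : F2 * (Real.sqrt Bd1.card * (2 * N)) ≤ 4 * u * ((N : ℝ) / PP w) ^ 2)
    (t3 : F3 * Bd2.card ≤ u * ((N : ℝ) / PP w) ^ 2) :
    ∑ x ∈ CP N N w, H x ≤ Wr * ND * (nA w a * ((N : ℝ) / PP w) ^ 2 * (1 + 16 * u)) := by
  have hS1 := S1_le (a := a) hF10 hu0 hN0 hPN hrow1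
  have hCS := CS_le hu0 hu1 Bd1 hrow2
  have hP0 : (0 : ℝ) < PP w := by exact_mod_cast Cls0.PP_pos w
  have hQ2 : 0 < ((N : ℝ) / PP w) ^ 2 := pow_pos (div_pos hN0 hP0) 2
  generalize ((N : ℝ) / PP w) ^ 2 = Q2 at *
  have h1 : ∑ x ∈ CP N N w, (if (![x.1, x.2] : Fin 2 → ℕ) ∈ Bd1 then
      F2 * ss w (Nat.dist x.1 x.2) ^ R1 else 0) ≤ F2 * (Real.sqrt Bd1.card * (2 * N)) := by
    rw [← sum_filter, ← mul_sum]
    exact mul_le_mul_of_nonneg_left hCS hF20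
  have h2 : ∑ x ∈ CP N N w, (if (![x.1, x.2] : Fin 2 → ℕ) ∈ Bd2 then F3 else 0) ≤
      F3 * Bd2.card := by
    rw [← sum_filter, sum_const, nsmul_eq_mul, mul_comm]
    exact mul_le_mul_of_nonneg_left (inj_card N w Bd2) hF30
  refine (sum_le_sum hpt).trans ?_
  rw [sum_add_distrib, ← mul_sum, ← mul_sum, sum_add_distrib, sum_add_distrib]
  generalize ∑ x ∈ CP N N w, (if (![x.1, x.2] : Fin 2 → ℕ) ∈ Bd3 then G x else 0) = Y at *
  generalize ∑ x ∈ CP N N w, (if (![x.1, x.2] : Fin 2 → ℕ) ∈ Bd2 then F3 else 0) = S3 at *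
  generalize ∑ x ∈ CP N N w, (if (![x.1, x.2] : Fin 2 → ℕ) ∈ Bd1 then
      F2 * ss w (Nat.dist x.1 x.2) ^ R1 else 0) = S2 at *
  generalize ∑ x ∈ CP N N w, (if Good w a x.1 then F1 * ss w (Nat.dist x.1 x.2) ^ R1 else 0) =
    S1 at *
  have hnQ : Q2 ≤ nA w a * Q2 := by
    calc Q2 = 1 * Q2 := (one_mul _).symm
      _ ≤ nA w a * Q2 := mul_le_mul_of_nonneg_right hnA hQ2.le
  have h6 : 6 * u * Q2 ≤ 6 * u * (nA w a * Q2) :=
    mul_le_mul_of_nonneg_left hnQ (by positivity)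
  have h3 : ND * E3 * Y ≤ Wr * ND * (u * Q2) := by
    calc ND * E3 * Y = ND * (E3 * Y) := by ring
      _ ≤ ND * (u * (Wr * Q2)) := mul_le_mul_of_nonneg_left hYa hND.le
      _ = Wr * ND * (u * Q2) := by ring
  have h5 : S1 + S2 + S3 + u * Q2 ≤ nA w a * Q2 * (1 + 16 * u) := by
    calc S1 + S2 + S3 + u * Q2 ≤
          nA w a * Q2 * (1 + 10 * u) + 4 * u * Q2 + u * Q2 + u * Q2 := by linarith
      _ = nA w a * Q2 * (1 + 10 * u) + 6 * u * Q2 := by ring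
      _ ≤ nA w a * Q2 * (1 + 10 * u) + 6 * u * (nA w a * Q2) := by linarith
      _ = nA w a * Q2 * (1 + 16 * u) := by ring
  calc Wr * ND * (S1 + S2 + S3) + ND * E3 * Y ≤
        Wr * ND * (S1 + S2 + S3) + Wr * ND * (u * Q2) := by linarith
    _ = Wr * ND * (S1 + S2 + S3 + u * Q2) := by ring
    _ ≤ _ := mul_le_mul_of_nonneg_left h5 (mul_nonneg hWr.le hND.le)

open scoped Classical in
/-- Back to the tuples `h`. -/
lemma final_step {N w r : ℕ} {u η ND : ℝ} (a : Fin r → ℕ) (hN : 1 ≤ N) (hL0 : 0 < Real.log N)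
    (hND : 0 < ND) (hu0 : 0 < u) (hu1 : u ≤ η / 22) (hu2 : u ≤ 1 / 8) (Φ : ℕ × ℕ → ℝ)
    (hΦ0 : ∀ x, 0 ≤ Φ x)
    (h : ∑ x ∈ CP N N w, (∏ i, CC lp N w (a i) x.1 x.2) * Φ x ≤
      ((N : ℝ) / PP w * (DZ w)⁻¹ ^ 2) ^ r * ND * (nA w a * ((N : ℝ) / PP w) ^ 2 * (1 + 16 * u)))
    (hHc : ((N : ℝ) / PP w) ^ r ≤ (1 + u) * (Hc N w a).card) :
    ∑ h ∈ Hc N w a, ∑ x ∈ (CP N N w).filter (fun x => x.1 ∈ Sh N h ∧ x.2 ∈ Sh N h), Φ x ≤
      (1 + η) * (nA w a * ((N : ℝ) / PP w) ^ 2 * ((DZ w)⁻¹ / Real.log N) ^ (2 * r) *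
        ((Hc N w a).card * ND)) := by
  have hκ0 : 0 < (DZ w)⁻¹ := inv_pos.2 (DZ_pos w)
  have hP0 : (0 : ℝ) < PP w := by exact_mod_cast Cls0.PP_pos w
  have hN0 : (0 : ℝ) < N := by exact_mod_cast hN
  have hL2r : 0 < Real.log N ^ (2 * r) := pow_pos hL0 _
  have hsw := swap_h (w := w) a hN Φ hΦ0
  have hWe : ((N : ℝ) / PP w * (DZ w)⁻¹ ^ 2) ^ r =
      ((N : ℝ) / PP w) ^ r * (((DZ w)⁻¹ / Real.log N) ^ (2 * r) * Real.log N ^ (2 * r)) := by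
    rw [← mul_pow ((DZ w)⁻¹ / Real.log N), div_mul_cancel₀ _ hL0.ne', mul_pow, ← pow_mul]
  have hQ2 : 0 < ((N : ℝ) / PP w) ^ 2 := pow_pos (div_pos hN0 hP0) 2
  have hq : 0 ≤ ((DZ w)⁻¹ / Real.log N) ^ (2 * r) := pow_nonneg (div_nonneg hκ0.le hL0.le) _
  have hnA : (0 : ℝ) ≤ nA w a := Nat.cast_nonneg _
  have hH0 : (0 : ℝ) ≤ (Hc N w a).card := Nat.cast_nonneg _
  rw [hWe] at h
  refine le_of_mul_le_mul_right (hsw.trans (h.trans ?_)) hL2r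
  generalize ((N : ℝ) / PP w) ^ 2 = Q2 at *
  generalize ((N : ℝ) / PP w) ^ r = Qr at *
  generalize ((DZ w)⁻¹ / Real.log N) ^ (2 * r) = q at *
  generalize Real.log N ^ (2 * r) = L2 at *
  generalize (nA w a : ℝ) = nn at *
  generalize ((Hc N w a).card : ℝ) = hc at *
  have h1 : 0 ≤ q * L2 * ND * (nn * Q2 * (1 + 16 * u)) := by positivity
  have h2 : (1 + u) * (1 + 16 * u) ≤ 1 + η := by nlinarith [sq_nonneg u]
  have h3 : 0 ≤ nn * Q2 * q * (hc * ND) * L2 := by positivity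
  calc Qr * (q * L2) * ND * (nn * Q2 * (1 + 16 * u)) =
        Qr * (q * L2 * ND * (nn * Q2 * (1 + 16 * u))) := by ring
    _ ≤ ((1 + u) * hc) * (q * L2 * ND * (nn * Q2 * (1 + 16 * u))) :=
        mul_le_mul_of_nonneg_right hHc h1
    _ = ((1 + u) * (1 + 16 * u)) * (nn * Q2 * q * (hc * ND) * L2) := by ring
    _ ≤ (1 + η) * (nn * Q2 * q * (hc * ND) * L2) := mul_le_mul_of_nonneg_right h2 h3
    _ = (1 + η) * (nn * Q2 * q * (hc * ND)) * L2 := by ring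

open scoped Classical in
/-- Markov's inequality for the classes. -/
lemma bad_classes {w r : ℕ} {η T : ℝ} {Y : (Fin r → ℕ) → ℝ} (hY0 : ∀ a, 0 ≤ Y a)
    (hT : 0 < T) (hη : 0 ≤ η)
    (h1 : ∑ a ∈ Fintype.piFinset (fun _ : Fin r => range (PP w)), Y a ≤
      η * (((PP w : ℝ) * DZ w) ^ r) * T) :
    (((AC w r).filter (fun a => T < Y a)).card : ℝ) ≤ η * (AC w r).card := by
  have m4 : ((PP w : ℝ) * DZ w) ^ r ≤ ((AC w r).card : ℝ) := by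
    have := adm_classes w r
    unfold AC
    convert this
  refine le_of_mul_le_mul_right (?_ : _ * T ≤ _) hT
  rw [← nsmul_eq_mul, ← sum_const]
  refine (sum_le_sum (f := fun _ => T) (g := fun a => Y a)
    fun a ha => (mem_filter.1 ha).2.le).trans ?_
  refine (sum_le_sum_of_subset_of_nonneg ?_ fun a _ _ => hY0 a).trans (h1.trans ?_)
  · intro a ha
    have := (mem_filter.1 ha).1
    unfold AC at this
    exact (mem_filter.1 this).1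
  · exact mul_le_mul_of_nonneg_right (mul_le_mul_of_nonneg_left m4 hη) hT.le

/-- `yy δ` is small. -/
lemma y_delta {N : ℕ} {u P κ Cp : ℝ} (hu0 : 0 < u) (hP0 : 0 < P) (hκ0 : 0 < κ) (hN0 : (0 : ℝ) < N)
    (hPPr : P ^ 2 ≤ N) (hκL : κ ≤ Real.log N) (hL0 : 0 < Real.log N)
    (hLL1 : 1 ≤ Real.log (Real.log N)) (hLLC : 2 * Cp / u ≤ Real.log (Real.log N))
    (hpow : 2 / u * Real.log N ^ 2 ≤ (N : ℝ) ^ (1 / 2 : ℝ))
    (hpow1 : 2 / u * Real.log N ^ 1 ≤ (N : ℝ) ^ (1 / 2 : ℝ)) :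
    yy N * (Cp / Real.log N + P * κ / N) ≤ u ∧ yy N * (P / N) ≤ u / 2 := by
  have hsN : P ≤ (N : ℝ) ^ (1 / 2 : ℝ) := by
    rw [← Real.sqrt_eq_rpow]
    exact Real.le_sqrt_of_sq_le hPPr
  have hNh : (N : ℝ) ^ (1 / 2 : ℝ) * (N : ℝ) ^ (1 / 2 : ℝ) = N := by
    rw [← Real.rpow_add hN0]
    norm_num
  have hNh0 : 0 < (N : ℝ) ^ (1 / 2 : ℝ) := Real.rpow_pos_of_pos hN0 _
  have e0 : yy N = Real.log N / Real.log (Real.log N) := rfl
  have hyL : yy N ≤ Real.log N := by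
    rw [e0]
    exact div_le_self hL0.le hLL1
  generalize yy N = y at *
  generalize Real.log (Real.log N) = LL at *
  generalize Real.log N = L at *
  generalize (N : ℝ) ^ (1 / 2 : ℝ) = S at *
  generalize (N : ℝ) = M at *
  have hy0 : 0 ≤ y := by
    rw [e0]
    exact div_nonneg hL0.le (by linarith)
  constructor
  · have h1 : y * (Cp / L) ≤ u / 2 := by
      have e1 : y * (Cp / L) = Cp / LL := by
        rw [e0]
        field_simp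
      rw [e1, div_le_iff₀ (by linarith)]
      rw [div_le_iff₀ hu0] at hLLC
      linarith
    have h2 : y * (P * κ / M) ≤ u / 2 := by
      have h3 : y * (P * κ / M) ≤ L * (S * L / M) := by
        refine mul_le_mul hyL ?_ (by positivity) hL0.le
        refine div_le_div_of_nonneg_right ?_ hN0.le
        exact mul_le_mul hsN hκL hκ0.le hNh0.le
      refine h3.trans ?_
      have e1 : L * (S * L / M) = L ^ 2 / S := by
        rw [eq_div_iff hNh0.ne', mul_div_assoc', div_mul_eq_mul_div, div_eq_iff hN0.ne']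
        calc L * (S * L) * S = L ^ 2 * (S * S) := by ring
          _ = L ^ 2 * M := by rw [hNh]
      rw [e1, div_le_iff₀ hNh0]
      have h5 : u / 2 * (2 / u * L ^ 2) = L ^ 2 := by field_simp
      calc L ^ 2 = u / 2 * (2 / u * L ^ 2) := h5.symm
        _ ≤ u / 2 * S := mul_le_mul_of_nonneg_left hpow (by positivity)
    rw [mul_add]
    linarith
  · have h3 : y * (P / M) ≤ L * (S / M) := by
      refine mul_le_mul hyL ?_ (by positivity) hL0.le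
      exact div_le_div_of_nonneg_right hsN hN0.le
    refine h3.trans ?_
    have e1 : L * (S / M) = L / S := by
      rw [eq_div_iff hNh0.ne', mul_div_assoc', div_mul_eq_mul_div, div_eq_iff hN0.ne']
      calc L * S * S = L * (S * S) := by ring
        _ = L * M := by rw [hNh]
    rw [e1, div_le_iff₀ hNh0]
    rw [pow_one] at hpow1
    have h5 : u / 2 * (2 / u * L) = L := by field_simp
    calc L = u / 2 * (2 / u * L) := h5.symm
      _ ≤ u / 2 * S := mul_le_mul_of_nonneg_left hpow1 (by positivity)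

end JPairAux

open JPairAux TVPairAux

open scoped Classical in
/-- Module JPair. -/
theorem j_pair (C1 cA : ℝ) (cw d B' : ℝ) (hcw : 0 < cw) (hd : 0 < d) (hB' : 1 ≤ B')
    (hI : LevI C1 cA 2 cw d B') : ∃ C0 : ℝ, ∀ C2 cB : ℝ, C0 ≤ C2 → 0 < cB →
    ∀ ε η : ℝ, 0 < ε → 0 < η → ∃ N0 : ℕ, ∀ N : ℕ, N0 ≤ N → GoodX cA C1 cB C2 N →
    ∀ w : ℕ, w = ⌊cw * yy N⌋₊ → (2 ≤ w ∧ (PP w) ^ 2 ≤ N ∧ w ≤ N ∧
    (DZ w)⁻¹ / Real.log N ≤ 1 / 2 ∧ (w : ℝ) ≤ ε / 16 * Real.log N) ∧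
    ∀ r D : ℕ, (r : ℝ) + D / Real.log N ≤ (1 - ε) * yy N → ∃ Bc : Finset (Fin r → ℕ),
    (Bc.card : ℝ) ≤ η * (AC w r).card ∧ ∀ a ∈ AC w r, a ∉ Bc →
      ∑ h ∈ Hc N w a, ∑ x ∈ (CP N N w).filter (fun x => x.1 ∈ Sh N h ∧ x.2 ∈ Sh N h),
        (∑ m ∈ Icc 1 N, ph N w x.1 x.2 m) ^ D ≤
      (1 + η) * (nA w a * ((N : ℝ) / PP w) ^ 2 * ((DZ w)⁻¹ / Real.log N) ^ (2 * r) *
        ((Hc N w a).card * (N : ℝ) ^ D)) := by
  obtain ⟨Cs0, hCs0, hsel0⟩ := sel_one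
  obtain ⟨Cp, hCp, Np, hphi⟩ := phi_le
  obtain ⟨cD, hcD, hDZ⟩ := Pool.Agent.Lib.MP.DZ_lower
  obtain ⟨Cs, hCs1, hCs2⟩ : ∃ Cs : ℝ, 1 ≤ Cs ∧ Cs0 ≤ Cs := ⟨max Cs0 1, le_max_right _ _, le_max_left _ _⟩
  obtain ⟨K1, hK1⟩ : ∃ K1 : ℝ, K1 = Real.exp (4 / cw) := ⟨_, rfl⟩
  have hK10 : 0 < K1 := by rw [hK1]; exact Real.exp_pos _
  have hK11 : 1 ≤ K1 := by rw [hK1]; exact Real.one_le_exp (by positivity)
  have hA1 : 1 ≤ K1 * Real.exp (2 * Cs) :=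
    one_le_mul_of_one_le_of_one_le hK11 (Real.one_le_exp (by linarith))
  obtain ⟨C0, hC0⟩ := hI 4 (K1 * Real.exp (2 * Cs)) (by norm_num) hA1
  refine ⟨C0, ?_⟩
  intro C2 cB hC2 hcB ε η hε hη
  obtain ⟨Km, hKm⟩ : ∃ Km : ℝ, Km = (2 * K1 + 1) * (2 / cw) + 2 := ⟨_, rfl⟩
  have hKm0 : 0 < Km := by rw [hKm]; positivity
  obtain ⟨u, hu0, hu1, hu2, hu3, hu4⟩ : ∃ u : ℝ, 0 < u ∧ u ≤ η / 22 ∧ u ≤ 1 / 8 ∧ u ≤ ε / 16 ∧
      u ≤ d / 16 := by
    refine ⟨min (min (η / 22) (1 / 8)) (min (ε / 16) (d / 16)), by positivity, ?_, ?_, ?_, ?_⟩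
    · exact (min_le_left _ _).trans (min_le_left _ _)
    · exact (min_le_left _ _).trans (min_le_right _ _)
    · exact (min_le_right _ _).trans (min_le_left _ _)
    · exact (min_le_right _ _).trans (min_le_right _ _)
  obtain ⟨w0, hw0⟩ := row_sum (2 * Km) u (by positivity) hu0
  obtain ⟨N1, hN1⟩ := hC0 C2 cB hC2 hcB u hu0 (max w0 2)
  obtain ⟨N2, hN2⟩ := GoodXAux.large 2
  have hlog : Tendsto (fun N : ℕ => Real.log (N:ℝ)) atTop atTop :=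
    Real.tendsto_log_atTop.comp tendsto_natCast_atTop_atTop
  have hloglog : Tendsto (fun N : ℕ => Real.log (Real.log (N:ℝ))) atTop atTop :=
    Real.tendsto_log_atTop.comp hlog
  have hq0 : 0 < cD * min (1 / 2) ε := by positivity
  have hev := (((hsel0.and (hloglog.eventually_ge_atTop (max 1 (2 * Cp / u)))).and
    ((log_div_small _ hq0).and (Pool.Agent.Lib.MT.Wtd.log_pow_small 2 (2 / u) (1 / 2) (by norm_num)))).and
    ((exp_yy_small (4 * Cs) (d / 4) (by positivity)).and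
    (Pool.Agent.Lib.MT.Wtd.log_pow_small 0 (1 / (u * η)) (d / 4) (by positivity)))).and
    (Pool.Agent.Lib.MT.Wtd.log_pow_small 1 (2 / u) (1 / 2) (by norm_num))
  obtain ⟨N3, hN3⟩ := eventually_atTop.1 hev
  refine ⟨max (max N1 N2) (max N3 (max Np 3)), ?_⟩
  intro N hN hG w hw
  have g1 : N1 ≤ N := ((le_max_left _ _).trans (le_max_left _ _)).trans hN
  have g2 : N2 ≤ N := ((le_max_right _ _).trans (le_max_left _ _)).trans hN
  have g3 : N3 ≤ N := ((le_max_left _ _).trans (le_max_right _ _)).trans hN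
  have g4 : Np ≤ N := ((le_max_left _ _).trans ((le_max_right _ _).trans (le_max_right _ _))).trans hN
  have g5 : 3 ≤ N := ((le_max_right _ _).trans ((le_max_right _ _).trans (le_max_right _ _))).trans hN
  obtain ⟨l1, l2, l3, l4, l5, e1, e2, he10, he11, he20, he21, hlev⟩ := hN1 N g1 hG w hw
  obtain ⟨hLe, hy2⟩ := hN2 N g2
  obtain ⟨⟨⟨⟨hsel1, hll⟩, hlq, hpow⟩, hexpy, hconst⟩, hpow1⟩ := hN3 N g3
  clear hev hN1 hN2 hN3 hsel0
  have hw2 : 2 ≤ w := (le_max_right _ _).trans l1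
  have hww0 : w0 ≤ w := (le_max_left _ _).trans l1
  have hwr : (2 : ℝ) ≤ w := by exact_mod_cast hw2
  have hNr : (3 : ℝ) ≤ N := by exact_mod_cast g5
  have hN0 : (0 : ℝ) < N := by linarith
  have hexp1 := Real.exp_one_gt_d9
  have hL1 : 1 < Real.log N := by linarith
  have hL0 : 0 < Real.log N := by linarith
  have hLL1 : 1 ≤ Real.log (Real.log N) := (le_max_left _ _).trans hll
  have hLLC : 2 * Cp / u ≤ Real.log (Real.log N) := (le_max_right _ _).trans hll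
  -- sizes
  have hP0 : (0 : ℝ) < PP w := by exact_mod_cast Cls0.PP_pos w
  have hPP : (PP w) ^ 2 ≤ N := by
    calc (PP w) ^ 2 ≤ (4 ^ w) ^ 2 := Nat.pow_le_pow_left (Cls0.PP_le w) 2
      _ = 4 ^ (2 * w) := by rw [← pow_mul, mul_comm]
      _ ≤ 4 ^ (100 * (2 + 1) * w) := Nat.pow_le_pow_right (by norm_num) (by nlinarith)
      _ ≤ N := l2
  have hPPr : (PP w : ℝ) ^ 2 ≤ N := by exact_mod_cast hPP
  have hwN : w ≤ N := by
    calc w ≤ 4 ^ w := (Nat.lt_pow_self (by norm_num)).le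
      _ ≤ 4 ^ (100 * (2 + 1) * w) := Nat.pow_le_pow_right (by norm_num) (by nlinarith)
      _ ≤ N := l2
  have hκ0 : 0 < (DZ w)⁻¹ := inv_pos.2 (DZ_pos w)
  have hκ1 : (DZ w)⁻¹ ≤ Real.log (Real.log N) / cD := by
    have h1 := hDZ w hw2
    have hlw : 0 < Real.log w := Real.log_pos (by linarith)
    have h2 : (DZ w)⁻¹ ≤ Real.log w / cD := by
      rw [inv_le_comm₀ (DZ_pos w) (by positivity), inv_div]
      exact h1
    refine h2.trans (div_le_div_of_nonneg_right ?_ hcD.le)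
    refine Real.log_le_log (by linarith) (l5.trans ?_)
    have : u * Real.log N ≤ 1 * Real.log N := mul_le_mul_of_nonneg_right (by linarith) hL0.le
    linarith
  have hqmin : (DZ w)⁻¹ / Real.log N ≤ min (1 / 2) ε := by
    rw [div_le_iff₀ hL0]
    refine hκ1.trans ?_
    rw [div_le_iff₀ hcD]
    calc Real.log (Real.log N) ≤ cD * min (1 / 2) ε * Real.log N := hlq
      _ = min (1 / 2) ε * Real.log N * cD := by ring
  have hq1 : (DZ w)⁻¹ / Real.log N ≤ 1 / 2 := hqmin.trans (min_le_left _ _)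
  have hqe : (DZ w)⁻¹ / Real.log N ≤ ε := hqmin.trans (min_le_right _ _)
  have hκL : (DZ w)⁻¹ ≤ Real.log N := by
    have := hq1
    rw [div_le_iff₀ hL0] at this
    linarith
  have hy0 : 0 < yy N := by linarith
  refine ⟨⟨hw2, hPP, hwN, hq1, l5.trans (mul_le_mul_of_nonneg_right hu3 hL0.le)⟩, ?_⟩
  intro r D hrD
  have hr0 : (0 : ℝ) ≤ r := Nat.cast_nonneg r
  have hD0 : (0 : ℝ) ≤ D := Nat.cast_nonneg D
  have hDL : 0 ≤ (D : ℝ) / Real.log N := by positivity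
  have hε1 : (1 - ε) * yy N ≤ yy N := by nlinarith
  have hry : (r : ℝ) ≤ yy N := by linarith
  have hD : (D : ℝ) ≤ (1 - ε) * (Real.log N ^ 2 / Real.log (Real.log N)) := by
    have h1 : (D : ℝ) / Real.log N ≤ (1 - ε) * yy N := by linarith
    rw [div_le_iff₀ hL0] at h1
    refine h1.trans (le_of_eq ?_)
    unfold yy
    ring
  -- delta
  obtain ⟨hyδ, hyPN⟩ := y_delta (Cp := Cp) hu0 hP0 hκ0 hN0 hPPr hκL hL0 hLL1 hLLC hpow hpow1
  have hδ0 : 0 ≤ Cp / Real.log N + PP w * (DZ w)⁻¹ / N := by positivity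
  have hphi' := hphi N g4 w (by omega) hwN hq1
  obtain ⟨δ, hδ⟩ : ∃ δ : ℝ, δ = Cp / Real.log N + PP w * (DZ w)⁻¹ / N := ⟨_, rfl⟩
  rw [← hδ] at hyδ hδ0 hphi'
  have hδ1 : δ ≤ 1 := by
    have : 2 * δ ≤ yy N * δ := mul_le_mul_of_nonneg_right hy2 hδ0
    linarith
  have hPN : (PP w : ℝ) / N ≤ u / 2 := by
    have h0 : 0 ≤ (PP w : ℝ) / N := by positivity
    nlinarith
  have hrP : (r : ℝ) * (PP w / N) ≤ u / 2 :=
    (mul_le_mul_of_nonneg_right hry (by positivity)).trans hyPN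
  have hsel : ∀ n ∈ Icc 1 (2 * N), ∀ n' ∈ Icc 1 (2 * N),
      n ≠ n' → ∑ h ∈ Icc 1 N, lp (n + h) * lp (n' + h) ≤ Cs * (N * Real.log (Real.log N)) :=
    fun n hn n' hn' hne => (hsel1 n hn n' hn' hne).trans
      (mul_le_mul_of_nonneg_right hCs2 (by positivity))
  -- exponents
  obtain ⟨Bd1, Bd2, Bd3, hBd3, hr, hb1, hb2, hb3⟩ := hlev 2 (by norm_num) le_rfl
  obtain ⟨R0, hR0a, hR0b⟩ : ∃ R0 : ℕ, 2 * K1 * yy N ≤ R0 ∧ (R0 : ℝ) ≤ 2 * K1 * yy N + 1 :=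
    ⟨⌈2 * K1 * yy N⌉₊, Nat.le_ceil _, (Nat.ceil_lt_add_one (by positivity)).le⟩
  obtain ⟨r1, hr1a, hr1b⟩ : ∃ r1 : ℕ, yy N ≤ r1 ∧ (r1 : ℝ) ≤ yy N + 1 :=
    ⟨⌈yy N⌉₊, Nat.le_ceil _, (Nat.ceil_lt_add_one hy0.le).le⟩
  have hrr1 : r ≤ r1 := by
    have : (r : ℝ) ≤ r1 := hry.trans hr1a
    exact_mod_cast this
  obtain ⟨R1, hR1⟩ : ∃ R1 : ℕ, R1 = R0 + r1 := ⟨_, rfl⟩
  have hR1c : (R1 : ℝ) ≤ Km * w := by
    rw [hR1]
    push_cast
    have h1 : (2 * K1 + 1) * yy N ≤ (2 * K1 + 1) * (2 / cw * w) :=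
      mul_le_mul_of_nonneg_left l4 (by positivity)
    have e9 : Km * w = (2 * K1 + 1) * (2 / cw * w) + 2 * w := by
      rw [hKm]
      ring
    rw [e9]
    linarith
  have hR1d : ((2 * R1 : ℕ) : ℝ) ≤ 2 * Km * w := by
    push_cast
    linarith
  have hR1e : (R1 : ℝ) ≤ 2 * Km * w := by
    have : 0 ≤ Km * w := by positivity
    linarith
  have k1 : (r : ℝ) * e1 ≤ u := (hr r (by linarith)).1
  have k1' : yy N * e1 ≤ u :=
    (mul_le_mul_of_nonneg_right hr1a he10).trans (hr r1 (by linarith)).1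
  obtain ⟨_, _, k3, _, _⟩ := hr (r + 2 * r1) (by push_cast; linarith)
  obtain ⟨_, _, _, k4, _⟩ := hr r (by linarith)
  obtain ⟨_, _, _, _, k5⟩ := hr r1 (by linarith)
  have hsqN : Real.sqrt ((N : ℝ) ^ 2) = N := Real.sqrt_sq hN0.le
  rw [hsqN] at k3 k4 k5
  clear hr hlev
  have hsK : ∀ x ∈ CP N N w, ss w (Nat.dist x.1 x.2) ≤ K1 := by
    intro x hx
    obtain ⟨_, h1, h2, h3, _⟩ := pair_TK hx
    rw [mem_Ioc] at h1 h2
    rw [hK1]
    refine ss_le hcw hw2 (Nat.dist_pos_of_ne h3).ne' ?_ hL1 l3 l4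
    unfold Nat.dist
    omega
  have hE30 : 0 < Real.exp (yy N * (2 * Cs)) := Real.exp_pos _
  have hN1' : (1 : ℝ) ≤ N := by linarith
  have hNn : 1 ≤ N := by omega
  have hw1 : 1 ≤ w := by omega
  have hBd3' : (Bd3.card : ℝ) ≤ (N : ℝ) ^ ((2 : ℝ) - d) := by
    have : ((2 : ℕ) : ℝ) = 2 := by norm_num
    rw [this] at hBd3
    exact hBd3
  have hWr : 0 < ((N : ℝ) / PP w * (DZ w)⁻¹ ^ 2) ^ r := pow_pos (mul_pos (div_pos hN0 hP0) (pow_pos hκ0 2)) r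
  have hT : 0 < u * (((N : ℝ) / PP w * (DZ w)⁻¹ ^ 2) ^ r * ((N : ℝ) / PP w) ^ 2) :=
    mul_pos hu0 (mul_pos hWr (pow_pos (div_pos hN0 hP0) 2))
  refine ⟨(AC w r).filter (fun a => u * (((N : ℝ) / PP w * (DZ w)⁻¹ ^ 2) ^ r * ((N : ℝ) / PP w) ^ 2) <
    Real.exp (yy N * (2 * Cs)) * ∑ x ∈ CP N N w,
      (if (![x.1, x.2] : Fin 2 → ℕ) ∈ Bd3 then ∏ i, CC lp N w (a i) x.1 x.2 else 0)), ?_, ?_⟩
  · -- the number of bad classes
    refine bad_classes (fun a => mul_nonneg hE30.le (sum_nonneg fun x _ => ?_)) hT hη.le ?_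
    · split_ifs
      · exact prod_nonneg fun i _ => CC_nonneg _ _ _ _ _
      · exact le_rfl
    · refine (bad_total hE30.le hw1 hL1 (by linarith) l3 hBd3' hsel).trans ?_
      refine bad_num hN0 hη ?_
      refine bad_pow hd hu0 hη hN0 hN1' hCs1 hL0 hu4 l5 hry hexpy ?_
      have h1 : 1 / (u * η) * Real.log N ^ 0 ≤ (N : ℝ) ^ (d / 4) := hconst
      rwa [pow_zero, mul_one] at h1
  · -- a good class
    intro a ha hab
    have hnA1 : 1 ≤ nA w a := by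
      rw [nA_pos]
      unfold AC at ha
      exact (mem_filter.1 ha).2
    have hnA : (1 : ℝ) ≤ nA w a := by exact_mod_cast hnA1
    have hYa : Real.exp (yy N * (2 * Cs)) * ∑ x ∈ CP N N w,
        (if (![x.1, x.2] : Fin 2 → ℕ) ∈ Bd3 then ∏ i, CC lp N w (a i) x.1 x.2 else 0) ≤
        u * (((N : ℝ) / PP w * (DZ w)⁻¹ ^ 2) ^ r * ((N : ℝ) / PP w) ^ 2) := by
      by_contra hcon
      exact hab (mem_filter.2 ⟨ha, not_le.1 hcon⟩)
    have hu1' : u ≤ 1 := by linarith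
    have hB'0 : 0 ≤ B' := by linarith
    have hF1 : 0 ≤ Real.exp u * Real.exp (yy N * (e1 + δ)) :=
      mul_nonneg (Real.exp_pos _).le (Real.exp_pos _).le
    have hF2 : 0 ≤ (1 + e2) ^ r * Real.exp (yy N * (e2 + δ)) :=
      mul_nonneg (pow_nonneg (by linarith) r) (Real.exp_pos _).le
    have hF3 : 0 ≤ (K1 * B') ^ r * Real.exp (yy N * (2 * Cs)) :=
      mul_nonneg (pow_nonneg (mul_nonneg hK10.le hB'0) r) hE30.le
    have hA0 : 0 ≤ (nA w a : ℝ) * ((N : ℝ) / PP w) ^ 2 := by positivity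
    have ht1 : yy N * (e1 + δ) ≤ 2 * u := by rw [mul_add]; linarith
    have hsum := sum_bound (a := a) (E3 := Real.exp (yy N * (2 * Cs)))
      (fun x => (∏ i, CC lp N w (a i) x.1 x.2) * (∑ m ∈ Icc 1 N, ph N w x.1 x.2 m) ^ D)
      (fun x => ∏ i, CC lp N w (a i) x.1 x.2) hWr (pow_pos hN0 D) hF1 hF2 hF3 hu0 hu1' hN0 hPN
      (fun n hn => hw0 w hww0 N R1 N hR1e n hn)
      (fun n hn => hw0 w hww0 N (2 * R1) N hR1d n hn)
      (fun x hx => pointwise hNn hw1 hwN hL1 hq1 hqe he10 he11 he20 he21 hδ0 hδ1 hCs1 l3 hB' hK10 hD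
        hR0a (by omega) k1 hphi' hsel hb1 hb2 hb3 a x hx (hsK x hx))
      hYa hnA (t1_le hu0 hu2 hA0 ht1)
      (t2_le hN0 hu0 hu2 he20 he21 hyδ hr1a k3)
      (t3_le hN0 hu0 hu2 hK11 hB' (by linarith) hrr1 hr1a k4 k5)
    exact final_step a hNn hL0 (pow_pos hN0 D) hu0 hu1 hu2
      (fun x => (∑ m ∈ Icc 1 N, ph N w x.1 x.2 m) ^ D)
      (fun x => pow_nonneg (sum_nonneg fun m _ => ph_nonneg hq1 (div_nonneg hκ0.le hL0.le)) D)
      hsum (Hc_ge' a hu0 hu2 hN0 hPN hrP)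

end Pool.Agent.Lib.LEN
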