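import Pool.Agent.Lib.SW.Main

/-!
# LEN.TVPnt: primes in the windows `(n, n + N]`, `N < n ≤ 2N`
-/

set_option autoImplicit false

open Finset Filter

namespace Pool.Agent.Lib.LEN

/-- The number of the primes of `(n, n + N]`. -/
def pn (N n : ℕ) : ℕ := ((Icc 1 N).filter fun m => (n + m).Prime).card

namespace TVPntAux

lemma theta_diff (n N : ℕ) : Pool.Agent.Lib.SW.thetaAP ((n + N : ℕ) : ℝ) 1 1 -
    Pool.Agent.Lib.SW.thetaAP (n : ℝ) 1 1 =
    ∑ m ∈ (Icc 1 N).filter (fun m => (n + m).Prime), Real.log ((n + m : ℕ) : ℝ) := by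
  unfold Pool.Agent.Lib.SW.thetaAP
  rw [Nat.floor_natCast, Nat.floor_natCast]
  have h1 : (Icc 1 (n + N)).filter (fun p => p.Prime ∧ p ≡ 1 [MOD 1]) =
      (Icc 1 n).filter (fun p => p.Prime ∧ p ≡ 1 [MOD 1]) ∪
      ((Icc 1 N).filter (fun m => (n + m).Prime)).image (fun m => n + m) := by
    ext p
    simp only [mem_filter, mem_union, mem_Icc, mem_image, Nat.modEq_one, and_true]
    constructor
    · rintro ⟨⟨h1, h2⟩, h3⟩
      by_cases h : p ≤ n
      · exact Or.inl ⟨⟨h1, h⟩, h3⟩
      · refine Or.inr ⟨p - n, ⟨⟨by omega, by omega⟩, ?_⟩, by omega⟩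
        rw [show n + (p - n) = p by omega]
        exact h3
    · rintro (⟨⟨h1, h2⟩, h3⟩ | ⟨m, ⟨⟨h1, h2⟩, h3⟩, h4⟩)
      · exact ⟨⟨h1, by omega⟩, h3⟩
      · subst h4
        exact ⟨⟨by omega, by omega⟩, h3⟩
  have h2 : Disjoint ((Icc 1 n).filter (fun p => p.Prime ∧ p ≡ 1 [MOD 1]))
      (((Icc 1 N).filter (fun m => (n + m).Prime)).image (fun m => n + m)) := by
    rw [Finset.disjoint_left]
    intro p h1 h2
    simp only [mem_filter, mem_Icc, mem_image] at h1 h2
    obtain ⟨m, ⟨⟨h3, h4⟩, h5⟩, h6⟩ := h2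
    omega
  rw [h1, sum_union h2, sum_image (fun a _ b _ h => Nat.add_left_cancel h)]
  ring

end TVPntAux

open TVPntAux

theorem pn_bounds : ∃ C : ℝ, 0 < C ∧ ∀ᶠ N : ℕ in atTop, ∀ n ∈ Ioc N (2 * N),
    (N : ℝ) / Real.log N * (1 - C / Real.log N) ≤ pn N n ∧
    (pn N n : ℝ) ≤ N / Real.log N * (1 + C / Real.log N) := by
  obtain ⟨C, hC, h⟩ := Pool.Agent.Lib.SW.siegel_walfisz_theta_nat 1
  have hlog : Tendsto (fun N : ℕ => Real.log (N:ℝ)) atTop atTop :=
    Real.tendsto_log_atTop.comp tendsto_natCast_atTop_atTop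
  refine ⟨5 * C + 2, by positivity, ?_⟩
  filter_upwards [hlog.eventually_ge_atTop (max 2 (5 * C)), eventually_ge_atTop 3] with N hL hN3
  intro n hn
  rw [mem_Ioc] at hn
  have hNr : (3:ℝ) ≤ N := by exact_mod_cast hN3
  have hN0 : (0:ℝ) < N := by linarith
  set L := Real.log N with hLd
  have hL2 : 2 ≤ L := (le_max_left _ _).trans hL
  have hL5 : 5 * C ≤ L := (le_max_right _ _).trans hL
  have hL0 : 0 < L := by linarith
  have hn1 : (N : ℝ) ≤ n := by exact_mod_cast hn.1.le
  have hn2 : (n : ℝ) ≤ 2 * N := by exact_mod_cast hn.2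
  have key : ∀ x : ℕ, (N : ℝ) ≤ x → |Pool.Agent.Lib.SW.thetaAP (x : ℝ) 1 1 - x| ≤ C * x / L := by
    intro x hx
    have h1 := h x (by linarith) 1 1 le_rfl (by
      rw [pow_one, Nat.cast_one]
      have := Real.log_le_log hN0 hx
      linarith) (by norm_num)
    rw [Nat.totient_one, Nat.cast_one, div_one, pow_one] at h1
    refine h1.trans ?_
    have h2 : L ≤ Real.log x := Real.log_le_log hN0 hx
    exact div_le_div_of_nonneg_left (by positivity) hL0 h2
  have k1 := abs_le.1 (key n hn1)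
  have k2 := abs_le.1 (key (n + N) (by push_cast; linarith))
  have hd := theta_diff n N
  have hb1 : C * n / L ≤ 2 * C * N / L := by
    refine div_le_div_of_nonneg_right ?_ hL0.le
    nlinarith
  have hb2 : C * ((n + N : ℕ) : ℝ) / L ≤ 3 * C * N / L := by
    refine div_le_div_of_nonneg_right ?_ hL0.le
    push_cast
    nlinarith
  set S := ∑ m ∈ (Icc 1 N).filter (fun m => (n + m).Prime), Real.log ((n + m : ℕ) : ℝ) with hS
  have hSu : S ≤ N * (1 + 5 * C / L) := by
    have e : (N : ℝ) * (1 + 5 * C / L) = N + (2 * C * N / L + 3 * C * N / L) := by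
      field_simp
      ring
    rw [e]
    have := k1.1
    have := k2.2
    push_cast at *
    linarith
  have hSl : N * (1 - 5 * C / L) ≤ S := by
    have e : (N : ℝ) * (1 - 5 * C / L) = N - (2 * C * N / L + 3 * C * N / L) := by
      field_simp
      ring
    rw [e]
    have := k1.2
    have := k2.1
    push_cast at *
    linarith
  have hm : ∀ m ∈ (Icc 1 N).filter (fun m => (n + m).Prime),
      L ≤ Real.log ((n + m : ℕ) : ℝ) ∧ Real.log ((n + m : ℕ) : ℝ) ≤ L + 2 := by
    intro m hm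
    rw [mem_filter, mem_Icc] at hm
    have hm2 : (m : ℝ) ≤ N := by exact_mod_cast hm.1.2
    constructor
    · refine Real.log_le_log hN0 ?_
      push_cast
      have : (0 : ℝ) ≤ m := Nat.cast_nonneg _
      linarith
    · have h3 : ((n + m : ℕ) : ℝ) ≤ N * 3 := by
        push_cast
        linarith
      have h4 : Real.log ((n + m : ℕ) : ℝ) ≤ Real.log (N * 3) := by
        refine Real.log_le_log ?_ h3
        push_cast
        have : (0 : ℝ) ≤ m := Nat.cast_nonneg _
        linarith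
      rw [Real.log_mul hN0.ne' (by norm_num)] at h4
      have h5 : Real.log 3 ≤ 2 := by
        have := Real.log_le_sub_one_of_pos (show (0 : ℝ) < 3 by norm_num)
        linarith
      linarith
  have hSa : (pn N n : ℝ) * L ≤ S := by
    rw [hS]
    unfold pn
    rw [← nsmul_eq_mul, ← sum_const]
    exact sum_le_sum fun m h => (hm m h).1
  have hSb : S ≤ (pn N n : ℝ) * (L + 2) := by
    rw [hS]
    unfold pn
    rw [← nsmul_eq_mul, ← sum_const]
    exact sum_le_sum fun m h => (hm m h).2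
  constructor
  · have h1 : N * (1 - 5 * C / L) ≤ (pn N n : ℝ) * (L + 2) := hSl.trans hSb
    have h2 : (1 - (5 * C + 2) / L) * (L + 2) ≤ L * (1 - 5 * C / L) := by
      have e1 : (1 - (5 * C + 2) / L) * (L + 2) = L + 2 - (5 * C + 2) - (5 * C + 2) * 2 / L := by
        field_simp
        ring
      have e2 : L * (1 - 5 * C / L) = L - 5 * C := by
        field_simp
      rw [e1, e2]
      have : 0 ≤ (5 * C + 2) * 2 / L := by positivity
      linarith
    have hL22 : 0 < L + 2 := by linarith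
    refine le_of_mul_le_mul_right ?_ hL22
    refine le_trans ?_ h1
    calc N / L * (1 - (5 * C + 2) / L) * (L + 2) = N / L * ((1 - (5 * C + 2) / L) * (L + 2)) := by ring
      _ ≤ N / L * (L * (1 - 5 * C / L)) := mul_le_mul_of_nonneg_left h2 (by positivity)
      _ = N * (1 - 5 * C / L) := by field_simp
  · refine le_of_mul_le_mul_right (?_ : (pn N n : ℝ) * L ≤ _) hL0
    refine (hSa.trans hSu).trans ?_
    have e : N / L * (1 + (5 * C + 2) / L) * L = N * (1 + (5 * C + 2) / L) := by field_simp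
    rw [e]
    refine mul_le_mul_of_nonneg_left ?_ hN0.le
    have : 5 * C / L ≤ (5 * C + 2) / L := div_le_div_of_nonneg_right (by linarith) hL0.le
    linarith

end Pool.Agent.Lib.LEN
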