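import Pool.Agent.Lib.LEN.TVCnt
import Pool.Agent.Lib.LEN.TVPnt
import Pool.Agent.Lib.LEN.GoodX

/-!
# LEN.TVTyp: for each `n`, most tuples give a typical pattern
-/

set_option autoImplicit false

open Finset Filter

namespace Pool.Agent.Lib.LEN

open Pool.Agent.HLB Pool.Agent.HLT Pool.Agent.HLR Pool.Agent.Lib.GMV

namespace TVTypAux

open TVCntAux GoodXAux

/-- Exponential moment of the number of primes. -/
lemma primes_many {N D n : ℕ} {t a : ℝ} (hN : 1 ≤ N) (ht0 : 0 ≤ t) (ht1 : t ≤ 1) (M : ℝ)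
    (hp : (D : ℝ) * (pn N n / N) ≤ a) :
    (((Tup D (Icc 1 N)).filter (fun s => M < (pat s n).card)).card : ℝ) ≤
      Real.exp (t * (1 + t) * a - t * M) * (N : ℝ) ^ D := by
  classical
  have hNr : (0 : ℝ) < N := by exact_mod_cast hN
  obtain ⟨f, hf⟩ : ∃ f : ℕ → ℝ, f = fun m => if (n + m).Prime then Real.exp t else 1 := ⟨_, rfl⟩
  have hf1 : ∀ m, 0 ≤ f m := by
    intro m
    rw [hf]
    show 0 ≤ if (n + m).Prime then Real.exp t else 1
    split_ifs
    · exact (Real.exp_pos t).le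
    · exact zero_le_one
  have hprod : ∀ s : Fin D → ℕ, ∏ i, f (s i) = Real.exp (t * (pat s n).card) := by
    intro s
    rw [hf]
    show ∏ i, (if (n + s i).Prime then Real.exp t else 1) = _
    rw [Finset.prod_ite, Finset.prod_const, Finset.prod_const_one, mul_one, ← Real.exp_nat_mul,
      mul_comm]
    rfl
  have hsum : ∑ m ∈ Icc 1 N, f m = N + (Real.exp t - 1) * pn N n := by
    rw [hf]
    have e : ∀ m, (if (n + m).Prime then Real.exp t else 1) =
        1 + (Real.exp t - 1) * (if (n + m).Prime then 1 else 0) := by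
      intro m
      split_ifs <;> ring
    show ∑ m ∈ Icc 1 N, (if (n + m).Prime then Real.exp t else 1) = _
    rw [Finset.sum_congr rfl fun m _ => e m, Finset.sum_add_distrib, ← Finset.mul_sum,
      Finset.sum_const, Nat.card_Icc, Nat.add_sub_cancel, nsmul_eq_mul, mul_one]
    unfold pn
    rw [Finset.sum_boole]
  have hexp : Real.exp t - 1 ≤ t * (1 + t) := by
    have h := Real.abs_exp_sub_one_sub_id_le (x := t) (by rw [abs_of_nonneg ht0]; exact ht1)
    have := le_abs_self (Real.exp t - 1 - t)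
    nlinarith
  have hexp0 : 0 ≤ Real.exp t - 1 := by
    have := Real.add_one_le_exp t
    linarith
  have hpn0 : (0 : ℝ) ≤ pn N n / N := by positivity
  refine markov (Tup D (Icc 1 N)) _ (fun s => ∏ i, f (s i)) (a := Real.exp (t * M))
    (Real.exp_pos _) (fun s _ => Finset.prod_nonneg fun i _ => hf1 _) ?_ ?_
  · intro s _ hs
    rw [hprod]
    exact Real.exp_le_exp.2 (mul_le_mul_of_nonneg_left hs.le ht0)
  · rw [sum_prod, hsum]
    have h1 : (N : ℝ) + (Real.exp t - 1) * pn N n ≤ N * Real.exp ((Real.exp t - 1) * (pn N n / N)) := by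
      have h2 := Real.add_one_le_exp ((Real.exp t - 1) * (pn N n / N))
      have h3 := mul_le_mul_of_nonneg_left h2 hNr.le
      have e : (N : ℝ) * ((Real.exp t - 1) * (pn N n / N) + 1) = N + (Real.exp t - 1) * pn N n := by
        field_simp
        ring
      rw [e] at h3
      exact h3
    have h4 : ((N : ℝ) + (Real.exp t - 1) * pn N n) ^ D ≤
        (N * Real.exp ((Real.exp t - 1) * (pn N n / N))) ^ D :=
      pow_le_pow_left₀ (by positivity) h1 D
    refine h4.trans ?_
    rw [mul_pow, ← Real.exp_nat_mul]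
    have h5 : (D : ℝ) * ((Real.exp t - 1) * (pn N n / N)) ≤ t * (1 + t) * a := by
      calc (D : ℝ) * ((Real.exp t - 1) * (pn N n / N))
          = (Real.exp t - 1) * (D * (pn N n / N)) := by ring
        _ ≤ t * (1 + t) * (D * (pn N n / N)) := mul_le_mul_of_nonneg_right hexp (by positivity)
        _ ≤ t * (1 + t) * a := mul_le_mul_of_nonneg_left hp (by positivity)
    have h6 := Real.exp_le_exp.2 h5
    calc (N : ℝ) ^ D * Real.exp ((D : ℝ) * ((Real.exp t - 1) * (pn N n / N)))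
        ≤ (N : ℝ) ^ D * Real.exp (t * (1 + t) * a) :=
          mul_le_mul_of_nonneg_left h6 (by positivity)
      _ = Real.exp (t * M) * (Real.exp (t * (1 + t) * a - t * M) * (N : ℝ) ^ D) := by
          rw [sub_eq_add_neg, Real.exp_add, Real.exp_neg]
          field_simp

/-- Markov for the number of coprime entries. -/
lemma coprime_many {N D n w : ℕ} (hN : 1 ≤ N) (hP : PP w ≤ N) {M B : ℝ} (hM : 0 < M)
    (hB : 2 * D * DZ w ≤ M * B) :
    (((Tup D (Icc 1 N)).filter (fun s => M < (cop w s n).card)).card : ℝ) ≤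
      B * (N : ℝ) ^ D := by
  classical
  have hNr : (0 : ℝ) < N := by exact_mod_cast hN
  obtain ⟨f, hf⟩ : ∃ f : ℕ → ℝ, f = fun m => if Nat.Coprime (n + m) (PP w) then 1 else 0 :=
    ⟨_, rfl⟩
  have hf1 : ∀ m, 0 ≤ f m := by
    intro m
    rw [hf]
    show (0 : ℝ) ≤ if Nat.Coprime (n + m) (PP w) then 1 else 0
    split_ifs <;> norm_num
  have hcard : ∀ s : Fin D → ℕ, ∑ i, f (s i) = (cop w s n).card := by
    intro s
    rw [hf]
    show ∑ i, (if Nat.Coprime (n + s i) (PP w) then (1 : ℝ) else 0) = _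
    rw [Finset.sum_boole]
    rfl
  have hsum : ∑ m ∈ Icc 1 N, f m ≤ 2 * DZ w * N := by
    rw [hf]
    show ∑ m ∈ Icc 1 N, (if Nat.Coprime (n + m) (PP w) then (1 : ℝ) else 0) ≤ _
    rw [Finset.sum_boole]
    have h1 := cc_le N w n
    unfold cc at h1
    refine h1.trans ?_
    have h2 : (PP w : ℝ) ≤ N := by exact_mod_cast hP
    have h3 := DZ_pos w
    nlinarith
  refine markov (Tup D (Icc 1 N)) _ (fun s => ∑ i, f (s i)) (a := M) hM
    (fun s _ => Finset.sum_nonneg fun i _ => hf1 _) ?_ ?_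
  · intro s _ hs
    rw [hcard]
    exact hs.le
  · refine (sum_sum_le D N hN f hf1 hsum).trans ?_
    have h1 := mul_le_mul_of_nonneg_right hB (by positivity : (0 : ℝ) ≤ (N : ℝ) ^ D)
    calc (D : ℝ) * (2 * DZ w) * (N : ℝ) ^ D = 2 * D * DZ w * (N : ℝ) ^ D := by ring
      _ ≤ M * B * (N : ℝ) ^ D := h1
      _ = _ := by ring

end TVTypAux

open TVTypAux TVCntAux GoodXAux in
open scoped Classical in
/-- Module TVTyp: for each `n`, most `s` give a typical pattern. -/
theorem tv_typ (ε : ℝ) (hε : 0 < ε) (hε1 : ε < 1) (η : ℝ) (hη : 0 < η) : ∃ N0 : ℕ, ∀ N : ℕ, N0 ≤ N →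
    ∀ w : ℕ, PP w ≤ N → ∀ D : ℕ, (D : ℝ) ≤ (1 - ε) * (Real.log N ^ 2 / Real.log (Real.log N)) →
    ∀ n ∈ Ioc N (2 * N),
    (((Tup D (Icc 1 N)).filter (fun s => ¬ ((pat s n).card ≤ Mt ε N ∧ (cop w s n).card ≤ At N w))).card : ℝ) ≤
      η * (N : ℝ) ^ D := by
  obtain ⟨C, hC, hpn⟩ := pn_bounds
  obtain ⟨N1, hN1⟩ := eventually_atTop.1 hpn
  have hlog : Tendsto (fun N : ℕ => Real.log (N : ℝ)) atTop atTop :=
    Real.tendsto_log_atTop.comp tendsto_natCast_atTop_atTop
  have hll : Tendsto (fun N : ℕ => Real.log (Real.log (N : ℝ))) atTop atTop :=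
    Real.tendsto_log_atTop.comp hlog
  obtain ⟨N2, hN2⟩ := eventually_atTop.1 ((hlog.eventually_ge_atTop (8 * C / ε)).and
    (hll.eventually_ge_atTop (max 1 ((4 / η) ^ 2))))
  obtain ⟨N3, hN3⟩ := large (32 / ε ^ 2 * (- Real.log (η / 2)))
  refine ⟨max (max N1 N2) N3, fun N hN w hw D hD n hn => ?_⟩
  have hNN1 : N1 ≤ N := ((le_max_left _ _).trans (le_max_left _ _)).trans hN
  have hNN2 : N2 ≤ N := ((le_max_right _ _).trans (le_max_left _ _)).trans hN
  have hNN3 : N3 ≤ N := (le_max_right _ _).trans hN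
  obtain ⟨-, hup⟩ := hN1 N hNN1 n hn
  obtain ⟨hL1, hl1⟩ := hN2 N hNN2
  obtain ⟨he, hy⟩ := hN3 N hNN3
  obtain ⟨hl1, hl2⟩ := max_le_iff.1 hl1
  have hl0 : 0 < Real.log N := (Real.exp_pos 1).trans_le he
  have hN0 := pos_of_log he
  have hNn : 1 ≤ N := by
    have : 0 < N := by exact_mod_cast hN0
    exact this
  obtain ⟨L, hL⟩ : ∃ L, L = Real.log N := ⟨_, rfl⟩
  obtain ⟨l, hl⟩ : ∃ l, l = Real.log (Real.log N) := ⟨_, rfl⟩
  have hyL : yy N = L / l := by rw [hL, hl]; rfl
  rw [← hl] at hl1 hl2 hD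
  rw [← hL] at hL1 hl0 hD hup
  have hlp : 0 < l := by linarith
  have hyp : 0 < yy N := by rw [hyL]; positivity
  -- the two parts
  have hsplit : (Tup D (Icc 1 N)).filter
      (fun s => ¬ ((pat s n).card ≤ Mt ε N ∧ (cop w s n).card ≤ At N w)) ⊆
      (Tup D (Icc 1 N)).filter (fun s => (1 - ε / 2) * yy N < (pat s n).card) ∪
      (Tup D (Icc 1 N)).filter
        (fun s => L ^ 2 * DZ w / Real.sqrt l < (cop w s n).card) := by
    intro s hs
    rw [Finset.mem_filter] at hs
    rw [Finset.mem_union, Finset.mem_filter, Finset.mem_filter]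
    obtain ⟨hs1, hs2⟩ := hs
    rw [not_and_or, not_le, not_le] at hs2
    rcases hs2 with h | h
    · left
      refine ⟨hs1, ?_⟩
      unfold Mt at h
      exact (Nat.floor_lt' (by omega)).1 h
    · right
      refine ⟨hs1, ?_⟩
      unfold At at h
      rw [← hl, ← hL] at h
      exact (Nat.floor_lt' (by omega)).1 h
  have hcard : (((Tup D (Icc 1 N)).filter
      (fun s => ¬ ((pat s n).card ≤ Mt ε N ∧ (cop w s n).card ≤ At N w))).card : ℝ) ≤
      ((Tup D (Icc 1 N)).filter (fun s => (1 - ε / 2) * yy N < (pat s n).card)).card +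
      ((Tup D (Icc 1 N)).filter
        (fun s => L ^ 2 * DZ w / Real.sqrt l < (cop w s n).card)).card := by
    exact_mod_cast (Finset.card_le_card hsplit).trans (Finset.card_union_le _ _)
  refine hcard.trans ?_
  -- primes
  have hA : (((Tup D (Icc 1 N)).filter (fun s => (1 - ε / 2) * yy N < (pat s n).card)).card : ℝ) ≤
      η / 2 * (N : ℝ) ^ D := by
    have h1 : (D : ℝ) * (pn N n / N) ≤ (1 - ε) * (1 + C / L) * yy N := by
      have h2 : (pn N n : ℝ) / N ≤ 1 / L * (1 + C / L) := by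
        rw [div_le_iff₀ hN0]
        calc (pn N n : ℝ) ≤ N / L * (1 + C / L) := hup
          _ = 1 / L * (1 + C / L) * N := by ring
      calc (D : ℝ) * (pn N n / N) ≤ D * (1 / L * (1 + C / L)) :=
            mul_le_mul_of_nonneg_left h2 (Nat.cast_nonneg D)
        _ ≤ (1 - ε) * (L ^ 2 / l) * (1 / L * (1 + C / L)) := by
            refine mul_le_mul_of_nonneg_right hD (by positivity)
        _ = (1 - ε) * (1 + C / L) * yy N := by
            rw [hyL]
            field_simp
    refine (primes_many hNn (t := ε / 8) (by positivity) (by linarith) _ h1).trans ?_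
    refine mul_le_mul_of_nonneg_right ?_ (by positivity)
    rw [← Real.le_log_iff_exp_le (by positivity)]
    have h3 : C / L ≤ ε / 8 := by
      rw [div_le_iff₀ hε] at hL1
      rw [div_le_iff₀ hl0]
      linarith
    have h3' : 0 ≤ C / L := by positivity
    have h4 : (1 + ε / 8) * ((1 - ε) * (1 + C / L)) ≤ 1 - ε / 2 - ε / 4 := by
      have h5 : (1 + ε / 8) * (1 + C / L) ≤ 1 + ε / 8 + 9 / 8 * (ε / 8) := by nlinarith
      have h6 : (1 - ε) * ((1 + ε / 8) * (1 + C / L)) ≤
          (1 - ε) * (1 + ε / 8 + 9 / 8 * (ε / 8)) :=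
        mul_le_mul_of_nonneg_left h5 (by linarith)
      nlinarith
    have h7 : ε / 8 * (1 + ε / 8) * ((1 - ε) * (1 + C / L) * yy N) -
        ε / 8 * ((1 - ε / 2) * yy N) ≤ - (ε ^ 2 / 32 * yy N) := by
      have h8 := mul_le_mul_of_nonneg_left h4 (by positivity : 0 ≤ ε / 8 * yy N)
      have e1 : ε / 8 * (1 + ε / 8) * ((1 - ε) * (1 + C / L) * yy N) =
          ε / 8 * yy N * ((1 + ε / 8) * ((1 - ε) * (1 + C / L))) := by ring
      rw [e1]
      have e2 : ε / 8 * yy N * (1 - ε / 2 - ε / 4) = ε / 8 * ((1 - ε / 2) * yy N) -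
          ε ^ 2 / 32 * yy N := by ring
      linarith
    refine h7.trans ?_
    have h9 : 32 / ε ^ 2 * (- Real.log (η / 2)) * (ε ^ 2 / 32) ≤ yy N * (ε ^ 2 / 32) :=
      mul_le_mul_of_nonneg_right hy (by positivity)
    have e3 : 32 / ε ^ 2 * (- Real.log (η / 2)) * (ε ^ 2 / 32) = - Real.log (η / 2) := by
      field_simp
    rw [e3] at h9
    linarith
  -- coprime entries
  have hB : (((Tup D (Icc 1 N)).filter
      (fun s => L ^ 2 * DZ w / Real.sqrt l < (cop w s n).card)).card : ℝ) ≤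
      η / 2 * (N : ℝ) ^ D := by
    have hDZ := DZ_pos w
    have hs0 : 0 < Real.sqrt l := Real.sqrt_pos.2 hlp
    refine coprime_many hNn hw (by positivity) ?_
    have h1 : 4 / η ≤ Real.sqrt l := Real.le_sqrt_of_sq_le hl2
    have h2 : (D : ℝ) ≤ L ^ 2 / l := by
      refine hD.trans ?_
      have : 0 ≤ L ^ 2 / l := by positivity
      nlinarith
    rw [div_le_iff₀ hη] at h1
    have h3 : Real.sqrt l * Real.sqrt l = l := Real.mul_self_sqrt hlp.le
    calc 2 * (D : ℝ) * DZ w ≤ 2 * (L ^ 2 / l) * DZ w := by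
          have := mul_le_mul_of_nonneg_right h2 hDZ.le
          linarith
      _ = L ^ 2 * DZ w / Real.sqrt l * (2 / Real.sqrt l) := by
          rw [div_mul_div_comm, h3]
          ring
      _ ≤ L ^ 2 * DZ w / Real.sqrt l * (η / 2) := by
          refine mul_le_mul_of_nonneg_left ?_ (by positivity)
          rw [div_le_iff₀ hs0]
          linarith
  calc _ ≤ η / 2 * (N : ℝ) ^ D + η / 2 * (N : ℝ) ^ D := add_le_add hA hB
    _ = η * (N : ℝ) ^ D := by ring

end Pool.Agent.Lib.LEN
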