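import Pool.Agent.Lib.LEN.JDefs
import Pool.Agent.Lib.LEN.TVTyp

/-!
# LEN.JTyp: for each `n`, most tuples give a typical pattern, with room for `r` primes
-/

set_option autoImplicit false

open Finset Filter

namespace Pool.Agent.Lib.LEN

open Pool.Agent.HLB Pool.Agent.HLT Pool.Agent.HLR Pool.Agent.Lib.GMV

open TVTypAux TVCntAux GoodXAux in
open scoped Classical in
/-- Module JTyp: `tv_typ` with `r`. -/
theorem j_typ (ε : ℝ) (hε : 0 < ε) (hε1 : ε < 1) (η : ℝ) (hη : 0 < η) : ∃ N0 : ℕ, ∀ N : ℕ, N0 ≤ N →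
    ∀ w : ℕ, PP w ≤ N → ∀ r D : ℕ, (r : ℝ) + D / Real.log N ≤ (1 - ε) * yy N →
    ∀ n ∈ Ioc N (2 * N),
    (((Tup D (Icc 1 N)).filter (fun s =>
      ¬ ((pat s n).card ≤ MJ ε N r ∧ (cop w s n).card ≤ At N w))).card : ℝ) ≤
      η * (N : ℝ) ^ D := by
  obtain ⟨C, hC, hpn⟩ := pn_bounds
  obtain ⟨N1, hN1⟩ := eventually_atTop.1 hpn
  have hlog : Tendsto (fun N : ℕ => Real.log (N : ℝ)) atTop atTop :=
    Real.tendsto_log_atTop.comp tendsto_natCast_atTop_atTop
  have hll : Tendsto (fun N : ℕ => Real.log (Real.log (N : ℝ))) atTop atTop :=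
    Real.tendsto_log_atTop.comp hlog
  obtain ⟨N2, hN2⟩ := eventually_atTop.1 ((hlog.eventually_ge_atTop (8 * C / ε)).and
    (hll.eventually_ge_atTop (max 1 ((4 / η) ^ 2))))
  obtain ⟨N3, hN3⟩ := large (64 / ε ^ 2 * (- Real.log (η / 2)))
  refine ⟨max (max N1 N2) N3, fun N hN w hw r D hD n hn => ?_⟩
  have hNN1 : N1 ≤ N := ((le_max_left _ _).trans (le_max_left _ _)).trans hN
  have hNN2 : N2 ≤ N := ((le_max_right _ _).trans (le_max_left _ _)).trans hN
  have hNN3 : N3 ≤ N := (le_max_right _ _).trans hN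
  obtain ⟨-, hup⟩ := hN1 N hNN1 n hn
  obtain ⟨hL1, hl1⟩ := hN2 N hNN2
  obtain ⟨he, hy⟩ := hN3 N hNN3
  obtain ⟨hl1, hl2⟩ := max_le_iff.1 hl1
  have hl0 : 0 < Real.log N := (Real.exp_pos 1).trans_le he
  have hN0 := pos_of_log he
  have hNn : 1 ≤ N := by
    have : 0 < N := by exact_mod_cast hN0
    exact this
  obtain ⟨L, hL⟩ : ∃ L, L = Real.log N := ⟨_, rfl⟩
  obtain ⟨l, hl⟩ : ∃ l, l = Real.log (Real.log N) := ⟨_, rfl⟩
  have hyL : yy N = L / l := by rw [hL, hl]; rfl
  rw [← hl] at hl1 hl2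
  rw [← hL] at hL1 hl0 hD hup
  have hlp : 0 < l := by linarith
  have hyp : 0 < yy N := by rw [hyL]; positivity
  have hr0 : (0 : ℝ) ≤ r := Nat.cast_nonneg r
  have hDL0 : (0 : ℝ) ≤ D / L := by positivity
  have hDL : (D : ℝ) / L ≤ (1 - ε) * yy N := by linarith
  -- the two parts
  have hsplit : (Tup D (Icc 1 N)).filter
      (fun s => ¬ ((pat s n).card ≤ MJ ε N r ∧ (cop w s n).card ≤ At N w)) ⊆
      (Tup D (Icc 1 N)).filter (fun s => (1 - ε / 2) * yy N - r < (pat s n).card) ∪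
      (Tup D (Icc 1 N)).filter
        (fun s => L ^ 2 * DZ w / Real.sqrt l < (cop w s n).card) := by
    intro s hs
    rw [Finset.mem_filter] at hs
    rw [Finset.mem_union, Finset.mem_filter, Finset.mem_filter]
    obtain ⟨hs1, hs2⟩ := hs
    rw [not_and_or, not_le, not_le] at hs2
    rcases hs2 with h | h
    · left
      refine ⟨hs1, ?_⟩
      unfold MJ at h
      exact (Nat.floor_lt' (by omega)).1 h
    · right
      refine ⟨hs1, ?_⟩
      unfold At at h
      rw [← hl, ← hL] at h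
      exact (Nat.floor_lt' (by omega)).1 h
  have hcard : (((Tup D (Icc 1 N)).filter
      (fun s => ¬ ((pat s n).card ≤ MJ ε N r ∧ (cop w s n).card ≤ At N w))).card : ℝ) ≤
      ((Tup D (Icc 1 N)).filter (fun s => (1 - ε / 2) * yy N - r < (pat s n).card)).card +
      ((Tup D (Icc 1 N)).filter
        (fun s => L ^ 2 * DZ w / Real.sqrt l < (cop w s n).card)).card := by
    exact_mod_cast (Finset.card_le_card hsplit).trans (Finset.card_union_le _ _)
  refine hcard.trans ?_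
  -- primes
  have hA : (((Tup D (Icc 1 N)).filter
      (fun s => (1 - ε / 2) * yy N - r < (pat s n).card)).card : ℝ) ≤
      η / 2 * (N : ℝ) ^ D := by
    have h1 : (D : ℝ) * (pn N n / N) ≤ (1 + C / L) * (D / L) := by
      have h2 : (pn N n : ℝ) / N ≤ 1 / L * (1 + C / L) := by
        rw [div_le_iff₀ hN0]
        calc (pn N n : ℝ) ≤ N / L * (1 + C / L) := hup
          _ = 1 / L * (1 + C / L) * N := by ring
      calc (D : ℝ) * (pn N n / N) ≤ D * (1 / L * (1 + C / L)) :=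
            mul_le_mul_of_nonneg_left h2 (Nat.cast_nonneg D)
        _ = (1 + C / L) * (D / L) := by ring
    refine (primes_many hNn (t := ε / 8) (by positivity) (by linarith) _ h1).trans ?_
    refine mul_le_mul_of_nonneg_right ?_ (by positivity)
    rw [← Real.le_log_iff_exp_le (by positivity)]
    have h3 : C / L ≤ ε / 8 := by
      rw [div_le_iff₀ hε] at hL1
      rw [div_le_iff₀ hl0]
      linarith
    have h3' : 0 ≤ C / L := by positivity
    have h5 : (1 + ε / 8) * (1 + C / L) ≤ 1 + 17 / 64 * ε := by nlinarith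
    have h6 : (1 + ε / 8) * (1 + C / L) * (D / L) ≤ (1 + 17 / 64 * ε) * (D / L) :=
      mul_le_mul_of_nonneg_right h5 hDL0
    have h6' : 17 / 64 * ε * (D / L) ≤ 17 / 64 * ε * ((1 - ε) * yy N) :=
      mul_le_mul_of_nonneg_left hDL (by positivity)
    have h6'' : 17 / 64 * ε * ((1 - ε) * yy N) ≤ 17 / 64 * ε * yy N := by
      refine mul_le_mul_of_nonneg_left ?_ (by positivity)
      nlinarith
    have h7 : (1 + ε / 8) * (1 + C / L) * (D / L) - ((1 - ε / 2) * yy N - r) ≤
        - (ε / 8 * yy N) := by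
      have h8 : 0 ≤ ε * yy N := by positivity
      have e1 : (1 + 17 / 64 * ε) * (D / L) = D / L + 17 / 64 * ε * (D / L) := by ring
      rw [e1] at h6
      have e2 : (1 - ε / 2) * yy N = (1 - ε) * yy N + 1 / 2 * (ε * yy N) := by ring
      rw [e2]
      linarith
    have h7' := mul_le_mul_of_nonneg_left h7 (by positivity : 0 ≤ ε / 8)
    have e0 : ε / 8 * (1 + ε / 8) * ((1 + C / L) * (D / L)) -
        ε / 8 * ((1 - ε / 2) * yy N - r) =
        ε / 8 * ((1 + ε / 8) * (1 + C / L) * (D / L) - ((1 - ε / 2) * yy N - r)) := by ring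
    rw [e0]
    refine h7'.trans ?_
    have h9 : 64 / ε ^ 2 * (- Real.log (η / 2)) * (ε ^ 2 / 64) ≤ yy N * (ε ^ 2 / 64) :=
      mul_le_mul_of_nonneg_right hy (by positivity)
    have e3 : 64 / ε ^ 2 * (- Real.log (η / 2)) * (ε ^ 2 / 64) = - Real.log (η / 2) := by
      field_simp
    rw [e3] at h9
    have e4 : ε / 8 * -(ε / 8 * yy N) = - (yy N * (ε ^ 2 / 64)) := by ring
    rw [e4]
    linarith
  -- coprime entries
  have hB : (((Tup D (Icc 1 N)).filter
      (fun s => L ^ 2 * DZ w / Real.sqrt l < (cop w s n).card)).card : ℝ) ≤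
      η / 2 * (N : ℝ) ^ D := by
    have hDZ := DZ_pos w
    have hs0 : 0 < Real.sqrt l := Real.sqrt_pos.2 hlp
    refine coprime_many hNn hw (by positivity) ?_
    have h1 : 4 / η ≤ Real.sqrt l := Real.le_sqrt_of_sq_le hl2
    have h2 : (D : ℝ) ≤ L ^ 2 / l := by
      have h3 : (D : ℝ) / L ≤ L / l := by
        rw [← hyL]
        nlinarith
      rw [div_le_iff₀ hl0] at h3
      calc (D : ℝ) ≤ L / l * L := h3
        _ = L ^ 2 / l := by ring
    rw [div_le_iff₀ hη] at h1
    have h3 : Real.sqrt l * Real.sqrt l = l := Real.mul_self_sqrt hlp.le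
    calc 2 * (D : ℝ) * DZ w ≤ 2 * (L ^ 2 / l) * DZ w := by
          have := mul_le_mul_of_nonneg_right h2 hDZ.le
          linarith
      _ = L ^ 2 * DZ w / Real.sqrt l * (2 / Real.sqrt l) := by
          rw [div_mul_div_comm, h3]
          ring
      _ ≤ L ^ 2 * DZ w / Real.sqrt l * (η / 2) := by
          refine mul_le_mul_of_nonneg_left ?_ (by positivity)
          rw [div_le_iff₀ hs0]
          linarith
  calc _ ≤ η / 2 * (N : ℝ) ^ D + η / 2 * (N : ℝ) ^ D := add_le_add hA hB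
    _ = η * (N : ℝ) ^ D := by ring

end Pool.Agent.Lib.LEN
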