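import Mathlib

/-!
# LEN.TVAbs: total variation from a truncated second moment
-/

set_option autoImplicit false

open Finset

namespace Pool.Agent.Lib.LEN

/-- `∑ |P - Q| ≤ 2 √(X - 2 P(T) + 1) + 2 (1 - P(T))`, `X = ∑_T P²/Q`. -/
theorem tv_abs {α : Type*} [DecidableEq α] (S T : Finset α) (hTS : T ⊆ S) (P Q : α → ℝ)
    (hP : ∀ x ∈ S, 0 ≤ P x)
    (hQ : ∀ x ∈ S, 0 ≤ Q x) (hP1 : ∑ x ∈ S, P x = 1) (hQ1 : ∑ x ∈ S, Q x = 1)
    (h0 : ∀ x ∈ T, Q x = 0 → P x = 0) :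
    0 ≤ ∑ x ∈ T, P x ^ 2 / Q x - 2 * ∑ x ∈ T, P x + 1 ∧
    (∑ x ∈ S, |P x - Q x|) / 2 ≤
      Real.sqrt (∑ x ∈ T, P x ^ 2 / Q x - 2 * ∑ x ∈ T, P x + 1) + (1 - ∑ x ∈ T, P x) := by
  have hpt : ∀ x ∈ T, (P x - Q x) ^ 2 / Q x = P x ^ 2 / Q x - 2 * P x + Q x := by
    intro x hx
    by_cases h : Q x = 0
    · rw [h0 x hx h, h]
      norm_num
    · field_simp
      ring
  have hX : ∑ x ∈ T, (P x - Q x) ^ 2 / Q x =
      ∑ x ∈ T, P x ^ 2 / Q x - 2 * ∑ x ∈ T, P x + ∑ x ∈ T, Q x := by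
    rw [sum_congr rfl hpt, sum_add_distrib, sum_sub_distrib, mul_sum]
  have hQT : ∑ x ∈ T, Q x ≤ 1 := by
    rw [← hQ1]
    exact sum_le_sum_of_subset_of_nonneg hTS fun x hx _ => hQ x hx
  have hQT0 : 0 ≤ ∑ x ∈ T, Q x := sum_nonneg fun x hx => hQ x (hTS hx)
  have hX0 : 0 ≤ ∑ x ∈ T, (P x - Q x) ^ 2 / Q x :=
    sum_nonneg fun x hx => div_nonneg (sq_nonneg _) (hQ x (hTS hx))
  have hle : ∑ x ∈ T, (P x - Q x) ^ 2 / Q x ≤
      ∑ x ∈ T, P x ^ 2 / Q x - 2 * ∑ x ∈ T, P x + 1 := by linarith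
  refine ⟨hX0.trans hle, ?_⟩
  have hCS : ∑ x ∈ T, |P x - Q x| ≤ Real.sqrt (∑ x ∈ T, (P x - Q x) ^ 2 / Q x) := by
    have h1 : ∀ x ∈ T, |P x - Q x| = Real.sqrt ((P x - Q x) ^ 2 / Q x) * Real.sqrt (Q x) := by
      intro x hx
      have hq := hQ x (hTS hx)
      by_cases h : Q x = 0
      · rw [h0 x hx h, h]
        norm_num
      · have hq' : 0 < Q x := lt_of_le_of_ne hq (Ne.symm h)
        rw [Real.sqrt_div (sq_nonneg _), Real.sqrt_sq_eq_abs,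
          div_mul_cancel₀ _ (Real.sqrt_pos.2 hq').ne']
    rw [sum_congr rfl h1]
    have h2 := sum_mul_sq_le_sq_mul_sq T (fun x => Real.sqrt ((P x - Q x) ^ 2 / Q x))
      (fun x => Real.sqrt (Q x))
    have h3 : ∑ x ∈ T, Real.sqrt ((P x - Q x) ^ 2 / Q x) ^ 2 = ∑ x ∈ T, (P x - Q x) ^ 2 / Q x :=
      sum_congr rfl fun x hx => Real.sq_sqrt (div_nonneg (sq_nonneg _) (hQ x (hTS hx)))
    have h4 : ∑ x ∈ T, Real.sqrt (Q x) ^ 2 = ∑ x ∈ T, Q x :=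
      sum_congr rfl fun x hx => Real.sq_sqrt (hQ x (hTS hx))
    rw [h3, h4] at h2
    refine Real.le_sqrt_of_sq_le (h2.trans ?_)
    calc _ ≤ (∑ x ∈ T, (P x - Q x) ^ 2 / Q x) * 1 := mul_le_mul_of_nonneg_left hQT hX0
      _ = _ := mul_one _
  have hsplit : ∀ F : α → ℝ, ∑ x ∈ S, F x = ∑ x ∈ T, F x + ∑ x ∈ S \ T, F x := by
    intro F
    rw [add_comm]
    exact (sum_sdiff hTS).symm
  have h5 : ∑ x ∈ S \ T, |P x - Q x| ≤ ∑ x ∈ S \ T, P x + ∑ x ∈ S \ T, Q x := by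
    rw [← sum_add_distrib]
    refine sum_le_sum fun x hx => ?_
    have hxS := (mem_sdiff.1 hx).1
    have := hP x hxS
    have := hQ x hxS
    rw [abs_le]
    constructor <;> linarith
  have h6 : ∑ x ∈ S \ T, P x = 1 - ∑ x ∈ T, P x := by
    have := hsplit P
    linarith
  have h7 : ∑ x ∈ S \ T, Q x = 1 - ∑ x ∈ T, Q x := by
    have := hsplit Q
    linarith
  have h8 : ∑ x ∈ T, P x - ∑ x ∈ T, Q x ≤ ∑ x ∈ T, |P x - Q x| := by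
    rw [← sum_sub_distrib]
    exact sum_le_sum fun x _ => le_abs_self _
  have h9 := hsplit fun x => |P x - Q x|
  have h10 := Real.sqrt_le_sqrt hle
  linarith

/-- The distance is at least `P(E) - Q(E)`. -/
theorem tv_ge {α : Type*} [DecidableEq α] (S E : Finset α) (hES : E ⊆ S) (P Q : α → ℝ)
    (hP1 : ∑ x ∈ S, P x = 1) (hQ1 : ∑ x ∈ S, Q x = 1) :
    ∑ x ∈ E, P x - ∑ x ∈ E, Q x ≤ (∑ x ∈ S, |P x - Q x|) / 2 := by
  have hsplit : ∀ F : α → ℝ, ∑ x ∈ S, F x = ∑ x ∈ E, F x + ∑ x ∈ S \ E, F x := by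
    intro F
    rw [add_comm]
    exact (sum_sdiff hES).symm
  have h1 : ∑ x ∈ E, P x - ∑ x ∈ E, Q x ≤ ∑ x ∈ E, |P x - Q x| := by
    rw [← sum_sub_distrib]
    exact sum_le_sum fun x _ => le_abs_self _
  have h2 : ∑ x ∈ S \ E, Q x - ∑ x ∈ S \ E, P x ≤ ∑ x ∈ S \ E, |P x - Q x| := by
    rw [← sum_sub_distrib]
    exact sum_le_sum fun x _ => by rw [abs_sub_comm]; exact le_abs_self _
  have := hsplit P
  have := hsplit Q
  have := hsplit fun x => |P x - Q x|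
  linarith

end Pool.Agent.Lib.LEN
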