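import Pool.Agent.Lib.LEN.TVDefs
import Pool.Agent.Lib.LEN.Cls0

/-!
# LEN.TVChi: the second moment over `s` of the likelihood ratio on the typical set

`PJ ^ 2 / (QB / P) = (P / N ^ 2) ∑_{n, n'} 1[n and n' have the key (b, T)] / QB`, the key of `n` is `(n % P, pat s n)`. For
`n ≠ n'` the sum over `s` is a power of `∑_m ph`, for `n = n'` one has `QB ≥ q ^ M (1 - q) ^ A`.
-/

set_option autoImplicit false

open Finset Filter

namespace Pool.Agent.Lib.LEN

open Pool.Agent.HLB Pool.Agent.HLT Pool.Agent.HLR Pool.Agent.Lib.GMV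

namespace TVChiAux

lemma coprime_mod_iff (w n m : ℕ) :
    Nat.Coprime (n % PP w + m) (PP w) ↔ Nat.Coprime (n + m) (PP w) := by
  have h : n + m = (n % PP w + m) + PP w * (n / PP w) := by
    have := Nat.mod_add_div n (PP w)
    omega
  rw [h]
  exact (Nat.coprime_add_mul_left_left _ _ _).symm

lemma qq_mod (N w n m : ℕ) : qq N w (n % PP w) m = qq N w n m := by
  unfold qq
  simp only [coprime_mod_iff]

lemma qq_nonneg (N w b m : ℕ) (hq0 : 0 < (DZ w)⁻¹ / Real.log N) : 0 ≤ qq N w b m := by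
  unfold qq
  split_ifs
  · exact hq0.le
  · exact le_rfl

lemma qq_lt (N w b m : ℕ) (hq1 : (DZ w)⁻¹ / Real.log N < 1) : qq N w b m < 1 := by
  unfold qq
  split_ifs
  · exact hq1
  · exact one_pos

lemma ph_nonneg (N w n n' m : ℕ) (hq0 : 0 < (DZ w)⁻¹ / Real.log N)
    (hq1 : (DZ w)⁻¹ / Real.log N < 1) : 0 ≤ ph N w n n' m := by
  unfold ph
  have h1 := qq_nonneg N w n m hq0
  have h2 := qq_lt N w n m hq1
  split_ifs
  · exact inv_nonneg.2 h1
  · exact le_rfl
  · exact inv_nonneg.2 (by linarith)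

lemma QB_nonneg (N w b : ℕ) {D : ℕ} (s : Fin D → ℕ) (T : Finset (Fin D))
    (hq0 : 0 < (DZ w)⁻¹ / Real.log N) (hq1 : (DZ w)⁻¹ / Real.log N < 1) : 0 ≤ QB N w s b T := by
  unfold QB
  refine prod_nonneg fun i _ => ?_
  have h1 := qq_nonneg N w b (s i) hq0
  have h2 := qq_lt N w b (s i) hq1
  split_ifs
  · exact h1
  · linarith

lemma mem_pat {D : ℕ} (s : Fin D → ℕ) (n : ℕ) (i : Fin D) : i ∈ pat s n ↔ (n + s i).Prime := by
  unfold pat
  rw [mem_filter]
  exact ⟨fun h => h.2, fun h => ⟨mem_univ _, h⟩⟩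

/-- Equal patterns. -/
lemma inv_QB (N w n n' : ℕ) {D : ℕ} (s : Fin D → ℕ) (h : pat s n' = pat s n) :
    (QB N w s (n % PP w) (pat s n))⁻¹ = ∏ i, ph N w n n' (s i) := by
  unfold QB
  rw [← prod_inv_distrib]
  refine prod_congr rfl fun i _ => ?_
  rw [qq_mod]
  have h1 : (n' + s i).Prime ↔ (n + s i).Prime := by
    rw [← mem_pat s n' i, ← mem_pat s n i, h]
  unfold ph
  by_cases hp : (n + s i).Prime
  · have hm : i ∈ pat s n := (mem_pat s n i).2 hp
    rw [if_pos hm, if_pos ⟨hp, h1.2 hp⟩]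
  · have hm : i ∉ pat s n := fun hc => hp ((mem_pat s n i).1 hc)
    rw [if_neg hm, if_neg (fun hc => hp hc.1), if_neg (fun hc => hp (hc.elim id h1.1))]

/-- The diagonal. -/
lemma QB_ge (N w M A n : ℕ) {D : ℕ} (s : Fin D → ℕ) (hw : w ≤ N) (hn : N < n)
    (hq0 : 0 < (DZ w)⁻¹ / Real.log N) (hq1 : (DZ w)⁻¹ / Real.log N < 1)
    (hM : (pat s n).card ≤ M) (hA : (cop w s (n % PP w)).card ≤ A) :
    ((DZ w)⁻¹ / Real.log N) ^ M * (1 - (DZ w)⁻¹ / Real.log N) ^ A ≤
      QB N w s (n % PP w) (pat s n) := by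
  classical
  set q : ℝ := (DZ w)⁻¹ / Real.log N with hq
  have e : QB N w s (n % PP w) (pat s n) =
      (∏ i ∈ pat s n, qq N w (n % PP w) (s i)) * ∏ i ∈ univ \ pat s n, (1 - qq N w (n % PP w) (s i)) := by
    unfold QB
    rw [prod_ite]
    congr 1
    · refine prod_congr ?_ fun _ _ => rfl
      ext i
      simp
    · refine prod_congr ?_ fun _ _ => rfl
      ext i
      simp
  rw [e]
  have h1 : q ^ M ≤ ∏ i ∈ pat s n, qq N w (n % PP w) (s i) := by
    have h2 : ∀ i ∈ pat s n, qq N w (n % PP w) (s i) = q := by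
      intro i hi
      rw [qq_mod]
      have hp := (mem_pat s n i).1 hi
      unfold qq
      rw [if_pos]
      exact Cls0.prime_coprime_PP hp (by omega)
    rw [prod_congr rfl h2, prod_const]
    exact pow_le_pow_of_le_one hq0.le hq1.le hM
  have h3 : (1 - q) ^ A ≤ ∏ i ∈ univ \ pat s n, (1 - qq N w (n % PP w) (s i)) := by
    have h4 : ∏ i ∈ univ \ pat s n, (1 - qq N w (n % PP w) (s i)) =
        ∏ i ∈ (univ \ pat s n).filter (fun i => i ∈ cop w s (n % PP w)), (1 - q) := by
      rw [prod_filter]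
      refine prod_congr rfl fun i _ => ?_
      unfold qq cop
      by_cases hc : Nat.Coprime (n % PP w + s i) (PP w)
      · rw [if_pos hc, if_pos (by rw [mem_filter]; exact ⟨mem_univ _, hc⟩)]
      · rw [if_neg hc, if_neg (by rw [mem_filter]; exact fun h => hc h.2), sub_zero]
    rw [h4, prod_const]
    refine pow_le_pow_of_le_one (by linarith) (by linarith) ?_
    refine le_trans (card_le_card ?_) hA
    intro i hi
    exact (mem_filter.1 hi).2
  exact mul_le_mul h1 h3 (pow_nonneg (by linarith) _) ((pow_nonneg hq0.le _).trans h1)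

/-- The key of `n`. -/
def key (w : ℕ) {D : ℕ} (s : Fin D → ℕ) (n : ℕ) : ℕ × Finset (Fin D) := (n % PP w, pat s n)

open scoped Classical in
/-- The sum over the typical keys as a sum over pairs. -/
lemma pairs (N w M A : ℕ) {D : ℕ} (s : Fin D → ℕ) :
    ∑ x ∈ Ty w M A s, PJ N w s x.1 x.2 ^ 2 / (QB N w s x.1 x.2 / PP w) =
      (PP w : ℝ) / N ^ 2 * ∑ n ∈ Ioc N (2 * N), ∑ n' ∈ Ioc N (2 * N),
        if key w s n' = key w s n ∧ key w s n ∈ Ty w M A s then
          (QB N w s (n % PP w) (pat s n))⁻¹ else 0 := by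
  have h1 : ∀ x : ℕ × Finset (Fin D), PJ N w s x.1 x.2 ^ 2 / (QB N w s x.1 x.2 / PP w) =
      (PP w : ℝ) / N ^ 2 * ∑ n ∈ Ioc N (2 * N), ∑ n' ∈ Ioc N (2 * N),
        if key w s n = x ∧ key w s n' = x then (QB N w s x.1 x.2)⁻¹ else 0 := by
    intro x
    have h2 : PJ N w s x.1 x.2 = (∑ n ∈ Ioc N (2 * N), if key w s n = x then (1 : ℝ) else 0) / N := by
      unfold PJ
      congr 1
      rw [← sum_filter, sum_const, nsmul_eq_mul, mul_one]
      congr 2
      refine filter_congr fun n _ => ?_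
      unfold key
      rw [Prod.ext_iff]
    have h3 : ∑ n ∈ Ioc N (2 * N), ∑ n' ∈ Ioc N (2 * N),
        (if key w s n = x ∧ key w s n' = x then (QB N w s x.1 x.2)⁻¹ else 0) =
        (∑ n ∈ Ioc N (2 * N), if key w s n = x then (1 : ℝ) else 0) ^ 2 * (QB N w s x.1 x.2)⁻¹ := by
      rw [sq, sum_mul_sum, sum_mul]
      refine sum_congr rfl fun n _ => ?_
      rw [sum_mul]
      refine sum_congr rfl fun n' _ => ?_
      by_cases c1 : key w s n = x
      · by_cases c2 : key w s n' = x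
        · rw [if_pos ⟨c1, c2⟩, if_pos c1, if_pos c2, one_mul, one_mul]
        · rw [if_neg (fun h => c2 h.2), if_neg c2, mul_zero, zero_mul]
      · rw [if_neg (fun h => c1 h.1), if_neg c1, zero_mul, zero_mul]
    rw [h3, h2, div_div_eq_mul_div, div_pow, div_eq_mul_inv]
    ring
  rw [sum_congr rfl fun x _ => h1 x, ← mul_sum]
  congr 1
  rw [sum_comm]
  refine sum_congr rfl fun n _ => ?_
  rw [sum_comm]
  refine sum_congr rfl fun n' _ => ?_
  by_cases hk : key w s n' = key w s n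
  · by_cases ht : key w s n ∈ Ty w M A s
    · rw [if_pos ⟨hk, ht⟩, sum_eq_single (key w s n)]
      · rw [if_pos ⟨rfl, hk⟩]
        rfl
      · intro x _ hx
        rw [if_neg]
        exact fun h => hx h.1.symm
      · intro h
        exact absurd ht h
    · rw [if_neg (fun h => ht h.2)]
      refine sum_eq_zero fun x hx => ?_
      rw [if_neg]
      rintro ⟨h, _⟩
      rw [h] at ht
      exact ht hx
  · rw [if_neg (fun h => hk h.1)]
    refine sum_eq_zero fun x _ => ?_
    rw [if_neg]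
    rintro ⟨h, h'⟩
    exact hk (h'.trans h.symm)

end TVChiAux

open TVChiAux

open scoped Classical in
/-- Module TVChi. -/
theorem tv_chi (N w D M A : ℕ) (hN : 2 ≤ N) (hw : w ≤ N) (hq0 : 0 < (DZ w)⁻¹ / Real.log N)
    (hq1 : (DZ w)⁻¹ / Real.log N < 1) :
    ∑ s ∈ Tup D (Icc 1 N), ∑ x ∈ Ty w M A s, PJ N w s x.1 x.2 ^ 2 / (QB N w s x.1 x.2 / PP w) ≤
      (PP w : ℝ) / N ^ 2 * ∑ x ∈ CP N N w, (∑ m ∈ Icc 1 N, ph N w x.1 x.2 m) ^ D +
      (PP w : ℝ) / N * ((N : ℝ) ^ D /
        (((DZ w)⁻¹ / Real.log N) ^ M * (1 - (DZ w)⁻¹ / Real.log N) ^ A)) := by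
  set q : ℝ := (DZ w)⁻¹ / Real.log N with hq
  have hN0 : (0 : ℝ) < N := by exact_mod_cast (show 0 < N by omega)
  set Z : ℝ := q ^ M * (1 - q) ^ A with hZ
  have hZ0 : 0 < Z := mul_pos (pow_pos hq0 _) (pow_pos (by linarith) _)
  have hs : ∀ s ∈ Tup D (Icc 1 N), ∑ x ∈ Ty w M A s, PJ N w s x.1 x.2 ^ 2 / (QB N w s x.1 x.2 / PP w) ≤
      (PP w : ℝ) / N ^ 2 * (N / Z + ∑ x ∈ CP N N w, ∏ i, ph N w x.1 x.2 (s i)) := by
    intro s _
    rw [pairs]
    refine mul_le_mul_of_nonneg_left ?_ (by positivity)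
    have h1 : ∀ n ∈ Ioc N (2 * N), ∑ n' ∈ Ioc N (2 * N),
        (if key w s n' = key w s n ∧ key w s n ∈ Ty w M A s then
          (QB N w s (n % PP w) (pat s n))⁻¹ else 0) ≤
        1 / Z + ∑ n' ∈ (Ioc N (2 * N)).filter (fun n' => n ≠ n' ∧ n' % PP w = n % PP w),
          ∏ i, ph N w n n' (s i) := by
      intro n hn
      rw [← add_sum_erase _ _ hn]
      refine add_le_add ?_ ?_
      · split_ifs with hc
        · have ht := hc.2
          unfold Ty key at ht
          rw [mem_filter] at ht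
          rw [← one_div]
          exact one_div_le_one_div_of_le hZ0
            (QB_ge N w M A n s hw (mem_Ioc.1 hn).1 hq0 hq1 ht.2.1 ht.2.2)
        · positivity
      · have h2 : (Ioc N (2 * N)).filter (fun n' => n ≠ n' ∧ n' % PP w = n % PP w) ⊆
            (Ioc N (2 * N)).erase n := by
          intro n' hn'
          rw [mem_filter] at hn'
          rw [mem_erase]
          exact ⟨Ne.symm hn'.2.1, hn'.1⟩
        have hph : ∀ n', 0 ≤ ∏ i, ph N w n n' (s i) := fun n' =>
          prod_nonneg fun i _ => ph_nonneg N w n n' (s i) hq0 hq1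
        rw [sum_filter]
        refine (sum_le_sum fun n' hn' => ?_).trans (sum_le_sum_of_subset_of_nonneg
          (erase_subset n (Ioc N (2 * N))) fun n' _ _ => ?_)
        · rw [mem_erase] at hn'
          split_ifs with c1 c2 c2
          · have hk := c1.1
            unfold key at hk
            rw [Prod.mk.injEq] at hk
            exact (inv_QB N w n n' s hk.2).le
          · exfalso
            apply c2
            have hk := c1.1
            unfold key at hk
            rw [Prod.mk.injEq] at hk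
            exact ⟨Ne.symm hn'.1, hk.1⟩
          · exact hph n'
          · exact le_rfl
        · split_ifs
          · exact hph n'
          · exact le_rfl
    refine (sum_le_sum h1).trans (le_of_eq ?_)
    rw [sum_add_distrib, sum_const, Nat.card_Ioc, nsmul_eq_mul]
    congr 1
    · have : 2 * N - N = N := by omega
      rw [this]
      ring
    · unfold CP
      rw [← two_mul, sum_filter, sum_product]
      refine sum_congr rfl fun n _ => ?_
      rw [sum_filter]
  refine (sum_le_sum hs).trans (le_of_eq ?_)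
  rw [← mul_sum, sum_add_distrib, sum_const, sum_comm]
  have hT : ∀ x ∈ CP N N w, ∑ s ∈ Tup D (Icc 1 N), ∏ i, ph N w x.1 x.2 (s i) =
      (∑ m ∈ Icc 1 N, ph N w x.1 x.2 m) ^ D := by
    intro x _
    unfold Tup
    rw [← Finset.prod_univ_sum (t := fun _ : Fin D => Icc 1 N) (f := fun _ m => ph N w x.1 x.2 m),
      prod_const, card_univ, Fintype.card_fin]
  rw [sum_congr rfl hT]
  have hcard : ((Tup D (Icc 1 N)).card : ℝ) = (N : ℝ) ^ D := by
    unfold Tup
    rw [Fintype.card_piFinset_const, Nat.card_Icc, Nat.add_sub_cancel]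
    push_cast
    ring
  rw [nsmul_eq_mul, hcard]
  field_simp
  ring

end Pool.Agent.Lib.LEN
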