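import Pool.Agent.Lib.LEN.TVPair
import Pool.Agent.Lib.LEN.TVChi
import Pool.Agent.Lib.LEN.TVAbs
import Pool.Agent.Lib.LEN.TVTyp

/-!
# LEN.TVMain: the Cramér–Granville model in total variation below the threshold
-/

set_option autoImplicit false

open Finset Filter

namespace Pool.Agent.Lib.LEN

open Pool.Agent.HLB Pool.Agent.HLT Pool.Agent.HLR Pool.Agent.Lib.GMV

namespace TVMainAux

open TVChiAux

lemma sum_QB (N w b : ℕ) {D : ℕ} (s : Fin D → ℕ) : ∑ T : Finset (Fin D), QB N w s b T = 1 := by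
  unfold QB
  have h := Finset.prod_add (fun i : Fin D => qq N w b (s i)) (fun i => 1 - qq N w b (s i)) univ
  have h1 : ∏ i : Fin D, (qq N w b (s i) + (1 - qq N w b (s i))) = 1 :=
    prod_eq_one fun i _ => by ring
  rw [h1, powerset_univ] at h
  refine Eq.trans ?_ h.symm
  refine sum_congr rfl fun T _ => ?_
  rw [prod_ite]
  congr 1
  · refine prod_congr ?_ fun _ _ => rfl
    ext i
    simp
  · refine prod_congr ?_ fun _ _ => rfl
    ext i
    simp

lemma PJ_nonneg (N w b : ℕ) {D : ℕ} (s : Fin D → ℕ) (T : Finset (Fin D)) : 0 ≤ PJ N w s b T := by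
  unfold PJ
  positivity

lemma sum_PJ_T {N w b : ℕ} (hb : b < PP w) {D : ℕ} (s : Fin D → ℕ) :
    ∑ T : Finset (Fin D), PJ N w s b T =
      (((Ioc N (2 * N)).filter fun n => n % PP w = b).card : ℝ) / N := by
  unfold PJ
  rw [← sum_div]
  congr 1
  have h := card_eq_sum_card_fiberwise (s := (Ioc N (2 * N)).filter fun n => n % PP w = b)
    (t := (univ : Finset (Finset (Fin D)))) (f := fun n => pat s n) (fun n _ => mem_univ _)
  rw [h]
  push_cast
  refine sum_congr rfl fun T _ => ?_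
  rw [filter_filter]

lemma sum_PJ_b (N w : ℕ) {D : ℕ} (s : Fin D → ℕ) (T : Finset (Fin D)) :
    ∑ b ∈ range (PP w), PJ N w s b T = PT N s T := by
  unfold PJ PT
  rw [← sum_div]
  congr 1
  have h := card_eq_sum_card_fiberwise (s := (Ioc N (2 * N)).filter fun n => pat s n = T)
    (t := range (PP w)) (f := fun n => n % PP w)
    (fun n _ => mem_coe.2 (mem_range.2 (Nat.mod_lt _ (Cls0.PP_pos w))))
  rw [h]
  push_cast
  refine sum_congr rfl fun b _ => ?_
  rw [filter_filter]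
  congr 2
  refine filter_congr fun n _ => ?_
  exact and_comm

lemma sum_PT {N : ℕ} (hN : 1 ≤ N) {D : ℕ} (s : Fin D → ℕ) : ∑ T : Finset (Fin D), PT N s T = 1 := by
  unfold PT
  rw [← sum_div]
  have h := card_eq_sum_card_fiberwise (s := Ioc N (2 * N))
    (t := (univ : Finset (Finset (Fin D)))) (f := fun n => pat s n) (fun n _ => mem_univ _)
  have h1 : (∑ T : Finset (Fin D), (((Ioc N (2 * N)).filter fun n => pat s n = T).card : ℝ)) = N := by
    have h2 : (((Ioc N (2 * N)).card : ℕ) : ℝ) = N := by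
      rw [Nat.card_Ioc]
      congr 1
      omega
    rw [h] at h2
    push_cast at h2
    exact h2
  rw [h1]
  have : (N : ℝ) ≠ 0 := by exact_mod_cast (by omega : N ≠ 0)
  exact div_self this

lemma sum_QT (N w : ℕ) {D : ℕ} (s : Fin D → ℕ) : ∑ T : Finset (Fin D), QT N w s T = 1 := by
  unfold QT
  rw [← sum_div, sum_comm, sum_congr rfl fun b _ => sum_QB N w b s, sum_const, card_range,
    nsmul_eq_mul, mul_one]
  have : (PP w : ℝ) ≠ 0 := by exact_mod_cast (Cls0.PP_pos w).ne'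
  exact div_self this

/-- The joint distance dominates. -/
lemma TVd_le (N w : ℕ) {D : ℕ} (s : Fin D → ℕ) : TVd N w s ≤
    (∑ x ∈ range (PP w) ×ˢ (univ : Finset (Finset (Fin D))),
      |PJ N w s x.1 x.2 - QB N w s x.1 x.2 / PP w|) / 2 := by
  unfold TVd
  refine div_le_div_of_nonneg_right ?_ (by norm_num)
  rw [sum_product, sum_comm]
  refine sum_le_sum fun T _ => ?_
  have e : PT N s T - QT N w s T =
      ∑ b ∈ range (PP w), (PJ N w s b T - QB N w s b T / PP w) := by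
    rw [sum_sub_distrib, sum_PJ_b, ← sum_div]
    rfl
  rw [e]
  exact abs_sum_le_sum_abs _ _

lemma QB_pos_of_PJ {N w b : ℕ} {D : ℕ} {s : Fin D → ℕ} {T : Finset (Fin D)} (hw : w ≤ N)
    (hq0 : 0 < (DZ w)⁻¹ / Real.log N) (hq1 : (DZ w)⁻¹ / Real.log N < 1)
    (h : QB N w s b T = 0) : PJ N w s b T = 0 := by
  by_contra hne
  have h1 : ((Ioc N (2 * N)).filter fun n => n % PP w = b ∧ pat s n = T).Nonempty := by
    rw [nonempty_iff_ne_empty]
    intro h0
    apply hne
    unfold PJ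
    rw [h0]
    simp
  obtain ⟨n, hn⟩ := h1
  rw [mem_filter, mem_Ioc] at hn
  have h2 := QB_ge N w D D n s hw hn.1.1 hq0 hq1
    (by simpa using card_le_univ (pat s n)) (by simpa using card_le_univ (cop w s (n % PP w)))
  rw [hn.2.1, hn.2.2, h] at h2
  have h3 : 0 < ((DZ w)⁻¹ / Real.log N) ^ D * (1 - (DZ w)⁻¹ / Real.log N) ^ D :=
    mul_pos (pow_pos hq0 _) (pow_pos (by linarith) _)
  linarith

lemma cop_mod (w n : ℕ) {D : ℕ} (s : Fin D → ℕ) : cop w s (n % PP w) = cop w s n := by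
  unfold cop
  refine filter_congr fun i _ => ?_
  exact coprime_mod_iff w n (s i)

open scoped Classical in
/-- The mass of the typical set. -/
lemma mass (N w M A : ℕ) (hN : 1 ≤ N) {D : ℕ} (s : Fin D → ℕ) :
    1 - ∑ x ∈ Ty w M A s, PJ N w s x.1 x.2 =
      (((Ioc N (2 * N)).filter fun n => ¬ ((pat s n).card ≤ M ∧ (cop w s n).card ≤ A)).card : ℝ) / N := by
  have hN0 : (N : ℝ) ≠ 0 := by exact_mod_cast (by omega : N ≠ 0)
  have h1 : ∑ x ∈ Ty w M A s, PJ N w s x.1 x.2 =
      (((Ioc N (2 * N)).filter fun n => ((pat s n).card ≤ M ∧ (cop w s n).card ≤ A)).card : ℝ) / N := by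
    unfold PJ
    rw [← sum_div]
    congr 1
    have h := card_eq_sum_card_fiberwise
      (s := (Ioc N (2 * N)).filter fun n => ((pat s n).card ≤ M ∧ (cop w s n).card ≤ A))
      (t := Ty w M A s) (f := fun n => (n % PP w, pat s n)) (by
        intro n hn
        rw [mem_coe, mem_filter] at hn
        rw [mem_coe]
        unfold Ty
        rw [mem_filter, mem_product]
        refine ⟨⟨mem_range.2 (Nat.mod_lt _ (Cls0.PP_pos w)), mem_univ _⟩, hn.2.1, ?_⟩
        rw [cop_mod]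
        exact hn.2.2)
    rw [h]
    push_cast
    refine sum_congr rfl fun x hx => ?_
    rw [filter_filter]
    congr 2
    refine filter_congr fun n _ => ?_
    unfold Ty at hx
    rw [mem_filter] at hx
    rw [Prod.ext_iff]
    constructor
    · rintro ⟨h2, h3⟩
      refine ⟨?_, h2, h3⟩
      rw [h3]
      refine ⟨hx.2.1, ?_⟩
      rw [← cop_mod, h2]
      exact hx.2.2
    · rintro ⟨_, h2, h3⟩
      exact ⟨h2, h3⟩
  have h2 := card_filter_add_card_filter_not (s := Ioc N (2 * N))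
    (fun n => ((pat s n).card ≤ M ∧ (cop w s n).card ≤ A))
  have h3 : (((Ioc N (2 * N)).filter fun n => ((pat s n).card ≤ M ∧ (cop w s n).card ≤ A)).card : ℝ) +
      (((Ioc N (2 * N)).filter fun n => ¬ ((pat s n).card ≤ M ∧ (cop w s n).card ≤ A)).card : ℝ) = N := by
    have h4 : (Ioc N (2 * N)).card = N := by
      rw [Nat.card_Ioc]
      omega
    rw [h4] at h2
    exact_mod_cast h2
  rw [h1, eq_div_iff hN0, sub_mul, div_mul_cancel₀ _ hN0]
  linarith

open scoped Classical in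
/-- The diagonal term is small. -/
lemma diag_small (ε η : ℝ) (hε : 0 < ε) (hε1 : ε ≤ 1) (hη : 0 < η) : ∃ N0 : ℕ, ∀ N : ℕ, N0 ≤ N →
    ∀ w : ℕ, (w : ℝ) ≤ ε / 16 * Real.log N → (DZ w)⁻¹ / Real.log N ≤ 1 / 2 →
    (PP w : ℝ) / N * (1 / (((DZ w)⁻¹ / Real.log N) ^ (Mt ε N) *
      (1 - (DZ w)⁻¹ / Real.log N) ^ (At N w))) ≤ η := by
  have hlog : Tendsto (fun N : ℕ => Real.log (N:ℝ)) atTop atTop :=
    Real.tendsto_log_atTop.comp tendsto_natCast_atTop_atTop
  have hloglog : Tendsto (fun N : ℕ => Real.log (Real.log (N:ℝ))) atTop atTop :=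
    Real.tendsto_log_atTop.comp hlog
  have hexp : Tendsto (fun N : ℕ => Real.exp (-(ε / 8 * Real.log (N : ℝ)))) atTop (nhds 0) :=
    Real.tendsto_exp_neg_atTop_nhds_zero.comp (hlog.const_mul_atTop (by positivity))
  obtain ⟨N1, hN1⟩ := eventually_atTop.1 ((hloglog.eventually_ge_atTop (max 1 ((16 / ε) ^ 2))).and
    ((hlog.eventually_ge_atTop 3).and (hexp.eventually (gt_mem_nhds hη))))
  refine ⟨max N1 3, ?_⟩
  intro N hN w hw hq1
  obtain ⟨h1, h2, h3⟩ := hN1 N ((le_max_left _ _).trans hN)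
  have hN3 : 3 ≤ N := (le_max_right _ _).trans hN
  have hNr : (3 : ℝ) ≤ N := by exact_mod_cast hN3
  have hN0 : (0 : ℝ) < N := by linarith
  set L := Real.log N with hL
  have hL0 : 0 < L := by linarith
  have hLL1 : 1 ≤ Real.log L := (le_max_left _ _).trans h1
  have hLL2 : (16 / ε) ^ 2 ≤ Real.log L := (le_max_right _ _).trans h1
  set κ := (DZ w)⁻¹ with hκ
  have hD0 := DZ_pos w
  have hκ0 : 0 < κ := inv_pos.2 hD0
  have hκ1 : 1 ≤ κ := by
    rw [hκ]
    refine (one_le_inv₀ hD0).2 ?_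
    unfold DZ
    refine prod_le_one (fun p hp => ?_) fun p hp => ?_
    · have : (1 : ℝ) ≤ p := by exact_mod_cast (Nat.mem_primesLE.1 hp).2.one_lt.le
      have : 1 / (p : ℝ) ≤ 1 := by rw [div_le_one (by linarith)]; exact this
      linarith
    · have : 0 ≤ 1 / (p : ℝ) := by positivity
      linarith
  set q := κ / L with hq
  have hq0 : 0 < q := by positivity
  set M := Mt ε N with hM
  set A := At N w with hA
  -- the primes
  have hMr : (M : ℝ) ≤ (1 - ε / 2) * yy N := by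
    rw [hM]
    unfold Mt
    refine Nat.floor_le (mul_nonneg (by linarith) ?_)
    unfold yy
    rw [← hL]
    positivity
  have a1 : 1 / q ^ M ≤ Real.exp ((1 - ε / 2) * L) := by
    have b1 : 1 / q ≤ L := by
      rw [hq, one_div_div]
      exact div_le_self hL0.le hκ1
    calc 1 / q ^ M = (1 / q) ^ M := by rw [one_div_pow]
      _ ≤ L ^ M := pow_le_pow_left₀ (by positivity) b1 M
      _ = Real.exp (M * Real.log L) := by rw [Real.exp_nat_mul, Real.exp_log hL0]
      _ ≤ Real.exp ((1 - ε / 2) * L) := by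
          refine Real.exp_le_exp.2 ?_
          have b2 : yy N * Real.log L = L := by
            unfold yy
            rw [← hL]
            field_simp
          calc (M : ℝ) * Real.log L ≤ (1 - ε / 2) * yy N * Real.log L :=
                mul_le_mul_of_nonneg_right hMr (by linarith)
            _ = (1 - ε / 2) * (yy N * Real.log L) := by ring
            _ = (1 - ε / 2) * L := by rw [b2]
  -- the coprime entries
  have hsq : 16 / ε ≤ Real.sqrt (Real.log L) := Real.le_sqrt_of_sq_le hLL2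
  have hs0 : 0 < Real.sqrt (Real.log L) := Real.sqrt_pos.2 (by linarith)
  have hAr : (A : ℝ) ≤ L ^ 2 * DZ w / Real.sqrt (Real.log L) := by
    rw [hA]
    unfold At
    exact Nat.floor_le (by positivity)
  have a2 : 1 / (1 - q) ^ A ≤ Real.exp (ε / 8 * L) := by
    have h1q : 0 < 1 - q := by linarith
    have b1 : 1 / (1 - q) ≤ Real.exp (2 * q) := by
      have b2 : 1 / (1 - q) ≤ 1 + 2 * q := by
        rw [div_le_iff₀ h1q]
        nlinarith
      refine b2.trans ?_
      rw [add_comm]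
      exact Real.add_one_le_exp _
    calc 1 / (1 - q) ^ A = (1 / (1 - q)) ^ A := by rw [one_div_pow]
      _ ≤ Real.exp (2 * q) ^ A := pow_le_pow_left₀ (by positivity) b1 A
      _ = Real.exp (A * (2 * q)) := by rw [← Real.exp_nat_mul]
      _ ≤ Real.exp (ε / 8 * L) := by
          refine Real.exp_le_exp.2 ?_
          calc (A : ℝ) * (2 * q) ≤ L ^ 2 * DZ w / Real.sqrt (Real.log L) * (2 * q) :=
                mul_le_mul_of_nonneg_right hAr (by positivity)
            _ = 2 * L / Real.sqrt (Real.log L) := by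
                rw [hq, hκ]
                field_simp
            _ ≤ ε / 8 * L := by
                rw [div_le_iff₀ hs0]
                rw [div_le_iff₀ hε] at hsq
                nlinarith
  -- the modulus
  have a3 : (PP w : ℝ) ≤ Real.exp (ε / 8 * L) := by
    have b1 : (PP w : ℝ) ≤ 4 ^ w := by exact_mod_cast Cls0.PP_le w
    have b2 : (4 : ℝ) ≤ Real.exp 2 := by
      have := Real.exp_one_gt_d9
      have e : Real.exp 2 = Real.exp 1 * Real.exp 1 := by rw [← Real.exp_add]; norm_num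
      rw [e]
      nlinarith
    calc (PP w : ℝ) ≤ 4 ^ w := b1
      _ ≤ (Real.exp 2) ^ w := pow_le_pow_left₀ (by norm_num) b2 w
      _ = Real.exp (w * 2) := by rw [← Real.exp_nat_mul]
      _ ≤ Real.exp (ε / 8 * L) := Real.exp_le_exp.2 (by linarith)
  have hNe : (N : ℝ) = Real.exp L := (Real.exp_log hN0).symm
  have h1q : 0 < 1 - q := by linarith
  calc (PP w : ℝ) / N * (1 / (q ^ M * (1 - q) ^ A)) =
        (PP w : ℝ) * (1 / q ^ M) * (1 / (1 - q) ^ A) / N := by
        have : 0 < q ^ M := by positivity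
        have : 0 < (1 - q) ^ A := by positivity
        field_simp
    _ ≤ Real.exp (ε / 8 * L) * Real.exp ((1 - ε / 2) * L) * Real.exp (ε / 8 * L) / N := by
        refine div_le_div_of_nonneg_right ?_ hN0.le
        refine mul_le_mul (mul_le_mul a3 a1 (by positivity) (Real.exp_pos _).le) a2 (by positivity)
          (by positivity)
    _ = Real.exp (-(ε / 4 * L)) := by
        rw [hNe, div_eq_mul_inv, ← Real.exp_neg, ← Real.exp_add, ← Real.exp_add, ← Real.exp_add]
        congr 1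
        ring
    _ ≤ Real.exp (-(ε / 8 * L)) := by
        refine Real.exp_le_exp.2 ?_
        have : 0 ≤ ε / 8 * L := by positivity
        linarith
    _ ≤ η := h3.le

end TVMainAux

open TVMainAux

open scoped Classical in
/-- Part (3) for `ε ≤ 1/2`. -/
lemma tv_three' (C1 cA : ℝ) (hL : LevS C1 cA) : ∃ cw C0 : ℝ, 0 < cw ∧
    ∀ C2 cB : ℝ, C0 ≤ C2 → 0 < cB → ∀ ε : ℝ, 0 < ε → ε ≤ 1 / 2 → ∃ N0 : ℕ, ∀ N : ℕ, N0 ≤ N →
    GoodX cA C1 cB C2 N → ∀ D : ℕ,
    (D : ℝ) ≤ (1 - ε) * (Real.log N ^ 2 / Real.log (Real.log N)) →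
      (((Tup D (Icc 1 N)).filter (fun s => ε < TVd N ⌊cw * yy N⌋₊ s)).card : ℝ) ≤
        ε * (N : ℝ) ^ D := by
  obtain ⟨cw, C0, hcw, hpair⟩ := tv_pair C1 cA hL
  refine ⟨cw, C0, hcw, ?_⟩
  intro C2 cB hC2 hcB ε hε hε2
  set η := ε ^ 3 / 64 with hη
  have hη0 : 0 < η := by positivity
  obtain ⟨N1, hN1⟩ := hpair C2 cB hC2 hcB (ε / 16) η (by positivity) hη0
  obtain ⟨N2, hN2⟩ := tv_typ ε hε (by linarith) η hη0
  obtain ⟨N3, hN3⟩ := diag_small ε η hε (by linarith) hη0
  have hlog : Tendsto (fun N : ℕ => Real.log (N:ℝ)) atTop atTop :=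
    Real.tendsto_log_atTop.comp tendsto_natCast_atTop_atTop
  obtain ⟨N4, hN4⟩ := eventually_atTop.1 (hlog.eventually_ge_atTop 3)
  refine ⟨max (max N1 N2) (max N3 (max N4 3)), ?_⟩
  intro N hN hG D hD
  have g1 : N1 ≤ N := ((le_max_left _ _).trans (le_max_left _ _)).trans hN
  have g2 : N2 ≤ N := ((le_max_right _ _).trans (le_max_left _ _)).trans hN
  have g3 : N3 ≤ N := ((le_max_left _ _).trans (le_max_right _ _)).trans hN
  have g4 : N4 ≤ N := ((le_max_left _ _).trans ((le_max_right _ _).trans (le_max_right _ _))).trans hN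
  have g5 : 3 ≤ N := ((le_max_right _ _).trans ((le_max_right _ _).trans (le_max_right _ _))).trans hN
  set w := ⌊cw * yy N⌋₊ with hw
  obtain ⟨k1, k2, k3, k4, _, k6, k7⟩ := hN1 N g1 hG w rfl
  have hL3 : 3 ≤ Real.log N := hN4 N g4
  have hNr : (3 : ℝ) ≤ N := by exact_mod_cast g5
  have hN0 : (0 : ℝ) < N := by linarith
  set L := Real.log N with hLd
  have hL0 : 0 < L := by linarith
  have hX0 : 0 ≤ L ^ 2 / Real.log L := div_nonneg (by positivity) (Real.log_nonneg (by linarith))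
  have hD' : (D : ℝ) ≤ (1 - ε / 16) * (L ^ 2 / Real.log L) := by
    refine hD.trans (mul_le_mul_of_nonneg_right (by linarith) hX0)
  have hκ0 : 0 < (DZ w)⁻¹ := inv_pos.2 (DZ_pos w)
  have hq0 : 0 < (DZ w)⁻¹ / L := by positivity
  have hq1 : (DZ w)⁻¹ / L < 1 := by linarith
  have hPN : PP w ≤ N := by
    have h1 : PP w ≤ (PP w) ^ 2 := Nat.le_self_pow (by norm_num) _
    exact h1.trans k2
  set M := Mt ε N with hM
  set A := At N w with hA
  have hchi := tv_chi N w D M A (by omega) k3 hq0 hq1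
  have hpr := k7 D hD'
  have hdg := hN3 N g3 w k6 k4
  have htyp := hN2 N g2 w hPN D hD
  set H := Tup D (Icc 1 N) with hH
  have hHc : (H.card : ℝ) = (N : ℝ) ^ D := by
    rw [hH]
    unfold Tup
    rw [Fintype.card_piFinset_const, Nat.card_Icc, Nat.add_sub_cancel]
    push_cast
    ring
  have hND : (0 : ℝ) < (N : ℝ) ^ D := by positivity
  set X2 : (Fin D → ℕ) → ℝ := fun s =>
    ∑ x ∈ Ty w M A s, PJ N w s x.1 x.2 ^ 2 / (QB N w s x.1 x.2 / PP w) with hX2
  set Ps : (Fin D → ℕ) → ℝ := fun s => ∑ x ∈ Ty w M A s, PJ N w s x.1 x.2 with hPs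
  have hsumX : ∑ s ∈ H, X2 s ≤ (1 + 2 * η) * (N : ℝ) ^ D := by
    have h1 : (PP w : ℝ) / N * ((N : ℝ) ^ D /
        (((DZ w)⁻¹ / L) ^ M * (1 - (DZ w)⁻¹ / L) ^ A)) ≤ η * (N : ℝ) ^ D := by
      calc (PP w : ℝ) / N * ((N : ℝ) ^ D / (((DZ w)⁻¹ / L) ^ M * (1 - (DZ w)⁻¹ / L) ^ A)) =
            ((PP w : ℝ) / N * (1 / (((DZ w)⁻¹ / L) ^ M * (1 - (DZ w)⁻¹ / L) ^ A))) * (N : ℝ) ^ D := by
            ring
        _ ≤ η * (N : ℝ) ^ D := mul_le_mul_of_nonneg_right hdg hND.le
    calc ∑ s ∈ H, X2 s ≤ _ := hchi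
      _ ≤ (1 + η) * (N : ℝ) ^ D + η * (N : ℝ) ^ D := add_le_add hpr h1
      _ = (1 + 2 * η) * (N : ℝ) ^ D := by ring
  have hsumP : ∑ s ∈ H, (1 - Ps s) ≤ η * (N : ℝ) ^ D := by
    have h1 : ∀ s ∈ H, 1 - Ps s = (∑ n ∈ Ioc N (2 * N),
        if ¬ ((pat s n).card ≤ M ∧ (cop w s n).card ≤ A) then (1 : ℝ) else 0) / N := by
      intro s _
      rw [hPs]
      simp only
      rw [mass N w M A (by omega) s, sum_boole]
    rw [sum_congr rfl h1, ← sum_div, sum_comm, div_le_iff₀ hN0]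
    have h2 : ∀ n ∈ Ioc N (2 * N), ∑ s ∈ H,
        (if ¬ ((pat s n).card ≤ M ∧ (cop w s n).card ≤ A) then (1 : ℝ) else 0) ≤ η * (N : ℝ) ^ D := by
      intro n hn
      rw [sum_boole]
      exact htyp n hn
    refine (sum_le_sum h2).trans (le_of_eq ?_)
    rw [sum_const, Nat.card_Ioc, nsmul_eq_mul]
    have : 2 * N - N = N := by omega
    rw [this]
    ring
  -- the distance for one `s`
  have hone : ∀ s, 0 ≤ X2 s - 2 * Ps s + 1 ∧
      TVd N w s ≤ Real.sqrt (X2 s - 2 * Ps s + 1) + (1 - Ps s) := by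
    intro s
    have hPP0 : (0 : ℝ) < PP w := by exact_mod_cast Cls0.PP_pos w
    have h1 := tv_abs (range (PP w) ×ˢ (univ : Finset (Finset (Fin D)))) (Ty w M A s)
      (filter_subset _ _) (fun x => PJ N w s x.1 x.2) (fun x => QB N w s x.1 x.2 / PP w)
      (fun x _ => PJ_nonneg N w x.1 s x.2)
      (fun x _ => div_nonneg (TVChiAux.QB_nonneg N w x.1 s x.2 hq0 hq1) hPP0.le)
      (by
        rw [sum_product, sum_comm]
        simp only
        rw [sum_congr rfl fun T _ => sum_PJ_b N w s T]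
        exact sum_PT (by omega) s)
      (by
        rw [sum_product]
        simp only
        rw [sum_congr rfl fun b _ => (sum_div univ (fun T => QB N w s b T) (PP w : ℝ)).symm,
          sum_congr rfl fun b _ => by rw [sum_QB N w b s], sum_const, card_range, nsmul_eq_mul]
        field_simp)
      (by
        intro x _ hx
        have hx' : QB N w s x.1 x.2 = 0 := by
          rcases div_eq_zero_iff.1 hx with h | h
          · exact h
          · exact absurd h hPP0.ne'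
        exact QB_pos_of_PJ k3 hq0 hq1 hx')
    exact ⟨h1.1, (TVd_le N w s).trans h1.2⟩
  have hPs1 : ∀ s, 0 ≤ 1 - Ps s := by
    intro s
    rw [hPs]
    simp only
    rw [mass N w M A (by omega) s]
    positivity
  have hsumZ : ∑ s ∈ H, (X2 s - 2 * Ps s + 1) ≤ 4 * η * (N : ℝ) ^ D := by
    have e : ∑ s ∈ H, (X2 s - 2 * Ps s + 1) = ∑ s ∈ H, X2 s - (N : ℝ) ^ D + 2 * ∑ s ∈ H, (1 - Ps s) := by
      rw [← hHc, sum_add_distrib, sum_sub_distrib, ← mul_sum, sum_sub_distrib, sum_const, nsmul_eq_mul,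
        mul_one]
      ring
    rw [e]
    linarith
  -- Markov
  have hM1 : ((H.filter fun s => (ε / 2) ^ 2 < X2 s - 2 * Ps s + 1).card : ℝ) * (ε / 2) ^ 2 ≤
      4 * η * (N : ℝ) ^ D := by
    refine le_trans ?_ hsumZ
    rw [← nsmul_eq_mul, ← sum_const]
    refine (sum_le_sum (f := fun _ => (ε / 2) ^ 2) (g := fun s => X2 s - 2 * Ps s + 1)
      fun s hs => (mem_filter.1 hs).2.le).trans ?_
    exact sum_le_sum_of_subset_of_nonneg (filter_subset _ _) fun s _ _ => (hone s).1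
  have hM2 : ((H.filter fun s => ε / 2 < 1 - Ps s).card : ℝ) * (ε / 2) ≤ η * (N : ℝ) ^ D := by
    refine le_trans ?_ hsumP
    rw [← nsmul_eq_mul, ← sum_const]
    refine (sum_le_sum (f := fun _ => ε / 2) (g := fun s => 1 - Ps s)
      fun s hs => (mem_filter.1 hs).2.le).trans ?_
    exact sum_le_sum_of_subset_of_nonneg (filter_subset _ _) fun s _ _ => hPs1 s
  have hsub : H.filter (fun s => ε < TVd N w s) ⊆
      (H.filter fun s => (ε / 2) ^ 2 < X2 s - 2 * Ps s + 1) ∪ H.filter fun s => ε / 2 < 1 - Ps s := by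
    intro s hs
    rw [mem_filter] at hs
    rw [mem_union, mem_filter, mem_filter]
    by_contra hcon
    push Not at hcon
    have h1 := hcon.1 hs.1
    have h2 := hcon.2 hs.1
    have h3 := (hone s).2
    have h4 : Real.sqrt (X2 s - 2 * Ps s + 1) ≤ ε / 2 := by
      rw [Real.sqrt_le_left (by positivity)]
      exact h1
    have h5 := hs.2
    linarith
  have hcard : ((H.filter (fun s => ε < TVd N w s)).card : ℝ) ≤
      ((H.filter fun s => (ε / 2) ^ 2 < X2 s - 2 * Ps s + 1).card : ℝ) +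
      ((H.filter fun s => ε / 2 < 1 - Ps s).card : ℝ) := by
    exact_mod_cast (card_le_card hsub).trans (card_union_le _ _)
  have hA1 : ((H.filter fun s => (ε / 2) ^ 2 < X2 s - 2 * Ps s + 1).card : ℝ) ≤
      ε / 4 * (N : ℝ) ^ D := by
    have hp : 0 < (ε / 2) ^ 2 := by positivity
    refine le_of_mul_le_mul_right (hM1.trans (le_of_eq ?_)) hp
    rw [hη]
    ring
  have hA2 : ((H.filter fun s => ε / 2 < 1 - Ps s).card : ℝ) ≤ ε / 2 * (N : ℝ) ^ D := by
    have hp : 0 < ε / 2 := by positivity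
    refine le_of_mul_le_mul_right (hM2.trans ?_) hp
    have : η ≤ ε / 2 * (ε / 2) := by
      rw [hη]
      nlinarith [sq_nonneg ε]
    calc η * (N : ℝ) ^ D ≤ ε / 2 * (ε / 2) * (N : ℝ) ^ D := mul_le_mul_of_nonneg_right this hND.le
      _ = ε / 2 * (N : ℝ) ^ D * (ε / 2) := by ring
  calc ((H.filter (fun s => ε < TVd N w s)).card : ℝ) ≤ ε / 4 * (N : ℝ) ^ D + ε / 2 * (N : ℝ) ^ D := by
        linarith
    _ ≤ ε * (N : ℝ) ^ D := by nlinarith

open scoped Classical in
/-- Part (3): below the threshold the law of the primes in the translates of a random set is that of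
Granville's model. -/
theorem tv_three (C1 cA : ℝ) (hL : LevS C1 cA) : ∃ cw C0 : ℝ, 0 < cw ∧
    ∀ C2 cB : ℝ, C0 ≤ C2 → 0 < cB → ∀ ε : ℝ, 0 < ε → ∃ N0 : ℕ, ∀ N : ℕ, N0 ≤ N →
    GoodX cA C1 cB C2 N → ∀ D : ℕ,
    (D : ℝ) ≤ (1 - ε) * (Real.log N ^ 2 / Real.log (Real.log N)) →
      (((Tup D (Icc 1 N)).filter (fun s => ε < TVd N ⌊cw * yy N⌋₊ s)).card : ℝ) ≤
        ε * (N : ℝ) ^ D := by
  obtain ⟨cw, C0, hcw, h⟩ := tv_three' C1 cA hL
  refine ⟨cw, C0, hcw, fun C2 cB hC2 hcB ε hε => ?_⟩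
  obtain ⟨N1, hN1⟩ := h C2 cB hC2 hcB (min ε (1 / 2)) (by positivity) (min_le_right _ _)
  have hlog : Tendsto (fun N : ℕ => Real.log (N:ℝ)) atTop atTop :=
    Real.tendsto_log_atTop.comp tendsto_natCast_atTop_atTop
  obtain ⟨N4, hN4⟩ := eventually_atTop.1 (hlog.eventually_ge_atTop 3)
  refine ⟨max N1 N4, fun N hN hG D hD => ?_⟩
  have hL3 : 3 ≤ Real.log N := hN4 N ((le_max_right _ _).trans hN)
  have hX0 : 0 ≤ Real.log N ^ 2 / Real.log (Real.log N) :=
    div_nonneg (by positivity) (Real.log_nonneg (by linarith))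
  have h1 := hN1 N ((le_max_left _ _).trans hN) hG D
    (hD.trans (mul_le_mul_of_nonneg_right (by linarith [min_le_left ε (1 / 2)]) hX0))
  have h2 : (((Tup D (Icc 1 N)).filter (fun s => ε < TVd N ⌊cw * yy N⌋₊ s)).card : ℝ) ≤
      (((Tup D (Icc 1 N)).filter (fun s => min ε (1 / 2) < TVd N ⌊cw * yy N⌋₊ s)).card : ℝ) := by
    have : (Tup D (Icc 1 N)).filter (fun s => ε < TVd N ⌊cw * yy N⌋₊ s) ⊆
        (Tup D (Icc 1 N)).filter (fun s => min ε (1 / 2) < TVd N ⌊cw * yy N⌋₊ s) := by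
      intro s hs
      rw [mem_filter] at hs ⊢
      exact ⟨hs.1, (min_le_left _ _).trans_lt hs.2⟩
    exact_mod_cast card_le_card this
  refine (h2.trans h1).trans (mul_le_mul_of_nonneg_right (min_le_left _ _) (by positivity))

end Pool.Agent.Lib.LEN
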