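import Pool.Agent.Lib.LEN.JClassA
import Pool.Agent.Lib.LEN.JOne
import Pool.Agent.Lib.LEN.JPair
import Pool.Agent.Lib.LEN.JTyp
import Pool.Agent.Lib.LEN.TVMain

/-!
# LEN.JClass: the mean distance in all but few classes
-/

set_option autoImplicit false

open Finset Filter

namespace Pool.Agent.Lib.LEN

open Pool.Agent.HLB Pool.Agent.HLT Pool.Agent.HLR Pool.Agent.Lib.GMV

namespace JClassAux

/-- the diagonal term, with `r` given primes -/
lemma diag_small_r (ε η : ℝ) (hε : 0 < ε) (hε1 : ε ≤ 1) (hη : 0 < η) : ∃ N0 : ℕ, ∀ N : ℕ, N0 ≤ N →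
    ∀ w : ℕ, (w : ℝ) ≤ ε / 16 * Real.log N → (DZ w)⁻¹ / Real.log N ≤ 1 / 2 →
    0 < (DZ w)⁻¹ / Real.log N → ∀ r : ℕ, (r : ℝ) ≤ (1 - ε / 2) * yy N →
    (PP w : ℝ) / N * (1 / (((DZ w)⁻¹ / Real.log N) ^ (r + MJ ε N r) *
      (1 - (DZ w)⁻¹ / Real.log N) ^ (At N w))) ≤ η := by
  obtain ⟨N0, hN0⟩ := TVMainAux.diag_small ε η hε hε1 hη
  refine ⟨N0, fun N hN w hw hq hq0 r hr => ?_⟩
  refine le_trans ?_ (hN0 N hN w hw hq)
  have h1 : r + MJ ε N r ≤ Mt ε N := by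
    unfold MJ Mt
    rw [Nat.floor_sub_natCast]
    have h2 : r ≤ ⌊(1 - ε / 2) * yy N⌋₊ := Nat.le_floor hr
    omega
  have hq1 : 0 < 1 - (DZ w)⁻¹ / Real.log N := by linarith
  refine mul_le_mul_of_nonneg_left ?_ (by positivity)
  refine one_div_le_one_div_of_le (by positivity) ?_
  refine mul_le_mul_of_nonneg_right ?_ (by positivity)
  exact pow_le_pow_of_le_one hq0.le (by linarith) h1

lemma AC_adm {w r : ℕ} {a : Fin r → ℕ} (ha : a ∈ AC w r) : 1 ≤ nA w a := by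
  unfold AC at ha
  rw [mem_filter] at ha
  exact (nA_pos w a).2 ha.2

/-- `r = 0`: the expected number is `N` -/
lemma one_zero (N w : ℕ) (a : Fin 0 → ℕ) :
    ∑ h ∈ Hc N w a, (cnt N h : ℝ) - lam N w a * (Hc N w a).card = 0 := by
  classical
  have h1 : ∀ h : Fin 0 → ℕ, cnt N h = N := by
    intro h
    unfold cnt
    rw [filter_true_of_mem (fun n _ => fun i => i.elim0), Nat.card_Ioc]
    omega
  have h2 : nA w a = PP w := by
    unfold nA
    rw [filter_true_of_mem, card_range]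
    intro n _ i
    exact i.elim0
  have hP : (PP w : ℝ) ≠ 0 := by exact_mod_cast (Cls0.PP_pos w).ne'
  have h3 : lam N w a = N := by
    unfold lam MM
    rw [h2, pow_zero, pow_zero]
    field_simp
  rw [h3, sum_congr rfl (fun h _ => by rw [h1 h]), sum_const, nsmul_eq_mul]
  ring

end JClassAux

open JClassAux

open scoped Classical in
/-- The mean distance in a class. -/
theorem j_class (C1 cA : ℝ) (h1 : 0 < C1) (hA : 0 < cA) (cw d B' : ℝ) (hcw : 0 < cw) (hd : 0 < d)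
    (hB' : 1 ≤ B') (hI : LevI C1 cA 2 cw d B') : ∃ C0 : ℝ, ∀ C2 cB : ℝ, C0 ≤ C2 → 0 < cB →
    ∀ ε η : ℝ, 0 < ε → ε < 1 → 0 < η → ∃ N0 : ℕ, ∀ N : ℕ, N0 ≤ N → GoodX cA C1 cB C2 N →
    ∀ w : ℕ, w = ⌊cw * yy N⌋₊ → ∀ r D : ℕ, (r : ℝ) + D / Real.log N ≤ (1 - ε) * yy N →
    ∃ Bc : Finset (Fin r → ℕ), (Bc.card : ℝ) ≤ η * (AC w r).card ∧ ∀ a ∈ AC w r, a ∉ Bc →
      ∑ h ∈ Hc N w a, ∑ s ∈ Tup D (Icc 1 N), DC N w h s ≤
        η * (lam N w a * ((Hc N w a).card * (N : ℝ) ^ D)) := by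
  obtain ⟨Ca, hCa⟩ := j_one C1 cA h1 hA cw d B' hcw hd hB' hI
  obtain ⟨Cb, hCb⟩ := j_pair C1 cA cw d B' hcw hd hB' hI
  refine ⟨max Ca Cb, fun C2 cB hC2 hcB ε η hε hε1 hη => ?_⟩
  -- the small constant
  set δ : ℝ := min (min 1 (η / 2)) ((η / 11) ^ 2) with hδ
  have hδ0 : 0 < δ := by positivity
  have hδ1 : δ ≤ 1 := (min_le_left _ _).trans (min_le_left _ _)
  have hδ2 : δ ≤ η / 2 := (min_le_left _ _).trans (min_le_right _ _)
  have hδ3 : δ ≤ (η / 11) ^ 2 := min_le_right _ _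
  have hsq : Real.sqrt δ ≤ η / 11 := by
    rw [Real.sqrt_le_left (by positivity)]
    exact hδ3
  have hδs : δ ≤ Real.sqrt δ := by
    refine Real.le_sqrt_of_sq_le ?_
    nlinarith
  have hfin : 6 * Real.sqrt δ + 5 * δ ≤ η := by linarith
  obtain ⟨Na, hNa⟩ := hCa C2 cB ((le_max_left _ _).trans hC2) hcB δ hδ0
  obtain ⟨Nb, hNb⟩ := hCb C2 cB ((le_max_right _ _).trans hC2) hcB ε δ hε hδ0
  obtain ⟨Nc, hNc⟩ := j_typ ε hε hε1 δ hδ0
  obtain ⟨Nd, hNd⟩ := diag_small_r ε δ hε hε1.le hδ0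
  have hlog : Tendsto (fun N : ℕ => Real.log (N:ℝ)) atTop atTop :=
    Real.tendsto_log_atTop.comp tendsto_natCast_atTop_atTop
  obtain ⟨Ne, hNe⟩ := eventually_atTop.1 (hlog.eventually_ge_atTop 3)
  refine ⟨max (max Na Nb) (max (max Nc Nd) (max Ne 2)), ?_⟩
  intro N hN hG w hw r D hrD
  have g1 : Na ≤ N := ((le_max_left _ _).trans (le_max_left _ _)).trans hN
  have g2 : Nb ≤ N := ((le_max_right _ _).trans (le_max_left _ _)).trans hN
  have g3 : Nc ≤ N := (((le_max_left _ _).trans (le_max_left _ _)).trans (le_max_right _ _)).trans hN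
  have g4 : Nd ≤ N := (((le_max_right _ _).trans (le_max_left _ _)).trans (le_max_right _ _)).trans hN
  have g5 : Ne ≤ N := (((le_max_left _ _).trans (le_max_right _ _)).trans (le_max_right _ _)).trans hN
  have g6 : 2 ≤ N := (((le_max_right _ _).trans (le_max_right _ _)).trans (le_max_right _ _)).trans hN
  have hL3 : 3 ≤ Real.log N := hNe N g5
  have hL0 : 0 < Real.log N := by linarith
  have hLL : 0 ≤ Real.log (Real.log N) := Real.log_nonneg (by linarith)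
  have hyy : 0 ≤ yy N := by
    unfold yy
    positivity
  obtain ⟨⟨k1, k2, k3, k4, k5⟩, k6⟩ := hNb N g2 hG w hw
  obtain ⟨Bp, hBp, hpair⟩ := k6 r D hrD
  have hD0 : (0 : ℝ) ≤ D / Real.log N := by positivity
  have hr1 : (r : ℝ) ≤ (1 - ε) * yy N := by linarith
  have hr2 : (r : ℝ) ≤ 2 * yy N := hr1.trans (mul_le_mul_of_nonneg_right (by linarith) hyy)
  have hr3 : (r : ℝ) ≤ (1 - ε / 2) * yy N :=
    hr1.trans (mul_le_mul_of_nonneg_right (by linarith) hyy)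
  have hκ0 : 0 < (DZ w)⁻¹ := inv_pos.2 (DZ_pos w)
  have hq0 : 0 < (DZ w)⁻¹ / Real.log N := by positivity
  have hq1 : (DZ w)⁻¹ / Real.log N < 1 := by linarith
  have hPN : PP w ≤ N := (Nat.le_self_pow (by norm_num) _).trans k2
  have htyp := hNc N g3 w hPN r D hrD
  have hdg := hNd N g4 w k5 k4 hq0 r hr3
  -- the first moment, also for `r = 0`
  have hfirst : ∃ Bo : Finset (Fin r → ℕ), (Bo.card : ℝ) ≤ δ * (AC w r).card ∧
      ∀ a ∈ AC w r, a ∉ Bo → |∑ h ∈ Hc N w a, (cnt N h : ℝ) - lam N w a * (Hc N w a).card| ≤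
        δ * (lam N w a * (Hc N w a).card) := by
    rcases Nat.eq_zero_or_pos r with h0 | hpos
    · subst h0
      refine ⟨∅, ?_, fun a _ _ => ?_⟩
      · rw [card_empty, Nat.cast_zero]
        positivity
      · rw [one_zero, abs_zero]
        have : 0 ≤ lam N w a := by
          unfold lam MM
          positivity
        positivity
    · exact hNa N g1 hG w hw r hpos hr2
  obtain ⟨Bo, hBo, hone⟩ := hfirst
  refine ⟨Bo ∪ Bp, ?_, fun a ha haB => ?_⟩
  · have e1 : ((Bo ∪ Bp).card : ℝ) ≤ Bo.card + Bp.card := by exact_mod_cast card_union_le _ _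
    have e2 : δ * ((AC w r).card : ℝ) ≤ η / 2 * (AC w r).card :=
      mul_le_mul_of_nonneg_right hδ2 (Nat.cast_nonneg _)
    linarith
  · rw [mem_union, not_or] at haB
    have hnA := AC_adm ha
    have hmain := j_class_one N w r D (MJ ε N r) (At N w) δ hδ0.le hδ1 g6 k3 hq0 hq1 a hnA
      (hone a ha haB.1) (hpair a ha haB.2) htyp hdg
    refine hmain.trans (mul_le_mul_of_nonneg_right hfin ?_)
    have : 0 ≤ lam N w a := by
      unfold lam MM
      positivity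
    positivity

end Pool.Agent.Lib.LEN
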