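import Pool.Agent.Lib.LEN.JDist
import Pool.Agent.Lib.LEN.JAbs
import Pool.Agent.Lib.LEN.JChi

/-!
# LEN.JClassA: the mean distance in a class from the three inputs
-/

set_option autoImplicit false

open Finset Filter

namespace Pool.Agent.Lib.LEN

open Pool.Agent.HLB Pool.Agent.HLT Pool.Agent.HLR Pool.Agent.Lib.GMV

namespace JClassA

open JDistAux TVMainAux TVChiAux

lemma good_of_mem {N w : ℕ} (hw : w ≤ N) {r : ℕ} {h : Fin r → ℕ} {n : ℕ} (hn : n ∈ Sh N h) :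
    Good w h n := by
  unfold Sh at hn
  rw [mem_filter, mem_Ioc] at hn
  intro i
  have hp := hn.2 i
  rw [Nat.Prime.coprime_iff_not_dvd hp]
  intro hd
  unfold PP at hd
  rw [Prime.dvd_finsetProd_iff hp.prime] at hd
  obtain ⟨p, hp1, hp2⟩ := hd
  rw [Nat.mem_primesLE] at hp1
  have h1 := Nat.le_of_dvd hp1.2.pos hp2
  omega

lemma good_mod (w : ℕ) {r : ℕ} (h : Fin r → ℕ) (n : ℕ) : Good w h (n % PP w) ↔ Good w h n := by
  unfold Good
  refine forall_congr' fun i => ?_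
  exact coprime_mod_iff w n (h i)

/-- The key of an `n` with all `n + h i` prime is a good class. -/
lemma kc_eq_zero_of_not_good {N w : ℕ} (hw : w ≤ N) {r D : ℕ} {h : Fin r → ℕ} (s : Fin D → ℕ)
    (b : ℕ) (T : Finset (Fin D)) (hb : ¬ Good w h b) : kc w (Sh N h) s b T = 0 := by
  unfold kc
  rw [card_eq_zero, filter_eq_empty_iff]
  rintro n hn ⟨h1, _⟩
  apply hb
  rw [← h1, good_mod]
  exact good_of_mem hw hn

lemma kc_eq_zero_of_QB {N w b : ℕ} {D : ℕ} {s : Fin D → ℕ} {T : Finset (Fin D)} {S : Finset ℕ}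
    (hS : S ⊆ Ioc N (2 * N)) (hw : w ≤ N)
    (hq0 : 0 < (DZ w)⁻¹ / Real.log N) (hq1 : (DZ w)⁻¹ / Real.log N < 1)
    (h : QB N w s b T = 0) : kc w S s b T = 0 := by
  by_contra hne
  have h1 : (S.filter fun n => n % PP w = b ∧ pat s n = T).Nonempty := by
    rw [nonempty_iff_ne_empty]
    intro h0
    apply hne
    unfold kc
    rw [h0]
    simp
  obtain ⟨n, hn⟩ := h1
  rw [mem_filter] at hn
  have h2 := QB_ge N w D D n s hw (mem_Ioc.1 (hS hn.1)).1 hq0 hq1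
    (by simpa using card_le_univ (pat s n)) (by simpa using card_le_univ (cop w s (n % PP w)))
  rw [hn.2.1, hn.2.2, h] at h2
  have h3 : 0 < ((DZ w)⁻¹ / Real.log N) ^ D * (1 - (DZ w)⁻¹ / Real.log N) ^ D :=
    mul_pos (pow_pos hq0 _) (pow_pos (by linarith) _)
  linarith

lemma QB_nonneg {N w : ℕ} {D : ℕ} (hq1 : (DZ w)⁻¹ / Real.log N ≤ 1) (s : Fin D → ℕ) (b : ℕ)
    (T : Finset (Fin D)) : 0 ≤ QB N w s b T := by
  unfold QB
  refine prod_nonneg fun i _ => ?_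
  have h1 : 0 ≤ qq N w b (s i) ∧ qq N w b (s i) ≤ 1 := by
    unfold qq
    split_ifs
    · exact ⟨div_nonneg (inv_nonneg.2 (DZ_pos w).le) (Real.log_natCast_nonneg N), hq1⟩
    · exact ⟨le_rfl, zero_le_one⟩
  split_ifs
  · exact h1.1
  · linarith [h1.2]

open scoped Classical in
/-- The mass of the typical set. -/
lemma mass' (w M A : ℕ) (S : Finset ℕ) {D : ℕ} (s : Fin D → ℕ) :
    ∑ x ∈ range (PP w) ×ˢ (univ : Finset (Finset (Fin D))), (kc w S s x.1 x.2 : ℝ) -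
      ∑ x ∈ Ty w M A s, (kc w S s x.1 x.2 : ℝ) =
      ((S.filter fun n => ¬ ((pat s n).card ≤ M ∧ (cop w s n).card ≤ A)).card : ℝ) ∧
    ∑ x ∈ range (PP w) ×ˢ (univ : Finset (Finset (Fin D))), (kc w S s x.1 x.2 : ℝ) = S.card := by
  have h1 : ∑ x ∈ Ty w M A s, (kc w S s x.1 x.2 : ℝ) =
      ((S.filter fun n => ((pat s n).card ≤ M ∧ (cop w s n).card ≤ A)).card : ℝ) := by
    unfold kc
    have h := card_eq_sum_card_fiberwise
      (s := S.filter fun n => ((pat s n).card ≤ M ∧ (cop w s n).card ≤ A))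
      (t := Ty w M A s) (f := fun n => (n % PP w, pat s n)) (by
        intro n hn
        rw [mem_coe, mem_filter] at hn
        rw [mem_coe]
        unfold Ty
        rw [mem_filter, mem_product]
        refine ⟨⟨mem_range.2 (Nat.mod_lt _ (Cls0.PP_pos w)), mem_univ _⟩, hn.2.1, ?_⟩
        rw [cop_mod]
        exact hn.2.2)
    rw [h]
    push_cast
    refine sum_congr rfl fun x hx => ?_
    rw [filter_filter]
    congr 2
    refine filter_congr fun n _ => ?_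
    unfold Ty at hx
    rw [mem_filter] at hx
    rw [Prod.ext_iff]
    constructor
    · rintro ⟨h2, h3⟩
      refine ⟨?_, h2, h3⟩
      rw [h3]
      refine ⟨hx.2.1, ?_⟩
      rw [← cop_mod, h2]
      exact hx.2.2
    · rintro ⟨_, h2, h3⟩
      exact ⟨h2, h3⟩
  have h2 : ∑ x ∈ range (PP w) ×ˢ (univ : Finset (Finset (Fin D))), (kc w S s x.1 x.2 : ℝ) =
      S.card := by
    rw [sum_product, sum_comm]
    have h := card_eq_sum_card_fiberwise (s := S)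
      (t := (univ : Finset (Finset (Fin D)))) (f := fun n => pat s n) (fun n _ => mem_univ _)
    rw [h]
    push_cast
    exact sum_congr rfl fun T _ => sum_kc w S s T
  refine ⟨?_, h2⟩
  rw [h1, h2]
  have h3 := card_filter_add_card_filter_not (s := S)
    (fun n => ((pat s n).card ≤ M ∧ (cop w s n).card ≤ A))
  have h4 : ((S.filter fun n => ((pat s n).card ≤ M ∧ (cop w s n).card ≤ A)).card : ℝ) +
      ((S.filter fun n => ¬ ((pat s n).card ≤ M ∧ (cop w s n).card ≤ A)).card : ℝ) = S.card := by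
    exact_mod_cast h3
  linarith

lemma sum_nu {N w : ℕ} {r D : ℕ} {a h : Fin r → ℕ} (hh : h ∈ Hc N w a) (ha : 1 ≤ nA w a)
    (s : Fin D → ℕ) :
    ∑ x ∈ range (PP w) ×ˢ (univ : Finset (Finset (Fin D))), nuJ N w h s x = lam N w a := by
  rw [sum_product, sum_comm, sum_congr rfl fun T _ => sum_nuJ N w hh ha s T, ← mul_sum,
    sum_QH hh ha s, mul_one]

/-- The number of the atypical `n ∈ S`. -/
noncomputable def Ua (w M A : ℕ) (S : Finset ℕ) {D : ℕ} (s : Fin D → ℕ) : ℝ :=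
  ((S.filter fun n => ¬ ((pat s n).card ≤ M ∧ (cop w s n).card ≤ A)).card : ℝ)

/-- The truncated second moment. -/
noncomputable def Xa (N w M A : ℕ) (S : Finset ℕ) {D : ℕ} (s : Fin D → ℕ) : ℝ :=
  ∑ x ∈ Ty w M A s, (kc w S s x.1 x.2 : ℝ) ^ 2 / QB N w s x.1 x.2

open scoped Classical in
/-- One tuple `h` and one `s`. -/
lemma point {N w : ℕ} (M A : ℕ) (hN : 2 ≤ N) (hw : w ≤ N) (hq0 : 0 < (DZ w)⁻¹ / Real.log N)
    (hq1 : (DZ w)⁻¹ / Real.log N < 1) {r D : ℕ} {a h : Fin r → ℕ} (hh : h ∈ Hc N w a)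
    (ha : 1 ≤ nA w a) (s : Fin D → ℕ) :
    0 ≤ PP w / (N * ((DZ w)⁻¹ / Real.log N) ^ r) * Xa N w M A (Sh N h) s -
      2 * (cnt N h - Ua w M A (Sh N h) s) + lam N w a ∧
    DC N w h s ≤ 2 * Real.sqrt (lam N w a *
      (PP w / (N * ((DZ w)⁻¹ / Real.log N) ^ r) * Xa N w M A (Sh N h) s -
      2 * (cnt N h - Ua w M A (Sh N h) s) + lam N w a)) +
      2 * Ua w M A (Sh N h) s + (lam N w a - cnt N h) := by
  set q : ℝ := (DZ w)⁻¹ / Real.log N with hq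
  have hN0 : (0 : ℝ) < N := by exact_mod_cast (by omega : 0 < N)
  have hP0 : (0 : ℝ) < PP w := by exact_mod_cast Cls0.PP_pos w
  have hqr : 0 < q ^ r := pow_pos hq0 r
  have hS : Sh N h ⊆ Ioc N (2 * N) := by
    unfold Sh
    exact filter_subset _ _
  have hcard : (((Sh N h).card : ℕ) : ℝ) = cnt N h := rfl
  obtain ⟨hm1, hm2⟩ := mass' w M A (Sh N h) s
  rw [hcard] at hm2
  have hnu : ∀ x ∈ range (PP w) ×ˢ (univ : Finset (Finset (Fin D))), 0 ≤ nuJ N w h s x := by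
    intro x _
    unfold nuJ
    split_ifs
    · have := QB_nonneg hq1.le s x.1 x.2
      rw [← hq]
      positivity
    · exact le_rfl
  have h0 : ∀ x ∈ Ty w M A s, nuJ N w h s x = 0 → (kc w (Sh N h) s x.1 x.2 : ℝ) = 0 := by
    intro x _ hx
    unfold nuJ at hx
    split_ifs at hx with hg
    · rw [← hq] at hx
      have h1 : QB N w s x.1 x.2 = 0 := by
        rcases mul_eq_zero.1 hx with h2 | h2
        · exfalso
          have : 0 < (N : ℝ) / PP w * q ^ r := by positivity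
          linarith
        · exact h2
      rw [kc_eq_zero_of_QB hS hw hq0 hq1 h1, Nat.cast_zero]
    · rw [kc_eq_zero_of_not_good hw s x.1 x.2 hg, Nat.cast_zero]
  obtain ⟨k1, k2⟩ := j_abs (range (PP w) ×ˢ (univ : Finset (Finset (Fin D)))) (Ty w M A s)
    (by unfold Ty; exact filter_subset _ _)
    (fun x => (kc w (Sh N h) s x.1 x.2 : ℝ)) (fun x => nuJ N w h s x)
    (fun x _ => Nat.cast_nonneg _) hnu h0
  have hsq : ∑ x ∈ Ty w M A s, (kc w (Sh N h) s x.1 x.2 : ℝ) ^ 2 / nuJ N w h s x ≤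
      PP w / (N * q ^ r) * Xa N w M A (Sh N h) s := by
    unfold Xa
    rw [mul_sum]
    refine sum_le_sum fun x _ => ?_
    by_cases hg : Good w h x.1
    · have e : nuJ N w h s x = (N : ℝ) / PP w * q ^ r * QB N w s x.1 x.2 := by
        unfold nuJ
        rw [if_pos hg]
      rw [e]
      by_cases hz : QB N w s x.1 x.2 = 0
      · rw [hz]
        simp
      · refine le_of_eq ?_
        field_simp
    · rw [kc_eq_zero_of_not_good hw s x.1 x.2 hg]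
      simp
  rw [sum_nu hh ha s] at k1 k2
  have hT : ∑ x ∈ Ty w M A s, (kc w (Sh N h) s x.1 x.2 : ℝ) =
      cnt N h - Ua w M A (Sh N h) s := by
    unfold Ua
    linarith
  rw [hT] at k1 k2
  rw [hm2] at k2
  have hV0 : 0 ≤ lam N w a := by
    rw [← sum_nu hh ha s]
    exact sum_nonneg hnu
  refine ⟨by linarith, ?_⟩
  unfold DC
  refine k2.trans ?_
  have k3 : Real.sqrt (lam N w a * (∑ x ∈ Ty w M A s,
      (kc w (Sh N h) s x.1 x.2 : ℝ) ^ 2 / nuJ N w h s x -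
      2 * (cnt N h - Ua w M A (Sh N h) s) + lam N w a)) ≤ Real.sqrt (lam N w a *
      (PP w / (N * q ^ r) * Xa N w M A (Sh N h) s -
      2 * (cnt N h - Ua w M A (Sh N h) s) + lam N w a)) := by
    refine Real.sqrt_le_sqrt (mul_le_mul_of_nonneg_left ?_ hV0)
    linarith
  linarith

open scoped Classical in
/-- The number of the atypical pairs. -/
lemma sum_Ua {N w M A D : ℕ} {η : ℝ} (S : Finset ℕ) (hS : S ⊆ Ioc N (2 * N))
    (h3 : ∀ n ∈ Ioc N (2 * N), (((Tup D (Icc 1 N)).filter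
      (fun s => ¬ ((pat s n).card ≤ M ∧ (cop w s n).card ≤ A))).card : ℝ) ≤ η * (N : ℝ) ^ D) :
    ∑ s ∈ Tup D (Icc 1 N), Ua w M A S s ≤ S.card * (η * (N : ℝ) ^ D) := by
  have h1 : ∀ s ∈ Tup D (Icc 1 N), Ua w M A S s = ∑ n ∈ S,
      if ¬ ((pat s n).card ≤ M ∧ (cop w s n).card ≤ A) then (1 : ℝ) else 0 := by
    intro s _
    unfold Ua
    rw [sum_boole]
  rw [sum_congr rfl h1, sum_comm]
  have h2 : ∀ n ∈ S, ∑ s ∈ Tup D (Icc 1 N),
      (if ¬ ((pat s n).card ≤ M ∧ (cop w s n).card ≤ A) then (1 : ℝ) else 0) ≤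
      η * (N : ℝ) ^ D := by
    intro n hn
    rw [sum_boole]
    exact h3 n (hS hn)
  refine (sum_le_sum h2).trans (le_of_eq ?_)
  rw [sum_const, nsmul_eq_mul]

open scoped Classical in
/-- The mean distance in a class, from the three inputs. -/
theorem det {N w : ℕ} (M A : ℕ) {r D : ℕ} {a : Fin r → ℕ} (η : ℝ) (hη : 0 ≤ η) (hη1 : η ≤ 1)
    (hN : 2 ≤ N) (hw : w ≤ N) (hq0 : 0 < (DZ w)⁻¹ / Real.log N)
    (hq1 : (DZ w)⁻¹ / Real.log N < 1) (ha : 1 ≤ nA w a)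
    (h1 : |∑ h ∈ Hc N w a, (cnt N h : ℝ) - lam N w a * (Hc N w a).card| ≤
      η * (lam N w a * (Hc N w a).card))
    (h2 : ∑ h ∈ Hc N w a, ∑ x ∈ (CP N N w).filter (fun x => x.1 ∈ Sh N h ∧ x.2 ∈ Sh N h),
        (∑ m ∈ Icc 1 N, ph N w x.1 x.2 m) ^ D ≤
      (1 + η) * (nA w a * ((N : ℝ) / PP w) ^ 2 * ((DZ w)⁻¹ / Real.log N) ^ (2 * r) *
        ((Hc N w a).card * (N : ℝ) ^ D)))
    (h3 : ∀ n ∈ Ioc N (2 * N), (((Tup D (Icc 1 N)).filter
      (fun s => ¬ ((pat s n).card ≤ M ∧ (cop w s n).card ≤ A))).card : ℝ) ≤ η * (N : ℝ) ^ D)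
    (h4 : (PP w : ℝ) / N * (1 / (((DZ w)⁻¹ / Real.log N) ^ (r + M) *
      (1 - (DZ w)⁻¹ / Real.log N) ^ A)) ≤ η) :
    ∑ h ∈ Hc N w a, ∑ s ∈ Tup D (Icc 1 N), DC N w h s ≤
      (6 * Real.sqrt η + 5 * η) * (lam N w a * ((Hc N w a).card * (N : ℝ) ^ D)) := by
  obtain ⟨q, hq⟩ : ∃ q : ℝ, q = (DZ w)⁻¹ / Real.log N := ⟨_, rfl⟩
  obtain ⟨V, hV⟩ : ∃ V : ℝ, V = lam N w a := ⟨_, rfl⟩
  obtain ⟨B, hB⟩ : ∃ B : ℝ, B = (N : ℝ) ^ D := ⟨_, rfl⟩
  obtain ⟨c, hc⟩ : ∃ c : ℝ, c = ((Hc N w a).card : ℝ) := ⟨_, rfl⟩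
  obtain ⟨k, hk⟩ : ∃ k : ℝ, k = (PP w : ℝ) / (N * q ^ r) := ⟨_, rfl⟩
  have hN0 : (0 : ℝ) < N := by exact_mod_cast (by omega : 0 < N)
  have hP0 : (0 : ℝ) < PP w := by exact_mod_cast Cls0.PP_pos w
  have hB0 : 0 < B := by rw [hB]; positivity
  have hc0 : 0 ≤ c := by rw [hc]; positivity
  have hVe : V = nA w a * ((N : ℝ) / PP w * q ^ r) := by rw [hV, hq]; exact lam_eq N w a
  have hq0' : 0 < q := by rw [hq]; exact hq0
  have hq1' : 0 < 1 - q := by rw [hq]; linarith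
  have hqr : 0 < q ^ r := pow_pos hq0' r
  have hV0 : 0 ≤ V := by rw [hVe]; positivity
  have hk0 : 0 < k := by rw [hk]; positivity
  have hW0 : 0 ≤ V * (c * B) := by positivity
  have hcH : (((Tup D (Icc 1 N)).card : ℕ) : ℝ) = B := by
    rw [hB]
    unfold Tup
    rw [Fintype.card_piFinset_const, Nat.card_Icc, Nat.add_sub_cancel]
    push_cast
    ring
  rw [← hV, ← hc] at h1
  rw [← hc, ← hB, ← hq] at h2
  rw [← hq] at h4
  rw [← hV, ← hc, ← hB]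
  obtain ⟨h1a, h1b⟩ := abs_le.1 h1
  -- the sums over the pairs
  have hU : ∑ h ∈ Hc N w a, ∑ s ∈ Tup D (Icc 1 N), Ua w M A (Sh N h) s ≤
      2 * η * (V * (c * B)) := by
    have h5 : ∀ h ∈ Hc N w a, ∑ s ∈ Tup D (Icc 1 N), Ua w M A (Sh N h) s ≤
        (cnt N h : ℝ) * (η * B) := by
      intro h _
      rw [hB]
      exact sum_Ua (Sh N h) (by unfold Sh; exact filter_subset _ _) h3
    refine (sum_le_sum h5).trans ?_
    rw [← sum_mul]
    have h6 : ∑ h ∈ Hc N w a, (cnt N h : ℝ) ≤ 2 * (V * c) := by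
      have : η * (V * c) ≤ 1 * (V * c) := mul_le_mul_of_nonneg_right hη1 (by positivity)
      linarith
    calc (∑ h ∈ Hc N w a, (cnt N h : ℝ)) * (η * B) ≤ 2 * (V * c) * (η * B) :=
          mul_le_mul_of_nonneg_right h6 (by positivity)
      _ = 2 * η * (V * (c * B)) := by ring
  have hX : k * ∑ h ∈ Hc N w a, ∑ s ∈ Tup D (Icc 1 N), Xa N w M A (Sh N h) s ≤
      (1 + 3 * η) * (V * (c * B)) := by
    have h5 : ∀ h ∈ Hc N w a, ∑ s ∈ Tup D (Icc 1 N), Xa N w M A (Sh N h) s ≤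
        ∑ x ∈ (CP N N w).filter (fun x => x.1 ∈ Sh N h ∧ x.2 ∈ Sh N h),
          (∑ m ∈ Icc 1 N, ph N w x.1 x.2 m) ^ D +
        (cnt N h : ℝ) * (B / (q ^ M * (1 - q) ^ A)) := by
      intro h _
      have h6 := j_chi N w D M A hN hw hq0 hq1 (Sh N h) (by unfold Sh; exact filter_subset _ _)
      rw [← hq, ← hB] at h6
      unfold Xa
      refine h6.trans (le_of_eq ?_)
      congr 1
    have h7 := sum_le_sum h5
    rw [sum_add_distrib, ← sum_mul] at h7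
    have h8 : ∑ h ∈ Hc N w a, (cnt N h : ℝ) ≤ (1 + η) * (V * c) := by linarith
    have hZ0 : 0 < q ^ M * (1 - q) ^ A := mul_pos (pow_pos hq0' _) (pow_pos hq1' _)
    have h9 : (∑ h ∈ Hc N w a, (cnt N h : ℝ)) * (B / (q ^ M * (1 - q) ^ A)) ≤
        (1 + η) * (V * c) * (B / (q ^ M * (1 - q) ^ A)) :=
      mul_le_mul_of_nonneg_right h8 (by positivity)
    have h10 := mul_le_mul_of_nonneg_left (h7.trans (add_le_add h2 h9)) hk0.le
    refine h10.trans ?_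
    have e1 : k * ((1 + η) * (nA w a * ((N : ℝ) / PP w) ^ 2 * q ^ (2 * r) * (c * B))) =
        (1 + η) * (V * (c * B)) := by
      rw [hk, hVe, two_mul, pow_add]
      field_simp
    have e2 : k * ((1 + η) * (V * c) * (B / (q ^ M * (1 - q) ^ A))) =
        (1 + η) * (V * (c * B)) * ((PP w : ℝ) / N * (1 / (q ^ (r + M) * (1 - q) ^ A))) := by
      rw [hk, pow_add]
      have : 0 < q ^ M := pow_pos hq0' _
      have : 0 < (1 - q) ^ A := pow_pos hq1' _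
      field_simp
    rw [mul_add, e1, e2]
    have h11 : (1 + η) * (V * (c * B)) *
        ((PP w : ℝ) / N * (1 / (q ^ (r + M) * (1 - q) ^ A))) ≤
        (1 + η) * (V * (c * B)) * η := mul_le_mul_of_nonneg_left h4 (by positivity)
    have h12 : (1 + η) * (V * (c * B)) * η ≤ 2 * (V * (c * B)) * η := by
      refine mul_le_mul_of_nonneg_right ?_ hη
      exact mul_le_mul_of_nonneg_right (by linarith) hW0
    linarith
  have hC : ∑ h ∈ Hc N w a, ∑ _s ∈ Tup D (Icc 1 N), (cnt N h : ℝ) =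
      (∑ h ∈ Hc N w a, (cnt N h : ℝ)) * B := by
    rw [sum_mul]
    refine sum_congr rfl fun h _ => ?_
    rw [sum_const, nsmul_eq_mul, hcH]
    ring
  have hCl : (1 - η) * (V * (c * B)) ≤ (∑ h ∈ Hc N w a, (cnt N h : ℝ)) * B := by
    have h5 : (1 - η) * (V * c) ≤ ∑ h ∈ Hc N w a, (cnt N h : ℝ) := by linarith
    have h6 := mul_le_mul_of_nonneg_right h5 hB0.le
    linarith
  have hVs : ∑ _h ∈ Hc N w a, ∑ _s ∈ Tup D (Icc 1 N), V = V * (c * B) := by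
    rw [sum_const, sum_const, nsmul_eq_mul, nsmul_eq_mul, hcH, ← hc]
    ring
  -- the pointwise bound
  obtain ⟨Z, hZ⟩ : ∃ Z : (Fin r → ℕ) → (Fin D → ℕ) → ℝ, Z = fun h s =>
      k * Xa N w M A (Sh N h) s - 2 * (cnt N h - Ua w M A (Sh N h) s) + V := ⟨_, rfl⟩
  have hpt : ∀ h ∈ Hc N w a, ∀ s : Fin D → ℕ, 0 ≤ Z h s ∧
      DC N w h s ≤ 2 * Real.sqrt (V * Z h s) + 2 * Ua w M A (Sh N h) s + (V - cnt N h) := by
    intro h hh s
    have h5 := point M A hN hw hq0 hq1 hh ha s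
    rw [← hq, ← hV, ← hk] at h5
    rw [hZ]
    exact h5
  have hZs : ∑ h ∈ Hc N w a, ∑ s ∈ Tup D (Icc 1 N), Z h s ≤ 9 * η * (V * (c * B)) := by
    have e : ∑ h ∈ Hc N w a, ∑ s ∈ Tup D (Icc 1 N), Z h s =
        k * ∑ h ∈ Hc N w a, ∑ s ∈ Tup D (Icc 1 N), Xa N w M A (Sh N h) s -
        2 * (∑ h ∈ Hc N w a, ∑ _s ∈ Tup D (Icc 1 N), (cnt N h : ℝ) -
          ∑ h ∈ Hc N w a, ∑ s ∈ Tup D (Icc 1 N), Ua w M A (Sh N h) s) +
        ∑ _h ∈ Hc N w a, ∑ _s ∈ Tup D (Icc 1 N), V := by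
      rw [hZ]
      simp only [mul_sum, mul_sub, ← sum_sub_distrib, ← sum_add_distrib]
    rw [e, hC, hVs]
    linarith
  have hCS : ∑ h ∈ Hc N w a, ∑ s ∈ Tup D (Icc 1 N), Real.sqrt (V * Z h s) ≤
      3 * Real.sqrt η * (V * (c * B)) := by
    rw [← sum_product']
    have h5 := sum_mul_sq_le_sq_mul_sq (Hc N w a ×ˢ Tup D (Icc 1 N)) (fun _ => (1 : ℝ))
      (fun x => Real.sqrt (V * Z x.1 x.2))
    have h6 : ∑ x ∈ Hc N w a ×ˢ Tup D (Icc 1 N), (1 : ℝ) ^ 2 = c * B := by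
      rw [sum_congr rfl fun x _ => one_pow 2, sum_const, nsmul_eq_mul, mul_one, card_product]
      push_cast
      rw [hcH, ← hc]
    have h7 : ∑ x ∈ Hc N w a ×ˢ Tup D (Icc 1 N), Real.sqrt (V * Z x.1 x.2) ^ 2 =
        V * ∑ h ∈ Hc N w a, ∑ s ∈ Tup D (Icc 1 N), Z h s := by
      rw [← sum_product', mul_sum]
      refine sum_congr rfl fun x hx => ?_
      rw [mem_product] at hx
      exact Real.sq_sqrt (mul_nonneg hV0 (hpt x.1 hx.1 x.2).1)
    rw [h6, h7] at h5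
    simp only [one_mul] at h5
    have h8 : c * B * (V * ∑ h ∈ Hc N w a, ∑ s ∈ Tup D (Icc 1 N), Z h s) ≤
        (3 * Real.sqrt η * (V * (c * B))) ^ 2 := by
      rw [mul_pow, mul_pow, Real.sq_sqrt hη]
      have h9 := mul_le_mul_of_nonneg_left hZs (by positivity : 0 ≤ c * B * V)
      calc c * B * (V * ∑ h ∈ Hc N w a, ∑ s ∈ Tup D (Icc 1 N), Z h s) =
            c * B * V * ∑ h ∈ Hc N w a, ∑ s ∈ Tup D (Icc 1 N), Z h s := by ring
        _ ≤ c * B * V * (9 * η * (V * (c * B))) := h9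
        _ = 3 ^ 2 * η * (V * (c * B)) ^ 2 := by ring
    exact abs_le_of_sq_le_sq' (h5.trans h8) (by positivity) |>.2
  -- the end
  have hfin : ∑ h ∈ Hc N w a, ∑ s ∈ Tup D (Icc 1 N), DC N w h s ≤
      2 * (∑ h ∈ Hc N w a, ∑ s ∈ Tup D (Icc 1 N), Real.sqrt (V * Z h s)) +
      2 * (∑ h ∈ Hc N w a, ∑ s ∈ Tup D (Icc 1 N), Ua w M A (Sh N h) s) +
      (∑ _h ∈ Hc N w a, ∑ _s ∈ Tup D (Icc 1 N), V -
        ∑ h ∈ Hc N w a, ∑ _s ∈ Tup D (Icc 1 N), (cnt N h : ℝ)) := by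
    simp only [mul_sum, ← sum_sub_distrib, ← sum_add_distrib]
    refine sum_le_sum fun h hh => sum_le_sum fun s _ => ?_
    exact (hpt h hh s).2
  rw [hVs, hC] at hfin
  linarith

end JClassA

open scoped Classical in
/-- Module JClassA: the mean distance in a class, from the three inputs. -/
theorem j_class_one (N w r D M A : ℕ) (η : ℝ) (hη : 0 ≤ η) (hη1 : η ≤ 1) (hN : 2 ≤ N) (hw : w ≤ N)
    (hq0 : 0 < (DZ w)⁻¹ / Real.log N) (hq1 : (DZ w)⁻¹ / Real.log N < 1) (a : Fin r → ℕ)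
    (ha : 1 ≤ nA w a)
    (h1 : |∑ h ∈ Hc N w a, (cnt N h : ℝ) - lam N w a * (Hc N w a).card| ≤
      η * (lam N w a * (Hc N w a).card))
    (h2 : ∑ h ∈ Hc N w a, ∑ x ∈ (CP N N w).filter (fun x => x.1 ∈ Sh N h ∧ x.2 ∈ Sh N h),
        (∑ m ∈ Icc 1 N, ph N w x.1 x.2 m) ^ D ≤
      (1 + η) * (nA w a * ((N : ℝ) / PP w) ^ 2 * ((DZ w)⁻¹ / Real.log N) ^ (2 * r) *
        ((Hc N w a).card * (N : ℝ) ^ D)))
    (h3 : ∀ n ∈ Ioc N (2 * N), (((Tup D (Icc 1 N)).filter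
      (fun s => ¬ ((pat s n).card ≤ M ∧ (cop w s n).card ≤ A))).card : ℝ) ≤ η * (N : ℝ) ^ D)
    (h4 : (PP w : ℝ) / N * (1 / (((DZ w)⁻¹ / Real.log N) ^ (r + M) *
      (1 - (DZ w)⁻¹ / Real.log N) ^ A)) ≤ η) :
    ∑ h ∈ Hc N w a, ∑ s ∈ Tup D (Icc 1 N), DC N w h s ≤
      (6 * Real.sqrt η + 5 * η) * (lam N w a * ((Hc N w a).card * (N : ℝ) ^ D)) :=
  JClassA.det M A η hη hη1 hN hw hq0 hq1 ha h1 h2 h3 h4

end Pool.Agent.Lib.LEN
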