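import Pool.Agent.Lib.LEN.JDefs
import Pool.Agent.Lib.LEN.TVMain

/-!
# LEN.JDist: from the classes to the model
-/

set_option autoImplicit false

open Finset Filter

namespace Pool.Agent.Lib.LEN

open Pool.Agent.HLB Pool.Agent.HLT Pool.Agent.HLR Pool.Agent.Lib.GMV

namespace JDistAux

lemma good_iff {N w : ℕ} {r : ℕ} {a h : Fin r → ℕ} (hh : h ∈ Hc N w a) (b : ℕ) :
    Good w h b ↔ Good w a b := by
  unfold Hc cls at hh
  rw [Fintype.mem_piFinset] at hh
  unfold Good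
  refine forall_congr' fun i => ?_
  have h1 : h i ≡ a i [MOD PP w] := (mem_filter.1 (hh i)).2
  have h2 : b + h i ≡ b + a i [MOD PP w] := Nat.ModEq.add_left b h1
  rw [Nat.coprime_iff_gcd_eq_one, Nat.coprime_iff_gcd_eq_one, h2.gcd_eq]

lemma nA_eq {N w : ℕ} {r : ℕ} {a h : Fin r → ℕ} (hh : h ∈ Hc N w a) : nA w h = nA w a := by
  classical
  unfold nA
  congr 1
  refine filter_congr fun b _ => ?_
  exact good_iff hh b

lemma lam_eq (N w : ℕ) {r : ℕ} (a : Fin r → ℕ) :
    lam N w a = nA w a * ((N : ℝ) / PP w * ((DZ w)⁻¹ / Real.log N) ^ r) := by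
  unfold lam MM
  rw [div_pow]
  ring

lemma sum_kc (w : ℕ) (S : Finset ℕ) {D : ℕ} (s : Fin D → ℕ) (T : Finset (Fin D)) :
    ∑ b ∈ range (PP w), (kc w S s b T : ℝ) = ((S.filter fun n => pat s n = T).card : ℝ) := by
  unfold kc
  have h := card_eq_sum_card_fiberwise (s := S.filter fun n => pat s n = T)
    (t := range (PP w)) (f := fun n => n % PP w)
    (fun n _ => mem_coe.2 (mem_range.2 (Nat.mod_lt _ (Cls0.PP_pos w))))
  rw [h]
  push_cast
  refine sum_congr rfl fun b _ => ?_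
  rw [filter_filter]
  congr 2
  refine filter_congr fun n _ => ?_
  exact and_comm

lemma sum_nuJ (N w : ℕ) {r D : ℕ} {a h : Fin r → ℕ} (hh : h ∈ Hc N w a) (ha : 1 ≤ nA w a)
    (s : Fin D → ℕ) (T : Finset (Fin D)) :
    ∑ b ∈ range (PP w), nuJ N w h s (b, T) = lam N w a * QH N w h s T := by
  classical
  unfold nuJ QH
  rw [← sum_filter, ← mul_sum, lam_eq, nA_eq hh]
  have h1 : (nA w a : ℝ) ≠ 0 := by exact_mod_cast (by omega : nA w a ≠ 0)
  field_simp

lemma QH_nonneg (N w : ℕ) {r D : ℕ} (h : Fin r → ℕ) (s : Fin D → ℕ) (T : Finset (Fin D))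
    (hQ : ∀ b, 0 ≤ QB N w s b T) : 0 ≤ QH N w h s T := by
  classical
  unfold QH
  exact div_nonneg (sum_nonneg fun b _ => hQ b) (Nat.cast_nonneg _)

lemma sum_QH {N w : ℕ} {r D : ℕ} {a h : Fin r → ℕ} (hh : h ∈ Hc N w a) (ha : 1 ≤ nA w a)
    (s : Fin D → ℕ) : ∑ T : Finset (Fin D), QH N w h s T = 1 := by
  classical
  unfold QH
  rw [← sum_div, sum_comm, sum_congr rfl fun b _ => TVMainAux.sum_QB N w b s, sum_const,
    nsmul_eq_mul, mul_one]
  have h1 : (nA w h : ℝ) ≠ 0 := by rw [nA_eq hh]; exact_mod_cast (by omega : nA w a ≠ 0)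
  exact div_self h1

end JDistAux

open JDistAux in
/-- Module JDist: from the classes to the model (`h ≡ a` modulo `PP w`). -/
theorem DJ_le (N w : ℕ) (hq1 : (DZ w)⁻¹ / Real.log N ≤ 1) {r D : ℕ} (a h : Fin r → ℕ)
    (hh : h ∈ Hc N w a) (ha : 1 ≤ nA w a) (s : Fin D → ℕ) :
    DJ N w h s ≤ DC N w h s + |pr N h - lam N w a| := by
  classical
  have hqq : ∀ b m, 0 ≤ qq N w b m ∧ qq N w b m ≤ 1 := by
    intro b m
    unfold qq
    split_ifs
    · exact ⟨div_nonneg (inv_nonneg.2 (DZ_pos w).le) (Real.log_natCast_nonneg N), hq1⟩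
    · exact ⟨le_rfl, zero_le_one⟩
  have hQB : ∀ b T, 0 ≤ QB N w s b T := by
    intro b T
    unfold QB
    refine prod_nonneg fun i _ => ?_
    have h1 := hqq b (s i)
    split_ifs
    · exact h1.1
    · linarith [h1.2]
  have hcnt : ∀ T : Finset (Fin D), (cntP N h s T : ℝ) =
      ∑ b ∈ range (PP w), (kc w (Sh N h) s b T : ℝ) := by
    intro T
    rw [sum_kc]
    unfold cntP Sh
    rw [filter_filter]
  have hT : ∀ T : Finset (Fin D), |(cntP N h s T : ℝ) - pr N h * QH N w h s T| ≤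
      ∑ b ∈ range (PP w), |(kc w (Sh N h) s b T : ℝ) - nuJ N w h s (b, T)| +
        |pr N h - lam N w a| * QH N w h s T := by
    intro T
    have e : (cntP N h s T : ℝ) - pr N h * QH N w h s T =
        ∑ b ∈ range (PP w), ((kc w (Sh N h) s b T : ℝ) - nuJ N w h s (b, T)) +
          (lam N w a - pr N h) * QH N w h s T := by
      rw [sum_sub_distrib, ← hcnt, sum_nuJ N w hh ha s T]
      ring
    rw [e]
    refine (abs_add_le _ _).trans (add_le_add (abs_sum_le_sum_abs _ _) ?_)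
    rw [abs_mul, abs_of_nonneg (QH_nonneg N w h s T fun b => hQB b T), abs_sub_comm]
  unfold DJ DC
  refine (sum_le_sum fun T _ => hT T).trans (le_of_eq ?_)
  rw [sum_add_distrib, ← mul_sum, sum_QH hh ha s, mul_one, sum_product, sum_comm]

end Pool.Agent.Lib.LEN
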