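import Pool.Agent.Lib.LEN.JFin
import Pool.Agent.Lib.HLR.SingQ

/-!
# LEN.JFar: Hardy-Littlewood and Granville's model together on both sides of the line
`r + D / log N = log N / log log N`
-/

set_option autoImplicit false

open Finset Filter

namespace Pool.Agent.Lib.LEN

open Pool.Agent.HLB Pool.Agent.HLT Pool.Agent.HLR Pool.Agent.Lib.GMV

namespace JFarFAux

open JFinAux

lemma nA_ge_one {r : ℕ} (w : ℕ) (h : Fin r → ℕ) (hh : Adm h) : 1 ≤ nA w h :=
  (nA_pos w h).2 fun p hp => hh.2 p (Nat.mem_primesLE.1 hp).2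

/-- The distance for the empty set of translates. -/
lemma DJ_zero (N w : ℕ) {r : ℕ} (h : Fin r → ℕ) (hh : 1 ≤ nA w h) (s : Fin 0 → ℕ) :
    DJ N w h s = |(cnt N h : ℝ) - pr N h| := by
  classical
  unfold DJ
  have h1 : (univ : Finset (Finset (Fin 0))) = {∅} := by
    ext T
    simp only [mem_univ, mem_singleton, true_iff]
    exact Subsingleton.elim T ∅
  rw [h1, sum_singleton]
  have h2 : cntP N h s ∅ = cnt N h := by
    unfold cntP cnt
    congr 1
    refine filter_congr fun n _ => ?_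
    exact and_iff_left (Subsingleton.elim _ _)
  have h3 : QH N w h s ∅ = 1 := by
    unfold QH
    have h4 : ∀ b, QB N w s b ∅ = 1 := by
      intro b
      unfold QB
      exact prod_eq_one fun i _ => i.elim0
    rw [sum_congr rfl fun b _ => h4 b, sum_const, nsmul_eq_mul, mul_one]
    have h5 : (nA w h : ℝ) ≠ 0 := by exact_mod_cast (by omega : nA w h ≠ 0)
    exact div_self h5
  rw [h2, h3, mul_one]

open scoped Classical in
/-- `DJ` in the form of `j_far_core`. -/
lemma DJ_eq (N w : ℕ) {r D : ℕ} (h : Fin r → ℕ) (s : Fin D → ℕ) :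
    DJ N w h s = ∑ T : Finset (Fin D),
      |(((Sh N h).filter (fun n => pat s n = T)).card : ℝ) -
      pr N h * ((∑ b ∈ (range (PP w)).filter (Good w h), QB N w s b T) /
        (((range (PP w)).filter (Good w h)).card : ℝ))| := by
  unfold DJ cntP QH nA Sh
  refine sum_congr rfl fun T _ => ?_
  rw [filter_filter]

lemma card_Sh (N : ℕ) {r : ℕ} (h : Fin r → ℕ) : (Sh N h).card = cnt N h := rfl

end JFarFAux

open JFinAux JFarFAux

open scoped Classical in
/-- The Hardy-Littlewood prediction is positive and at most `2 N (κ / log N)^r` for most tuples. -/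
theorem j_size (C1 cA : ℝ) (cw d B' : ℝ) (hcw : 0 < cw) (hI : LevI C1 cA 2 cw d B') : ∃ C0 : ℝ,
    ∀ C2 cB : ℝ, C0 ≤ C2 → 0 < cB → ∀ ε : ℝ, 0 < ε → ε ≤ 1 / 2 → ∃ N0 : ℕ, ∀ N : ℕ, N0 ≤ N →
    GoodX cA C1 cB C2 N → ∀ r : ℕ, (r : ℝ) ≤ 2 * yy N →
      (((Tup r (Icc 1 N)).filter (fun h => Adm h ∧ ¬ (0 < pr N h ∧
        pr N h ≤ 2 * N * ((DZ ⌊cw * yy N⌋₊)⁻¹ / Real.log N) ^ r))).card : ℝ) ≤
      ε * ((Tup r (Icc 1 N)).filter (fun h => Adm h)).card := by
  obtain ⟨C02, hlev⟩ := hI 2 1 (by norm_num) le_rfl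
  refine ⟨C02, ?_⟩
  intro C2 cB hC2 hcB ε hε hε1
  obtain ⟨δ, hδd⟩ : ∃ δ : ℝ, δ = ε / 8 := ⟨_, rfl⟩
  have hδ : 0 < δ := by rw [hδd]; positivity
  have hδ1 : δ ≤ 1 / 16 := by rw [hδd]; linarith
  obtain ⟨ws, hsing⟩ := sing (4 / cw) δ (by positivity) hδ
  obtain ⟨wz, hsize⟩ := size cw
  obtain ⟨N2, hN2⟩ := hlev C2 cB hC2 hcB 1 one_pos (max ws wz)
  refine ⟨max N2 3, ?_⟩
  intro N hN hG r hrD
  have g2 : N2 ≤ N := (le_max_left _ _).trans hN
  have g3 : 3 ≤ N := (le_max_right _ _).trans hN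
  set w : ℕ := ⌊cw * yy N⌋₊ with hwdef
  obtain ⟨l1, l2, l3, l4, l5, -⟩ := hN2 N g2 hG w hwdef
  have hNr : (3 : ℝ) ≤ N := by exact_mod_cast g3
  have hN0 : (0 : ℝ) < N := by linarith
  have hlogN : 0 < Real.log N := Real.log_pos (by linarith)
  have hLr : 0 < Real.log N ^ r := by positivity
  have h4N : 4 ^ (100 * w) ≤ N := by
    refine le_trans (Nat.pow_le_pow_right (by norm_num) ?_) l2
    omega
  have hwr : (r : ℝ) ≤ 4 / cw * w := by
    refine hrD.trans ((mul_le_mul_of_nonneg_left l4 (by norm_num)).trans (le_of_eq ?_))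
    ring
  have hsz : 8 * r * PP w ≤ N := hsize w N r ((le_max_right _ _).trans l1) h4N hwr
  set R : (Fin r → ℕ) → Prop := fun h => ¬ (0 < pr N h ∧
    pr N h ≤ 2 * N * ((DZ w)⁻¹ / Real.log N) ^ r) with hRd
  rcases Nat.eq_zero_or_pos r with hr0 | hr1
  · -- `r = 0`
    subst hr0
    have hempty : (Tup 0 (Icc 1 N)).filter (fun h => Adm h ∧ R h) = ∅ := by
      rw [filter_eq_empty_iff]
      intro h _ hc
      refine hc.2 ⟨?_, ?_⟩
      · rw [pr_zero]; exact hN0
      · rw [pr_zero, pow_zero]; linarith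
    rw [hempty, card_empty]
    push_cast
    positivity
  · -- `r ≥ 1`
    have hgood : ∀ a ∈ AC w r, ∀ h : Fin r → ℕ, |SI h - SZ w a| ≤ δ * SZ w a → ¬ R h := by
      intro a ha h hh
      rw [hRd]
      simp only [not_not]
      have hSZ : 0 < SZ w a := by
        have hna : 1 ≤ nA w a := (nA_pos w a).2 (mem_AC ha).2
        have h2 := lam_pos N w (by omega) a hna
        unfold lam at h2
        rw [MM_eq] at h2
        have h3 : 0 < (N : ℝ) * SZ w a := by
          by_contra hneg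
          push Not at hneg
          have := div_nonpos_of_nonpos_of_nonneg hneg hLr.le
          linarith
        exact pos_of_mul_pos_right h3 hN0.le
      have hab := abs_le.1 hh
      have hSI : 0 < SI h := by nlinarith
      have hSI2 : SI h ≤ 2 * SZ w a := by nlinarith
      refine ⟨?_, ?_⟩
      · unfold pr
        positivity
      · unfold pr
        have h4 := SZ_le_DZ w a
        calc SI h * N / Real.log N ^ r ≤ 2 * (DZ w)⁻¹ ^ r * N / Real.log N ^ r := by
              refine div_le_div_of_nonneg_right ?_ hLr.le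
              refine mul_le_mul_of_nonneg_right ?_ hN0.le
              linarith
          _ = 2 * N * ((DZ w)⁻¹ / Real.log N) ^ r := by
              rw [div_pow]
              ring
    have hbad : ∀ a ∈ AC w r, (((Hc N w a).filter (fun h =>
        ¬ (Adm h ∧ |SI h - SZ w a| ≤ δ * SZ w a))).card : ℝ) ≤ δ * (Hc N w a).card :=
      fun a ha => hsing w ((le_max_left _ _).trans l1) N r hr1 hwr h4N l3 a (mem_AC ha).2
    have hadm : ∀ a ∈ AC w r, (((Hc N w a).filter (fun h => ¬ Adm h)).card : ℝ) ≤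
        δ * (Hc N w a).card := by
      intro a ha
      refine le_trans ?_ (hbad a ha)
      have hsub : (Hc N w a).filter (fun h => ¬ Adm h) ⊆ (Hc N w a).filter (fun h =>
        ¬ (Adm h ∧ |SI h - SZ w a| ≤ δ * SZ w a)) := by
        intro h hh
        rw [mem_filter] at hh ⊢
        exact ⟨hh.1, fun hc => hh.2 hc.1⟩
      exact_mod_cast card_le_card hsub
    have e1 : ∀ S : Finset (Fin r → ℕ), ∑ h ∈ S.filter Adm, (if R h then (1 : ℝ) else 0) =
        (S.filter (fun h => Adm h ∧ R h)).card := by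
      intro S
      rw [← sum_filter, filter_filter, sum_const, nsmul_eq_mul, mul_one]
    have h3 := class_gen δ hδ (by linarith) N w r hsz hr1
      (fun h => if R h then 1 else 0) (fun h => by split_ifs <;> simp) ∅
      (by simp only [card_empty, Nat.cast_zero]; positivity) hadm (by
      intro a ha _
      rw [e1, abs_of_nonneg (Nat.cast_nonneg _)]
      refine le_trans ?_ (hbad a ha)
      have hsub : (Hc N w a).filter (fun h => Adm h ∧ R h) ⊆
          (Hc N w a).filter (fun h => ¬ (Adm h ∧ |SI h - SZ w a| ≤ δ * SZ w a)) := by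
        intro h hh
        rw [mem_filter] at hh ⊢
        exact ⟨hh.1, fun h6 => hgood a ha h h6.2 hh.2.2⟩
      exact_mod_cast card_le_card hsub)
    rw [e1, abs_of_nonneg (Nat.cast_nonneg _)] at h3
    refine (h3.trans (le_of_eq ?_))
    rw [hδd]
    ring

open scoped Classical in
/-- Module JFar. -/
theorem j_far (C1 cA : ℝ) (h1 : 0 < C1) (hA : 0 < cA) (cw d B' : ℝ) (hcw : 0 < cw)
    (hd : 0 < d) (hB' : 1 ≤ B') (hI : LevI C1 cA 2 cw d B') : ∃ C0 : ℝ,
    ∀ C2 cB : ℝ, C0 ≤ C2 → 0 < cB → ∀ ε : ℝ, 0 < ε → ∃ N0 : ℕ, ∀ N : ℕ, N0 ≤ N →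
    GoodX cA C1 cB C2 N → ∀ r D : ℕ, (r : ℝ) ≤ (1 - ε) * yy N →
    (1 + ε) * yy N ≤ (r : ℝ) + D / Real.log N →
      (((Tup r (Icc 1 N)).filter (fun h => Adm h ∧ ε * (N : ℝ) ^ D <
        (((Tup D (Icc 1 N)).filter (fun s =>
          DJ N ⌊cw * yy N⌋₊ h s < (2 - ε) * pr N h)).card : ℝ))).card : ℝ) ≤
      ε * ((Tup r (Icc 1 N)).filter (fun h => Adm h)).card := by
  obtain ⟨C01, hhalf⟩ := j_half C1 cA h1 hA cw d B' hcw hd hB' hI
  obtain ⟨C02, hsz⟩ := j_size C1 cA cw d B' hcw hI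
  refine ⟨max C01 C02, fun C2 cB hC2 hcB ε hε => ?_⟩
  have hC21 : C01 ≤ C2 := (le_max_left _ _).trans hC2
  have hC22 : C02 ≤ C2 := (le_max_right _ _).trans hC2
  obtain ⟨ε', hε'⟩ : ∃ ε' : ℝ, ε' = min (ε / 4) (1 / 4) := ⟨_, rfl⟩
  have hε0 : 0 < ε' := by rw [hε']; positivity
  have hεε : ε' ≤ ε / 4 := by rw [hε']; exact min_le_left _ _
  have hε4 : ε' ≤ 1 / 4 := by rw [hε']; exact min_le_right _ _
  obtain ⟨N1, hN1⟩ := hhalf C2 cB hC21 hcB ε' hε0
  obtain ⟨N2, hN2⟩ := hsz C2 cB hC22 hcB ε' hε0 (by linarith)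
  obtain ⟨N3, hN3⟩ := GoodXAux.large 2
  obtain ⟨N4, hN4⟩ := j_far_core ε cw hε hcw
  refine ⟨max (max N1 N2) (max N3 N4), fun N hN hG r D hr hrD => ?_⟩
  have g1 : N1 ≤ N := ((le_max_left _ _).trans (le_max_left _ _)).trans hN
  have g2 : N2 ≤ N := ((le_max_right _ _).trans (le_max_left _ _)).trans hN
  have g3 : N3 ≤ N := ((le_max_left _ _).trans (le_max_right _ _)).trans hN
  have g4 : N4 ≤ N := ((le_max_right _ _).trans (le_max_right _ _)).trans hN
  have hy : 2 ≤ yy N := (hN3 N g3).2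
  have hr1 : (r : ℝ) ≤ yy N := by nlinarith
  have hrε : (r : ℝ) + (0 : ℕ) / Real.log N ≤ (1 - ε') * yy N := by
    rw [Nat.cast_zero, zero_div, add_zero]
    nlinarith
  have hA1 := hN1 N g1 hG r 0 hrε
  have hA2 := hN2 N g2 hG r (by linarith)
  set w : ℕ := ⌊cw * yy N⌋₊ with hwdef
  set H := (Tup r (Icc 1 N)).filter (fun h => Adm h) with hH
  have hsub : (Tup r (Icc 1 N)).filter (fun h => Adm h ∧ ε * (N : ℝ) ^ D <
        (((Tup D (Icc 1 N)).filter (fun s => DJ N w h s < (2 - ε) * pr N h)).card : ℝ)) ⊆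
      ((Tup r (Icc 1 N)).filter (fun h => Adm h ∧ ε' * (N : ℝ) ^ 0 <
        (((Tup 0 (Icc 1 N)).filter (fun s => ε' * pr N h < DJ N w h s)).card : ℝ))) ∪
      ((Tup r (Icc 1 N)).filter (fun h => Adm h ∧ ¬ (0 < pr N h ∧
        pr N h ≤ 2 * N * ((DZ w)⁻¹ / Real.log N) ^ r))) := by
    intro h hh
    rw [mem_filter] at hh
    rw [mem_union, mem_filter, mem_filter]
    by_contra hcon
    push Not at hcon
    obtain ⟨c1, c2⟩ := hcon
    have c1 := c1 hh.1 hh.2.1
    have c2 := c2 hh.1 hh.2.1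
    have hna : 1 ≤ nA w h := nA_ge_one w h hh.2.1
    have hclose : |(cnt N h : ℝ) - pr N h| ≤ ε' * pr N h := by
      by_contra hneg
      push Not at hneg
      have h5 : (Tup 0 (Icc 1 N)).filter (fun s => ε' * pr N h < DJ N w h s) =
          Tup 0 (Icc 1 N) := by
        refine filter_true_of_mem fun s _ => ?_
        rw [DJ_zero N w h hna s]
        exact hneg
      rw [h5, card_Tup, pow_zero, pow_zero] at c1
      push_cast at c1
      linarith
    have h6 := hN4 N g4 r D hr1 hrD w hwdef ((range (PP w)).filter (Good w h)) (Sh N h)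
      hna (pr N h) c2.1 (by
        rw [card_Sh]
        exact hclose.trans (mul_le_mul_of_nonneg_right hεε c2.1.le)) c2.2
    have h7 : (Tup D (Icc 1 N)).filter (fun s => DJ N w h s < (2 - ε) * pr N h) =
        (Tup D (Icc 1 N)).filter (fun s => ∑ T : Finset (Fin D),
          |(((Sh N h).filter (fun n => pat s n = T)).card : ℝ) -
          pr N h * ((∑ b ∈ (range (PP w)).filter (Good w h), QB N w s b T) /
            (((range (PP w)).filter (Good w h)).card : ℝ))| < (2 - ε) * pr N h) := by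
      refine filter_congr fun s _ => ?_
      rw [DJ_eq]
    rw [h7] at hh
    exact absurd h6 (not_le.2 hh.2.2)
  have hcard : (((Tup r (Icc 1 N)).filter (fun h => Adm h ∧ ε * (N : ℝ) ^ D <
        (((Tup D (Icc 1 N)).filter (fun s => DJ N w h s < (2 - ε) * pr N h)).card : ℝ))).card : ℝ) ≤
      (((Tup r (Icc 1 N)).filter (fun h => Adm h ∧ ε' * (N : ℝ) ^ 0 <
        (((Tup 0 (Icc 1 N)).filter (fun s => ε' * pr N h < DJ N w h s)).card : ℝ))).card : ℝ) +
      (((Tup r (Icc 1 N)).filter (fun h => Adm h ∧ ¬ (0 < pr N h ∧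
        pr N h ≤ 2 * N * ((DZ w)⁻¹ / Real.log N) ^ r))).card : ℝ) := by
    exact_mod_cast (card_le_card hsub).trans (card_union_le _ _)
  have hH0 : (0 : ℝ) ≤ H.card := Nat.cast_nonneg _
  refine hcard.trans ((add_le_add hA1 hA2).trans ?_)
  have : ε' * (H.card : ℝ) ≤ ε / 4 * H.card := mul_le_mul_of_nonneg_right hεε hH0
  have : 0 ≤ ε * (H.card : ℝ) := by positivity
  linarith

end Pool.Agent.Lib.LEN
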