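import Pool.Agent.Lib.LEN.TVFar
import Pool.Agent.Lib.LEN.DefsK

/-!
# LEN.JFarA: beyond the threshold, given that a tuple is prime
-/

set_option autoImplicit false

open Finset Filter

namespace Pool.Agent.Lib.LEN

open Pool.Agent.HLB Pool.Agent.HLT Pool.Agent.HLR Pool.Agent.Lib.GMV

namespace JFarAux

open TVCntAux GoodXAux LevelsAux TVFarAux

/-- The mean over the tuples in one class. -/
lemma mean_one {N w D : ℕ} (hN : 1 ≤ N) {μ a : ℝ} (hμ : 0 ≤ μ) (hμ1 : μ ≤ 1)
    (hL : 0 < Real.log N) (hq1 : (DZ w)⁻¹ / Real.log N ≤ 1)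
    (ha : a ≤ D * (μ / Real.log N * (1 - PP w / N))) (b : ℕ) :
    ∑ s ∈ Tup D (Icc 1 N), ∏ i, (1 - μ * qq N w b (s i)) ≤ (N : ℝ) ^ D * Real.exp (-a) := by
  classical
  have hNr : (0 : ℝ) < N := by exact_mod_cast hN
  have hDZ := DZ_pos w
  have hq : 0 ≤ (DZ w)⁻¹ / Real.log N := by positivity
  rw [sum_prod D (Icc 1 N) (fun m => 1 - μ * qq N w b m)]
  have h2 : ∑ m ∈ Icc 1 N, (1 - μ * qq N w b m) =
      N - μ * ((DZ w)⁻¹ / Real.log N) * cc N w b := by
    rw [Finset.sum_sub_distrib, ← Finset.mul_sum, Finset.sum_const, Nat.card_Icc,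
      Nat.add_sub_cancel, nsmul_eq_mul, mul_one]
    congr 1
    rw [mul_assoc]
    congr 1
    unfold qq cc
    rw [← Finset.sum_filter, Finset.sum_const, nsmul_eq_mul, mul_comm]
  have h3 := cc_ge N w b
  have h4 : (N : ℝ) - μ * ((DZ w)⁻¹ / Real.log N) * cc N w b ≤
      N * Real.exp (-(μ / Real.log N * (1 - PP w / N))) := by
    have h5 : μ * ((DZ w)⁻¹ / Real.log N) * (DZ w * (N - PP w)) ≤
        μ * ((DZ w)⁻¹ / Real.log N) * cc N w b :=
      mul_le_mul_of_nonneg_left h3 (by positivity)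
    have h6 : μ * ((DZ w)⁻¹ / Real.log N) * (DZ w * (N - PP w)) =
        N * (μ / Real.log N * (1 - PP w / N)) := by
      field_simp
    have h7 := Real.add_one_le_exp (-(μ / Real.log N * (1 - PP w / N)))
    have h8 := mul_le_mul_of_nonneg_left h7 hNr.le
    linarith
  have h9 : 0 ≤ ∑ m ∈ Icc 1 N, (1 - μ * qq N w b m) := by
    refine Finset.sum_nonneg fun m _ => ?_
    have g1 := qq_nonneg b m hq
    have g2 := qq_le b m hq
    nlinarith
  have h10 : (∑ m ∈ Icc 1 N, (1 - μ * qq N w b m)) ^ D ≤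
      (N * Real.exp (-(μ / Real.log N * (1 - PP w / N)))) ^ D :=
    pow_le_pow_left₀ h9 (by rw [h2]; exact h4) D
  refine h10.trans ?_
  rw [mul_pow, ← Real.exp_nat_mul]
  refine mul_le_mul_of_nonneg_left (Real.exp_le_exp.2 ?_) (by positivity)
  linarith

/-- Beyond the threshold, `q`-part: the size of `log q`. -/
lemma logq (δ cw : ℝ) (hδ : 0 < δ) (hδ1 : δ ≤ 1 / 2) (hcw : 0 < cw) : ∃ N0 : ℕ, ∀ N : ℕ,
    N0 ≤ N → ∀ w : ℕ, w = ⌊cw * yy N⌋₊ →
    0 < (DZ w)⁻¹ / Real.log N ∧ (DZ w)⁻¹ / Real.log N ≤ 1 ∧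
    Real.log ((DZ w)⁻¹ / Real.log N) ≤ -((1 - δ) * Real.log (Real.log N)) ∧
    (PP w : ℝ) / N ≤ δ := by
  have hlog : Tendsto (fun N : ℕ => Real.log (N : ℝ)) atTop atTop :=
    Real.tendsto_log_atTop.comp tendsto_natCast_atTop_atTop
  have hll : Tendsto (fun N : ℕ => Real.log (Real.log (N : ℝ))) atTop atTop :=
    Real.tendsto_log_atTop.comp hlog
  have hG : ∀ᶠ l : ℝ in atTop, Real.log l + 8 ≤ δ * l := by
    have h1 := (Real.isLittleO_log_id_atTop).bound (c := δ / 2) (by positivity)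
    filter_upwards [h1, eventually_ge_atTop 1, eventually_ge_atTop (16 / δ)] with l h2 h3 h4
    rw [Real.norm_of_nonneg (Real.log_nonneg h3), id, Real.norm_of_nonneg (by linarith)] at h2
    rw [div_le_iff₀ hδ] at h4
    linarith
  obtain ⟨N1, hN1⟩ := eventually_atTop.1 (hll.eventually hG)
  obtain ⟨N2, hN2⟩ := ll_big (max cw (max 1 (7 * cw)))
  obtain ⟨S3, hS3⟩ := small1 (s := 1 / 2) (u := δ) 0 (by norm_num) hδ
  obtain ⟨N3, hN3⟩ := large (max S3 (3 / cw))
  refine ⟨max N1 (max N2 N3), fun N hN w hw => ?_⟩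
  have hNN1 : N1 ≤ N := (le_max_left _ _).trans hN
  have hNN2 : N2 ≤ N := ((le_max_left _ _).trans (le_max_right _ _)).trans hN
  have hNN3 : N3 ≤ N := ((le_max_right _ _).trans (le_max_right _ _)).trans hN
  have hGl := hN1 N hNN1
  have hlc := hN2 N hNN2
  obtain ⟨he, hy⟩ := hN3 N hNN3
  simp only [max_le_iff] at hlc hy
  obtain ⟨hlc1, hlo, hlc2⟩ := hlc
  obtain ⟨hyS3, hyc⟩ := hy
  have hl0 : 0 < Real.log N := (Real.exp_pos 1).trans_le he
  have hN0 := pos_of_log he
  have hyp := yy_pos he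
  have hlN : Real.exp (Real.log N) = N := Real.exp_log hN0
  have hyL : yy N ≤ Real.log N := by
    have := yy_le (K := 1) he hlo
    linarith
  have hw1 : (w : ℝ) ≤ cw * yy N := by
    rw [hw]
    exact Nat.floor_le (by positivity)
  have hw2 : 2 ≤ w := by
    rw [hw]
    apply Nat.le_floor
    rw [div_le_iff₀ hcw] at hyc
    push_cast
    linarith
  have hwL : (w : ℝ) ≤ Real.log N := by
    have := yy_le (K := cw) he hlc1
    linarith
  have hDZ := DZ_pos w
  obtain ⟨q, hq⟩ : ∃ q : ℝ, q = (DZ w)⁻¹ / Real.log N := ⟨_, rfl⟩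
  have hq0 : 0 < q := by rw [hq]; positivity
  have hlq : Real.log q ≤ -((1 - δ) * Real.log (Real.log N)) := by
    have h1 := SPSAux.DZ_inv w hw2
    have hw2r : (2 : ℝ) ≤ w := by exact_mod_cast hw2
    have h2 : 0 < Real.log w := Real.log_pos (by linarith)
    have h3 : Real.log w ≤ Real.log (Real.log N) := Real.log_le_log (by linarith) hwL
    have h4 : q ≤ 2 * Real.exp 7 * Real.log (Real.log N) / Real.log N := by
      rw [hq]
      refine div_le_div_of_nonneg_right (h1.trans ?_) hl0.le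
      exact mul_le_mul_of_nonneg_left h3 (by positivity)
    have h5 := Real.log_le_log hq0 h4
    have h6 : 0 < Real.log (Real.log N) := by linarith
    rw [Real.log_div (by positivity) hl0.ne', Real.log_mul (by positivity) h6.ne',
      Real.log_mul (by norm_num) (by positivity), Real.log_exp] at h5
    have h7 := Real.log_two_lt_d9
    linarith
  have hq1 : q ≤ 1 := by
    have h1 : Real.log q ≤ 0 := by
      refine hlq.trans ?_
      have : 0 ≤ (1 - δ) * Real.log (Real.log N) := by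
        apply mul_nonneg <;> linarith
      linarith
    rw [← Real.exp_log hq0]
    exact Real.exp_le_one_iff.2 h1
  rw [← hq]
  refine ⟨hq0, hq1, hlq, ?_⟩
  rw [div_le_iff₀ hN0]
  have h1 : (PP w : ℝ) ≤ 4 ^ w := by exact_mod_cast Cls0.PP_le w
  have h2 := four_pow hw1
  have h3 : Real.exp (7 / 5 * (cw * yy N)) ≤ Real.exp (Real.log N / 2) := by
    refine Real.exp_le_exp.2 ?_
    have := yy_le (K := 7 * cw) he hlc2
    nlinarith
  have h4 := hS3 (Real.log N) (hyS3.trans hyL)
  calc (PP w : ℝ) ≤ Real.exp (Real.log N / 2) := h1.trans (h2.trans h3)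
    _ = Real.exp (0 - 1 / 2 * Real.log N) * Real.exp (Real.log N) := by
        rw [← Real.exp_add]
        congr 1
        ring
    _ ≤ δ * Real.exp (Real.log N) := mul_le_mul_of_nonneg_right h4 (Real.exp_pos _).le
    _ = δ * N := by rw [hlN]

open scoped Classical in
/-- The distance from below, for a nonempty set `G` of classes and a set `S` of integers. -/
lemma dist_ge' {N w D : ℕ} (s : Fin D → ℕ) (G S : Finset ℕ) (hG : 0 < G.card) {t R p : ℝ}
    (ht : 0 ≤ t) (hp : 0 ≤ p)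
    (hq : 0 < (DZ w)⁻¹ / Real.log N) (hq1 : (DZ w)⁻¹ / Real.log N ≤ 1) :
    S.card + p - 2 * p * ((Real.exp (t * R) * ∑ b ∈ G,
      ∏ i, (1 - (1 - Real.exp (-t)) * qq N w b (s i))) / G.card +
      S.card * Real.exp (R * Real.log ((DZ w)⁻¹ / Real.log N))) ≤
    ∑ T : Finset (Fin D), |((S.filter (fun n => pat s n = T)).card : ℝ) -
      p * ((∑ b ∈ G, QB N w s b T) / G.card)| := by
  have hGr : (0 : ℝ) < G.card := by exact_mod_cast hG
  obtain ⟨E, hE⟩ : ∃ E : Finset (Finset (Fin D)), E = S.image (pat s) := ⟨_, rfl⟩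
  have hmem : ∀ n ∈ S, pat s n ∈ E := fun n hn => by
    rw [hE]
    exact Finset.mem_image_of_mem _ hn
  have hcard : (E.card : ℝ) ≤ S.card := by
    rw [hE]
    exact_mod_cast Finset.card_image_le
  obtain ⟨F, hF⟩ : ∃ F : Finset (Fin D) → ℝ, F = fun T => ((S.filter (fun n => pat s n = T)).card : ℝ) :=
    ⟨_, rfl⟩
  obtain ⟨Q, hQ⟩ : ∃ Q : Finset (Fin D) → ℝ, Q = fun T => (∑ b ∈ G, QB N w s b T) / G.card :=
    ⟨_, rfl⟩
  have hFE : ∑ T ∈ E, F T = S.card := by
    rw [hF]
    have h1 := Finset.card_eq_sum_card_fiberwise (f := fun n => pat s n) (s := S)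
      (t := E) (fun n hn => hmem n hn)
    rw [h1]
    push_cast
    rfl
  have hQ0 : ∀ T, 0 ≤ Q T := fun T => by
    rw [hQ]
    exact div_nonneg (Finset.sum_nonneg fun b _ => QB_nonneg s b T hq.le hq1) hGr.le
  have hQ1 : ∑ T : Finset (Fin D), Q T = 1 := by
    rw [hQ]
    show ∑ T : Finset (Fin D), (∑ b ∈ G, QB N w s b T) / G.card = 1
    rw [← Finset.sum_div, Finset.sum_comm, Finset.sum_congr rfl fun b _ => sum_QB s b,
      Finset.sum_const, nsmul_eq_mul, mul_one, div_self hGr.ne']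
  have hQE : ∑ T ∈ E, Q T ≤ (Real.exp (t * R) * ∑ b ∈ G,
      ∏ i, (1 - (1 - Real.exp (-t)) * qq N w b (s i))) / G.card +
      S.card * Real.exp (R * Real.log ((DZ w)⁻¹ / Real.log N)) := by
    have h1 : ∑ T ∈ E, Q T =
        ∑ T ∈ E.filter (fun T => (T.card : ℝ) ≤ R), Q T +
        ∑ T ∈ E.filter (fun T => ¬ (T.card : ℝ) ≤ R), Q T :=
      (Finset.sum_filter_add_sum_filter_not E _ _).symm
    rw [h1]
    refine add_le_add ?_ ?_
    · refine (Finset.sum_le_sum_of_subset_of_nonneg (t := univ.filter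
        (fun T : Finset (Fin D) => (T.card : ℝ) ≤ R))
        (Finset.filter_subset_filter _ (Finset.subset_univ E)) fun T _ _ => hQ0 T).trans ?_
      rw [hQ]
      show ∑ T ∈ univ.filter (fun T : Finset (Fin D) => (T.card : ℝ) ≤ R),
        (∑ b ∈ G, QB N w s b T) / G.card ≤ _
      rw [← Finset.sum_div, Finset.sum_comm]
      refine div_le_div_of_nonneg_right ?_ hGr.le
      rw [Finset.mul_sum]
      exact Finset.sum_le_sum fun b _ => low_mass s b ht hq.le hq1
    · have h2 : ∀ T ∈ E.filter (fun T => ¬ (T.card : ℝ) ≤ R), Q T ≤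
          Real.exp (R * Real.log ((DZ w)⁻¹ / Real.log N)) := by
        intro T hT
        have hT2 := (Finset.mem_filter.1 hT).2
        rw [hQ]
        show (∑ b ∈ G, QB N w s b T) / G.card ≤ _
        rw [div_le_iff₀ hGr]
        calc ∑ b ∈ G, QB N w s b T
            ≤ ∑ b ∈ G, Real.exp (R * Real.log ((DZ w)⁻¹ / Real.log N)) :=
              Finset.sum_le_sum fun b _ => high_mass s b T (not_le.1 hT2).le hq hq1
          _ = _ := by
              rw [Finset.sum_const, nsmul_eq_mul]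
              ring
      refine (Finset.sum_le_sum h2).trans ?_
      rw [Finset.sum_const, nsmul_eq_mul]
      refine mul_le_mul_of_nonneg_right ?_ (Real.exp_pos _).le
      refine le_trans ?_ hcard
      exact_mod_cast Finset.card_filter_le _ _
  have hsplit : ∀ f : Finset (Fin D) → ℝ, ∑ T : Finset (Fin D), f T =
      ∑ T ∈ E, f T + ∑ T ∈ univ \ E, f T := by
    intro f
    rw [add_comm]
    exact (Finset.sum_sdiff (Finset.subset_univ E)).symm
  have hA : ∑ T ∈ E, F T - p * ∑ T ∈ E, Q T ≤ ∑ T ∈ E, |F T - p * Q T| := by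
    rw [Finset.mul_sum, ← Finset.sum_sub_distrib]
    exact Finset.sum_le_sum fun T _ => le_abs_self _
  have hB : p * ∑ T ∈ univ \ E, Q T ≤ ∑ T ∈ univ \ E, |F T - p * Q T| := by
    rw [Finset.mul_sum]
    refine Finset.sum_le_sum fun T hT => ?_
    have h3 : F T = 0 := by
      rw [hF]
      show (((S.filter (fun n => pat s n = T)).card : ℕ) : ℝ) = 0
      rw [Nat.cast_eq_zero, Finset.card_eq_zero, Finset.filter_eq_empty_iff]
      intro n hn h4
      exact (Finset.mem_sdiff.1 hT).2 (h4 ▸ hmem n hn)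
    rw [h3, zero_sub, abs_neg]
    exact le_abs_self _
  have h5 := hsplit (fun T => |F T - p * Q T|)
  have h6 := hsplit Q
  rw [hQ1] at h6
  have h7 : ∑ T ∈ univ \ E, Q T = 1 - ∑ T ∈ E, Q T := by linarith
  rw [h7] at hB
  rw [hFE] at hA
  have h8 : p * ∑ T ∈ E, Q T ≤ p * ((Real.exp (t * R) * ∑ b ∈ G,
      ∏ i, (1 - (1 - Real.exp (-t)) * qq N w b (s i))) / G.card +
      S.card * Real.exp (R * Real.log ((DZ w)⁻¹ / Real.log N))) :=
    mul_le_mul_of_nonneg_left hQE hp
  have h9 : ∑ T : Finset (Fin D), |((S.filter (fun n => pat s n = T)).card : ℝ) -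
      p * ((∑ b ∈ G, QB N w s b T) / G.card)| = ∑ T : Finset (Fin D), |F T - p * Q T| := by
    rw [hF, hQ]
  rw [h9]
  linarith

end JFarAux

open TVFarAux TVCntAux GoodXAux LevelsAux JFarAux in
open scoped Classical in
/-- Beyond the threshold `r + D / log N = y`. -/
theorem j_far_core (ε cw : ℝ) (hε : 0 < ε) (hcw : 0 < cw) : ∃ N0 : ℕ, ∀ N : ℕ, N0 ≤ N →
    ∀ r D : ℕ, (r : ℝ) ≤ yy N → (1 + ε) * yy N ≤ r + D / Real.log N →
    ∀ w : ℕ, w = ⌊cw * yy N⌋₊ → ∀ (G S : Finset ℕ), 0 < G.card → ∀ p : ℝ, 0 < p →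
    |(S.card : ℝ) - p| ≤ ε / 4 * p → p ≤ 2 * N * ((DZ w)⁻¹ / Real.log N) ^ r →
    (((Tup D (Icc 1 N)).filter (fun s => ∑ T : Finset (Fin D),
      |((S.filter (fun n => pat s n = T)).card : ℝ) -
      p * ((∑ b ∈ G, QB N w s b T) / G.card)| < (2 - ε) * p)).card : ℝ) ≤
      ε * (N : ℝ) ^ D := by
  obtain ⟨δ, hδ⟩ : ∃ δ : ℝ, δ = ε / (8 * (1 + ε)) := ⟨_, rfl⟩
  have hδp : 0 < δ := by rw [hδ]; positivity
  have hδe : (1 + ε) * δ = ε / 8 := by
    rw [hδ]
    field_simp
  have hδ1 : δ ≤ 1 / 8 := by nlinarith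
  obtain ⟨t, ht⟩ : ∃ t : ℝ, t = δ / 4 := ⟨_, rfl⟩
  have htp : 0 < t := by rw [ht]; positivity
  obtain ⟨N1, hN1⟩ := logq t cw htp (by linarith) hcw
  obtain ⟨N4, hN4⟩ := logq δ cw hδp (by linarith) hcw
  obtain ⟨S1, hS1⟩ := small1 (s := t * (δ / 2) * ε) (u := ε / 8 * ε) 0 (by positivity)
    (by positivity)
  obtain ⟨S2, hS2⟩ := small1 (s := ε / 2) (u := ε / 8 / (2 * (1 + ε / 4))) 0 (by positivity)
    (by positivity)
  obtain ⟨N2, hN2⟩ := ll_big 1
  obtain ⟨N3, hN3⟩ := large (max S1 S2)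
  refine ⟨max (max N1 N4) (max N2 N3), fun N hN r D hr hD w hw G S hG p hp hSp hpq => ?_⟩
  have hNN1 : N1 ≤ N := ((le_max_left _ _).trans (le_max_left _ _)).trans hN
  have hNN4 : N4 ≤ N := ((le_max_right _ _).trans (le_max_left _ _)).trans hN
  have hNN2 : N2 ≤ N := ((le_max_left _ _).trans (le_max_right _ _)).trans hN
  have hNN3 : N3 ≤ N := ((le_max_right _ _).trans (le_max_right _ _)).trans hN
  obtain ⟨hq0, hq1, -, hPN⟩ := hN1 N hNN1 w hw
  obtain ⟨-, -, hlq, -⟩ := hN4 N hNN4 w hw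
  have hlo := hN2 N hNN2
  obtain ⟨he, hy⟩ := hN3 N hNN3
  obtain ⟨hyS1, hyS2⟩ := max_le_iff.1 hy
  have hl0 : 0 < Real.log N := (Real.exp_pos 1).trans_le he
  have hN0 := pos_of_log he
  have hNn : 1 ≤ N := by
    have : 0 < N := by exact_mod_cast hN0
    exact this
  have hyp := yy_pos he
  have hlN : Real.exp (Real.log N) = N := Real.exp_log hN0
  have hyL : yy N ≤ Real.log N := by
    have := yy_le (K := 1) he hlo
    linarith
  have hLl : yy N * Real.log (Real.log N) = Real.log N := by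
    unfold yy
    have : Real.log (Real.log N) ≠ 0 := by linarith
    field_simp
  have hGr : (0 : ℝ) < G.card := by exact_mod_cast hG
  obtain ⟨q, hq⟩ : ∃ q : ℝ, q = (DZ w)⁻¹ / Real.log N := ⟨_, rfl⟩
  rw [← hq] at hq0 hq1 hlq hpq
  obtain ⟨A, hA⟩ : ∃ A : ℝ, A = D / Real.log N := ⟨_, rfl⟩
  rw [← hA] at hD
  have hA1 : ε * yy N ≤ A := by linarith
  have hA0 : 0 ≤ A := le_trans (by positivity) hA1
  obtain ⟨R, hR⟩ : ∃ R : ℝ, R = (1 - δ) * A := ⟨_, rfl⟩
  have hR0 : 0 ≤ R := by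
    rw [hR]
    apply mul_nonneg _ hA0
    linarith
  -- many primes
  have hSle : (S.card : ℝ) ≤ (1 + ε / 4) * p := by
    have := (abs_le.1 hSp).2
    linarith
  have hhigh : S.card * Real.exp (R * Real.log q) ≤ ε / 8 := by
    have h1 : (r + R) * Real.log q ≤ - ((1 + ε / 2) * Real.log N) := by
      have g1 : (1 - δ) * ((1 + ε) * yy N) ≤ r + R := by
        rw [hR]
        have : (1 - δ) * ((1 + ε) * yy N) ≤ (1 - δ) * (r + A) :=
          mul_le_mul_of_nonneg_left hD (by linarith)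
        have g2 : (1 - δ) * (r : ℝ) ≤ 1 * r :=
          mul_le_mul_of_nonneg_right (by linarith) (Nat.cast_nonneg r)
        linarith
      have g3 : 0 ≤ (r : ℝ) + R := by positivity
      have g4 := mul_le_mul_of_nonneg_left hlq g3
      have g5 : (1 - δ) * ((1 + ε) * yy N) * ((1 - δ) * Real.log (Real.log N)) ≤
          (r + R) * ((1 - δ) * Real.log (Real.log N)) := by
        refine mul_le_mul_of_nonneg_right g1 ?_
        apply mul_nonneg <;> linarith
      have g6 : (1 - δ) * ((1 + ε) * yy N) * ((1 - δ) * Real.log (Real.log N)) =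
          (1 + ε) * (1 - δ) * (1 - δ) * (yy N * Real.log (Real.log N)) := by ring
      rw [g6, hLl] at g5
      have g7 : 1 + ε / 2 ≤ (1 + ε) * (1 - δ) * (1 - δ) := by
        have e : (1 + ε) * (1 - δ) * (1 - δ) = (1 + ε) - 2 * ((1 + ε) * δ) +
          (1 + ε) * δ * δ := by ring
        rw [e, hδe]
        have : 0 ≤ ε / 8 * δ := by positivity
        linarith
      have g8 := mul_le_mul_of_nonneg_right g7 hl0.le
      linarith
    have h2 : q ^ r * Real.exp (R * Real.log q) = Real.exp ((r + R) * Real.log q) := by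
      rw [add_mul, Real.exp_add, Real.exp_nat_mul, Real.exp_log hq0]
    calc S.card * Real.exp (R * Real.log q)
        ≤ ((1 + ε / 4) * (2 * N * q ^ r)) * Real.exp (R * Real.log q) := by
          refine mul_le_mul_of_nonneg_right (hSle.trans ?_) (Real.exp_pos _).le
          exact mul_le_mul_of_nonneg_left hpq (by positivity)
      _ = 2 * (1 + ε / 4) * (N * (q ^ r * Real.exp (R * Real.log q))) := by ring
      _ = 2 * (1 + ε / 4) * (Real.exp (Real.log N) * Real.exp ((r + R) * Real.log q)) := by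
          rw [h2, hlN]
      _ ≤ 2 * (1 + ε / 4) * (Real.exp (Real.log N) *
            Real.exp (- ((1 + ε / 2) * Real.log N))) := by
          refine mul_le_mul_of_nonneg_left ?_ (by positivity)
          exact mul_le_mul_of_nonneg_left (Real.exp_le_exp.2 h1) (Real.exp_pos _).le
      _ = 2 * (1 + ε / 4) * Real.exp (0 - ε / 2 * Real.log N) := by
          rw [← Real.exp_add]
          congr 2
          ring
      _ ≤ 2 * (1 + ε / 4) * (ε / 8 / (2 * (1 + ε / 4))) :=
          mul_le_mul_of_nonneg_left (hS2 (Real.log N) (hyS2.trans hyL)) (by positivity)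
      _ = ε / 8 := by field_simp
  -- the mean
  have hμ0 : 0 ≤ 1 - Real.exp (-t) := by
    have : Real.exp (-t) ≤ 1 := Real.exp_le_one_iff.2 (by linarith)
    linarith
  have hμ1 : 1 - Real.exp (-t) ≤ 1 := by
    have := Real.exp_pos (-t)
    linarith
  have hμt : t * (1 - t) ≤ 1 - Real.exp (-t) := by
    have h := Real.abs_exp_sub_one_sub_id_le (x := -t) (by
      rw [abs_neg, abs_of_pos htp]
      linarith)
    have := le_abs_self (Real.exp (-t) - 1 - -t)
    nlinarith
  have hmean := fun b => mean_one (D := D) (w := w) hNn hμ0 hμ1 hl0 (by rw [← hq]; exact hq1)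
    (le_refl _) b
  -- Markov
  refine markov (Tup D (Icc 1 N)) _ (fun s => (Real.exp (t * R) * ∑ b ∈ G,
      ∏ i, (1 - (1 - Real.exp (-t)) * qq N w b (s i))) / G.card) (a := ε / 8)
      (by positivity) ?_ ?_ ?_
  · intro s _
    refine div_nonneg (mul_nonneg (Real.exp_pos _).le (Finset.sum_nonneg fun b _ =>
      Finset.prod_nonneg fun i _ => ?_)) hGr.le
    have g1 := qq_nonneg (N := N) (w := w) b (s i) (by rw [← hq]; exact hq0.le)
    have g2 := qq_le (N := N) (w := w) b (s i) (by rw [← hq]; exact hq0.le)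
    rw [← hq] at g2
    nlinarith
  · intro s _ hs
    have h1 := dist_ge' (N := N) (w := w) s G S hG (t := t) (R := R) (p := p) htp.le hp.le
      (by rw [← hq]; exact hq0) (by rw [← hq]; exact hq1)
    rw [← hq] at h1
    have h2 := (abs_le.1 hSp).1
    by_contra hcon
    rw [not_le] at hcon
    have h3 : 2 * p * ((Real.exp (t * R) * ∑ b ∈ G,
        ∏ i, (1 - (1 - Real.exp (-t)) * qq N w b (s i))) / G.card +
        S.card * Real.exp (R * Real.log q)) ≤ 2 * p * (ε / 8 + ε / 8) :=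
      mul_le_mul_of_nonneg_left (add_le_add hcon.le hhigh) (by positivity)
    have h4 : 0 < ε * p := by positivity
    linarith
  · have h1 : ∀ s : Fin D → ℕ, (Real.exp (t * R) * ∑ b ∈ G,
        ∏ i, (1 - (1 - Real.exp (-t)) * qq N w b (s i))) / G.card =
        Real.exp (t * R) / G.card * (∑ b ∈ G,
        ∏ i, (1 - (1 - Real.exp (-t)) * qq N w b (s i))) := fun s => by ring
    rw [Finset.sum_congr rfl fun s _ => h1 s, ← Finset.mul_sum, Finset.sum_comm]
    have h2 : ∑ b ∈ G, ∑ s ∈ Tup D (Icc 1 N),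
        ∏ i, (1 - (1 - Real.exp (-t)) * qq N w b (s i)) ≤ G.card * ((N : ℝ) ^ D *
        Real.exp (-(D * ((1 - Real.exp (-t)) / Real.log N * (1 - PP w / N))))) := by
      refine (Finset.sum_le_sum fun b _ => hmean b).trans (le_of_eq ?_)
      rw [Finset.sum_const, nsmul_eq_mul]
    have h3 : t * R + -(D * ((1 - Real.exp (-t)) / Real.log N * (1 - PP w / N))) ≤
        -(t * (δ / 2) * ε * yy N) := by
      have g2 : 1 - t ≤ 1 - (PP w : ℝ) / N := by linarith
      have g3 : t * (1 - t) * (1 - t) ≤ (1 - Real.exp (-t)) * (1 - PP w / N) :=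
        mul_le_mul hμt g2 (by linarith) hμ0
      have g4 : t * (1 - 2 * t) ≤ t * (1 - t) * (1 - t) := by
        have e : t * (1 - t) * (1 - t) = t * (1 - 2 * t) + t ^ 3 := by ring
        rw [e]
        have : 0 ≤ t ^ 3 := by positivity
        linarith
      have g5 : A * (t * (1 - 2 * t)) ≤
          A * ((1 - Real.exp (-t)) * (1 - PP w / N)) :=
        mul_le_mul_of_nonneg_left (g4.trans g3) hA0
      have g6 : (D : ℝ) * ((1 - Real.exp (-t)) / Real.log N * (1 - PP w / N)) =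
          A * ((1 - Real.exp (-t)) * (1 - PP w / N)) := by
        rw [hA]
        ring
      rw [g6, hR]
      have g7 : t * ((1 - δ) * A) - A * (t * (1 - 2 * t)) = -(t * (δ / 2) * A) := by
        have : δ = 4 * t := by rw [ht]; ring
        rw [this]
        ring
      have g8 : t * (δ / 2) * (ε * yy N) ≤ t * (δ / 2) * A :=
        mul_le_mul_of_nonneg_left hA1 (by positivity)
      have g9 : t * (δ / 2) * (ε * yy N) = t * (δ / 2) * ε * yy N := by ring
      linarith
    calc Real.exp (t * R) / G.card * ∑ b ∈ G, ∑ s ∈ Tup D (Icc 1 N),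
          ∏ i, (1 - (1 - Real.exp (-t)) * qq N w b (s i))
        ≤ Real.exp (t * R) / G.card * (G.card * ((N : ℝ) ^ D *
          Real.exp (-(D * ((1 - Real.exp (-t)) / Real.log N * (1 - PP w / N)))))) :=
          mul_le_mul_of_nonneg_left h2 (by positivity)
      _ = (N : ℝ) ^ D *
          Real.exp (t * R + -(D * ((1 - Real.exp (-t)) / Real.log N * (1 - PP w / N)))) := by
          rw [Real.exp_add]
          field_simp
      _ ≤ (N : ℝ) ^ D * Real.exp (0 - t * (δ / 2) * ε * yy N) := by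
          refine mul_le_mul_of_nonneg_left (Real.exp_le_exp.2 ?_) (by positivity)
          linarith
      _ ≤ (N : ℝ) ^ D * (ε / 8 * ε) :=
          mul_le_mul_of_nonneg_left (hS1 (yy N) hyS1) (by positivity)
      _ = ε / 8 * (ε * (N : ℝ) ^ D) := by ring

end Pool.Agent.Lib.LEN
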