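import Pool.Agent.Lib.LEN.JClass
import Pool.Agent.Lib.LEN.JDist
import Pool.Agent.Lib.LEN.JFarA
import Pool.Agent.Lib.LEN.Cls
import Pool.Agent.Lib.LEN.Sing
import Pool.Agent.Lib.LEN.GoodX

/-!
# LEN.JFin: Hardy-Littlewood and Granville's model together below the line `r + D / log N = log N / log log N`
-/

set_option autoImplicit false

open Finset Filter

namespace Pool.Agent.Lib.LEN

open Pool.Agent.HLB Pool.Agent.HLT Pool.Agent.HLR Pool.Agent.Lib.GMV

namespace JFinAux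

lemma mem_AC {w r : ℕ} {a : Fin r → ℕ} (ha : a ∈ AC w r) :
    a ∈ Fintype.piFinset (fun _ : Fin r => range (PP w)) ∧ ∀ p ∈ Nat.primesLE w, nuI a p < p := by
  unfold AC at ha
  rw [mem_filter] at ha
  exact ha

lemma lam_pos (N w : ℕ) (hN : 2 ≤ N) {r : ℕ} (a : Fin r → ℕ) (ha : 1 ≤ nA w a) :
    0 < lam N w a := by
  unfold lam MM
  have h1 : 0 < Real.log N := Real.log_pos (by exact_mod_cast hN)
  have h2 : 0 < (DZ w)⁻¹ := inv_pos.2 (DZ_pos w)
  have h3 : (0 : ℝ) < nA w a := by exact_mod_cast ha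
  have h4 : (0 : ℝ) < N := by exact_mod_cast (by omega : 0 < N)
  have h5 : (0 : ℝ) < PP w := by exact_mod_cast Cls0.PP_pos w
  positivity

lemma pr_nonneg (N : ℕ) {r : ℕ} (h : Fin r → ℕ) (hh : Adm h) : 0 ≤ pr N h := by
  unfold pr
  have h1 := SI_nonneg h hh.1
  have h2 : 0 ≤ Real.log N := Real.log_natCast_nonneg N
  positivity

lemma SI_zero (h : Fin 0 → ℕ) : SI h = 1 := by
  unfold SI
  have h1 : ∀ p : Nat.Primes, locI h p = 1 := by
    intro p
    unfold locI nuI
    simp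
  simp only [h1]
  exact tprod_one

lemma pr_zero (N : ℕ) (h : Fin 0 → ℕ) : pr N h = N := by
  unfold pr
  rw [SI_zero]
  simp

lemma nA_zero (w : ℕ) (a : Fin 0 → ℕ) : nA w a = PP w := by
  unfold nA Good
  simp

lemma lam_zero (N w : ℕ) (a : Fin 0 → ℕ) : lam N w a = N := by
  unfold lam MM
  rw [nA_zero]
  have h5 : (PP w : ℝ) ≠ 0 := by exact_mod_cast (Cls0.PP_pos w).ne'
  field_simp

lemma Adm_zero (h : Fin 0 → ℕ) : Adm h := by
  refine ⟨fun i => i.elim0, fun p hp => ?_⟩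
  unfold nuI
  simpa using hp.pos

lemma DC_nonneg (N w : ℕ) {r D : ℕ} (h : Fin r → ℕ) (s : Fin D → ℕ) : 0 ≤ DC N w h s :=
  sum_nonneg fun _ _ => abs_nonneg _

lemma size (cw : ℝ) : ∃ w0 : ℕ, ∀ w N r : ℕ, w0 ≤ w → 4 ^ (100 * w) ≤ N →
    (r : ℝ) ≤ 4 / cw * w → 8 * r * PP w ≤ N := by
  refine ⟨max 1 ⌈32 / cw⌉₊, ?_⟩
  intro w N r hw hN hr
  have hw1 : 1 ≤ w := (le_max_left _ _).trans hw
  have hw2 : 32 / cw ≤ w := Nat.ceil_le.1 ((le_max_right _ _).trans hw)
  have h1 : 8 * (r : ℝ) ≤ (w : ℝ) ^ 2 := by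
    have h2 : (0 : ℝ) ≤ w := Nat.cast_nonneg _
    calc 8 * (r : ℝ) ≤ 8 * (4 / cw * w) := by linarith
      _ = 32 / cw * w := by ring
      _ ≤ w * w := mul_le_mul_of_nonneg_right hw2 h2
      _ = (w : ℝ) ^ 2 := by ring
  have h2 : 8 * r ≤ w ^ 2 := by exact_mod_cast h1
  have h3 : w ^ 2 ≤ 4 ^ w := by
    have h4 : w < 2 ^ w := Nat.lt_two_pow_self
    calc w ^ 2 ≤ (2 ^ w) ^ 2 := Nat.pow_le_pow_left h4.le 2
      _ = 4 ^ w := by rw [← pow_mul, mul_comm, pow_mul]; norm_num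
  calc 8 * r * PP w ≤ 4 ^ w * 4 ^ w := Nat.mul_le_mul (h2.trans h3) (Cls0.PP_le w)
    _ = 4 ^ (w + w) := by rw [pow_add]
    _ ≤ 4 ^ (100 * w) := Nat.pow_le_pow_right (by norm_num) (by omega)
    _ ≤ N := hN

/-- Two-fold Markov inequality in a class. -/
lemma markov2 {ι κ : Type*} (H : Finset ι) (S : Finset κ) (F : ι → κ → ℝ)
    (hF : ∀ h ∈ H, ∀ s ∈ S, 0 ≤ F h s) (x y V : ℝ) (hx : 0 < x)
    (hV : ∑ h ∈ H, ∑ s ∈ S, F h s ≤ V) :
    ((H.filter (fun h => y < ((S.filter (fun s => x < F h s)).card : ℝ))).card : ℝ) * (x * y) ≤ V := by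
  refine le_trans ?_ hV
  have h1 : ∀ h ∈ H, x * ((S.filter (fun s => x < F h s)).card : ℝ) ≤ ∑ s ∈ S, F h s := by
    intro h hh
    rw [mul_comm, ← nsmul_eq_mul, ← sum_const]
    refine (sum_le_sum (f := fun _ => x) (g := fun s => F h s)
      fun s hs => (mem_filter.1 hs).2.le).trans ?_
    exact sum_le_sum_of_subset_of_nonneg (filter_subset _ _) fun s hs _ => hF h hh s hs
  rw [← nsmul_eq_mul, ← sum_const]
  refine (sum_le_sum (f := fun _ => x * y) (g := fun h => ∑ s ∈ S, F h s) fun h hh => ?_).trans ?_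
  · rw [mem_filter] at hh
    refine le_trans ?_ (h1 h hh.1)
    exact mul_le_mul_of_nonneg_left hh.2.le hx.le
  · exact sum_le_sum_of_subset_of_nonneg (filter_subset _ _) fun h hh _ =>
      sum_nonneg fun s hs => hF h hh s hs

end JFinAux

open JFinAux

open scoped Classical in
/-- `j_half` for small `ε` and `r ≥ 1`. -/
theorem j_half_pos (C1 cA : ℝ) (h1 : 0 < C1) (hA : 0 < cA) (cw d B' : ℝ) (hcw : 0 < cw)
    (hd : 0 < d) (hB' : 1 ≤ B') (hI : LevI C1 cA 2 cw d B') : ∃ C0 : ℝ,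
    ∀ C2 cB : ℝ, C0 ≤ C2 → 0 < cB → ∀ ε : ℝ, 0 < ε → ε ≤ 1 / 4 → ∃ N0 : ℕ, ∀ N : ℕ, N0 ≤ N →
    GoodX cA C1 cB C2 N → ∀ r D : ℕ, (r : ℝ) + D / Real.log N ≤ (1 - ε) * yy N →
      (((Tup r (Icc 1 N)).filter (fun h => Adm h ∧ ε * (N : ℝ) ^ D <
        (((Tup D (Icc 1 N)).filter (fun s =>
          ε * pr N h < DJ N ⌊cw * yy N⌋₊ h s)).card : ℝ))).card : ℝ) ≤
      ε * ((Tup r (Icc 1 N)).filter (fun h => Adm h)).card := by
  obtain ⟨C01, hcl⟩ := j_class C1 cA h1 hA cw d B' hcw hd hB' hI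
  obtain ⟨C02, hlev⟩ := hI 2 1 (by norm_num) le_rfl
  refine ⟨max C01 C02, ?_⟩
  intro C2 cB hC2 hcB ε hε hε1
  have hC21 : C01 ≤ C2 := (le_max_left _ _).trans hC2
  have hC22 : C02 ≤ C2 := (le_max_right _ _).trans hC2
  set δ : ℝ := ε / 16 with hδd
  have hδ : 0 < δ := by positivity
  set η : ℝ := ε ^ 2 / 64 with hηd
  have hη : 0 < η := by positivity
  obtain ⟨ws, hsing⟩ := sing (4 / cw) δ (by positivity) hδ
  obtain ⟨wz, hsize⟩ := size cw
  obtain ⟨N1, hN1⟩ := hcl C2 cB hC21 hcB ε (ε * η) hε (by linarith) (by positivity)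
  obtain ⟨N2, hN2⟩ := hlev C2 cB hC22 hcB 1 one_pos (max ws wz)
  obtain ⟨N4, hN4⟩ := JFarAux.logq (1 / 2) cw (by norm_num) le_rfl hcw
  refine ⟨max (max N1 N2) (max N4 3), ?_⟩
  intro N hN hG r D hrD
  have g1 : N1 ≤ N := ((le_max_left _ _).trans (le_max_left _ _)).trans hN
  have g2 : N2 ≤ N := ((le_max_right _ _).trans (le_max_left _ _)).trans hN
  have g3 : 3 ≤ N := (le_max_right _ _).trans ((le_max_right _ _).trans hN)
  have g4 : N4 ≤ N := (le_max_left _ _).trans ((le_max_right _ _).trans hN)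
  set w : ℕ := ⌊cw * yy N⌋₊ with hwdef
  have hq1 : (DZ w)⁻¹ / Real.log N ≤ 1 := (hN4 N g4 w hwdef).2.1
  obtain ⟨l1, l2, l3, l4, l5, -⟩ := hN2 N g2 hG w hwdef
  obtain ⟨Bc, hBc, hmom⟩ := hN1 N g1 hG w hwdef r D hrD
  have hNr : (3 : ℝ) ≤ N := by exact_mod_cast g3
  have hN0 : (0 : ℝ) < N := by linarith
  have hlogN : 0 < Real.log N := Real.log_pos (by linarith)
  have hLr : 0 < Real.log N ^ r := by positivity
  have hND : (0 : ℝ) < (N : ℝ) ^ D := by positivity
  have h4N : 4 ^ (100 * w) ≤ N := by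
    refine le_trans (Nat.pow_le_pow_right (by norm_num) ?_) l2
    omega
  have hD0 : (0 : ℝ) ≤ D / Real.log N := by positivity
  have hyy0 : 0 ≤ yy N := by
    by_contra hneg
    push Not at hneg
    have : (1 - ε) * yy N < 0 := mul_neg_of_pos_of_neg (by linarith) hneg
    have : (0 : ℝ) ≤ r := Nat.cast_nonneg r
    linarith
  have hryy : (r : ℝ) ≤ yy N := by
    have : (1 - ε) * yy N ≤ yy N := by nlinarith
    linarith
  have hwr : (r : ℝ) ≤ 4 / cw * w := by
    refine (hryy.trans l4).trans ?_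
    have : (0 : ℝ) ≤ w := Nat.cast_nonneg w
    have : 2 / cw ≤ 4 / cw := div_le_div_of_nonneg_right (by norm_num) hcw.le
    exact mul_le_mul_of_nonneg_right this (Nat.cast_nonneg w)
  have hsz : 8 * r * PP w ≤ N := hsize w N r ((le_max_right _ _).trans l1) h4N hwr
  -- one class
  have hclass : ∀ a ∈ AC w r, a ∉ Bc → ∀ R : Finset (Fin r → ℕ), R ⊆ Hc N w a →
      (∀ h ∈ R, Adm h ∧ |pr N h - lam N w a| ≤ δ * lam N w a ∧ ε * (N : ℝ) ^ D <
        (((Tup D (Icc 1 N)).filter (fun s => ε * pr N h < DJ N w h s)).card : ℝ)) →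
      (R.card : ℝ) ≤ ε / 16 * (Hc N w a).card := by
    intro a ha hB R hR hRa
    have hna : 1 ≤ nA w a := (nA_pos w a).2 (mem_AC ha).2
    have hlam : 0 < lam N w a := lam_pos N w (by omega) a hna
    have hm := hmom a ha hB
    have h2 := markov2 (Hc N w a) (Tup D (Icc 1 N)) (fun h s => DC N w h s)
      (fun h _ s _ => DC_nonneg N w h s) (ε / 2 * lam N w a) (ε * (N : ℝ) ^ D) _ (by positivity) hm
    have hsub : R ⊆ (Hc N w a).filter (fun h => ε * (N : ℝ) ^ D <
        (((Tup D (Icc 1 N)).filter (fun s => ε / 2 * lam N w a < DC N w h s)).card : ℝ)) := by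
      intro h hh
      rw [mem_filter]
      obtain ⟨_, h4, h5⟩ := hRa h hh
      refine ⟨hR hh, lt_of_lt_of_le h5 ?_⟩
      have h6 : (Tup D (Icc 1 N)).filter (fun s => ε * pr N h < DJ N w h s) ⊆
          (Tup D (Icc 1 N)).filter (fun s => ε / 2 * lam N w a < DC N w h s) := by
        intro s hs
        rw [mem_filter] at hs ⊢
        refine ⟨hs.1, ?_⟩
        have h7 := DJ_le N w hq1 a h (hR hh) hna s
        have h8 := hs.2
        have h9 := (abs_le.1 h4).1
        have h10 : ε * ((1 - δ) * lam N w a) ≤ ε * pr N h :=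
          mul_le_mul_of_nonneg_left (by linarith) hε.le
        have h11 : ε / 2 * lam N w a + δ * lam N w a ≤ ε * ((1 - δ) * lam N w a) := by
          have : (ε / 2 + δ) ≤ ε * (1 - δ) := by
            rw [hδd]
            nlinarith
          calc ε / 2 * lam N w a + δ * lam N w a = (ε / 2 + δ) * lam N w a := by ring
            _ ≤ (ε * (1 - δ)) * lam N w a := mul_le_mul_of_nonneg_right this hlam.le
            _ = ε * ((1 - δ) * lam N w a) := by ring
        linarith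
      exact_mod_cast card_le_card h6
    have h3 : (R.card : ℝ) * (ε / 2 * lam N w a * (ε * (N : ℝ) ^ D)) ≤
        ε * η * (lam N w a * ((Hc N w a).card * (N : ℝ) ^ D)) := by
      refine le_trans (mul_le_mul_of_nonneg_right ?_ (by positivity)) h2
      exact_mod_cast card_le_card hsub
    have hp : 0 < ε / 2 * lam N w a * (ε * (N : ℝ) ^ D) := by positivity
    refine le_of_mul_le_mul_right (h3.trans ?_) hp
    have h0 : (0 : ℝ) ≤ (Hc N w a).card := Nat.cast_nonneg _
    have e1 : ε * η * (lam N w a * ((Hc N w a).card * (N : ℝ) ^ D)) =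
        ε ^ 3 / 64 * (lam N w a * ((Hc N w a).card * (N : ℝ) ^ D)) := by
      rw [hηd]
      ring
    have e2 : ε / 16 * (Hc N w a).card * (ε / 2 * lam N w a * (ε * (N : ℝ) ^ D)) =
        ε ^ 3 / 32 * (lam N w a * ((Hc N w a).card * (N : ℝ) ^ D)) := by
      ring
    rw [e1, e2]
    refine mul_le_mul_of_nonneg_right ?_ (by positivity)
    have : 0 < ε ^ 3 := by positivity
    linarith
  rcases Nat.eq_zero_or_pos r with hr0 | hr1
  · -- `r = 0`
    subst hr0
    have hAC : ∀ h : Fin 0 → ℕ, h ∈ AC w 0 := by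
      intro h
      unfold AC
      rw [mem_filter]
      refine ⟨?_, fun p hp => (Adm_zero h).2 p (Nat.mem_primesLE.1 hp).2⟩
      rw [Fintype.mem_piFinset]
      exact fun i => i.elim0
    have hACc : (AC w 0).card ≤ 1 := by
      rw [card_le_one]
      intro a _ b _
      exact Subsingleton.elim a b
    have hBc0 : Bc = ∅ := by
      rw [← card_eq_zero]
      by_contra hne
      have h2 : (1 : ℝ) ≤ Bc.card := by exact_mod_cast Nat.one_le_iff_ne_zero.2 hne
      have h3 : ((AC w 0).card : ℝ) ≤ 1 := by exact_mod_cast hACc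
      have h4 : ε * η < 1 := by
        rw [hηd]
        nlinarith [sq_nonneg ε, mul_pos hε hε]
      have h5 : 0 < ε * η := by positivity
      nlinarith
    have hempty : (Tup 0 (Icc 1 N)).filter (fun h => Adm h ∧ ε * (N : ℝ) ^ D <
        (((Tup D (Icc 1 N)).filter (fun s => ε * pr N h < DJ N w h s)).card : ℝ)) = ∅ := by
      rw [filter_eq_empty_iff]
      intro h _ hc
      have hHc : ∀ a : Fin 0 → ℕ, Hc N w h = {a} := by
        intro a
        ext b
        unfold Hc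
        rw [Fintype.mem_piFinset, mem_singleton]
        exact ⟨fun _ => Subsingleton.elim b a, fun _ i => i.elim0⟩
      have h2 := hclass h (hAC h) (by rw [hBc0]; simp) {h} (by rw [hHc h]) (by
        intro g hg
        rw [mem_singleton] at hg
        rw [hg]
        refine ⟨hc.1, ?_, hc.2⟩
        rw [pr_zero, JFinAux.lam_zero, sub_self, abs_zero]
        positivity)
      rw [hHc h, card_singleton] at h2
      push_cast at h2
      linarith
    rw [hempty, card_empty]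
    push_cast
    positivity
  · -- `r ≥ 1`
    have hpr : ∀ a ∈ AC w r, ∀ h : Fin r → ℕ, |SI h - SZ w a| ≤ δ * SZ w a →
        |pr N h - lam N w a| ≤ δ * lam N w a := by
      intro a _ h hh
      have e1 : lam N w a = SZ w a * N / Real.log N ^ r := by
        unfold lam
        rw [MM_eq]
        ring
      rw [e1]
      unfold pr
      have e2 : SI h * N / Real.log N ^ r - SZ w a * N / Real.log N ^ r =
          (SI h - SZ w a) * (N / Real.log N ^ r) := by ring
      have h3 : 0 ≤ (N : ℝ) / Real.log N ^ r := by positivity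
      rw [e2, abs_mul, abs_of_nonneg h3]
      calc |SI h - SZ w a| * (N / Real.log N ^ r) ≤ δ * SZ w a * (N / Real.log N ^ r) :=
            mul_le_mul_of_nonneg_right hh h3
        _ = δ * (SZ w a * N / Real.log N ^ r) := by ring
    have hbad : ∀ a ∈ AC w r, (((Hc N w a).filter (fun h =>
        ¬ (Adm h ∧ |pr N h - lam N w a| ≤ δ * lam N w a))).card : ℝ) ≤ δ * (Hc N w a).card := by
      intro a ha
      have h3 := hsing w ((le_max_left _ _).trans l1) N r hr1 hwr h4N l3 a (mem_AC ha).2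
      refine le_trans ?_ h3
      have hsub : (Hc N w a).filter (fun h => ¬ (Adm h ∧ |pr N h - lam N w a| ≤ δ * lam N w a)) ⊆
          (Hc N w a).filter (fun h => ¬ (Adm h ∧ |SI h - SZ w a| ≤ δ * SZ w a)) := by
        intro h hh
        rw [mem_filter] at hh ⊢
        exact ⟨hh.1, fun hc => hh.2 ⟨hc.1, hpr a ha h hc.2⟩⟩
      exact_mod_cast card_le_card hsub
    have hadm : ∀ a ∈ AC w r, (((Hc N w a).filter (fun h => ¬ Adm h)).card : ℝ) ≤
        ε / 8 * (Hc N w a).card := by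
      intro a ha
      have h3 := hbad a ha
      have hsub : (Hc N w a).filter (fun h => ¬ Adm h) ⊆ (Hc N w a).filter (fun h =>
        ¬ (Adm h ∧ |pr N h - lam N w a| ≤ δ * lam N w a)) := by
        intro h hh
        rw [mem_filter] at hh ⊢
        exact ⟨hh.1, fun hc => hh.2 hc.1⟩
      have h4 : (((Hc N w a).filter (fun h => ¬ Adm h)).card : ℝ) ≤ (((Hc N w a).filter (fun h =>
        ¬ (Adm h ∧ |pr N h - lam N w a| ≤ δ * lam N w a))).card : ℝ) := by
        exact_mod_cast card_le_card hsub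
      exact h4.trans (h3.trans (mul_le_mul_of_nonneg_right (by linarith) (Nat.cast_nonneg _)))
    set R : (Fin r → ℕ) → Prop := fun h => ε * (N : ℝ) ^ D <
      (((Tup D (Icc 1 N)).filter (fun s => ε * pr N h < DJ N w h s)).card : ℝ) with hRd
    have e1 : ∀ S : Finset (Fin r → ℕ), ∑ h ∈ S.filter Adm, (if R h then (1 : ℝ) else 0) =
        (S.filter (fun h => Adm h ∧ R h)).card := by
      intro S
      rw [← sum_filter, filter_filter, sum_const, nsmul_eq_mul, mul_one]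
    have hBc' : (Bc.card : ℝ) ≤ ε / 8 * (AC w r).card := by
      refine hBc.trans (mul_le_mul_of_nonneg_right ?_ (Nat.cast_nonneg _))
      rw [hηd]
      nlinarith [sq_nonneg ε, mul_pos hε hε]
    have h3 := class_gen (ε / 8) (by positivity) (by linarith) N w r hsz hr1
      (fun h => if R h then 1 else 0) (fun h => by split_ifs <;> simp) Bc hBc' hadm (by
      intro a ha hB
      rw [e1, abs_of_nonneg (Nat.cast_nonneg _)]
      have h4 := hclass a ha hB ((Hc N w a).filter (fun h => (Adm h ∧ R h) ∧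
        |pr N h - lam N w a| ≤ δ * lam N w a)) (filter_subset _ _) (by
          intro h hh
          rw [mem_filter] at hh
          exact ⟨hh.2.1.1, hh.2.2, hh.2.1.2⟩)
      have h5 := hbad a ha
      have hsub : (Hc N w a).filter (fun h => Adm h ∧ R h) ⊆
          ((Hc N w a).filter (fun h => (Adm h ∧ R h) ∧
            |pr N h - lam N w a| ≤ δ * lam N w a)) ∪
          ((Hc N w a).filter (fun h => ¬ (Adm h ∧ |pr N h - lam N w a| ≤ δ * lam N w a))) := by
        intro h hh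
        rw [mem_filter] at hh
        rw [mem_union, mem_filter, mem_filter]
        by_cases hc : |pr N h - lam N w a| ≤ δ * lam N w a
        · exact Or.inl ⟨hh.1, hh.2, hc⟩
        · exact Or.inr ⟨hh.1, fun h6 => hc h6.2⟩
      have h6 : (((Hc N w a).filter (fun h => Adm h ∧ R h)).card : ℝ) ≤
          (((Hc N w a).filter (fun h => (Adm h ∧ R h) ∧
            |pr N h - lam N w a| ≤ δ * lam N w a)).card : ℝ) +
          (((Hc N w a).filter (fun h =>
            ¬ (Adm h ∧ |pr N h - lam N w a| ≤ δ * lam N w a))).card : ℝ) := by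
        exact_mod_cast (card_le_card hsub).trans (card_union_le _ _)
      refine h6.trans ((add_le_add h4 h5).trans (le_of_eq ?_))
      rw [hδd]
      ring)
    rw [e1, abs_of_nonneg (Nat.cast_nonneg _)] at h3
    refine (h3.trans (le_of_eq ?_))
    ring

open scoped Classical in
/-- Module JFin. -/
theorem j_half (C1 cA : ℝ) (h1 : 0 < C1) (hA : 0 < cA) (cw d B' : ℝ) (hcw : 0 < cw)
    (hd : 0 < d) (hB' : 1 ≤ B') (hI : LevI C1 cA 2 cw d B') : ∃ C0 : ℝ,
    ∀ C2 cB : ℝ, C0 ≤ C2 → 0 < cB → ∀ ε : ℝ, 0 < ε → ∃ N0 : ℕ, ∀ N : ℕ, N0 ≤ N →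
    GoodX cA C1 cB C2 N → ∀ r D : ℕ, (r : ℝ) + D / Real.log N ≤ (1 - ε) * yy N →
      (((Tup r (Icc 1 N)).filter (fun h => Adm h ∧ ε * (N : ℝ) ^ D <
        (((Tup D (Icc 1 N)).filter (fun s =>
          ε * pr N h < DJ N ⌊cw * yy N⌋₊ h s)).card : ℝ))).card : ℝ) ≤
      ε * ((Tup r (Icc 1 N)).filter (fun h => Adm h)).card := by
  obtain ⟨C0, hC0⟩ := j_half_pos C1 cA h1 hA cw d B' hcw hd hB' hI
  refine ⟨C0, fun C2 cB hC2 hcB ε hε => ?_⟩
  set ε' : ℝ := min ε (1 / 4) with hε'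
  have hε0 : 0 < ε' := by positivity
  have hεε : ε' ≤ ε := min_le_left _ _
  obtain ⟨N1, hN1⟩ := hC0 C2 cB hC2 hcB ε' hε0 (min_le_right _ _)
  obtain ⟨N2, hN2⟩ := GoodXAux.large 2
  refine ⟨max N1 N2, fun N hN hG r D hrD => ?_⟩
  have hy : 0 ≤ yy N := by linarith [(hN2 N ((le_max_right _ _).trans hN)).2]
  have h2 := hN1 N ((le_max_left _ _).trans hN) hG r D
    (hrD.trans (mul_le_mul_of_nonneg_right (by linarith) hy))
  have hND : (0 : ℝ) ≤ (N : ℝ) ^ D := by positivity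
  refine le_trans ?_ (h2.trans (mul_le_mul_of_nonneg_right hεε (Nat.cast_nonneg _)))
  have hsub : (Tup r (Icc 1 N)).filter (fun h => Adm h ∧ ε * (N : ℝ) ^ D <
        (((Tup D (Icc 1 N)).filter (fun s =>
          ε * pr N h < DJ N ⌊cw * yy N⌋₊ h s)).card : ℝ)) ⊆
      (Tup r (Icc 1 N)).filter (fun h => Adm h ∧ ε' * (N : ℝ) ^ D <
        (((Tup D (Icc 1 N)).filter (fun s =>
          ε' * pr N h < DJ N ⌊cw * yy N⌋₊ h s)).card : ℝ)) := by
    intro h hh
    rw [mem_filter] at hh ⊢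
    refine ⟨hh.1, hh.2.1, ?_⟩
    refine lt_of_le_of_lt (mul_le_mul_of_nonneg_right hεε hND) (lt_of_lt_of_le hh.2.2 ?_)
    have h3 : (Tup D (Icc 1 N)).filter (fun s => ε * pr N h < DJ N ⌊cw * yy N⌋₊ h s) ⊆
        (Tup D (Icc 1 N)).filter (fun s => ε' * pr N h < DJ N ⌊cw * yy N⌋₊ h s) := by
      intro s hs
      rw [mem_filter] at hs ⊢
      refine ⟨hs.1, lt_of_le_of_lt ?_ hs.2⟩
      exact mul_le_mul_of_nonneg_right hεε (pr_nonneg N h hh.2.1)
    exact_mod_cast card_le_card h3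
  exact_mod_cast card_le_card hsub

end Pool.Agent.Lib.LEN
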