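import Pool.Agent.Lib.LEN.JModA
import Pool.Agent.Lib.LEN.JAbs
import Pool.Agent.Lib.LEN.JDist

/-!
# LEN.JMod: two levels of Granville's model are close in total variation
-/

set_option autoImplicit false

open Finset Filter

namespace Pool.Agent.Lib.LEN

open Pool.Agent.HLB Pool.Agent.HLT Pool.Agent.HLR Pool.Agent.Lib.GMV

namespace JModAux

open JBoxAux JCrtAux TVFarAux

lemma PP_dvd {w1 w2 : ℕ} (h : w1 ≤ w2) : PP w1 ∣ PP w2 := by
  unfold PP
  refine Finset.prod_dvd_prod_of_subset _ _ _ fun p hp => ?_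
  rw [Nat.mem_primesLE] at hp ⊢
  exact ⟨hp.1.trans h, hp.2⟩

lemma cop_add_congr {w m m' : ℕ} (h : m % PP w = m' % PP w) (b : ℕ) :
    Nat.Coprime (b + m) (PP w) ↔ Nat.Coprime (b + m') (PP w) := by
  rw [add_comm b, add_comm b, ← TVChiAux.coprime_mod_iff w m b, h, TVChiAux.coprime_mod_iff]

lemma ff_congr {N w1 w2 : ℕ} (h : w1 ≤ w2) (b b' : ℕ) {m m' : ℕ} (hm : m % PP w2 = m' % PP w2) :
    ff N w1 w2 b b' m = ff N w1 w2 b b' m' := by
  have hm1 : m % PP w1 = m' % PP w1 := Nat.ModEq.of_dvd (PP_dvd h) hm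
  unfold ff qq
  simp only [cop_add_congr hm b, cop_add_congr hm b', cop_add_congr hm1 b]

lemma ff_nonneg {N w1 w2 : ℕ} (b b' m : ℕ) (hL : 0 < Real.log N)
    (hq1 : (DZ w1)⁻¹ / Real.log N ≤ 1) (hq2 : (DZ w2)⁻¹ / Real.log N ≤ 1) :
    0 ≤ ff N w1 w2 b b' m := by
  have hq : ∀ w, 0 ≤ (DZ w)⁻¹ / Real.log N := fun w =>
    div_nonneg (inv_nonneg.2 (DZ_pos w).le) hL.le
  have a1 := qq_nonneg (N := N) b m (hq w2)
  have a2 := qq_nonneg (N := N) b' m (hq w2)
  have a3 := qq_nonneg (N := N) b m (hq w1)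
  have b1 := (qq_le (N := N) b m (hq w2)).trans hq2
  have b2 := (qq_le (N := N) b' m (hq w2)).trans hq2
  have b3 := (qq_le (N := N) b m (hq w1)).trans hq1
  unfold ff
  have c1 : 0 ≤ 1 - qq N w2 b m := by linarith
  have c2 : 0 ≤ 1 - qq N w2 b' m := by linarith
  have c3 : 0 ≤ 1 - qq N w1 b m := by linarith
  positivity

/-- A sum over `[1, N]` of a periodic function. -/
lemma sum_Icc_le (N w : ℕ) (g : ℕ → ℝ) (hg : ∀ m, 0 ≤ g m)
    (hper : ∀ m m', m % PP w = m' % PP w → g m = g m') :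
    ∑ m ∈ Icc 1 N, g m ≤ ((N : ℝ) / PP w + 1) * ∑ m ∈ range (PP w), g m := by
  rw [← ClsAux.sum_cls N w g, mul_sum]
  refine sum_le_sum fun c _ => ?_
  have h1 : ∀ h ∈ cls N w c, g h = g c := by
    intro h hh
    unfold cls at hh
    exact hper h c (mem_filter.1 hh).2
  rw [sum_congr rfl h1, sum_const, nsmul_eq_mul]
  exact mul_le_mul_of_nonneg_right (Cls0.card_cls_le N w c) (hg c)

/-- The upper bound for the ratio of the local densities. -/
noncomputable def sgu (w1 w2 b b' : ℕ) : ℝ :=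
  ∏ p ∈ JJ w1 w2, (1 + (if b' % p = b % p then 1 / ((p : ℝ) - 1) else 0))

lemma two_le_JJ {w1 w2 p : ℕ} (hp : p ∈ JJ w1 w2) : (2 : ℝ) ≤ p := by
  exact_mod_cast (mem_JJ.1 hp).1.2.two_le

lemma one_le_sgu (w1 w2 b b' : ℕ) : 1 ≤ sgu w1 w2 b b' := by
  unfold sgu
  refine Finset.one_le_prod fun p hp => ?_
  have h2 := two_le_JJ hp
  have : 0 ≤ 1 / ((p : ℝ) - 1) := div_nonneg zero_le_one (by linarith)
  split_ifs <;> linarith

lemma sg_le_sgu {w1 w2 : ℕ} (h : w1 ≤ w2) (b b' : ℕ) : sg w1 w2 b b' ≤ sgu w1 w2 b b' := by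
  have hD : DZ w2 = DZ w1 * ∏ p ∈ JJ w1 w2, (1 - 1 / (p : ℝ)) := by
    unfold DZ
    exact split w1 w2 h _
  have hpos : ∀ p ∈ JJ w1 w2, 0 < 1 - 1 / (p : ℝ) := fun p hp =>
    Pool.Agent.HL.one_sub_inv_pos (mem_JJ.1 hp).1.2
  have hP : 0 < ∏ p ∈ JJ w1 w2, (1 - 1 / (p : ℝ)) := prod_pos hpos
  have h1 : DZ w1 / DZ w2 = ∏ p ∈ JJ w1 w2, (1 - 1 / (p : ℝ))⁻¹ := by
    rw [hD, prod_inv_distrib]
    have := (DZ_pos w1).ne'
    field_simp
  unfold sg sgu
  rw [h1, ← prod_pow, ← prod_mul_distrib]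
  refine prod_le_prod (fun p hp => ?_) fun p hp => ?_
  · have h2 := two_le_JJ hp
    have h3 : 2 / (p : ℝ) ≤ 1 := by rw [div_le_one (by linarith)]; exact h2
    have h4 := hpos p hp
    refine mul_nonneg (by positivity) ?_
    split_ifs
    · exact h4.le
    · linarith
  · have h2 := two_le_JJ hp
    have h4 := hpos p hp
    have hp0 : (p : ℝ) ≠ 0 := by linarith
    have hp1 : (p : ℝ) - 1 ≠ 0 := by
      have : 0 < (p : ℝ) - 1 := by linarith
      exact this.ne'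
    split_ifs
    · have e : (1 - 1 / (p : ℝ))⁻¹ ^ 2 * (1 - 1 / (p : ℝ)) = (1 - 1 / (p : ℝ))⁻¹ := by
        field_simp
      rw [e]
      refine le_of_eq ?_
      have e2 : 1 - 1 / (p : ℝ) = ((p : ℝ) - 1) / p := by field_simp
      rw [e2, inv_div]
      field_simp
      ring
    · rw [add_zero, inv_pow, inv_mul_le_iff₀ (by positivity), mul_one]
      have : (1 - 1 / (p : ℝ)) ^ 2 = 1 - 2 / p + 1 / p ^ 2 := by
        field_simp
        ring
      rw [this]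
      have : 0 ≤ 1 / (p : ℝ) ^ 2 := by positivity
      linarith

/-- `e^t - 1 ≤ 2 t` on `[0, 1]`. -/
lemma exp_sub_one_le {t : ℝ} (h0 : 0 ≤ t) (h1 : t ≤ 1) : Real.exp t - 1 ≤ 2 * t := by
  have h2 := Real.abs_exp_sub_one_le (x := t) (by rw [abs_of_nonneg h0]; exact h1)
  rw [abs_of_nonneg h0] at h2
  exact (le_abs_self _).trans h2

lemma sgu_exp {w1 w2 : ℕ} (hw1 : 1 ≤ w1) (b b' : ℕ) {Y : ℝ} (hY : 0 ≤ Y)
    (hJ : ∑ p ∈ JJ w1 w2, 1 / ((p : ℝ) - 1) ≤ 1) :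
    Real.exp (2 * Y * (sgu w1 w2 b b' - 1)) ≤
      ∏ p ∈ JJ w1 w2, (1 + (Real.exp (4 * Y / w1) - 1) * (if b' % p = b % p then 1 else 0)) := by
  set t : ℝ := ∑ p ∈ JJ w1 w2, (if b' % p = b % p then 1 / ((p : ℝ) - 1) else 0) with ht
  have hw1r : (1 : ℝ) ≤ w1 := by exact_mod_cast hw1
  have hp1 : ∀ p ∈ JJ w1 w2, 0 ≤ 1 / ((p : ℝ) - 1) := by
    intro p hp
    have h2 := two_le_JJ hp
    exact div_nonneg zero_le_one (by linarith)
  have ht0 : 0 ≤ t := sum_nonneg fun p hp => by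
    split_ifs
    · exact hp1 p hp
    · exact le_rfl
  have ht1 : t ≤ 1 := by
    refine le_trans (sum_le_sum fun p hp => ?_) hJ
    split_ifs
    · exact le_rfl
    · exact hp1 p hp
  have h1 : sgu w1 w2 b b' ≤ Real.exp t := by
    unfold sgu
    rw [ht, Real.exp_sum]
    refine prod_le_prod (fun p hp => ?_) fun p hp => ?_
    · have := hp1 p hp
      split_ifs <;> linarith
    · rw [add_comm]
      exact Real.add_one_le_exp _
  have h2 : 2 * Y * (sgu w1 w2 b b' - 1) ≤ 4 * Y * t := by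
    have h3 : sgu w1 w2 b b' - 1 ≤ 2 * t := by
      have := exp_sub_one_le ht0 ht1
      linarith
    calc 2 * Y * (sgu w1 w2 b b' - 1) ≤ 2 * Y * (2 * t) :=
          mul_le_mul_of_nonneg_left h3 (by positivity)
      _ = 4 * Y * t := by ring
  refine (Real.exp_le_exp.2 h2).trans ?_
  rw [ht, mul_sum, Real.exp_sum]
  refine prod_le_prod (fun p _ => (Real.exp_pos _).le) fun p hp => ?_
  split_ifs
  · rw [mul_one]
    have h4 : 4 * Y * (1 / ((p : ℝ) - 1)) ≤ 4 * Y / w1 := by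
      rw [mul_one_div]
      refine div_le_div_of_nonneg_left (by positivity) (by linarith) ?_
      have h5 : ((w1 + 1 : ℕ) : ℝ) ≤ p := by exact_mod_cast (mem_JJ.1 hp).2
      push_cast at h5
      linarith
    have := Real.exp_le_exp.2 h4
    linarith
  · simp

/-- The power of the mean of the local factor. -/
lemma ff_pow {N w1 w2 D : ℕ} (hN : 2 ≤ N) (h : w1 ≤ w2) (hw1 : 1 ≤ w1) (b b' : ℕ)
    (hbb : b' % PP w1 = b % PP w1) (hq1 : (DZ w1)⁻¹ / Real.log N ≤ 1 / 2)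
    (hq2 : (DZ w2)⁻¹ / Real.log N ≤ 1) {Y : ℝ} (hY : D / Real.log N ≤ Y)
    (hJ : ∑ p ∈ JJ w1 w2, 1 / ((p : ℝ) - 1) ≤ 1) :
    (∑ m ∈ Icc 1 N, ff N w1 w2 b b' m) ^ D ≤ (N : ℝ) ^ D * (Real.exp (D * PP w2 / N) *
      ∏ p ∈ JJ w1 w2, (1 + (Real.exp (4 * Y / w1) - 1) * (if b' % p = b % p then 1 else 0))) := by
  have hNr : (2 : ℝ) ≤ N := by exact_mod_cast hN
  have hN0 : (0 : ℝ) < N := by linarith
  have hL : 0 < Real.log N := Real.log_pos (by linarith)
  have hP : (0 : ℝ) < PP w2 := by exact_mod_cast Cls0.PP_pos w2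
  obtain ⟨q1, hq⟩ : ∃ q1 : ℝ, q1 = (DZ w1)⁻¹ / Real.log N := ⟨_, rfl⟩
  have hq10 : 0 < q1 := by
    rw [hq]
    exact div_pos (inv_pos.2 (DZ_pos w1)) hL
  have hq12 : q1 ≤ 1 / 2 := by rw [hq]; exact hq1
  have hY0 : 0 ≤ Y := le_trans (by positivity) hY
  have hff0 : ∀ m, 0 ≤ ff N w1 w2 b b' m := fun m =>
    ff_nonneg b b' m hL (hq1.trans (by norm_num)) hq2
  have h1 := sum_Icc_le N w2 (ff N w1 w2 b b') hff0 fun m m' hm => ff_congr h b b' hm
  rw [ff_mean h b b' hbb hq hq10 (by linarith) hL] at h1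
  set x : ℝ := (sg w1 w2 b b' - 1) / (Real.log N * (1 - q1)) with hx
  have h2 : ((N : ℝ) / PP w2 + 1) * (PP w2 * (1 + x)) = N * ((1 + PP w2 / N) * (1 + x)) := by
    field_simp
  rw [h2] at h1
  have hx0 : 0 ≤ 1 + x := by
    have h3 : 0 ≤ (PP w2 : ℝ) * (1 + x) := by
      rw [← ff_mean h b b' hbb hq hq10 (by linarith) hL]
      exact sum_nonneg fun m _ => hff0 m
    exact nonneg_of_mul_nonneg_right h3 hP
  have h4 : (1 + PP w2 / (N : ℝ)) ^ D ≤ Real.exp (D * PP w2 / N) := by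
    have h5 : 1 + PP w2 / (N : ℝ) ≤ Real.exp (PP w2 / N) := by
      rw [add_comm]
      exact Real.add_one_le_exp _
    calc (1 + PP w2 / (N : ℝ)) ^ D ≤ Real.exp (PP w2 / N) ^ D :=
          pow_le_pow_left₀ (by positivity) h5 D
      _ = Real.exp (D * PP w2 / N) := by
          rw [← Real.exp_nat_mul]
          congr 1
          ring
  have h6 : (1 + x) ^ D ≤ Real.exp (2 * Y * (sgu w1 w2 b b' - 1)) := by
    have h7 : 1 + x ≤ Real.exp x := by
      rw [add_comm]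
      exact Real.add_one_le_exp _
    calc (1 + x) ^ D ≤ Real.exp x ^ D := pow_le_pow_left₀ hx0 h7 D
      _ = Real.exp (D * x) := by rw [← Real.exp_nat_mul]
      _ ≤ Real.exp (2 * Y * (sgu w1 w2 b b' - 1)) := by
          refine Real.exp_le_exp.2 ?_
          have hs1 := one_le_sgu w1 w2 b b'
          have hs2 := sg_le_sgu h b b'
          have h1q : 0 < 1 - q1 := by linarith
          have h8 : x ≤ 2 * (sgu w1 w2 b b' - 1) / Real.log N := by
            rw [hx, div_le_div_iff₀ (by positivity) hL]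
            have h9 : (sg w1 w2 b b' - 1) ≤ (sgu w1 w2 b b' - 1) * (2 * (1 - q1)) := by
              nlinarith
            nlinarith
          calc (D : ℝ) * x ≤ D * (2 * (sgu w1 w2 b b' - 1) / Real.log N) :=
                mul_le_mul_of_nonneg_left h8 (Nat.cast_nonneg _)
            _ = D / Real.log N * (2 * (sgu w1 w2 b b' - 1)) := by ring
            _ ≤ Y * (2 * (sgu w1 w2 b b' - 1)) := by
                refine mul_le_mul_of_nonneg_right hY ?_
                linarith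
            _ = 2 * Y * (sgu w1 w2 b b' - 1) := by ring
  calc (∑ m ∈ Icc 1 N, ff N w1 w2 b b' m) ^ D ≤ (N * ((1 + PP w2 / N) * (1 + x))) ^ D :=
        pow_le_pow_left₀ (sum_nonneg fun m _ => hff0 m) h1 D
    _ = (N : ℝ) ^ D * ((1 + PP w2 / N) ^ D * (1 + x) ^ D) := by rw [mul_pow, mul_pow]
    _ ≤ (N : ℝ) ^ D * (Real.exp (D * PP w2 / N) * _) := by
        refine mul_le_mul_of_nonneg_left ?_ (by positivity)
        refine mul_le_mul h4 (h6.trans (sgu_exp hw1 b b' hY0 hJ)) (pow_nonneg hx0 D)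
          (Real.exp_pos _).le

end JModAux

end Pool.Agent.Lib.LEN
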