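import Pool.Agent.Lib.LEN.TVCnt
import Pool.Agent.Lib.LEN.TVAbs
import Pool.Agent.Lib.LEN.Levels

/-!
# LEN.TVFar: beyond the threshold the total variation distance is close to one
-/

set_option autoImplicit false

open Finset Filter

namespace Pool.Agent.Lib.LEN

open Pool.Agent.HLB Pool.Agent.HLT Pool.Agent.HLR Pool.Agent.Lib.GMV

namespace TVFarAux

open TVCntAux GoodXAux LevelsAux

lemma sum_patterns {D : ℕ} (a b : Fin D → ℝ) :
    ∑ T : Finset (Fin D), ∏ i, (if i ∈ T then a i else b i) = ∏ i, (a i + b i) := by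
  classical
  rw [Finset.prod_add, ← Finset.powerset_univ]
  refine Finset.sum_congr rfl fun T _ => ?_
  rw [Finset.prod_ite]
  congr 1
  · refine Finset.prod_congr ?_ fun _ _ => rfl
    ext i
    simp
  · refine Finset.prod_congr ?_ fun _ _ => rfl
    ext i
    simp

lemma qq_nonneg {N w : ℕ} (b m : ℕ) (hq : 0 ≤ (DZ w)⁻¹ / Real.log N) : 0 ≤ qq N w b m := by
  unfold qq
  split_ifs
  · exact hq
  · exact le_rfl

lemma qq_le {N w : ℕ} (b m : ℕ) (hq : 0 ≤ (DZ w)⁻¹ / Real.log N) :
    qq N w b m ≤ (DZ w)⁻¹ / Real.log N := by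
  unfold qq
  split_ifs
  · exact le_rfl
  · exact hq

lemma QB_nonneg {N w D : ℕ} (s : Fin D → ℕ) (b : ℕ) (T : Finset (Fin D))
    (hq : 0 ≤ (DZ w)⁻¹ / Real.log N) (hq1 : (DZ w)⁻¹ / Real.log N ≤ 1) : 0 ≤ QB N w s b T := by
  unfold QB
  refine Finset.prod_nonneg fun i _ => ?_
  have h1 := qq_nonneg b (s i) hq
  have h2 := qq_le b (s i) hq
  split_ifs
  · exact h1
  · linarith

lemma sum_QB {N w D : ℕ} (s : Fin D → ℕ) (b : ℕ) : ∑ T : Finset (Fin D), QB N w s b T = 1 := by
  unfold QB
  rw [sum_patterns]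
  simp

/-- The mass of the patterns with few primes. -/
lemma low_mass {N w D : ℕ} (s : Fin D → ℕ) (b : ℕ) {t R : ℝ} (ht : 0 ≤ t)
    (hq : 0 ≤ (DZ w)⁻¹ / Real.log N) (hq1 : (DZ w)⁻¹ / Real.log N ≤ 1) :
    ∑ T ∈ univ.filter (fun T : Finset (Fin D) => (T.card : ℝ) ≤ R), QB N w s b T ≤
      Real.exp (t * R) * ∏ i, (1 - (1 - Real.exp (-t)) * qq N w b (s i)) := by
  classical
  have h1 : ∏ i, (1 - (1 - Real.exp (-t)) * qq N w b (s i)) =
      ∑ T : Finset (Fin D), Real.exp (-(t * T.card)) * QB N w s b T := by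
    have h2 := sum_patterns (fun i => Real.exp (-t) * qq N w b (s i))
      (fun i => 1 - qq N w b (s i))
    have h3 : ∀ i, Real.exp (-t) * qq N w b (s i) + (1 - qq N w b (s i)) =
        1 - (1 - Real.exp (-t)) * qq N w b (s i) := by
      intro i
      ring
    simp only [h3] at h2
    rw [← h2]
    refine Finset.sum_congr rfl fun T _ => ?_
    unfold QB
    have h4 : Real.exp (-(t * T.card)) = ∏ i, (if i ∈ T then Real.exp (-t) else 1) := by
      rw [Finset.prod_ite, Finset.prod_const, Finset.prod_const_one, mul_one,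
        ← Real.exp_nat_mul]
      congr 1
      have h5 : (univ.filter (fun i => i ∈ T)).card = T.card := by
        congr 1
        ext i
        simp
      rw [h5]
      ring
    rw [h4, ← Finset.prod_mul_distrib]
    refine Finset.prod_congr rfl fun i _ => ?_
    split_ifs <;> ring
  rw [h1, Finset.mul_sum]
  refine (Finset.sum_le_sum (g := fun T : Finset (Fin D) =>
    Real.exp (t * R) * (Real.exp (-(t * T.card)) * QB N w s b T)) fun T hT => ?_).trans
    (Finset.sum_le_sum_of_subset_of_nonneg (Finset.filter_subset _ _) fun T _ _ => ?_)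
  · have hT2 := (Finset.mem_filter.1 hT).2
    have h6 : 1 ≤ Real.exp (t * R) * Real.exp (-(t * T.card)) := by
      rw [← Real.exp_add]
      apply Real.one_le_exp
      have := mul_le_mul_of_nonneg_left hT2 ht
      linarith
    have h7 := QB_nonneg s b T hq hq1
    calc QB N w s b T = 1 * QB N w s b T := by ring
      _ ≤ Real.exp (t * R) * Real.exp (-(t * T.card)) * QB N w s b T :=
        mul_le_mul_of_nonneg_right h6 h7
      _ = _ := by ring
  · have h7 := QB_nonneg s b T hq hq1
    positivity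

/-- A pattern with many primes is improbable. -/
lemma high_mass {N w D : ℕ} (s : Fin D → ℕ) (b : ℕ) {R : ℝ} (T : Finset (Fin D))
    (hT : R ≤ T.card) (hq : 0 < (DZ w)⁻¹ / Real.log N) (hq1 : (DZ w)⁻¹ / Real.log N ≤ 1) :
    QB N w s b T ≤ Real.exp (R * Real.log ((DZ w)⁻¹ / Real.log N)) := by
  classical
  have h1 : QB N w s b T ≤ ((DZ w)⁻¹ / Real.log N) ^ T.card := by
    unfold QB
    have h2 : ((DZ w)⁻¹ / Real.log N) ^ T.card =
        ∏ i, (if i ∈ T then (DZ w)⁻¹ / Real.log N else 1) := by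
      rw [Finset.prod_ite, Finset.prod_const, Finset.prod_const_one, mul_one]
      congr 2
      ext i
      simp
    rw [h2]
    refine Finset.prod_le_prod (fun i _ => ?_) (fun i _ => ?_)
    · have h3 := qq_nonneg b (s i) hq.le
      have h4 := qq_le b (s i) hq.le
      split_ifs
      · exact h3
      · linarith
    · have h3 := qq_nonneg b (s i) hq.le
      have h4 := qq_le b (s i) hq.le
      split_ifs
      · exact h4
      · linarith
  refine h1.trans ?_
  have h5 : ((DZ w)⁻¹ / Real.log N) ^ T.card =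
      Real.exp (T.card * Real.log ((DZ w)⁻¹ / Real.log N)) := by
    rw [Real.exp_nat_mul, Real.exp_log hq]
  rw [h5]
  refine Real.exp_le_exp.2 ?_
  have h6 : Real.log ((DZ w)⁻¹ / Real.log N) ≤ 0 := Real.log_nonpos hq.le hq1
  exact mul_le_mul_of_nonpos_right hT h6

open scoped Classical in
lemma sum_PT {N D : ℕ} (hN : 1 ≤ N) (s : Fin D → ℕ) (E : Finset (Finset (Fin D)))
    (hE : ∀ n ∈ Ioc N (2 * N), pat s n ∈ E) : ∑ T ∈ E, PT N s T = 1 := by
  unfold PT
  rw [← Finset.sum_div, ← Nat.cast_sum]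
  have h1 := Finset.card_eq_sum_card_fiberwise (f := fun n => pat s n) (s := Ioc N (2 * N))
    (t := E) (fun n hn => hE n hn)
  rw [← h1, Nat.card_Ioc, show 2 * N - N = N by omega, div_self]
  have : (0 : ℝ) < N := by exact_mod_cast hN
  exact this.ne'

/-- The lower bound for the distance. -/
lemma dist_ge {N w D : ℕ} (hN : 1 ≤ N) (s : Fin D → ℕ) {t R : ℝ} (ht : 0 ≤ t)
    (hq : 0 < (DZ w)⁻¹ / Real.log N) (hq1 : (DZ w)⁻¹ / Real.log N ≤ 1) :
    1 - (Real.exp (t * R) * ∑ b ∈ range (PP w),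
      ∏ i, (1 - (1 - Real.exp (-t)) * qq N w b (s i))) / PP w -
      N * Real.exp (R * Real.log ((DZ w)⁻¹ / Real.log N)) ≤ TVd N w s := by
  classical
  have hP : (0 : ℝ) < PP w := by exact_mod_cast Cls0.PP_pos w
  obtain ⟨E, hE⟩ : ∃ E : Finset (Finset (Fin D)), E = (Ioc N (2 * N)).image (pat s) := ⟨_, rfl⟩
  have hmem : ∀ n ∈ Ioc N (2 * N), pat s n ∈ E := fun n hn => by
    rw [hE]
    exact Finset.mem_image_of_mem _ hn
  have hcard : (E.card : ℝ) ≤ N := by
    have h1 : E.card ≤ (Ioc N (2 * N)).card := by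
      rw [hE]
      exact Finset.card_image_le
    rw [Nat.card_Ioc, show 2 * N - N = N by omega] at h1
    exact_mod_cast h1
  have hPE := sum_PT hN s E hmem
  have hP1 := sum_PT hN s univ (fun n _ => Finset.mem_univ _)
  have hQ1 : ∑ T : Finset (Fin D), QT N w s T = 1 := by
    unfold QT
    rw [← Finset.sum_div, Finset.sum_comm, Finset.sum_congr rfl fun b _ => sum_QB s b,
      Finset.sum_const, Finset.card_range, nsmul_eq_mul, mul_one, div_self hP.ne']
  have htv := tv_ge univ E (Finset.subset_univ E) (PT N s) (QT N w s) hP1 hQ1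
  rw [hPE] at htv
  have hQE : ∑ T ∈ E, QT N w s T ≤ (Real.exp (t * R) * ∑ b ∈ range (PP w),
      ∏ i, (1 - (1 - Real.exp (-t)) * qq N w b (s i))) / PP w +
      N * Real.exp (R * Real.log ((DZ w)⁻¹ / Real.log N)) := by
    have hQ0 : ∀ T, 0 ≤ QT N w s T := fun T => by
      unfold QT
      exact div_nonneg (Finset.sum_nonneg fun b _ => QB_nonneg s b T hq.le hq1) hP.le
    have h1 : ∑ T ∈ E, QT N w s T =
        ∑ T ∈ E.filter (fun T => (T.card : ℝ) ≤ R), QT N w s T +
        ∑ T ∈ E.filter (fun T => ¬ (T.card : ℝ) ≤ R), QT N w s T :=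
      (Finset.sum_filter_add_sum_filter_not E _ _).symm
    rw [h1]
    refine add_le_add ?_ ?_
    · refine (Finset.sum_le_sum_of_subset_of_nonneg (t := univ.filter
        (fun T : Finset (Fin D) => (T.card : ℝ) ≤ R))
        (Finset.filter_subset_filter _ (Finset.subset_univ E)) fun T _ _ => hQ0 T).trans ?_
      unfold QT
      rw [← Finset.sum_div, Finset.sum_comm]
      refine div_le_div_of_nonneg_right ?_ hP.le
      rw [Finset.mul_sum]
      exact Finset.sum_le_sum fun b _ => low_mass s b ht hq.le hq1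
    · have h2 : ∀ T ∈ E.filter (fun T => ¬ (T.card : ℝ) ≤ R), QT N w s T ≤
          Real.exp (R * Real.log ((DZ w)⁻¹ / Real.log N)) := by
        intro T hT
        have hT2 := (Finset.mem_filter.1 hT).2
        unfold QT
        rw [div_le_iff₀ hP]
        calc ∑ b ∈ range (PP w), QB N w s b T
            ≤ ∑ b ∈ range (PP w), Real.exp (R * Real.log ((DZ w)⁻¹ / Real.log N)) :=
              Finset.sum_le_sum fun b _ => high_mass s b T (not_le.1 hT2).le hq hq1
          _ = _ := by
              rw [Finset.sum_const, Finset.card_range, nsmul_eq_mul]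
              ring
      refine (Finset.sum_le_sum h2).trans ?_
      rw [Finset.sum_const, nsmul_eq_mul]
      refine mul_le_mul_of_nonneg_right ?_ (Real.exp_pos _).le
      refine le_trans ?_ hcard
      exact_mod_cast Finset.card_filter_le _ _
  have h3 : TVd N w s = (∑ T : Finset (Fin D), |PT N s T - QT N w s T|) / 2 := rfl
  rw [h3]
  linarith

/-- The mean over the tuples. -/
lemma mean_le {N w D : ℕ} (hN : 1 ≤ N) (hP : PP w ≤ N) {μ a : ℝ} (hμ : 0 ≤ μ) (hμ1 : μ ≤ 1)
    (hL : 0 < Real.log N) (hq1 : (DZ w)⁻¹ / Real.log N ≤ 1)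
    (ha : a ≤ D * (μ / Real.log N * (1 - PP w / N))) :
    ∑ s ∈ Tup D (Icc 1 N), (∑ b ∈ range (PP w),
      ∏ i, (1 - μ * qq N w b (s i))) / PP w ≤ (N : ℝ) ^ D * Real.exp (-a) := by
  classical
  have hPr : (0 : ℝ) < PP w := by exact_mod_cast Cls0.PP_pos w
  have hNr : (0 : ℝ) < N := by exact_mod_cast hN
  have hDZ := DZ_pos w
  have hq : 0 ≤ (DZ w)⁻¹ / Real.log N := by positivity
  rw [← Finset.sum_div, Finset.sum_comm]
  rw [div_le_iff₀ hPr]
  have h1 : ∀ b ∈ range (PP w), ∑ s ∈ Tup D (Icc 1 N), ∏ i, (1 - μ * qq N w b (s i)) ≤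
      (N : ℝ) ^ D * Real.exp (-a) := by
    intro b _
    rw [sum_prod D (Icc 1 N) (fun m => 1 - μ * qq N w b m)]
    have h2 : ∑ m ∈ Icc 1 N, (1 - μ * qq N w b m) =
        N - μ * ((DZ w)⁻¹ / Real.log N) * cc N w b := by
      rw [Finset.sum_sub_distrib, ← Finset.mul_sum, Finset.sum_const, Nat.card_Icc,
        Nat.add_sub_cancel, nsmul_eq_mul, mul_one]
      congr 1
      rw [mul_assoc]
      congr 1
      unfold qq cc
      rw [← Finset.sum_filter, Finset.sum_const, nsmul_eq_mul, mul_comm]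
    have h3 := cc_ge N w b
    have h4 : (N : ℝ) - μ * ((DZ w)⁻¹ / Real.log N) * cc N w b ≤
        N * Real.exp (-(μ / Real.log N * (1 - PP w / N))) := by
      have h5 : μ * ((DZ w)⁻¹ / Real.log N) * (DZ w * (N - PP w)) ≤
          μ * ((DZ w)⁻¹ / Real.log N) * cc N w b :=
        mul_le_mul_of_nonneg_left h3 (by positivity)
      have h6 : μ * ((DZ w)⁻¹ / Real.log N) * (DZ w * (N - PP w)) =
          N * (μ / Real.log N * (1 - PP w / N)) := by
        field_simp
      have h7 := Real.add_one_le_exp (-(μ / Real.log N * (1 - PP w / N)))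
      have h8 := mul_le_mul_of_nonneg_left h7 hNr.le
      linarith
    have h9 : 0 ≤ ∑ m ∈ Icc 1 N, (1 - μ * qq N w b m) := by
      refine Finset.sum_nonneg fun m _ => ?_
      have g1 := qq_nonneg b m hq
      have g2 := qq_le b m hq
      nlinarith
    have h10 : (∑ m ∈ Icc 1 N, (1 - μ * qq N w b m)) ^ D ≤
        (N * Real.exp (-(μ / Real.log N * (1 - PP w / N)))) ^ D :=
      pow_le_pow_left₀ h9 (by rw [h2]; exact h4) D
    refine h10.trans ?_
    rw [mul_pow, ← Real.exp_nat_mul]
    refine mul_le_mul_of_nonneg_left (Real.exp_le_exp.2 ?_) (by positivity)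
    linarith
  refine (Finset.sum_le_sum h1).trans (le_of_eq ?_)
  rw [Finset.sum_const, Finset.card_range, nsmul_eq_mul]
  ring

end TVFarAux

open TVFarAux TVCntAux GoodXAux LevelsAux in
open scoped Classical in
/-- Module TVFar: beyond the threshold. -/
theorem tv_far (ε cw : ℝ) (hε : 0 < ε) (hcw : 0 < cw) : ∃ N0 : ℕ, ∀ N : ℕ, N0 ≤ N →
    ∀ D : ℕ, (1 + ε) * (Real.log N ^ 2 / Real.log (Real.log N)) ≤ D →
    (((Tup D (Icc 1 N)).filter (fun s => TVd N ⌊cw * yy N⌋₊ s < 1 - ε)).card : ℝ) ≤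
      ε * (N : ℝ) ^ D := by
  obtain ⟨t, ht⟩ : ∃ t : ℝ, t = ε / (8 * (1 + ε)) := ⟨_, rfl⟩
  have htp : 0 < t := by rw [ht]; positivity
  have hte : (1 + ε) * t = ε / 8 := by
    rw [ht]
    field_simp
  have ht1 : t ≤ 1 / 8 := by nlinarith
  obtain ⟨δ, hδ⟩ : ∃ δ : ℝ, δ = ε / (4 + 2 * ε) := ⟨_, rfl⟩
  have hδp : 0 < δ := by rw [hδ]; positivity
  have hδe : (1 + ε / 2) * δ = ε / 4 := by
    rw [hδ]
    field_simp
    ring
  have hlog : Tendsto (fun N : ℕ => Real.log (N : ℝ)) atTop atTop :=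
    Real.tendsto_log_atTop.comp tendsto_natCast_atTop_atTop
  have hll : Tendsto (fun N : ℕ => Real.log (Real.log (N : ℝ))) atTop atTop :=
    Real.tendsto_log_atTop.comp hlog
  -- `log l + 8 ≤ δ l`
  have hG : ∀ᶠ l : ℝ in atTop, Real.log l + 8 ≤ δ * l := by
    have h1 := (Real.isLittleO_log_id_atTop).bound (c := δ / 2) (by positivity)
    filter_upwards [h1, eventually_ge_atTop 1, eventually_ge_atTop (16 / δ)] with l h2 h3 h4
    rw [Real.norm_of_nonneg (Real.log_nonneg h3), id, Real.norm_of_nonneg (by linarith)] at h2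
    rw [div_le_iff₀ hδp] at h4
    linarith
  obtain ⟨N1, hN1⟩ := eventually_atTop.1 (hll.eventually hG)
  obtain ⟨N2, hN2⟩ := ll_big (max cw (max 1 (7 * cw)))
  obtain ⟨S1, hS1⟩ := small1 (s := t * (ε / 4)) (u := ε ^ 2 / 2) 0 (by positivity)
    (by positivity)
  obtain ⟨S2, hS2⟩ := small1 (s := ε / 4) (u := ε / 2) 0 (by positivity) (by positivity)
  obtain ⟨S3, hS3⟩ := small1 (s := 1 / 2) (u := t) 0 (by norm_num) htp
  obtain ⟨N3, hN3⟩ := large (max S1 (max S2 (max S3 (3 / cw))))
  refine ⟨max N1 (max N2 N3), fun N hN D hD => ?_⟩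
  have hNN1 : N1 ≤ N := (le_max_left _ _).trans hN
  have hNN2 : N2 ≤ N := ((le_max_left _ _).trans (le_max_right _ _)).trans hN
  have hNN3 : N3 ≤ N := ((le_max_right _ _).trans (le_max_right _ _)).trans hN
  have hGl := hN1 N hNN1
  have hlc := hN2 N hNN2
  obtain ⟨he, hy⟩ := hN3 N hNN3
  simp only [max_le_iff] at hlc hy
  obtain ⟨hlc1, hlo, hlc2⟩ := hlc
  obtain ⟨hyS1, hyS2, hyS3, hyc⟩ := hy
  have hl0 : 0 < Real.log N := (Real.exp_pos 1).trans_le he
  have hN0 := pos_of_log he
  have hNn : 1 ≤ N := by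
    have : 0 < N := by exact_mod_cast hN0
    exact this
  have hyp := yy_pos he
  have hlN : Real.exp (Real.log N) = N := Real.exp_log hN0
  have hyL : yy N ≤ Real.log N := by
    have := yy_le (K := 1) he hlo
    linarith
  have hLl : yy N * Real.log (Real.log N) = Real.log N := by
    unfold yy
    have : Real.log (Real.log N) ≠ 0 := by linarith
    field_simp
  obtain ⟨w, hw⟩ : ∃ w : ℕ, w = ⌊cw * yy N⌋₊ := ⟨_, rfl⟩
  rw [← hw]
  have hw1 : (w : ℝ) ≤ cw * yy N := by
    rw [hw]
    exact Nat.floor_le (by positivity)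
  have hw2 : 2 ≤ w := by
    rw [hw]
    apply Nat.le_floor
    rw [div_le_iff₀ hcw] at hyc
    push_cast
    linarith
  have hwL : (w : ℝ) ≤ Real.log N := by
    have := yy_le (K := cw) he hlc1
    linarith
  have hPr : (0 : ℝ) < PP w := by exact_mod_cast Cls0.PP_pos w
  -- `PP w` is small
  have hPN : (PP w : ℝ) / N ≤ t := by
    rw [div_le_iff₀ hN0]
    have h1 : (PP w : ℝ) ≤ 4 ^ w := by exact_mod_cast Cls0.PP_le w
    have h2 := four_pow hw1
    have h3 : Real.exp (7 / 5 * (cw * yy N)) ≤ Real.exp (Real.log N / 2) := by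
      refine Real.exp_le_exp.2 ?_
      have := yy_le (K := 7 * cw) he hlc2
      nlinarith
    have h4 := hS3 (Real.log N) (hyS3.trans hyL)
    calc (PP w : ℝ) ≤ Real.exp (Real.log N / 2) := h1.trans (h2.trans h3)
      _ = Real.exp (0 - 1 / 2 * Real.log N) * Real.exp (Real.log N) := by
          rw [← Real.exp_add]
          congr 1
          ring
      _ ≤ t * Real.exp (Real.log N) := mul_le_mul_of_nonneg_right h4 (Real.exp_pos _).le
      _ = t * N := by rw [hlN]
  have hPN' : PP w ≤ N := by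
    have h1 : (PP w : ℝ) ≤ N := by
      rw [div_le_iff₀ hN0] at hPN
      nlinarith
    exact_mod_cast h1
  -- `q`
  have hDZ := DZ_pos w
  obtain ⟨q, hq⟩ : ∃ q : ℝ, q = (DZ w)⁻¹ / Real.log N := ⟨_, rfl⟩
  have hq0 : 0 < q := by rw [hq]; positivity
  have hlq : Real.log q ≤ -((1 - δ) * Real.log (Real.log N)) := by
    have h1 := SPSAux.DZ_inv w hw2
    have hw2r : (2 : ℝ) ≤ w := by exact_mod_cast hw2
    have h2 : 0 < Real.log w := Real.log_pos (by linarith)
    have h3 : Real.log w ≤ Real.log (Real.log N) := Real.log_le_log (by linarith) hwL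
    have h4 : q ≤ 2 * Real.exp 7 * Real.log (Real.log N) / Real.log N := by
      rw [hq]
      refine div_le_div_of_nonneg_right (h1.trans ?_) hl0.le
      exact mul_le_mul_of_nonneg_left h3 (by positivity)
    have h5 := Real.log_le_log hq0 h4
    have h6 : 0 < Real.log (Real.log N) := by linarith
    rw [Real.log_div (by positivity) hl0.ne', Real.log_mul (by positivity) h6.ne',
      Real.log_mul (by norm_num) (by positivity), Real.log_exp] at h5
    have h7 := Real.log_two_lt_d9
    linarith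
  have hδ1 : δ ≤ 1 / 2 := by
    have : (1 + ε / 2) * δ ≤ (1 + ε / 2) * (1 / 2) := by
      rw [hδe]
      linarith
    exact le_of_mul_le_mul_left this (by positivity)
  have hq1 : q ≤ 1 := by
    have h1 : Real.log q ≤ 0 := by
      refine hlq.trans ?_
      have : 0 ≤ (1 - δ) * Real.log (Real.log N) := by
        apply mul_nonneg <;> linarith
      linarith
    rw [← Real.exp_log hq0]
    exact Real.exp_le_one_iff.2 h1
  obtain ⟨R, hR⟩ : ∃ R : ℝ, R = (1 + ε / 2) * yy N := ⟨_, rfl⟩
  have hRp : 0 < R := by rw [hR]; positivity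
  -- many primes
  have hhigh : N * Real.exp (R * Real.log q) ≤ ε / 2 := by
    have h1 : R * Real.log q ≤ - ((1 + ε / 4) * Real.log N) := by
      have h2 := mul_le_mul_of_nonneg_left hlq hRp.le
      have h3 : R * -((1 - δ) * Real.log (Real.log N)) =
          -((1 + ε / 2) * (1 - δ)) * (yy N * Real.log (Real.log N)) := by
        rw [hR]
        ring
      have h4 : (1 + ε / 2) * (1 - δ) = 1 + ε / 4 := by
        rw [mul_sub, hδe]
        ring
      rw [h3, h4, hLl] at h2
      linarith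
    have h5 : (N : ℝ) * Real.exp (R * Real.log q) ≤
        Real.exp (Real.log N) * Real.exp (- ((1 + ε / 4) * Real.log N)) := by
      rw [hlN]
      exact mul_le_mul_of_nonneg_left (Real.exp_le_exp.2 h1) hN0.le
    refine h5.trans ?_
    rw [← Real.exp_add]
    have h6 := hS2 (Real.log N) (hyS2.trans hyL)
    refine le_trans (le_of_eq ?_) h6
    congr 1
    ring
  -- the mean
  have hμ0 : 0 ≤ 1 - Real.exp (-t) := by
    have : Real.exp (-t) ≤ 1 := Real.exp_le_one_iff.2 (by linarith)
    linarith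
  have hμ1 : 1 - Real.exp (-t) ≤ 1 := by
    have := Real.exp_pos (-t)
    linarith
  have hμt : t * (1 - t) ≤ 1 - Real.exp (-t) := by
    have h := Real.abs_exp_sub_one_sub_id_le (x := -t) (by
      rw [abs_neg, abs_of_pos htp]
      linarith)
    have := le_abs_self (Real.exp (-t) - 1 - -t)
    nlinarith
  have hmean := mean_le (D := D) (w := w) hNn hPN' hμ0 hμ1 hl0 (by rw [← hq]; exact hq1)
    (le_refl _)
  -- Markov
  refine markov (Tup D (Icc 1 N)) _ (fun s => (Real.exp (t * R) * ∑ b ∈ range (PP w),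
      ∏ i, (1 - (1 - Real.exp (-t)) * qq N w b (s i))) / PP w) (a := ε / 2)
      (by positivity) ?_ ?_ ?_
  · intro s _
    refine div_nonneg (mul_nonneg (Real.exp_pos _).le (Finset.sum_nonneg fun b _ =>
      Finset.prod_nonneg fun i _ => ?_)) hPr.le
    have g1 := qq_nonneg (N := N) (w := w) b (s i) (by rw [← hq]; exact hq0.le)
    have g2 := qq_le (N := N) (w := w) b (s i) (by rw [← hq]; exact hq0.le)
    rw [← hq] at g2
    nlinarith
  · intro s _ hs
    have h1 := dist_ge (w := w) hNn s (t := t) (R := R) htp.le (by rw [← hq]; exact hq0)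
      (by rw [← hq]; exact hq1)
    rw [← hq] at h1
    linarith
  · have h1 : ∀ s : Fin D → ℕ, (Real.exp (t * R) * ∑ b ∈ range (PP w),
        ∏ i, (1 - (1 - Real.exp (-t)) * qq N w b (s i))) / PP w =
        Real.exp (t * R) * ((∑ b ∈ range (PP w),
        ∏ i, (1 - (1 - Real.exp (-t)) * qq N w b (s i))) / PP w) := fun s => by
      rw [mul_div_assoc]
    rw [Finset.sum_congr rfl fun s _ => h1 s, ← Finset.mul_sum]
    have h2 := mul_le_mul_of_nonneg_left hmean (Real.exp_pos (t * R)).le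
    refine h2.trans ?_
    have h3 : t * R + -(D * ((1 - Real.exp (-t)) / Real.log N * (1 - PP w / N))) ≤
        -(t * (ε / 4) * yy N) := by
      have g1 : (1 + ε) * yy N ≤ D / Real.log N := by
        rw [le_div_iff₀ hl0]
        refine le_trans (le_of_eq ?_) hD
        unfold yy
        have : Real.log (Real.log N) ≠ 0 := by linarith
        field_simp
      have g2 : 1 - t ≤ 1 - (PP w : ℝ) / N := by linarith
      have g3 : t * (1 - t) * (1 - t) ≤ (1 - Real.exp (-t)) * (1 - PP w / N) :=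
        mul_le_mul hμt g2 (by linarith) hμ0
      have g4 : t * (1 - 2 * t) ≤ t * (1 - t) * (1 - t) := by
        have e : t * (1 - t) * (1 - t) = t * (1 - 2 * t) + t ^ 3 := by ring
        rw [e]
        have : 0 ≤ t ^ 3 := by positivity
        linarith
      have g5 : (1 + ε) * yy N * (t * (1 - 2 * t)) ≤
          D / Real.log N * ((1 - Real.exp (-t)) * (1 - PP w / N)) := by
        refine mul_le_mul g1 (g4.trans g3) ?_ ?_
        · apply mul_nonneg htp.le
          linarith
        · positivity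
      have g6 : (D : ℝ) * ((1 - Real.exp (-t)) / Real.log N * (1 - PP w / N)) =
          D / Real.log N * ((1 - Real.exp (-t)) * (1 - PP w / N)) := by ring
      have g7 : (1 + ε) * yy N * (t * (1 - 2 * t)) =
          t * yy N * (1 + ε - 2 * ((1 + ε) * t)) := by ring
      rw [hte] at g7
      rw [g6, hR]
      have g8 : t * ((1 + ε / 2) * yy N) = t * yy N * (1 + ε / 2) := by ring
      rw [g8]
      have g9 : t * yy N * (1 + ε / 2) - t * yy N * (1 + ε - 2 * (ε / 8)) =
          -(t * (ε / 4) * yy N) := by ring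
      linarith
    calc Real.exp (t * R) * ((N : ℝ) ^ D *
          Real.exp (-(D * ((1 - Real.exp (-t)) / Real.log N * (1 - PP w / N)))))
        = (N : ℝ) ^ D *
          Real.exp (t * R + -(D * ((1 - Real.exp (-t)) / Real.log N * (1 - PP w / N)))) := by
          rw [Real.exp_add]
          ring
      _ ≤ (N : ℝ) ^ D * Real.exp (0 - t * (ε / 4) * yy N) := by
          refine mul_le_mul_of_nonneg_left (Real.exp_le_exp.2 ?_) (by positivity)
          linarith
      _ ≤ (N : ℝ) ^ D * (ε ^ 2 / 2) :=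
          mul_le_mul_of_nonneg_left (hS1 (yy N) hyS1) (by positivity)
      _ = ε / 2 * (ε * (N : ℝ) ^ D) := by ring

end Pool.Agent.Lib.LEN
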