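import Pool.Agent.Lib.LEN.JCrt
import Pool.Agent.Lib.LEN.JBox
import Pool.Agent.Lib.LEN.TVFar
import Pool.Agent.Lib.LEN.TVChi
import Pool.Agent.Lib.LEN.JDefs

/-!
# LEN.JModA: two levels of Granville's model: the residue classes
-/

set_option autoImplicit false

open Finset Filter

namespace Pool.Agent.Lib.LEN

open Pool.Agent.HLB Pool.Agent.HLT Pool.Agent.HLR Pool.Agent.Lib.GMV

/-- The primes of `(w1, w2]`. -/
def JJ (w1 w2 : ℕ) : Finset ℕ := (Nat.primesLE w2).filter (fun p => w1 < p)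

namespace JModAux

open JBoxAux JCrtAux

lemma filter_le (w1 w2 : ℕ) (h : w1 ≤ w2) :
    (Nat.primesLE w2).filter (fun p => p ≤ w1) = Nat.primesLE w1 := by
  ext p
  rw [mem_filter, Nat.mem_primesLE, Nat.mem_primesLE]
  exact ⟨fun hp => ⟨hp.2, hp.1.2⟩, fun hp => ⟨⟨hp.1.trans h, hp.2⟩, hp.1⟩⟩

lemma filter_not_le (w1 w2 : ℕ) :
    (Nat.primesLE w2).filter (fun p => ¬ p ≤ w1) = JJ w1 w2 := by
  unfold JJ
  refine filter_congr fun p _ => ?_
  rw [not_le]

lemma split_ite (w1 w2 : ℕ) (h : w1 ≤ w2) (f g : ℕ → ℝ) :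
    ∏ p ∈ Nat.primesLE w2, (if p ≤ w1 then f p else g p) =
      (∏ p ∈ Nat.primesLE w1, f p) * ∏ p ∈ JJ w1 w2, g p := by
  rw [prod_ite, filter_le w1 w2 h, filter_not_le]

lemma split (w1 w2 : ℕ) (h : w1 ≤ w2) (f : ℕ → ℝ) :
    ∏ p ∈ Nat.primesLE w2, f p = (∏ p ∈ Nat.primesLE w1, f p) * ∏ p ∈ JJ w1 w2, f p := by
  rw [← split_ite w1 w2 h f f]
  refine prod_congr rfl fun p _ => ?_
  split_ifs <;> rfl

lemma mem_JJ {w1 w2 p : ℕ} : p ∈ JJ w1 w2 ↔ (p ≤ w2 ∧ p.Prime) ∧ w1 < p := by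
  unfold JJ
  rw [mem_filter, Nat.mem_primesLE]

/-- Congruence modulo the product of the primes. -/
lemma modEq_PP (w b c : ℕ) : b % PP w = c % PP w ↔ ∀ p ∈ Nat.primesLE w, b % p = c % p := by
  have hmain : ∀ b c : ℕ, b ≤ c → ((∀ p ∈ Nat.primesLE w, b % p = c % p) →
      b % PP w = c % PP w) := by
    intro b c hbc h
    have h1 : PP w ∣ c - b := by
      unfold PP
      refine Finset.prod_primes_dvd _ (fun p hp => (Nat.mem_primesLE.1 hp).2.prime) fun p hp => ?_
      exact (Nat.modEq_iff_dvd' hbc).1 (h p hp)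
    exact (Nat.modEq_iff_dvd' hbc).2 h1
  constructor
  · intro h p hp
    have h1 : p ∣ PP w := Finset.dvd_prod_of_mem _ hp
    exact Nat.ModEq.of_dvd h1 h
  · intro h
    rcases le_total b c with hbc | hbc
    · exact hmain b c hbc h
    · exact (hmain c b hbc fun p hp => (h p hp).symm).symm

lemma dvd_mod_add (p x t : ℕ) : p ∣ x % p + t ↔ p ∣ x + t := by
  rw [Nat.dvd_iff_mod_eq_zero, Nat.dvd_iff_mod_eq_zero, Nat.mod_add_mod]

lemma ee_mod {r : ℕ} (p : ℕ) (a : Fin r → ℕ) (x : ℕ) : ee p a (x % p) = ee p a x := by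
  unfold ee
  refine prod_congr rfl fun i _ => ?_
  simp only [dvd_mod_add]

lemma ee_congr {r : ℕ} (p : ℕ) (a : Fin r → ℕ) {x z : ℕ} (h : x % p = z % p) :
    ee p a x = ee p a z := by
  rw [← ee_mod p a x, h, ee_mod]

lemma ee_nonneg {r : ℕ} (p : ℕ) (a : Fin r → ℕ) (x : ℕ) : 0 ≤ ee p a x := by
  unfold ee
  refine prod_nonneg fun i _ => ?_
  split_ifs <;> norm_num

lemma ee_le_one {r : ℕ} (p : ℕ) (a : Fin r → ℕ) (x : ℕ) : ee p a x ≤ 1 := by
  unfold ee
  refine prod_le_one (fun i _ => ?_) fun i _ => ?_ <;> split_ifs <;> norm_num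

open scoped Classical in
lemma good_prod {r : ℕ} (w : ℕ) (a : Fin r → ℕ) (n : ℕ) :
    (if Good w a n then (1 : ℝ) else 0) = ∏ p ∈ Nat.primesLE w, ee p a n := by
  split_ifs with h
  · symm
    refine prod_eq_one fun p hp => ?_
    unfold ee
    refine prod_eq_one fun i _ => ?_
    rw [if_neg (Cls0.coprime_PP_iff.1 (h i) p hp)]
  · unfold Good at h
    obtain ⟨i, hi⟩ := not_forall.1 h
    rw [Cls0.coprime_PP_iff] at hi
    push Not at hi
    obtain ⟨p, hp, hd⟩ := hi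
    symm
    refine prod_eq_zero hp ?_
    unfold ee
    exact prod_eq_zero (mem_univ i) (if_pos hd)

lemma ee_eq_one_of_good {r : ℕ} {w : ℕ} {a : Fin r → ℕ} {n : ℕ} (h : Good w a n) {p : ℕ}
    (hp : p ∈ Nat.primesLE w) : ee p a n = 1 := by
  unfold ee
  refine prod_eq_one fun i _ => ?_
  rw [if_neg (Cls0.coprime_PP_iff.1 (h i) p hp)]

open scoped Classical in
/-- The good lifts of a class, weighted. -/
lemma lifts {r : ℕ} (w1 w2 : ℕ) (h : w1 ≤ w2) (a : Fin r → ℕ) (C : ℝ) (b : ℕ)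
    (hb : Good w1 a b) :
    ∑ b' ∈ (range (PP w2)).filter (fun b' => Good w2 a b' ∧ b' % PP w1 = b % PP w1),
      ∏ p ∈ JJ w1 w2, (1 + C * (if b' % p = b % p then 1 else 0)) =
    ∏ p ∈ JJ w1 w2, (((p : ℝ) - nuI a p) + C * ee p a b) := by
  set u : ℕ → ℕ → ℝ := fun p c => if p ≤ w1 then (if c % p = b % p then 1 else 0)
    else ee p a c * (1 + C * (if c % p = b % p then 1 else 0)) with hu
  have hper : ∀ p ∈ Nat.primesLE w2, ∀ x, u p (x % p) = u p x := by
    intro p _ x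
    rw [hu]
    simp only [Nat.mod_mod, ee_mod]
  have h1 := crt_prod1 (Nat.primesLE w2) (fun p hp => (Nat.mem_primesLE.1 hp).2) u hper
  have h2 : ∏ p ∈ Nat.primesLE w2, ∑ x ∈ range p, u p x =
      ∏ p ∈ JJ w1 w2, (((p : ℝ) - nuI a p) + C * ee p a b) := by
    have h3 : ∀ p ∈ Nat.primesLE w2, ∑ x ∈ range p, u p x =
        if p ≤ w1 then 1 else (((p : ℝ) - nuI a p) + C * ee p a b) := by
      intro p hp
      have hpp := (Nat.mem_primesLE.1 hp).2
      have h4 : ∀ g : ℕ → ℝ, ∑ x ∈ range p, g x * (if x % p = b % p then (1 : ℝ) else 0) =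
          g (b % p) := by
        intro g
        rw [sum_eq_single (b % p)]
        · rw [Nat.mod_mod, if_pos rfl, mul_one]
        · intro x hx hne
          rw [Nat.mod_eq_of_lt (mem_range.1 hx), if_neg hne, mul_zero]
        · intro hn
          exact absurd (mem_range.2 (Nat.mod_lt _ hpp.pos)) hn
      rw [hu]
      simp only
      by_cases hc : p ≤ w1
      · simp only [if_pos hc]
        have := h4 fun _ => 1
        simpa only [one_mul] using this
      · simp only [if_neg hc]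
        have e : ∀ x ∈ range p, ee p a x * (1 + C * (if x % p = b % p then (1 : ℝ) else 0)) =
            ee p a x + C * (ee p a x * (if x % p = b % p then (1 : ℝ) else 0)) := fun x _ => by ring
        rw [sum_congr rfl e, sum_add_distrib, ← mul_sum, h4 fun x => ee p a x, sum_ee hpp, ee_mod]
    rw [prod_congr rfl h3, split_ite w1 w2 h, prod_const_one, one_mul]
  rw [← h2, ← h1]
  rw [sum_filter]
  refine sum_congr rfl fun b' _ => ?_
  rw [hu]
  simp only
  rw [split_ite w1 w2 h, prod_mul_distrib]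
  have hmod : (∏ p ∈ Nat.primesLE w1, (if b' % p = b % p then (1 : ℝ) else 0)) =
      if b' % PP w1 = b % PP w1 then 1 else 0 := by
    rw [prod_ite_zero, prod_const_one]
    simp only [modEq_PP]
  rw [hmod]
  by_cases hc : b' % PP w1 = b % PP w1
  · rw [if_pos hc, one_mul]
    have hg : (if Good w2 a b' then (1 : ℝ) else 0) = ∏ p ∈ JJ w1 w2, ee p a b' := by
      rw [good_prod, split w1 w2 h]
      rw [prod_eq_one (s := Nat.primesLE w1), one_mul]
      intro p hp
      rw [ee_congr p a ((modEq_PP w1 b' b).1 hc p hp)]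
      exact ee_eq_one_of_good hb hp
    rw [← hg]
    by_cases hG : Good w2 a b'
    · rw [if_pos ⟨hG, hc⟩, if_pos hG, one_mul]
    · rw [if_neg (fun h5 => hG h5.1), if_neg hG, zero_mul]
  · rw [if_neg (fun h5 => hc h5.2), if_neg hc, zero_mul]

/-- The indicator that `b + m` is coprime to `PP w`. -/
lemma cop_prod (w b m : ℕ) : (if Nat.Coprime (b + m) (PP w) then (1 : ℝ) else 0) =
    ∏ p ∈ Nat.primesLE w, (if p ∣ b + m then (0 : ℝ) else 1) := by
  split_ifs with h
  · symm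
    refine prod_eq_one fun p hp => ?_
    rw [if_neg (Cls0.coprime_PP_iff.1 h p hp)]
  · rw [Cls0.coprime_PP_iff] at h
    push Not at h
    obtain ⟨p, hp, hd⟩ := h
    symm
    exact prod_eq_zero hp (if_pos hd)

lemma cast_PP (w : ℕ) : (PP w : ℝ) = ∏ p ∈ Nat.primesLE w, (p : ℝ) := by
  unfold PP
  push_cast
  rfl

lemma mul_DZ (w : ℕ) : (PP w : ℝ) * DZ w = ∏ p ∈ Nat.primesLE w, ((p : ℝ) - 1) := by
  rw [cast_PP]
  unfold DZ
  rw [← prod_mul_distrib]
  refine prod_congr rfl fun p hp => ?_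
  have h1 : (p : ℝ) ≠ 0 := by exact_mod_cast (Nat.mem_primesLE.1 hp).2.ne_zero
  field_simp

/-- The integers `m` of a period with `b + m` coprime to `PP w1`. -/
lemma mean_one (w1 w2 : ℕ) (h : w1 ≤ w2) (b : ℕ) :
    ∑ m ∈ range (PP w2), (if Nat.Coprime (b + m) (PP w1) then (1 : ℝ) else 0) =
      PP w2 * DZ w1 := by
  set u : ℕ → ℕ → ℝ := fun p m => if p ≤ w1 then (if p ∣ b + m then 0 else 1) else 1 with hu
  have hper : ∀ p ∈ Nat.primesLE w2, ∀ x, u p (x % p) = u p x := by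
    intro p _ x
    rw [hu]
    simp only [add_comm b, dvd_mod_add]
  have h1 := crt_prod1 (Nat.primesLE w2) (fun p hp => (Nat.mem_primesLE.1 hp).2) u hper
  have h2 : ∏ p ∈ Nat.primesLE w2, ∑ x ∈ range p, u p x = PP w2 * DZ w1 := by
    have h3 : ∀ p ∈ Nat.primesLE w2, ∑ x ∈ range p, u p x =
        if p ≤ w1 then ((p : ℝ) - 1) else p := by
      intro p hp
      have hpp := (Nat.mem_primesLE.1 hp).2
      rw [hu]
      simp only
      by_cases hc : p ≤ w1
      · simp only [if_pos hc]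
        exact sum_one hpp b
      · simp only [if_neg hc]
        simp
    rw [prod_congr rfl h3, split_ite w1 w2 h, ← mul_DZ, cast_PP w2, split w1 w2 h, cast_PP w1]
    ring
  rw [← h2, ← h1]
  unfold PP
  refine sum_congr rfl fun m _ => ?_
  have h5 := cop_prod w1 b m
  unfold PP at h5
  rw [h5, hu]
  simp only
  rw [split_ite w1 w2 h, prod_const_one, mul_one]

lemma two_local {p : ℕ} (hp : p.Prime) (b b' : ℕ) :
    ∑ c ∈ range p, (if p ∣ b + c then (0 : ℝ) else 1) * (if p ∣ b' + c then (0 : ℝ) else 1) =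
      if b' % p = b % p then (p : ℝ) - 1 else p - 2 := by
  have e : ∀ b : ℕ, ∀ c, (if p ∣ b + c then (0 : ℝ) else 1) =
      (if p ∣ b % p + c then (0 : ℝ) else 1) := by
    intro b c
    simp only [dvd_mod_add]
  split_ifs with h
  · have h1 : ∀ c ∈ range p, (if p ∣ b + c then (0 : ℝ) else 1) *
        (if p ∣ b' + c then (0 : ℝ) else 1) = (if p ∣ b + c then (0 : ℝ) else 1) := by
      intro c _
      rw [e b' c, h, ← e b c]
      split_ifs <;> simp
    rw [sum_congr rfl h1, sum_one hp b]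
  · have h1 : ∀ c ∈ range p, (if p ∣ b + c then (0 : ℝ) else 1) *
        (if p ∣ b' + c then (0 : ℝ) else 1) = (if p ∣ b % p + c then (0 : ℝ) else 1) *
        (if p ∣ b' % p + c then (0 : ℝ) else 1) := by
      intro c _
      rw [e b' c, e b c]
    rw [sum_congr rfl h1, sum_two hp (b % p) (b' % p) (Nat.mod_lt _ hp.pos) (Nat.mod_lt _ hp.pos)
      (Ne.symm h)]

/-- The integers `m` of a period with `b + m` and `b' + m` coprime to `PP w2`. -/
lemma mean_two (w1 w2 : ℕ) (h : w1 ≤ w2) (b b' : ℕ) (hbb : b' % PP w1 = b % PP w1) :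
    ∑ m ∈ range (PP w2), (if Nat.Coprime (b + m) (PP w2) then (1 : ℝ) else 0) *
      (if Nat.Coprime (b' + m) (PP w2) then (1 : ℝ) else 0) =
    PP w2 * DZ w1 * ∏ p ∈ JJ w1 w2,
      (if b' % p = b % p then (1 - 1 / (p : ℝ)) else 1 - 2 / (p : ℝ)) := by
  set u : ℕ → ℕ → ℝ := fun p m => (if p ∣ b + m then 0 else 1) * (if p ∣ b' + m then 0 else 1)
    with hu
  have hper : ∀ p ∈ Nat.primesLE w2, ∀ x, u p (x % p) = u p x := by
    intro p _ x
    rw [hu]
    simp only [add_comm b, add_comm b', dvd_mod_add]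
  have h1 := crt_prod1 (Nat.primesLE w2) (fun p hp => (Nat.mem_primesLE.1 hp).2) u hper
  have h2 : ∏ p ∈ Nat.primesLE w2, ∑ x ∈ range p, u p x = PP w2 * DZ w1 * ∏ p ∈ JJ w1 w2,
      (if b' % p = b % p then (1 - 1 / (p : ℝ)) else 1 - 2 / (p : ℝ)) := by
    have h3 : ∀ p ∈ Nat.primesLE w2, ∑ x ∈ range p, u p x =
        if p ≤ w1 then ((p : ℝ) - 1) else
          p * (if b' % p = b % p then (1 - 1 / (p : ℝ)) else 1 - 2 / (p : ℝ)) := by
      intro p hp
      have hpp := (Nat.mem_primesLE.1 hp).2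
      have hp0 : (p : ℝ) ≠ 0 := by exact_mod_cast hpp.ne_zero
      rw [hu]
      simp only
      rw [two_local hpp b b']
      by_cases hc : p ≤ w1
      · rw [if_pos hc, if_pos]
        exact (modEq_PP w1 b' b).1 hbb p (Nat.mem_primesLE.2 ⟨hc, hpp⟩)
      · rw [if_neg hc]
        split_ifs
        · field_simp
        · field_simp
    rw [prod_congr rfl h3, split_ite w1 w2 h, prod_mul_distrib, ← mul_DZ, cast_PP w2,
      split w1 w2 h, cast_PP w1]
    ring
  rw [← h2, ← h1]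
  unfold PP
  refine sum_congr rfl fun m _ => ?_
  have h5 := cop_prod w2 b m
  have h6 := cop_prod w2 b' m
  unfold PP at h5 h6
  rw [h5, h6, hu, ← prod_mul_distrib]

/-- The ratio of the local densities. -/
noncomputable def sg (w1 w2 b b' : ℕ) : ℝ :=
  (DZ w1 / DZ w2) ^ 2 * ∏ p ∈ JJ w1 w2,
    (if b' % p = b % p then (1 - 1 / (p : ℝ)) else 1 - 2 / (p : ℝ))

/-- The local factor of the likelihood ratio. -/
noncomputable def ff (N w1 w2 b b' m : ℕ) : ℝ :=
  qq N w2 b m * qq N w2 b' m / qq N w1 b m +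
    (1 - qq N w2 b m) * (1 - qq N w2 b' m) / (1 - qq N w1 b m)

lemma cop_mono {w1 w2 x : ℕ} (h : w1 ≤ w2) (hx : Nat.Coprime x (PP w2)) :
    Nat.Coprime x (PP w1) := by
  rw [Cls0.coprime_PP_iff] at hx ⊢
  intro p hp
  rw [Nat.mem_primesLE] at hp
  exact hx p (Nat.mem_primesLE.2 ⟨hp.1.trans h, hp.2⟩)

lemma cop_congr {w b b' : ℕ} (h : b' % PP w = b % PP w) (m : ℕ) :
    Nat.Coprime (b' + m) (PP w) ↔ Nat.Coprime (b + m) (PP w) := by
  rw [← TVChiAux.coprime_mod_iff w b' m, h, TVChiAux.coprime_mod_iff]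

/-- The local factor as a combination of indicators. -/
lemma ff_eq {N w1 w2 : ℕ} (h : w1 ≤ w2) (b b' m : ℕ) (hbb : b' % PP w1 = b % PP w1)
    {q1 q2 : ℝ} (hq1 : q1 = (DZ w1)⁻¹ / Real.log N) (hq2 : q2 = (DZ w2)⁻¹ / Real.log N)
    (hq10 : 0 < q1) (hq11 : q1 < 1) :
    ff N w1 w2 b b' m = 1 + 1 / (1 - q1) * (
      (if Nat.Coprime (b + m) (PP w2) then (1 : ℝ) else 0) *
        (if Nat.Coprime (b' + m) (PP w2) then (1 : ℝ) else 0) * (q2 ^ 2 / q1) -
      q2 * (if Nat.Coprime (b + m) (PP w2) then (1 : ℝ) else 0) -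
      q2 * (if Nat.Coprime (b' + m) (PP w2) then (1 : ℝ) else 0) +
      q1 * (if Nat.Coprime (b + m) (PP w1) then (1 : ℝ) else 0)) := by
  have h1q : 1 - q1 ≠ 0 := by
    have : 0 < 1 - q1 := by linarith
    exact this.ne'
  have hq1' : q1 ≠ 0 := hq10.ne'
  unfold ff qq
  rw [← hq1, ← hq2]
  by_cases c1 : Nat.Coprime (b + m) (PP w1)
  · by_cases c2 : Nat.Coprime (b + m) (PP w2)
    · by_cases c3 : Nat.Coprime (b' + m) (PP w2)
      · simp only [if_pos c1, if_pos c2, if_pos c3]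
        field_simp
        ring
      · simp only [if_pos c1, if_pos c2, if_neg c3]
        field_simp
        ring
    · by_cases c3 : Nat.Coprime (b' + m) (PP w2)
      · simp only [if_pos c1, if_neg c2, if_pos c3]
        field_simp
        ring
      · simp only [if_pos c1, if_neg c2, if_neg c3]
        field_simp
        ring
  · have c2 : ¬ Nat.Coprime (b + m) (PP w2) := fun h2 => c1 (cop_mono h h2)
    have c3 : ¬ Nat.Coprime (b' + m) (PP w2) := fun h2 =>
      c1 ((cop_congr hbb m).1 (cop_mono h h2))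
    simp only [if_neg c1, if_neg c2, if_neg c3]
    simp

/-- The mean of the local factor over a period. -/
lemma ff_mean {N w1 w2 : ℕ} (h : w1 ≤ w2) (b b' : ℕ) (hbb : b' % PP w1 = b % PP w1)
    {q1 : ℝ} (hq1 : q1 = (DZ w1)⁻¹ / Real.log N)
    (hq10 : 0 < q1) (hq11 : q1 < 1) (hL : 0 < Real.log N) :
    ∑ m ∈ range (PP w2), ff N w1 w2 b b' m =
      PP w2 * (1 + (sg w1 w2 b b' - 1) / (Real.log N * (1 - q1))) := by
  obtain ⟨q2, hq2⟩ : ∃ q2 : ℝ, q2 = (DZ w2)⁻¹ / Real.log N := ⟨_, rfl⟩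
  have h1q : 1 - q1 ≠ 0 := by
    have : 0 < 1 - q1 := by linarith
    exact this.ne'
  rw [sum_congr rfl fun m _ => ff_eq h b b' m hbb hq1 hq2 hq10 hq11]
  rw [sum_add_distrib, sum_const, card_range, nsmul_eq_mul, mul_one, ← mul_sum,
    sum_add_distrib, sum_sub_distrib, sum_sub_distrib, ← mul_sum, ← mul_sum, ← mul_sum, ← sum_mul,
    mean_two w1 w2 h b b' hbb, mean_one w2 w2 le_rfl b, mean_one w2 w2 le_rfl b',
    mean_one w1 w2 h b]
  unfold sg
  set Pi0 := ∏ p ∈ JJ w1 w2, (if b' % p = b % p then (1 - 1 / (p : ℝ)) else 1 - 2 / (p : ℝ))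
  have hD1 := (DZ_pos w1).ne'
  have hD2 := (DZ_pos w2).ne'
  have hL' := hL.ne'
  rw [hq2]
  have e1 : q1 = 1 / (DZ w1 * Real.log N) := by
    rw [hq1]
    field_simp
  have e2 : q1 * (PP w2 * DZ w1) = PP w2 / Real.log N := by
    rw [e1]
    field_simp
  have e3 : (DZ w2)⁻¹ / Real.log N * (PP w2 * DZ w2) = PP w2 / Real.log N := by
    field_simp
  rw [e2, e3]
  have e4 : PP w2 * DZ w1 * Pi0 * (((DZ w2)⁻¹ / Real.log N) ^ 2 / q1) =
      PP w2 / Real.log N * ((DZ w1 / DZ w2) ^ 2 * Pi0) := by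
    rw [e1]
    field_simp
  rw [e4]
  field_simp
  ring

end JModAux

end Pool.Agent.Lib.LEN
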