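import Pool.Agent.Lib.LEN.JDefs

/-!
# LEN.JMonB: the distance to the model increases with the number of the shifts
-/

set_option autoImplicit false

open Finset Filter

namespace Pool.Agent.Lib.LEN

open Pool.Agent.HLB Pool.Agent.HLT Pool.Agent.HLR Pool.Agent.Lib.GMV

namespace JMonBAux

/-- The restriction of a pattern. -/
def res {D' D : ℕ} (e : Fin D' → Fin D) (T : Finset (Fin D)) : Finset (Fin D') :=
  univ.filter fun j => e j ∈ T

lemma mem_res {D' D : ℕ} (e : Fin D' → Fin D) (T : Finset (Fin D)) (j : Fin D') :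
    j ∈ res e T ↔ e j ∈ T := by
  unfold res
  rw [mem_filter]
  exact ⟨fun h => h.2, fun h => ⟨mem_univ _, h⟩⟩

/-- The sum over all patterns. -/
lemma sum_pat {D : ℕ} (f g : Fin D → ℝ) :
    ∑ T : Finset (Fin D), ∏ i, (if i ∈ T then f i else g i) = ∏ i, (f i + g i) := by
  classical
  rw [prod_add, powerset_univ]
  refine sum_congr rfl fun T _ => ?_
  rw [← prod_sdiff (subset_univ T), mul_comm]
  congr 1
  · exact prod_congr rfl fun i hi => by rw [if_pos hi]
  · exact prod_congr rfl fun i hi => by rw [if_neg (mem_sdiff.1 hi).2]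

/-- The marginal of independent coins. -/
lemma marg {D' D : ℕ} (e : Fin D' → Fin D) (he : Function.Injective e) (a : Fin D → ℝ)
    (T' : Finset (Fin D')) :
    ∑ T ∈ (univ : Finset (Finset (Fin D))).filter (fun T => res e T = T'),
      ∏ i, (if i ∈ T then a i else 1 - a i) = ∏ j, (if j ∈ T' then a (e j) else 1 - a (e j)) := by
  classical
  rw [sum_filter]
  obtain ⟨f, hf⟩ : ∃ f : Fin D → ℝ, f = fun i => if (∃ j, e j = i ∧ j ∉ T') then 0 else a i :=
    ⟨_, rfl⟩
  obtain ⟨g, hg⟩ : ∃ g : Fin D → ℝ, g = fun i => if (∃ j, e j = i ∧ j ∈ T') then 0 else 1 - a i :=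
    ⟨_, rfl⟩
  have h1 : ∀ T : Finset (Fin D), (if res e T = T' then ∏ i, (if i ∈ T then a i else 1 - a i) else 0) =
      ∏ i, (if i ∈ T then f i else g i) := by
    intro T
    split_ifs with hT
    · refine prod_congr rfl fun i _ => ?_
      by_cases hi : i ∈ T
      · rw [if_pos hi, if_pos hi, hf]
        have : ¬ ∃ j, e j = i ∧ j ∉ T' := by
          rintro ⟨j, hj, hjT⟩
          apply hjT
          rw [← hT, mem_res, hj]
          exact hi
        simp only [this, if_false]
      · rw [if_neg hi, if_neg hi, hg]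
        have : ¬ ∃ j, e j = i ∧ j ∈ T' := by
          rintro ⟨j, hj, hjT⟩
          rw [← hT, mem_res, hj] at hjT
          exact hi hjT
        simp only [this, if_false]
    · have h2 : ∃ j, ¬ (j ∈ res e T ↔ j ∈ T') := by
        by_contra hcon
        push Not at hcon
        apply hT
        ext j
        have := hcon j
        tauto
      obtain ⟨j, hj⟩ := h2
      rw [mem_res] at hj
      symm
      refine prod_eq_zero (mem_univ (e j)) ?_
      by_cases hi : e j ∈ T
      · have hjT : j ∉ T' := fun h => hj ⟨fun _ => h, fun _ => hi⟩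
        rw [if_pos hi, hf]
        have : ∃ j', e j' = e j ∧ j' ∉ T' := ⟨j, rfl, hjT⟩
        simp only [this, if_true]
      · have hjT : j ∈ T' := by
          by_contra h
          exact hj ⟨fun h' => absurd h' hi, fun h' => absurd h' h⟩
        rw [if_neg hi, hg]
        have : ∃ j', e j' = e j ∧ j' ∈ T' := ⟨j, rfl, hjT⟩
        simp only [this, if_true]
  rw [sum_congr rfl fun T _ => h1 T, sum_pat]
  have h3 : ∏ i, (f i + g i) = ∏ i ∈ univ.image e, (f i + g i) := by
    symm
    refine prod_subset (subset_univ _) fun i _ hi => ?_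
    have h4 : ∀ j, e j ≠ i := fun j hj => hi (mem_image.2 ⟨j, mem_univ _, hj⟩)
    rw [hf, hg]
    have h5 : ¬ ∃ j, e j = i ∧ j ∉ T' := fun ⟨j, hj, _⟩ => h4 j hj
    have h6 : ¬ ∃ j, e j = i ∧ j ∈ T' := fun ⟨j, hj, _⟩ => h4 j hj
    simp only [h5, h6, if_false]
    ring
  rw [h3, prod_image fun x _ y _ hxy => he hxy]
  refine prod_congr rfl fun j _ => ?_
  rw [hf, hg]
  by_cases hj : j ∈ T'
  · have h5 : ¬ ∃ j', e j' = e j ∧ j' ∉ T' := by
      rintro ⟨j', h, h'⟩
      rw [he h] at h'
      exact h' hj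
    have h6 : ∃ j', e j' = e j ∧ j' ∈ T' := ⟨j, rfl, hj⟩
    simp only [h5, h6, if_false, if_true, if_pos hj]
    ring
  · have h5 : ∃ j', e j' = e j ∧ j' ∉ T' := ⟨j, rfl, hj⟩
    have h6 : ¬ ∃ j', e j' = e j ∧ j' ∈ T' := by
      rintro ⟨j', h, h'⟩
      rw [he h] at h'
      exact hj h'
    simp only [h5, h6, if_false, if_true, if_neg hj]
    ring

lemma pat_comp {D' D : ℕ} (e : Fin D' → Fin D) (s : Fin D → ℕ) (n : ℕ) :
    pat (fun j => s (e j)) n = res e (pat s n) := by
  ext j
  rw [mem_res]
  unfold pat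
  rw [mem_filter, mem_filter]
  exact ⟨fun h => ⟨mem_univ _, h.2⟩, fun h => ⟨mem_univ _, h.2⟩⟩

lemma cntP_marg {N r D' D : ℕ} (e : Fin D' → Fin D) (h : Fin r → ℕ) (s : Fin D → ℕ)
    (T' : Finset (Fin D')) :
    cntP N h (fun j => s (e j)) T' =
      ∑ T ∈ (univ : Finset (Finset (Fin D))).filter (fun T => res e T = T'), cntP N h s T := by
  classical
  unfold cntP
  rw [card_eq_sum_card_fiberwise (f := pat s)
    (t := (univ : Finset (Finset (Fin D))).filter (fun T => res e T = T'))]
  · refine sum_congr rfl fun T hT => ?_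
    congr 1
    ext n
    rw [mem_filter, mem_filter, mem_filter, pat_comp]
    rw [mem_filter] at hT
    constructor
    · rintro ⟨⟨h1, h2, h3⟩, h4⟩
      exact ⟨h1, h2, h4⟩
    · rintro ⟨h1, h2, h3⟩
      exact ⟨⟨h1, h2, by rw [h3]; exact hT.2⟩, h3⟩
  · intro n hn
    rw [mem_coe, mem_filter, pat_comp] at hn
    rw [mem_coe, mem_filter]
    exact ⟨mem_univ _, hn.2.2⟩

lemma QH_marg {N w r D' D : ℕ} (e : Fin D' → Fin D) (he : Function.Injective e) (h : Fin r → ℕ)
    (s : Fin D → ℕ) (T' : Finset (Fin D')) :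
    QH N w h (fun j => s (e j)) T' =
      ∑ T ∈ (univ : Finset (Finset (Fin D))).filter (fun T => res e T = T'), QH N w h s T := by
  classical
  unfold QH
  rw [← sum_div, sum_comm]
  congr 1
  refine sum_congr rfl fun b _ => ?_
  unfold QB
  exact (marg e he (fun i => qq N w b (s i)) T').symm

/-- The distance increases with the number of the shifts. -/
lemma dj_mono {N w r D' D : ℕ} (e : Fin D' → Fin D) (he : Function.Injective e) (h : Fin r → ℕ)
    (s : Fin D → ℕ) : DJ N w h (fun j => s (e j)) ≤ DJ N w h s := by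
  classical
  unfold DJ
  rw [← sum_fiberwise (univ : Finset (Finset (Fin D))) (res e)
    (fun T => |(cntP N h s T : ℝ) - pr N h * QH N w h s T|)]
  refine sum_le_sum fun T' _ => ?_
  rw [cntP_marg, QH_marg e he]
  push_cast
  rw [mul_sum, ← sum_sub_distrib]
  exact abs_sum_le_sum_abs _ _

/-- Restriction to the first shifts: a share. -/
lemma share_up {D' m : ℕ} (S : Finset ℕ) (A : (Fin D' → ℕ) → Prop) (B : (Fin (D' + m) → ℕ) → Prop)
    [DecidablePred A] [DecidablePred B] (hAB : ∀ s : Fin (D' + m) → ℕ,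
      A (fun j => s (Fin.castAdd m j)) → B s) :
    ((Tup D' S).filter A).card * S.card ^ m ≤ ((Tup (D' + m) S).filter B).card := by
  classical
  have hc : (Tup m S).card = S.card ^ m := by
    unfold Tup
    rw [Fintype.card_piFinset, prod_const, card_univ, Fintype.card_fin]
  rw [← hc, ← card_product]
  refine card_le_card_of_injOn (fun x => Fin.append x.1 x.2) ?_ ?_
  · intro x hx
    rw [mem_coe, mem_product, mem_filter] at hx
    obtain ⟨⟨h1, h2⟩, h3⟩ := hx
    rw [mem_coe, mem_filter]
    constructor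
    · unfold Tup at h1 h3 ⊢
      rw [Fintype.mem_piFinset] at h1 h3 ⊢
      intro i
      refine Fin.addCases (fun j => ?_) (fun j => ?_) i
      · show Fin.append x.1 x.2 (Fin.castAdd m j) ∈ S
        rw [Fin.append_left]
        exact h1 j
      · show Fin.append x.1 x.2 (Fin.natAdd D' j) ∈ S
        rw [Fin.append_right]
        exact h3 j
    · refine hAB _ ?_
      have : (fun j => Fin.append x.1 x.2 (Fin.castAdd m j)) = x.1 := by
        funext j
        rw [Fin.append_left]
      show A (fun j => Fin.append x.1 x.2 (Fin.castAdd m j))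
      rw [this]
      exact h2
  · intro x _ z _ hxz
    have hxz' : Fin.append x.1 x.2 = Fin.append z.1 z.2 := hxz
    refine Prod.ext (funext fun j => ?_) (funext fun j => ?_)
    · have := congrFun hxz' (Fin.castAdd m j)
      rwa [Fin.append_left, Fin.append_left] at this
    · have := congrFun hxz' (Fin.natAdd D' j)
      rwa [Fin.append_right, Fin.append_right] at this

/-- Restriction to the first shifts: a share, upper bound. -/
lemma share_down {D' m : ℕ} (S : Finset ℕ) (A : (Fin D' → ℕ) → Prop) (B : (Fin (D' + m) → ℕ) → Prop)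
    [DecidablePred A] [DecidablePred B] (hBA : ∀ s : Fin (D' + m) → ℕ,
      B s → A (fun j => s (Fin.castAdd m j))) :
    ((Tup (D' + m) S).filter B).card ≤ ((Tup D' S).filter A).card * S.card ^ m := by
  classical
  have hc : (Tup m S).card = S.card ^ m := by
    unfold Tup
    rw [Fintype.card_piFinset, prod_const, card_univ, Fintype.card_fin]
  rw [← hc, ← card_product]
  refine card_le_card_of_injOn
    (fun s => ((fun j => s (Fin.castAdd m j)), (fun j => s (Fin.natAdd D' j)))) ?_ ?_
  · intro s hs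
    rw [mem_coe, mem_filter] at hs
    obtain ⟨h1, h2⟩ := hs
    rw [mem_coe, mem_product, mem_filter]
    unfold Tup at h1 ⊢
    rw [Fintype.mem_piFinset] at h1
    refine ⟨⟨?_, hBA s h2⟩, ?_⟩
    · rw [Fintype.mem_piFinset]
      exact fun j => h1 _
    · rw [Fintype.mem_piFinset]
      exact fun j => h1 _
  · intro s _ t _ hst
    have h1 := congrArg Prod.fst hst
    have h2 := congrArg Prod.snd hst
    funext i
    refine Fin.addCases (fun j => ?_) (fun j => ?_) i
    · exact congrFun h1 j
    · exact congrFun h2 j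

end JMonBAux

end Pool.Agent.Lib.LEN
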