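import Pool.Agent.Lib.LEN.JDefs

/-!
# LEN.JMono: the distance to the model is monotone in the number of translates

The patterns of the first `D` of `D + m` translates are the marginals of the patterns of all of them, for the primes
and for the model. So `DJ` does not decrease with `D`, and `law12` puts the joint law below the line (from the largest
`D`) and its failure beyond it (from the smallest `D`) on one exceptional set of tuples for all `D`.
-/

set_option autoImplicit false

open Finset Filter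

namespace Pool.Agent.Lib.LEN

open Pool.Agent.HLB Pool.Agent.HLT Pool.Agent.HLR Pool.Agent.Lib.GMV

namespace JMonoAux

/-- Restriction of a pattern to the first `D` translates. -/
def res {D m : ℕ} (T : Finset (Fin (D + m))) : Finset (Fin D) :=
  univ.filter fun i => Fin.castAdd m i ∈ T

/-- The first `D` translates. -/
def fst {D m : ℕ} (s : Fin (D + m) → ℕ) : Fin D → ℕ := fun i => s (Fin.castAdd m i)

lemma mem_res {D m : ℕ} (T : Finset (Fin (D + m))) (i : Fin D) :
    i ∈ res T ↔ Fin.castAdd m i ∈ T := by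
  unfold res
  rw [mem_filter]
  exact ⟨fun h => h.2, fun h => ⟨mem_univ _, h⟩⟩

lemma res_pat {D m : ℕ} (s : Fin (D + m) → ℕ) (n : ℕ) : res (pat s n) = pat (fst s) n := by
  ext i
  rw [mem_res]
  unfold pat fst
  rw [mem_filter, mem_filter]
  exact ⟨fun h => ⟨mem_univ _, h.2⟩, fun h => ⟨mem_univ _, h.2⟩⟩

/-- The product form of a marginal of independent coins. -/
lemma coins {D m : ℕ} (q : Fin (D + m) → ℝ) (T' : Finset (Fin D)) :
    ∑ T ∈ (univ : Finset (Finset (Fin (D + m)))).filter (fun T => res T = T'),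
      ∏ i, (if i ∈ T then q i else 1 - q i) =
    ∏ i : Fin D, (if i ∈ T' then q (Fin.castAdd m i) else 1 - q (Fin.castAdd m i)) := by
  classical
  set a : Fin (D + m) → ℝ := fun i => Fin.addCases (motive := fun _ => ℝ)
    (fun j => if j ∈ T' then q (Fin.castAdd m j) else 0) (fun k => q (Fin.natAdd D k)) i with ha
  set b : Fin (D + m) → ℝ := fun i => Fin.addCases (motive := fun _ => ℝ)
    (fun j => if j ∈ T' then 0 else 1 - q (Fin.castAdd m j)) (fun k => 1 - q (Fin.natAdd D k)) i
    with hb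
  have ha1 : ∀ j : Fin D, a (Fin.castAdd m j) = if j ∈ T' then q (Fin.castAdd m j) else 0 := by
    intro j
    simp only [ha, Fin.addCases_left]
  have ha2 : ∀ k : Fin m, a (Fin.natAdd D k) = q (Fin.natAdd D k) := by
    intro k
    simp only [ha, Fin.addCases_right]
  have hb1 : ∀ j : Fin D, b (Fin.castAdd m j) =
      if j ∈ T' then 0 else 1 - q (Fin.castAdd m j) := by
    intro j
    simp only [hb, Fin.addCases_left]
  have hb2 : ∀ k : Fin m, b (Fin.natAdd D k) = 1 - q (Fin.natAdd D k) := by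
    intro k
    simp only [hb, Fin.addCases_right]
  have h1 : ∏ i, (a i + b i) =
      ∏ i : Fin D, (if i ∈ T' then q (Fin.castAdd m i) else 1 - q (Fin.castAdd m i)) := by
    rw [Fin.prod_univ_add]
    have e1 : ∏ k : Fin m, (a (Fin.natAdd D k) + b (Fin.natAdd D k)) = 1 := by
      refine prod_eq_one fun k _ => ?_
      rw [ha2, hb2]
      ring
    rw [e1, mul_one]
    refine prod_congr rfl fun j _ => ?_
    rw [ha1, hb1]
    split_ifs <;> ring
  rw [← h1, Fintype.prod_add, ← sum_filter_add_sum_filter_not univ (fun T => res T = T')]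
  have h2 : ∑ T ∈ (univ : Finset (Finset (Fin (D + m)))).filter (fun T => ¬ res T = T'),
      (∏ i ∈ T, a i) * ∏ i ∈ Tᶜ, b i = 0 := by
    refine sum_eq_zero fun T hT => ?_
    rw [mem_filter] at hT
    have h3 : ∃ j : Fin D, ¬ (j ∈ res T ↔ j ∈ T') := by
      by_contra hcon
      push Not at hcon
      exact hT.2 (Finset.ext hcon)
    obtain ⟨j, hj⟩ := h3
    rw [mem_res] at hj
    by_cases hjT : Fin.castAdd m j ∈ T
    · have hj' : j ∉ T' := fun h => hj ⟨fun _ => h, fun _ => hjT⟩
      have h4 : ∏ i ∈ T, a i = 0 := prod_eq_zero hjT (by rw [ha1, if_neg hj'])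
      rw [h4, zero_mul]
    · have hj' : j ∈ T' := by
        by_contra h
        exact hj ⟨fun h' => absurd h' hjT, fun h' => absurd h' h⟩
      have h4 : ∏ i ∈ Tᶜ, b i = 0 :=
        prod_eq_zero (mem_compl.2 hjT) (by rw [hb1, if_pos hj'])
      rw [h4, mul_zero]
  rw [h2, add_zero]
  refine sum_congr rfl fun T hT => ?_
  rw [mem_filter] at hT
  have hres : ∀ j : Fin D, Fin.castAdd m j ∈ T ↔ j ∈ T' := by
    intro j
    rw [← hT.2, mem_res]
  rw [← prod_mul_prod_compl T (fun i => if i ∈ T then q i else 1 - q i)]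
  congr 1
  · refine prod_congr rfl fun i hi => ?_
    rw [if_pos hi]
    refine Fin.addCases (motive := fun i => i ∈ T → q i = a i) (fun j hj => ?_) (fun k _ => ?_) i hi
    · rw [ha1, if_pos ((hres j).1 hj)]
    · rw [ha2]
  · refine prod_congr rfl fun i hi => ?_
    rw [mem_compl] at hi
    rw [if_neg hi]
    refine Fin.addCases (motive := fun i => i ∉ T → 1 - q i = b i) (fun j hj => ?_)
      (fun k _ => ?_) i hi
    · rw [hb1, if_neg (fun h => hj ((hres j).2 h))]
    · rw [hb2]

lemma QH_res (N w : ℕ) {r D m : ℕ} (h : Fin r → ℕ) (s : Fin (D + m) → ℕ) (T' : Finset (Fin D)) :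
    ∑ T ∈ (univ : Finset (Finset (Fin (D + m)))).filter (fun T => res T = T'), QH N w h s T =
      QH N w h (fst s) T' := by
  classical
  unfold QH
  rw [← sum_div, sum_comm]
  congr 1
  refine sum_congr rfl fun b _ => ?_
  unfold QB fst
  exact coins (fun i => qq N w b (s i)) T'

lemma cntP_res (N : ℕ) {r D m : ℕ} (h : Fin r → ℕ) (s : Fin (D + m) → ℕ) (T' : Finset (Fin D)) :
    ∑ T ∈ (univ : Finset (Finset (Fin (D + m)))).filter (fun T => res T = T'), cntP N h s T =
      cntP N h (fst s) T' := by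
  classical
  unfold cntP
  rw [← card_biUnion]
  · congr 1
    ext n
    rw [mem_biUnion, mem_filter]
    constructor
    · rintro ⟨T, hT, hn⟩
      rw [mem_filter] at hT hn
      refine ⟨hn.1, hn.2.1, ?_⟩
      rw [← res_pat, hn.2.2, hT.2]
    · rintro ⟨h1, h2, h3⟩
      refine ⟨pat s n, ?_, ?_⟩
      · rw [mem_filter]
        exact ⟨mem_univ _, by rw [res_pat, h3]⟩
      · rw [mem_filter]
        exact ⟨h1, h2, rfl⟩
  · intro T _ T2 _ hne
    rw [Function.onFun, disjoint_left]
    intro n h1 h2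
    rw [mem_filter] at h1 h2
    exact hne (h1.2.2.symm.trans h2.2.2)

end JMonoAux

open JMonoAux

/-- The distance does not decrease with the number of translates. -/
theorem DJ_mono (N w : ℕ) {r D m : ℕ} (h : Fin r → ℕ) (s : Fin (D + m) → ℕ) :
    DJ N w h (fst s) ≤ DJ N w h s := by
  classical
  unfold DJ
  rw [← sum_fiberwise (univ : Finset (Finset (Fin (D + m)))) (fun T => res T)
    (fun T => |(cntP N h s T : ℝ) - pr N h * QH N w h s T|)]
  refine sum_le_sum fun T' _ => ?_
  have e : (cntP N h (fst s) T' : ℝ) - pr N h * QH N w h (fst s) T' =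
      ∑ T ∈ (univ : Finset (Finset (Fin (D + m)))).filter (fun T => res T = T'),
        ((cntP N h s T : ℝ) - pr N h * QH N w h s T) := by
    rw [sum_sub_distrib, ← mul_sum, QH_res, ← cntP_res]
    push_cast
    rfl
  rw [e]
  exact abs_sum_le_sum_abs _ _

open scoped Classical in
/-- The share of the tuples with a property of the first `D` entries. -/
theorem card_prefix (N D m : ℕ) (A : (Fin D → ℕ) → Prop) :
    ((Tup (D + m) (Icc 1 N)).filter (fun s => A (fst s))).card =
      ((Tup D (Icc 1 N)).filter A).card * N ^ m := by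
  classical
  have h0 : (Tup m (Icc 1 N)).card = N ^ m := by
    unfold Tup
    rw [Fintype.card_piFinset]
    simp
  rw [← h0, ← card_product]
  symm
  refine card_bij' (fun x _ => Fin.append x.1 x.2)
    (fun s _ => (fun i => s (Fin.castAdd m i), fun i => s (Fin.natAdd D i))) ?_ ?_ ?_ ?_
  · rintro ⟨s, u⟩ hx
    rw [mem_product, mem_filter] at hx
    obtain ⟨⟨h1, h2⟩, h3⟩ := hx
    unfold Tup at h1 h3 ⊢
    rw [Fintype.mem_piFinset] at h1 h3
    rw [mem_filter, Fintype.mem_piFinset]
    refine ⟨fun i => ?_, ?_⟩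
    · refine Fin.addCases (fun j => ?_) (fun k => ?_) i
      · rw [Fin.append_left]
        exact h1 j
      · rw [Fin.append_right]
        exact h3 k
    · have e : fst (Fin.append s u) = s := by
        funext i
        unfold fst
        rw [Fin.append_left]
      rw [e]
      exact h2
  · intro s hs
    rw [mem_filter] at hs
    obtain ⟨h1, h2⟩ := hs
    unfold Tup at h1 ⊢
    rw [Fintype.mem_piFinset] at h1
    rw [mem_product, mem_filter, Fintype.mem_piFinset, Fintype.mem_piFinset]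
    exact ⟨⟨fun i => h1 _, h2⟩, fun i => h1 _⟩
  · rintro ⟨s, u⟩ _
    refine Prod.ext ?_ ?_
    · funext i
      exact Fin.append_left _ _ _
    · funext i
      exact Fin.append_right _ _ _
  · intro s _
    exact Fin.append_castAdd_natAdd

open scoped Classical in
/-- One exceptional set of tuples for all numbers of translates. -/
theorem law12 (N w : ℕ) (ε : ℝ) (hε : 0 < ε) (hL : 0 < Real.log N) (hy : 0 ≤ yy N) (r : ℕ)
    (hr : (r : ℝ) ≤ (1 - ε) * yy N)
    (h1 : ∀ D : ℕ, (r : ℝ) + D / Real.log N ≤ (1 - ε / 2) * yy N →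
      (((Tup r (Icc 1 N)).filter (fun h => Adm h ∧ ε / 2 * (N : ℝ) ^ D <
        (((Tup D (Icc 1 N)).filter (fun s => ε / 2 * pr N h < DJ N w h s)).card : ℝ))).card : ℝ) ≤
      ε / 2 * ((Tup r (Icc 1 N)).filter (fun h => Adm h)).card)
    (h2 : ∀ D : ℕ, (1 + ε / 2) * yy N ≤ (r : ℝ) + D / Real.log N →
      (((Tup r (Icc 1 N)).filter (fun h => Adm h ∧ ε / 2 * (N : ℝ) ^ D <
        (((Tup D (Icc 1 N)).filter (fun s =>
          DJ N w h s < (2 - ε / 2) * pr N h)).card : ℝ))).card : ℝ) ≤
      ε / 2 * ((Tup r (Icc 1 N)).filter (fun h => Adm h)).card) :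
    (((Tup r (Icc 1 N)).filter (fun h => Adm h ∧ ¬ ∀ D : ℕ,
      ((r : ℝ) + D / Real.log N ≤ (1 - ε) * yy N →
        (((Tup D (Icc 1 N)).filter (fun s => ε * pr N h < DJ N w h s)).card : ℝ) ≤
          ε * (N : ℝ) ^ D) ∧
      ((1 + ε) * yy N ≤ (r : ℝ) + D / Real.log N →
        (((Tup D (Icc 1 N)).filter (fun s => DJ N w h s < (2 - ε) * pr N h)).card : ℝ) ≤
          ε * (N : ℝ) ^ D))).card : ℝ) ≤
      ε * ((Tup r (Icc 1 N)).filter (fun h => Adm h)).card := by
  classical
  have hN : (0 : ℝ) < N := by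
    have : (N : ℝ) ≠ 0 := by
      intro h
      rw [h, Real.log_zero] at hL
      exact lt_irrefl _ hL
    exact lt_of_le_of_ne (Nat.cast_nonneg N) (Ne.symm this)
  have hpr : ∀ h : Fin r → ℕ, Adm h → 0 ≤ pr N h := by
    intro h hh
    unfold pr
    have := SI_nonneg h hh.1
    positivity
  set D1 : ℕ := ⌊((1 - ε) * yy N - r) * Real.log N⌋₊ with hD1
  set D2 : ℕ := ⌈((1 + ε) * yy N - r) * Real.log N⌉₊ with hD2
  have hD1a : (r : ℝ) + D1 / Real.log N ≤ (1 - ε / 2) * yy N := by
    have h3 : (D1 : ℝ) ≤ ((1 - ε) * yy N - r) * Real.log N :=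
      Nat.floor_le (mul_nonneg (by linarith) hL.le)
    have h4 : (D1 : ℝ) / Real.log N ≤ (1 - ε) * yy N - r := by
      rw [div_le_iff₀ hL]
      exact h3
    have h5 : (1 - ε) * yy N ≤ (1 - ε / 2) * yy N := mul_le_mul_of_nonneg_right (by linarith) hy
    linarith
  have hD2a : (1 + ε / 2) * yy N ≤ (r : ℝ) + D2 / Real.log N := by
    have h3 : ((1 + ε) * yy N - r) * Real.log N ≤ (D2 : ℝ) := Nat.le_ceil _
    have h4 : (1 + ε) * yy N - r ≤ (D2 : ℝ) / Real.log N := by
      rw [le_div_iff₀ hL]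
      exact h3
    have h5 : (1 + ε / 2) * yy N ≤ (1 + ε) * yy N := mul_le_mul_of_nonneg_right (by linarith) hy
    linarith
  have hsub : (Tup r (Icc 1 N)).filter (fun h => Adm h ∧ ¬ ∀ D : ℕ,
      ((r : ℝ) + D / Real.log N ≤ (1 - ε) * yy N →
        (((Tup D (Icc 1 N)).filter (fun s => ε * pr N h < DJ N w h s)).card : ℝ) ≤
          ε * (N : ℝ) ^ D) ∧
      ((1 + ε) * yy N ≤ (r : ℝ) + D / Real.log N →
        (((Tup D (Icc 1 N)).filter (fun s => DJ N w h s < (2 - ε) * pr N h)).card : ℝ) ≤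
          ε * (N : ℝ) ^ D)) ⊆
      (Tup r (Icc 1 N)).filter (fun h => Adm h ∧ ε / 2 * (N : ℝ) ^ D1 <
        (((Tup D1 (Icc 1 N)).filter (fun s => ε / 2 * pr N h < DJ N w h s)).card : ℝ)) ∪
      (Tup r (Icc 1 N)).filter (fun h => Adm h ∧ ε / 2 * (N : ℝ) ^ D2 <
        (((Tup D2 (Icc 1 N)).filter (fun s =>
          DJ N w h s < (2 - ε / 2) * pr N h)).card : ℝ)) := by
    intro h hh
    rw [mem_filter] at hh
    obtain ⟨hT, hA, hnot⟩ := hh
    rw [mem_union, mem_filter, mem_filter]
    by_contra hcon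
    rw [not_or] at hcon
    obtain ⟨g1, g2⟩ := hcon
    have g1' : (((Tup D1 (Icc 1 N)).filter (fun s => ε / 2 * pr N h < DJ N w h s)).card : ℝ) ≤
        ε / 2 * (N : ℝ) ^ D1 := by
      by_contra hc
      rw [not_le] at hc
      exact g1 ⟨hT, hA, hc⟩
    have g2' : (((Tup D2 (Icc 1 N)).filter (fun s =>
        DJ N w h s < (2 - ε / 2) * pr N h)).card : ℝ) ≤ ε / 2 * (N : ℝ) ^ D2 := by
      by_contra hc
      rw [not_le] at hc
      exact g2 ⟨hT, hA, hc⟩
    refine hnot fun D => ⟨fun hD => ?_, fun hD => ?_⟩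
    · have h3 : D ≤ D1 := by
        refine Nat.le_floor ?_
        have h4 : (D : ℝ) / Real.log N ≤ (1 - ε) * yy N - r := by linarith
        rwa [div_le_iff₀ hL] at h4
      obtain ⟨m, hm⟩ := Nat.exists_eq_add_of_le h3
      rw [hm] at g1'
      have h5 : ((Tup (D + m) (Icc 1 N)).filter
          (fun s => ε * pr N h < DJ N w h (fst s))).card ≤
          ((Tup (D + m) (Icc 1 N)).filter (fun s => ε / 2 * pr N h < DJ N w h s)).card := by
        refine card_le_card fun s hs => ?_
        rw [mem_filter] at hs ⊢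
        refine ⟨hs.1, lt_of_le_of_lt ?_ (lt_of_lt_of_le hs.2 (DJ_mono N w h s))⟩
        exact mul_le_mul_of_nonneg_right (by linarith) (hpr h hA)
      rw [card_prefix N D m (fun s => ε * pr N h < DJ N w h s)] at h5
      have h6 : (((Tup D (Icc 1 N)).filter (fun s => ε * pr N h < DJ N w h s)).card : ℝ) *
          (N : ℝ) ^ m ≤ ε / 2 * (N : ℝ) ^ (D + m) := by
        refine le_trans ?_ g1'
        exact_mod_cast h5
      have h7 : ε / 2 * (N : ℝ) ^ (D + m) ≤ ε * (N : ℝ) ^ D * (N : ℝ) ^ m := by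
        rw [pow_add, ← mul_assoc]
        refine mul_le_mul_of_nonneg_right ?_ (by positivity)
        exact mul_le_mul_of_nonneg_right (by linarith) (by positivity)
      exact le_of_mul_le_mul_right (h6.trans h7) (by positivity)
    · have h3 : D2 ≤ D := by
        refine Nat.ceil_le.2 ?_
        have h4 : (1 + ε) * yy N - r ≤ (D : ℝ) / Real.log N := by linarith
        rwa [le_div_iff₀ hL] at h4
      obtain ⟨m, hm⟩ := Nat.exists_eq_add_of_le h3
      rw [hm]
      have h5 : ((Tup (D2 + m) (Icc 1 N)).filter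
          (fun s => DJ N w h s < (2 - ε) * pr N h)).card ≤
          ((Tup (D2 + m) (Icc 1 N)).filter
            (fun s => DJ N w h (fst s) < (2 - ε / 2) * pr N h)).card := by
        refine card_le_card fun s hs => ?_
        rw [mem_filter] at hs ⊢
        refine ⟨hs.1, lt_of_le_of_lt (DJ_mono N w h s) (lt_of_lt_of_le hs.2 ?_)⟩
        exact mul_le_mul_of_nonneg_right (by linarith) (hpr h hA)
      rw [card_prefix N D2 m (fun s => DJ N w h s < (2 - ε / 2) * pr N h)] at h5
      have h6 : (((Tup (D2 + m) (Icc 1 N)).filter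
          (fun s => DJ N w h s < (2 - ε) * pr N h)).card : ℝ) ≤
          (((Tup D2 (Icc 1 N)).filter
            (fun s => DJ N w h s < (2 - ε / 2) * pr N h)).card : ℝ) * (N : ℝ) ^ m := by
        exact_mod_cast h5
      have h7 := mul_le_mul_of_nonneg_right g2' (by positivity : (0 : ℝ) ≤ (N : ℝ) ^ m)
      refine h6.trans (h7.trans ?_)
      rw [pow_add, mul_assoc]
      exact mul_le_mul_of_nonneg_right (by linarith) (by positivity)
  have h3 : (((Tup r (Icc 1 N)).filter (fun h => Adm h ∧ ¬ ∀ D : ℕ,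
      ((r : ℝ) + D / Real.log N ≤ (1 - ε) * yy N →
        (((Tup D (Icc 1 N)).filter (fun s => ε * pr N h < DJ N w h s)).card : ℝ) ≤
          ε * (N : ℝ) ^ D) ∧
      ((1 + ε) * yy N ≤ (r : ℝ) + D / Real.log N →
        (((Tup D (Icc 1 N)).filter (fun s => DJ N w h s < (2 - ε) * pr N h)).card : ℝ) ≤
          ε * (N : ℝ) ^ D))).card : ℝ) ≤
      (((Tup r (Icc 1 N)).filter (fun h => Adm h ∧ ε / 2 * (N : ℝ) ^ D1 <
        (((Tup D1 (Icc 1 N)).filter (fun s => ε / 2 * pr N h < DJ N w h s)).card : ℝ))).card : ℝ) +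
      (((Tup r (Icc 1 N)).filter (fun h => Adm h ∧ ε / 2 * (N : ℝ) ^ D2 <
        (((Tup D2 (Icc 1 N)).filter (fun s =>
          DJ N w h s < (2 - ε / 2) * pr N h)).card : ℝ))).card : ℝ) := by
    exact_mod_cast (card_le_card hsub).trans (card_union_le _ _)
  have h4 := h1 D1 hD1a
  have h5 := h2 D2 hD2a
  linarith

end Pool.Agent.Lib.LEN
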