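import Pool.Agent.Lib.LEN.TVDefs
import Pool.Agent.Lib.LEN.Cls0
import Pool.Agent.Lib.LEN.TVPnt

/-!
# LEN.TVPhi: the local weight of the second moment of the likelihood ratio
-/

set_option autoImplicit false

open Finset Filter

namespace Pool.Agent.Lib.LEN

open Pool.Agent.HLB Pool.Agent.HLT Pool.Agent.HLR Pool.Agent.Lib.GMV

namespace TVPhiAux

/-- `φ(PP w) = PP w * DZ w`. -/
lemma tot (w : ℕ) : ((PP w).totient : ℝ) = PP w * DZ w := by
  have h1 := Nat.totient_eq_mul_prod_factors (PP w)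
  have h2 : (PP w).primeFactors = Nat.primesLE w := by
    unfold PP
    exact Nat.primeFactors_prod fun p hp => (Nat.mem_primesLE.1 hp).2
  rw [h2] at h1
  have h3 := congrArg (fun x : ℚ => (x : ℝ)) h1
  push_cast at h3
  rw [h3]
  unfold DZ
  congr 1
  refine prod_congr rfl fun p _ => ?_
  rw [one_div]

/-- The number of the coprime integers of a window. -/
lemma cop_count (w n N : ℕ) :
    (((Icc 1 N).filter fun m => Nat.Coprime (n + m) (PP w)).card : ℝ) ≤
      PP w * DZ w * (N / PP w + 1) := by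
  classical
  have h := Cls0.card_good w (fun _ : Fin 1 => 0) n N
  have h1 : (nA w (fun _ : Fin 1 => 0) : ℝ) = PP w * DZ w := by
    rw [← tot]
    unfold nA
    rw [Nat.totient_eq_card_coprime]
    congr 2
    refine filter_congr fun b _ => ?_
    unfold Good
    simp [Nat.coprime_comm]
  rw [h1] at h
  refine le_trans ?_ h
  have h2 : ((Icc 1 N).filter fun m => Nat.Coprime (n + m) (PP w)).card ≤
      ((Ioc n (n + N)).filter (Good w (fun _ : Fin 1 => 0))).card := by
    refine card_le_card_of_injOn (fun m => n + m) ?_ (fun a _ b _ h => Nat.add_left_cancel h)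
    intro m hm
    rw [mem_coe, mem_filter, mem_Icc] at hm
    rw [mem_coe, mem_filter, mem_Ioc]
    refine ⟨⟨show n < n + m by omega, show n + m ≤ n + N by omega⟩, ?_⟩
    unfold Good
    intro _
    simpa using hm.2
  exact_mod_cast h2

/-- The number of the classes coprime to `PP w` after a shift. -/
lemma cop_classes (w n : ℕ) :
    (((range (PP w)).filter fun c => Nat.Coprime (n + c) (PP w)).card : ℝ) = PP w * DZ w := by
  rw [← tot, Nat.totient_eq_card_coprime]
  congr 1
  have hP := Cls0.PP_pos w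
  refine card_bij (fun c _ => (n + c) % PP w) ?_ ?_ ?_
  · intro c hc
    rw [mem_filter] at hc ⊢
    refine ⟨mem_range.2 (Nat.mod_lt _ hP), ?_⟩
    rw [Nat.coprime_comm]
    unfold Nat.Coprime at *
    rw [← Nat.gcd_rec, Nat.gcd_comm]
    exact hc.2
  · intro a ha b hb hab
    rw [mem_filter, mem_range] at ha hb
    have h1 : a ≡ b [MOD PP w] := Nat.ModEq.add_left_cancel' n hab
    unfold Nat.ModEq at h1
    rwa [Nat.mod_eq_of_lt ha.1, Nat.mod_eq_of_lt hb.1] at h1
  · intro b hb
    rw [mem_filter, mem_range] at hb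
    obtain ⟨k, hk⟩ : ∃ k, n ≤ k * PP w := ⟨n, Nat.le_mul_of_pos_right _ hP⟩
    refine ⟨(b + (k * PP w - n)) % PP w, ?_, ?_⟩
    · rw [mem_filter, mem_range]
      refine ⟨Nat.mod_lt _ hP, ?_⟩
      have e : (n + (b + (k * PP w - n)) % PP w) % PP w = b := by
        rw [Nat.add_mod_mod, show n + (b + (k * PP w - n)) = b + k * PP w by omega,
          Nat.add_mul_mod_self_right, Nat.mod_eq_of_lt hb.1]
      unfold Nat.Coprime
      rw [Nat.gcd_comm, Nat.gcd_rec, e, Nat.gcd_comm]
      exact hb.2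
    · rw [Nat.add_mod_mod, show n + (b + (k * PP w - n)) = b + k * PP w by omega,
        Nat.add_mul_mod_self_right, Nat.mod_eq_of_lt hb.1]

lemma cop_of_prime {w n m : ℕ} (h : (n + m).Prime) (hw : w < n + m) :
    Nat.Coprime (n + m) (PP w) := Cls0.prime_coprime_PP h hw

lemma cop_shift {w n n' m : ℕ} (h : n' % PP w = n % PP w) :
    Nat.Coprime (n' + m) (PP w) ↔ Nat.Coprime (n + m) (PP w) := by
  have e : (n' + m) % PP w = (n + m) % PP w := by
    rw [Nat.add_mod, h, ← Nat.add_mod]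
  unfold Nat.Coprime
  rw [Nat.gcd_comm, Nat.gcd_rec, e, ← Nat.gcd_rec, Nat.gcd_comm]

/-- The pointwise identity. -/
lemma ph_eq (N w n n' m : ℕ) (hn : w < n) (hn' : w < n') (h : n' % PP w = n % PP w)
    (q : ℝ) (hq : q = (DZ w)⁻¹ / Real.log N) (hq0 : 0 < q) (hq1 : q < 1) :
    ph N w n n' m = 1 + ((if Nat.Coprime (n + m) (PP w) then 1 else 0) * q ^ 2 -
      ((if (n + m).Prime then 1 else 0) + (if (n' + m).Prime then 1 else 0)) * q +
      (if (n + m).Prime ∧ (n' + m).Prime then 1 else 0)) / (q * (1 - q)) := by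
  have hq2 : (1 : ℝ) - q ≠ 0 := by linarith
  have hq3 : q ≠ 0 := hq0.ne'
  unfold ph qq
  rw [← hq]
  by_cases hc : Nat.Coprime (n + m) (PP w)
  · simp only [if_pos hc]
    by_cases h1 : (n + m).Prime <;> by_cases h2 : (n' + m).Prime <;>
      simp only [h1, h2, and_true, and_false, or_true, or_false,
        if_true, if_false, and_self, or_self] <;> field_simp <;> ring
  · have h1 : ¬ (n + m).Prime := fun h1 => hc (cop_of_prime h1 (by omega))
    have h2 : ¬ (n' + m).Prime := fun h2 => hc ((cop_shift h).1 (cop_of_prime h2 (by omega)))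
    simp [h1, h2, hc]

/-- The sum of the weight. -/
lemma sum_ph (N w n n' : ℕ) (hn : w < n) (hn' : w < n') (h : n' % PP w = n % PP w)
    (q : ℝ) (hq : q = (DZ w)⁻¹ / Real.log N) (hq0 : 0 < q) (hq1 : q < 1) :
    ∑ m ∈ Icc 1 N, ph N w n n' m =
      N + ((((Icc 1 N).filter fun m => Nat.Coprime (n + m) (PP w)).card : ℝ) * q ^ 2 -
      ((pn N n : ℝ) + pn N n') * q +
      (((Icc 1 N).filter fun m => (n + m).Prime ∧ (n' + m).Prime).card : ℝ)) / (q * (1 - q)) := by
  rw [sum_congr rfl fun m _ => ph_eq N w n n' m hn hn' h q hq hq0 hq1, sum_add_distrib, ← sum_div,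
    sum_add_distrib, sum_sub_distrib, ← sum_mul, ← sum_mul, sum_add_distrib]
  unfold pn
  simp only [sum_boole, sum_const, Nat.card_Icc, mul_one, nsmul_eq_mul,
    Nat.add_sub_cancel]

lemma lp_nonneg (m : ℕ) : 0 ≤ lp m := by
  unfold Pool.Agent.HLT.lp
  split_ifs
  · exact Real.log_natCast_nonneg m
  · exact le_rfl

/-- From weights to counts. -/
lemma pair_count (N n n' : ℕ) (hn : N < n) (hn' : N < n') :
    (((Icc 1 N).filter fun m => (n + m).Prime ∧ (n' + m).Prime).card : ℝ) * Real.log N ^ 2 ≤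
      ∑ m ∈ Icc 1 N, lp (n + m) * lp (n' + m) := by
  rw [← nsmul_eq_mul, ← sum_const, sum_filter]
  refine sum_le_sum fun m _ => ?_
  have h0 : 0 ≤ Real.log N := Real.log_natCast_nonneg N
  split_ifs with h
  · have h1 : Real.log N ≤ lp (n + m) := by
      unfold Pool.Agent.HLT.lp
      rw [if_pos h.1]
      rcases Nat.eq_zero_or_pos N with hN | hN
      · subst hN
        simpa using Real.log_natCast_nonneg (n + m)
      · exact Real.log_le_log (by exact_mod_cast hN) (by exact_mod_cast (by omega : N ≤ n + m))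
    have h2 : Real.log N ≤ lp (n' + m) := by
      unfold Pool.Agent.HLT.lp
      rw [if_pos h.2]
      rcases Nat.eq_zero_or_pos N with hN | hN
      · subst hN
        simpa using Real.log_natCast_nonneg (n' + m)
      · exact Real.log_le_log (by exact_mod_cast hN) (by exact_mod_cast (by omega : N ≤ n' + m))
    rw [pow_two]
    exact mul_le_mul h1 h2 h0 (h0.trans h1)
  · exact mul_nonneg (lp_nonneg _) (lp_nonneg _)

end TVPhiAux

open TVPhiAux

/-- Module TVPhi. -/
theorem phi_le : ∃ C : ℝ, 0 < C ∧ ∃ N0 : ℕ, ∀ N : ℕ, N0 ≤ N → ∀ w : ℕ, 1 ≤ w → w ≤ N →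
    (DZ w)⁻¹ / Real.log N ≤ 1 / 2 → ∀ n ∈ Ioc N (2 * N), ∀ n' ∈ Ioc N (2 * N),
    n' % PP w = n % PP w → ∀ σ : ℝ,
    ∑ m ∈ Icc 1 N, lp (n + m) * lp (n' + m) ≤ N * (DZ w)⁻¹ * σ →
    ∑ m ∈ Icc 1 N, ph N w n n' m ≤ N * (1 + (σ - 1 + (C / Real.log N + PP w * (DZ w)⁻¹ / N)) /
      (Real.log N * (1 - (DZ w)⁻¹ / Real.log N))) := by
  obtain ⟨C, hC, hpn⟩ := pn_bounds
  obtain ⟨N1, hN1⟩ := eventually_atTop.1 hpn
  refine ⟨2 * C, by positivity, max N1 3, ?_⟩
  intro N hN w hw1 hwN hq2 n hn n' hn' hmod σ hσ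
  have hN3 : 3 ≤ N := (le_max_right _ _).trans hN
  have hNr : (3 : ℝ) ≤ N := by exact_mod_cast hN3
  have hN0 : (0 : ℝ) < N := by linarith
  have hb := hN1 N ((le_max_left _ _).trans hN)
  have b1 := (hb n hn).1
  have b2 := (hb n' hn').1
  rw [mem_Ioc] at hn hn'
  set L := Real.log N with hL
  have hL0 : 0 < L := Real.log_pos (by linarith)
  set κ := (DZ w)⁻¹ with hκ
  have hκ0 : 0 < κ := inv_pos.2 (DZ_pos w)
  have hDκ : DZ w * κ = 1 := mul_inv_cancel₀ (DZ_pos w).ne'
  set q := κ / L with hq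
  have hq0 : 0 < q := by positivity
  have hq1 : q < 1 := by linarith
  have hP : (0 : ℝ) < PP w := by exact_mod_cast Cls0.PP_pos w
  rw [sum_ph N w n n' (by omega) (by omega) hmod q hq hq0 hq1]
  have hG := cop_count w n N
  have hc := (pair_count N n n' hn.1 hn'.1).trans hσ
  rw [← hL] at hc
  set G := (((Icc 1 N).filter fun m => Nat.Coprime (n + m) (PP w)).card : ℝ) with hGd
  set c := (((Icc 1 N).filter fun m => (n + m).Prime ∧ (n' + m).Prime).card : ℝ) with hcd
  have hqL : q * L = κ := by rw [hq]; field_simp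
  -- the bracket
  have hbr : G * q ^ 2 - ((pn N n : ℝ) + pn N n') * q + c ≤
      N * κ / L ^ 2 * (σ - 1 + (2 * C / L + PP w * κ / N)) := by
    have g1 : G * q ^ 2 ≤ N * κ / L ^ 2 * (1 + PP w / N) := by
      have e : PP w * DZ w * ((N : ℝ) / PP w + 1) * q ^ 2 = N * κ / L ^ 2 * (1 + PP w / N) := by
        have : DZ w = κ⁻¹ := by rw [hκ, inv_inv]
        rw [this, hq]
        field_simp
      rw [← e]
      exact mul_le_mul_of_nonneg_right hG (sq_nonneg _)
    have g2 : (2 : ℝ) * (N * κ / L ^ 2) * (1 - C / L) ≤ ((pn N n : ℝ) + pn N n') * q := by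
      have e : (2 : ℝ) * (N * κ / L ^ 2) * (1 - C / L) =
          (N / L * (1 - C / L) + N / L * (1 - C / L)) * q := by
        rw [hq]
        field_simp
        ring
      rw [e]
      exact mul_le_mul_of_nonneg_right (by linarith) hq0.le
    have g3 : c ≤ N * κ / L ^ 2 * σ := by
      have hL2 : 0 < L ^ 2 := by positivity
      refine le_of_mul_le_mul_right (hc.trans (le_of_eq ?_)) hL2
      field_simp
    have g4 : (PP w : ℝ) / N ≤ PP w * κ / N := by
      refine div_le_div_of_nonneg_right ?_ hN0.le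
      have hκ1 : 1 ≤ κ := by
        rw [hκ]
        refine (one_le_inv₀ (DZ_pos w)).2 ?_
        unfold DZ
        refine prod_le_one (fun p hp => ?_) fun p hp => ?_
        · have : (1 : ℝ) ≤ p := by exact_mod_cast (Nat.mem_primesLE.1 hp).2.one_lt.le
          have : 1 / (p : ℝ) ≤ 1 := by rw [div_le_one (by linarith)]; exact this
          linarith
        · have : 0 ≤ 1 / (p : ℝ) := by positivity
          linarith
      calc (PP w : ℝ) = PP w * 1 := (mul_one _).symm
        _ ≤ PP w * κ := mul_le_mul_of_nonneg_left hκ1 hP.le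
    have hm : 0 ≤ N * κ / L ^ 2 := by positivity
    have e5 : N * κ / L ^ 2 * (σ - 1 + (2 * C / L + PP w * κ / N)) =
        N * κ / L ^ 2 * (1 + PP w * κ / N) - 2 * (N * κ / L ^ 2) * (1 - C / L) + N * κ / L ^ 2 * σ := by
      ring
    rw [e5]
    have g5 : N * κ / L ^ 2 * (1 + (PP w : ℝ) / N) ≤ N * κ / L ^ 2 * (1 + PP w * κ / N) :=
      mul_le_mul_of_nonneg_left (by linarith) hm
    linarith
  have hqq : 0 < q * (1 - q) := mul_pos hq0 (by linarith)
  have h1 := div_le_div_of_nonneg_right hbr hqq.le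
  have e6 : N * κ / L ^ 2 * (σ - 1 + (2 * C / L + PP w * κ / N)) / (q * (1 - q)) =
      N * ((σ - 1 + (2 * C / L + PP w * κ / N)) / (L * (1 - q))) := by
    have hq5 : (1 : ℝ) - q ≠ 0 := by linarith
    have e7 : N * κ / L ^ 2 = N * q / L := by
      rw [hq]
      field_simp
    rw [e7]
    generalize (σ - 1 + (2 * C / L + PP w * κ / N)) = z
    have hq6 : q ≠ 0 := hq0.ne'
    field_simp
  rw [e6] at h1
  calc _ ≤ N + N * ((σ - 1 + (2 * C / L + PP w * κ / N)) / (L * (1 - q))) := by linarith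
    _ = _ := by ring

/-- Sum of the pair correlations over the classes. -/
theorem pair_classes (N w n n' : ℕ) (hn : N < n) (hn' : N < n') (hw : w ≤ N)
    (hmod : n' % PP w = n % PP w) (B : ℝ)
    (hB : ∀ c, Nat.Coprime (n + c) (PP w) → CC lp N w c n n' ≤ (N : ℝ) / PP w * (DZ w)⁻¹ ^ 2 * B) :
    ∑ m ∈ Icc 1 N, lp (n + m) * lp (n' + m) ≤ N * (DZ w)⁻¹ * B := by
  have hP0 := Cls0.PP_pos w
  have hP : (0 : ℝ) < PP w := by exact_mod_cast hP0
  have h1 : ∑ m ∈ Icc 1 N, lp (n + m) * lp (n' + m) =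
      ∑ c ∈ range (PP w), ∑ m ∈ (Icc 1 N).filter (fun m => m % PP w = c), lp (n + m) * lp (n' + m) :=
    (sum_fiberwise_of_maps_to (fun m _ => mem_range.2 (Nat.mod_lt m hP0)) _).symm
  rw [h1]
  have h2 : ∀ c ∈ range (PP w),
      ∑ m ∈ (Icc 1 N).filter (fun m => m % PP w = c), lp (n + m) * lp (n' + m) ≤
      if Nat.Coprime (n + c) (PP w) then (N : ℝ) / PP w * (DZ w)⁻¹ ^ 2 * B else 0 := by
    intro c hc
    have e1 : (Icc 1 N).filter (fun m => m % PP w = c) = cls N w c := by
      unfold cls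
      refine filter_congr fun m _ => ?_
      rw [Nat.mod_eq_of_lt (mem_range.1 hc)]
    rw [e1]
    split_ifs with h
    · exact hB c h
    · refine le_of_eq (sum_eq_zero fun m hm => ?_)
      have h3 : ¬ (n + m).Prime := by
        intro h3
        refine h ?_
        have h4 := cop_of_prime (w := w) h3 (by omega)
        unfold cls at hm
        rw [mem_filter] at hm
        have e2 : (n + c) % PP w = (n + m) % PP w := by
          rw [Nat.add_mod, ← hm.2, ← Nat.add_mod]
        unfold Nat.Coprime at *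
        rw [Nat.gcd_comm, Nat.gcd_rec, e2, ← Nat.gcd_rec, Nat.gcd_comm]
        exact h4
      have h5 : lp (n + m) = 0 := by
        unfold Pool.Agent.HLT.lp
        rw [if_neg h3]
      rw [h5, zero_mul]
  refine (sum_le_sum h2).trans ?_
  rw [← sum_filter, sum_const, nsmul_eq_mul, cop_classes]
  refine le_of_eq ?_
  have hD := (DZ_pos w).ne'
  field_simp

end Pool.Agent.Lib.LEN
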