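import Pool.Agent.Lib.LEN.Sel

/-!
# LEN.TVSel: the sieve bound for all pairs, with one factor `loglog N`
-/

set_option autoImplicit false

open Finset Filter

namespace Pool.Agent.Lib.LEN

open Pool.Agent.HLB Pool.Agent.HLT Pool.Agent.Lib.MP Pool.Agent.Lib.MT

theorem sel_one : ∃ C : ℝ, 0 < C ∧ ∀ᶠ N : ℕ in atTop, ∀ n ∈ Icc 1 (2 * N), ∀ n' ∈ Icc 1 (2 * N),
    n ≠ n' → ∑ h ∈ Icc 1 N, lp (n + h) * lp (n' + h) ≤ C * (N * Real.log (Real.log N)) := by
  obtain ⟨K, hK, hup⟩ := tuple_upperI 2 (by norm_num)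
  obtain ⟨C, hC, hSI⟩ := SI_pair
  have hlog : Tendsto (fun N : ℕ => Real.log (N:ℝ)) atTop atTop :=
    Real.tendsto_log_atTop.comp tendsto_natCast_atTop_atTop
  have hloglog : Tendsto (fun N : ℕ => Real.log (Real.log (N:ℝ))) atTop atTop :=
    Real.tendsto_log_atTop.comp hlog
  refine ⟨4 * K * C + 1, by positivity, ?_⟩
  filter_upwards [hSI, eventually_ge_atTop 3, hloglog.eventually_ge_atTop 1,
      Wtd.log_large 1, Wtd.log_pow_small 2 8 1 one_pos] with N g1 g3 g4 g6 g7
  intro n hn n' hn' hne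
  rw [Real.rpow_one] at g7
  have hNr : (3:ℝ) ≤ N := by exact_mod_cast g3
  have hNpos : (0:ℝ) < N := by linarith
  set L := Real.log N with hL
  have hLpos : 0 < L := by linarith
  rw [mem_Icc] at hn hn'
  have hlp0 : ∀ m, 0 ≤ lp m := by
    intro m
    unfold Pool.Agent.HLT.lp
    split_ifs
    · exact Real.log_natCast_nonneg m
    · exact le_rfl
  have hlpm : ∀ m h, m ≤ 2 * N → h ∈ Icc 1 N → lp (m + h) ≤ 2 * L := by
    intro m h hm hh
    rw [mem_Icc] at hh
    unfold Pool.Agent.HLT.lp
    split_ifs with hp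
    · have h1 : ((m + h : ℕ) : ℝ) ≤ (N:ℝ) ^ 2 := by
        have h2 : m + h ≤ 3 * N := by omega
        have h3 : ((m + h : ℕ) : ℝ) ≤ 3 * N := by exact_mod_cast h2
        nlinarith
      have h2 := Real.log_le_log (by exact_mod_cast hp.pos) h1
      rwa [Real.log_pow, Nat.cast_ofNat] at h2
    · linarith
  set t : Fin 2 → ℕ := ![n, n'] with ht
  have htinj : Function.Injective t := by
    intro i j hij
    fin_cases i <;> fin_cases j <;> simp_all
  have htN : ∀ i, t i ≤ 2 * N := by
    intro i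
    fin_cases i
    · exact hn.2
    · exact hn'.2
  have hsum : ∑ h ∈ Icc 1 N, lp (n + h) * lp (n' + h) ≤
      (((Icc 1 N).filter (fun h : ℕ => ∀ i, (h + t i).Prime)).card : ℝ) * (2 * L) ^ 2 := by
    have e1 : ∑ h ∈ Icc 1 N, lp (n + h) * lp (n' + h) ≤
        ∑ h ∈ Icc 1 N, if (∀ i, (h + t i).Prime) then (2 * L) ^ 2 else 0 := by
      refine Finset.sum_le_sum fun h hh => ?_
      split_ifs with hp
      · rw [pow_two]
        exact mul_le_mul (hlpm n h hn.2 hh) (hlpm n' h hn'.2 hh) (hlp0 _) (by linarith)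
      · rw [Fin.forall_fin_two] at hp
        simp only [ht, Matrix.cons_val_zero, Matrix.cons_val_one] at hp
        by_cases h1 : (h + n).Prime
        · have h2 : ¬ (h + n').Prime := fun h3 => hp ⟨h1, h3⟩
          have h3 : lp (n' + h) = 0 := by
            unfold Pool.Agent.HLT.lp
            rw [if_neg (by rwa [Nat.add_comm])]
          rw [h3, mul_zero]
        · have h3 : lp (n + h) = 0 := by
            unfold Pool.Agent.HLT.lp
            rw [if_neg (by rwa [Nat.add_comm])]
          rw [h3, zero_mul]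
    refine e1.trans (le_of_eq ?_)
    rw [← Finset.sum_filter, Finset.sum_const, nsmul_eq_mul]
  refine hsum.trans ?_
  by_cases hadm : ∀ p : ℕ, p.Prime → nuI t p < p
  · have h1 : (((Icc 1 N).filter (fun h : ℕ => ∀ i, (h + t i).Prime)).card : ℝ) ≤
        K * SI t * (N / L ^ 2) := by
      convert hup (Fin 2) t (by simp) htinj hadm N (by omega)
    have h2 := g1 t htinj htN
    have hSI0 : 0 ≤ SI t := SI_nonneg t htinj
    calc (((Icc 1 N).filter (fun h : ℕ => ∀ i, (h + t i).Prime)).card : ℝ) * (2 * L) ^ 2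
        ≤ (K * SI t * (N / L ^ 2)) * (2 * L) ^ 2 :=
          mul_le_mul_of_nonneg_right h1 (by positivity)
      _ = N * (4 * K * SI t) := by field_simp; ring
      _ ≤ N * (4 * K * (C * Real.log L)) := by
          apply mul_le_mul_of_nonneg_left _ hNpos.le
          exact mul_le_mul_of_nonneg_left h2 (by positivity)
      _ = (4 * K * C) * (N * Real.log L) := by ring
      _ ≤ (4 * K * C + 1) * (N * Real.log L) :=
          mul_le_mul_of_nonneg_right (by linarith) (by positivity)
  · push Not at hadm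
    obtain ⟨p, hp, hpn⟩ := hadm
    have h1 : ((Icc 1 N).filter (fun h : ℕ => ∀ i, (h + t i).Prime)).card ≤ 2 := by
      have h3 := count_inadm t hp hpn N
      rw [Fintype.card_fin] at h3
      convert h3
    have h2 : (((Icc 1 N).filter (fun h : ℕ => ∀ i, (h + t i).Prime)).card : ℝ) ≤ 2 := by
      exact_mod_cast h1
    calc (((Icc 1 N).filter (fun h : ℕ => ∀ i, (h + t i).Prime)).card : ℝ) * (2 * L) ^ 2
        ≤ 2 * (2 * L) ^ 2 := mul_le_mul_of_nonneg_right h2 (by positivity)
      _ = 8 * L ^ 2 := by ring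
      _ ≤ N * 1 := by rw [mul_one]; exact g7
      _ ≤ N * Real.log L := mul_le_mul_of_nonneg_left g4 hNpos.le
      _ = 1 * (N * Real.log L) := by ring
      _ ≤ (4 * K * C + 1) * (N * Real.log L) := by
          refine mul_le_mul_of_nonneg_right ?_ (by positivity)
          have : 0 < 4 * K * C := by positivity
          linarith

end Pool.Agent.Lib.LEN
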