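import Pool.Agent.Lib.LEN.Defs

/-!
# LEN.TVDefs: the Cramér–Granville model of the primes in translates of a set

`PT N s T`: the frequency of the `n ∈ (N, 2N]` for which exactly the `n + s i`, `i ∈ T`, are prime. `QT N w s T`: the
probability of the pattern `T` in Granville's model: a uniform residue class modulo `PP w` and, given the class,
independent coins of probability `(∏_{p ≤ w} (1 - 1/p))⁻¹ / log N` for the translates coprime to `PP w`.
-/

set_option autoImplicit false

open Finset Filter

namespace Pool.Agent.Lib.LEN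

open Pool.Agent.HLB Pool.Agent.HLT Pool.Agent.HLR Pool.Agent.Lib.GMV

/-- The pattern of the primes among the `n + s i`. -/
def pat {D : ℕ} (s : Fin D → ℕ) (n : ℕ) : Finset (Fin D) := univ.filter fun i => (n + s i).Prime

/-- The indices of the `n + s i` coprime to `PP w`. -/
def cop (w : ℕ) {D : ℕ} (s : Fin D → ℕ) (n : ℕ) : Finset (Fin D) :=
  univ.filter fun i => Nat.Coprime (n + s i) (PP w)

/-- Frequency of the pattern `T` of primes in the translates `n + s i`, `n ∈ (N, 2N]`. -/
noncomputable def PT (N : ℕ) {D : ℕ} (s : Fin D → ℕ) (T : Finset (Fin D)) : ℝ :=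
  (((Ioc N (2 * N)).filter fun n => pat s n = T).card : ℝ) / N

/-- The probability in Granville's model that `b + m` is a prime, given the class `b` modulo `PP w`. -/
noncomputable def qq (N w b m : ℕ) : ℝ :=
  if Nat.Coprime (b + m) (PP w) then (DZ w)⁻¹ / Real.log N else 0

/-- The probability of the pattern `T` in the class `b`. -/
noncomputable def QB (N w : ℕ) {D : ℕ} (s : Fin D → ℕ) (b : ℕ) (T : Finset (Fin D)) : ℝ :=
  ∏ i, if i ∈ T then qq N w b (s i) else 1 - qq N w b (s i)

/-- The probability of the pattern `T` in Granville's model. -/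
noncomputable def QT (N w : ℕ) {D : ℕ} (s : Fin D → ℕ) (T : Finset (Fin D)) : ℝ :=
  (∑ b ∈ range (PP w), QB N w s b T) / PP w

/-- The total variation distance. -/
noncomputable def TVd (N w : ℕ) {D : ℕ} (s : Fin D → ℕ) : ℝ :=
  (∑ T : Finset (Fin D), |PT N s T - QT N w s T|) / 2

/-- Joint frequency of a class modulo `PP w` and a pattern. -/
noncomputable def PJ (N w : ℕ) {D : ℕ} (s : Fin D → ℕ) (b : ℕ) (T : Finset (Fin D)) : ℝ :=
  (((Ioc N (2 * N)).filter fun n => n % PP w = b ∧ pat s n = T).card : ℝ) / N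

/-- The pairs of `(u, u + N]` congruent modulo `PP w`. -/
def CP (u N w : ℕ) : Finset (ℕ × ℕ) :=
  (Ioc u (u + N) ×ˢ Ioc u (u + N)).filter fun x => x.1 ≠ x.2 ∧ x.2 % PP w = x.1 % PP w

/-- The local weight of the second moment. -/
noncomputable def ph (N w n n' m : ℕ) : ℝ :=
  if (n + m).Prime ∧ (n' + m).Prime then (qq N w n m)⁻¹
  else if (n + m).Prime ∨ (n' + m).Prime then 0 else (1 - qq N w n m)⁻¹

/-- Bound for the number of primes of a typical pattern. -/
noncomputable def Mt (ε : ℝ) (N : ℕ) : ℕ := ⌊(1 - ε / 2) * yy N⌋₊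

/-- Bound for the number of coprime translates of a typical pattern. -/
noncomputable def At (N w : ℕ) : ℕ :=
  ⌊Real.log N ^ 2 * DZ w / Real.sqrt (Real.log (Real.log N))⌋₊

open scoped Classical in
/-- The typical classes and patterns. -/
noncomputable def Ty (w M A : ℕ) {D : ℕ} (s : Fin D → ℕ) : Finset (ℕ × Finset (Fin D)) :=
  (range (PP w) ×ˢ univ).filter fun x => x.2.card ≤ M ∧ (cop w s x.1).card ≤ A

end Pool.Agent.Lib.LEN
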