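import Pool.Agent.Lib.LEN.SMom
import Pool.Agent.Lib.LEN.TVDefs

/-!
# LEN.TVSum: moments of the singular series over the pairs congruent modulo `PP w`
-/

set_option autoImplicit false

open Finset Filter

namespace Pool.Agent.Lib.LEN

open Pool.Agent.HLB Pool.Agent.HLT Pool.Agent.HLR Pool.Agent.Lib.GMV PrSAux Cls0 SMomAux

namespace TVSumAux

/-- The other members of a class modulo `P` and modulo `t` in a window. -/
lemma count (w N u t : ℕ) (ht : 1 ≤ t) (htP : Nat.Coprime (PP w) t) (n : ℕ) (hn : n ∈ Ioc u (u + N)) :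
    ((((Ioc u (u + N)).erase n).filter
      (fun n' => n' % PP w = n % PP w ∧ t ∣ Nat.dist n n')).card : ℝ) ≤ N / (PP w * t) := by
  have hsub : insert n (((Ioc u (u + N)).erase n).filter
      (fun n' => n' % PP w = n % PP w ∧ t ∣ Nat.dist n n')) ⊆
      (Ioc u (u + N)).filter fun n' => n' ≡ n [MOD (PP w * t)] := by
    intro n' hn'
    rw [mem_insert, mem_filter, mem_erase] at hn'
    rw [mem_filter]
    rcases hn' with h | h
    · subst h
      exact ⟨hn, rfl⟩
    · refine ⟨h.1.2, ?_⟩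
      rw [← Nat.modEq_and_modEq_iff_modEq_mul htP]
      exact ⟨h.2.1, (dvd_dist_iff t n n').1 h.2.2⟩
  have h1 := card_le_card hsub
  rw [card_insert_of_notMem (by simp)] at h1
  have h2 := (abs_le.1 (card_class (PP w * t) (Nat.mul_pos (PP_pos w) ht) n u N)).2
  have h3 : ((((((Ioc u (u + N)).erase n).filter
      (fun n' => n' % PP w = n % PP w ∧ t ∣ Nat.dist n n')).card + 1 : ℕ)) : ℝ) ≤
      ((((Ioc u (u + N)).filter fun n' => n' ≡ n [MOD (PP w * t)]).card : ℕ) : ℝ) := by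
    exact_mod_cast h1
  push_cast at h2 h3
  linarith

lemma row {w N u R : ℕ} (n : ℕ) (hn : n ∈ Ioc u (u + N)) (B : ℝ)
    (hB : ∑ p ∈ pr w N, gw R p * (1 / (p : ℝ)) ≤ B) :
    ∑ n' ∈ ((Ioc u (u + N)).erase n).filter (fun n' => n' % PP w = n % PP w),
      ss w (Nat.dist n n') ^ R ≤ N / PP w * Real.exp B := by
  have hP : (0 : ℝ) < PP w := by exact_mod_cast PP_pos w
  set G := ((Ioc u (u + N)).erase n).filter (fun n' => n' % PP w = n % PP w) with hG
  have h1 : ∑ n' ∈ G, ss w (Nat.dist n n') ^ R =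
      ∑ S ∈ (pr w N).powerset, (∏ p ∈ S, gw R p) *
        ((G.filter (fun n' => TS S ∣ Nat.dist n n')).card : ℝ) := by
    have h2 : ∀ n' ∈ G, ss w (Nat.dist n n') ^ R =
        ∑ S ∈ (pr w N).powerset, if TS S ∣ Nat.dist n n' then ∏ p ∈ S, gw R p else 0 := by
      intro n' hn'
      rw [hG, mem_filter, mem_erase] at hn'
      have hn'I : n' ∈ Ioc u (u + N) := hn'.1.2
      rw [mem_Ioc] at hn hn'I
      refine ss_pow' R (Nat.dist_pos_of_ne (Ne.symm hn'.1.1)).ne' ?_
      unfold Nat.dist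
      omega
    rw [sum_congr rfl h2, sum_comm]
    refine sum_congr rfl fun S _ => ?_
    rw [← sum_filter, sum_const, nsmul_eq_mul]
    ring
  rw [h1]
  have h3 : ∀ S ∈ (pr w N).powerset, (∏ p ∈ S, gw R p) *
      ((G.filter (fun n' => TS S ∣ Nat.dist n n')).card : ℝ) ≤
      N / PP w * ((∏ p ∈ S, gw R p) * ∏ p ∈ S, (1 / (p : ℝ))) := by
    intro S hS
    have hS' := mem_powerset.1 hS
    have hg : 0 ≤ ∏ p ∈ S, gw R p :=
      prod_nonneg fun p hp => gw_nonneg (mem_pr.1 (hS' hp)).1.2.two_le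
    have h4 := count w N u (TS S) (TS_pos hS') (TS_coprime hS') n hn
    have e0 : G.filter (fun n' => TS S ∣ Nat.dist n n') = ((Ioc u (u + N)).erase n).filter
        (fun n' => n' % PP w = n % PP w ∧ TS S ∣ Nat.dist n n') := by
      rw [hG, filter_filter]
    rw [e0]
    have e1 : (N : ℝ) / (PP w * (TS S : ℕ)) = N / PP w * ∏ p ∈ S, (1 / (p : ℝ)) := by
      unfold TS
      rw [Nat.cast_prod, prod_div_distrib, prod_const_one]
      rw [div_mul_div_comm, mul_one]
    rw [e1] at h4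
    calc _ ≤ (∏ p ∈ S, gw R p) * (N / PP w * ∏ p ∈ S, (1 / (p : ℝ))) :=
          mul_le_mul_of_nonneg_left h4 hg
      _ = _ := by ring
  refine (sum_le_sum h3).trans ?_
  rw [← mul_sum]
  have h5 := sum_sets w N R (fun p => 1 / (p : ℝ)) (fun p _ => by positivity) B hB
  exact mul_le_mul_of_nonneg_left h5 (by positivity)

end TVSumAux

open TVSumAux

lemma sum_CP (u N w : ℕ) (f : ℕ → ℕ → ℝ) : ∑ x ∈ CP u N w, f x.1 x.2 =
    ∑ n ∈ Ioc u (u + N), ∑ n' ∈ ((Ioc u (u + N)).erase n).filter (fun n' => n' % PP w = n % PP w),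
      f n n' := by
  unfold CP
  rw [sum_filter, sum_product]
  refine sum_congr rfl fun n _ => ?_
  rw [← sum_filter]
  refine sum_congr ?_ fun _ _ => rfl
  ext n'
  simp only [mem_filter, mem_erase]
  constructor
  · rintro ⟨h1, h2, h3⟩
    exact ⟨⟨Ne.symm h2, h1⟩, h3⟩
  · rintro ⟨⟨h1, h2⟩, h3⟩
    exact ⟨h2, Ne.symm h1, h3⟩

/-- Moments of `ss` over the congruent pairs. -/
theorem tv_sum (K η : ℝ) (hK : 0 < K) (hη : 0 < η) : ∃ w0 : ℕ, ∀ w : ℕ, w0 ≤ w → ∀ N R u : ℕ,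
    (R : ℝ) ≤ K * w →
    ∑ x ∈ CP u N w, ss w (Nat.dist x.1 x.2) ^ R ≤ (1 + η) * ((N : ℝ) ^ 2 / PP w) := by
  obtain ⟨C, hC, hpr⟩ := prS
  set b : ℝ := 2 * Real.exp K * K * C with hb
  have h2 : Tendsto (fun w : ℕ => b / Real.log w) atTop (nhds 0) :=
    Tendsto.div_atTop tendsto_const_nhds (Real.tendsto_log_atTop.comp tendsto_natCast_atTop_atTop)
  have h3 : Tendsto (fun w : ℕ => Real.exp (b / Real.log w)) atTop (nhds (Real.exp 0)) :=
    (Real.continuous_exp.tendsto 0).comp h2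
  rw [Real.exp_zero] at h3
  have h1 := h3.eventually (gt_mem_nhds (show (1 : ℝ) < 1 + η by linarith))
  obtain ⟨w1, hw1⟩ := eventually_atTop.1 h1
  refine ⟨max w1 2, ?_⟩
  intro w hw N R u hR
  have hw2 : 2 ≤ w := (le_max_right _ _).trans hw
  have hlim := hw1 w ((le_max_left _ _).trans hw)
  have hP : (0 : ℝ) < PP w := by exact_mod_cast PP_pos w
  have hB1 := bound_one hC hK (fun w z h => (hpr w z h).1) w N R hw2 hR
  rw [sum_CP u N w fun n n' => ss w (Nat.dist n n') ^ R]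
  have h4 : ∀ n ∈ Ioc u (u + N),
      ∑ n' ∈ ((Ioc u (u + N)).erase n).filter (fun n' => n' % PP w = n % PP w),
        ss w (Nat.dist n n') ^ R ≤ N / PP w * (1 + η) := by
    intro n hn
    exact (row n hn _ hB1).trans (mul_le_mul_of_nonneg_left hlim.le (by positivity))
  refine (sum_le_sum h4).trans ?_
  rw [sum_const, nsmul_eq_mul, Nat.card_Ioc]
  refine le_of_eq ?_
  have : u + N - u = N := by omega
  rw [this]
  ring

end Pool.Agent.Lib.LEN
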