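import Pool.Agent.Lib.LEN.LevS
import Pool.Agent.Lib.LEN.TVPhi
import Pool.Agent.Lib.LEN.TVSum
import Pool.Agent.Lib.LEN.TVSel
import Pool.Agent.Lib.LEN.GoodX
import Pool.Agent.Lib.Sieve4.Mertens

/-!
# LEN.TVPair: the sum over the congruent pairs
-/

set_option autoImplicit false

open Finset Filter

namespace Pool.Agent.Lib.LEN

open Pool.Agent.HLB Pool.Agent.HLT Pool.Agent.HLR Pool.Agent.Lib.GMV

namespace TVPairAux

open TVPhiAux

lemma ss_one_le (w d : ℕ) : 1 ≤ ss w d := by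
  unfold ss
  have h : ∀ p ∈ d.primeFactors.filter (fun p => w < p), (1 : ℝ) ≤ (1 - 1 / (p : ℝ))⁻¹ :=
    fun p hp => SMomAux.one_le_inv (Nat.prime_of_mem_primeFactors (mem_filter.1 hp).1).two_le
  calc (1 : ℝ) = ∏ _p ∈ d.primeFactors.filter (fun p => w < p), (1 : ℝ) := prod_const_one.symm
    _ ≤ _ := prod_le_prod (fun _ _ => zero_le_one) h

lemma ss_le {w d N : ℕ} {cw : ℝ} (hcw : 0 < cw) (hw : 2 ≤ w) (hd : d ≠ 0) (hdN : d ≤ N)
    (hL : 1 < Real.log N) (hw2 : Real.log N ≤ (w : ℝ) ^ 2) (hy : yy N ≤ 2 / cw * w) :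
    ss w d ≤ Real.exp (4 / cw) := by
  set F := d.primeFactors.filter (fun p => w < p) with hF
  have hwr : (2 : ℝ) ≤ w := by exact_mod_cast hw
  have hw0 : (0 : ℝ) < w := by linarith
  have hprime : ∀ p ∈ F, p.Prime := fun p hp => Nat.prime_of_mem_primeFactors (mem_filter.1 hp).1
  have h1 : ss w d ≤ Real.exp (F.card / w) := by
    unfold ss
    rw [← hF]
    have h2 : ∀ p ∈ F, (1 - 1 / (p : ℝ))⁻¹ ≤ Real.exp (1 / w) := by
      intro p hp
      refine (SMomAux.inv_le_exp (hprime p hp).two_le).trans (Real.exp_le_exp.2 ?_)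
      have h3 : ((w + 1 : ℕ) : ℝ) ≤ p := by exact_mod_cast (mem_filter.1 hp).2
      push_cast at h3
      exact one_div_le_one_div_of_le hw0 (by linarith)
    calc ∏ p ∈ F, (1 - 1 / (p : ℝ))⁻¹ ≤ ∏ _p ∈ F, Real.exp (1 / w) :=
          prod_le_prod (fun p hp => (zero_le_one.trans (SMomAux.one_le_inv (hprime p hp).two_le))) h2
      _ = Real.exp (F.card / w) := by
          rw [prod_const, ← Real.exp_nat_mul]
          congr 1
          ring
  refine h1.trans (Real.exp_le_exp.2 ?_)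
  have h4 : w ^ F.card ≤ N := by
    calc w ^ F.card = ∏ _p ∈ F, w := (prod_const w).symm
      _ ≤ ∏ p ∈ F, p := prod_le_prod' fun p hp => (mem_filter.1 hp).2.le
      _ ≤ d := Nat.le_of_dvd (Nat.pos_of_ne_zero hd)
          (prod_primes_dvd d (fun p hp => (hprime p hp).prime)
            fun p hp => Nat.dvd_of_mem_primeFactors (mem_filter.1 hp).1)
      _ ≤ N := hdN
  have hlw : 0 < Real.log w := Real.log_pos (by linarith)
  have h5 : (F.card : ℝ) * Real.log w ≤ Real.log N := by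
    rw [← Real.log_pow]
    exact Real.log_le_log (by positivity) (by exact_mod_cast h4)
  have hLL : 0 < Real.log (Real.log N) := Real.log_pos hL
  have h6 : Real.log (Real.log N) ≤ 2 * Real.log w := by
    have := Real.log_le_log (by linarith) hw2
    rwa [Real.log_pow, Nat.cast_ofNat] at this
  have h7 : (F.card : ℝ) ≤ 2 * yy N := by
    have h8 : (F.card : ℝ) * Real.log (Real.log N) ≤ 2 * Real.log N := by
      have hF0 : (0 : ℝ) ≤ F.card := Nat.cast_nonneg _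
      calc (F.card : ℝ) * Real.log (Real.log N) ≤ F.card * (2 * Real.log w) :=
            mul_le_mul_of_nonneg_left h6 hF0
        _ = 2 * (F.card * Real.log w) := by ring
        _ ≤ 2 * Real.log N := by linarith
    unfold yy
    rw [← mul_div_assoc, le_div_iff₀ hLL]
    exact h8
  rw [div_le_iff₀ hw0]
  calc (F.card : ℝ) ≤ 2 * (2 / cw * w) := by linarith
    _ = 4 / cw * w := by ring

lemma exp_le_pow {s K y : ℝ} {R : ℕ} (hs1 : 1 ≤ s) (hsK : s ≤ K) (hy : 0 ≤ y)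
    (hR : 2 * K * y ≤ R) : Real.exp (2 * y * (s - 1)) ≤ s ^ R := by
  have hs0 : 0 < s := by linarith
  have h1 := Real.one_sub_inv_le_log_of_pos hs0
  have hl : 0 ≤ Real.log s := Real.log_nonneg hs1
  have h2 : s - 1 ≤ K * Real.log s := by
    have e : s * (1 - s⁻¹) = s - 1 := by
      field_simp
    calc s - 1 = s * (1 - s⁻¹) := e.symm
      _ ≤ s * Real.log s := mul_le_mul_of_nonneg_left h1 hs0.le
      _ ≤ K * Real.log s := mul_le_mul_of_nonneg_right hsK hl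
  have h3 : 2 * y * (s - 1) ≤ R * Real.log s := by
    calc 2 * y * (s - 1) ≤ 2 * y * (K * Real.log s) := mul_le_mul_of_nonneg_left h2 (by positivity)
      _ = 2 * K * y * Real.log s := by ring
      _ ≤ R * Real.log s := mul_le_mul_of_nonneg_right hR hl
  calc Real.exp (2 * y * (s - 1)) ≤ Real.exp (R * Real.log s) := Real.exp_le_exp.2 h3
    _ = s ^ R := by rw [Real.exp_nat_mul, Real.exp_log hs0]

lemma ph_nonneg {N w n n' m : ℕ} (hq1 : (DZ w)⁻¹ / Real.log N ≤ 1 / 2)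
    (hq0 : 0 ≤ (DZ w)⁻¹ / Real.log N) : 0 ≤ ph N w n n' m := by
  unfold ph qq
  split_ifs
  · exact inv_nonneg.2 hq0
  · simp
  · exact le_rfl
  · rw [inv_nonneg]
    linarith
  · simp

lemma pow_bound {N w D n n' : ℕ} {ε x : ℝ} (hN : 1 ≤ N) (hL : 1 < Real.log N)
    (hq1 : (DZ w)⁻¹ / Real.log N ≤ 1 / 2)
    (hqe : (DZ w)⁻¹ / Real.log N ≤ ε) (hx : 0 ≤ x)
    (hD : (D : ℝ) ≤ (1 - ε) * (Real.log N ^ 2 / Real.log (Real.log N)))
    (h : ∑ m ∈ Icc 1 N, ph N w n n' m ≤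
      N * (1 + x / (Real.log N * (1 - (DZ w)⁻¹ / Real.log N)))) :
    (∑ m ∈ Icc 1 N, ph N w n n' m) ^ D ≤ (N : ℝ) ^ D * Real.exp (yy N * x) := by
  set L := Real.log N with hLd
  set q := (DZ w)⁻¹ / L with hq
  have hL0 : 0 < L := by linarith
  have hq0 : 0 ≤ q := by
    have := DZ_pos w
    positivity
  have hLL : 0 < Real.log L := Real.log_pos hL
  have h0 : 0 ≤ ∑ m ∈ Icc 1 N, ph N w n n' m := sum_nonneg fun m _ => ph_nonneg hq1 hq0
  have hNr : (0 : ℝ) ≤ N := Nat.cast_nonneg N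
  set z := x / (L * (1 - q)) with hz
  have hz0 : 0 ≤ z := by
    have : 0 < 1 - q := by linarith
    positivity
  calc (∑ m ∈ Icc 1 N, ph N w n n' m) ^ D ≤ (N * (1 + z)) ^ D := pow_le_pow_left₀ h0 h D
    _ = (N : ℝ) ^ D * (1 + z) ^ D := mul_pow _ _ _
    _ ≤ (N : ℝ) ^ D * Real.exp (yy N * x) := by
        refine mul_le_mul_of_nonneg_left ?_ (by positivity)
        calc (1 + z) ^ D ≤ (Real.exp z) ^ D := by
              refine pow_le_pow_left₀ (by linarith) ?_ D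
              rw [add_comm]
              exact Real.add_one_le_exp z
          _ = Real.exp (D * z) := by rw [← Real.exp_nat_mul]
          _ ≤ Real.exp (yy N * x) := by
              refine Real.exp_le_exp.2 ?_
              have h1q : 0 < 1 - q := by linarith
              calc (D : ℝ) * z ≤ (1 - ε) * (L ^ 2 / Real.log L) * z :=
                    mul_le_mul_of_nonneg_right hD hz0
                _ = (1 - ε) / (1 - q) * (yy N * x) := by
                    rw [hz]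
                    unfold yy
                    rw [← hLd]
                    field_simp
                _ ≤ 1 * (yy N * x) := by
                    refine mul_le_mul_of_nonneg_right ?_ ?_
                    · rw [div_le_one h1q]
                      linarith
                    · unfold yy
                      rw [← hLd]
                      positivity
                _ = yy N * x := one_mul _

lemma pair_TK {N w : ℕ} {x : ℕ × ℕ} (hx : x ∈ CP N N w) :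
    (![x.1, x.2] : Fin 2 → ℕ) ∈ TK N 2 ∧ x.1 ∈ Ioc N (2 * N) ∧ x.2 ∈ Ioc N (2 * N) ∧ x.1 ≠ x.2 ∧
      x.2 % PP w = x.1 % PP w := by
  unfold CP at hx
  rw [mem_filter, mem_product] at hx
  obtain ⟨⟨h1, h2⟩, h3, h4⟩ := hx
  rw [← two_mul] at h1 h2
  refine ⟨?_, h1, h2, h3, h4⟩
  unfold TK Tup
  rw [mem_filter, Fintype.mem_piFinset]
  constructor
  · intro i
    fin_cases i
    · exact h1
    · exact h2
  · intro i j hij
    fin_cases i <;> fin_cases j <;> simp_all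

lemma sk_pair (w n n' : ℕ) : sk w (![n, n'] : Fin 2 → ℕ) = ss w (Nat.dist n n') := by
  unfold sk
  rw [Fin.prod_univ_two]
  have h1 : (univ.filter fun j : Fin 2 => (0 : Fin 2) < j) = {1} := by decide
  have h2 : (univ.filter fun j : Fin 2 => (1 : Fin 2) < j) = ∅ := by decide
  rw [h1, h2, prod_singleton, prod_empty, mul_one]
  simp

lemma CK_pair (f : ℕ → ℝ) (N w c n n' : ℕ) : CK f N w c (![n, n'] : Fin 2 → ℕ) = CC f N w c n n' := by
  unfold CK CC
  refine sum_congr rfl fun h _ => ?_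
  rw [Fin.prod_univ_two]
  simp

/-- The bound for one pair from the pair correlations in the classes. -/
lemma one_pair {N w D : ℕ} {x : ℕ × ℕ} {ε e δ K1 : ℝ} {R : ℕ} (hx : x ∈ CP N N w) (hN : 1 ≤ N)
    (hwN : w ≤ N) (hL : 1 < Real.log N) (hq1 : (DZ w)⁻¹ / Real.log N ≤ 1 / 2)
    (hqe : (DZ w)⁻¹ / Real.log N ≤ ε) (he0 : 0 ≤ e) (he1 : e ≤ 1) (hδ : 0 ≤ δ)
    (hD : (D : ℝ) ≤ (1 - ε) * (Real.log N ^ 2 / Real.log (Real.log N)))
    (hK : ss w (Nat.dist x.1 x.2) ≤ K1) (hR : 2 * K1 * yy N ≤ R)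
    (hphi : ∀ n ∈ Ioc N (2 * N), ∀ n' ∈ Ioc N (2 * N),
      n' % PP w = n % PP w → ∀ σ : ℝ,
      ∑ m ∈ Icc 1 N, lp (n + m) * lp (n' + m) ≤ N * (DZ w)⁻¹ * σ →
      ∑ m ∈ Icc 1 N, ph N w n n' m ≤ N * (1 + (σ - 1 + δ) /
        (Real.log N * (1 - (DZ w)⁻¹ / Real.log N))))
    (hC : ∀ c, (∀ j, Nat.Coprime ((![x.1, x.2] : Fin 2 → ℕ) j + c) (PP w)) →
      CK lp N w c (![x.1, x.2] : Fin 2 → ℕ) ≤
        Tm N w 2 * (sk w (![x.1, x.2] : Fin 2 → ℕ) * (1 + e))) :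
    (∑ m ∈ Icc 1 N, ph N w x.1 x.2 m) ^ D ≤
      (N : ℝ) ^ D * (Real.exp (yy N * (e + δ)) * ss w (Nat.dist x.1 x.2) ^ R) := by
  obtain ⟨_, h1, h2, h3, h4⟩ := pair_TK hx
  have hn1 := (mem_Ioc.1 h1).1
  have hn2 := (mem_Ioc.1 h2).1
  set s := ss w (Nat.dist x.1 x.2) with hs
  have hs1 : 1 ≤ s := ss_one_le _ _
  have hy0 : 0 ≤ yy N := by
    unfold yy
    exact div_nonneg (by linarith) (Real.log_pos hL).le
  have hsum := pair_classes N w x.1 x.2 hn1 hn2 hwN h4 (s * (1 + e)) fun c hc => by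
    have h5 := hC c fun j => by
      fin_cases j
      · exact hc
      · exact (cop_shift h4).2 hc
    rw [CK_pair, sk_pair] at h5
    exact h5
  have h6 := hphi x.1 h1 x.2 h2 h4 _ hsum
  have hx0 : 0 ≤ s * (1 + e) - 1 + δ := by nlinarith
  have h7 := pow_bound hN hL hq1 hqe hx0 hD h6
  refine h7.trans (mul_le_mul_of_nonneg_left ?_ (by positivity))
  have h8 := exp_le_pow hs1 hK hy0 hR
  calc Real.exp (yy N * (s * (1 + e) - 1 + δ)) ≤
        Real.exp (yy N * (e + δ) + 2 * yy N * (s - 1)) := by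
        refine Real.exp_le_exp.2 ?_
        have h9 : s * (1 + e) - 1 + δ ≤ (e + δ) + 2 * (s - 1) := by nlinarith
        calc yy N * (s * (1 + e) - 1 + δ) ≤ yy N * ((e + δ) + 2 * (s - 1)) :=
              mul_le_mul_of_nonneg_left h9 hy0
          _ = _ := by ring
    _ = Real.exp (yy N * (e + δ)) * Real.exp (2 * yy N * (s - 1)) := Real.exp_add _ _
    _ ≤ _ := mul_le_mul_of_nonneg_left h8 (Real.exp_pos _).le

/-- The bound for one pair from the sieve. -/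
lemma one_sel {N w D : ℕ} {x : ℕ × ℕ} {ε δ Cs : ℝ} (hx : x ∈ CP N N w) (hN : 1 ≤ N)
    (hL : 1 < Real.log N) (hq1 : (DZ w)⁻¹ / Real.log N ≤ 1 / 2)
    (hqe : (DZ w)⁻¹ / Real.log N ≤ ε) (hδ : 0 ≤ δ) (hδ1 : δ ≤ 1) (hCs : 1 ≤ Cs) (hw : 1 ≤ w)
    (hw2 : Real.log N ≤ (w : ℝ) ^ 2)
    (hD : (D : ℝ) ≤ (1 - ε) * (Real.log N ^ 2 / Real.log (Real.log N)))
    (hphi : ∀ n ∈ Ioc N (2 * N), ∀ n' ∈ Ioc N (2 * N),
      n' % PP w = n % PP w → ∀ σ : ℝ,
      ∑ m ∈ Icc 1 N, lp (n + m) * lp (n' + m) ≤ N * (DZ w)⁻¹ * σ →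
      ∑ m ∈ Icc 1 N, ph N w n n' m ≤ N * (1 + (σ - 1 + δ) /
        (Real.log N * (1 - (DZ w)⁻¹ / Real.log N))))
    (hsel : ∀ n ∈ Icc 1 (2 * N), ∀ n' ∈ Icc 1 (2 * N),
      n ≠ n' → ∑ h ∈ Icc 1 N, lp (n + h) * lp (n' + h) ≤ Cs * (N * Real.log (Real.log N))) :
    (∑ m ∈ Icc 1 N, ph N w x.1 x.2 m) ^ D ≤ (N : ℝ) ^ D * Real.exp (yy N * (2 * Cs)) := by
  obtain ⟨_, h1, h2, h3, h4⟩ := pair_TK hx
  have hn1 := mem_Ioc.1 h1
  have hn2 := mem_Ioc.1 h2
  have hy0 : 0 ≤ yy N := by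
    unfold yy
    exact div_nonneg (by linarith) (Real.log_pos hL).le
  have h5 := hsel x.1 (mem_Icc.2 ⟨by omega, hn1.2⟩) x.2 (mem_Icc.2 ⟨by omega, hn2.2⟩) h3
  have hwr : (1 : ℝ) ≤ w := by exact_mod_cast hw
  have hκ : Real.log w ≤ (DZ w)⁻¹ := by
    have h6 := Pool.Agent.Lib.Sieve4.prod_one_sub_inv_le w hw
    have h7 : DZ w ≤ 1 / Real.log (w + 1) := h6
    have h8 : 0 < Real.log ((w : ℝ) + 1) := Real.log_pos (by linarith)
    have h9 : Real.log ((w : ℝ) + 1) ≤ (DZ w)⁻¹ := by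
      rw [le_inv_comm₀ h8 (DZ_pos w), ← one_div]
      exact h7
    exact (Real.log_le_log (by linarith) (by linarith)).trans h9
  have h10 : Real.log (Real.log N) ≤ 2 * (DZ w)⁻¹ := by
    have := Real.log_le_log (by linarith) hw2
    rw [Real.log_pow, Nat.cast_ofNat] at this
    linarith
  have hNr : (0 : ℝ) ≤ N := Nat.cast_nonneg N
  have h11 : ∑ m ∈ Icc 1 N, lp (x.1 + m) * lp (x.2 + m) ≤ N * (DZ w)⁻¹ * (2 * Cs) := by
    refine h5.trans ?_
    calc Cs * (N * Real.log (Real.log N)) ≤ Cs * (N * (2 * (DZ w)⁻¹)) := by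
          refine mul_le_mul_of_nonneg_left ?_ (by linarith)
          exact mul_le_mul_of_nonneg_left h10 hNr
      _ = N * (DZ w)⁻¹ * (2 * Cs) := by ring
  have h6 := hphi x.1 h1 x.2 h2 h4 _ h11
  have h7 := pow_bound hN hL hq1 hqe (by linarith) hD h6
  refine h7.trans (mul_le_mul_of_nonneg_left (Real.exp_le_exp.2 ?_) (by positivity))
  exact mul_le_mul_of_nonneg_left (by linarith) hy0

lemma exp_le_lin {x : ℝ} (h0 : 0 ≤ x) (h1 : x ≤ 1 / 2) : Real.exp x ≤ 1 + 2 * x := by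
  have h2 := Real.add_one_le_exp (-x)
  have h3 : Real.exp (-x) * Real.exp x = 1 := by rw [← Real.exp_add]; simp
  have h4 := Real.exp_pos x
  have h5 : (1 - x) * Real.exp x ≤ 1 := by nlinarith
  nlinarith

lemma exp_le_one_add_pow {y e : ℝ} {r : ℕ} (he0 : 0 ≤ e) (he1 : e ≤ 1) (hr : 2 * y ≤ r) :
    Real.exp (y * e) ≤ (1 + e) ^ r := by
  have h1 : e / 2 ≤ Real.log (1 + e) := by
    have h2 := Real.one_sub_inv_le_log_of_pos (show 0 < 1 + e by linarith)
    have h3 : e / 2 ≤ 1 - (1 + e)⁻¹ := by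
      have h4 : 1 - (1 + e)⁻¹ = e / (1 + e) := by
        field_simp
        ring
      rw [h4]
      exact div_le_div_of_nonneg_left he0 (by linarith) (by linarith)
    linarith
  have hl : 0 ≤ Real.log (1 + e) := Real.log_nonneg (by linarith)
  have h5 : y * e ≤ r * Real.log (1 + e) := by
    have hr0 : (0 : ℝ) ≤ r := Nat.cast_nonneg r
    nlinarith [mul_le_mul_of_nonneg_left h1 hr0, mul_le_mul_of_nonneg_right hr he0]
  calc Real.exp (y * e) ≤ Real.exp (r * Real.log (1 + e)) := Real.exp_le_exp.2 h5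
    _ = (1 + e) ^ r := by rw [Real.exp_nat_mul, Real.exp_log (by linarith)]

lemma log_div_small (c : ℝ) (hc : 0 < c) : ∀ᶠ N : ℕ in atTop,
    Real.log (Real.log N) ≤ c * Real.log N := by
  have h1 : Tendsto (fun N : ℕ => Real.log (N : ℝ)) atTop atTop :=
    Real.tendsto_log_atTop.comp tendsto_natCast_atTop_atTop
  have h2 := (Real.isLittleO_log_id_atTop.bound hc)
  have h3 := h1.eventually h2
  filter_upwards [h3, h1.eventually_ge_atTop 1] with N h4 h5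
  simp only [id, Real.norm_eq_abs] at h4
  rw [abs_of_nonneg (Real.log_nonneg h5), abs_of_nonneg (by linarith)] at h4
  exact h4

end TVPairAux

open TVPairAux

open scoped Classical in
/-- The sum over the congruent pairs. -/
theorem tv_pair (C1 cA : ℝ) (hL : LevS C1 cA) : ∃ cw C0 : ℝ, 0 < cw ∧ ∀ C2 cB : ℝ, C0 ≤ C2 →
    0 < cB → ∀ ε η : ℝ, 0 < ε → 0 < η → ∃ N0 : ℕ, ∀ N : ℕ, N0 ≤ N → GoodX cA C1 cB C2 N →
    ∀ w : ℕ, w = ⌊cw * yy N⌋₊ → 2 ≤ w ∧ (PP w) ^ 2 ≤ N ∧ w ≤ N ∧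
    (DZ w)⁻¹ / Real.log N ≤ 1 / 2 ∧ (DZ w)⁻¹ * Real.log 2 ≤ Real.log N ∧ (w : ℝ) ≤ ε * Real.log N ∧
    ∀ D : ℕ, (D : ℝ) ≤ (1 - ε) * (Real.log N ^ 2 / Real.log (Real.log N)) →
      (PP w : ℝ) / N ^ 2 * ∑ x ∈ CP N N w, (∑ m ∈ Icc 1 N, ph N w x.1 x.2 m) ^ D ≤
        (1 + η) * (N : ℝ) ^ D := by
  obtain ⟨Cs0, hCs0, hsel0⟩ := sel_one
  obtain ⟨Cp, hCp, Np, hphi⟩ := phi_le
  obtain ⟨cD, hcD, hDZ⟩ := Pool.Agent.Lib.MP.DZ_lower
  obtain ⟨cw, d, B', hcw, hd, hB', hLev⟩ := hL 2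
  set Cs := max Cs0 1 with hCs
  have hCs1 : 1 ≤ Cs := le_max_right _ _
  obtain ⟨C0, hC0⟩ := hLev 3 (Real.exp Cs) (by norm_num) (Real.one_le_exp (by linarith))
  refine ⟨cw, C0, hcw, ?_⟩
  intro C2 cB hC2 hcB ε η hε hη
  set K1 := Real.exp (4 / cw) with hK1
  have hK10 : 0 < K1 := Real.exp_pos _
  set Km := 8 * K1 / cw + 2 with hKm
  have hKm0 : 0 < Km := by positivity
  set u := min (min (η / 11) (1 / 4)) ε with hu
  have hu0 : 0 < u := by positivity
  have hu1 : u ≤ η / 11 := (min_le_left _ _).trans (min_le_left _ _)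
  have hu2 : u ≤ 1 / 4 := (min_le_left _ _).trans (min_le_right _ _)
  have hu3 : u ≤ ε := min_le_right _ _
  obtain ⟨w0, hw0⟩ := tv_sum Km u hKm0 hu0
  obtain ⟨N1, hN1⟩ := hC0 C2 cB hC2 hcB u hu0 (max w0 2)
  obtain ⟨N2, hN2⟩ := GoodXAux.large 2
  have hlog : Tendsto (fun N : ℕ => Real.log (N:ℝ)) atTop atTop :=
    Real.tendsto_log_atTop.comp tendsto_natCast_atTop_atTop
  have hloglog : Tendsto (fun N : ℕ => Real.log (Real.log (N:ℝ))) atTop atTop :=
    Real.tendsto_log_atTop.comp hlog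
  have hq0 : 0 < cD * min (1 / 2) ε := by positivity
  have hev := (hsel0.and (hloglog.eventually_ge_atTop (max 1 (2 * Cp / u)))).and
    ((log_div_small _ hq0).and (Pool.Agent.Lib.MT.Wtd.log_pow_small 2 (2 / u) (1 / 2) (by norm_num)))
  obtain ⟨N3, hN3⟩ := eventually_atTop.1 hev
  refine ⟨max (max N1 N2) (max N3 (max Np 3)), ?_⟩
  intro N hN hG w hw
  have g1 : N1 ≤ N := ((le_max_left _ _).trans (le_max_left _ _)).trans hN
  have g2 : N2 ≤ N := ((le_max_right _ _).trans (le_max_left _ _)).trans hN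
  have g3 : N3 ≤ N := ((le_max_left _ _).trans (le_max_right _ _)).trans hN
  have g4 : Np ≤ N := ((le_max_left _ _).trans ((le_max_right _ _).trans (le_max_right _ _))).trans hN
  have g5 : 3 ≤ N := ((le_max_right _ _).trans ((le_max_right _ _).trans (le_max_right _ _))).trans hN
  obtain ⟨l1, l2, l3, l4, l5, e1, e2, he10, he11, he20, he21, hlev⟩ := hN1 N g1 hG w hw
  obtain ⟨hLe, hy2⟩ := hN2 N g2
  obtain ⟨⟨hsel, hll⟩, hlq, hpow⟩ := hN3 N g3
  have hw2 : 2 ≤ w := (le_max_right _ _).trans l1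
  have hww0 : w0 ≤ w := (le_max_left _ _).trans l1
  have hwr : (2 : ℝ) ≤ w := by exact_mod_cast hw2
  have hNr : (3 : ℝ) ≤ N := by exact_mod_cast g5
  have hN0 : (0 : ℝ) < N := by linarith
  set L := Real.log N with hLd
  have hexp1 := Real.exp_one_gt_d9
  have hL1 : 1 < L := by linarith
  have hL0 : 0 < L := by linarith
  have hLL1 : 1 ≤ Real.log L := (le_max_left _ _).trans hll
  have hLLC : 2 * Cp / u ≤ Real.log L := (le_max_right _ _).trans hll
  -- sizes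
  have hP1 : 1 ≤ PP w := Cls0.PP_pos w
  have hPr : (1 : ℝ) ≤ PP w := by exact_mod_cast hP1
  have hPP : (PP w) ^ 2 ≤ N := by
    calc (PP w) ^ 2 ≤ (4 ^ w) ^ 2 := Nat.pow_le_pow_left (Cls0.PP_le w) 2
      _ = 4 ^ (2 * w) := by rw [← pow_mul, mul_comm]
      _ ≤ 4 ^ (100 * (2 + 1) * w) := Nat.pow_le_pow_right (by norm_num) (by nlinarith)
      _ ≤ N := l2
  have hPPr : (PP w : ℝ) ^ 2 ≤ N := by exact_mod_cast hPP
  have hwN : w ≤ N := by
    calc w ≤ 4 ^ w := (Nat.lt_pow_self (by norm_num)).le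
      _ ≤ 4 ^ (100 * (2 + 1) * w) := Nat.pow_le_pow_right (by norm_num) (by nlinarith)
      _ ≤ N := l2
  have hκ0 : 0 < (DZ w)⁻¹ := inv_pos.2 (DZ_pos w)
  have hκ1 : (DZ w)⁻¹ ≤ Real.log L / cD := by
    have h1 := hDZ w hw2
    have hlw : 0 < Real.log w := Real.log_pos (by linarith)
    have h2 : (DZ w)⁻¹ ≤ Real.log w / cD := by
      rw [inv_le_comm₀ (DZ_pos w) (by positivity), inv_div]
      exact h1
    refine h2.trans (div_le_div_of_nonneg_right ?_ hcD.le)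
    refine Real.log_le_log (by linarith) (l5.trans ?_)
    have : u * L ≤ 1 * L := mul_le_mul_of_nonneg_right (by linarith) hL0.le
    linarith
  have hqmin : (DZ w)⁻¹ / L ≤ min (1 / 2) ε := by
    rw [div_le_iff₀ hL0]
    refine hκ1.trans ?_
    rw [div_le_iff₀ hcD]
    calc Real.log L ≤ cD * min (1 / 2) ε * L := hlq
      _ = min (1 / 2) ε * L * cD := by ring
  have hq1 : (DZ w)⁻¹ / L ≤ 1 / 2 := hqmin.trans (min_le_left _ _)
  have hqe : (DZ w)⁻¹ / L ≤ ε := hqmin.trans (min_le_right _ _)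
  have hκL : (DZ w)⁻¹ ≤ L := by
    rw [div_le_iff₀ hL0] at hq1
    linarith
  have hy0 : 0 < yy N := by linarith
  have hyL : yy N ≤ L := by
    unfold yy
    rw [← hLd]
    exact div_le_self hL0.le hLL1
  refine ⟨hw2, hPP, hwN, hq1, ?_, l5.trans (mul_le_mul_of_nonneg_right hu3 hL0.le), ?_⟩
  · have hl2 : Real.log 2 ≤ 1 := by
      have := Real.log_two_lt_d9
      linarith
    calc (DZ w)⁻¹ * Real.log 2 ≤ (DZ w)⁻¹ * 1 := mul_le_mul_of_nonneg_left hl2 hκ0.le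
      _ ≤ L := by linarith
  intro D hD
  -- delta
  set δ := Cp / L + PP w * (DZ w)⁻¹ / N with hδ
  have hδ0 : 0 ≤ δ := by positivity
  have hsN : (PP w : ℝ) ≤ (N : ℝ) ^ (1 / 2 : ℝ) := by
    rw [← Real.sqrt_eq_rpow]
    exact Real.le_sqrt_of_sq_le hPPr
  have hNh : (N : ℝ) ^ (1 / 2 : ℝ) * (N : ℝ) ^ (1 / 2 : ℝ) = N := by
    rw [← Real.rpow_add hN0]
    norm_num
  have hNh0 : 0 < (N : ℝ) ^ (1 / 2 : ℝ) := Real.rpow_pos_of_pos hN0 _
  have hyδ : yy N * δ ≤ u := by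
    have h1 : yy N * (Cp / L) ≤ u / 2 := by
      have e1 : yy N * (Cp / L) = Cp / Real.log L := by
        unfold yy
        rw [← hLd]
        field_simp
      rw [e1, div_le_iff₀ (by linarith)]
      rw [div_le_iff₀ hu0] at hLLC
      linarith
    have h2 : yy N * (PP w * (DZ w)⁻¹ / N) ≤ u / 2 := by
      have h3 : yy N * (PP w * (DZ w)⁻¹ / N) ≤ L * ((N : ℝ) ^ (1 / 2 : ℝ) * L / N) := by
        refine mul_le_mul hyL ?_ (by positivity) hL0.le
        refine div_le_div_of_nonneg_right ?_ hN0.le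
        exact mul_le_mul hsN hκL hκ0.le hNh0.le
      refine h3.trans ?_
      have e1 : L * ((N : ℝ) ^ (1 / 2 : ℝ) * L / N) = L ^ 2 / (N : ℝ) ^ (1 / 2 : ℝ) := by
        rw [eq_div_iff hNh0.ne', mul_div_assoc', div_mul_eq_mul_div, div_eq_iff hN0.ne']
        calc L * ((N : ℝ) ^ (1 / 2 : ℝ) * L) * (N : ℝ) ^ (1 / 2 : ℝ) =
              L ^ 2 * ((N : ℝ) ^ (1 / 2 : ℝ) * (N : ℝ) ^ (1 / 2 : ℝ)) := by ring
          _ = L ^ 2 * N := by rw [hNh]
      rw [e1, div_le_iff₀ hNh0]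
      have h4 : 2 / u * L ^ 2 ≤ (N : ℝ) ^ (1 / 2 : ℝ) := hpow
      have h5 : u / 2 * (2 / u * L ^ 2) = L ^ 2 := by field_simp
      calc L ^ 2 = u / 2 * (2 / u * L ^ 2) := h5.symm
        _ ≤ u / 2 * (N : ℝ) ^ (1 / 2 : ℝ) := mul_le_mul_of_nonneg_left h4 (by positivity)
    rw [hδ, mul_add]
    linarith
  have hδ1 : δ ≤ 1 := by
    have : 2 * δ ≤ yy N * δ := mul_le_mul_of_nonneg_right hy2 hδ0
    linarith
  -- exponents
  obtain ⟨Bd1, Bd2, Bd3, _, hr, hb1, hb2, _⟩ := hlev 2 (by norm_num) le_rfl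
  set R0 := ⌈2 * K1 * yy N⌉₊ with hR0
  have hR0a : 2 * K1 * yy N ≤ R0 := Nat.le_ceil _
  have hR0b : (R0 : ℝ) ≤ 2 * K1 * yy N + 1 := (Nat.ceil_lt_add_one (by positivity)).le
  have hR0c : ((2 * R0 : ℕ) : ℝ) ≤ Km * w := by
    push_cast
    have h1 : 2 * K1 * yy N ≤ 2 * K1 * (2 / cw * w) := mul_le_mul_of_nonneg_left l4 (by positivity)
    have e1 : Km * w = 2 * (2 * K1 * (2 / cw * w)) + 2 * w := by
      rw [hKm]
      ring
    rw [e1]
    linarith
  have hR0d : (R0 : ℝ) ≤ Km * w := by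
    have : (R0 : ℝ) ≤ ((2 * R0 : ℕ) : ℝ) := by
      push_cast
      have : (0 : ℝ) ≤ R0 := Nat.cast_nonneg _
      linarith
    linarith
  set r1 := ⌈yy N⌉₊ with hr1
  have hr1a : yy N ≤ r1 := Nat.le_ceil _
  have hr1b : (r1 : ℝ) ≤ yy N + 1 := (Nat.ceil_lt_add_one hy0.le).le
  have hr1c : (r1 : ℝ) ≤ 3 * yy N := by linarith
  have hr2 : ((2 * r1 : ℕ) : ℝ) ≤ 3 * yy N := by
    push_cast
    linarith
  obtain ⟨k1, _, _, _, k5⟩ := hr r1 hr1c
  obtain ⟨_, _, k3, _, _⟩ := hr (2 * r1) hr2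
  have hye1 : yy N * e1 ≤ u := (mul_le_mul_of_nonneg_right hr1a he10).trans k1
  have hsqN : Real.sqrt ((N : ℝ) ^ 2) = N := Real.sqrt_sq hN0.le
  rw [hsqN] at k3 k5
  -- pointwise
  set s : ℕ × ℕ → ℝ := fun x => ss w (Nat.dist x.1 x.2) with hs
  set tt : ℕ × ℕ → (Fin 2 → ℕ) := fun x => ![x.1, x.2] with htt
  set E1 := Real.exp (yy N * (e1 + δ)) with hE1
  set E2 := Real.exp (yy N * (e2 + δ)) with hE2
  set E3 := Real.exp (yy N * (2 * Cs)) with hE3
  have hE10 := Real.exp_pos (yy N * (e1 + δ))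
  have hE20 := Real.exp_pos (yy N * (e2 + δ))
  have hE30 := Real.exp_pos (yy N * (2 * Cs))
  have hs1 : ∀ x, 1 ≤ s x := fun x => ss_one_le _ _
  have hsK : ∀ x ∈ CP N N w, s x ≤ K1 := by
    intro x hx
    obtain ⟨_, h1, h2, h3, _⟩ := pair_TK hx
    rw [mem_Ioc] at h1 h2
    refine ss_le hcw hw2 (Nat.dist_pos_of_ne h3).ne' ?_ hL1 l3 l4
    unfold Nat.dist
    omega
  have hphi' := hphi N g4 w (by omega) hwN hq1
  have hpt : ∀ x ∈ CP N N w, (∑ m ∈ Icc 1 N, ph N w x.1 x.2 m) ^ D ≤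
      (N : ℝ) ^ D * (E1 * s x ^ R0 + (if tt x ∈ Bd1 then E2 * s x ^ R0 else 0) +
        (if tt x ∈ Bd2 then E3 else 0)) := by
    intro x hx
    obtain ⟨hT, _⟩ := pair_TK hx
    have hsp : 0 < s x ^ R0 := pow_pos (by linarith [hs1 x]) _
    have hND : (0 : ℝ) < (N : ℝ) ^ D := by positivity
    by_cases hB1 : tt x ∈ Bd1
    · by_cases hB2 : tt x ∈ Bd2
      · refine (one_sel hx (by omega) hL1 hq1 hqe hδ0 hδ1 hCs1 (by omega) l3 hD hphi'
          (fun n hn n' hn' hne => (hsel n hn n' hn' hne).trans ?_)).trans ?_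
        · exact mul_le_mul_of_nonneg_right (le_max_left _ _) (by positivity)
        · refine mul_le_mul_of_nonneg_left ?_ hND.le
          rw [if_pos hB1, if_pos hB2]
          have : 0 ≤ E1 * s x ^ R0 := by positivity
          have : 0 ≤ E2 * s x ^ R0 := by positivity
          linarith
      · refine (one_pair hx (by omega) hwN hL1 hq1 hqe he20 he21 hδ0 hD (hsK x hx) hR0a hphi'
          (fun c hc => hb2 c _ hT hB2 hc)).trans ?_
        refine mul_le_mul_of_nonneg_left ?_ hND.le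
        rw [if_pos hB1, if_neg hB2]
        have : 0 ≤ E1 * s x ^ R0 := by positivity
        linarith
    · refine (one_pair hx (by omega) hwN hL1 hq1 hqe he10 he11 hδ0 hD (hsK x hx) hR0a hphi'
          (fun c hc => (hb1 c _ hT hB1 hc).2)).trans ?_
      refine mul_le_mul_of_nonneg_left ?_ hND.le
      rw [if_neg hB1]
      have : (0 : ℝ) ≤ (if tt x ∈ Bd2 then E3 else 0) := by split_ifs <;> positivity
      linarith
  have hinj : ∀ B : Finset (Fin 2 → ℕ), (((CP N N w).filter fun x => tt x ∈ B).card : ℝ) ≤ B.card := by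
    intro B
    have : ((CP N N w).filter fun x => tt x ∈ B).card ≤ B.card := by
      refine card_le_card_of_injOn tt (fun x hx => (mem_filter.1 (mem_coe.1 hx)).2) ?_
      intro a _ b _ hab
      have h0 := congrFun hab 0
      have h1 := congrFun hab 1
      simp [htt] at h0 h1
      exact Prod.ext h0 h1
    exact_mod_cast this
  have hS1 : ∑ x ∈ CP N N w, s x ^ R0 ≤ (1 + u) * ((N : ℝ) ^ 2 / PP w) := hw0 w hww0 N R0 N hR0d
  have hS2 : ∑ x ∈ CP N N w, s x ^ (2 * R0) ≤ (1 + u) * ((N : ℝ) ^ 2 / PP w) :=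
    hw0 w hww0 N (2 * R0) N hR0c
  have hCS : ∑ x ∈ (CP N N w).filter (fun x => tt x ∈ Bd1), s x ^ R0 ≤
      Real.sqrt Bd1.card * (2 * N) := by
    have h1 := sum_mul_sq_le_sq_mul_sq ((CP N N w).filter fun x => tt x ∈ Bd1) (fun _ => (1 : ℝ))
      (fun x => s x ^ R0)
    simp only [one_mul, one_pow, sum_const, nsmul_eq_mul, mul_one] at h1
    have h2 : ∑ x ∈ (CP N N w).filter (fun x => tt x ∈ Bd1), (s x ^ R0) ^ 2 ≤ (2 * (N : ℝ)) ^ 2 := by
      have h3 : ∑ x ∈ (CP N N w).filter (fun x => tt x ∈ Bd1), (s x ^ R0) ^ 2 ≤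
          ∑ x ∈ CP N N w, s x ^ (2 * R0) := by
        refine (sum_le_sum_of_subset_of_nonneg (filter_subset _ _) fun _ _ _ => by positivity).trans ?_
        refine sum_le_sum fun x _ => ?_
        rw [← pow_mul, mul_comm 2 R0]
      refine (h3.trans hS2).trans ?_
      have h4 : (N : ℝ) ^ 2 / PP w ≤ (N : ℝ) ^ 2 := div_le_self (by positivity) hPr
      calc (1 + u) * ((N : ℝ) ^ 2 / PP w) ≤ 4 * (N : ℝ) ^ 2 := by
            refine mul_le_mul (by linarith) h4 (by positivity) (by norm_num)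
        _ = (2 * (N : ℝ)) ^ 2 := by ring
    have h5 : (∑ x ∈ (CP N N w).filter (fun x => tt x ∈ Bd1), s x ^ R0) ^ 2 ≤
        (Bd1.card : ℝ) * (2 * (N : ℝ)) ^ 2 := by
      refine h1.trans ?_
      exact mul_le_mul (hinj Bd1) h2 (sum_nonneg fun _ _ => by positivity) (Nat.cast_nonneg _)
    have h6 := Real.le_sqrt_of_sq_le h5
    rw [Real.sqrt_mul (Nat.cast_nonneg _), Real.sqrt_sq (by linarith)] at h6
    exact h6
  have hsum : ∑ x ∈ CP N N w, (∑ m ∈ Icc 1 N, ph N w x.1 x.2 m) ^ D ≤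
      (N : ℝ) ^ D * (E1 * ((1 + u) * ((N : ℝ) ^ 2 / PP w)) + E2 * (Real.sqrt Bd1.card * (2 * N)) +
        E3 * Bd2.card) := by
    refine (sum_le_sum hpt).trans ?_
    rw [← mul_sum]
    refine mul_le_mul_of_nonneg_left ?_ (by positivity)
    rw [sum_add_distrib, sum_add_distrib, ← mul_sum, ← sum_filter, ← sum_filter, ← mul_sum, sum_const,
      nsmul_eq_mul]
    refine add_le_add (add_le_add ?_ ?_) ?_
    · exact mul_le_mul_of_nonneg_left hS1 hE10.le
    · exact mul_le_mul_of_nonneg_left hCS hE20.le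
    · rw [mul_comm]
      exact mul_le_mul_of_nonneg_left (hinj Bd2) hE30.le
  have hP0 : (0 : ℝ) < PP w := by linarith
  have hP4 : (PP w : ℝ) ≤ 4 ^ (2 * w) := by
    have h1 : PP w ≤ 4 ^ (2 * w) :=
      (Cls0.PP_le w).trans (Nat.pow_le_pow_right (by norm_num) (by omega))
    exact_mod_cast h1
  have hN2 : (0 : ℝ) < (N : ℝ) ^ 2 := by positivity
  have t1 : (PP w : ℝ) / N ^ 2 * (E1 * ((1 + u) * ((N : ℝ) ^ 2 / PP w))) ≤ 1 + 6 * u := by
    have e9 : (PP w : ℝ) / N ^ 2 * (E1 * ((1 + u) * ((N : ℝ) ^ 2 / PP w))) = E1 * (1 + u) := by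
      field_simp
    rw [e9]
    have h1 : E1 ≤ 1 + 4 * u := by
      have h2 : yy N * (e1 + δ) ≤ 2 * u := by rw [mul_add]; linarith
      calc E1 ≤ Real.exp (2 * u) := Real.exp_le_exp.2 h2
        _ ≤ 1 + 2 * (2 * u) := exp_le_lin (by positivity) (by linarith)
        _ = 1 + 4 * u := by ring
    nlinarith
  have t2 : (PP w : ℝ) / N ^ 2 * (E2 * (Real.sqrt Bd1.card * (2 * N))) ≤ 4 * u := by
    have h1 : E2 ≤ 2 * (1 + e2) ^ (2 * r1) := by
      rw [hE2, mul_add, Real.exp_add, mul_comm]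
      refine mul_le_mul ?_ ?_ (Real.exp_pos _).le (by norm_num)
      · calc Real.exp (yy N * δ) ≤ Real.exp u := Real.exp_le_exp.2 hyδ
          _ ≤ 1 + 2 * u := exp_le_lin hu0.le (by linarith)
          _ ≤ 2 := by linarith
      · refine exp_le_one_add_pow he20 he21 ?_
        push_cast
        linarith
    have h2 : 0 ≤ Real.sqrt Bd1.card := Real.sqrt_nonneg _
    calc (PP w : ℝ) / N ^ 2 * (E2 * (Real.sqrt Bd1.card * (2 * N))) ≤
          4 ^ (2 * w) / N ^ 2 * (2 * (1 + e2) ^ (2 * r1) * (Real.sqrt Bd1.card * (2 * N))) := by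
          refine mul_le_mul (div_le_div_of_nonneg_right hP4 hN2.le)
            (mul_le_mul_of_nonneg_right h1 (by positivity)) (by positivity) (by positivity)
      _ = 4 / N * ((1 + e2) ^ (2 * r1) * Real.sqrt Bd1.card * 4 ^ (2 * w)) := by
          field_simp
          ring
      _ ≤ 4 / N * (u * N) := mul_le_mul_of_nonneg_left k3 (by positivity)
      _ = 4 * u := by field_simp
  have t3 : (PP w : ℝ) / N ^ 2 * (E3 * Bd2.card) ≤ u := by
    have h0 : 0 ≤ Real.sqrt Bd2.card := Real.sqrt_nonneg _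
    have h1 : E3 ≤ (Real.exp Cs ^ r1) ^ 2 := by
      rw [← Real.exp_nat_mul, ← Real.exp_nat_mul, hE3]
      refine Real.exp_le_exp.2 ?_
      push_cast
      calc yy N * (2 * Cs) ≤ r1 * (2 * Cs) := mul_le_mul_of_nonneg_right hr1a (by linarith)
        _ = 2 * (r1 * Cs) := by ring
    have h2 : (Bd2.card : ℝ) = Real.sqrt Bd2.card ^ 2 := (Real.sq_sqrt (Nat.cast_nonneg _)).symm
    have h3 : (PP w : ℝ) ≤ (4 ^ (2 * w)) ^ 2 := by
      refine hP4.trans ?_
      exact le_self_pow₀ (one_le_pow₀ (by norm_num)) (by norm_num)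
    have h40 : (0 : ℝ) ≤ 4 ^ (2 * w) := pow_nonneg (by norm_num) _
    have h41 : 0 ≤ Real.exp Cs ^ r1 := pow_nonneg (Real.exp_pos _).le _
    have h4 : (Real.exp Cs ^ r1 * Real.sqrt Bd2.card * 4 ^ (2 * w)) ^ 2 ≤ (u * N) ^ 2 :=
      pow_le_pow_left₀ (mul_nonneg (mul_nonneg h41 h0) h40) k5 2
    calc (PP w : ℝ) / N ^ 2 * (E3 * Bd2.card) ≤
          (4 ^ (2 * w)) ^ 2 / N ^ 2 * ((Real.exp Cs ^ r1) ^ 2 * Real.sqrt Bd2.card ^ 2) := by
          rw [← h2]
          refine mul_le_mul (div_le_div_of_nonneg_right h3 hN2.le)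
            (mul_le_mul_of_nonneg_right h1 (Nat.cast_nonneg _))
            (mul_nonneg hE30.le (Nat.cast_nonneg _)) (div_nonneg (pow_nonneg h40 2) hN2.le)
      _ = 1 / N ^ 2 * (Real.exp Cs ^ r1 * Real.sqrt Bd2.card * 4 ^ (2 * w)) ^ 2 := by ring
      _ ≤ 1 / N ^ 2 * (u * N) ^ 2 := mul_le_mul_of_nonneg_left h4 (by positivity)
      _ = u * u := by field_simp
      _ ≤ u * 1 := mul_le_mul_of_nonneg_left (by linarith) hu0.le
      _ = u := mul_one u
  have hPN : 0 ≤ (PP w : ℝ) / N ^ 2 := by positivity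
  calc (PP w : ℝ) / N ^ 2 * ∑ x ∈ CP N N w, (∑ m ∈ Icc 1 N, ph N w x.1 x.2 m) ^ D
      ≤ (PP w : ℝ) / N ^ 2 * ((N : ℝ) ^ D * (E1 * ((1 + u) * ((N : ℝ) ^ 2 / PP w)) +
        E2 * (Real.sqrt Bd1.card * (2 * N)) + E3 * Bd2.card)) := mul_le_mul_of_nonneg_left hsum hPN
    _ = ((PP w : ℝ) / N ^ 2 * (E1 * ((1 + u) * ((N : ℝ) ^ 2 / PP w))) +
        (PP w : ℝ) / N ^ 2 * (E2 * (Real.sqrt Bd1.card * (2 * N))) +
        (PP w : ℝ) / N ^ 2 * (E3 * Bd2.card)) * (N : ℝ) ^ D := by ring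
    _ ≤ (1 + η) * (N : ℝ) ^ D := by
        refine mul_le_mul_of_nonneg_right ?_ (by positivity)
        linarith

end Pool.Agent.Lib.LEN
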