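import Pool.Agent.Lib.LEN.JDefs
import Pool.Agent.Lib.LEN.FinA
import Pool.Agent.Lib.LEN.TVPair
import Pool.Agent.Lib.LEN.ClsK

/-!
# LEN.JPairA: the congruent pairs in the classes of the `r`-tuples: lemmas
-/

set_option autoImplicit false

open Finset Filter

namespace Pool.Agent.Lib.LEN

open Pool.Agent.HLB Pool.Agent.HLT Pool.Agent.HLR Pool.Agent.Lib.GMV

namespace JPairAux

open TVPairAux TVPhiAux

/-- The row sums of `TVSum`, uniformly. -/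
lemma row_sum (K η : ℝ) (hK : 0 < K) (hη : 0 < η) : ∃ w0 : ℕ, ∀ w : ℕ, w0 ≤ w → ∀ N R u : ℕ,
    (R : ℝ) ≤ K * w → ∀ n ∈ Ioc u (u + N),
    ∑ n' ∈ ((Ioc u (u + N)).erase n).filter (fun n' => n' % PP w = n % PP w),
      ss w (Nat.dist n n') ^ R ≤ N / PP w * (1 + η) := by
  obtain ⟨C, hC, hpr⟩ := prS
  set b : ℝ := 2 * Real.exp K * K * C with hb
  have h2 : Tendsto (fun w : ℕ => b / Real.log w) atTop (nhds 0) :=
    Tendsto.div_atTop tendsto_const_nhds (Real.tendsto_log_atTop.comp tendsto_natCast_atTop_atTop)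
  have h3 : Tendsto (fun w : ℕ => Real.exp (b / Real.log w)) atTop (nhds (Real.exp 0)) :=
    (Real.continuous_exp.tendsto 0).comp h2
  rw [Real.exp_zero] at h3
  have h1 := h3.eventually (gt_mem_nhds (show (1 : ℝ) < 1 + η by linarith))
  obtain ⟨w1, hw1⟩ := eventually_atTop.1 h1
  refine ⟨max w1 2, ?_⟩
  intro w hw N R u hR n hn
  have hw2 : 2 ≤ w := (le_max_right _ _).trans hw
  have hlim := hw1 w ((le_max_left _ _).trans hw)
  have hP : (0 : ℝ) < PP w := by exact_mod_cast Cls0.PP_pos w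
  have hB1 := SMomAux.bound_one hC hK (fun w z h => (hpr w z h).1) w N R hw2 hR
  exact (TVSumAux.row n hn _ hB1).trans (mul_le_mul_of_nonneg_left hlim.le (by positivity))

open scoped Classical in
lemma sum_CP_good (u N w : ℕ) {r : ℕ} (a : Fin r → ℕ) (f : ℕ → ℕ → ℝ) :
    ∑ x ∈ CP u N w, (if Good w a x.1 then f x.1 x.2 else 0) =
    ∑ n ∈ (Ioc u (u + N)).filter (Good w a),
      ∑ n' ∈ ((Ioc u (u + N)).erase n).filter (fun n' => n' % PP w = n % PP w), f n n' := by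
  rw [sum_CP u N w fun n n' => if Good w a n then f n n' else 0, sum_filter]
  refine sum_congr rfl fun n _ => ?_
  split_ifs with h
  · rfl
  · exact sum_const_zero

open scoped Classical in
/-- From the tuples `h` to the product over the classes. -/
lemma swap_h {N w r : ℕ} (a : Fin r → ℕ) (hN : 1 ≤ N) (Φ : ℕ × ℕ → ℝ) (hΦ : ∀ x, 0 ≤ Φ x) :
    (∑ h ∈ Hc N w a, ∑ x ∈ (CP N N w).filter (fun x => x.1 ∈ Sh N h ∧ x.2 ∈ Sh N h), Φ x) *
      Real.log N ^ (2 * r) ≤ ∑ x ∈ CP N N w, (∏ i, CC lp N w (a i) x.1 x.2) * Φ x := by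
  have hL0 : 0 ≤ Real.log N := Real.log_nonneg (by exact_mod_cast hN)
  have h1 : ∀ x : ℕ × ℕ, ∑ h ∈ Hc N w a, ∏ i, (lp (x.1 + h i) * lp (x.2 + h i)) =
      ∏ i, CC lp N w (a i) x.1 x.2 := by
    intro x
    unfold Hc CC
    rw [Finset.prod_univ_sum (t := fun i => cls N w (a i))
      (f := fun _ m => lp (x.1 + m) * lp (x.2 + m))]
  have h2 : ∀ h : Fin r → ℕ, ∀ x ∈ CP N N w,
      (if x.1 ∈ Sh N h ∧ x.2 ∈ Sh N h then Φ x else 0) * Real.log N ^ (2 * r) ≤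
        Φ x * ∏ i, (lp (x.1 + h i) * lp (x.2 + h i)) := by
    intro h x hx
    obtain ⟨_, hx1, hx2, _, _⟩ := pair_TK hx
    rw [mem_Ioc] at hx1 hx2
    split_ifs with hc
    · refine mul_le_mul_of_nonneg_left ?_ (hΦ x)
      have e : Real.log N ^ (2 * r) = ∏ _i : Fin r, (Real.log N * Real.log N) := by
        rw [prod_const, card_univ, Fintype.card_fin, ← pow_two, ← pow_mul]
      rw [e]
      refine prod_le_prod (fun _ _ => mul_nonneg hL0 hL0) fun i _ => ?_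
      have hb : ∀ n, N < n → n ∈ Sh N h → Real.log N ≤ lp (n + h i) := by
        intro n hn hS
        unfold Sh at hS
        rw [mem_filter] at hS
        unfold Pool.Agent.HLT.lp
        rw [if_pos (hS.2 i)]
        exact Real.log_le_log (by exact_mod_cast hN) (by exact_mod_cast (by omega : N ≤ n + h i))
      exact mul_le_mul (hb _ hx1.1 hc.1) (hb _ hx2.1 hc.2) hL0 (hL0.trans (hb _ hx1.1 hc.1))
    · rw [zero_mul]
      exact mul_nonneg (hΦ x) (prod_nonneg fun i _ => mul_nonneg (HLT.lp_nonneg _) (HLT.lp_nonneg _))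
  calc (∑ h ∈ Hc N w a, ∑ x ∈ (CP N N w).filter (fun x => x.1 ∈ Sh N h ∧ x.2 ∈ Sh N h), Φ x) *
      Real.log N ^ (2 * r) = ∑ h ∈ Hc N w a, ∑ x ∈ CP N N w,
        (if x.1 ∈ Sh N h ∧ x.2 ∈ Sh N h then Φ x else 0) * Real.log N ^ (2 * r) := by
        rw [sum_mul]
        refine sum_congr rfl fun h _ => ?_
        rw [sum_filter, sum_mul]
    _ ≤ ∑ h ∈ Hc N w a, ∑ x ∈ CP N N w, Φ x * ∏ i, (lp (x.1 + h i) * lp (x.2 + h i)) :=
        sum_le_sum fun h _ => sum_le_sum fun x hx => h2 h x hx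
    _ = ∑ x ∈ CP N N w, (∏ i, CC lp N w (a i) x.1 x.2) * Φ x := by
        rw [sum_comm]
        refine sum_congr rfl fun x _ => ?_
        rw [← mul_sum, h1 x, mul_comm]

/-- The sum over all classes. -/
lemma all_classes (N w r : ℕ) (n n' : ℕ) :
    ∑ a ∈ Fintype.piFinset (fun _ : Fin r => range (PP w)), ∏ i, CC lp N w (a i) n n' =
      (∑ m ∈ Icc 1 N, lp (n + m) * lp (n' + m)) ^ r := by
  rw [← ClsKAux.sum_cls N w (fun m => lp (n + m) * lp (n' + m))]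
  unfold CC
  rw [← Finset.prod_univ_sum (t := fun _ : Fin r => range (PP w))
    (f := fun _ c => ∑ h ∈ cls N w c, lp (n + h) * lp (n' + h)), prod_const, card_univ,
    Fintype.card_fin]

lemma CC_nonneg (N w c n n' : ℕ) : 0 ≤ CC lp N w c n n' :=
  sum_nonneg fun _ _ => mul_nonneg (HLT.lp_nonneg _) (HLT.lp_nonneg _)

/-- The correlation vanishes if `n + c` is not coprime to `PP w`. -/
lemma CC_zero {N w c n n' : ℕ} (hn : w < n) (hc : ¬ Nat.Coprime (n + c) (PP w)) :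
    CC lp N w c n n' = 0 := by
  unfold CC
  refine sum_eq_zero fun m hm => ?_
  have h3 : ¬ (n + m).Prime := by
    intro h3
    refine hc ?_
    have h4 := cop_of_prime (w := w) h3 (by omega)
    unfold cls at hm
    rw [mem_filter] at hm
    have e2 : (n + c) % PP w = (n + m) % PP w := by
      rw [Nat.add_mod, ← hm.2, ← Nat.add_mod]
    unfold Nat.Coprime at *
    rw [Nat.gcd_comm, Nat.gcd_rec, e2, ← Nat.gcd_rec, Nat.gcd_comm]
    exact h4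
  have h5 : lp (n + m) = 0 := by
    unfold Pool.Agent.HLT.lp
    rw [if_neg h3]
  rw [h5, zero_mul]

/-- The product over the classes. -/
lemma G_le {N w r : ℕ} {a : Fin r → ℕ} {x : ℕ × ℕ} {E : ℝ} (hx : x ∈ CP N N w)
    (hg : Good w a x.1)
    (hC : ∀ c, (∀ j, Nat.Coprime ((![x.1, x.2] : Fin 2 → ℕ) j + c) (PP w)) →
      CK lp N w c (![x.1, x.2] : Fin 2 → ℕ) ≤
        Tm N w 2 * (sk w (![x.1, x.2] : Fin 2 → ℕ) * E)) :
    ∏ i, CC lp N w (a i) x.1 x.2 ≤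
      ((N : ℝ) / PP w * (DZ w)⁻¹ ^ 2) ^ r * (ss w (Nat.dist x.1 x.2) * E) ^ r := by
  obtain ⟨_, h1, h2, h3, h4⟩ := pair_TK hx
  rw [← mul_pow]
  have h5 : ∀ i : Fin r, CC lp N w (a i) x.1 x.2 ≤
      (N : ℝ) / PP w * (DZ w)⁻¹ ^ 2 * (ss w (Nat.dist x.1 x.2) * E) := by
    intro i
    have h6 := hC (a i) fun j => by
      fin_cases j
      · exact hg i
      · exact (cop_shift h4).2 (hg i)
    rw [CK_pair, sk_pair] at h6
    exact h6
  calc ∏ i, CC lp N w (a i) x.1 x.2 ≤ ∏ _i : Fin r,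
        ((N : ℝ) / PP w * (DZ w)⁻¹ ^ 2 * (ss w (Nat.dist x.1 x.2) * E)) :=
        prod_le_prod (fun i _ => CC_nonneg _ _ _ _ _) fun i _ => h5 i
    _ = _ := by rw [prod_const, card_univ, Fintype.card_fin]

/-- `exp (c yy N)` is a small power of `N`. -/
lemma exp_yy_small (c δ : ℝ) (hδ : 0 < δ) : ∀ᶠ N : ℕ in atTop,
    Real.exp (c * yy N) ≤ (N : ℝ) ^ δ := by
  have hlog : Tendsto (fun N : ℕ => Real.log (N:ℝ)) atTop atTop :=
    Real.tendsto_log_atTop.comp tendsto_natCast_atTop_atTop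
  have hloglog : Tendsto (fun N : ℕ => Real.log (Real.log (N:ℝ))) atTop atTop :=
    Real.tendsto_log_atTop.comp hlog
  filter_upwards [hloglog.eventually_ge_atTop (max 1 (c / δ)), hlog.eventually_ge_atTop 1,
    eventually_ge_atTop 1] with N h1 h2 h3
  have hN0 : (0 : ℝ) < N := by exact_mod_cast h3
  have hl1 : 1 ≤ Real.log (Real.log N) := (le_max_left _ _).trans h1
  have hl2 : c / δ ≤ Real.log (Real.log N) := (le_max_right _ _).trans h1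
  rw [Real.rpow_def_of_pos hN0]
  refine Real.exp_le_exp.2 ?_
  rw [div_le_iff₀ hδ] at hl2
  unfold yy
  rw [mul_div_assoc', div_le_iff₀ (by linarith)]
  nlinarith

open scoped Classical in
/-- The pointwise bound. -/
lemma pointwise {N w r D : ℕ} {ε e1 e2 δ K1 Cs B' u : ℝ} {R0 R1 : ℕ} {Bd1 Bd2 Bd3 : Finset (Fin 2 → ℕ)}
    (hN : 1 ≤ N) (hw : 1 ≤ w) (hwN : w ≤ N) (hL1 : 1 < Real.log N)
    (hq1 : (DZ w)⁻¹ / Real.log N ≤ 1 / 2) (hqe : (DZ w)⁻¹ / Real.log N ≤ ε)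
    (he10 : 0 ≤ e1) (he11 : e1 ≤ 1) (he20 : 0 ≤ e2) (he21 : e2 ≤ 1) (hδ0 : 0 ≤ δ) (hδ1 : δ ≤ 1)
    (hCs1 : 1 ≤ Cs) (l3 : Real.log N ≤ (w : ℝ) ^ 2) (hB' : 1 ≤ B') (hK10 : 0 < K1)
    (hD : (D : ℝ) ≤ (1 - ε) * (Real.log N ^ 2 / Real.log (Real.log N)))
    (hR0a : 2 * K1 * yy N ≤ R0) (hR1 : r + R0 ≤ R1) (k1 : (r : ℝ) * e1 ≤ u)
    (hphi' : ∀ n ∈ Ioc N (2 * N), ∀ n' ∈ Ioc N (2 * N),
      n' % PP w = n % PP w → ∀ σ : ℝ,
      ∑ m ∈ Icc 1 N, lp (n + m) * lp (n' + m) ≤ N * (DZ w)⁻¹ * σ →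
      ∑ m ∈ Icc 1 N, ph N w n n' m ≤ N * (1 + (σ - 1 + δ) /
        (Real.log N * (1 - (DZ w)⁻¹ / Real.log N))))
    (hsel : ∀ n ∈ Icc 1 (2 * N), ∀ n' ∈ Icc 1 (2 * N),
      n ≠ n' → ∑ h ∈ Icc 1 N, lp (n + h) * lp (n' + h) ≤ Cs * (N * Real.log (Real.log N)))
    (hb1 : ∀ c, ∀ n ∈ TK N 2, n ∉ Bd1 → (∀ j, Nat.Coprime (n j + c) (PP w)) →
      Tm N w 2 * (1 - e1) ≤ CK lp N w c n ∧ CK lp N w c n ≤ Tm N w 2 * (sk w n * (1 + e1)))
    (hb2 : ∀ c, ∀ n ∈ TK N 2, n ∉ Bd2 → (∀ j, Nat.Coprime (n j + c) (PP w)) →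
      CK lp N w c n ≤ Tm N w 2 * (sk w n * (1 + e2)))
    (hb3 : ∀ c, ∀ n ∈ TK N 2, n ∉ Bd3 → (∀ j, Nat.Coprime (n j + c) (PP w)) →
      CK lp N w c n ≤ Tm N w 2 * (sk w n * B'))
    (a : Fin r → ℕ) (x : ℕ × ℕ) (hx : x ∈ CP N N w) (hsK : ss w (Nat.dist x.1 x.2) ≤ K1) :
    (∏ i, CC lp N w (a i) x.1 x.2) * (∑ m ∈ Icc 1 N, ph N w x.1 x.2 m) ^ D ≤
      ((N : ℝ) / PP w * (DZ w)⁻¹ ^ 2) ^ r * (N : ℝ) ^ D *
        ((if Good w a x.1 then
          Real.exp u * Real.exp (yy N * (e1 + δ)) * ss w (Nat.dist x.1 x.2) ^ R1 else 0) +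
        (if (![x.1, x.2] : Fin 2 → ℕ) ∈ Bd1 then
          (1 + e2) ^ r * Real.exp (yy N * (e2 + δ)) * ss w (Nat.dist x.1 x.2) ^ R1 else 0) +
        (if (![x.1, x.2] : Fin 2 → ℕ) ∈ Bd2 then
          (K1 * B') ^ r * Real.exp (yy N * (2 * Cs)) else 0)) +
      (N : ℝ) ^ D * Real.exp (yy N * (2 * Cs)) *
        (if (![x.1, x.2] : Fin 2 → ℕ) ∈ Bd3 then ∏ i, CC lp N w (a i) x.1 x.2 else 0) := by
  obtain ⟨hT, hxx, _⟩ := pair_TK hx
  have hN0 : (0 : ℝ) < N := by exact_mod_cast hN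
  have hP0 : (0 : ℝ) < PP w := by exact_mod_cast Cls0.PP_pos w
  have hκ0 : 0 < (DZ w)⁻¹ := inv_pos.2 (DZ_pos w)
  have hG0 : 0 ≤ ∏ i, CC lp N w (a i) x.1 x.2 := prod_nonneg fun i _ => CC_nonneg _ _ _ _ _
  have hΦ0 : 0 ≤ (∑ m ∈ Icc 1 N, ph N w x.1 x.2 m) ^ D :=
    pow_nonneg (sum_nonneg fun m _ => ph_nonneg hq1
      (div_nonneg hκ0.le (by linarith))) D
  have hsx : 1 ≤ ss w (Nat.dist x.1 x.2) := ss_one_le _ _
  have hW0 : 0 < (N : ℝ) / PP w * (DZ w)⁻¹ ^ 2 := mul_pos (div_pos hN0 hP0) (pow_pos hκ0 2)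
  have hg1 : Good w a x.1 → (![x.1, x.2] : Fin 2 → ℕ) ∉ Bd1 →
      ∏ i, CC lp N w (a i) x.1 x.2 ≤ ((N : ℝ) / PP w * (DZ w)⁻¹ ^ 2) ^ r *
        (ss w (Nat.dist x.1 x.2) * (1 + e1)) ^ r := fun hg hB =>
    G_le hx hg (fun c hc => (hb1 c _ hT hB hc).2)
  have hg2 : Good w a x.1 → (![x.1, x.2] : Fin 2 → ℕ) ∉ Bd2 →
      ∏ i, CC lp N w (a i) x.1 x.2 ≤ ((N : ℝ) / PP w * (DZ w)⁻¹ ^ 2) ^ r *
        (ss w (Nat.dist x.1 x.2) * (1 + e2)) ^ r := fun hg hB =>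
    G_le hx hg (fun c hc => hb2 c _ hT hB hc)
  have hg3 : Good w a x.1 → (![x.1, x.2] : Fin 2 → ℕ) ∉ Bd3 →
      ∏ i, CC lp N w (a i) x.1 x.2 ≤ ((N : ℝ) / PP w * (DZ w)⁻¹ ^ 2) ^ r *
        (ss w (Nat.dist x.1 x.2) * B') ^ r := fun hg hB =>
    G_le hx hg (fun c hc => hb3 c _ hT hB hc)
  have hp1 : (![x.1, x.2] : Fin 2 → ℕ) ∉ Bd1 → (∑ m ∈ Icc 1 N, ph N w x.1 x.2 m) ^ D ≤
      (N : ℝ) ^ D * (Real.exp (yy N * (e1 + δ)) * ss w (Nat.dist x.1 x.2) ^ R0) := fun hB =>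
    one_pair hx hN hwN hL1 hq1 hqe he10 he11 hδ0 hD hsK hR0a hphi'
      (fun c hc => (hb1 c _ hT hB hc).2)
  have hp2 : (![x.1, x.2] : Fin 2 → ℕ) ∉ Bd2 → (∑ m ∈ Icc 1 N, ph N w x.1 x.2 m) ^ D ≤
      (N : ℝ) ^ D * (Real.exp (yy N * (e2 + δ)) * ss w (Nat.dist x.1 x.2) ^ R0) := fun hB =>
    one_pair hx hN hwN hL1 hq1 hqe he20 he21 hδ0 hD hsK hR0a hphi'
      (fun c hc => hb2 c _ hT hB hc)
  have hp3 : (∑ m ∈ Icc 1 N, ph N w x.1 x.2 m) ^ D ≤ (N : ℝ) ^ D * Real.exp (yy N * (2 * Cs)) :=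
    one_sel hx hN hL1 hq1 hqe hδ0 hδ1 hCs1 hw l3 hD hphi' hsel
  have hzero : ¬ Good w a x.1 → ∏ i, CC lp N w (a i) x.1 x.2 = 0 := by
    intro hg
    unfold Good at hg
    push Not at hg
    obtain ⟨i, hi⟩ := hg
    rw [mem_Ioc] at hxx
    exact prod_eq_zero (mem_univ i) (CC_zero (by omega) hi)
  have h3 : (1 + e1) ^ r ≤ Real.exp u := by
    calc (1 + e1) ^ r ≤ (Real.exp e1) ^ r := by
          refine pow_le_pow_left₀ (by linarith) ?_ r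
          rw [add_comm]
          exact Real.add_one_le_exp e1
      _ = Real.exp (r * e1) := by rw [← Real.exp_nat_mul]
      _ ≤ Real.exp u := Real.exp_le_exp.2 k1
  generalize (∑ m ∈ Icc 1 N, ph N w x.1 x.2 m) ^ D = Φ at *
  generalize (∏ i, CC lp N w (a i) x.1 x.2) = G at *
  generalize (N : ℝ) / PP w * (DZ w)⁻¹ ^ 2 = W at *
  generalize ss w (Nat.dist x.1 x.2) = s at *
  generalize (![x.1, x.2] : Fin 2 → ℕ) = t at *
  have hE10 := Real.exp_pos (yy N * (e1 + δ))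
  have hE20 := Real.exp_pos (yy N * (e2 + δ))
  have hE30 := Real.exp_pos (yy N * (2 * Cs))
  have hu0 := Real.exp_pos u
  generalize Real.exp (yy N * (e1 + δ)) = E1 at *
  generalize Real.exp (yy N * (e2 + δ)) = E2 at *
  generalize Real.exp (yy N * (2 * Cs)) = E3 at *
  generalize Real.exp u = U at *
  have hWr : 0 < W ^ r := pow_pos hW0 r
  have hND : (0 : ℝ) < (N : ℝ) ^ D := pow_pos hN0 D
  generalize W ^ r = Wr at *
  generalize (N : ℝ) ^ D = ND at *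
  have hWN : 0 < Wr * ND := mul_pos hWr hND
  have hs0 : 0 ≤ s := by linarith
  have hsR : s ^ r * s ^ R0 ≤ s ^ R1 := by
    rw [← pow_add]
    exact pow_le_pow_right₀ hsx hR1
  have hsR1 : 0 ≤ s ^ R1 := pow_nonneg hs0 _
  have hF2 : 0 ≤ (1 + e2) ^ r * E2 := mul_nonneg (pow_nonneg (by linarith) r) hE20.le
  have hF3 : 0 ≤ (K1 * B') ^ r * E3 :=
    mul_nonneg (pow_nonneg (mul_nonneg hK10.le (by linarith)) r) hE30.le
  have z1 : (0 : ℝ) ≤ (if Good w a x.1 then U * E1 * s ^ R1 else 0) := by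
    split_ifs
    · exact mul_nonneg (mul_nonneg hu0.le hE10.le) hsR1
    · exact le_rfl
  have z2 : (0 : ℝ) ≤ (if t ∈ Bd1 then (1 + e2) ^ r * E2 * s ^ R1 else 0) := by
    split_ifs
    · exact mul_nonneg hF2 hsR1
    · exact le_rfl
  have z3 : (0 : ℝ) ≤ (if t ∈ Bd2 then (K1 * B') ^ r * E3 else 0) := by
    split_ifs
    · exact hF3
    · exact le_rfl
  have z4 : (0 : ℝ) ≤ ND * E3 * (if t ∈ Bd3 then G else 0) := by
    split_ifs
    · exact mul_nonneg (mul_nonneg hND.le hE30.le) hG0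
    · simp
  by_cases hg : Good w a x.1
  · by_cases hB1 : t ∈ Bd1
    · by_cases hB2 : t ∈ Bd2
      · by_cases hB3 : t ∈ Bd3
        · have h1 : G * Φ ≤ G * (ND * E3) := mul_le_mul_of_nonneg_left hp3 hG0
          have h2 : 0 ≤ Wr * ND * ((if Good w a x.1 then U * E1 * s ^ R1 else 0) +
            (if t ∈ Bd1 then (1 + e2) ^ r * E2 * s ^ R1 else 0) +
            (if t ∈ Bd2 then (K1 * B') ^ r * E3 else 0)) :=
            mul_nonneg hWN.le (by linarith)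
          rw [if_pos hB3]
          linarith
        · have h2 : (s * B') ^ r ≤ (K1 * B') ^ r :=
            pow_le_pow_left₀ (mul_nonneg hs0 (by linarith))
              (mul_le_mul_of_nonneg_right hsK (by linarith)) r
          have h5 : G ≤ Wr * (K1 * B') ^ r :=
            (hg3 hg hB3).trans (mul_le_mul_of_nonneg_left h2 hWr.le)
          have h4 : G * Φ ≤ Wr * (K1 * B') ^ r * (ND * E3) :=
            mul_le_mul h5 hp3 hΦ0 (mul_nonneg hWr.le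
              (pow_nonneg (mul_nonneg hK10.le (by linarith)) r))
          have e9 : Wr * (K1 * B') ^ r * (ND * E3) = Wr * ND * ((K1 * B') ^ r * E3) := by ring
          rw [e9] at h4
          rw [if_pos hB2]
          have h7 : Wr * ND * ((K1 * B') ^ r * E3) ≤ Wr * ND *
              ((if Good w a x.1 then U * E1 * s ^ R1 else 0) +
              (if t ∈ Bd1 then (1 + e2) ^ r * E2 * s ^ R1 else 0) + (K1 * B') ^ r * E3) :=
            mul_le_mul_of_nonneg_left (by linarith) hWN.le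
          linarith
      · have h4 : G * Φ ≤ (Wr * (s * (1 + e2)) ^ r) * (ND * (E2 * s ^ R0)) :=
          mul_le_mul (hg2 hg hB2) (hp2 hB2) hΦ0 (mul_nonneg hWr.le (pow_nonneg
            (mul_nonneg hs0 (by linarith)) r))
        have e9 : (Wr * (s * (1 + e2)) ^ r) * (ND * (E2 * s ^ R0)) =
            Wr * ND * ((1 + e2) ^ r * E2 * (s ^ r * s ^ R0)) := by
          rw [mul_pow s (1 + e2) r]
          ring
        rw [e9] at h4
        have h5 : Wr * ND * ((1 + e2) ^ r * E2 * (s ^ r * s ^ R0)) ≤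
            Wr * ND * ((1 + e2) ^ r * E2 * s ^ R1) :=
          mul_le_mul_of_nonneg_left (mul_le_mul_of_nonneg_left hsR hF2) hWN.le
        rw [if_pos hB1]
        have h7 : Wr * ND * ((1 + e2) ^ r * E2 * s ^ R1) ≤ Wr * ND *
            ((if Good w a x.1 then U * E1 * s ^ R1 else 0) + (1 + e2) ^ r * E2 * s ^ R1 +
            (if t ∈ Bd2 then (K1 * B') ^ r * E3 else 0)) :=
          mul_le_mul_of_nonneg_left (by linarith) hWN.le
        linarith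
    · have h4 : G * Φ ≤ (Wr * (s * (1 + e1)) ^ r) * (ND * (E1 * s ^ R0)) :=
        mul_le_mul (hg1 hg hB1) (hp1 hB1) hΦ0 (mul_nonneg hWr.le (pow_nonneg
          (mul_nonneg hs0 (by linarith)) r))
      have e9 : (Wr * (s * (1 + e1)) ^ r) * (ND * (E1 * s ^ R0)) =
          Wr * ND * (((1 + e1) ^ r * E1) * (s ^ r * s ^ R0)) := by
        rw [mul_pow s (1 + e1) r]
        ring
      rw [e9] at h4
      have h5 : ((1 + e1) ^ r * E1) * (s ^ r * s ^ R0) ≤ U * E1 * s ^ R1 := by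
        refine mul_le_mul ?_ hsR (mul_nonneg (pow_nonneg hs0 _)
          (pow_nonneg hs0 _)) (mul_nonneg hu0.le hE10.le)
        exact mul_le_mul_of_nonneg_right h3 hE10.le
      have h5' := mul_le_mul_of_nonneg_left h5 hWN.le
      rw [if_pos hg]
      have h7 : Wr * ND * (U * E1 * s ^ R1) ≤ Wr * ND *
          (U * E1 * s ^ R1 + (if t ∈ Bd1 then (1 + e2) ^ r * E2 * s ^ R1 else 0) +
          (if t ∈ Bd2 then (K1 * B') ^ r * E3 else 0)) :=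
        mul_le_mul_of_nonneg_left (by linarith) hWN.le
      linarith
  · have h1 := hzero hg
    have h2 : 0 ≤ Wr * ND * ((if Good w a x.1 then U * E1 * s ^ R1 else 0) +
      (if t ∈ Bd1 then (1 + e2) ^ r * E2 * s ^ R1 else 0) +
      (if t ∈ Bd2 then (K1 * B') ^ r * E3 else 0)) :=
      mul_nonneg hWN.le (by linarith)
    have h6 : G * Φ = 0 := by rw [h1, zero_mul]
    linarith

/-- Powers of `N` for the number of the bad classes. -/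
lemma bad_pow {N w r : ℕ} {d u η Cs : ℝ} (hd : 0 < d) (hu0 : 0 < u) (hη : 0 < η)
    (hN0 : (0 : ℝ) < N) (hN1 : (1 : ℝ) ≤ N) (hCs1 : 1 ≤ Cs) (hL0 : 0 < Real.log N)
    (hu4 : u ≤ d / 16) (l5 : (w : ℝ) ≤ u * Real.log N) (hry : (r : ℝ) ≤ yy N)
    (hexpy : Real.exp (4 * Cs * yy N) ≤ (N : ℝ) ^ (d / 4))
    (hconst : 1 / (u * η) ≤ (N : ℝ) ^ (d / 4)) :
    Real.exp (yy N * (2 * Cs)) * (2 * Cs) ^ r * (PP w : ℝ) ^ 2 ≤ u * η * (N : ℝ) ^ d := by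
  have hP0 : (0 : ℝ) < PP w := by exact_mod_cast Cls0.PP_pos w
  have hE30 := Real.exp_pos (yy N * (2 * Cs))
  have m5 : Real.exp (yy N * (2 * Cs)) * (2 * Cs) ^ r ≤ (N : ℝ) ^ (d / 4) := by
    refine le_trans ?_ hexpy
    have h1 : (2 * Cs) ^ r ≤ Real.exp (2 * Cs * yy N) := by
      calc (2 * Cs) ^ r ≤ (Real.exp (2 * Cs)) ^ r := by
            refine pow_le_pow_left₀ (by linarith) ?_ r
            have := Real.add_one_le_exp (2 * Cs)
            linarith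
        _ = Real.exp (r * (2 * Cs)) := by rw [← Real.exp_nat_mul]
        _ ≤ Real.exp (2 * Cs * yy N) := by
            refine Real.exp_le_exp.2 ?_
            nlinarith
    calc Real.exp (yy N * (2 * Cs)) * (2 * Cs) ^ r ≤
          Real.exp (yy N * (2 * Cs)) * Real.exp (2 * Cs * yy N) :=
          mul_le_mul_of_nonneg_left h1 hE30.le
      _ = Real.exp (4 * Cs * yy N) := by
          rw [← Real.exp_add]
          congr 1
          ring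
  have m6 : (PP w : ℝ) ^ 2 ≤ (N : ℝ) ^ (d / 4) := by
    have h1 : (PP w : ℝ) ≤ 4 ^ w := by exact_mod_cast Cls0.PP_le w
    have h2 : (4 : ℝ) ≤ Real.exp 2 := by
      have hexp1 := Real.exp_one_gt_d9
      have e : Real.exp 2 = Real.exp 1 * Real.exp 1 := by rw [← Real.exp_add]; norm_num
      rw [e]
      nlinarith
    have h3 : (PP w : ℝ) ≤ Real.exp (d / 8 * Real.log N) := by
      calc (PP w : ℝ) ≤ 4 ^ w := h1
        _ ≤ (Real.exp 2) ^ w := pow_le_pow_left₀ (by norm_num) h2 w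
        _ = Real.exp (w * 2) := by rw [← Real.exp_nat_mul]
        _ ≤ Real.exp (d / 8 * Real.log N) := by
            refine Real.exp_le_exp.2 ?_
            have : u * Real.log N ≤ d / 16 * Real.log N := mul_le_mul_of_nonneg_right hu4 hL0.le
            linarith
    calc (PP w : ℝ) ^ 2 ≤ (Real.exp (d / 8 * Real.log N)) ^ 2 := pow_le_pow_left₀ hP0.le h3 2
      _ = (N : ℝ) ^ (d / 4) := by
          rw [← Real.exp_nat_mul, Real.rpow_def_of_pos hN0]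
          congr 1
          push_cast
          ring
  have m7 : 1 ≤ u * η * (N : ℝ) ^ (d / 4) := by
    rw [div_le_iff₀ (by positivity)] at hconst
    linarith
  have hd4 : 0 < (N : ℝ) ^ (d / 4) := Real.rpow_pos_of_pos hN0 _
  have h1 : Real.exp (yy N * (2 * Cs)) * (2 * Cs) ^ r * (PP w : ℝ) ^ 2 ≤
      (N : ℝ) ^ (d / 4) * (N : ℝ) ^ (d / 4) :=
    mul_le_mul m5 m6 (by positivity) hd4.le
  have h2 : (N : ℝ) ^ d = (N : ℝ) ^ (d / 4) * (N : ℝ) ^ (d / 4) * (N : ℝ) ^ (d / 4) *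
      (N : ℝ) ^ (d / 4) := by
    rw [← Real.rpow_add hN0, ← Real.rpow_add hN0, ← Real.rpow_add hN0]
    congr 1
    ring
  have h3 : 1 ≤ (N : ℝ) ^ (d / 4) := Real.one_le_rpow hN1 (by positivity)
  rw [h2]
  calc Real.exp (yy N * (2 * Cs)) * (2 * Cs) ^ r * (PP w : ℝ) ^ 2 ≤
        (N : ℝ) ^ (d / 4) * (N : ℝ) ^ (d / 4) * (1 * 1) := by linarith
    _ ≤ (N : ℝ) ^ (d / 4) * (N : ℝ) ^ (d / 4) *
        ((u * η * (N : ℝ) ^ (d / 4)) * (N : ℝ) ^ (d / 4)) :=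
        mul_le_mul_of_nonneg_left (mul_le_mul m7 h3 zero_le_one (by linarith)) (by positivity)
    _ = _ := by ring

/-- The total over the bad pairs against the threshold. -/
lemma bad_num {N w r : ℕ} {d u η Cs E3 : ℝ} (hN0 : (0 : ℝ) < N) (hη : 0 < η)
    (m8 : E3 * (2 * Cs) ^ r * (PP w : ℝ) ^ 2 ≤ u * η * (N : ℝ) ^ d) :
    E3 * ((N : ℝ) ^ ((2 : ℝ) - d) * (2 * Cs * (N * (DZ w)⁻¹)) ^ r) ≤
      η * (((PP w : ℝ) * DZ w) ^ r) *
        (u * (((N : ℝ) / PP w * (DZ w)⁻¹ ^ 2) ^ r * ((N : ℝ) / PP w) ^ 2)) := by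
  have hP0 : (0 : ℝ) < PP w := by exact_mod_cast Cls0.PP_pos w
  have hκ0 : 0 < (DZ w)⁻¹ := inv_pos.2 (DZ_pos w)
  have h1 : ((PP w : ℝ) * DZ w) ^ r * ((N : ℝ) / PP w * (DZ w)⁻¹ ^ 2) ^ r = (N * (DZ w)⁻¹) ^ r := by
    rw [← mul_pow]
    congr 1
    have := (DZ_pos w).ne'
    field_simp
  have h2 : (N : ℝ) ^ ((2 : ℝ) - d) * (N : ℝ) ^ d = (N : ℝ) ^ 2 := by
    rw [← Real.rpow_add hN0, sub_add_cancel]
    norm_cast
  have h3 : 0 < (N : ℝ) ^ ((2 : ℝ) - d) := Real.rpow_pos_of_pos hN0 _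
  have h4 : E3 * (2 * Cs) ^ r * (N : ℝ) ^ ((2 : ℝ) - d) ≤ u * η * ((N : ℝ) / PP w) ^ 2 := by
    have h5 := mul_le_mul_of_nonneg_right m8 h3.le
    have e9 : u * η * (N : ℝ) ^ d * (N : ℝ) ^ ((2 : ℝ) - d) = u * η * (N : ℝ) ^ 2 := by
      rw [← h2]
      ring
    rw [e9] at h5
    rw [div_pow, mul_div_assoc', le_div_iff₀ (by positivity)]
    calc E3 * (2 * Cs) ^ r * (N : ℝ) ^ ((2 : ℝ) - d) * (PP w : ℝ) ^ 2 =
          E3 * (2 * Cs) ^ r * (PP w : ℝ) ^ 2 * (N : ℝ) ^ ((2 : ℝ) - d) := by ring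
      _ ≤ u * η * (N : ℝ) ^ 2 := h5
  have h6 : 0 ≤ ((N : ℝ) * (DZ w)⁻¹) ^ r := by positivity
  calc E3 * ((N : ℝ) ^ ((2 : ℝ) - d) * (2 * Cs * (N * (DZ w)⁻¹)) ^ r) =
        E3 * (2 * Cs) ^ r * (N : ℝ) ^ ((2 : ℝ) - d) * (N * (DZ w)⁻¹) ^ r := by
        rw [mul_pow (2 * Cs) (N * (DZ w)⁻¹) r]
        ring
    _ ≤ u * η * ((N : ℝ) / PP w) ^ 2 * (N * (DZ w)⁻¹) ^ r := mul_le_mul_of_nonneg_right h4 h6
    _ = _ := by
        rw [← h1]
        ring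

lemma inj_card (N w : ℕ) (B : Finset (Fin 2 → ℕ)) :
    (((CP N N w).filter fun x => (![x.1, x.2] : Fin 2 → ℕ) ∈ B).card : ℝ) ≤ B.card := by
  have : ((CP N N w).filter fun x => (![x.1, x.2] : Fin 2 → ℕ) ∈ B).card ≤ B.card := by
    refine card_le_card_of_injOn (fun x : ℕ × ℕ => (![x.1, x.2] : Fin 2 → ℕ))
      (fun x hx => (mem_filter.1 (mem_coe.1 hx)).2) ?_
    intro a _ b _ hab
    have h0 := congrFun hab 0
    have h1 := congrFun hab 1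
    simp at h0 h1
    exact Prod.ext h0 h1
  exact_mod_cast this

/-- The bad pairs on average over all classes. -/
lemma bad_total {N w r : ℕ} {d Cs E3 : ℝ} {Bd3 : Finset (Fin 2 → ℕ)} (hE3 : 0 ≤ E3)
    (hw : 1 ≤ w) (hL1 : 1 < Real.log N)
    (hCs0 : 0 ≤ Cs) (l3 : Real.log N ≤ (w : ℝ) ^ 2)
    (hBd3 : (Bd3.card : ℝ) ≤ (N : ℝ) ^ ((2 : ℝ) - d))
    (hsel : ∀ n ∈ Icc 1 (2 * N), ∀ n' ∈ Icc 1 (2 * N),
      n ≠ n' → ∑ h ∈ Icc 1 N, lp (n + h) * lp (n' + h) ≤ Cs * (N * Real.log (Real.log N))) :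
    ∑ a ∈ Fintype.piFinset (fun _ : Fin r => range (PP w)), E3 * ∑ x ∈ CP N N w,
      (if (![x.1, x.2] : Fin 2 → ℕ) ∈ Bd3 then ∏ i, CC lp N w (a i) x.1 x.2 else 0) ≤
        E3 * ((N : ℝ) ^ ((2 : ℝ) - d) * (2 * Cs * (N * (DZ w)⁻¹)) ^ r) := by
  have hN0 : (0 : ℝ) ≤ N := Nat.cast_nonneg N
  have hκ0 : 0 < (DZ w)⁻¹ := inv_pos.2 (DZ_pos w)
  rw [← mul_sum]
  refine mul_le_mul_of_nonneg_left ?_ hE3
  rw [sum_comm]
  have hwr : (1 : ℝ) ≤ w := by exact_mod_cast hw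
  have h10 : Real.log (Real.log N) ≤ 2 * (DZ w)⁻¹ := by
    have h6 : DZ w ≤ 1 / Real.log (w + 1) := Pool.Agent.Lib.Sieve4.prod_one_sub_inv_le w hw
    have h8 : 0 < Real.log ((w : ℝ) + 1) := Real.log_pos (by linarith)
    have h9 : Real.log ((w : ℝ) + 1) ≤ (DZ w)⁻¹ := by
      rw [le_inv_comm₀ h8 (DZ_pos w), ← one_div]
      exact h6
    have hκw := (Real.log_le_log (by linarith : (0 : ℝ) < w) (by linarith : (w : ℝ) ≤ w + 1)).trans h9
    have := Real.log_le_log (by linarith) l3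
    rw [Real.log_pow, Nat.cast_ofNat] at this
    linarith
  have m3 : ∀ x ∈ CP N N w, ∑ a ∈ Fintype.piFinset (fun _ : Fin r => range (PP w)),
      (if (![x.1, x.2] : Fin 2 → ℕ) ∈ Bd3 then ∏ i, CC lp N w (a i) x.1 x.2 else 0) ≤
      if (![x.1, x.2] : Fin 2 → ℕ) ∈ Bd3 then (2 * Cs * (N * (DZ w)⁻¹)) ^ r else 0 := by
    intro x hx
    split_ifs
    · obtain ⟨_, h1, h2, h3, _⟩ := pair_TK hx
      rw [mem_Ioc] at h1 h2
      rw [all_classes]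
      refine pow_le_pow_left₀ (sum_nonneg fun _ _ => mul_nonneg (HLT.lp_nonneg _)
        (HLT.lp_nonneg _)) ?_ r
      refine (hsel x.1 (mem_Icc.2 ⟨by omega, h1.2⟩) x.2 (mem_Icc.2 ⟨by omega, h2.2⟩) h3).trans ?_
      calc Cs * (N * Real.log (Real.log N)) ≤ Cs * (N * (2 * (DZ w)⁻¹)) :=
            mul_le_mul_of_nonneg_left (mul_le_mul_of_nonneg_left h10 hN0) hCs0
        _ = 2 * Cs * (N * (DZ w)⁻¹) := by ring
    · rw [sum_const_zero]
  refine (sum_le_sum m3).trans ?_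
  rw [← sum_filter, sum_const, nsmul_eq_mul]
  refine mul_le_mul_of_nonneg_right ?_ (pow_nonneg (by positivity) r)
  exact (inj_card N w Bd3).trans hBd3

open scoped Classical in
/-- The good pairs. -/
lemma S1_le {N w r R1 : ℕ} {a : Fin r → ℕ} {F1 u : ℝ} (hF10 : 0 ≤ F1) (hu0 : 0 < u)
    (hN0 : (0 : ℝ) < N) (hPN : (PP w : ℝ) / N ≤ u / 2)
    (hrow : ∀ n ∈ Ioc N (N + N),
      ∑ n' ∈ ((Ioc N (N + N)).erase n).filter (fun n' => n' % PP w = n % PP w),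
        ss w (Nat.dist n n') ^ R1 ≤ (N : ℝ) / PP w * (1 + u)) :
    ∑ x ∈ CP N N w, (if Good w a x.1 then F1 * ss w (Nat.dist x.1 x.2) ^ R1 else 0) ≤
      F1 * (nA w a * ((N : ℝ) / PP w) ^ 2 * ((1 + u) * (1 + u / 2))) := by
  have hP0 : (0 : ℝ) < PP w := by exact_mod_cast Cls0.PP_pos w
  have e9 : ∑ x ∈ CP N N w, (if Good w a x.1 then F1 * ss w (Nat.dist x.1 x.2) ^ R1 else 0) =
      F1 * ∑ x ∈ CP N N w, (if Good w a x.1 then ss w (Nat.dist x.1 x.2) ^ R1 else 0) := by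
    rw [mul_sum]
    refine sum_congr rfl fun x _ => ?_
    split_ifs <;> simp
  rw [e9]
  refine mul_le_mul_of_nonneg_left ?_ hF10
  rw [sum_CP_good N N w a fun n n' => ss w (Nat.dist n n') ^ R1]
  have h1 : ∀ n ∈ (Ioc N (N + N)).filter (Good w a),
      ∑ n' ∈ ((Ioc N (N + N)).erase n).filter (fun n' => n' % PP w = n % PP w),
        ss w (Nat.dist n n') ^ R1 ≤ (N : ℝ) / PP w * (1 + u) := fun n hn =>
    hrow n (mem_filter.1 hn).1
  refine (sum_le_sum h1).trans ?_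
  rw [sum_const, nsmul_eq_mul]
  have h2 := Cls0.card_good w a N N
  have hQ0 : 0 < (N : ℝ) / PP w := div_pos hN0 hP0
  have h3 : (N : ℝ) / PP w + 1 ≤ (N : ℝ) / PP w * (1 + u / 2) := by
    have h4 : (N : ℝ) / PP w * (PP w / N) = 1 := by field_simp
    have h5 := mul_le_mul_of_nonneg_left hPN hQ0.le
    rw [h4] at h5
    linarith
  have h7 : (0 : ℝ) ≤ nA w a := Nat.cast_nonneg _
  calc ((((Ioc N (N + N)).filter (Good w a)).card : ℕ) : ℝ) * ((N : ℝ) / PP w * (1 + u)) ≤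
        (nA w a * ((N : ℝ) / PP w * (1 + u / 2))) * ((N : ℝ) / PP w * (1 + u)) := by
        refine mul_le_mul_of_nonneg_right (h2.trans ?_) (by positivity)
        exact mul_le_mul_of_nonneg_left h3 h7
    _ = nA w a * ((N : ℝ) / PP w) ^ 2 * ((1 + u) * (1 + u / 2)) := by ring

/-- Cauchy-Schwarz on the first bad set. -/
lemma CS_le {N w R1 : ℕ} {u : ℝ} (hu0 : 0 < u) (hu1 : u ≤ 1) (Bd1 : Finset (Fin 2 → ℕ))
    (hrow : ∀ n ∈ Ioc N (N + N),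
      ∑ n' ∈ ((Ioc N (N + N)).erase n).filter (fun n' => n' % PP w = n % PP w),
        ss w (Nat.dist n n') ^ (2 * R1) ≤ (N : ℝ) / PP w * (1 + u)) :
    ∑ x ∈ (CP N N w).filter (fun x => (![x.1, x.2] : Fin 2 → ℕ) ∈ Bd1),
      ss w (Nat.dist x.1 x.2) ^ R1 ≤ Real.sqrt Bd1.card * (2 * N) := by
  have hP1 : (1 : ℝ) ≤ PP w := by exact_mod_cast Cls0.PP_pos w
  have hN0 : (0 : ℝ) ≤ N := Nat.cast_nonneg N
  have hS2all : ∑ x ∈ CP N N w, ss w (Nat.dist x.1 x.2) ^ (2 * R1) ≤ 2 * (N : ℝ) ^ 2 := by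
    rw [sum_CP N N w fun n n' => ss w (Nat.dist n n') ^ (2 * R1)]
    refine (sum_le_sum hrow).trans ?_
    rw [sum_const, nsmul_eq_mul, Nat.card_Ioc]
    have e9 : N + N - N = N := by omega
    rw [e9]
    have h2 : (N : ℝ) / PP w ≤ N := div_le_self hN0 hP1
    calc (N : ℝ) * ((N : ℝ) / PP w * (1 + u)) ≤ N * (N * 2) := by
          refine mul_le_mul_of_nonneg_left ?_ hN0
          exact mul_le_mul h2 (by linarith) (by linarith) hN0
      _ = 2 * (N : ℝ) ^ 2 := by ring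
  have h1 := sum_mul_sq_le_sq_mul_sq ((CP N N w).filter fun x => (![x.1, x.2] : Fin 2 → ℕ) ∈ Bd1)
    (fun _ => (1 : ℝ)) (fun x => ss w (Nat.dist x.1 x.2) ^ R1)
  simp only [one_mul, one_pow, sum_const, nsmul_eq_mul, mul_one] at h1
  have h2 : ∑ x ∈ (CP N N w).filter (fun x => (![x.1, x.2] : Fin 2 → ℕ) ∈ Bd1),
      (ss w (Nat.dist x.1 x.2) ^ R1) ^ 2 ≤ (2 * (N : ℝ)) ^ 2 := by
    have h3 : ∑ x ∈ (CP N N w).filter (fun x => (![x.1, x.2] : Fin 2 → ℕ) ∈ Bd1),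
        (ss w (Nat.dist x.1 x.2) ^ R1) ^ 2 ≤ ∑ x ∈ CP N N w, ss w (Nat.dist x.1 x.2) ^ (2 * R1) := by
      refine (sum_le_sum_of_subset_of_nonneg (filter_subset _ _) fun _ _ _ => by positivity).trans ?_
      refine sum_le_sum fun x _ => ?_
      rw [← pow_mul, mul_comm 2 R1]
    refine (h3.trans hS2all).trans ?_
    nlinarith [sq_nonneg (N : ℝ)]
  have h5 : (∑ x ∈ (CP N N w).filter (fun x => (![x.1, x.2] : Fin 2 → ℕ) ∈ Bd1),
      ss w (Nat.dist x.1 x.2) ^ R1) ^ 2 ≤ (Bd1.card : ℝ) * (2 * (N : ℝ)) ^ 2 := by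
    refine h1.trans ?_
    exact mul_le_mul (inj_card N w Bd1) h2 (sum_nonneg fun _ _ => by positivity) (Nat.cast_nonneg _)
  have h6 := Real.le_sqrt_of_sq_le h5
  rw [Real.sqrt_mul (Nat.cast_nonneg _), Real.sqrt_sq (by linarith)] at h6
  exact h6

lemma PP_sq_le (w : ℕ) : (PP w : ℝ) ^ 2 ≤ 4 ^ (2 * w) := by
  have h1 : (PP w) ^ 2 ≤ 4 ^ (2 * w) := by
    calc (PP w) ^ 2 ≤ (4 ^ w) ^ 2 := Nat.pow_le_pow_left (Cls0.PP_le w) 2
      _ = 4 ^ (2 * w) := by rw [← pow_mul, mul_comm]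
  exact_mod_cast h1

lemma t1_le {u y e1 δ A : ℝ} (hu0 : 0 < u) (hu2 : u ≤ 1 / 8) (hA : 0 ≤ A) (h : y * (e1 + δ) ≤ 2 * u) :
    Real.exp u * Real.exp (y * (e1 + δ)) * (A * ((1 + u) * (1 + u / 2))) ≤ A * (1 + 10 * u) := by
  have h1 : Real.exp u * Real.exp (y * (e1 + δ)) ≤ 1 + 6 * u := by
    rw [← Real.exp_add]
    calc Real.exp (u + y * (e1 + δ)) ≤ Real.exp (3 * u) := Real.exp_le_exp.2 (by linarith)
      _ ≤ 1 + 2 * (3 * u) := exp_le_lin (by positivity) (by linarith)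
      _ = 1 + 6 * u := by ring
  have h2 : (1 + 6 * u) * ((1 + u) * (1 + u / 2)) ≤ 1 + 10 * u := by nlinarith [sq_nonneg u]
  calc Real.exp u * Real.exp (y * (e1 + δ)) * (A * ((1 + u) * (1 + u / 2))) =
        A * (Real.exp u * Real.exp (y * (e1 + δ)) * ((1 + u) * (1 + u / 2))) := by ring
    _ ≤ A * (1 + 10 * u) := by
        refine mul_le_mul_of_nonneg_left ?_ hA
        exact (mul_le_mul_of_nonneg_right h1 (by positivity)).trans h2

lemma t2_le {N w r r1 b : ℕ} {u y e2 δ : ℝ} (hN0 : (0 : ℝ) < N) (hu0 : 0 < u) (hu2 : u ≤ 1 / 8)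
    (he20 : 0 ≤ e2) (he21 : e2 ≤ 1) (hyδ : y * δ ≤ u) (hr1 : y ≤ r1)
    (k3 : (1 + e2) ^ (r + 2 * r1) * Real.sqrt b * 4 ^ (2 * w) ≤ u * N) :
    (1 + e2) ^ r * Real.exp (y * (e2 + δ)) * (Real.sqrt b * (2 * N)) ≤
      4 * u * ((N : ℝ) / PP w) ^ 2 := by
  have hP0 : (0 : ℝ) < PP w := by exact_mod_cast Cls0.PP_pos w
  have hPw2 : 0 < (PP w : ℝ) ^ 2 := pow_pos hP0 2
  have hQN : ((N : ℝ) / PP w) ^ 2 * (PP w : ℝ) ^ 2 = (N : ℝ) ^ 2 := by field_simp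
  have h1 : (1 + e2) ^ r * Real.exp (y * (e2 + δ)) ≤ 2 * (1 + e2) ^ (r + 2 * r1) := by
    rw [mul_add, Real.exp_add, pow_add]
    have h2 : Real.exp (y * e2) ≤ (1 + e2) ^ (2 * r1) := by
      refine exp_le_one_add_pow he20 he21 ?_
      push_cast
      linarith
    have h3 : Real.exp (y * δ) ≤ 2 := by
      calc Real.exp (y * δ) ≤ Real.exp u := Real.exp_le_exp.2 hyδ
        _ ≤ 1 + 2 * u := exp_le_lin hu0.le (by linarith)
        _ ≤ 2 := by linarith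
    have h4 : 0 ≤ (1 + e2) ^ r := pow_nonneg (by linarith) r
    calc (1 + e2) ^ r * (Real.exp (y * e2) * Real.exp (y * δ)) ≤
          (1 + e2) ^ r * ((1 + e2) ^ (2 * r1) * 2) := by
          refine mul_le_mul_of_nonneg_left ?_ h4
          exact mul_le_mul h2 h3 (Real.exp_pos _).le (pow_nonneg (by linarith) _)
      _ = 2 * ((1 + e2) ^ r * (1 + e2) ^ (2 * r1)) := by ring
  have hsq : 0 ≤ Real.sqrt b := Real.sqrt_nonneg _
  refine le_of_mul_le_mul_right (?_ : (1 + e2) ^ r * Real.exp (y * (e2 + δ)) *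
    (Real.sqrt b * (2 * N)) * (PP w : ℝ) ^ 2 ≤ 4 * u * ((N : ℝ) / PP w) ^ 2 * (PP w : ℝ) ^ 2) hPw2
  calc (1 + e2) ^ r * Real.exp (y * (e2 + δ)) * (Real.sqrt b * (2 * N)) * (PP w : ℝ) ^ 2 ≤
        2 * (1 + e2) ^ (r + 2 * r1) * (Real.sqrt b * (2 * N)) * 4 ^ (2 * w) := by
        refine mul_le_mul (mul_le_mul_of_nonneg_right h1 ?_) (PP_sq_le w) hPw2.le ?_
        · exact mul_nonneg hsq (by linarith)
        · exact mul_nonneg (mul_nonneg (by norm_num) (pow_nonneg (by linarith) _))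
            (mul_nonneg hsq (by linarith))
    _ = 4 * N * ((1 + e2) ^ (r + 2 * r1) * Real.sqrt b * 4 ^ (2 * w)) := by ring
    _ ≤ 4 * N * (u * N) := mul_le_mul_of_nonneg_left k3 (by linarith)
    _ = 4 * u * (N : ℝ) ^ 2 := by ring
    _ = 4 * u * ((N : ℝ) / PP w) ^ 2 * (PP w : ℝ) ^ 2 := by rw [← hQN]; ring

lemma t3_le {N w r r1 b : ℕ} {u y K1 B' Cs : ℝ} (hN0 : (0 : ℝ) < N) (hu0 : 0 < u) (hu2 : u ≤ 1 / 8)
    (hK11 : 1 ≤ K1) (hB' : 1 ≤ B') (hCs : 0 ≤ Cs) (hrr1 : r ≤ r1) (hr1 : y ≤ r1)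
    (k4 : B' ^ r * Real.sqrt b * 4 ^ (2 * w) ≤ u * N)
    (k5 : (K1 * Real.exp (2 * Cs)) ^ r1 * Real.sqrt b * 4 ^ (2 * w) ≤ u * N) :
    (K1 * B') ^ r * Real.exp (y * (2 * Cs)) * b ≤ u * ((N : ℝ) / PP w) ^ 2 := by
  have hP0 : (0 : ℝ) < PP w := by exact_mod_cast Cls0.PP_pos w
  have hPw2 : 0 < (PP w : ℝ) ^ 2 := pow_pos hP0 2
  have hQN : ((N : ℝ) / PP w) ^ 2 * (PP w : ℝ) ^ 2 = (N : ℝ) ^ 2 := by field_simp
  have hK10 : 0 < K1 := by linarith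
  have hE30 := Real.exp_pos (y * (2 * Cs))
  have h4w : (1 : ℝ) ≤ 4 ^ (2 * w) := one_le_pow₀ (by norm_num)
  have hsq : 0 ≤ Real.sqrt b := Real.sqrt_nonneg _
  have h1 : K1 ^ r * Real.exp (y * (2 * Cs)) ≤ (K1 * Real.exp (2 * Cs)) ^ r1 := by
    rw [mul_pow K1 (Real.exp (2 * Cs)) r1]
    refine mul_le_mul (pow_le_pow_right₀ hK11 hrr1) ?_ hE30.le (pow_nonneg hK10.le _)
    rw [← Real.exp_nat_mul]
    exact Real.exp_le_exp.2 (mul_le_mul_of_nonneg_right hr1 (by linarith))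
  have h2 : (b : ℝ) = Real.sqrt b * Real.sqrt b := (Real.mul_self_sqrt (Nat.cast_nonneg _)).symm
  have h40 : (0 : ℝ) ≤ 4 ^ (2 * w) := by linarith
  have hB0 : 0 ≤ B' ^ r := pow_nonneg (by linarith) r
  have hA0 : 0 ≤ (K1 * Real.exp (2 * Cs)) ^ r1 :=
    pow_nonneg (mul_nonneg hK10.le (Real.exp_pos _).le) _
  refine le_of_mul_le_mul_right (?_ : (K1 * B') ^ r * Real.exp (y * (2 * Cs)) * b *
    (PP w : ℝ) ^ 2 ≤ u * ((N : ℝ) / PP w) ^ 2 * (PP w : ℝ) ^ 2) hPw2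
  have h5 : (PP w : ℝ) ^ 2 ≤ 4 ^ (2 * w) * 4 ^ (2 * w) := by
    calc (PP w : ℝ) ^ 2 ≤ 4 ^ (2 * w) * 1 := by rw [mul_one]; exact PP_sq_le w
      _ ≤ 4 ^ (2 * w) * 4 ^ (2 * w) := mul_le_mul_of_nonneg_left h4w h40
  have h6 : (K1 * B') ^ r * Real.exp (y * (2 * Cs)) ≤ B' ^ r * (K1 * Real.exp (2 * Cs)) ^ r1 := by
    rw [mul_pow K1 B' r]
    calc K1 ^ r * B' ^ r * Real.exp (y * (2 * Cs)) = B' ^ r * (K1 ^ r * Real.exp (y * (2 * Cs))) := by
          ring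
      _ ≤ B' ^ r * (K1 * Real.exp (2 * Cs)) ^ r1 := mul_le_mul_of_nonneg_left h1 hB0
  calc (K1 * B') ^ r * Real.exp (y * (2 * Cs)) * b * (PP w : ℝ) ^ 2 ≤
        B' ^ r * (K1 * Real.exp (2 * Cs)) ^ r1 * (Real.sqrt b * Real.sqrt b) *
          (4 ^ (2 * w) * 4 ^ (2 * w)) := by
        rw [← h2]
        refine mul_le_mul (mul_le_mul_of_nonneg_right h6 (Nat.cast_nonneg _)) h5 hPw2.le ?_
        exact mul_nonneg (mul_nonneg hB0 hA0) (Nat.cast_nonneg _)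
    _ = (B' ^ r * Real.sqrt b * 4 ^ (2 * w)) *
        ((K1 * Real.exp (2 * Cs)) ^ r1 * Real.sqrt b * 4 ^ (2 * w)) := by ring
    _ ≤ (u * N) * (u * N) := by
        refine mul_le_mul k4 k5 ?_ (by positivity)
        exact mul_nonneg (mul_nonneg hA0 hsq) h40
    _ = u * (u * (N : ℝ) ^ 2) := by ring
    _ ≤ 1 * (u * (N : ℝ) ^ 2) := mul_le_mul_of_nonneg_right (by linarith) (by positivity)
    _ = u * ((N : ℝ) / PP w) ^ 2 * (PP w : ℝ) ^ 2 := by rw [← hQN]; ring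

/-- The size of a class of tuples. -/
lemma Hc_ge' {N w r : ℕ} {u : ℝ} (a : Fin r → ℕ) (hu0 : 0 < u) (hu2 : u ≤ 1 / 8) (hN0 : (0 : ℝ) < N)
    (hPN : (PP w : ℝ) / N ≤ u / 2) (hrP : (r : ℝ) * (PP w / N) ≤ u / 2) :
    ((N : ℝ) / PP w) ^ r ≤ (1 + u) * (Hc N w a).card := by
  have hP0 : (0 : ℝ) < PP w := by exact_mod_cast Cls0.PP_pos w
  have hQ0 : 0 < (N : ℝ) / PP w := div_pos hN0 hP0
  have hQ1 : 1 ≤ (N : ℝ) / PP w := by
    rw [one_le_div hP0]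
    rw [div_le_iff₀ hN0] at hPN
    nlinarith
  have h1 : ((N : ℝ) / PP w - 1) ^ r ≤ (Hc N w a).card := by
    rw [FinAAux.card_Hc]
    calc ((N : ℝ) / PP w - 1) ^ r = ∏ _i : Fin r, ((N : ℝ) / PP w - 1) := by simp
      _ ≤ ∏ i, ((cls N w (a i)).card : ℝ) :=
          prod_le_prod (fun _ _ => by linarith) fun i _ => Cls0.card_cls_ge N w (a i)
  have h2 : ((N : ℝ) / PP w) ^ r * (1 - u / 2) ≤ ((N : ℝ) / PP w - 1) ^ r := by
    have h3 : ((N : ℝ) / PP w - 1) ^ r = ((N : ℝ) / PP w) ^ r * (1 + (-(PP w / N))) ^ r := by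
      rw [← mul_pow]
      congr 1
      field_simp
      ring
    have h4 : 1 + (r : ℝ) * (-(PP w / N)) ≤ (1 + (-(PP w / N))) ^ r := by
      refine one_add_mul_le_pow ?_ r
      linarith
    rw [h3]
    refine mul_le_mul_of_nonneg_left ?_ (pow_nonneg hQ0.le r)
    linarith
  have h6 : 1 ≤ (1 + u) * (1 - u / 2) := by nlinarith
  have h7 : 0 ≤ ((N : ℝ) / PP w) ^ r := pow_nonneg hQ0.le r
  calc ((N : ℝ) / PP w) ^ r = ((N : ℝ) / PP w) ^ r * 1 := (mul_one _).symm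
    _ ≤ ((N : ℝ) / PP w) ^ r * ((1 + u) * (1 - u / 2)) := mul_le_mul_of_nonneg_left h6 h7
    _ = (1 + u) * (((N : ℝ) / PP w) ^ r * (1 - u / 2)) := by ring
    _ ≤ (1 + u) * (Hc N w a).card := mul_le_mul_of_nonneg_left (h2.trans h1) (by linarith)

end JPairAux

end Pool.Agent.Lib.LEN
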