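import Pool.Agent.Lib.LEN.Levels
import Pool.Agent.Lib.LEN.LevS

/-!
# LEN.LevKA: everything analytic for all `k ≤ k0`, with the statement of `kMain` as a hypothesis
-/

set_option autoImplicit false

open Finset Filter

namespace Pool.Agent.Lib.LEN

open Pool.Agent.HLB Pool.Agent.HLT Pool.Agent.HLR Pool.Agent.Lib.GMV

namespace LevKAux

open GoodXAux LevelsAux

/-- The conclusion of `kMain` with given constants. -/
def KM (k : ℕ) (B c C : ℝ) (X0 : ℕ) : Prop :=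
    ∀ N Q w : ℕ, X0 ≤ N → X0 ≤ w → Rg c (2 * N) Q → 4 ^ (40 * w) ≤ Q → ∀ b : CI → ℝ,
    (∀ x ∈ Ch Q, ∀ n, ‖Mc (2 * N) Q x n‖ ≤ b x) → ∑ x ∈ Ch Q, b x ≤ B → ∀ E : ℝ,
    ∑ x ∈ Ch Q \ {one}, b x ≤ E →
    (∀ n : ℕ, 3 * (2 * N) ≤ n * Q → n * Q + 2 * N ≤ 2 * (2 * N) * Q →
      ‖Mc (2 * N) Q one n - 1‖ ≤ E) →
    ∃ Bd : Finset (Fin k → ℕ), (Bd.card : ℝ) ≤ (N : ℝ) ^ k * (Q : ℝ) ^ (-(1 / 4 : ℝ)) ∧
    ∀ c', ∀ n ∈ TK N k, n ∉ Bd → (∀ j, Nat.Coprime (n j + c') (PP w)) →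
      CK lp N w c' n ≤ Tm N w k * (sk w n * (1 + (C * E + (Q : ℝ) ^ (-(1 / 20 : ℝ))))) ∧
      Tm N w k * (1 - (C * E + C / (w * Real.log w) + (Q : ℝ) ^ (-(1 / 20 : ℝ)))) ≤
        CK lp N w c' n

/-- The statement of `kMain`. -/
def KMainS : Prop := ∀ k : ℕ, 1 ≤ k → ∀ B : ℝ, ∃ c C : ℝ, 0 < c ∧ 0 < C ∧ ∃ X0 : ℕ, KM k B c C X0

lemma Tm_nonneg (N w k : ℕ) : 0 ≤ Tm N w k := by
  unfold Tm
  have := DZ_pos w
  positivity

lemma sk_nonneg (w : ℕ) {k : ℕ} (n : Fin k → ℕ) : 0 ≤ sk w n := by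
  unfold sk
  exact Finset.prod_nonneg fun i _ => Finset.prod_nonneg fun j _ => ss_nonneg w _

lemma wlog_nonneg (w : ℕ) : 0 ≤ (w : ℝ) * Real.log w :=
  mul_nonneg (Nat.cast_nonneg w) (Real.log_natCast_nonneg w)

lemma KM_mono {k : ℕ} {B c C c' C' : ℝ} {X0 X0' : ℕ} (hc : c' ≤ c) (hC : C ≤ C')
    (hX : X0 ≤ X0') (h1 : 1 ≤ X0') (h : KM k B c C X0) : KM k B c' C' X0' := by
  classical
  intro N Q w hN hw hR h4 b hb1 hb2 E hE1 hE2
  have hN1 : 1 ≤ 2 * N := by omega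
  obtain ⟨Bd, hBd, H⟩ := h N Q w (hX.trans hN) (hX.trans hw) (FreeYAux.Rg_mono hc hN1 hR) h4 b
    hb1 hb2 E hE1 hE2
  have hE0 : 0 ≤ E := by
    refine le_trans (Finset.sum_nonneg fun x hx => ?_) hE1
    exact (norm_nonneg _).trans (hb1 x (Finset.mem_sdiff.1 hx).1 0)
  have g1 : C * E ≤ C' * E := mul_le_mul_of_nonneg_right hC hE0
  have g2 : C / (w * Real.log w) ≤ C' / (w * Real.log w) :=
    div_le_div_of_nonneg_right hC (wlog_nonneg w)
  refine ⟨Bd, hBd, fun c0 n hn hnB hco => ?_⟩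
  obtain ⟨h5, h6⟩ := H c0 n hn hnB hco
  constructor
  · refine h5.trans (mul_le_mul_of_nonneg_left (mul_le_mul_of_nonneg_left ?_ (sk_nonneg w n))
      (Tm_nonneg N w k))
    linarith
  · refine le_trans (mul_le_mul_of_nonneg_left ?_ (Tm_nonneg N w k)) h6
    linarith

/-- Uniformity in `k ≤ k0`. -/
lemma kU (hM : KMainS) (B : ℝ) (k0 : ℕ) : ∃ c C : ℝ, 0 < c ∧ 0 < C ∧ ∃ X0 : ℕ,
    ∀ k, 1 ≤ k → k ≤ k0 → KM k B c C X0 := by
  induction k0 with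
  | zero => exact ⟨1, 1, one_pos, one_pos, 0, fun k h1 h2 => by omega⟩
  | succ m ih =>
    obtain ⟨c, C, hc, hC, X0, h⟩ := ih
    obtain ⟨c', C', hc', hC', X0', h'⟩ := hM (m + 1) (by omega) B
    refine ⟨min c c', max C C', lt_min hc hc', lt_max_of_lt_left hC, max 1 (max X0 X0'),
      fun k h1 h2 => ?_⟩
    rcases Nat.lt_or_ge k (m + 1) with h3 | h3
    · exact KM_mono (min_le_left _ _) (le_max_left _ _)
        ((le_max_left _ _).trans (le_max_right _ _)) (le_max_left _ _) (h k h1 (by omega))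
    · have h4 : k = m + 1 := by omega
      subst h4
      exact KM_mono (min_le_right _ _) (le_max_right _ _)
        ((le_max_right _ _).trans (le_max_right _ _)) (le_max_left _ _) h'

/-- Two-sided bound at a level. -/
def K2 (N Q w k : ℕ) (e : ℝ) : Prop :=
  ∃ Bd : Finset (Fin k → ℕ), (Bd.card : ℝ) ≤ (N : ℝ) ^ k * (Q : ℝ) ^ (-(1 / 4 : ℝ)) ∧
    ∀ c', ∀ n ∈ TK N k, n ∉ Bd → (∀ j, Nat.Coprime (n j + c') (PP w)) →
      Tm N w k * (1 - e) ≤ CK lp N w c' n ∧ CK lp N w c' n ≤ Tm N w k * (sk w n * (1 + e))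

/-- Upper bound at a level. -/
def K1 (N Q w k : ℕ) (e : ℝ) : Prop :=
  ∃ Bd : Finset (Fin k → ℕ), (Bd.card : ℝ) ≤ (N : ℝ) ^ k * (Q : ℝ) ^ (-(1 / 4 : ℝ)) ∧
    ∀ c', ∀ n ∈ TK N k, n ∉ Bd → (∀ j, Nat.Coprime (n j + c') (PP w)) →
      CK lp N w c' n ≤ Tm N w k * (sk w n * (1 + e))

/-- The error at a level. -/
noncomputable def er (K a : ℝ) (N Q w : ℕ) : ℝ :=
  K * Er a (2 * N) Q + K / (w * Real.log w) + (Q : ℝ) ^ (-(1 / 20 : ℝ))

/-- One level. -/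
theorem levK (hM : KMainS) (c1 c : ℝ) (hZ : ZFree c1) (hc : 0 < c) (hcc : c < c1) :
    ∃ a : ℝ, 0 < a ∧ ∀ k0 : ℕ, ∃ K c2 : ℝ, 0 < K ∧ 0 < c2 ∧ ∃ X0 : ℕ,
    ∀ N Q w : ℕ, X0 ≤ N → X0 ≤ w → Rg c2 (2 * N) Q → 4 ^ (40 * w) ≤ Q →
    ∀ k : ℕ, 1 ≤ k → k ≤ k0 →
    K1 N Q w k K ∧ ((∀ x β, ¬ IsExc c Q x β) → K2 N Q w k (er K a N Q w)) := by
  classical
  obtain ⟨a, B, cs, ha, hB, hcs, X1, hS⟩ := sumB c1 c hZ hc hcc
  refine ⟨a, ha, fun k0 => ?_⟩
  obtain ⟨cp, C, hcp, hC, X2, hU⟩ := kU hM B k0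
  refine ⟨C * B + C + 1, min cs cp, by positivity, lt_min hcs hcp, max 1 (max X1 X2), ?_⟩
  intro N Q w hN hw hR h4 k hk1 hk
  have hN1 : 1 ≤ N := (le_max_left _ _).trans hN
  have hNX1 : X1 ≤ N := ((le_max_left _ _).trans (le_max_right _ _)).trans hN
  have hNX2 : X2 ≤ N := ((le_max_right _ _).trans (le_max_right _ _)).trans hN
  have hwX2 : X2 ≤ w := ((le_max_right _ _).trans (le_max_right _ _)).trans hw
  have h2N : 1 ≤ 2 * N := by omega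
  have hRs : Rg cs (2 * N) Q := FreeYAux.Rg_mono (min_le_left _ _) h2N hR
  have hRp : Rg cp (2 * N) Q := FreeYAux.Rg_mono (min_le_right _ _) h2N hR
  obtain ⟨b, M, q, hb1, hb2, hK, hE, hb3, hb4⟩ := hS (2 * N) Q (by omega) hRs
  have hQ1 : 1 ≤ Q := le_trans (Nat.one_le_pow _ _ (by norm_num)) h4
  have hQr : (1 : ℝ) ≤ Q := by exact_mod_cast hQ1
  have hq20 : (Q : ℝ) ^ (-(1 / 20 : ℝ)) ≤ 1 :=
    Real.rpow_le_one_of_one_le_of_nonpos hQr (by norm_num)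
  have hEr0 : 0 < Er a (2 * N) Q := Real.exp_pos _
  have hEr1 : Er a (2 * N) Q ≤ 1 := by
    unfold Er
    rw [Real.exp_le_one_iff, neg_nonpos]
    have h1 : 0 ≤ Real.log ((2 * N : ℕ) : ℝ) := Real.log_natCast_nonneg _
    have h2 : 0 ≤ Real.log Q := Real.log_natCast_nonneg _
    positivity
  have hb0 : ∀ x ∈ Ch Q, 0 ≤ b x := fun x hx => (norm_nonneg _).trans (hb1 x hx 0)
  have hwl := wlog_nonneg w
  constructor
  · -- always
    have h1 : ∑ x ∈ Ch Q \ {one}, b x ≤ B :=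
      (Finset.sum_le_sum_of_subset_of_nonneg Finset.sdiff_subset
        (fun x hx _ => hb0 x hx)).trans hb2
    obtain ⟨Bd, hBd, H⟩ := hU k hk1 hk N Q w hNX2 hwX2 hRp h4 b hb1 hb2 B h1
      (fun n g1 g2 => (hb4 n g1 g2).trans (by
        have := mul_le_mul_of_nonneg_left hEr1 hB.le
        linarith))
    refine ⟨Bd, hBd, fun c' n hn hnB hco => (H c' n hn hnB hco).1.trans ?_⟩
    refine mul_le_mul_of_nonneg_left (mul_le_mul_of_nonneg_left ?_ (sk_nonneg w n))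
      (Tm_nonneg N w k)
    linarith
  · intro hno
    have hq0 : q = 0 := by
      rcases hE with h | ⟨xe, β, h, -⟩
      · exact h.1
      · exact absurd h (hno xe β)
    have hMo : M = {one} := by
      rcases hK with h | ⟨xe, -, -, -, -, h⟩
      · exact h.1
      · rw [hq0] at h
        unfold md at h
        omega
    subst hMo
    obtain ⟨Bd, hBd, H⟩ := hU k hk1 hk N Q w hNX2 hwX2 hRp h4 b hb1 hb2 _ hb3 hb4
    have e1 : (C * B + C + 1) * Er a (2 * N) Q = C * (B * Er a (2 * N) Q) +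
        (C + 1) * Er a (2 * N) Q := by ring
    have e2 : (C * B + C + 1) / (w * Real.log w) = C / (w * Real.log w) +
        (C * B + 1) / (w * Real.log w) := by
      rw [← add_div]
      congr 1
      ring
    have g1 : 0 ≤ (C + 1) * Er a (2 * N) Q := by positivity
    have g2 : 0 ≤ (C * B + 1) / (w * Real.log w) := div_nonneg (by positivity) hwl
    have g3 : 0 ≤ C / (w * Real.log w) := div_nonneg hC.le hwl
    refine ⟨Bd, hBd, fun c' n hn hnB hco => ?_⟩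
    obtain ⟨h5, h6⟩ := H c' n hn hnB hco
    unfold er
    rw [e1, e2]
    constructor
    · refine le_trans (mul_le_mul_of_nonneg_left ?_ (Tm_nonneg N w k)) h6
      linarith
    · refine h5.trans (mul_le_mul_of_nonneg_left (mul_le_mul_of_nonneg_left ?_ (sk_nonneg w n))
        (Tm_nonneg N w k))
      linarith

/-- The square root of the number of the bad tuples. -/
lemma sqrt_cardK {m N Q k : ℕ} (h : (m : ℝ) ≤ (N : ℝ) ^ k * (Q : ℝ) ^ (-(1 / 4 : ℝ))) :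
    Real.sqrt m ≤ Real.sqrt ((N : ℝ) ^ k) * (Q : ℝ) ^ (-(1 / 8 : ℝ)) := by
  have hQ : (0 : ℝ) ≤ (Q : ℝ) := Nat.cast_nonneg Q
  have h1 : Real.sqrt ((Q : ℝ) ^ (-(1 / 4 : ℝ))) = (Q : ℝ) ^ (-(1 / 8 : ℝ)) := by
    rw [Real.sqrt_eq_rpow, ← Real.rpow_mul hQ]
    norm_num
  rw [← h1, ← Real.sqrt_mul (by positivity)]
  exact Real.sqrt_le_sqrt h

/-- The four bounds for the bad sets. -/
lemma four {K A B' AB C1 C2 y u e2 : ℝ} {N k w r Q1 Q2 m1 m2 : ℕ}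
    (hQ18 : (Q1 : ℝ) ^ (-(1 / 8 : ℝ)) ≤ Real.exp (-(1 / 8 * (C1 * y - 1))))
    (hQ14 : (Q1 : ℝ) ^ (-(1 / 4 : ℝ)) ≤ Real.exp (-(1 / 4 * (C1 * y - 1))))
    (hQ28 : (Q2 : ℝ) ^ (-(1 / 8 : ℝ)) ≤ Real.exp (-(1 / 8 * (C2 * y - 1))))
    (h4wk : (4 : ℝ) ^ (k * w) ≤ Real.exp (7 / 5 * (C1 / 1000 * y)))
    (hBd1 : (m1 : ℝ) ≤ (N : ℝ) ^ k * (Q1 : ℝ) ^ (-(1 / 4 : ℝ)))
    (hBd2 : (m2 : ℝ) ≤ (N : ℝ) ^ k * (Q2 : ℝ) ^ (-(1 / 4 : ℝ)))
    (hS3 : Real.exp (1 / 4 - C1 / 5 * y) ≤ u) (hS4 : Real.exp (1 / 8 - C1 / 10 * y) ≤ u)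
    (hS5 : Real.exp (1 / 8 - 4 * y) ≤ u) (hK : 1 ≤ K) (hyp : 0 < y) (hC1p : 0 < C1)
    (hC20 : C1 + 64 * K * (1 + Real.log AB) ≤ C2) (hAB1 : 1 ≤ AB) (hABA : A ≤ AB)
    (hABB : B' ≤ AB) (hA : 0 ≤ A) (hB1 : 0 ≤ B') (he20 : 0 ≤ e2) (he2 : e2 ≤ C1 / (200 * K))
    (hr : (r : ℝ) ≤ K * y) :
    (m1 : ℝ) * 4 ^ (k * w) ≤ u * (N : ℝ) ^ k ∧
    (1 + e2) ^ r * Real.sqrt m1 * 4 ^ (k * w) ≤ u * Real.sqrt ((N : ℝ) ^ k) ∧
    B' ^ r * Real.sqrt m2 * 4 ^ (k * w) ≤ u * Real.sqrt ((N : ℝ) ^ k) ∧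
    A ^ r * Real.sqrt m2 * 4 ^ (k * w) ≤ u * Real.sqrt ((N : ℝ) ^ k) := by
  have hKp : 0 < K := by linarith
  have hlB : 0 ≤ Real.log AB := Real.log_nonneg hAB1
  have hNk : (0 : ℝ) ≤ (N : ℝ) ^ k := by positivity
  have hNs0 : (0 : ℝ) ≤ Real.sqrt ((N : ℝ) ^ k) := Real.sqrt_nonneg _
  have key : AB ^ r * Real.sqrt m2 * 4 ^ (k * w) ≤ u * Real.sqrt ((N : ℝ) ^ k) := by
    have h1 : AB ^ r ≤ Real.exp (K * y * Real.log AB) := by
      calc AB ^ r = Real.exp (r * Real.log AB) := by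
            rw [Real.exp_nat_mul, Real.exp_log (by linarith)]
        _ ≤ _ := Real.exp_le_exp.2 (mul_le_mul_of_nonneg_right hr hlB)
    have h2 : Real.sqrt m2 ≤
        Real.sqrt ((N : ℝ) ^ k) * Real.exp (-(1 / 8 * (C2 * y - 1))) :=
      (sqrt_cardK hBd2).trans (mul_le_mul_of_nonneg_left hQ28 hNs0)
    calc AB ^ r * Real.sqrt m2 * 4 ^ (k * w)
        ≤ Real.exp (K * y * Real.log AB) *
          (Real.sqrt ((N : ℝ) ^ k) * Real.exp (-(1 / 8 * (C2 * y - 1)))) *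
          Real.exp (7 / 5 * (C1 / 1000 * y)) := by
          refine mul_le_mul (mul_le_mul h1 h2 (Real.sqrt_nonneg _) (by positivity)) h4wk
            (by positivity) (by positivity)
      _ = Real.sqrt ((N : ℝ) ^ k) *
          Real.exp (K * y * Real.log AB + -(1 / 8 * (C2 * y - 1)) +
            7 / 5 * (C1 / 1000 * y)) := by
          rw [Real.exp_add, Real.exp_add]
          ring
      _ ≤ Real.sqrt ((N : ℝ) ^ k) * Real.exp (1 / 8 - 4 * y) := by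
          refine mul_le_mul_of_nonneg_left (Real.exp_le_exp.2 ?_) hNs0
          have h5 : 0 ≤ K * y * Real.log AB := by positivity
          have h6 : 0 ≤ C1 * y := by positivity
          have h7 := mul_le_mul_of_nonneg_right hC20 hyp.le
          have h8 : (C1 + 64 * K * (1 + Real.log AB)) * y = C1 * y + 64 * (K * y) +
            64 * (K * y * Real.log AB) := by ring
          have h9 : y ≤ K * y := by nlinarith
          rw [h8] at h7
          linarith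
      _ ≤ Real.sqrt ((N : ℝ) ^ k) * u := mul_le_mul_of_nonneg_left hS5 hNs0
      _ = u * Real.sqrt ((N : ℝ) ^ k) := by ring
  have hmono : ∀ D : ℝ, 0 ≤ D → D ≤ AB →
      D ^ r * Real.sqrt m2 * 4 ^ (k * w) ≤ u * Real.sqrt ((N : ℝ) ^ k) := by
    intro D hD0 hD1
    refine le_trans ?_ key
    have := pow_le_pow_left₀ hD0 hD1 r
    gcongr
  refine ⟨?_, ?_, hmono B' hB1 hABB, hmono A hA hABA⟩
  · calc (m1 : ℝ) * 4 ^ (k * w)
        ≤ ((N : ℝ) ^ k * Real.exp (-(1 / 4 * (C1 * y - 1)))) *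
          Real.exp (7 / 5 * (C1 / 1000 * y)) := by
          refine mul_le_mul (hBd1.trans (mul_le_mul_of_nonneg_left hQ14 hNk)) h4wk
            (by positivity) (by positivity)
      _ = (N : ℝ) ^ k * Real.exp (-(1 / 4 * (C1 * y - 1)) + 7 / 5 * (C1 / 1000 * y)) := by
          rw [Real.exp_add]
          ring
      _ ≤ (N : ℝ) ^ k * Real.exp (1 / 4 - C1 / 5 * y) := by
          refine mul_le_mul_of_nonneg_left (Real.exp_le_exp.2 ?_) hNk
          have h6 : 0 ≤ C1 * y := by positivity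
          linarith
      _ ≤ (N : ℝ) ^ k * u := mul_le_mul_of_nonneg_left hS3 hNk
      _ = u * (N : ℝ) ^ k := by ring
  · have h1 : (1 + e2) ^ r ≤ Real.exp (C1 / 200 * y) := by
      calc (1 + e2) ^ r ≤ (Real.exp e2) ^ r :=
            pow_le_pow_left₀ (by linarith) (by
              have := Real.add_one_le_exp e2
              linarith) r
        _ = Real.exp (r * e2) := by rw [Real.exp_nat_mul]
        _ ≤ _ := by
            refine Real.exp_le_exp.2 ?_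
            calc (r : ℝ) * e2 ≤ K * y * e2 := mul_le_mul_of_nonneg_right hr he20
              _ ≤ K * y * (C1 / (200 * K)) := mul_le_mul_of_nonneg_left he2 (by positivity)
              _ = C1 / 200 * y := by field_simp
    have h2 : Real.sqrt m1 ≤
        Real.sqrt ((N : ℝ) ^ k) * Real.exp (-(1 / 8 * (C1 * y - 1))) :=
      (sqrt_cardK hBd1).trans (mul_le_mul_of_nonneg_left hQ18 hNs0)
    calc (1 + e2) ^ r * Real.sqrt m1 * 4 ^ (k * w)
        ≤ Real.exp (C1 / 200 * y) *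
          (Real.sqrt ((N : ℝ) ^ k) * Real.exp (-(1 / 8 * (C1 * y - 1)))) *
          Real.exp (7 / 5 * (C1 / 1000 * y)) := by
          refine mul_le_mul (mul_le_mul h1 h2 (Real.sqrt_nonneg _) (by positivity)) h4wk
            (by positivity) (by positivity)
      _ = Real.sqrt ((N : ℝ) ^ k) *
          Real.exp (C1 / 200 * y + -(1 / 8 * (C1 * y - 1)) + 7 / 5 * (C1 / 1000 * y)) := by
          rw [Real.exp_add, Real.exp_add]
          ring
      _ ≤ Real.sqrt ((N : ℝ) ^ k) * Real.exp (1 / 8 - C1 / 10 * y) := by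
          refine mul_le_mul_of_nonneg_left (Real.exp_le_exp.2 ?_) hNs0
          have h6 : 0 ≤ C1 * y := by positivity
          linarith
      _ ≤ Real.sqrt ((N : ℝ) ^ k) * u := mul_le_mul_of_nonneg_left hS4 hNs0
      _ = u * Real.sqrt ((N : ℝ) ^ k) := by ring

/-- The size of the error at the first level. -/
lemma e1_size {KA aA C1 K v cw : ℝ} {N w : ℕ} (hKA : 0 < KA) (haA : 0 < aA)
    (hC1 : C1 = 4 * aA / 5) (hK : 0 < K) (hv : 0 < v) (hcw : 0 < cw)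
    (he : Real.exp 1 ≤ Real.log N) (hC1y : 1 ≤ C1 * yy N)
    (hS1 : Real.exp (0 - 1 / 4 * Real.log (Real.log N)) ≤ v / 3 / (K * KA))
    (hS2 : yy N * Real.exp (1 / 20 - C1 / 20 * yy N) ≤ v / 3 / K)
    (hw0 : (0 : ℝ) < w) (hlw1 : 1 ≤ Real.log w)
    (hlw2 : 6 * K * KA / (cw * v) ≤ Real.log w) (hw2 : cw * yy N / 2 ≤ w) :
    K * yy N * er KA aA N (Ql C1 N) w ≤ v := by
  have hC1p : 0 < C1 := by rw [hC1]; positivity
  have hl0 : 0 < Real.log N := (Real.exp_pos 1).trans_le he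
  have hyp := yy_pos he
  have hl1 := loglog_ge he
  have h1 : Er aA (2 * N) (Ql C1 N) ≤ Real.exp (-(5 / 4 * Real.log (Real.log N))) := by
    refine (Er_Ql haA hC1p he hC1y).trans (le_of_eq ?_)
    congr 3
    rw [hC1]
    field_simp
  have h2 : yy N ≤ Real.exp (Real.log (Real.log N)) := by
    have := yy_le (K := 1) he hl1
    rw [Real.exp_log hl0]
    linarith
  have h3 : yy N * Real.exp (-(5 / 4 * Real.log (Real.log N))) ≤ v / 3 / (K * KA) := by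
    refine le_trans ?_ hS1
    calc yy N * Real.exp (-(5 / 4 * Real.log (Real.log N)))
        ≤ Real.exp (Real.log (Real.log N)) * Real.exp (-(5 / 4 * Real.log (Real.log N))) :=
          mul_le_mul_of_nonneg_right h2 (Real.exp_pos _).le
      _ = Real.exp (0 - 1 / 4 * Real.log (Real.log N)) := by
          rw [← Real.exp_add]
          congr 1
          ring
  have h4 : K * yy N * (KA * Er aA (2 * N) (Ql C1 N)) ≤ v / 3 := by
    calc K * yy N * (KA * Er aA (2 * N) (Ql C1 N))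
        ≤ K * yy N * (KA * Real.exp (-(5 / 4 * Real.log (Real.log N)))) :=
          mul_le_mul_of_nonneg_left (mul_le_mul_of_nonneg_left h1 hKA.le) (by positivity)
      _ = K * KA * (yy N * Real.exp (-(5 / 4 * Real.log (Real.log N)))) := by ring
      _ ≤ K * KA * (v / 3 / (K * KA)) := mul_le_mul_of_nonneg_left h3 (by positivity)
      _ = v / 3 := by field_simp
  have h5 : K * yy N * (Ql C1 N : ℝ) ^ (-(1 / 20 : ℝ)) ≤ v / 3 := by
    have h6 : yy N * (Ql C1 N : ℝ) ^ (-(1 / 20 : ℝ)) ≤ v / 3 / K := by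
      refine le_trans ?_ hS2
      refine mul_le_mul_of_nonneg_left ?_ hyp.le
      refine (Ql_rpow hC1y (by norm_num)).trans (Real.exp_le_exp.2 (le_of_eq ?_))
      ring
    calc K * yy N * (Ql C1 N : ℝ) ^ (-(1 / 20 : ℝ))
        = K * (yy N * (Ql C1 N : ℝ) ^ (-(1 / 20 : ℝ))) := by ring
      _ ≤ K * (v / 3 / K) := mul_le_mul_of_nonneg_left h6 hK.le
      _ = v / 3 := by field_simp
  have h7 : K * yy N * (KA / (w * Real.log w)) ≤ v / 3 := by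
    have h8 : 0 < (w : ℝ) * Real.log w := by positivity
    rw [mul_div_assoc', div_le_iff₀ h8]
    have h9 : yy N ≤ 2 / cw * w := by
      have := mul_le_mul_of_nonneg_left hw2 (by positivity : 0 ≤ 2 / cw)
      have e : 2 / cw * (cw * yy N / 2) = yy N := by field_simp
      rwa [e] at this
    rw [div_le_iff₀ (by positivity)] at hlw2
    have h10 : v / 3 * (w * Real.log w) * (cw * 3) = w * (Real.log w * (cw * v)) := by ring
    have h11 : K * yy N * KA * (cw * 3) ≤ w * (6 * K * KA) := by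
      have h12 := mul_le_mul_of_nonneg_left h9 (by positivity : 0 ≤ K * KA * (cw * 3))
      have e : K * KA * (cw * 3) * (2 / cw * w) = w * (6 * K * KA) := by
        field_simp
        ring
      rw [e] at h12
      linarith
    have h13 : w * (6 * K * KA) ≤ w * (Real.log w * (cw * v)) :=
      mul_le_mul_of_nonneg_left hlw2 hw0.le
    have h14 : K * yy N * KA * (cw * 3) ≤ v / 3 * (w * Real.log w) * (cw * 3) := by
      rw [h10]
      exact h11.trans h13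
    exact le_of_mul_le_mul_right h14 (by positivity)
  unfold er
  rw [mul_add, mul_add]
  linarith

/-- The size of the error at the second level. -/
lemma e2_size {KB aB C2 t : ℝ} {N w : ℕ} (hKB : 0 < KB) (haB : 0 < aB) (hC2p : 0 < C2)
    (htp : 0 < t) (he : Real.exp 1 ≤ Real.log N) (hC2y1 : 1 ≤ C2 * yy N)
    (hS6 : Real.exp (0 - aB / C2 * Real.log (Real.log N)) ≤ t / 3 / KB)
    (hS7 : Real.exp (1 / 20 - C2 / 20 * yy N) ≤ t / 3)
    (hw0 : (0 : ℝ) < w) (hlw1 : 1 ≤ Real.log w) (hwc : 3 * KB / t ≤ w) :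
    er KB aB N (Ql C2 N) w ≤ t := by
  have h1 : Er aB (2 * N) (Ql C2 N) ≤ t / 3 / KB := by
    refine (Er_Ql haB hC2p he hC2y1).trans (le_trans (le_of_eq ?_) hS6)
    congr 1
    ring
  have h2 : KB * Er aB (2 * N) (Ql C2 N) ≤ t / 3 := by
    have := mul_le_mul_of_nonneg_left h1 hKB.le
    have e : KB * (t / 3 / KB) = t / 3 := by field_simp
    rwa [e] at this
  have h3 : (Ql C2 N : ℝ) ^ (-(1 / 20 : ℝ)) ≤ t / 3 := by
    refine le_trans ?_ hS7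
    refine (Ql_rpow hC2y1 (by norm_num)).trans (Real.exp_le_exp.2 (le_of_eq ?_))
    ring
  have h5 : KB / (w * Real.log w) ≤ t / 3 := by
    rw [div_le_iff₀ (by positivity)]
    rw [div_le_iff₀ htp] at hwc
    have h6 : (w : ℝ) * 1 ≤ w * Real.log w := mul_le_mul_of_nonneg_left hlw1 hw0.le
    have h7 := mul_le_mul_of_nonneg_left h6 htp.le
    linarith
  unfold er
  linarith

lemma er_nonneg {K a : ℝ} (hK : 0 < K) (N Q w : ℕ) : 0 ≤ er K a N Q w := by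
  unfold er
  have h1 : 0 < Er a (2 * N) Q := Real.exp_pos _
  have h2 := wlog_nonneg w
  positivity

/-- The third level. -/
lemma third {C1 s3 : ℝ} {N : ℕ} (hs3p : 0 < s3) (he : Real.exp 1 ≤ Real.log N)
    (hy4 : 2 / s3 ≤ yy N) (hlC : 2 * C1 / s3 ≤ Real.log (Real.log N)) :
    (N : ℝ) ^ (s3 / 2) ≤ ⌊((2 * N : ℕ) : ℝ) ^ s3⌋₊ ∧
      (Ql C1 N : ℝ) ≤ ⌊((2 * N : ℕ) : ℝ) ^ s3⌋₊ := by
  have hN0 := pos_of_log he
  have hl1 := loglog_ge he
  have hNs : (2 : ℝ) ≤ (N : ℝ) ^ (s3 / 2) := by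
    rw [Real.rpow_def_of_pos hN0]
    have h1 : Real.exp 1 ≤ Real.exp (Real.log N * (s3 / 2)) := by
      refine Real.exp_le_exp.2 ?_
      have h2 : 2 / s3 ≤ Real.log N := by
        refine hy4.trans ?_
        have := yy_le (K := 1) he hl1
        linarith
      rw [div_le_iff₀ hs3p] at h2
      linarith
    have := Real.exp_one_gt_d9
    linarith
  have hQ3N : (N : ℝ) ^ (s3 / 2) ≤ ⌊((2 * N : ℕ) : ℝ) ^ s3⌋₊ := by
    have h1 : ((2 * N : ℕ) : ℝ) ^ s3 < (⌊((2 * N : ℕ) : ℝ) ^ s3⌋₊ : ℝ) + 1 :=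
      Nat.lt_floor_add_one _
    have h2 : (N : ℝ) ^ s3 ≤ ((2 * N : ℕ) : ℝ) ^ s3 := by
      apply Real.rpow_le_rpow hN0.le _ hs3p.le
      push_cast
      linarith
    have h3 : (N : ℝ) ^ s3 = (N : ℝ) ^ (s3 / 2) * (N : ℝ) ^ (s3 / 2) := by
      rw [← Real.rpow_add hN0]
      congr 1
      ring
    nlinarith
  refine ⟨hQ3N, le_trans ?_ hQ3N⟩
  refine (Ql_le C1 N).trans ?_
  rw [Real.rpow_def_of_pos hN0]
  refine Real.exp_le_exp.2 ?_
  have h1 := yy_le he hlC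
  rw [div_mul_eq_mul_div, div_le_iff₀ hs3p] at h1
  linarith

/-- Everything analytic. -/
theorem levelsK_of (hM : KMainS) : ∃ C1 cA : ℝ, 0 < C1 ∧ 0 < cA ∧
    (∀ C2 : ℝ, C1 ≤ C2 → ∃ cB : ℝ, 0 < cB ∧ ∀ N0 : ℕ, ∃ N : ℕ, N0 ≤ N ∧ GoodX cA C1 cB C2 N) ∧
    LevS C1 cA := by
  classical
  obtain ⟨c1, hc1, hZ⟩ := zero_free
  obtain ⟨c0', c4, h0, h4, hD⟩ := heilbronn
  have hZ' : ZFree c1 := hZ
  obtain ⟨aA, haA, hlA0⟩ := levK hM c1 (c1 / 2) hZ' (by positivity) (by linarith)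
  obtain ⟨C1, hC1⟩ : ∃ C1 : ℝ, C1 = 4 * aA / 5 := ⟨_, rfl⟩
  have hC1p : 0 < C1 := by rw [hC1]; positivity
  refine ⟨C1, c1 / 2, hC1p, by positivity, ?_, ?_⟩
  · intro C2 hC2
    obtain ⟨cB, hcB, -, hgood⟩ := goodX c1 c0' c4 (c1 / 2) C1 C2 hZ' h0 h4 hD (by positivity)
      (by linarith) hC1p hC2
    exact ⟨cB, hcB, hgood⟩
  intro k0
  obtain ⟨KA, sA, hKA, hsA, XA, hlA⟩ := hlA0 k0
  obtain ⟨B', hB'⟩ : ∃ B' : ℝ, B' = 1 + KA := ⟨_, rfl⟩
  have hB1 : 1 ≤ B' := by linarith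
  obtain ⟨cw, hcw⟩ : ∃ cw : ℝ, cw = C1 / (1000 * ((k0 : ℝ) + 1)) := ⟨_, rfl⟩
  have hk0p : (0 : ℝ) < (k0 : ℝ) + 1 := by positivity
  have hcwp : 0 < cw := by rw [hcw]; positivity
  have hcwk : (k0 + 1 : ℝ) * cw = C1 / 1000 := by
    rw [hcw]
    field_simp
  obtain ⟨s3, hs3⟩ : ∃ s3 : ℝ, s3 = min sA 1 := ⟨_, rfl⟩
  have hs3p : 0 < s3 := by rw [hs3]; exact lt_min hsA one_pos
  have hs3A : s3 ≤ sA := by rw [hs3]; exact min_le_left _ _
  refine ⟨cw, s3 / 8, B', hcwp, by positivity, hB1, ?_⟩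
  intro K A hK hA
  have hKp : 0 < K := by linarith
  obtain ⟨AB, hAB⟩ : ∃ AB : ℝ, AB = max A B' := ⟨_, rfl⟩
  have hAB1 : 1 ≤ AB := by rw [hAB]; exact hA.trans (le_max_left _ _)
  have hABA : A ≤ AB := by rw [hAB]; exact le_max_left _ _
  have hABB : B' ≤ AB := by rw [hAB]; exact le_max_right _ _
  have hlB : 0 ≤ Real.log AB := Real.log_nonneg hAB1
  refine ⟨C1 + 64 * K * (1 + Real.log AB), ?_⟩
  intro C2 cB hC20 hcB u hu w1
  have hC12 : C1 ≤ C2 := by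
    have : 0 ≤ 64 * K * (1 + Real.log AB) := by positivity
    linarith
  have hC2p : 0 < C2 := hC1p.trans_le hC12
  obtain ⟨cC, hcC⟩ : ∃ cC : ℝ, cC = min cB (c1 / 2) := ⟨_, rfl⟩
  have hcCp : 0 < cC := by rw [hcC]; exact lt_min hcB (by positivity)
  have hcCB : cC ≤ cB := by rw [hcC]; exact min_le_left _ _
  have hcC1 : cC < c1 := by
    have : cC ≤ c1 / 2 := by rw [hcC]; exact min_le_right _ _
    linarith
  obtain ⟨aB, haB, hlB0⟩ := levK hM c1 cC hZ' hcCp hcC1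
  obtain ⟨KB, sB, hKB, hsB, XB, hlB2⟩ := hlB0 k0
  obtain ⟨v, hv⟩ : ∃ v : ℝ, v = min u 1 := ⟨_, rfl⟩
  have hvp : 0 < v := by rw [hv]; exact lt_min hu one_pos
  have hvu : v ≤ u := by rw [hv]; exact min_le_left _ _
  have hv1 : v ≤ 1 := by rw [hv]; exact min_le_right _ _
  obtain ⟨t, ht⟩ : ∃ t : ℝ, t = min (C1 / (200 * K)) 1 := ⟨_, rfl⟩
  have htp : 0 < t := by rw [ht]; exact lt_min (by positivity) one_pos
  have htC : t ≤ C1 / (200 * K) := by rw [ht]; exact min_le_left _ _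
  have ht1 : t ≤ 1 := by rw [ht]; exact min_le_right _ _
  -- the sizes
  obtain ⟨R1, hR1⟩ := Rg_Ql sA C1 hsA hC1p
  obtain ⟨R2, hR2⟩ := Rg_Ql sB C2 hsB hC2p
  obtain ⟨S1, hS1⟩ := small1 (s := 1 / 4) (u := v / 3 / (K * KA)) 0 (by norm_num) (by positivity)
  obtain ⟨S2, hS2⟩ := small2 (s := C1 / 20) (u := v / 3 / K) (1 / 20) (by positivity)
    (by positivity)
  obtain ⟨S3, hS3⟩ := small1 (s := C1 / 5) (u := u) (1 / 4) (by positivity) hu
  obtain ⟨S4, hS4⟩ := small1 (s := C1 / 10) (u := u) (1 / 8) (by positivity) hu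
  obtain ⟨S5, hS5⟩ := small1 (s := 4) (u := u) (1 / 8) (by norm_num) hu
  obtain ⟨S6, hS6⟩ := small1 (s := aB / C2) (u := t / 3 / KB) 0 (by positivity)
    (by positivity)
  obtain ⟨S7, hS7⟩ := small1 (s := C2 / 20) (u := t / 3) (1 / 20) (by positivity)
    (by positivity)
  obtain ⟨W1, hW1⟩ : ∃ W1 : ℝ, W1 = max (Real.exp (6 * K * KA / (cw * v))) (max (Real.exp 1)
      (max (3 * KB / t) (max (w1 : ℝ) (max (XA : ℝ) (XB : ℝ))))) := ⟨_, rfl⟩
  obtain ⟨M1, hM1⟩ := large (max (5 / C1) (max (2 / cw) (max S2 (max S3 (max S4 (max S5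
    (max S7 (max 1 (2 * W1 / cw)))))))))
  obtain ⟨M2, hM2⟩ := ll_big (max S1 (max S6 (max (2 * C1 / s3) (max C1 (cw / u)))))
  obtain ⟨M3, hM3⟩ := yy_big (2 / cw)
  obtain ⟨M4, hM4⟩ := large (2 / s3)
  refine ⟨max XA (max XB (max R1 (max R2 (max M1 (max M2 (max M3 M4)))))), ?_⟩
  intro N hN hG w hw
  simp only [max_le_iff] at hN
  obtain ⟨hNA, hNB, hNR1, hNR2, hNM1, hNM2, hNM3, hNM4⟩ := hN
  obtain ⟨he, hy⟩ := hM1 N hNM1
  have hll := hM2 N hNM2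
  have hyb := hM3 N hNM3
  obtain ⟨-, hy4⟩ := hM4 N hNM4
  simp only [max_le_iff] at hy hll
  obtain ⟨hy1, hy2, hyS2, hyS3, hyS4, hyS5, hyS7, hyo, hyW⟩ := hy
  obtain ⟨hlS1, hlS6, hlC, hlw, hlu⟩ := hll
  have hl0 : 0 < Real.log N := (Real.exp_pos 1).trans_le he
  have hN0 := pos_of_log he
  have hyp := yy_pos he
  have hl1 := loglog_ge he
  obtain ⟨y, hyy⟩ : ∃ y, y = yy N := ⟨_, rfl⟩
  obtain ⟨l, hll⟩ : ∃ l, l = Real.log (Real.log N) := ⟨_, rfl⟩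
  rw [← hyy] at hy1 hy2 hyS2 hyS3 hyS4 hyS5 hyS7 hyb hy4 hyp hyo hyW hw ⊢
  rw [← hll] at hlS1 hlS6 hlC hlw hl1 hlu
  have hC1y : 5 ≤ C1 * y := by
    rw [div_le_iff₀ hC1p] at hy1
    linarith
  have hC1y1 : 1 ≤ C1 * yy N := by rw [← hyy]; linarith
  have hC2y1 : 1 ≤ C2 * yy N := by
    rw [← hyy]
    have := mul_le_mul_of_nonneg_right hC12 hyp.le
    linarith
  -- `w`
  have hw1 : (w : ℝ) ≤ cw * y := by
    rw [hw]
    exact Nat.floor_le (by positivity)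
  have hw2 : cw * y / 2 ≤ w := by
    have h1 : cw * y < (w : ℝ) + 1 := by
      rw [hw]
      exact Nat.lt_floor_add_one _
    rw [div_le_iff₀ hcwp] at hy2
    linarith
  have hWw : W1 ≤ w := by
    refine le_trans ?_ hw2
    rw [div_le_iff₀ hcwp] at hyW
    linarith
  rw [hW1] at hWw
  simp only [max_le_iff] at hWw
  obtain ⟨hwa, hwb, hwc, hwd, hwe, hwf⟩ := hWw
  have hwXA : XA ≤ w := by exact_mod_cast hwe
  have hwXB : XB ≤ w := by exact_mod_cast hwf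
  have hww1 : w1 ≤ w := by exact_mod_cast hwd
  have hw0 : (0 : ℝ) < w := (Real.exp_pos 1).trans_le hwb
  have hlw1 : 1 ≤ Real.log w := by
    rw [Real.le_log_iff_exp_le hw0]
    exact hwb
  have hlw2 : 6 * K * KA / (cw * v) ≤ Real.log w := by
    rw [Real.le_log_iff_exp_le hw0]
    exact hwa
  have hlN : Real.exp (Real.log N) = N := Real.exp_log hN0
  -- levels
  obtain ⟨Q1, hQ1⟩ : ∃ Q1, Q1 = Ql C1 N := ⟨_, rfl⟩
  obtain ⟨Q2, hQ2⟩ : ∃ Q2, Q2 = Ql C2 N := ⟨_, rfl⟩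
  obtain ⟨Q3, hQ3⟩ : ∃ Q3 : ℕ, Q3 = ⌊((2 * N : ℕ) : ℝ) ^ s3⌋₊ := ⟨_, rfl⟩
  have hcwC : cw ≤ C1 / 1000 := by
    rw [← hcwk]
    have : (0 : ℝ) ≤ k0 := Nat.cast_nonneg k0
    nlinarith
  have hw40 : 4 ^ (40 * w) ≤ Q1 := by
    have h1 : (4 : ℝ) ^ (40 * w) ≤ Real.exp (7 / 5 * ((40 : ℕ) * (cw * y))) := four_pow_mul hw1
    have h2 : (4 : ℝ) ^ (40 * w) ≤ Q1 := by
      rw [hQ1]
      refine h1.trans (le_trans (Real.exp_le_exp.2 ?_) (Ql_ge hC1y1))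
      rw [← hyy]
      have h3 := mul_le_mul_of_nonneg_right hcwC hyp.le
      push_cast
      linarith
    exact_mod_cast h2
  have hQ12 : Q1 ≤ Q2 := by
    rw [hQ1, hQ2]
    apply Ql_mono
    rw [← hyy]
    exact mul_le_mul_of_nonneg_right hC12 hyp.le
  have h2N0 : (0 : ℝ) < ((2 * N : ℕ) : ℝ) := by
    push_cast
    linarith
  have hN1r : (1 : ℝ) ≤ N := by
    have : 0 < N := by exact_mod_cast hN0
    exact_mod_cast this
  -- `Q3`
  obtain ⟨hQ3N, hQ13⟩ := third (C1 := C1) hs3p he (by rw [← hyy]; exact hy4)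
    (by rw [← hll]; exact hlC)
  rw [← hQ3] at hQ3N hQ13
  rw [← hQ1] at hQ13
  have hQ13' : Q1 ≤ Q3 := by exact_mod_cast hQ13
  have hRg1 : Rg sA (2 * N) Q1 := by rw [hQ1]; exact hR1 N hNR1
  have hRg2 : Rg sB (2 * N) Q2 := by rw [hQ2]; exact hR2 N hNR2
  have hRg3 : Rg sA (2 * N) Q3 := by
    refine ⟨hRg1.1.trans hQ13, ?_⟩
    refine le_trans (b := ((2 * N : ℕ) : ℝ) ^ s3) ?_ ?_
    · rw [hQ3]
      exact Nat.floor_le (by positivity)
    · apply Real.rpow_le_rpow_of_exponent_le _ hs3A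
      push_cast
      linarith
  have hno1 : ∀ x β, ¬ IsExc (c1 / 2) Q1 x β := by rw [hQ1]; exact hG.1
  have hno2 : ∀ x β, ¬ IsExc cC Q2 x β := by
    rintro x β ⟨g1, g2, g3, g4, g5, g6⟩
    refine hG.2 x β ⟨by rw [← hQ2]; exact g1, g2, g3, g4, le_trans ?_ g5, g6⟩
    rw [← hQ2]
    have h1 : cC / Real.log Q2 ≤ cB / Real.log Q2 :=
      div_le_div_of_nonneg_right hcCB (Real.log_natCast_nonneg _)
    linarith
  obtain ⟨e1, he1⟩ : ∃ e1 : ℝ, e1 = er KA aA N Q1 w := ⟨_, rfl⟩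
  obtain ⟨e2, he2⟩ : ∃ e2 : ℝ, e2 = er KB aB N Q2 w := ⟨_, rfl⟩
  have he10 : 0 ≤ e1 := by rw [he1]; exact er_nonneg hKA _ _ _
  have he20 : 0 ≤ e2 := by rw [he2]; exact er_nonneg hKB _ _ _
  -- the size of `e1`
  have hye1 : K * y * e1 ≤ v := by
    rw [he1, hQ1, hyy]
    exact e1_size hKA haA hC1 hKp hvp hcwp he hC1y1 (by rw [← hll]; exact hS1 l hlS1)
      (by rw [← hyy]; exact hS2 y hyS2) hw0 hlw1 hlw2 (by rw [← hyy]; exact hw2)
  have he11 : e1 ≤ 1 := by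
    have h1 : 1 * e1 ≤ K * y * e1 := by
      refine mul_le_mul_of_nonneg_right ?_ he10
      nlinarith
    linarith
  -- the size of `e2`
  have he2s : e2 ≤ t := by
    rw [he2, hQ2]
    exact e2_size hKB haB hC2p htp he hC2y1 (by rw [← hll]; exact hS6 l hlS6)
      (by rw [← hyy]; exact hS7 y hyS7) hw0 hlw1 hwc
  have h4w : ∀ k ≤ k0, (4 : ℝ) ^ (k * w) ≤ Real.exp (7 / 5 * (C1 / 1000 * y)) := by
    intro k hk
    refine (four_pow_mul hw1).trans (Real.exp_le_exp.2 ?_)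
    have h1 : (k : ℝ) * cw ≤ C1 / 1000 := by
      rw [← hcwk]
      refine mul_le_mul_of_nonneg_right ?_ hcwp.le
      have : (k : ℝ) ≤ k0 := by exact_mod_cast hk
      linarith
    have h2 := mul_le_mul_of_nonneg_right h1 hyp.le
    nlinarith
  refine ⟨hww1, ?_, ?_, ?_, ?_, e1, e2, he10, he11, he20, he2s.trans ht1, ?_⟩
  · -- `4 ^ (100 (k0 + 1) w) ≤ N`
    have h1 : (4 : ℝ) ^ (100 * (k0 + 1) * w) ≤
        Real.exp (7 / 5 * (((100 * (k0 + 1) : ℕ) : ℝ) * (cw * y))) := four_pow_mul hw1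
    have h2 : (4 : ℝ) ^ (100 * (k0 + 1) * w) ≤ N := by
      rw [← hlN]
      refine h1.trans (Real.exp_le_exp.2 ?_)
      have h3 := yy_le he (K := C1) (by rw [← hll]; exact hlw)
      rw [← hyy] at h3
      have e : 7 / 5 * (((100 * (k0 + 1) : ℕ) : ℝ) * (cw * y)) =
          140 * ((k0 + 1 : ℝ) * cw) * y := by
        push_cast
        ring
      rw [e, hcwk]
      nlinarith
    exact_mod_cast h2
  · -- `log N ≤ w ^ 2`
    have h1 : Real.sqrt (Real.log N) ≤ w := by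
      refine le_trans ?_ hw2
      have := mul_le_mul_of_nonneg_left hyb hcwp.le
      have e : cw * (2 / cw * Real.sqrt (Real.log N)) = 2 * Real.sqrt (Real.log N) := by
        field_simp
      rw [e] at this
      linarith
    have h2 := pow_le_pow_left₀ (Real.sqrt_nonneg _) h1 2
    rwa [Real.sq_sqrt hl0.le] at h2
  · have := mul_le_mul_of_nonneg_left hw2 (by positivity : 0 ≤ 2 / cw)
    have e : 2 / cw * (cw * y / 2) = y := by field_simp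
    rwa [e] at this
  · -- `w ≤ u log N`
    refine hw1.trans ?_
    have h3 := yy_le he (K := cw / u) (by rw [← hll]; exact hlu)
    rw [← hyy, div_mul_eq_mul_div, div_le_iff₀ hu] at h3
    linarith
  intro k hk1 hk
  obtain ⟨-, hl1'⟩ := hlA N Q1 w hNA hwXA hRg1 hw40 k hk1 hk
  obtain ⟨Bd1, hBd1, hc1'⟩ := hl1' hno1
  obtain ⟨-, hl2'⟩ := hlB2 N Q2 w hNB hwXB hRg2 (hw40.trans hQ12) k hk1 hk
  obtain ⟨Bd2, hBd2, hc2'⟩ := hl2' hno2
  obtain ⟨⟨Bd3, hBd3, hc3'⟩, -⟩ := hlA N Q3 w hNA hwXA hRg3 (hw40.trans hQ13') k hk1 hk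
  have h4wk := h4w k hk
  refine ⟨Bd1, Bd2, Bd3, ?_, ?_, ?_, ?_, ?_⟩
  · -- the third bad set
    refine hBd3.trans ?_
    have h1 : (Q3 : ℝ) ^ (-(1 / 4 : ℝ)) ≤ ((N : ℝ) ^ (s3 / 2)) ^ (-(1 / 4 : ℝ)) :=
      Real.rpow_le_rpow_of_nonpos (by positivity) hQ3N (by norm_num)
    have h2 : (N : ℝ) ^ k * ((N : ℝ) ^ (s3 / 2)) ^ (-(1 / 4 : ℝ)) =
        (N : ℝ) ^ ((k : ℝ) - s3 / 8) := by
      rw [← Real.rpow_mul hN0.le, ← Real.rpow_natCast, ← Real.rpow_add hN0]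
      congr 1
      ring
    rw [← h2]
    exact mul_le_mul_of_nonneg_left h1 (by positivity)
  · intro r hr
    have hQ18 : (Q1 : ℝ) ^ (-(1 / 8 : ℝ)) ≤ Real.exp (-(1 / 8 * (C1 * y - 1))) := by
      rw [hQ1, hyy]
      exact Ql_rpow hC1y1 (by norm_num)
    have hQ14 : (Q1 : ℝ) ^ (-(1 / 4 : ℝ)) ≤ Real.exp (-(1 / 4 * (C1 * y - 1))) := by
      rw [hQ1, hyy]
      exact Ql_rpow hC1y1 (by norm_num)
    have hQ28 : (Q2 : ℝ) ^ (-(1 / 8 : ℝ)) ≤ Real.exp (-(1 / 8 * (C2 * y - 1))) := by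
      rw [hQ2, hyy]
      exact Ql_rpow hC2y1 (by norm_num)
    exact ⟨((mul_le_mul_of_nonneg_right hr he10).trans hye1).trans hvu,
      four hQ18 hQ14 hQ28 h4wk hBd1 hBd2 (hS3 y hyS3) (hS4 y hyS4) (hS5 y hyS5) hK hyp hC1p
        hC20 hAB1 hABA hABB (by linarith) (by linarith) he20 (he2s.trans htC) hr⟩
  · rw [he1]
    exact hc1'
  · intro c n hn hnB hco
    rw [he2]
    exact (hc2' c n hn hnB hco).2
  · intro c n hn hnB hco
    rw [hB']
    exact hc3' c n hn hnB hco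

end LevKAux

end Pool.Agent.Lib.LEN
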