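import Pool.Agent.Lib.LEN.Levels
import Pool.Agent.Lib.LEN.PairUp
import Pool.Agent.Lib.LEN.FirstLow

/-!
# LEN.LevelsF: everything analytic (base theorem)
-/

set_option autoImplicit false

open Finset Filter

namespace Pool.Agent.Lib.LEN

open Pool.Agent.HLB Pool.Agent.HLT Pool.Agent.HLR Pool.Agent.Lib.GMV

/-- Module Levels: everything analytic. -/
theorem levels : ∃ C1 C2 cA cB cw d B' : ℝ, 0 < C1 ∧ 0 < C2 ∧ 0 < cA ∧ 0 < cB ∧ 0 < cw ∧ 0 < d ∧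
    1 ≤ B' ∧ (∀ N0 : ℕ, ∃ N : ℕ, N0 ≤ N ∧ GoodX cA C1 cB C2 N) ∧
    ∀ u : ℝ, 0 < u → ∃ N0 : ℕ, ∀ N : ℕ, N0 ≤ N → GoodX cA C1 cB C2 N →
    ∀ w : ℕ, w = ⌊cw * yy N⌋₊ →
    ∃ (e1 e2 : ℝ) (Bd0 : Finset ℕ) (Bd1 Bd2 Bd3 : Finset (ℕ × ℕ)), 0 ≤ e1 ∧ 0 ≤ e2 ∧
    4 ^ (100 * w) ≤ N ∧ Real.log N ≤ (w : ℝ) ^ 2 ∧ yy N ≤ 2 / cw * w ∧
    (Bd3.card : ℝ) ≤ (N : ℝ) ^ (2 - d) ∧
    (∀ r : ℕ, (r : ℝ) ≤ yy N → r * e1 ≤ u ∧ (Bd0.card : ℝ) * 4 ^ w ≤ u * N ∧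
      (1 + e2) ^ r * Real.sqrt Bd1.card * 4 ^ w ≤ u * N ∧
      B' ^ r * Real.sqrt Bd2.card * 4 ^ w ≤ u * N) ∧
    (∀ c, ∀ n ∈ Ioc N (2 * N), n ∉ Bd0 → Nat.Coprime (n + c) (PP w) →
      (N : ℝ) / PP w * (DZ w)⁻¹ * (1 - e1) ≤ AA lp N w c n) ∧
    (∀ c, ∀ n ∈ Ioc N (2 * N), ∀ n' ∈ Ioc N (2 * N), n ≠ n' → (n, n') ∉ Bd1 →
      Nat.Coprime (n + c) (PP w) → Nat.Coprime (n' + c) (PP w) →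
      CC lp N w c n n' ≤ (N : ℝ) / PP w * (DZ w)⁻¹ ^ 2 * ss w (Nat.dist n n') * (1 + e1)) ∧
    (∀ c, ∀ n ∈ Ioc N (2 * N), ∀ n' ∈ Ioc N (2 * N), n ≠ n' → (n, n') ∉ Bd2 →
      Nat.Coprime (n + c) (PP w) → Nat.Coprime (n' + c) (PP w) →
      CC lp N w c n n' ≤ (N : ℝ) / PP w * (DZ w)⁻¹ ^ 2 * ss w (Nat.dist n n') * (1 + e2)) ∧
    (∀ c, ∀ n ∈ Ioc N (2 * N), ∀ n' ∈ Ioc N (2 * N), n ≠ n' → (n, n') ∉ Bd3 →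
      Nat.Coprime (n + c) (PP w) → Nat.Coprime (n' + c) (PP w) →
      CC lp N w c n n' ≤ (N : ℝ) / PP w * (DZ w)⁻¹ ^ 2 * ss w (Nat.dist n n') * B') :=
  LevelsAux.levels_of pairUp firstLow

end Pool.Agent.Lib.LEN
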