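import Mathlib

/-!
# LEN.Pois: the Poisson law from the factorial moments (Bonferroni)
-/

set_option autoImplicit false

open Finset Filter

namespace Pool.Agent.Lib.LEN

namespace PoisAux

/-- Alternating partial sums of a row of the binomial triangle. -/
lemma alt_sum (n m : ℕ) :
    ∑ i ∈ range (m + 1), (-1 : ℝ) ^ i * ((n + 1).choose i : ℝ) = (-1) ^ m * (n.choose m : ℝ) := by
  induction m with
  | zero => simp
  | succ m ih =>
    rw [Finset.sum_range_succ, ih, Nat.choose_succ_succ, Nat.cast_add, pow_succ]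
    ring

lemma alt_bound (n m : ℕ) :
    |(if n = 0 then (1:ℝ) else 0) - ∑ i ∈ range m, (-1 : ℝ) ^ i * (n.choose i : ℝ)| ≤
      (n.choose m : ℝ) := by
  rcases n with _ | n
  · rcases m with _ | m
    · simp
    · rw [Finset.sum_range_succ']
      simp
  · rw [if_neg (by omega)]
    rcases m with _ | m
    · simp
    · rw [alt_sum, zero_sub, abs_neg, abs_mul, abs_pow, abs_neg, abs_one, one_pow, one_mul,
        Nat.abs_cast, Nat.choose_succ_succ, Nat.cast_add]
      have : (0:ℝ) ≤ (n.choose (m + 1) : ℝ) := Nat.cast_nonneg _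
      linarith

lemma desc_add (Z j i : ℕ) : (Z.descFactorial (j + i) : ℝ) =
    (Z.descFactorial j : ℝ) * ((Z - j).descFactorial i : ℝ) := by
  rw [← Nat.cast_mul]
  congr 1
  induction i with
  | zero => simp
  | succ i ih =>
    rw [← add_assoc, Nat.descFactorial_succ, ih, Nat.descFactorial_succ, Nat.sub_sub]
    ring

lemma desc_choose (n i : ℕ) : (n.descFactorial i : ℝ) / i.factorial = (n.choose i : ℝ) := by
  rw [Nat.descFactorial_eq_factorial_mul_choose]
  have : (i.factorial : ℝ) ≠ 0 := by positivity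
  push_cast
  field_simp

/-- Bonferroni for the event `Z = j`. -/
lemma bonf (Z j m : ℕ) :
    |(if Z = j then (1:ℝ) else 0) -
      (∑ i ∈ range m, (-1 : ℝ) ^ i * (Z.descFactorial (j + i) : ℝ) / i.factorial) / j.factorial| ≤
      (Z.descFactorial (j + m) : ℝ) / (j.factorial * m.factorial) := by
  have hj : (0:ℝ) < j.factorial := by positivity
  have hm : (0:ℝ) < m.factorial := by positivity
  have e1 : (∑ i ∈ range m, (-1 : ℝ) ^ i * (Z.descFactorial (j + i) : ℝ) / i.factorial) /
      j.factorial = (Z.choose j : ℝ) * ∑ i ∈ range m, (-1 : ℝ) ^ i * ((Z - j).choose i : ℝ) := by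
    rw [Finset.mul_sum, Finset.sum_div]
    refine Finset.sum_congr rfl fun i _ => ?_
    rw [desc_add, ← desc_choose Z j, ← desc_choose (Z - j) i]
    ring
  have e2 : (Z.descFactorial (j + m) : ℝ) / (j.factorial * m.factorial) =
      (Z.choose j : ℝ) * ((Z - j).choose m : ℝ) := by
    rw [desc_add, ← desc_choose Z j, ← desc_choose (Z - j) m]
    field_simp
  rw [e1, e2]
  rcases lt_or_ge Z j with h | h
  · rw [Nat.choose_eq_zero_of_lt h, if_neg (by omega)]
    simp
  · have e3 : (if Z = j then (1:ℝ) else 0) = (Z.choose j : ℝ) * (if Z - j = 0 then (1:ℝ) else 0) := by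
      by_cases hZ : Z = j
      · subst hZ
        simp
      · rw [if_neg hZ, if_neg (by omega), mul_zero]
    rw [e3, ← mul_sub, abs_mul, Nat.abs_cast]
    exact mul_le_mul_of_nonneg_left (alt_bound _ _) (Nat.cast_nonneg _)

lemma exp_bound (x : ℝ) (m : ℕ) (hx : |x| / (m + 1) ≤ 1 / 2) :
    |Real.exp x - ∑ i ∈ range m, x ^ i / i.factorial| ≤ |x| ^ m / m.factorial * 2 := by
  have h := Complex.exp_bound' (x := (x : ℂ)) (n := m) (by
    rw [Complex.norm_real, Real.norm_eq_abs]
    push_cast
    exact hx)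
  rw [Complex.norm_real, Real.norm_eq_abs] at h
  have e : Complex.exp (x : ℂ) - ∑ i ∈ range m, (x : ℂ) ^ i / (i.factorial : ℂ) =
      ((Real.exp x - ∑ i ∈ range m, x ^ i / i.factorial : ℝ) : ℂ) := by
    push_cast
    rfl
  rw [e, Complex.norm_real, Real.norm_eq_abs] at h
  exact h

end PoisAux

open PoisAux

open scoped Classical in
/-- Module Pois: Poisson law from the factorial moments (Bonferroni), on a finite set. -/
theorem pois (Λ ε : ℝ) (J : ℕ) (hΛ : 0 < Λ) (hε : 0 < ε) : ∃ k0 : ℕ, ∃ δ : ℝ, 0 < δ ∧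
    ∀ (ι : Type) (H : Finset ι) (Z : ι → ℕ) (l : ℝ), 0 ≤ l → l ≤ Λ →
    (∀ k : ℕ, 1 ≤ k → k ≤ k0 → |∑ h ∈ H, ((Z h).descFactorial k : ℝ) - l ^ k * H.card| ≤
      δ * H.card) → ∀ j : ℕ, j ≤ J →
    |((H.filter (fun h => Z h = j)).card : ℝ) - Real.exp (-l) * l ^ j / j.factorial * H.card| ≤
      ε * H.card := by
  set L : ℝ := max Λ 1 with hL
  have hL1 : 1 ≤ L := le_max_right _ _
  have hL0 : 0 < L := by linarith
  have hlim : Tendsto (fun m : ℕ => 3 * L ^ J * (L ^ m / m.factorial)) atTop (nhds (3 * L ^ J * 0)) :=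
    (FloorSemiring.tendsto_pow_div_factorial_atTop L).const_mul _
  rw [mul_zero] at hlim
  obtain ⟨m, hm1, hm2⟩ := ((hlim.eventually_le_const (show (0:ℝ) < ε / 2 by linarith)).and
    (eventually_ge_atTop ⌈2 * L⌉₊)).exists
  have hm3 : 2 * L ≤ m := (Nat.le_ceil _).trans (by exact_mod_cast hm2)
  refine ⟨J + m, ε / 8, by linarith, ?_⟩
  intro ι H Z l hl0 hlΛ hmom j hj
  have hlL : l ≤ L := hlΛ.trans (le_max_left _ _)
  have hH : (0:ℝ) ≤ H.card := Nat.cast_nonneg _
  set M : ℕ → ℝ := fun k => ∑ h ∈ H, ((Z h).descFactorial k : ℝ) with hM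
  have hmom' : ∀ k, k ≤ J + m → |M k - l ^ k * H.card| ≤ ε / 8 * H.card := by
    intro k hk
    rcases k with _ | k
    · have : M 0 = H.card := by simp [hM]
      rw [this, pow_zero, one_mul, sub_self, abs_zero]
      positivity
    · exact hmom (k + 1) (by omega) hk
  have hfj : (1:ℝ) ≤ j.factorial := by exact_mod_cast Nat.one_le_iff_ne_zero.2 (Nat.factorial_ne_zero j)
  have hfm : (1:ℝ) ≤ m.factorial := by exact_mod_cast Nat.one_le_iff_ne_zero.2 (Nat.factorial_ne_zero m)
  have hfj0 : (0:ℝ) < j.factorial := by linarith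
  have hfm0 : (0:ℝ) < m.factorial := by linarith
  -- (1) Bonferroni summed
  have s1 : |((H.filter (fun h => Z h = j)).card : ℝ) -
      (∑ i ∈ range m, (-1 : ℝ) ^ i * M (j + i) / i.factorial) / j.factorial| ≤
      M (j + m) / (j.factorial * m.factorial) := by
    have e1 : ((H.filter (fun h => Z h = j)).card : ℝ) = ∑ h ∈ H, (if Z h = j then (1:ℝ) else 0) := by
      rw [Finset.sum_ite, Finset.sum_const_zero, add_zero, Finset.sum_const, nsmul_eq_mul, mul_one]
    have e2 : (∑ i ∈ range m, (-1 : ℝ) ^ i * M (j + i) / i.factorial) / j.factorial =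
        ∑ h ∈ H, (∑ i ∈ range m, (-1 : ℝ) ^ i * ((Z h).descFactorial (j + i) : ℝ) / i.factorial) /
          j.factorial := by
      rw [← Finset.sum_div, Finset.sum_comm]
      congr 1
      refine Finset.sum_congr rfl fun i _ => ?_
      rw [← Finset.sum_div, ← Finset.mul_sum]
    have e3 : M (j + m) / (j.factorial * m.factorial) =
        ∑ h ∈ H, ((Z h).descFactorial (j + m) : ℝ) / (j.factorial * m.factorial) := by
      rw [← Finset.sum_div]
    rw [e1, e2, e3, ← Finset.sum_sub_distrib]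
    exact (Finset.abs_sum_le_sum_abs _ _).trans (Finset.sum_le_sum fun h _ => bonf (Z h) j m)
  -- (2) the moments
  have hexp1 : ∑ i ∈ range m, 1 / (i.factorial : ℝ) ≤ 3 := by
    have h1 := Real.sum_le_exp_of_nonneg (x := 1) zero_le_one m
    have h2 := Real.exp_one_lt_d9
    have h3 : ∑ i ∈ range m, (1:ℝ) ^ i / i.factorial = ∑ i ∈ range m, 1 / (i.factorial : ℝ) :=
      Finset.sum_congr rfl fun i _ => by rw [one_pow]
    rw [h3] at h1
    linarith
  have s2 : |(∑ i ∈ range m, (-1 : ℝ) ^ i * M (j + i) / i.factorial) / j.factorial -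
      l ^ j / j.factorial * (∑ i ∈ range m, (-l) ^ i / i.factorial) * H.card| ≤
      3 * (ε / 8) * H.card := by
    have e1 : (∑ i ∈ range m, (-1 : ℝ) ^ i * M (j + i) / i.factorial) / j.factorial -
        l ^ j / j.factorial * (∑ i ∈ range m, (-l) ^ i / i.factorial) * H.card =
        (∑ i ∈ range m, (-1 : ℝ) ^ i * (M (j + i) - l ^ (j + i) * H.card) / i.factorial) /
          j.factorial := by
      rw [Finset.sum_div, Finset.mul_sum, Finset.sum_mul, ← Finset.sum_sub_distrib, Finset.sum_div]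
      refine Finset.sum_congr rfl fun i _ => ?_
      rw [neg_pow l i, pow_add]
      ring
    rw [e1, abs_div, abs_of_pos hfj0]
    have h1 : |∑ i ∈ range m, (-1 : ℝ) ^ i * (M (j + i) - l ^ (j + i) * H.card) / i.factorial| ≤
        ∑ i ∈ range m, (ε / 8 * H.card) * (1 / (i.factorial : ℝ)) := by
      refine (Finset.abs_sum_le_sum_abs _ _).trans (Finset.sum_le_sum fun i hi => ?_)
      have hi' := mem_range.1 hi
      rw [abs_div, abs_mul, abs_pow, abs_neg, abs_one, one_pow, one_mul, Nat.abs_cast, mul_one_div]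
      exact div_le_div_of_nonneg_right (hmom' (j + i) (by omega)) (by positivity)
    rw [← Finset.mul_sum] at h1
    have h2 : (ε / 8 * H.card) * ∑ i ∈ range m, 1 / (i.factorial : ℝ) ≤ (ε / 8 * H.card) * 3 :=
      mul_le_mul_of_nonneg_left hexp1 (by positivity)
    have h3 : |∑ i ∈ range m, (-1 : ℝ) ^ i * (M (j + i) - l ^ (j + i) * H.card) / i.factorial| /
        j.factorial ≤ |∑ i ∈ range m, (-1 : ℝ) ^ i * (M (j + i) - l ^ (j + i) * H.card) /
          i.factorial| := div_le_self (abs_nonneg _) hfj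
    linarith
  -- (3) the exponential
  have hlj : l ^ j / j.factorial ≤ L ^ J := by
    calc l ^ j / j.factorial ≤ l ^ j := div_le_self (by positivity) hfj
      _ ≤ L ^ j := pow_le_pow_left₀ hl0 hlL j
      _ ≤ L ^ J := pow_le_pow_right₀ hL1 hj
  have s3 : |l ^ j / j.factorial * (∑ i ∈ range m, (-l) ^ i / i.factorial) * H.card -
      Real.exp (-l) * l ^ j / j.factorial * H.card| ≤ L ^ J * (L ^ m / m.factorial * 2) * H.card := by
    have h1 := exp_bound (-l) m (by
      rw [abs_neg, abs_of_nonneg hl0, div_le_iff₀ (by positivity)]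
      linarith)
    rw [abs_neg, abs_of_nonneg hl0] at h1
    have e1 : l ^ j / j.factorial * (∑ i ∈ range m, (-l) ^ i / i.factorial) * H.card -
        Real.exp (-l) * l ^ j / j.factorial * H.card =
        -(l ^ j / j.factorial * (Real.exp (-l) - ∑ i ∈ range m, (-l) ^ i / i.factorial) * H.card) := by
      ring
    rw [e1, abs_neg, abs_mul, abs_mul, Nat.abs_cast, abs_of_nonneg (show 0 ≤ l ^ j / j.factorial by
      positivity)]
    refine mul_le_mul_of_nonneg_right ?_ hH
    refine mul_le_mul hlj (h1.trans ?_) (abs_nonneg _) (by positivity)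
    have : l ^ m ≤ L ^ m := pow_le_pow_left₀ hl0 hlL m
    gcongr
  -- (4) the remainder
  have s4 : M (j + m) / (j.factorial * m.factorial) ≤
      (L ^ J * (L ^ m / m.factorial) + ε / 8) * H.card := by
    have h1 := (abs_le.1 (hmom' (j + m) (by omega))).2
    have h2 : l ^ (j + m) ≤ L ^ J * L ^ m := by
      rw [pow_add]
      have a1 : l ^ j ≤ L ^ J := (pow_le_pow_left₀ hl0 hlL j).trans (pow_le_pow_right₀ hL1 hj)
      exact mul_le_mul a1 (pow_le_pow_left₀ hl0 hlL m) (by positivity) (by positivity)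
    have h3 : M (j + m) ≤ (L ^ J * L ^ m) * H.card + ε / 8 * H.card := by
      have := mul_le_mul_of_nonneg_right h2 hH
      linarith
    have h4 : M (j + m) / (j.factorial * m.factorial) ≤
        ((L ^ J * L ^ m) * H.card + ε / 8 * H.card) / (j.factorial * m.factorial) :=
      div_le_div_of_nonneg_right h3 (by positivity)
    refine h4.trans ?_
    have h5 : ((L ^ J * L ^ m) * (H.card:ℝ) + ε / 8 * H.card) / (j.factorial * m.factorial) ≤
        ((L ^ J * L ^ m) * (H.card:ℝ) + ε / 8 * H.card) / (m.factorial) := by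
      apply div_le_div_of_nonneg_left (by positivity) hfm0
      nlinarith
    refine h5.trans ?_
    rw [add_div]
    have h6 : ε / 8 * (H.card:ℝ) / m.factorial ≤ ε / 8 * H.card := div_le_self (by positivity) hfm
    have h7 : (L ^ J * L ^ m) * (H.card:ℝ) / m.factorial = L ^ J * (L ^ m / m.factorial) * H.card := by
      ring
    rw [h7]
    nlinarith
  have key : L ^ J * (L ^ m / m.factorial) * 3 ≤ ε / 2 := by
    have : 3 * L ^ J * (L ^ m / m.factorial) = L ^ J * (L ^ m / m.factorial) * 3 := by ring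
    rw [← this]
    exact hm1
  have hkey : (L ^ J * (L ^ m / m.factorial) * 3) * H.card ≤ ε / 2 * H.card :=
    mul_le_mul_of_nonneg_right key hH
  have t1 := abs_sub_le ((H.filter (fun h => Z h = j)).card : ℝ)
    ((∑ i ∈ range m, (-1 : ℝ) ^ i * M (j + i) / i.factorial) / j.factorial)
    (Real.exp (-l) * l ^ j / j.factorial * H.card)
  have t2 := abs_sub_le ((∑ i ∈ range m, (-1 : ℝ) ^ i * M (j + i) / i.factorial) / j.factorial)
    (l ^ j / j.factorial * (∑ i ∈ range m, (-l) ^ i / i.factorial) * H.card)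
    (Real.exp (-l) * l ^ j / j.factorial * H.card)
  nlinarith

end Pool.Agent.Lib.LEN
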