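import Pool.Agent.Lib.MP.Fund
import Pool.Agent.Lib.MP.Short
import Pool.Agent.Lib.MP.PDat

/-!
# Rough numbers in a window, from below

PROOF SKETCH. `MP.fund 1 (1/2)`: lower weights L of level (z+1)^K. The number of a in (Y, Y+X] without
prime factor ≤ z is ≥ ∑ L s #{a : ∏ s ∣ a} ≥ X (1/2) DZ z - (z+1)^K.
-/

set_option autoImplicit false

open Finset

namespace Pool.Agent.Lib.LEN

open Pool.Agent.HLB Pool.Agent.Lib.MP Pool.Agent.Lib.MP.ShortAux

/-- The integers in (Y, Y+X] without prime factor ≤ z. -/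
def rgh (z Y X : ℕ) : Finset ℕ :=
  (Finset.Ioc Y (Y + X)).filter (fun a => ∀ p ∈ Nat.primesLE z, ¬ p ∣ a)

theorem count_ge (z' y z N : ℕ) (U : Finset ℕ → ℝ) (hU1 : ∀ s, |U s| ≤ 1)
    (hlev : ∀ s ∈ (Nat.primesLE z').powerset, U s ≠ 0 → ∏ p ∈ s, p ≤ N)
    (hlo : ∀ h : ℕ → ℝ, (∀ p, 0 ≤ h p ∧ h p ≤ 1) →
        ∑ s ∈ (Nat.primesLE z').powerset, U s * ∏ p ∈ s, h p ≤ ∏ p ∈ Nat.primesLE z', (1 - h p)) :
    (z : ℝ) * (∑ s ∈ (Nat.primesLE z').powerset, U s * ∏ p ∈ s, (1 / (p:ℝ))) - N ≤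
      ((rgh z' y z).card : ℝ) := by
  have h1 : ∑ a ∈ Finset.Ioc y (y + z), ∑ s ∈ (Nat.primesLE z').powerset,
        U s * ∏ p ∈ s, (if p ∣ a then (1:ℝ) else 0) ≤ ((rgh z' y z).card : ℝ) := by
    unfold rgh
    rw [Finset.card_filter]
    push_cast
    refine Finset.sum_le_sum fun a _ => ?_
    have h2 := hlo (fun p => if p ∣ a then (1:ℝ) else 0)
      (fun p => by by_cases hp : p ∣ a <;> simp [hp])
    refine h2.trans ?_
    by_cases h3 : ∀ p ∈ Nat.primesLE z', ¬ p ∣ a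
    · rw [if_pos h3]
      refine le_of_eq (Finset.prod_eq_one fun p hp => ?_)
      rw [if_neg (h3 p hp), sub_zero]
    · rw [if_neg h3]
      push Not at h3
      obtain ⟨p, hp, hpa⟩ := h3
      refine le_of_eq (Finset.prod_eq_zero hp ?_)
      rw [if_pos hpa, sub_self]
  refine le_trans ?_ h1
  rw [Finset.sum_comm]
  have h4 : ∀ s ∈ (Nat.primesLE z').powerset,
      ∑ a ∈ Finset.Ioc y (y + z), U s * ∏ p ∈ s, (if p ∣ a then (1:ℝ) else 0) =
      U s * (((Finset.Ioc y (y + z)).filter (fun a => (∏ p ∈ s, p) ∣ a)).card : ℝ) := by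
    intro s hs
    rw [← Finset.mul_sum]
    congr 1
    rw [Finset.card_filter]
    push_cast
    refine Finset.sum_congr rfl fun a _ => ?_
    exact prod_ind s (fun p hp => Nat.prime_of_mem_primesLE (Finset.mem_powerset.mp hs hp)) a
  rw [Finset.sum_congr rfl h4, Finset.mul_sum]
  have h5 : ∀ s ∈ (Nat.primesLE z').powerset,
      (z:ℝ) * (U s * ∏ p ∈ s, (1 / (p:ℝ))) - (if U s ≠ 0 then 1 else 0) ≤
      U s * (((Finset.Ioc y (y + z)).filter (fun a => (∏ p ∈ s, p) ∣ a)).card : ℝ) := by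
    intro s hs
    have hpos : 0 < ∏ p ∈ s, p := Finset.prod_pos fun p hp =>
      (Nat.prime_of_mem_primesLE (Finset.mem_powerset.mp hs hp)).pos
    have h6 := card_dvd_abs y z (∏ p ∈ s, p) hpos
    have h7 : ∏ p ∈ s, (1 / (p:ℝ)) = 1 / ((∏ p ∈ s, p : ℕ) : ℝ) := by
      push_cast
      rw [Finset.prod_div_distrib, Finset.prod_const_one]
    rw [h7]
    by_cases h8 : U s = 0
    · rw [if_neg (by simp [h8]), h8]; simp
    · rw [if_pos h8]
      have h9 : |U s * ((((Finset.Ioc y (y + z)).filter (fun a => (∏ p ∈ s, p) ∣ a)).card : ℝ) -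
          (z:ℝ) / ((∏ p ∈ s, p : ℕ) : ℝ))| ≤ 1 := by
        rw [abs_mul]
        exact mul_le_one₀ (hU1 s) (abs_nonneg _) h6
      have h10 := (abs_le.mp h9).1
      have h11 : (z:ℝ) * (U s * (1 / ((∏ p ∈ s, p : ℕ) : ℝ))) =
          U s * ((z:ℝ) / ((∏ p ∈ s, p : ℕ) : ℝ)) := by ring
      rw [h11]
      linarith
  have h12 := Finset.sum_le_sum h5
  rw [Finset.sum_sub_distrib, ← Finset.sum_filter, Finset.sum_const, nsmul_eq_mul, mul_one] at h12
  have h13 := card_level z' N U hlev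
  linarith

/-- The sieve lower bound. -/
theorem rgh_lower : ∃ K : ℕ, ∀ z Y X : ℕ,
    (1/2 : ℝ) * X * DZ z - ((z + 1) ^ K : ℕ) ≤ ((rgh z Y X).card : ℝ) := by
  obtain ⟨K, hK⟩ := fund 1 (ε := 1/2) (by norm_num)
  refine ⟨K, fun z Y X => ?_⟩
  obtain ⟨L, U, hL1, -, hlev, hlo, hg⟩ := hK z
  have h1 := count_ge z Y X ((z+1)^K) L hL1 (fun s hs hne => hlev s hs (Or.inl hne))
    (fun h hh => (hlo h hh).1)
  have h2 := (hg (fun p => 1 / (p:ℝ)) ?_).1
  · have h3 : (1 - 1/2 : ℝ) * DZ z ≤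
        ∑ s ∈ (Nat.primesLE z).powerset, L s * ∏ p ∈ s, (1 / (p:ℝ)) := h2
    have h4 : (X:ℝ) * ((1 - 1/2 : ℝ) * DZ z) ≤
        X * ∑ s ∈ (Nat.primesLE z).powerset, L s * ∏ p ∈ s, (1 / (p:ℝ)) :=
      mul_le_mul_of_nonneg_left h3 (Nat.cast_nonneg _)
    linarith
  · intro p hp
    have hp1 : (1:ℝ) ≤ p := by exact_mod_cast (Nat.prime_of_mem_primesLE hp).one_lt.le
    have hp0 : (0:ℝ) < p := by linarith
    refine ⟨by positivity, ?_, ?_⟩
    · rw [div_le_one hp0]; exact hp1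
    · rw [one_div, inv_mul_le_iff₀ hp0]
      push_cast
      linarith

end Pool.Agent.Lib.LEN
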