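import Pool.Agent.Lib.LEN.Cls0
import Pool.Agent.Lib.GMV.Compl

/-!
# LEN.SingA: first and second moments of the local factors over a class of tuples

`f_p(h) = locI h p = (1/p) ∑_{n < p} ∏_i ph p n (h i)`, `ph p n x = 0` if `p ∣ n + x` and `(1 - 1/p)⁻¹` otherwise. The mean over
the tuples of `Hc N w a` of a product over `i` is a product of means over the classes `cls N w (a i)`.
-/

set_option autoImplicit false

open Finset Filter

namespace Pool.Agent.Lib.LEN

open Pool.Agent.HLB Pool.Agent.HLT Pool.Agent.HLR Pool.Agent.Lib.GMV Cls0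

namespace SingAux

/-- The local weight. -/
noncomputable def ph (p n x : ℕ) : ℝ := if p ∣ n + x then 0 else (1 - 1 / (p : ℝ))⁻¹

/-- Indicator of `p ∣ n + x`. -/
noncomputable def ind (p n x : ℕ) : ℝ := if p ∣ n + x then 1 else 0

lemma ph_eq (p n x : ℕ) : ph p n x = (1 - 1 / (p : ℝ))⁻¹ * (1 - ind p n x) := by
  unfold ph ind
  split_ifs <;> simp

lemma sum_ind (C : Finset ℕ) (p n : ℕ) :
    ∑ x ∈ C, ind p n x = ((C.filter fun x => p ∣ n + x).card : ℝ) := by
  unfold ind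
  rw [← sum_filter, sum_const, nsmul_eq_mul, mul_one]

lemma dvd_add_iff (t : ℕ) (ht : 1 ≤ t) (n x : ℕ) : t ∣ n + x ↔ x ≡ (t - 1) * n [MOD t] := by
  obtain ⟨s, rfl⟩ : ∃ s, t = s + 1 := ⟨t - 1, by omega⟩
  rw [Nat.add_sub_cancel]
  have h1 : n + s * n = (s + 1) * n := by ring
  constructor
  · intro h
    have h2 : n + x ≡ n + s * n [MOD s + 1] := by
      rw [h1]
      exact ((Nat.modEq_zero_iff_dvd).2 h).trans ((Nat.modEq_zero_iff_dvd).2 (dvd_mul_right _ _)).symm
    exact Nat.ModEq.add_left_cancel' n h2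
  · intro h
    have h2 : n + x ≡ n + s * n [MOD s + 1] := Nat.ModEq.add_left n h
    rw [h1] at h2
    exact (Nat.modEq_zero_iff_dvd).1 (h2.trans ((Nat.modEq_zero_iff_dvd).2 (dvd_mul_right _ _)))

/-- Two divisibility conditions in a class. -/
lemma cnt_two (N w c t s : ℕ) (ht : 1 ≤ t) (hs : 1 ≤ s) (htP : Nat.Coprime (PP w) t)
    (hsP : Nat.Coprime (PP w) s) (hts : Nat.Coprime t s) (n m : ℕ) :
    |(((cls N w c).filter fun x => t ∣ n + x ∧ s ∣ m + x).card : ℝ) - (cls N w c).card / (t * s)| ≤ 2 := by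
  have hP := PP_pos w
  obtain ⟨c1, h1, h2⟩ := Nat.chineseRemainder hts ((t - 1) * n) ((s - 1) * m)
  have hPts : Nat.Coprime (PP w) (t * s) := Nat.Coprime.mul_right htP hsP
  obtain ⟨c2, h3, h4⟩ := Nat.chineseRemainder hPts c c1
  have e : (cls N w c).filter (fun x => t ∣ n + x ∧ s ∣ m + x) =
      (Icc 1 N).filter (fun x => x ≡ c2 [MOD (PP w * (t * s))]) := by
    rw [cls_eq, filter_filter]
    refine filter_congr fun x _ => ?_
    rw [dvd_add_iff t ht, dvd_add_iff s hs, ← Nat.modEq_and_modEq_iff_modEq_mul hPts,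
      ← Nat.modEq_and_modEq_iff_modEq_mul hts]
    have k1 : c2 ≡ (t - 1) * n [MOD t] := (h4.of_mul_right s).trans h1
    have k2 : c2 ≡ (s - 1) * m [MOD s] := (h4.of_mul_left t).trans h2
    constructor
    · rintro ⟨g1, g2, g3⟩
      exact ⟨g1.trans h3.symm, g2.trans k1.symm, g3.trans k2.symm⟩
    · rintro ⟨g1, g2, g3⟩
      exact ⟨g1.trans h3, g2.trans k1, g3.trans k2⟩
  rw [e]
  have a1 := abs_le.1 (card_class' (PP w * (t * s)) (Nat.mul_pos hP (Nat.mul_pos ht hs)) c2 N)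
  have a2 := abs_le.1 (card_class' (PP w) hP c N)
  rw [← cls_eq] at a2
  have hts1 : (1 : ℝ) ≤ (t : ℝ) * s := by
    exact_mod_cast Nat.mul_pos ht hs
  have hts0 : (0 : ℝ) < (t : ℝ) * s := by linarith
  push_cast at a1
  have e2 : (N : ℝ) / (PP w * (t * s)) = N / PP w / (t * s) := by rw [div_div]
  rw [e2] at a1
  have b1 : ((cls N w c).card : ℝ) / (t * s) ≤ N / PP w / (t * s) + 1 := by
    have : ((cls N w c).card : ℝ) / (t * s) ≤ (N / PP w + 1) / (t * s) :=
      div_le_div_of_nonneg_right (by linarith [a2.2]) hts0.le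
    rw [add_div] at this
    have h5 : 1 / ((t : ℝ) * s) ≤ 1 := by
      rw [div_le_one hts0]
      exact hts1
    linarith
  have b2 : (N : ℝ) / PP w / (t * s) - 1 ≤ (cls N w c).card / (t * s) := by
    have : ((N : ℝ) / PP w - 1) / (t * s) ≤ ((cls N w c).card : ℝ) / (t * s) :=
      div_le_div_of_nonneg_right (by linarith [a2.1]) hts0.le
    rw [sub_div] at this
    have h5 : 1 / ((t : ℝ) * s) ≤ 1 := by
      rw [div_le_one hts0]
      exact hts1
    linarith
  rw [abs_le]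
  constructor <;> linarith [a1.1, a1.2]

lemma cnt_one (N w c t : ℕ) (ht : 1 ≤ t) (htP : Nat.Coprime (PP w) t) (n : ℕ) :
    |(((cls N w c).filter fun x => t ∣ n + x).card : ℝ) - (cls N w c).card / t| ≤ 2 := by
  have h := cnt_two N w c t 1 ht le_rfl htP (Nat.coprime_one_right _) (Nat.coprime_one_right _) n 0
  have e : (cls N w c).filter (fun x => t ∣ n + x ∧ 1 ∣ 0 + x) =
      (cls N w c).filter (fun x => t ∣ n + x) := by
    refine filter_congr fun x _ => ?_
    simp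
  rw [e] at h
  simpa using h

lemma inv_bounds {p : ℕ} (hp : 2 ≤ p) : 0 < 1 - 1 / (p : ℝ) ∧ 1 ≤ (1 - 1 / (p : ℝ))⁻¹ ∧
    (1 - 1 / (p : ℝ))⁻¹ ≤ 2 := by
  have h2 : (2 : ℝ) ≤ p := by exact_mod_cast hp
  have h4 : 1 / (p : ℝ) ≤ 1 / 2 := one_div_le_one_div_of_le (by norm_num) h2
  have h5 : 0 ≤ 1 / (p : ℝ) := by positivity
  have h3 : 0 < 1 - 1 / (p : ℝ) := by linarith
  refine ⟨h3, (one_le_inv₀ h3).2 (by linarith), ?_⟩
  rw [inv_le_comm₀ h3 (by norm_num)]
  norm_num
  norm_num at h4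
  linarith

/-- First mean. -/
lemma mu_one (N w c p n : ℕ) (hp : p.Prime) (hw : w < p) :
    |∑ x ∈ cls N w c, ph p n x - (cls N w c).card| ≤ 4 := by
  have hc := abs_le.1 (cnt_one N w c p hp.one_lt.le (prime_coprime_PP hp hw).symm n)
  obtain ⟨u0, u1, u2⟩ := inv_bounds hp.two_le
  have e : ∑ x ∈ cls N w c, ph p n x = (1 - 1 / (p : ℝ))⁻¹ *
      ((cls N w c).card - (((cls N w c).filter fun x => p ∣ n + x).card : ℝ)) := by
    rw [← sum_ind]
    simp_rw [ph_eq]
    rw [← mul_sum, sum_sub_distrib, sum_const, nsmul_eq_mul, mul_one]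
  set M : ℝ := ((cls N w c).card : ℝ)
  set c1 : ℝ := ((((cls N w c).filter fun x => p ∣ n + x).card : ℝ))
  have e2 : (1 - 1 / (p : ℝ))⁻¹ * (M - c1) - M = (1 - 1 / (p : ℝ))⁻¹ * (M / p - c1) := by
    have : (1 - 1 / (p : ℝ))⁻¹ * (M - c1) - (1 - 1 / (p : ℝ))⁻¹ * ((1 - 1 / (p : ℝ)) * M) =
        (1 - 1 / (p : ℝ))⁻¹ * (M / p - c1) := by ring
    rw [← this, ← mul_assoc, inv_mul_cancel₀ u0.ne', one_mul]
  rw [e, e2, abs_mul, abs_of_pos (by linarith)]
  have h3 : |M / p - c1| ≤ 2 := by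
    rw [abs_le]
    constructor <;> linarith [hc.1, hc.2]
  calc (1 - 1 / (p : ℝ))⁻¹ * |M / p - c1| ≤ 2 * 2 := mul_le_mul u2 h3 (abs_nonneg _) (by norm_num)
    _ = 4 := by norm_num

/-- Mixed mean. -/
lemma mu_two (N w c p q n m : ℕ) (hp : p.Prime) (hw : w < p) (hq : q.Prime) (hwq : w < q)
    (hpq : p ≠ q) : |∑ x ∈ cls N w c, ph p n x * ph q m x - (cls N w c).card| ≤ 24 := by
  have hc1 := abs_le.1 (cnt_one N w c p hp.one_lt.le (prime_coprime_PP hp hw).symm n)
  have hc2 := abs_le.1 (cnt_one N w c q hq.one_lt.le (prime_coprime_PP hq hwq).symm m)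
  have hc3 := abs_le.1 (cnt_two N w c p q hp.one_lt.le hq.one_lt.le (prime_coprime_PP hp hw).symm
    (prime_coprime_PP hq hwq).symm ((Nat.coprime_primes hp hq).2 hpq) n m)
  obtain ⟨u0, u1, u2⟩ := inv_bounds hp.two_le
  obtain ⟨v0, v1, v2⟩ := inv_bounds hq.two_le
  set M : ℝ := ((cls N w c).card : ℝ) with hM
  set u : ℝ := (1 - 1 / (p : ℝ))⁻¹ with hu
  set v : ℝ := (1 - 1 / (q : ℝ))⁻¹ with hv
  have e : ∑ x ∈ cls N w c, ph p n x * ph q m x = u * v *
      (M - (((cls N w c).filter fun x => p ∣ n + x).card : ℝ) -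
        (((cls N w c).filter fun x => q ∣ m + x).card : ℝ) +
        (((cls N w c).filter fun x => p ∣ n + x ∧ q ∣ m + x).card : ℝ)) := by
    have e1 : ∀ x ∈ cls N w c, ph p n x * ph q m x = u * v * (1 - ind p n x - ind q m x +
        (if p ∣ n + x ∧ q ∣ m + x then 1 else 0)) := by
      intro x _
      rw [ph_eq, ph_eq]
      have : ind p n x * ind q m x = if p ∣ n + x ∧ q ∣ m + x then 1 else 0 := by
        unfold ind
        by_cases h1 : p ∣ n + x <;> by_cases h2 : q ∣ m + x <;> simp [h1, h2]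
      rw [← this]
      ring
    rw [sum_congr rfl e1, ← mul_sum, sum_add_distrib, sum_sub_distrib, sum_sub_distrib, sum_ind,
      sum_ind, ← sum_filter, sum_const, sum_const, nsmul_eq_mul, nsmul_eq_mul, mul_one, mul_one]
  set c1 : ℝ := ((((cls N w c).filter fun x => p ∣ n + x).card : ℝ))
  set c2 : ℝ := ((((cls N w c).filter fun x => q ∣ m + x).card : ℝ))
  set c3 : ℝ := ((((cls N w c).filter fun x => p ∣ n + x ∧ q ∣ m + x).card : ℝ))
  have huv : u * v * ((1 - 1 / (p : ℝ)) * (1 - 1 / (q : ℝ))) = 1 := by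
    have h1 : u * (1 - 1 / (p : ℝ)) = 1 := inv_mul_cancel₀ u0.ne'
    have h2 : v * (1 - 1 / (q : ℝ)) = 1 := inv_mul_cancel₀ v0.ne'
    calc u * v * ((1 - 1 / (p : ℝ)) * (1 - 1 / (q : ℝ))) =
          (u * (1 - 1 / (p : ℝ))) * (v * (1 - 1 / (q : ℝ))) := by ring
      _ = 1 := by rw [h1, h2, one_mul]
  have e2 : u * v * (M - c1 - c2 + c3) - M = u * v * ((M / p - c1) + (M / q - c2) + (c3 - M / (p * q))) := by
    have hp0 : (p : ℝ) ≠ 0 := by exact_mod_cast hp.ne_zero
    have hq0 : (q : ℝ) ≠ 0 := by exact_mod_cast hq.ne_zero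
    have h3 : M = u * v * ((1 - 1 / (p : ℝ)) * (1 - 1 / (q : ℝ))) * M := by rw [huv, one_mul]
    have h4 : (1 - 1 / (p : ℝ)) * (1 - 1 / (q : ℝ)) * M = M - M / p - M / q + M / (p * q) := by
      field_simp
      ring
    calc u * v * (M - c1 - c2 + c3) - M = u * v * (M - c1 - c2 + c3) -
          u * v * ((1 - 1 / (p : ℝ)) * (1 - 1 / (q : ℝ))) * M := by rw [← h3]
      _ = u * v * (M - c1 - c2 + c3) - u * v * ((1 - 1 / (p : ℝ)) * (1 - 1 / (q : ℝ)) * M) := by ring
      _ = u * v * (M - c1 - c2 + c3) - u * v * (M - M / p - M / q + M / (p * q)) := by rw [h4]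
      _ = _ := by ring
  have huv0 : 0 ≤ u * v := by positivity
  have huv4 : u * v ≤ 4 := by nlinarith
  rw [e, e2, abs_mul, abs_of_nonneg huv0]
  have h3 : |(M / p - c1) + (M / q - c2) + (c3 - M / (p * q))| ≤ 6 := by
    rw [abs_le]
    constructor <;> linarith [hc1.1, hc1.2, hc2.1, hc2.2, hc3.1, hc3.2]
  calc u * v * |(M / p - c1) + (M / q - c2) + (c3 - M / (p * q))| ≤ 4 * 6 :=
        mul_le_mul huv4 h3 (abs_nonneg _) (by norm_num)
    _ = 24 := by norm_num

/-- The mean of a square. -/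
lemma mu_sq (N w c p n : ℕ) (hp : p.Prime) (hw : w < p) :
    ∑ x ∈ cls N w c, ph p n x * ph p n x ≤ (1 - 1 / (p : ℝ))⁻¹ * ((cls N w c).card + 4) := by
  have h := (abs_le.1 (mu_one N w c p n hp hw)).2
  obtain ⟨u0, u1, u2⟩ := inv_bounds hp.two_le
  have e : ∑ x ∈ cls N w c, ph p n x * ph p n x = (1 - 1 / (p : ℝ))⁻¹ * ∑ x ∈ cls N w c, ph p n x := by
    rw [mul_sum]
    refine sum_congr rfl fun x _ => ?_
    unfold ph
    split_ifs <;> simp
  rw [e]
  exact mul_le_mul_of_nonneg_left (by linarith) (by linarith)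

/-- Two different residues. -/
lemma mu_diff (N w c p n m : ℕ) (hp : p.Prime) (hw : w < p) (hnm : ¬ n ≡ m [MOD p]) (h3 : 3 ≤ p) :
    ∑ x ∈ cls N w c, ph p n x * ph p m x ≤ (1 - 1 / ((p : ℝ) - 1) ^ 2) * (cls N w c).card + 16 := by
  have hc1 := abs_le.1 (cnt_one N w c p hp.one_lt.le (prime_coprime_PP hp hw).symm n)
  have hc2 := abs_le.1 (cnt_one N w c p hp.one_lt.le (prime_coprime_PP hp hw).symm m)
  obtain ⟨u0, u1, u2⟩ := inv_bounds hp.two_le
  set M : ℝ := ((cls N w c).card : ℝ) with hM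
  set u : ℝ := (1 - 1 / (p : ℝ))⁻¹ with hu
  have e : ∑ x ∈ cls N w c, ph p n x * ph p m x = u * u *
      (M - (((cls N w c).filter fun x => p ∣ n + x).card : ℝ) -
        (((cls N w c).filter fun x => p ∣ m + x).card : ℝ)) := by
    have e1 : ∀ x ∈ cls N w c, ph p n x * ph p m x = u * u * (1 - ind p n x - ind p m x) := by
      intro x _
      rw [ph_eq, ph_eq]
      have : ind p n x * ind p m x = 0 := by
        unfold ind
        by_cases h1 : p ∣ n + x
        · by_cases h2 : p ∣ m + x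
          · exfalso
            apply hnm
            have k1 : n + x ≡ m + x [MOD p] :=
              ((Nat.modEq_zero_iff_dvd).2 h1).trans ((Nat.modEq_zero_iff_dvd).2 h2).symm
            exact Nat.ModEq.add_right_cancel' x k1
          · simp [h2]
        · simp [h1]
      have h4 : u * (1 - ind p n x) * (u * (1 - ind p m x)) =
          u * u * (1 - ind p n x - ind p m x + ind p n x * ind p m x) := by ring
      rw [h4, this, add_zero]
    rw [sum_congr rfl e1, ← mul_sum, sum_sub_distrib, sum_sub_distrib, sum_ind,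
      sum_ind, sum_const, nsmul_eq_mul, mul_one]
  set c1 : ℝ := ((((cls N w c).filter fun x => p ∣ n + x).card : ℝ))
  set c2 : ℝ := ((((cls N w c).filter fun x => p ∣ m + x).card : ℝ))
  have hp3 : (3 : ℝ) ≤ p := by exact_mod_cast h3
  have hp1 : (p : ℝ) - 1 ≠ 0 := by linarith
  have hp0 : (p : ℝ) ≠ 0 := by linarith
  have hue : u = p / ((p : ℝ) - 1) := by
    rw [hu]
    field_simp
  have e2 : u * u * (M - M / p - M / p) = (1 - 1 / ((p : ℝ) - 1) ^ 2) * M := by
    rw [hue]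
    field_simp
    ring
  have huu : u * u ≤ 4 := by nlinarith
  have hu0 : 0 ≤ u * u := by positivity
  rw [e]
  have h5 : M - c1 - c2 ≤ (M - M / p - M / p) + 4 := by linarith [hc1.1, hc2.1]
  calc u * u * (M - c1 - c2) ≤ u * u * ((M - M / p - M / p) + 4) := mul_le_mul_of_nonneg_left h5 hu0
    _ = u * u * (M - M / p - M / p) + 4 * (u * u) := by ring
    _ ≤ (1 - 1 / ((p : ℝ) - 1) ^ 2) * M + 16 := by rw [e2]; linarith

/-- The mean over the tuples of a class. -/
noncomputable def EE {r : ℕ} (N w : ℕ) (a : Fin r → ℕ) (F : (Fin r → ℕ) → ℝ) : ℝ :=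
  (∑ h ∈ Hc N w a, F h) / (Hc N w a).card

lemma EE_prod {r : ℕ} (N w : ℕ) (a : Fin r → ℕ) (f : ℕ → ℝ) :
    EE N w a (fun h => ∏ i, f (h i)) =
      ∏ i, ((∑ x ∈ cls N w (a i), f x) / (cls N w (a i)).card) := by
  unfold EE Hc
  rw [Fintype.card_piFinset, Nat.cast_prod, prod_div_distrib, Finset.prod_univ_sum]

lemma EE_sum {r : ℕ} (N w : ℕ) (a : Fin r → ℕ) {α : Type*} (S : Finset α)
    (F : α → (Fin r → ℕ) → ℝ) :
    EE N w a (fun h => ∑ s ∈ S, F s h) = ∑ s ∈ S, EE N w a (F s) := by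
  unfold EE
  rw [sum_comm, sum_div]

lemma EE_div {r : ℕ} (N w : ℕ) (a : Fin r → ℕ) (F : (Fin r → ℕ) → ℝ) (c : ℝ) :
    EE N w a (fun h => F h / c) = EE N w a F / c := by
  unfold EE
  rw [← sum_div]
  ring

lemma EE_lin {r : ℕ} (N w : ℕ) (a : Fin r → ℕ) (F G H : (Fin r → ℕ) → ℝ)
    (hH : (Hc N w a).Nonempty) :
    EE N w a (fun h => F h - G h - H h + 1) = EE N w a F - EE N w a G - EE N w a H + 1 := by
  unfold EE
  have h0 : ((Hc N w a).card : ℝ) ≠ 0 := by
    have := card_pos.2 hH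
    positivity
  rw [sum_add_distrib, sum_sub_distrib, sum_sub_distrib, sum_const, nsmul_eq_mul, mul_one]
  field_simp

lemma locI_eq {r : ℕ} (p : ℕ) (hp : p.Prime) (h : Fin r → ℕ) :
    locI h p = (∑ n ∈ range p, ∏ i, ph p n (h i)) / p := by
  have h1 := ComplAux.sum_ur hp h
  have hp0 : (p : ℝ) ≠ 0 := by exact_mod_cast hp.ne_zero
  rw [eq_div_iff hp0, mul_comm, ← h1]
  rfl

lemma EE_locI {r : ℕ} (N w : ℕ) (a : Fin r → ℕ) (p : ℕ) (hp : p.Prime) :
    EE N w a (fun h => locI h p) = (∑ n ∈ range p, ∏ i,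
      ((∑ x ∈ cls N w (a i), ph p n x) / (cls N w (a i)).card)) / p := by
  have e : (fun h : Fin r → ℕ => locI h p) = fun h => (∑ n ∈ range p, ∏ i, ph p n (h i)) / p := by
    funext h
    exact locI_eq p hp h
  rw [e, EE_div, EE_sum]
  congr 1
  refine sum_congr rfl fun n _ => ?_
  exact EE_prod N w a (ph p n)

lemma EE_locI_mul {r : ℕ} (N w : ℕ) (a : Fin r → ℕ) (p q : ℕ) (hp : p.Prime) (hq : q.Prime) :
    EE N w a (fun h => locI h p * locI h q) = (∑ n ∈ range p, ∑ m ∈ range q, ∏ i,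
      ((∑ x ∈ cls N w (a i), ph p n x * ph q m x) / (cls N w (a i)).card)) / (p * q) := by
  have e : (fun h : Fin r → ℕ => locI h p * locI h q) = fun h =>
      (∑ n ∈ range p, ∑ m ∈ range q, ∏ i, (ph p n (h i) * ph q m (h i))) / (p * q) := by
    funext h
    rw [locI_eq p hp h, locI_eq q hq h, div_mul_div_comm, sum_mul_sum]
    congr 1
    refine sum_congr rfl fun n _ => sum_congr rfl fun m _ => ?_
    rw [prod_mul_distrib]
  rw [e, EE_div, EE_sum]
  congr 1
  refine sum_congr rfl fun n _ => ?_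
  rw [EE_sum]
  refine sum_congr rfl fun m _ => ?_
  exact EE_prod N w a (fun x => ph p n x * ph q m x)

section moments

variable {r N w : ℕ} (a : Fin r → ℕ) {m0 : ℝ}

lemma div_bound {S M m0 c : ℝ} (hM : m0 ≤ M) (hm0 : 0 < m0) (hc : 0 ≤ c) (hc2 : c ≤ 24)
    (h : |S - M| ≤ c) : 1 - 24 / m0 ≤ S / M ∧ S / M ≤ 1 + 24 / m0 := by
  have hM0 : 0 < M := by linarith
  have h1 := abs_le.1 h
  have h2 : c / M ≤ 24 / m0 := div_le_div₀ (by norm_num) hc2 hm0 hM
  have h3 : S / M = 1 + (S - M) / M := by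
    field_simp
    ring
  have h4 : -(c / M) ≤ (S - M) / M := by
    rw [← neg_div]
    exact div_le_div_of_nonneg_right h1.1 hM0.le
  have h5 : (S - M) / M ≤ c / M := div_le_div_of_nonneg_right h1.2 hM0.le
  constructor <;> linarith

/-- First moment. -/
lemma first_ge (hm0 : 24 ≤ m0) (hm : ∀ c, m0 ≤ (cls N w c).card) (p : ℕ) (hp : p.Prime)
    (hw : w < p) : 1 - r * (24 / m0) ≤ EE N w a (fun h => locI h p) := by
  have hm00 : 0 < m0 := by linarith
  have he : 24 / m0 ≤ 1 := by rw [div_le_one hm00]; exact hm0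
  have he0 : 0 ≤ 24 / m0 := by positivity
  rw [EE_locI N w a p hp]
  have hp0 : (0 : ℝ) < p := by exact_mod_cast hp.pos
  rw [le_div_iff₀ hp0]
  have h1 : ∀ n ∈ range p, 1 - r * (24 / m0) ≤ ∏ i,
      ((∑ x ∈ cls N w (a i), ph p n x) / (cls N w (a i)).card) := by
    intro n _
    calc 1 - r * (24 / m0) = 1 + r * (-(24 / m0)) := by ring
      _ ≤ (1 + -(24 / m0)) ^ r := one_add_mul_le_pow (by linarith) r
      _ = ∏ _i : Fin r, (1 + -(24 / m0)) := by rw [prod_const, card_univ, Fintype.card_fin]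
      _ ≤ _ := by
        refine prod_le_prod (fun _ _ => by linarith) fun i _ => ?_
        have := (div_bound (hm (a i)) hm00 (by norm_num) (by norm_num)
          (mu_one N w (a i) p n hp hw)).1
        linarith
  calc (1 - r * (24 / m0)) * p = ∑ _n ∈ range p, (1 - r * (24 / m0)) := by
        rw [sum_const, card_range, nsmul_eq_mul]
        ring
    _ ≤ _ := sum_le_sum h1

/-- Mixed moment. -/
lemma mixed_le (hm0 : 24 ≤ m0) (hm : ∀ c, m0 ≤ (cls N w c).card) (p q : ℕ) (hp : p.Prime)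
    (hw : w < p) (hq : q.Prime) (hwq : w < q) (hpq : p ≠ q) :
    EE N w a (fun h => locI h p * locI h q) ≤ Real.exp (r * (24 / m0)) := by
  have hm00 : 0 < m0 := by linarith
  have he : 24 / m0 ≤ 1 := by rw [div_le_one hm00]; exact hm0
  have he0 : 0 ≤ 24 / m0 := by positivity
  rw [EE_locI_mul N w a p q hp hq]
  have hp0 : (0 : ℝ) < p := by exact_mod_cast hp.pos
  have hq0 : (0 : ℝ) < q := by exact_mod_cast hq.pos
  rw [div_le_iff₀ (by positivity)]
  have h1 : ∀ n ∈ range p, ∀ m ∈ range q, ∏ i,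
      ((∑ x ∈ cls N w (a i), ph p n x * ph q m x) / (cls N w (a i)).card) ≤
      Real.exp (r * (24 / m0)) := by
    intro n _ m _
    calc ∏ i, ((∑ x ∈ cls N w (a i), ph p n x * ph q m x) / (cls N w (a i)).card)
        ≤ ∏ _i : Fin r, (1 + 24 / m0) := by
          refine prod_le_prod (fun i _ => ?_) fun i _ => ?_
          · have := (div_bound (hm (a i)) hm00 (by norm_num) (by norm_num)
              (mu_two N w (a i) p q n m hp hw hq hwq hpq)).1
            linarith
          · exact (div_bound (hm (a i)) hm00 (by norm_num) (by norm_num)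
              (mu_two N w (a i) p q n m hp hw hq hwq hpq)).2
      _ = (1 + 24 / m0) ^ r := by rw [prod_const, card_univ, Fintype.card_fin]
      _ ≤ Real.exp (24 / m0) ^ r := by
          refine pow_le_pow_left₀ (by linarith) ?_ r
          rw [add_comm]
          exact Real.add_one_le_exp _
      _ = Real.exp (r * (24 / m0)) := by rw [← Real.exp_nat_mul]
  calc ∑ n ∈ range p, ∑ m ∈ range q, ∏ i,
      ((∑ x ∈ cls N w (a i), ph p n x * ph q m x) / (cls N w (a i)).card)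
      ≤ ∑ _n ∈ range p, ∑ _m ∈ range q, Real.exp (r * (24 / m0)) :=
        sum_le_sum fun n hn => sum_le_sum fun m hm => h1 n hn m hm
    _ = Real.exp (r * (24 / m0)) * (p * q) := by
        rw [sum_const, sum_const, card_range, card_range, nsmul_eq_mul, nsmul_eq_mul]
        ring

lemma exp_two (x K : ℝ) (hx : 0 ≤ x) (hK : x ≤ K) : Real.exp x ≤ 1 + x + x ^ 2 * Real.exp K := by
  have h2 := Real.add_one_le_exp (-x)
  have h3 : Real.exp (-x) * Real.exp x = 1 := by rw [← Real.exp_add]; simp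
  have h4 := Real.exp_pos x
  have h5 : Real.exp x * (1 - x) ≤ 1 := by nlinarith
  have h6 : Real.exp x - 1 ≤ x * Real.exp x := by nlinarith
  have h7 : Real.exp x - 1 - x ≤ x * (Real.exp x - 1) := by nlinarith
  have h8 : x * (Real.exp x - 1) ≤ x * (x * Real.exp x) := mul_le_mul_of_nonneg_left h6 hx
  have h9 : x * (x * Real.exp x) ≤ x * (x * Real.exp K) :=
    mul_le_mul_of_nonneg_left (mul_le_mul_of_nonneg_left (Real.exp_le_exp.2 hK) hx) hx
  nlinarith

lemma exp_neg_le (y : ℝ) (hy : 0 ≤ y) : Real.exp (-y) ≤ 1 - y + y ^ 2 := by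
  have h1 := Real.add_one_le_exp y
  have h2 : Real.exp (-y) ≤ 1 / (1 + y) := by
    rw [Real.exp_neg, one_div]
    exact inv_anti₀ (by linarith) (by linarith)
  refine h2.trans ?_
  rw [div_le_iff₀ (by linarith)]
  nlinarith [pow_nonneg hy 3]

/-- The bracket. -/
lemma bracket {K : ℝ} (hR : (r : ℝ) ≤ K * w) (p : ℕ) (hp3 : 3 ≤ p) (hw1 : 1 ≤ w) (hw : w < p) :
    1 / (p : ℝ) * Real.exp (r / ((p : ℝ) - 1)) + (1 - 1 / (p : ℝ)) * Real.exp (-(r / ((p : ℝ) - 1) ^ 2)) ≤
      1 + (4 * Real.exp K + 16) * r ^ 2 / (p : ℝ) ^ 3 := by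
  have hp : (3 : ℝ) ≤ p := by exact_mod_cast hp3
  have hwp : (w : ℝ) ≤ p - 1 := by
    have : ((w + 1 : ℕ) : ℝ) ≤ p := by exact_mod_cast hw
    push_cast at this
    linarith
  have hw0 : (1 : ℝ) ≤ w := by exact_mod_cast hw1
  have hp1 : (0 : ℝ) < (p : ℝ) - 1 := by linarith
  have hr0 : (0 : ℝ) ≤ r := Nat.cast_nonneg r
  set x : ℝ := r / ((p : ℝ) - 1) with hx
  have hx0 : 0 ≤ x := by positivity
  have hxK : x ≤ K := by
    rw [hx, div_le_iff₀ hp1]
    have hK : 0 ≤ K := by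
      by_contra hK
      have : K * w < 0 := mul_neg_of_neg_of_pos (not_le.1 hK) (by linarith)
      linarith
    exact hR.trans (mul_le_mul_of_nonneg_left hwp hK)
  have hy : (r : ℝ) / ((p : ℝ) - 1) ^ 2 = x / ((p : ℝ) - 1) := by
    rw [hx, div_div, sq]
  have h1 := exp_two x K hx0 hxK
  have h2 := exp_neg_le (x / ((p : ℝ) - 1)) (by positivity)
  rw [hy]
  have hp0 : (0 : ℝ) < p := by linarith
  have h3 : 0 ≤ 1 - 1 / (p : ℝ) := by
    rw [sub_nonneg, div_le_one hp0]
    linarith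
  have h4 : 1 / (p : ℝ) * Real.exp x + (1 - 1 / (p : ℝ)) * Real.exp (-(x / ((p : ℝ) - 1))) ≤
      1 / (p : ℝ) * (1 + x + x ^ 2 * Real.exp K) +
        (1 - 1 / (p : ℝ)) * (1 - x / ((p : ℝ) - 1) + (x / ((p : ℝ) - 1)) ^ 2) :=
    add_le_add (mul_le_mul_of_nonneg_left h1 (by positivity)) (mul_le_mul_of_nonneg_left h2 h3)
  refine h4.trans ?_
  have e : 1 / (p : ℝ) * (1 + x + x ^ 2 * Real.exp K) +
        (1 - 1 / (p : ℝ)) * (1 - x / ((p : ℝ) - 1) + (x / ((p : ℝ) - 1)) ^ 2) =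
      1 + x ^ 2 * Real.exp K / p + (1 - 1 / (p : ℝ)) * (x / ((p : ℝ) - 1)) ^ 2 := by
    have : (p : ℝ) - 1 ≠ 0 := hp1.ne'
    field_simp
    ring
  rw [e]
  have hx2 : x ≤ 2 * r / p := by
    rw [hx, div_le_div_iff₀ hp1 hp0]
    nlinarith
  have hx3 : x ^ 2 ≤ 4 * r ^ 2 / (p : ℝ) ^ 2 := by
    calc x ^ 2 ≤ (2 * r / p) ^ 2 := pow_le_pow_left₀ hx0 hx2 2
      _ = 4 * r ^ 2 / (p : ℝ) ^ 2 := by ring
  have h5 : x ^ 2 * Real.exp K / p ≤ 4 * Real.exp K * r ^ 2 / (p : ℝ) ^ 3 := by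
    calc x ^ 2 * Real.exp K / p ≤ (4 * r ^ 2 / (p : ℝ) ^ 2) * Real.exp K / p := by
          refine div_le_div_of_nonneg_right ?_ hp0.le
          exact mul_le_mul_of_nonneg_right hx3 (Real.exp_pos K).le
      _ = 4 * Real.exp K * r ^ 2 / (p : ℝ) ^ 3 := by
          field_simp
  have h6 : (1 - 1 / (p : ℝ)) * (x / ((p : ℝ) - 1)) ^ 2 ≤ 16 * r ^ 2 / (p : ℝ) ^ 3 := by
    have h7 : 1 / ((p : ℝ) - 1) ≤ 2 / p := by
      rw [div_le_div_iff₀ hp1 hp0]
      linarith
    have h8 : (x / ((p : ℝ) - 1)) ^ 2 ≤ 16 * r ^ 2 / (p : ℝ) ^ 4 := by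
      have h9 : x / ((p : ℝ) - 1) ≤ (2 * r / p) * (2 / p) := by
        rw [div_eq_mul_one_div]
        exact mul_le_mul hx2 h7 (by positivity) (by positivity)
      calc (x / ((p : ℝ) - 1)) ^ 2 ≤ ((2 * r / p) * (2 / p)) ^ 2 :=
            pow_le_pow_left₀ (by positivity) h9 2
        _ = 16 * r ^ 2 / (p : ℝ) ^ 4 := by
            field_simp
            ring
    have h10 : (1 - 1 / (p : ℝ)) ≤ 1 := by
      have : 0 ≤ 1 / (p : ℝ) := by positivity
      linarith
    have h11 : 16 * (r : ℝ) ^ 2 / (p : ℝ) ^ 4 ≤ 16 * r ^ 2 / (p : ℝ) ^ 3 := by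
      refine div_le_div_of_nonneg_left (by positivity) (by positivity) ?_
      exact pow_le_pow_right₀ (by linarith) (by norm_num)
    calc (1 - 1 / (p : ℝ)) * (x / ((p : ℝ) - 1)) ^ 2 ≤ 1 * (16 * r ^ 2 / (p : ℝ) ^ 4) :=
          mul_le_mul h10 h8 (by positivity) (by norm_num)
      _ = 16 * r ^ 2 / (p : ℝ) ^ 4 := one_mul _
      _ ≤ _ := h11
  have e2 : (4 * Real.exp K + 16) * (r : ℝ) ^ 2 / (p : ℝ) ^ 3 =
      4 * Real.exp K * r ^ 2 / (p : ℝ) ^ 3 + 16 * r ^ 2 / (p : ℝ) ^ 3 := by ring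
  rw [e2]
  linarith

/-- Second moment of one factor. -/
lemma second_le {K : ℝ} (hR : (r : ℝ) ≤ K * w) (hw1 : 1 ≤ w) (hm0 : 24 ≤ m0)
    (hm : ∀ c, m0 ≤ (cls N w c).card) (p : ℕ) (hp : p.Prime) (hw : w < p) (hp3 : 3 ≤ p) :
    EE N w a (fun h => locI h p * locI h p) ≤
      Real.exp (r * (24 / m0)) * (1 + (4 * Real.exp K + 16) * r ^ 2 / (p : ℝ) ^ 3) := by
  have hm00 : 0 < m0 := by linarith
  have he : 24 / m0 ≤ 1 := by rw [div_le_one hm00]; exact hm0
  have he0 : 0 ≤ 24 / m0 := by positivity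
  have hpr : (3 : ℝ) ≤ p := by exact_mod_cast hp3
  have hp1 : (0 : ℝ) < (p : ℝ) - 1 := by linarith
  have hp0 : (0 : ℝ) < p := by linarith
  obtain ⟨u0, u1, u2⟩ := inv_bounds hp.two_le
  rw [EE_locI_mul N w a p p hp hp]
  set D : ℝ := Real.exp (r * (24 / m0)) with hD
  have hD0 : 0 < D := Real.exp_pos _
  set A : ℝ := D * Real.exp (r / ((p : ℝ) - 1)) with hA
  set B : ℝ := D * Real.exp (-(r / ((p : ℝ) - 1) ^ 2)) with hB
  have hcl : ∀ i, 0 < ((cls N w (a i)).card : ℝ) := fun i => by linarith [hm (a i)]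
  have hdiag : ∀ n, ∏ i, ((∑ x ∈ cls N w (a i), ph p n x * ph p n x) / (cls N w (a i)).card) ≤ A := by
    intro n
    have h1 : ∀ i ∈ (univ : Finset (Fin r)),
        (∑ x ∈ cls N w (a i), ph p n x * ph p n x) / (cls N w (a i)).card ≤
        Real.exp (1 / ((p : ℝ) - 1)) * Real.exp (24 / m0) := by
      intro i _
      have h2 := mu_sq N w (a i) p n hp hw
      have h3 : (∑ x ∈ cls N w (a i), ph p n x * ph p n x) / (cls N w (a i)).card ≤
          (1 - 1 / (p : ℝ))⁻¹ * (1 + 24 / m0) := by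
        rw [div_le_iff₀ (hcl i)]
        refine h2.trans ?_
        rw [mul_assoc]
        refine mul_le_mul_of_nonneg_left ?_ (by linarith)
        have h4 : (4 : ℝ) ≤ 24 / m0 * (cls N w (a i)).card := by
          have h5 : 24 / m0 * m0 ≤ 24 / m0 * (cls N w (a i)).card :=
            mul_le_mul_of_nonneg_left (hm (a i)) he0
          rw [div_mul_cancel₀ _ hm00.ne'] at h5
          linarith
        linarith
      have h6 : (1 - 1 / (p : ℝ))⁻¹ ≤ Real.exp (1 / ((p : ℝ) - 1)) := by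
        have h7 : (1 - 1 / (p : ℝ))⁻¹ = 1 + 1 / ((p : ℝ) - 1) := by
          have h8 : (p : ℝ) - 1 ≠ 0 := hp1.ne'
          field_simp
          ring
        rw [h7, add_comm]
        exact Real.add_one_le_exp _
      have h7 : 1 + 24 / m0 ≤ Real.exp (24 / m0) := by
        rw [add_comm]
        exact Real.add_one_le_exp _
      exact h3.trans (mul_le_mul h6 h7 (by linarith) (Real.exp_pos _).le)
    calc ∏ i, ((∑ x ∈ cls N w (a i), ph p n x * ph p n x) / (cls N w (a i)).card)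
        ≤ ∏ _i : Fin r, (Real.exp (1 / ((p : ℝ) - 1)) * Real.exp (24 / m0)) := by
          refine prod_le_prod (fun i _ => ?_) h1
          exact div_nonneg (sum_nonneg fun x _ => mul_self_nonneg _) (hcl i).le
      _ = A := by
          rw [prod_const, card_univ, Fintype.card_fin, mul_pow, ← Real.exp_nat_mul,
            ← Real.exp_nat_mul, hA, hD]
          rw [mul_comm]
          congr 2
          ring
  have hoff : ∀ n m, ¬ n ≡ m [MOD p] →
      ∏ i, ((∑ x ∈ cls N w (a i), ph p n x * ph p m x) / (cls N w (a i)).card) ≤ B := by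
    intro n m hnm
    have h1 : ∀ i ∈ (univ : Finset (Fin r)),
        (∑ x ∈ cls N w (a i), ph p n x * ph p m x) / (cls N w (a i)).card ≤
        Real.exp (-(1 / ((p : ℝ) - 1) ^ 2)) * Real.exp (24 / m0) := by
      intro i _
      have h2 := mu_diff N w (a i) p n m hp hw hnm hp3
      have h3 : (∑ x ∈ cls N w (a i), ph p n x * ph p m x) / (cls N w (a i)).card ≤
          1 + (-(1 / ((p : ℝ) - 1) ^ 2) + 24 / m0) := by
        rw [div_le_iff₀ (hcl i)]
        refine h2.trans ?_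
        have h4 : (16 : ℝ) ≤ 24 / m0 * (cls N w (a i)).card := by
          have h5 : 24 / m0 * m0 ≤ 24 / m0 * (cls N w (a i)).card :=
            mul_le_mul_of_nonneg_left (hm (a i)) he0
          rw [div_mul_cancel₀ _ hm00.ne'] at h5
          linarith
        linarith
      rw [← Real.exp_add]
      refine h3.trans ?_
      rw [add_comm]
      exact Real.add_one_le_exp _
    calc ∏ i, ((∑ x ∈ cls N w (a i), ph p n x * ph p m x) / (cls N w (a i)).card)
        ≤ ∏ _i : Fin r, (Real.exp (-(1 / ((p : ℝ) - 1) ^ 2)) * Real.exp (24 / m0)) := by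
          refine prod_le_prod (fun i _ => ?_) h1
          refine div_nonneg (sum_nonneg fun x _ => ?_) (hcl i).le
          have hph : ∀ k, 0 ≤ ph p k x := by
            intro k
            unfold ph
            split_ifs
            · exact le_rfl
            · linarith
          exact mul_nonneg (hph n) (hph m)
      _ = B := by
          rw [prod_const, card_univ, Fintype.card_fin, mul_pow, ← Real.exp_nat_mul,
            ← Real.exp_nat_mul, hB, hD]
          rw [mul_comm]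
          congr 2
          ring
  have hsum : ∑ n ∈ range p, ∑ m ∈ range p, ∏ i,
      ((∑ x ∈ cls N w (a i), ph p n x * ph p m x) / (cls N w (a i)).card) ≤
      p * (A + (p - 1) * B) := by
    have h1 : ∀ n ∈ range p, ∑ m ∈ range p, ∏ i,
        ((∑ x ∈ cls N w (a i), ph p n x * ph p m x) / (cls N w (a i)).card) ≤ A + (p - 1) * B := by
      intro n hn
      rw [← add_sum_erase _ _ hn]
      refine add_le_add (hdiag n) ?_
      calc ∑ m ∈ (range p).erase n, ∏ i,
          ((∑ x ∈ cls N w (a i), ph p n x * ph p m x) / (cls N w (a i)).card)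
          ≤ ∑ _m ∈ (range p).erase n, B := by
            refine sum_le_sum fun m hm' => hoff n m ?_
            rw [mem_erase, mem_range] at hm'
            intro hmod
            apply hm'.1
            have h2 := Nat.ModEq.eq_of_lt_of_lt hmod (mem_range.1 hn) hm'.2
            exact h2.symm
        _ = (p - 1) * B := by
            rw [sum_const, card_erase_of_mem hn, card_range, nsmul_eq_mul, Nat.cast_sub hp.one_lt.le]
            push_cast
            ring
    calc ∑ n ∈ range p, ∑ m ∈ range p, ∏ i,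
        ((∑ x ∈ cls N w (a i), ph p n x * ph p m x) / (cls N w (a i)).card)
        ≤ ∑ _n ∈ range p, (A + (p - 1) * B) := sum_le_sum h1
      _ = p * (A + (p - 1) * B) := by rw [sum_const, card_range, nsmul_eq_mul]
  have hbr := bracket hR p hp3 hw1 hw
  rw [div_le_iff₀ (by positivity)]
  refine hsum.trans ?_
  have e : (p : ℝ) * (A + (p - 1) * B) = D * (1 / (p : ℝ) * Real.exp (r / ((p : ℝ) - 1)) +
      (1 - 1 / (p : ℝ)) * Real.exp (-(r / ((p : ℝ) - 1) ^ 2))) * (p * p) := by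
    rw [hA, hB]
    field_simp
  rw [e]
  refine mul_le_mul_of_nonneg_right ?_ (by positivity)
  exact mul_le_mul_of_nonneg_left hbr hD0.le

end moments

end SingAux

end Pool.Agent.Lib.LEN
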