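import Pool.Agent.Lib.LEN.SingA
import Pool.Agent.Lib.LEN.PrS

/-!
# LEN.SingB: the local factors beyond `w` are close to one for most tuples of a class
-/

set_option autoImplicit false

open Finset Filter

namespace Pool.Agent.Lib.LEN

open Pool.Agent.HLB Pool.Agent.HLT Pool.Agent.HLR Pool.Agent.Lib.GMV Cls0 SingAux

namespace SingAux

section moments

variable {r N w : ℕ} (a : Fin r → ℕ) {m0 : ℝ}

lemma Hc_nonempty (hm0 : 0 < m0) (hm : ∀ c, m0 ≤ (cls N w c).card) : (Hc N w a).Nonempty := by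
  unfold Hc
  rw [Fintype.piFinset_nonempty]
  intro i
  rw [← card_pos]
  have := hm (a i)
  have h1 : (0 : ℝ) < (cls N w (a i)).card := by linarith
  exact_mod_cast h1

lemma pair_exp (hne : (Hc N w a).Nonempty) (p q : ℕ) :
    EE N w a (fun h => (locI h p - 1) * (locI h q - 1)) =
      EE N w a (fun h => locI h p * locI h q) - EE N w a (fun h => locI h p) -
        EE N w a (fun h => locI h q) + 1 := by
  rw [← EE_lin N w a _ _ _ hne]
  congr 1
  funext h
  ring

/-- Off the diagonal. -/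
lemma pair_off (hm0 : 24 ≤ m0) (hm : ∀ c, m0 ≤ (cls N w c).card) (p q : ℕ) (hp : p.Prime)
    (hw : w < p) (hq : q.Prime) (hwq : w < q) (hpq : p ≠ q) :
    EE N w a (fun h => (locI h p - 1) * (locI h q - 1)) ≤ 3 * (Real.exp (r * (24 / m0)) - 1) := by
  rw [pair_exp a (Hc_nonempty a (by linarith) hm)]
  have h1 := mixed_le a hm0 hm p q hp hw hq hwq hpq
  have h2 := first_ge a hm0 hm p hp hw
  have h3 := first_ge a hm0 hm q hq hwq
  have h4 := Real.add_one_le_exp (r * (24 / m0))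
  linarith

/-- On the diagonal. -/
lemma pair_on {K : ℝ} (hR : (r : ℝ) ≤ K * w) (hw1 : 1 ≤ w) (hm0 : 24 ≤ m0)
    (hm : ∀ c, m0 ≤ (cls N w c).card) (p : ℕ) (hp : p.Prime) (hw : w < p) (hp3 : 3 ≤ p) :
    EE N w a (fun h => (locI h p - 1) * (locI h p - 1)) ≤ 3 * (Real.exp (r * (24 / m0)) - 1) +
      Real.exp (r * (24 / m0)) * ((4 * Real.exp K + 16) * r ^ 2) * (1 / (p : ℝ) ^ 3) := by
  rw [pair_exp a (Hc_nonempty a (by linarith) hm)]
  have h1 := second_le a hR hw1 hm0 hm p hp hw hp3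
  have h2 := first_ge a hm0 hm p hp hw
  have h4 := Real.add_one_le_exp (r * (24 / m0))
  have e : Real.exp (r * (24 / m0)) * (1 + (4 * Real.exp K + 16) * r ^ 2 / (p : ℝ) ^ 3) =
      Real.exp (r * (24 / m0)) + Real.exp (r * (24 / m0)) * ((4 * Real.exp K + 16) * r ^ 2) *
        (1 / (p : ℝ) ^ 3) := by ring
  rw [e] at h1
  linarith

/-- The second moments. -/
lemma second_sum {K : ℝ} (hR : (r : ℝ) ≤ K * w) (hw1 : 1 ≤ w) (hm0 : 24 ≤ m0)
    (hm : ∀ c, m0 ≤ (cls N w c).card) (S : Finset ℕ)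
    (hS : ∀ p ∈ S, p.Prime ∧ w < p ∧ 3 ≤ p) :
    EE N w a (fun h => (∑ p ∈ S, (locI h p - 1)) ^ 2) ≤
      3 * (Real.exp (r * (24 / m0)) - 1) * (S.card : ℝ) ^ 2 +
        Real.exp (r * (24 / m0)) * ((4 * Real.exp K + 16) * r ^ 2) * ∑ p ∈ S, 1 / (p : ℝ) ^ 3 ∧
    EE N w a (fun h => ∑ p ∈ S, (locI h p - 1) ^ 2) ≤
      3 * (Real.exp (r * (24 / m0)) - 1) * (S.card : ℝ) ^ 2 +
        Real.exp (r * (24 / m0)) * ((4 * Real.exp K + 16) * r ^ 2) * ∑ p ∈ S, 1 / (p : ℝ) ^ 3 := by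
  set D : ℝ := 3 * (Real.exp (r * (24 / m0)) - 1) with hD
  set G : ℝ := Real.exp (r * (24 / m0)) * ((4 * Real.exp K + 16) * r ^ 2) with hG
  have hD0 : 0 ≤ D := by
    have h4 := Real.add_one_le_exp (r * (24 / m0))
    have h5 : 0 ≤ (r : ℝ) * (24 / m0) := by
      have : 0 < m0 := by linarith
      positivity
    rw [hD]
    linarith
  have hG0 : 0 ≤ G := by positivity
  have hon : ∀ p ∈ S, EE N w a (fun h => (locI h p - 1) * (locI h p - 1)) ≤
      D + G * (1 / (p : ℝ) ^ 3) := fun p hp =>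
    pair_on a hR hw1 hm0 hm p (hS p hp).1 (hS p hp).2.1 (hS p hp).2.2
  constructor
  · have e : (fun h : Fin r → ℕ => (∑ p ∈ S, (locI h p - 1)) ^ 2) =
        fun h => ∑ p ∈ S, ∑ q ∈ S, (locI h p - 1) * (locI h q - 1) := by
      funext h
      rw [sq, sum_mul_sum]
    rw [e, EE_sum]
    have h1 : ∀ p ∈ S, EE N w a (fun h => ∑ q ∈ S, (locI h p - 1) * (locI h q - 1)) ≤
        (S.card : ℝ) * D + G * (1 / (p : ℝ) ^ 3) := by
      intro p hp
      rw [EE_sum, ← add_sum_erase _ _ hp]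
      have h2 : ∑ q ∈ S.erase p, EE N w a (fun h => (locI h p - 1) * (locI h q - 1)) ≤
          ((S.card : ℝ) - 1) * D := by
        calc ∑ q ∈ S.erase p, EE N w a (fun h => (locI h p - 1) * (locI h q - 1))
            ≤ ∑ _q ∈ S.erase p, D := by
              refine sum_le_sum fun q hq => ?_
              rw [mem_erase] at hq
              exact pair_off a hm0 hm p q (hS p hp).1 (hS p hp).2.1 (hS q hq.2).1 (hS q hq.2).2.1
                (Ne.symm hq.1)
          _ = ((S.card : ℝ) - 1) * D := by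
              rw [sum_const, card_erase_of_mem hp, nsmul_eq_mul,
                Nat.cast_sub (card_pos.2 ⟨p, hp⟩)]
              push_cast
              ring
      have h3 := hon p hp
      linarith
    refine (sum_le_sum h1).trans (le_of_eq ?_)
    rw [sum_add_distrib, sum_const, nsmul_eq_mul, ← mul_sum]
    ring
  · rw [EE_sum]
    have h1 : ∀ p ∈ S, EE N w a (fun h => (locI h p - 1) ^ 2) ≤ D + G * (1 / (p : ℝ) ^ 3) := by
      intro p hp
      have e : (fun h : Fin r → ℕ => (locI h p - 1) ^ 2) =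
          fun h => (locI h p - 1) * (locI h p - 1) := by
        funext h
        ring
      rw [e]
      exact hon p hp
    refine (sum_le_sum h1).trans ?_
    rw [sum_add_distrib, sum_const, nsmul_eq_mul, ← mul_sum]
    have h2 : (S.card : ℝ) * D ≤ D * (S.card : ℝ) ^ 2 := by
      rcases Nat.eq_zero_or_pos S.card with h | h
      · rw [h]
        simp
      · have h3 : (1 : ℝ) ≤ S.card := by exact_mod_cast h
        calc (S.card : ℝ) * D = D * (S.card : ℝ) * 1 := by ring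
          _ ≤ D * (S.card : ℝ) * S.card := mul_le_mul_of_nonneg_left h3 (by positivity)
          _ = D * (S.card : ℝ) ^ 2 := by ring
    linarith

open scoped Classical in
/-- Markov. -/
lemma markov (F : (Fin r → ℕ) → ℝ) (hF : ∀ h, 0 ≤ F h) (V δ : ℝ) (hδ : 0 < δ)
    (hV : EE N w a F ≤ V) :
    (((Hc N w a).filter (fun h => δ < F h)).card : ℝ) ≤ V / δ * (Hc N w a).card := by
  rcases Nat.eq_zero_or_pos (Hc N w a).card with h0 | h0
  · rw [card_eq_zero] at h0
    rw [h0]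
    simp
  have h0' : (0 : ℝ) < (Hc N w a).card := by exact_mod_cast h0
  have h1 : ∑ h ∈ Hc N w a, F h ≤ V * (Hc N w a).card := by
    unfold EE at hV
    rwa [div_le_iff₀ h0'] at hV
  have h2 : (((Hc N w a).filter (fun h => δ < F h)).card : ℝ) * δ ≤ ∑ h ∈ Hc N w a, F h := by
    calc (((Hc N w a).filter (fun h => δ < F h)).card : ℝ) * δ =
          ∑ _h ∈ (Hc N w a).filter (fun h => δ < F h), δ := by rw [sum_const, nsmul_eq_mul]
      _ ≤ ∑ h ∈ (Hc N w a).filter (fun h => δ < F h), F h :=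
          sum_le_sum fun h hh => (mem_filter.1 hh).2.le
      _ ≤ ∑ h ∈ Hc N w a, F h :=
          sum_le_sum_of_subset_of_nonneg (filter_subset _ _) fun h _ _ => hF h
  rw [div_mul_eq_mul_div, le_div_iff₀ hδ]
  linarith

lemma card_coinc (i j : Fin r) (hij : i ≠ j) :
    (((Hc N w a).filter (fun h => h i = h j)).card) * (cls N w (a i)).card ≤ (Hc N w a).card := by
  rw [← card_product]
  refine card_le_card_of_injOn (fun x => Function.update x.1 i x.2) ?_ ?_
  · intro x hx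
    rw [mem_coe, mem_product, mem_filter] at hx
    rw [mem_coe]
    have h1 := hx.1.1
    unfold Hc at h1 ⊢
    rw [Fintype.mem_piFinset] at h1 ⊢
    intro k
    rcases eq_or_ne k i with rfl | hk
    · beta_reduce
      rw [Function.update_self]
      exact hx.2
    · beta_reduce
      rw [Function.update_of_ne hk]
      exact h1 k
  · rintro ⟨x, s⟩ hx ⟨y, t⟩ hy hxy
    rw [mem_coe, mem_product, mem_filter] at hx hy
    simp only at hx hy hxy
    have h1 : ∀ k, Function.update x i s k = Function.update y i t k := fun k => by rw [hxy]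
    have hst : s = t := by
      have := h1 i
      simpa using this
    have hne : ∀ k, k ≠ i → x k = y k := by
      intro k hk
      have := h1 k
      rwa [Function.update_of_ne hk, Function.update_of_ne hk] at this
    have hi : x i = y i := by
      rw [hx.1.2, hy.1.2]
      exact hne j (Ne.symm hij)
    have hxy' : x = y := by
      funext k
      rcases eq_or_ne k i with rfl | hk
      · exact hi
      · exact hne k hk
    rw [hst, hxy']

open scoped Classical in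
/-- The tuples with repetitions. -/
lemma card_notinj (hm0 : 0 < m0) (hm : ∀ c, m0 ≤ (cls N w c).card) :
    (((Hc N w a).filter (fun h => ¬ Function.Injective h)).card : ℝ) ≤
      (r : ℝ) ^ 2 / m0 * (Hc N w a).card := by
  have hsub : (Hc N w a).filter (fun h => ¬ Function.Injective h) ⊆
      ((univ : Finset (Fin r × Fin r)).filter (fun x => x.1 ≠ x.2)).biUnion
        fun x => (Hc N w a).filter (fun h => h x.1 = h x.2) := by
    intro h hh
    rw [mem_filter] at hh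
    rw [mem_biUnion]
    unfold Function.Injective at hh
    have h2 := hh.2
    push Not at h2
    obtain ⟨i, j, h3, h4⟩ := h2
    exact ⟨(i, j), by rw [mem_filter]; exact ⟨mem_univ _, h4⟩, by rw [mem_filter]; exact ⟨hh.1, h3⟩⟩
  have h1 : (((Hc N w a).filter (fun h => ¬ Function.Injective h)).card : ℝ) ≤
      ∑ x ∈ (univ : Finset (Fin r × Fin r)).filter (fun x => x.1 ≠ x.2),
        (((Hc N w a).filter (fun h => h x.1 = h x.2)).card : ℝ) := by
    exact_mod_cast (card_le_card hsub).trans card_biUnion_le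
  refine h1.trans ?_
  have h2 : ∀ x ∈ (univ : Finset (Fin r × Fin r)).filter (fun x => x.1 ≠ x.2),
      (((Hc N w a).filter (fun h => h x.1 = h x.2)).card : ℝ) ≤ (Hc N w a).card / m0 := by
    intro x hx
    rw [mem_filter] at hx
    rw [le_div_iff₀ hm0]
    have h3 := card_coinc (N := N) (w := w) a x.1 x.2 hx.2
    have h4 : ((((Hc N w a).filter (fun h => h x.1 = h x.2)).card : ℝ)) * (cls N w (a x.1)).card ≤
        (Hc N w a).card := by exact_mod_cast h3
    have h5 := mul_le_mul_of_nonneg_left (hm (a x.1))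
      (Nat.cast_nonneg (α := ℝ) (((Hc N w a).filter (fun h => h x.1 = h x.2)).card))
    linarith
  refine (sum_le_sum h2).trans ?_
  rw [sum_const, nsmul_eq_mul]
  have h6 : ((((univ : Finset (Fin r × Fin r)).filter (fun x => x.1 ≠ x.2)).card : ℕ) : ℝ) ≤
      (r : ℝ) ^ 2 := by
    have : ((univ : Finset (Fin r × Fin r)).filter (fun x => x.1 ≠ x.2)).card ≤ r ^ 2 := by
      refine (card_filter_le _ _).trans ?_
      rw [card_univ, Fintype.card_prod, Fintype.card_fin, sq]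
    exact_mod_cast this
  calc ((((univ : Finset (Fin r × Fin r)).filter (fun x => x.1 ≠ x.2)).card : ℕ) : ℝ) *
      ((Hc N w a).card / m0) ≤ (r : ℝ) ^ 2 * ((Hc N w a).card / m0) :=
        mul_le_mul_of_nonneg_right h6 (by positivity)
    _ = _ := by ring

end moments

/-- The asymptotic smallness. -/
lemma small_w (K C δ η : ℝ) (hK : 0 < K) (hC : 0 < C) (hδ : 0 < δ) (hη : 0 < η) :
    ∀ᶠ w : ℕ in atTop, K ^ 2 * ((w : ℝ) ^ 2 * (1 / 4 : ℝ) ^ w) +
      2 / δ ^ 2 * (144 * K * ((w : ℝ) ^ 17 * (1 / 4 : ℝ) ^ w) +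
        2 * (4 * Real.exp K + 16) * K ^ 2 * C / Real.log w) ≤ η ∧
      24 * K * ((w : ℝ) ^ 1 * (1 / 4 : ℝ) ^ w) ≤ Real.log 2 := by
  have h1 : ∀ k : ℕ, Tendsto (fun w : ℕ => (w : ℝ) ^ k * (1 / 4 : ℝ) ^ w) atTop (nhds 0) := fun k =>
    tendsto_pow_const_mul_const_pow_of_abs_lt_one k (by rw [abs_of_pos] <;> norm_num)
  have h2 : Tendsto (fun w : ℕ => 2 * (4 * Real.exp K + 16) * K ^ 2 * C / Real.log w) atTop (nhds 0) :=
    Tendsto.div_atTop tendsto_const_nhds (Real.tendsto_log_atTop.comp tendsto_natCast_atTop_atTop)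
  have h3 := ((h1 2).const_mul (K ^ 2)).add ((((h1 17).const_mul (144 * K)).add h2).const_mul (2 / δ ^ 2))
  have h4 := (h1 1).const_mul (24 * K)
  have h3' : Tendsto (fun w : ℕ => K ^ 2 * ((w : ℝ) ^ 2 * (1 / 4 : ℝ) ^ w) +
      2 / δ ^ 2 * (144 * K * ((w : ℝ) ^ 17 * (1 / 4 : ℝ) ^ w) +
        2 * (4 * Real.exp K + 16) * K ^ 2 * C / Real.log w)) atTop (nhds 0) := by
    simpa using h3
  have h4' : Tendsto (fun w : ℕ => 24 * K * ((w : ℝ) ^ 1 * (1 / 4 : ℝ) ^ w)) atTop (nhds 0) := by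
    simpa using h4
  filter_upwards [h3'.eventually (gt_mem_nhds hη),
    h4'.eventually (gt_mem_nhds (Real.log_pos (by norm_num : (1 : ℝ) < 2)))] with w g1 g2
  exact ⟨g1.le, g2.le⟩

end SingAux

open SingAux

open scoped Classical in
/-- Most tuples of a class are injective and the local factors of the primes in `(w, w ^ 8]` are close to one. -/
theorem singB (K δ η : ℝ) (hK : 0 < K) (hδ : 0 < δ) (hη : 0 < η) : ∃ w0 : ℕ, ∀ w : ℕ, w0 ≤ w →
    ∀ N r : ℕ, (r : ℝ) ≤ K * w → 4 ^ (100 * w) ≤ N → ∀ a : Fin r → ℕ,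
    (((Hc N w a).filter (fun h => ¬ (Function.Injective h ∧
      |∑ p ∈ (Nat.primesLE (w ^ 8)).filter (fun p => w < p), (locI h p - 1)| ≤ δ ∧
      ∑ p ∈ (Nat.primesLE (w ^ 8)).filter (fun p => w < p), (locI h p - 1) ^ 2 ≤ δ ^ 2))).card : ℝ) ≤
      η * (Hc N w a).card := by
  obtain ⟨C, hC, hpr⟩ := prS
  obtain ⟨w1, hw1⟩ := eventually_atTop.1 (small_w K C δ η hK hC hδ hη)
  refine ⟨max w1 3, ?_⟩
  intro w hw N r hR hN a
  have hw3 : 3 ≤ w := (le_max_right _ _).trans hw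
  obtain ⟨hs1, hs2⟩ := hw1 w ((le_max_left _ _).trans hw)
  have hwr : (3 : ℝ) ≤ w := by exact_mod_cast hw3
  have hl : 0 < Real.log w := Real.log_pos (by linarith)
  set q : ℝ := (4 : ℝ) ^ w with hq
  have hq1 : 4 ≤ q := by
    calc (4 : ℝ) = 4 ^ 1 := by norm_num
      _ ≤ 4 ^ w := pow_le_pow_right₀ (by norm_num) (by omega)
  have hq0 : 0 < q := by linarith
  have hqi : (1 / 4 : ℝ) ^ w = 1 / q := by rw [one_div, inv_pow, one_div]
  rw [hqi] at hs1 hs2
  have hNr : q ^ 100 ≤ (N : ℝ) := by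
    rw [hq, ← pow_mul, mul_comm w]
    exact_mod_cast hN
  have hPr : (PP w : ℝ) ≤ q := by
    have h : (PP w : ℝ) ≤ ((4 ^ w : ℕ) : ℝ) := Nat.cast_le.2 (PP_le w)
    rw [Nat.cast_pow] at h
    exact h
  have hP0 : (0 : ℝ) < PP w := by exact_mod_cast PP_pos w
  set m0 : ℝ := q ^ 3 with hm0d
  have hm0 : 24 ≤ m0 := by
    calc (24 : ℝ) ≤ 4 ^ 3 := by norm_num
      _ ≤ q ^ 3 := pow_le_pow_left₀ (by norm_num) hq1 3
  have hm00 : 0 < m0 := by linarith
  have hm : ∀ c, m0 ≤ (cls N w c).card := by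
    intro c
    have h1 := card_cls_ge N w c
    have h2 : q ^ 99 ≤ (N : ℝ) / PP w := by
      rw [le_div_iff₀ hP0]
      calc q ^ 99 * PP w ≤ q ^ 99 * q := mul_le_mul_of_nonneg_left hPr (by positivity)
        _ = q ^ 100 := by ring
        _ ≤ N := hNr
    have h3 : q ^ 3 + 1 ≤ q ^ 99 := by
      have h4 : q ^ 3 * q ≤ q ^ 99 := by
        rw [← pow_succ]
        exact pow_le_pow_right₀ (by linarith) (by norm_num)
      have h5 : 1 ≤ q ^ 3 := one_le_pow₀ (by linarith)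
      nlinarith
    rw [hm0d]
    linarith
  set S : Finset ℕ := (Nat.primesLE (w ^ 8)).filter (fun p => w < p) with hS
  have hSp : ∀ p ∈ S, p.Prime ∧ w < p ∧ 3 ≤ p := by
    intro p hp
    rw [hS, mem_filter, Nat.mem_primesLE] at hp
    exact ⟨hp.1.2, hp.2, by omega⟩
  have hScard : (S.card : ℝ) ≤ (w : ℝ) ^ 8 := by
    have h1 : S ⊆ Icc 1 (w ^ 8) := by
      intro p hp
      rw [hS, mem_filter, Nat.mem_primesLE] at hp
      rw [mem_Icc]
      exact ⟨hp.1.2.one_lt.le, hp.1.1⟩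
    have h2 := card_le_card h1
    rw [Nat.card_Icc, Nat.add_sub_cancel] at h2
    exact_mod_cast h2
  obtain ⟨v1, v2⟩ := second_sum a hR (by omega) hm0 hm S hSp
  set V : ℝ := 3 * (Real.exp (r * (24 / m0)) - 1) * (S.card : ℝ) ^ 2 +
    Real.exp (r * (24 / m0)) * ((4 * Real.exp K + 16) * r ^ 2) * ∑ p ∈ S, 1 / (p : ℝ) ^ 3 with hV
  have hr0 : (0 : ℝ) ≤ r := Nat.cast_nonneg r
  have hre : (r : ℝ) * (24 / m0) ≤ 24 * K * (w * (1 / q)) := by
    have h1 : 24 / m0 ≤ 24 * (1 / q) := by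
      rw [← mul_one_div 24 m0]
      refine mul_le_mul_of_nonneg_left ?_ (by norm_num)
      refine one_div_le_one_div_of_le hq0 ?_
      rw [hm0d]
      calc q = q ^ 1 := (pow_one q).symm
        _ ≤ q ^ 3 := pow_le_pow_right₀ (by linarith) (by norm_num)
    calc (r : ℝ) * (24 / m0) ≤ (K * w) * (24 * (1 / q)) :=
          mul_le_mul hR h1 (by positivity) (by positivity)
      _ = 24 * K * (w * (1 / q)) := by ring
  have hrl : (r : ℝ) * (24 / m0) ≤ Real.log 2 := by
    refine hre.trans ?_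
    rw [pow_one] at hs2
    exact hs2
  have hexp2 : Real.exp (r * (24 / m0)) ≤ 2 := by
    calc Real.exp (r * (24 / m0)) ≤ Real.exp (Real.log 2) := Real.exp_le_exp.2 hrl
      _ = 2 := Real.exp_log (by norm_num)
  have hexp1 : Real.exp (r * (24 / m0)) - 1 ≤ 2 * (r * (24 / m0)) := by
    have h0 : 0 ≤ (r : ℝ) * (24 / m0) := by positivity
    have h2 := Real.add_one_le_exp (-(r * (24 / m0)))
    have h3 : Real.exp (-(r * (24 / m0))) * Real.exp (r * (24 / m0)) = 1 := by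
      rw [← Real.exp_add]; simp
    have h4 := Real.exp_pos (r * (24 / m0))
    nlinarith
  have hcube : ∑ p ∈ S, 1 / (p : ℝ) ^ 3 ≤ C / ((w : ℝ) ^ 2 * Real.log w) :=
    (hpr w (w ^ 8) (by omega)).2
  have hcube0 : 0 ≤ ∑ p ∈ S, 1 / (p : ℝ) ^ 3 := sum_nonneg fun _ _ => by positivity
  have hVle : V ≤ 144 * K * ((w : ℝ) ^ 17 * (1 / q)) +
      2 * (4 * Real.exp K + 16) * K ^ 2 * C / Real.log w := by
    rw [hV]
    refine add_le_add ?_ ?_
    · have h1 : Real.exp (r * (24 / m0)) - 1 ≤ 48 * K * (w * (1 / q)) := by linarith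
      have h2 : (S.card : ℝ) ^ 2 ≤ (w : ℝ) ^ 16 := by
        calc (S.card : ℝ) ^ 2 ≤ ((w : ℝ) ^ 8) ^ 2 :=
              pow_le_pow_left₀ (Nat.cast_nonneg _) hScard 2
          _ = (w : ℝ) ^ 16 := by ring
      calc 3 * (Real.exp (r * (24 / m0)) - 1) * (S.card : ℝ) ^ 2 ≤
            3 * (48 * K * (w * (1 / q))) * (w : ℝ) ^ 16 := by
            refine mul_le_mul (by linarith) h2 (by positivity) (by positivity)
        _ = 144 * K * ((w : ℝ) ^ 17 * (1 / q)) := by ring
    · have h1 : (r : ℝ) ^ 2 ≤ (K * w) ^ 2 := pow_le_pow_left₀ hr0 hR 2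
      have h0 : (0 : ℝ) ≤ 4 * Real.exp K + 16 := by positivity
      calc Real.exp (r * (24 / m0)) * ((4 * Real.exp K + 16) * r ^ 2) * ∑ p ∈ S, 1 / (p : ℝ) ^ 3
          ≤ 2 * ((4 * Real.exp K + 16) * (K * w) ^ 2) * (C / ((w : ℝ) ^ 2 * Real.log w)) := by
            refine mul_le_mul ?_ hcube hcube0 (by positivity)
            exact mul_le_mul hexp2 (mul_le_mul_of_nonneg_left h1 h0) (by positivity) (by norm_num)
        _ = 2 * (4 * Real.exp K + 16) * K ^ 2 * C / Real.log w := by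
            field_simp
  have hδ2 : 0 < δ ^ 2 := by positivity
  have b1 := card_notinj a hm00 hm
  have b2 := markov a (fun h => (∑ p ∈ S, (locI h p - 1)) ^ 2) (fun h => sq_nonneg _) V (δ ^ 2) hδ2 v1
  have b3 := markov a (fun h => ∑ p ∈ S, (locI h p - 1) ^ 2)
    (fun h => sum_nonneg fun _ _ => sq_nonneg _) V (δ ^ 2) hδ2 v2
  have hsub : (Hc N w a).filter (fun h => ¬ (Function.Injective h ∧
      |∑ p ∈ S, (locI h p - 1)| ≤ δ ∧ ∑ p ∈ S, (locI h p - 1) ^ 2 ≤ δ ^ 2)) ⊆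
      (Hc N w a).filter (fun h => ¬ Function.Injective h) ∪
      ((Hc N w a).filter (fun h => δ ^ 2 < (∑ p ∈ S, (locI h p - 1)) ^ 2) ∪
      (Hc N w a).filter (fun h => δ ^ 2 < ∑ p ∈ S, (locI h p - 1) ^ 2)) := by
    intro h hh
    rw [mem_filter] at hh
    rw [mem_union, mem_union, mem_filter, mem_filter, mem_filter]
    by_cases c1 : Function.Injective h
    · by_cases c2 : |∑ p ∈ S, (locI h p - 1)| ≤ δ
      · right; right
        refine ⟨hh.1, ?_⟩
        by_contra c3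
        exact hh.2 ⟨c1, c2, not_lt.1 c3⟩
      · right; left
        refine ⟨hh.1, ?_⟩
        rw [← sq_abs (∑ p ∈ S, (locI h p - 1))]
        exact pow_lt_pow_left₀ (not_le.1 c2) hδ.le (by norm_num)
    · left
      exact ⟨hh.1, c1⟩
  have hcard : (((Hc N w a).filter (fun h => ¬ (Function.Injective h ∧
      |∑ p ∈ S, (locI h p - 1)| ≤ δ ∧ ∑ p ∈ S, (locI h p - 1) ^ 2 ≤ δ ^ 2))).card : ℝ) ≤
      (((Hc N w a).filter (fun h => ¬ Function.Injective h)).card : ℝ) +
      ((((Hc N w a).filter (fun h => δ ^ 2 < (∑ p ∈ S, (locI h p - 1)) ^ 2)).card : ℝ) +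
      (((Hc N w a).filter (fun h => δ ^ 2 < ∑ p ∈ S, (locI h p - 1) ^ 2)).card : ℝ)) := by
    exact_mod_cast (card_le_card hsub).trans ((card_union_le _ _).trans
      (Nat.add_le_add_left (card_union_le _ _) _))
  refine hcard.trans ?_
  have hH0 : (0 : ℝ) ≤ (Hc N w a).card := Nat.cast_nonneg _
  have hr2 : (r : ℝ) ^ 2 / m0 ≤ K ^ 2 * ((w : ℝ) ^ 2 * (1 / q)) := by
    calc (r : ℝ) ^ 2 / m0 ≤ (K * w) ^ 2 / q := by
          refine div_le_div₀ (by positivity) (pow_le_pow_left₀ hr0 hR 2) hq0 ?_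
          rw [hm0d]
          calc q = q ^ 1 := (pow_one q).symm
            _ ≤ q ^ 3 := pow_le_pow_right₀ (by linarith) (by norm_num)
      _ = K ^ 2 * ((w : ℝ) ^ 2 * (1 / q)) := by ring
  have hV2 : V / δ ^ 2 + V / δ ^ 2 ≤ 2 / δ ^ 2 * (144 * K * ((w : ℝ) ^ 17 * (1 / q)) +
      2 * (4 * Real.exp K + 16) * K ^ 2 * C / Real.log w) := by
    have e : V / δ ^ 2 + V / δ ^ 2 = 2 / δ ^ 2 * V := by ring
    rw [e]
    exact mul_le_mul_of_nonneg_left hVle (by positivity)
  calc (((Hc N w a).filter (fun h => ¬ Function.Injective h)).card : ℝ) +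
      ((((Hc N w a).filter (fun h => δ ^ 2 < (∑ p ∈ S, (locI h p - 1)) ^ 2)).card : ℝ) +
      (((Hc N w a).filter (fun h => δ ^ 2 < ∑ p ∈ S, (locI h p - 1) ^ 2)).card : ℝ))
      ≤ ((r : ℝ) ^ 2 / m0 + (V / δ ^ 2 + V / δ ^ 2)) * (Hc N w a).card := by linarith
    _ ≤ η * (Hc N w a).card := mul_le_mul_of_nonneg_right (by linarith) hH0

end Pool.Agent.Lib.LEN
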