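import Pool.Agent.Lib.LEN.Defs
import Pool.Agent.Lib.GMV.ProjW
import Pool.Agent.Lib.GMV.DiffL
import Pool.Agent.Lib.GMV.L2bd
import Pool.Agent.Lib.GMV.FreeY

/-!
# LEN.Slot: one slot with a small Fourier transform

`one_slot` is the private lemma of `GMV/TeleSq.lean` (same proof). `ft_WL` : the transform of
`W - LL`. `PP_le` : `PP w ≤ Q ^ (1/40)`.
-/

set_option autoImplicit false

open Finset Filter

namespace Pool.Agent.Lib.LEN

open Pool.Agent.HLB Pool.Agent.HLT Pool.Agent.HLR Pool.Agent.Lib.GMV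

namespace SlotAux

private lemma ex_eq_one_iff {N : ℕ} (hN : 0 < N) (k : ℤ) : ex (k / N) = 1 ↔ (N : ℤ) ∣ k := by
  unfold ex
  rw [Complex.exp_eq_one_iff]
  have hN' : (N : ℂ) ≠ 0 := by exact_mod_cast hN.ne'
  have hpi : (2 * (Real.pi : ℂ) * Complex.I) ≠ 0 := Complex.two_pi_I_ne_zero
  constructor
  · rintro ⟨m, hm⟩
    refine ⟨m, ?_⟩
    have h1 : ((k : ℂ) / N) * (2 * (Real.pi : ℂ) * Complex.I) = m * (2 * (Real.pi : ℂ) * Complex.I) := by
      rw [← hm]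
      push_cast
      ring
    have h2 := mul_right_cancel₀ hpi h1
    rw [div_eq_iff hN'] at h2
    have h3 : ((k : ℤ) : ℂ) = ((N * m : ℤ) : ℂ) := by
      rw [h2]
      push_cast
      ring
    exact_mod_cast h3
  · rintro ⟨m, rfl⟩
    refine ⟨m, ?_⟩
    push_cast
    field_simp

private lemma sum_ex {N : ℕ} (hN : 0 < N) (k : ℤ) :
    ∑ ξ ∈ range N, ex (k * (ξ / N)) = if (N : ℤ) ∣ k then (N : ℂ) else 0 := by
  have h1 : ∀ ξ : ℕ, ex (k * (ξ / N)) = ex (k / N) ^ ξ := by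
    intro ξ
    rw [← ex_nat_mul]
    congr 1
    ring
  simp_rw [h1]
  split_ifs with h
  · rw [(ex_eq_one_iff hN k).2 h]
    simp
  · have hne : ex (k / N) ≠ 1 := fun h' => h ((ex_eq_one_iff hN k).1 h')
    rw [geom_sum_eq hne]
    have h2 : ex (k / N) ^ N = 1 := by
      rw [← ex_nat_mul]
      have h3 : ((N : ℝ) * ((k : ℝ) / N)) = ((k : ℤ) : ℝ) := by
        have : (N : ℝ) ≠ 0 := by exact_mod_cast hN.ne'
        field_simp
      rw [h3]
      exact ex_int k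
    rw [h2, sub_self, zero_div]

private lemma conj_ex (a : ℝ) : (starRingEnd ℂ) (ex a) = ex (-a) := (ex_neg a).symm

/-- The expansion of a product of two exponential sums. -/
private lemma expand {N : ℕ} (hN : 0 < N) (S T : Finset ℕ) (h g : ℕ → ℂ) (t : ℕ)
    (hST : ∀ n ∈ S, ∀ m ∈ T, ((n : ℤ) + t - m).natAbs < N) :
    ∑ ξ ∈ range N, (∑ n ∈ S, h n * ex (n * (ξ / N))) *
        (starRingEnd ℂ) (∑ m ∈ T, g m * ex (m * (ξ / N))) * ex (t * (ξ / N)) =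
      (N : ℂ) * ∑ n ∈ S, ∑ m ∈ T, if m = n + t then h n * (starRingEnd ℂ) (g m) else 0 := by
  have h1 : ∀ ξ ∈ range N, (∑ n ∈ S, h n * ex (n * (ξ / N))) *
        (starRingEnd ℂ) (∑ m ∈ T, g m * ex (m * (ξ / N))) * ex (t * (ξ / N)) =
      ∑ n ∈ S, ∑ m ∈ T, (h n * (starRingEnd ℂ) (g m)) *
        ex ((((n : ℤ) + t - m : ℤ) : ℝ) * (ξ / N)) := by
    intro ξ _
    rw [map_sum, Finset.sum_mul_sum, Finset.sum_mul]
    refine Finset.sum_congr rfl fun n _ => ?_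
    rw [Finset.sum_mul]
    refine Finset.sum_congr rfl fun m _ => ?_
    rw [map_mul, conj_ex]
    have h2 : ex ((((n : ℤ) + t - m : ℤ) : ℝ) * (ξ / N)) =
        ex (n * (ξ / N)) * ex (-(m * (ξ / N))) * ex (t * (ξ / N)) := by
      rw [← ex_add, ← ex_add]
      congr 1
      push_cast
      ring
    rw [h2]
    ring
  rw [Finset.sum_congr rfl h1, Finset.sum_comm, Finset.mul_sum]
  refine Finset.sum_congr rfl fun n hn => ?_
  rw [Finset.sum_comm, Finset.mul_sum]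
  refine Finset.sum_congr rfl fun m hm => ?_
  rw [← Finset.mul_sum, sum_ex hN]
  have h3 : (N : ℤ) ∣ ((n : ℤ) + t - m) ↔ m = n + t := by
    constructor
    · intro hd
      have h4 := Int.eq_zero_of_dvd_of_natAbs_lt_natAbs hd (by
        simpa using hST n hn m hm)
      omega
    · rintro rfl
      simp
  by_cases hmn : m = n + t
  · rw [if_pos (h3.2 hmn), if_pos hmn]
    ring
  · rw [if_neg (fun h => hmn (h3.1 h)), if_neg hmn]
    ring

/-- Parseval on `range N`. -/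
private lemma pars {N : ℕ} (hN : 0 < N) (b : ℕ → ℂ) :
    ∑ t ∈ range N, ‖∑ ξ ∈ range N, b ξ * ex (ξ * (t / N))‖ ^ 2 =
      N * ∑ ξ ∈ range N, ‖b ξ‖ ^ 2 := by
  have h0 := parseval N N le_rfl hN (fun n => b (n - 1))
  have h1 : ∀ u : ℕ → ℂ, ∑ n ∈ Icc 1 N, u n = ∑ n ∈ range N, u (n + 1) := by
    intro u
    rw [Finset.sum_bij' (fun n _ => n - 1) (fun n _ => n + 1)]
    · intro n hn
      rw [Finset.mem_Icc] at hn
      rw [Finset.mem_range]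
      omega
    · intro n hn
      rw [Finset.mem_range] at hn
      rw [Finset.mem_Icc]
      omega
    · intro n hn
      rw [Finset.mem_Icc] at hn
      omega
    · intro n _
      omega
    · intro n hn
      rw [Finset.mem_Icc] at hn
      have : n - 1 + 1 = n := by omega
      rw [this]
  have h2 : ∀ u : ℕ → ℝ, ∑ n ∈ Icc 1 N, u n = ∑ n ∈ range N, u (n + 1) := by
    intro u
    have := h1 (fun n => (u n : ℂ))
    exact_mod_cast this
  rw [h2 (fun n => ‖b (n - 1)‖ ^ 2)] at h0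
  simp only [Nat.add_sub_cancel] at h0
  rw [← h0]
  refine Finset.sum_congr rfl fun t _ => ?_
  rw [h1 (fun n => b (n - 1) * ex (n * (t / N)))]
  simp only [Nat.add_sub_cancel]
  have h3 : ∑ n ∈ range N, b n * ex (((n + 1 : ℕ) : ℝ) * (t / N)) =
      ex (t / N) * ∑ n ∈ range N, b n * ex (n * (t / N)) := by
    rw [Finset.mul_sum]
    refine Finset.sum_congr rfl fun n _ => ?_
    have h4 : (((n + 1 : ℕ) : ℝ) * (t / N)) = t / N + n * (t / N) := by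
      push_cast
      ring
    rw [h4, ex_add]
    ring
  rw [h3, norm_mul, norm_ex, one_mul]

/-- The key lemma: one slot. -/
theorem one_slot {X y : ℕ} (hX : 1 ≤ X) (hy : y ≤ X) (f g : ℕ → ℂ) {A : ℝ}
    (hA : ∀ t, ‖ft (4 * X) f t‖ ≤ A) :
    ∑ h ∈ Icc 1 X, ‖∑ n ∈ Icc 1 y, g n * f (n + h)‖ ^ 2 ≤ A ^ 2 * ∑ n ∈ Icc 1 y, ‖g n‖ ^ 2 := by
  set N := 4 * X with hNdef
  have hN : 0 < N := by omega
  have hN' : (N : ℂ) ≠ 0 := by exact_mod_cast hN.ne'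
  have hNr : (N : ℝ) ≠ 0 := by exact_mod_cast hN.ne'
  have hNp : (0 : ℝ) < N := by exact_mod_cast hN
  set G : ℕ → ℂ := fun ξ => ∑ n ∈ Icc 1 y, g n * ex (n * (ξ / N)) with hG
  set F : ℕ → ℂ := fun ξ => ∑ m ∈ range N, (starRingEnd ℂ) (f m) * ex (m * (ξ / N)) with hF
  set b : ℕ → ℂ := fun ξ => G ξ * (starRingEnd ℂ) (F ξ) with hb
  have hFA : ∀ ξ, ‖F ξ‖ ≤ A := by
    intro ξ
    have h1 : F ξ = (starRingEnd ℂ) (ft N f (-(ξ / N))) := by
      rw [hF]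
      unfold ft
      rw [map_sum]
      refine Finset.sum_congr rfl fun m _ => ?_
      rw [map_mul, conj_ex]
      congr 2
      ring
    rw [h1, RCLike.norm_conj]
    exact hA _
  have hA0 : 0 ≤ A := (norm_nonneg _).trans (hA 0)
  have h1 : ∀ t ∈ Icc 1 X, ∑ n ∈ Icc 1 y, g n * f (n + t) =
      (1 / (N : ℂ)) * ∑ ξ ∈ range N, b ξ * ex (ξ * (t / N)) := by
    intro t ht
    rw [Finset.mem_Icc] at ht
    have h2 := expand hN (Icc 1 y) (range N) g (fun m => (starRingEnd ℂ) (f m)) t (by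
      intro n hn m hm
      rw [Finset.mem_Icc] at hn
      rw [Finset.mem_range] at hm
      omega)
    have h3 : ∑ ξ ∈ range N, b ξ * ex (ξ * (t / N)) =
        ∑ ξ ∈ range N, (∑ n ∈ Icc 1 y, g n * ex (n * (ξ / N))) *
        (starRingEnd ℂ) (∑ m ∈ range N, (starRingEnd ℂ) (f m) * ex (m * (ξ / N))) *
          ex (t * (ξ / N)) := by
      refine Finset.sum_congr rfl fun ξ _ => ?_
      have h4 : ((ξ : ℝ) * (t / N)) = t * (ξ / N) := by ring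
      rw [h4]
    rw [h3, h2, ← mul_assoc, one_div, inv_mul_cancel₀ hN', one_mul]
    refine Finset.sum_congr rfl fun n hn => ?_
    rw [Finset.mem_Icc] at hn
    rw [Finset.sum_ite_eq' (range N) (n + t), if_pos (Finset.mem_range.2 (by omega)),
      Complex.conj_conj]
  have h5 : ∑ h ∈ Icc 1 X, ‖∑ n ∈ Icc 1 y, g n * f (n + h)‖ ^ 2 ≤
      ∑ t ∈ range N, ‖(1 / (N : ℂ)) * ∑ ξ ∈ range N, b ξ * ex (ξ * (t / N))‖ ^ 2 := by
    rw [Finset.sum_congr rfl (fun t ht => by rw [h1 t ht])]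
    refine Finset.sum_le_sum_of_subset_of_nonneg ?_ (fun _ _ _ => sq_nonneg _)
    intro t ht
    rw [Finset.mem_Icc] at ht
    rw [Finset.mem_range]
    omega
  have h6 : ∑ t ∈ range N, ‖(1 / (N : ℂ)) * ∑ ξ ∈ range N, b ξ * ex (ξ * (t / N))‖ ^ 2 =
      (1 / (N : ℝ)) * ∑ ξ ∈ range N, ‖b ξ‖ ^ 2 := by
    have h7 : ∀ t ∈ range N, ‖(1 / (N : ℂ)) * ∑ ξ ∈ range N, b ξ * ex (ξ * (t / N))‖ ^ 2 =
        (1 / (N : ℝ)) ^ 2 * ‖∑ ξ ∈ range N, b ξ * ex (ξ * (t / N))‖ ^ 2 := by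
      intro t _
      rw [norm_mul, mul_pow]
      congr 2
      rw [norm_div, norm_one, Complex.norm_natCast]
    rw [Finset.sum_congr rfl h7, ← Finset.mul_sum, pars hN]
    field_simp
  have h8 : ∑ ξ ∈ range N, ‖b ξ‖ ^ 2 ≤ ∑ ξ ∈ range N, A ^ 2 * ‖G ξ‖ ^ 2 := by
    refine Finset.sum_le_sum fun ξ _ => ?_
    rw [hb]
    simp only
    rw [norm_mul, RCLike.norm_conj, mul_pow, mul_comm]
    exact mul_le_mul_of_nonneg_right (pow_le_pow_left₀ (norm_nonneg _) (hFA ξ) 2) (sq_nonneg _)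
  have h9 : ∑ ξ ∈ range N, ‖G ξ‖ ^ 2 = N * ∑ n ∈ Icc 1 y, ‖g n‖ ^ 2 :=
    parseval N y (by omega) hN g
  calc ∑ h ∈ Icc 1 X, ‖∑ n ∈ Icc 1 y, g n * f (n + h)‖ ^ 2
      ≤ (1 / (N : ℝ)) * ∑ ξ ∈ range N, ‖b ξ‖ ^ 2 := h5.trans_eq h6
    _ ≤ (1 / (N : ℝ)) * ∑ ξ ∈ range N, A ^ 2 * ‖G ξ‖ ^ 2 :=
        mul_le_mul_of_nonneg_left h8 (by positivity)
    _ = A ^ 2 * ∑ n ∈ Icc 1 y, ‖g n‖ ^ 2 := by
        rw [← Finset.mul_sum, h9]
        field_simp


/-- The transform of `W - LL`. -/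
theorem ft_WL (B0 : ℕ) (hB0 : 1 ≤ B0) (B : ℝ) : ∃ c : ℝ, 0 < c ∧ c ≤ 1 / 20 ∧ ∃ X0 : ℕ,
    ∀ X Q : ℕ, X0 ≤ X → Rg c X Q → ∀ b : CI → ℝ, (∀ x ∈ Ch Q, ∀ n, ‖Mc X Q x n‖ ≤ b x) →
    ∑ x ∈ Ch Q, b x ≤ B → ∀ t : ℝ,
      ‖ft (4 * X) (fun m => (W X Q m : ℂ) - LL X Q (Q ^ B0) m) t‖ ≤
        4 * X * (Q : ℝ) ^ (-(2 / 5 : ℝ)) := by
  obtain ⟨X3, hPW⟩ := projW
  obtain ⟨c4, hc4, X4, hD⟩ := diffL B0 hB0 B
  refine ⟨min (1 / 20) c4, lt_min (by norm_num) hc4, min_le_left _ _, max (max X3 X4) 1, ?_⟩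
  intro X Q hX hR b hb hbB t
  have hX3 : X3 ≤ X := ((le_max_left _ _).trans (le_max_left _ _)).trans hX
  have hX4 : X4 ≤ X := ((le_max_right _ _).trans (le_max_left _ _)).trans hX
  have hX1 : 1 ≤ X := (le_max_right _ _).trans hX
  have hR1 : Rg (1 / 20) X Q := FreeYAux.Rg_mono (min_le_left _ _) hX1 hR
  have hR4 : Rg c4 X Q := FreeYAux.Rg_mono (min_le_right _ _) hX1 hR
  have e1 : ft (4 * X) (fun m => (W X Q m : ℂ) - LL X Q (Q ^ B0) m) t =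
      ft (4 * X) (fun n => (W X Q n : ℂ) - LQ X Q n) t -
        ft (4 * X) (fun n => LL X Q (Q ^ B0) n - LQ X Q n) t := by
    unfold ft
    rw [← Finset.sum_sub_distrib]
    refine Finset.sum_congr rfl fun n _ => ?_
    ring
  rw [e1]
  refine (norm_sub_le _ _).trans ?_
  have h12 := hPW X Q hX3 hR1 t
  have h13 := hD X Q hX4 hR4 b hb hbB t
  linarith

lemma PP_pos (w : ℕ) : 0 < PP w := by
  unfold PP
  exact Finset.prod_pos fun p hp => (Nat.prime_of_mem_primesLE hp).pos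

lemma PP_le_four (w : ℕ) : PP w ≤ 4 ^ w := primorial_le_four_pow w

lemma PP_le_rpow {Q w : ℕ} (h : 4 ^ (40 * w) ≤ Q) : (PP w : ℝ) ≤ (Q : ℝ) ^ (1 / 40 : ℝ) := by
  have h1 : ((4 : ℝ) ^ w) ^ (40 : ℕ) ≤ Q := by
    rw [← pow_mul, mul_comm w 40]
    exact_mod_cast h
  have h2 : (PP w : ℝ) ≤ (4 : ℝ) ^ w := by exact_mod_cast PP_le_four w
  refine h2.trans ?_
  have h3 : (((4 : ℝ) ^ w) ^ (40 : ℕ)) ^ (1 / 40 : ℝ) = (4 : ℝ) ^ w := by
    rw [← Real.rpow_natCast, ← Real.rpow_mul (by positivity)]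
    norm_num
  rw [← h3]
  exact Real.rpow_le_rpow (by positivity) h1 (by norm_num)

lemma psi_mod (w c h : ℕ) : psi w (c % PP w) h = psi w c h := by
  unfold psi
  rw [Nat.mod_mod]

lemma psi_nonneg (w c h : ℕ) : 0 ≤ psi w c h := by
  unfold psi
  split_ifs <;> norm_num

lemma psi_le_one (w c h : ℕ) : psi w c h ≤ 1 := by
  unfold psi
  split_ifs <;> norm_num

lemma norm_psi_le (w c h : ℕ) : ‖(psi w c h : ℂ)‖ ≤ 1 := by
  rw [Complex.norm_real, Real.norm_of_nonneg (psi_nonneg w c h)]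
  exact psi_le_one w c h

lemma sum_cls (N w c : ℕ) (F : ℕ → ℝ) : ∑ h ∈ cls N w c, F h = ∑ h ∈ Icc 1 N, psi w c h * F h := by
  unfold cls psi
  rw [Finset.sum_filter]
  refine Finset.sum_congr rfl fun h _ => ?_
  split_ifs <;> ring

/-- A sum over a shifted interval. -/
lemma sum_shift {X N n : ℕ} (hN : 2 * N ≤ X) (hn : n ≤ X) (F : ℕ → ℝ) (hF : ∀ m, 0 ≤ F m) :
    ∑ h ∈ Icc 1 N, F (h + n) ≤ ∑ m ∈ range (4 * X), F m := by
  have h5 : ∑ t ∈ Icc 1 N, F (t + n) = ∑ s ∈ (Icc 1 N).map (addRightEmbedding n), F s := by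
    rw [Finset.sum_map]
    rfl
  rw [h5]
  refine Finset.sum_le_sum_of_subset_of_nonneg ?_ (fun _ _ _ => hF _)
  intro s hs
  rw [Finset.mem_map] at hs
  obtain ⟨t, ht, rfl⟩ := hs
  rw [Finset.mem_Icc] at ht
  rw [Finset.mem_range, addRightEmbedding_apply]
  omega

/-- `Q` beats the powers of `log X`. -/
lemma growth (D : ℝ) (m : ℕ) (δ : ℝ) (hδ : 0 < δ) : ∃ X0 : ℕ, ∀ X Q : ℕ, X0 ≤ X →
    Real.exp (Real.sqrt (Real.log X) / 2) ≤ Q → D * Real.log X ^ m ≤ (Q : ℝ) ^ δ := by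
  have h1 : Tendsto (fun X : ℕ => Real.sqrt (Real.log X)) atTop atTop :=
    Real.tendsto_sqrt_atTop.comp (Real.tendsto_log_atTop.comp tendsto_natCast_atTop_atTop)
  have h2 := (isLittleO_pow_exp_pos_mul_atTop (2 * m) (b := δ / 2) (by positivity)).bound
    (c := 1 / (|D| + 1)) (by positivity)
  obtain ⟨X0, hX0⟩ := eventually_atTop.1 ((h1.eventually h2).and (eventually_ge_atTop 1))
  refine ⟨X0, fun X Q hX hQ => ?_⟩
  obtain ⟨h3, hX1⟩ := hX0 X hX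
  have hlog : 0 ≤ Real.log X := Real.log_nonneg (by exact_mod_cast hX1)
  rw [Real.norm_of_nonneg (by positivity), Real.norm_of_nonneg (by positivity), pow_mul,
    Real.sq_sqrt hlog] at h3
  have h4 : (0 : ℝ) < |D| + 1 := by positivity
  have h5 : (|D| + 1) * Real.log X ^ m ≤ Real.exp (δ / 2 * Real.sqrt (Real.log X)) := by
    rw [one_div, ← div_eq_inv_mul, le_div_iff₀ h4] at h3
    linarith
  have h6 : Real.exp (δ / 2 * Real.sqrt (Real.log X)) ≤ (Q : ℝ) ^ δ := by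
    calc Real.exp (δ / 2 * Real.sqrt (Real.log X)) =
        (Real.exp (Real.sqrt (Real.log X) / 2)) ^ δ := by
          rw [← Real.exp_mul]
          congr 1
          ring
      _ ≤ (Q : ℝ) ^ δ := Real.rpow_le_rpow (Real.exp_pos _).le hQ hδ.le
  have h7 : 0 ≤ Real.log X ^ m := pow_nonneg hlog m
  have h8 : D * Real.log X ^ m ≤ |D| * Real.log X ^ m :=
    mul_le_mul_of_nonneg_right (le_abs_self D) h7
  linarith

open scoped Classical in
/-- Markov's inequality for the union over the classes. -/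
lemma markov_union {ι : Type} (s : Finset ι) (m : ℕ) (S : ℕ → ι → ℂ) (θ M : ℝ) (hθ : 0 < θ)
    (hM : ∀ c < m, ∑ h ∈ s, ‖S c h‖ ^ 2 ≤ M) :
    ((s.filter fun h => ∃ c < m, θ < ‖S c h‖).card : ℝ) * θ ^ 2 ≤ m * M := by
  have h1 : ∀ h ∈ s.filter (fun h => ∃ c < m, θ < ‖S c h‖), θ ^ 2 ≤
      ∑ c ∈ range m, ‖S c h‖ ^ 2 := by
    intro h hh
    obtain ⟨-, c, hc, hlt⟩ := Finset.mem_filter.1 hh
    refine (pow_le_pow_left₀ hθ.le hlt.le 2).trans ?_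
    exact Finset.single_le_sum (f := fun c => ‖S c h‖ ^ 2) (fun c _ => sq_nonneg _)
      (Finset.mem_range.2 hc)
  calc ((s.filter fun h => ∃ c < m, θ < ‖S c h‖).card : ℝ) * θ ^ 2 =
      ∑ h ∈ s.filter (fun h => ∃ c < m, θ < ‖S c h‖), θ ^ 2 := by
        rw [Finset.sum_const, nsmul_eq_mul]
    _ ≤ ∑ h ∈ s.filter (fun h => ∃ c < m, θ < ‖S c h‖), ∑ c ∈ range m, ‖S c h‖ ^ 2 :=
        Finset.sum_le_sum h1
    _ ≤ ∑ h ∈ s, ∑ c ∈ range m, ‖S c h‖ ^ 2 :=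
        Finset.sum_le_sum_of_subset_of_nonneg (Finset.filter_subset _ _)
          fun _ _ _ => Finset.sum_nonneg fun _ _ => sq_nonneg _
    _ = ∑ c ∈ range m, ∑ h ∈ s, ‖S c h‖ ^ 2 := Finset.sum_comm
    _ ≤ ∑ c ∈ range m, M := Finset.sum_le_sum fun c hc => hM c (Finset.mem_range.1 hc)
    _ = m * M := by rw [Finset.sum_const, Finset.card_range, nsmul_eq_mul]

end SlotAux

end Pool.Agent.Lib.LEN
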