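import Pool.Agent.Lib.LEN.Cls0
import Pool.Agent.Lib.LEN.TVDefs

/-!
# LEN.TVCnt: the integers coprime to `PP w` in an interval, moments over the tuples
-/

set_option autoImplicit false

open Finset Filter

namespace Pool.Agent.Lib.LEN

open Pool.Agent.HLB Pool.Agent.HLT Pool.Agent.HLR Pool.Agent.Lib.GMV

namespace TVCntAux

open scoped Classical in
lemma nA_zero (w : ℕ) : (nA w (fun _ : Fin 1 => 0) : ℝ) = PP w * DZ w := by
  have h1 : nA w (fun _ : Fin 1 => 0) = (PP w).totient := by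
    unfold nA Nat.totient
    congr 1
    refine Finset.filter_congr fun n _ => ?_
    unfold Good
    simp only [add_zero, forall_const]
    exact Nat.coprime_comm
  have h2 : (PP w).primeFactors = Nat.primesLE w := by
    unfold PP
    exact Nat.primeFactors_prod fun p hp => (Nat.mem_primesLE.1 hp).2
  have h3 := Nat.totient_eq_mul_prod_factors (PP w)
  rw [h2] at h3
  rw [h1]
  have h4 : (((PP w).totient : ℚ) : ℝ) = (((PP w : ℚ) * ∏ p ∈ Nat.primesLE w,
      (1 - (p : ℚ)⁻¹) : ℚ) : ℝ) := by rw [h3]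
  push_cast at h4
  rw [h4]
  unfold DZ
  congr 1
  exact Finset.prod_congr rfl fun p _ => by rw [one_div]

/-- The number of the `m ≤ N` with `b + m` coprime to `PP w`. -/
def cc (N w b : ℕ) : ℕ := ((Icc 1 N).filter fun m => Nat.Coprime (b + m) (PP w)).card

open scoped Classical in
lemma cc_eq (N w b : ℕ) :
    cc N w b = ((Ioc b (b + N)).filter (Good w (fun _ : Fin 1 => 0))).card := by
  unfold cc
  refine Finset.card_bij (fun m _ => b + m) ?_ ?_ ?_
  · intro m hm
    rw [Finset.mem_filter, Finset.mem_Icc] at hm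
    rw [Finset.mem_filter, Finset.mem_Ioc]
    refine ⟨by omega, fun _ => ?_⟩
    simpa using hm.2
  · intro m _ m' _ h
    exact Nat.add_left_cancel h
  · intro x hx
    rw [Finset.mem_filter, Finset.mem_Ioc] at hx
    have h1 : Nat.Coprime x (PP w) := by simpa using hx.2 0
    refine ⟨x - b, ?_, by omega⟩
    rw [Finset.mem_filter, Finset.mem_Icc]
    refine ⟨by omega, ?_⟩
    rw [show b + (x - b) = x by omega]
    exact h1

lemma cc_le (N w b : ℕ) : (cc N w b : ℝ) ≤ DZ w * (N + PP w) := by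
  classical
  have h := Cls0.card_good w (fun _ : Fin 1 => 0) b N
  rw [nA_zero] at h
  rw [cc_eq]
  have hP : (0 : ℝ) < PP w := by exact_mod_cast Cls0.PP_pos w
  refine h.trans (le_of_eq ?_)
  field_simp

lemma cc_ge (N w b : ℕ) : DZ w * (N - PP w) ≤ cc N w b := by
  classical
  have h := Cls0.card_good_ge w (fun _ : Fin 1 => 0) b N
  rw [nA_zero] at h
  rw [cc_eq]
  have hP : (0 : ℝ) < PP w := by exact_mod_cast Cls0.PP_pos w
  refine le_trans (le_of_eq ?_) h
  field_simp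

/-- Products over the tuples. -/
lemma sum_prod (D : ℕ) (S : Finset ℕ) (f : ℕ → ℝ) :
    ∑ s ∈ Tup D S, ∏ i, f (s i) = (∑ m ∈ S, f m) ^ D := by
  unfold Tup
  rw [← Finset.prod_univ_sum (fun _ : Fin D => S) fun _ m => f m]
  rw [Finset.prod_const, Finset.card_univ, Fintype.card_fin]

/-- The mean of a sum over the tuples. -/
lemma sum_sum_le (D N : ℕ) (hN : 1 ≤ N) (f : ℕ → ℝ) (hf : ∀ m, 0 ≤ f m) {B : ℝ}
    (hB : ∑ m ∈ Icc 1 N, f m ≤ B * N) :
    ∑ s ∈ Tup D (Icc 1 N), ∑ i, f (s i) ≤ D * B * (N : ℝ) ^ D := by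
  rw [Finset.sum_comm]
  have h1 : ∀ i : Fin D, ∑ s ∈ Tup D (Icc 1 N), f (s i) ≤ B * (N : ℝ) ^ D := by
    intro i
    unfold Tup
    have h2 := Fintype.sum_piFinset_apply f (Icc 1 N) i
    rw [h2, Fintype.card_fin, Nat.card_Icc, Nat.add_sub_cancel, nsmul_eq_mul]
    have hD : 1 ≤ D := by
      have := i.2
      omega
    have h3 : (N : ℝ) ^ D = (N : ℝ) ^ (D - 1) * N := by
      rw [← pow_succ, Nat.sub_add_cancel hD]
    push_cast
    calc (N : ℝ) ^ (D - 1) * ∑ b ∈ Icc 1 N, f b ≤ (N : ℝ) ^ (D - 1) * (B * N) :=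
          mul_le_mul_of_nonneg_left hB (by positivity)
      _ = B * (N : ℝ) ^ D := by rw [h3]; ring
  calc ∑ i : Fin D, ∑ s ∈ Tup D (Icc 1 N), f (s i) ≤ ∑ i : Fin D, B * (N : ℝ) ^ D :=
        Finset.sum_le_sum fun i _ => h1 i
    _ = D * B * (N : ℝ) ^ D := by
        rw [Finset.sum_const, Finset.card_univ, Fintype.card_fin, nsmul_eq_mul]
        ring

/-- Markov's inequality for a set of tuples. -/
lemma markov {α : Type*} (S : Finset α) (p : α → Prop) [DecidablePred p] (g : α → ℝ) {a B : ℝ}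
    (ha : 0 < a)
    (hg : ∀ s ∈ S, 0 ≤ g s) (hp : ∀ s ∈ S, p s → a ≤ g s) (hB : ∑ s ∈ S, g s ≤ a * B) :
    ((S.filter p).card : ℝ) ≤ B := by
  have h1 : ((S.filter p).card : ℝ) * a ≤ ∑ s ∈ S, g s := by
    rw [← nsmul_eq_mul, ← Finset.sum_const]
    refine (Finset.sum_le_sum fun s hs => ?_).trans
      (Finset.sum_le_sum_of_subset_of_nonneg (Finset.filter_subset p S) fun s hs _ => hg s hs)
    exact hp s (Finset.mem_filter.1 hs).1 (Finset.mem_filter.1 hs).2
  have h2 : ((S.filter p).card : ℝ) * a ≤ B * a := by linarith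
  exact le_of_mul_le_mul_right h2 ha

end TVCntAux

end Pool.Agent.Lib.LEN
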