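import Pool.Agent.Lib.LEN.ClsT
import Pool.Agent.Lib.LEN.TPs

/-!
# LEN.Tail: the tail of the local model with a periodic weight
-/

set_option autoImplicit false

open Finset Filter

namespace Pool.Agent.Lib.LEN

open Pool.Agent.HLB Pool.Agent.HLT Pool.Agent.HLR Pool.Agent.Lib.GMV

lemma PP_one_le (w : ℕ) : 1 ≤ PP w := prod_pos fun p hp => (Nat.prime_of_mem_primesLE hp).pos

lemma primesLE_sub {w Y : ℕ} (h : PP w ≤ Y) : Nat.primesLE w ⊆ Nat.primesLE Y := by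
  intro p hp
  rw [Nat.mem_primesLE]
  have h1 : p ∣ PP w := dvd_prod_of_mem (fun p => p) hp
  exact ⟨(Nat.le_of_dvd (PP_one_le w) h1).trans h, Nat.prime_of_mem_primesLE hp⟩

theorem tailP (k : ℕ) (hk : 1 ≤ k) : ∃ X0 : ℕ, ∀ X Q : ℕ, X0 ≤ X → Rg 1 X Q →
    ∀ w : ℕ, PP w ≤ Q → ∀ ψ : ℕ → ℝ, (∀ n, 0 ≤ ψ n) → (∀ n, ψ n ≤ 1) → (∀ n, ψ (n + PP w) = ψ n) →
    ∀ (x : Fin k → CI) (h : Fin k → ℕ), (∀ i, x i ∈ Ch Q) → h ∈ Tup k (Icc 1 X) →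
    Function.Injective h →
    ‖TYs (Q ^ (8 * k)) ψ x h - TPs (Q ^ (8 * k)) ψ x h‖ ≤ (Q : ℝ) ^ (-(3 / 2 : ℝ)) := by
  obtain ⟨X0, hX0⟩ := tailB k hk
  refine ⟨X0, fun X Q hX hRg w hw ψ hψ0 hψ1 hψ2 x h hx hh hinj => ?_⟩
  have hQY : Q ≤ Q ^ (8 * k) := Nat.le_self_pow (by omega) Q
  rw [← TPs_eq (Q ^ (8 * k)) ψ x (fun i => ((mem_Ch.1 (hx i)).1).trans hQY) h]
  refine hX0 X Q hX hRg (Nat.primesLE w) (primesLE_sub (hw.trans hQY)) hw ψ (fun n => ?_) hψ2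
    x h hx hh hinj
  rw [abs_of_nonneg (hψ0 n)]
  exact hψ1 n

end Pool.Agent.Lib.LEN
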