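import Mathlib

/-!
# LEN.ZFou: the number of values in a short window

`|∑_(j < M) exp (i j τ (X a - ξ))| ≥ M cos 1 ≥ M/2` if `ξ ≤ X a ≤ ξ + ℓ`, `M τ ℓ ≤ 1`; expand the square.
-/

set_option autoImplicit false

open Finset

namespace Pool.Agent.Lib.LEN

namespace ZFouAux

/-- the exponential sum -/
noncomputable def es (M : ℕ) (t : ℝ) : ℂ := ∑ j ∈ range M, Complex.exp (((j * t : ℝ) : ℂ) * Complex.I)

theorem es_norm_ge (M : ℕ) {t : ℝ} (h0 : 0 ≤ t) (h1 : M * t ≤ 1) : (M : ℝ) / 2 ≤ ‖es M t‖ := by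
  refine le_trans ?_ (Complex.re_le_norm _)
  unfold es
  rw [Complex.re_sum]
  have h2 : ∀ j ∈ range M, (1 : ℝ) / 2 ≤ (Complex.exp (((j * t : ℝ) : ℂ) * Complex.I)).re := by
    intro j hj
    rw [Complex.exp_ofReal_mul_I_re]
    have hj' : (j : ℝ) ≤ M := by exact_mod_cast (Finset.mem_range.1 hj).le
    have h3 : (0 : ℝ) ≤ j * t := by positivity
    have h4 : (j : ℝ) * t ≤ 1 := (mul_le_mul_of_nonneg_right hj' h0).trans h1
    have h5 := Real.one_sub_sq_div_two_le_cos (x := (j : ℝ) * t)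
    have h6 : ((j : ℝ) * t) ^ 2 ≤ 1 := by nlinarith
    linarith
  calc (M : ℝ) / 2 = ∑ j ∈ range M, (1 : ℝ) / 2 := by
        rw [sum_const, card_range, nsmul_eq_mul]; ring
    _ ≤ _ := sum_le_sum h2

theorem es_sq (M : ℕ) (t : ℝ) : ((‖es M t‖ ^ 2 : ℝ) : ℂ) =
    ∑ j ∈ range M, ∑ k ∈ range M, Complex.exp (((((j : ℝ) - k) * t : ℝ) : ℂ) * Complex.I) := by
  have h1 : ((‖es M t‖ ^ 2 : ℝ) : ℂ) = es M t * (starRingEnd ℂ) (es M t) := by
    rw [Complex.mul_conj, Complex.normSq_eq_norm_sq]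
  rw [h1]
  unfold es
  rw [map_sum, Finset.sum_mul_sum]
  refine sum_congr rfl fun j _ => sum_congr rfl fun k _ => ?_
  rw [← Complex.exp_conj, ← Complex.exp_add]
  congr 1
  rw [map_mul, Complex.conj_ofReal, Complex.conj_I]
  push_cast
  ring

end ZFouAux

open ZFouAux in
/-- Module ZFou: the number of values in a short window, from finitely many exponential sums
(`|1/M ∑_{j<M} exp (i j τ (X a - ξ))| ≥ cos 1 ≥ 1/2` in the window; expand the square). -/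
theorem z_window {α : Type*} (A : Finset α) (X : α → ℝ) (ξ ℓ τ : ℝ) (M : ℕ) (hM : 1 ≤ M)
    (hℓ : 0 ≤ ℓ) (hτ : 0 ≤ τ) (h : M * τ * ℓ ≤ 1) :
    ((A.filter (fun a => ξ ≤ X a ∧ X a ≤ ξ + ℓ)).card : ℝ) ≤
      4 / (M : ℝ) ^ 2 * ∑ j ∈ range M, ∑ k ∈ range M,
        ‖∑ a ∈ A, Complex.exp ((((j : ℝ) - k) * τ * X a : ℝ) * Complex.I)‖ := by
  classical
  have hM0 : (0 : ℝ) < M := by exact_mod_cast hM
  have _ := hℓ
  -- one point
  have h1 : ((A.filter (fun a => ξ ≤ X a ∧ X a ≤ ξ + ℓ)).card : ℝ) ≤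
      ∑ a ∈ A, 4 / (M : ℝ) ^ 2 * ‖es M (τ * (X a - ξ))‖ ^ 2 := by
    rw [Finset.card_filter, Nat.cast_sum]
    refine sum_le_sum fun a _ => ?_
    split_ifs with ha
    · have h2 : 0 ≤ τ * (X a - ξ) := mul_nonneg hτ (by linarith [ha.1])
      have h3 : (M : ℝ) * (τ * (X a - ξ)) ≤ 1 := by
        refine le_trans ?_ h
        rw [← mul_assoc]
        exact mul_le_mul_of_nonneg_left (by linarith [ha.2]) (by positivity)
      have h4 := es_norm_ge M h2 h3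
      have h5 : ((M : ℝ) / 2) ^ 2 ≤ ‖es M (τ * (X a - ξ))‖ ^ 2 :=
        pow_le_pow_left₀ (by positivity) h4 2
      rw [Nat.cast_one]
      calc (1 : ℝ) = 4 / (M : ℝ) ^ 2 * ((M : ℝ) / 2) ^ 2 := by
            field_simp
            norm_num
        _ ≤ _ := mul_le_mul_of_nonneg_left h5 (by positivity)
    · rw [Nat.cast_zero]
      positivity
  refine h1.trans ?_
  rw [← Finset.mul_sum]
  refine mul_le_mul_of_nonneg_left ?_ (by positivity)
  have h2 : (∑ a ∈ A, ‖es M (τ * (X a - ξ))‖ ^ 2 : ℝ) =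
      ‖∑ a ∈ A, ((‖es M (τ * (X a - ξ))‖ ^ 2 : ℝ) : ℂ)‖ := by
    rw [← Complex.ofReal_sum, Complex.norm_real, Real.norm_eq_abs,
      abs_of_nonneg (sum_nonneg fun a _ => by positivity)]
  rw [h2, sum_congr rfl fun a _ => es_sq M (τ * (X a - ξ)), sum_comm]
  refine (norm_sum_le _ _).trans (sum_le_sum fun j _ => ?_)
  rw [sum_comm]
  refine (norm_sum_le _ _).trans (sum_le_sum fun k _ => le_of_eq ?_)
  have h3 : ∀ a ∈ A, Complex.exp (((((j : ℝ) - k) * (τ * (X a - ξ)) : ℝ) : ℂ) * Complex.I) =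
      Complex.exp (((-(((j : ℝ) - k) * τ * ξ) : ℝ) : ℂ) * Complex.I) *
        Complex.exp (((((j : ℝ) - k) * τ * X a : ℝ) : ℂ) * Complex.I) := by
    intro a _
    rw [← Complex.exp_add]
    congr 1
    push_cast
    ring
  rw [sum_congr rfl h3, ← Finset.mul_sum, norm_mul, Complex.norm_exp_ofReal_mul_I, one_mul]

end Pool.Agent.Lib.LEN
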