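import Pool.Agent.Lib.LEN.JBox

/-!
# LEN.ZLoc: one prime: the number of missed classes is 1, or 2, with positive probability
-/

set_option autoImplicit false

open Finset Filter

namespace Pool.Agent.Lib.LEN

open Pool.Agent.HLB Pool.Agent.HLT Pool.Agent.HLR Pool.Agent.Lib.GMV

namespace ZLocAux

/-- The classes missed by the tuple. -/
def gd (p : ℕ) {r : ℕ} (a : Fin r → ℕ) : Finset ℕ :=
  (range p).filter fun n => ∀ i, ¬ p ∣ n + a i

lemma card_gd {r : ℕ} {p : ℕ} (hp : p.Prime) (a : Fin r → ℕ) : (gd p a).card + nuI a p = p := by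
  classical
  have h1 := JBoxAux.sum_ee hp a
  have h2 : ∑ n ∈ range p, JBoxAux.ee p a n = ((gd p a).card : ℝ) := by
    unfold gd
    rw [card_filter]
    push_cast
    refine sum_congr rfl fun n _ => ?_
    unfold JBoxAux.ee
    split_ifs with h
    · refine prod_eq_one fun i _ => ?_
      rw [if_neg (h i)]
    · push Not at h
      obtain ⟨i, hi⟩ := h
      refine prod_eq_zero (mem_univ i) ?_
      rw [if_pos hi]
  rw [h2] at h1
  have h3 : ((gd p a).card : ℝ) + nuI a p = p := by linarith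
  exact_mod_cast h3

lemma dvd_iff' {p n c : ℕ} (hn : n < p) (hc : c < p) : p ∣ n + c ↔ c = (p - n) % p := by
  rcases Nat.eq_zero_or_pos n with h | h
  · subst h
    rw [zero_add, Nat.sub_zero, Nat.mod_self]
    constructor
    · intro h1
      exact Nat.eq_zero_of_dvd_of_lt h1 hc
    · intro h1
      rw [h1]
      exact dvd_zero p
  · rw [Nat.mod_eq_of_lt (by omega : p - n < p)]
    constructor
    · rintro ⟨k, hk⟩
      have h1 : k < 2 := by
        by_contra hcon
        have : p * 2 ≤ p * k := Nat.mul_le_mul_left p (by omega)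
        omega
      have h2 : k = 1 := by
        rcases Nat.lt_or_ge k 1 with h3 | h3
        · have h4 : k = 0 := by omega
          rw [h4, Nat.mul_zero] at hk
          omega
        · omega
      rw [h2, Nat.mul_one] at hk
      omega
    · intro h1
      refine ⟨1, ?_⟩
      omega

lemma card_cl {p : ℕ} (U : Finset ℕ) (hU : U ⊆ range p) :
    ((range p).filter fun c => ∀ n ∈ U, ¬ p ∣ n + c).card = p - U.card := by
  have h1 : (range p).filter (fun c => ∀ n ∈ U, ¬ p ∣ n + c) =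
      range p \ U.image (fun n => (p - n) % p) := by
    ext c
    rw [mem_filter, Finset.mem_sdiff, mem_image]
    constructor
    · rintro ⟨hc, h⟩
      refine ⟨hc, ?_⟩
      rintro ⟨n, hn, rfl⟩
      exact h n hn ((dvd_iff' (mem_range.1 (hU hn)) (mem_range.1 hc)).2 rfl)
    · rintro ⟨hc, h⟩
      refine ⟨hc, fun n hn hd => h ⟨n, hn, ?_⟩⟩
      exact ((dvd_iff' (mem_range.1 (hU hn)) (mem_range.1 hc)).1 hd).symm
  have h2 : U.image (fun n => (p - n) % p) ⊆ range p := by
    intro c hc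
    obtain ⟨n, hn, rfl⟩ := mem_image.1 hc
    have := mem_range.1 (hU hn)
    exact mem_range.2 (Nat.mod_lt _ (by omega))
  rw [h1, card_sdiff_of_subset h2, card_range, card_image_of_injOn]
  intro n hn n' hn' h
  have e1 := mem_range.1 (hU hn)
  have e2 := mem_range.1 (hU hn')
  simp only at h
  rcases Nat.eq_zero_or_pos n with h3 | h3 <;> rcases Nat.eq_zero_or_pos n' with h4 | h4
  · omega
  · rw [h3, Nat.sub_zero, Nat.mod_self, Nat.mod_eq_of_lt (by omega : p - n' < p)] at h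
    omega
  · rw [h4, Nat.sub_zero, Nat.mod_self, Nat.mod_eq_of_lt (by omega : p - n < p)] at h
    omega
  · rw [Nat.mod_eq_of_lt (by omega : p - n' < p), Nat.mod_eq_of_lt (by omega : p - n < p)] at h
    omega

/-- The binomial moments of the number of the missed classes. -/
lemma binom_mom {p : ℕ} (r j : ℕ) :
    ∑ a ∈ Fintype.piFinset (fun _ : Fin r => range p), (gd p a).card.choose j =
      p.choose j * (p - j) ^ r := by
  classical
  have h1 : ∀ a : Fin r → ℕ, (gd p a).card.choose j =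
      ∑ U ∈ powersetCard j (range p), if U ⊆ gd p a then 1 else 0 := by
    intro a
    rw [← card_powersetCard, ← card_filter]
    congr 1
    ext U
    rw [mem_filter, mem_powersetCard, mem_powersetCard]
    constructor
    · rintro ⟨h2, h3⟩
      exact ⟨⟨h2.trans (filter_subset _ _), h3⟩, h2⟩
    · rintro ⟨⟨_, h3⟩, h2⟩
      exact ⟨h2, h3⟩
  rw [sum_congr rfl fun a _ => h1 a, sum_comm]
  have h2 : ∀ U ∈ powersetCard j (range p), ∑ a ∈ Fintype.piFinset (fun _ : Fin r => range p),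
      (if U ⊆ gd p a then 1 else 0) = (p - j) ^ r := by
    intro U hU
    rw [mem_powersetCard] at hU
    rw [← card_filter]
    have h3 : (Fintype.piFinset (fun _ : Fin r => range p)).filter (fun a => U ⊆ gd p a) =
        Fintype.piFinset (fun _ : Fin r => (range p).filter fun c => ∀ n ∈ U, ¬ p ∣ n + c) := by
      ext a
      rw [mem_filter, Fintype.mem_piFinset, Fintype.mem_piFinset]
      constructor
      · rintro ⟨h4, h5⟩ i
        rw [mem_filter]
        refine ⟨h4 i, fun n hn => ?_⟩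
        have := h5 hn
        unfold gd at this
        exact (mem_filter.1 this).2 i
      · intro h4
        refine ⟨fun i => (mem_filter.1 (h4 i)).1, fun n hn => ?_⟩
        unfold gd
        rw [mem_filter]
        exact ⟨hU.1 hn, fun i => (mem_filter.1 (h4 i)).2 n hn⟩
    rw [h3, Fintype.card_piFinset, prod_const, card_univ, Fintype.card_fin, card_cl U hU.1, hU.2]
  rw [sum_congr rfl h2, sum_const, card_powersetCard, card_range, smul_eq_mul]

lemma ind_one (z : ℕ) : (z : ℝ) - 2 * (z.choose 2 : ℕ) ≤ if z = 1 then 1 else 0 := by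
  have h : ((z.choose 2 : ℕ) : ℝ) = z * (z - 1) / 2 := Nat.cast_choose_two ℝ z
  rw [h]
  split_ifs with h1
  · subst h1
    norm_num
  · rcases Nat.lt_or_ge z 2 with h2 | h2
    · have h3 : z = 0 := by omega
      subst h3
      norm_num
    · have h3 : (2 : ℝ) ≤ z := by exact_mod_cast h2
      nlinarith

lemma ind_two (z : ℕ) : ((z.choose 2 : ℕ) : ℝ) - 3 * (z.choose 3 : ℕ) ≤ if z = 2 then 1 else 0 := by
  rcases Nat.lt_or_ge z 3 with h2 | h2
  · interval_cases z <;> simp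
  · rw [if_neg (by omega)]
    have h1 : z.choose 2 ≤ 3 * z.choose 3 := by
      have h3 := Nat.choose_succ_right_eq z 2
      have h4 : z.choose 3 * 3 = z.choose 2 * (z - 2) := h3
      nlinarith [Nat.mul_le_mul_left (z.choose 2) (by omega : 1 ≤ z - 2)]
    have h3 : ((z.choose 2 : ℕ) : ℝ) ≤ 3 * (z.choose 3 : ℕ) := by exact_mod_cast h1
    linarith

/-- The size of `r`. -/
lemma r_small {p r : ℕ} (hp : 40000 ≤ p) (h : 1 / 8 ≤ (p : ℝ) * (1 - 1 / (p : ℝ)) ^ r) :
    (r : ℝ) * (1 / ((p : ℝ) - 1) ^ 2) ≤ 1 / 8 := by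
  have hpr : (40000 : ℝ) ≤ p := by exact_mod_cast hp
  have hp0 : (0 : ℝ) < p := by linarith
  have h1 : (1 - 1 / (p : ℝ)) ^ r ≤ Real.exp (-(r / p)) := by
    have h2 : 1 - 1 / (p : ℝ) ≤ Real.exp (-(1 / p)) := by
      have := Real.add_one_le_exp (-(1 / (p : ℝ)))
      linarith
    have h3 : 0 ≤ 1 - 1 / (p : ℝ) := by
      rw [sub_nonneg, div_le_one hp0]
      linarith
    calc (1 - 1 / (p : ℝ)) ^ r ≤ (Real.exp (-(1 / p))) ^ r := pow_le_pow_left₀ h3 h2 r
      _ = Real.exp (-(r / p)) := by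
          rw [← Real.exp_nat_mul]
          congr 1
          ring
  by_contra hcon
  rw [not_le, mul_one_div, lt_div_iff₀ (by nlinarith)] at hcon
  have h4 : (p : ℝ) / 32 ≤ r / p := by
    rw [le_div_iff₀ hp0]
    nlinarith
  have h5 : Real.exp (-(r / p : ℝ)) ≤ Real.exp (-((p : ℝ) / 32)) := Real.exp_le_exp.2 (by linarith)
  have h6 : ((p : ℝ) / 64) ^ 2 ≤ Real.exp ((p : ℝ) / 32) := by
    have h7 : (p : ℝ) / 64 ≤ Real.exp ((p : ℝ) / 64) := by
      have := Real.add_one_le_exp ((p : ℝ) / 64)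
      linarith
    calc ((p : ℝ) / 64) ^ 2 ≤ (Real.exp ((p : ℝ) / 64)) ^ 2 :=
          pow_le_pow_left₀ (by positivity) h7 2
      _ = Real.exp ((p : ℝ) / 32) := by
          rw [← Real.exp_nat_mul]
          congr 1
          push_cast
          ring
  have h8 : (p : ℝ) * Real.exp (-((p : ℝ) / 32)) < 1 / 8 := by
    rw [Real.exp_neg, ← div_eq_mul_inv, div_lt_iff₀ (Real.exp_pos _)]
    nlinarith
  have h9 := mul_le_mul_of_nonneg_left (h1.trans h5) hp0.le
  linarith

end ZLocAux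

open ZLocAux in
/-- Module ZLoc. -/
theorem z_loc : ∃ δ : ℝ, 0 < δ ∧ ∃ p0 : ℕ, ∀ p : ℕ, p.Prime → p0 ≤ p → ∀ r : ℕ,
    1 / 8 ≤ (p : ℝ) * (1 - 1 / (p : ℝ)) ^ r → (p : ℝ) * (1 - 1 / (p : ℝ)) ^ r ≤ 1 / 2 →
    δ * (((Fintype.piFinset fun _ : Fin r => range p).filter fun a => nuI a p < p).card : ℝ) ≤
      (((Fintype.piFinset fun _ : Fin r => range p).filter fun a => nuI a p + 1 = p).card : ℝ) ∧
    δ * (((Fintype.piFinset fun _ : Fin r => range p).filter fun a => nuI a p < p).card : ℝ) ≤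
      (((Fintype.piFinset fun _ : Fin r => range p).filter fun a => nuI a p + 2 = p).card : ℝ) := by
  refine ⟨1 / 64, by norm_num, 40000, ?_⟩
  intro p hp hp0 r hlo hhi
  have hpr : (40000 : ℝ) ≤ p := by exact_mod_cast hp0
  have hpp : (0 : ℝ) < p := by linarith
  set T : ℝ := (p : ℝ) ^ r with hT
  have hT0 : 0 < T := pow_pos hpp r
  set x : ℝ := (1 - 1 / (p : ℝ)) ^ r with hx
  set lam : ℝ := p * x with hlam
  have h1p : 0 ≤ 1 - 1 / (p : ℝ) := by
    rw [sub_nonneg, div_le_one hpp]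
    linarith
  have hx0 : 0 ≤ x := pow_nonneg h1p r
  -- the moments
  have m1 : ∑ a ∈ Fintype.piFinset (fun _ : Fin r => range p), ((gd p a).card : ℝ) = lam * T := by
    have h := binom_mom (p := p) r 1
    simp only [Nat.choose_one_right] at h
    have h' : (∑ a ∈ Fintype.piFinset (fun _ : Fin r => range p), ((gd p a).card : ℝ)) =
        (p : ℝ) * (((p - 1 : ℕ) : ℝ)) ^ r := by exact_mod_cast h
    rw [h', Nat.cast_sub (by omega), Nat.cast_one, hlam, hx, hT, mul_assoc, ← mul_pow]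
    congr 2
    field_simp
  have m2 : ∑ a ∈ Fintype.piFinset (fun _ : Fin r => range p), (((gd p a).card.choose 2 : ℕ) : ℝ) =
      p * (p - 1) / 2 * (1 - 2 / (p : ℝ)) ^ r * T := by
    have h := binom_mom (p := p) r 2
    have h' : (∑ a ∈ Fintype.piFinset (fun _ : Fin r => range p),
        (((gd p a).card.choose 2 : ℕ) : ℝ)) = ((p.choose 2 : ℕ) : ℝ) * (((p - 2 : ℕ) : ℝ)) ^ r := by
      exact_mod_cast h
    rw [h', Nat.cast_choose_two ℝ p, Nat.cast_sub (by omega), hT, mul_assoc, ← mul_pow]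
    congr 2
    push_cast
    field_simp
  have m3 : ∑ a ∈ Fintype.piFinset (fun _ : Fin r => range p), (((gd p a).card.choose 3 : ℕ) : ℝ) =
      ((p.choose 3 : ℕ) : ℝ) * (1 - 3 / (p : ℝ)) ^ r * T := by
    have h := binom_mom (p := p) r 3
    have h' : (∑ a ∈ Fintype.piFinset (fun _ : Fin r => range p),
        (((gd p a).card.choose 3 : ℕ) : ℝ)) = ((p.choose 3 : ℕ) : ℝ) * (((p - 3 : ℕ) : ℝ)) ^ r := by
      exact_mod_cast h
    rw [h', Nat.cast_sub (by omega), hT, mul_assoc, ← mul_pow]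
    congr 2
    push_cast
    field_simp
  -- bounds
  have hinv : (1 : ℝ) / p ≤ 1 / 40000 := one_div_le_one_div_of_le (by norm_num) hpr
  have hinv0 : (0 : ℝ) < 1 / p := by positivity
  have b2 : (1 - 2 / (p : ℝ)) ^ r ≤ x ^ 2 := by
    rw [hx, ← pow_mul, mul_comm r 2, pow_mul]
    refine pow_le_pow_left₀ ?_ ?_ r
    · have : (2 : ℝ) / p = 2 * (1 / p) := by ring
      rw [this]
      linarith
    · have : (2 : ℝ) / p = 2 * (1 / p) := by ring
      rw [this]
      nlinarith [sq_nonneg ((1 : ℝ) / p)]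
  have b3 : (1 - 3 / (p : ℝ)) ^ r ≤ x ^ 3 := by
    rw [hx, ← pow_mul, mul_comm r 3, pow_mul]
    have e3 : (3 : ℝ) / p = 3 * (1 / p) := by ring
    refine pow_le_pow_left₀ ?_ ?_ r
    · rw [e3]
      linarith
    · rw [e3]
      nlinarith [sq_nonneg ((1 : ℝ) / p), mul_nonneg (sq_nonneg ((1 : ℝ) / p)) h1p]
  have c3 : ((p.choose 3 : ℕ) : ℝ) ≤ (p : ℝ) ^ 3 / 6 := by
    have h := Nat.choose_le_pow_div 3 p (α := ℝ)
    have e : ((Nat.factorial 3 : ℕ) : ℝ) = 6 := by norm_num [Nat.factorial]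
    rw [e] at h
    exact h
  have l2 : 3 / 4 * x ^ 2 * p ≤ (p - 1) * (1 - 2 / (p : ℝ)) ^ r := by
    have h1 : (1 - 2 / (p : ℝ)) = (1 - 1 / (p : ℝ)) ^ 2 * (1 + -(1 / ((p : ℝ) - 1) ^ 2)) := by
      have : (p : ℝ) - 1 ≠ 0 := by linarith
      field_simp
      ring
    have h2 : (1 : ℝ) + r * (-(1 / ((p : ℝ) - 1) ^ 2)) ≤ (1 + -(1 / ((p : ℝ) - 1) ^ 2)) ^ r := by
      refine one_add_mul_le_pow ?_ r
      have h3 : (1 : ℝ) / ((p : ℝ) - 1) ^ 2 ≤ 1 := by
        rw [div_le_one (by nlinarith)]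
        nlinarith
      linarith
    have h3 := r_small hp0 hlo
    have h4 : (7 : ℝ) / 8 ≤ (1 + -(1 / ((p : ℝ) - 1) ^ 2)) ^ r := by linarith
    have h5 : (1 - 2 / (p : ℝ)) ^ r = x ^ 2 * (1 + -(1 / ((p : ℝ) - 1) ^ 2)) ^ r := by
      rw [h1, mul_pow, hx, ← pow_mul, ← pow_mul, mul_comm 2 r]
    rw [h5]
    have h6 : x ^ 2 * (7 / 8) ≤ x ^ 2 * (1 + -(1 / ((p : ℝ) - 1) ^ 2)) ^ r :=
      mul_le_mul_of_nonneg_left h4 (sq_nonneg x)
    calc 3 / 4 * x ^ 2 * p = x ^ 2 * (3 / 4 * p) := by ring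
      _ ≤ x ^ 2 * (7 / 8 * (p - 1)) := mul_le_mul_of_nonneg_left (by linarith) (sq_nonneg x)
      _ = (p - 1) * (x ^ 2 * (7 / 8)) := by ring
      _ ≤ (p - 1) * (x ^ 2 * (1 + -(1 / ((p : ℝ) - 1) ^ 2)) ^ r) :=
          mul_le_mul_of_nonneg_left h6 (by linarith)
  -- the counts
  have nz : ∀ a : Fin r → ℕ, (gd p a).card + nuI a p = p := fun a => card_gd hp a
  have npos : (((Fintype.piFinset fun _ : Fin r => range p).filter fun a => nuI a p < p).card : ℝ) ≤
      lam * T := by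
    rw [← m1, card_filter]
    push_cast
    refine sum_le_sum fun a _ => ?_
    have h := nz a
    split_ifs with h1
    · have h2 : 1 ≤ (gd p a).card := by omega
      exact_mod_cast h2
    · exact Nat.cast_nonneg _
  have n1 : ∑ a ∈ Fintype.piFinset (fun _ : Fin r => range p),
      (((gd p a).card : ℝ) - 2 * ((gd p a).card.choose 2 : ℕ)) ≤
      (((Fintype.piFinset fun _ : Fin r => range p).filter fun a => nuI a p + 1 = p).card : ℝ) := by
    rw [card_filter]
    push_cast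
    refine sum_le_sum fun a _ => ?_
    have h := nz a
    have h1 := ind_one (gd p a).card
    refine h1.trans (le_of_eq ?_)
    by_cases h2 : (gd p a).card = 1
    · rw [if_pos h2, if_pos (by omega)]
    · rw [if_neg h2, if_neg (by omega)]
  have n2 : ∑ a ∈ Fintype.piFinset (fun _ : Fin r => range p),
      ((((gd p a).card.choose 2 : ℕ) : ℝ) - 3 * ((gd p a).card.choose 3 : ℕ)) ≤
      (((Fintype.piFinset fun _ : Fin r => range p).filter fun a => nuI a p + 2 = p).card : ℝ) := by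
    rw [card_filter]
    push_cast
    refine sum_le_sum fun a _ => ?_
    have h := nz a
    have h1 := ind_two (gd p a).card
    refine h1.trans (le_of_eq ?_)
    by_cases h2 : (gd p a).card = 2
    · rw [if_pos h2, if_pos (by omega)]
    · rw [if_neg h2, if_neg (by omega)]
  rw [sum_sub_distrib, ← mul_sum, m1, m2] at n1
  rw [sum_sub_distrib, ← mul_sum, m2, m3] at n2
  have hl8 : 1 / 8 ≤ lam := hlo
  have hl2 : lam ≤ 1 / 2 := hhi
  constructor
  · refine le_trans ?_ n1
    have h1 : (p : ℝ) * (p - 1) / 2 * (1 - 2 / (p : ℝ)) ^ r ≤ lam ^ 2 / 2 := by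
      calc (p : ℝ) * (p - 1) / 2 * (1 - 2 / (p : ℝ)) ^ r ≤ (p : ℝ) * (p - 1) / 2 * x ^ 2 :=
            mul_le_mul_of_nonneg_left b2 (by nlinarith)
        _ ≤ (p : ℝ) * p / 2 * x ^ 2 := mul_le_mul_of_nonneg_right (by nlinarith) (sq_nonneg x)
        _ = lam ^ 2 / 2 := by rw [hlam]; ring
    have h2 := mul_le_mul_of_nonneg_right h1 hT0.le
    have h3 : lam ^ 2 * T ≤ lam * (1 / 2) * T := by
      refine mul_le_mul_of_nonneg_right ?_ hT0.le
      rw [sq]
      exact mul_le_mul_of_nonneg_left hl2 (by linarith)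
    have h4 : 0 ≤ lam * T := mul_nonneg (by linarith) hT0.le
    linarith
  · refine le_trans ?_ n2
    have h1 : 3 / 4 * lam ^ 2 / 2 ≤ (p : ℝ) * (p - 1) / 2 * (1 - 2 / (p : ℝ)) ^ r := by
      have h2 := mul_le_mul_of_nonneg_left l2 (by positivity : (0 : ℝ) ≤ (p : ℝ) / 2)
      calc 3 / 4 * lam ^ 2 / 2 = (p : ℝ) / 2 * (3 / 4 * x ^ 2 * p) := by rw [hlam]; ring
        _ ≤ (p : ℝ) / 2 * ((p - 1) * (1 - 2 / (p : ℝ)) ^ r) := h2
        _ = _ := by ring
    have h3 : ((p.choose 3 : ℕ) : ℝ) * (1 - 3 / (p : ℝ)) ^ r ≤ lam ^ 3 / 6 := by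
      calc ((p.choose 3 : ℕ) : ℝ) * (1 - 3 / (p : ℝ)) ^ r ≤ (p : ℝ) ^ 3 / 6 * x ^ 3 := by
            refine mul_le_mul c3 b3 ?_ (by positivity)
            refine pow_nonneg ?_ r
            have e3 : (3 : ℝ) / p = 3 * (1 / p) := by ring
            rw [e3]
            linarith
        _ = lam ^ 3 / 6 := by rw [hlam]; ring
    have h4 := mul_le_mul_of_nonneg_right h1 hT0.le
    have h5 := mul_le_mul_of_nonneg_right h3 hT0.le
    have h6 : lam * (1 / 64) ≤ 3 / 4 * lam ^ 2 / 2 - 3 * (lam ^ 3 / 6) := by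
      have h7 : 3 / 4 * lam ^ 2 / 2 - 3 * (lam ^ 3 / 6) = lam * (lam * (3 / 4 - lam) / 2) := by ring
      rw [h7]
      refine mul_le_mul_of_nonneg_left ?_ (by linarith)
      nlinarith
    have h7 := mul_le_mul_of_nonneg_right h6 hT0.le
    have h8 : 1 / 64 * (((Fintype.piFinset fun _ : Fin r => range p).filter
        fun a => nuI a p < p).card : ℝ) ≤ 1 / 64 * (lam * T) :=
      mul_le_mul_of_nonneg_left npos (by norm_num)
    nlinarith

end Pool.Agent.Lib.LEN
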