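import Pool.Agent.Lib.SW.Main

/-!
# LEN.ZPr: many primes with few missed classes
-/

set_option autoImplicit false

open Finset Filter

namespace Pool.Agent.Lib.LEN

namespace ZPrAux

/-- The number `z` with `z log z = r`. -/
lemma exists_z (Z0 r : ℕ) (hr : (Z0 : ℝ) * Real.log Z0 ≤ r) : ∃ z : ℕ, Z0 ≤ z ∧
    (z : ℝ) * Real.log z ≤ r ∧ (r : ℝ) < ((z + 1 : ℕ) : ℝ) * Real.log ((z + 1 : ℕ) : ℝ) := by
  classical
  have hbig : (r : ℝ) < ((r + Z0 + 3 : ℕ) : ℝ) * Real.log ((r + Z0 + 3 : ℕ) : ℝ) := by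
    have h1 : (1 : ℝ) ≤ Real.log ((r + Z0 + 3 : ℕ) : ℝ) := by
      have h2 : Real.exp 1 ≤ ((r + Z0 + 3 : ℕ) : ℝ) := by
        have := Real.exp_one_lt_d9
        push_cast
        have : (0 : ℝ) ≤ r := Nat.cast_nonneg r
        have : (0 : ℝ) ≤ Z0 := Nat.cast_nonneg Z0
        linarith
      have h3 := Real.log_le_log (Real.exp_pos 1) h2
      rwa [Real.log_exp] at h3
    have h2 : (0 : ℝ) ≤ r := Nat.cast_nonneg r
    have h3 : (0 : ℝ) ≤ Z0 := Nat.cast_nonneg Z0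
    push_cast at h1 ⊢
    nlinarith
  set z := Nat.findGreatest (fun n => (n : ℝ) * Real.log n ≤ r) (r + Z0 + 3) with hz
  refine ⟨z, Nat.le_findGreatest (by omega) hr, ?_, ?_⟩
  · exact Nat.findGreatest_spec (P := fun n => (n : ℝ) * Real.log n ≤ r) (m := Z0) (by omega) hr
  · have hzle : z ≤ r + Z0 + 3 := Nat.findGreatest_le _
    have hzne : z ≠ r + Z0 + 3 := by
      intro h
      have h1 : (z : ℝ) * Real.log z ≤ r :=
        Nat.findGreatest_spec (P := fun n => (n : ℝ) * Real.log n ≤ r) (m := Z0) (by omega) hr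
      rw [h] at h1
      linarith
    have h1 := Nat.findGreatest_is_greatest (P := fun n => (n : ℝ) * Real.log n ≤ r)
      (n := r + Z0 + 3) (k := z + 1) (by omega) (by omega)
    exact not_le.1 h1

lemma theta_sub (u v : ℝ) (huv : ⌊u⌋₊ ≤ ⌊v⌋₊) : Pool.Agent.Lib.SW.thetaAP v 1 1 -
    Pool.Agent.Lib.SW.thetaAP u 1 1 =
    ∑ p ∈ (Ioc ⌊u⌋₊ ⌊v⌋₊).filter Nat.Prime, Real.log p := by
  unfold Pool.Agent.Lib.SW.thetaAP
  have h1 : (Icc 1 ⌊v⌋₊).filter (fun p => p.Prime ∧ p ≡ 1 [MOD 1]) =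
      (Icc 1 ⌊u⌋₊).filter (fun p => p.Prime ∧ p ≡ 1 [MOD 1]) ∪
      (Ioc ⌊u⌋₊ ⌊v⌋₊).filter Nat.Prime := by
    ext p
    simp only [mem_filter, mem_union, mem_Icc, mem_Ioc, Nat.modEq_one, and_true]
    constructor
    · rintro ⟨⟨h1, h2⟩, h3⟩
      by_cases h : p ≤ ⌊u⌋₊
      · exact Or.inl ⟨⟨h1, h⟩, h3⟩
      · exact Or.inr ⟨⟨by omega, h2⟩, h3⟩
    · rintro (⟨⟨h1, h2⟩, h3⟩ | ⟨⟨h1, h2⟩, h3⟩)
      · exact ⟨⟨h1, by omega⟩, h3⟩
      · exact ⟨⟨by omega, h2⟩, h3⟩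
  have h2 : Disjoint ((Icc 1 ⌊u⌋₊).filter (fun p => p.Prime ∧ p ≡ 1 [MOD 1]))
      ((Ioc ⌊u⌋₊ ⌊v⌋₊).filter Nat.Prime) := by
    rw [Finset.disjoint_left]
    intro p h1 h2
    simp only [mem_filter, mem_Icc, mem_Ioc] at h1 h2
    omega
  rw [h1, sum_union h2]
  ring

/-- The value of `λ` for the primes of the window. -/
lemma lam_bounds {z p r : ℕ} {L : ℝ} (hL : L = Real.log z) (hL200 : 200 ≤ L)
    (hzL : L * (L + 2) ≤ z) (hr1 : (z : ℝ) * L ≤ r)
    (hr2 : (r : ℝ) < ((z + 1 : ℕ) : ℝ) * Real.log ((z + 1 : ℕ) : ℝ))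
    (hp1 : (z : ℝ) * (1 - 19 / 10 / L) < p) (hp2 : (p : ℝ) ≤ z * (1 - 11 / 10 / L)) :
    1 / 8 ≤ (p : ℝ) * (1 - 1 / (p : ℝ)) ^ r ∧ (p : ℝ) * (1 - 1 / (p : ℝ)) ^ r ≤ 1 / 2 := by
  have hL0 : 0 < L := by linarith
  obtain ⟨δ, hδ⟩ : ∃ δ : ℝ, δ = 1 / L := ⟨_, rfl⟩
  have hδ0 : 0 < δ := by rw [hδ]; positivity
  have hLδ : L * δ = 1 := by rw [hδ]; field_simp
  have hδ1 : δ ≤ 1 / 200 := by
    rw [hδ]
    exact one_div_le_one_div_of_le (by norm_num) hL200
  have e1 : (19 : ℝ) / 10 / L = 19 / 10 * δ := by rw [hδ]; ring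
  have e2 : (11 : ℝ) / 10 / L = 11 / 10 * δ := by rw [hδ]; ring
  rw [e1] at hp1
  rw [e2] at hp2
  have hz0 : (0 : ℝ) < z := by nlinarith
  have hz1 : (40000 : ℝ) ≤ z := by nlinarith
  have hu : (z : ℝ) / 2 ≤ z * (1 - 19 / 10 * δ) := by nlinarith
  have hp0 : (20000 : ℝ) ≤ p := by linarith
  have hpp : (0 : ℝ) < p := by linarith
  have hx0 : 0 < 1 - 1 / (p : ℝ) := by
    have : 1 / (p : ℝ) ≤ 1 / 20000 := one_div_le_one_div_of_le (by norm_num) hp0
    linarith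
  have hval : (p : ℝ) * (1 - 1 / (p : ℝ)) ^ r =
      Real.exp (Real.log p + r * Real.log (1 - 1 / (p : ℝ))) := by
    rw [Real.exp_add, Real.exp_log hpp, Real.exp_nat_mul, Real.exp_log hx0]
  have hr0 : (0 : ℝ) ≤ r := Nat.cast_nonneg r
  have hlog2 := Real.log_two_lt_d9
  have hlog2' := Real.log_two_gt_d9
  rw [hval]
  constructor
  · -- the lower bound
    have h1 : -(1 / ((p : ℝ) - 1)) ≤ Real.log (1 - 1 / (p : ℝ)) := by
      have h2 := Real.one_sub_inv_le_log_of_pos hx0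
      refine le_trans (le_of_eq ?_) h2
      have : (p : ℝ) - 1 ≠ 0 := by linarith
      have : (1 : ℝ) - 1 / p = (p - 1) / p := by field_simp
      rw [this]
      field_simp
      ring
    have h2 : (r : ℝ) ≤ z * (L + δ) := by
      have h3 : Real.log ((z + 1 : ℕ) : ℝ) ≤ L + 1 / z := by
        push_cast
        have h4 : ((z : ℝ) + 1) = z * (1 + 1 / z) := by field_simp
        have h5 : 0 < 1 + 1 / (z : ℝ) := by positivity
        rw [h4, Real.log_mul hz0.ne' h5.ne', hL]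
        have h6 := Real.log_le_sub_one_of_pos h5
        linarith
      have h4 : ((z + 1 : ℕ) : ℝ) * Real.log ((z + 1 : ℕ) : ℝ) ≤ ((z : ℝ) + 1) * (L + 1 / z) := by
        have := mul_le_mul_of_nonneg_left h3 (Nat.cast_nonneg (α := ℝ) (z + 1))
        push_cast at this ⊢
        exact this
      have h5 : ((z : ℝ) + 1) * (L + 1 / z) = z * L + (L + 1 + 1 / z) := by
        field_simp
        ring
      have h6 : 1 / (z : ℝ) ≤ 1 := by
        rw [div_le_one hz0]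
        linarith
      have h7 : L + 2 ≤ z * δ := by
        have h8 := mul_le_mul_of_nonneg_right hzL hδ0.le
        have e : L * (L + 2) * δ = (L * δ) * (L + 2) := by ring
        rw [e, hLδ, one_mul] at h8
        exact h8
      linarith
    have h3 : (z : ℝ) * (1 - 19 / 10 * δ - δ ^ 2) ≤ p - 1 := by
      have h4 : 1 ≤ (z : ℝ) * δ ^ 2 := by
        have h5 : L ^ 2 ≤ z := by nlinarith
        have h6 := mul_le_mul_of_nonneg_right h5 (sq_nonneg δ)
        have e : L ^ 2 * δ ^ 2 = (L * δ) ^ 2 := by ring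
        rw [e, hLδ] at h6
        linarith
      linarith
    have hp1' : (0 : ℝ) < p - 1 := by linarith
    have h4 : (r : ℝ) * (1 / ((p : ℝ) - 1)) ≤ L + 39 / 20 := by
      rw [mul_one_div, div_le_iff₀ hp1']
      have h5 : (z : ℝ) * (L + δ) ≤ z * ((L + 39 / 20) * (1 - 19 / 10 * δ - δ ^ 2)) := by
        refine mul_le_mul_of_nonneg_left ?_ hz0.le
        have e : (L + 39 / 20) * (1 - 19 / 10 * δ - δ ^ 2) =
            L + 39 / 20 - 19 / 10 * (L * δ) - (L * δ) * δ - 39 / 20 * (19 / 10) * δ -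
              39 / 20 * δ ^ 2 := by ring
        rw [e, hLδ]
        nlinarith
      have h6 : (L + 39 / 20) * (z * (1 - 19 / 10 * δ - δ ^ 2)) ≤ (L + 39 / 20) * (p - 1) :=
        mul_le_mul_of_nonneg_left h3 (by linarith)
      have e : (z : ℝ) * ((L + 39 / 20) * (1 - 19 / 10 * δ - δ ^ 2)) =
          (L + 39 / 20) * (z * (1 - 19 / 10 * δ - δ ^ 2)) := by ring
      linarith
    have h5 : L - 2 * δ ≤ Real.log p := by
      have h6 : 0 < 1 - 19 / 10 * δ := by linarith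
      have h7 : Real.log (z * (1 - 19 / 10 * δ)) ≤ Real.log p :=
        Real.log_le_log (by positivity) hp1.le
      rw [Real.log_mul hz0.ne' h6.ne', ← hL] at h7
      have h8 := Real.one_sub_inv_le_log_of_pos h6
      have h9 : -(2 * δ) ≤ 1 - (1 - 19 / 10 * δ)⁻¹ := by
        have h10 : (1 - 19 / 10 * δ)⁻¹ ≤ 1 + 2 * δ := by
          rw [inv_le_comm₀ h6 (by linarith), ← one_div, div_le_iff₀ (by linarith)]
          nlinarith
        linarith
      linarith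
    have h6 : (1 : ℝ) / 8 = Real.exp (-(3 * Real.log 2)) := by
      rw [Real.exp_neg, mul_comm, show (3 : ℝ) = ((3 : ℕ) : ℝ) by norm_num, mul_comm,
        Real.exp_nat_mul, Real.exp_log (by norm_num)]
      norm_num
    rw [h6]
    refine Real.exp_le_exp.2 ?_
    have h7 := mul_le_mul_of_nonneg_left h1 hr0
    have e : (r : ℝ) * -(1 / ((p : ℝ) - 1)) = -(r * (1 / ((p : ℝ) - 1))) := by ring
    rw [e] at h7
    linarith
  · -- the upper bound
    have h1 : Real.log (1 - 1 / (p : ℝ)) ≤ -(1 / (p : ℝ)) := by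
      have := Real.log_le_sub_one_of_pos hx0
      linarith
    have h2 : L + 11 / 10 ≤ r * (1 / (p : ℝ)) := by
      rw [mul_one_div, le_div_iff₀ hpp]
      have h3 : (L + 11 / 10) * (p : ℝ) ≤ (L + 11 / 10) * (z * (1 - 11 / 10 * δ)) :=
        mul_le_mul_of_nonneg_left hp2 (by linarith)
      have e : (L + 11 / 10) * ((z : ℝ) * (1 - 11 / 10 * δ)) =
          z * (L + 11 / 10 - 11 / 10 * (L * δ) - 11 / 10 * (11 / 10) * δ) := by ring
      rw [e, hLδ] at h3
      have h4 : (z : ℝ) * (L + 11 / 10 - 11 / 10 * 1 - 11 / 10 * (11 / 10) * δ) ≤ z * L := by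
        refine mul_le_mul_of_nonneg_left ?_ hz0.le
        linarith
      linarith
    have h3 : Real.log p ≤ L := by
      rw [hL]
      refine Real.log_le_log hpp ?_
      have : (z : ℝ) * (1 - 11 / 10 * δ) ≤ z * 1 :=
        mul_le_mul_of_nonneg_left (by linarith) hz0.le
      linarith
    have h6 : (1 : ℝ) / 2 = Real.exp (-Real.log 2) := by
      rw [Real.exp_neg, Real.exp_log (by norm_num)]
      norm_num
    rw [h6]
    refine Real.exp_le_exp.2 ?_
    have h7 := mul_le_mul_of_nonneg_left h1 hr0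
    have e : (r : ℝ) * -(1 / (p : ℝ)) = -(r * (1 / (p : ℝ))) := by ring
    rw [e] at h7
    linarith

end ZPrAux

open ZPrAux

/-- Module ZPr: many primes with `λ ∈ [1/8, 1/2]`. -/
theorem z_pr (n0 p0 : ℕ) : ∃ r0 : ℕ, ∀ r : ℕ, r0 ≤ r → ∃ P : Finset ℕ, n0 ≤ P.card ∧
    ∀ p ∈ P, p.Prime ∧ p0 ≤ p ∧ (p : ℝ) * Real.log p ≤ 2 * r ∧
      1 / 8 ≤ (p : ℝ) * (1 - 1 / (p : ℝ)) ^ r ∧ (p : ℝ) * (1 - 1 / (p : ℝ)) ^ r ≤ 1 / 2 := by
  obtain ⟨C, hC, hSW⟩ := Pool.Agent.Lib.SW.siegel_walfisz_theta_nat 2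
  have hlog : Tendsto (fun N : ℕ => Real.log (N:ℝ)) atTop atTop :=
    Real.tendsto_log_atTop.comp tendsto_natCast_atTop_atTop
  have hpoly : ∀ᶠ N : ℕ in atTop, Real.log (N : ℝ) ^ 3 ≤ N := by
    have h1 := (Real.isLittleO_pow_log_id_atTop (n := 3)).bound (show (0 : ℝ) < 1 by norm_num)
    have h2 := (tendsto_natCast_atTop_atTop (R := ℝ)).eventually h1
    filter_upwards [h2, hlog.eventually_ge_atTop 0] with N hN h0
    simp only [id, Real.norm_eq_abs, one_mul] at hN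
    rw [abs_of_nonneg (by positivity), abs_of_nonneg (Nat.cast_nonneg _)] at hN
    exact hN
  obtain ⟨Z0, hZ0⟩ := eventually_atTop.1 ((hlog.eventually_ge_atTop
    (max 200 (max (40 * C) (5 * n0)))).and (hpoly.and (eventually_ge_atTop (max (2 * p0) 3))))
  refine ⟨⌈(Z0 : ℝ) * Real.log Z0⌉₊, fun r hr => ?_⟩
  obtain ⟨z, hzZ, hz1, hz2⟩ := exists_z Z0 r (Nat.ceil_le.1 hr)
  obtain ⟨hL, hL3, hzp⟩ := hZ0 z hzZ
  obtain ⟨L, hLd⟩ : ∃ L : ℝ, L = Real.log z := ⟨_, rfl⟩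
  rw [← hLd] at hL hL3 hz1
  have hL200 : 200 ≤ L := (le_max_left _ _).trans hL
  have hLC : 40 * C ≤ L := (le_max_left _ _).trans ((le_max_right _ _).trans hL)
  have hLn : (5 * n0 : ℝ) ≤ L := (le_max_right _ _).trans ((le_max_right _ _).trans hL)
  have hzp0 : 2 * p0 ≤ z := (le_max_left _ _).trans hzp
  have hz3 : 3 ≤ z := (le_max_right _ _).trans hzp
  have hzr : (3 : ℝ) ≤ z := by exact_mod_cast hz3
  have hz0 : (0 : ℝ) < z := by linarith
  have hL0 : 0 < L := by linarith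
  have hzL : L * (L + 2) ≤ z := by nlinarith
  set u : ℝ := z * (1 - 19 / 10 / L) with hu
  set v : ℝ := z * (1 - 11 / 10 / L) with hv
  have d1 : 19 / 10 / L ≤ 19 / 2000 := by
    rw [div_le_iff₀ hL0]
    linarith
  have d2 : 11 / 10 / L ≤ 19 / 10 / L := div_le_div_of_nonneg_right (by norm_num) hL0.le
  have d3 : 0 < 11 / 10 / L := by positivity
  have huv : u ≤ v := mul_le_mul_of_nonneg_left (by linarith) hz0.le
  have hu2 : (z : ℝ) / 2 ≤ u := by
    rw [hu]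
    nlinarith
  have hvz : v ≤ z := by
    rw [hv]
    nlinarith
  have hfl : ⌊u⌋₊ ≤ ⌊v⌋₊ := Nat.floor_le_floor huv
  have hz40 : (40000 : ℝ) ≤ z := by nlinarith
  have hlogu : L / 2 ≤ Real.log u := by
    have h1 : Real.log ((z : ℝ) / 2) ≤ Real.log u := Real.log_le_log (by positivity) hu2
    rw [Real.log_div hz0.ne' (by norm_num), ← hLd] at h1
    have := Real.log_two_lt_d9
    linarith
  have hlogv : L / 2 ≤ Real.log v := hlogu.trans (Real.log_le_log (by linarith) huv)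
  have key : ∀ x : ℝ, (z : ℝ) / 2 ≤ x → x ≤ z → L / 2 ≤ Real.log x →
      |Pool.Agent.Lib.SW.thetaAP x 1 1 - x| ≤ 4 * C * z / L ^ 2 := by
    intro x hx hxz hlx
    have h1 := hSW x (by linarith) 1 1 le_rfl (by
      rw [Nat.cast_one]
      have : (1 : ℝ) ≤ Real.log x := by linarith
      exact one_le_pow₀ this) (by norm_num)
    rw [Nat.totient_one, Nat.cast_one, div_one] at h1
    refine h1.trans ?_
    have h2 : (L / 2) ^ 2 ≤ Real.log x ^ 2 := pow_le_pow_left₀ (by positivity) hlx 2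
    calc C * x / Real.log x ^ 2 ≤ C * z / (L / 2) ^ 2 := by
          refine div_le_div₀ (by positivity) ?_ (by positivity) h2
          exact mul_le_mul_of_nonneg_left hxz hC.le
      _ = 4 * C * z / L ^ 2 := by
          field_simp
          norm_num
  have k1 := abs_le.1 (key u hu2 (huv.trans hvz) hlogu)
  have k2 := abs_le.1 (key v (hu2.trans huv) hvz hlogv)
  have hsub := theta_sub u v hfl
  refine ⟨(Ioc ⌊u⌋₊ ⌊v⌋₊).filter Nat.Prime, ?_, ?_⟩
  · have h1 : ∑ p ∈ (Ioc ⌊u⌋₊ ⌊v⌋₊).filter Nat.Prime, Real.log p ≤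
        (((Ioc ⌊u⌋₊ ⌊v⌋₊).filter Nat.Prime).card : ℝ) * L := by
      have h2 : ∀ p ∈ (Ioc ⌊u⌋₊ ⌊v⌋₊).filter Nat.Prime, Real.log p ≤ L := by
        intro p hp
        rw [mem_filter, mem_Ioc] at hp
        have h3 : (p : ℝ) ≤ v := (Nat.le_floor_iff (by linarith)).1 hp.1.2
        rw [hLd]
        exact Real.log_le_log (by exact_mod_cast hp.2.pos) (h3.trans hvz)
      refine (sum_le_sum h2).trans (le_of_eq ?_)
      rw [sum_const, nsmul_eq_mul]
    rw [← hsub] at h1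
    have h3 : v - u = 4 / 5 * z / L := by
      rw [hu, hv]
      field_simp
      ring
    have h4 : 4 * C * z / L ^ 2 ≤ z / L / 10 := by
      rw [div_le_iff₀ (by positivity)]
      have e : (z : ℝ) / L / 10 * L ^ 2 = z * L / 10 := by
        field_simp
      rw [e]
      have := mul_le_mul_of_nonneg_right hLC hz0.le
      linarith
    have h5 : z / L / 5 ≤ (((Ioc ⌊u⌋₊ ⌊v⌋₊).filter Nat.Prime).card : ℝ) * L := by
      have e : 4 / 5 * (z : ℝ) / L = 4 / 5 * (z / L) := by ring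
      rw [e] at h3
      have : 0 ≤ (z : ℝ) / L := by positivity
      linarith
    have h6 : (n0 : ℝ) * L ≤ z / L / 5 := by
      rw [div_div, le_div_iff₀ (by positivity)]
      calc (n0 : ℝ) * L * (L * 5) = 5 * n0 * L ^ 2 := by ring
        _ ≤ L * L ^ 2 := mul_le_mul_of_nonneg_right hLn (by positivity)
        _ = L ^ 3 := by ring
        _ ≤ z := hL3
    have h7 := le_of_mul_le_mul_right (h6.trans h5) hL0
    exact_mod_cast h7
  · intro p hp
    rw [mem_filter, mem_Ioc] at hp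
    have h1 : u < p := (Nat.floor_lt (by linarith)).1 hp.1.1
    have h2 : (p : ℝ) ≤ v := (Nat.le_floor_iff (by linarith)).1 hp.1.2
    have hp0 : (0 : ℝ) < p := by exact_mod_cast hp.2.pos
    refine ⟨hp.2, ?_, ?_, lam_bounds hLd hL200 hzL hz1 hz2 h1 h2⟩
    · have h3 : (2 * p0 : ℝ) ≤ z := by exact_mod_cast hzp0
      have h4 : (p0 : ℝ) ≤ p := by linarith
      exact_mod_cast h4
    · have h3 : Real.log p ≤ L := by
        rw [hLd]
        exact Real.log_le_log hp0 (h2.trans hvz)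
      have h4 : (p : ℝ) * Real.log p ≤ z * L :=
        mul_le_mul (h2.trans hvz) h3 (Real.log_natCast_nonneg p) hz0.le
      have h5 : (0 : ℝ) ≤ r := Nat.cast_nonneg r
      linarith

end Pool.Agent.Lib.LEN
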