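import Pool.Agent.Lib.LEN.JBoxS
import Pool.Agent.Lib.LEN.ZCrt
import Pool.Agent.Lib.LEN.ZFou
import Pool.Agent.Lib.LEN.ZLoc
import Pool.Agent.Lib.LEN.ZPr

/-!
# LEN.ZAnti: anti-concentration of the number of the good classes

`nA w a = ∏_(p ≤ w) Z_p`, `Z_p = p - ν_p(a)`; `X a = log (nA w a)`. By `z_window` with `τ = 1/(M ℓ)` the number of the
`a` with `X a` in a window of length `ℓ` is at most `4/M^2 ∑_(j, k) |∑_a exp (i θ X a)|`, `θ = (j - k) τ`; the diagonal gives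
`4/M`, and off the diagonal the sum is a product over `p` in which each of the `n0` primes of `z_pr` gives a factor
`≤ 1 - δ κ`: `|N1 + N2 exp (i φ)| ≤ N1 + N2 - δ G κ`, `φ = θ log 2`, `|1 + exp (i φ)| ≤ 2 - κ`, `κ = φ0^2/π^2`.
-/

set_option autoImplicit false

open Finset Filter

namespace Pool.Agent.Lib.LEN

open Pool.Agent.HLB Pool.Agent.HLT Pool.Agent.HLR Pool.Agent.Lib.GMV

namespace ZAntiAux

/-- The number of the good classes as a product. -/
lemma nA_prod (w : ℕ) {r : ℕ} (a : Fin r → ℕ) :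
    (nA w a : ℝ) = ∏ p ∈ Nat.primesLE w, ((p : ℝ) - nuI a p) := by
  classical
  have h1 := JCrtAux.crt_prod1 (Nat.primesLE w) (fun p hp => (Nat.mem_primesLE.1 hp).2)
    (fun p n => JBoxAux.ee p a n) (by
      intro p hp n
      have hpp : p.Prime := (Nat.mem_primesLE.1 hp).2
      unfold JBoxAux.ee
      refine prod_congr rfl fun i _ => ?_
      have : p ∣ n % p + a i ↔ p ∣ n + a i := by
        rw [Nat.dvd_iff_mod_eq_zero, Nat.dvd_iff_mod_eq_zero, Nat.mod_add_mod]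
      simp only [this])
  have hPP : ∏ q ∈ Nat.primesLE w, q = PP w := rfl
  rw [hPP] at h1
  rw [← prod_congr rfl fun p hp => JBoxAux.sum_ee (Nat.mem_primesLE.1 hp).2 a, ← h1]
  unfold nA
  rw [card_filter]
  push_cast
  refine sum_congr rfl fun n _ => ?_
  have h2 : ∏ p ∈ Nat.primesLE w, JBoxAux.ee p a n =
      ∏ p ∈ Nat.primesLE w, if (∀ i, ¬ p ∣ n + a i) then (1 : ℝ) else 0 := by
    refine prod_congr rfl fun p _ => ?_
    unfold JBoxAux.ee
    have h3 : ∀ i, (if p ∣ n + a i then (0 : ℝ) else 1) = if ¬ p ∣ n + a i then 1 else 0 := by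
      intro i
      split_ifs <;> simp_all
    simp only [h3]
    rw [Finset.prod_boole]
    simp only [mem_univ, true_implies]
  rw [h2, Finset.prod_boole]
  congr 1
  unfold Good
  refine propext ⟨fun h p hp i => ?_, fun h i => ?_⟩
  · exact Cls0.coprime_PP_iff.1 (h i) p hp
  · exact Cls0.coprime_PP_iff.2 fun p hp => h p hp i

/-- `|1 + exp (i φ)| ≤ 2 - φ0^2/π^2` for `φ0 ≤ |φ| ≤ π`. -/
lemma one_add_exp {φ φ0 : ℝ} (h0 : 0 ≤ φ0) (h1 : φ0 ≤ |φ|) (h2 : |φ| ≤ Real.pi) :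
    ‖(1 : ℂ) + Complex.exp ((φ : ℂ) * Complex.I)‖ ≤ 2 - φ0 ^ 2 / Real.pi ^ 2 := by
  have hπ := Real.pi_pos
  have hcos := Real.cos_le_one_sub_mul_cos_sq h2
  have hsq : φ0 ^ 2 ≤ φ ^ 2 := by
    rw [← sq_abs φ]
    exact pow_le_pow_left₀ h0 h1 2
  obtain ⟨t, ht⟩ : ∃ t : ℝ, t = φ0 ^ 2 / Real.pi ^ 2 := ⟨_, rfl⟩
  have ht1 : t ≤ 1 := by
    rw [ht, div_le_one (by positivity)]
    exact pow_le_pow_left₀ h0 (h1.trans h2) 2
  have ht2 : 2 / Real.pi ^ 2 * φ ^ 2 ≥ 2 * t := by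
    rw [ht]
    have : 2 * (φ0 ^ 2 / Real.pi ^ 2) = 2 / Real.pi ^ 2 * φ0 ^ 2 := by ring
    rw [this]
    exact mul_le_mul_of_nonneg_left hsq (by positivity)
  have hns : ‖(1 : ℂ) + Complex.exp ((φ : ℂ) * Complex.I)‖ ^ 2 = 2 + 2 * Real.cos φ := by
    rw [Complex.exp_mul_I, ← Complex.ofReal_cos, ← Complex.ofReal_sin, Complex.sq_norm,
      Complex.normSq_apply]
    simp only [Complex.add_re, Complex.one_re, Complex.ofReal_re, Complex.mul_re, Complex.I_re,
      Complex.ofReal_im, Complex.I_im, Complex.add_im, Complex.one_im, Complex.mul_im]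
    have := Real.sin_sq_add_cos_sq φ
    nlinarith
  rw [← ht]
  have hcos2 : Real.cos φ ≤ 1 - 2 * t := by linarith
  refine le_of_sq_le_sq (b := 2 - t) ?_ (by linarith)
  rw [hns]
  have e1 : (2 - t) ^ 2 = 4 - 4 * t + t ^ 2 := by ring
  have e2 := sq_nonneg t
  linarith

/-- the local function -/
noncomputable def uz {r : ℕ} (θ : ℝ) (p : ℕ) (a : Fin r → ℕ) : ℂ :=
  if nuI a p < p then Complex.exp (((θ * Real.log ((p : ℝ) - nuI a p) : ℝ) : ℂ) * Complex.I) else 0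

lemma norm_uz {r : ℕ} (θ : ℝ) (p : ℕ) (a : Fin r → ℕ) (h : nuI a p < p) : ‖uz θ p a‖ = 1 := by
  unfold uz
  rw [if_pos h, Complex.norm_exp_ofReal_mul_I]

/-- the arrangements with a missed class -/
def Gz (p r : ℕ) : Finset (Fin r → ℕ) :=
  (Fintype.piFinset fun _ : Fin r => range p).filter fun a => nuI a p < p

lemma mem_Gz {p r : ℕ} {a : Fin r → ℕ} (ha : a ∈ Gz p r) : nuI a p < p := by
  unfold Gz at ha
  exact (mem_filter.1 ha).2

lemma sum_uz {r : ℕ} (θ : ℝ) (p : ℕ) :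
    ∑ a ∈ Fintype.piFinset (fun _ : Fin r => range p), uz θ p a = ∑ a ∈ Gz p r, uz θ p a := by
  unfold Gz
  rw [sum_filter]
  refine sum_congr rfl fun a _ => ?_
  split_ifs with h
  · rfl
  · unfold uz
    rw [if_neg h]

lemma loc_trivial (r : ℕ) (θ : ℝ) (p : ℕ) :
    ‖∑ a ∈ Fintype.piFinset (fun _ : Fin r => range p), uz θ p a‖ ≤ (Gz p r).card := by
  rw [sum_uz]
  refine (norm_sum_le _ _).trans ?_
  rw [sum_congr rfl fun a ha => norm_uz θ p a (mem_Gz ha), sum_const, nsmul_eq_mul, mul_one]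

/-- a special prime -/
lemma loc_special (r : ℕ) (θ φ0 δ : ℝ) (p : ℕ) (hδ : 0 ≤ δ) (h0 : 0 ≤ φ0)
    (h1 : φ0 ≤ |θ * Real.log 2|) (h2 : |θ * Real.log 2| ≤ Real.pi)
    (hN1 : δ * ((Gz p r).card : ℝ) ≤
      (((Fintype.piFinset fun _ : Fin r => range p).filter fun a => nuI a p + 1 = p).card : ℝ))
    (hN2 : δ * ((Gz p r).card : ℝ) ≤
      (((Fintype.piFinset fun _ : Fin r => range p).filter fun a => nuI a p + 2 = p).card : ℝ)) :
    ‖∑ a ∈ Fintype.piFinset (fun _ : Fin r => range p), uz θ p a‖ ≤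
      (1 - δ * (φ0 ^ 2 / Real.pi ^ 2)) * (Gz p r).card := by
  classical
  obtain ⟨A1, hA1⟩ : ∃ A1 : Finset (Fin r → ℕ), A1 =
    (Fintype.piFinset fun _ : Fin r => range p).filter fun a => nuI a p + 1 = p := ⟨_, rfl⟩
  obtain ⟨A2, hA2⟩ : ∃ A2 : Finset (Fin r → ℕ), A2 =
    (Fintype.piFinset fun _ : Fin r => range p).filter fun a => nuI a p + 2 = p := ⟨_, rfl⟩
  rw [← hA1] at hN1
  rw [← hA2] at hN2
  obtain ⟨D, hD⟩ : ∃ D : ℝ, D = δ * ((Gz p r).card : ℝ) := ⟨_, rfl⟩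
  rw [← hD] at hN1 hN2
  have hD0 : 0 ≤ D := by rw [hD]; positivity
  have hsub : A1 ∪ A2 ⊆ Gz p r := by
    intro a ha
    rw [mem_union, hA1, hA2, mem_filter, mem_filter] at ha
    unfold Gz
    rw [mem_filter]
    rcases ha with ha | ha
    · exact ⟨ha.1, by omega⟩
    · exact ⟨ha.1, by omega⟩
  have hdisj : Disjoint A1 A2 := by
    rw [Finset.disjoint_left]
    intro a ha hb
    rw [hA1, mem_filter] at ha
    rw [hA2, mem_filter] at hb
    omega
  have hcard : ((Gz p r \ (A1 ∪ A2)).card : ℝ) = (Gz p r).card - A1.card - A2.card := by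
    have e1 := card_sdiff_add_card_eq_card hsub
    rw [card_union_of_disjoint hdisj] at e1
    have e2 : ((Gz p r \ (A1 ∪ A2)).card : ℝ) + (A1.card + A2.card) = (Gz p r).card := by
      exact_mod_cast e1
    linarith
  have hs1 : ∑ a ∈ A1, uz θ p a = (A1.card : ℂ) := by
    have e1 : ∀ a ∈ A1, uz θ p a = 1 := by
      intro a ha
      rw [hA1, mem_filter] at ha
      unfold uz
      rw [if_pos (by omega)]
      have e2 : (p : ℝ) - nuI a p = 1 := by
        have : ((nuI a p + 1 : ℕ) : ℝ) = p := by exact_mod_cast ha.2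
        push_cast at this
        linarith
      rw [e2, Real.log_one, mul_zero]
      simp
    rw [sum_congr rfl e1, sum_const, nsmul_eq_mul, mul_one]
  have hs2 : ∑ a ∈ A2, uz θ p a = (A2.card : ℂ) *
      Complex.exp (((θ * Real.log 2 : ℝ) : ℂ) * Complex.I) := by
    have e1 : ∀ a ∈ A2, uz θ p a = Complex.exp (((θ * Real.log 2 : ℝ) : ℂ) * Complex.I) := by
      intro a ha
      rw [hA2, mem_filter] at ha
      unfold uz
      rw [if_pos (by omega)]
      have e2 : (p : ℝ) - nuI a p = 2 := by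
        have : ((nuI a p + 2 : ℕ) : ℝ) = p := by exact_mod_cast ha.2
        push_cast at this
        linarith
      rw [e2]
    rw [sum_congr rfl e1, sum_const, nsmul_eq_mul]
  have hrest : ‖∑ a ∈ Gz p r \ (A1 ∪ A2), uz θ p a‖ ≤ (Gz p r).card - A1.card - A2.card := by
    rw [← hcard]
    refine (norm_sum_le _ _).trans ?_
    rw [sum_congr rfl fun a ha => norm_uz θ p a (mem_Gz (mem_sdiff.1 ha).1), sum_const,
      nsmul_eq_mul, mul_one]
  obtain ⟨E, hE⟩ : ∃ E : ℂ, E = Complex.exp (((θ * Real.log 2 : ℝ) : ℂ) * Complex.I) := ⟨_, rfl⟩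
  have hEn : ‖E‖ = 1 := by rw [hE, Complex.norm_exp_ofReal_mul_I]
  have hone : ‖(1 : ℂ) + E‖ ≤ 2 - φ0 ^ 2 / Real.pi ^ 2 := by
    rw [hE]
    exact one_add_exp h0 h1 h2
  have hmid : ‖(A1.card : ℂ) + (A2.card : ℂ) * E‖ ≤
      A1.card + A2.card - D * (φ0 ^ 2 / Real.pi ^ 2) := by
    have e1 : (A1.card : ℂ) + (A2.card : ℂ) * E = (D : ℂ) * (1 + E) +
        (((A1.card : ℝ) - D : ℝ) : ℂ) + (((A2.card : ℝ) - D : ℝ) : ℂ) * E := by
      push_cast
      ring
    rw [e1]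
    have e2 : ‖(D : ℂ) * (1 + E)‖ ≤ D * (2 - φ0 ^ 2 / Real.pi ^ 2) := by
      rw [norm_mul, Complex.norm_real, Real.norm_eq_abs, abs_of_nonneg hD0]
      exact mul_le_mul_of_nonneg_left hone hD0
    have e3 : ‖(((A1.card : ℝ) - D : ℝ) : ℂ)‖ = A1.card - D := by
      rw [Complex.norm_real, Real.norm_eq_abs, abs_of_nonneg (by linarith)]
    have e4 : ‖(((A2.card : ℝ) - D : ℝ) : ℂ) * E‖ = A2.card - D := by
      rw [norm_mul, hEn, mul_one, Complex.norm_real, Real.norm_eq_abs, abs_of_nonneg (by linarith)]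
    have e5 := norm_add_le ((D : ℂ) * (1 + E) + (((A1.card : ℝ) - D : ℝ) : ℂ))
      ((((A2.card : ℝ) - D : ℝ) : ℂ) * E)
    have e6 := norm_add_le ((D : ℂ) * (1 + E)) ((((A1.card : ℝ) - D : ℝ) : ℂ))
    rw [e4] at e5
    rw [e3] at e6
    linarith
  rw [sum_uz, ← sum_sdiff hsub, sum_union hdisj, hs1, hs2, ← hE]
  have e7 := norm_add_le (∑ a ∈ Gz p r \ (A1 ∪ A2), uz θ p a) ((A1.card : ℂ) + (A2.card : ℂ) * E)
  have e8 : (1 - δ * (φ0 ^ 2 / Real.pi ^ 2)) * ((Gz p r).card : ℝ) =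
      (Gz p r).card - D * (φ0 ^ 2 / Real.pi ^ 2) := by
    rw [hD]
    ring
  rw [e8]
  linarith

/-- the number of the admissible classes -/
lemma card_AC (w r : ℕ) : ((AC w r).card : ℝ) = ∏ p ∈ Nat.primesLE w, ((Gz p r).card : ℝ) := by
  classical
  obtain ⟨v, hv⟩ : ∃ v : ℕ → (Fin r → ℕ) → ℝ, v = fun q a =>
    (if nuI a q < q then (1 : ℝ) else 0) := ⟨_, rfl⟩
  have hS : ∀ q ∈ Nat.primesLE w, q.Prime := fun q hq => (Nat.mem_primesLE.1 hq).2
  have hv1 : ∀ q ∈ Nat.primesLE w, ∀ x, v q (fun i => x i % q) = v q x := by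
    intro q _ x
    rw [hv]
    simp only [JBoxSAux.nuI_mod]
  have hcv := JCrtAux.crt_prod (r := r) (Nat.primesLE w) hS v hv1
  have hPP : ∏ q ∈ Nat.primesLE w, q = PP w := rfl
  rw [hPP] at hcv
  have hprod : ∀ x : Fin r → ℕ, ∏ q ∈ Nat.primesLE w, v q x =
      if ∀ q ∈ Nat.primesLE w, nuI x q < q then 1 else 0 := by
    intro x
    rw [hv]
    exact Finset.prod_boole
  have e1 : ((AC w r).card : ℝ) =
      ∑ x ∈ Fintype.piFinset (fun _ : Fin r => range (PP w)), ∏ q ∈ Nat.primesLE w, v q x := by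
    simp only [hprod]
    rw [sum_boole]
    congr 2
  rw [e1, hcv]
  refine prod_congr rfl fun p _ => ?_
  rw [hv]
  simp only
  rw [sum_boole]
  rfl

/-- the exponential sum is a product -/
lemma exp_sum (w r : ℕ) (θ : ℝ) :
    ∑ a ∈ AC w r, Complex.exp (((θ * Real.log (nA w a) : ℝ) : ℂ) * Complex.I) =
      ∏ p ∈ Nat.primesLE w, ∑ a ∈ Fintype.piFinset (fun _ : Fin r => range p), uz θ p a := by
  classical
  have hS : ∀ q ∈ Nat.primesLE w, q.Prime := fun q hq => (Nat.mem_primesLE.1 hq).2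
  have hu1 : ∀ q ∈ Nat.primesLE w, ∀ x : Fin r → ℕ, uz θ q (fun i => x i % q) = uz θ q x := by
    intro q _ x
    unfold uz
    simp only [JBoxSAux.nuI_mod]
  have hcu := crt_prodC (r := r) (Nat.primesLE w) hS (fun p a => uz θ p a) hu1
  have hPP : ∏ q ∈ Nat.primesLE w, q = PP w := rfl
  rw [hPP] at hcu
  rw [← hcu]
  have h1 : ∀ x : Fin r → ℕ, ∏ q ∈ Nat.primesLE w, uz θ q x =
      if ∀ q ∈ Nat.primesLE w, nuI x q < q then
        Complex.exp (((θ * Real.log (nA w x) : ℝ) : ℂ) * Complex.I) else 0 := by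
    intro x
    split_ifs with h
    · have e1 : ∀ q ∈ Nat.primesLE w, uz θ q x =
          Complex.exp (((θ * Real.log ((q : ℝ) - nuI x q) : ℝ) : ℂ) * Complex.I) := by
        intro q hq
        unfold uz
        rw [if_pos (h q hq)]
      rw [prod_congr rfl e1, ← Complex.exp_sum, ← sum_mul]
      congr 2
      rw [← Complex.ofReal_sum, ← mul_sum]
      congr 2
      rw [nA_prod, Real.log_prod]
      intro q hq
      have : (nuI x q : ℝ) < q := by exact_mod_cast h q hq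
      linarith
    · push Not at h
      obtain ⟨q, hq, hq2⟩ := h
      refine prod_eq_zero hq ?_
      unfold uz
      rw [if_neg (not_lt.2 hq2)]
  simp only [h1]
  rw [← sum_filter]
  refine sum_congr ?_ fun _ _ => rfl
  unfold AC
  congr!

end ZAntiAux

open ZAntiAux

/-- Anti-concentration of the number of the good classes. -/
theorem z_anti (K η : ℝ) (hK : 1 ≤ K) (hη : 0 < η) : ∃ r0 : ℕ, ∀ r w : ℕ, r0 ≤ r →
    (∀ p : ℕ, (p : ℝ) * Real.log p ≤ 2 * r → p ≤ w) → ∀ x : ℝ, 0 < x →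
    (((AC w r).filter (fun a => x ≤ (nA w a : ℝ) ∧ (nA w a : ℝ) ≤ K * x)).card : ℝ) ≤
      η * (AC w r).card := by
  classical
  obtain ⟨δ, hδ, p0, hloc⟩ := z_loc
  obtain ⟨ℓ, hℓ⟩ : ∃ ℓ : ℝ, ℓ = Real.log (max K 2) := ⟨_, rfl⟩
  have hl2 : 0 < Real.log 2 := Real.log_pos (by norm_num)
  have hℓ2 : Real.log 2 ≤ ℓ := by
    rw [hℓ]
    exact Real.log_le_log (by norm_num) (le_max_right _ _)
  have hℓ0 : 0 < ℓ := lt_of_lt_of_le hl2 hℓ2
  obtain ⟨M, hM⟩ : ∃ M : ℕ, M = ⌈8 / η⌉₊ + 1 := ⟨_, rfl⟩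
  have hM1 : 1 ≤ M := by omega
  have hMr : (0 : ℝ) < M := by exact_mod_cast (by omega : 0 < M)
  have hMη : 4 / (M : ℝ) ≤ η / 2 := by
    have h1 : 8 / η ≤ M := by
      have := Nat.le_ceil (8 / η)
      rw [hM]
      push_cast
      linarith
    rw [div_le_iff₀ hη] at h1
    rw [div_le_iff₀ hMr]
    linarith
  obtain ⟨τ, hτ⟩ : ∃ τ : ℝ, τ = 1 / (M * ℓ) := ⟨_, rfl⟩
  have hτ0 : 0 < τ := by rw [hτ]; positivity
  have hMτ : M * τ * ℓ = 1 := by
    rw [hτ]
    field_simp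
  obtain ⟨φ0, hφ0⟩ : ∃ φ0 : ℝ, φ0 = τ * Real.log 2 := ⟨_, rfl⟩
  have hφ : 0 < φ0 := by rw [hφ0]; positivity
  have hπ := Real.pi_pos
  obtain ⟨ρ, hρ⟩ : ∃ ρ : ℝ, ρ = max (1 - δ * (φ0 ^ 2 / Real.pi ^ 2)) (1 / 2) := ⟨_, rfl⟩
  have hρ0 : 0 ≤ ρ := by
    rw [hρ]
    exact le_trans (by norm_num) (le_max_right _ _)
  have hρ1 : ρ < 1 := by
    rw [hρ]
    refine max_lt ?_ (by norm_num)
    have : 0 < δ * (φ0 ^ 2 / Real.pi ^ 2) := by positivity
    linarith
  obtain ⟨n0, hn0⟩ := exists_pow_lt_of_lt_one (show 0 < η / 8 by positivity) hρ1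
  obtain ⟨r0, hr0⟩ := z_pr n0 p0
  refine ⟨r0, fun r w hr hw x hx => ?_⟩
  obtain ⟨P, hPc, hP⟩ := hr0 r hr
  have hPsub : P ⊆ Nat.primesLE w := by
    intro p hp
    obtain ⟨h1, -, h3, -, -⟩ := hP p hp
    exact Nat.mem_primesLE.2 ⟨hw p h3, h1⟩
  -- the off-diagonal sums
  have hoff : ∀ θ : ℝ, τ ≤ |θ| → |θ| ≤ M * τ →
      ‖∑ a ∈ AC w r, Complex.exp (((θ * Real.log (nA w a) : ℝ) : ℂ) * Complex.I)‖ ≤
        η / 8 * (AC w r).card := by
    intro θ h1 h2
    rw [exp_sum, norm_prod]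
    have h3 : φ0 ≤ |θ * Real.log 2| := by
      rw [abs_mul, abs_of_pos hl2, hφ0]
      exact mul_le_mul_of_nonneg_right h1 hl2.le
    have h4 : |θ * Real.log 2| ≤ Real.pi := by
      rw [abs_mul, abs_of_pos hl2]
      calc |θ| * Real.log 2 ≤ M * τ * ℓ := mul_le_mul h2 hℓ2 hl2.le (by positivity)
        _ = 1 := hMτ
        _ ≤ Real.pi := by linarith [Real.pi_gt_three]
    have h5 : ∀ p ∈ Nat.primesLE w,
        ‖∑ a ∈ Fintype.piFinset (fun _ : Fin r => range p), uz θ p a‖ ≤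
          (if p ∈ P then ρ else 1) * ((Gz p r).card : ℝ) := by
      intro p _
      split_ifs with hp
      · obtain ⟨a1, a2, -, a4, a5⟩ := hP p hp
        obtain ⟨b1, b2⟩ := hloc p a1 a2 r a4 a5
        refine (loc_special r θ φ0 δ p hδ.le hφ.le h3 h4 b1 b2).trans ?_
        refine mul_le_mul_of_nonneg_right ?_ (Nat.cast_nonneg _)
        rw [hρ]
        exact le_max_left _ _
      · rw [one_mul]
        exact loc_trivial r θ p
    refine (prod_le_prod (fun p _ => norm_nonneg _) h5).trans ?_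
    rw [prod_mul_distrib, ← card_AC]
    refine mul_le_mul_of_nonneg_right ?_ (Nat.cast_nonneg _)
    have h6 : ∏ p ∈ Nat.primesLE w, (if p ∈ P then ρ else 1) = ρ ^ P.card := by
      rw [← prod_filter, prod_const]
      congr 2
      ext p
      rw [mem_filter]
      exact ⟨fun h => h.2, fun h => ⟨hPsub h, h⟩⟩
    rw [h6]
    exact (pow_le_pow_of_le_one hρ0 hρ1.le hPc).trans hn0.le
  have hwin := z_window (AC w r) (fun a => Real.log (nA w a)) (Real.log x) ℓ τ M hM1 hℓ0.le hτ0.le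
    hMτ.le
  have hsub : (AC w r).filter (fun a => x ≤ (nA w a : ℝ) ∧ (nA w a : ℝ) ≤ K * x) ⊆
      (AC w r).filter (fun a => Real.log x ≤ Real.log (nA w a) ∧
        Real.log (nA w a) ≤ Real.log x + ℓ) := by
    intro a ha
    rw [mem_filter] at ha ⊢
    obtain ⟨h1, h2, h3⟩ := ha
    refine ⟨h1, Real.log_le_log hx h2, ?_⟩
    have h4 : (nA w a : ℝ) ≤ x * max K 2 := by
      refine h3.trans ?_
      rw [mul_comm]
      exact mul_le_mul_of_nonneg_left (le_max_left _ _) hx.le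
    have h5 : 0 < (nA w a : ℝ) := lt_of_lt_of_le hx h2
    have h6 := Real.log_le_log h5 h4
    rw [Real.log_mul hx.ne' (by have := le_max_right K 2; linarith), ← hℓ] at h6
    exact h6
  have hcard : (((AC w r).filter (fun a => x ≤ (nA w a : ℝ) ∧ (nA w a : ℝ) ≤ K * x)).card : ℝ) ≤
      (((AC w r).filter (fun a => Real.log x ≤ Real.log (nA w a) ∧
        Real.log (nA w a) ≤ Real.log x + ℓ)).card : ℝ) := by exact_mod_cast card_le_card hsub
  refine hcard.trans (hwin.trans ?_)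
  -- the double sum
  have hterm : ∀ j ∈ range M, ∀ k ∈ range M,
      ‖∑ a ∈ AC w r, Complex.exp ((((j : ℝ) - k) * τ * Real.log (nA w a) : ℝ) * Complex.I)‖ ≤
        (if j = k then 1 else 0) * ((AC w r).card : ℝ) + η / 8 * (AC w r).card := by
    intro j hj k hk
    rw [mem_range] at hj hk
    have hc0 : (0 : ℝ) ≤ (AC w r).card := Nat.cast_nonneg _
    split_ifs with hjk
    · have e1 : ‖∑ a ∈ AC w r,
          Complex.exp ((((j : ℝ) - k) * τ * Real.log (nA w a) : ℝ) * Complex.I)‖ ≤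
          (AC w r).card := by
        refine (norm_sum_le _ _).trans ?_
        rw [sum_congr rfl fun a _ => Complex.norm_exp_ofReal_mul_I _, sum_const, nsmul_eq_mul,
          mul_one]
      have : 0 ≤ η / 8 * ((AC w r).card : ℝ) := by positivity
      linarith
    · rw [zero_mul, zero_add]
      refine hoff (((j : ℝ) - k) * τ) ?_ ?_
      · rw [abs_mul, abs_of_pos hτ0]
        have h1 : (1 : ℝ) ≤ |(j : ℝ) - k| := by
          have h2 : (1 : ℤ) ≤ |(j : ℤ) - k| := Int.one_le_abs (sub_ne_zero.2 (by exact_mod_cast hjk))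
          exact_mod_cast h2
        nlinarith
      · rw [abs_mul, abs_of_pos hτ0]
        refine mul_le_mul_of_nonneg_right ?_ hτ0.le
        have hjr : (j : ℝ) ≤ M := by exact_mod_cast hj.le
        have hkr : (k : ℝ) ≤ M := by exact_mod_cast hk.le
        have hj0 : (0 : ℝ) ≤ j := Nat.cast_nonneg _
        have hk0 : (0 : ℝ) ≤ k := Nat.cast_nonneg _
        rw [abs_le]
        exact ⟨by linarith, by linarith⟩
  have hdouble : ∑ j ∈ range M, ∑ k ∈ range M,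
      ‖∑ a ∈ AC w r, Complex.exp ((((j : ℝ) - k) * τ * Real.log (nA w a) : ℝ) * Complex.I)‖ ≤
      M * ((AC w r).card : ℝ) + (M : ℝ) ^ 2 * (η / 8 * (AC w r).card) := by
    refine (sum_le_sum fun j hj => sum_le_sum fun k hk => hterm j hj k hk).trans (le_of_eq ?_)
    have h1 : ∀ j ∈ range M, ∑ k ∈ range M,
        ((if j = k then (1 : ℝ) else 0) * ((AC w r).card : ℝ) + η / 8 * (AC w r).card) =
        (AC w r).card + M * (η / 8 * (AC w r).card) := by
      intro j hj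
      rw [sum_add_distrib, ← sum_mul, sum_ite_eq, if_pos hj, one_mul, sum_const, card_range,
        nsmul_eq_mul]
    rw [sum_congr rfl h1, sum_const, card_range, nsmul_eq_mul]
    ring
  have hM2 : 0 < (M : ℝ) ^ 2 := by positivity
  calc 4 / (M : ℝ) ^ 2 * ∑ j ∈ range M, ∑ k ∈ range M,
        ‖∑ a ∈ AC w r, Complex.exp ((((j : ℝ) - k) * τ * Real.log (nA w a) : ℝ) * Complex.I)‖ ≤
      4 / (M : ℝ) ^ 2 * (M * ((AC w r).card : ℝ) + (M : ℝ) ^ 2 * (η / 8 * (AC w r).card)) :=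
        mul_le_mul_of_nonneg_left hdouble (by positivity)
    _ = 4 / (M : ℝ) * (AC w r).card + η / 2 * (AC w r).card := by
        field_simp
        ring
    _ ≤ η / 2 * (AC w r).card + η / 2 * (AC w r).card := by
        refine add_le_add (mul_le_mul_of_nonneg_right hMη (Nat.cast_nonneg _)) le_rfl
    _ = η * (AC w r).card := by ring

end Pool.Agent.Lib.LEN
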